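import Pool.Agent.H485.CC.St

/-!
# The local factors
-/

set_option autoImplicit false
set_option maxHeartbeats 4000000

open MeasureTheory Real Finset

namespace Pool.Agent.H485.CC

/-- the local factor of the L-function -/
noncomputable def lf (t : ℝ) (w : ℂ) (θ : ℝ) : ℂ :=
  (1 - (uu 1 θ : ℂ) * (t * w) + (t * w) ^ 2)⁻¹

lemma lf_den (t : ℝ) (w : ℂ) (θ : ℝ) : 1 - (uu 1 θ : ℂ) * (t * w) + (t * w) ^ 2 =
    (1 - Complex.exp (θ * Complex.I) * (t * w)) * (1 - Complex.exp (-(θ * Complex.I)) * (t * w)) := by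
  have h1 : (uu 1 θ : ℂ) = Complex.exp (θ * Complex.I) + Complex.exp (-(θ * Complex.I)) := by
    rw [uu_one]
    push_cast
    rw [Complex.two_cos, neg_mul]
  have h2 : Complex.exp (θ * Complex.I) * Complex.exp (-(θ * Complex.I)) = 1 := by
    rw [← Complex.exp_add, add_neg_cancel, Complex.exp_zero]
  rw [h1]
  linear_combination (-((t : ℂ) * w) ^ 2) * h2

lemma norm_den_ge {t : ℝ} (ht0 : 0 ≤ t) (ht : t ≤ 3 / 4) {w : ℂ} (hw : ‖w‖ ≤ 1) (θ : ℝ) :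
    1 / 16 ≤ ‖1 - (uu 1 θ : ℂ) * (t * w) + (t * w) ^ 2‖ := by
  rw [lf_den, norm_mul]
  have key : ∀ e : ℂ, ‖e‖ = 1 → 1 / 4 ≤ ‖1 - e * (t * w)‖ := by
    intro e he
    have h1 : ‖e * (t * w)‖ ≤ 3 / 4 := by
      rw [norm_mul, he, one_mul, norm_mul, Complex.norm_real, Real.norm_eq_abs, abs_of_nonneg ht0]
      calc t * ‖w‖ ≤ t * 1 := mul_le_mul_of_nonneg_left hw ht0
        _ ≤ _ := by linarith
    have h2 := norm_sub_norm_le (1 : ℂ) (e * (t * w))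
    rw [norm_one] at h2
    linarith
  have h1 := key _ (Complex.norm_exp_ofReal_mul_I θ)
  have h2 := key (Complex.exp (-(θ * Complex.I))) (by
    have := Complex.norm_exp_ofReal_mul_I (-θ)
    push_cast at this
    rwa [neg_mul] at this)
  calc (1 / 16 : ℝ) = 1 / 4 * (1 / 4) := by norm_num
    _ ≤ _ := mul_le_mul h1 h2 (by norm_num) (norm_nonneg _)

lemma norm_lf_le {t : ℝ} (ht0 : 0 ≤ t) (ht : t ≤ 3 / 4) {w : ℂ} (hw : ‖w‖ ≤ 1) (θ : ℝ) :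
    ‖lf t w θ‖ ≤ 16 := by
  unfold lf
  rw [norm_inv]
  have := norm_den_ge ht0 ht hw θ
  rw [inv_le_comm₀ (by linarith) (by norm_num)]
  linarith

lemma continuous_lf {t : ℝ} (ht0 : 0 ≤ t) (ht : t ≤ 3 / 4) {w : ℂ} (hw : ‖w‖ ≤ 1) :
    Continuous (lf t w) := by
  unfold lf
  refine Continuous.inv₀ ?_ fun θ h => ?_
  · have := Complex.continuous_ofReal.comp (continuous_uu 1)
    exact (continuous_const.sub (this.mul continuous_const)).add continuous_const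
  · have := norm_den_ge ht0 ht hw θ
    rw [h, norm_zero] at this
    linarith

lemma lf_approx {t : ℝ} (ht0 : 0 ≤ t) (ht : t ≤ 3 / 4) {w : ℂ} (hw : ‖w‖ ≤ 1) (θ : ℝ) :
    ‖lf t w θ‖ ^ 2 ≤ 1 + 2 * uu 1 θ * t * w.re +
      t ^ 2 * (2 * (uu 1 θ ^ 2 - 1) * (w ^ 2).re + uu 1 θ ^ 2 * ‖w‖ ^ 2) + 81000 * t ^ 3 := by
  set X : ℝ := uu 1 θ with hX
  have hXabs : |X| ≤ 2 := by have := abs_uu_le 1 θ; norm_num at this; exact this
  set a : ℂ := (X : ℂ) * (t * w) with ha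
  set c : ℂ := (t * w) ^ 2 with hc
  have ht1 : t ≤ 1 := by linarith
  have htw : ‖(t : ℂ) * w‖ ≤ t := by
    rw [norm_mul, Complex.norm_real, Real.norm_eq_abs, abs_of_nonneg ht0]
    calc t * ‖w‖ ≤ t * 1 := mul_le_mul_of_nonneg_left hw ht0
      _ = t := mul_one t
  have ha1 : ‖a‖ ≤ 2 * t := by
    rw [ha, norm_mul, Complex.norm_real, Real.norm_eq_abs]
    exact mul_le_mul hXabs htw (norm_nonneg _) (by norm_num)
  have hc1 : ‖c‖ ≤ t ^ 2 := by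
    rw [hc, norm_pow]
    exact pow_le_pow_left₀ (norm_nonneg _) htw 2
  have hD := norm_den_ge ht0 ht hw θ
  set D : ℂ := 1 - (X : ℂ) * (t * w) + (t * w) ^ 2 with hDdef
  have hD' : D = 1 - a + c := rfl
  have hD0 : D ≠ 0 := by
    intro h; rw [h, norm_zero] at hD; linarith
  have hE : lf t w θ = D⁻¹ := rfl
  set q : ℂ := 1 + a + (a ^ 2 - c) with hq
  set r : ℂ := a ^ 3 - 2 * a * c - a ^ 2 * c + c ^ 2 with hr
  have e1 : D⁻¹ = q + D⁻¹ * r := by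
    have : q * D + r = 1 := by rw [hq, hr, hD']; ring
    field_simp
    linear_combination this
  have t2 : 0 ≤ t ^ 2 := by positivity
  have t3 : 0 ≤ t ^ 3 := by positivity
  have ht4 : t ^ 4 ≤ t ^ 3 := by
    calc t ^ 4 = t ^ 3 * t := by ring
      _ ≤ t ^ 3 * 1 := mul_le_mul_of_nonneg_left ht1 t3
      _ = _ := mul_one _
  have ht6 : t ^ 6 ≤ t ^ 3 := by
    calc t ^ 6 = t ^ 3 * t ^ 3 := by ring
      _ ≤ t ^ 3 * 1 := mul_le_mul_of_nonneg_left (pow_le_one₀ ht0 ht1) t3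
      _ = _ := mul_one _
  have hr1 : ‖r‖ ≤ 17 * t ^ 3 := by
    have n1 : ‖a ^ 3‖ ≤ 8 * t ^ 3 := by
      rw [norm_pow]
      calc ‖a‖ ^ 3 ≤ (2 * t) ^ 3 := pow_le_pow_left₀ (norm_nonneg _) ha1 3
        _ = _ := by ring
    have n2 : ‖2 * a * c‖ ≤ 4 * t ^ 3 := by
      rw [norm_mul, norm_mul, Complex.norm_ofNat]
      calc 2 * ‖a‖ * ‖c‖ ≤ 2 * (2 * t) * t ^ 2 :=
            mul_le_mul (by linarith) hc1 (norm_nonneg _) (by positivity)
        _ = _ := by ring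
    have n3 : ‖a ^ 2 * c‖ ≤ 4 * t ^ 4 := by
      rw [norm_mul, norm_pow]
      calc ‖a‖ ^ 2 * ‖c‖ ≤ (2 * t) ^ 2 * t ^ 2 :=
            mul_le_mul (pow_le_pow_left₀ (norm_nonneg _) ha1 2) hc1 (norm_nonneg _) (by positivity)
        _ = _ := by ring
    have n4 : ‖c ^ 2‖ ≤ t ^ 4 := by
      rw [norm_pow]
      calc ‖c‖ ^ 2 ≤ (t ^ 2) ^ 2 := pow_le_pow_left₀ (norm_nonneg _) hc1 2
        _ = _ := by ring
    calc ‖r‖ ≤ ‖a ^ 3 - 2 * a * c - a ^ 2 * c‖ + ‖c ^ 2‖ := norm_add_le _ _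
      _ ≤ ‖a ^ 3 - 2 * a * c‖ + ‖a ^ 2 * c‖ + ‖c ^ 2‖ := by gcongr; exact norm_sub_le _ _
      _ ≤ ‖a ^ 3‖ + ‖2 * a * c‖ + ‖a ^ 2 * c‖ + ‖c ^ 2‖ := by gcongr; exact norm_sub_le _ _
      _ ≤ 17 * t ^ 3 := by linarith
  have hR : ‖D⁻¹ * r‖ ≤ 272 * t ^ 3 := by
    rw [norm_mul, ← hE]
    calc ‖lf t w θ‖ * ‖r‖ ≤ 16 * (17 * t ^ 3) :=
          mul_le_mul (norm_lf_le ht0 ht hw θ) hr1 (norm_nonneg _) (by norm_num)
      _ = _ := by ring
  have hb : ‖a ^ 2 - c‖ ≤ 5 * t ^ 2 := by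
    calc ‖a ^ 2 - c‖ ≤ ‖a ^ 2‖ + ‖c‖ := norm_sub_le _ _
      _ ≤ (2 * t) ^ 2 + t ^ 2 := by
        rw [norm_pow]
        exact add_le_add (pow_le_pow_left₀ (norm_nonneg _) ha1 2) hc1
      _ = _ := by ring
  have hqn : ‖q‖ ≤ 8 := by
    calc ‖q‖ ≤ ‖(1 : ℂ) + a‖ + ‖a ^ 2 - c‖ := norm_add_le _ _
      _ ≤ ‖(1 : ℂ)‖ + ‖a‖ + ‖a ^ 2 - c‖ := by gcongr; exact norm_add_le _ _
      _ ≤ 1 + 2 * t + 5 * t ^ 2 := by rw [norm_one]; linarith
      _ ≤ 8 := by nlinarith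
  have h1 : ‖lf t w θ‖ ≤ ‖q‖ + 272 * t ^ 3 := by
    rw [hE, e1]
    exact (norm_add_le _ _).trans (by linarith)
  have h2 : ‖lf t w θ‖ ^ 2 ≤ ‖q‖ ^ 2 + 80000 * t ^ 3 := by
    calc ‖lf t w θ‖ ^ 2 ≤ (‖q‖ + 272 * t ^ 3) ^ 2 := pow_le_pow_left₀ (norm_nonneg _) h1 2
      _ = ‖q‖ ^ 2 + 544 * (‖q‖ * t ^ 3) + 73984 * t ^ 6 := by ring
      _ ≤ ‖q‖ ^ 2 + 544 * (8 * t ^ 3) + 73984 * t ^ 3 := by
        have := mul_le_mul_of_nonneg_right hqn t3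
        linarith
      _ ≤ _ := by nlinarith
  have h3 : ‖q‖ ^ 2 = 1 + 2 * a.re + ‖a‖ ^ 2 + 2 * (a ^ 2 - c).re +
      2 * ((a ^ 2 - c) * (starRingEnd ℂ) a).re + ‖a ^ 2 - c‖ ^ 2 := by
    simp only [hq, ← Complex.normSq_eq_norm_sq, Complex.normSq_apply, Complex.add_re, Complex.add_im,
      Complex.one_re, Complex.one_im, Complex.mul_re, Complex.conj_re, Complex.conj_im]
    ring
  have h4 : a.re = X * t * w.re := by
    rw [ha, ← mul_assoc, ← Complex.ofReal_mul, Complex.re_ofReal_mul]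
  have h5 : ‖a‖ ^ 2 = t ^ 2 * (X ^ 2 * ‖w‖ ^ 2) := by
    rw [ha, norm_mul, norm_mul, Complex.norm_real, Complex.norm_real, Real.norm_eq_abs,
      Real.norm_eq_abs, mul_pow, mul_pow, sq_abs, sq_abs]
    ring
  have h6 : (a ^ 2 - c).re = t ^ 2 * ((X ^ 2 - 1) * (w ^ 2).re) := by
    have : a ^ 2 - c = ((t ^ 2 * (X ^ 2 - 1) : ℝ) : ℂ) * w ^ 2 := by
      rw [ha, hc]; push_cast; ring
    rw [this, Complex.re_ofReal_mul]
    ring
  have h7 : 2 * ((a ^ 2 - c) * (starRingEnd ℂ) a).re ≤ 20 * t ^ 3 := by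
    have := Complex.re_le_norm ((a ^ 2 - c) * (starRingEnd ℂ) a)
    rw [norm_mul, RCLike.norm_conj] at this
    have h8 : ‖a ^ 2 - c‖ * ‖a‖ ≤ 5 * t ^ 2 * (2 * t) :=
      mul_le_mul hb ha1 (norm_nonneg _) (by positivity)
    have h9 : 5 * t ^ 2 * (2 * t) = 10 * t ^ 3 := by ring
    linarith
  have h8 : ‖a ^ 2 - c‖ ^ 2 ≤ 25 * t ^ 3 := by
    calc ‖a ^ 2 - c‖ ^ 2 ≤ (5 * t ^ 2) ^ 2 := pow_le_pow_left₀ (norm_nonneg _) hb 2
      _ = 25 * t ^ 4 := by ring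
      _ ≤ _ := by linarith
  rw [h3, h4, h5, h6] at h2
  nlinarith

lemma exp_approx {B y t : ℝ} (hB : 0 ≤ B) (ht0 : 0 ≤ t) (ht : t ≤ 1) (hy : |y| ≤ B * t) :
    exp y ≤ 1 + y + y ^ 2 / 2 + (B ^ 3 * exp B) * t ^ 3 := by
  have h1 : |exp y - ∑ m ∈ range 3, y ^ m / m.factorial| ≤ |y| ^ 3 * exp |y| := by
    have := Complex.norm_exp_sub_sum_le_norm_mul_exp (y : ℂ) 3
    rw [Complex.norm_real, Real.norm_eq_abs] at this
    refine le_trans (le_of_eq ?_) this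
    rw [← Real.norm_eq_abs, ← Complex.norm_real]
    congr 1
    push_cast
    rfl
  have h2 : ∑ m ∈ range 3, y ^ m / m.factorial = 1 + y + y ^ 2 / 2 := by
    simp [Finset.sum_range_succ]
  rw [h2] at h1
  have h3 := (abs_le.1 h1).2
  have hBt : B * t ≤ B := by
    calc B * t ≤ B * 1 := mul_le_mul_of_nonneg_left ht hB
      _ = B := mul_one B
  have h4 : |y| ^ 3 * exp |y| ≤ (B * t) ^ 3 * exp B :=
    mul_le_mul (pow_le_pow_left₀ (abs_nonneg _) hy 3) (exp_le_exp.2 (hy.trans hBt))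
      (exp_pos _).le (by positivity)
  have h5 : (B * t) ^ 3 * exp B = B ^ 3 * exp B * t ^ 3 := by ring
  linarith

lemma abs_uu_one (θ : ℝ) : |uu 1 θ| ≤ 2 := by
  have := abs_uu_le 1 θ
  norm_num at this
  exact this

lemma st_quad (a b c : ℝ) : Integrable (fun θ => a + b * uu 1 θ + c * uu 1 θ ^ 2) st ∧
    ∫ θ, (a + b * uu 1 θ + c * uu 1 θ ^ 2) ∂st = a + c := by
  have i1 : Integrable (fun θ => b * uu 1 θ) st :=
    (integrable_st (continuous_uu 1) (C := 2) abs_uu_one).const_mul b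
  have i2 : Integrable (fun θ => c * uu 1 θ ^ 2) st :=
    (integrable_st (g := fun θ => uu 1 θ ^ 2) ((continuous_uu 1).pow 2) (C := 4) fun θ => by
      rw [norm_pow, Real.norm_eq_abs]
      calc |uu 1 θ| ^ 2 ≤ 2 ^ 2 := pow_le_pow_left₀ (abs_nonneg _) (abs_uu_one θ) 2
        _ = 4 := by norm_num).const_mul c
  have i0 : Integrable (fun _ : ℝ => a) st := integrable_const a
  have i01 : Integrable (fun θ => a + b * uu 1 θ) st := i0.add i1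
  refine ⟨i01.add i2, ?_⟩
  rw [integral_add i01 i2, integral_add i0 i1, integral_const_mul, integral_const_mul, st_one,
    st_two]
  simp

/-- the local integrals -/
lemma local_le (B : ℝ) (hB : 0 ≤ B) : ∃ K : ℝ, 0 ≤ K ∧ ∀ (t : ℝ) (w : ℂ) (b : ℝ), 0 ≤ t → t ≤ 3 / 4 →
    ‖w‖ ≤ 1 → |b| ≤ B →
    ∫ θ, exp (b * (uu 1 θ * t)) * ‖lf t w θ‖ ^ 2 ∂st ≤
      1 + t ^ 2 * (‖w‖ ^ 2 + 2 * b * w.re + b ^ 2 / 2) + K * t ^ 3 := by
  set K1 : ℝ := 81000 with hK1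
  set K2 : ℝ := (2 * B) ^ 3 * exp (2 * B) with hK2
  have hK2n : 0 ≤ K2 := by positivity
  -- bound for the cross terms
  set K3 : ℝ := (4 * (2 * B) ^ 2 / 2) + (10 * (2 * B)) + (10 * (2 * B) ^ 2 / 2) +
    K1 * (1 + 2 * B + (2 * B) ^ 2 / 2 + K2) + K2 * (1 + 4 + 10) with hK3
  refine ⟨K3, by positivity, ?_⟩
  intro t w b ht0 ht hw hb
  have ht1 : t ≤ 1 := by linarith
  have t3 : 0 ≤ t ^ 3 := by positivity
  have hpt : ∀ θ : ℝ, exp (b * (uu 1 θ * t)) * ‖lf t w θ‖ ^ 2 ≤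
      1 + (2 * t * w.re + b * t) * uu 1 θ +
        (t ^ 2 * (2 * (w ^ 2).re + ‖w‖ ^ 2) + 2 * b * t ^ 2 * w.re + b ^ 2 * t ^ 2 / 2) * uu 1 θ ^ 2
        + (K3 * t ^ 3 - t ^ 2 * (2 * (w ^ 2).re)) := by
    intro θ
    set X : ℝ := uu 1 θ with hX
    have hXabs : |X| ≤ 2 := by have := abs_uu_le 1 θ; norm_num at this; exact this
    have hXsq : X ^ 2 ≤ 4 := by
      have := sq_abs X
      nlinarith [abs_nonneg X]
    have h1 := lf_approx ht0 ht hw θ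
    rw [← hX] at h1
    set u1 : ℝ := 2 * X * t * w.re with hu1
    set u2 : ℝ := t ^ 2 * (2 * (X ^ 2 - 1) * (w ^ 2).re + X ^ 2 * ‖w‖ ^ 2) with hu2
    set y : ℝ := b * (X * t) with hy
    have hyabs : |y| ≤ 2 * B * t := by
      rw [hy, abs_mul, abs_mul, abs_of_nonneg ht0]
      calc |b| * (|X| * t) ≤ B * (2 * t) :=
            mul_le_mul hb (mul_le_mul_of_nonneg_right hXabs ht0) (by positivity) hB
        _ = _ := by ring
    have h2 := exp_approx (B := 2 * B) (by positivity) ht0 ht1 hyabs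
    rw [← hK2] at h2
    have hre : |w.re| ≤ 1 := (Complex.abs_re_le_norm w).trans hw
    have hre2 : |(w ^ 2).re| ≤ 1 := (Complex.abs_re_le_norm _).trans (by
      rw [norm_pow]; exact pow_le_one₀ (norm_nonneg _) hw)
    have hw2 : ‖w‖ ^ 2 ≤ 1 := pow_le_one₀ (norm_nonneg _) hw
    have hw2' : 0 ≤ ‖w‖ ^ 2 := by positivity
    have hu1abs : |u1| ≤ 4 * t := by
      rw [hu1, abs_mul, abs_mul, abs_mul, abs_two, abs_of_nonneg ht0]
      calc 2 * |X| * t * |w.re| ≤ 2 * 2 * t * 1 := by gcongr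
        _ = _ := by ring
    have hu2abs : |u2| ≤ 10 * t ^ 2 := by
      rw [hu2, abs_mul, abs_of_nonneg (by positivity : (0:ℝ) ≤ t ^ 2), mul_comm]
      refine mul_le_mul_of_nonneg_right ?_ (by positivity)
      have e1 : |X ^ 2 - 1| ≤ 3 := by
        rw [abs_le]; constructor <;> nlinarith [sq_nonneg X]
      calc |2 * (X ^ 2 - 1) * (w ^ 2).re + X ^ 2 * ‖w‖ ^ 2| ≤
          |2 * (X ^ 2 - 1) * (w ^ 2).re| + |X ^ 2 * ‖w‖ ^ 2| := abs_add_le _ _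
        _ = 2 * |X ^ 2 - 1| * |(w ^ 2).re| + X ^ 2 * ‖w‖ ^ 2 := by
          rw [abs_mul, abs_mul, abs_two, abs_of_nonneg (by positivity : (0:ℝ) ≤ X ^ 2 * ‖w‖ ^ 2)]
        _ ≤ 2 * 3 * 1 + 4 * 1 := by gcongr
        _ = 10 := by norm_num
    have hR0 : 0 ≤ 1 + u1 + u2 + K1 * t ^ 3 := le_trans (by positivity) h1
    have h3 : exp y * ‖lf t w θ‖ ^ 2 ≤ (1 + y + y ^ 2 / 2 + K2 * t ^ 3) * (1 + u1 + u2 + K1 * t ^ 3) :=
      mul_le_mul h2 h1 (by positivity) ((exp_pos _).le.trans h2)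
    refine h3.trans ?_
    have e2 : (1 + y + y ^ 2 / 2 + K2 * t ^ 3) * (1 + u1 + u2 + K1 * t ^ 3) =
        1 + (u1 + y) + (u2 + u1 * y + y ^ 2 / 2) + (u1 * y ^ 2 / 2 + u2 * y + u2 * y ^ 2 / 2 +
          K1 * t ^ 3 * (1 + y + y ^ 2 / 2 + K2 * t ^ 3) + K2 * t ^ 3 * (1 + u1 + u2)) := by ring
    rw [e2]
    have ysq : y ^ 2 ≤ (2 * B) ^ 2 * t ^ 2 := by
      have : y ^ 2 = |y| ^ 2 := (sq_abs y).symm
      rw [this]
      calc |y| ^ 2 ≤ (2 * B * t) ^ 2 := pow_le_pow_left₀ (abs_nonneg _) hyabs 2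
        _ = _ := by ring
    have hy1 : y ≤ 2 * B := by
      have := le_abs_self y
      have h5 : 2 * B * t ≤ 2 * B := by nlinarith
      linarith
    have ht2 : t ^ 2 ≤ 1 := pow_le_one₀ ht0 ht1
    have c1 : u1 * y ^ 2 / 2 ≤ (4 * (2 * B) ^ 2 / 2) * t ^ 3 := by
      have : u1 * y ^ 2 ≤ 4 * t * ((2 * B) ^ 2 * t ^ 2) :=
        mul_le_mul ((le_abs_self _).trans hu1abs) ysq (by positivity) (by positivity)
      nlinarith
    have c2 : u2 * y ≤ (10 * (2 * B)) * t ^ 3 := by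
      have : |u2| * |y| ≤ 10 * t ^ 2 * (2 * B * t) :=
        mul_le_mul hu2abs hyabs (abs_nonneg _) (by positivity)
      have h6 : u2 * y ≤ |u2| * |y| := by rw [← abs_mul]; exact le_abs_self _
      nlinarith
    have c3 : u2 * y ^ 2 / 2 ≤ (10 * (2 * B) ^ 2 / 2) * t ^ 3 := by
      have h7 : u2 * y ^ 2 ≤ 10 * t ^ 2 * ((2 * B) ^ 2 * t ^ 2) :=
        mul_le_mul ((le_abs_self _).trans hu2abs) ysq (by positivity) (by positivity)
      have h8 : t ^ 2 * t ^ 2 ≤ t ^ 3 := by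
        calc t ^ 2 * t ^ 2 = t ^ 3 * t := by ring
          _ ≤ t ^ 3 * 1 := mul_le_mul_of_nonneg_left ht1 t3
          _ = _ := mul_one _
      have h9 : 10 * t ^ 2 * ((2 * B) ^ 2 * t ^ 2) ≤ 10 * (2 * B) ^ 2 * t ^ 3 := by
        calc 10 * t ^ 2 * ((2 * B) ^ 2 * t ^ 2) = 10 * (2 * B) ^ 2 * (t ^ 2 * t ^ 2) := by ring
          _ ≤ _ := mul_le_mul_of_nonneg_left h8 (by positivity)
      linarith
    have c4 : K1 * t ^ 3 * (1 + y + y ^ 2 / 2 + K2 * t ^ 3) ≤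
        K1 * (1 + 2 * B + (2 * B) ^ 2 / 2 + K2) * t ^ 3 := by
      have h8 : 1 + y + y ^ 2 / 2 + K2 * t ^ 3 ≤ 1 + 2 * B + (2 * B) ^ 2 / 2 + K2 := by
        have h9 : K2 * t ^ 3 ≤ K2 := by
          calc K2 * t ^ 3 ≤ K2 * 1 := mul_le_mul_of_nonneg_left (pow_le_one₀ ht0 ht1) hK2n
            _ = K2 := mul_one _
        have h10 : (2 * B) ^ 2 * t ^ 2 ≤ (2 * B) ^ 2 := by
          calc (2 * B) ^ 2 * t ^ 2 ≤ (2 * B) ^ 2 * 1 := mul_le_mul_of_nonneg_left ht2 (by positivity)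
            _ = _ := mul_one _
        linarith
      calc K1 * t ^ 3 * (1 + y + y ^ 2 / 2 + K2 * t ^ 3) ≤
          K1 * t ^ 3 * (1 + 2 * B + (2 * B) ^ 2 / 2 + K2) :=
            mul_le_mul_of_nonneg_left h8 (by positivity)
        _ = _ := by ring
    have c5 : K2 * t ^ 3 * (1 + u1 + u2) ≤ K2 * (1 + 4 + 10) * t ^ 3 := by
      have h8 : 1 + u1 + u2 ≤ 1 + 4 + 10 := by
        have := (le_abs_self u1).trans hu1abs
        have := (le_abs_self u2).trans hu2abs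
        linarith
      calc K2 * t ^ 3 * (1 + u1 + u2) ≤ K2 * t ^ 3 * (1 + 4 + 10) :=
            mul_le_mul_of_nonneg_left h8 (by positivity)
        _ = _ := by ring
    have e3 : u2 + u1 * y + y ^ 2 / 2 =
        (t ^ 2 * (2 * (w ^ 2).re + ‖w‖ ^ 2) + 2 * b * t ^ 2 * w.re + b ^ 2 * t ^ 2 / 2) * X ^ 2 -
          t ^ 2 * (2 * (w ^ 2).re) := by
      rw [hu2, hu1, hy]; ring
    have e4 : u1 + y = (2 * t * w.re + b * t) * X := by rw [hu1, hy]; ring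
    rw [e3, e4]
    have e5 : K3 * t ^ 3 = (4 * (2 * B) ^ 2 / 2) * t ^ 3 + (10 * (2 * B)) * t ^ 3 +
        (10 * (2 * B) ^ 2 / 2) * t ^ 3 + K1 * (1 + 2 * B + (2 * B) ^ 2 / 2 + K2) * t ^ 3 +
        K2 * (1 + 4 + 10) * t ^ 3 := by rw [hK3]; ring
    linarith
  have hX2 : ∀ θ, |uu 1 θ| ≤ 2 := abs_uu_one
  have hint : Integrable (fun θ => exp (b * (uu 1 θ * t)) * ‖lf t w θ‖ ^ 2) st := by
    refine integrable_st (C := exp (2 * B) * 16 ^ 2) ?_ fun θ => ?_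
    · exact (Real.continuous_exp.comp (continuous_const.mul ((continuous_uu 1).mul
        continuous_const))).mul ((continuous_lf ht0 ht hw).norm.pow 2)
    · rw [norm_mul, Real.norm_eq_abs, Real.norm_eq_abs, abs_of_pos (exp_pos _),
        abs_of_nonneg (by positivity)]
      refine mul_le_mul (exp_le_exp.2 ?_) (pow_le_pow_left₀ (norm_nonneg _)
        (norm_lf_le ht0 ht hw θ) 2) (by positivity) (exp_pos _).le
      have : |b * (uu 1 θ * t)| ≤ 2 * B := by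
        rw [abs_mul, abs_mul, abs_of_nonneg ht0]
        calc |b| * (|uu 1 θ| * t) ≤ B * (2 * 1) := by
              gcongr
              exact hX2 θ
          _ = _ := by ring
      exact (le_abs_self _).trans this
  obtain ⟨q1, q2⟩ := st_quad (1 + (K3 * t ^ 3 - t ^ 2 * (2 * (w ^ 2).re))) (2 * t * w.re + b * t)
    (t ^ 2 * (2 * (w ^ 2).re + ‖w‖ ^ 2) + 2 * b * t ^ 2 * w.re + b ^ 2 * t ^ 2 / 2)
  refine (integral_mono hint q1 fun θ => (hpt θ).trans (le_of_eq (by ring))).trans ?_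
  rw [q2]
  refine le_of_eq ?_
  ring

end Pool.Agent.H485.CC
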