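import Pool.Agent.H485.CC.Mod
import Pool.Agent.H485.CC.Loc

/-!
# Exponential moments in the model
-/

set_option autoImplicit false
set_option maxHeartbeats 4000000

open MeasureTheory Real Finset

namespace Pool.Agent.H485.CC

/-- `p^(-1/2)` -/
noncomputable def tp (p : ℕ) : ℝ := (Real.sqrt p)⁻¹

lemma tp_nonneg (p : ℕ) : 0 ≤ tp p := by unfold tp; positivity

lemma tp_le {p : ℕ} (hp : p.Prime) : tp p ≤ 3 / 4 := by
  unfold tp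
  have h2 : (2 : ℝ) ≤ p := by exact_mod_cast hp.two_le
  rw [inv_le_comm₀ (Real.sqrt_pos.2 (by linarith)) (by norm_num)]
  rw [Real.le_sqrt' (by norm_num)]
  norm_num
  linarith

lemma tp_sq (p : ℕ) : tp p ^ 2 = 1 / p := by
  unfold tp
  rw [inv_pow, Real.sq_sqrt (Nat.cast_nonneg p), one_div]

/-- `∑ λ(p) / √p` -/
noncomputable def PP (S' : Finset ℕ) (lam : ℕ → ℝ) : ℝ := ∑ p ∈ S', tp p * lam p

/-- the Euler product -/
noncomputable def EE (S : Finset ℕ) (s : ℂ) (x : S → ℝ) : ℂ :=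
  ∏ p : S, lf (tp p) (((p : ℕ) : ℂ) ^ (-s)) (x p)

lemma norm_ps {p : ℕ} (hp : p.Prime) {s : ℂ} (hs : 0 ≤ s.re) : ‖((p : ℕ) : ℂ) ^ (-s)‖ ≤ 1 := by
  have h2 : (1 : ℝ) ≤ p := by exact_mod_cast hp.one_le
  rw [Complex.norm_natCast_cpow_of_pos hp.pos]
  apply Real.rpow_le_one_of_one_le_of_nonpos h2
  simpa using hs

lemma PP_XX {S S' : Finset ℕ} (hS : ∀ p ∈ S, p.Prime) (hS' : S' ⊆ S) (x : S → ℝ) :
    PP S' (XX S x) = ∑ p : S, if (p : ℕ) ∈ S' then tp p * uu 1 (x p) else 0 := by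
  unfold PP
  have e1 : ∑ p ∈ S', tp p * XX S x p = ∑ p ∈ S, if p ∈ S' then tp p * XX S x p else 0 := by
    rw [← Finset.sum_filter, Finset.filter_mem_eq_inter, Finset.inter_eq_right.2 hS']
  rw [e1, ← Finset.sum_coe_sort S]
  refine Finset.sum_congr rfl fun p _ => ?_
  split_ifs
  · rw [XX_prime hS x p.2]
  · rfl

/-- the exponential moments -/
noncomputable def MM (S S' : Finset ℕ) (b : ℝ) (s : ℂ) : ℝ :=
  ∫ x, exp (b * PP S' (XX S x)) * ‖EE S s x‖ ^ 2 ∂(mu S)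

lemma MM_eq {S S' : Finset ℕ} (hS : ∀ p ∈ S, p.Prime) (hS' : S' ⊆ S) (b : ℝ) (s : ℂ) :
    MM S S' b s = ∏ p : S, ∫ θ, exp ((if (p : ℕ) ∈ S' then b else 0) * (uu 1 θ * tp p)) *
      ‖lf (tp p) (((p : ℕ) : ℂ) ^ (-s)) θ‖ ^ 2 ∂st := by
  unfold MM mu
  rw [← integral_fintype_prod_eq_prod (μ := fun _ : S => st)
    (f := fun (p : S) θ => exp ((if (p : ℕ) ∈ S' then b else 0) * (uu 1 θ * tp p)) *
      ‖lf (tp p) (((p : ℕ) : ℂ) ^ (-s)) θ‖ ^ 2)]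
  congr 1
  ext x
  rw [PP_XX hS hS', Finset.prod_mul_distrib, ← Real.exp_sum, EE, norm_prod, Finset.prod_pow,
    Finset.mul_sum]
  congr 2
  refine Finset.sum_congr rfl fun p _ => ?_
  split_ifs
  · ring
  · ring

theorem MM_le (B : ℝ) (hB : 0 ≤ B) : ∃ K : ℝ, 0 ≤ K ∧ ∀ (S S' : Finset ℕ) (b : ℝ) (s : ℂ),
    (∀ p ∈ S, p.Prime) → S' ⊆ S → |b| ≤ B → 0 ≤ s.re →
    MM S S' b s ≤ exp ((1 + 2 * b + b ^ 2 / 2) * ∑ p ∈ S', (1 : ℝ) / p +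
      ∑ p ∈ S', 2 * |b| * ‖1 - ((p : ℕ) : ℂ) ^ (-s)‖ / p + ∑ p ∈ S \ S', (1 : ℝ) / p +
      K * ∑ p ∈ S, tp p ^ 3) := by
  obtain ⟨K, hK0, hK⟩ := local_le B hB
  refine ⟨K, hK0, ?_⟩
  intro S S' b s hS hS' hb hs
  rw [MM_eq hS hS']
  have h1 : ∀ p : S, ∫ θ, exp ((if (p : ℕ) ∈ S' then b else 0) * (uu 1 θ * tp p)) *
      ‖lf (tp p) (((p : ℕ) : ℂ) ^ (-s)) θ‖ ^ 2 ∂st ≤
      exp ((if (p : ℕ) ∈ S' then (1 + 2 * b + b ^ 2 / 2) * (1 / ((p : ℕ) : ℝ)) +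
        2 * |b| * ‖1 - ((p : ℕ) : ℂ) ^ (-s)‖ / ((p : ℕ) : ℝ) else 1 / ((p : ℕ) : ℝ)) + K * tp p ^ 3) := by
    intro p
    have hp := hS p p.2
    have hw := norm_ps hp hs
    have hb' : |if (p : ℕ) ∈ S' then b else 0| ≤ B := by
      split_ifs
      · exact hb
      · rw [abs_zero]; exact hB
    refine (hK (tp p) _ _ (tp_nonneg _) (tp_le hp) hw hb').trans ?_
    have h2 : ∀ y : ℝ, 1 + y ≤ exp y := fun y => by rw [add_comm]; exact add_one_le_exp y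
    refine le_trans ?_ (h2 _)
    rw [tp_sq]
    have hw2 : ‖((p : ℕ) : ℂ) ^ (-s)‖ ^ 2 ≤ 1 := pow_le_one₀ (norm_nonneg _) hw
    have hp0 : (0 : ℝ) ≤ 1 / ((p : ℕ) : ℝ) := by positivity
    split_ifs with h
    · have h3 : 2 * b * (((p : ℕ) : ℂ) ^ (-s)).re ≤ 2 * b + 2 * |b| * ‖1 - ((p : ℕ) : ℂ) ^ (-s)‖ := by
        have h4 : |1 - (((p : ℕ) : ℂ) ^ (-s)).re| ≤ ‖1 - ((p : ℕ) : ℂ) ^ (-s)‖ := by
          have := Complex.abs_re_le_norm (1 - ((p : ℕ) : ℂ) ^ (-s))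
          simpa using this
        have h5 : b * ((((p : ℕ) : ℂ) ^ (-s)).re - 1) ≤ |b| * |1 - (((p : ℕ) : ℂ) ^ (-s)).re| := by
          rw [abs_sub_comm, ← abs_mul]
          exact le_abs_self _
        have h6 := mul_le_mul_of_nonneg_left h4 (abs_nonneg b)
        linarith
      have h7 : 1 / ((p : ℕ) : ℝ) * (‖((p : ℕ) : ℂ) ^ (-s)‖ ^ 2 + 2 * b * (((p : ℕ) : ℂ) ^ (-s)).re + b ^ 2 / 2) ≤
          1 / ((p : ℕ) : ℝ) * (1 + (2 * b + 2 * |b| * ‖1 - ((p : ℕ) : ℂ) ^ (-s)‖) + b ^ 2 / 2) :=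
        mul_le_mul_of_nonneg_left (by linarith) hp0
      have h8 : 1 / ((p : ℕ) : ℝ) * (1 + (2 * b + 2 * |b| * ‖1 - ((p : ℕ) : ℂ) ^ (-s)‖) + b ^ 2 / 2) =
        (1 + 2 * b + b ^ 2 / 2) * (1 / ((p : ℕ) : ℝ)) +
          2 * |b| * ‖1 - ((p : ℕ) : ℂ) ^ (-s)‖ / ((p : ℕ) : ℝ) := by ring
      linarith
    · have h7 : 1 / ((p : ℕ) : ℝ) * (‖((p : ℕ) : ℂ) ^ (-s)‖ ^ 2 + 2 * 0 * (((p : ℕ) : ℂ) ^ (-s)).re + 0 ^ 2 / 2) ≤
          1 / ((p : ℕ) : ℝ) * 1 := mul_le_mul_of_nonneg_left (by linarith) hp0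
      linarith
  refine (Finset.prod_le_prod (fun p _ => integral_nonneg fun θ => by positivity)
    fun p _ => h1 p).trans ?_
  rw [← Real.exp_sum]
  apply exp_le_exp.2
  refine le_of_eq ?_
  rw [Finset.sum_coe_sort S (fun p => (if p ∈ S' then (1 + 2 * b + b ^ 2 / 2) * (1 / (p : ℝ)) +
        2 * |b| * ‖1 - ((p : ℕ) : ℂ) ^ (-s)‖ / p else 1 / (p : ℝ)) + K * tp p ^ 3)]
  rw [Finset.sum_add_distrib, ← Finset.mul_sum, Finset.sum_ite]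
  have e1 : S.filter (fun p => p ∈ S') = S' := by
    rw [Finset.filter_mem_eq_inter, Finset.inter_eq_right.2 hS']
  have e2 : S.filter (fun p => p ∉ S') = S \ S' := by
    ext p; simp
  rw [e1, e2, Finset.sum_add_distrib, ← Finset.mul_sum]

/-- the exponential moments without the L-function -/
noncomputable def NN (S S' : Finset ℕ) (b : ℝ) : ℝ :=
  ∫ x, exp (b * PP S' (XX S x)) ∂(mu S)

lemma lf_zero (t θ : ℝ) : lf t 0 θ = 1 := by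
  unfold lf
  simp

theorem NN_le (B : ℝ) (hB : 0 ≤ B) : ∃ K : ℝ, 0 ≤ K ∧ ∀ (S S' : Finset ℕ) (b : ℝ),
    (∀ p ∈ S, p.Prime) → S' ⊆ S → |b| ≤ B →
    NN S S' b ≤ exp (b ^ 2 / 2 * ∑ p ∈ S', (1 : ℝ) / p + K * ∑ p ∈ S, tp p ^ 3) := by
  obtain ⟨K, hK0, hK⟩ := local_le B hB
  refine ⟨K, hK0, ?_⟩
  intro S S' b hS hS' hb
  have h0 : NN S S' b = ∏ p : S, ∫ θ, exp ((if (p : ℕ) ∈ S' then b else 0) * (uu 1 θ * tp p)) *
      ‖lf (tp p) 0 θ‖ ^ 2 ∂st := by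
    unfold NN mu
    rw [← integral_fintype_prod_eq_prod (μ := fun _ : S => st)
      (f := fun (p : S) θ => exp ((if (p : ℕ) ∈ S' then b else 0) * (uu 1 θ * tp p)) *
        ‖lf (tp p) 0 θ‖ ^ 2)]
    congr 1
    ext x
    rw [PP_XX hS hS', Finset.prod_mul_distrib, ← Real.exp_sum, Finset.mul_sum]
    simp only [lf_zero, norm_one, one_pow, Finset.prod_const_one, mul_one]
    congr 1
    refine Finset.sum_congr rfl fun p _ => ?_
    split_ifs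
    · ring
    · ring
  rw [h0]
  have h1 : ∀ p : S, ∫ θ, exp ((if (p : ℕ) ∈ S' then b else 0) * (uu 1 θ * tp p)) *
      ‖lf (tp p) 0 θ‖ ^ 2 ∂st ≤
      exp ((if (p : ℕ) ∈ S' then b ^ 2 / 2 * (1 / ((p : ℕ) : ℝ)) else 0) + K * tp p ^ 3) := by
    intro p
    have hp := hS p p.2
    have hb' : |if (p : ℕ) ∈ S' then b else 0| ≤ B := by
      split_ifs
      · exact hb
      · rw [abs_zero]; exact hB
    refine (hK (tp p) 0 _ (tp_nonneg _) (tp_le hp) (by simp) hb').trans ?_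
    have h2 : ∀ y : ℝ, 1 + y ≤ exp y := fun y => by rw [add_comm]; exact add_one_le_exp y
    refine le_trans ?_ (h2 _)
    rw [tp_sq]
    refine le_of_eq ?_
    split_ifs with h
    · simp; ring
    · simp
  refine (Finset.prod_le_prod (fun p _ => integral_nonneg fun θ => by positivity)
    fun p _ => h1 p).trans ?_
  rw [← Real.exp_sum]
  apply exp_le_exp.2
  refine le_of_eq ?_
  rw [Finset.sum_coe_sort S (fun p => (if p ∈ S' then b ^ 2 / 2 * (1 / (p : ℝ)) else 0) + K * tp p ^ 3)]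
  rw [Finset.sum_add_distrib, ← Finset.mul_sum, ← Finset.sum_filter, Finset.filter_mem_eq_inter,
    Finset.inter_eq_right.2 hS', ← Finset.mul_sum]

end Pool.Agent.H485.CC
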