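import Pool.Agent.H485.CC.Cub
import Pool.Agent.H485.CC.Glob
import Pool.Graph.R_pool_sql_team_seeded_c8625f6e.K4H13.CV.Lv
import Pool.Graph.R_pool_sql_team_seeded_c8625f6e.K4H13.CV.Coef

/-!
# The smoothed approximate functional equation
-/

set_option autoImplicit false
set_option maxHeartbeats 4000000

open MeasureTheory Real Finset

namespace Pool.Agent.H485.CC

lemma sum_exp {c : ℝ} (hc : 0 < c) : Summable fun n : ℕ => (n : ℝ) * exp (-(c * n)) := by
  have := Real.summable_pow_mul_exp_neg_nat_mul 1 hc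
  refine this.congr fun n => ?_
  rw [pow_one, neg_mul]

lemma sum_a {a : ℕ → ℝ} (ha : ∀ n, |a n| ≤ n) {c : ℝ} (hc : 0 < c) (v : ℝ) :
    Summable fun n : ℕ => a n * exp (-(c * n * exp v)) := by
  have h1 : Summable fun n : ℕ => (n : ℝ) * exp (-(c * exp v * n)) :=
    sum_exp (by positivity)
  refine Summable.of_norm_bounded h1 fun n => ?_
  rw [Real.norm_eq_abs, abs_mul, abs_of_pos (exp_pos _)]
  have e : c * n * exp v = c * exp v * n := by ring
  rw [e]
  exact mul_le_mul_of_nonneg_right (ha n) (exp_pos _).le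

lemma sum_V {a : ℕ → ℝ} (ha : ∀ n, |a n| ≤ n) {c : ℝ} (hc : 0 < c) {m : ℕ} {h : ℝ} (hh : 0 < h) :
    Summable fun n : ℕ => a n * Vw (nu m h) (Zs m) (c * n) := by
  have := nu_prob m hh
  have h1 : Summable fun n : ℕ => (n : ℝ) * exp (-(c * exp (-(m * h)) * n)) :=
    sum_exp (by positivity)
  refine Summable.of_norm_bounded h1 fun n => ?_
  rw [Real.norm_eq_abs, abs_mul, abs_of_nonneg (Vw_nonneg _)]
  have e : c * exp (-(m * h)) * n = c * n * exp (-(m * h)) := by ring
  rw [e]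
  exact mul_le_mul (ha n) (Vw_le (Zs_meas m) (Zs_ae m hh) (by positivity)) (Vw_nonneg _)
    (Nat.cast_nonneg n)

theorem avg {a : ℕ → ℝ} (ha : ∀ n, |a n| ≤ n) {c : ℝ} (hc : 0 < c) {m : ℕ} {h : ℝ} (hh : 0 < h)
    (B w : ℂ) (hB : ∀ v : ℝ, B = ((∑' n : ℕ, a n * exp (-(c * n * exp v)) : ℝ) : ℂ) +
      w * ((∑' n : ℕ, a n * exp (-(c * n * exp (-v))) : ℝ) : ℂ)) :
    B = (1 + w) * ((∑' n : ℕ, a n * Vw (nu m h) (Zs m) (c * n) : ℝ) : ℂ) := by
  have := nu_prob m hh
  set G : ℕ → (Fin m → ℝ) → ℂ := fun n u =>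
    ((a n * exp (-(c * n * exp (Zs m u))) : ℝ) : ℂ) +
      w * ((a n * exp (-(c * n * exp (-(Zs m u)))) : ℝ) : ℂ) with hG
  have h1 : ∀ u, B = ∑' n, G n u := by
    intro u
    rw [hB (Zs m u)]
    have s1 := (Complex.hasSum_ofReal.2 (sum_a ha hc (Zs m u)).hasSum)
    have s2 := (Complex.hasSum_ofReal.2 (sum_a ha hc (-(Zs m u))).hasSum).mul_left w
    exact ((s1.add s2).tsum_eq).symm
  have hmeas := Zs_meas m
  have hc1 : ∀ (n : ℕ) (u : Fin m → ℝ), |a n * exp (-(c * n * exp (Zs m u)))| ≤ |a n| := by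
    intro n u
    rw [abs_mul, abs_of_pos (exp_pos _)]
    have : exp (-(c * n * exp (Zs m u))) ≤ 1 := exp_le_one_iff.2 (by
      have : 0 ≤ c * n * exp (Zs m u) := by positivity
      linarith)
    nlinarith [abs_nonneg (a n)]
  have hc2 : ∀ (n : ℕ) (u : Fin m → ℝ), |a n * exp (-(c * n * exp (-(Zs m u))))| ≤ |a n| := by
    intro n u
    rw [abs_mul, abs_of_pos (exp_pos _)]
    have : exp (-(c * n * exp (-(Zs m u)))) ≤ 1 := exp_le_one_iff.2 (by
      have : 0 ≤ c * n * exp (-(Zs m u)) := by positivity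
      linarith)
    nlinarith [abs_nonneg (a n)]
  have hi1 : ∀ n, Integrable (fun u => a n * exp (-(c * n * exp (Zs m u)))) (nu m h) := by
    intro n
    refine Integrable.of_bound (by fun_prop) |a n| (Filter.Eventually.of_forall (hc1 n))
  have hi2 : ∀ n, Integrable (fun u => a n * exp (-(c * n * exp (-(Zs m u))))) (nu m h) := by
    intro n
    refine Integrable.of_bound (by fun_prop) |a n| (Filter.Eventually.of_forall (hc2 n))
  have hGi : ∀ n, Integrable (G n) (nu m h) := by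
    intro n
    exact ((hi1 n).ofReal).add (((hi2 n).ofReal).const_mul w)
  have hGb : ∀ n, ∀ᵐ u ∂(nu m h), ‖G n u‖ ≤ (1 + ‖w‖) * ((n : ℝ) * exp (-(c * exp (-(m * h)) * n))) := by
    intro n
    filter_upwards [Zs_ae m hh] with u hu
    have hu1 := abs_le.1 hu
    have key : ∀ v : ℝ, -(m * h) ≤ v → |a n * exp (-(c * n * exp v))| ≤
        (n : ℝ) * exp (-(c * exp (-(m * h)) * n)) := by
      intro v hv
      rw [abs_mul, abs_of_pos (exp_pos _)]
      refine mul_le_mul (ha n) (exp_le_exp.2 ?_) (exp_pos _).le (Nat.cast_nonneg n)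
      have h3 : exp (-(m * h)) ≤ exp v := exp_le_exp.2 hv
      have h4 : 0 ≤ c * n := by positivity
      nlinarith [mul_le_mul_of_nonneg_left h3 h4]
    refine (norm_add_le _ _).trans ?_
    rw [norm_mul, Complex.norm_real, Complex.norm_real, Real.norm_eq_abs, Real.norm_eq_abs,
      add_mul, one_mul]
    refine add_le_add (key _ hu1.1) (mul_le_mul_of_nonneg_left (key _ ?_) (norm_nonneg _))
    linarith [hu1.2]
  have hsum : Summable fun n => ∫ u, ‖G n u‖ ∂(nu m h) := by
    have h2 : Summable fun n : ℕ => (1 + ‖w‖) * ((n : ℝ) * exp (-(c * exp (-(m * h)) * n))) :=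
      (sum_exp (by positivity)).mul_left _
    refine Summable.of_nonneg_of_le (fun n => integral_nonneg fun _ => norm_nonneg _)
      (fun n => ?_) h2
    calc ∫ u, ‖G n u‖ ∂(nu m h) ≤ ∫ _, (1 + ‖w‖) * ((n : ℝ) * exp (-(c * exp (-(m * h)) * n))) ∂(nu m h) :=
          integral_mono_ae (hGi n).norm (integrable_const _) (hGb n)
      _ = _ := by simp
  have h2 := integral_tsum_of_summable_integral_norm hGi hsum
  have h3 : ∀ n, ∫ u, G n u ∂(nu m h) = (1 + w) * ((a n * Vw (nu m h) (Zs m) (c * n) : ℝ) : ℂ) := by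
    intro n
    rw [hG]
    dsimp only
    have j1 : Integrable (fun u => ((a n * exp (-(c * n * exp (Zs m u))) : ℝ) : ℂ)) (nu m h) :=
      (hi1 n).ofReal
    have j2 : Integrable (fun u => w * ((a n * exp (-(c * n * exp (-(Zs m u)))) : ℝ) : ℂ)) (nu m h) :=
      ((hi2 n).ofReal).const_mul w
    rw [integral_add j1 j2, integral_const_mul,
      integral_complex_ofReal, integral_complex_ofReal, integral_const_mul, integral_const_mul]
    have h4 := Zs_neg m hh (fun z => exp (-(c * n * exp z))) (by fun_prop)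
    rw [h4]
    unfold Vw
    ring
  have h5 : B = ∫ u, ∑' n, G n u ∂(nu m h) := by
    simp_rw [← h1]
    simp
  rw [h5, ← h2]
  simp_rw [h3]
  rw [tsum_mul_left, Complex.ofReal_tsum]

open Complex in
open Pool.Agent.TH940 (mellin2 coeff_bd) in
open Pool.Agent.W440.TW (t_twist) in
open Pool.Agent.Y18.BSD Pool.Agent.K4H13.CV in
lemma afe0 {N : ℕ} [NeZero N] {f : Cf2 N} {ε : ℝ} (hf : W388.IsNewf N 2 f ε) :
    ∃ w : ℂ, ‖w‖ = 1 ∧ ∀ X Y : ℝ, 0 < X → 0 < Y → X * Y = N / (4 * Real.pi ^ 2) →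
      bv f 0 = ∑' n : ℕ, ((W388.lamf f n * tp n * Real.exp (-(n / X)) : ℝ) : ℂ) +
        w * ∑' n : ℕ, ((W388.lamf f n * tp n * Real.exp (-(n / Y)) : ℝ) : ℂ) := by
  have hN1 : (1 : ℝ) ≤ N := by exact_mod_cast Nat.pos_of_ne_zero (NeZero.ne N)
  have hs1 : (1 : ℝ) ≤ Real.sqrt N := by rw [Real.one_le_sqrt]; exact hN1
  have hχ : (1 : DirichletCharacter ℂ 1).IsPrimitive := DirichletCharacter.isPrimitive_one_level_one
  obtain ⟨C, hC0, hC⟩ := coeff_bd f
  obtain ⟨K, -, hK⟩ := mellin2 1 C (by norm_num) (by norm_num)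
  obtain ⟨w', hw', hth⟩ := t_twist N 2 (by norm_num) f ε hf 1 1 hχ (Nat.coprime_one_left N)
  obtain ⟨F, hF1, hF2, hF3, -⟩ := hK (fun n => (1 : DirichletCharacter ℂ 1) (n : ZMod 1) * (UpperHalfPlane.qExpansion 1 f).coeff n)
    (Real.sqrt N * (1 : ℕ)) (by push_cast; nlinarith) (by rw [W388.coeff_zero f, mul_zero])
    (fun n hn => by
      rw [norm_mul]
      have h1 := DirichletCharacter.norm_le_one (1 : DirichletCharacter ℂ 1) (n : ZMod 1)
      calc ‖(1 : DirichletCharacter ℂ 1) (n : ZMod 1)‖ * ‖(UpperHalfPlane.qExpansion 1 f).coeff n‖ ≤ 1 * ‖(UpperHalfPlane.qExpansion 1 f).coeff n‖ :=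
            mul_le_mul_of_nonneg_right h1 (norm_nonneg _)
        _ ≤ _ := by rw [one_mul]; exact hC n hn) w' hw'
    (fun t ht => by
      have := hth t ht
      rw [zpow_ofNat] at this
      exact this)
  have hone : ∀ n : ℕ, (1 : DirichletCharacter ℂ 1) (n : ZMod 1) = 1 := fun n =>
    MulChar.one_apply (isUnit_of_subsingleton _)
  have hre : ∀ n, (((UpperHalfPlane.qExpansion 1 f).coeff n).re : ℂ) = (UpperHalfPlane.qExpansion 1 f).coeff n := by
    intro n
    apply Complex.ext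
    · rw [Complex.ofReal_re]
    · rw [Complex.ofReal_im]; exact (hf.real n).symm
  have hF0 : F (1 / 2) = bv f 0 := by
    have hL : IsL f F := by
      refine ⟨hF1, fun s hs => ?_⟩
      rw [hF2 s (by linarith)]
      refine tsum_congr fun n => ?_
      rw [hone, one_mul]
      rcases Nat.eq_zero_or_pos n with rfl | hn
      · unfold W388.lamf
        rw [W388.coeff_zero f]
        simp
      · have hn' : (0 : ℝ) < n := by exact_mod_cast hn
        have hnc : (n : ℂ) ≠ 0 := by exact_mod_cast hn.ne'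
        unfold W388.lamf
        have e1 : ((((2 : ℤ) : ℝ) - 1) / 2) = 1 / 2 := by norm_num
        rw [e1, Complex.ofReal_div, hre n, Complex.ofReal_cpow hn'.le, neg_add, Complex.cpow_add _ _ hnc]
        push_cast
        rw [Complex.cpow_neg (n : ℂ) (1 / 2)]
        ring
    exact lv_eq hf hL
  refine ⟨w', hw', fun X Y hX hY hXY => ?_⟩
  rw [← hF0, hF3 X Y hX hY (by push_cast; rw [hXY, mul_one, Real.sq_sqrt (by linarith)])]
  have key : ∀ n : ℕ, (UpperHalfPlane.qExpansion 1 f).coeff n / n = ((W388.lamf f n * tp n : ℝ) : ℂ) := by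
    intro n
    rcases Nat.eq_zero_or_pos n with rfl | hn
    · rw [W388.coeff_zero f]; simp [tp]
    · have hn' : (0 : ℝ) < n := by exact_mod_cast hn
      unfold W388.lamf tp
      have e1 : ((((2 : ℤ) : ℝ) - 1) / 2) = 1 / 2 := by norm_num
      rw [e1, ← Real.sqrt_eq_rpow]
      have e2 : ((UpperHalfPlane.qExpansion 1 f).coeff n).re / Real.sqrt n * (Real.sqrt n)⁻¹ =
          ((UpperHalfPlane.qExpansion 1 f).coeff n).re / n := by
        rw [← div_eq_mul_inv, div_div, Real.mul_self_sqrt hn'.le]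
      rw [e2, Complex.ofReal_div, hre n]
      rfl
  congr 1
  · refine tsum_congr fun n => ?_
    rw [hone, one_mul, key, ← Complex.ofReal_mul]
  · congr 1
    refine tsum_congr fun n => ?_
    rw [hone, one_mul, ← hre n, Complex.conj_ofReal, hre n, key, ← Complex.ofReal_mul]

open Pool.Agent.Y18.BSD Pool.Agent.K4H13.CV in
lemma abs_lam_tp {N : ℕ} [NeZero N] (hNp : N.Prime) {f : Cf2 N} {ε : ℝ} (hf : W388.IsNewf N 2 f ε)
    (n : ℕ) : |W388.lamf f n * tp n| ≤ n := by
  rcases Nat.eq_zero_or_pos n with rfl | hn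
  · simp [tp]
  · have hn' : (0 : ℝ) < n := by exact_mod_cast hn
    unfold W388.lamf tp
    have e1 : ((((2 : ℤ) : ℝ) - 1) / 2) = 1 / 2 := by norm_num
    rw [e1, ← Real.sqrt_eq_rpow]
    have e2 : ((UpperHalfPlane.qExpansion 1 f).coeff n).re / Real.sqrt n * (Real.sqrt n)⁻¹ =
        ((UpperHalfPlane.qExpansion 1 f).coeff n).re / n := by
      rw [← div_eq_mul_inv, div_div, Real.mul_self_sqrt hn'.le]
    rw [e2, abs_div, abs_of_pos hn', div_le_iff₀ hn', ← sq]
    exact (Complex.abs_re_le_norm _).trans (coef N hNp f ε hf n)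

open Pool.Agent.Y18.BSD Pool.Agent.K4H13.CV in
/-- the approximate functional equation -/
theorem afe {N : ℕ} [NeZero N] (hNp : N.Prime) {f : Cf2 N} {ε : ℝ} (hf : W388.IsNewf N 2 f ε)
    (m : ℕ) {h : ℝ} (hh : 0 < h) :
    ‖bv f 0‖ ≤ 2 * |∑' n : ℕ, W388.lamf f n * tp n *
      Vw (nu m h) (Zs m) (2 * π / Real.sqrt N * n)| := by
  have hN0 : (0 : ℝ) < N := by exact_mod_cast hNp.pos
  have hs0 : 0 < Real.sqrt N := Real.sqrt_pos.2 hN0
  obtain ⟨w, hw, h0⟩ := afe0 hf
  have hc : 0 < 2 * π / Real.sqrt N := by positivity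
  have h1 := avg (abs_lam_tp hNp hf) hc (m := m) hh (bv f 0) w (fun v => by
    have h2 := h0 (exp (-v) * (Real.sqrt N / (2 * π))) (exp v * (Real.sqrt N / (2 * π)))
      (by positivity) (by positivity) (by
        have e1 : exp (-v) * exp v = 1 := by rw [← exp_add]; simp
        have e2 : Real.sqrt N * Real.sqrt N = N := Real.mul_self_sqrt hN0.le
        calc exp (-v) * (Real.sqrt N / (2 * π)) * (exp v * (Real.sqrt N / (2 * π))) =
            (exp (-v) * exp v) * (Real.sqrt N * Real.sqrt N) / (4 * π ^ 2) := by field_simp; ring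
          _ = _ := by rw [e1, e2, one_mul])
    rw [h2, Complex.ofReal_tsum, Complex.ofReal_tsum]
    congr 1
    · refine tsum_congr fun n => ?_
      congr 3
      rw [exp_neg]
      field_simp
    · congr 1
      refine tsum_congr fun n => ?_
      congr 3
      rw [exp_neg v]
      field_simp)
  rw [h1, norm_mul, Complex.norm_real, Real.norm_eq_abs]
  refine mul_le_mul_of_nonneg_right ?_ (abs_nonneg _)
  calc ‖1 + w‖ ≤ ‖(1 : ℂ)‖ + ‖w‖ := norm_add_le _ _
    _ = 2 := by rw [norm_one, hw]; norm_num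

end Pool.Agent.H485.CC
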