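import Pool.Agent.H485.CC.Mod
import Pool.Graph.R_seed8.W388.LV.Final

/-!
# The Hecke relations and the large sieve for newforms
-/

set_option autoImplicit false
set_option maxHeartbeats 4000000

open MeasureTheory Real Finset

namespace Pool.Agent.H485.CC

lemma hrel_of_hecke {N : ℕ} {lam : ℕ → ℝ} (h : W388.HeckeSeq N lam) {S : Finset ℕ}
    (hS : ∀ p ∈ S, p.Prime) (hSN : ∀ p ∈ S, ¬ p ∣ N) : HRel S lam := by
  refine ⟨h.one, fun p hp n hn => ?_⟩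
  have hpp := hS p hp
  have hn0 : n ≠ 0 := by omega
  obtain ⟨v, m, hm, rfl⟩ := Nat.exists_eq_pow_mul_and_not_dvd hn0 p hpp.ne_one
  have hcop : ∀ j : ℕ, Nat.Coprime (p ^ j) m := fun j =>
    Nat.Coprime.pow_left j ((Nat.Prime.coprime_iff_not_dvd hpp).2 hm)
  rcases v with _ | j
  · rw [pow_zero, one_mul, if_neg hm, add_zero]
    have := h.mul p m (by simpa using hcop 1)
    exact this.symm
  · have hd : p ∣ p ^ (j + 1) * m := Dvd.dvd.mul_right (dvd_pow_self p (by omega)) m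
    rw [if_pos hd]
    have e1 : p * (p ^ (j + 1) * m) = p ^ (j + 2) * m := by ring
    have e2 : p ^ (j + 1) * m / p = p ^ j * m := by
      rw [pow_succ, mul_comm (p ^ j) p, mul_assoc, Nat.mul_div_cancel_left _ hpp.pos]
    rw [e1, e2, h.mul _ _ (hcop _), h.mul _ _ (hcop _), h.mul _ _ (hcop _)]
    have h2 := h.pow p j hpp
    rw [if_neg (hSN p hp)] at h2
    rw [h2]
    ring

lemma hrel_lamf {N : ℕ} [NeZero N] {k : ℤ} {f : W388.LV.SF N k} {ε : ℝ}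
    (hf : W388.IsNewf N k f ε) {S : Finset ℕ}
    (hS : ∀ p ∈ S, p.Prime) (hSN : ∀ p ∈ S, ¬ p ∣ N) : HRel S (W388.lamf f) :=
  hrel_of_hecke (W388.heckeSeq_lamf hf) hS hSN

open W388.LV in
/-- the large sieve for observables -/
theorem ls_obs (k : ℤ) (hk : 2 ≤ k) (δ ε0 : ℝ) (hδ : 0 < δ) (h0 : 0 < ε0) (h1 : ε0 < 1) :
    ∃ N0 : ℕ, ∀ N : ℕ, N0 ≤ N → ∀ [NeZero N] (B : Finset (SF N k)), IsNewSet N k B →
      ∀ (S : Finset ℕ), (∀ p ∈ S, p.Prime) → (∀ p ∈ S, ¬ p ∣ N) → ∀ (D : ℝ) (F : (ℕ → ℝ) → ℝ),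
      Obs S D F → D ≤ (N : ℝ) ^ (1 - ε0) →
      ∑ f ∈ B, om f * F (W388.lamf f) ^ 2 ≤ (1 + δ) * ∫ x, F (XX S x) ^ 2 ∂(mu S) := by
  obtain ⟨N0, hN0⟩ := q_ls k hk δ ε0 hδ h0 h1
  refine ⟨N0, fun N hN _ B hB S hS hSN D F hF hD => ?_⟩
  obtain ⟨c, hc, hFc⟩ := hF
  rw [integral_obs hS hc hFc]
  set M : ℕ := ⌊(N : ℝ) ^ (1 - ε0)⌋₊ with hM
  have hM1 : (M : ℝ) ≤ (N : ℝ) ^ (1 - ε0) := Nat.floor_le (by positivity)
  have h2 := hN0 N hN B hB M hM1 (fun n => ((c n : ℝ) : ℂ))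
  have hsub : c.support ⊆ Finset.Icc 1 M := by
    intro n hn
    obtain ⟨hs, hD'⟩ := hc n hn
    rw [Finset.mem_Icc]
    exact ⟨hs.1, Nat.le_floor (hD'.trans hD)⟩
  have e1 : ∑ n ∈ Finset.Icc 1 M, ‖((c n : ℝ) : ℂ)‖ ^ 2 = ∑ n ∈ c.support, c n ^ 2 := by
    rw [← Finset.sum_subset hsub]
    · refine Finset.sum_congr rfl fun n _ => ?_
      rw [Complex.norm_real, Real.norm_eq_abs, sq_abs]
    · intro n _ hn
      rw [Finsupp.notMem_support_iff.1 hn]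
      simp
  rw [e1] at h2
  refine le_trans (le_of_eq ?_) h2
  refine Finset.sum_congr rfl fun f hf => ?_
  congr 1
  obtain ⟨ε, hε⟩ := hB.newf f hf
  rw [hFc _ (hrel_lamf hε hS hSN), Finsupp.sum]
  have e2 : ∑ n ∈ Finset.Icc 1 M, ((c n : ℝ) : ℂ) * (W388.lamf f n : ℂ) =
      ((∑ n ∈ c.support, c n * W388.lamf f n : ℝ) : ℂ) := by
    push_cast
    rw [← Finset.sum_subset hsub]
    intro n _ hn
    rw [Finsupp.notMem_support_iff.1 hn]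
    simp
  rw [e2, Complex.norm_real, Real.norm_eq_abs, sq_abs]

end Pool.Agent.H485.CC
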