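import Pool.Agent.H485.CC.Bnd
import Pool.Agent.H485.CC.Hec
import Pool.Agent.H485.CC.Afe

/-!
# The harmonic second moment
-/

set_option autoImplicit false
set_option maxHeartbeats 4000000

open MeasureTheory Real Finset Filter

namespace Pool.Agent.H485.CC

/-- the weight -/
noncomputable def VV (N : ℕ) (n : ℕ) : ℝ := Vw (nu (mm N) (hh N)) (Zs (mm N)) (2 * π / Real.sqrt N * n)

/-- the truncated sum -/
noncomputable def SYf (N : ℕ) (lam : ℕ → ℝ) : ℝ := ∑ n ∈ Finset.Icc 1 (Yb N), (tp n * VV N n) * lam n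

lemma pos_of_log {N : ℕ} (h : 1 ≤ log (N : ℝ)) : (0 : ℝ) < N := by
  by_contra h0
  have : (N : ℝ) = 0 := le_antisymm (not_lt.1 h0) (Nat.cast_nonneg N)
  rw [this, Real.log_zero] at h
  linarith

lemma hh_pos {N : ℕ} (h : 1 ≤ log (N : ℝ)) : 0 < hh N := by
  unfold hh
  have h1 : (0 : ℝ) < mm N := by
    have : (2 : ℝ) ≤ mm N := by exact_mod_cast mm_two N
    linarith
  have : 0 < log (N : ℝ) := by linarith
  positivity

lemma mh {N : ℕ} (h : 1 ≤ log (N : ℝ)) : (mm N : ℝ) * hh N = log N / 8 := by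
  unfold hh
  have h1 : (0 : ℝ) < mm N := by
    have : (2 : ℝ) ≤ mm N := by exact_mod_cast mm_two N
    linarith
  field_simp

lemma VV_nonneg (N n : ℕ) : 0 ≤ VV N n := integral_nonneg fun _ => (exp_pos _).le

/-- the decay of the weight -/
lemma VV_le {N : ℕ} (h : 1 ≤ log (N : ℝ)) (n : ℕ) :
    VV N n ≤ exp (-(2 * π * (N : ℝ) ^ (-(5 / 8) : ℝ) * n)) := by
  have hN0 := pos_of_log h
  have := nu_prob (mm N) (hh_pos h)
  refine (Vw_le (Zs_meas _) (Zs_ae _ (hh_pos h)) (by positivity)).trans (le_of_eq ?_)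
  rw [mh h]
  congr 2
  have e1 : exp (-(log N / 8)) = (N : ℝ) ^ (-(1 / 8) : ℝ) := by
    rw [Real.rpow_def_of_pos hN0]
    congr 1
    ring
  rw [e1, Real.sqrt_eq_rpow, div_eq_mul_inv, ← Real.rpow_neg hN0.le]
  have e2 : (N : ℝ) ^ (-(5 / 8) : ℝ) = (N : ℝ) ^ (-(1 / 2) : ℝ) * (N : ℝ) ^ (-(1 / 8) : ℝ) := by
    rw [← Real.rpow_add hN0]
    norm_num
  rw [e2]
  ring

lemma geo_tail {r : ℝ} (h0 : 0 < r) (h1 : r ≤ 1) :
    Summable (fun n : ℕ => (n : ℝ) * exp (-(r * n))) ∧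
      ∑' n : ℕ, (n : ℝ) * exp (-(r * n)) ≤ 4 / r ^ 2 := by
  refine ⟨sum_exp h0, ?_⟩
  have e1 : ∀ n : ℕ, (n : ℝ) * exp (-(r * n)) = n * (exp (-r)) ^ n := by
    intro n
    rw [← Real.exp_nat_mul]
    congr 2
    ring
  have h2 : exp (-r) < 1 := exp_lt_one_iff.2 (by linarith)
  have h3 : 1 - exp (-r) ≥ r / 2 := by
    have h4 : exp (-r) ≤ 1 / (1 + r) := by
      rw [Real.exp_neg, ← one_div]
      apply one_div_le_one_div_of_le (by linarith)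
      linarith [add_one_le_exp r]
    have h5 : 1 / (1 + r) ≤ 1 - r / 2 := by
      rw [div_le_iff₀ (by linarith)]
      nlinarith
    linarith
  simp_rw [e1]
  rw [tsum_coe_mul_geometric_of_norm_lt_one (by rw [Real.norm_eq_abs, abs_of_pos (exp_pos _)]; exact h2)]
  have h6 : (r / 2) ^ 2 ≤ (1 - exp (-r)) ^ 2 := pow_le_pow_left₀ (by positivity) h3 2
  calc exp (-r) / (1 - exp (-r)) ^ 2 ≤ 1 / (r / 2) ^ 2 :=
        div_le_div₀ zero_le_one h2.le (by positivity) h6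
    _ = _ := by field_simp; ring

lemma ev_tiny : ∀ᶠ N : ℕ in atTop,
    (N : ℝ) ^ (5 / 4 : ℝ) * exp (-((N : ℝ) ^ (1 / 8 : ℝ))) ≤ 1 / N := by
  have h1 : Tendsto (fun N : ℕ => (N : ℝ) ^ (1 / 8 : ℝ)) atTop atTop :=
    (tendsto_rpow_atTop (by norm_num)).comp tendsto_natCast_atTop_atTop
  have h2 := (tendsto_pow_mul_exp_neg_atTop_nhds_zero 18).comp h1
  filter_upwards [h2.eventually (ge_mem_nhds (show (0 : ℝ) < 1 by norm_num)),
    eventually_gt_atTop 0] with N hN hN0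
  have hN0' : (0 : ℝ) < N := by exact_mod_cast hN0
  simp only [Function.comp_apply] at hN
  rw [← Real.rpow_natCast, ← Real.rpow_mul hN0'.le] at hN
  rw [le_div_iff₀ hN0']
  calc (N : ℝ) ^ (5 / 4 : ℝ) * exp (-((N : ℝ) ^ (1 / 8 : ℝ))) * N =
      ((N : ℝ) ^ (5 / 4 : ℝ) * (N : ℝ) ^ (1 : ℝ)) * exp (-((N : ℝ) ^ (1 / 8 : ℝ))) := by
        rw [Real.rpow_one]; ring
    _ = (N : ℝ) ^ (1 / 8 * ((18 : ℕ) : ℝ)) * exp (-((N : ℝ) ^ (1 / 8 : ℝ))) := by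
        rw [← Real.rpow_add hN0']
        norm_num
    _ ≤ 1 := hN

theorem tail : ∀ᶠ N : ℕ in atTop, ∀ a : ℕ → ℝ, (∀ n, |a n| ≤ n) →
    |∑' n : ℕ, a n * VV N n - ∑ n ∈ Finset.Icc 1 (Yb N), a n * VV N n| ≤ 1 / N := by
  filter_upwards [ev_tiny, ev_log 100] with N h1 h2 a ha
  have hlog : 1 ≤ log (N : ℝ) := by linarith
  have hN0 := pos_of_log hlog
  set α : ℝ := 2 * π * (N : ℝ) ^ (-(5 / 8) : ℝ) with hα
  have hα0 : 0 < α := by positivity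
  have hNe : (N : ℝ) = exp (log N) := (Real.exp_log hN0).symm
  have hα1 : α / 2 ≤ 1 := by
    have e1 : (N : ℝ) ^ (-(5 / 8) : ℝ) ≤ exp (-50) := by
      rw [Real.rpow_def_of_pos hN0]
      apply exp_le_exp.2
      linarith
    have e2 : exp (-50) ≤ 1 / 50 := by
      rw [Real.exp_neg, ← one_div]
      apply one_div_le_one_div_of_le (by norm_num)
      have := add_one_le_exp (50 : ℝ)
      linarith
    have := Real.pi_lt_four
    nlinarith [Real.pi_pos]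
  have hb : ∀ n : ℕ, |a n * VV N n| ≤ (n : ℝ) * exp (-(α * n)) := by
    intro n
    rw [abs_mul, abs_of_nonneg (VV_nonneg N n)]
    exact mul_le_mul (ha n) (VV_le hlog n) (VV_nonneg N n) (Nat.cast_nonneg n)
  have hsum : Summable fun n : ℕ => a n * VV N n :=
    Summable.of_norm_bounded (sum_exp hα0) fun n => by rw [Real.norm_eq_abs]; exact hb n
  have ha0 : a 0 * VV N 0 = 0 := by
    have := ha 0
    simp only [Nat.cast_zero, abs_nonpos_iff] at this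
    rw [this, zero_mul]
  have e1 : ∑ n ∈ Finset.Icc 1 (Yb N), a n * VV N n = ∑ n ∈ range (Yb N + 1), a n * VV N n := by
    rw [Finset.range_eq_Ico, Finset.sum_eq_sum_Ico_succ_bot (by omega), ha0, zero_add]
    rfl
  rw [e1, ← hsum.sum_add_tsum_nat_add (Yb N + 1), add_sub_cancel_left]
  obtain ⟨g1, g2⟩ := geo_tail (r := α / 2) (by positivity) hα1
  have hY : (N : ℝ) ^ (3 / 4 : ℝ) ≤ (Yb N : ℝ) + 1 := (Nat.lt_floor_add_one _).le
  have h3 : ∀ n : ℕ, ‖a (n + (Yb N + 1)) * VV N (n + (Yb N + 1))‖ ≤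
      exp (-(α / 2 * (N : ℝ) ^ (3 / 4 : ℝ))) *
        (((n + (Yb N + 1) : ℕ) : ℝ) * exp (-(α / 2 * ((n + (Yb N + 1) : ℕ) : ℝ)))) := by
    intro n
    rw [Real.norm_eq_abs]
    refine (hb _).trans ?_
    have e2 : exp (-(α * ((n + (Yb N + 1) : ℕ) : ℝ))) ≤ exp (-(α / 2 * (N : ℝ) ^ (3 / 4 : ℝ))) *
        exp (-(α / 2 * ((n + (Yb N + 1) : ℕ) : ℝ))) := by
      rw [← Real.exp_add]
      apply exp_le_exp.2
      have e3 : (N : ℝ) ^ (3 / 4 : ℝ) ≤ ((n + (Yb N + 1) : ℕ) : ℝ) := by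
        push_cast
        have : (0 : ℝ) ≤ n := Nat.cast_nonneg n
        linarith
      nlinarith [mul_le_mul_of_nonneg_left e3 (show 0 ≤ α / 2 by positivity)]
    calc ((n + (Yb N + 1) : ℕ) : ℝ) * exp (-(α * ((n + (Yb N + 1) : ℕ) : ℝ))) ≤
        ((n + (Yb N + 1) : ℕ) : ℝ) * (exp (-(α / 2 * (N : ℝ) ^ (3 / 4 : ℝ))) *
        exp (-(α / 2 * ((n + (Yb N + 1) : ℕ) : ℝ)))) :=
          mul_le_mul_of_nonneg_left e2 (Nat.cast_nonneg _)
      _ = _ := by ring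
  have g3 : Summable fun n : ℕ => exp (-(α / 2 * (N : ℝ) ^ (3 / 4 : ℝ))) *
        (((n + (Yb N + 1) : ℕ) : ℝ) * exp (-(α / 2 * ((n + (Yb N + 1) : ℕ) : ℝ)))) :=
    ((summable_nat_add_iff (Yb N + 1)).2 g1).mul_left _
  rw [← Real.norm_eq_abs]
  refine (tsum_of_norm_bounded g3.hasSum h3).trans ?_
  rw [tsum_mul_left]
  have g4 : ∑' n : ℕ, (((n + (Yb N + 1) : ℕ) : ℝ) * exp (-(α / 2 * ((n + (Yb N + 1) : ℕ) : ℝ)))) ≤
      4 / (α / 2) ^ 2 := by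
    refine le_trans ?_ g2
    rw [← g1.sum_add_tsum_nat_add (Yb N + 1)]
    have : 0 ≤ ∑ i ∈ range (Yb N + 1), (i : ℝ) * exp (-(α / 2 * i)) :=
      Finset.sum_nonneg fun i _ => by positivity
    linarith
  have g5 : α / 2 * (N : ℝ) ^ (3 / 4 : ℝ) = π * (N : ℝ) ^ (1 / 8 : ℝ) := by
    rw [hα]
    have : (N : ℝ) ^ (-(5 / 8) : ℝ) * (N : ℝ) ^ (3 / 4 : ℝ) = (N : ℝ) ^ (1 / 8 : ℝ) := by
      rw [← Real.rpow_add hN0]; norm_num
    rw [← this]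
    ring
  have g6 : 4 / (α / 2) ^ 2 ≤ (N : ℝ) ^ (5 / 4 : ℝ) := by
    have e4 : (α / 2) ^ 2 = π ^ 2 * (N : ℝ) ^ (-(5 / 4) : ℝ) := by
      rw [hα]
      have : ((N : ℝ) ^ (-(5 / 8) : ℝ)) ^ 2 = (N : ℝ) ^ (-(5 / 4) : ℝ) := by
        rw [← Real.rpow_natCast, ← Real.rpow_mul hN0.le]; norm_num
      rw [← this]
      ring
    rw [e4, Real.rpow_neg hN0.le, div_le_iff₀ (by positivity)]
    have e5 : (N : ℝ) ^ (5 / 4 : ℝ) * (π ^ 2 * ((N : ℝ) ^ (5 / 4 : ℝ))⁻¹) = π ^ 2 := by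
      field_simp
    rw [e5]
    nlinarith [Real.pi_gt_three]
  calc exp (-(α / 2 * (N : ℝ) ^ (3 / 4 : ℝ))) * _ ≤
        exp (-((N : ℝ) ^ (1 / 8 : ℝ))) * (N : ℝ) ^ (5 / 4 : ℝ) := by
        refine mul_le_mul ?_ (g4.trans g6) (tsum_nonneg fun n => by positivity) (exp_pos _).le
        rw [g5]
        apply exp_le_exp.2
        have : 0 ≤ (N : ℝ) ^ (1 / 8 : ℝ) := by positivity
        nlinarith [Real.pi_gt_three]
    _ = (N : ℝ) ^ (5 / 4 : ℝ) * exp (-((N : ℝ) ^ (1 / 8 : ℝ))) := mul_comm _ _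
    _ ≤ _ := h1

end Pool.Agent.H485.CC
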