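import Pool.Agent.H485.CC.Par

/-!
# The mollified second moment in the model
-/

set_option autoImplicit false
set_option maxHeartbeats 4000000

open MeasureTheory Real Finset Filter

namespace Pool.Agent.H485.CC

/-- the number of the variables -/
noncomputable def mm (N : ℕ) : ℕ := ⌈62 * ll N⌉₊ + 2

/-- the size of the variables -/
noncomputable def hh (N : ℕ) : ℝ := log N / (8 * mm N)

lemma mm_ge (N : ℕ) : 62 * ll N ≤ mm N := by
  unfold mm
  have := Nat.le_ceil (62 * ll N)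
  push_cast
  linarith

lemma mm_two (N : ℕ) : 2 ≤ mm N := by unfold mm; omega

lemma mm_le {N : ℕ} (h : 1 ≤ ll N) : (mm N : ℝ) ≤ 65 * ll N := by
  unfold mm
  have := Nat.ceil_lt_add_one (show 0 ≤ 62 * ll N by linarith)
  push_cast
  linarith

lemma gamma_le {σ : ℝ} (h0 : 0 < σ) (h1 : σ ≤ 1) : Real.Gamma σ ≤ 1 / σ := by
  have e1 : Real.Gamma (σ + 1) = σ * Real.Gamma σ := Real.Gamma_add_one h0.ne'
  have h2 : Real.Gamma (σ + 1) ≤ 1 := by
    have hc := Real.convexOn_Gamma.2 (show (1 : ℝ) ∈ Set.Ioi (0 : ℝ) by simp)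
      (show (2 : ℝ) ∈ Set.Ioi (0 : ℝ) by simp) (show 0 ≤ 1 - σ by linarith) h0.le (by ring)
    rw [Real.Gamma_one, Real.Gamma_two] at hc
    simp only [smul_eq_mul, mul_one] at hc
    have e : 1 - σ + σ * 2 = σ + 1 := by ring
    rw [e] at hc
    linarith
  rw [e1] at h2
  rw [le_div_iff₀ h0]
  linarith

lemma one_sub_ps {p : ℕ} (hp : p.Prime) {s : ℂ} (hs : ‖s‖ * log p ≤ 1) :
    ‖1 - ((p : ℕ) : ℂ) ^ (-s)‖ ≤ 2 * ‖s‖ * log p := by
  have hp0 : ((p : ℕ) : ℂ) ≠ 0 := by exact_mod_cast hp.ne_zero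
  have hl : 0 ≤ log (p : ℝ) := Real.log_natCast_nonneg p
  rw [Complex.cpow_def_of_ne_zero hp0]
  have h1 : ‖Complex.log ((p : ℕ) : ℂ) * -s‖ = ‖s‖ * log p := by
    rw [norm_mul, norm_neg, ← Complex.natCast_log, Complex.norm_real, Real.norm_eq_abs,
      abs_of_nonneg hl, mul_comm]
  have h2 := Complex.norm_exp_sub_one_le (x := Complex.log ((p : ℕ) : ℂ) * -s) (by rw [h1]; exact hs)
  rw [h1] at h2
  rw [norm_sub_rev]
  linarith

lemma one_sub_ps' {p : ℕ} (hp : p.Prime) {s : ℂ} (hs : 0 ≤ s.re) :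
    ‖1 - ((p : ℕ) : ℂ) ^ (-s)‖ ≤ 2 := by
  have h1 := norm_ps hp hs
  have h2 := norm_sub_le (1 : ℂ) (((p : ℕ) : ℂ) ^ (-s))
  rw [norm_one] at h2
  linarith

lemma kap {b : ℝ} (hb : |b| ≤ 6) : |1 + 2 * b + b ^ 2 / 2| ≤ 31 := by
  have h := abs_le.1 hb
  rw [abs_le]
  constructor <;> nlinarith [h.1, h.2]

theorem near_MM {ε : ℝ} (hε : 0 < ε) : ∀ᶠ N : ℕ in atTop, ∀ b : ℝ, |b| ≤ 6 → ∀ τ : ℝ,
    |τ| ≤ exp 1 * (1 / hh N) →
    MM (Sb N) (Ss N) b (((1 / log (N : ℝ) : ℝ) : ℂ) + τ * Complex.I) ≤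
      exp ((1 + 2 * b + b ^ 2 / 2 + ε) * ll N) := by
  obtain ⟨K, hK0, hK⟩ := MM_le 6 (by norm_num)
  obtain ⟨C3, hC30, hC3⟩ := sum_tp3
  obtain ⟨CL, hCL0, hCL⟩ := sum_log
  filter_upwards [ev_sumS (ε := ε / 128) (by positivity), ev_sumD (ε := ε / 4) (by positivity),
    hCL, ev_lin (46800 * (1 + CL)) (ε := ε / 4) (by positivity),
    ev_lin (K * C3) (ε := ε / 4) (by positivity), ev_ll 1950, ev_log 1, ev_sub]
    with N h1 h2 h3 h4 h5 h6 h7 hsub b hb τ hτ
  have hL0 : 0 < log (N : ℝ) := by linarith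
  have hll0 : 0 < ll N := by linarith
  set s : ℂ := ((1 / log (N : ℝ) : ℝ) : ℂ) + τ * Complex.I with hs
  have hsre : 0 ≤ s.re := by
    rw [hs, re_line]; positivity
  have hLl : ll N ≤ log N := by
    have := add_one_le_exp (ll N)
    rw [exp_ll hL0] at this
    linarith
  -- size of s
  have hsn : ‖s‖ ≤ 1950 * ll N / log N := by
    have hmm := mm_le (N := N) (by linarith)
    have hmm2 : (2 : ℝ) ≤ mm N := by exact_mod_cast mm_two N
    have e1 : ‖s‖ ≤ 1 / log N + |τ| := by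
      refine (norm_add_le _ _).trans ?_
      rw [norm_mul, Complex.norm_I, mul_one, Complex.norm_real, Complex.norm_real, Real.norm_eq_abs,
        Real.norm_eq_abs, abs_of_pos (by positivity)]
    have e2 : 1 / hh N = 8 * mm N / log N := by unfold hh; rw [one_div_div]
    rw [e2] at hτ
    have e3 : exp 1 ≤ 2.72 := by have := Real.exp_one_lt_d9; linarith
    have e4 : exp 1 * (8 * mm N / log N) ≤ 2.72 * (8 * mm N / log N) :=
      mul_le_mul_of_nonneg_right e3 (by positivity)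
    calc ‖s‖ ≤ 1 / log N + 2.72 * (8 * mm N / log N) := by linarith
      _ = (1 + 21.76 * mm N) / log N := by ring
      _ ≤ (30 * mm N) / log N := by
          apply div_le_div_of_nonneg_right _ hL0.le
          linarith
      _ ≤ _ := by
          apply div_le_div_of_nonneg_right _ hL0.le
          linarith
  have hlp : ∀ p ∈ Ss N, log (p : ℝ) ≤ log N / ll N ^ 2 := by
    intro p hp
    have hp0 : (0 : ℝ) < p := by exact_mod_cast (Ss_prime p hp).pos
    rw [Real.log_le_iff_le_exp hp0]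
    exact Ss_le p hp
  have hsp : ∀ p ∈ Ss N, ‖s‖ * log p ≤ 1 := by
    intro p hp
    calc ‖s‖ * log p ≤ (1950 * ll N / log N) * (log N / ll N ^ 2) :=
          mul_le_mul hsn (hlp p hp) (Real.log_natCast_nonneg p) (by positivity)
      _ = 1950 / ll N := by field_simp
      _ ≤ 1 := by rw [div_le_one hll0]; exact h6
  have hsum2 : ∑ p ∈ Ss N, 2 * |b| * ‖1 - ((p : ℕ) : ℂ) ^ (-s)‖ / p ≤ 46800 * (1 + CL) := by
    calc ∑ p ∈ Ss N, 2 * |b| * ‖1 - ((p : ℕ) : ℂ) ^ (-s)‖ / p ≤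
        ∑ p ∈ Ss N, (24 * ‖s‖) * (log p / p) := by
          refine Finset.sum_le_sum fun p hp => ?_
          have hp0 : (0 : ℝ) < p := by exact_mod_cast (Ss_prime p hp).pos
          have e1 := one_sub_ps (Ss_prime p hp) (hsp p hp)
          have e5 : 2 * |b| * ‖1 - ((p : ℕ) : ℂ) ^ (-s)‖ ≤ 2 * 6 * (2 * ‖s‖ * log p) := by
            gcongr
          calc 2 * |b| * ‖1 - ((p : ℕ) : ℂ) ^ (-s)‖ / p ≤ 2 * 6 * (2 * ‖s‖ * log p) / p :=
                div_le_div_of_nonneg_right e5 hp0.le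
            _ = _ := by ring
      _ = 24 * ‖s‖ * ∑ p ∈ Ss N, log p / p := by rw [Finset.mul_sum]
      _ ≤ 24 * (1950 * ll N / log N) * (log N / ll N ^ 2 + CL) := by
          refine mul_le_mul (by linarith) h3 (Finset.sum_nonneg fun p _ => ?_) (by positivity)
          exact div_nonneg (Real.log_natCast_nonneg p) (Nat.cast_nonneg p)
      _ = 46800 * (1 / ll N + CL * (ll N / log N)) := by field_simp; ring
      _ ≤ 46800 * (1 + CL * 1) := by
          have e1 : 1 / ll N ≤ 1 := by rw [div_le_one hll0]; linarith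
          have e2 : ll N / log N ≤ 1 := by rw [div_le_one hL0]; exact hLl
          have := mul_le_mul_of_nonneg_left e2 hCL0
          linarith
      _ = _ := by ring
  refine (hK (Sb N) (Ss N) b s Sb_prime hsub hb hsre).trans (exp_le_exp.2 ?_)
  have h8 := hC3 (Sb N)
  have h9 : K * ∑ p ∈ Sb N, tp p ^ 3 ≤ K * C3 := mul_le_mul_of_nonneg_left h8 hK0
  have h10 : (1 + 2 * b + b ^ 2 / 2) * ∑ p ∈ Ss N, (1 : ℝ) / p ≤
      (1 + 2 * b + b ^ 2 / 2) * ll N + ε / 4 * ll N := by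
    have e1 : (1 + 2 * b + b ^ 2 / 2) * (∑ p ∈ Ss N, (1 : ℝ) / p - ll N) ≤ 31 * (ε / 128 * ll N) := by
      calc (1 + 2 * b + b ^ 2 / 2) * (∑ p ∈ Ss N, (1 : ℝ) / p - ll N) ≤
          |(1 + 2 * b + b ^ 2 / 2) * (∑ p ∈ Ss N, (1 : ℝ) / p - ll N)| := le_abs_self _
        _ = |1 + 2 * b + b ^ 2 / 2| * |∑ p ∈ Ss N, (1 : ℝ) / p - ll N| := abs_mul _ _
        _ ≤ _ := mul_le_mul (kap hb) h1 (abs_nonneg _) (by norm_num)
    have e2 : 31 * (ε / 128 * ll N) ≤ ε / 4 * ll N := by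
      have : 0 < ε * ll N := by positivity
      linarith
    linarith
  linarith

theorem far_MM : ∀ᶠ N : ℕ in atTop, ∀ b : ℝ, |b| ≤ 6 → ∀ s : ℂ, 0 ≤ s.re →
    MM (Sb N) (Ss N) b s ≤ exp (60 * ll N) := by
  obtain ⟨K, hK0, hK⟩ := MM_le 6 (by norm_num)
  obtain ⟨C3, hC30, hC3⟩ := sum_tp3
  filter_upwards [ev_sumS (ε := 1 / 100) (by positivity), ev_sumD (ε := 1 / 4) (by positivity),
    ev_lin (K * C3) (ε := 1 / 4) (by positivity), ev_ll 1950, ev_log 1, ev_sub]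
    with N h1 h2 h5 h6 h7 hsub b hb s hsre
  have hll0 : 0 < ll N := by linarith
  have hS1 : ∑ p ∈ Ss N, (1 : ℝ) / p ≤ 1.01 * ll N := by
    have := (abs_le.1 h1).2
    linarith
  have hS0 : 0 ≤ ∑ p ∈ Ss N, (1 : ℝ) / p := Finset.sum_nonneg fun p _ => by positivity
  have hsum2 : ∑ p ∈ Ss N, 2 * |b| * ‖1 - ((p : ℕ) : ℂ) ^ (-s)‖ / p ≤ 24.24 * ll N := by
    calc ∑ p ∈ Ss N, 2 * |b| * ‖1 - ((p : ℕ) : ℂ) ^ (-s)‖ / p ≤
        ∑ p ∈ Ss N, 24 * ((1 : ℝ) / p) := by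
          refine Finset.sum_le_sum fun p hp => ?_
          have hp0 : (0 : ℝ) < p := by exact_mod_cast (Ss_prime p hp).pos
          have e1 := one_sub_ps' (Ss_prime p hp) hsre
          have e5 : 2 * |b| * ‖1 - ((p : ℕ) : ℂ) ^ (-s)‖ ≤ 2 * 6 * 2 := by
            gcongr
          calc 2 * |b| * ‖1 - ((p : ℕ) : ℂ) ^ (-s)‖ / p ≤ 2 * 6 * 2 / p :=
                div_le_div_of_nonneg_right e5 hp0.le
            _ = _ := by ring
      _ = 24 * ∑ p ∈ Ss N, (1 : ℝ) / p := by rw [Finset.mul_sum]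
      _ ≤ _ := by linarith
  refine (hK (Sb N) (Ss N) b s Sb_prime hsub hb hsre).trans (exp_le_exp.2 ?_)
  have h8 := hC3 (Sb N)
  have h9 : K * ∑ p ∈ Sb N, tp p ^ 3 ≤ K * C3 := mul_le_mul_of_nonneg_left h8 hK0
  have h10 : (1 + 2 * b + b ^ 2 / 2) * ∑ p ∈ Ss N, (1 : ℝ) / p ≤ 31 * (1.01 * ll N) := by
    have e1 := (le_abs_self _).trans (kap hb)
    calc (1 + 2 * b + b ^ 2 / 2) * ∑ p ∈ Ss N, (1 : ℝ) / p ≤ 31 * ∑ p ∈ Ss N, (1 : ℝ) / p :=
          mul_le_mul_of_nonneg_right e1 hS0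
      _ ≤ _ := by linarith
  linarith

theorem model_second {ε : ℝ} (hε : 0 < ε) : ∀ᶠ N : ℕ in atTop, ∀ b : ℝ, |b| ≤ 1 → ∀ J : ℕ,
    30 * ll N ≤ J →
    ∫ x, (tj J (b * PP (Ss N) (XX (Sb N) x)) *
      SX (Sb N) (mm N) (hh N) (2 * π / Real.sqrt N) x) ^ 2 ∂(mu (Sb N)) ≤
      exp ((1 + 4 * b + 2 * b ^ 2 + ε) * ll N) := by
  have hε2 : 0 < min (ε / 2) 1 := by positivity
  filter_upwards [near_MM hε2, far_MM, ev_pow (10 ^ 10) 2 (ε := ε / 2) (by positivity), ev_ll 1,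
    ev_log 1, ev_sub] with N h1 h2 h3 h4 h5 hsub b hb J hJ
  have hL0 : 0 < log (N : ℝ) := by linarith
  have hll0 : 0 < ll N := by linarith
  have hN0 : (0 : ℝ) < N := by
    by_contra h
    have : (N : ℝ) = 0 := le_antisymm (not_lt.1 h) (Nat.cast_nonneg N)
    rw [this, Real.log_zero] at h5
    linarith
  have hmmp : (0 : ℝ) < mm N := by
    have : (2 : ℝ) ≤ mm N := by exact_mod_cast mm_two N
    linarith
  set σ : ℝ := 1 / log (N : ℝ) with hσ
  have hσ0 : 0 < σ := by positivity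
  have hσ1 : σ ≤ 1 := by rw [hσ, div_le_one hL0]; exact h5
  have hhp : 0 < hh N := by unfold hh; positivity
  have hmσ : (mm N : ℝ) * (σ * hh N) ≤ 1 := by
    have : (mm N : ℝ) * (σ * hh N) = 1 / 8 := by
      rw [hσ]; unfold hh; field_simp
    rw [this]; norm_num
  set E : ℝ := exp ((1 + 4 * b + 2 * b ^ 2 + ε / 2) * ll N) with hE
  have hE0 : 0 < E := exp_pos _
  have hb2 := abs_le.1 hb
  have hb6 : |2 * b| ≤ 6 := by
    rw [abs_mul, abs_two]; linarith
  have hkb : -1 ≤ 1 + 4 * b + 2 * b ^ 2 := by nlinarith [sq_nonneg (b + 1)]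
  have hJe : exp (-(2 * ((J : ℝ) + 1))) ≤ exp (-60 * ll N) := by
    apply exp_le_exp.2
    linarith
  -- near
  have hB1 : ∀ τ : ℝ, |τ| ≤ exp 1 * (1 / hh N) →
      ∫ x, tj J (b * PP (Ss N) (XX (Sb N) x)) ^ 2 * ‖EE (Sb N) (σ + τ * Complex.I) x‖ ^ 2 ∂(mu (Sb N)) ≤
        6 * E := by
    intro τ hτ
    have hs : 0 ≤ ((σ : ℂ) + τ * Complex.I).re := by rw [re_line]; exact hσ0.le
    refine (BB_le Sb_prime hsub J hb hs).trans ?_
    have e1 := h1 (2 * b) hb6 τ hτ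
    have e2 := h1 6 (by rw [abs_of_pos (by norm_num)]) τ hτ
    have e3 := h1 (-6) (by rw [abs_neg, abs_of_pos (by norm_num)]) τ hτ
    have f1 : exp ((1 + 2 * (2 * b) + (2 * b) ^ 2 / 2 + min (ε / 2) 1) * ll N) ≤ E := by
      apply exp_le_exp.2
      apply mul_le_mul_of_nonneg_right _ hll0.le
      have := min_le_left (ε / 2) 1
      nlinarith
    have f2 : exp ((1 + 2 * 6 + 6 ^ 2 / 2 + min (ε / 2) 1) * ll N) ≤ exp (32 * ll N) := by
      apply exp_le_exp.2
      apply mul_le_mul_of_nonneg_right _ hll0.le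
      have := min_le_right (ε / 2) 1
      linarith
    have f3 : exp ((1 + 2 * (-6) + (-6) ^ 2 / 2 + min (ε / 2) 1) * ll N) ≤ exp (32 * ll N) := by
      apply exp_le_exp.2
      apply mul_le_mul_of_nonneg_right _ hll0.le
      have := min_le_right (ε / 2) 1
      linarith
    have f4 : exp (-60 * ll N) * exp (32 * ll N) ≤ E := by
      rw [← Real.exp_add]
      apply exp_le_exp.2
      nlinarith
    have m6 : MM (Sb N) (Ss N) 6 (σ + τ * Complex.I) + MM (Sb N) (Ss N) (-6) (σ + τ * Complex.I) ≤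
        2 * exp (32 * ll N) := by linarith
    have m7 : 2 * exp (-(2 * ((J : ℝ) + 1))) * (MM (Sb N) (Ss N) 6 (σ + τ * Complex.I) +
        MM (Sb N) (Ss N) (-6) (σ + τ * Complex.I)) ≤
        2 * exp (-60 * ll N) * (2 * exp (32 * ll N)) := by
      refine mul_le_mul (by linarith) m6 ?_ (by positivity)
      unfold MM
      have g1 : ∀ b' : ℝ, 0 ≤ ∫ x, exp (b' * PP (Ss N) (XX (Sb N) x)) *
          ‖EE (Sb N) (σ + τ * Complex.I) x‖ ^ 2 ∂(mu (Sb N)) := fun b' =>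
        integral_nonneg fun x => by positivity
      exact add_nonneg (g1 _) (g1 _)
    linarith
  -- far
  have hB2 : ∀ τ : ℝ,
      ∫ x, tj J (b * PP (Ss N) (XX (Sb N) x)) ^ 2 * ‖EE (Sb N) (σ + τ * Complex.I) x‖ ^ 2 ∂(mu (Sb N)) ≤
        6 * exp (60 * ll N) := by
    intro τ
    have hs : 0 ≤ ((σ : ℂ) + τ * Complex.I).re := by rw [re_line]; exact hσ0.le
    refine (BB_le Sb_prime hsub J hb hs).trans ?_
    have e1 := h2 (2 * b) hb6 _ hs
    have e2 := h2 6 (by rw [abs_of_pos (by norm_num)]) _ hs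
    have e3 := h2 (-6) (by rw [abs_neg, abs_of_pos (by norm_num)]) _ hs
    have f1 : exp (-(2 * ((J : ℝ) + 1))) ≤ 1 := by
      apply exp_le_one_iff.2
      have : (0 : ℝ) ≤ J := Nat.cast_nonneg J
      linarith
    have m7 : 2 * exp (-(2 * ((J : ℝ) + 1))) * (MM (Sb N) (Ss N) 6 (σ + τ * Complex.I) +
        MM (Sb N) (Ss N) (-6) (σ + τ * Complex.I)) ≤
        2 * 1 * (2 * exp (60 * ll N)) := by
      refine mul_le_mul (by linarith) (by linarith) ?_ (by positivity)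
      unfold MM
      have g1 : ∀ b' : ℝ, 0 ≤ ∫ x, exp (b' * PP (Ss N) (XX (Sb N) x)) *
          ‖EE (Sb N) (σ + τ * Complex.I) x‖ ^ 2 ∂(mu (Sb N)) := fun b' =>
        integral_nonneg fun x => by positivity
      exact add_nonneg (g1 _) (g1 _)
    linarith
  have hTc : Continuous fun x : (Sb N) → ℝ => tj J (b * PP (Ss N) (XX (Sb N) x)) :=
    (tj_cont J).comp (continuous_const.mul PP_cont)
  have hTb : ∀ x : (Sb N) → ℝ, |tj J (b * PP (Ss N) (XX (Sb N) x))| ≤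
      ∑ j ∈ range (J + 1), (1 / (j.factorial : ℝ)) * (∑ p ∈ Ss N, tp p * 2) ^ j := by
    intro x
    apply tj_bdd
    rw [abs_mul]
    calc |b| * |PP (Ss N) (XX (Sb N) x)| ≤ 1 * ∑ p ∈ Ss N, tp p * 2 :=
          mul_le_mul hb (PP_bdd Sb_prime hsub x) (abs_nonneg _) zero_le_one
      _ = _ := one_mul _
  have key := model_bound Sb_prime (mm_two N) hhp hσ0 hmσ (c := 2 * π / Real.sqrt N)
    (by positivity) hTc hTb (B1 := 6 * E) (B2 := 6 * exp (60 * ll N)) (by positivity) (by positivity)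
    hB1 hB2
  refine key.trans ?_
  have g1 : 27 * (6 * E) + 45 * exp (-(mm N : ℝ)) * (6 * exp (60 * ll N)) ≤ 432 * E := by
    have e1 : exp (-(mm N : ℝ)) * exp (60 * ll N) ≤ E := by
      rw [← Real.exp_add]
      apply exp_le_exp.2
      have := mm_ge N
      nlinarith
    linarith
  have g2 : ((2 * π / Real.sqrt N) ^ (-σ)) ^ 2 ≤ 3 := by
    have hsN : 0 < Real.sqrt N := Real.sqrt_pos.2 hN0
    have hsN1 : 1 ≤ Real.sqrt N := by
      rw [Real.one_le_sqrt]
      by_contra h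
      push Not at h
      have := Real.log_neg hN0 h
      linarith
    have e1 : (2 * π / Real.sqrt N) ^ (-σ) ≤ (N : ℝ) ^ (σ / 2) := by
      rw [Real.rpow_neg (by positivity), ← Real.inv_rpow (by positivity), inv_div]
      calc (Real.sqrt N / (2 * π)) ^ σ ≤ (Real.sqrt N) ^ σ := by
            apply Real.rpow_le_rpow (by positivity) _ hσ0.le
            apply div_le_self hsN.le
            linarith [Real.pi_gt_three]
        _ = (N : ℝ) ^ (σ / 2) := by
            rw [Real.sqrt_eq_rpow, ← Real.rpow_mul hN0.le]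
            congr 1
            ring
    calc ((2 * π / Real.sqrt N) ^ (-σ)) ^ 2 ≤ ((N : ℝ) ^ (σ / 2)) ^ 2 :=
          pow_le_pow_left₀ (by positivity) e1 2
      _ = exp 1 := by
          rw [← Real.rpow_natCast, ← Real.rpow_mul hN0.le, Real.rpow_def_of_pos hN0]
          congr 1
          rw [hσ]
          push_cast
          field_simp
      _ ≤ 3 := by have := Real.exp_one_lt_d9; linarith
  have g3 : Real.Gamma σ ≤ log N := by
    have := gamma_le hσ0 hσ1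
    rwa [hσ, one_div_one_div] at this
  have hG0 : 0 < Real.Gamma σ := Real.Gamma_pos_of_pos hσ0
  have g4 : 1 / hh N ≤ 520 * ll N / log N := by
    unfold hh
    rw [one_div_div]
    apply div_le_div_of_nonneg_right _ hL0.le
    have := mm_le h4
    linarith
  have g5 : Real.Gamma σ * (1 / hh N) ≤ 520 * ll N := by
    calc Real.Gamma σ * (1 / hh N) ≤ log N * (520 * ll N / log N) :=
          mul_le_mul g3 g4 (by positivity) hL0.le
      _ = _ := by field_simp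
  have g6 : (Real.Gamma σ * (1 / hh N)) ^ 2 ≤ (520 * ll N) ^ 2 :=
    pow_le_pow_left₀ (by positivity) g5 2
  calc ((2 * π / Real.sqrt N) ^ (-σ) * Real.Gamma σ / (2 * π)) ^ 2 * (27 * (π / hh N)) *
        ((27 * (6 * E) + 45 * exp (-(mm N : ℝ)) * (6 * exp (60 * ll N))) * (π / hh N)) ≤
      ((2 * π / Real.sqrt N) ^ (-σ) * Real.Gamma σ / (2 * π)) ^ 2 * (27 * (π / hh N)) *
        ((432 * E) * (π / hh N)) := by
        refine mul_le_mul_of_nonneg_left ?_ (by positivity)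
        exact mul_le_mul_of_nonneg_right g1 (by positivity)
    _ = 2916 * (((2 * π / Real.sqrt N) ^ (-σ)) ^ 2 * (Real.Gamma σ * (1 / hh N)) ^ 2) * E := by
        field_simp
        ring
    _ ≤ 2916 * (3 * (520 * ll N) ^ 2) * E := by
        refine mul_le_mul_of_nonneg_right ?_ hE0.le
        refine mul_le_mul_of_nonneg_left ?_ (by norm_num)
        exact mul_le_mul g2 g6 (by positivity) (by norm_num)
    _ = 2365459200 * ll N ^ 2 * E := by ring
    _ ≤ (10 ^ 10 * ll N ^ 2) * E := by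
        refine mul_le_mul_of_nonneg_right ?_ hE0.le
        nlinarith [sq_nonneg (ll N)]
    _ ≤ exp (ε / 2 * ll N) * E := mul_le_mul_of_nonneg_right h3 hE0.le
    _ = _ := by
        rw [hE, ← Real.exp_add]
        congr 1
        ring

end Pool.Agent.H485.CC
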