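import Mathlib

/-!
# Trigonometric polynomials and their Taylor polynomials
-/

set_option autoImplicit false
set_option maxHeartbeats 4000000

open Real Finset

namespace Pool.Agent.H485.CC

/-- the remainder of the exponential series on the imaginary axis -/
noncomputable def Tdn (n : ℕ) (y : ℝ) : ℂ :=
  Complex.exp (y * Complex.I) - ∑ j ∈ range n, (y * Complex.I) ^ j / (j.factorial : ℂ)

lemma Tdn_deriv (n : ℕ) (y : ℝ) : HasDerivAt (Tdn (n + 1)) (Complex.I * Tdn n y) y := by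
  have h0 : HasDerivAt (fun y : ℝ => (y : ℂ) * Complex.I) Complex.I y := by
    have := (Complex.ofRealCLM.hasDerivAt (x := y)).mul_const Complex.I
    simpa using this
  have h1 : HasDerivAt (fun y : ℝ => Complex.exp (y * Complex.I)) (Complex.exp (y * Complex.I) * Complex.I) y :=
    h0.cexp
  have h2 : ∀ j ∈ range (n + 1), HasDerivAt (fun y : ℝ => ((y : ℂ) * Complex.I) ^ j / (j.factorial : ℂ))
      ((j : ℂ) * ((y : ℂ) * Complex.I) ^ (j - 1) * Complex.I / (j.factorial : ℂ)) y := by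
    intro j _
    exact (h0.pow j).div_const _
  have h3 := h1.sub (HasDerivAt.fun_sum h2)
  refine h3.congr_deriv ?_
  unfold Tdn
  rw [Finset.sum_range_succ']
  simp only [Nat.cast_zero, zero_mul, zero_div, add_zero, Nat.add_sub_cancel]
  rw [mul_sub, Finset.mul_sum, mul_comm Complex.I]
  congr 1
  refine Finset.sum_congr rfl fun j _ => ?_
  rw [Nat.factorial_succ]
  have : ((j + 1 : ℕ) : ℂ) ≠ 0 := by exact_mod_cast Nat.succ_ne_zero j
  push_cast at this ⊢
  field_simp

lemma Tdn_zero_val (n : ℕ) : Tdn (n + 1) 0 = 0 := by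
  unfold Tdn
  rw [Finset.sum_range_succ']
  simp

lemma Tdn_neg (n : ℕ) (y : ℝ) : ‖Tdn n (-y)‖ = ‖Tdn n y‖ := by
  have : Tdn n (-y) = (starRingEnd ℂ) (Tdn n y) := by
    unfold Tdn
    rw [map_sub, ← Complex.exp_conj, map_sum]
    simp only [map_mul, Complex.conj_ofReal, Complex.conj_I, map_div₀, map_pow, Complex.ofReal_neg,
      Complex.conj_natCast]
    have e : (-(y : ℂ)) * Complex.I = y * -Complex.I := by ring
    rw [e]
  rw [this, RCLike.norm_conj]

/-- Taylor's formula for `e^(iy)` -/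
theorem Tdn_le (n : ℕ) (y : ℝ) : ‖Tdn n y‖ ≤ |y| ^ n / (n.factorial : ℝ) := by
  induction n generalizing y with
  | zero =>
    unfold Tdn
    simp [Complex.norm_exp_ofReal_mul_I]
  | succ n ih =>
    have key : ∀ y : ℝ, 0 ≤ y → ‖Tdn (n + 1) y‖ ≤ |y| ^ (n + 1) / ((n + 1).factorial : ℝ) := by
      intro y hy
      rw [abs_of_nonneg hy]
      have h1 := image_norm_le_of_norm_deriv_right_le_deriv_boundary (a := 0) (b := y)
        (f := Tdn (n + 1)) (f' := fun y => Complex.I * Tdn n y)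
        (B := fun y => y ^ (n + 1) / ((n + 1).factorial : ℝ)) (B' := fun y => y ^ n / (n.factorial : ℝ))
        (fun x _ => (Tdn_deriv n x).continuousAt.continuousWithinAt)
        (fun x _ => (Tdn_deriv n x).hasDerivWithinAt)
        (by rw [Tdn_zero_val]; simp)
        (fun x => by
          have h2 := (hasDerivAt_pow (n + 1) x).div_const ((n + 1).factorial : ℝ)
          refine h2.congr_deriv ?_
          rw [Nat.factorial_succ, Nat.add_sub_cancel]
          have : ((n + 1 : ℕ) : ℝ) ≠ 0 := by exact_mod_cast Nat.succ_ne_zero n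
          push_cast at this ⊢
          field_simp)
        (fun x hx => by
          rw [norm_mul, Complex.norm_I, one_mul]
          have := ih x
          rwa [abs_of_nonneg hx.1] at this)
      exact h1 ⟨hy, le_refl _⟩
    rcases le_total 0 y with hy | hy
    · exact key y hy
    · have := key (-y) (by linarith)
      rwa [Tdn_neg, abs_neg] at this

/-- functions with good Taylor polynomials -/
def Ty (F : ℝ → ℂ) : Prop := ∃ A ρ : ℝ, 0 ≤ A ∧ 0 ≤ ρ ∧ ∀ n : ℕ, ∃ w : ℕ → ℂ, ∀ x : ℝ,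
  ‖F x - ∑ j ∈ range (n + 1), w j * (x : ℂ) ^ j‖ ≤ A * ((ρ * |x|) ^ (n + 1) / ((n + 1).factorial : ℝ))

lemma Ty.add {F G : ℝ → ℂ} (hF : Ty F) (hG : Ty G) : Ty fun x => F x + G x := by
  obtain ⟨A, ρ, hA, hρ, h⟩ := hF
  obtain ⟨A', ρ', hA', hρ', h'⟩ := hG
  refine ⟨A + A', max ρ ρ', by positivity, le_max_of_le_left hρ, fun n => ?_⟩
  obtain ⟨w, hw⟩ := h n
  obtain ⟨w', hw'⟩ := h' n
  refine ⟨fun j => w j + w' j, fun x => ?_⟩
  have e : F x + G x - ∑ j ∈ range (n + 1), (w j + w' j) * (x : ℂ) ^ j =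
      (F x - ∑ j ∈ range (n + 1), w j * (x : ℂ) ^ j) + (G x - ∑ j ∈ range (n + 1), w' j * (x : ℂ) ^ j) := by
    simp_rw [add_mul, Finset.sum_add_distrib]
    ring
  rw [e, add_mul]
  refine (norm_add_le _ _).trans (add_le_add ((hw x).trans ?_) ((hw' x).trans ?_))
  · apply mul_le_mul_of_nonneg_left _ hA
    apply div_le_div_of_nonneg_right _ (by positivity)
    exact pow_le_pow_left₀ (by positivity) (mul_le_mul_of_nonneg_right (le_max_left _ _) (abs_nonneg _)) _
  · apply mul_le_mul_of_nonneg_left _ hA'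
    apply div_le_div_of_nonneg_right _ (by positivity)
    exact pow_le_pow_left₀ (by positivity) (mul_le_mul_of_nonneg_right (le_max_right _ _) (abs_nonneg _)) _

lemma Ty.smul {F : ℝ → ℂ} (hF : Ty F) (c : ℂ) : Ty fun x => c * F x := by
  obtain ⟨A, ρ, hA, hρ, h⟩ := hF
  refine ⟨‖c‖ * A, ρ, by positivity, hρ, fun n => ?_⟩
  obtain ⟨w, hw⟩ := h n
  refine ⟨fun j => c * w j, fun x => ?_⟩
  have e : c * F x - ∑ j ∈ range (n + 1), (c * w j) * (x : ℂ) ^ j =
      c * (F x - ∑ j ∈ range (n + 1), w j * (x : ℂ) ^ j) := by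
    rw [mul_sub, Finset.mul_sum]
    congr 1
    exact Finset.sum_congr rfl fun j _ => by ring
  rw [e, norm_mul, mul_assoc]
  exact mul_le_mul_of_nonneg_left (hw x) (norm_nonneg _)

lemma Ty.exp (u : ℝ) : Ty fun x => Complex.exp (((u * x : ℝ) : ℂ) * Complex.I) := by
  refine ⟨1, |u|, zero_le_one, abs_nonneg _, fun n => ⟨fun j => (u * Complex.I) ^ j / (j.factorial : ℂ),
    fun x => ?_⟩⟩
  have h := Tdn_le (n + 1) (u * x)
  rw [one_mul, ← abs_mul]
  refine le_trans (le_of_eq ?_) h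
  unfold Tdn
  congr 2
  refine Finset.sum_congr rfl fun j _ => ?_
  push_cast
  ring

/-- stable version -/
def Ty' (F : ℝ → ℂ) : Prop := ∀ u : ℝ, Ty fun x => F x * Complex.exp (((u * x : ℝ) : ℂ) * Complex.I)

lemma Ty'.add {F G : ℝ → ℂ} (hF : Ty' F) (hG : Ty' G) : Ty' fun x => F x + G x := by
  intro u
  have := (hF u).add (hG u)
  refine cast (congrArg Ty ?_) this
  ext x
  ring

lemma Ty'.smul {F : ℝ → ℂ} (hF : Ty' F) (c : ℂ) : Ty' fun x => c * F x := by
  intro u
  have := (hF u).smul c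
  refine cast (congrArg Ty ?_) this
  ext x
  ring

lemma Ty'.one : Ty' fun _ => 1 := by
  intro u
  have := Ty.exp u
  refine cast (congrArg Ty ?_) this
  ext x
  ring

lemma Ty'.mul_sin {F : ℝ → ℂ} (hF : Ty' F) (r : ℝ) : Ty' fun x => F x * (Real.sin (r * x) : ℂ) := by
  intro u
  have h1 := ((hF (u + r)).smul (-(Complex.I / 2))).add ((hF (u - r)).smul (Complex.I / 2))
  refine cast (congrArg Ty ?_) h1
  ext x
  show _ = F x * (Real.sin (r * x) : ℂ) * Complex.exp (((u * x : ℝ) : ℂ) * Complex.I)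
  rw [Complex.ofReal_sin, Complex.sin]
  have e1 : Complex.exp ((((u + r) * x : ℝ) : ℂ) * Complex.I) =
      Complex.exp (((u * x : ℝ) : ℂ) * Complex.I) * Complex.exp (((r * x : ℝ) : ℂ) * Complex.I) := by
    rw [← Complex.exp_add]
    congr 1
    push_cast
    ring
  have e2 : Complex.exp ((((u - r) * x : ℝ) : ℂ) * Complex.I) =
      Complex.exp (((u * x : ℝ) : ℂ) * Complex.I) * Complex.exp (-((r * x : ℝ) : ℂ) * Complex.I) := by
    rw [← Complex.exp_add]
    congr 1
    push_cast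
    ring
  rw [e1, e2]
  ring

lemma Ty'.poly (r : ℝ) (Q : Polynomial ℝ) : Ty' fun x => ((Q.eval (Real.sin (r * x)) : ℝ) : ℂ) := by
  induction Q using Polynomial.induction_on with
  | C a =>
    have := Ty'.one.smul (a : ℂ)
    refine cast (congrArg Ty' ?_) this
    ext x
    simp
  | add p q hp hq =>
    have := hp.add hq
    refine cast (congrArg Ty' ?_) this
    ext x
    simp
  | monomial n a h =>
    have := h.mul_sin r
    refine cast (congrArg Ty' ?_) this
    ext x
    simp only [Polynomial.eval_mul, Polynomial.eval_C, Polynomial.eval_pow, Polynomial.eval_X]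
    push_cast
    ring

/-- real Taylor polynomials of trigonometric polynomials -/
theorem trig_taylor (r : ℝ) (Q : Polynomial ℝ) : ∃ A ρ : ℝ, 0 ≤ A ∧ 0 ≤ ρ ∧ ∀ n : ℕ, ∃ w : ℕ → ℝ,
    ∀ x : ℝ, |Q.eval (Real.sin (r * x)) - ∑ j ∈ range (n + 1), w j * x ^ j| ≤
      A * ((ρ * |x|) ^ (n + 1) / ((n + 1).factorial : ℝ)) := by
  obtain ⟨A, ρ, hA, hρ, h⟩ := Ty'.poly r Q 0
  refine ⟨A, ρ, hA, hρ, fun n => ?_⟩
  obtain ⟨w, hw⟩ := h n
  refine ⟨fun j => (w j).re, fun x => ?_⟩
  have h1 := hw x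
  refine le_trans ?_ h1
  refine le_trans (le_of_eq ?_) (Complex.abs_re_le_norm _)
  congr 1
  simp only [zero_mul, Complex.ofReal_zero, Complex.exp_zero, mul_one, Complex.sub_re,
    Complex.ofReal_re, Complex.re_sum]
  congr 1
  refine Finset.sum_congr rfl fun j _ => ?_
  rw [← Complex.ofReal_pow, Complex.re_mul_ofReal]

end Pool.Agent.H485.CC
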