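import Pool.Agent.H485.CC.Hmn

/-!
# The harmonic theorem, conclusion
-/

set_option autoImplicit false
set_option maxHeartbeats 4000000

open MeasureTheory Real Finset Filter

namespace Pool.Agent.H485.CC

open W388.LV (SF om IsNewSet)
open Pool.Agent.Y18.BSD Pool.Agent.K4H13.CV

lemma sum_or {ι : Type} (B : Finset ι) (w : ι → ℝ) (hw : ∀ i ∈ B, 0 ≤ w i) (p q r : ι → Prop)
    [DecidablePred p] [DecidablePred q] [DecidablePred r] (h : ∀ i ∈ B, p i → q i ∨ r i) :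
    ∑ i ∈ B with p i, w i ≤ ∑ i ∈ B with q i, w i + ∑ i ∈ B with r i, w i := by
  rw [Finset.sum_filter, Finset.sum_filter, Finset.sum_filter, ← Finset.sum_add_distrib]
  refine Finset.sum_le_sum fun i hi => ?_
  have h0 := hw i hi
  have h1 := h i hi
  by_cases hp : p i
  · rcases h1 hp with h2 | h2
    · rw [if_pos hp, if_pos h2]
      split_ifs <;> linarith
    · rw [if_pos hp, if_pos h2]
      split_ifs <;> linarith
  · rw [if_neg hp]
    split_ifs <;> linarith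

/-- the central value is controlled by the truncated sum -/
theorem bv_le : ∀ᶠ N : ℕ in atTop, N.Prime → ∀ [NeZero N] (f : SF N 2) (ε : ℝ),
    W388.IsNewf N 2 f ε → ‖bv f 0‖ ≤ 2 * |SYf N (W388.lamf f)| + 2 * exp (-5 * ll N) := by
  filter_upwards [tail, ev_N, ev_log 1] with N h1 h2 h3 hp _ f ε hf
  have e1 := afe hp hf (mm N) (hh_pos h3)
  have e2 := h1 (fun n => W388.lamf f n * tp n) (abs_lam_tp hp hf)
  have e3 : ∑ n ∈ Finset.Icc 1 (Yb N), W388.lamf f n * tp n * VV N n = SYf N (W388.lamf f) := by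
    unfold SYf
    exact Finset.sum_congr rfl fun n _ => by ring
  rw [e3] at e2
  have e4 : ∑' n : ℕ, W388.lamf f n * tp n * Vw (nu (mm N) (hh N)) (Zs (mm N)) (2 * π / Real.sqrt N * n) =
      ∑' n : ℕ, W388.lamf f n * tp n * VV N n := rfl
  rw [e4] at e1
  have e5 := abs_sub_abs_le_abs_sub (∑' n : ℕ, W388.lamf f n * tp n * VV N n) (SYf N (W388.lamf f))
  linarith

lemma hard_pow (α A ε' l : ℝ) :
    4 * (exp (-A * l) / 4) ^ (-(2 * α)) * (exp ((1 + 4 * (-(1 - α)) + 2 * (-(1 - α)) ^ 2 + ε') * l) ^ α *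
      exp ((2 * α ^ 2 + ε') * l) ^ (1 - α)) =
      4 * (4 : ℝ) ^ (2 * α) * exp ((2 * α ^ 2 - α * (1 - 2 * A) + ε') * l) := by
  rw [Real.div_rpow (exp_pos _).le (by norm_num), ← Real.exp_mul, ← Real.exp_mul, ← Real.exp_mul,
    Real.rpow_neg (by norm_num), div_inv_eq_mul]
  have : exp (-A * l * -(2 * α)) * (exp ((1 + 4 * (-(1 - α)) + 2 * (-(1 - α)) ^ 2 + ε') * l * α) *
      exp ((2 * α ^ 2 + ε') * l * (1 - α))) = exp ((2 * α ^ 2 - α * (1 - 2 * A) + ε') * l) := by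
    rw [← Real.exp_add, ← Real.exp_add]
    congr 1
    ring
  rw [← this]
  ring

theorem har_main {A : ℝ} (hA1 : -(3 / 2) ≤ A) (hA2 : A < 1 / 2) {ε : ℝ} (hε : 0 < ε) :
    ∀ᶠ N : ℕ in atTop, N.Prime → ∀ [NeZero N] (B : Finset (SF N 2)), IsNewSet N 2 B →
      ∑ f ∈ B with exp (-A * ll N) < ‖bv f 0‖, om f ≤
        exp ((-((1 / 2 - A) ^ 2 / 2) + ε) * ll N) := by
  have hε2 : 0 < ε / 2 := half_pos hε
  filter_upwards [har_all hε2 72, bv_le, ev_ll 1, ev_pow 65 0 hε2] with N h1 h2 h3 h4 hp _ B hB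
  rw [pow_zero, mul_one] at h4
  obtain ⟨k1, k2⟩ := h1 hp B hB
  have hll : 0 < ll N := by linarith
  set j : ℕ := ⌈2 * ll N⌉₊ with hj
  have hj1 : 2 * ll N ≤ j := Nat.le_ceil _
  have hj2 : (j : ℝ) ≤ 3 * ll N := by
    have := Nat.ceil_lt_add_one (show 0 ≤ 2 * ll N by linarith)
    linarith
  have hj0 : 1 ≤ j := by
    have : (0 : ℝ) < j := by linarith
    exact_mod_cast this
  set α : ℝ := (1 - 2 * A) / 4 with hα
  have hα0 : 0 ≤ α := by rw [hα]; linarith
  have hα1 : α ≤ 1 := by rw [hα]; linarith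
  have hJ1 : 30 * ll N ≤ ((24 * j : ℕ) : ℝ) := by push_cast; linarith
  have hJ2 : ((24 * j : ℕ) : ℝ) ≤ 72 * ll N := by push_cast; linarith
  have hb : |-(1 - α)| ≤ 1 := by rw [abs_neg, abs_le]; constructor <;> linarith
  have hb' : |α| ≤ 1 := by rw [abs_le]; constructor <;> linarith
  have u1 := (k1 (-(1 - α)) hb (24 * j) hJ1 hJ2).1
  have u2 := (k1 α hb' (24 * j) hJ1 hJ2).2
  have u3 := k2 j (by linarith)
  have d1 := deduce B (fun f => om f) (fun f => SYf N (W388.lamf f)) (fun f => PP (Ss N) (W388.lamf f))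
    (fun f => tj (24 * j) (-(1 - α) * PP (Ss N) (W388.lamf f)))
    (fun f => tj (24 * j) (α * PP (Ss N) (W388.lamf f))) (fun f _ => om_nonneg f)
    (α := α) (δ0 := exp (-A * ll N) / 4) (R := 6 * (j : ℝ)) hα0 hα1 (by positivity)
    (X := exp ((1 + 4 * (-(1 - α)) + 2 * (-(1 - α)) ^ 2 + ε / 2) * ll N))
    (Y := exp ((2 * α ^ 2 + ε / 2) * ll N)) (exp_pos _) (exp_pos _)
    (fun f _ hf => tj_ge (R := 6 * (j : ℝ)) (by
      rw [abs_mul]
      calc |-(1 - α)| * |PP (Ss N) (W388.lamf f)| ≤ 1 * (6 * (j : ℝ)) :=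
            mul_le_mul hb hf (abs_nonneg _) zero_le_one
        _ = _ := one_mul _) (by push_cast; linarith))
    (fun f _ hf => tj_ge (R := 6 * (j : ℝ)) (by
      rw [abs_mul]
      calc |α| * |PP (Ss N) (W388.lamf f)| ≤ 1 * (6 * (j : ℝ)) :=
            mul_le_mul hb' hf (abs_nonneg _) zero_le_one
        _ = _ := one_mul _) (by push_cast; linarith)) u1 u2
  rw [hard_pow] at d1
  have d2 := except B (fun f => om f) (fun f => PP (Ss N) (W388.lamf f)) (fun f _ => om_nonneg f) hj0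
    (exp_pos (ll N)).le u3
  set G : ℝ := exp ((-((1 / 2 - A) ^ 2 / 2) + ε / 2) * ll N) with hG
  have hG0 : 0 < G := exp_pos _
  have d3 : 4 * (4 : ℝ) ^ (2 * α) * exp ((2 * α ^ 2 - α * (1 - 2 * A) + ε / 2) * ll N) ≤ 64 * G := by
    have e1 : (4 : ℝ) ^ (2 * α) ≤ 16 := by
      calc (4 : ℝ) ^ (2 * α) ≤ (4 : ℝ) ^ (2 : ℝ) :=
            Real.rpow_le_rpow_of_exponent_le (by norm_num) (by linarith)
        _ = 16 := by norm_num
    have e2 : 2 * α ^ 2 - α * (1 - 2 * A) + ε / 2 = -((1 / 2 - A) ^ 2 / 2) + ε / 2 := by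
      rw [hα]; ring
    rw [e2]
    have := mul_le_mul_of_nonneg_right e1 hG0.le
    linarith
  have d4 : exp (-(2 * (j : ℝ))) * exp (ll N) ≤ G := by
    rw [← Real.exp_add]
    apply exp_le_exp.2
    have e1 : (1 / 2 - A) ^ 2 ≤ 4 := by nlinarith
    nlinarith
  have hsub : ∀ f ∈ B, exp (-A * ll N) < ‖bv f 0‖ →
      (exp (-A * ll N) / 4 ≤ |SYf N (W388.lamf f)| ∧
        |PP (Ss N) (W388.lamf f)| ≤ 6 * (j : ℝ)) ∨ 6 * (j : ℝ) < |PP (Ss N) (W388.lamf f)| := by
    intro f hfB hf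
    rcases le_or_gt |PP (Ss N) (W388.lamf f)| (6 * (j : ℝ)) with h | h
    · left
      refine ⟨?_, h⟩
      obtain ⟨ε', hε'⟩ := hB.newf f hfB
      have e1 := h2 hp f ε' hε'
      have e2 : exp (-5 * ll N) ≤ exp (-A * ll N) / 4 := by
        rw [le_div_iff₀ (by norm_num)]
        have e3 : (4 : ℝ) ≤ exp (4 * ll N) := by
          have := add_one_le_exp (4 * ll N)
          linarith
        calc exp (-5 * ll N) * 4 ≤ exp (-5 * ll N) * exp (4 * ll N) :=
              mul_le_mul_of_nonneg_left e3 (exp_pos _).le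
          _ ≤ _ := by
            rw [← Real.exp_add]
            apply exp_le_exp.2
            nlinarith
      linarith
    · right
      exact h
  calc ∑ f ∈ B with exp (-A * ll N) < ‖bv f 0‖, om f ≤ _ :=
        sum_or B (fun f => om f) (fun f _ => om_nonneg f) _ _ _ hsub
    _ ≤ _ := add_le_add d1 d2
    _ ≤ 65 * G := by linarith
    _ ≤ exp (ε / 2 * ll N) * G := mul_le_mul_of_nonneg_right h4 hG0.le
    _ = _ := by
      rw [hG, ← Real.exp_add]
      congr 1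
      ring

end Pool.Agent.H485.CC
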