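import Pool.Agent.H485.CC.Ref1
import Pool.Agent.H485.CC.Hm2

/-!
# The refined mollified second moment
-/

set_option autoImplicit false
set_option maxHeartbeats 4000000

open MeasureTheory Real Finset Filter

namespace Pool.Agent.H485.CC

open W388.LV (SF om IsNewSet)

theorem model_second1 {ε : ℝ} (hε : 0 < ε) : ∀ᶠ N : ℕ in atTop, ∀ J : ℕ,
    30 * ll N ≤ J →
    ∫ x, (tj J (-1 * PP (Ss N) (XX (Sb N) x)) *
      SX (Sb N) (mm N) (hh N) (2 * π / Real.sqrt N) x) ^ 2 ∂(mu (Sb N)) ≤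
      exp (-ll N + ε * sl N) := by
  have hε2 : 0 < ε / 2 := by positivity
  filter_upwards [near_MM1 hε2, near_MM (ε := 1) one_pos, far_MM, ev_powS (10 ^ 10) 2 (ε := ε / 2) (by positivity),
    ev_ll 1, ev_log 1, ev_sub] with N h1 h1' h2 h3 h4 h5 hsub J hJ
  have hL0 : 0 < log (N : ℝ) := by linarith
  have hll0 : 0 < ll N := by linarith
  have hsl : 0 ≤ sl N := Real.sqrt_nonneg _
  have hN0 : (0 : ℝ) < N := by
    by_contra h
    have : (N : ℝ) = 0 := le_antisymm (not_lt.1 h) (Nat.cast_nonneg N)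
    rw [this, Real.log_zero] at h5
    linarith
  have hmmp : (0 : ℝ) < mm N := by
    have : (2 : ℝ) ≤ mm N := by exact_mod_cast mm_two N
    linarith
  set σ : ℝ := 1 / log (N : ℝ) with hσ
  have hσ0 : 0 < σ := by positivity
  have hσ1 : σ ≤ 1 := by rw [hσ, div_le_one hL0]; exact h5
  have hhp : 0 < hh N := by unfold hh; positivity
  have hmσ : (mm N : ℝ) * (σ * hh N) ≤ 1 := by
    have : (mm N : ℝ) * (σ * hh N) = 1 / 8 := by
      rw [hσ]; unfold hh; field_simp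
    rw [this]; norm_num
  set E : ℝ := exp (-ll N + ε / 2 * sl N) with hE
  have hE0 : 0 < E := exp_pos _
  have hb1 : |(-1 : ℝ)| ≤ 1 := by rw [abs_neg, abs_one]
  have hJe : exp (-(2 * ((J : ℝ) + 1))) ≤ exp (-60 * ll N) := by
    apply exp_le_exp.2
    linarith
  have hElow : exp (-ll N) ≤ E := by
    apply exp_le_exp.2
    have : 0 ≤ ε / 2 * sl N := by positivity
    linarith
  -- near
  have hB1 : ∀ τ : ℝ, |τ| ≤ exp 1 * (1 / hh N) →
      ∫ x, tj J (-1 * PP (Ss N) (XX (Sb N) x)) ^ 2 * ‖EE (Sb N) (σ + τ * Complex.I) x‖ ^ 2 ∂(mu (Sb N)) ≤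
        6 * E := by
    intro τ hτ
    have hs : 0 ≤ ((σ : ℂ) + τ * Complex.I).re := by rw [re_line]; exact hσ0.le
    refine (BB_le Sb_prime hsub J hb1 hs).trans ?_
    have e1 := h1 τ hτ
    have e2 := h1' 6 (by rw [abs_of_pos (by norm_num)]) τ hτ
    have e3 := h1' (-6) (by rw [abs_neg, abs_of_pos (by norm_num)]) τ hτ
    have e1' : MM (Sb N) (Ss N) (2 * -1) (σ + τ * Complex.I) ≤ E := by
      have : (2 * -1 : ℝ) = -2 := by norm_num
      rw [this]
      exact e1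
    have f2 : exp ((1 + 2 * 6 + 6 ^ 2 / 2 + 1) * ll N) = exp (32 * ll N) := by norm_num
    have f3 : exp ((1 + 2 * (-6) + (-6) ^ 2 / 2 + 1) * ll N) ≤ exp (32 * ll N) := by
      apply exp_le_exp.2
      apply mul_le_mul_of_nonneg_right _ hll0.le
      norm_num
    rw [f2] at e2
    have f4 : exp (-60 * ll N) * exp (32 * ll N) ≤ E := by
      rw [← Real.exp_add]
      refine le_trans ?_ hElow
      apply exp_le_exp.2
      linarith
    have m6 : MM (Sb N) (Ss N) 6 (σ + τ * Complex.I) + MM (Sb N) (Ss N) (-6) (σ + τ * Complex.I) ≤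
        2 * exp (32 * ll N) := by linarith
    have m7 : 2 * exp (-(2 * ((J : ℝ) + 1))) * (MM (Sb N) (Ss N) 6 (σ + τ * Complex.I) +
        MM (Sb N) (Ss N) (-6) (σ + τ * Complex.I)) ≤
        2 * exp (-60 * ll N) * (2 * exp (32 * ll N)) := by
      refine mul_le_mul (by linarith) m6 ?_ (by positivity)
      unfold MM
      have g1 : ∀ b' : ℝ, 0 ≤ ∫ x, exp (b' * PP (Ss N) (XX (Sb N) x)) *
          ‖EE (Sb N) (σ + τ * Complex.I) x‖ ^ 2 ∂(mu (Sb N)) := fun b' =>
        integral_nonneg fun x => by positivity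
      exact add_nonneg (g1 _) (g1 _)
    linarith
  -- far
  have hB2 : ∀ τ : ℝ,
      ∫ x, tj J (-1 * PP (Ss N) (XX (Sb N) x)) ^ 2 * ‖EE (Sb N) (σ + τ * Complex.I) x‖ ^ 2 ∂(mu (Sb N)) ≤
        6 * exp (60 * ll N) := by
    intro τ
    have hs : 0 ≤ ((σ : ℂ) + τ * Complex.I).re := by rw [re_line]; exact hσ0.le
    refine (BB_le Sb_prime hsub J hb1 hs).trans ?_
    have e1 := h2 (2 * -1) (by rw [show (2 * -1 : ℝ) = -2 by norm_num, abs_neg, abs_two]; norm_num) _ hs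
    have e2 := h2 6 (by rw [abs_of_pos (by norm_num)]) _ hs
    have e3 := h2 (-6) (by rw [abs_neg, abs_of_pos (by norm_num)]) _ hs
    have f1 : exp (-(2 * ((J : ℝ) + 1))) ≤ 1 := by
      apply exp_le_one_iff.2
      have : (0 : ℝ) ≤ J := Nat.cast_nonneg J
      linarith
    have m7 : 2 * exp (-(2 * ((J : ℝ) + 1))) * (MM (Sb N) (Ss N) 6 (σ + τ * Complex.I) +
        MM (Sb N) (Ss N) (-6) (σ + τ * Complex.I)) ≤
        2 * 1 * (2 * exp (60 * ll N)) := by
      refine mul_le_mul (by linarith) (by linarith) ?_ (by positivity)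
      unfold MM
      have g1 : ∀ b' : ℝ, 0 ≤ ∫ x, exp (b' * PP (Ss N) (XX (Sb N) x)) *
          ‖EE (Sb N) (σ + τ * Complex.I) x‖ ^ 2 ∂(mu (Sb N)) := fun b' =>
        integral_nonneg fun x => by positivity
      exact add_nonneg (g1 _) (g1 _)
    linarith
  have hTc : Continuous fun x : (Sb N) → ℝ => tj J (-1 * PP (Ss N) (XX (Sb N) x)) :=
    (tj_cont J).comp (continuous_const.mul PP_cont)
  have hTb : ∀ x : (Sb N) → ℝ, |tj J (-1 * PP (Ss N) (XX (Sb N) x))| ≤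
      ∑ j ∈ range (J + 1), (1 / (j.factorial : ℝ)) * (∑ p ∈ Ss N, tp p * 2) ^ j := by
    intro x
    apply tj_bdd
    rw [abs_mul]
    calc |(-1 : ℝ)| * |PP (Ss N) (XX (Sb N) x)| ≤ 1 * ∑ p ∈ Ss N, tp p * 2 :=
          mul_le_mul hb1 (PP_bdd Sb_prime hsub x) (abs_nonneg _) zero_le_one
      _ = _ := one_mul _
  have key := model_bound Sb_prime (mm_two N) hhp hσ0 hmσ (c := 2 * π / Real.sqrt N)
    (by positivity) hTc hTb (B1 := 6 * E) (B2 := 6 * exp (60 * ll N)) (by positivity) (by positivity)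
    hB1 hB2
  refine key.trans ?_
  have g1 : 27 * (6 * E) + 45 * exp (-(mm N : ℝ)) * (6 * exp (60 * ll N)) ≤ 432 * E := by
    have e1 : exp (-(mm N : ℝ)) * exp (60 * ll N) ≤ E := by
      rw [← Real.exp_add]
      refine le_trans ?_ hElow
      apply exp_le_exp.2
      have := mm_ge N
      linarith
    linarith
  have g2 : ((2 * π / Real.sqrt N) ^ (-σ)) ^ 2 ≤ 3 := by
    have hsN : 0 < Real.sqrt N := Real.sqrt_pos.2 hN0
    have e1 : (2 * π / Real.sqrt N) ^ (-σ) ≤ (N : ℝ) ^ (σ / 2) := by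
      rw [Real.rpow_neg (by positivity), ← Real.inv_rpow (by positivity), inv_div]
      calc (Real.sqrt N / (2 * π)) ^ σ ≤ (Real.sqrt N) ^ σ := by
            apply Real.rpow_le_rpow (by positivity) _ hσ0.le
            apply div_le_self hsN.le
            linarith [Real.pi_gt_three]
        _ = (N : ℝ) ^ (σ / 2) := by
            rw [Real.sqrt_eq_rpow, ← Real.rpow_mul hN0.le]
            congr 1
            ring
    calc ((2 * π / Real.sqrt N) ^ (-σ)) ^ 2 ≤ ((N : ℝ) ^ (σ / 2)) ^ 2 :=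
          pow_le_pow_left₀ (by positivity) e1 2
      _ = exp 1 := by
          rw [← Real.rpow_natCast, ← Real.rpow_mul hN0.le, Real.rpow_def_of_pos hN0]
          congr 1
          rw [hσ]
          push_cast
          field_simp
      _ ≤ 3 := by have := Real.exp_one_lt_d9; linarith
  have g3 : Real.Gamma σ ≤ log N := by
    have := gamma_le hσ0 hσ1
    rwa [hσ, one_div_one_div] at this
  have hG0 : 0 < Real.Gamma σ := Real.Gamma_pos_of_pos hσ0
  have g4 : 1 / hh N ≤ 520 * ll N / log N := by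
    unfold hh
    rw [one_div_div]
    apply div_le_div_of_nonneg_right _ hL0.le
    have := mm_le h4
    linarith
  have g5 : Real.Gamma σ * (1 / hh N) ≤ 520 * ll N := by
    calc Real.Gamma σ * (1 / hh N) ≤ log N * (520 * ll N / log N) :=
          mul_le_mul g3 g4 (by positivity) hL0.le
      _ = _ := by field_simp
  have g6 : (Real.Gamma σ * (1 / hh N)) ^ 2 ≤ (520 * ll N) ^ 2 :=
    pow_le_pow_left₀ (by positivity) g5 2
  calc ((2 * π / Real.sqrt N) ^ (-σ) * Real.Gamma σ / (2 * π)) ^ 2 * (27 * (π / hh N)) *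
        ((27 * (6 * E) + 45 * exp (-(mm N : ℝ)) * (6 * exp (60 * ll N))) * (π / hh N)) ≤
      ((2 * π / Real.sqrt N) ^ (-σ) * Real.Gamma σ / (2 * π)) ^ 2 * (27 * (π / hh N)) *
        ((432 * E) * (π / hh N)) := by
        refine mul_le_mul_of_nonneg_left ?_ (by positivity)
        exact mul_le_mul_of_nonneg_right g1 (by positivity)
    _ = 2916 * (((2 * π / Real.sqrt N) ^ (-σ)) ^ 2 * (Real.Gamma σ * (1 / hh N)) ^ 2) * E := by
        field_simp
        ring
    _ ≤ 2916 * (3 * (520 * ll N) ^ 2) * E := by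
        refine mul_le_mul_of_nonneg_right ?_ hE0.le
        refine mul_le_mul_of_nonneg_left ?_ (by norm_num)
        exact mul_le_mul g2 g6 (by positivity) (by norm_num)
    _ = 2365459200 * ll N ^ 2 * E := by ring
    _ ≤ (10 ^ 10 * ll N ^ 2) * E := by
        refine mul_le_mul_of_nonneg_right ?_ hE0.le
        nlinarith [sq_nonneg (ll N)]
    _ ≤ exp (ε / 2 * sl N) * E := mul_le_mul_of_nonneg_right h3 hE0.le
    _ = _ := by
        rw [hE, ← Real.exp_add]
        congr 1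
        ring

theorem model_trunc1 {ε : ℝ} (hε : 0 < ε) : ∀ᶠ N : ℕ in atTop, ∀ J : ℕ,
    30 * ll N ≤ J →
    ∫ x, (tj J (-1 * PP (Ss N) (XX (Sb N) x)) * SYf N (XX (Sb N) x)) ^ 2 ∂(mu (Sb N)) ≤
      exp (-ll N + ε * sl N) := by
  filter_upwards [model_second1 (half_pos hε), model_T (ε := 1) one_pos, tail, ev_N, ev_log 1,
    ev_powS 4 0 (half_pos hε), ev_ll 1, ev_sub] with N h1 h2 h3 h4 h5 h6 h7 hsub J hJ
  rw [pow_zero, mul_one] at h6
  have hll : 0 < ll N := by linarith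
  have hsl : 0 ≤ sl N := Real.sqrt_nonneg _
  have hb : |(-1 : ℝ)| ≤ 1 := by rw [abs_neg, abs_one]
  obtain ⟨hSc, CS, hSb⟩ := SN_cont h5
  have hTc : Continuous fun x : (Sb N) → ℝ => tj J (-1 * PP (Ss N) (XX (Sb N) x)) :=
    (tj_cont J).comp (continuous_const.mul PP_cont)
  obtain ⟨CT, hTb⟩ : ∃ CT : ℝ, ∀ x : (Sb N) → ℝ, |tj J (-1 * PP (Ss N) (XX (Sb N) x))| ≤ CT := by
    refine ⟨∑ j ∈ range (J + 1), (1 / (j.factorial : ℝ)) * (∑ p ∈ Ss N, tp p * 2) ^ j, fun x => ?_⟩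
    apply tj_bdd
    rw [abs_mul]
    calc |(-1 : ℝ)| * |PP (Ss N) (XX (Sb N) x)| ≤ 1 * ∑ p ∈ Ss N, tp p * 2 :=
          mul_le_mul hb (PP_bdd Sb_prime hsub x) (abs_nonneg _) zero_le_one
      _ = _ := one_mul _
  have i1 : Integrable (fun x => (tj J (-1 * PP (Ss N) (XX (Sb N) x)) * SN N x) ^ 2) (mu (Sb N)) := by
    refine integrable_mu (C := (CT * CS) ^ 2) ((hTc.mul hSc).pow 2) fun x => ?_
    rw [norm_pow, norm_mul, Real.norm_eq_abs, Real.norm_eq_abs]
    exact pow_le_pow_left₀ (by positivity) (mul_le_mul (hTb x) (hSb x) (abs_nonneg _)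
      ((abs_nonneg _).trans (hTb x))) 2
  have i2 : Integrable (fun x => tj J (-1 * PP (Ss N) (XX (Sb N) x)) ^ 2) (mu (Sb N)) := by
    refine integrable_mu (C := CT ^ 2) (hTc.pow 2) fun x => ?_
    rw [norm_pow, Real.norm_eq_abs]
    exact pow_le_pow_left₀ (by positivity) (hTb x) 2
  have i3 : Integrable (fun _ : (Sb N) → ℝ => (0 : ℝ)) (mu (Sb N)) := integrable_zero _ _ _
  have key : ∀ x : (Sb N) → ℝ, (tj J (-1 * PP (Ss N) (XX (Sb N) x)) * SYf N (XX (Sb N) x)) ^ 2 ≤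
      2 * (tj J (-1 * PP (Ss N) (XX (Sb N) x)) * SN N x) ^ 2 +
      2 * (exp (-5 * ll N)) ^ 2 * (tj J (-1 * PP (Ss N) (XX (Sb N) x)) ^ 2 + 0) := by
    intro x
    have e1 := (h3 (ax N x) (abs_ax x)).trans h4
    rw [← SN_eq, ← SY_eq] at e1
    set T := tj J (-1 * PP (Ss N) (XX (Sb N) x))
    set D := SN N x - SYf N (XX (Sb N) x) with hD
    have e2 : SYf N (XX (Sb N) x) = SN N x - D := by rw [hD]; ring
    have e3 : D ^ 2 ≤ (exp (-5 * ll N)) ^ 2 := by
      rw [← sq_abs]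
      exact pow_le_pow_left₀ (abs_nonneg _) e1 2
    rw [e2, add_zero]
    have e4 : (T * (SN N x - D)) ^ 2 ≤ 2 * (T * SN N x) ^ 2 + 2 * (T * D) ^ 2 := by
      nlinarith [sq_nonneg (T * SN N x + T * D)]
    have e5 : (T * D) ^ 2 ≤ (exp (-5 * ll N)) ^ 2 * T ^ 2 := by
      rw [mul_pow, mul_comm]
      exact mul_le_mul_of_nonneg_right e3 (sq_nonneg T)
    linarith
  refine (int_le3 (fun x => sq_nonneg _) i1 i2 i3 key).trans ?_
  rw [integral_zero, add_zero]
  have g1 := h1 J hJ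
  have g2 := h2 (-1) hb J hJ
  set E : ℝ := exp (-ll N + ε / 2 * sl N) with hE
  have g3 : (exp (-5 * ll N)) ^ 2 * ∫ x, tj J (-1 * PP (Ss N) (XX (Sb N) x)) ^ 2 ∂(mu (Sb N)) ≤ E := by
    calc (exp (-5 * ll N)) ^ 2 * ∫ x, tj J (-1 * PP (Ss N) (XX (Sb N) x)) ^ 2 ∂(mu (Sb N)) ≤
        (exp (-5 * ll N)) ^ 2 * exp ((2 * (-1) ^ 2 + 1) * ll N) :=
          mul_le_mul_of_nonneg_left g2 (by positivity)
      _ ≤ E := by
        rw [← Real.exp_nat_mul, ← Real.exp_add]
        apply exp_le_exp.2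
        push_cast
        have : 0 ≤ ε / 2 * sl N := by positivity
        linarith
  have g4 : ∫ x, (tj J (-1 * PP (Ss N) (XX (Sb N) x)) * SN N x) ^ 2 ∂(mu (Sb N)) ≤ E := g1
  calc 2 * (∫ x, (tj J (-1 * PP (Ss N) (XX (Sb N) x)) * SN N x) ^ 2 ∂(mu (Sb N))) +
        2 * (exp (-5 * ll N)) ^ 2 * (∫ x, tj J (-1 * PP (Ss N) (XX (Sb N) x)) ^ 2 ∂(mu (Sb N))) ≤
        4 * E := by linarith
    _ ≤ exp (ε / 2 * sl N) * E := mul_le_mul_of_nonneg_right h6 (exp_pos _).le
    _ = _ := by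
      rw [hE, ← Real.exp_add]
      congr 1
      ring

theorem har1 {ε : ℝ} (hε : 0 < ε) (Kc : ℝ) : ∀ᶠ N : ℕ in atTop, N.Prime → ∀ [NeZero N]
    (B : Finset (SF N 2)), IsNewSet N 2 B → ∀ J : ℕ, 30 * ll N ≤ J → J ≤ Kc * ll N →
      ∑ f ∈ B, om f * (tj J (-1 * PP (Ss N) (W388.lamf f)) * SYf N (W388.lamf f)) ^ 2 ≤
        exp (-ll N + ε * sl N) := by
  obtain ⟨N0, hN0⟩ := ls_obs 2 le_rfl 1 (1 / 8) one_pos (by norm_num) (by norm_num)
  filter_upwards [eventually_ge_atTop N0, model_trunc1 (half_pos hε),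
    ev_sub, ev_len Kc, ev_log 1, ev_powS 2 0 (half_pos hε)] with N h0 h1 hsub h4 h5 h6 hp _ B hB J hJ1 hJ2
  rw [pow_zero, mul_one] at h6
  have hz : 1 ≤ zr N := zr_ge_one (by linarith)
  have o1 := obs_T hsub hz (-1) (Nat.cast_nonneg _) (obs_SY N) J
  have k1 := hN0 N h0 B hB (Sb N) Sb_prime (Sb_ndvd hp) _ _ o1 (h4 J hJ2).1
  have k2 := h1 J hJ1
  refine k1.trans ?_
  have e : (1 : ℝ) + 1 = 2 := by norm_num
  rw [e]
  calc 2 * ∫ x, (tj J (-1 * PP (Ss N) (XX (Sb N) x)) * SYf N (XX (Sb N) x)) ^ 2 ∂(mu (Sb N)) ≤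
      exp (ε / 2 * sl N) * exp (-ll N + ε / 2 * sl N) := by
        refine mul_le_mul h6 k2 ?_ (exp_pos _).le
        exact integral_nonneg fun x => sq_nonneg _
    _ = _ := by
        rw [← Real.exp_add]
        congr 1
        ring

/-- outside a small set the central value is at most `(log N)^(-1/2) e^(P + ε √ll)` -/
theorem ratio {ε : ℝ} (hε : 0 < ε) : ∀ᶠ N : ℕ in atTop, N.Prime → ∀ [NeZero N]
    (B : Finset (SF N 2)), IsNewSet N 2 B →
      ∑ f ∈ B with exp (-(ll N / 2) + PP (Ss N) (W388.lamf f) + ε * sl N) < |SYf N (W388.lamf f)|, om f ≤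
        exp (-(ε / 2) * sl N) := by
  filter_upwards [har1 (ε := ε) hε 72, har_all (ε := 1) one_pos 72, ev_ll 1,
    ev_powS 8 0 (ε := ε / 2) (by positivity), ev_ll (ε ^ 2)] with N h1 h2 h3 h4 h5 hp _ B hB
  rw [pow_zero, mul_one] at h4
  have hll : 0 < ll N := by linarith
  have hsl : 0 ≤ sl N := Real.sqrt_nonneg _
  set j : ℕ := ⌈2 * ll N⌉₊ with hj
  have hj1 : 2 * ll N ≤ j := Nat.le_ceil _
  have hj2 : (j : ℝ) ≤ 3 * ll N := by
    have := Nat.ceil_lt_add_one (show 0 ≤ 2 * ll N by linarith)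
    linarith
  have hj0 : 1 ≤ j := by
    have : (0 : ℝ) < j := by linarith
    exact_mod_cast this
  have hJ1 : 30 * ll N ≤ ((24 * j : ℕ) : ℝ) := by push_cast; linarith
  have hJ2 : ((24 * j : ℕ) : ℝ) ≤ 72 * ll N := by push_cast; linarith
  have u1 := h1 hp B hB (24 * j) hJ1 hJ2
  have u3 := (h2 hp B hB).2 j (by linarith)
  have d2 := except B (fun f => om f) (fun f => PP (Ss N) (W388.lamf f)) (fun f _ => om_nonneg f) hj0
    (exp_pos (ll N)).le u3
  set P : SF N 2 → ℝ := fun f => PP (Ss N) (W388.lamf f) with hP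
  set S : SF N 2 → ℝ := fun f => SYf N (W388.lamf f) with hS
  have k1 := sum_or B (fun f => om f) (fun f _ => om_nonneg f)
    (fun f => exp (-(ll N / 2) + P f + ε * sl N) < |S f|)
    (fun f => exp (-(ll N / 2) + P f + ε * sl N) < |S f| ∧ |P f| ≤ 6 * (j : ℝ))
    (fun f => 6 * (j : ℝ) < |P f|) (fun f _ hf => by
      rcases le_or_gt |P f| (6 * (j : ℝ)) with h | h
      · exact Or.inl ⟨hf, h⟩
      · exact Or.inr h)
  refine k1.trans ?_
  have k2 : ∑ f ∈ B with exp (-(ll N / 2) + P f + ε * sl N) < |S f| ∧ |P f| ≤ 6 * (j : ℝ), om f ≤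
      4 * exp (-ε * sl N) := by
    have e1 : ∀ f ∈ B.filter (fun f => exp (-(ll N / 2) + P f + ε * sl N) < |S f| ∧ |P f| ≤ 6 * (j : ℝ)),
        om f * (exp (-ll N + 2 * ε * sl N) / 4) ≤ om f * (tj (24 * j) (-1 * P f) * S f) ^ 2 := by
      intro f hf
      rw [Finset.mem_filter] at hf
      apply mul_le_mul_of_nonneg_left _ (om_nonneg f)
      have e2 : exp (-1 * P f) / 2 ≤ tj (24 * j) (-1 * P f) := tj_ge (R := 6 * (j : ℝ)) (by
        rw [abs_mul, abs_neg, abs_one, one_mul]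
        exact hf.2.2) (by push_cast; linarith)
      have e3 : exp (-(ll N / 2) + P f + ε * sl N) * (exp (-1 * P f) / 2) ≤ |S f| * tj (24 * j) (-1 * P f) :=
        mul_le_mul hf.2.1.le e2 (by positivity) (abs_nonneg _)
      have e4 : exp (-(ll N / 2) + P f + ε * sl N) * (exp (-1 * P f) / 2) =
          exp (-(ll N / 2) + ε * sl N) / 2 := by
        rw [mul_div_assoc', ← Real.exp_add]
        congr 2
        ring
      rw [e4] at e3
      calc exp (-ll N + 2 * ε * sl N) / 4 = (exp (-(ll N / 2) + ε * sl N) / 2) ^ 2 := by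
            rw [div_pow, ← Real.exp_nat_mul]
            norm_num
            ring
        _ ≤ (|S f| * tj (24 * j) (-1 * P f)) ^ 2 := pow_le_pow_left₀ (by positivity) e3 2
        _ = _ := by rw [mul_pow, sq_abs]; ring
    have e2 := Finset.sum_le_sum e1
    rw [← Finset.sum_mul] at e2
    have e3 : ∑ f ∈ B.filter (fun f => exp (-(ll N / 2) + P f + ε * sl N) < |S f| ∧ |P f| ≤ 6 * (j : ℝ)),
        om f * (tj (24 * j) (-1 * P f) * S f) ^ 2 ≤ ∑ f ∈ B, om f * (tj (24 * j) (-1 * P f) * S f) ^ 2 :=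
      Finset.sum_le_sum_of_subset_of_nonneg (Finset.filter_subset _ _) fun f _ _ =>
        mul_nonneg (om_nonneg f) (sq_nonneg _)
    have e4 := e2.trans (e3.trans u1)
    rw [← mul_div_assoc, div_le_iff₀ (by norm_num)] at e4
    have e5 : (∑ f ∈ B with exp (-(ll N / 2) + P f + ε * sl N) < |S f| ∧ |P f| ≤ 6 * (j : ℝ), om f) *
        exp (-ll N + 2 * ε * sl N) ≤ (4 * exp (-ε * sl N)) * exp (-ll N + 2 * ε * sl N) := by
      refine e4.trans (le_of_eq ?_)
      rw [mul_assoc 4, ← Real.exp_add, mul_comm]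
      congr 2
      ring
    exact le_of_mul_le_mul_right e5 (exp_pos _)
  have k3 : exp (-(2 * (j : ℝ))) * exp (ll N) ≤ exp (-ε * sl N) := by
    rw [← Real.exp_add]
    apply exp_le_exp.2
    have h6 : ε * sl N ≤ ll N := by
      have h7 : ε ≤ sl N := by
        unfold sl
        exact Real.le_sqrt_of_sq_le h5
      calc ε * sl N ≤ sl N * sl N := mul_le_mul_of_nonneg_right h7 hsl
        _ = ll N := by rw [← sq, sl_sq hll.le]
    linarith
  have k4 : 5 * exp (-ε * sl N) ≤ exp (-(ε / 2) * sl N) := by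
    calc 5 * exp (-ε * sl N) ≤ exp (ε / 2 * sl N) * exp (-ε * sl N) :=
          mul_le_mul_of_nonneg_right (by linarith) (exp_pos _).le
      _ = _ := by
        rw [← Real.exp_add]
        congr 1
        ring
  linarith

end Pool.Agent.H485.CC
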