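import Pool.Agent.H485.CC.Clt1
import Pool.Agent.H485.CC.Ref2

/-!
# The central limit theorem in the model
-/

set_option autoImplicit false
set_option maxHeartbeats 4000000

open MeasureTheory Real Finset Filter Topology ProbabilityTheory

namespace Pool.Agent.H485.CC

/-- the normalized sum -/
noncomputable def Px (N : ℕ) (x : Sb N → ℝ) : ℝ := PP (Ss N) (XX (Sb N) x) / sl N

lemma Px_cont (N : ℕ) : Continuous (Px N) := PP_cont.div_const _

lemma Px_bdd {N : ℕ} (hsub : Ss N ⊆ Sb N) : ∃ C : ℝ, 0 ≤ C ∧ ∀ x, |Px N x| ≤ C := by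
  refine ⟨(∑ p ∈ Ss N, tp p * 2) / sl N, ?_, fun x => ?_⟩
  · exact div_nonneg (Finset.sum_nonneg fun p _ => mul_nonneg (tp_nonneg p) (by norm_num)) (Real.sqrt_nonneg _)
  · unfold Px
    rw [abs_div, abs_of_nonneg (show 0 ≤ sl N from Real.sqrt_nonneg _)]
    exact div_le_div_of_nonneg_right (PP_bdd Sb_prime hsub x) (Real.sqrt_nonneg _)

/-- exponential moments are bounded -/
theorem exp_mod (b : ℝ) : ∃ C : ℝ, 0 ≤ C ∧ ∀ᶠ N : ℕ in atTop, ∫ x, exp (b * Px N x) ∂(mu (Sb N)) ≤ C := by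
  obtain ⟨K, hK0, hK⟩ := NN_le 1 zero_le_one
  obtain ⟨C3, hC30, hC3⟩ := sum_tp3
  refine ⟨exp (b ^ 2 + K * C3), (exp_pos _).le, ?_⟩
  filter_upwards [ev_sumS (ε := 1) one_pos, ev_sl (|b| + 1), ev_ll 1, ev_sub] with N h1 h2 h3 hsub
  have hsl : 0 < sl N := by
    have := abs_nonneg b
    linarith
  have hb : |b / sl N| ≤ 1 := by
    rw [abs_div, abs_of_pos hsl, div_le_one hsl]
    linarith
  have e1 : ∫ x, exp (b * Px N x) ∂(mu (Sb N)) = NN (Sb N) (Ss N) (b / sl N) := by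
    unfold NN Px
    congr 1
    ext x
    congr 1
    ring
  rw [e1]
  refine (hK (Sb N) (Ss N) _ Sb_prime hsub hb).trans (exp_le_exp.2 ?_)
  have e2 : (b / sl N) ^ 2 = b ^ 2 / ll N := by rw [div_pow, sl_sq (by linarith)]
  rw [e2]
  have h6 := (abs_le.1 h1).2
  have h4 : b ^ 2 / ll N / 2 * ∑ p ∈ Ss N, (1 : ℝ) / p ≤ b ^ 2 / ll N / 2 * (2 * ll N) := by
    apply mul_le_mul_of_nonneg_left _ (by positivity)
    linarith
  have h5 : b ^ 2 / ll N / 2 * (2 * ll N) = b ^ 2 := by field_simp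
  have h7 := mul_le_mul_of_nonneg_left (hC3 (Sb N)) hK0
  linarith

/-- the local characteristic function -/
noncomputable def ph1 (t : ℝ) : ℂ := ∫ θ, Complex.exp (((t * uu 1 θ : ℝ) : ℂ) * Complex.I) ∂st

lemma ph1_norm (t : ℝ) : ‖ph1 t‖ ≤ 1 := by
  unfold ph1
  refine (norm_integral_le_integral_norm _).trans ?_
  simp only [Complex.norm_exp_ofReal_mul_I]
  simp

lemma ph1_approx (t : ℝ) : ‖ph1 t - ((1 - t ^ 2 / 2 : ℝ) : ℂ)‖ ≤ 2 * |t| ^ 3 := by
  have i1 : Integrable (fun θ => Complex.exp (((t * uu 1 θ : ℝ) : ℂ) * Complex.I)) st := by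
    refine integrable_st (C := 1) ?_ fun θ => by rw [Complex.norm_exp_ofReal_mul_I]
    have := continuous_uu 1
    fun_prop
  have hq := st_quad 1 0 (-(t ^ 2 / 2))
  have hl : Integrable (fun θ => (((t * uu 1 θ : ℝ) : ℂ) * Complex.I)) st := by
    refine integrable_st (C := |t| * 2) ?_ fun θ => ?_
    · have := continuous_uu 1
      fun_prop
    · rw [norm_mul, Complex.norm_I, mul_one, Complex.norm_real, Real.norm_eq_abs, abs_mul]
      exact mul_le_mul_of_nonneg_left (abs_uu_one θ) (abs_nonneg _)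
  have hq' : Integrable (fun θ => (((1 + 0 * uu 1 θ + -(t ^ 2 / 2) * uu 1 θ ^ 2 : ℝ)) : ℂ)) st := hq.1.ofReal
  have hadd : Integrable (fun θ => ((((1 + 0 * uu 1 θ + -(t ^ 2 / 2) * uu 1 θ ^ 2 : ℝ)) : ℂ) +
      (((t * uu 1 θ : ℝ) : ℂ) * Complex.I))) st := hq'.add hl
  have e1 : ((1 - t ^ 2 / 2 : ℝ) : ℂ) = ∫ θ, ((((1 + 0 * uu 1 θ + -(t ^ 2 / 2) * uu 1 θ ^ 2 : ℝ)) : ℂ) +
      (((t * uu 1 θ : ℝ) : ℂ) * Complex.I)) ∂st := by
    rw [integral_add hq' hl, integral_complex_ofReal, hq.2, integral_mul_const]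
    have : ∫ θ, ((t * uu 1 θ : ℝ) : ℂ) ∂st = 0 := by
      rw [integral_complex_ofReal, integral_const_mul, st_one]
      simp
    rw [this]
    push_cast
    ring
  rw [e1]
  unfold ph1
  rw [← integral_sub i1 hadd]
  refine (norm_integral_le_integral_norm _).trans ?_
  have h3 : ∀ θ, ‖Complex.exp (((t * uu 1 θ : ℝ) : ℂ) * Complex.I) -
      ((((1 + 0 * uu 1 θ + -(t ^ 2 / 2) * uu 1 θ ^ 2 : ℝ)) : ℂ) +
      (((t * uu 1 θ : ℝ) : ℂ) * Complex.I))‖ ≤ 2 * |t| ^ 3 := by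
    intro θ
    have h4 := Tdn_le 3 (t * uu 1 θ)
    have e2 : Tdn 3 (t * uu 1 θ) = Complex.exp (((t * uu 1 θ : ℝ) : ℂ) * Complex.I) -
      ((((1 + 0 * uu 1 θ + -(t ^ 2 / 2) * uu 1 θ ^ 2 : ℝ)) : ℂ) +
      (((t * uu 1 θ : ℝ) : ℂ) * Complex.I)) := by
      unfold Tdn
      simp only [Finset.sum_range_succ, Finset.range_zero, Finset.sum_empty, Nat.factorial]
      push_cast
      linear_combination (-(((t : ℂ) * (uu 1 θ : ℂ)) ^ 2) / 2) * Complex.I_sq
    rw [e2] at h4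
    refine h4.trans ?_
    have h5 : |t * uu 1 θ| ^ 3 ≤ (|t| * 2) ^ 3 := by
      rw [abs_mul]
      exact pow_le_pow_left₀ (by positivity) (mul_le_mul_of_nonneg_left (abs_uu_one θ) (abs_nonneg _)) 3
    have h6 : 0 ≤ |t| ^ 3 := by positivity
    rw [mul_pow] at h5
    have h7 : ((Nat.factorial 3 : ℕ) : ℝ) = 6 := by norm_num [Nat.factorial]
    rw [h7]
    linarith
  calc ∫ θ, ‖Complex.exp (((t * uu 1 θ : ℝ) : ℂ) * Complex.I) -
      ((((1 + 0 * uu 1 θ + -(t ^ 2 / 2) * uu 1 θ ^ 2 : ℝ)) : ℂ) +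
      (((t * uu 1 θ : ℝ) : ℂ) * Complex.I))‖ ∂st ≤ ∫ _, 2 * |t| ^ 3 ∂st := by
        refine integral_mono_of_nonneg (Filter.Eventually.of_forall fun θ => norm_nonneg _)
          (integrable_const _) (Filter.Eventually.of_forall h3)
    _ = 2 * |t| ^ 3 := by simp

lemma ph1_gauss {t : ℝ} (ht : |t| ≤ 1) : ‖ph1 t - ((exp (-(t ^ 2 / 2)) : ℝ) : ℂ)‖ ≤ 3 * |t| ^ 3 := by
  have h1 := ph1_approx t
  have h2 : |exp (-(t ^ 2 / 2)) - 1 - (-(t ^ 2 / 2))| ≤ (-(t ^ 2 / 2)) ^ 2 := by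
    apply Real.abs_exp_sub_one_sub_id_le
    rw [abs_neg, abs_of_nonneg (by positivity)]
    have : t ^ 2 ≤ 1 := by rw [← sq_abs]; exact pow_le_one₀ (abs_nonneg _) ht
    linarith
  have h3 : (-(t ^ 2 / 2)) ^ 2 ≤ |t| ^ 3 := by
    have e : (-(t ^ 2 / 2)) ^ 2 = |t| ^ 3 * |t| / 4 := by
      have e0 : |t| ^ 3 * |t| = (t ^ 2) ^ 2 := by
        calc |t| ^ 3 * |t| = (|t| ^ 2) ^ 2 := by ring
          _ = _ := by rw [sq_abs]
      rw [e0]
      ring
    rw [e]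
    have : 0 ≤ |t| ^ 3 := by positivity
    nlinarith
  have e : ph1 t - ((exp (-(t ^ 2 / 2)) : ℝ) : ℂ) = (ph1 t - ((1 - t ^ 2 / 2 : ℝ) : ℂ)) -
      ((exp (-(t ^ 2 / 2)) - 1 - (-(t ^ 2 / 2)) : ℝ) : ℂ) := by
    push_cast
    ring
  rw [e]
  refine (norm_sub_le _ _).trans ?_
  rw [Complex.norm_real, Real.norm_eq_abs]
  linarith

lemma prod_diff {ι : Type} (s : Finset ι) (a b : ι → ℂ) (ha : ∀ i ∈ s, ‖a i‖ ≤ 1) (hb : ∀ i ∈ s, ‖b i‖ ≤ 1) :
    ‖∏ i ∈ s, a i - ∏ i ∈ s, b i‖ ≤ ∑ i ∈ s, ‖a i - b i‖ := by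
  classical
  induction s using Finset.induction_on with
  | empty => simp
  | insert i s hi ih =>
    rw [Finset.prod_insert hi, Finset.prod_insert hi, Finset.sum_insert hi]
    have h1 := ih (fun j hj => ha j (Finset.mem_insert_of_mem hj)) (fun j hj => hb j (Finset.mem_insert_of_mem hj))
    have h2 : ‖∏ j ∈ s, a j‖ ≤ 1 := by
      rw [norm_prod]
      exact Finset.prod_le_one (fun _ _ => norm_nonneg _) fun j hj => ha j (Finset.mem_insert_of_mem hj)
    have h3 := hb i (Finset.mem_insert_self _ _)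
    have e : a i * ∏ j ∈ s, a j - b i * ∏ j ∈ s, b j = (a i - b i) * ∏ j ∈ s, a j +
        b i * (∏ j ∈ s, a j - ∏ j ∈ s, b j) := by ring
    rw [e]
    refine (norm_add_le _ _).trans (add_le_add ?_ ?_)
    · rw [norm_mul]
      exact mul_le_of_le_one_right (norm_nonneg _) h2
    · rw [norm_mul]
      exact (mul_le_of_le_one_left (norm_nonneg _) h3).trans h1

lemma char_eq {N : ℕ} (hsub : Ss N ⊆ Sb N) (u : ℝ) :
    ∫ x, Complex.exp (((u * Px N x : ℝ) : ℂ) * Complex.I) ∂(mu (Sb N)) =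
      ∏ p ∈ Ss N, ph1 (u * tp p / sl N) := by
  classical
  have h0 : ∫ x, Complex.exp (((u * Px N x : ℝ) : ℂ) * Complex.I) ∂(mu (Sb N)) =
      ∏ p : Sb N, ∫ θ, Complex.exp ((((if (p : ℕ) ∈ Ss N then u * tp p / sl N else 0) * uu 1 θ : ℝ) : ℂ) *
        Complex.I) ∂st := by
    unfold mu
    rw [← integral_fintype_prod_eq_prod (μ := fun _ : Sb N => st)
      (f := fun (p : Sb N) θ => Complex.exp ((((if (p : ℕ) ∈ Ss N then u * tp p / sl N else 0) * uu 1 θ : ℝ) : ℂ) *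
        Complex.I))]
    congr 1
    ext x
    rw [← Complex.exp_sum, ← Finset.sum_mul, ← Complex.ofReal_sum]
    congr 3
    unfold Px
    rw [PP_XX Sb_prime hsub, Finset.sum_div, Finset.mul_sum]
    refine Finset.sum_congr rfl fun p _ => ?_
    split_ifs
    · ring
    · simp
  rw [h0, Finset.prod_coe_sort (Sb N) (fun p => ∫ θ, Complex.exp ((((if p ∈ Ss N then u * tp p / sl N else 0) *
    uu 1 θ : ℝ) : ℂ) * Complex.I) ∂st)]
  rw [← Finset.prod_subset hsub]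
  · refine Finset.prod_congr rfl fun p hp => ?_
    rw [if_pos hp]
    rfl
  · intro p _ hp
    rw [if_neg hp]
    simp

lemma tendsto_ratio : Tendsto (fun N : ℕ => (∑ p ∈ Ss N, (1 : ℝ) / p) / ll N) atTop (𝓝 1) := by
  rw [Metric.tendsto_nhds]
  intro ε hε
  filter_upwards [ev_sumS (half_pos hε), ev_ll 1] with N h1 h2
  have hll : 0 < ll N := by linarith
  rw [Real.dist_eq]
  have e : (∑ p ∈ Ss N, (1 : ℝ) / p) / ll N - 1 = (∑ p ∈ Ss N, (1 : ℝ) / p - ll N) / ll N := by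
    field_simp
  rw [e, abs_div, abs_of_pos hll, div_lt_iff₀ hll]
  nlinarith

/-- the characteristic function -/
theorem char_mod (u : ℝ) : Tendsto (fun N : ℕ => ∫ x, Complex.exp (((u * Px N x : ℝ) : ℂ) * Complex.I)
    ∂(mu (Sb N))) atTop (𝓝 ((exp (-(u ^ 2 / 2)) : ℝ) : ℂ)) := by
  obtain ⟨C3, hC30, hC3⟩ := sum_tp3
  have h1 : Tendsto (fun N : ℕ => ((exp (-(u ^ 2 / 2) * ((∑ p ∈ Ss N, (1 : ℝ) / p) / ll N)) : ℝ) : ℂ)) atTop
      (𝓝 ((exp (-(u ^ 2 / 2)) : ℝ) : ℂ)) := by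
    have h2 : Tendsto (fun N : ℕ => -(u ^ 2 / 2) * ((∑ p ∈ Ss N, (1 : ℝ) / p) / ll N)) atTop
        (𝓝 (-(u ^ 2 / 2) * 1)) := tendsto_ratio.const_mul _
    rw [mul_one] at h2
    exact (Complex.continuous_ofReal.tendsto _).comp ((Real.continuous_exp.tendsto _).comp h2)
  have h2 : Tendsto (fun N : ℕ => ∫ x, Complex.exp (((u * Px N x : ℝ) : ℂ) * Complex.I) ∂(mu (Sb N)) -
      ((exp (-(u ^ 2 / 2) * ((∑ p ∈ Ss N, (1 : ℝ) / p) / ll N)) : ℝ) : ℂ)) atTop (𝓝 0) := by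
    have h3 : Tendsto (fun N : ℕ => 3 * |u| ^ 3 * C3 / sl N) atTop (𝓝 0) :=
      tendsto_sl.const_div_atTop _
    refine squeeze_zero_norm' ?_ h3
    filter_upwards [ev_sub, ev_sl (|u| + 1), ev_ll 1] with N hsub hs1 hll1
    have hsl : 0 < sl N := by
      have := abs_nonneg u
      linarith
    have hsl1 : 1 ≤ sl N := by
      have := abs_nonneg u
      linarith
    have hll : 0 < ll N := by linarith
    rw [char_eq hsub]
    have e1 : ((exp (-(u ^ 2 / 2) * ((∑ p ∈ Ss N, (1 : ℝ) / p) / ll N)) : ℝ) : ℂ) =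
        ∏ p ∈ Ss N, ((exp (-((u * tp p / sl N) ^ 2 / 2)) : ℝ) : ℂ) := by
      rw [← Complex.ofReal_prod, ← Real.exp_sum]
      congr 2
      rw [Finset.sum_div, Finset.mul_sum]
      refine Finset.sum_congr rfl fun p _ => ?_
      rw [div_pow, mul_pow, tp_sq, sl_sq hll.le]
      ring
    rw [e1]
    have ht : ∀ p ∈ Ss N, |u * tp p / sl N| ≤ 1 := by
      intro p hp
      rw [abs_div, abs_of_pos hsl, div_le_one hsl, abs_mul, abs_of_nonneg (tp_nonneg p)]
      have := tp_le_one (Ss_prime p hp).one_le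
      calc |u| * tp p ≤ |u| * 1 := mul_le_mul_of_nonneg_left this (abs_nonneg _)
        _ ≤ sl N := by linarith
    refine (prod_diff _ _ _ (fun p _ => ph1_norm _) (fun p _ => ?_)).trans ?_
    · rw [Complex.norm_real, Real.norm_eq_abs, abs_of_pos (exp_pos _), Real.exp_le_one_iff]
      have : 0 ≤ (u * tp p / sl N) ^ 2 / 2 := by positivity
      linarith
    · calc ∑ p ∈ Ss N, ‖ph1 (u * tp p / sl N) - ((exp (-((u * tp p / sl N) ^ 2 / 2)) : ℝ) : ℂ)‖ ≤
          ∑ p ∈ Ss N, (3 * |u| ^ 3 / sl N) * tp p ^ 3 := by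
            refine Finset.sum_le_sum fun p hp => (ph1_gauss (ht p hp)).trans ?_
            rw [abs_div, abs_mul, abs_of_nonneg (tp_nonneg p), abs_of_pos hsl, div_pow, mul_pow]
            have h5 : (|u| ^ 3 * tp p ^ 3) / sl N ^ 3 ≤ (|u| ^ 3 * tp p ^ 3) / sl N := by
              apply div_le_div_of_nonneg_left (by have := tp_nonneg p; positivity) hsl
              calc sl N = sl N ^ 1 := (pow_one _).symm
                _ ≤ sl N ^ 3 := pow_le_pow_right₀ hsl1 (by norm_num)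
            calc 3 * ((|u| ^ 3 * tp p ^ 3) / sl N ^ 3) ≤ 3 * ((|u| ^ 3 * tp p ^ 3) / sl N) := by linarith
              _ = _ := by ring
        _ = (3 * |u| ^ 3 / sl N) * ∑ p ∈ Ss N, tp p ^ 3 := by rw [Finset.mul_sum]
        _ ≤ (3 * |u| ^ 3 / sl N) * C3 := mul_le_mul_of_nonneg_left (hC3 _) (by positivity)
        _ = _ := by ring
  have h3 := h2.add h1
  rw [zero_add] at h3
  refine h3.congr fun N => ?_
  ring

/-- the law of the normalized sum -/
noncomputable def law (N : ℕ) : ProbabilityMeasure ℝ :=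
  ⟨(mu (Sb N)).map (Px N), Measure.isProbabilityMeasure_map (Px_cont N).aemeasurable⟩

/-- the Gaussian law -/
noncomputable def gau : ProbabilityMeasure ℝ := ⟨gaussianReal 0 1, inferInstance⟩

/-- the central limit theorem -/
theorem law_tendsto : Tendsto law atTop (𝓝 gau) := by
  apply ProbabilityMeasure.tendsto_of_tendsto_charFun
  intro t
  have h1 : charFun (gau : Measure ℝ) t = ((exp (-(t ^ 2 / 2)) : ℝ) : ℂ) := by
    show charFun (gaussianReal 0 1) t = _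
    rw [charFun_gaussianReal]
    push_cast
    congr 1
    ring
  rw [h1]
  refine (char_mod t).congr fun N => ?_
  show _ = charFun ((mu (Sb N)).map (Px N)) t
  rw [charFun_apply_real, integral_map (Px_cont N).aemeasurable (by fun_prop)]
  refine integral_congr_ae (Filter.Eventually.of_forall fun x => ?_)
  simp

/-- convergence for bounded continuous functions -/
theorem law_int {g : ℝ → ℝ} (hg : Continuous g) {C : ℝ} (hC : ∀ x, |g x| ≤ C) :
    Tendsto (fun N : ℕ => ∫ x, g (Px N x) ∂(mu (Sb N))) atTop (𝓝 (∫ x, g x ∂(gaussianReal 0 1))) := by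
  have h1 := (ProbabilityMeasure.tendsto_iff_forall_integral_tendsto.1 law_tendsto)
    (BoundedContinuousFunction.ofNormedAddCommGroup g hg C hC)
  refine h1.congr fun N => ?_
  show ∫ x, g x ∂((mu (Sb N)).map (Px N)) = _
  rw [integral_map (Px_cont N).aemeasurable hg.aestronglyMeasurable]

end Pool.Agent.H485.CC
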