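import Pool.Agent.H485.CC.Ls2

/-!
# The large sieve beyond the level
-/

set_option autoImplicit false
set_option maxHeartbeats 4000000

open Complex Filter Topology Set MeasureTheory UpperHalfPlane MatrixGroups CongruenceSubgroup
open scoped ENNReal Modular

namespace Pool.Agent.H485.CC

open W388.LV (SF bf pet om ck q_pet IsNewSet)
open Pool.Agent.W347.LV

/-- the large sieve for sums which are longer than the level -/
theorem ls_long {N : ℕ} [NeZero N] (B : Finset (SF N 2)) (hB : IsNewSet N 2 B) {X : ℝ} (hX1 : 1 ≤ X)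
    (s : Finset ℕ) (hs : ∀ n ∈ s, 1 ≤ n ∧ (n : ℝ) ≤ X) (a : ℕ → ℂ) :
    ∑ f ∈ B, om f * ‖∑ n ∈ s, a n * (W388.lamf f n : ℂ)‖ ^ 2 ≤
      (Real.exp (4 * Real.pi) * (1 + 3 * X / N)) * ∑ n ∈ s, ‖a n‖ ^ 2 := by
  have hN0 : (0 : ℝ) < N := by exact_mod_cast Nat.pos_of_ne_zero (NeZero.ne N)
  have hP := q_pet
  have hck := ck_pos' 2 le_rfl
  have hckv : ck 2 = 1 / (4 * Real.pi) := by
    unfold ck
    norm_num [Real.Gamma_one]
  set Δ : ℝ := Real.exp (4 * Real.pi) * (1 + 3 * X / N) with hΔ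
  have hΔ0 : 0 < Δ := by positivity
  set S : SF N 2 → ℂ := fun f => ∑ n ∈ s, a n * (W388.lamf f n : ℂ) with hSdef
  have hppos : ∀ f ∈ B, 0 < (pet N 2 f f).re := by
    intro f hf
    apply ((hP N 2).2.2.2 f).2.2
    intro h0
    obtain ⟨ε, hε⟩ := hB.newf f hf
    have h1 : bf f 1 = 1 := hε.one
    rw [h0, bf_zero] at h1
    exact zero_ne_one h1
  have him : ∀ f : SF N 2, pet N 2 f f = (((pet N 2 f f).re : ℝ) : ℂ) := by
    intro f
    apply Complex.ext
    · simp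
    · simp [((hP N 2).2.2.2 f).1]
  set c : SF N 2 → ℂ := fun f => (starRingEnd ℂ) (S f) * (om f : ℂ) with hcdef
  set G : SF N 2 := ∑ f ∈ B, c f • f with hG
  set Z : ℝ := ∑ f ∈ B, om f * ‖S f‖ ^ 2 with hZ
  have hGG : pet N 2 G G = ((ck 2 * Z : ℝ) : ℂ) := by
    rw [hG, pet_sum_left hP]
    simp_rw [pet_sum_right hP]
    rw [hZ, Finset.mul_sum, Complex.ofReal_sum]
    refine Finset.sum_congr rfl fun f hf => ?_
    rw [Finset.sum_eq_single f]
    · have hp := hppos f hf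
      have h2 : om f * (pet N 2 f f).re = ck 2 := by
        unfold om; field_simp
      rw [him f]
      have h3 : ((om f : ℝ) : ℂ) * (((pet N 2 f f).re : ℝ) : ℂ) = ((ck 2 : ℝ) : ℂ) := by
        rw [← Complex.ofReal_mul, h2]
      simp only [hcdef, map_mul, Complex.conj_conj, Complex.conj_ofReal]
      have h4 : (starRingEnd ℂ) (S f) * S f = ((‖S f‖ ^ 2 : ℝ) : ℂ) := by
        rw [Complex.conj_mul']; push_cast; rfl
      rw [Complex.ofReal_mul, Complex.ofReal_mul, ← h4, ← h3]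
      ring
    · intro g hg hgf
      rw [hB.orth f hf g hg (Ne.symm hgf), mul_zero]
    · intro h; exact absurd hf h
  have hbfre : ∀ f ∈ B, ∀ n, bf f n = (((bf f n).re : ℝ) : ℂ) := by
    intro f hf n
    obtain ⟨ε, hε⟩ := hB.newf f hf
    apply Complex.ext
    · simp
    · simp only [Complex.ofReal_im]
      exact hε.real n
  have hZG : ((Z : ℝ) : ℂ) = ∑ n ∈ s, a n * ((Real.sqrt n)⁻¹ : ℝ) * bf G n := by
    rw [hZ, Complex.ofReal_sum]
    have h1 : ∀ f ∈ B, ((om f * ‖S f‖ ^ 2 : ℝ) : ℂ) = c f * S f := by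
      intro f _
      simp only [hcdef]
      have h4 : (starRingEnd ℂ) (S f) * S f = ((‖S f‖ ^ 2 : ℝ) : ℂ) := by
        rw [Complex.conj_mul']; push_cast; rfl
      rw [Complex.ofReal_mul, ← h4]
      ring
    rw [Finset.sum_congr rfl h1]
    simp_rw [hG, bf_sum, hSdef, Finset.mul_sum]
    rw [Finset.sum_comm]
    refine Finset.sum_congr rfl fun n hn => ?_
    refine Finset.sum_congr rfl fun f hf => ?_
    have h5 : (W388.lamf f n : ℂ) = (((Real.sqrt n)⁻¹ : ℝ) : ℂ) * bf f n := by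
      rw [hbfre f hf n, ← Complex.ofReal_mul]
      congr 1
      unfold W388.lamf bf
      have e1 : ((((2 : ℤ) : ℝ) - 1) / 2) = 1 / 2 := by norm_num
      rw [e1, ← Real.sqrt_eq_rpow, div_eq_mul_inv, mul_comm]
    rw [h5]
    ring
  set Y : ℝ := ∑ n ∈ s, ((Real.sqrt n)⁻¹ * ‖bf G n‖) ^ 2 with hY
  have hZ0 : 0 ≤ Z := by
    apply Finset.sum_nonneg
    intro f hf
    apply mul_nonneg
    · unfold om
      exact div_nonneg hck.le (hppos f hf).le
    · positivity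
  have hCS : Z ^ 2 ≤ (∑ n ∈ s, ‖a n‖ ^ 2) * Y := by
    have h1 : Z ≤ ∑ n ∈ s, ‖a n‖ * ((Real.sqrt n)⁻¹ * ‖bf G n‖) := by
      have h2 : Z = ‖((Z : ℝ) : ℂ)‖ := by
        rw [Complex.norm_real, Real.norm_eq_abs, abs_of_nonneg hZ0]
      rw [h2, hZG]
      refine (norm_sum_le _ _).trans (Finset.sum_le_sum fun n _ => ?_)
      rw [norm_mul, norm_mul, Complex.norm_real, Real.norm_eq_abs, abs_of_nonneg (by positivity), mul_assoc]
    calc Z ^ 2 ≤ (∑ n ∈ s, ‖a n‖ * ((Real.sqrt n)⁻¹ * ‖bf G n‖)) ^ 2 :=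
          pow_le_pow_left₀ hZ0 h1 2
      _ ≤ _ := Finset.sum_mul_sq_le_sq_mul_sq _ _ _
  have hX0 : 0 < X := by linarith
  have hstrip := strip_long G (c := 1 / X) (by positivity) s
  rw [hGG, Complex.ofReal_re, hckv] at hstrip
  have hYle : Y ≤ Δ * Z := by
    have h1 : 1 / (4 * Real.pi) * Real.exp (-(4 * Real.pi)) * Y ≤ (1 + 3 / (N * (1 / X))) * (1 / (4 * Real.pi) * Z) := by
      refine le_trans ?_ hstrip
      rw [hY, Finset.mul_sum]
      refine Finset.sum_le_sum fun n hn => ?_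
      obtain ⟨hn1, hnX⟩ := hs n hn
      have hn' : (0 : ℝ) < n := by exact_mod_cast hn1
      have h3 : ((Real.sqrt n)⁻¹ * ‖bf G n‖) ^ 2 = 1 / n * ‖bf G n‖ ^ 2 := by
        rw [mul_pow, inv_pow, Real.sq_sqrt hn'.le, one_div]
      rw [h3]
      have h4 : ‖Pool.Agent.W165.RS.ac G n‖ = ‖bf G n‖ := rfl
      rw [h4]
      have h5 : Real.exp (-(4 * Real.pi)) ≤ Real.exp (-(4 * Real.pi * n * (1 / X))) := by
        apply Real.exp_le_exp.2
        have h6 : (n : ℝ) * (1 / X) ≤ 1 := by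
          rw [mul_one_div, div_le_one hX0]
          exact hnX
        have h7 := mul_le_mul_of_nonneg_left h6 (show 0 ≤ 4 * Real.pi by positivity)
        linarith
      calc 1 / (4 * Real.pi) * Real.exp (-(4 * Real.pi)) * (1 / n * ‖bf G n‖ ^ 2) =
          ‖bf G n‖ ^ 2 * (Real.exp (-(4 * Real.pi)) / (4 * Real.pi * n)) := by field_simp
        _ ≤ _ := by
          apply mul_le_mul_of_nonneg_left _ (by positivity)
          exact div_le_div_of_nonneg_right h5 (by positivity)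
    have h2 : (1 + 3 / (N * (1 / X))) = 1 + 3 * X / N := by field_simp
    rw [h2] at h1
    have h3 : Y = (4 * Real.pi * Real.exp (4 * Real.pi)) * (1 / (4 * Real.pi) * Real.exp (-(4 * Real.pi)) * Y) := by
      rw [Real.exp_neg]
      field_simp
    rw [h3, hΔ]
    calc (4 * Real.pi * Real.exp (4 * Real.pi)) * (1 / (4 * Real.pi) * Real.exp (-(4 * Real.pi)) * Y) ≤
        (4 * Real.pi * Real.exp (4 * Real.pi)) * ((1 + 3 * X / N) * (1 / (4 * Real.pi) * Z)) :=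
          mul_le_mul_of_nonneg_left h1 (by positivity)
      _ = _ := by field_simp
  have hA : 0 ≤ ∑ n ∈ s, ‖a n‖ ^ 2 := Finset.sum_nonneg fun n _ => by positivity
  have h8 : Z ^ 2 ≤ (∑ n ∈ s, ‖a n‖ ^ 2) * (Δ * Z) :=
    hCS.trans (mul_le_mul_of_nonneg_left hYle hA)
  show Z ≤ Δ * ∑ n ∈ s, ‖a n‖ ^ 2
  by_contra hcon
  push Not at hcon
  have hXpos : 0 < Z := lt_of_le_of_lt (mul_nonneg hΔ0.le hA) hcon
  nlinarith

/-- the same, real coefficients -/
theorem ls_real {N : ℕ} [NeZero N] (B : Finset (SF N 2)) (hB : IsNewSet N 2 B) {X : ℝ} (hX1 : 1 ≤ X)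
    {ι : Type} (s : Finset ι) (ν : ι → ℕ) (hinj : Set.InjOn ν s)
    (hs : ∀ i ∈ s, 1 ≤ ν i ∧ (ν i : ℝ) ≤ X) (a : ι → ℝ) :
    ∑ f ∈ B, om f * (∑ i ∈ s, a i * W388.lamf f (ν i)) ^ 2 ≤
      (Real.exp (4 * Real.pi) * (1 + 3 * X / N)) * ∑ i ∈ s, a i ^ 2 := by
  classical
  rcases s.eq_empty_or_nonempty with rfl | ⟨i0, hi0⟩
  · simp
  haveI : Nonempty ι := ⟨i0⟩
  have h := ls_long B hB hX1 (s.image ν) (fun n hn => by
    obtain ⟨i, hi, rfl⟩ := Finset.mem_image.1 hn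
    exact hs i hi) (fun n => ((a (Function.invFunOn ν s n) : ℝ) : ℂ))
  have hinv : ∀ i ∈ s, Function.invFunOn ν s (ν i) = i := fun i hi => hinj.leftInvOn_invFunOn hi
  have e1 : ∑ n ∈ s.image ν, ‖((a (Function.invFunOn ν s n) : ℝ) : ℂ)‖ ^ 2 = ∑ i ∈ s, a i ^ 2 := by
    rw [Finset.sum_image hinj]
    refine Finset.sum_congr rfl fun i hi => ?_
    rw [hinv i hi, Complex.norm_real, Real.norm_eq_abs, sq_abs]
  rw [e1] at h
  refine le_trans (le_of_eq ?_) h
  refine Finset.sum_congr rfl fun f _ => ?_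
  congr 1
  rw [Finset.sum_image hinj]
  have e2 : ∑ i ∈ s, ((a (Function.invFunOn ν s (ν i)) : ℝ) : ℂ) * (W388.lamf f (ν i) : ℂ) =
      ((∑ i ∈ s, a i * W388.lamf f (ν i) : ℝ) : ℂ) := by
    push_cast
    exact Finset.sum_congr rfl fun i hi => by rw [hinv i hi]
  rw [e2, Complex.norm_real, Real.norm_eq_abs, sq_abs]

end Pool.Agent.H485.CC
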