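import Pool.Agent.H485.CC.Ev1
import Pool.Agent.H485.CC.Ls3

/-!
# The large sieve for the even forms, with constant one half
-/

set_option autoImplicit false
set_option maxHeartbeats 4000000

open Complex Filter Topology Set MeasureTheory UpperHalfPlane MatrixGroups CongruenceSubgroup
open scoped ENNReal Modular

namespace Pool.Agent.H485.CC

open Pool.Agent.W165.RS (FF ac FF_meas)
open W388.LV (SF bf pet om ck q_pet IsNewSet)
open W120.LV (eqS eqS_apply pet_eq lint_ne_top)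
open Pool.Agent.W347.LV

variable {N : ℕ} [NeZero N]

omit [NeZero N] in
lemma cf_sum_apply {ι : Type} (E : Finset ι) (g : ι → SF N 2) (w : ℍ) :
    (∑ f ∈ E, g f) w = ∑ f ∈ E, g f w := by
  classical
  induction E using Finset.induction_on with
  | empty => simp
  | insert a s ha ih =>
    rw [Finset.sum_insert ha, Finset.sum_insert ha, CuspForm.add_apply, ih]

/-- a combination of even newforms is invariant under the involution -/
lemma FF_even {E : Finset (SF N 2)} (hE : ∀ f ∈ E, W388.IsNewf N 2 f 1) (c : SF N 2 → ℂ) (z : ℍ) :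
    FF (∑ f ∈ E, c f • f) (WN N • z) = FF (∑ f ∈ E, c f • f) z := by
  have hN : (0 : ℝ) < N := by exact_mod_cast Nat.pos_of_ne_zero (NeZero.ne N)
  have hz : (z : ℂ) ≠ 0 := z.ne_zero
  have hzn : 0 < ‖(z : ℂ)‖ := norm_pos_iff.2 hz
  have hNc : (N : ℂ) ≠ 0 := by exact_mod_cast hN.ne'
  set κ : ℂ := (((Real.sqrt N : ℝ) : ℂ) * (z : ℂ) / Complex.I) ^ (2 : ℤ) with hκ
  have h1 : (∑ f ∈ E, c f • f) (WN N • z) = κ * (∑ f ∈ E, c f • f) z := by
    have h2 : ∀ w : ℍ, (∑ f ∈ E, c f • f) w = ∑ f ∈ E, c f * f w := by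
      intro w
      rw [cf_sum_apply]
      rfl
    rw [h2, h2, Finset.mul_sum]
    refine Finset.sum_congr rfl fun f hf => ?_
    have h3 := (hE f hf).fricke z (WN N • z) (by
      rw [WN_smul]
      field_simp)
    rw [h3]
    push_cast
    rw [one_mul, ← hκ]
    ring
  unfold FF
  rw [h1, WN_im]
  congr 1
  rw [norm_mul, hκ, norm_zpow, norm_div, norm_mul, Complex.norm_I, Complex.norm_real,
    Real.norm_eq_abs, abs_of_nonneg (Real.sqrt_nonneg _), div_one, zpow_ofNat, zpow_ofNat, zpow_ofNat]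
  have hs : Real.sqrt N ^ 2 = N := Real.sq_sqrt hN.le
  rw [mul_pow (Real.sqrt N), hs]
  field_simp

/-- the strip inequality for an invariant form -/
theorem strip_even (hN : N.Prime) {f : SF N 2} (hf : ∀ z : ℍ, FF f (WN N • z) = FF f z) {c : ℝ}
    (hc : 1 ≤ N * c ^ 2) (hc0 : 0 < c) (s : Finset ℕ) :
    2 * ∑ n ∈ s, ‖ac f n‖ ^ 2 * (Real.exp (-(4 * Real.pi * n * c)) / (4 * Real.pi * n)) ≤
      (pet N 2 f f).re := by
  have h1 := pet_ge_of_cnt hf (fun w => cnt_le hN hc hc0 w)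
  rw [UU_int f hc0] at h1
  have h2 : ENNReal.ofReal (2 * ∑ n ∈ s, ‖ac f n‖ ^ 2 * (Real.exp (-(4 * Real.pi * n * c)) / (4 * Real.pi * n))) ≤
      ∫⁻ z in (ModularGroup.fd : Set ℍ),
      ∑' γ : SL(2, ℤ) ⧸ Gamma0 N, FF f ((Quotient.out γ)⁻¹ • z) := by
    refine le_trans ?_ h1
    rw [ENNReal.ofReal_mul (by norm_num), ENNReal.ofReal_sum_of_nonneg fun n _ => by positivity]
    have e2 : ENNReal.ofReal 2 = 2 := by simp
    rw [e2]
    gcongr
    exact ENNReal.sum_le_tsum s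
  rw [pet_eq f]
  have h3 := ENNReal.toReal_mono (lint_ne_top f) h2
  rw [ENNReal.toReal_ofReal (mul_nonneg (by norm_num)
    (Finset.sum_nonneg fun n _ => by positivity))] at h3
  exact h3

/-- the large sieve for even forms -/
theorem ls_even (hN : N.Prime) (E : Finset (SF N 2)) (hE : IsNewSet N 2 E)
    (hE1 : ∀ f ∈ E, W388.IsNewf N 2 f 1) {η : ℝ}
    (s : Finset ℕ) (hs : ∀ n ∈ s, 1 ≤ n ∧ 4 * Real.pi * n ≤ η * Real.sqrt N) (a : ℕ → ℂ) :
    ∑ f ∈ E, om f * ‖∑ n ∈ s, a n * (W388.lamf f n : ℂ)‖ ^ 2 ≤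
      (Real.exp η / 2) * ∑ n ∈ s, ‖a n‖ ^ 2 := by
  have hN0 : (0 : ℝ) < N := by exact_mod_cast Nat.pos_of_ne_zero (NeZero.ne N)
  have hP := q_pet
  have hck := ck_pos' 2 le_rfl
  have hckv : ck 2 = 1 / (4 * Real.pi) := by
    unfold ck
    norm_num [Real.Gamma_one]
  set Δ : ℝ := Real.exp η / 2 with hΔ
  have hΔ0 : 0 < Δ := by positivity
  set S : SF N 2 → ℂ := fun f => ∑ n ∈ s, a n * (W388.lamf f n : ℂ) with hSdef
  have hppos : ∀ f ∈ E, 0 < (pet N 2 f f).re := by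
    intro f hf
    apply ((hP N 2).2.2.2 f).2.2
    intro h0
    obtain ⟨ε, hε⟩ := hE.newf f hf
    have h1 : bf f 1 = 1 := hε.one
    rw [h0, bf_zero] at h1
    exact zero_ne_one h1
  have him : ∀ f : SF N 2, pet N 2 f f = (((pet N 2 f f).re : ℝ) : ℂ) := by
    intro f
    apply Complex.ext
    · simp
    · simp [((hP N 2).2.2.2 f).1]
  set c : SF N 2 → ℂ := fun f => (starRingEnd ℂ) (S f) * (om f : ℂ) with hcdef
  set G : SF N 2 := ∑ f ∈ E, c f • f with hG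
  set Z : ℝ := ∑ f ∈ E, om f * ‖S f‖ ^ 2 with hZ
  have hGG : pet N 2 G G = ((ck 2 * Z : ℝ) : ℂ) := by
    rw [hG, pet_sum_left hP]
    simp_rw [pet_sum_right hP]
    rw [hZ, Finset.mul_sum, Complex.ofReal_sum]
    refine Finset.sum_congr rfl fun f hf => ?_
    rw [Finset.sum_eq_single f]
    · have hp := hppos f hf
      have h2 : om f * (pet N 2 f f).re = ck 2 := by
        unfold om; field_simp
      rw [him f]
      have h3 : ((om f : ℝ) : ℂ) * (((pet N 2 f f).re : ℝ) : ℂ) = ((ck 2 : ℝ) : ℂ) := by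
        rw [← Complex.ofReal_mul, h2]
      simp only [hcdef, map_mul, Complex.conj_conj, Complex.conj_ofReal]
      have h4 : (starRingEnd ℂ) (S f) * S f = ((‖S f‖ ^ 2 : ℝ) : ℂ) := by
        rw [Complex.conj_mul']; push_cast; rfl
      rw [Complex.ofReal_mul, Complex.ofReal_mul, ← h4, ← h3]
      ring
    · intro g hg hgf
      rw [hE.orth f hf g hg (Ne.symm hgf), mul_zero]
    · intro h; exact absurd hf h
  have hbfre : ∀ f ∈ E, ∀ n, bf f n = (((bf f n).re : ℝ) : ℂ) := by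
    intro f hf n
    obtain ⟨ε, hε⟩ := hE.newf f hf
    apply Complex.ext
    · simp
    · simp only [Complex.ofReal_im]
      exact hε.real n
  have hZG : ((Z : ℝ) : ℂ) = ∑ n ∈ s, a n * ((Real.sqrt n)⁻¹ : ℝ) * bf G n := by
    rw [hZ, Complex.ofReal_sum]
    have h1 : ∀ f ∈ E, ((om f * ‖S f‖ ^ 2 : ℝ) : ℂ) = c f * S f := by
      intro f _
      simp only [hcdef]
      have h4 : (starRingEnd ℂ) (S f) * S f = ((‖S f‖ ^ 2 : ℝ) : ℂ) := by
        rw [Complex.conj_mul']; push_cast; rfl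
      rw [Complex.ofReal_mul, ← h4]
      ring
    rw [Finset.sum_congr rfl h1]
    simp_rw [hG, bf_sum, hSdef, Finset.mul_sum]
    rw [Finset.sum_comm]
    refine Finset.sum_congr rfl fun n hn => ?_
    refine Finset.sum_congr rfl fun f hf => ?_
    have h5 : (W388.lamf f n : ℂ) = (((Real.sqrt n)⁻¹ : ℝ) : ℂ) * bf f n := by
      rw [hbfre f hf n, ← Complex.ofReal_mul]
      congr 1
      unfold W388.lamf bf
      have e1 : ((((2 : ℤ) : ℝ) - 1) / 2) = 1 / 2 := by norm_num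
      rw [e1, ← Real.sqrt_eq_rpow, div_eq_mul_inv, mul_comm]
    rw [h5]
    ring
  set Y : ℝ := ∑ n ∈ s, ((Real.sqrt n)⁻¹ * ‖bf G n‖) ^ 2 with hY
  have hZ0 : 0 ≤ Z := by
    apply Finset.sum_nonneg
    intro f hf
    apply mul_nonneg
    · unfold om
      exact div_nonneg hck.le (hppos f hf).le
    · positivity
  have hCS : Z ^ 2 ≤ (∑ n ∈ s, ‖a n‖ ^ 2) * Y := by
    have h1 : Z ≤ ∑ n ∈ s, ‖a n‖ * ((Real.sqrt n)⁻¹ * ‖bf G n‖) := by
      have h2 : Z = ‖((Z : ℝ) : ℂ)‖ := by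
        rw [Complex.norm_real, Real.norm_eq_abs, abs_of_nonneg hZ0]
      rw [h2, hZG]
      refine (norm_sum_le _ _).trans (Finset.sum_le_sum fun n _ => ?_)
      rw [norm_mul, norm_mul, Complex.norm_real, Real.norm_eq_abs, abs_of_nonneg (by positivity), mul_assoc]
    calc Z ^ 2 ≤ (∑ n ∈ s, ‖a n‖ * ((Real.sqrt n)⁻¹ * ‖bf G n‖)) ^ 2 :=
          pow_le_pow_left₀ hZ0 h1 2
      _ ≤ _ := Finset.sum_mul_sq_le_sq_mul_sq _ _ _
  have hsN : 0 < Real.sqrt N := Real.sqrt_pos.2 hN0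
  have hstrip := strip_even hN (f := G) (fun z => FF_even hE1 c z) (c := 1 / Real.sqrt N) (by
    rw [div_pow, Real.sq_sqrt hN0.le]
    field_simp
    exact le_refl _) (by positivity) s
  rw [hGG, Complex.ofReal_re, hckv] at hstrip
  have hYle : Y ≤ Δ * Z := by
    have h1 : 2 * (1 / (4 * Real.pi) * Real.exp (-η) * Y) ≤ (1 / (4 * Real.pi) * Z) := by
      refine le_trans ?_ hstrip
      apply mul_le_mul_of_nonneg_left _ (by norm_num)
      rw [hY, Finset.mul_sum]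
      refine Finset.sum_le_sum fun n hn => ?_
      obtain ⟨hn1, hnX⟩ := hs n hn
      have hn' : (0 : ℝ) < n := by exact_mod_cast hn1
      have h3 : ((Real.sqrt n)⁻¹ * ‖bf G n‖) ^ 2 = 1 / n * ‖bf G n‖ ^ 2 := by
        rw [mul_pow, inv_pow, Real.sq_sqrt hn'.le, one_div]
      rw [h3]
      have h4 : ‖Pool.Agent.W165.RS.ac G n‖ = ‖bf G n‖ := rfl
      rw [h4]
      have h5 : Real.exp (-η) ≤ Real.exp (-(4 * Real.pi * n * (1 / Real.sqrt N))) := by
        apply Real.exp_le_exp.2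
        rw [neg_le_neg_iff, mul_one_div, div_le_iff₀ hsN]
        exact hnX
      calc 1 / (4 * Real.pi) * Real.exp (-η) * (1 / n * ‖bf G n‖ ^ 2) =
          ‖bf G n‖ ^ 2 * (Real.exp (-η) / (4 * Real.pi * n)) := by field_simp
        _ ≤ _ := by
          apply mul_le_mul_of_nonneg_left _ (by positivity)
          exact div_le_div_of_nonneg_right h5 (by positivity)
    have h3 : Y = (2 * Real.pi * Real.exp η) * (2 * (1 / (4 * Real.pi) * Real.exp (-η) * Y)) := by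
      rw [Real.exp_neg]
      field_simp
      ring
    rw [h3, hΔ]
    calc (2 * Real.pi * Real.exp η) * (2 * (1 / (4 * Real.pi) * Real.exp (-η) * Y)) ≤
        (2 * Real.pi * Real.exp η) * (1 / (4 * Real.pi) * Z) :=
          mul_le_mul_of_nonneg_left h1 (by positivity)
      _ = _ := by field_simp; ring
  have hA : 0 ≤ ∑ n ∈ s, ‖a n‖ ^ 2 := Finset.sum_nonneg fun n _ => by positivity
  have h8 : Z ^ 2 ≤ (∑ n ∈ s, ‖a n‖ ^ 2) * (Δ * Z) :=
    hCS.trans (mul_le_mul_of_nonneg_left hYle hA)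
  show Z ≤ Δ * ∑ n ∈ s, ‖a n‖ ^ 2
  by_contra hcon
  push Not at hcon
  have hXpos : 0 < Z := lt_of_le_of_lt (mul_nonneg hΔ0.le hA) hcon
  nlinarith

omit [NeZero N] in
/-- the large sieve for observables and even forms -/
theorem ls_obs_even (δ ε0 : ℝ) (hδ : 0 < δ) (h0 : 0 < ε0) :
    ∀ᶠ N : ℕ in atTop, N.Prime → ∀ [NeZero N] (E : Finset (SF N 2)), IsNewSet N 2 E →
      (∀ f ∈ E, W388.IsNewf N 2 f 1) →
      ∀ (S : Finset ℕ), (∀ p ∈ S, p.Prime) → (∀ p ∈ S, ¬ p ∣ N) → ∀ (D : ℝ) (F : (ℕ → ℝ) → ℝ),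
      Obs S D F → D ≤ (N : ℝ) ^ (1 / 2 - ε0) →
      ∑ f ∈ E, om f * F (W388.lamf f) ^ 2 ≤ ((1 + δ) / 2) * ∫ x, F (XX S x) ^ 2 ∂(mu S) := by
  set η : ℝ := Real.log (1 + δ) with hη
  have hη0 : 0 < η := Real.log_pos (by linarith)
  have h1 : Tendsto (fun N : ℕ => (N : ℝ) ^ ε0) atTop atTop :=
    (tendsto_rpow_atTop h0).comp tendsto_natCast_atTop_atTop
  filter_upwards [h1.eventually_ge_atTop (4 * Real.pi / η), eventually_ge_atTop 1] with N hN1 hN2 hN
    _ E hE hE1 S hS hSN D F hF hD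
  obtain ⟨c, hc, hFc⟩ := hF
  rw [integral_obs hS hc hFc]
  have hN0 : (0 : ℝ) < N := by exact_mod_cast hN2
  have hkey : ∀ n ∈ c.support, 1 ≤ n ∧ 4 * Real.pi * n ≤ η * Real.sqrt N := by
    intro n hn
    obtain ⟨hs, hD'⟩ := hc n hn
    refine ⟨hs.1, ?_⟩
    rw [div_le_iff₀ hη0] at hN1
    have h3 : (n : ℝ) ≤ (N : ℝ) ^ (1 / 2 - ε0) := hD'.trans hD
    calc 4 * Real.pi * n ≤ ((N : ℝ) ^ ε0 * η) * (N : ℝ) ^ (1 / 2 - ε0) :=
          mul_le_mul hN1 h3 (Nat.cast_nonneg _) (by positivity)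
      _ = η * ((N : ℝ) ^ ε0 * (N : ℝ) ^ (1 / 2 - ε0)) := by ring
      _ = η * Real.sqrt N := by
        rw [← Real.rpow_add hN0, Real.sqrt_eq_rpow]
        congr 2
        ring
  have h2 := ls_even hN E hE hE1 c.support hkey (fun n => ((c n : ℝ) : ℂ))
  have e0 : Real.exp η = 1 + δ := Real.exp_log (by linarith)
  rw [e0] at h2
  have e1 : ∑ n ∈ c.support, ‖((c n : ℝ) : ℂ)‖ ^ 2 = ∑ n ∈ c.support, c n ^ 2 := by
    refine Finset.sum_congr rfl fun n _ => ?_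
    rw [Complex.norm_real, Real.norm_eq_abs, sq_abs]
  rw [e1] at h2
  refine le_trans (le_of_eq ?_) h2
  refine Finset.sum_congr rfl fun f hf => ?_
  congr 1
  rw [hFc _ (hrel_lamf (hE1 f hf) hS hSN), Finsupp.sum]
  have e2 : ∑ n ∈ c.support, ((c n : ℝ) : ℂ) * (W388.lamf f n : ℂ) =
      ((∑ n ∈ c.support, c n * W388.lamf f n : ℝ) : ℂ) := by
    push_cast
    rfl
  rw [e2, Complex.norm_real, Real.norm_eq_abs, sq_abs]

end Pool.Agent.H485.CC
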