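import Pool.Agent.H485.CC.Clt2
import Pool.Agent.H485.CC.Ev2

/-!
# Transfer to the even newforms
-/

set_option autoImplicit false
set_option maxHeartbeats 4000000

open MeasureTheory Real Finset Filter Topology ProbabilityTheory

namespace Pool.Agent.H485.CC

open W388.LV (SF om IsNewSet)

lemma ev_len2 (n : ℕ) : ∀ᶠ N : ℕ in atTop, zr N ^ n * 1 ≤ (N : ℝ) ^ (1 / 2 - 1 / 4 : ℝ) := by
  filter_upwards [ev_ll (4 * n + 1), ev_log 1] with N h1 h2
  have hN0 := pos_of_log h2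
  have hn : (0 : ℝ) ≤ n := Nat.cast_nonneg n
  have hll : 0 < ll N := by linarith
  rw [mul_one]
  unfold zr
  rw [← Real.exp_nat_mul, Real.rpow_def_of_pos hN0]
  apply exp_le_exp.2
  have h4 : (n : ℝ) * (log N / ll N ^ 2) = log N * (n / ll N ^ 2) := by ring
  rw [h4]
  apply mul_le_mul_of_nonneg_left _ (by linarith)
  rw [div_le_iff₀ (by positivity)]
  nlinarith

/-- the bound for the remainder -/
lemma rem_le {ρ x : ℝ} (hρ : 0 ≤ ρ) (m : ℕ) : ((ρ * |x|) ^ m / (m.factorial : ℝ)) ^ 2 ≤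
    (1 / 4) ^ m * (exp (4 * ρ * x) + exp (-(4 * ρ) * x)) := by
  have h0 : (0 : ℝ) < m.factorial := by positivity
  have h1 : ((2 * m).factorial : ℝ) ≤ 4 ^ m * (m.factorial : ℝ) ^ 2 := by
    have h2 : (2 * m).choose m * m.factorial * (2 * m - m).factorial = (2 * m).factorial :=
      Nat.choose_mul_factorial_mul_factorial (by omega)
    rw [show 2 * m - m = m by omega] at h2
    have h3 : (2 * m).choose m ≤ 2 ^ (2 * m) := Nat.choose_le_two_pow _ _
    rw [pow_mul] at h3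
    have h4 : (2 * m).factorial ≤ 4 ^ m * m.factorial ^ 2 := by
      rw [← h2, mul_assoc, ← sq]
      exact Nat.mul_le_mul_right _ h3
    exact_mod_cast h4
  have h2 := Real.pow_div_factorial_le_exp (x := 4 * ρ * |x|) (by positivity) (2 * m)
  have h3 : exp (4 * ρ * |x|) ≤ exp (4 * ρ * x) + exp (-(4 * ρ) * x) := by
    rcases abs_cases x with ⟨h, _⟩ | ⟨h, _⟩
    · rw [h]; linarith [exp_pos (-(4 * ρ) * x)]
    · rw [h]
      have : 4 * ρ * -x = -(4 * ρ) * x := by ring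
      rw [this]; linarith [exp_pos (4 * ρ * x)]
  have h4 : ((ρ * |x|) ^ m / (m.factorial : ℝ)) ^ 2 ≤ (1 / 4) ^ m * ((4 * ρ * |x|) ^ (2 * m) / ((2 * m).factorial : ℝ)) := by
    have e1 : ((ρ * |x|) ^ m / (m.factorial : ℝ)) ^ 2 = (ρ * |x|) ^ (2 * m) * (1 / (m.factorial : ℝ) ^ 2) := by
      rw [div_pow, ← pow_mul, mul_comm m 2]
      ring
    have e2 : (1 / 4 : ℝ) ^ m * ((4 * ρ * |x|) ^ (2 * m) / ((2 * m).factorial : ℝ)) =
        (ρ * |x|) ^ (2 * m) * (4 ^ m / ((2 * m).factorial : ℝ)) := by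
      have : (4 * ρ * |x|) ^ (2 * m) = (4 : ℝ) ^ m * 4 ^ m * (ρ * |x|) ^ (2 * m) := by
        rw [mul_assoc, mul_pow, two_mul, pow_add]
      rw [this, one_div, inv_pow]
      field_simp
    rw [e1, e2]
    apply mul_le_mul_of_nonneg_left _ (by positivity)
    rw [div_le_div_iff₀ (by positivity) (by positivity), one_mul]
    exact h1
  refine h4.trans ?_
  exact mul_le_mul_of_nonneg_left (h2.trans h3) (by positivity)

lemma young {a b η : ℝ} (hη : 0 < η) : (a + b) ^ 2 ≤ (1 + η) * a ^ 2 + (1 + 1 / η) * b ^ 2 := by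
  have h : 0 ≤ (Real.sqrt η * a - b / Real.sqrt η) ^ 2 := sq_nonneg _
  have hs : Real.sqrt η ^ 2 = η := Real.sq_sqrt hη.le
  have hs0 : Real.sqrt η ≠ 0 := (Real.sqrt_pos.2 hη).ne'
  have e : (Real.sqrt η * a - b / Real.sqrt η) ^ 2 = η * a ^ 2 - 2 * a * b + (1 / η) * b ^ 2 := by
    have e1 : (Real.sqrt η * a - b / Real.sqrt η) ^ 2 =
        Real.sqrt η ^ 2 * a ^ 2 - 2 * a * b * (Real.sqrt η / Real.sqrt η) + (1 / Real.sqrt η ^ 2) * b ^ 2 := by
      field_simp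
      ring
    rw [e1, hs, div_self hs0, mul_one]
  rw [e] at h
  nlinarith

/-- transfer for trigonometric polynomials -/
theorem even_T (r : ℝ) (Q : Polynomial ℝ) {ε : ℝ} (hε : 0 < ε) : ∀ᶠ N : ℕ in atTop, N.Prime →
    ∀ [NeZero N] (E : Finset (SF N 2)), IsNewSet N 2 E → (∀ f ∈ E, W388.IsNewf N 2 f 1) →
    ∑ f ∈ E, om f * (Q.eval (sin (r * (PP (Ss N) (W388.lamf f) / sl N)))) ^ 2 ≤
      (1 / 2) * ∫ x, (Q.eval (sin (r * x))) ^ 2 ∂(gaussianReal 0 1) + ε := by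
  obtain ⟨A, ρ, hA, hρ, hTay⟩ := trig_taylor r Q
  set T : ℝ → ℝ := fun x => Q.eval (sin (r * x)) with hT
  obtain ⟨M, hM0, hM⟩ : ∃ M : ℝ, 0 ≤ M ∧ ∀ x, |T x| ≤ M := by
    obtain ⟨M, hM⟩ := (isCompact_Icc (a := (-1 : ℝ)) (b := 1)).exists_bound_of_continuousOn
      (f := fun y => Q.eval y) Q.continuous.continuousOn
    refine ⟨|M|, abs_nonneg _, fun x => ?_⟩
    exact (hM (sin (r * x)) ⟨neg_one_le_sin _, sin_le_one _⟩).trans (le_abs_self _)
  have hTc : Continuous T := by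
    rw [hT]
    exact Q.continuous.comp (by fun_prop)
  set I : ℝ := ∫ x, T x ^ 2 ∂(gaussianReal 0 1) with hI
  have hI0 : 0 ≤ I := integral_nonneg fun x => sq_nonneg _
  have hIM : I ≤ M ^ 2 := by
    rw [hI]
    calc ∫ x, T x ^ 2 ∂(gaussianReal 0 1) ≤ ∫ _, M ^ 2 ∂(gaussianReal 0 1) := by
          refine integral_mono_of_nonneg (Filter.Eventually.of_forall fun x => sq_nonneg _)
            (integrable_const _) (Filter.Eventually.of_forall fun x => ?_)
          show T x ^ 2 ≤ M ^ 2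
          rw [← sq_abs]
          exact pow_le_pow_left₀ (abs_nonneg _) (hM x) 2
      _ = M ^ 2 := by simp
  obtain ⟨C1, hC10, hC1⟩ := exp_mod (4 * ρ)
  obtain ⟨C2, hC20, hC2⟩ := exp_mod (-(4 * ρ))
  set η : ℝ := min 1 (ε / (8 * (M ^ 2 + 1))) with hη
  have hη0 : 0 < η := lt_min one_pos (by positivity)
  have hη1 : η ≤ 1 := min_le_left _ _
  have hη2 : 4 * η * (M ^ 2 + 1) ≤ ε / 2 := by
    have : η ≤ ε / (8 * (M ^ 2 + 1)) := min_le_right _ _
    rw [le_div_iff₀ (by positivity)] at this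
    linarith
  obtain ⟨m, hm⟩ : ∃ m : ℕ, 3 * (1 + 1 / η) * (A ^ 2 * (C1 + C2)) * (1 / 4) ^ (m + 1) ≤ ε / 2 := by
    have h1 : Tendsto (fun m : ℕ => 3 * (1 + 1 / η) * (A ^ 2 * (C1 + C2)) * (1 / 4 : ℝ) ^ (m + 1)) atTop (𝓝 0) := by
      have h2 := (tendsto_pow_atTop_nhds_zero_of_lt_one (r := (1 / 4 : ℝ)) (by norm_num) (by norm_num))
      have h3 := ((tendsto_add_atTop_iff_nat 1).2 h2).const_mul (3 * (1 + 1 / η) * (A ^ 2 * (C1 + C2)))
      simpa using h3
    exact ((h1.eventually_lt_const (half_pos hε)).exists).imp fun m hm => hm.le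
  obtain ⟨w, hw⟩ := hTay m
  set Tn : ℝ → ℝ := fun x => ∑ j ∈ range (m + 1), w j * x ^ j with hTn
  have hTnc : Continuous Tn := by
    rw [hTn]
    exact continuous_finsetSum _ fun j _ => continuous_const.mul (continuous_pow j)
  set κ : ℝ := A ^ 2 * ((C1 + C2) * (1 / 4) ^ (m + 1)) with hκ
  have hκ0 : 0 ≤ κ := by positivity
  have hlim := (law_int (g := fun x => T x ^ 2) (hTc.pow 2) (C := M ^ 2) (fun x => by
    rw [abs_of_nonneg (sq_nonneg _), ← sq_abs]
    exact pow_le_pow_left₀ (abs_nonneg _) (hM x) 2)).eventually_le_const (show I < I + η by linarith)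
  filter_upwards [ls_obs_even η (1 / 4) hη0 (by norm_num), ev_sub, ev_log 1, ev_len2 m, ev_len2 (m + 1),
    hC1, hC2, hlim, ev_ll 1] with N hLS hsub hlog hlen1 hlen2 k1 k2 k3 hll hp _ E hE hE1
  have hz : 1 ≤ zr N := zr_ge_one (by linarith)
  have hsl : 0 < sl N := Real.sqrt_pos.2 (by linarith)
  obtain ⟨CP, hCP0, hCP⟩ := Px_bdd hsub
  -- the remainder
  have hD : ∀ x : ℝ, (T x - Tn x) ^ 2 ≤ A ^ 2 * ((ρ * |x|) ^ (m + 1) / ((m + 1).factorial : ℝ)) ^ 2 := by
    intro x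
    rw [← sq_abs, ← mul_pow]
    exact pow_le_pow_left₀ (abs_nonneg _) (hw x) 2
  -- integrability
  have iE : ∀ b : ℝ, Integrable (fun x => exp (b * Px N x)) (mu (Sb N)) := by
    intro b
    refine integrable_mu (C := exp (|b| * CP)) (by have := Px_cont N; fun_prop) fun x => ?_
    rw [Real.norm_eq_abs, abs_of_pos (exp_pos _)]
    apply exp_le_exp.2
    calc b * Px N x ≤ |b * Px N x| := le_abs_self _
      _ = |b| * |Px N x| := abs_mul _ _
      _ ≤ _ := mul_le_mul_of_nonneg_left (hCP x) (abs_nonneg _)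
  have iT : Integrable (fun x => T (Px N x) ^ 2) (mu (Sb N)) := by
    refine integrable_mu (C := M ^ 2) ((hTc.comp (Px_cont N)).pow 2) fun x => ?_
    rw [Real.norm_eq_abs, abs_of_nonneg (sq_nonneg _), ← sq_abs]
    exact pow_le_pow_left₀ (abs_nonneg _) (hM _) 2
  -- the model, remainder
  have mD : ∫ x, ((ρ * |Px N x|) ^ (m + 1) / ((m + 1).factorial : ℝ)) ^ 2 ∂(mu (Sb N)) ≤
      (C1 + C2) * (1 / 4) ^ (m + 1) := by
    calc ∫ x, ((ρ * |Px N x|) ^ (m + 1) / ((m + 1).factorial : ℝ)) ^ 2 ∂(mu (Sb N)) ≤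
        ∫ x, (1 / 4) ^ (m + 1) * (exp (4 * ρ * Px N x) + exp (-(4 * ρ) * Px N x)) ∂(mu (Sb N)) := by
          refine integral_mono_of_nonneg (Filter.Eventually.of_forall fun x => sq_nonneg _)
            (((iE _).add (iE _)).const_mul _) (Filter.Eventually.of_forall fun x => ?_)
          exact rem_le hρ (m + 1)
      _ = (1 / 4) ^ (m + 1) * ((∫ x, exp (4 * ρ * Px N x) ∂(mu (Sb N))) +
            ∫ x, exp (-(4 * ρ) * Px N x) ∂(mu (Sb N))) := by
          rw [integral_const_mul, integral_add (iE _) (iE _)]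
      _ ≤ (1 / 4) ^ (m + 1) * (C1 + C2) := mul_le_mul_of_nonneg_left (add_le_add k1 k2) (by positivity)
      _ = _ := mul_comm _ _
  -- the model, main term
  have mT : ∫ x, Tn (Px N x) ^ 2 ∂(mu (Sb N)) ≤ (1 + η) * (I + η) + (1 + 1 / η) * κ := by
    have iD : Integrable (fun x => ((ρ * |Px N x|) ^ (m + 1) / ((m + 1).factorial : ℝ)) ^ 2) (mu (Sb N)) := by
      refine integrable_mu (C := ((ρ * CP) ^ (m + 1) / ((m + 1).factorial : ℝ)) ^ 2)
        (by have := Px_cont N; fun_prop) fun x => ?_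
      rw [Real.norm_eq_abs, abs_of_nonneg (sq_nonneg _)]
      have := hCP x
      gcongr
    calc ∫ x, Tn (Px N x) ^ 2 ∂(mu (Sb N)) ≤ ∫ x, ((1 + η) * T (Px N x) ^ 2 + (1 + 1 / η) *
        (A ^ 2 * ((ρ * |Px N x|) ^ (m + 1) / ((m + 1).factorial : ℝ)) ^ 2)) ∂(mu (Sb N)) := by
          refine integral_mono_of_nonneg (Filter.Eventually.of_forall fun x => sq_nonneg _)
            ((iT.const_mul _).add ((iD.const_mul _).const_mul _)) (Filter.Eventually.of_forall fun x => ?_)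
          have h1 := young (a := T (Px N x)) (b := Tn (Px N x) - T (Px N x)) hη0
          have e1 : T (Px N x) + (Tn (Px N x) - T (Px N x)) = Tn (Px N x) := by ring
          rw [e1] at h1
          have h2 := hD (Px N x)
          have e2 : (Tn (Px N x) - T (Px N x)) ^ 2 = (T (Px N x) - Tn (Px N x)) ^ 2 := by ring
          rw [e2] at h1
          have h3 := mul_le_mul_of_nonneg_left h2 (show 0 ≤ 1 + 1 / η by positivity)
          exact h1.trans (by linarith)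
      _ = (1 + η) * (∫ x, T (Px N x) ^ 2 ∂(mu (Sb N))) + (1 + 1 / η) *
          (A ^ 2 * ∫ x, ((ρ * |Px N x|) ^ (m + 1) / ((m + 1).factorial : ℝ)) ^ 2 ∂(mu (Sb N))) := by
          rw [integral_add (iT.const_mul _) ((iD.const_mul _).const_mul _), integral_const_mul,
            integral_const_mul, integral_const_mul]
      _ ≤ _ := by
          refine add_le_add (mul_le_mul_of_nonneg_left k3 (by positivity))
            (mul_le_mul_of_nonneg_left ?_ (by positivity))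
          exact mul_le_mul_of_nonneg_left mD (by positivity)
  -- the family
  have hAs : ∀ (D : ℝ) (F : (ℕ → ℝ) → ℝ), 0 ≤ D →
    Obs (Sb N) D F → Obs (Sb N) (zr N * D) fun lam => (PP (Ss N) lam / sl N) * F lam := by
    intro D F hD hF
    refine (Pool.Agent.H485.CC.hA hsub (1 / sl N) D F hD hF).congr fun lam _ => ?_
    ring
  have o0 : Obs (Sb N) 1 fun _ => 1 := Obs.const le_rfl 1
  have o1 := Obs.mul_poly hz hAs zero_le_one o0 m w
  have o2 := Obs.mul_pow hz hAs zero_le_one o0 (m + 1)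
  have f1 := hLS hp E hE hE1 (Sb N) Sb_prime (Sb_ndvd hp) _ _ o1 hlen1
  have f2 := hLS hp E hE hE1 (Sb N) Sb_prime (Sb_ndvd hp) _ _ o2 hlen2
  simp only [mul_one] at f1 f2
  set P : SF N 2 → ℝ := fun f => PP (Ss N) (W388.lamf f) / sl N with hP
  have g1 : ∑ f ∈ E, om f * Tn (P f) ^ 2 ≤ ((1 + η) / 2) * ((1 + η) * (I + η) + (1 + 1 / η) * κ) :=
    f1.trans (mul_le_mul_of_nonneg_left mT (by positivity))
  have g2 : ∑ f ∈ E, om f * (T (P f) - Tn (P f)) ^ 2 ≤ κ := by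
    calc ∑ f ∈ E, om f * (T (P f) - Tn (P f)) ^ 2 ≤
        ∑ f ∈ E, (A ^ 2 * (ρ ^ (m + 1) / ((m + 1).factorial : ℝ)) ^ 2) * (om f * (P f ^ (m + 1)) ^ 2) := by
          refine Finset.sum_le_sum fun f _ => ?_
          have h1 := mul_le_mul_of_nonneg_left (hD (P f)) (om_nonneg f)
          refine h1.trans (le_of_eq ?_)
          have e1 : ((ρ * |P f|) ^ (m + 1) / ((m + 1).factorial : ℝ)) ^ 2 =
            (ρ ^ (m + 1) / ((m + 1).factorial : ℝ)) ^ 2 * (P f ^ (m + 1)) ^ 2 := by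
            rw [mul_pow, ← sq_abs (P f ^ (m + 1)), abs_pow]
            ring
          rw [e1]
          ring
      _ = (A ^ 2 * (ρ ^ (m + 1) / ((m + 1).factorial : ℝ)) ^ 2) * ∑ f ∈ E, om f * (P f ^ (m + 1)) ^ 2 := by
          rw [Finset.mul_sum]
      _ ≤ (A ^ 2 * (ρ ^ (m + 1) / ((m + 1).factorial : ℝ)) ^ 2) * (((1 + η) / 2) *
          ∫ x, (Px N x ^ (m + 1)) ^ 2 ∂(mu (Sb N))) := mul_le_mul_of_nonneg_left f2 (by positivity)
      _ ≤ (A ^ 2 * (ρ ^ (m + 1) / ((m + 1).factorial : ℝ)) ^ 2) * (1 *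
          ∫ x, (Px N x ^ (m + 1)) ^ 2 ∂(mu (Sb N))) := by
          refine mul_le_mul_of_nonneg_left ?_ (by positivity)
          exact mul_le_mul_of_nonneg_right (by linarith) (integral_nonneg fun x => sq_nonneg _)
      _ = A ^ 2 * ∫ x, ((ρ * |Px N x|) ^ (m + 1) / ((m + 1).factorial : ℝ)) ^ 2 ∂(mu (Sb N)) := by
          rw [one_mul, mul_assoc, ← integral_const_mul]
          congr 2
          ext x
          rw [mul_pow, ← sq_abs (Px N x ^ (m + 1)), abs_pow]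
          ring
      _ ≤ _ := mul_le_mul_of_nonneg_left mD (by positivity)
  have g3 : ∑ f ∈ E, om f * T (P f) ^ 2 ≤ (1 + η) * (∑ f ∈ E, om f * Tn (P f) ^ 2) +
      (1 + 1 / η) * ∑ f ∈ E, om f * (T (P f) - Tn (P f)) ^ 2 := by
    rw [Finset.mul_sum, Finset.mul_sum, ← Finset.sum_add_distrib]
    refine Finset.sum_le_sum fun f _ => ?_
    have h1 := young (a := Tn (P f)) (b := T (P f) - Tn (P f)) hη0
    have e1 : Tn (P f) + (T (P f) - Tn (P f)) = T (P f) := by ring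
    rw [e1] at h1
    have h2 := mul_le_mul_of_nonneg_left h1 (om_nonneg f)
    linarith
  have hη3 : 0 < 1 + 1 / η := by positivity
  have g4 : (1 + η) * (∑ f ∈ E, om f * Tn (P f) ^ 2) ≤
      (1 + η) * (((1 + η) / 2) * ((1 + η) * (I + η) + (1 + 1 / η) * κ)) :=
    mul_le_mul_of_nonneg_left g1 (by positivity)
  have g5 := mul_le_mul_of_nonneg_left g2 hη3.le
  have g6 : (1 + η) * (((1 + η) / 2) * ((1 + η) * (I + η) + (1 + 1 / η) * κ)) ≤
      1 / 2 * I + 4 * η * (M ^ 2 + 1) + 2 * ((1 + 1 / η) * κ) := by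
    set X := (1 + 1 / η) * κ with hX
    have hX0 : 0 ≤ X := by positivity
    have h1 : (1 + η) ^ 3 ≤ 1 + 7 * η := by nlinarith [mul_nonneg hη0.le hη0.le]
    have h2 : (1 + η) ^ 2 ≤ 4 := by nlinarith
    have e1 : (1 + η) * (((1 + η) / 2) * ((1 + η) * (I + η) + X)) =
        (1 + η) ^ 3 * ((I + η) / 2) + (1 + η) ^ 2 * (X / 2) := by ring
    rw [e1]
    have h3 : (1 + η) ^ 3 * ((I + η) / 2) ≤ (1 + 7 * η) * ((I + η) / 2) :=
      mul_le_mul_of_nonneg_right h1 (by positivity)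
    have h4 : (1 + η) ^ 2 * (X / 2) ≤ 4 * (X / 2) := mul_le_mul_of_nonneg_right h2 (by positivity)
    have h5 : η * I ≤ η * M ^ 2 := mul_le_mul_of_nonneg_left hIM hη0.le
    have h6 : η * η ≤ η * 1 := mul_le_mul_of_nonneg_left hη1 hη0.le
    have h7 : 0 ≤ η * I := by positivity
    nlinarith
  have g7 : 3 * ((1 + 1 / η) * κ) ≤ ε / 2 := by
    refine le_trans (le_of_eq ?_) hm
    rw [hκ]
    ring
  show ∑ f ∈ E, om f * T (P f) ^ 2 ≤ (1 / 2) * I + ε
  linarith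

end Pool.Agent.H485.CC
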