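import Pool.Agent.H485.CC.Clt3

/-!
# The one-sided central limit theorem for the even newforms
-/

set_option autoImplicit false
set_option maxHeartbeats 4000000

open MeasureTheory Real Finset Filter Topology ProbabilityTheory

namespace Pool.Agent.H485.CC

open W388.LV (SF om IsNewSet)

/-- the tail of the Gaussian distribution -/
noncomputable def GT (v : ℝ) : ℝ := (gaussianReal 0 1).real (Set.Ioi v)

lemma pdf_le_one (x : ℝ) : gaussianPDF 0 1 x ≤ 1 := by
  unfold gaussianPDF gaussianPDFReal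
  rw [ENNReal.ofReal_le_one]
  have h1 : (√(2 * π * ((1 : NNReal) : ℝ)))⁻¹ ≤ 1 := by
    apply inv_le_one_of_one_le₀
    rw [Real.one_le_sqrt]
    have := Real.pi_gt_three
    push_cast
    linarith
  have h2 : rexp (-(x - 0) ^ 2 / (2 * ((1 : NNReal) : ℝ))) ≤ 1 := by
    apply Real.exp_le_one_iff.2
    push_cast
    have := sq_nonneg (x - 0)
    linarith
  calc (√(2 * π * ((1 : NNReal) : ℝ)))⁻¹ * rexp (-(x - 0) ^ 2 / (2 * ((1 : NNReal) : ℝ))) ≤ 1 * 1 :=
        mul_le_mul h1 h2 (exp_pos _).le zero_le_one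
    _ = 1 := one_mul _

lemma GT_nonneg (v : ℝ) : 0 ≤ GT v := measureReal_nonneg

lemma GT_le_one (v : ℝ) : GT v ≤ 1 := measureReal_le_one

lemma GT_shift (v : ℝ) {η : ℝ} (hη : 0 ≤ η) : GT (v - η) ≤ GT v + η := by
  unfold GT
  have h1 : Set.Ioi (v - η) ⊆ Set.Ioi v ∪ Set.Ioc (v - η) v := by
    intro x hx
    rcases lt_or_ge v x with h | h
    · exact Or.inl h
    · exact Or.inr ⟨hx, h⟩
  refine (measureReal_mono h1).trans ((measureReal_union_le _ _).trans ?_)
  apply add_le_add (le_refl _)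
  rw [measureReal_def, gaussianReal_apply 0 one_ne_zero]
  have h2 : ∫⁻ x in Set.Ioc (v - η) v, gaussianPDF 0 1 x ≤ ENNReal.ofReal η := by
    calc ∫⁻ x in Set.Ioc (v - η) v, gaussianPDF 0 1 x ≤ ∫⁻ x in Set.Ioc (v - η) v, 1 :=
          lintegral_mono fun x => pdf_le_one x
      _ = ENNReal.ofReal η := by
          rw [setLIntegral_const, one_mul, Real.volume_Ioc]
          congr 1
          ring
  calc (∫⁻ x in Set.Ioc (v - η) v, gaussianPDF 0 1 x).toReal ≤ (ENNReal.ofReal η).toReal :=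
        ENNReal.toReal_mono ENNReal.ofReal_ne_top h2
    _ = η := ENNReal.toReal_ofReal hη

lemma G_tail {M : ℝ} (hM : 0 < M) : (gaussianReal 0 1).real {x | M < |x|} ≤ 1 / M ^ 2 := by
  have h1 := meas_ge_le_variance_div_sq (μ := gaussianReal 0 1) (X := id)
    (memLp_id_gaussianReal' 2 (by norm_num)) hM
  rw [variance_id_gaussianReal] at h1
  have h0 : ∫ x, id x ∂(gaussianReal 0 1) = 0 := integral_id_gaussianReal
  rw [h0] at h1
  have h2 : {x : ℝ | M < |x|} ⊆ {ω : ℝ | M ≤ |id ω - 0|} := by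
    intro x hx
    simp only [id, sub_zero, Set.mem_ofPred_eq] at hx ⊢
    exact hx.le
  rw [measureReal_def]
  calc (gaussianReal 0 1 {x | M < |x|}).toReal ≤ (ENNReal.ofReal (((1 : NNReal) : ℝ) / M ^ 2)).toReal :=
        ENNReal.toReal_mono ENNReal.ofReal_ne_top ((measure_mono h2).trans h1)
    _ = 1 / M ^ 2 := by
        rw [ENNReal.toReal_ofReal (by positivity)]
        simp

/-- the ramp -/
noncomputable def ramp (v η x : ℝ) : ℝ := max 0 (min 1 ((x - (v - η)) / η))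

lemma ramp_cont (v η : ℝ) : Continuous (ramp v η) := by
  unfold ramp
  fun_prop

lemma ramp_mem (v η x : ℝ) : 0 ≤ ramp v η x ∧ ramp v η x ≤ 1 :=
  ⟨le_max_left _ _, max_le zero_le_one (min_le_left _ _)⟩

lemma ramp_one {v η x : ℝ} (hη : 0 < η) (hx : v < x) : ramp v η x = 1 := by
  unfold ramp
  have : 1 ≤ (x - (v - η)) / η := by
    rw [le_div_iff₀ hη]
    linarith
  rw [min_eq_left this]
  exact max_eq_right zero_le_one

lemma ramp_zero {v η x : ℝ} (hη : 0 < η) (hx : x ≤ v - η) : ramp v η x = 0 := by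
  unfold ramp
  apply max_eq_left
  refine (min_le_right _ _).trans ?_
  apply div_nonpos_of_nonpos_of_nonneg _ hη.le
  linarith

/-- a trigonometric polynomial near the ramp -/
lemma exists_T (v : ℝ) {η M : ℝ} (hη : 0 < η) (hM : 0 < M) : ∃ (r : ℝ) (Q : Polynomial ℝ),
    (∀ x : ℝ, |x| ≤ M → |Q.eval (sin (r * x)) - ramp v η x| < η) ∧
    ∀ x : ℝ, |Q.eval (sin (r * x))| ≤ 1 + η := by
  set r : ℝ := π / (2 * M) with hr
  have hr0 : 0 < r := by positivity
  obtain ⟨Q, hQ⟩ := exists_polynomial_near_of_continuousOn (-1) 1 (fun y => ramp v η (arcsin y / r))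
    ((ramp_cont v η).comp (continuous_arcsin.div_const r)).continuousOn η hη
  refine ⟨r, Q, fun x hx => ?_, fun x => ?_⟩
  · have h1 := hQ (sin (r * x)) ⟨neg_one_le_sin _, sin_le_one _⟩
    have h2 : |r * x| ≤ π / 2 := by
      rw [abs_mul, abs_of_pos hr0]
      calc r * |x| ≤ r * M := mul_le_mul_of_nonneg_left hx hr0.le
        _ = π / 2 := by rw [hr]; field_simp
    have h3 := abs_le.1 h2
    have h4 : arcsin (sin (r * x)) = r * x := arcsin_sin h3.1 h3.2
    simp only [h4] at h1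
    rwa [mul_div_cancel_left₀ _ hr0.ne'] at h1
  · have h1 := hQ (sin (r * x)) ⟨neg_one_le_sin _, sin_le_one _⟩
    obtain ⟨h2, h3⟩ := ramp_mem v η (arcsin (sin (r * x)) / r)
    have h4 := abs_lt.1 h1
    rw [abs_le]
    constructor <;> linarith [h4.1, h4.2]

lemma int_T {v η M r : ℝ} {Q : Polynomial ℝ} (hη : 0 < η) (hη1 : η ≤ 1) (hM : 0 < M)
    (h1 : ∀ x : ℝ, |x| ≤ M → |Q.eval (sin (r * x)) - ramp v η x| < η)
    (h2 : ∀ x : ℝ, |Q.eval (sin (r * x))| ≤ 1 + η) :
    ∫ x, (Q.eval (sin (r * x))) ^ 2 ∂(gaussianReal 0 1) ≤ GT (v - η) + 1 / M ^ 2 + 3 * η := by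
  have hm1 : MeasurableSet (Set.Ioi (v - η)) := measurableSet_Ioi
  have hm2 : MeasurableSet {x : ℝ | M < |x|} := measurableSet_lt measurable_const (by fun_prop)
  have key : ∀ x : ℝ, (Q.eval (sin (r * x))) ^ 2 ≤ (Set.Ioi (v - η)).indicator (fun _ => (1 : ℝ)) x +
      {x : ℝ | M < |x|}.indicator (fun _ => (1 : ℝ)) x + 3 * η := by
    intro x
    have i1 : 0 ≤ (Set.Ioi (v - η)).indicator (fun _ => (1 : ℝ)) x :=
      Set.indicator_nonneg (fun _ _ => zero_le_one) _
    by_cases hx : M < |x|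
    · rw [Set.indicator_of_mem (show x ∈ {x : ℝ | M < |x|} from hx)]
      have h3 : (Q.eval (sin (r * x))) ^ 2 ≤ (1 + η) ^ 2 := by
        rw [← sq_abs]
        exact pow_le_pow_left₀ (abs_nonneg _) (h2 x) 2
      nlinarith
    · rw [Set.indicator_of_notMem (show x ∉ {x : ℝ | M < |x|} from hx)]
      push Not at hx
      have h3 := abs_lt.1 (h1 x hx)
      obtain ⟨r1, r2⟩ := ramp_mem v η x
      have h4 : |Q.eval (sin (r * x))| ≤ ramp v η x + η := by
        rw [abs_le]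
        constructor <;> linarith [h3.1, h3.2]
      have h5 : (Q.eval (sin (r * x))) ^ 2 ≤ (ramp v η x + η) ^ 2 := by
        rw [← sq_abs]
        exact pow_le_pow_left₀ (abs_nonneg _) h4 2
      rcases lt_or_ge (v - η) x with h | h
      · rw [Set.indicator_of_mem (show x ∈ Set.Ioi (v - η) from h)]
        nlinarith
      · rw [ramp_zero hη h] at h5
        rw [Set.indicator_of_notMem (show x ∉ Set.Ioi (v - η) from not_lt.2 h)]
        nlinarith
  have j1 : Integrable ((Set.Ioi (v - η)).indicator (fun _ => (1 : ℝ))) (gaussianReal 0 1) :=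
    (integrable_const _).indicator hm1
  have j2 : Integrable ({x : ℝ | M < |x|}.indicator (fun _ => (1 : ℝ))) (gaussianReal 0 1) :=
    (integrable_const _).indicator hm2
  calc ∫ x, (Q.eval (sin (r * x))) ^ 2 ∂(gaussianReal 0 1) ≤
      ∫ x, ((Set.Ioi (v - η)).indicator (fun _ => (1 : ℝ)) x +
        {x : ℝ | M < |x|}.indicator (fun _ => (1 : ℝ)) x + 3 * η) ∂(gaussianReal 0 1) :=
        integral_mono_of_nonneg (Filter.Eventually.of_forall fun x => sq_nonneg _)
          ((j1.add j2).add (integrable_const _)) (Filter.Eventually.of_forall key)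
    _ = GT (v - η) + (gaussianReal 0 1).real {x : ℝ | M < |x|} + 3 * η := by
        have j3 : Integrable (fun x => (Set.Ioi (v - η)).indicator (fun _ => (1 : ℝ)) x +
          {x : ℝ | M < |x|}.indicator (fun _ => (1 : ℝ)) x) (gaussianReal 0 1) := j1.add j2
        rw [integral_add j3 (integrable_const _), integral_add j1 j2, integral_indicator hm1,
          integral_indicator hm2]
        simp [GT, measureReal_def]
    _ ≤ _ := by
        have := G_tail hM
        linarith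

/-- the tails -/
theorem even_tail : ∃ C : ℝ, 0 ≤ C ∧ ∀ M : ℝ, 0 < M → ∀ᶠ N : ℕ in atTop, N.Prime →
    ∀ [NeZero N] (E : Finset (SF N 2)), IsNewSet N 2 E → (∀ f ∈ E, W388.IsNewf N 2 f 1) →
    ∑ f ∈ E with M < |PP (Ss N) (W388.lamf f) / sl N|, om f ≤ C / M ^ 2 := by
  obtain ⟨C1, hC10, hC1⟩ := exp_mod 1
  obtain ⟨C2, hC20, hC2⟩ := exp_mod (-1)
  refine ⟨2 * (C1 + C2), by positivity, fun M hM => ?_⟩
  filter_upwards [ls_obs_even 1 (1 / 4) one_pos (by norm_num), ev_sub, ev_log 1, ev_len2 1,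
    hC1, hC2, ev_ll 1] with N hLS hsub hlog hlen k1 k2 hll hp _ E hE hE1
  have hz : 1 ≤ zr N := zr_ge_one (by linarith)
  have hsl : 0 < sl N := Real.sqrt_pos.2 (by linarith)
  obtain ⟨CP, hCP0, hCP⟩ := Px_bdd hsub
  have iE : ∀ b : ℝ, Integrable (fun x => exp (b * Px N x)) (mu (Sb N)) := by
    intro b
    refine integrable_mu (C := exp (|b| * CP)) (by have := Px_cont N; fun_prop) fun x => ?_
    rw [Real.norm_eq_abs, abs_of_pos (exp_pos _)]
    apply exp_le_exp.2
    calc b * Px N x ≤ |b * Px N x| := le_abs_self _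
      _ = |b| * |Px N x| := abs_mul _ _
      _ ≤ _ := mul_le_mul_of_nonneg_left (hCP x) (abs_nonneg _)
  have hAs : ∀ (D : ℝ) (F : (ℕ → ℝ) → ℝ), 0 ≤ D →
    Obs (Sb N) D F → Obs (Sb N) (zr N * D) fun lam => (PP (Ss N) lam / sl N) * F lam := by
    intro D F hD hF
    refine (Pool.Agent.H485.CC.hA hsub (1 / sl N) D F hD hF).congr fun lam _ => ?_
    ring
  have o0 : Obs (Sb N) 1 fun _ => 1 := Obs.const le_rfl 1
  have o2 := Obs.mul_pow hz hAs zero_le_one o0 1
  have f2 := hLS hp E hE hE1 (Sb N) Sb_prime (Sb_ndvd hp) _ _ o2 hlen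
  simp only [mul_one, pow_one] at f2
  set P : SF N 2 → ℝ := fun f => PP (Ss N) (W388.lamf f) / sl N with hP
  have hmod : ∫ x, (Px N x) ^ 2 ∂(mu (Sb N)) ≤ 2 * (C1 + C2) := by
    calc ∫ x, (Px N x) ^ 2 ∂(mu (Sb N)) ≤ ∫ x, 2 * (exp (1 * Px N x) + exp (-1 * Px N x)) ∂(mu (Sb N)) := by
          refine integral_mono_of_nonneg (Filter.Eventually.of_forall fun x => sq_nonneg _)
            (((iE _).add (iE _)).const_mul _) (Filter.Eventually.of_forall fun x => ?_)
          show (Px N x) ^ 2 ≤ 2 * (exp (1 * Px N x) + exp (-1 * Px N x))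
          set y := Px N x
          have h1 := Real.pow_div_factorial_le_exp (x := |y|) (abs_nonneg _) 2
          have h2 : exp |y| ≤ exp (1 * y) + exp (-1 * y) := by
            rcases abs_cases y with ⟨h, _⟩ | ⟨h, _⟩
            · rw [h, one_mul]; linarith [exp_pos (-1 * y)]
            · rw [h, neg_one_mul]; linarith [exp_pos (1 * y)]
          rw [sq_abs] at h1
          have h3 : ((Nat.factorial 2 : ℕ) : ℝ) = 2 := by norm_num [Nat.factorial]
          rw [h3] at h1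
          linarith
      _ = 2 * ((∫ x, exp (1 * Px N x) ∂(mu (Sb N))) + ∫ x, exp (-1 * Px N x) ∂(mu (Sb N))) := by
          rw [integral_const_mul, integral_add (iE _) (iE _)]
      _ ≤ _ := by linarith
  have h1 : ∑ f ∈ E, om f * P f ^ 2 ≤ 2 * (C1 + C2) := by
    refine f2.trans ?_
    norm_num
    exact hmod
  have h2 : ∀ f ∈ E.filter (fun f => M < |P f|), om f * M ^ 2 ≤ om f * P f ^ 2 := by
    intro f hf
    rw [Finset.mem_filter] at hf
    apply mul_le_mul_of_nonneg_left _ (om_nonneg f)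
    rw [← sq_abs (P f)]
    exact pow_le_pow_left₀ hM.le hf.2.le 2
  have h3 := Finset.sum_le_sum h2
  rw [← Finset.sum_mul] at h3
  have h4 : ∑ f ∈ E.filter (fun f => M < |P f|), om f * P f ^ 2 ≤ ∑ f ∈ E, om f * P f ^ 2 :=
    Finset.sum_le_sum_of_subset_of_nonneg (Finset.filter_subset _ _) fun f _ _ =>
      mul_nonneg (om_nonneg f) (sq_nonneg _)
  rw [le_div_iff₀ (by positivity)]
  exact h3.trans (h4.trans h1)

/-- the one-sided central limit theorem for the sums over the primes -/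
theorem clt_P (v : ℝ) {ε : ℝ} (hε : 0 < ε) : ∀ᶠ N : ℕ in atTop, N.Prime →
    ∀ [NeZero N] (E : Finset (SF N 2)), IsNewSet N 2 E → (∀ f ∈ E, W388.IsNewf N 2 f 1) →
    ∑ f ∈ E with v < PP (Ss N) (W388.lamf f) / sl N, om f ≤ (1 / 2) * GT v + ε := by
  obtain ⟨C, hC0, hC⟩ := even_tail
  set η : ℝ := min (1 / 4) (ε / 20) with hη
  have hη0 : 0 < η := lt_min (by norm_num) (by positivity)
  have hη1 : η ≤ 1 / 4 := min_le_left _ _
  have hη2 : 20 * η ≤ ε := by
    have : η ≤ ε / 20 := min_le_right _ _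
    linarith
  obtain ⟨M, hM, hM1, hM2⟩ : ∃ M : ℝ, 0 < M ∧ 1 / M ^ 2 ≤ η ∧ C / M ^ 2 ≤ η := by
    have h1 : Tendsto (fun M : ℝ => 1 / M ^ 2) atTop (𝓝 0) :=
      (tendsto_pow_atTop (two_ne_zero)).const_div_atTop _
    have h2 : Tendsto (fun M : ℝ => C / M ^ 2) atTop (𝓝 0) :=
      (tendsto_pow_atTop (two_ne_zero)).const_div_atTop _
    obtain ⟨M, hM⟩ := ((eventually_gt_atTop 0).and ((h1.eventually_lt_const hη0).and
      (h2.eventually_lt_const hη0))).exists
    exact ⟨M, hM.1, hM.2.1.le, hM.2.2.le⟩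
  obtain ⟨r, Q, hQ1, hQ2⟩ := exists_T v hη0 hM
  have hI := int_T hη0 (by linarith) hM hQ1 hQ2
  have hGs := GT_shift v hη0.le
  filter_upwards [even_T r Q hη0, hC M hM] with N h1 h2 hp _ E hE hE1
  have k1 := h1 hp E hE hE1
  have k2 := h2 hp E hE hE1
  set P : SF N 2 → ℝ := fun f => PP (Ss N) (W388.lamf f) / sl N with hP
  have k3 := sum_or E (fun f => om f) (fun f _ => om_nonneg f) (fun f => v < P f)
    (fun f => v < P f ∧ |P f| ≤ M) (fun f => M < |P f|) (fun f _ hf => by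
      rcases le_or_gt |P f| M with h | h
      · exact Or.inl ⟨hf, h⟩
      · exact Or.inr h)
  have k4 : ∀ f ∈ E.filter (fun f => v < P f ∧ |P f| ≤ M), om f * (1 - η) ^ 2 ≤
      om f * (Q.eval (sin (r * P f))) ^ 2 := by
    intro f hf
    rw [Finset.mem_filter] at hf
    apply mul_le_mul_of_nonneg_left _ (om_nonneg f)
    have h3 := abs_lt.1 (hQ1 (P f) hf.2.2)
    rw [ramp_one hη0 hf.2.1] at h3
    exact pow_le_pow_left₀ (by linarith) (by linarith [h3.1]) 2
  have k5 := Finset.sum_le_sum k4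
  rw [← Finset.sum_mul] at k5
  have k6 : ∑ f ∈ E.filter (fun f => v < P f ∧ |P f| ≤ M), om f * (Q.eval (sin (r * P f))) ^ 2 ≤
      ∑ f ∈ E, om f * (Q.eval (sin (r * P f))) ^ 2 :=
    Finset.sum_le_sum_of_subset_of_nonneg (Finset.filter_subset _ _) fun f _ _ =>
      mul_nonneg (om_nonneg f) (sq_nonneg _)
  have hG0 := GT_nonneg v
  have hG1 := GT_le_one v
  set Z : ℝ := ∑ f ∈ E.filter (fun f => v < P f ∧ |P f| ≤ M), om f with hZ
  have hZ0 : 0 ≤ Z := Finset.sum_nonneg fun f _ => om_nonneg f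
  have k7 : Z * (1 - η) ^ 2 ≤ (1 / 2) * (GT v + 5 * η) + η := by
    refine k5.trans (k6.trans (k1.trans ?_))
    linarith
  have k8 : Z ≤ (1 / 2) * GT v + 15 * η := by
    have h3 : 1 - 2 * η ≤ (1 - η) ^ 2 := by nlinarith
    have h4 : Z * (1 - 2 * η) ≤ (1 / 2) * GT v + 7 / 2 * η := by
      have := mul_le_mul_of_nonneg_left h3 hZ0
      linarith
    have h5 : (1 / 2) * GT v + 7 / 2 * η ≤ ((1 / 2) * GT v + 15 * η) * (1 - 2 * η) := by
      have h6 : GT v * η ≤ 1 * η := mul_le_mul_of_nonneg_right hG1 hη0.le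
      have h7 : η * η ≤ 1 / 4 * η := mul_le_mul_of_nonneg_right hη1 hη0.le
      nlinarith
    have h8 : 0 < 1 - 2 * η := by linarith
    exact le_of_mul_le_mul_right (h4.trans h5) h8
  have k9 : ∑ f ∈ E with M < |P f|, om f ≤ C / M ^ 2 := k2
  calc ∑ f ∈ E with v < P f, om f ≤ Z + ∑ f ∈ E with M < |P f|, om f := k3
    _ ≤ ((1 / 2) * GT v + 15 * η) + η := add_le_add k8 (k9.trans hM2)
    _ ≤ _ := by linarith

end Pool.Agent.H485.CC
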