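import Pool.Agent.H485.CC.Ls6
import Pool.Agent.H485.CC.Hm2
import Pool.Graph.R_pool_sql_team_seeded_c8625f6e.K4H13.CV.Hyp
import Pool.Graph.R_pool_sql_team_seeded_c8625f6e.K4H13.CV.Ex2
import Pool.Graph.R_pool_sql_team_seeded_c8625f6e.K4H13.CV.Hp
import Pool.Graph.R_pool_sql_team_seeded_c8625f6e.K4H13.CV.Hpc
import Pool.Graph.R_pool_sql_team_seeded_c8625f6e.K4H13.CV.Hpr
import Pool.Graph.R_pool_sql_team_seeded_c8625f6e.K4H13.CV.Hpv

/-!
# The final steps: counting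
-/

set_option autoImplicit false
set_option maxHeartbeats 4000000

open Real Finset Filter

namespace Pool.Agent.H485.CC

open W388.LV (SF om IsNewSet)
open Pool.Agent.Y18.BSD Pool.Agent.K4H13.CV

/-- the basis of the newforms -/
theorem basis {N : ℕ} [NeZero N] (hN : N.Prime) : ∃ B : Finset (SF N 2), IsNewSet N 2 B ∧
    ∀ f : SF N 2, f ∈ B ↔ ∃ ε : ℝ, W388.IsNewf N 2 f ε := by
  obtain ⟨B, hB, hBm⟩ := newform_basis N hN
  exact ⟨B, ⟨hB.newf, hB.orth⟩, hBm⟩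

lemma IsNewSet.sub {N : ℕ} {B E : Finset (SF N 2)} (hB : IsNewSet N 2 B) (h : E ⊆ B) :
    IsNewSet N 2 E :=
  ⟨fun f hf => hB.newf f (h hf), fun f hf g hg hfg => hB.orth f (h hf) g (h hg) hfg⟩

open Classical in
/-- the number of the even newforms -/
theorem even_card {N : ℕ} [NeZero N] (hN : N.Prime) (h3 : 3 ≤ N) {B : Finset (SF N 2)}
    (hB : W388.LV.IsNewBasis N 2 B) (hBm : ∀ f : SF N 2, f ∈ B ↔ ∃ ε : ℝ, W388.IsNewf N 2 f ε) :
    N ≤ 36 * (B.filter fun f => W388.IsNewf N 2 f 1).card + 65 := by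
  have h2 : N ≠ 2 := by omega
  obtain ⟨d1, d2, -⟩ := dimS hyp hN h2 hB
  obtain ⟨P, hP⟩ : ∃ P : Finset (SF N 2), P = B.filter fun f => W388.IsNewf N 2 f (-1) := ⟨_, rfl⟩
  have hp := HpP.hp_of (hpv Pool.Agent.K4H13.CV.span (Pool.Agent.K4H13.CV.free Pool.Agent.K4H13.CV.span)
    (Pool.Agent.K4H13.CV.wt Pool.Agent.K4H13.CV.span)) hpc hpr N hN h2 B hB
    P (by rw [hP]; exact Finset.filter_subset _ _)
    fun f hf => by rw [hP] at hf; exact (Finset.mem_filter.1 hf).2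
  have h4 : B.card ≤ (B.filter fun f => W388.IsNewf N 2 f 1).card + P.card := by
    rw [hP]
    rw [← Finset.card_union_add_card_inter]
    refine (Finset.card_le_card fun f hf => ?_).trans (Nat.le_add_right _ _)
    obtain ⟨ε, hε⟩ := (hBm f).1 hf
    rw [Finset.mem_union, Finset.mem_filter, Finset.mem_filter]
    rcases hε.sign with rfl | rfl
    · exact Or.inl ⟨hf, hε⟩
    · exact Or.inr ⟨hf, hε⟩
  omega

/-- everything -/
theorem final_count {A : ℝ} (hA1 : -(3 / 2) ≤ A) (hA2 : A < 1 / 2) {ε : ℝ} (hε : 0 < ε) :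
    ∀ᶠ N : ℕ in atTop, N.Prime → ∀ [NeZero N] (B : Finset (SF N 2)), IsNewSet N 2 B →
      ((B.filter fun f => exp (-A * ll N) < ‖bv f 0‖).card : ℝ) ≤
        N * exp ((-((1 / 2 - A) ^ 2 / 4) + ε) * ll N) := by
  obtain ⟨C, hC0, hC⟩ := count_sq
  filter_upwards [har_main hA1 hA2 hε, ev_pow C 0 hε] with N h1 h2 hN _ B hB
  rw [pow_zero, mul_one] at h2
  have h3 := h1 hN B hB
  have h4 := hC N hN _ (IsNewSet.sub hB (Finset.filter_subset (fun f => exp (-A * ll N) < ‖bv f 0‖) B))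
  have hN0 : (0 : ℝ) < N := by exact_mod_cast hN.pos
  rw [← abs_of_nonneg (show (0 : ℝ) ≤ N * exp ((-((1 / 2 - A) ^ 2 / 4) + ε) * ll N) by positivity)]
  refine le_abs_self _ |>.trans (sq_le_sq.1 (h4.trans ?_))
  calc C * (N : ℝ) ^ 2 * ∑ f ∈ B.filter (fun f => exp (-A * ll N) < ‖bv f 0‖), om f ≤
      exp (ε * ll N) * (N : ℝ) ^ 2 * exp ((-((1 / 2 - A) ^ 2 / 2) + ε) * ll N) := by
        refine mul_le_mul ?_ h3 (Finset.sum_nonneg fun f _ => om_nonneg f) (by positivity)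
        exact mul_le_mul_of_nonneg_right h2 (by positivity)
    _ = _ := by
        rw [mul_pow, ← Real.exp_nat_mul, mul_comm (exp (ε * ll N)), mul_assoc, ← Real.exp_add]
        congr 2
        push_cast
        ring

/-- the total weight of the even forms -/
theorem mass_low : ∃ c : ℝ, 0 < c ∧ ∀ᶠ N : ℕ in atTop, N.Prime → ∀ [NeZero N] (B : Finset (SF N 2)),
    (W388.LV.IsNewBasis N 2 B) → (∀ f : SF N 2, f ∈ B ↔ ∃ ε : ℝ, W388.IsNewf N 2 f ε) →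
    ∀ E : Finset (SF N 2), (∀ f, f ∈ E ↔ W388.IsNewf N 2 f 1) → c ≤ ∑ f ∈ E, om f := by
  classical
  obtain ⟨C, hC0, hC⟩ := count_sq
  refine ⟨(C * 72 ^ 2)⁻¹, by positivity, ?_⟩
  filter_upwards [Filter.eventually_ge_atTop 130] with N hN3 hN _ B hB hBm E hE
  have h1 := even_card hN (by omega) hB hBm
  have hEB : B.filter (fun f => W388.IsNewf N 2 f 1) = E := by
    ext f
    rw [Finset.mem_filter, hE, hBm]
    exact ⟨fun h => h.2, fun h => ⟨⟨1, h⟩, h⟩⟩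
  rw [hEB] at h1
  have hsub : E ⊆ B := by rw [← hEB]; exact Finset.filter_subset _ _
  have h4 := hC N hN E (IsNewSet.sub ⟨hB.newf, hB.orth⟩ hsub)
  have hN0 : (0 : ℝ) < N := by exact_mod_cast hN.pos
  have h5 : (N : ℝ) ≤ 72 * E.card := by
    have : N ≤ 72 * E.card := by omega
    exact_mod_cast this
  have h6 : (N : ℝ) ^ 2 ≤ 72 ^ 2 * (E.card : ℝ) ^ 2 := by
    rw [← mul_pow]
    exact pow_le_pow_left₀ hN0.le h5 2
  have hN2 : (0 : ℝ) < (N : ℝ) ^ 2 := by positivity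
  rw [inv_le_iff_one_le_mul₀' (by positivity)]
  have h7 : (N : ℝ) ^ 2 * 1 ≤ (N : ℝ) ^ 2 * (C * 72 ^ 2 * ∑ f ∈ E, om f) := by
    calc (N : ℝ) ^ 2 * 1 = (N : ℝ) ^ 2 := mul_one _
      _ ≤ 72 ^ 2 * (E.card : ℝ) ^ 2 := h6
      _ ≤ 72 ^ 2 * (C * (N : ℝ) ^ 2 * ∑ f ∈ E, om f) := mul_le_mul_of_nonneg_left h4 (by norm_num)
      _ = _ := by ring
  exact le_of_mul_le_mul_left h7 hN2

end Pool.Agent.H485.CC
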