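import Pool.Agent.H485.CC.Clt4
import Pool.Agent.H485.CC.Fin

/-!
# The one-sided central limit theorem for the central values
-/

set_option autoImplicit false
set_option maxHeartbeats 4000000

open MeasureTheory Real Finset Filter Topology ProbabilityTheory

namespace Pool.Agent.H485.CC

open W388.LV (SF om IsNewSet)
open Pool.Agent.Y18.BSD Pool.Agent.K4H13.CV

/-- harmonic weights -/
theorem clt_L (v : ℝ) {ε : ℝ} (hε : 0 < ε) : ∀ᶠ N : ℕ in atTop, N.Prime →
    ∀ [NeZero N] (E : Finset (SF N 2)), IsNewSet N 2 E → (∀ f ∈ E, W388.IsNewf N 2 f 1) →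
    ∑ f ∈ E with exp (-(ll N / 2) + v * sl N) < ‖bv f 0‖, om f ≤ (1 / 2) * GT v + ε := by
  set η : ℝ := ε / 4 with hη
  have hη0 : 0 < η := by positivity
  have hGs := GT_shift v (η := 2 * η) (by positivity)
  filter_upwards [clt_P (v - 2 * η) hη0, ratio hη0, bv_le, ev_linS (log 4) hη0,
    ev_linS (-(log η)) (ε := η / 2) (by positivity), ev_sl (4 * (|v| + 1)), ev_sl 4] with N h1 h2 h3 h4 h5 h6 h7
    hp _ E hE hE1
  have k1 := h1 hp E hE hE1
  have k2 := h2 hp E hE
  have hsl : 0 < sl N := by linarith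
  have hll : ll N = sl N ^ 2 := by
    unfold sl
    rw [Real.sq_sqrt]
    by_contra h
    push Not at h
    have : sl N = 0 := Real.sqrt_eq_zero_of_nonpos h.le
    linarith
  set P : SF N 2 → ℝ := fun f => PP (Ss N) (W388.lamf f) with hP
  have k3 : exp (-(η / 2) * sl N) ≤ η := by
    rw [← Real.le_log_iff_exp_le hη0]
    linarith
  have hv : |v| ≤ sl N / 4 - 1 := by linarith
  have k4 := sum_or E (fun f => om f) (fun f _ => om_nonneg f)
    (fun f => exp (-(ll N / 2) + v * sl N) < ‖bv f 0‖)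
    (fun f => v - 2 * η < P f / sl N)
    (fun f => exp (-(ll N / 2) + P f + η * sl N) < |SYf N (W388.lamf f)|) (fun f hf hbv => by
      by_contra hcon
      push Not at hcon
      obtain ⟨c1, c2⟩ := hcon
      have e1 := h3 hp f 1 (hE1 f hf)
      rw [div_le_iff₀ hsl] at c1
      have e2 : exp (-(ll N / 2) + P f + η * sl N) ≤ exp (-(ll N / 2) + v * sl N) / 4 := by
        rw [le_div_iff₀ (by norm_num), ← Real.exp_log (show (0 : ℝ) < 4 by norm_num), ← Real.exp_add]
        apply exp_le_exp.2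
        linarith
      have e3 : exp (-5 * ll N) ≤ exp (-(ll N / 2) + v * sl N) / 4 := by
        rw [le_div_iff₀ (by norm_num), ← Real.exp_log (show (0 : ℝ) < 4 by norm_num), ← Real.exp_add]
        apply exp_le_exp.2
        have h8 : log 4 ≤ 2 := by
          have : log 4 = 2 * log 2 := by
            rw [show (4 : ℝ) = 2 ^ 2 by norm_num, Real.log_pow]
            push_cast; ring
          rw [this]
          have := Real.log_two_lt_d9
          linarith
        have h9 : -(sl N ^ 2) ≤ v * sl N := by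
          have := (abs_le.1 hv).1
          nlinarith
        rw [hll]
        nlinarith
      linarith)
  calc ∑ f ∈ E with exp (-(ll N / 2) + v * sl N) < ‖bv f 0‖, om f ≤ _ := k4
    _ ≤ ((1 / 2) * GT (v - 2 * η) + η) + η := add_le_add k1 (k2.trans k3)
    _ ≤ _ := by
        have : GT (v - 2 * η) ≤ GT v + 2 * η := hGs
        linarith

/-- natural count -/
theorem clt_card : ∃ C : ℝ, 0 ≤ C ∧ ∀ v ε : ℝ, 0 < ε → ∀ᶠ N : ℕ in atTop, N.Prime →
    ∀ [NeZero N] (E : Finset (SF N 2)), IsNewSet N 2 E → (∀ f ∈ E, W388.IsNewf N 2 f 1) →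
    ((E.filter fun f => exp (-(ll N / 2) + v * sl N) < ‖bv f 0‖).card : ℝ) ≤
      (C * Real.sqrt (GT v) + ε) * N := by
  obtain ⟨C, hC0, hC⟩ := count_sq
  refine ⟨Real.sqrt C, Real.sqrt_nonneg _, fun v ε hε => ?_⟩
  set η : ℝ := ε ^ 2 / (C + 1) with hη
  have hη0 : 0 < η := by positivity
  filter_upwards [clt_L v hη0] with N h1 hp _ E hE hE1
  have k1 := h1 hp E hE hE1
  have k2 := hC N hp _ (IsNewSet.sub hE (Finset.filter_subset (fun f => exp (-(ll N / 2) + v * sl N) < ‖bv f 0‖) E))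
  have hN0 : (0 : ℝ) < N := by exact_mod_cast hp.pos
  set Z : ℝ := ((E.filter fun f => exp (-(ll N / 2) + v * sl N) < ‖bv f 0‖).card : ℝ) with hZ
  have hG := GT_nonneg v
  have k3 : Z ^ 2 ≤ (C * GT v + ε ^ 2) * (N : ℝ) ^ 2 := by
    refine k2.trans ?_
    have h3 : C * (N : ℝ) ^ 2 * ∑ f ∈ E with exp (-(ll N / 2) + v * sl N) < ‖bv f 0‖, om f ≤
        C * (N : ℝ) ^ 2 * ((1 / 2) * GT v + η) := mul_le_mul_of_nonneg_left k1 (by positivity)
    refine h3.trans ?_
    have h4 : C * η ≤ ε ^ 2 := by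
      rw [hη, mul_div_assoc', div_le_iff₀ (by positivity)]
      nlinarith [sq_nonneg ε]
    have h5 : C * ((1 / 2) * GT v + η) ≤ C * GT v + ε ^ 2 := by
      have : 0 ≤ C * GT v := by positivity
      linarith
    calc C * (N : ℝ) ^ 2 * ((1 / 2) * GT v + η) = (C * ((1 / 2) * GT v + η)) * (N : ℝ) ^ 2 := by ring
      _ ≤ _ := mul_le_mul_of_nonneg_right h5 (by positivity)
  have k4 : (C * GT v + ε ^ 2) ≤ (Real.sqrt C * Real.sqrt (GT v) + ε) ^ 2 := by
    have h3 : Real.sqrt C ^ 2 = C := Real.sq_sqrt hC0.le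
    have h4 : Real.sqrt (GT v) ^ 2 = GT v := Real.sq_sqrt hG
    have h5 : 0 ≤ Real.sqrt C * Real.sqrt (GT v) * ε := by positivity
    calc C * GT v + ε ^ 2 = Real.sqrt C ^ 2 * Real.sqrt (GT v) ^ 2 + ε ^ 2 := by rw [h3, h4]
      _ ≤ _ := by nlinarith
  have k5 : Z ^ 2 ≤ ((Real.sqrt C * Real.sqrt (GT v) + ε) * N) ^ 2 := by
    rw [mul_pow]
    exact k3.trans (mul_le_mul_of_nonneg_right k4 (by positivity))
  exact (abs_le_of_sq_le_sq' k5 (by positivity)).2

end Pool.Agent.H485.CC
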