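import Pool.Agent.H485.CC.Mel

/-!
# Sums of uniformly distributed variables
-/

set_option autoImplicit false
set_option maxHeartbeats 4000000

open MeasureTheory Real Finset

namespace Pool.Agent.H485.CC

/-- the uniform distribution on `[-h, h]` -/
noncomputable def un (h : ℝ) : Measure ℝ :=
  ENNReal.ofReal (1 / (2 * h)) • volume.restrict (Set.Icc (-h) h)

lemma un_prob {h : ℝ} (hh : 0 < h) : IsProbabilityMeasure (un h) := by
  constructor
  unfold un
  rw [Measure.smul_apply, Measure.restrict_apply_univ, Real.volume_Icc, smul_eq_mul,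
    ← ENNReal.ofReal_mul (by positivity)]
  rw [show 1 / (2 * h) * (h - -h) = 1 by field_simp; ring, ENNReal.ofReal_one]

lemma un_ae {h : ℝ} : ∀ᵐ u ∂(un h), |u| ≤ h := by
  unfold un
  apply Measure.ae_smul_measure
  filter_upwards [ae_restrict_mem measurableSet_Icc] with u hu
  exact abs_le.2 hu

lemma un_neg (h : ℝ) : MeasurePreserving (fun u : ℝ => -u) (un h) (un h) := by
  unfold un
  have h1 := (Measure.measurePreserving_neg (volume : Measure ℝ)).restrict_preimage
    (measurableSet_Icc (a := -h) (b := h))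
  have h2 : (Neg.neg : ℝ → ℝ) ⁻¹' Set.Icc (-h) h = Set.Icc (-h) h := by
    ext u
    simp only [Set.mem_preimage, Set.mem_Icc]
    constructor <;> rintro ⟨h1, h2⟩ <;> constructor <;> linarith
  rw [h2] at h1
  exact h1.smul_measure _

lemma un_int {h : ℝ} (hh : 0 < h) (g : ℝ → ℂ) :
    ∫ u, g u ∂(un h) = ((1 / (2 * h) : ℝ) : ℂ) * ∫ u in (-h)..h, g u := by
  unfold un
  rw [integral_smul_measure, ENNReal.toReal_ofReal (by positivity), integral_Icc_eq_integral_Ioc,
    ← intervalIntegral.integral_of_le (by linarith), Complex.real_smul]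

lemma un_bound {h : ℝ} (hh : 0 < h) {s : ℂ} (hs0 : 0 ≤ s.re) :
    ‖∫ u, Complex.exp (-(s * (u : ℝ))) ∂(un h)‖ ≤ exp (s.re * h) ∧
    (s ≠ 0 → ‖∫ u, Complex.exp (-(s * (u : ℝ))) ∂(un h)‖ ≤ exp (s.re * h) * (1 / h / ‖s‖)) := by
  haveI := un_prob hh
  constructor
  · calc ‖∫ u, Complex.exp (-(s * (u : ℝ))) ∂(un h)‖ ≤ ∫ _, exp (s.re * h) ∂(un h) := by
          refine norm_integral_le_of_norm_le (integrable_const _) ?_
          filter_upwards [un_ae] with u hu
          rw [Complex.norm_exp]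
          apply exp_le_exp.2
          have h1 : (-(s * (u : ℝ))).re = -(s.re * u) := by simp
          rw [h1]
          have h2 := (abs_le.1 hu).1
          nlinarith
      _ = _ := by simp
  · intro hs
    rw [un_int hh]
    have h1 : ∫ u in (-h)..h, Complex.exp (-(s * (u : ℝ))) =
        (Complex.exp (-s * h) - Complex.exp (-s * (-h : ℝ))) / (-s) := by
      rw [← integral_exp_mul_complex (neg_ne_zero.2 hs)]
      congr 1
      ext u
      rw [neg_mul]
    rw [h1, norm_mul, norm_div, norm_neg, Complex.norm_real, Real.norm_eq_abs,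
      abs_of_pos (by positivity)]
    have hsn : 0 < ‖s‖ := norm_pos_iff.2 hs
    have h2 : ‖Complex.exp (-s * h)‖ ≤ exp (s.re * h) := by
      rw [Complex.norm_exp]
      apply exp_le_exp.2
      have : (-s * (h : ℂ)).re = -(s.re * h) := by simp
      rw [this]
      nlinarith
    have h3 : ‖Complex.exp (-s * (-h : ℝ))‖ ≤ exp (s.re * h) := by
      rw [Complex.norm_exp]
      apply exp_le_exp.2
      have : (-s * ((-h : ℝ) : ℂ)).re = s.re * h := by simp
      rw [this]
    have h4 := norm_sub_le (Complex.exp (-s * h)) (Complex.exp (-s * (-h : ℝ)))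
    calc 1 / (2 * h) * (‖Complex.exp (-s * h) - Complex.exp (-s * (-h : ℝ))‖ / ‖s‖) ≤
        1 / (2 * h) * ((2 * exp (s.re * h)) / ‖s‖) := by
          gcongr
          linarith
      _ = _ := by field_simp

/-- the product of `m` uniform distributions -/
noncomputable def nu (m : ℕ) (h : ℝ) : Measure (Fin m → ℝ) := Measure.pi fun _ => un h

/-- the sum -/
noncomputable def Zs (m : ℕ) (u : Fin m → ℝ) : ℝ := ∑ i, u i

lemma nu_prob (m : ℕ) {h : ℝ} (hh : 0 < h) : IsProbabilityMeasure (nu m h) := by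
  haveI := un_prob hh
  unfold nu
  infer_instance

lemma Zs_meas (m : ℕ) : Measurable (Zs m) := by
  unfold Zs
  fun_prop

lemma Zs_ae (m : ℕ) {h : ℝ} (hh : 0 < h) : ∀ᵐ u ∂(nu m h), |Zs m u| ≤ m * h := by
  haveI := un_prob hh
  have h1 : ∀ i : Fin m, ∀ᵐ u ∂(nu m h), |u i| ≤ h := by
    intro i
    have := (measurePreserving_eval (fun _ : Fin m => un h) i).quasiMeasurePreserving.ae
      (un_ae (h := h))
    exact this
  have h2 := ae_all_iff.2 h1
  filter_upwards [h2] with u hu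
  unfold Zs
  calc |∑ i, u i| ≤ ∑ i, |u i| := Finset.abs_sum_le_sum_abs _ _
    _ ≤ ∑ _i : Fin m, h := Finset.sum_le_sum fun i _ => hu i
    _ = m * h := by simp

lemma Zs_neg (m : ℕ) {h : ℝ} (hh : 0 < h) (F : ℝ → ℝ) (hF : Measurable F) :
    ∫ u, F (-(Zs m u)) ∂(nu m h) = ∫ u, F (Zs m u) ∂(nu m h) := by
  haveI := un_prob hh
  have h1 : MeasurePreserving (fun (u : Fin m → ℝ) i => -(u i)) (nu m h) (nu m h) :=
    measurePreserving_pi (fun _ : Fin m => un h) (fun _ : Fin m => un h) (fun _ => un_neg h)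
  have h2 := h1.integral_comp' (f := MeasurableEquiv.neg (Fin m → ℝ)) (g := fun u => F (Zs m u))
  rw [← h2]
  congr 1
  ext u
  congr 1
  unfold Zs
  simp [MeasurableEquiv.neg]

lemma Gw_eq (m : ℕ) {h : ℝ} (hh : 0 < h) (s : ℂ) :
    Gw (nu m h) (Zs m) s = (∫ u, Complex.exp (-(s * (u : ℝ))) ∂(un h)) ^ m := by
  haveI := un_prob hh
  unfold Gw nu
  have h1 := integral_fintype_prod_eq_prod (𝕜 := ℂ) (μ := fun _ : Fin m => un h)
    (f := fun (_ : Fin m) (u : ℝ) => Complex.exp (-(s * (u : ℝ))))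
  rw [Finset.prod_const, Finset.card_univ, Fintype.card_fin] at h1
  rw [← h1]
  congr 1
  ext u
  rw [← Complex.exp_sum]
  congr 1
  unfold Zs
  push_cast
  rw [Finset.mul_sum, Finset.sum_neg_distrib]

/-- the comparison function -/
noncomputable def ph (a τ : ℝ) : ℝ := (1 + (τ / a) ^ 2)⁻¹

lemma ph_pos (a τ : ℝ) : 0 < ph a τ := by unfold ph; positivity

lemma ph_integrable {a : ℝ} (ha : 0 < a) : Integrable (ph a) := by
  unfold ph
  exact integrable_inv_one_add_sq.comp_div ha.ne'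

lemma ph_integral {a : ℝ} (ha : 0 < a) : ∫ τ, ph a τ = π * a := by
  unfold ph
  have := integral_univ_inv_one_add_sq
  rw [Measure.integral_comp_div (fun x : ℝ => (1 + x ^ 2)⁻¹) a, this, abs_of_pos ha, smul_eq_mul]
  ring

theorem Gw_bound {m : ℕ} (hm : 2 ≤ m) {h σ : ℝ} (hh : 0 < h) (hσ0 : 0 < σ) (hσ : m * (σ * h) ≤ 1)
    (τ : ℝ) : ‖Gw (nu m h) (Zs m) (σ + τ * Complex.I)‖ ≤ 27 * ph (1 / h) τ ∧
    (exp 1 * (1 / h) < |τ| → ‖Gw (nu m h) (Zs m) (σ + τ * Complex.I)‖ ≤
      45 * exp (-(m : ℝ)) * ph (1 / h) τ) := by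
  set s : ℂ := σ + τ * Complex.I with hs
  have hre : s.re = σ := by simp [hs]
  have him : s.im = τ := by simp [hs]
  have hs0 : s ≠ 0 := by
    intro h0
    rw [h0] at hre
    simp at hre
    linarith
  obtain ⟨b1, b2⟩ := un_bound hh (s := s) (by rw [hre]; exact hσ0.le)
  have b2 := b2 hs0
  rw [hre] at b1 b2
  set g : ℂ := ∫ u, Complex.exp (-(s * (u : ℝ))) ∂(un h) with hg
  rw [Gw_eq m hh, norm_pow]
  have he : exp (σ * h) ^ m ≤ exp 1 := by
    rw [← Real.exp_nat_mul]
    exact exp_le_exp.2 hσ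
  have he3 : exp 1 ≤ 2.7182818286 := Real.exp_one_lt_d9.le
  have he2 : 2.7182818283 < exp 1 := Real.exp_one_gt_d9
  set a : ℝ := 1 / h with ha
  have ha0 : 0 < a := by positivity
  have c1 : ‖g‖ ^ m ≤ exp 1 := (pow_le_pow_left₀ (norm_nonneg _) b1 m).trans he
  have hτs : |τ| ≤ ‖s‖ := by rw [← him]; exact Complex.abs_im_le_norm s
  have hfar : exp 1 * a < |τ| → ‖g‖ ^ m ≤ 45 * exp (-(m : ℝ)) * ph a τ := by
    intro hτ
    have hτ0 : 0 < |τ| := lt_trans (by positivity) hτ
    have d1 : ‖g‖ ≤ exp (σ * h) * (a / |τ|) := by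
      refine b2.trans ?_
      gcongr
    have d2 : ‖g‖ ^ m ≤ exp 1 * (a / |τ|) ^ m := by
      calc ‖g‖ ^ m ≤ (exp (σ * h) * (a / |τ|)) ^ m := pow_le_pow_left₀ (norm_nonneg _) d1 m
        _ = exp (σ * h) ^ m * (a / |τ|) ^ m := mul_pow _ _ _
        _ ≤ _ := mul_le_mul_of_nonneg_right he (by positivity)
    obtain ⟨k, rfl⟩ : ∃ k, m = k + 2 := ⟨m - 2, by omega⟩
    have d3 : a / |τ| ≤ exp (-1) := by
      rw [div_le_iff₀ hτ0, Real.exp_neg]
      have : exp 1 * a ≤ |τ| := hτ.le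
      rw [inv_mul_eq_div, le_div_iff₀ (exp_pos 1)]
      linarith
    have d4 : (a / |τ|) ^ (k + 2) ≤ exp (-(k : ℝ)) * (a / |τ|) ^ 2 := by
      rw [pow_add]
      refine mul_le_mul_of_nonneg_right ?_ (by positivity)
      calc (a / |τ|) ^ k ≤ exp (-1) ^ k := pow_le_pow_left₀ (by positivity) d3 k
        _ = exp (-(k : ℝ)) := by rw [← Real.exp_nat_mul]; ring_nf
    have d5 : (a / |τ|) ^ 2 ≤ 2 * ph a τ := by
      unfold ph
      have e1 : 1 ≤ (τ / a) ^ 2 := by
        rw [← sq_abs, abs_div, abs_of_pos ha0]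
        have : 1 ≤ |τ| / a := by
          rw [le_div_iff₀ ha0]
          nlinarith
        exact one_le_pow₀ this
      have e2 : (a / |τ|) ^ 2 = ((τ / a) ^ 2)⁻¹ := by
        clear_value a
        rw [div_pow, div_pow, sq_abs, inv_div]
      rw [e2]
      have e3 : 0 < (τ / a) ^ 2 := by linarith
      rw [← one_div, ← div_eq_mul_inv, div_le_div_iff₀ e3 (by linarith)]
      linarith
    calc ‖g‖ ^ (k + 2) ≤ exp 1 * (exp (-(k : ℝ)) * (2 * ph a τ)) := by
          refine d2.trans (mul_le_mul_of_nonneg_left (d4.trans ?_) (exp_pos _).le)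
          exact mul_le_mul_of_nonneg_left d5 (exp_pos _).le
      _ = (2 * (exp 1 * exp (-(k : ℝ)))) * ph a τ := by ring
      _ ≤ _ := by
        refine mul_le_mul_of_nonneg_right ?_ (ph_pos _ _).le
        have e4 : exp (-((k + 2 : ℕ) : ℝ)) = exp (-(k : ℝ)) * (exp 1 ^ 2)⁻¹ := by
          rw [← Real.exp_nat_mul, ← Real.exp_neg, ← Real.exp_add]
          push_cast
          ring_nf
        rw [e4]
        have e5 : exp 1 ^ 2 ≤ 7.4 := by nlinarith
        have e6 : 0 < exp 1 ^ 2 := by positivity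
        have e7 : (2 : ℝ) * exp 1 ≤ 45 * (exp 1 ^ 2)⁻¹ := by
          rw [← div_eq_mul_inv, le_div_iff₀ e6]
          nlinarith
        have := mul_le_mul_of_nonneg_right e7 (exp_pos (-(k : ℝ))).le
        linarith
  refine ⟨?_, hfar⟩
  by_cases hτ : |τ| ≤ exp 1 * a
  · refine c1.trans ?_
    unfold ph
    have e1 : (τ / a) ^ 2 ≤ exp 1 ^ 2 := by
      rw [← sq_abs, abs_div, abs_of_pos ha0]
      apply pow_le_pow_left₀ (by positivity)
      rw [div_le_iff₀ ha0]
      exact hτ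
    have e2 : exp 1 ^ 2 ≤ 7.4 := by nlinarith
    rw [← div_eq_mul_inv, le_div_iff₀ (by positivity)]
    nlinarith [sq_nonneg (τ / a)]
  · push Not at hτ
    refine (hfar hτ).trans ?_
    refine mul_le_mul_of_nonneg_right ?_ (ph_pos _ _).le
    have e1 : exp (-(m : ℝ)) ≤ exp (-1) := by
      apply exp_le_exp.2
      have : (2 : ℝ) ≤ m := by exact_mod_cast hm
      linarith
    have e2 : exp (-1) ≤ 0.4 := by
      rw [Real.exp_neg, inv_le_comm₀ (exp_pos _) (by norm_num)]
      norm_num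
      linarith
    linarith

end Pool.Agent.H485.CC
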