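import Pool.Agent.H485.CC.Pf10

/-!
# The total harmonic weight: a power saving
-/

set_option autoImplicit false
set_option maxHeartbeats 4000000

open Filter Topology Real

namespace Pool.Agent.H485.CC

open W388.LV (SF om IsNewSet)

variable {N : ℕ} [NeZero N]

/-- the total weight is at least `1 - δ`, where `δ` may depend on the level -/
theorem mass_low2 : ∀ᶠ N : ℕ in atTop, N.Prime → ∀ [NeZero N]
    (B : Finset (SF N 2)), W388.LV.IsNewBasis N 2 B → ∀ δ : ℝ, 0 < δ →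
    log (N : ℝ) ≤ min (δ / (8 * exp (4 * π))) (δ ^ 2 / (32 * exp (4 * π))) / 4 * (N : ℝ) ^ (1 / 60 : ℝ) →
    1 - δ ≤ Wt B := by
  set Ce : ℝ := exp (4 * π) with hCe
  have hCe0 : 0 < Ce := exp_pos _
  have hY : Tendsto (fun N : ℕ => (N : ℝ) ^ (1 / 60 : ℝ)) atTop atTop :=
    (tendsto_rpow_atTop (by norm_num)).comp tendsto_natCast_atTop_atTop
  have hPt : Tendsto (fun N : ℕ => ⌊(N : ℝ) / (N : ℝ) ^ (1 / 60 : ℝ)⌋₊) atTop atTop := by
    refine tendsto_nat_floor_atTop.comp ?_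
    have h1 : Tendsto (fun N : ℕ => (N : ℝ) ^ (59 / 60 : ℝ)) atTop atTop :=
      (tendsto_rpow_atTop (by norm_num)).comp tendsto_natCast_atTop_atTop
    refine h1.congr' ?_
    filter_upwards [eventually_gt_atTop 0] with N hN
    have hN0 : (0 : ℝ) < N := by exact_mod_cast hN
    nth_rewrite 2 [← Real.rpow_one (N : ℝ)]
    rw [← Real.rpow_sub hN0]
    norm_num
  filter_upwards [hY.eventually_ge_atTop 2,
    hPt.eventually pi_lower, eventually_ge_atTop 20] with N hN1 hN3 hN4 hN _ B hB δ hδ hN2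
  set q0 : ℝ := min (δ / (8 * Ce)) (δ ^ 2 / (32 * Ce)) with hq0
  have hq00 : 0 < q0 := by positivity
  have hBs : IsNewSet N 2 B := ⟨hB.newf, hB.orth⟩
  have hN20 : (20 : ℝ) ≤ N := by exact_mod_cast hN4
  have hN0 : (0 : ℝ) < N := by linarith
  set Y : ℝ := (N : ℝ) ^ (1 / 60 : ℝ) with hYd
  have hY0 : 0 < Y := by linarith
  have hNY : (N : ℝ) = Y ^ 60 := by
    rw [hYd, ← Real.rpow_natCast, ← Real.rpow_mul hN0.le]
    norm_num
  set r : ℝ := 2 * log Y with hr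
  have hr0 : 0 < r := by
    have := Real.log_pos (show 1 < Y by linarith)
    positivity
  have her : exp r = Y ^ 2 := by
    rw [hr, ← Real.exp_log hY0, ← Real.exp_nat_mul]
    rw [Real.exp_log hY0]
    push_cast
    rfl
  have her3 : exp (3 * r) = Y ^ 6 := by
    have : exp (3 * r) = exp r ^ 3 := by rw [← Real.exp_nat_mul]; push_cast; rfl
    rw [this, her]
    ring
  set K : ℕ := ⌈5 * Y * exp (3 * r)⌉₊ with hK
  have hK1 : 5 * Y * exp (3 * r) ≤ K := Nat.le_ceil _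
  have hY7 : 128 ≤ Y ^ 7 := by
    calc (128 : ℝ) = 2 ^ 7 := by norm_num
      _ ≤ Y ^ 7 := pow_le_pow_left₀ (by norm_num) hN1 7
  have hK2 : (K : ℝ) ≤ 6 * Y ^ 7 := by
    have h1 := Nat.ceil_lt_add_one (show 0 ≤ 5 * Y * exp (3 * r) by positivity)
    rw [← hK] at h1
    rw [her3] at h1
    nlinarith
  have hY53 : 128 ≤ Y ^ 53 := by
    calc (128 : ℝ) ≤ 2 ^ 53 := by norm_num
      _ ≤ Y ^ 53 := pow_le_pow_left₀ (by norm_num) hN1 53
  have hKN : 2 * K < N := by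
    have : (2 : ℝ) * K < N := by
      rw [hNY]
      have : Y ^ 60 = Y ^ 7 * Y ^ 53 := by ring
      rw [this]
      nlinarith
    exact_mod_cast this
  obtain ⟨-, d2, -⟩ := Pool.Agent.K4H13.CV.dimS Pool.Agent.K4H13.CV.hyp hN (by omega) hB
  have hcard : (N : ℝ) ≤ 12 * B.card + 13 := by exact_mod_cast d2
  set P : ℕ := ⌊(N : ℝ) / Y⌋₊ with hP
  have hP1 : (P : ℝ) ≤ N / Y := Nat.floor_le (by positivity)
  have hP2 : (N : ℝ) / Y < P + 1 := Nat.lt_floor_add_one _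
  have hPY : (P : ℝ) * Y ≤ N := by
    rwa [le_div_iff₀ hY0] at hP1
  have hNdY : 2 ≤ (N : ℝ) / Y := by
    rw [le_div_iff₀ hY0, hNY]
    have : Y ^ 60 = Y * Y ^ 59 := by ring
    rw [this]
    have : (2 : ℝ) ≤ Y ^ 59 := by
      calc (2 : ℝ) ≤ 2 ^ 59 := by norm_num
        _ ≤ Y ^ 59 := pow_le_pow_left₀ (by norm_num) hN1 59
    nlinarith
  have hP3 : (N : ℝ) / Y / 2 ≤ P := by linarith
  have hPge : 1 ≤ P := by
    have : (0 : ℝ) < P := by linarith
    exact_mod_cast this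
  have hPN : P < N := by
    have : (P : ℝ) < N := by
      have hp : (1 : ℝ) ≤ P := by exact_mod_cast hPge
      nlinarith
    exact_mod_cast this
  have hcore := mass_core hN hBs hcard hN1 hr0 hK1 hKN (pr P) (fun n hn => by
    have h1 := mem_pr.1 hn
    refine ⟨h1.2.one_le, ?_⟩
    have : (n : ℝ) ≤ P := by exact_mod_cast h1.1
    nlinarith)
  have hρ := rho2_le hN1 her
  -- bound for the defect
  have hdef : N / (4 * π * (Y - 1)) - N / (4 * π * Y) + (1 / rho2 r - 1) * (((N : ℝ) + 1) / 12) + 14 / 12 +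
        10 * (3 * (2 * K + 1) ^ 4 + 1) * (π / 3) ≤ 4 * (N / Y ^ 2) := by
    have hpi3 := Real.pi_gt_three
    have hpi4 := Real.pi_lt_four
    have e1 : N / (4 * π * (Y - 1)) - N / (4 * π * Y) ≤ (N : ℝ) / Y ^ 2 := by
      have hY1 : 0 < Y - 1 := by linarith
      have : N / (4 * π * (Y - 1)) - N / (4 * π * Y) = (N : ℝ) / (4 * π * (Y - 1) * Y) := by
        field_simp
        ring
      rw [this]
      apply div_le_div_of_nonneg_left hN0.le (by positivity)
      nlinarith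
    have e2 : (1 / rho2 r - 1) * (((N : ℝ) + 1) / 12) ≤ 2 * (N / Y ^ 2) := by
      calc (1 / rho2 r - 1) * (((N : ℝ) + 1) / 12) ≤ (8 / Y ^ 2) * ((2 * N) / 12) := by
            refine mul_le_mul hρ (by linarith) (by positivity) (by positivity)
        _ = (16 / 12) * (N / Y ^ 2) := by ring
        _ ≤ _ := by
          have : (0 : ℝ) ≤ N / Y ^ 2 := by positivity
          linarith
    have e3 : 14 / 12 + 10 * (3 * (2 * (K : ℝ) + 1) ^ 4 + 1) * (π / 3) ≤ N / Y ^ 2 := by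
      have f1 : 2 * (K : ℝ) + 1 ≤ 13 * Y ^ 7 := by linarith
      have f2 : (2 * (K : ℝ) + 1) ^ 4 ≤ 28561 * Y ^ 28 := by
        calc (2 * (K : ℝ) + 1) ^ 4 ≤ (13 * Y ^ 7) ^ 4 := pow_le_pow_left₀ (by positivity) f1 4
          _ = _ := by ring
      have f3 : (N : ℝ) / Y ^ 2 = Y ^ 30 * Y ^ 28 := by
        rw [hNY]
        field_simp
      have f4 : (10 : ℝ) ^ 9 ≤ Y ^ 30 := by
        calc (10 : ℝ) ^ 9 ≤ 2 ^ 30 := by norm_num
          _ ≤ Y ^ 30 := pow_le_pow_left₀ (by norm_num) hN1 30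
      have f5 : 1 ≤ Y ^ 28 := one_le_pow₀ (by linarith)
      rw [f3]
      have f6 : 10 * (3 * (2 * (K : ℝ) + 1) ^ 4 + 1) * (π / 3) ≤
          10 * (3 * (28561 * Y ^ 28) + 1) * (4 / 3) := by
        refine mul_le_mul ?_ (by linarith) (by positivity) (by positivity)
        linarith
      have f7 : (10 : ℝ) ^ 9 * Y ^ 28 ≤ Y ^ 30 * Y ^ 28 := mul_le_mul_of_nonneg_right f4 (by positivity)
      linarith
    linarith
  have hA : ∑ n ∈ pr P, (1 - DB B n) ≤ Ce * (4 * (N / Y ^ 2)) := by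
    have h1 := hcore.trans hdef
    have h2 := mul_le_mul_of_nonneg_left h1 hCe0.le
    rw [← mul_assoc, hCe, ← Real.exp_add, add_neg_cancel, Real.exp_zero, one_mul] at h2
    exact h2
  have hW := Wt_le hN hBs
  have hW2 : Wt B ≤ 2 := by
    refine hW.trans ?_
    have h1 : 4 * π / N ≤ 0.65 := by
      rw [div_le_iff₀ hN0]
      have := Real.pi_lt_d2
      linarith
    have h2 : exp (0.65 : ℝ) ≤ 2 := by
      have h3 := Real.exp_one_lt_d9
      have h4 : exp (0.65 : ℝ) ^ 20 ≤ 2 ^ 20 := by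
        rw [← Real.exp_nat_mul]
        have : ((20 : ℕ) : ℝ) * 0.65 = ((13 : ℕ) : ℝ) * 1 := by norm_num
        rw [this, Real.exp_nat_mul]
        calc exp 1 ^ 13 ≤ 2.7182818286 ^ 13 := pow_le_pow_left₀ (exp_pos _).le h3.le 13
          _ ≤ 2 ^ 20 := by norm_num
      exact le_of_pow_le_pow_left₀ (by norm_num) (by norm_num) h4
    exact (exp_le_exp.2 h1).trans h2
  have hW0 : 0 ≤ Wt B := Finset.sum_nonneg fun f _ => om_nonneg f
  have hsq := sq_moment hN hBs hPN hPge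
  set s : ℝ := ((pr P).card : ℝ) with hs
  -- the number of primes
  have hlogP : log (P : ℝ) ≤ log N := Real.log_le_log (by exact_mod_cast hPge) (by exact_mod_cast hPN.le)
  have hlN : 0 < log (N : ℝ) := Real.log_pos (by linarith)
  have hP2' : (2 : ℝ) ≤ P ∨ P = 1 := by
    rcases Nat.lt_or_ge P 2 with h | h
    · right; omega
    · left; exact_mod_cast h
  have hs1 : N / (4 * Y * log N) ≤ s := by
    have hlogPp : 0 < log (P : ℝ) := by
      have : (2 : ℝ) ≤ P := by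
        have h3 : (4 : ℝ) ≤ N / Y := by
          rw [le_div_iff₀ hY0, hNY]
          have : Y ^ 60 = Y * Y ^ 59 := by ring
          rw [this]
          have : (4 : ℝ) ≤ Y ^ 59 := by
            calc (4 : ℝ) ≤ 2 ^ 59 := by norm_num
              _ ≤ Y ^ 59 := pow_le_pow_left₀ (by norm_num) hN1 59
          nlinarith
        linarith
      exact Real.log_pos (by linarith)
    refine le_trans ?_ hN3
    calc N / (4 * Y * log N) = (N / Y / 2) / (2 * log N) := by field_simp; ring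
      _ ≤ P / (2 * log N) := div_le_div_of_nonneg_right hP3 (by positivity)
      _ ≤ P / (2 * log P) := div_le_div_of_nonneg_left (Nat.cast_nonneg P) (by positivity) (by linarith)
  have hs0 : 0 < s := lt_of_lt_of_le (div_pos hN0 (mul_pos (mul_pos (by norm_num) hY0) hlN)) hs1
  have hM0 : 0 ≤ (N : ℝ) / Y ^ 2 := div_nonneg hN0.le (sq_nonneg Y)
  have hM1 : (N : ℝ) / Y ^ 2 ≤ q0 * s := by
    have h1 : log N ≤ q0 / 4 * Y := hN2
    exact qs_lem hN0 hY0 hlN hq00 h1 hs1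
  have h7 : 1 + 3 * (P : ℝ) ^ 2 / N ≤ 4 * (N / Y ^ 2) := by
    have g3 : 1 ≤ (N : ℝ) / Y ^ 2 := by
      rw [le_div_iff₀ (pow_pos hY0 2), hNY, one_mul]
      exact pow_le_pow_right₀ (by linarith) (by norm_num)
    exact px_lem hN0 hY0 (Nat.cast_nonneg P) hP1 g3
  have h5 : ∑ n ∈ pr P, (1 - DB B n) = s - ∑ n ∈ pr P, DB B n := by
    rw [Finset.sum_sub_distrib, Finset.sum_const, nsmul_eq_mul, mul_one]
  rw [h5] at hA
  exact mass_alg hδ hCe0 hs0 hW0 hW2 hM0 hM1 (min_le_left _ _) (min_le_right _ _) hA (abs_le.1 hsq).2 h7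

/-- the total weight is at least `1 - N^(-1/200)` -/
theorem mass_low3 : ∀ᶠ N : ℕ in atTop, N.Prime → ∀ [NeZero N]
    (B : Finset (SF N 2)), W388.LV.IsNewBasis N 2 B → 1 - (N : ℝ) ^ (-(1 / 200) : ℝ) ≤ Wt B := by
  have hq : Tendsto (fun N : ℕ => log (N : ℝ) / (N : ℝ) ^ (1 / 150 : ℝ)) atTop (𝓝 0) :=
    (isLittleO_log_rpow_atTop (by norm_num : (0 : ℝ) < 1 / 150)).tendsto_div_nhds_zero.comp
      tendsto_natCast_atTop_atTop
  have hc : (0 : ℝ) < 1 / (128 * exp (4 * π)) := by positivity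
  filter_upwards [mass_low2, hq.eventually (ge_mem_nhds hc), eventually_ge_atTop 1] with N h1 h2 h3 hN _ B hB
  have hN1 : (1 : ℝ) ≤ N := by exact_mod_cast h3
  have hN0 : (0 : ℝ) < N := by linarith
  set δ : ℝ := (N : ℝ) ^ (-(1 / 200) : ℝ) with hδ
  have hδ0 : 0 < δ := Real.rpow_pos_of_pos hN0 _
  have hδ1 : δ ≤ 1 := Real.rpow_le_one_of_one_le_of_nonpos hN1 (by norm_num)
  refine h1 hN B hB δ hδ0 ?_
  have hE : 0 < exp (4 * π) := exp_pos _
  have e1 : δ ^ 2 / (32 * exp (4 * π)) ≤ δ / (8 * exp (4 * π)) := by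
    rw [div_le_div_iff₀ (by positivity) (by positivity)]
    have h4 : δ ^ 2 ≤ δ := by nlinarith
    nlinarith [mul_le_mul_of_nonneg_right h4 hE.le, mul_pos hδ0 hE]
  rw [min_eq_right e1]
  have e2 : δ ^ 2 * (N : ℝ) ^ (1 / 60 : ℝ) = (N : ℝ) ^ (1 / 150 : ℝ) := by
    rw [hδ, ← Real.rpow_natCast, ← Real.rpow_mul hN0.le, ← Real.rpow_add hN0]
    norm_num
  have e3 : δ ^ 2 / (32 * exp (4 * π)) / 4 * (N : ℝ) ^ (1 / 60 : ℝ) =
      1 / (128 * exp (4 * π)) * (N : ℝ) ^ (1 / 150 : ℝ) := by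
    rw [← e2]
    field_simp
    norm_num
  rw [e3]
  rwa [div_le_iff₀ (by positivity)] at h2

end Pool.Agent.H485.CC
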