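import Pool.Agent.H485.CC.Nc1
import Pool.Agent.H485.CC.Clt5

/-!
# A positive proportion in the natural count
-/

set_option autoImplicit false
set_option maxHeartbeats 1000000

open Real Finset Filter

namespace Pool.Agent.H485.CC

open W388.LV (SF om IsNewSet pet)
open Pool.Agent.Y18.BSD Pool.Agent.K4H13.CV

/-- the harmonic weights are not concentrated -/
theorem om_tail (δ : ℝ) (hδ : 0 < δ) : ∃ K : ℝ, 0 < K ∧ ∀ᶠ N : ℕ in atTop, N.Prime → ∀ [NeZero N]
    (B : Finset (SF N 2)), IsNewSet N 2 B → ∑ f ∈ B with K / N < om f, om f ≤ δ := by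
  obtain ⟨c, hc0, hc⟩ := dens
  have hrh : 0 < 1 - rh := by linarith [rh_lt]
  set C1 : ℝ := Real.exp (4 * Real.pi) * (5 * (1 - rh)⁻¹) ^ 2 with hC1
  have hC10 : 0 < C1 := by positivity
  obtain ⟨j, hj2, hj⟩ : ∃ j : ℕ, 2 ≤ j ∧ (4 * C1 / c ^ 2) * ((j : ℝ) ^ 4 / 2 ^ j) ≤ δ := by
    have h1 := (tendsto_pow_const_div_const_pow_of_one_lt 4 (show (1 : ℝ) < 2 by norm_num)).const_mul (4 * C1 / c ^ 2)
    rw [mul_zero] at h1
    obtain ⟨j, h2, h3⟩ := ((h1.eventually (ge_mem_nhds hδ)).and (eventually_ge_atTop 2)).exists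
    exact ⟨j, h3, h2⟩
  have hj0 : (0 : ℝ) < j := by
    have : 0 < j := by omega
    exact_mod_cast this
  set ρ : ℝ := c / (j : ℝ) ^ 2 with hρ
  have hρ0 : 0 < ρ := by positivity
  set Q := (2 ^ j).factorial with hQ
  have hQ0 : 0 < Q := Nat.factorial_pos _
  refine ⟨16 * exp (4 * π) * 2 ^ j / ρ, by positivity, ?_⟩
  filter_upwards [eventually_ge_atTop (2 ^ j * Q)] with N hNQ hN _ B hB
  have hN0 : (0 : ℝ) < N := by exact_mod_cast hN.pos
  set X := N / 2 ^ j with hX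
  have hXQ : Q ≤ X := by
    rw [hX, Nat.le_div_iff_mul_le (by positivity), mul_comm]
    exact hNQ
  have hX1 : 1 ≤ X := by omega
  have hXN : X * 2 ^ j ≤ N := Nat.div_mul_le_self _ _
  have h4j : 4 ≤ 2 ^ j := by
    calc 4 = 2 ^ 2 := by norm_num
      _ ≤ 2 ^ j := Nat.pow_le_pow_right (by norm_num) hj2
  have hXlt : X < N := by nlinarith
  have hXR : (0 : ℝ) < X := by exact_mod_cast hX1
  have hNX : (N : ℝ) ≤ 2 * 2 ^ j * X := by
    have h1 := Nat.div_add_mod N (2 ^ j)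
    have h2 := Nat.mod_lt N (show 2 ^ j > 0 by positivity)
    have h3 : N ≤ 2 * (2 ^ j * X) := by
      have : 2 ^ j * 1 ≤ 2 ^ j * X := Nat.mul_le_mul_left _ hX1
      rw [hX] at this ⊢
      omega
    have h4 : (N : ℝ) ≤ ((2 * (2 ^ j * X) : ℕ) : ℝ) := by exact_mod_cast h3
    push_cast at h4
    linarith
  have hcard : (X : ℝ) * ρ ≤ (Ro j X).card := by
    refine le_trans ?_ (Ro_card hXQ)
    exact mul_le_mul_of_nonneg_left (hc j hj2) hXR.le
  set M : ℝ := ((Ro j X).card : ℝ) with hM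
  have hM0 : 0 < M := lt_of_lt_of_le (by positivity) hcard
  set R : SF N 2 → ℝ := fun f => ∑ e ∈ (Ro j X).erase 1, (cnr j X e : ℝ) * W388.lamf f (e ^ 2) with hR
  have hvar : ∑ f ∈ B, om f * R f ^ 2 ≤ C1 * (X : ℝ) ^ 2 * (1 / 2) ^ j := by
    refine (rough_var B hB j X hXN).trans (le_of_eq ?_)
    have : (rh ^ j) ^ 2 = (1 / 2) ^ j := by rw [← pow_mul, mul_comm, pow_mul, rh_sq]
    rw [hC1, mul_pow, this]
    ring
  have hche := chebM B (fun f => om f) R (fun f _ => om_nonneg f) (R := M / 2) (by positivity) hvar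
  have hsub : ∀ f ∈ B, 16 * exp (4 * π) * 2 ^ j / ρ / N < om f → M / 2 < |R f| := by
    intro f hf hlt
    by_contra hcon
    push Not at hcon
    obtain ⟨ε, hε⟩ := hB.newf f hf
    have h1 := rough_sq hN (W388.heckeSeq_lamf hε) (j := j) hXlt hX1
    have h2 : M / 2 ≤ ∑ n ∈ Ro j X, W388.lamf f n ^ 2 := by
      rw [h1]
      have := (abs_le.1 hcon).1
      show M / 2 ≤ M + R f
      linarith
    have h3 := om_sum_sq hB hf (s := Ro j X) (fun n hn => by
      have := (mem_Ro.1 hn).1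
      omega)
    have h4 : (X : ℝ) * ρ / 2 ≤ ∑ n ∈ Ro j X, W388.lamf f n ^ 2 := by linarith
    have h5 : om f * ((X : ℝ) * ρ / 2) ≤ 4 * exp (4 * π) :=
      (mul_le_mul_of_nonneg_left h4 (om_nonneg f)).trans h3
    have h6 : om f * (N * ρ) ≤ 16 * exp (4 * π) * 2 ^ j := by
      calc om f * (N * ρ) ≤ om f * ((2 * 2 ^ j * X) * ρ) :=
            mul_le_mul_of_nonneg_left (mul_le_mul_of_nonneg_right hNX hρ0.le) (om_nonneg f)
        _ = 4 * 2 ^ j * (om f * ((X : ℝ) * ρ / 2)) := by ring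
        _ ≤ 4 * 2 ^ j * (4 * exp (4 * π)) := mul_le_mul_of_nonneg_left h5 (by positivity)
        _ = _ := by ring
    rw [div_div, div_lt_iff₀ (by positivity)] at hlt
    have : om f * (ρ * N) = om f * (N * ρ) := by ring
    linarith
  calc ∑ f ∈ B with 16 * exp (4 * π) * 2 ^ j / ρ / N < om f, om f ≤ ∑ f ∈ B with M / 2 < |R f|, om f := by
        refine Finset.sum_le_sum_of_subset_of_nonneg ?_ fun f _ _ => om_nonneg f
        intro f hf
        rw [Finset.mem_filter] at hf ⊢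
        exact ⟨hf.1, hsub f hf.1 hf.2⟩
    _ ≤ C1 * (X : ℝ) ^ 2 * (1 / 2) ^ j / (M / 2) ^ 2 := hche
    _ ≤ C1 * (X : ℝ) ^ 2 * (1 / 2) ^ j / ((X : ℝ) * ρ / 2) ^ 2 := by
        apply div_le_div_of_nonneg_left (by positivity) (by positivity)
        exact pow_le_pow_left₀ (by positivity) (by linarith) 2
    _ = (4 * C1 / c ^ 2) * ((j : ℝ) ^ 4 / 2 ^ j) := by
        rw [hρ, one_div_pow]
        field_simp
        ring
    _ ≤ δ := hj

/-- from the weights to the number -/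
theorem card_of_mass (c : ℝ) (hc : 0 < c) : ∃ c' : ℝ, 0 < c' ∧ ∀ᶠ N : ℕ in atTop, N.Prime → ∀ [NeZero N]
    (B : Finset (SF N 2)), IsNewSet N 2 B → c ≤ ∑ f ∈ B, om f → c' * N ≤ B.card := by
  obtain ⟨K, hK0, hK⟩ := om_tail (c / 2) (half_pos hc)
  refine ⟨c / (2 * K), by positivity, ?_⟩
  filter_upwards [hK, eventually_gt_atTop 0] with N h1 hN0 hN _ B hB hm
  have hNR : (0 : ℝ) < N := by exact_mod_cast hN0
  have h2 := h1 hN B hB
  have h3 : ∑ f ∈ B, om f ≤ ∑ f ∈ B with K / N < om f, om f + B.card * (K / N) := by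
    rw [← Finset.sum_filter_add_sum_filter_not B (fun f => K / N < om f)]
    refine add_le_add le_rfl ?_
    calc ∑ f ∈ B with ¬ K / N < om f, om f ≤ ∑ f ∈ B with ¬ K / N < om f, K / N := by
          refine Finset.sum_le_sum fun f hf => ?_
          exact not_lt.1 (Finset.mem_filter.1 hf).2
      _ = ((B.filter fun f => ¬ K / N < om f).card : ℝ) * (K / N) := by
          rw [Finset.sum_const, nsmul_eq_mul]
      _ ≤ _ := by
          refine mul_le_mul_of_nonneg_right ?_ (by positivity)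
          exact_mod_cast Finset.card_le_card (Finset.filter_subset _ _)
  have h4 : c / 2 ≤ B.card * (K / N) := by linarith
  rw [mul_div_assoc', le_div_iff₀ hNR] at h4
  calc c / (2 * K) * N = (c / 2 * N) / K := by field_simp
    _ ≤ (B.card * K) / K := div_le_div_of_nonneg_right h4 hK0.le
    _ = _ := by field_simp

/-- a positive proportion -/
theorem count_pos : ∃ c R : ℝ, 0 < c ∧ 0 < R ∧ ∀ᶠ N : ℕ in atTop, N.Prime → ∀ [NeZero N]
    (B : Finset (SF N 2)), W388.LV.IsNewBasis N 2 B → ∀ E : Finset (SF N 2),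
    (∀ f, f ∈ E ↔ f ∈ B ∧ W388.IsNewf N 2 f 1) →
    c * N ≤ (E.filter fun f => exp (-(ll N / 2) - R * sl N) < (bv f 0).re).card := by
  obtain ⟨c, R, hc, hR, h⟩ := har_pos
  obtain ⟨c', hc', h'⟩ := card_of_mass c hc
  refine ⟨c', R, hc', hR, ?_⟩
  filter_upwards [h, h'] with N h1 h2 hN _ B hB E hE
  have hEB : E ⊆ B := fun f hf => ((hE f).1 hf).1
  exact h2 hN _ (IsNewSet.sub (isNewSet_of_basis hB) ((Finset.filter_subset _ _).trans hEB)) (h1 hN B hB E hE)

/-- the number of the newforms is at most a constant times the level -/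
theorem card_le : ∃ C : ℝ, 0 < C ∧ ∀ᶠ N : ℕ in atTop, N.Prime → ∀ [NeZero N]
    (B : Finset (SF N 2)), IsNewSet N 2 B → (B.card : ℝ) ≤ C * N := by
  obtain ⟨C, hC0, hC⟩ := count_sq
  obtain ⟨N0, hN0⟩ := ls_obs 2 le_rfl 1 (1 / 8) one_pos (by norm_num) (by norm_num)
  refine ⟨Real.sqrt (2 * C), Real.sqrt_pos.2 (by positivity), ?_⟩
  filter_upwards [eventually_ge_atTop N0, eventually_gt_atTop 0] with N h1 h2 hN _ B hB
  have hNR : (0 : ℝ) < N := by exact_mod_cast h2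
  have h3 := hC N hN B hB
  have q0 := hN0 N h1 B hB ∅ (by simp) (by simp) 1 (fun _ => 1) (Obs.const le_rfl 1)
    (Real.one_le_rpow (by exact_mod_cast hN.one_le) (by norm_num))
  simp only [one_pow, mul_one, MeasureTheory.integral_const, MeasureTheory.probReal_univ, smul_eq_mul] at q0
  have h4 : (B.card : ℝ) ^ 2 ≤ (Real.sqrt (2 * C) * N) ^ 2 := by
    rw [mul_pow, Real.sq_sqrt (by positivity)]
    calc (B.card : ℝ) ^ 2 ≤ C * (N : ℝ) ^ 2 * ∑ f ∈ B, om f := h3
      _ ≤ C * (N : ℝ) ^ 2 * 2 := mul_le_mul_of_nonneg_left (by linarith) (by positivity)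
      _ = _ := by ring
  exact (le_abs_self _).trans (abs_le_of_sq_le_sq h4 (by positivity))

end Pool.Agent.H485.CC
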