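import Pool.Agent.H485.CC.Ep9
import Pool.Agent.H485.CC.Nc2

/-!
# The mass of every interval for the central values
-/

set_option autoImplicit false
set_option maxHeartbeats 1000000

open MeasureTheory Real Finset Filter Topology ProbabilityTheory

namespace Pool.Agent.H485.CC

open W388.LV (SF om IsNewSet)
open Pool.Agent.Y18.BSD Pool.Agent.K4H13.CV

variable {A p0 N : ℕ} {C : ℝ}

lemma SR_sub_Ss (hA : 0 < A) (hG : Good A p0 N C) : SR A p0 N ⊆ Ss N := by
  intro p hp
  have h1 := hG.le_exp (show Rn N < Rn N + 1 by omega) p hp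
  have h2 := (SR_gt hG p hp).2
  unfold Ss
  rw [mem_pr]
  refine ⟨?_, h2⟩
  unfold zb
  apply Nat.le_floor
  refine h1.trans ?_
  unfold zr
  apply exp_le_exp.2
  have hL := hG.hL
  have hL0 : 0 < log (N : ℝ) := by linarith
  have hll := hG.hll
  have hA0 : (1 : ℝ) ≤ A := by exact_mod_cast hA
  have h4 : ll N ^ 2 ≤ (2 : ℝ) ^ Rn N := by
    have h5 : ((⌈ll N⌉₊ + 1 : ℕ) : ℝ) ^ 2 ≤ (2 : ℝ) ^ Rn N := by exact_mod_cast (two_pow_R N).1
    refine le_trans ?_ h5
    have h6 : ll N ≤ ⌈ll N⌉₊ := Nat.le_ceil _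
    push_cast
    exact pow_le_pow_left₀ (by linarith) (by linarith) 2
  unfold Xi
  rw [div_div]
  apply div_le_div_of_nonneg_left hL0.le (by positivity)
  calc ll N ^ 2 ≤ (2 : ℝ) ^ Rn N := h4
    _ = 1 * (2 : ℝ) ^ Rn N := (one_mul _).symm
    _ ≤ 256 * A * 2 ^ Rn N := mul_le_mul_of_nonneg_right (by linarith) (by positivity)

/-- the variance of the small primes outside the last block -/
lemma ev_diffR (hP : Par A p0 C) {ε : ℝ} (hε : 0 < ε) :
    ∀ᶠ N : ℕ in atTop, ∑ p ∈ Ss N \ SR A p0 N, (1 : ℝ) / p ≤ ε * ll N := by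
  have hA1 : 0 < A := by have := hP.hA3; omega
  filter_upwards [hP.ev, ev_sumS (half_pos hε), (vR_ratio hP.ev).eventually_const_le (show 1 - ε / 2 < 1 by linarith),
    ev_ll 1] with N hG h1 h2 h3
  rw [Finset.sum_sdiff_eq_sub (SR_sub_Ss hA1 hG)]
  have h4 := (abs_le.1 h1).2
  have hll : 0 < ll N := by linarith
  rw [le_div_iff₀ hll] at h2
  have h5 : ∑ p ∈ SR A p0 N, (1 : ℝ) / p = vv A p0 N (Rn N) := rfl
  rw [h5]
  linarith

/-- the difference of the two sums over the primes -/
theorem diff_forms (hP : Par A p0 C) {η ε : ℝ} (hη : 0 < η) (hε : 0 < ε) : ∀ᶠ N : ℕ in atTop, N.Prime →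
    ∀ [NeZero N] (B : Finset (SF N 2)), IsNewSet N 2 B →
    ∑ f ∈ B with η * sl N < |PP (Ss N \ SR A p0 N) (W388.lamf f)|, om f ≤ ε := by
  obtain ⟨N0, hN0⟩ := ls_obs 2 le_rfl 1 (1 / 8) one_pos (by norm_num) (by norm_num)
  filter_upwards [ev_diffR hP (ε := ε * η ^ 2 / 2) (by positivity), eventually_ge_atTop N0, ev_ll 2, ev_sub, ev_log 1]
    with N h0 h1 hll hsub hlog hN _ B hB
  have hNR : (1 : ℝ) ≤ N := by exact_mod_cast hN.one_lt.le
  have hN0' := pos_of_log hlog
  have hsl : 0 < sl N := Real.sqrt_pos.2 (by linarith)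
  have hs : Ss N \ SR A p0 N ⊆ Sb N := Finset.sdiff_subset.trans hsub
  have h2 : Obs (Sb N) 1 fun _ => 1 := Obs.const le_rfl 1
  have h3 := h2.mul_lin Sb_prime hs (fun p hp => Ss_le p (Finset.mem_sdiff.1 hp).1) zero_le_one tp
  have hlen : zr N * 1 ≤ (N : ℝ) ^ (1 - 1 / 8 : ℝ) := by
    rw [mul_one, Real.rpow_def_of_pos hN0']
    unfold zr
    apply exp_le_exp.2
    rw [div_le_iff₀ (by positivity)]
    have h4 : 4 ≤ ll N ^ 2 := by nlinarith
    have hL0 : 0 < log (N : ℝ) := by linarith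
    nlinarith
  have q4 := hN0 N h1 B hB (Sb N) Sb_prime (Sb_ndvd hN) _ _ h3 hlen
  simp only [mul_one] at q4
  have q5 := PP_sq (S := Sb N) Sb_prime hs
  have q6 : ∑ f ∈ B, om f * PP (Ss N \ SR A p0 N) (W388.lamf f) ^ 2 ≤ ε * η ^ 2 * ll N := by
    have q7 : ∑ f ∈ B, om f * PP (Ss N \ SR A p0 N) (W388.lamf f) ^ 2 ≤
        (1 + 1) * ∫ x, PP (Ss N \ SR A p0 N) (XX (Sb N) x) ^ 2 ∂(mu (Sb N)) := q4
    rw [q5] at q7
    linarith
  refine (chebM B (fun f => om f) (fun f => PP (Ss N \ SR A p0 N) (W388.lamf f)) (fun f _ => om_nonneg f)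
    (show 0 < η * sl N by positivity) q6).trans ?_
  rw [div_le_iff₀ (by positivity), mul_pow, sl_sq (by linarith)]
  linarith

/-- the mass of every interval, harmonic weights -/
theorem har_int : ∃ κ : ℝ, 0 < κ ∧ ∀ a b : ℝ, a < b → ∀ᶠ N : ℕ in atTop, N.Prime → ∀ [NeZero N]
    (B : Finset (SF N 2)), W388.LV.IsNewBasis N 2 B → ∀ E : Finset (SF N 2),
    (∀ f, f ∈ E ↔ f ∈ B ∧ W388.IsNewf N 2 f 1) →
    κ * GI a b ^ 2 ≤ ∑ f ∈ E with exp (-(ll N / 2) + a * sl N) < (bv f 0).re ∧
      (bv f 0).re < exp (-(ll N / 2) + b * sl N), om f := by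
  obtain ⟨A, p0, C, K, c, hc, hK, hP, hpk⟩ := pack2
  have hK0 : 0 < K := by linarith
  have hA1 : 0 < A := by have := hP.hA3; omega
  refine ⟨c ^ 2 / (2 ^ 18 * K), by positivity, fun a b hab => ?_⟩
  have hγ0 : 0 < GI a b := GI_pos hab
  set η : ℝ := GI a b / 16 with hη
  have hη0 : 0 < η := by positivity
  obtain ⟨a0, ha0, hloc⟩ := loc_G hP hc hK hpk a b hab hη
  set m0 : ℝ := c ^ 2 / (2 ^ 17 * K) * GI a b ^ 2 with hm0
  have hm00 : 0 < m0 := by positivity
  have ha' := abs_nonneg a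
  have hb' := abs_nonneg b
  have hη1 : η ≤ 1 := by
    have := GI_le_one a b
    rw [hη]
    linarith
  obtain ⟨N0, hN0⟩ := ls_obs 2 le_rfl 1 (1 / 8) one_pos (by norm_num) (by norm_num)
  have hev2 : ∀ᶠ N : ℕ in atTop, 2 * K * exp (36 * log (ll N)) ≤ (m0 / 8) * exp (η * sl N) ^ 2 := by
    filter_upwards [ev_powS (2 * K / (m0 / 8)) 36 (ε := η) hη0, ev_ll 1] with N h1 h2
    have h3 : exp (36 * log (ll N)) = ll N ^ 36 := by
      rw [show (36 : ℝ) = ((36 : ℕ) : ℝ) by norm_num, Real.exp_nat_mul, Real.exp_log (by linarith)]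
    rw [h3]
    have h4 : 2 * K * ll N ^ 36 = (m0 / 8) * (2 * K / (m0 / 8) * ll N ^ 36) := by field_simp
    rw [h4]
    refine mul_le_mul_of_nonneg_left (h1.trans ?_) (by positivity)
    have h5 : 1 ≤ exp (η * sl N) := Real.one_le_exp (mul_nonneg hη0.le (Real.sqrt_nonneg _))
    nlinarith
  filter_upwards [hpk, hloc, diff_forms hP hη0 (show 0 < m0 / 8 by positivity), ratio hη0,
    ev_linS (-log (m0 / 8)) (ε := η / 2) (by positivity), hev2, bv_even, bv_le,
    ev_powS (2 / a0) 0 (ε := 2 * η) (by positivity), ev_powS 4 0 (ε := η) hη0,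
    ev_big 2 (1 / 2 + |a|) (ε := 1) one_pos, ev_sl (|a| + |b| + 2), eventually_ge_atTop N0]
    with N hpN h1 h2 h3 h4 h5 h6 h7 h8 h9 h10 h11 h12 hN _ B hB E hE
  obtain ⟨hG, -, -, -, m4⟩ := hpN
  have hBs := isNewSet_of_basis hB
  have hEB : E ⊆ B := fun f hf => ((hE f).1 hf).1
  have hNR : (1 : ℝ) ≤ N := by exact_mod_cast hN.one_lt.le
  have hNp : (N : ℝ) ^ (1 / 8 : ℝ) ≤ (N : ℝ) ^ (1 - 1 / 8 : ℝ) :=
    Real.rpow_le_rpow_of_exponent_le hNR (by norm_num)
  have q3 := hN0 N h12 B hBs (Sb N) Sb_prime (Sb_ndvd hN) _ _ (obs_Mk' (n := Rn N) hG (by omega)) hNp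
  rw [pow_zero, mul_one] at h8 h9
  rw [Real.rpow_one] at h10
  have hll := hG.hll
  have hll0 : 0 < ll N := by linarith
  have hslsq := sl_sq hll0.le
  have hsl0 : 0 < sl N := by linarith
  have hslle : sl N ≤ ll N := by nlinarith
  set e2 : ℝ := exp (-(ll N / 2)) with he2
  have he20 : 0 < e2 := exp_pos _
  have k0 := h1 hN B hB E hE
  -- the bad sets
  have b1 : ∑ f ∈ E with exp (η * sl N) < |Mk A p0 N (Rn N) (W388.lamf f)|, om f ≤ m0 / 8 := by
    have k1 := chebM B (fun f => om f) (fun f => Mk A p0 N (Rn N) (W388.lamf f)) (fun f _ => om_nonneg f)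
      (exp_pos (η * sl N)) (M := 2 * K * exp (36 * log (ll N))) (by linarith)
    refine (Finset.sum_le_sum_of_subset_of_nonneg (Finset.filter_subset_filter _ hEB) fun f _ _ => om_nonneg f).trans
      (k1.trans ?_)
    rw [div_le_iff₀ (by positivity)]
    exact h5
  have b2 : ∑ f ∈ E with η * sl N < |PP (Ss N \ SR A p0 N) (W388.lamf f)|, om f ≤ m0 / 8 :=
    (Finset.sum_le_sum_of_subset_of_nonneg (Finset.filter_subset_filter _ hEB) fun f _ _ => om_nonneg f).trans
      (h2 hN B hBs)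
  have b3 : ∑ f ∈ E with exp (-(ll N / 2) + PP (Ss N) (W388.lamf f) + η * sl N) < |SYf N (W388.lamf f)|, om f ≤
      m0 / 8 := by
    refine (Finset.sum_le_sum_of_subset_of_nonneg (Finset.filter_subset_filter _ hEB) fun f _ _ => om_nonneg f).trans
      ((h3 hN B hBs).trans ?_)
    rw [← Real.le_log_iff_exp_le (by positivity)]
    linarith
  -- on the good set
  have hgood : ∀ f ∈ E, ((a + 3 * η < PP (SR A p0 N) (W388.lamf f) / sl N ∧
            PP (SR A p0 N) (W388.lamf f) / sl N < b - 3 * η) ∧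
          a0 * e2 < Mo A p0 N (W388.lamf f) * S5 N (W388.lamf f)) →
      (exp (-(ll N / 2) + a * sl N) < (bv f 0).re ∧ (bv f 0).re < exp (-(ll N / 2) + b * sl N)) ∨
      (exp (η * sl N) < |Mk A p0 N (Rn N) (W388.lamf f)| ∨
        (η * sl N < |PP (Ss N \ SR A p0 N) (W388.lamf f)| ∨
          exp (-(ll N / 2) + PP (Ss N) (W388.lamf f) + η * sl N) < |SYf N (W388.lamf f)|)) := by
    intro f hf hlow
    by_contra hcon
    rw [not_or, not_or, not_or] at hcon
    obtain ⟨g0, g1, g2, g3⟩ := hcon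
    rw [not_lt] at g1 g2 g3
    obtain ⟨⟨x1, x2⟩, x3⟩ := hlow
    apply g0
    have hf1 := ((hE f).1 hf).2
    set P : ℝ := PP (SR A p0 N) (W388.lamf f) with hPd
    rw [lt_div_iff₀ hsl0] at x1
    rw [div_lt_iff₀ hsl0] at x2
    have hPabs : |P| ≤ (|a| + |b|) * sl N := by
      have h13 := le_abs_self b
      have h14 := neg_abs_le a
      have h15 : (b - 3 * η) * sl N ≤ (|a| + |b|) * sl N :=
        mul_le_mul_of_nonneg_right (by linarith) hsl0.le
      have h16 : (-(|a| + |b|)) * sl N ≤ (a + 3 * η) * sl N :=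
        mul_le_mul_of_nonneg_right (by linarith) hsl0.le
      rw [abs_le]
      constructor <;> linarith
    have hPP : PP (Ss N) (W388.lamf f) = PP (Ss N \ SR A p0 N) (W388.lamf f) + P := by
      rw [hPd]
      unfold PP
      rw [Finset.sum_sdiff (SR_sub_Ss hA1 hG)]
    constructor
    · -- lower bound
      obtain ⟨v, hv1, hv2⟩ := h6 hN f hf1
      rw [hv1, Complex.ofReal_re]
      have hJ : (6 : ℝ) * ll N ≤ Jn A N (Rn N) := by
        unfold Jn
        rw [if_neg (lt_irrefl _)]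
        have h13 : ll N ≤ ⌈ll N⌉₊ := Nat.le_ceil _
        have h14 : (3 : ℝ) ≤ A := by exact_mod_cast hP.hA3
        push_cast
        nlinarith
      have htj : tj (Jn A N (Rn N)) (-P) ≤ 2 * exp (-P) := by
        have h13 := (abs_le.1 (tj_err (Jn A N (Rn N)) (-P))).2
        rw [abs_neg, ← Real.exp_add] at h13
        have h14 : exp (-((Jn A N (Rn N) : ℝ) + 1) + exp 1 * |P|) ≤ exp (-P) := by
          apply exp_le_exp.2
          have he : exp 1 ≤ 3 := by have := Real.exp_one_lt_d9; linarith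
          have h15 : exp 1 * |P| ≤ 3 * |P| := mul_le_mul_of_nonneg_right he (abs_nonneg _)
          have h16 := le_abs_self P
          have h17 : 4 * |P| ≤ 4 * ll N := by
            have h18 : (|a| + |b|) * sl N ≤ sl N * sl N := mul_le_mul_of_nonneg_right (by linarith) hsl0.le
            rw [← sq, hslsq] at h18
            linarith
          linarith
        linarith
      have hMo : Mo A p0 N (W388.lamf f) ≤ 2 * exp (η * sl N - P) := by
        rw [Mo_eq]
        unfold Mk
        rw [Finset.prod_range_succ]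
        have t1 : ∏ i ∈ range (Rn N), tj (Jn A N i) (-PP (Sc A p0 N i) (W388.lamf f)) ≤ exp (η * sl N) :=
          (le_abs_self _).trans g1
        have t3 : 2 * exp (η * sl N - P) = exp (η * sl N) * (2 * exp (-P)) := by
          rw [sub_eq_add_neg, Real.exp_add]; ring
        rw [t3]
        exact mul_le_mul t1 htj (tj_pos (Jn_even A N _) _).le (exp_pos _).le
      have hMp := Mo_pos A p0 N (W388.lamf f)
      have hS0 : 0 < S5 N (W388.lamf f) := by
        have h13 : 0 < Mo A p0 N (W388.lamf f) * S5 N (W388.lamf f) := lt_trans (by positivity) x3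
        exact (mul_pos_iff_of_pos_left hMp).1 h13
      have h13 : a0 * e2 < 2 * exp (η * sl N - P) * S5 N (W388.lamf f) :=
        lt_of_lt_of_le x3 (mul_le_mul_of_nonneg_right hMo hS0.le)
      have h14 : a0 * e2 * exp (P - η * sl N) < 2 * S5 N (W388.lamf f) := by
        have h15 := mul_lt_mul_of_pos_left h13 (exp_pos (P - η * sl N))
        have h16 : exp (P - η * sl N) * (2 * exp (η * sl N - P) * S5 N (W388.lamf f)) = 2 * S5 N (W388.lamf f) := by
          have h17 : exp (P - η * sl N) * exp (η * sl N - P) = 1 := by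
            rw [← Real.exp_add]; simp
          calc _ = (exp (P - η * sl N) * exp (η * sl N - P)) * (2 * S5 N (W388.lamf f)) := by ring
            _ = _ := by rw [h17, one_mul]
        rw [h16] at h15
        linarith
      set x : ℝ := exp (-(ll N / 2) + a * sl N) with hx
      have hx0 : 0 < x := exp_pos _
      have h15 : 2 * x ≤ a0 * e2 * exp (P - η * sl N) := by
        have h16 : x * exp (2 * η * sl N) ≤ e2 * exp (P - η * sl N) := by
          rw [hx, he2, ← Real.exp_add, ← Real.exp_add]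
          apply exp_le_exp.2
          linarith
        have h17 : 2 ≤ a0 * exp (2 * η * sl N) := by
          rw [div_le_iff₀ ha0] at h8
          linarith
        calc 2 * x ≤ (a0 * exp (2 * η * sl N)) * x := mul_le_mul_of_nonneg_right h17 hx0.le
          _ = a0 * (x * exp (2 * η * sl N)) := by ring
          _ ≤ a0 * (e2 * exp (P - η * sl N)) := mul_le_mul_of_nonneg_left h16 ha0.le
          _ = _ := by ring
      have h16 : 2 / (N : ℝ) ≤ x := by
        have hN0' : (0 : ℝ) < N := by linarith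
        rw [div_le_iff₀ hN0']
        have h18 : 1 ≤ x * exp ((1 / 2 + |a|) * ll N) := by
          rw [hx, ← Real.exp_add]
          apply Real.one_le_exp
          have h19 : -(|a| * ll N) ≤ a * sl N := by
            have h20 : |a| * sl N ≤ |a| * ll N := mul_le_mul_of_nonneg_left hslle ha'
            have h21 : -|a| * sl N ≤ a * sl N := mul_le_mul_of_nonneg_right (neg_abs_le a) hsl0.le
            linarith
          linarith
        calc (2 : ℝ) ≤ 2 * (x * exp ((1 / 2 + |a|) * ll N)) := by linarith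
          _ = x * (2 * exp ((1 / 2 + |a|) * ll N)) := by ring
          _ ≤ x * N := mul_le_mul_of_nonneg_left h10 hx0.le
      have h17 := (abs_le.1 hv2).1
      linarith
    · -- upper bound
      have h13 := h7 hN f 1 hf1
      have h14 : (bv f 0).re ≤ ‖bv f 0‖ := Complex.re_le_norm _
      have h15 : exp (-(ll N / 2) + PP (Ss N) (W388.lamf f) + η * sl N) ≤
          exp (-(ll N / 2) + b * sl N) * (1 / 4) := by
        have h16 : (1 / 4 : ℝ) ≥ exp (-(η * sl N)) := by
          rw [Real.exp_neg, ge_iff_le, inv_le_comm₀ (exp_pos _) (by norm_num)]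
          norm_num
          exact h9
        refine le_trans ?_ (mul_le_mul_of_nonneg_left h16 (exp_pos _).le)
        rw [← Real.exp_add]
        apply exp_le_exp.2
        rw [hPP]
        have h17 := (abs_le.1 g2).2
        linarith
      have h16 : exp (-5 * ll N) < exp (-(ll N / 2) + b * sl N) * (1 / 4) := by
        have h17 : exp (-(4 : ℝ)) ≤ 1 / 4 := by
          rw [Real.exp_neg, inv_le_comm₀ (exp_pos _) (by norm_num)]
          have := Real.add_one_le_exp (4 : ℝ)
          norm_num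
          linarith
        refine lt_of_lt_of_le ?_ (mul_le_mul_of_nonneg_left h17 (exp_pos _).le)
        rw [← Real.exp_add]
        apply exp_lt_exp.2
        have h18 : -(ll N) ≤ b * sl N := by
          have h19 : -|b| * sl N ≤ b * sl N := mul_le_mul_of_nonneg_right (neg_abs_le b) hsl0.le
          have h20 : |b| * sl N ≤ sl N * sl N := mul_le_mul_of_nonneg_right (by linarith) hsl0.le
          rw [← sq, hslsq] at h20
          linarith
        linarith
      linarith
  have s1 := sum_or E (fun f => om f) (fun f _ => om_nonneg f) _ _ _ hgood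
  have s2 := sum_or E (fun f => om f) (fun f _ => om_nonneg f)
    (fun f => exp (η * sl N) < |Mk A p0 N (Rn N) (W388.lamf f)| ∨
        (η * sl N < |PP (Ss N \ SR A p0 N) (W388.lamf f)| ∨
          exp (-(ll N / 2) + PP (Ss N) (W388.lamf f) + η * sl N) < |SYf N (W388.lamf f)|)) _ _ (fun f _ h => h)
  have s3 := sum_or E (fun f => om f) (fun f _ => om_nonneg f)
    (fun f => (η * sl N < |PP (Ss N \ SR A p0 N) (W388.lamf f)| ∨
          exp (-(ll N / 2) + PP (Ss N) (W388.lamf f) + η * sl N) < |SYf N (W388.lamf f)|)) _ _ (fun f _ h => h)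
  have hfin : c ^ 2 / (2 ^ 18 * K) * GI a b ^ 2 = m0 / 2 := by
    rw [hm0]
    field_simp
  rw [hfin]
  linarith

/-- the number of the forms in every interval -/
theorem count_int (a b : ℝ) (hab : a < b) : ∃ c : ℝ, 0 < c ∧ ∀ᶠ N : ℕ in atTop, N.Prime → ∀ [NeZero N]
    (B : Finset (SF N 2)), W388.LV.IsNewBasis N 2 B → ∀ E : Finset (SF N 2),
    (∀ f, f ∈ E ↔ f ∈ B ∧ W388.IsNewf N 2 f 1) →
    c * E.card ≤ (E.filter fun f => exp (-(ll N / 2) + a * sl N) < (bv f 0).re ∧
      (bv f 0).re < exp (-(ll N / 2) + b * sl N)).card := by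
  obtain ⟨κ, hκ, h⟩ := har_int
  have hγ0 : 0 < GI a b := GI_pos hab
  obtain ⟨c', hc', h'⟩ := card_of_mass (κ * GI a b ^ 2) (by positivity)
  obtain ⟨C2, hC20, hC2⟩ := card_le
  refine ⟨c' / C2, by positivity, ?_⟩
  filter_upwards [h a b hab, h', hC2] with N h1 h2 h3 hN _ B hB E hE
  have hEB : E ⊆ B := fun f hf => ((hE f).1 hf).1
  have hEs : IsNewSet N 2 E := IsNewSet.sub (isNewSet_of_basis hB) hEB
  have k1 := h2 hN _ (IsNewSet.sub (isNewSet_of_basis hB) ((Finset.filter_subset _ _).trans hEB)) (h1 hN B hB E hE)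
  have k2 := h3 hN E hEs
  calc c' / C2 * (E.card : ℝ) ≤ c' / C2 * (C2 * N) := mul_le_mul_of_nonneg_left k2 (by positivity)
    _ = c' * N := by field_simp
    _ ≤ _ := k1

end Pool.Agent.H485.CC
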