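import Pool.Agent.H485.CC.Pf10

/-!
# The harmonic mean over the even forms of an observable is half of its model mean
-/

set_option autoImplicit false
set_option maxHeartbeats 4000000

open MeasureTheory Real Finset Filter

namespace Pool.Agent.H485.CC

open W388.LV (SF om IsNewSet)

section

variable {N : ℕ} [NeZero N]

omit [NeZero N] in
lemma sum_even {B E : Finset (SF N 2)} (hE : ∀ f, f ∈ E ↔ f ∈ B ∧ W388.IsNewf N 2 f 1)
    (g : SF N 2 → ℝ) :
    ∑ f ∈ E, g f = (∑ f ∈ B, g f + ∑ f ∈ B, sg f * g f) / 2 := by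
  classical
  have h1 : ∑ f ∈ E, g f = ∑ f ∈ B, if W388.IsNewf N 2 f 1 then g f else 0 := by
    rw [← Finset.sum_filter]
    refine Finset.sum_congr ?_ fun _ _ => rfl
    ext f
    rw [hE, Finset.mem_filter]
  rw [h1, ← Finset.sum_add_distrib, Finset.sum_div]
  refine Finset.sum_congr rfl fun f _ => ?_
  unfold sg
  split_ifs <;> ring

end

lemma integral_obs1 {S : Finset ℕ} {D : ℝ} {F : (ℕ → ℝ) → ℝ} (hS : ∀ p ∈ S, p.Prime) {c : ℕ →₀ ℝ}
    (hc : ∀ n ∈ c.support, Sm S n ∧ (n : ℝ) ≤ D)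
    (hF : ∀ lam : ℕ → ℝ, HRel S lam → F lam = c.sum fun n a => a * lam n) :
    ∫ x, F (XX S x) ∂(mu S) = c 1 := by
  have h1 : ∀ x, F (XX S x) = ∑ n ∈ c.support, c n * (XX S x 1 * XX S x n) := by
    intro x
    rw [hF _ (XX_hrel hS x), Finsupp.sum]
    exact Finset.sum_congr rfl fun n _ => by rw [XX_one, one_mul]
  have hint : ∀ n, Integrable (fun x => c n * (XX S x 1 * XX S x n)) (mu S) := by
    intro n
    refine integrable_mu (C := |c n| * ((∏ p ∈ S, (((1 : ℕ).factorization p : ℝ) + 1)) *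
      ∏ p ∈ S, ((n.factorization p : ℝ) + 1))) ?_ fun x => ?_
    · exact continuous_const.mul ((continuous_XX 1).mul (continuous_XX n))
    · rw [Real.norm_eq_abs, abs_mul, abs_mul (XX S x 1)]
      exact mul_le_mul_of_nonneg_left (mul_le_mul (abs_XX_le x 1) (abs_XX_le x n) (abs_nonneg _)
        (Finset.prod_nonneg fun _ _ => by positivity)) (abs_nonneg _)
  simp_rw [h1]
  rw [integral_finsetSum _ fun n _ => hint n]
  have h2 : ∀ n ∈ c.support, ∫ x, c n * (XX S x 1 * XX S x n) ∂(mu S) = if n = 1 then c n else 0 := by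
    intro n hn
    rw [integral_const_mul, orth_XX ⟨le_rfl, by simp⟩ (hc n hn).1]
    by_cases h : n = 1
    · subst h; simp
    · rw [if_neg (fun h' => h h'.symm), if_neg h, mul_zero]
  rw [Finset.sum_congr rfl h2, Finset.sum_ite_eq']
  split_ifs with h
  · rfl
  · exact (Finsupp.notMem_support_iff.1 h).symm

/-- the approximate Petersson formula for the even forms -/
theorem lin_even (δ ε0 : ℝ) (hδ : 0 < δ) (h0 : 0 < ε0) :
    ∀ᶠ N : ℕ in atTop, N.Prime → ∀ [NeZero N] (B : Finset (SF N 2)), W388.LV.IsNewBasis N 2 B →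
      ∀ E : Finset (SF N 2), (∀ f, f ∈ E ↔ f ∈ B ∧ W388.IsNewf N 2 f 1) →
      ∀ (c : ℕ →₀ ℝ), (∀ n ∈ c.support, 1 ≤ n ∧ (n : ℝ) ≤ (N : ℝ) ^ (1 - ε0)) →
      |∑ f ∈ E, om f * ∑ n ∈ c.support, c n * W388.lamf f n - c 1 / 2| ≤
        δ * sqrt (∑ n ∈ c.support, c n ^ 2) := by
  -- the parameter
  obtain ⟨η, hη0, hη1, hη2⟩ : ∃ η : ℝ, 0 < η ∧ η ≤ 1 ∧ (exp η - 1 + η) * exp η ≤ (δ / 2) ^ 2 ∧
      exp η - 1 + η ≤ δ := by
    have h1 : Tendsto (fun η : ℝ => (exp η - 1 + η) * exp η) (nhds 0) (nhds ((exp 0 - 1 + 0) * exp 0)) := by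
      apply Continuous.tendsto
      fun_prop
    have h2 : Tendsto (fun η : ℝ => exp η - 1 + η) (nhds 0) (nhds (exp 0 - 1 + 0)) := by
      apply Continuous.tendsto
      fun_prop
    simp only [exp_zero, sub_self, zero_add, zero_mul] at h1 h2
    have h3 := (h1.eventually (ge_mem_nhds (show (0 : ℝ) < (δ / 2) ^ 2 by positivity))).and
      (h2.eventually (ge_mem_nhds hδ))
    have h4 := (h3.and (eventually_le_nhds (show (0 : ℝ) < 1 by norm_num))).filter_mono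
      (nhdsWithin_le_nhds (s := Set.Ioi 0))
    obtain ⟨η, hη, hη'⟩ := (h4.and self_mem_nhdsWithin).exists
    exact ⟨η, hη', hη.2, hη.1.1, hη.1.2⟩
  have h1 : Tendsto (fun N : ℕ => (N : ℝ) ^ ε0) atTop atTop :=
    (tendsto_rpow_atTop h0).comp tendsto_natCast_atTop_atTop
  have hpi := Real.pi_pos
  filter_upwards [mass_low1 hη0, h1.eventually_ge_atTop (16 * π ^ 2 / η ^ 2), eventually_ge_atTop 1]
    with N hN1 hN2 hN3 hN _ B hB E hE c hc
  have hBs : IsNewSet N 2 B := ⟨hB.newf, hB.orth⟩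
  have hN0 : (0 : ℝ) < N := by exact_mod_cast hN.pos
  have hNr : (1 : ℝ) ≤ N := by exact_mod_cast hN3
  have hW1 := hN1 hN B hB
  have hNN : (N : ℝ) ^ ε0 * (N : ℝ) ^ (1 - ε0) = N := by
    rw [← Real.rpow_add hN0]
    norm_num
  have hlen : ∀ n : ℕ, (n : ℝ) ≤ (N : ℝ) ^ (1 - ε0) → 16 * π ^ 2 * n ≤ η ^ 2 * N := by
    intro n hn
    rw [div_le_iff₀ (by positivity)] at hN2
    calc 16 * π ^ 2 * n ≤ ((N : ℝ) ^ ε0 * η ^ 2) * (N : ℝ) ^ (1 - ε0) :=
          mul_le_mul hN2 hn (Nat.cast_nonneg _) (by positivity)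
      _ = η ^ 2 * ((N : ℝ) ^ ε0 * (N : ℝ) ^ (1 - ε0)) := by ring
      _ = _ := by rw [hNN]
  have h16 : 4 * π ≤ 16 * π ^ 2 := by nlinarith [Real.pi_gt_three]
  have hη3 : η ^ 2 ≤ η := by nlinarith
  have hlen2 : ∀ n : ℕ, (n : ℝ) ≤ (N : ℝ) ^ (1 - ε0) → 4 * π * n ≤ η * N := by
    intro n hn
    have h2 := hlen n hn
    have h3 : 4 * π * n ≤ 16 * π ^ 2 * n := mul_le_mul_of_nonneg_right h16 (Nat.cast_nonneg n)
    have h4 : η ^ 2 * N ≤ η * N := mul_le_mul_of_nonneg_right hη3 hN0.le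
    linarith
  have hone : (1 : ℝ) ≤ (N : ℝ) ^ (1 - ε0) ∨ c = 0 := by
    by_cases h : c.support = ∅
    · right
      exact Finsupp.support_eq_empty.1 h
    · left
      obtain ⟨n, hn⟩ := Finset.nonempty_iff_ne_empty.2 h
      have h2 := hc n hn
      have h3 : (1 : ℝ) ≤ n := by exact_mod_cast h2.1
      linarith [h2.2]
  rcases hone with hone | hc0
  swap
  · rw [hc0]
    simp
  have hη4 : 4 * π ≤ η * N := by
    have := hlen2 1 (by simpa using hone)
    simpa using this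
  set s : Finset ℕ := c.support with hs
  set Q : ℝ := ∑ n ∈ s, c n ^ 2 with hQ
  have hQ0 : 0 ≤ Q := Finset.sum_nonneg fun n _ => sq_nonneg _
  have hW2 := Wt_le hN hBs
  have hW3 : Wt B ≤ exp η := by
    refine hW2.trans (exp_le_exp.2 ?_)
    rw [div_le_iff₀ hN0]
    exact hη4
  have hWη : exp η - Wt B ≤ exp η - 1 + η := by linarith
  have hWη0 : 0 ≤ exp η - Wt B := by linarith
  -- twisted
  have r1 := rig_sg hN hBs (c1 := η / (4 * π)) (c2 := 4 * π / (η * N)) (η := η) (by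
      rw [div_le_div_iff₀ hN0 (by positivity)]
      linarith) (by
      rw [div_le_div_iff₀ hN0 (by positivity)]
      have : η * N ≤ 4 * π * N := mul_le_mul_of_nonneg_right (by linarith [Real.pi_gt_three]) hN0.le
      linarith) (by
      have : (N : ℝ) * (η / (4 * π) * (4 * π / (η * N))) = 1 := by field_simp
      rw [this]) (by
      have : 4 * π * (η / (4 * π)) = η := by field_simp
      rw [this]) s (fun n hn => by
      obtain ⟨k1, k2⟩ := hc n hn
      refine ⟨k1, ?_⟩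
      have e : 4 * π * n * (4 * π / (η * N)) = 16 * π ^ 2 * n / (η * N) := by ring
      rw [e, div_le_iff₀ (by positivity)]
      have := hlen n k2
      nlinarith) (fun n => c n)
  -- untwisted
  have r2 := rig_un hN hBs (η := η) (s.erase 1) (fun n hn => by
      rw [Finset.mem_erase] at hn
      obtain ⟨k1, k2⟩ := hc n hn.2
      exact ⟨by omega, hlen2 n k2⟩) hη4 (fun n => c n)
  have hQ1 : ∑ n ∈ s.erase 1, c n ^ 2 ≤ Q :=
    Finset.sum_le_sum_of_subset_of_nonneg (Finset.erase_subset _ _) fun n _ _ => sq_nonneg _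
  set R1 : ℝ := ∑ f ∈ B, om f * (sg f * ∑ n ∈ s, c n * W388.lamf f n) with hR1
  set R2 : ℝ := ∑ f ∈ B, om f * ∑ n ∈ s.erase 1, c n * W388.lamf f n with hR2
  have hb : ∀ R Q' : ℝ, 0 ≤ Q' → R ^ 2 ≤ (exp η - Wt B) * (exp η * Q') → Q' ≤ Q → |R| ≤ δ / 2 * sqrt Q := by
    intro R Q' hQ'0 h h'
    have h2 : R ^ 2 ≤ (δ / 2) ^ 2 * Q := by
      calc R ^ 2 ≤ (exp η - Wt B) * (exp η * Q') := h
        _ ≤ (exp η - 1 + η) * (exp η * Q) :=
          mul_le_mul hWη (mul_le_mul_of_nonneg_left h' (exp_pos _).le) (by positivity) (by linarith)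
        _ = (exp η - 1 + η) * exp η * Q := by ring
        _ ≤ _ := mul_le_mul_of_nonneg_right hη2.1 hQ0
    have h3 : R ^ 2 ≤ (δ / 2 * sqrt Q) ^ 2 := by
      rw [mul_pow, Real.sq_sqrt hQ0]
      exact h2
    exact abs_le_of_sq_le_sq h3 (by positivity)
  have b1 := hb R1 Q hQ0 r1 le_rfl
  have b2 := hb R2 _ (Finset.sum_nonneg fun n _ => sq_nonneg _) r2 hQ1
  have hsplit : ∀ lam : ℕ → ℝ, lam 1 = 1 → ∑ n ∈ s, c n * lam n = c 1 + ∑ n ∈ s.erase 1, c n * lam n := by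
    intro lam hl
    by_cases h : 1 ∈ s
    · rw [← Finset.add_sum_erase s _ h, hl, mul_one]
    · rw [Finset.erase_eq_of_notMem h, Finsupp.notMem_support_iff.1 h, zero_add]
  have e1 : ∑ f ∈ B, om f * ∑ n ∈ s, c n * W388.lamf f n = c 1 * Wt B + R2 := by
    rw [hR2]
    unfold Wt
    rw [Finset.mul_sum, ← Finset.sum_add_distrib]
    refine Finset.sum_congr rfl fun f hf => ?_
    obtain ⟨ε, hε⟩ := hBs.newf f hf
    rw [hsplit _ (W388.heckeSeq_lamf hε).one]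
    ring
  rw [sum_even hE, e1]
  have e2 : ∑ f ∈ B, sg f * (om f * ∑ n ∈ s, c n * W388.lamf f n) = R1 := by
    rw [hR1]
    exact Finset.sum_congr rfl fun f _ => by ring
  rw [e2]
  have hc1 : |c 1| ≤ sqrt Q := by
    apply Real.abs_le_sqrt
    by_cases h : 1 ∈ s
    · exact Finset.single_le_sum (f := fun n => c n ^ 2) (fun n _ => sq_nonneg _) h
    · rw [Finsupp.notMem_support_iff.1 h]
      simpa using hQ0
  have hW4 : |Wt B - 1| ≤ δ := by
    rw [abs_le]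
    constructor <;> linarith [hη2.2, Real.add_one_le_exp η]
  have e3 : (c 1 * Wt B + R2 + R1) / 2 - c 1 / 2 = (c 1 * (Wt B - 1) + R2 + R1) / 2 := by ring
  rw [e3, abs_div, abs_two, div_le_iff₀ (by norm_num)]
  have e4 : |c 1 * (Wt B - 1)| ≤ sqrt Q * δ := by
    rw [abs_mul]
    exact mul_le_mul hc1 hW4 (abs_nonneg _) (Real.sqrt_nonneg _)
  calc |c 1 * (Wt B - 1) + R2 + R1| ≤ |c 1 * (Wt B - 1)| + |R2| + |R1| := by
        refine (abs_add_le _ _).trans (add_le_add_left (abs_add_le _ _) _)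
    _ ≤ sqrt Q * δ + δ / 2 * sqrt Q + δ / 2 * sqrt Q := by linarith
    _ = _ := by ring

/-- the harmonic mean of an observable over the even forms -/
theorem obs_even (δ ε0 : ℝ) (hδ : 0 < δ) (h0 : 0 < ε0) :
    ∀ᶠ N : ℕ in atTop, N.Prime → ∀ [NeZero N] (B : Finset (SF N 2)), W388.LV.IsNewBasis N 2 B →
      ∀ E : Finset (SF N 2), (∀ f, f ∈ E ↔ f ∈ B ∧ W388.IsNewf N 2 f 1) →
      ∀ (S : Finset ℕ), (∀ p ∈ S, p.Prime) → (∀ p ∈ S, ¬ p ∣ N) → ∀ (D : ℝ) (F : (ℕ → ℝ) → ℝ),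
      Obs S D F → D ≤ (N : ℝ) ^ (1 - ε0) →
      |∑ f ∈ E, om f * F (W388.lamf f) - (∫ x, F (XX S x) ∂(mu S)) / 2| ≤
        δ * sqrt (∫ x, F (XX S x) ^ 2 ∂(mu S)) := by
  filter_upwards [lin_even δ ε0 hδ h0] with N h1 hN _ B hB E hE S hS hSN D F hF hD
  obtain ⟨c, hc, hFc⟩ := hF
  rw [integral_obs hS hc hFc, integral_obs1 hS hc hFc]
  have h2 := h1 hN B hB E hE c (fun n hn => ⟨(hc n hn).1.1, (hc n hn).2.trans hD⟩)
  have e1 : ∑ f ∈ E, om f * F (W388.lamf f) = ∑ f ∈ E, om f * ∑ n ∈ c.support, c n * W388.lamf f n := by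
    refine Finset.sum_congr rfl fun f hf => ?_
    have hf1 := ((hE f).1 hf).2
    rw [hFc _ (hrel_lamf hf1 hS hSN), Finsupp.sum]
  rw [e1]
  exact h2

end Pool.Agent.H485.CC
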