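import Pool.Agent.H485.CC.Ep1
import Pool.Agent.H485.CC.Tw3

/-!
# The harmonic mean over the even forms with a power saving
-/

set_option autoImplicit false
set_option maxHeartbeats 4000000

open MeasureTheory Real Finset Filter

namespace Pool.Agent.H485.CC

open W388.LV (SF om IsNewSet)

/-- the approximate Petersson formula for the even forms, with parameters -/
theorem lin_even_par {N : ℕ} [NeZero N] (hN : N.Prime) {B : Finset (SF N 2)} (hB : W388.LV.IsNewBasis N 2 B)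
    {E : Finset (SF N 2)} (hE : ∀ f, f ∈ E ↔ f ∈ B ∧ W388.IsNewf N 2 f 1) {η δ ε0 : ℝ} (hη0 : 0 < η)
    (hη1 : η ≤ 1) (hη2 : (exp η - 1 + η) * exp η ≤ (δ / 2) ^ 2 ∧ exp η - 1 + η ≤ δ) (hδ : 0 < δ)
    (hW1 : 1 - η ≤ Wt B) (hN2 : 16 * π ^ 2 / η ^ 2 ≤ (N : ℝ) ^ ε0) (c : ℕ →₀ ℝ)
    (hc : ∀ n ∈ c.support, 1 ≤ n ∧ (n : ℝ) ≤ (N : ℝ) ^ (1 - ε0)) :
    |∑ f ∈ E, om f * ∑ n ∈ c.support, c n * W388.lamf f n - c 1 / 2| ≤
      δ * sqrt (∑ n ∈ c.support, c n ^ 2) := by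
  have hpi := Real.pi_pos
  have hN3 : 1 ≤ N := hN.one_le
  have hBs : IsNewSet N 2 B := ⟨hB.newf, hB.orth⟩
  have hN0 : (0 : ℝ) < N := by exact_mod_cast hN.pos
  have hNr : (1 : ℝ) ≤ N := by exact_mod_cast hN3
  have hNN : (N : ℝ) ^ ε0 * (N : ℝ) ^ (1 - ε0) = N := by
    rw [← Real.rpow_add hN0]
    norm_num
  have hlen : ∀ n : ℕ, (n : ℝ) ≤ (N : ℝ) ^ (1 - ε0) → 16 * π ^ 2 * n ≤ η ^ 2 * N := by
    intro n hn
    rw [div_le_iff₀ (by positivity)] at hN2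
    calc 16 * π ^ 2 * n ≤ ((N : ℝ) ^ ε0 * η ^ 2) * (N : ℝ) ^ (1 - ε0) :=
          mul_le_mul hN2 hn (Nat.cast_nonneg _) (by positivity)
      _ = η ^ 2 * ((N : ℝ) ^ ε0 * (N : ℝ) ^ (1 - ε0)) := by ring
      _ = _ := by rw [hNN]
  have h16 : 4 * π ≤ 16 * π ^ 2 := by nlinarith [Real.pi_gt_three]
  have hη3 : η ^ 2 ≤ η := by nlinarith
  have hlen2 : ∀ n : ℕ, (n : ℝ) ≤ (N : ℝ) ^ (1 - ε0) → 4 * π * n ≤ η * N := by
    intro n hn
    have h2 := hlen n hn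
    have h3 : 4 * π * n ≤ 16 * π ^ 2 * n := mul_le_mul_of_nonneg_right h16 (Nat.cast_nonneg n)
    have h4 : η ^ 2 * N ≤ η * N := mul_le_mul_of_nonneg_right hη3 hN0.le
    linarith
  have hone : (1 : ℝ) ≤ (N : ℝ) ^ (1 - ε0) ∨ c = 0 := by
    by_cases h : c.support = ∅
    · right
      exact Finsupp.support_eq_empty.1 h
    · left
      obtain ⟨n, hn⟩ := Finset.nonempty_iff_ne_empty.2 h
      have h2 := hc n hn
      have h3 : (1 : ℝ) ≤ n := by exact_mod_cast h2.1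
      linarith [h2.2]
  rcases hone with hone | hc0
  swap
  · rw [hc0]
    simp
  have hη4 : 4 * π ≤ η * N := by
    have := hlen2 1 (by simpa using hone)
    simpa using this
  set s : Finset ℕ := c.support with hs
  set Q : ℝ := ∑ n ∈ s, c n ^ 2 with hQ
  have hQ0 : 0 ≤ Q := Finset.sum_nonneg fun n _ => sq_nonneg _
  have hW2 := Wt_le hN hBs
  have hW3 : Wt B ≤ exp η := by
    refine hW2.trans (exp_le_exp.2 ?_)
    rw [div_le_iff₀ hN0]
    exact hη4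
  have hWη : exp η - Wt B ≤ exp η - 1 + η := by linarith
  have hWη0 : 0 ≤ exp η - Wt B := by linarith
  -- twisted
  have r1 := rig_sg hN hBs (c1 := η / (4 * π)) (c2 := 4 * π / (η * N)) (η := η) (by
      rw [div_le_div_iff₀ hN0 (by positivity)]
      linarith) (by
      rw [div_le_div_iff₀ hN0 (by positivity)]
      have : η * N ≤ 4 * π * N := mul_le_mul_of_nonneg_right (by linarith [Real.pi_gt_three]) hN0.le
      linarith) (by
      have : (N : ℝ) * (η / (4 * π) * (4 * π / (η * N))) = 1 := by field_simp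
      rw [this]) (by
      have : 4 * π * (η / (4 * π)) = η := by field_simp
      rw [this]) s (fun n hn => by
      obtain ⟨k1, k2⟩ := hc n hn
      refine ⟨k1, ?_⟩
      have e : 4 * π * n * (4 * π / (η * N)) = 16 * π ^ 2 * n / (η * N) := by ring
      rw [e, div_le_iff₀ (by positivity)]
      have := hlen n k2
      nlinarith) (fun n => c n)
  -- untwisted
  have r2 := rig_un hN hBs (η := η) (s.erase 1) (fun n hn => by
      rw [Finset.mem_erase] at hn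
      obtain ⟨k1, k2⟩ := hc n hn.2
      exact ⟨by omega, hlen2 n k2⟩) hη4 (fun n => c n)
  have hQ1 : ∑ n ∈ s.erase 1, c n ^ 2 ≤ Q :=
    Finset.sum_le_sum_of_subset_of_nonneg (Finset.erase_subset _ _) fun n _ _ => sq_nonneg _
  set R1 : ℝ := ∑ f ∈ B, om f * (sg f * ∑ n ∈ s, c n * W388.lamf f n) with hR1
  set R2 : ℝ := ∑ f ∈ B, om f * ∑ n ∈ s.erase 1, c n * W388.lamf f n with hR2
  have hb : ∀ R Q' : ℝ, 0 ≤ Q' → R ^ 2 ≤ (exp η - Wt B) * (exp η * Q') → Q' ≤ Q → |R| ≤ δ / 2 * sqrt Q := by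
    intro R Q' hQ'0 h h'
    have h2 : R ^ 2 ≤ (δ / 2) ^ 2 * Q := by
      calc R ^ 2 ≤ (exp η - Wt B) * (exp η * Q') := h
        _ ≤ (exp η - 1 + η) * (exp η * Q) :=
          mul_le_mul hWη (mul_le_mul_of_nonneg_left h' (exp_pos _).le) (by positivity) (by linarith)
        _ = (exp η - 1 + η) * exp η * Q := by ring
        _ ≤ _ := mul_le_mul_of_nonneg_right hη2.1 hQ0
    have h3 : R ^ 2 ≤ (δ / 2 * sqrt Q) ^ 2 := by
      rw [mul_pow, Real.sq_sqrt hQ0]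
      exact h2
    exact abs_le_of_sq_le_sq h3 (by positivity)
  have b1 := hb R1 Q hQ0 r1 le_rfl
  have b2 := hb R2 _ (Finset.sum_nonneg fun n _ => sq_nonneg _) r2 hQ1
  have hsplit : ∀ lam : ℕ → ℝ, lam 1 = 1 → ∑ n ∈ s, c n * lam n = c 1 + ∑ n ∈ s.erase 1, c n * lam n := by
    intro lam hl
    by_cases h : 1 ∈ s
    · rw [← Finset.add_sum_erase s _ h, hl, mul_one]
    · rw [Finset.erase_eq_of_notMem h, Finsupp.notMem_support_iff.1 h, zero_add]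
  have e1 : ∑ f ∈ B, om f * ∑ n ∈ s, c n * W388.lamf f n = c 1 * Wt B + R2 := by
    rw [hR2]
    unfold Wt
    rw [Finset.mul_sum, ← Finset.sum_add_distrib]
    refine Finset.sum_congr rfl fun f hf => ?_
    obtain ⟨ε, hε⟩ := hBs.newf f hf
    rw [hsplit _ (W388.heckeSeq_lamf hε).one]
    ring
  rw [sum_even hE, e1]
  have e2 : ∑ f ∈ B, sg f * (om f * ∑ n ∈ s, c n * W388.lamf f n) = R1 := by
    rw [hR1]
    exact Finset.sum_congr rfl fun f _ => by ring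
  rw [e2]
  have hc1 : |c 1| ≤ sqrt Q := by
    apply Real.abs_le_sqrt
    by_cases h : 1 ∈ s
    · exact Finset.single_le_sum (f := fun n => c n ^ 2) (fun n _ => sq_nonneg _) h
    · rw [Finsupp.notMem_support_iff.1 h]
      simpa using hQ0
  have hW4 : |Wt B - 1| ≤ δ := by
    rw [abs_le]
    constructor <;> linarith [hη2.2, Real.add_one_le_exp η]
  have e3 : (c 1 * Wt B + R2 + R1) / 2 - c 1 / 2 = (c 1 * (Wt B - 1) + R2 + R1) / 2 := by ring
  rw [e3, abs_div, abs_two, div_le_iff₀ (by norm_num)]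
  have e4 : |c 1 * (Wt B - 1)| ≤ sqrt Q * δ := by
    rw [abs_mul]
    exact mul_le_mul hc1 hW4 (abs_nonneg _) (Real.sqrt_nonneg _)
  calc |c 1 * (Wt B - 1) + R2 + R1| ≤ |c 1 * (Wt B - 1)| + |R2| + |R1| := by
        refine (abs_add_le _ _).trans (add_le_add_left (abs_add_le _ _) _)
    _ ≤ sqrt Q * δ + δ / 2 * sqrt Q + δ / 2 * sqrt Q := by linarith
    _ = _ := by ring

/-- the approximate Petersson formula for the even forms, with a power saving -/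
theorem lin_even_pow : ∀ᶠ N : ℕ in atTop, N.Prime → ∀ [NeZero N] (B : Finset (SF N 2)),
      W388.LV.IsNewBasis N 2 B → ∀ E : Finset (SF N 2), (∀ f, f ∈ E ↔ f ∈ B ∧ W388.IsNewf N 2 f 1) →
      ∀ (c : ℕ →₀ ℝ), (∀ n ∈ c.support, 1 ≤ n ∧ (n : ℝ) ≤ (N : ℝ) ^ (1 - 1 / 8 : ℝ)) →
      |∑ f ∈ E, om f * ∑ n ∈ c.support, c n * W388.lamf f n - c 1 / 2| ≤
        (N : ℝ) ^ (-(1 / 1000) : ℝ) * sqrt (∑ n ∈ c.support, c n ^ 2) := by
  have t1 : Tendsto (fun N : ℕ => (N : ℝ) ^ (1 / 2000 : ℝ)) atTop atTop :=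
    (tendsto_rpow_atTop (by norm_num)).comp tendsto_natCast_atTop_atTop
  have t2 : Tendsto (fun N : ℕ => (N : ℝ) ^ (24 / 200 : ℝ)) atTop atTop :=
    (tendsto_rpow_atTop (by norm_num)).comp tendsto_natCast_atTop_atTop
  filter_upwards [mass_low3, t1.eventually_ge_atTop 36, t2.eventually_ge_atTop (16 * π ^ 2),
    eventually_ge_atTop 1] with N h1 h2 h3 h4 hN _ B hB E hE c hc
  have hN1 : (1 : ℝ) ≤ N := by exact_mod_cast h4
  have hN0 : (0 : ℝ) < N := by linarith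
  set η : ℝ := (N : ℝ) ^ (-(1 / 400) : ℝ) with hη
  set δ : ℝ := (N : ℝ) ^ (-(1 / 1000) : ℝ) with hδ
  have hη0 : 0 < η := Real.rpow_pos_of_pos hN0 _
  have hδ0 : 0 < δ := Real.rpow_pos_of_pos hN0 _
  have hη1 : η ≤ 1 := Real.rpow_le_one_of_one_le_of_nonpos hN1 (by norm_num)
  have hδ1 : δ ≤ 1 := Real.rpow_le_one_of_one_le_of_nonpos hN1 (by norm_num)
  have e1 : 36 * η ≤ δ ^ 2 := by
    have e2 : δ ^ 2 = (N : ℝ) ^ (1 / 2000 : ℝ) * η := by
      rw [hδ, hη, ← Real.rpow_natCast, ← Real.rpow_mul hN0.le, ← Real.rpow_add hN0]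
      norm_num
    rw [e2]
    exact mul_le_mul_of_nonneg_right h2 hη0.le
  have e3 : exp η - 1 + η ≤ 3 * η := by
    have h5 := Real.abs_exp_sub_one_sub_id_le (x := η) (by rw [abs_of_pos hη0]; exact hη1)
    have h6 := (abs_le.1 h5).2
    nlinarith
  have e4 : exp η ≤ 3 := by
    calc exp η ≤ exp 1 := exp_le_exp.2 hη1
      _ ≤ 3 := by have := Real.exp_one_lt_d9; linarith
  have hA0 : 0 ≤ exp η - 1 + η := by
    have := Real.add_one_le_exp η
    linarith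
  refine lin_even_par hN hB hE (η := η) (δ := δ) (ε0 := 1 / 8) hη0 hη1 ⟨?_, ?_⟩ hδ0 ?_ ?_ c hc
  · calc (exp η - 1 + η) * exp η ≤ (3 * η) * 3 := mul_le_mul e3 e4 (exp_pos _).le (by positivity)
      _ ≤ (δ / 2) ^ 2 := by nlinarith
  · have h5 : δ ^ 2 ≤ δ := by nlinarith
    linarith
  · refine le_trans ?_ (h1 hN B hB)
    have h5 : (N : ℝ) ^ (-(1 / 200) : ℝ) ≤ η := Real.rpow_le_rpow_of_exponent_le hN1 (by norm_num)
    linarith
  · rw [div_le_iff₀ (by positivity)]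
    have h5 : (N : ℝ) ^ (1 / 8 : ℝ) * η ^ 2 = (N : ℝ) ^ (24 / 200 : ℝ) := by
      rw [hη, ← Real.rpow_natCast, ← Real.rpow_mul hN0.le, ← Real.rpow_add hN0]
      norm_num
    rw [h5]
    exact h3

/-- the harmonic mean of an observable over the even forms, with a power saving -/
theorem obs_even_pow : ∀ᶠ N : ℕ in atTop, N.Prime → ∀ [NeZero N] (B : Finset (SF N 2)),
      W388.LV.IsNewBasis N 2 B →
      ∀ E : Finset (SF N 2), (∀ f, f ∈ E ↔ f ∈ B ∧ W388.IsNewf N 2 f 1) →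
      ∀ (S : Finset ℕ), (∀ p ∈ S, p.Prime) → (∀ p ∈ S, ¬ p ∣ N) → ∀ (D : ℝ) (F : (ℕ → ℝ) → ℝ),
      Obs S D F → D ≤ (N : ℝ) ^ (1 - 1 / 8 : ℝ) →
      |∑ f ∈ E, om f * F (W388.lamf f) - (∫ x, F (XX S x) ∂(mu S)) / 2| ≤
        (N : ℝ) ^ (-(1 / 1000) : ℝ) * sqrt (∫ x, F (XX S x) ^ 2 ∂(mu S)) := by
  filter_upwards [lin_even_pow] with N h1 hN _ B hB E hE S hS hSN D F hF hD
  obtain ⟨c, hc, hFc⟩ := hF
  rw [integral_obs hS hc hFc, integral_obs1 hS hc hFc]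
  have h2 := h1 hN B hB E hE c (fun n hn => ⟨(hc n hn).1.1, (hc n hn).2.trans hD⟩)
  have e1 : ∑ f ∈ E, om f * F (W388.lamf f) = ∑ f ∈ E, om f * ∑ n ∈ c.support, c n * W388.lamf f n := by
    refine Finset.sum_congr rfl fun f hf => ?_
    have hf1 := ((hE f).1 hf).2
    rw [hFc _ (hrel_lamf hf1 hS hSN), Finsupp.sum]
  rw [e1]
  exact h2

end Pool.Agent.H485.CC
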