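import Pool.Agent.H485.CC.Ml9
import Pool.Agent.H485.CC.Clt2

/-!
# Independence of the coordinates and the tilted characteristic function
-/

set_option autoImplicit false
set_option maxHeartbeats 1000000

open MeasureTheory Real Finset Filter Topology ProbabilityTheory

namespace Pool.Agent.H485.CC

/-- independence of disjoint sets of coordinates -/
theorem indep_int {S : Finset ℕ} (s : Finset ℕ) {F G : (S → ℝ) → ℝ}
    (hF : ∀ x y : S → ℝ, (∀ p : S, (p : ℕ) ∉ s → x p = y p) → F x = F y)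
    (hG : ∀ x y : S → ℝ, (∀ p : S, (p : ℕ) ∈ s → x p = y p) → G x = G y) :
    ∫ x, F x * G x ∂(mu S) = (∫ x, F x ∂(mu S)) * ∫ x, G x ∂(mu S) := by
  classical
  set q : S → Prop := fun p => (p : ℕ) ∈ s with hq
  set e := MeasurableEquiv.piEquivPiSubtypeProd (fun _ : S => ℝ) q with he
  have hmp : MeasurePreserving e (Measure.pi fun _ : S => st)
      ((Measure.pi fun _ : {x // q x} => st).prod (Measure.pi fun _ : {x // ¬ q x} => st)) :=
    measurePreserving_piEquivPiSubtypeProd (fun _ : S => st) q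
  have hsym1 : ∀ (z : ({x // q x} → ℝ) × ({x // ¬ q x} → ℝ)) (p : S) (h : q p), e.symm z p = z.1 ⟨p, h⟩ := by
    intro z p h
    show (if h : q p then _ else _) = _
    rw [dif_pos h]
  have hsym2 : ∀ (z : ({x // q x} → ℝ) × ({x // ¬ q x} → ℝ)) (p : S) (h : ¬ q p), e.symm z p = z.2 ⟨p, h⟩ := by
    intro z p h
    show (if h : q p then _ else _) = _
    rw [dif_neg h]
  set F2 : ({x // ¬ q x} → ℝ) → ℝ := fun w => F (e.symm (0, w)) with hF2
  set G1 : ({x // q x} → ℝ) → ℝ := fun w => G (e.symm (w, 0)) with hG1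
  have eF : ∀ z, F (e.symm z) = F2 z.2 := by
    intro z
    apply hF
    intro p hp
    rw [hsym2 z p hp, hsym2 _ p hp]
  have eG : ∀ z, G (e.symm z) = G1 z.1 := by
    intro z
    apply hG
    intro p hp
    rw [hsym1 z p hp, hsym1 _ p hp]
  have key : ∀ H : (S → ℝ) → ℝ, ∫ x, H x ∂(mu S) = ∫ z, H (e.symm z)
      ∂((Measure.pi fun _ : {x // q x} => st).prod (Measure.pi fun _ : {x // ¬ q x} => st)) := by
    intro H
    rw [← hmp.integral_comp']
    simp only [MeasurableEquiv.symm_apply_apply]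
    rfl
  rw [key F, key G, key]
  simp_rw [eF, eG]
  have h1 : ∫ z, F2 z.2 * G1 z.1 ∂((Measure.pi fun _ : {x // q x} => st).prod (Measure.pi fun _ : {x // ¬ q x} => st)) =
      (∫ w, G1 w ∂(Measure.pi fun _ : {x // q x} => st)) * ∫ w, F2 w ∂(Measure.pi fun _ : {x // ¬ q x} => st) := by
    rw [← integral_prod_mul]
    congr 1
    ext z
    ring
  have h2 : ∫ z, F2 z.2 ∂((Measure.pi fun _ : {x // q x} => st).prod (Measure.pi fun _ : {x // ¬ q x} => st)) =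
      ∫ w, F2 w ∂(Measure.pi fun _ : {x // ¬ q x} => st) := by
    have := integral_prod_mul (μ := (Measure.pi fun _ : {x // q x} => st))
      (ν := (Measure.pi fun _ : {x // ¬ q x} => st)) (fun _ => (1 : ℝ)) F2
    simpa using this
  have h3 : ∫ z, G1 z.1 ∂((Measure.pi fun _ : {x // q x} => st).prod (Measure.pi fun _ : {x // ¬ q x} => st)) =
      ∫ w, G1 w ∂(Measure.pi fun _ : {x // q x} => st) := by
    have := integral_prod_mul (μ := (Measure.pi fun _ : {x // q x} => st))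
      (ν := (Measure.pi fun _ : {x // ¬ q x} => st)) G1 (fun _ => (1 : ℝ))
    simpa using this
  rw [h1, h2, h3, mul_comm]

/-- the local estimate -/
lemma loc_char {t v : ℝ} (ht0 : 0 ≤ t) (ht : t ≤ 1 / 4000) (hv : |v| ≤ 1) :
    ‖∫ θ, ((exp (-1 * (uu 1 θ * t)) * lr t θ : ℝ) : ℂ) * Complex.exp (((v * (uu 1 θ * t) : ℝ) : ℂ) * Complex.I) ∂st -
      (((∫ θ, exp (-1 * (uu 1 θ * t)) * lr t θ ∂st) * exp (-((v * t) ^ 2 / 2)) : ℝ) : ℂ)‖ ≤ 13 * |v| * t ^ 3 := by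
  have ht1 : t ≤ 3 / 4 := by linarith
  set d : ℝ → ℝ := fun θ => exp (-1 * (uu 1 θ * t)) * lr t θ with hd
  set w : ℝ := ∫ θ, d θ ∂st with hw
  have hdi : Integrable d st := lr_int ht0 ht1 (-1)
  have hdc : Continuous d := by
    rw [hd]
    have h1 := (lr_CB ht0 ht1).1
    have h2 := continuous_uu 1
    fun_prop
  have t2 : 0 ≤ t ^ 2 := sq_nonneg t
  have t3 : 0 ≤ t ^ 3 := by positivity
  have hU : ∀ θ, |uu 1 θ| ≤ 2 := abs_uu_one
  have hU2 : ∀ θ, uu 1 θ ^ 2 ≤ 4 := fun θ => by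
    have := abs_le.1 (hU θ)
    nlinarith
  have hd1 : ∀ θ, |d θ - 1| ≤ 4 * t ^ 2 := by
    intro θ
    have h := loc_pt ht0 (by linarith) (b := -1) (by norm_num) (hU θ)
    have e1 : (1 - t ^ 2) + (-1 + 1) * t * uu 1 θ + (t ^ 2 * (1 + -1 + (-1) ^ 2 / 2)) * uu 1 θ ^ 2 =
        (1 - t ^ 2) + t ^ 2 / 2 * uu 1 θ ^ 2 := by ring
    rw [e1] at h
    have h2 := abs_le.1 h
    have h3 := hU2 θ
    have h4 : 2000 * t ^ 3 ≤ t ^ 2 := by nlinarith
    have h5 : 0 ≤ t ^ 2 / 2 * uu 1 θ ^ 2 := by positivity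
    have h6 : t ^ 2 / 2 * uu 1 θ ^ 2 ≤ t ^ 2 / 2 * 4 := mul_le_mul_of_nonneg_left h3 (by positivity)
    have e2 : d θ = exp (-1 * (uu 1 θ * t)) * (1 - uu 1 θ * t + t ^ 2)⁻¹ := rfl
    rw [← e2] at h2
    rw [abs_le]
    constructor <;> linarith [h2.1, h2.2]
  have ht22 : 4 * t ^ 2 ≤ 1 / 1000 := by nlinarith
  have hd2 : ∀ θ, |d θ| ≤ 2 := by
    intro θ
    have h1 := abs_le.1 (hd1 θ)
    rw [abs_le]
    constructor <;> linarith [h1.1, h1.2]
  have hw1 : |w - 1| ≤ 4 * t ^ 2 := by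
    have h := int_close hdi (integrable_const 1) (K := 4 * t ^ 2) hd1
    simpa using h
  have hw2 := abs_le.1 hw1
  -- the comparison function
  obtain ⟨q1, q2⟩ := st_quad 0 1 0
  obtain ⟨q3, q4⟩ := st_quad (-1) 0 1
  simp only [zero_add, one_mul, zero_mul, add_zero] at q1 q2 q3 q4
  have q4' : ∫ θ, (-1 + uu 1 θ ^ 2) ∂st = 0 := by rw [q4]; norm_num
  set G : ℝ → ℂ := fun θ => ((d θ * (1 - (v * t) ^ 2 / 2) - (v * t) ^ 2 / 2 * (-1 + uu 1 θ ^ 2) : ℝ) : ℂ) +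
    ((v * t * uu 1 θ : ℝ) : ℂ) * Complex.I with hG
  have hG1 : Integrable (fun θ => ((d θ * (1 - (v * t) ^ 2 / 2) - (v * t) ^ 2 / 2 * (-1 + uu 1 θ ^ 2) : ℝ) : ℂ)) st :=
    ((hdi.mul_const _).sub (q3.const_mul _)).ofReal
  have hG2 : Integrable (fun θ => ((v * t * uu 1 θ : ℝ) : ℂ) * Complex.I) st :=
    ((q1.const_mul (v * t)).ofReal).mul_const _
  have hGi : Integrable G st := hG1.add hG2
  have hGint : ∫ θ, G θ ∂st = ((w * (1 - (v * t) ^ 2 / 2) : ℝ) : ℂ) := by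
    rw [hG]
    rw [integral_add hG1 hG2, integral_complex_ofReal, integral_sub (hdi.mul_const _) (q3.const_mul _),
      integral_mul_const, integral_const_mul, q4', integral_mul_const, integral_complex_ofReal,
      integral_const_mul, q2, ← hw]
    simp
  have hFi : Integrable (fun θ => ((d θ : ℝ) : ℂ) * Complex.exp (((v * (uu 1 θ * t) : ℝ) : ℂ) * Complex.I)) st := by
    refine integrable_st (C := 2) ?_ fun θ => ?_
    · have := continuous_uu 1
      fun_prop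
    · rw [norm_mul, Complex.norm_exp_ofReal_mul_I, mul_one, Complex.norm_real]
      exact hd2 θ
  have hpt : ∀ θ, ‖((d θ : ℝ) : ℂ) * Complex.exp (((v * (uu 1 θ * t) : ℝ) : ℂ) * Complex.I) - G θ‖ ≤
      12 * |v| * t ^ 3 := by
    intro θ
    set U := uu 1 θ with hUd
    have h4 := Tdn_le 3 (v * (U * t))
    have e2 : Complex.exp (((v * (U * t) : ℝ) : ℂ) * Complex.I) = Tdn 3 (v * (U * t)) +
        (1 + ((v * (U * t) : ℝ) : ℂ) * Complex.I - (((v * (U * t)) ^ 2 / 2 : ℝ) : ℂ)) := by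
      unfold Tdn
      simp only [Finset.sum_range_succ, Finset.range_zero, Finset.sum_empty, Nat.factorial]
      push_cast
      linear_combination ((((v : ℂ) * ((U : ℂ) * (t : ℂ))) ^ 2) / 2) * Complex.I_sq
    rw [e2]
    have e3 : ((d θ : ℝ) : ℂ) * (Tdn 3 (v * (U * t)) +
        (1 + ((v * (U * t) : ℝ) : ℂ) * Complex.I - (((v * (U * t)) ^ 2 / 2 : ℝ) : ℂ))) - G θ =
        ((d θ : ℝ) : ℂ) * Tdn 3 (v * (U * t)) + (((d θ - 1) * (v * (U * t)) : ℝ) : ℂ) * Complex.I -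
          (((v * t) ^ 2 / 2 * ((d θ - 1) * (U ^ 2 - 1)) : ℝ) : ℂ) := by
      rw [hG]
      push_cast
      ring
    rw [e3]
    have b1 : ‖((d θ : ℝ) : ℂ) * Tdn 3 (v * (U * t))‖ ≤ 2 * ((8 / 6) * (|v| * t ^ 3)) := by
      rw [norm_mul, Complex.norm_real]
      refine mul_le_mul (hd2 θ) (h4.trans ?_) (norm_nonneg _) (by norm_num)
      have h5 : |v * (U * t)| ≤ |v| * (2 * t) := by
        rw [abs_mul, abs_mul, abs_of_nonneg ht0]
        exact mul_le_mul_of_nonneg_left (mul_le_mul_of_nonneg_right (hU θ) ht0) (abs_nonneg _)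
      have h6 : |v * (U * t)| ^ 3 ≤ (|v| * (2 * t)) ^ 3 := pow_le_pow_left₀ (abs_nonneg _) h5 3
      have h7 : (|v| * (2 * t)) ^ 3 ≤ 8 * (|v| * t ^ 3) := by
        have h8 : |v| ^ 3 ≤ |v| := by
          calc |v| ^ 3 = |v| * |v| ^ 2 := by ring
            _ ≤ |v| * 1 := mul_le_mul_of_nonneg_left (pow_le_one₀ (abs_nonneg _) hv) (abs_nonneg _)
            _ = _ := mul_one _
        calc (|v| * (2 * t)) ^ 3 = 8 * (|v| ^ 3 * t ^ 3) := by ring
          _ ≤ 8 * (|v| * t ^ 3) := by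
            have := mul_le_mul_of_nonneg_right h8 t3
            linarith
      have h9 : ((Nat.factorial 3 : ℕ) : ℝ) = 6 := by norm_num [Nat.factorial]
      rw [h9]
      linarith
    have b2 : ‖(((d θ - 1) * (v * (U * t)) : ℝ) : ℂ) * Complex.I‖ ≤ 8 * (|v| * t ^ 3) := by
      rw [norm_mul, Complex.norm_I, mul_one, Complex.norm_real, Real.norm_eq_abs, abs_mul]
      have h5 : |v * (U * t)| ≤ |v| * (2 * t) := by
        rw [abs_mul, abs_mul, abs_of_nonneg ht0]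
        exact mul_le_mul_of_nonneg_left (mul_le_mul_of_nonneg_right (hU θ) ht0) (abs_nonneg _)
      calc |d θ - 1| * |v * (U * t)| ≤ (4 * t ^ 2) * (|v| * (2 * t)) :=
            mul_le_mul (hd1 θ) h5 (abs_nonneg _) (by positivity)
        _ = _ := by ring
    have b3 : ‖(((v * t) ^ 2 / 2 * ((d θ - 1) * (U ^ 2 - 1)) : ℝ) : ℂ)‖ ≤ |v| * t ^ 3 := by
      rw [Complex.norm_real, Real.norm_eq_abs, abs_mul, abs_mul, abs_of_nonneg (show 0 ≤ (v * t) ^ 2 / 2 by positivity)]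
      have h5 : |U ^ 2 - 1| ≤ 3 := by
        rw [abs_le]
        constructor <;> linarith [hU2 θ, sq_nonneg U]
      have h6 : (v * t) ^ 2 / 2 * (|d θ - 1| * |U ^ 2 - 1|) ≤ (v * t) ^ 2 / 2 * ((4 * t ^ 2) * 3) := by
        refine mul_le_mul_of_nonneg_left ?_ (by positivity)
        exact mul_le_mul (hd1 θ) h5 (abs_nonneg _) (by positivity)
      refine h6.trans ?_
      have h7 : v ^ 2 ≤ |v| := by
        rw [← sq_abs]
        calc |v| ^ 2 = |v| * |v| := by ring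
          _ ≤ |v| * 1 := mul_le_mul_of_nonneg_left hv (abs_nonneg _)
          _ = _ := mul_one _
      calc (v * t) ^ 2 / 2 * ((4 * t ^ 2) * 3) = v ^ 2 * (t ^ 3 * (6 * t)) := by ring
        _ ≤ |v| * (t ^ 3 * 1) := by
          refine mul_le_mul h7 ?_ (by positivity) (abs_nonneg _)
          exact mul_le_mul_of_nonneg_left (by linarith) t3
        _ = _ := by ring
    calc _ ≤ ‖((d θ : ℝ) : ℂ) * Tdn 3 (v * (U * t)) + (((d θ - 1) * (v * (U * t)) : ℝ) : ℂ) * Complex.I‖ +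
          ‖(((v * t) ^ 2 / 2 * ((d θ - 1) * (U ^ 2 - 1)) : ℝ) : ℂ)‖ := norm_sub_le _ _
      _ ≤ (2 * ((8 / 6) * (|v| * t ^ 3)) + 8 * (|v| * t ^ 3)) + |v| * t ^ 3 :=
          add_le_add ((norm_add_le _ _).trans (add_le_add b1 b2)) b3
      _ ≤ _ := by
          have : 0 ≤ |v| * t ^ 3 := by positivity
          linarith
  have hmain : ‖(∫ θ, ((d θ : ℝ) : ℂ) * Complex.exp (((v * (uu 1 θ * t) : ℝ) : ℂ) * Complex.I) ∂st) -
      ((w * (1 - (v * t) ^ 2 / 2) : ℝ) : ℂ)‖ ≤ 12 * |v| * t ^ 3 := by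
    rw [← hGint, ← integral_sub hFi hGi]
    refine (norm_integral_le_integral_norm _).trans ?_
    calc ∫ θ, ‖((d θ : ℝ) : ℂ) * Complex.exp (((v * (uu 1 θ * t) : ℝ) : ℂ) * Complex.I) - G θ‖ ∂st ≤
        ∫ _, 12 * |v| * t ^ 3 ∂st :=
          integral_mono_of_nonneg (Filter.Eventually.of_forall fun θ => norm_nonneg _)
            (integrable_const _) (Filter.Eventually.of_forall hpt)
      _ = _ := by simp
  have hexp : ‖((w * (1 - (v * t) ^ 2 / 2) : ℝ) : ℂ) - ((w * exp (-((v * t) ^ 2 / 2)) : ℝ) : ℂ)‖ ≤ |v| * t ^ 3 := by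
    rw [← Complex.ofReal_sub, Complex.norm_real, Real.norm_eq_abs]
    have h1 : |exp (-((v * t) ^ 2 / 2)) - 1 - (-((v * t) ^ 2 / 2))| ≤ (-((v * t) ^ 2 / 2)) ^ 2 := by
      apply Real.abs_exp_sub_one_sub_id_le
      rw [abs_neg, abs_of_nonneg (by positivity)]
      have h2 : (v * t) ^ 2 ≤ 1 := by
        rw [← sq_abs, abs_mul, abs_of_nonneg ht0]
        exact pow_le_one₀ (by positivity) (by nlinarith [abs_nonneg v])
      linarith
    have e1 : w * (1 - (v * t) ^ 2 / 2) - w * exp (-((v * t) ^ 2 / 2)) =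
        -(w * (exp (-((v * t) ^ 2 / 2)) - 1 - (-((v * t) ^ 2 / 2)))) := by ring
    rw [e1, abs_neg, abs_mul]
    have h3 : |w| ≤ 2 := by
      rw [abs_le]
      constructor <;> linarith [hw2.1, hw2.2]
    have h7 : v ^ 2 ≤ |v| := by
      rw [← sq_abs]
      calc |v| ^ 2 = |v| * |v| := by ring
        _ ≤ |v| * 1 := mul_le_mul_of_nonneg_left hv (abs_nonneg _)
        _ = _ := mul_one _
    have h8 : v ^ 4 ≤ |v| := by
      calc v ^ 4 = v ^ 2 * v ^ 2 := by ring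
        _ ≤ |v| * 1 := mul_le_mul h7 (h7.trans hv) (sq_nonneg _) (abs_nonneg _)
        _ = _ := mul_one _
    calc |w| * |exp (-((v * t) ^ 2 / 2)) - 1 - (-((v * t) ^ 2 / 2))| ≤ 2 * (-((v * t) ^ 2 / 2)) ^ 2 :=
          mul_le_mul h3 h1 (abs_nonneg _) (by norm_num)
      _ = v ^ 4 * (t ^ 3 * (t / 2)) := by ring
      _ ≤ |v| * (t ^ 3 * 1) := by
        refine mul_le_mul h8 ?_ (by positivity) (abs_nonneg _)
        exact mul_le_mul_of_nonneg_left (by linarith) t3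
      _ = _ := by ring
  calc _ ≤ ‖(∫ θ, ((d θ : ℝ) : ℂ) * Complex.exp (((v * (uu 1 θ * t) : ℝ) : ℂ) * Complex.I) ∂st) -
        ((w * (1 - (v * t) ^ 2 / 2) : ℝ) : ℂ)‖ +
        ‖((w * (1 - (v * t) ^ 2 / 2) : ℝ) : ℂ) - ((w * exp (-((v * t) ^ 2 / 2)) : ℝ) : ℂ)‖ :=
        norm_sub_le_norm_sub_add_norm_sub _ _ _
    _ ≤ 12 * |v| * t ^ 3 + |v| * t ^ 3 := add_le_add hmain hexp
    _ = _ := by ring

lemma II_gl_pos (b : ℝ) (p : ℕ) : 0 < II gl b p := by
  unfold II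
  have h1 : CB fun θ => exp (b * (uu 1 θ * tp p)) * gl p θ := by
    refine CB.mul (CB.exp ?_) (gl_CB p)
    refine ⟨continuous_const.mul ((continuous_uu 1).mul continuous_const), |b| * (2 * tp p), fun θ => ?_⟩
    rw [abs_mul, abs_mul, abs_of_nonneg (tp_nonneg p)]
    exact mul_le_mul_of_nonneg_left (mul_le_mul_of_nonneg_right (abs_uu_one θ) (tp_nonneg p)) (abs_nonneg _)
  have hpos : ∀ θ, 0 < exp (b * (uu 1 θ * tp p)) * gl p θ := by
    intro θ
    refine mul_pos (exp_pos _) ?_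
    unfold gl
    split_ifs with h
    · exact lr_pos (tp_nonneg p) (tp_le h) θ
    · exact one_pos
  obtain ⟨hc, C, hC⟩ := h1
  have hi : Integrable (fun θ => exp (b * (uu 1 θ * tp p)) * gl p θ) st :=
    integrable_st (C := C) hc fun θ => by rw [Real.norm_eq_abs]; exact hC θ
  refine (integral_pos_iff_support_of_nonneg (fun θ => (hpos θ).le) hi).2 ?_
  have : Function.support (fun θ => exp (b * (uu 1 θ * tp p)) * gl p θ) = Set.univ := by
    ext θ
    rw [Function.mem_support]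
    exact ⟨fun _ => trivial, fun _ => (hpos θ).ne'⟩
  rw [this]
  simp

/-- the tilted density of a prime -/
noncomputable def dn (p : ℕ) (θ : ℝ) : ℝ := exp (-1 * (uu 1 θ * tp p)) * gl p θ / II gl (-1) p

lemma dn_CB (p : ℕ) : CB (dn p) := by
  have h1 : CB fun θ => exp (-1 * (uu 1 θ * tp p)) * gl p θ := by
    refine CB.mul (CB.exp ?_) (gl_CB p)
    refine ⟨continuous_const.mul ((continuous_uu 1).mul continuous_const), |(-1 : ℝ)| * (2 * tp p), fun θ => ?_⟩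
    rw [abs_mul, abs_mul, abs_of_nonneg (tp_nonneg p)]
    exact mul_le_mul_of_nonneg_left (mul_le_mul_of_nonneg_right (abs_uu_one θ) (tp_nonneg p)) (abs_nonneg _)
  have h2 := h1.mul (CB.const (II gl (-1) p)⁻¹)
  exact h2

lemma gl_pos (p : ℕ) (θ : ℝ) : 0 < gl p θ := by
  unfold gl
  split_ifs with h
  · exact lr_pos (tp_nonneg p) (tp_le h) θ
  · exact one_pos

lemma dn_nonneg (p : ℕ) (θ : ℝ) : 0 ≤ dn p θ :=
  div_nonneg (mul_nonneg (exp_pos _).le (gl_pos p θ).le) (II_gl_pos _ _).le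

lemma dn_int (p : ℕ) : ∫ θ, dn p θ ∂st = 1 := by
  unfold dn
  rw [integral_div]
  exact div_self (II_gl_pos _ _).ne'

/-- the tilted local characteristic function -/
noncomputable def chl (v : ℝ) (p : ℕ) : ℂ :=
  ∫ θ, ((dn p θ : ℝ) : ℂ) * Complex.exp (((v * (uu 1 θ * tp p) : ℝ) : ℂ) * Complex.I) ∂st

lemma chl_norm (v : ℝ) (p : ℕ) : ‖chl v p‖ ≤ 1 := by
  unfold chl
  refine (norm_integral_le_integral_norm _).trans ?_
  have e : ∀ θ, ‖((dn p θ : ℝ) : ℂ) * Complex.exp (((v * (uu 1 θ * tp p) : ℝ) : ℂ) * Complex.I)‖ = dn p θ := by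
    intro θ
    rw [norm_mul, Complex.norm_exp_ofReal_mul_I, mul_one, Complex.norm_real, Real.norm_eq_abs,
      abs_of_nonneg (dn_nonneg p θ)]
  simp_rw [e]
  rw [dn_int]

lemma chl_gauss {p : ℕ} (hp : p.Prime) (ht : tp p ≤ 1 / 4000) {v : ℝ} (hv : |v| ≤ 1) :
    ‖chl v p - ((exp (-((v * tp p) ^ 2 / 2)) : ℝ) : ℂ)‖ ≤ 26 * |v| * tp p ^ 3 := by
  have h := loc_char (tp_nonneg p) ht hv
  have hw0 := II_gl_pos (-1) p
  set w := II gl (-1) p with hw
  have e0 : ∫ θ, exp (-1 * (uu 1 θ * tp p)) * lr (tp p) θ ∂st = w := (II_gl hp (-1)).symm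
  rw [e0] at h
  have e1 : chl v p = ((w⁻¹ : ℝ) : ℂ) * ∫ θ, ((exp (-1 * (uu 1 θ * tp p)) * lr (tp p) θ : ℝ) : ℂ) *
      Complex.exp (((v * (uu 1 θ * tp p) : ℝ) : ℂ) * Complex.I) ∂st := by
    have hgl : ∀ θ, gl p θ = lr (tp p) θ := fun θ => by unfold gl; rw [if_pos hp]
    unfold chl dn
    rw [← integral_const_mul, ← hw]
    congr 1
    ext θ
    rw [hgl, div_eq_mul_inv]
    push_cast
    ring
  have e2 : chl v p - ((exp (-((v * tp p) ^ 2 / 2)) : ℝ) : ℂ) = ((w⁻¹ : ℝ) : ℂ) *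
      ((∫ θ, ((exp (-1 * (uu 1 θ * tp p)) * lr (tp p) θ : ℝ) : ℂ) *
      Complex.exp (((v * (uu 1 θ * tp p) : ℝ) : ℂ) * Complex.I) ∂st) -
        ((w * exp (-((v * tp p) ^ 2 / 2)) : ℝ) : ℂ)) := by
    rw [mul_sub, ← e1]
    congr 1
    rw [← Complex.ofReal_mul, ← mul_assoc, inv_mul_cancel₀ hw0.ne', one_mul]
  have hw1 : 1 / 2 ≤ w := by
    have h1 := loc_low (tp_nonneg p) ht
    rw [e0] at h1
    refine le_trans ?_ h1
    have h2 := Real.add_one_le_exp (-(tp p ^ 2 / 2) - 2001 * tp p ^ 3)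
    have h3 := tp_nonneg p
    have h4 : tp p ^ 2 ≤ 1 / 4 := by nlinarith
    have h5 : 2001 * tp p ^ 3 ≤ 1 / 4 := by
      have : tp p ^ 3 = tp p * tp p ^ 2 := by ring
      rw [this]
      nlinarith [sq_nonneg (tp p)]
    linarith
  rw [e2, norm_mul, Complex.norm_real, Real.norm_eq_abs, abs_of_pos (inv_pos.2 hw0)]
  have h6 : w⁻¹ ≤ 2 := by
    rw [inv_le_comm₀ hw0 (by norm_num)]
    linarith
  calc w⁻¹ * _ ≤ 2 * (13 * |v| * tp p ^ 3) := mul_le_mul h6 h (norm_nonneg _) (by norm_num)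
    _ = _ := by ring

end Pool.Agent.H485.CC
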