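import Pool.Agent.H485.CC.Ep3

/-!
# The tilted law of the last block
-/

set_option autoImplicit false
set_option maxHeartbeats 1000000

open MeasureTheory Real Finset Filter Topology ProbabilityTheory

namespace Pool.Agent.H485.CC

/-- the primes of the last block -/
noncomputable def SR (A p0 N : ℕ) : Finset ℕ := Sc A p0 N (Rn N)

/-- the sum over the last block -/
noncomputable def PR (A p0 N : ℕ) (x : Sb N → ℝ) : ℝ := PP (SR A p0 N) (XX (Sb N) x)

/-- the normalized sum over the last block -/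
noncomputable def XR (A p0 N : ℕ) (x : Sb N → ℝ) : ℝ := PR A p0 N x / sl N

/-- the tilted density -/
noncomputable def rhoR (A p0 N : ℕ) (x : Sb N → ℝ) : ℝ :=
  ∏ p : Sb N, if (p : ℕ) ∈ SR A p0 N then dn p (x p) else 1

/-- the Euler factors of the last block -/
noncomputable def ELR (A p0 N : ℕ) (x : Sb N → ℝ) : ℝ :=
  ∏ p : Sb N, if (p : ℕ) ∈ SR A p0 N then gl p (x p) else 1

/-- the other Euler factors -/
noncomputable def ELo (A p0 N : ℕ) (x : Sb N → ℝ) : ℝ :=
  ∏ p : Sb N, if (p : ℕ) ∈ SR A p0 N then 1 else gl p (x p)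

/-- the normalization -/
noncomputable def wR (A p0 N : ℕ) : ℝ := ∏ p ∈ SR A p0 N, II gl (-1) p

variable {A p0 N : ℕ} {C : ℝ}

lemma wR_pos (A p0 N : ℕ) : 0 < wR A p0 N := Finset.prod_pos fun _ _ => II_gl_pos _ _

lemma PR_cont (A p0 N : ℕ) : Continuous (PR A p0 N) := PP_cont

lemma XR_cont (A p0 N : ℕ) : Continuous (XR A p0 N) := (PR_cont A p0 N).div_const _

lemma rhoR_CB (A p0 N : ℕ) : CB (rhoR A p0 N) := by
  unfold rhoR
  refine CB.prod _ fun p _ => ?_
  split_ifs
  · exact (dn_CB p).comp (continuous_apply p)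
  · exact CB.const 1

lemma ELR_CB (A p0 N : ℕ) : CB (ELR A p0 N) := by
  unfold ELR
  refine CB.prod _ fun p _ => ?_
  split_ifs
  · exact (gl_CB p).comp (continuous_apply p)
  · exact CB.const 1

lemma rhoR_nonneg (A p0 N : ℕ) (x : Sb N → ℝ) : 0 ≤ rhoR A p0 N x := by
  unfold rhoR
  refine Finset.prod_nonneg fun p _ => ?_
  split_ifs
  · exact dn_nonneg _ _
  · exact zero_le_one

lemma ELR_pos (A p0 N : ℕ) (x : Sb N → ℝ) : 0 < ELR A p0 N x := by
  unfold ELR
  refine Finset.prod_pos fun p _ => ?_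
  split_ifs
  · exact gl_pos _ _
  · exact one_pos

lemma ELo_pos (A p0 N : ℕ) (x : Sb N → ℝ) : 0 < ELo A p0 N x := by
  unfold ELo
  refine Finset.prod_pos fun p _ => ?_
  split_ifs
  · exact one_pos
  · exact gl_pos _ _

lemma EL_split (A p0 N : ℕ) (x : Sb N → ℝ) : EL (Sb N) x = ELo A p0 N x * ELR A p0 N x := by
  rw [EL_eq Sb_prime]
  unfold ELo ELR
  rw [← Finset.prod_mul_distrib]
  refine Finset.prod_congr rfl fun p _ => ?_
  split_ifs <;> ring

lemma rhoR_int (A p0 N : ℕ) : ∫ x, rhoR A p0 N x ∂(mu (Sb N)) = 1 := by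
  unfold rhoR mu
  have h := integral_fintype_prod_eq_prod (μ := fun _ : Sb N => st)
    (f := fun (p : Sb N) θ => if (p : ℕ) ∈ SR A p0 N then dn p θ else (1 : ℝ))
  rw [h]
  refine Finset.prod_eq_one fun p _ => ?_
  by_cases hp : (p : ℕ) ∈ SR A p0 N
  · simp only [if_pos hp]
    exact dn_int p
  · simp only [if_neg hp]
    simp

lemma SR_sub (hG : Good A p0 N C) : SR A p0 N ⊆ Sb N := hG.sc_sub' (by omega)

/-- integrals of exponentials over the last block -/
lemma int_ELR (hG : Good A p0 N C) (b : ℝ) : ∫ x, exp (b * PR A p0 N x) * ELR A p0 N x ∂(mu (Sb N)) =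
    ∏ p ∈ SR A p0 N, II gl b p := by
  have hsub := SR_sub hG
  have h := prod_int (S := Sb N) (fun p => if p ∈ SR A p0 N then b else 0)
    (fun p θ => if p ∈ SR A p0 N then gl p θ else 1)
  have e1 : ∀ x : Sb N → ℝ, ∏ p : Sb N, (exp ((if (p : ℕ) ∈ SR A p0 N then b else 0) * (uu 1 (x p) * tp p)) *
      (if (p : ℕ) ∈ SR A p0 N then gl p (x p) else 1)) = exp (b * PR A p0 N x) * ELR A p0 N x := by
    intro x
    rw [Finset.prod_mul_distrib]
    unfold ELR PR
    congr 1
    rw [PP_XX Sb_prime hsub, Finset.mul_sum, Real.exp_sum]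
    refine Finset.prod_congr rfl fun p _ => ?_
    split_ifs
    · congr 1
      ring
    · simp
  simp only [e1] at h
  rw [h, ← Finset.prod_subset hsub]
  · refine Finset.prod_congr rfl fun p hp => ?_
    rw [if_pos hp]
    unfold II
    simp only [if_pos hp]
  · intro p _ hp
    rw [if_neg hp]
    unfold II
    simp [if_neg hp]

lemma rho_eq (hG : Good A p0 N C) (x : Sb N → ℝ) :
    exp (-PR A p0 N x) * ELR A p0 N x = wR A p0 N * rhoR A p0 N x := by
  have hsub := SR_sub hG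
  have e0 : wR A p0 N = ∏ p : Sb N, if (p : ℕ) ∈ SR A p0 N then II gl (-1) p else 1 := by
    rw [Finset.prod_coe_sort (Sb N) (fun p => if p ∈ SR A p0 N then II gl (-1) p else 1),
      ← Finset.prod_subset hsub]
    · unfold wR
      refine Finset.prod_congr rfl fun p hp => ?_
      rw [if_pos hp]
    · intro p _ hp
      rw [if_neg hp]
  rw [e0]
  unfold PR ELR rhoR
  rw [PP_XX Sb_prime hsub, ← Finset.sum_neg_distrib, Real.exp_sum, ← Finset.prod_mul_distrib,
    ← Finset.prod_mul_distrib]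
  refine Finset.prod_congr rfl fun p _ => ?_
  split_ifs with h
  · unfold dn
    have := (II_gl_pos (-1) p).ne'
    field_simp
  · simp

/-- the characteristic function of the tilted law -/
lemma char_R (hG : Good A p0 N C) (u : ℝ) :
    ∫ x, ((rhoR A p0 N x : ℝ) : ℂ) * Complex.exp (((u * XR A p0 N x : ℝ) : ℂ) * Complex.I) ∂(mu (Sb N)) =
      ∏ p ∈ SR A p0 N, chl (u / sl N) p := by
  have hsub := SR_sub hG
  have h := integral_fintype_prod_eq_prod (μ := fun _ : Sb N => st)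
    (f := fun (p : Sb N) θ => (if (p : ℕ) ∈ SR A p0 N then ((dn p θ : ℝ) : ℂ) else (1 : ℂ)) *
      Complex.exp ((((if (p : ℕ) ∈ SR A p0 N then u / sl N else 0) * (uu 1 θ * tp p) : ℝ) : ℂ) * Complex.I))
  have e1 : ∀ x : Sb N → ℝ, ∏ p : Sb N, ((if (p : ℕ) ∈ SR A p0 N then ((dn p (x p) : ℝ) : ℂ) else (1 : ℂ)) *
      Complex.exp ((((if (p : ℕ) ∈ SR A p0 N then u / sl N else 0) * (uu 1 (x p) * tp p) : ℝ) : ℂ) * Complex.I)) =
      ((rhoR A p0 N x : ℝ) : ℂ) * Complex.exp (((u * XR A p0 N x : ℝ) : ℂ) * Complex.I) := by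
    intro x
    rw [Finset.prod_mul_distrib, ← Complex.exp_sum, ← Finset.sum_mul, ← Complex.ofReal_sum]
    congr 1
    · unfold rhoR
      rw [Complex.ofReal_prod]
      refine Finset.prod_congr rfl fun p _ => ?_
      split_ifs <;> simp
    · congr 3
      unfold XR PR
      rw [PP_XX Sb_prime hsub, Finset.sum_div, Finset.mul_sum]
      refine Finset.sum_congr rfl fun p _ => ?_
      split_ifs
      · ring
      · simp
  simp only [e1] at h
  unfold mu
  rw [h, Finset.prod_coe_sort (Sb N) (fun p => ∫ θ, (if p ∈ SR A p0 N then ((dn p θ : ℝ) : ℂ) else (1 : ℂ)) *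
      Complex.exp ((((if p ∈ SR A p0 N then u / sl N else 0) * (uu 1 θ * tp p) : ℝ) : ℂ) * Complex.I) ∂st),
    ← Finset.prod_subset hsub]
  · refine Finset.prod_congr rfl fun p hp => ?_
    unfold chl
    simp only [if_pos hp]
  · intro p _ hp
    simp only [if_neg hp]
    simp

/-- the variance of the last block -/
lemma vR_bounds (hG : Good A p0 N C) :
    ll N - (2 * log (ll N) + (2 * C + log (256 * A) + p0)) ≤ vv A p0 N (Rn N) ∧
      vv A p0 N (Rn N) ≤ ll N + (C + log (256 * A) + p0) := by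
  have h1 : ∑ i ∈ range (Rn N + 1), vv A p0 N i = ∑ p ∈ Sa A p0 N, (1 : ℝ) / p := hG.sum _
  rw [Finset.sum_range_succ] at h1
  have h2 := abs_le.1 hG.V
  have h3 := hG.v3
  have h4 : 0 ≤ ∑ i ∈ range (Rn N), vv A p0 N i :=
    Finset.sum_nonneg fun i _ => Finset.sum_nonneg fun p _ => by positivity
  constructor <;> linarith [h2.1, h2.2]

lemma vR_ratio (hev : ∀ᶠ N : ℕ in atTop, Good A p0 N C) :
    Tendsto (fun N : ℕ => vv A p0 N (Rn N) / ll N) atTop (𝓝 1) := by
  rw [Metric.tendsto_nhds]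
  intro ε hε
  filter_upwards [hev, ev_logll 2 (ε := ε / 4) (by positivity),
    ev_lin (|2 * C + log (256 * A) + p0| + |C + log (256 * A) + p0|) (ε := ε / 4) (by positivity), ev_ll 1] with N hG h1 h2 h3
  have hll : 0 < ll N := by linarith
  obtain ⟨v1, v2⟩ := vR_bounds hG
  have e1 := le_abs_self (2 * C + log (256 * (A : ℝ)) + p0)
  have e2 := le_abs_self (C + log (256 * (A : ℝ)) + p0)
  have e3 := abs_nonneg (2 * C + log (256 * (A : ℝ)) + p0)
  have e4 := abs_nonneg (C + log (256 * (A : ℝ)) + p0)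
  rw [Real.dist_eq]
  have e : vv A p0 N (Rn N) / ll N - 1 = (vv A p0 N (Rn N) - ll N) / ll N := by
    field_simp
  rw [e, abs_div, abs_of_pos hll, div_lt_iff₀ hll, abs_lt]
  have h5 : 0 < ε * ll N := by positivity
  constructor <;> linarith

/-- the characteristic function -/
theorem char_tilt (hev : ∀ᶠ N : ℕ in atTop, Good A p0 N C) (hp0 : ∀ p : ℕ, p0 < p → tp p ≤ 1 / 4000) (u : ℝ) :
    Tendsto (fun N : ℕ => ∫ x, ((rhoR A p0 N x : ℝ) : ℂ) *
      Complex.exp (((u * XR A p0 N x : ℝ) : ℂ) * Complex.I) ∂(mu (Sb N))) atTop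
      (𝓝 ((exp (-(u ^ 2 / 2)) : ℝ) : ℂ)) := by
  obtain ⟨C3, hC30, hC3⟩ := sum_tp3
  have h1 : Tendsto (fun N : ℕ => ((exp (-(u ^ 2 / 2) * (vv A p0 N (Rn N) / ll N)) : ℝ) : ℂ)) atTop
      (𝓝 ((exp (-(u ^ 2 / 2)) : ℝ) : ℂ)) := by
    have h2 : Tendsto (fun N : ℕ => -(u ^ 2 / 2) * (vv A p0 N (Rn N) / ll N)) atTop
        (𝓝 (-(u ^ 2 / 2) * 1)) := (vR_ratio hev).const_mul _
    rw [mul_one] at h2
    exact (Complex.continuous_ofReal.tendsto _).comp ((Real.continuous_exp.tendsto _).comp h2)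
  have h2 : Tendsto (fun N : ℕ => ∫ x, ((rhoR A p0 N x : ℝ) : ℂ) *
      Complex.exp (((u * XR A p0 N x : ℝ) : ℂ) * Complex.I) ∂(mu (Sb N)) -
      ((exp (-(u ^ 2 / 2) * (vv A p0 N (Rn N) / ll N)) : ℝ) : ℂ)) atTop (𝓝 0) := by
    have h3 : Tendsto (fun N : ℕ => 26 * |u| * C3 / sl N) atTop (𝓝 0) :=
      tendsto_sl.const_div_atTop _
    refine squeeze_zero_norm' ?_ h3
    filter_upwards [hev, ev_sl (|u| + 1), ev_ll 1] with N hG hs1 hll1
    have hsl : 0 < sl N := by
      have := abs_nonneg u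
      linarith
    have hll : 0 < ll N := by linarith
    have hgt : ∀ p ∈ SR A p0 N, p0 < p ∧ p.Prime := fun p hp => hG.gt p (hG.sc_sub (by omega) hp)
    have hv : |u / sl N| ≤ 1 := by
      rw [abs_div, abs_of_pos hsl, div_le_one hsl]
      linarith
    rw [char_R hG]
    have e1 : ((exp (-(u ^ 2 / 2) * (vv A p0 N (Rn N) / ll N)) : ℝ) : ℂ) =
        ∏ p ∈ SR A p0 N, ((exp (-((u / sl N * tp p) ^ 2 / 2)) : ℝ) : ℂ) := by
      rw [← Complex.ofReal_prod, ← Real.exp_sum]
      congr 2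
      unfold vv SR
      rw [Finset.sum_div, Finset.mul_sum]
      refine Finset.sum_congr rfl fun p _ => ?_
      rw [mul_pow, div_pow, tp_sq, sl_sq hll.le]
      ring
    rw [e1]
    refine (prod_diff _ _ _ (fun p _ => chl_norm _ _) (fun p _ => ?_)).trans ?_
    · rw [Complex.norm_real, Real.norm_eq_abs, abs_of_pos (exp_pos _), Real.exp_le_one_iff]
      have : 0 ≤ (u / sl N * tp p) ^ 2 / 2 := by positivity
      linarith
    · calc ∑ p ∈ SR A p0 N, ‖chl (u / sl N) p - ((exp (-((u / sl N * tp p) ^ 2 / 2)) : ℝ) : ℂ)‖ ≤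
          ∑ p ∈ SR A p0 N, (26 * |u / sl N|) * tp p ^ 3 := by
            refine Finset.sum_le_sum fun p hp => ?_
            exact chl_gauss (hgt p hp).2 (hp0 p (hgt p hp).1) hv
        _ = (26 * |u / sl N|) * ∑ p ∈ SR A p0 N, tp p ^ 3 := by rw [Finset.mul_sum]
        _ ≤ (26 * |u / sl N|) * C3 := mul_le_mul_of_nonneg_left (hC3 _) (by positivity)
        _ = _ := by
            rw [abs_div, abs_of_pos hsl]
            ring
  have h3 := h2.add h1
  rw [zero_add] at h3
  refine h3.congr fun N => ?_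
  ring

/-- the tilted measure -/
noncomputable def nuR (A p0 N : ℕ) : Measure (Sb N → ℝ) :=
  (mu (Sb N)).withDensity fun x => ENNReal.ofReal (rhoR A p0 N x)

instance (A p0 N : ℕ) : IsProbabilityMeasure (nuR A p0 N) := by
  refine ⟨?_⟩
  unfold nuR
  rw [withDensity_apply _ MeasurableSet.univ, Measure.restrict_univ,
    ← ofReal_integral_eq_lintegral_ofReal (rhoR_CB A p0 N).int
      (Filter.Eventually.of_forall fun x => rhoR_nonneg A p0 N x), rhoR_int, ENNReal.ofReal_one]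

lemma int_nuR {E : Type} [NormedAddCommGroup E] [NormedSpace ℝ E] (A p0 N : ℕ) (F : (Sb N → ℝ) → E) :
    ∫ x, F x ∂(nuR A p0 N) = ∫ x, rhoR A p0 N x • F x ∂(mu (Sb N)) := by
  unfold nuR
  rw [integral_withDensity_eq_integral_toReal_smul]
  · refine integral_congr_ae (Filter.Eventually.of_forall fun x => ?_)
    dsimp only
    rw [ENNReal.toReal_ofReal (rhoR_nonneg A p0 N x)]
  · exact (rhoR_CB A p0 N).1.measurable.ennreal_ofReal
  · exact Filter.Eventually.of_forall fun x => ENNReal.ofReal_lt_top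

/-- the law of the normalized sum -/
noncomputable def lawR (A p0 N : ℕ) : ProbabilityMeasure ℝ :=
  ⟨(nuR A p0 N).map (XR A p0 N), Measure.isProbabilityMeasure_map (XR_cont A p0 N).aemeasurable⟩

/-- the central limit theorem for the tilted law -/
theorem lawR_tendsto (hev : ∀ᶠ N : ℕ in atTop, Good A p0 N C) (hp0 : ∀ p : ℕ, p0 < p → tp p ≤ 1 / 4000) :
    Tendsto (lawR A p0) atTop (𝓝 gau) := by
  apply ProbabilityMeasure.tendsto_of_tendsto_charFun
  intro t
  have h1 : charFun (gau : Measure ℝ) t = ((exp (-(t ^ 2 / 2)) : ℝ) : ℂ) := by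
    show charFun (gaussianReal 0 1) t = _
    rw [charFun_gaussianReal]
    push_cast
    congr 1
    ring
  rw [h1]
  refine (char_tilt hev hp0 t).congr fun N => ?_
  show _ = charFun ((nuR A p0 N).map (XR A p0 N)) t
  rw [charFun_apply_real, integral_map (XR_cont A p0 N).aemeasurable (by fun_prop), int_nuR]
  refine integral_congr_ae (Filter.Eventually.of_forall fun x => ?_)
  simp

/-- convergence for bounded continuous functions -/
theorem tilt_int (hev : ∀ᶠ N : ℕ in atTop, Good A p0 N C) (hp0 : ∀ p : ℕ, p0 < p → tp p ≤ 1 / 4000)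
    {g : ℝ → ℝ} (hg : Continuous g) {M : ℝ} (hM : ∀ x, |g x| ≤ M) :
    Tendsto (fun N : ℕ => ∫ x, rhoR A p0 N x * g (XR A p0 N x) ∂(mu (Sb N))) atTop
      (𝓝 (∫ x, g x ∂(gaussianReal 0 1))) := by
  have h1 := (ProbabilityMeasure.tendsto_iff_forall_integral_tendsto.1 (lawR_tendsto hev hp0))
    (BoundedContinuousFunction.ofNormedAddCommGroup g hg M hM)
  refine h1.congr fun N => ?_
  show ∫ x, g x ∂((nuR A p0 N).map (XR A p0 N)) = _
  rw [integral_map (XR_cont A p0 N).aemeasurable hg.aestronglyMeasurable, int_nuR]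
  rfl

end Pool.Agent.H485.CC
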