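import Pool.Agent.H485.CC.Bnd

/-!
# Refined parameters: errors `exp (ε √(log log N))`
-/

set_option autoImplicit false
set_option maxHeartbeats 4000000

open MeasureTheory Real Finset Filter

namespace Pool.Agent.H485.CC

/-- `√(log log N)` -/
noncomputable def sl (N : ℕ) : ℝ := Real.sqrt (ll N)

lemma tendsto_sl : Tendsto sl atTop atTop := Real.tendsto_sqrt_atTop.comp tendsto_ll

lemma sl_sq {N : ℕ} (h : 0 ≤ ll N) : sl N ^ 2 = ll N := Real.sq_sqrt h

lemma ev_sl (c : ℝ) : ∀ᶠ N : ℕ in atTop, c ≤ sl N := tendsto_sl.eventually_ge_atTop c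

lemma ev_linS (C : ℝ) {ε : ℝ} (hε : 0 < ε) : ∀ᶠ N : ℕ in atTop, C ≤ ε * sl N := by
  filter_upwards [ev_sl (C / ε)] with N hN
  rw [div_le_iff₀ hε] at hN
  linarith

lemma ev_powS (C : ℝ) (k : ℕ) {ε : ℝ} (hε : 0 < ε) :
    ∀ᶠ N : ℕ in atTop, C * ll N ^ k ≤ exp (ε * sl N) := by
  have h1 := (isLittleO_pow_exp_pos_mul_atTop (k := 2 * k) hε).const_mul_left C
  have h2 := (h1.comp_tendsto tendsto_sl).bound (c := 1) one_pos
  filter_upwards [h2, ev_ll 0] with N hN h0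
  simp only [Function.comp_apply, Real.norm_eq_abs, one_mul, abs_exp] at hN
  rw [pow_mul, sl_sq h0] at hN
  exact (le_abs_self _).trans hN

lemma ev_loglS (C : ℝ) {ε : ℝ} (hε : 0 < ε) : ∀ᶠ N : ℕ in atTop, C * log (ll N) ≤ ε * sl N := by
  have h1 := (Real.isLittleO_log_id_atTop.const_mul_left (2 * C))
  have h2 := (h1.comp_tendsto tendsto_sl).bound (c := ε) hε
  filter_upwards [h2, ev_sl 1, ev_ll 1] with N hN h0 h1
  simp only [Function.comp_apply, Real.norm_eq_abs, id_eq, abs_of_nonneg (by linarith : 0 ≤ sl N)] at hN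
  have h3 : log (ll N) = 2 * log (sl N) := by
    rw [← sl_sq (by linarith : 0 ≤ ll N), Real.log_pow]
    push_cast
    ring
  rw [h3]
  have := (le_abs_self _).trans hN
  linarith

theorem ev_sumS1 {ε : ℝ} (hε : 0 < ε) : ∀ᶠ N : ℕ in atTop,
    |∑ p ∈ Ss N, (1 : ℝ) / p - ll N| ≤ ε * sl N := by
  obtain ⟨C, hC⟩ := Pool.Agent.Erdos456.Mert.mertens_inv
  have hC0 : 0 ≤ C := (abs_nonneg _).trans (hC 3 le_rfl)
  filter_upwards [ev_zlog 3, ev_linS (C + 2) (half_pos hε), ev_loglS 2 (half_pos hε), ev_ll 1,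
    ev_log 1] with N h1 h2 h3 h4 h5
  set X : ℝ := log N / ll N ^ 2 with hX
  have hz : zr N = exp X := rfl
  have h6 : exp X / 2 ≤ (zb N : ℕ) := by
    have h7 : zr N - 1 < (zb N : ℕ) := Nat.sub_one_lt_floor _
    have h8 : 2 ≤ exp X := by
      have := add_one_le_exp X
      linarith
    rw [hz] at h7
    linarith
  have h9 : (3 : ℝ) ≤ (zb N : ℕ) := by
    have h10 : 3 ≤ zb N := by
      unfold zb
      apply Nat.le_floor
      rw [hz]
      have := add_one_le_exp X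
      push_cast
      linarith
    exact_mod_cast h10
  have h10 : X / 2 ≤ log (zb N : ℕ) := by
    have h11 : log (exp X / 2) ≤ log (zb N : ℕ) := Real.log_le_log (by positivity) h6
    rw [Real.log_div (exp_pos _).ne' (by norm_num), Real.log_exp] at h11
    have h12 : log 2 ≤ 1 := by have := Real.log_two_lt_d9; linarith
    linarith
  have h11 : log (zb N : ℕ) ≤ X := by
    rw [Real.log_le_iff_le_exp (by linarith)]
    exact zb_le N
  have hX0 : 0 < X := by linarith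
  have hL0 : 0 < log (N : ℝ) := by linarith
  have hlogX : log X = ll N - 2 * log (ll N) := by
    rw [hX, Real.log_div hL0.ne' (by positivity), Real.log_pow]
    push_cast
    rfl
  have h12 : log (log (zb N : ℕ)) ≤ ll N := by
    calc log (log (zb N : ℕ)) ≤ log X := Real.log_le_log (by linarith) h11
      _ = ll N - 2 * log (ll N) := hlogX
      _ ≤ _ := by
        have : 0 ≤ log (ll N) := Real.log_nonneg h4
        linarith
  have h13 : ll N - 2 * log (ll N) - 1 ≤ log (log (zb N : ℕ)) := by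
    calc ll N - 2 * log (ll N) - 1 ≤ log (X / 2) := by
          rw [Real.log_div hX0.ne' (by norm_num), hlogX]
          have h12 : log 2 ≤ 1 := by have := Real.log_two_lt_d9; linarith
          linarith
      _ ≤ _ := Real.log_le_log (by positivity) h10
  have h14 := abs_le.1 (hC (zb N) (by exact_mod_cast h9))
  have h15 : ∑ p ∈ Ss N, (1 : ℝ) / p = ∑ p ∈ (Finset.Icc 1 (zb N)).filter Nat.Prime, (1 : ℝ) / p := rfl
  rw [abs_le, h15]
  constructor <;> linarith [h14.1, h14.2]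

theorem ev_sumB1 {ε : ℝ} (hε : 0 < ε) : ∀ᶠ N : ℕ in atTop,
    ∑ p ∈ Sb N, (1 : ℝ) / p ≤ ll N + ε * sl N := by
  obtain ⟨C, hC⟩ := Pool.Agent.Erdos456.Mert.mertens_inv
  have hC0 : 0 ≤ C := (abs_nonneg _).trans (hC 3 le_rfl)
  filter_upwards [ev_linS (C + 2) hε, ev_ll 1, ev_log 100] with N h2 h4 h5
  have hN0 : (0 : ℝ) < N := by
    by_contra h
    have : (N : ℝ) = 0 := le_antisymm (not_lt.1 h) (Nat.cast_nonneg N)
    rw [this, Real.log_zero] at h5
    linarith
  have hN1 : (1 : ℝ) ≤ N := by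
    by_contra h
    push Not at h
    have := Real.log_neg hN0 h
    linarith
  have h9 : 3 ≤ Yb N := by
    unfold Yb
    apply Nat.le_floor
    have e1 : (N : ℝ) ^ (3 / 4 : ℝ) = exp (log N * (3 / 4)) := Real.rpow_def_of_pos hN0 _
    rw [e1]
    have := add_one_le_exp (log N * (3 / 4))
    push_cast
    linarith
  have h9' : (3 : ℝ) ≤ (Yb N : ℕ) := by exact_mod_cast h9
  have h11 : log (Yb N : ℕ) ≤ log N := by
    apply Real.log_le_log (by linarith)
    calc ((Yb N : ℕ) : ℝ) ≤ (N : ℝ) ^ (3 / 4 : ℝ) := Nat.floor_le (by positivity)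
      _ ≤ (N : ℝ) ^ (1 : ℝ) := Real.rpow_le_rpow_of_exponent_le hN1 (by norm_num)
      _ = N := Real.rpow_one _
  have h10 : 0 < log (Yb N : ℕ) := Real.log_pos (by linarith)
  have h12 : log (log (Yb N : ℕ)) ≤ ll N := Real.log_le_log h10 h11
  have h14 := (abs_le.1 (hC (Yb N) h9)).2
  have h15 : ∑ p ∈ Sb N, (1 : ℝ) / p = ∑ p ∈ (Finset.Icc 1 (Yb N)).filter Nat.Prime, (1 : ℝ) / p := rfl
  rw [h15]
  linarith

theorem ev_sumD1 {ε : ℝ} (hε : 0 < ε) : ∀ᶠ N : ℕ in atTop,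
    ∑ p ∈ Sb N \ Ss N, (1 : ℝ) / p ≤ ε * sl N := by
  filter_upwards [ev_sumS1 (half_pos hε), ev_sumB1 (half_pos hε), ev_sub] with N h1 h2 h3
  rw [Finset.sum_sdiff_eq_sub h3]
  linarith [(abs_le.1 h1).1]

/-- the size of `s` on the short segment -/
lemma s_small {N : ℕ} (h6 : 1950 ≤ ll N) (hL0 : 0 < log (N : ℝ)) {τ : ℝ} (hτ : |τ| ≤ exp 1 * (1 / hh N)) :
    ‖((1 / log (N : ℝ) : ℝ) : ℂ) + τ * Complex.I‖ ≤ 1950 * ll N / log N := by
  have hmm := mm_le (N := N) (by linarith)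
  have hmm2 : (2 : ℝ) ≤ mm N := by exact_mod_cast mm_two N
  have e1 : ‖((1 / log (N : ℝ) : ℝ) : ℂ) + τ * Complex.I‖ ≤ 1 / log N + |τ| := by
    refine (norm_add_le _ _).trans ?_
    rw [norm_mul, Complex.norm_I, mul_one, Complex.norm_real, Complex.norm_real, Real.norm_eq_abs,
      Real.norm_eq_abs, abs_of_pos (by positivity)]
  have e2 : 1 / hh N = 8 * mm N / log N := by unfold hh; rw [one_div_div]
  rw [e2] at hτ
  have e3 : exp 1 ≤ 2.72 := by have := Real.exp_one_lt_d9; linarith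
  have e4 : exp 1 * (8 * mm N / log N) ≤ 2.72 * (8 * mm N / log N) :=
    mul_le_mul_of_nonneg_right e3 (by positivity)
  calc ‖((1 / log (N : ℝ) : ℝ) : ℂ) + τ * Complex.I‖ ≤ 1 / log N + 2.72 * (8 * mm N / log N) := by linarith
    _ = (1 + 21.76 * mm N) / log N := by ring
    _ ≤ (30 * mm N) / log N := by
        apply div_le_div_of_nonneg_right _ hL0.le
        linarith
    _ ≤ _ := by
        apply div_le_div_of_nonneg_right _ hL0.le
        linarith

/-- the refined estimate at `b = -2` -/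
theorem near_MM1 {ε : ℝ} (hε : 0 < ε) : ∀ᶠ N : ℕ in atTop, ∀ τ : ℝ,
    |τ| ≤ exp 1 * (1 / hh N) →
    MM (Sb N) (Ss N) (-2) (((1 / log (N : ℝ) : ℝ) : ℂ) + τ * Complex.I) ≤
      exp (-ll N + ε * sl N) := by
  obtain ⟨K, hK0, hK⟩ := MM_le 6 (by norm_num)
  obtain ⟨C3, hC30, hC3⟩ := sum_tp3
  obtain ⟨CL, hCL0, hCL⟩ := sum_log
  filter_upwards [ev_sumS1 (ε := ε / 4) (by positivity), ev_sumD1 (ε := ε / 4) (by positivity),
    hCL, ev_linS (46800 * (1 + CL)) (ε := ε / 4) (by positivity),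
    ev_linS (K * C3) (ε := ε / 4) (by positivity), ev_ll 1950, ev_log 1, ev_sub]
    with N h1 h2 h3 h4 h5 h6 h7 hsub τ hτ
  have hL0 : 0 < log (N : ℝ) := by linarith
  have hll0 : 0 < ll N := by linarith
  set s : ℂ := ((1 / log (N : ℝ) : ℝ) : ℂ) + τ * Complex.I with hs
  have hsre : 0 ≤ s.re := by
    rw [hs, re_line]; positivity
  have hLl : ll N ≤ log N := by
    have := add_one_le_exp (ll N)
    rw [exp_ll hL0] at this
    linarith
  have hsn : ‖s‖ ≤ 1950 * ll N / log N := s_small h6 hL0 hτ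
  have hlp : ∀ p ∈ Ss N, log (p : ℝ) ≤ log N / ll N ^ 2 := by
    intro p hp
    have hp0 : (0 : ℝ) < p := by exact_mod_cast (Ss_prime p hp).pos
    rw [Real.log_le_iff_le_exp hp0]
    exact Ss_le p hp
  have hsp : ∀ p ∈ Ss N, ‖s‖ * log p ≤ 1 := by
    intro p hp
    calc ‖s‖ * log p ≤ (1950 * ll N / log N) * (log N / ll N ^ 2) :=
          mul_le_mul hsn (hlp p hp) (Real.log_natCast_nonneg p) (by positivity)
      _ = 1950 / ll N := by field_simp
      _ ≤ 1 := by rw [div_le_one hll0]; exact h6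
  have hsum2 : ∑ p ∈ Ss N, 2 * |(-2 : ℝ)| * ‖1 - ((p : ℕ) : ℂ) ^ (-s)‖ / p ≤ 46800 * (1 + CL) := by
    calc ∑ p ∈ Ss N, 2 * |(-2 : ℝ)| * ‖1 - ((p : ℕ) : ℂ) ^ (-s)‖ / p ≤
        ∑ p ∈ Ss N, (24 * ‖s‖) * (log p / p) := by
          refine Finset.sum_le_sum fun p hp => ?_
          have hp0 : (0 : ℝ) < p := by exact_mod_cast (Ss_prime p hp).pos
          have e1 := one_sub_ps (Ss_prime p hp) (hsp p hp)
          have hb : |(-2 : ℝ)| ≤ 6 := by rw [abs_neg, abs_two]; norm_num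
          have e5 : 2 * |(-2 : ℝ)| * ‖1 - ((p : ℕ) : ℂ) ^ (-s)‖ ≤ 2 * 6 * (2 * ‖s‖ * log p) := by
            gcongr
          calc 2 * |(-2 : ℝ)| * ‖1 - ((p : ℕ) : ℂ) ^ (-s)‖ / p ≤ 2 * 6 * (2 * ‖s‖ * log p) / p :=
                div_le_div_of_nonneg_right e5 hp0.le
            _ = _ := by ring
      _ = 24 * ‖s‖ * ∑ p ∈ Ss N, log p / p := by rw [Finset.mul_sum]
      _ ≤ 24 * (1950 * ll N / log N) * (log N / ll N ^ 2 + CL) := by
          refine mul_le_mul (by linarith) h3 (Finset.sum_nonneg fun p _ => ?_) (by positivity)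
          exact div_nonneg (Real.log_natCast_nonneg p) (Nat.cast_nonneg p)
      _ = 46800 * (1 / ll N + CL * (ll N / log N)) := by field_simp; ring
      _ ≤ 46800 * (1 + CL * 1) := by
          have e1 : 1 / ll N ≤ 1 := by rw [div_le_one hll0]; linarith
          have e2 : ll N / log N ≤ 1 := by rw [div_le_one hL0]; exact hLl
          have := mul_le_mul_of_nonneg_left e2 hCL0
          linarith
      _ = _ := by ring
  refine (hK (Sb N) (Ss N) (-2) s Sb_prime hsub (by rw [abs_neg, abs_two]; norm_num) hsre).trans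
    (exp_le_exp.2 ?_)
  have h8 := hC3 (Sb N)
  have h9 : K * ∑ p ∈ Sb N, tp p ^ 3 ≤ K * C3 := mul_le_mul_of_nonneg_left h8 hK0
  have h10 : (1 + 2 * (-2) + (-2) ^ 2 / 2) * ∑ p ∈ Ss N, (1 : ℝ) / p ≤ -ll N + ε / 4 * sl N := by
    have := (abs_le.1 h1).1
    linarith
  linarith

end Pool.Agent.H485.CC
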