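import Pool.Agent.H485.CC.Mlb
import Pool.Agent.H485.CC.Tw3
import Pool.Agent.H485.CC.Ref1

/-!
# A positive proportion in the harmonic measure
-/

set_option autoImplicit false
set_option maxHeartbeats 1000000

open MeasureTheory Real Finset Filter

namespace Pool.Agent.H485.CC

open W388.LV (SF om IsNewSet)
open Pool.Agent.Y18.BSD Pool.Agent.K4H13.CV

lemma tj_deriv (J : ℕ) (y : ℝ) : HasDerivAt (fun y : ℝ => exp (-y) * tj J y)
    (-(exp (-y) * (y ^ J / (J.factorial : ℝ)))) y := by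
  have he : HasDerivAt (fun y : ℝ => exp (-y)) (-exp (-y)) y := by
    have h := (hasDerivAt_neg y).exp
    simpa using h
  induction J with
  | zero =>
    have e : (fun y : ℝ => exp (-y) * tj 0 y) = fun y => exp (-y) := by
      ext z
      unfold tj
      simp
    rw [e]
    simpa using he
  | succ J ih =>
    have e : (fun y : ℝ => exp (-y) * tj (J + 1) y) = fun y =>
        exp (-y) * tj J y + exp (-y) * (1 / ((J + 1).factorial : ℝ) * y ^ (J + 1)) := by
      ext z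
      unfold tj
      rw [Finset.sum_range_succ]
      ring
    rw [e]
    have h1 : HasDerivAt (fun y : ℝ => 1 / ((J + 1).factorial : ℝ) * y ^ (J + 1))
        (1 / ((J + 1).factorial : ℝ) * (((J + 1 : ℕ) : ℝ) * y ^ J)) y := by
      have := (hasDerivAt_pow (J + 1) y).const_mul (1 / ((J + 1).factorial : ℝ))
      simpa using this
    have h2 := ih.add (he.mul h1)
    refine h2.congr_deriv ?_
    have h3 : ((J + 1).factorial : ℝ) = ((J : ℝ) + 1) * (J.factorial : ℝ) := by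
      rw [Nat.factorial_succ]; push_cast; ring
    have h4 : (J.factorial : ℝ) ≠ 0 := by positivity
    have h5 : ((J : ℝ) + 1) ≠ 0 := by positivity
    rw [h3]
    push_cast
    field_simp
    ring

lemma tj_nonneg_arg (J : ℕ) {y : ℝ} (hy : 0 ≤ y) : 1 ≤ tj J y := by
  unfold tj
  rw [Finset.sum_range_succ']
  have : 0 ≤ ∑ k ∈ range J, 1 / ((k + 1).factorial : ℝ) * y ^ (k + 1) :=
    Finset.sum_nonneg fun k _ => by positivity
  simp only [Nat.factorial_zero, Nat.cast_one, div_one, pow_zero, mul_one]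
  linarith

/-- truncated exponentials of even degree are positive -/
lemma tj_pos {J : ℕ} (hJ : Even J) (y : ℝ) : 0 < tj J y := by
  rcases le_or_gt 0 y with h | h
  · exact lt_of_lt_of_le one_pos (tj_nonneg_arg J h)
  · have hd : Differentiable ℝ (fun y : ℝ => exp (-y) * tj J y) := fun y => (tj_deriv J y).differentiableAt
    have ha : Antitone (fun y : ℝ => exp (-y) * tj J y) := by
      refine antitone_of_deriv_nonpos hd fun z => ?_
      rw [(tj_deriv J z).deriv]
      have : 0 ≤ z ^ J := hJ.pow_nonneg z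
      have : 0 ≤ exp (-z) * (z ^ J / (J.factorial : ℝ)) := by positivity
      linarith
    have h1 := ha h.le
    dsimp only at h1
    rw [neg_zero, Real.exp_zero, one_mul] at h1
    have h2 := tj_nonneg_arg J (le_refl (0 : ℝ))
    have h3 : 0 < exp (-y) * tj J y := by linarith
    exact (mul_pos_iff_of_pos_left (exp_pos _)).1 h3

lemma tj_abs_le (J : ℕ) (y : ℝ) : |tj J y| ≤ exp |y| := by
  have h1 : |tj J y| ≤ ∑ j ∈ range (J + 1), |y| ^ j / (j.factorial : ℝ) := by
    unfold tj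
    refine (Finset.abs_sum_le_sum_abs _ _).trans (Finset.sum_le_sum fun j _ => ?_)
    rw [abs_mul, abs_pow, abs_of_nonneg (by positivity)]
    exact le_of_eq (by ring)
  exact h1.trans (Real.sum_le_exp_of_nonneg (abs_nonneg y) _)

variable {A p0 N : ℕ} {C : ℝ}

lemma Mk_pos (A p0 N n : ℕ) (lam : ℕ → ℝ) : 0 < Mk A p0 N n lam :=
  Finset.prod_pos fun i _ => tj_pos (Jn_even A N i) _

lemma Mo_pos (A p0 N : ℕ) (lam : ℕ → ℝ) : 0 < Mo A p0 N lam := Mk_pos A p0 N _ lam

/-- the mean square of a linear form -/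
lemma PP_sq {S S' : Finset ℕ} (hS : ∀ p ∈ S, p.Prime) (hS' : S' ⊆ S) :
    ∫ x, PP S' (XX S x) ^ 2 ∂(mu S) = ∑ p ∈ S', (1 : ℝ) / p := by
  classical
  have hc : ∀ n ∈ (Finsupp.onFinset S' (fun p => if p ∈ S' then tp p else 0)
      (fun p hp => by by_contra h; exact hp (if_neg h))).support, Sm S n ∧ (n : ℝ) ≤ (S.sup id : ℕ) := by
    intro n hn
    have h1 : n ∈ S' := Finsupp.support_onFinset_subset hn
    have h2 := hS' h1
    refine ⟨⟨(hS n h2).one_le, ?_⟩, ?_⟩
    · rw [(hS n h2).primeFactors]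
      simpa using h2
    · have : n ≤ S.sup id := Finset.le_sup (f := id) h2
      exact_mod_cast this
  have h := integral_obs (S := S) (F := PP S') hS hc (fun lam _ => by
    unfold PP
    rw [Finsupp.onFinset_sum _ (fun a => by simp)]
    refine Finset.sum_congr rfl fun p hp => ?_
    rw [if_pos hp])
  rw [h]
  have h2 : ∑ n ∈ (Finsupp.onFinset S' (fun p => if p ∈ S' then tp p else 0)
      (fun p hp => by by_contra h; exact hp (if_neg h))).support,
      (Finsupp.onFinset S' (fun p => if p ∈ S' then tp p else 0)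
      (fun p hp => by by_contra h; exact hp (if_neg h))) n ^ 2 = ∑ n ∈ S', tp n ^ 2 := by
    rw [Finset.sum_subset (Finsupp.support_onFinset_subset)]
    · refine Finset.sum_congr rfl fun n hn => ?_
      rw [Finsupp.onFinset_apply, if_pos hn]
    · intro n _ hn
      rw [Finsupp.notMem_support_iff.1 hn]
      simp
  rw [h2]
  exact Finset.sum_congr rfl fun p _ => by rw [tp_sq]

lemma obs_PP (hG : Good A p0 N C) {i : ℕ} (hi : i < Rn N + 1) :
    Obs (Sb N) ((N : ℝ) ^ (1 / 8 : ℝ)) (PP (Sc A p0 N i)) := by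
  have h1 : Obs (Sb N) 1 fun _ => 1 := Obs.const le_rfl 1
  have h := h1.mul_lin Sb_prime (hG.sc_sub' hi) (hG.le_exp hi) zero_le_one tp
  have hL := hG.hL
  have hN0 := pos_of_log (show 1 ≤ log (N : ℝ) by linarith)
  refine (h.mono ?_).congr fun lam _ => ?_
  · rw [mul_one, Real.rpow_def_of_pos hN0]
    apply exp_le_exp.2
    have hA0 : (1 : ℝ) ≤ A := by exact_mod_cast hG.hA
    have h2 := Xi_anti hG.hA (show 0 ≤ log (N : ℝ) by linarith) (Nat.zero_le i)
    refine h2.trans ?_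
    unfold Xi
    rw [pow_zero, div_one]
    have h3 : (0 : ℝ) ≤ log N := by linarith
    calc log (N : ℝ) / (256 * A) ≤ log N / 8 := div_le_div_of_nonneg_left h3 (by norm_num) (by linarith)
      _ = _ := by ring
  · unfold PP
    rw [mul_one]

/-- Chebyshev -/
lemma chebM {ι : Type} (B : Finset ι) (w g : ι → ℝ) (hw : ∀ i ∈ B, 0 ≤ w i) {R M : ℝ} (hR : 0 < R)
    (h : ∑ i ∈ B, w i * g i ^ 2 ≤ M) : ∑ i ∈ B with R < |g i|, w i ≤ M / R ^ 2 := by
  rw [le_div_iff₀ (by positivity), Finset.sum_mul]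
  refine le_trans ?_ h
  calc ∑ i ∈ B with R < |g i|, w i * R ^ 2 ≤ ∑ i ∈ B with R < |g i|, w i * g i ^ 2 := by
        refine Finset.sum_le_sum fun i hi => ?_
        rw [Finset.mem_filter] at hi
        refine mul_le_mul_of_nonneg_left ?_ (hw i hi.1)
        rw [← sq_abs (g i)]
        exact pow_le_pow_left₀ hR.le hi.2.le 2
    _ ≤ _ := Finset.sum_le_sum_of_subset_of_nonneg (Finset.filter_subset _ _) fun i hi _ =>
        mul_nonneg (hw i hi) (sq_nonneg _)

/-- the second moment method -/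
lemma second_moment {ι : Type} (E : Finset ι) (w F : ι → ℝ) (hw : ∀ i ∈ E, 0 ≤ w i) {a M : ℝ} (ha : 0 < a)
    (hM : 0 < M) (h0 : ∑ i ∈ E, w i ≤ 2) (h1 : 3 * a ≤ ∑ i ∈ E, w i * F i)
    (h2 : ∑ i ∈ E, w i * F i ^ 2 ≤ M) : a ^ 2 / M ≤ ∑ i ∈ E with a < F i, w i := by
  have h3 : ∑ i ∈ E, w i * F i ≤ a * ∑ i ∈ E, w i + ∑ i ∈ E with a < F i, w i * F i := by
    rw [Finset.mul_sum, Finset.sum_filter, ← Finset.sum_add_distrib]
    refine Finset.sum_le_sum fun i hi => ?_
    have hw0 := hw i hi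
    split_ifs with h
    · nlinarith [mul_nonneg ha.le hw0]
    · push Not at h
      nlinarith [mul_le_mul_of_nonneg_left h hw0]
  have h4 : a ≤ ∑ i ∈ E with a < F i, w i * F i := by
    have := mul_le_mul_of_nonneg_left h0 ha.le
    linarith
  have h5 : (∑ i ∈ E with a < F i, w i * F i) ^ 2 ≤ (∑ i ∈ E with a < F i, w i) *
      ∑ i ∈ E with a < F i, w i * F i ^ 2 := by
    have h := Finset.sum_mul_sq_le_sq_mul_sq (E.filter fun i => a < F i) (fun i => Real.sqrt (w i))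
      (fun i => Real.sqrt (w i) * F i)
    have e1 : ∀ i ∈ E.filter (fun i => a < F i), Real.sqrt (w i) * (Real.sqrt (w i) * F i) = w i * F i := by
      intro i hi
      rw [← mul_assoc, Real.mul_self_sqrt (hw i (Finset.mem_filter.1 hi).1)]
    have e2 : ∀ i ∈ E.filter (fun i => a < F i), Real.sqrt (w i) ^ 2 = w i := fun i hi =>
      Real.sq_sqrt (hw i (Finset.mem_filter.1 hi).1)
    have e3 : ∀ i ∈ E.filter (fun i => a < F i), (Real.sqrt (w i) * F i) ^ 2 = w i * F i ^ 2 := by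
      intro i hi
      rw [mul_pow, Real.sq_sqrt (hw i (Finset.mem_filter.1 hi).1)]
    rw [Finset.sum_congr rfl e1, Finset.sum_congr rfl e2, Finset.sum_congr rfl e3] at h
    exact h
  have h6 : ∑ i ∈ E with a < F i, w i * F i ^ 2 ≤ M :=
    (Finset.sum_le_sum_of_subset_of_nonneg (Finset.filter_subset _ _) fun i hi _ =>
        mul_nonneg (hw i hi) (sq_nonneg _)).trans h2
  have h7 : 0 ≤ ∑ i ∈ E with a < F i, w i := Finset.sum_nonneg fun i hi => hw i (Finset.mem_filter.1 hi).1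
  rw [div_le_iff₀ hM]
  calc a ^ 2 ≤ (∑ i ∈ E with a < F i, w i * F i) ^ 2 := pow_le_pow_left₀ ha.le h4 2
    _ ≤ _ := h5
    _ ≤ _ := mul_le_mul_of_nonneg_left h6 h7

lemma isNewSet_of_basis {N : ℕ} [NeZero N] {B : Finset (SF N 2)} (hB : W388.LV.IsNewBasis N 2 B) :
    IsNewSet N 2 B := ⟨hB.newf, hB.orth⟩

/-- a positive proportion in the harmonic measure -/
theorem har_pos : ∃ c R : ℝ, 0 < c ∧ 0 < R ∧ ∀ᶠ N : ℕ in atTop, N.Prime → ∀ [NeZero N]
    (B : Finset (SF N 2)), W388.LV.IsNewBasis N 2 B → ∀ E : Finset (SF N 2),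
    (∀ f, f ∈ E ↔ f ∈ B ∧ W388.IsNewf N 2 f 1) →
    c ≤ ∑ f ∈ E with exp (-(ll N / 2) - R * sl N) < (bv f 0).re, om f := by
  obtain ⟨A, p0, C, K, c0, hc0, hK1, hpack⟩ := pack
  have hK0 : 0 < K := by linarith
  have hsK : 0 < Real.sqrt K := Real.sqrt_pos.2 hK0
  set a0 : ℝ := c0 / 8 with ha0
  have ha00 : 0 < a0 := by positivity
  set c1 : ℝ := a0 ^ 2 / (2 * K) with hc1
  have hc10 : 0 < c1 := by positivity
  have hsc1 : 0 < Real.sqrt c1 := Real.sqrt_pos.2 hc10
  set R1 : ℝ := 4 / Real.sqrt c1 with hR1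
  have hR10 : 0 < R1 := by positivity
  have hR1sq : R1 ^ 2 * c1 = 16 := by
    rw [hR1, div_pow, Real.sq_sqrt hc10.le]
    field_simp
    norm_num
  refine ⟨c1 / 2, 2 + R1, by positivity, by positivity, ?_⟩
  obtain ⟨N0, hN0⟩ := ls_obs 2 le_rfl 1 (1 / 8) one_pos (by norm_num) (by norm_num)
  have hev2 : ∀ᶠ N : ℕ in atTop, 2 * K * exp (36 * log (ll N)) ≤ (c1 / 4) * exp (sl N) ^ 2 := by
    filter_upwards [ev_powS (2 * K / (c1 / 4)) 36 (ε := 1) one_pos, ev_ll 1] with N h1 h2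
    have h3 : exp (36 * log (ll N)) = ll N ^ 36 := by
      rw [show (36 : ℝ) = ((36 : ℕ) : ℝ) by norm_num, Real.exp_nat_mul, Real.exp_log (by linarith)]
    rw [h3]
    have h4 : 2 * K * ll N ^ 36 = (c1 / 4) * (2 * K / (c1 / 4) * ll N ^ 36) := by field_simp
    rw [h4]
    refine mul_le_mul_of_nonneg_left (h1.trans ?_) (by positivity)
    rw [one_mul]
    have h5 : 1 ≤ exp (sl N) := Real.one_le_exp (Real.sqrt_nonneg _)
    nlinarith
  filter_upwards [hpack, obs_even (a0 / Real.sqrt K) (1 / 8) (by positivity) (by norm_num),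
    eventually_ge_atTop N0, hev2, bv_even, ev_powS a0⁻¹ 0 (ε := 1) one_pos,
    ev_big (2 / a0) (1 / 2 + (1 + R1)) (ε := 1) one_pos, ev_ll 1]
    with N hp h1 h2 h4 h5 h6 h7 hll1 hN _ B hB E hE
  obtain ⟨hG, m1, m2, -, m4⟩ := hp
  have hBs := isNewSet_of_basis hB
  have hll := hG.hll
  have hll0 : 0 < ll N := by linarith
  have hslsq := sl_sq hll0.le
  have hsl0 : 0 < sl N := Real.sqrt_pos.2 hll0
  have hsl1 : 1 ≤ sl N := by
    unfold sl
    rw [Real.one_le_sqrt]
    exact hll1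
  have hslle : sl N ≤ ll N := by nlinarith
  have hEB : E ⊆ B := fun f hf => ((hE f).1 hf).1
  have hw : ∀ f ∈ E, 0 ≤ om f := fun f _ => om_nonneg f
  have hwB : ∀ f ∈ B, 0 ≤ om f := fun f _ => om_nonneg f
  -- the moments
  have hNR : (1 : ℝ) ≤ N := by exact_mod_cast hN.one_lt.le
  have hNp : (N : ℝ) ^ (1 / 8 : ℝ) ≤ (N : ℝ) ^ (1 - 1 / 8 : ℝ) :=
    Real.rpow_le_rpow_of_exponent_le hNR (by norm_num)
  have q0 := hN0 N h2 B hBs (Sb N) Sb_prime (Sb_ndvd hN) 1 (fun _ => 1) (Obs.const le_rfl 1)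
    (Real.one_le_rpow hNR (by norm_num))
  have q1 := h1 hN B hB E hE (Sb N) Sb_prime (Sb_ndvd hN) _ _ (obs_SM hG) le_rfl
  have q2 := hN0 N h2 B hBs (Sb N) Sb_prime (Sb_ndvd hN) _ _ (obs_SM hG) le_rfl
  have q3 := hN0 N h2 B hBs (Sb N) Sb_prime (Sb_ndvd hN) _ _ (obs_Mk' (n := Rn N) hG (by omega)) hNp
  have q4 := hN0 N h2 B hBs (Sb N) Sb_prime (Sb_ndvd hN) _ _ (obs_PP (i := Rn N) hG (by omega)) hNp
  have hEe : exp (-ll N) = exp (-(ll N / 2)) ^ 2 := by
    rw [← Real.exp_nat_mul]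
    congr 1
    push_cast
    ring
  set e2 : ℝ := exp (-(ll N / 2)) with he2
  have he20 : 0 < e2 := exp_pos _
  have hmass : ∑ f ∈ E, om f ≤ 2 := by
    have h8 : ∑ f ∈ E, om f ≤ ∑ f ∈ B, om f :=
      Finset.sum_le_sum_of_subset_of_nonneg hEB fun f hf _ => hwB f hf
    simp only [one_pow, mul_one, integral_const, smul_eq_mul, probReal_univ] at q0
    linarith
  have hsq : Real.sqrt (∫ x, (Mo A p0 N (XX (Sb N) x) * S5 N (XX (Sb N) x)) ^ 2 ∂(mu (Sb N))) ≤
      Real.sqrt K * e2 := by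
    rw [Real.sqrt_le_left (by positivity), mul_pow, Real.sq_sqrt hK0.le, ← hEe]
    exact m2
  have hfirst : 3 * (a0 * e2) ≤ ∑ f ∈ E, om f * (Mo A p0 N (W388.lamf f) * S5 N (W388.lamf f)) := by
    have h8 := (abs_le.1 q1).1
    have h9 : a0 / Real.sqrt K * Real.sqrt (∫ x, (Mo A p0 N (XX (Sb N) x) * S5 N (XX (Sb N) x)) ^ 2 ∂(mu (Sb N))) ≤
        a0 * e2 := by
      calc a0 / Real.sqrt K * Real.sqrt (∫ x, (Mo A p0 N (XX (Sb N) x) * S5 N (XX (Sb N) x)) ^ 2 ∂(mu (Sb N))) ≤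
          a0 / Real.sqrt K * (Real.sqrt K * e2) := mul_le_mul_of_nonneg_left hsq (by positivity)
        _ = _ := by field_simp
    have h10 : c0 = 8 * a0 := by rw [ha0]; ring
    rw [h10] at m1
    linarith
  have hsecond : ∑ f ∈ E, om f * (Mo A p0 N (W388.lamf f) * S5 N (W388.lamf f)) ^ 2 ≤ 2 * K * e2 ^ 2 := by
    have h8 : ∑ f ∈ E, om f * (Mo A p0 N (W388.lamf f) * S5 N (W388.lamf f)) ^ 2 ≤
        ∑ f ∈ B, om f * (Mo A p0 N (W388.lamf f) * S5 N (W388.lamf f)) ^ 2 :=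
      Finset.sum_le_sum_of_subset_of_nonneg hEB fun f hf _ => mul_nonneg (hwB f hf) (sq_nonneg _)
    rw [hEe] at m2
    linarith
  have hG1 := second_moment E (fun f => om f) (fun f => Mo A p0 N (W388.lamf f) * S5 N (W388.lamf f)) hw
    (a := a0 * e2) (M := 2 * K * e2 ^ 2) (by positivity) (by positivity) hmass hfirst hsecond
  have hc1e : (a0 * e2) ^ 2 / (2 * K * e2 ^ 2) = c1 := by
    rw [hc1]
    field_simp
  rw [hc1e] at hG1
  -- the bad sets
  have b1 : ∑ f ∈ B with exp (sl N) < |Mk A p0 N (Rn N) (W388.lamf f)|, om f ≤ c1 / 4 := by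
    have h8 := chebM B (fun f => om f) (fun f => Mk A p0 N (Rn N) (W388.lamf f)) hwB (exp_pos (sl N))
      (M := 2 * K * exp (36 * log (ll N))) (by linarith)
    refine h8.trans ?_
    rw [div_le_iff₀ (by positivity)]
    exact h4
  have b2 : ∑ f ∈ B with R1 * sl N < |PP (Sc A p0 N (Rn N)) (W388.lamf f)|, om f ≤ c1 / 4 := by
    rw [PP_sq Sb_prime (hG.sc_sub' (by omega))] at q4
    have hv2 : ∑ p ∈ Sc A p0 N (Rn N), (1 : ℝ) / p ≤ 2 * ll N := hG.v2
    have h8 := chebM B (fun f => om f) (fun f => PP (Sc A p0 N (Rn N)) (W388.lamf f)) hwB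
      (show 0 < R1 * sl N by positivity) (M := 4 * ll N) (by linarith)
    refine h8.trans ?_
    rw [div_le_iff₀ (by positivity), mul_pow, hslsq]
    have : c1 / 4 * (R1 ^ 2 * ll N) = (R1 ^ 2 * c1) * ll N / 4 := by ring
    rw [this, hR1sq]
    linarith
  -- on the good set
  have hgood : ∀ f ∈ E, a0 * e2 < Mo A p0 N (W388.lamf f) * S5 N (W388.lamf f) →
      (exp (-(ll N / 2) - (2 + R1) * sl N) < (bv f 0).re) ∨
      (exp (sl N) < |Mk A p0 N (Rn N) (W388.lamf f)| ∨
        R1 * sl N < |PP (Sc A p0 N (Rn N)) (W388.lamf f)|) := by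
    intro f hf hlow
    by_contra hcon
    push Not at hcon
    obtain ⟨g1, g2, g3⟩ := hcon
    obtain ⟨v, hv1, hv2⟩ := h5 hN f ((hE f).1 hf).2
    rw [hv1, Complex.ofReal_re] at g1
    set W : ℝ := exp (-((1 + R1) * sl N)) with hW
    have hW0 : 0 < W := exp_pos _
    have hMo : Mo A p0 N (W388.lamf f) ≤ exp ((1 + R1) * sl N) := by
      rw [Mo_eq]
      unfold Mk
      rw [Finset.prod_range_succ]
      have t1 : ∏ i ∈ range (Rn N), tj (Jn A N i) (-PP (Sc A p0 N i) (W388.lamf f)) ≤ exp (sl N) :=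
        (le_abs_self _).trans g2
      have t2 : tj (Jn A N (Rn N)) (-PP (Sc A p0 N (Rn N)) (W388.lamf f)) ≤ exp (R1 * sl N) := by
        refine (le_abs_self _).trans ((tj_abs_le _ _).trans ?_)
        rw [abs_neg]
        exact exp_le_exp.2 g3
      have t3 : exp ((1 + R1) * sl N) = exp (sl N) * exp (R1 * sl N) := by
        rw [← Real.exp_add]; congr 1; ring
      rw [t3]
      exact mul_le_mul t1 t2 (tj_pos (Jn_even A N _) _).le (exp_pos _).le
    have hMp := Mo_pos A p0 N (W388.lamf f)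
    have hS0 : 0 < S5 N (W388.lamf f) := by
      have h8 : 0 < Mo A p0 N (W388.lamf f) * S5 N (W388.lamf f) := lt_trans (by positivity) hlow
      exact (mul_pos_iff_of_pos_left hMp).1 h8
    have h9 : a0 * e2 < exp ((1 + R1) * sl N) * S5 N (W388.lamf f) :=
      lt_of_lt_of_le hlow (mul_le_mul_of_nonneg_right hMo hS0.le)
    have h10 : exp (-(ll N / 2) - (2 + R1) * sl N) = exp (-(1 * sl N)) * (e2 * W) := by
      rw [he2, hW, ← Real.exp_add, ← Real.exp_add]
      congr 1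
      ring
    have h11 : a0 * (e2 * W) < S5 N (W388.lamf f) := by
      have h13 : W * exp ((1 + R1) * sl N) = 1 := by
        rw [hW, ← Real.exp_add]; simp
      have h14 := mul_lt_mul_of_pos_left h9 hW0
      have h15 : W * (exp ((1 + R1) * sl N) * S5 N (W388.lamf f)) = S5 N (W388.lamf f) := by
        rw [← mul_assoc, h13, one_mul]
      rw [h15] at h14
      linarith
    have h16 : exp (-(1 * sl N)) ≤ a0 := by
      rw [pow_zero, mul_one] at h6
      rw [Real.exp_neg, inv_le_comm₀ (exp_pos _) ha00]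
      exact h6
    have h17 : 2 / (N : ℝ) ≤ a0 * (e2 * W) := by
      have hN0 : (0 : ℝ) < N := by linarith
      rw [Real.rpow_one] at h7
      rw [div_le_iff₀ hN0]
      have h18 : 1 ≤ e2 * W * exp ((1 / 2 + (1 + R1)) * ll N) := by
        rw [he2, hW, ← Real.exp_add, ← Real.exp_add]
        apply Real.one_le_exp
        have := mul_le_mul_of_nonneg_left hslle (show 0 ≤ 1 + R1 by positivity)
        linarith
      have h19 : 0 < a0 * (e2 * W) := by positivity
      have h20 := mul_le_mul_of_nonneg_left h7 h19.le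
      refine le_trans ?_ h20
      calc (2 : ℝ) ≤ 2 * (e2 * W * exp ((1 / 2 + (1 + R1)) * ll N)) := by linarith
        _ = _ := by field_simp
    have h21 := (abs_le.1 hv2).1
    rw [h10] at g1
    have h22 : exp (-(1 * sl N)) * (e2 * W) ≤ a0 * (e2 * W) :=
      mul_le_mul_of_nonneg_right h16 (by positivity)
    linarith
  have s1 := sum_or E (fun f => om f) hw (fun f => a0 * e2 < Mo A p0 N (W388.lamf f) * S5 N (W388.lamf f))
    (fun f => exp (-(ll N / 2) - (2 + R1) * sl N) < (bv f 0).re)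
    (fun f => exp (sl N) < |Mk A p0 N (Rn N) (W388.lamf f)| ∨
        R1 * sl N < |PP (Sc A p0 N (Rn N)) (W388.lamf f)|) hgood
  have s2 := sum_or E (fun f => om f) hw (fun f => exp (sl N) < |Mk A p0 N (Rn N) (W388.lamf f)| ∨
        R1 * sl N < |PP (Sc A p0 N (Rn N)) (W388.lamf f)|)
    (fun f => exp (sl N) < |Mk A p0 N (Rn N) (W388.lamf f)|)
    (fun f => R1 * sl N < |PP (Sc A p0 N (Rn N)) (W388.lamf f)|) (fun f _ h => h)
  have s3 : ∑ f ∈ E with exp (sl N) < |Mk A p0 N (Rn N) (W388.lamf f)|, om f ≤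
      ∑ f ∈ B with exp (sl N) < |Mk A p0 N (Rn N) (W388.lamf f)|, om f :=
    Finset.sum_le_sum_of_subset_of_nonneg (Finset.filter_subset_filter _ hEB) fun f _ _ => om_nonneg f
  have s4 : ∑ f ∈ E with R1 * sl N < |PP (Sc A p0 N (Rn N)) (W388.lamf f)|, om f ≤
      ∑ f ∈ B with R1 * sl N < |PP (Sc A p0 N (Rn N)) (W388.lamf f)|, om f :=
    Finset.sum_le_sum_of_subset_of_nonneg (Finset.filter_subset_filter _ hEB) fun f _ _ => om_nonneg f
  linarith

end Pool.Agent.H485.CC
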