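import Pool.Agent.H485.CC.Ep4
import Pool.Agent.H485.CC.Mlc

/-!
# The twisted first moment in the model
-/

set_option autoImplicit false
set_option maxHeartbeats 1000000

open MeasureTheory Real Finset Filter Topology ProbabilityTheory

namespace Pool.Agent.H485.CC

/-- the parameters of the mollifier -/
structure Par (A p0 : ℕ) (C : ℝ) : Prop where
  hC : 0 ≤ C
  hA3 : 3 ≤ A
  hAC : 96 * (C + 2) ≤ A
  ev : ∀ᶠ N : ℕ in atTop, Good A p0 N C
  t1 : ∀ p : ℕ, p0 < p → tp p ≤ 1 / 4000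
  t3 : ∀ S : Finset ℕ, (∀ p ∈ S, p0 < p) → ∑ p ∈ S, tp p ^ 3 ≤ 1 / 10000

variable {A p0 N : ℕ} {C : ℝ}

/-- the last truncated exponential -/
noncomputable def tR (A p0 N : ℕ) (x : Sb N → ℝ) : ℝ := tj (Jn A N (Rn N)) (-PR A p0 N x)

lemma tR_pos (A p0 N : ℕ) (x : Sb N → ℝ) : 0 < tR A p0 N x := tj_pos (Jn_even A N _) _

/-- the factor of the other blocks -/
noncomputable def aN (A p0 N : ℕ) : ℝ := ∫ x, ELo A p0 N x * Mk A p0 N (Rn N) (XX (Sb N) x) ∂(mu (Sb N))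

/-- the factorization over the last block -/
theorem EL_fac (hG : Good A p0 N C) (h : ℝ → ℝ) :
    ∫ x, EL (Sb N) x * (Mo A p0 N (XX (Sb N) x) * h (XR A p0 N x)) ∂(mu (Sb N)) =
      aN A p0 N * ∫ x, ELR A p0 N x * (tR A p0 N x * h (XR A p0 N x)) ∂(mu (Sb N)) := by
  have hsub := SR_sub hG
  have hPR : ∀ x y : Sb N → ℝ, (∀ p : Sb N, (p : ℕ) ∈ SR A p0 N → x p = y p) → PR A p0 N x = PR A p0 N y := by
    intro x y hxy
    unfold PR
    rw [PP_XX Sb_prime hsub, PP_XX Sb_prime hsub]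
    refine Finset.sum_congr rfl fun p _ => ?_
    split_ifs with hp
    · rw [hxy p hp]
    · rfl
  unfold aN
  rw [← indep_int (S := Sb N) (SR A p0 N)
    (F := fun x => ELo A p0 N x * Mk A p0 N (Rn N) (XX (Sb N) x))
    (G := fun x => ELR A p0 N x * (tR A p0 N x * h (XR A p0 N x)))]
  · congr 1
    ext x
    rw [EL_split A p0, Mo_eq]
    unfold Mk
    rw [Finset.prod_range_succ]
    unfold tR PR SR
    ring
  · intro x y hxy
    congr 1
    · unfold ELo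
      refine Finset.prod_congr rfl fun p _ => ?_
      split_ifs with hp
      · rfl
      · rw [hxy p hp]
    · unfold Mk
      refine Finset.prod_congr rfl fun i hi => ?_
      have hi' := mem_range.1 hi
      have hs : Sc A p0 N i ⊆ Sb N := hG.sc_sub' (by omega)
      congr 2
      rw [PP_XX Sb_prime hs, PP_XX Sb_prime hs]
      refine Finset.sum_congr rfl fun p _ => ?_
      split_ifs with hp
      · have hd := hG.disj i (by omega) (Rn N) (by omega) (by omega)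
        rw [hxy p (Finset.disjoint_left.1 hd hp)]
      · rfl
  · intro x y hxy
    congr 1
    · unfold ELR
      refine Finset.prod_congr rfl fun p _ => ?_
      split_ifs with hp
      · rw [hxy p hp]
      · rfl
    · unfold tR XR
      rw [hPR x y hxy]

lemma r_small {J v T : ℝ} (hJ : 96 * v ≤ J) (hT : T ≤ 1 / 10000) {a b : ℝ}
    (ha : exp (-(v / 2) - 2001 * T) ≤ a) (hb : b ≤ exp (15 / 2 * v + 2000 * T)) (hJ0 : 0 ≤ J) :
    exp (-(J + 1)) * b ≤ exp (-J / 2) * a := by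
  have e2 : exp (-(J + 1)) * exp (15 / 2 * v + 2000 * T) ≤ exp (-J / 2) * exp (-(v / 2) - 2001 * T) := by
    rw [← Real.exp_add, ← Real.exp_add]
    apply exp_le_exp.2
    linarith
  calc exp (-(J + 1)) * b ≤ exp (-(J + 1)) * exp (15 / 2 * v + 2000 * T) :=
        mul_le_mul_of_nonneg_left hb (exp_pos _).le
    _ ≤ _ := e2
    _ ≤ _ := mul_le_mul_of_nonneg_left ha (exp_pos _).le

lemma SR_gt (hG : Good A p0 N C) : ∀ p ∈ SR A p0 N, p0 < p ∧ p.Prime :=
  fun p hp => hG.gt p (hG.sc_sub (by omega) hp)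

lemma wR_ge (hP : Par A p0 C) (hG : Good A p0 N C) :
    exp (-(vv A p0 N (Rn N) / 2) - 2001 * ∑ p ∈ SR A p0 N, tp p ^ 3) ≤ wR A p0 N := by
  have e : -(vv A p0 N (Rn N) / 2) - 2001 * ∑ p ∈ SR A p0 N, tp p ^ 3 =
      ∑ p ∈ SR A p0 N, (-(tp p ^ 2 / 2) - 2001 * tp p ^ 3) := by
    rw [Finset.sum_sub_distrib, Finset.sum_neg_distrib, ← Finset.mul_sum, ← Finset.sum_div]
    unfold vv SR
    simp_rw [tp_sq]
  rw [e, Real.exp_sum]
  unfold wR
  refine Finset.prod_le_prod (fun p _ => (exp_pos _).le) fun p hp => ?_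
  rw [II_gl (SR_gt hG p hp).2]
  exact loc_low (tp_nonneg p) (hP.t1 p (SR_gt hG p hp).1)

lemma up3 (hP : Par A p0 C) (hG : Good A p0 N C) {b : ℝ} (hb : |b| ≤ 3) :
    ∏ p ∈ SR A p0 N, II gl b p ≤ exp (15 / 2 * vv A p0 N (Rn N) + 2000 * ∑ p ∈ SR A p0 N, tp p ^ 3) := by
  have e : 15 / 2 * vv A p0 N (Rn N) + 2000 * ∑ p ∈ SR A p0 N, tp p ^ 3 =
      ∑ p ∈ SR A p0 N, (15 / 2 * tp p ^ 2 + 2000 * tp p ^ 3) := by
    rw [Finset.sum_add_distrib, ← Finset.mul_sum, ← Finset.mul_sum]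
    unfold vv SR
    simp_rw [tp_sq]
  rw [e, Real.exp_sum]
  refine Finset.prod_le_prod (fun p _ => (II_gl_pos _ _).le) fun p hp => ?_
  rw [II_gl (SR_gt hG p hp).2]
  exact loc_up (tp_nonneg p) ((hP.t1 p (SR_gt hG p hp).1).trans (by norm_num)) hb

/-- the error terms are negligible -/
lemma err3 (hP : Par A p0 C) (hG : Good A p0 N C) {b : ℝ} (hb : |b| ≤ 3) :
    exp (-((Jn A N (Rn N) : ℝ) + 1)) * ∫ x, exp (b * PR A p0 N x) * ELR A p0 N x ∂(mu (Sb N)) ≤
      exp (-(Jn A N (Rn N) : ℝ) / 2) * wR A p0 N := by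
  rw [int_ELR hG]
  refine r_small (hG.J_ge (by norm_num) hP.hAC (Rn N) (by omega)) ?_ (wR_ge hP hG) (up3 hP hG hb)
    (Nat.cast_nonneg _)
  exact hP.t3 _ fun p hp => (SR_gt hG p hp).1

lemma up_shift (hP : Par A p0 C) (hG : Good A p0 N C) {δ : ℝ} (hδ : |δ| ≤ 2) :
    ∫ x, exp ((-1 + δ) * PR A p0 N x) * ELR A p0 N x ∂(mu (Sb N)) ≤
      exp (δ ^ 2 / 2 * vv A p0 N (Rn N) + 1) * wR A p0 N := by
  rw [int_ELR hG]
  have h1 : ∏ p ∈ SR A p0 N, II gl (-1 + δ) p ≤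
      ∏ p ∈ SR A p0 N, (exp (δ ^ 2 / 2 * tp p ^ 2 + 4001 * tp p ^ 3) * II gl (-1) p) := by
    refine Finset.prod_le_prod (fun p _ => (II_gl_pos _ _).le) fun p hp => ?_
    obtain ⟨g1, g2⟩ := SR_gt hG p hp
    have ht := hP.t1 p g1
    rw [II_gl g2, II_gl g2]
    have hb : |(-1 + δ)| ≤ 3 := by
      have := abs_le.1 hδ
      rw [abs_le]
      constructor <;> linarith
    have h2 := (abs_le.1 (loc_lr (tp_nonneg p) (ht.trans (by norm_num)) hb)).2
    have h3 := loc_low (tp_nonneg p) ht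
    have e1 : (-1 + δ) + (-1 + δ) ^ 2 / 2 = -1 / 2 + δ ^ 2 / 2 := by ring
    rw [e1] at h2
    have h4 := Real.add_one_le_exp (tp p ^ 2 * (-1 / 2 + δ ^ 2 / 2) + 2000 * tp p ^ 3)
    calc ∫ θ, exp ((-1 + δ) * (uu 1 θ * tp p)) * lr (tp p) θ ∂st ≤
        exp (tp p ^ 2 * (-1 / 2 + δ ^ 2 / 2) + 2000 * tp p ^ 3) := by linarith
      _ = exp (δ ^ 2 / 2 * tp p ^ 2 + 4001 * tp p ^ 3) * exp (-(tp p ^ 2 / 2) - 2001 * tp p ^ 3) := by
          rw [← Real.exp_add]
          congr 1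
          ring
      _ ≤ _ := mul_le_mul_of_nonneg_left h3 (exp_pos _).le
  refine h1.trans ?_
  rw [Finset.prod_mul_distrib, ← Real.exp_sum]
  refine mul_le_mul_of_nonneg_right (exp_le_exp.2 ?_) (wR_pos A p0 N).le
  rw [Finset.sum_add_distrib, ← Finset.mul_sum, ← Finset.mul_sum]
  have h5 : ∑ p ∈ SR A p0 N, tp p ^ 3 ≤ 1 / 10000 := hP.t3 _ fun p hp => (SR_gt hG p hp).1
  have h6 : ∑ p ∈ SR A p0 N, tp p ^ 2 = vv A p0 N (Rn N) := by
    unfold vv SR
    simp_rw [tp_sq]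
  rw [h6]
  linarith

lemma ev_J (A : ℕ) (hA : 1 ≤ A) {ε : ℝ} (hε : 0 < ε) :
    ∀ᶠ N : ℕ in atTop, exp (-(Jn A N (Rn N) : ℝ) / 2) ≤ ε := by
  filter_upwards [ev_ll (-log ε)] with N h1
  rw [← Real.le_log_iff_exp_le hε]
  unfold Jn
  rw [if_neg (lt_irrefl _)]
  have h2 : ll N ≤ ⌈ll N⌉₊ := Nat.le_ceil _
  have h3 : (1 : ℝ) ≤ A := by exact_mod_cast hA
  have h4 : (0 : ℝ) ≤ ⌈ll N⌉₊ := Nat.cast_nonneg _
  push_cast
  nlinarith

lemma expPR_CB (hG : Good A p0 N C) (b : ℝ) : CB fun x : Sb N → ℝ => exp (b * PR A p0 N x) :=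
  ((CB.PP Sb_prime (SR_sub hG)).smul b).exp

lemma tR_CB (hG : Good A p0 N C) : CB fun x : Sb N → ℝ => tR A p0 N x := by
  unfold tR PR
  refine tj_CB _ ?_
  have h := (CB.PP (S := Sb N) Sb_prime (SR_sub hG)).smul (-1)
  simpa using h

lemma CB.of {X : Type} [TopologicalSpace X] {F : X → ℝ} {g : ℝ → ℝ} (hF : Continuous F) (hg : Continuous g) {M : ℝ}
    (hM : ∀ x, |g x| ≤ M) : CB fun x => g (F x) := ⟨hg.comp hF, M, fun _ => hM _⟩

lemma XR_CB (hG : Good A p0 N C) : CB fun x : Sb N → ℝ => XR A p0 N x := by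
  have h := (CB.PP (S := Sb N) Sb_prime (SR_sub hG)).smul (1 / sl N)
  refine cast (congrArg CB ?_) h
  ext x
  unfold XR PR
  ring

/-- the truncated exponential against bounded continuous functions -/
theorem blk_bdd (hP : Par A p0 C) {g : ℝ → ℝ} (hg : Continuous g) {M : ℝ} (hM : ∀ x, |g x| ≤ M) {ε : ℝ}
    (hε : 0 < ε) : ∀ᶠ N : ℕ in atTop,
    |∫ x, ELR A p0 N x * (tR A p0 N x * g (XR A p0 N x)) ∂(mu (Sb N)) -
      wR A p0 N * ∫ x, g x ∂(gaussianReal 0 1)| ≤ ε * wR A p0 N := by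
  have hM0 : 0 ≤ M := (abs_nonneg _).trans (hM 0)
  have h1 := Metric.tendsto_nhds.1 (tilt_int hP.ev hP.t1 hg hM) (ε / 2) (half_pos hε)
  filter_upwards [h1, hP.ev, ev_J A (by have := hP.hA3; omega) (ε := ε / (4 * (M + 1))) (by positivity)]
    with N h2 hG h3
  rw [Real.dist_eq] at h2
  have hw := wR_pos A p0 N
  set γ := ∫ x, g x ∂(gaussianReal 0 1) with hγ
  set I1 := ∫ x, ELR A p0 N x * (tR A p0 N x * g (XR A p0 N x)) ∂(mu (Sb N)) with hI1
  have e1 : ∫ x, ELR A p0 N x * (exp (-PR A p0 N x) * g (XR A p0 N x)) ∂(mu (Sb N)) =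
      wR A p0 N * ∫ x, rhoR A p0 N x * g (XR A p0 N x) ∂(mu (Sb N)) := by
    rw [← integral_const_mul]
    congr 1
    ext x
    have := rho_eq hG x
    calc ELR A p0 N x * (exp (-PR A p0 N x) * g (XR A p0 N x)) =
        (exp (-PR A p0 N x) * ELR A p0 N x) * g (XR A p0 N x) := by ring
      _ = _ := by rw [this]; ring
  have hgCB : CB fun x : Sb N → ℝ => g (XR A p0 N x) := CB.of (XR_cont A p0 N) hg hM
  have hE := ELR_CB A p0 N
  have hT := tR_CB hG
  have hX : CB fun x : Sb N → ℝ => exp (-PR A p0 N x) := by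
    have := expPR_CB hG (-1)
    simpa using this
  have c1 := (hE.mul (hT.mul hgCB)).int
  have c2 := (hE.mul (hX.mul hgCB)).int
  have c3 : CB fun x : Sb N → ℝ => M * (exp (-((Jn A N (Rn N) : ℝ) + 1)) * (exp (3 * PR A p0 N x) * ELR A p0 N x) +
      exp (-((Jn A N (Rn N) : ℝ) + 1)) * (exp (-3 * PR A p0 N x) * ELR A p0 N x)) :=
    ((((expPR_CB hG 3).mul hE).smul _).add (((expPR_CB hG (-3)).mul hE).smul _)).smul _
  have k1 : |I1 - ∫ x, ELR A p0 N x * (exp (-PR A p0 N x) * g (XR A p0 N x)) ∂(mu (Sb N))| ≤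
      M * (2 * (exp (-(Jn A N (Rn N) : ℝ) / 2) * wR A p0 N)) := by
    rw [hI1, ← integral_sub c1 c2]
    have k2 := norm_integral_le_of_norm_le (μ := mu (Sb N)) (f := fun x => ELR A p0 N x *
        (tR A p0 N x * g (XR A p0 N x)) - ELR A p0 N x * (exp (-PR A p0 N x) * g (XR A p0 N x)))
      (g := fun x => M * (exp (-((Jn A N (Rn N) : ℝ) + 1)) * (exp (3 * PR A p0 N x) * ELR A p0 N x) +
      exp (-((Jn A N (Rn N) : ℝ) + 1)) * (exp (-3 * PR A p0 N x) * ELR A p0 N x))) c3.int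
      (Filter.Eventually.of_forall fun x => by
        have f1 := tj_err_maj (Jn A N (Rn N)) (PR A p0 N x)
        rw [neg_one_mul] at f1
        have f2 := (ELR_pos A p0 N x).le
        rw [Real.norm_eq_abs]
        have f3 : ELR A p0 N x * (tR A p0 N x * g (XR A p0 N x)) - ELR A p0 N x *
            (exp (-PR A p0 N x) * g (XR A p0 N x)) = (ELR A p0 N x * g (XR A p0 N x)) *
            (tR A p0 N x - exp (-PR A p0 N x)) := by ring
        rw [f3, abs_mul, abs_mul, abs_of_nonneg f2]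
        calc ELR A p0 N x * |g (XR A p0 N x)| * |tR A p0 N x - exp (-PR A p0 N x)| ≤
            ELR A p0 N x * M * (exp (-((Jn A N (Rn N) : ℝ) + 1)) * exp (3 * PR A p0 N x) +
              exp (-((Jn A N (Rn N) : ℝ) + 1)) * exp (-3 * PR A p0 N x)) := by
              refine mul_le_mul ?_ f1 (abs_nonneg _) (by positivity)
              exact mul_le_mul_of_nonneg_left (hM _) f2
          _ = _ := by ring)
    rw [Real.norm_eq_abs] at k2
    refine k2.trans ?_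
    rw [integral_const_mul]
    refine mul_le_mul_of_nonneg_left ?_ hM0
    rw [integral_add (((expPR_CB hG 3).mul hE).smul _).int (((expPR_CB hG (-3)).mul hE).smul _).int,
      integral_const_mul, integral_const_mul]
    have g1 := err3 hP hG (b := 3) (by norm_num)
    have g2 := err3 hP hG (b := -3) (by norm_num)
    linarith
  rw [e1] at k1
  have k3 : |wR A p0 N * (∫ x, rhoR A p0 N x * g (XR A p0 N x) ∂(mu (Sb N))) - wR A p0 N * γ| ≤
      ε / 2 * wR A p0 N := by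
    rw [← mul_sub, abs_mul, abs_of_pos hw, mul_comm]
    exact mul_le_mul_of_nonneg_right h2.le hw.le
  have k4 : M * (2 * (exp (-(Jn A N (Rn N) : ℝ) / 2) * wR A p0 N)) ≤ ε / 2 * wR A p0 N := by
    rw [← mul_assoc, ← mul_assoc]
    refine mul_le_mul_of_nonneg_right ?_ hw.le
    rw [le_div_iff₀ (by positivity)] at h3
    have := exp_pos (-(Jn A N (Rn N) : ℝ) / 2)
    nlinarith
  calc |I1 - wR A p0 N * γ| ≤ _ := abs_sub_le _ (wR A p0 N * ∫ x, rhoR A p0 N x * g (XR A p0 N x) ∂(mu (Sb N))) _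
    _ ≤ ε / 2 * wR A p0 N + ε / 2 * wR A p0 N := add_le_add (k1.trans k4) k3
    _ = _ := by ring

/-- exponential moments of the truncated weight -/
theorem blk_exp (hP : Par A p0 C) {κ : ℝ} (hκ : 0 ≤ κ) : ∀ᶠ N : ℕ in atTop,
    ∫ x, ELR A p0 N x * (tR A p0 N x * exp (κ * |XR A p0 N x|)) ∂(mu (Sb N)) ≤
      (2 * exp (κ ^ 2 + 1) + 2) * wR A p0 N := by
  filter_upwards [hP.ev, ev_J A (by have := hP.hA3; omega) (ε := 1) one_pos, ev_sl (4 * κ + 1), ev_ll 1]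
    with N hG h3 hs hll1
  have hsl : 0 < sl N := by linarith
  have hll : 0 < ll N := by linarith
  have hw := wR_pos A p0 N
  set δ : ℝ := κ / sl N with hδ
  have hδ0 : 0 ≤ δ := by positivity
  have hδ1 : δ ≤ 1 / 4 := by
    rw [hδ, div_le_iff₀ hsl]
    linarith
  have hE := ELR_CB A p0 N
  have c1 : CB fun x : Sb N → ℝ => exp ((-1 + δ) * PR A p0 N x) * ELR A p0 N x := (expPR_CB hG _).mul hE
  have c2 : CB fun x : Sb N → ℝ => exp ((-1 + -δ) * PR A p0 N x) * ELR A p0 N x := (expPR_CB hG _).mul hE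
  have c3 : CB fun x : Sb N → ℝ => exp (-((Jn A N (Rn N) : ℝ) + 1)) * (exp (3 * PR A p0 N x) * ELR A p0 N x) :=
    ((expPR_CB hG 3).mul hE).smul _
  have c4 : CB fun x : Sb N → ℝ => exp (-((Jn A N (Rn N) : ℝ) + 1)) * (exp (-3 * PR A p0 N x) * ELR A p0 N x) :=
    ((expPR_CB hG (-3)).mul hE).smul _
  have hpt : ∀ x : Sb N → ℝ, ELR A p0 N x * (tR A p0 N x * exp (κ * |XR A p0 N x|)) ≤
      (exp ((-1 + δ) * PR A p0 N x) * ELR A p0 N x + exp ((-1 + -δ) * PR A p0 N x) * ELR A p0 N x) +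
      (exp (-((Jn A N (Rn N) : ℝ) + 1)) * (exp (3 * PR A p0 N x) * ELR A p0 N x) +
        exp (-((Jn A N (Rn N) : ℝ) + 1)) * (exp (-3 * PR A p0 N x) * ELR A p0 N x)) := by
    intro x
    set P := PR A p0 N x with hPd
    have e0 : κ * |XR A p0 N x| = δ * |P| := by
      unfold XR
      rw [abs_div, abs_of_pos hsl, hδ]
      ring
    rw [e0]
    have f1 := tj_err (Jn A N (Rn N)) (-P)
    rw [abs_neg] at f1
    have f2 : tR A p0 N x ≤ exp (-P) + exp (-((Jn A N (Rn N) : ℝ) + 1)) * exp (exp 1 * |P|) := by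
      have := (abs_le.1 f1).2
      unfold tR
      linarith
    have he : exp 1 ≤ 2.72 := by have := Real.exp_one_lt_d9; linarith
    have hPa := abs_nonneg P
    have f3 : exp (exp 1 * |P|) * exp (δ * |P|) ≤ exp (3 * P) + exp (-3 * P) := by
      rw [← Real.exp_add]
      have f4 : exp (exp 1 * |P| + δ * |P|) ≤ exp (3 * |P|) := exp_le_exp.2 (by nlinarith)
      refine f4.trans ?_
      rcases abs_cases P with ⟨h, _⟩ | ⟨h, _⟩
      · rw [h]; linarith [exp_pos (-3 * P)]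
      · rw [h]
        have : 3 * -P = -3 * P := by ring
        rw [this]; linarith [exp_pos (3 * P)]
    have f5 : exp (-P) * exp (δ * |P|) ≤ exp ((-1 + δ) * P) + exp ((-1 + -δ) * P) := by
      rw [← Real.exp_add]
      rcases abs_cases P with ⟨h, _⟩ | ⟨h, _⟩
      · rw [h]
        have : -P + δ * P = (-1 + δ) * P := by ring
        rw [this]; linarith [exp_pos ((-1 + -δ) * P)]
      · rw [h]
        have : -P + δ * -P = (-1 + -δ) * P := by ring
        rw [this]; linarith [exp_pos ((-1 + δ) * P)]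
    have f6 : tR A p0 N x * exp (δ * |P|) ≤ (exp ((-1 + δ) * P) + exp ((-1 + -δ) * P)) +
        exp (-((Jn A N (Rn N) : ℝ) + 1)) * (exp (3 * P) + exp (-3 * P)) := by
      calc tR A p0 N x * exp (δ * |P|) ≤ (exp (-P) + exp (-((Jn A N (Rn N) : ℝ) + 1)) * exp (exp 1 * |P|)) *
            exp (δ * |P|) := mul_le_mul_of_nonneg_right f2 (exp_pos _).le
        _ = exp (-P) * exp (δ * |P|) + exp (-((Jn A N (Rn N) : ℝ) + 1)) * (exp (exp 1 * |P|) * exp (δ * |P|)) := by ring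
        _ ≤ _ := add_le_add f5 (mul_le_mul_of_nonneg_left f3 (exp_pos _).le)
    have f7 := mul_le_mul_of_nonneg_left f6 (ELR_pos A p0 N x).le
    refine f7.trans (le_of_eq ?_)
    ring
  have k1 : ∫ x, ELR A p0 N x * (tR A p0 N x * exp (κ * |XR A p0 N x|)) ∂(mu (Sb N)) ≤
      ∫ x, ((exp ((-1 + δ) * PR A p0 N x) * ELR A p0 N x + exp ((-1 + -δ) * PR A p0 N x) * ELR A p0 N x) +
      (exp (-((Jn A N (Rn N) : ℝ) + 1)) * (exp (3 * PR A p0 N x) * ELR A p0 N x) +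
        exp (-((Jn A N (Rn N) : ℝ) + 1)) * (exp (-3 * PR A p0 N x) * ELR A p0 N x))) ∂(mu (Sb N)) := by
    refine integral_mono_of_nonneg (Filter.Eventually.of_forall fun x => ?_) ((c1.add c2).add (c3.add c4)).int
      (Filter.Eventually.of_forall hpt)
    exact mul_nonneg (ELR_pos A p0 N x).le (mul_nonneg (tR_pos A p0 N x).le (exp_pos _).le)
  refine k1.trans ?_
  rw [integral_add (c1.add c2).int (c3.add c4).int, integral_add c1.int c2.int, integral_add c3.int c4.int,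
    integral_const_mul, integral_const_mul]
  have g1 := err3 hP hG (b := 3) (by norm_num)
  have g2 := err3 hP hG (b := -3) (by norm_num)
  have g3 := up_shift hP hG (δ := δ) (by rw [abs_of_nonneg hδ0]; linarith)
  have g4 := up_shift hP hG (δ := -δ) (by rw [abs_neg, abs_of_nonneg hδ0]; linarith)
  have hv : δ ^ 2 / 2 * vv A p0 N (Rn N) + 1 ≤ κ ^ 2 + 1 := by
    have h5 : δ ^ 2 = κ ^ 2 / ll N := by rw [hδ, div_pow, sl_sq hll.le]
    rw [h5]
    have h6 : κ ^ 2 / ll N / 2 * vv A p0 N (Rn N) ≤ κ ^ 2 / ll N / 2 * (2 * ll N) :=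
      mul_le_mul_of_nonneg_left hG.v2 (by positivity)
    have h7 : κ ^ 2 / ll N / 2 * (2 * ll N) = κ ^ 2 := by field_simp
    linarith
  have g5 : exp (δ ^ 2 / 2 * vv A p0 N (Rn N) + 1) * wR A p0 N ≤ exp (κ ^ 2 + 1) * wR A p0 N :=
    mul_le_mul_of_nonneg_right (exp_le_exp.2 hv) hw.le
  have g6 : exp (-(Jn A N (Rn N) : ℝ) / 2) * wR A p0 N ≤ 1 * wR A p0 N := mul_le_mul_of_nonneg_right h3 hw.le
  rw [neg_sq] at g4
  linarith

end Pool.Agent.H485.CC
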