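import Pool.Agent.H485.CC.Ep5
import Pool.Agent.H485.CC.Ep2

/-!
# The package of moments with the twisted first moment
-/

set_option autoImplicit false
set_option maxHeartbeats 1000000

open MeasureTheory Real Finset Filter Topology ProbabilityTheory

namespace Pool.Agent.H485.CC

variable {A p0 N : ℕ} {C : ℝ}

/-- the first moment with the Euler product, twisted by a Taylor polynomial -/
theorem EL_Tn (hP : Par A p0 C) {T : ℝ → ℝ} (hTc : Continuous T) {MT : ℝ} (hMT : ∀ x, |T x| ≤ MT)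
    {Ta ρ : ℝ} (hTa : 0 ≤ Ta) (hρ : 0 ≤ ρ) {n : ℕ} {w : ℕ → ℝ}
    (hw : ∀ x : ℝ, |T x - ∑ j ∈ range (n + 1), w j * x ^ j| ≤ Ta * ((ρ * |x|) ^ (n + 1) / ((n + 1).factorial : ℝ)))
    {δ : ℝ} (hδ : 0 < δ) (hn : Ta * (1 / 2) ^ (n + 1) * (2 * exp ((2 * ρ) ^ 2 + 1) + 2) ≤ δ / 2) :
    ∀ᶠ N : ℕ in atTop, aN A p0 N * (wR A p0 N * ((∫ x, T x ∂(gaussianReal 0 1)) - δ)) ≤
      ∫ x, EL (Sb N) x * (Mo A p0 N (XX (Sb N) x) * ∑ j ∈ range (n + 1), w j * XR A p0 N x ^ j) ∂(mu (Sb N)) := by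
  filter_upwards [blk_bdd hP hTc hMT (half_pos hδ), blk_exp hP (κ := 2 * ρ) (by positivity), hP.ev] with N h1 h2 hG
  have h3 := EL_fac hG (fun y => ∑ j ∈ range (n + 1), w j * y ^ j)
  rw [h3]
  have ha : 0 ≤ aN A p0 N := integral_nonneg fun x => mul_nonneg (ELo_pos A p0 N x).le (Mk_pos A p0 N _ _).le
  refine mul_le_mul_of_nonneg_left ?_ ha
  have hE := ELR_CB A p0 N
  have hT := tR_CB hG
  have hX := XR_CB hG
  have hTn : CB fun x : Sb N → ℝ => ∑ j ∈ range (n + 1), w j * XR A p0 N x ^ j :=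
    CB.sum _ fun j _ => (hX.pow j).smul _
  have hTT : CB fun x : Sb N → ℝ => T (XR A p0 N x) := CB.of (XR_cont A p0 N) hTc hMT
  have c1 : CB fun x => ELR A p0 N x * (tR A p0 N x * ∑ j ∈ range (n + 1), w j * XR A p0 N x ^ j) :=
    hE.mul (hT.mul hTn)
  have c2 : CB fun x => ELR A p0 N x * (tR A p0 N x * T (XR A p0 N x)) := hE.mul (hT.mul hTT)
  have c3 : CB fun x => ELR A p0 N x * (tR A p0 N x * exp (2 * ρ * |XR A p0 N x|)) := by
    refine hE.mul (hT.mul (CB.exp (CB.smul ?_ (2 * ρ))))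
    obtain ⟨k1, k2, k3⟩ := hX
    exact ⟨k1.abs, k2, fun x => by rw [abs_abs]; exact k3 x⟩
  have hpt : ∀ x, ELR A p0 N x * (tR A p0 N x * T (XR A p0 N x)) - (Ta * (1 / 2) ^ (n + 1)) *
      (ELR A p0 N x * (tR A p0 N x * exp (2 * ρ * |XR A p0 N x|))) ≤
      ELR A p0 N x * (tR A p0 N x * ∑ j ∈ range (n + 1), w j * XR A p0 N x ^ j) := by
    intro x
    set y := XR A p0 N x with hy
    have f1 := (abs_le.1 (hw y)).2
    have f2 : (ρ * |y|) ^ (n + 1) / ((n + 1).factorial : ℝ) ≤ (1 / 2) ^ (n + 1) * exp (2 * ρ * |y|) := by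
      have f3 := Real.pow_div_factorial_le_exp (x := 2 * ρ * |y|) (by positivity) (n + 1)
      have f4 : (ρ * |y|) ^ (n + 1) / ((n + 1).factorial : ℝ) =
          (1 / 2) ^ (n + 1) * ((2 * ρ * |y|) ^ (n + 1) / ((n + 1).factorial : ℝ)) := by
        rw [mul_div_assoc', ← mul_pow]
        congr 2
        ring
      rw [f4]
      exact mul_le_mul_of_nonneg_left f3 (by positivity)
    have f3 : T y - Ta * (1 / 2) ^ (n + 1) * exp (2 * ρ * |y|) ≤ ∑ j ∈ range (n + 1), w j * y ^ j := by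
      have := mul_le_mul_of_nonneg_left f2 hTa
      linarith
    have f4 : 0 ≤ ELR A p0 N x * tR A p0 N x := mul_nonneg (ELR_pos A p0 N x).le (tR_pos A p0 N x).le
    have f5 := mul_le_mul_of_nonneg_left f3 f4
    linarith
  have k1 : (∫ x, ELR A p0 N x * (tR A p0 N x * T (XR A p0 N x)) ∂(mu (Sb N))) - (Ta * (1 / 2) ^ (n + 1)) *
      ∫ x, ELR A p0 N x * (tR A p0 N x * exp (2 * ρ * |XR A p0 N x|)) ∂(mu (Sb N)) ≤
      ∫ x, ELR A p0 N x * (tR A p0 N x * ∑ j ∈ range (n + 1), w j * XR A p0 N x ^ j) ∂(mu (Sb N)) := by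
    rw [← integral_const_mul, ← integral_sub c2.int (c3.smul _).int]
    exact integral_mono (c2.int.sub (c3.smul _).int) c1.int hpt
  refine le_trans ?_ k1
  have hw0 := wR_pos A p0 N
  have k2 := (abs_le.1 h1).1
  have k3 : (Ta * (1 / 2) ^ (n + 1)) * ∫ x, ELR A p0 N x * (tR A p0 N x * exp (2 * ρ * |XR A p0 N x|)) ∂(mu (Sb N)) ≤
      δ / 2 * wR A p0 N := by
    refine (mul_le_mul_of_nonneg_left h2 (by positivity)).trans ?_
    rw [← mul_assoc]
    exact mul_le_mul_of_nonneg_right hn hw0.le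
  linarith

/-- the lower bound for the untwisted first moment -/
lemma aw_low (hP : Par A p0 C) (hEL : ∀ᶠ N : ℕ in atTop, (1 / 4) * exp (-(VS A p0 N / 2)) ≤
    ∫ x, EL (Sb N) x * Mo A p0 N (XX (Sb N) x) ∂(mu (Sb N))) :
    ∀ᶠ N : ℕ in atTop, (1 / 8) * exp (-(VS A p0 N / 2)) ≤ aN A p0 N * wR A p0 N := by
  filter_upwards [blk_bdd hP (g := fun _ => 1) continuous_const (M := 1) (fun _ => by simp) one_pos, hP.ev, hEL]
    with N h1 hG h2
  have h3 := EL_fac hG (fun _ => 1)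
  simp only [mul_one] at h3 h1
  rw [h3] at h2
  have ha : 0 ≤ aN A p0 N := integral_nonneg fun x => mul_nonneg (ELo_pos A p0 N x).le (Mk_pos A p0 N _ _).le
  have h4 : ∫ x, ELR A p0 N x * tR A p0 N x ∂(mu (Sb N)) ≤ 2 * wR A p0 N := by
    have h5 := (abs_le.1 h1).2
    have h6 : ∫ _ : ℝ, (1 : ℝ) ∂(gaussianReal 0 1) = 1 := by simp
    rw [h6, mul_one] at h5
    linarith
  have h5 := mul_le_mul_of_nonneg_left h4 ha
  linarith

/-- all the model moments, with more information -/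
theorem pack2 : ∃ (A p0 : ℕ) (C K c : ℝ), 0 < c ∧ 1 ≤ K ∧ Par A p0 C ∧ ∀ᶠ N : ℕ in atTop, Good A p0 N C ∧
    c * exp (-(ll N / 2)) ≤ aN A p0 N * wR A p0 N ∧
    ∫ x, (Mo A p0 N (XX (Sb N) x) * S5 N (XX (Sb N) x)) ^ 2 ∂(mu (Sb N)) ≤ K * exp (-ll N) ∧
    ∫ x, Mo A p0 N (XX (Sb N) x) ^ 2 ∂(mu (Sb N)) ≤ K * exp (20 * ll N) ∧
    ∫ x, Mk A p0 N (Rn N) (XX (Sb N) x) ^ 2 ∂(mu (Sb N)) ≤ K * exp (36 * log (ll N)) := by
  obtain ⟨C, hC0, hgood⟩ := good
  obtain ⟨p2, hfirst⟩ := EL_Mo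
  obtain ⟨p3, hst1, hst3⟩ := start
  set p1 : ℕ := max p2 p3 with hp1d
  obtain ⟨C1, hC10, hsecond⟩ := model_second2
  obtain ⟨K0, hK00, hMk⟩ := Mk_sq
  set A : ℕ := ⌈96 * (C + 2)⌉₊ + 3 with hA
  have hA3 : 3 ≤ A := by omega
  have hAC : 96 * (C + 2) ≤ A := by
    rw [hA]
    push_cast
    have := Nat.le_ceil (96 * (C + 2))
    linarith
  set Cv : ℝ := C + log (256 * A) + p1 with hCv
  have hCv0 : 0 ≤ Cv := by
    have h1 : (3 : ℝ) ≤ A := by exact_mod_cast hA3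
    have h2 : 0 ≤ log (256 * (A : ℝ)) := Real.log_nonneg (by linarith)
    have h3 : (0 : ℝ) ≤ p1 := Nat.cast_nonneg _
    positivity
  set K1 : ℝ := exp (18 * Cv + K0) with hK1
  set K2 : ℝ := exp (36 * C + K0) with hK2
  set K3 : ℝ := 2 * exp (2 * Cv + C1) + 2 with hK3
  set c0 : ℝ := (1 / 8) * exp (-(Cv / 2)) with hc0
  have hc00 : 0 < c0 := by positivity
  have hK1p : 0 < K1 := exp_pos _
  have hK2p : 0 < K2 := exp_pos _
  have hK3p : 0 < K3 := by positivity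
  have hPar : Par A p1 C := ⟨hC0, hA3, hAC, hgood A p1 (by omega),
    fun p hp => hst1 p (lt_of_le_of_lt (le_max_right _ _) hp),
    fun S hS => hst3 S fun p hp => lt_of_le_of_lt (le_max_right _ _) (hS p hp)⟩
  have haw := aw_low hPar (by
    filter_upwards [hPar.ev] with N hG
    exact hfirst A p1 N C (le_max_left _ _) hA3 hC0 hG hAC)
  refine ⟨A, p1, C, K1 + K2 + K3 + 1, c0, by positivity, by linarith, hPar, ?_⟩
  filter_upwards [hPar.ev, tail5, ev_big K1 21 (ε := 2) (by norm_num), haw] with N hG htail hb2 hawN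
  have hL := hG.hL
  have hlog : 1 ≤ log (N : ℝ) := by linarith
  have hN0 := pos_of_log hlog
  have hll := hG.hll
  have hV := abs_le.1 hG.V
  have hVS : VS A p1 N = ∑ p ∈ Sa A p1 N, (1 : ℝ) / p := rfl
  rw [← hVS, ← hCv] at hV
  -- third
  have h3 : ∫ x, Mo A p1 N (XX (Sb N) x) ^ 2 ∂(mu (Sb N)) ≤ K1 * exp (18 * ll N) := by
    have h := hMk A p1 N C hG hA3 (Rn N + 1) le_rfl
    have e1 : ∑ i ∈ range (Rn N + 1), vv A p1 N i = VS A p1 N := hG.sum _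
    rw [e1] at h
    refine h.trans ?_
    rw [hK1, ← Real.exp_add]
    exact exp_le_exp.2 (by linarith)
  have h3' : ∫ x, Mo A p1 N (XX (Sb N) x) ^ 2 ∂(mu (Sb N)) ≤ K1 * exp (20 * ll N) :=
    h3.trans (mul_le_mul_of_nonneg_left (exp_le_exp.2 (by linarith)) hK1p.le)
  have h30 : 0 ≤ ∫ x, Mo A p1 N (XX (Sb N) x) ^ 2 ∂(mu (Sb N)) := integral_nonneg fun _ => sq_nonneg _
  -- fourth
  have h4 : ∫ x, Mk A p1 N (Rn N) (XX (Sb N) x) ^ 2 ∂(mu (Sb N)) ≤ K2 * exp (36 * log (ll N)) := by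
    have h := hMk A p1 N C hG hA3 (Rn N) (by omega)
    refine h.trans ?_
    rw [hK2, ← Real.exp_add]
    have := hG.v3
    exact exp_le_exp.2 (by linarith)
  -- second
  have hMC := Mo_CB hG
  have hQC := Q5_CB hlog
  have hSC : CB fun x : Sb N → ℝ => S5 N (XX (Sb N) x) := by
    unfold S5
    exact CB.sum _ fun n _ => CB.smul ⟨continuous_XX n, _, fun x => abs_XX_le x n⟩ _
  have h2 : ∫ x, (Mo A p1 N (XX (Sb N) x) * S5 N (XX (Sb N) x)) ^ 2 ∂(mu (Sb N)) ≤ K3 * exp (-ll N) := by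
    have key : ∀ x : (Sb N) → ℝ, (Mo A p1 N (XX (Sb N) x) * S5 N (XX (Sb N) x)) ^ 2 ≤
        2 * (Mo A p1 N (XX (Sb N) x) * Q5 N x) ^ 2 +
        2 * (1 / (N : ℝ)) ^ 2 * (Mo A p1 N (XX (Sb N) x) ^ 2 + 0) := by
      intro x
      have e1 := htail (ax N x) (abs_ax x)
      rw [← Q5_eq, ← S5_eq] at e1
      set T := Mo A p1 N (XX (Sb N) x)
      set D := Q5 N x - S5 N (XX (Sb N) x) with hD
      have e2 : S5 N (XX (Sb N) x) = Q5 N x - D := by rw [hD]; ring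
      have e3 : D ^ 2 ≤ (1 / (N : ℝ)) ^ 2 := by
        rw [← sq_abs]
        exact pow_le_pow_left₀ (abs_nonneg _) e1 2
      rw [e2, add_zero]
      have e4 : (T * (Q5 N x - D)) ^ 2 ≤ 2 * (T * Q5 N x) ^ 2 + 2 * (T * D) ^ 2 := by
        nlinarith [sq_nonneg (T * Q5 N x + T * D)]
      have e5 : (T * D) ^ 2 ≤ (1 / (N : ℝ)) ^ 2 * T ^ 2 := by
        rw [mul_pow, mul_comm]
        exact mul_le_mul_of_nonneg_right e3 (sq_nonneg T)
      linarith
    have i3 : Integrable (fun _ : (Sb N) → ℝ => (0 : ℝ)) (mu (Sb N)) := integrable_zero _ _ _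
    refine (int_le3 (fun x => sq_nonneg _) ((hMC.mul hQC).pow 2).int (hMC.pow 2).int i3 key).trans ?_
    rw [integral_zero, add_zero]
    have g1 := hsecond A p1 N C hG hAC
    have g2 : exp (-VS A p1 N + C1 + (C + log (256 * A) + p1)) ≤ exp (2 * Cv + C1) * exp (-ll N) := by
      rw [← Real.exp_add]
      exact exp_le_exp.2 (by linarith)
    have g3 : (1 / (N : ℝ)) ^ 2 * ∫ x, Mo A p1 N (XX (Sb N) x) ^ 2 ∂(mu (Sb N)) ≤ exp (-ll N) := by
      have e1 : (1 / (N : ℝ)) ^ 2 = ((N : ℝ) ^ (2 : ℝ))⁻¹ := by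
        rw [div_pow, one_pow, one_div]
        norm_cast
      rw [e1, inv_mul_le_iff₀ (by positivity)]
      calc ∫ x, Mo A p1 N (XX (Sb N) x) ^ 2 ∂(mu (Sb N)) ≤ K1 * exp (20 * ll N) := h3'
        _ = (K1 * exp (21 * ll N)) * exp (-ll N) := by
          have e9 : exp (20 * ll N) = exp (21 * ll N) * exp (-ll N) := by
            rw [← Real.exp_add]; congr 1; ring
          rw [e9]
          ring
        _ ≤ _ := mul_le_mul_of_nonneg_right hb2 (exp_pos _).le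
    have hE := exp_pos (-ll N)
    rw [hK3]
    linarith
  refine ⟨hG, ?_, ?_, ?_, ?_⟩
  · refine le_trans ?_ hawN
    rw [hc0, mul_assoc, ← Real.exp_add]
    refine mul_le_mul_of_nonneg_left (exp_le_exp.2 (by linarith)) (by norm_num)
  · refine h2.trans (mul_le_mul_of_nonneg_right ?_ (exp_pos _).le)
    linarith
  · refine h3'.trans (mul_le_mul_of_nonneg_right ?_ (exp_pos _).le)
    linarith
  · refine h4.trans (mul_le_mul_of_nonneg_right ?_ (exp_pos _).le)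
    linarith

end Pool.Agent.H485.CC
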