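import Pool.Agent.H485.CC.Ep6

/-!
# The twisted first moment over the even forms
-/

set_option autoImplicit false
set_option maxHeartbeats 1000000

open MeasureTheory Real Finset Filter Topology ProbabilityTheory

namespace Pool.Agent.H485.CC

open W388.LV (SF om IsNewSet)

variable {A p0 N : ℕ} {C : ℝ}

/-- the length of the last block -/
lemma ev_XiR (A : ℕ) (hA : 0 < A) (n : ℕ) {ε : ℝ} (hε : 0 < ε) :
    ∀ᶠ N : ℕ in atTop, (n : ℝ) * Xi A N (Rn N) ≤ ε * log N := by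
  filter_upwards [ev_ll ((n : ℝ) / ε + 1), ev_log 1, ev_ll 1] with N h1 h2 h3
  have hL : 0 < log (N : ℝ) := by linarith
  have hn : (0 : ℝ) ≤ n := Nat.cast_nonneg n
  have hA0 : (1 : ℝ) ≤ A := by exact_mod_cast hA
  have h4 : ll N ^ 2 ≤ (2 : ℝ) ^ Rn N := by
    have h5 : ((⌈ll N⌉₊ + 1 : ℕ) : ℝ) ^ 2 ≤ (2 : ℝ) ^ Rn N := by exact_mod_cast (two_pow_R N).1
    refine le_trans ?_ h5
    have h6 : ll N ≤ ⌈ll N⌉₊ := Nat.le_ceil _
    push_cast
    exact pow_le_pow_left₀ (by linarith) (by linarith) 2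
  have h5 : Xi A N (Rn N) ≤ log N / ll N ^ 2 := by
    unfold Xi
    rw [div_div]
    apply div_le_div_of_nonneg_left hL.le (by positivity)
    calc ll N ^ 2 ≤ (2 : ℝ) ^ Rn N := h4
      _ = 1 * (2 : ℝ) ^ Rn N := (one_mul _).symm
      _ ≤ 256 * A * 2 ^ Rn N := mul_le_mul_of_nonneg_right (by linarith) (by positivity)
  calc (n : ℝ) * Xi A N (Rn N) ≤ n * (log N / ll N ^ 2) := mul_le_mul_of_nonneg_left h5 hn
    _ = (n / ll N ^ 2) * log N := by ring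
    _ ≤ _ := by
      refine mul_le_mul_of_nonneg_right ?_ hL.le
      rw [div_le_iff₀ (by positivity)]
      have h6 : (n : ℝ) ≤ ε * ll N := by
        have h7 : (n : ℝ) / ε ≤ ll N := by linarith
        rwa [div_le_iff₀ hε, mul_comm] at h7
      have h7 : ll N ≤ ll N ^ 2 := by nlinarith
      nlinarith

/-- the total length of the mollifier -/
lemma Good.length2 (h : Good A p0 N C) :
    ∑ i ∈ range (Rn N + 1), (Jn A N i : ℝ) * Xi A N i ≤ log N / 16 := by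
  have hL := h.hL
  have hL0 : 0 < log (N : ℝ) := by linarith
  have hA0 : (0 : ℝ) < A := by exact_mod_cast h.hA
  rw [Finset.sum_range_succ]
  have h1 : ∑ i ∈ range (Rn N), (Jn A N i : ℝ) * Xi A N i = log N / 128 * ∑ i ∈ range (Rn N), ((i : ℝ) + 1) / 2 ^ i := by
    rw [Finset.mul_sum]
    refine Finset.sum_congr rfl fun i hi => ?_
    unfold Jn Xi
    rw [if_pos (Finset.mem_range.1 hi)]
    push_cast
    field_simp
    ring
  have h2 : (Jn A N (Rn N) : ℝ) * Xi A N (Rn N) ≤ log N / 128 := by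
    unfold Jn Xi
    rw [if_neg (lt_irrefl _)]
    have h3 := (two_pow_R N).1
    have h4 : ((⌈ll N⌉₊ : ℝ) + 1) ^ 2 ≤ 2 ^ Rn N := by exact_mod_cast h3
    push_cast
    have h5 : (2 * (A : ℝ) * ((⌈ll N⌉₊ : ℝ) + 1)) * (log N / (256 * A) / 2 ^ Rn N) =
        log N / 128 * (((⌈ll N⌉₊ : ℝ) + 1) / 2 ^ Rn N) := by
      field_simp
      ring
    rw [h5]
    apply mul_le_of_le_one_right (by positivity)
    rw [div_le_one (by positivity)]
    refine le_trans ?_ h4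
    nlinarith [Nat.cast_nonneg (α := ℝ) ⌈ll N⌉₊]
  rw [h1]
  have h6 := mul_le_mul_of_nonneg_left (sum_half (Rn N)) (show 0 ≤ log (N : ℝ) / 128 by positivity)
  linarith

lemma len_mono2 (hG : Good A p0 N C) {n : ℕ} (hn : n ≤ Rn N + 1) :
    exp (∑ i ∈ range n, (Jn A N i : ℝ) * Xi A N i) ≤ (N : ℝ) ^ (1 / 16 : ℝ) := by
  have hL := hG.hL
  have hN0 := pos_of_log (show 1 ≤ log (N : ℝ) by linarith)
  rw [Real.rpow_def_of_pos hN0]
  apply exp_le_exp.2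
  have h1 : ∑ i ∈ range n, (Jn A N i : ℝ) * Xi A N i ≤ ∑ i ∈ range (Rn N + 1), (Jn A N i : ℝ) * Xi A N i := by
    refine Finset.sum_le_sum_of_subset_of_nonneg (range_mono hn) fun i _ _ => ?_
    have : 0 ≤ log (N : ℝ) := by linarith
    unfold Xi
    positivity
  linarith [hG.length2]

/-- a polynomial of the normalized sum as an observable -/
lemma obs_Tn (hG : Good A p0 N C) {D : ℝ} (hD : 0 ≤ D) {F : (ℕ → ℝ) → ℝ} (hF : Obs (Sb N) D F) (n : ℕ)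
    (w : ℕ → ℝ) : Obs (Sb N) (exp (Xi A N (Rn N)) ^ n * D)
      fun lam => (∑ j ∈ range (n + 1), w j * (PP (SR A p0 N) lam / sl N) ^ j) * F lam := by
  have hX0 : 0 ≤ Xi A N (Rn N) := by
    unfold Xi
    have := hG.hL
    have : 0 ≤ log (N : ℝ) := by linarith
    positivity
  have hz : 1 ≤ exp (Xi A N (Rn N)) := Real.one_le_exp hX0
  have hA' : ∀ (D : ℝ) (F : (ℕ → ℝ) → ℝ), 0 ≤ D → Obs (Sb N) D F →
      Obs (Sb N) (exp (Xi A N (Rn N)) * D) fun lam => (PP (SR A p0 N) lam / sl N) * F lam := by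
    intro D F hD hF
    have := hF.mul_lin Sb_prime (SR_sub hG) (hG.le_exp (show Rn N < Rn N + 1 by omega)) hD (fun p => tp p / sl N)
    refine this.congr fun lam _ => ?_
    unfold PP
    rw [Finset.sum_div]
    congr 1
    exact Finset.sum_congr rfl fun p _ => by ring
  exact Obs.mul_poly hz hA' hD hF n w

/-- a crude bound for a polynomial of the normalized sum -/
lemma Tn_bdd (hG : Good A p0 N C) (n : ℕ) (w : ℕ → ℝ) (x : Sb N → ℝ) :
    |∑ j ∈ range (n + 1), w j * XR A p0 N x ^ j| ≤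
      (∑ j ∈ range (n + 1), |w j|) * 2 ^ n * exp (Xi A N (Rn N)) ^ n := by
  have hsl1 : 1 ≤ sl N := by
    unfold sl
    rw [Real.one_le_sqrt]
    linarith [hG.hll]
  have hX0 : 0 ≤ Xi A N (Rn N) := by
    unfold Xi
    have := hG.hL
    have : 0 ≤ log (N : ℝ) := by linarith
    positivity
  have hz : 1 ≤ exp (Xi A N (Rn N)) := Real.one_le_exp hX0
  have h1 : |XR A p0 N x| ≤ 2 * exp (Xi A N (Rn N)) := by
    unfold XR
    rw [abs_div, abs_of_pos (by linarith : 0 < sl N)]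
    have h2 : |PR A p0 N x| ≤ 2 * exp (Xi A N (Rn N)) := by
      refine (PP_bdd Sb_prime (SR_sub hG) x).trans ?_
      have h3 : ∀ p ∈ SR A p0 N, tp p * 2 ≤ 2 := by
        intro p hp
        have := tp_le_one (SR_gt hG p hp).2.one_le
        linarith
      refine (Finset.sum_le_card_nsmul _ _ _ h3).trans ?_
      rw [nsmul_eq_mul, mul_comm]
      refine mul_le_mul_of_nonneg_left ?_ (by norm_num)
      have h4 : SR A p0 N ⊆ Finset.Icc 1 ⌊exp (Xi A N (Rn N))⌋₊ := by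
        intro p hp
        rw [Finset.mem_Icc]
        exact ⟨(SR_gt hG p hp).2.one_le, Nat.le_floor (hG.le_exp (by omega) p hp)⟩
      have h5 := Finset.card_le_card h4
      rw [Nat.card_Icc, Nat.add_sub_cancel] at h5
      calc ((SR A p0 N).card : ℝ) ≤ (⌊exp (Xi A N (Rn N))⌋₊ : ℕ) := by exact_mod_cast h5
        _ ≤ _ := Nat.floor_le (exp_pos _).le
    exact (div_le_self (abs_nonneg _) hsl1).trans h2
  refine (Finset.abs_sum_le_sum_abs _ _).trans ?_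
  rw [mul_assoc, Finset.sum_mul]
  refine Finset.sum_le_sum fun j hj => ?_
  rw [abs_mul, abs_pow, ← mul_pow]
  refine mul_le_mul_of_nonneg_left ?_ (abs_nonneg _)
  have h2 : 1 ≤ 2 * exp (Xi A N (Rn N)) := by linarith
  calc |XR A p0 N x| ^ j ≤ (2 * exp (Xi A N (Rn N))) ^ j := pow_le_pow_left₀ (abs_nonneg _) h1 j
    _ ≤ _ := pow_le_pow_right₀ h2 (Nat.lt_succ_iff.1 (mem_range.1 hj))

/-- the moments of the package -/
def Pk (A p0 : ℕ) (C K c : ℝ) (N : ℕ) : Prop := Good A p0 N C ∧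
    c * exp (-(ll N / 2)) ≤ aN A p0 N * wR A p0 N ∧
    ∫ x, (Mo A p0 N (XX (Sb N) x) * S5 N (XX (Sb N) x)) ^ 2 ∂(mu (Sb N)) ≤ K * exp (-ll N) ∧
    ∫ x, Mo A p0 N (XX (Sb N) x) ^ 2 ∂(mu (Sb N)) ≤ K * exp (20 * ll N) ∧
    ∫ x, Mk A p0 N (Rn N) (XX (Sb N) x) ^ 2 ∂(mu (Sb N)) ≤ K * exp (36 * log (ll N))

/-- the mollified and twisted first moment over the even forms -/
theorem first_T {K c : ℝ} (hP : Par A p0 C) (hc : 0 < c) (hK : 1 ≤ K) (hpk : ∀ᶠ N : ℕ in atTop, Pk A p0 C K c N)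
    {T : ℝ → ℝ} (hTc : Continuous T) {MT : ℝ} (hMT : ∀ x, |T x| ≤ MT)
    {Ta ρ : ℝ} (hTa : 0 ≤ Ta) (hρ : 0 ≤ ρ) {n : ℕ} {w : ℕ → ℝ}
    (hw : ∀ x : ℝ, |T x - ∑ j ∈ range (n + 1), w j * x ^ j| ≤ Ta * ((ρ * |x|) ^ (n + 1) / ((n + 1).factorial : ℝ)))
    {δ : ℝ} (hδ : 0 < δ) (hn : Ta * (1 / 2) ^ (n + 1) * (2 * exp ((2 * ρ) ^ 2 + 1) + 2) ≤ δ / 2)
    (hδT : δ < ∫ x, T x ∂(gaussianReal 0 1)) :
    ∀ᶠ N : ℕ in atTop, N.Prime → ∀ [NeZero N] (B : Finset (SF N 2)), W388.LV.IsNewBasis N 2 B →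
      ∀ E : Finset (SF N 2), (∀ f, f ∈ E ↔ f ∈ B ∧ W388.IsNewf N 2 f 1) →
      c / 4 * ((∫ x, T x ∂(gaussianReal 0 1)) - δ) * exp (-(ll N / 2)) ≤
        ∑ f ∈ E, om f * ((Mo A p0 N (W388.lamf f) * S5 N (W388.lamf f)) *
          ∑ j ∈ range (n + 1), w j * (PP (SR A p0 N) (W388.lamf f) / sl N) ^ j) := by
  set g : ℝ := (∫ x, T x ∂(gaussianReal 0 1)) - δ with hg
  have hg0 : 0 < g := by linarith
  have hcg : 0 < c * g := by positivity
  have hK0 : 0 < K := by linarith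
  set Wn : ℝ := ∑ j ∈ range (n + 1), |w j| with hWn
  have hWn0 : 0 ≤ Wn := Finset.sum_nonneg fun _ _ => abs_nonneg _
  have hA1 : 0 < A := by have := hP.hA3; omega
  filter_upwards [hpk, EL_Tn hP hTc hMT hTa hρ hw hδ hn, obs_even_pow, ev_XiR A hA1 n (ε := 1 / 8000) (by norm_num),
    ev_big (Wn * 2 ^ n) 0 (ε := 1 / 8000) (by norm_num), ev_big (640 * K / (c * g) ^ 2) 21 (ε := 3 / 8 - 1 / 2000) (by norm_num),
    ev_big (64 * K / (c * g) ^ 2) 0 (ε := 3 / 2000) (by norm_num), ev_big 2 0 (ε := 1 / 8) (by norm_num)]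
    with N hpN h1 h2 h3 h4 h5 h6 h7 hN _ B hB E hE
  obtain ⟨hG, m1, m2, m3, -⟩ := hpN
  have hL := hG.hL
  have hlog : 1 ≤ log (N : ℝ) := by linarith
  have hN0 := pos_of_log hlog
  have hNR : (1 : ℝ) ≤ N := by exact_mod_cast hN.one_lt.le
  simp only [zero_mul, Real.exp_zero, mul_one] at h4 h6 h7
  set e2 : ℝ := exp (-(ll N / 2)) with he2
  have he20 : 0 < e2 := exp_pos _
  have hEe : exp (-ll N) = e2 ^ 2 := by
    rw [he2, ← Real.exp_nat_mul]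
    congr 1
    push_cast
    ring
  have hXn : exp (Xi A N (Rn N)) ^ n ≤ (N : ℝ) ^ (1 / 8000 : ℝ) := by
    rw [← Real.exp_nat_mul, Real.rpow_def_of_pos hN0]
    apply exp_le_exp.2
    linarith
  have hXn0 : 0 < exp (Xi A N (Rn N)) ^ n := by positivity
  set BT : ℝ := Wn * 2 ^ n * exp (Xi A N (Rn N)) ^ n with hBT
  have hBT0 : 0 ≤ BT := by positivity
  have hBT1 : BT ^ 2 ≤ (N : ℝ) ^ (1 / 2000 : ℝ) := by
    have e1 : BT ≤ (N : ℝ) ^ (1 / 8000 : ℝ) * (N : ℝ) ^ (1 / 8000 : ℝ) :=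
      mul_le_mul h4 hXn hXn0.le (by positivity)
    calc BT ^ 2 ≤ ((N : ℝ) ^ (1 / 8000 : ℝ) * (N : ℝ) ^ (1 / 8000 : ℝ)) ^ 2 := pow_le_pow_left₀ hBT0 e1 2
      _ = (N : ℝ) ^ (1 / 2000 : ℝ) := by
        rw [← Real.rpow_add hN0, ← Real.rpow_natCast, ← Real.rpow_mul hN0.le]
        norm_num
  -- the observables
  set Tl : (ℕ → ℝ) → ℝ := fun lam => ∑ j ∈ range (n + 1), w j * (PP (SR A p0 N) lam / sl N) ^ j with hTl
  have o1 : Obs (Sb N) 1 fun _ => 1 := Obs.const le_rfl 1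
  have oT := obs_Tn hG zero_le_one o1 n w
  have oF := obs_Mk hG (by positivity) oT (Rn N + 1) le_rfl
  have oF' : Obs (Sb N) ((N : ℝ) ^ (1 / 8 : ℝ)) fun lam => Mo A p0 N lam * Tl lam := by
    refine (oF.mono ?_).congr fun lam _ => ?_
    · have e1 : (N : ℝ) ^ (1 / 16 : ℝ) * (N : ℝ) ^ (1 / 16 : ℝ) = (N : ℝ) ^ (1 / 8 : ℝ) := by
        rw [← Real.rpow_add hN0]; norm_num
      rw [← e1, mul_one]
      refine mul_le_mul (len_mono2 hG le_rfl) (hXn.trans ?_) hXn0.le (by positivity)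
      exact Real.rpow_le_rpow_of_exponent_le hNR (by norm_num)
    · rw [mul_one, Mo_eq]
  have oS := obs_Tn hG (Nat.cast_nonneg _) (obs_S5 N) n w
  have oG := obs_Mk hG (by positivity) oS (Rn N + 1) le_rfl
  have oG' : Obs (Sb N) ((N : ℝ) ^ (1 - 1 / 8 : ℝ)) fun lam => (Mo A p0 N lam * S5 N lam) * Tl lam := by
    refine (oG.mono ?_).congr fun lam _ => ?_
    · have e1 : (N : ℝ) ^ (1 - 1 / 8 : ℝ) = (N : ℝ) ^ (1 / 16 : ℝ) * ((N : ℝ) ^ (1 / 16 : ℝ) * (N : ℝ) ^ (3 / 4 : ℝ)) := by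
        rw [← Real.rpow_add hN0, ← Real.rpow_add hN0]; norm_num
      rw [e1]
      refine mul_le_mul (len_mono2 hG le_rfl) ?_ (by positivity) (by positivity)
      refine mul_le_mul (hXn.trans ?_) (Nat.floor_le (by positivity)) (Nat.cast_nonneg _) (by positivity)
      exact Real.rpow_le_rpow_of_exponent_le hNR (by norm_num)
    · rw [Mo_eq]
      ring
  -- second moments
  have hMC := Mo_CB hG
  have hSC : CB fun x : Sb N → ℝ => S5 N (XX (Sb N) x) := by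
    unfold S5
    exact CB.sum _ fun n _ => CB.smul ⟨continuous_XX n, _, fun x => abs_XX_le x n⟩ _
  have hTb : ∀ x : Sb N → ℝ, Tl (XX (Sb N) x) ^ 2 ≤ BT ^ 2 := by
    intro x
    rw [← sq_abs]
    exact pow_le_pow_left₀ (abs_nonneg _) (Tn_bdd hG n w x) 2
  have s1 : ∫ x, (Mo A p0 N (XX (Sb N) x) * Tl (XX (Sb N) x)) ^ 2 ∂(mu (Sb N)) ≤
      (N : ℝ) ^ (1 / 2000 : ℝ) * (K * exp (20 * ll N)) := by
    calc ∫ x, (Mo A p0 N (XX (Sb N) x) * Tl (XX (Sb N) x)) ^ 2 ∂(mu (Sb N)) ≤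
        ∫ x, BT ^ 2 * Mo A p0 N (XX (Sb N) x) ^ 2 ∂(mu (Sb N)) := by
          refine integral_mono_of_nonneg (Filter.Eventually.of_forall fun x => sq_nonneg _)
            ((hMC.pow 2).smul _).int (Filter.Eventually.of_forall fun x => ?_)
          show (Mo A p0 N (XX (Sb N) x) * Tl (XX (Sb N) x)) ^ 2 ≤ BT ^ 2 * Mo A p0 N (XX (Sb N) x) ^ 2
          rw [mul_pow, mul_comm]
          exact mul_le_mul_of_nonneg_right (hTb x) (sq_nonneg _)
      _ = BT ^ 2 * ∫ x, Mo A p0 N (XX (Sb N) x) ^ 2 ∂(mu (Sb N)) := integral_const_mul _ _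
      _ ≤ _ := mul_le_mul hBT1 m3 (integral_nonneg fun x => sq_nonneg _) (by positivity)
  have s2 : ∫ x, ((Mo A p0 N (XX (Sb N) x) * S5 N (XX (Sb N) x)) * Tl (XX (Sb N) x)) ^ 2 ∂(mu (Sb N)) ≤
      (N : ℝ) ^ (1 / 2000 : ℝ) * (K * e2 ^ 2) := by
    rw [hEe] at m2
    calc ∫ x, ((Mo A p0 N (XX (Sb N) x) * S5 N (XX (Sb N) x)) * Tl (XX (Sb N) x)) ^ 2 ∂(mu (Sb N)) ≤
        ∫ x, BT ^ 2 * (Mo A p0 N (XX (Sb N) x) * S5 N (XX (Sb N) x)) ^ 2 ∂(mu (Sb N)) := by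
          refine integral_mono_of_nonneg (Filter.Eventually.of_forall fun x => sq_nonneg _)
            (((hMC.mul hSC).pow 2).smul _).int (Filter.Eventually.of_forall fun x => ?_)
          show ((Mo A p0 N (XX (Sb N) x) * S5 N (XX (Sb N) x)) * Tl (XX (Sb N) x)) ^ 2 ≤
            BT ^ 2 * (Mo A p0 N (XX (Sb N) x) * S5 N (XX (Sb N) x)) ^ 2
          rw [mul_pow, mul_comm]
          exact mul_le_mul_of_nonneg_right (hTb x) (sq_nonneg _)
      _ = BT ^ 2 * ∫ x, (Mo A p0 N (XX (Sb N) x) * S5 N (XX (Sb N) x)) ^ 2 ∂(mu (Sb N)) := integral_const_mul _ _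
      _ ≤ _ := mul_le_mul hBT1 m2 (integral_nonneg fun x => sq_nonneg _) (by positivity)
  -- the coefficients
  obtain ⟨cc, hcc1, hcc2⟩ := oF'
  have hY : (N : ℝ) ^ (1 / 8 : ℝ) ≤ (Yb N : ℕ) := by
    have e1 : (N : ℝ) ^ (3 / 4 : ℝ) - 1 < (Yb N : ℕ) := Nat.sub_one_lt_floor _
    have e2 : (N : ℝ) ^ (3 / 4 : ℝ) ≥ (N : ℝ) ^ (1 / 8 : ℝ) * (N : ℝ) ^ (1 / 8 : ℝ) := by
      rw [← Real.rpow_add hN0]
      exact Real.rpow_le_rpow_of_exponent_le hNR (by norm_num)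
    nlinarith
  have hSmY : ∀ n ∈ Finset.Icc 1 (Yb N), Sm (Sb N) n := by
    intro n hn
    rw [Finset.mem_Icc] at hn
    exact ⟨hn.1, fun p hp => mem_Sb hn.2 hn.1 hp⟩
  have f1 := EL_obs (S := Sb N) Sb_prime hcc1 hcc2
  have f2 := lin_obs (S := Sb N) Sb_prime hcc1 hcc2 (Yb N) hY hSmY (fun n => tp n * V5 N n)
  have f3 := integral_obs (S := Sb N) Sb_prime hcc1 hcc2
  set I1 : ℝ := ∫ x, EL (Sb N) x * (Mo A p0 N (XX (Sb N) x) * Tl (XX (Sb N) x)) ∂(mu (Sb N)) with hI1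
  set I2 : ℝ := ∫ x, (Mo A p0 N (XX (Sb N) x) * S5 N (XX (Sb N) x)) * Tl (XX (Sb N) x) ∂(mu (Sb N)) with hI2
  have e1 : I1 = ∑ n ∈ cc.support, cc n * tp n := f1
  have e2' : I2 = ∑ n ∈ cc.support, cc n * (tp n * V5 N n) := by
    rw [← f2, hI2]
    congr 1
    ext x
    have : S5 N (XX (Sb N) x) = ∑ n ∈ Finset.Icc 1 (Yb N), tp n * V5 N n * XX (Sb N) x n := rfl
    rw [← this]
    ring
  have e3 : ∑ n ∈ cc.support, cc n ^ 2 ≤ (N : ℝ) ^ (1 / 2000 : ℝ) * (K * exp (20 * ll N)) := by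
    rw [← f3]
    exact s1
  have h5' : (∑ n ∈ cc.support, cc n * (tp n * (1 - V5 N n))) ^ 2 ≤ (c * g / 4) ^ 2 * e2 ^ 2 := by
    have g1 := Finset.sum_mul_sq_le_sq_mul_sq cc.support (fun n => cc n) (fun n => tp n * (1 - V5 N n))
    have g2 : ∑ n ∈ cc.support, (tp n * (1 - V5 N n)) ^ 2 ≤ 40 * (N : ℝ) ^ (-(3 / 8) : ℝ) := by
      have g3 : ∀ n ∈ cc.support, (tp n * (1 - V5 N n)) ^ 2 ≤ (2 * π * (N : ℝ) ^ (-(1 / 4) : ℝ)) ^ 2 := by
        intro n hn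
        have g4 := V5_ge hlog n
        have g5 := V5_le_one hlog n
        have g6 := (hcc1 n hn).2
        have g7 : 2 * π * (N : ℝ) ^ (-(3 / 8) : ℝ) * n ≤ 2 * π * (N : ℝ) ^ (-(1 / 4) : ℝ) := by
          have e4 : (N : ℝ) ^ (-(1 / 4) : ℝ) = (N : ℝ) ^ (-(3 / 8) : ℝ) * (N : ℝ) ^ (1 / 8 : ℝ) := by
            rw [← Real.rpow_add hN0]
            norm_num
          rw [e4, ← mul_assoc]
          exact mul_le_mul_of_nonneg_left g6 (by positivity)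
        have g8 : tp n * (1 - V5 N n) ≤ 1 * (2 * π * (N : ℝ) ^ (-(1 / 4) : ℝ)) :=
          mul_le_mul (tp_le_one (hcc1 n hn).1.1) (by linarith) (by linarith) zero_le_one
        rw [one_mul] at g8
        exact pow_le_pow_left₀ (mul_nonneg (tp_nonneg n) (by linarith)) g8 2
      refine (Finset.sum_le_card_nsmul _ _ _ g3).trans ?_
      rw [nsmul_eq_mul]
      have g4 : (cc.support.card : ℝ) ≤ (N : ℝ) ^ (1 / 8 : ℝ) := by
        have g5 : cc.support ⊆ Finset.Icc 1 ⌊(N : ℝ) ^ (1 / 8 : ℝ)⌋₊ := by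
          intro n hn
          rw [Finset.mem_Icc]
          exact ⟨(hcc1 n hn).1.1, Nat.le_floor (hcc1 n hn).2⟩
        have g6 := Finset.card_le_card g5
        rw [Nat.card_Icc, Nat.add_sub_cancel] at g6
        calc (cc.support.card : ℝ) ≤ (⌊(N : ℝ) ^ (1 / 8 : ℝ)⌋₊ : ℕ) := by exact_mod_cast g6
          _ ≤ _ := Nat.floor_le (by positivity)
      calc (cc.support.card : ℝ) * (2 * π * (N : ℝ) ^ (-(1 / 4) : ℝ)) ^ 2 ≤
          (N : ℝ) ^ (1 / 8 : ℝ) * (2 * π * (N : ℝ) ^ (-(1 / 4) : ℝ)) ^ 2 :=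
            mul_le_mul_of_nonneg_right g4 (sq_nonneg _)
        _ = (4 * π ^ 2) * (N : ℝ) ^ (-(3 / 8) : ℝ) := by
          have e4 : (N : ℝ) ^ (-(3 / 8) : ℝ) = (N : ℝ) ^ (1 / 8 : ℝ) * ((N : ℝ) ^ (-(1 / 4) : ℝ)) ^ 2 := by
            rw [← Real.rpow_natCast ((N : ℝ) ^ (-(1 / 4) : ℝ)) 2, ← Real.rpow_mul hN0.le,
              ← Real.rpow_add hN0]
            norm_num
          rw [e4]
          ring
        _ ≤ _ := by
          refine mul_le_mul_of_nonneg_right ?_ (by positivity)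
          have := Real.pi_lt_d2
          nlinarith [Real.pi_pos]
    refine g1.trans ?_
    have g3 : (∑ n ∈ cc.support, cc n ^ 2) * ∑ n ∈ cc.support, (tp n * (1 - V5 N n)) ^ 2 ≤
        ((N : ℝ) ^ (1 / 2000 : ℝ) * (K * exp (20 * ll N))) * (40 * (N : ℝ) ^ (-(3 / 8) : ℝ)) :=
      mul_le_mul e3 g2 (Finset.sum_nonneg fun _ _ => sq_nonneg _) (by positivity)
    refine g3.trans ?_
    have g4 : 0 < (N : ℝ) ^ (3 / 8 - 1 / 2000 : ℝ) := by positivity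
    have g6 : (N : ℝ) ^ (1 / 2000 : ℝ) * (N : ℝ) ^ (-(3 / 8) : ℝ) = ((N : ℝ) ^ (3 / 8 - 1 / 2000 : ℝ))⁻¹ := by
      rw [← Real.rpow_add hN0, ← Real.rpow_neg hN0.le]
      norm_num
    have g5 : ((N : ℝ) ^ (1 / 2000 : ℝ) * (K * exp (20 * ll N))) * (40 * (N : ℝ) ^ (-(3 / 8) : ℝ)) =
        ((c * g / 4) ^ 2 * e2 ^ 2) * ((640 * K / (c * g) ^ 2 * exp (21 * ll N)) / (N : ℝ) ^ (3 / 8 - 1 / 2000 : ℝ)) := by
      have e5 : exp (20 * ll N) = e2 ^ 2 * exp (21 * ll N) := by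
        rw [← hEe, ← Real.exp_add]; congr 1; ring
      calc ((N : ℝ) ^ (1 / 2000 : ℝ) * (K * exp (20 * ll N))) * (40 * (N : ℝ) ^ (-(3 / 8) : ℝ)) =
          40 * K * exp (20 * ll N) * ((N : ℝ) ^ (1 / 2000 : ℝ) * (N : ℝ) ^ (-(3 / 8) : ℝ)) := by ring
        _ = _ := by
          rw [g6, e5, div_eq_mul_inv _ ((N : ℝ) ^ (3 / 8 - 1 / 2000 : ℝ))]
          field_simp
          ring
    rw [g5]
    refine mul_le_of_le_one_right (by positivity) ?_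
    rw [div_le_one g4]
    exact h5
  have h6' : |∑ n ∈ cc.support, cc n * (tp n * (1 - V5 N n))| ≤ (c * g / 4) * e2 := by
    apply abs_le_of_sq_le_sq _ (by positivity)
    rw [mul_pow]
    exact h5'
  have h7' : ∑ n ∈ cc.support, cc n * (tp n * (1 - V5 N n)) = I1 - I2 := by
    rw [e1, e2', ← Finset.sum_sub_distrib]
    exact Finset.sum_congr rfl fun n _ => by ring
  rw [h7'] at h6'
  have h8 : c * e2 * g ≤ I1 := by
    have h9 : aN A p0 N * (wR A p0 N * g) ≤ I1 := h1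
    have h10 : c * e2 * g ≤ (aN A p0 N * wR A p0 N) * g := mul_le_mul_of_nonneg_right m1 hg0.le
    linarith
  have h9 : c * e2 * g - (c * g / 4) * e2 ≤ I2 := by
    have := (abs_le.1 h6').2
    linarith
  -- the forms
  have q1 := h2 hN B hB E hE (Sb N) Sb_prime (Sb_ndvd hN) _ _ oG' le_rfl
  have q2 : (N : ℝ) ^ (-(1 / 1000) : ℝ) * Real.sqrt (∫ x, ((Mo A p0 N (XX (Sb N) x) * S5 N (XX (Sb N) x)) *
      Tl (XX (Sb N) x)) ^ 2 ∂(mu (Sb N))) ≤ (c * g / 8) * e2 := by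
    have hb : 0 < (N : ℝ) ^ (-(1 / 1000) : ℝ) := by positivity
    have q3 : ((N : ℝ) ^ (-(1 / 1000) : ℝ) * Real.sqrt (∫ x, ((Mo A p0 N (XX (Sb N) x) * S5 N (XX (Sb N) x)) *
      Tl (XX (Sb N) x)) ^ 2 ∂(mu (Sb N)))) ^ 2 ≤ ((c * g / 8) * e2) ^ 2 := by
      rw [mul_pow, Real.sq_sqrt (integral_nonneg fun x => sq_nonneg _)]
      have q4 : ((N : ℝ) ^ (-(1 / 1000) : ℝ)) ^ 2 * (N : ℝ) ^ (1 / 2000 : ℝ) = ((N : ℝ) ^ (3 / 2000 : ℝ))⁻¹ := by
        rw [← Real.rpow_natCast, ← Real.rpow_mul hN0.le, ← Real.rpow_add hN0, ← Real.rpow_neg hN0.le]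
        norm_num
      calc ((N : ℝ) ^ (-(1 / 1000) : ℝ)) ^ 2 * ∫ x, ((Mo A p0 N (XX (Sb N) x) * S5 N (XX (Sb N) x)) *
          Tl (XX (Sb N) x)) ^ 2 ∂(mu (Sb N)) ≤
          ((N : ℝ) ^ (-(1 / 1000) : ℝ)) ^ 2 * ((N : ℝ) ^ (1 / 2000 : ℝ) * (K * e2 ^ 2)) :=
            mul_le_mul_of_nonneg_left s2 (by positivity)
        _ = (((N : ℝ) ^ (-(1 / 1000) : ℝ)) ^ 2 * (N : ℝ) ^ (1 / 2000 : ℝ)) * (K * e2 ^ 2) := by ring
        _ = ((c * g / 8) * e2) ^ 2 * ((64 * K / (c * g) ^ 2) / (N : ℝ) ^ (3 / 2000 : ℝ)) := by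
          rw [q4, div_eq_mul_inv _ ((N : ℝ) ^ (3 / 2000 : ℝ))]
          field_simp
          ring
        _ ≤ _ := by
          refine mul_le_of_le_one_right (by positivity) ?_
          rw [div_le_one (by positivity)]
          exact h6
    exact (abs_le_of_sq_le_sq' q3 (by positivity)).2
  have q3 := (abs_le.1 q1).1
  have q5 : c / 4 * g * e2 ≤ I2 / 2 - (c * g / 8) * e2 := by linarith
  show c / 4 * g * e2 ≤ ∑ f ∈ E, om f * ((Mo A p0 N (W388.lamf f) * S5 N (W388.lamf f)) * Tl (W388.lamf f))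
  linarith

end Pool.Agent.H485.CC
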