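import Pool.Agent.H485.CC.Ep7
import Pool.Agent.H485.CC.Clt5

/-!
# Tools for the localization
-/

set_option autoImplicit false
set_option maxHeartbeats 1000000

open MeasureTheory Real Finset Filter Topology ProbabilityTheory

namespace Pool.Agent.H485.CC

open W388.LV (SF om IsNewSet)

variable {A p0 N : ℕ} {C : ℝ}

/-- the Gaussian measure of an interval -/
noncomputable def GI (a b : ℝ) : ℝ := (gaussianReal 0 1).real (Set.Ioo a b)

lemma GI_nonneg (a b : ℝ) : 0 ≤ GI a b := measureReal_nonneg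

lemma GI_le_one (a b : ℝ) : GI a b ≤ 1 := measureReal_le_one

lemma G_Icc {a b : ℝ} (hab : a ≤ b) : (gaussianReal 0 1).real (Set.Icc a b) ≤ b - a := by
  rw [measureReal_def, gaussianReal_apply 0 one_ne_zero]
  have h2 : ∫⁻ x in Set.Icc a b, gaussianPDF 0 1 x ≤ ENNReal.ofReal (b - a) := by
    calc ∫⁻ x in Set.Icc a b, gaussianPDF 0 1 x ≤ ∫⁻ x in Set.Icc a b, 1 :=
          lintegral_mono fun x => pdf_le_one x
      _ = ENNReal.ofReal (b - a) := by
          rw [setLIntegral_const, one_mul, Real.volume_Icc]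
  calc (∫⁻ x in Set.Icc a b, gaussianPDF 0 1 x).toReal ≤ (ENNReal.ofReal (b - a)).toReal :=
        ENNReal.toReal_mono ENNReal.ofReal_ne_top h2
    _ = b - a := ENNReal.toReal_ofReal (by linarith)

lemma GI_shift (a b : ℝ) {s : ℝ} (hs : 0 ≤ s) :
    GI a b ≤ (gaussianReal 0 1).real (Set.Icc (a + s) (b - s)) + 2 * s := by
  unfold GI
  have h1 : Set.Ioo a b ⊆ (Set.Icc (a + s) (b - s) ∪ Set.Icc a (a + s)) ∪ Set.Icc (b - s) b := by
    intro x hx
    rcases le_or_gt x (a + s) with h | h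
    · exact Or.inl (Or.inr ⟨hx.1.le, h⟩)
    · rcases le_or_gt (b - s) x with h' | h'
      · exact Or.inr ⟨h', hx.2.le⟩
      · exact Or.inl (Or.inl ⟨h.le, h'.le⟩)
  refine (measureReal_mono h1).trans ((measureReal_union_le _ _).trans ?_)
  have h2 := G_Icc (show a ≤ a + s by linarith)
  have h3 := G_Icc (show b - s ≤ b by linarith)
  have h4 : (gaussianReal 0 1).real (Set.Icc (a + s) (b - s) ∪ Set.Icc a (a + s)) ≤
      (gaussianReal 0 1).real (Set.Icc (a + s) (b - s)) + (gaussianReal 0 1).real (Set.Icc a (a + s)) :=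
    measureReal_union_le _ _
  linarith

lemma GI_pos {a b : ℝ} (hab : a < b) : 0 < GI a b := by
  refine lt_of_le_of_ne (GI_nonneg a b) fun h => ?_
  unfold GI at h
  have h1 : gaussianReal 0 1 (Set.Ioo a b) = 0 := by
    rw [← measureReal_eq_zero_iff]
    exact h.symm
  have h2 := gaussianReal_absolutelyContinuous' 0 (v := 1) one_ne_zero h1
  rw [Real.volume_Ioo, ENNReal.ofReal_eq_zero] at h2
  linarith

/-- the bump -/
noncomputable def bump (a b η x : ℝ) : ℝ := max 0 (min 1 (min ((x - a) / η) ((b - x) / η)))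

lemma bump_cont (a b η : ℝ) : Continuous (bump a b η) := by
  unfold bump
  fun_prop

lemma bump_mem (a b η x : ℝ) : 0 ≤ bump a b η x ∧ bump a b η x ≤ 1 :=
  ⟨le_max_left _ _, max_le zero_le_one (min_le_left _ _)⟩

lemma bump_one {a b η x : ℝ} (hη : 0 < η) (h1 : a + η ≤ x) (h2 : x ≤ b - η) : bump a b η x = 1 := by
  unfold bump
  have e1 : 1 ≤ (x - a) / η := by
    rw [le_div_iff₀ hη]
    linarith
  have e2 : 1 ≤ (b - x) / η := by
    rw [le_div_iff₀ hη]
    linarith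
  rw [min_eq_left (le_min e1 e2)]
  exact max_eq_right zero_le_one

lemma bump_zero {a b η x : ℝ} (hη : 0 < η) (hx : x ≤ a ∨ b ≤ x) : bump a b η x = 0 := by
  unfold bump
  apply max_eq_left
  refine (min_le_right _ _).trans ?_
  rcases hx with h | h
  · refine (min_le_left _ _).trans ?_
    apply div_nonpos_of_nonpos_of_nonneg _ hη.le
    linarith
  · refine (min_le_right _ _).trans ?_
    apply div_nonpos_of_nonpos_of_nonneg _ hη.le
    linarith

/-- a trigonometric polynomial near the bump -/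
lemma exists_bump (a b : ℝ) {η ε M : ℝ} (hε : 0 < ε) (hM : 0 < M) : ∃ (r : ℝ) (Q : Polynomial ℝ),
    (∀ x : ℝ, |x| ≤ M → |Q.eval (sin (r * x)) - bump a b η x| < ε) ∧
    ∀ x : ℝ, |Q.eval (sin (r * x))| ≤ 1 + ε := by
  set r : ℝ := π / (2 * M) with hr
  have hr0 : 0 < r := by positivity
  obtain ⟨Q, hQ⟩ := exists_polynomial_near_of_continuousOn (-1) 1 (fun y => bump a b η (arcsin y / r))
    ((bump_cont a b η).comp (continuous_arcsin.div_const r)).continuousOn ε hε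
  refine ⟨r, Q, fun x hx => ?_, fun x => ?_⟩
  · have h1 := hQ (sin (r * x)) ⟨neg_one_le_sin _, sin_le_one _⟩
    have h2 : |r * x| ≤ π / 2 := by
      rw [abs_mul, abs_of_pos hr0]
      calc r * |x| ≤ r * M := mul_le_mul_of_nonneg_left hx hr0.le
        _ = π / 2 := by rw [hr]; field_simp
    have h3 := abs_le.1 h2
    have h4 : arcsin (sin (r * x)) = r * x := arcsin_sin h3.1 h3.2
    simp only [h4] at h1
    rwa [mul_div_cancel_left₀ _ hr0.ne'] at h1
  · have h1 := hQ (sin (r * x)) ⟨neg_one_le_sin _, sin_le_one _⟩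
    obtain ⟨h2, h3⟩ := bump_mem a b η (arcsin (sin (r * x)) / r)
    have h4 := abs_lt.1 h1
    rw [abs_le]
    constructor <;> linarith [h4.1, h4.2]

/-- the exponential moments of the normalized sum in the model -/
theorem expR_mod (hP : Par A p0 C) (b : ℝ) : ∃ Cb : ℝ, 0 ≤ Cb ∧ ∀ᶠ N : ℕ in atTop,
    ∫ x, exp (b * XR A p0 N x) ∂(mu (Sb N)) ≤ Cb := by
  obtain ⟨K, hK0, hK⟩ := NN_le 1 zero_le_one
  obtain ⟨C3, hC30, hC3⟩ := sum_tp3
  refine ⟨exp (b ^ 2 + K * C3), (exp_pos _).le, ?_⟩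
  filter_upwards [hP.ev, ev_sl (|b| + 1), ev_ll 1] with N hG h2 h3
  have hsl : 0 < sl N := by
    have := abs_nonneg b
    linarith
  have hb : |b / sl N| ≤ 1 := by
    rw [abs_div, abs_of_pos hsl, div_le_one hsl]
    linarith
  have e1 : ∫ x, exp (b * XR A p0 N x) ∂(mu (Sb N)) = NN (Sb N) (SR A p0 N) (b / sl N) := by
    unfold NN XR PR
    congr 1
    ext x
    congr 1
    ring
  rw [e1]
  refine (hK (Sb N) (SR A p0 N) _ Sb_prime (SR_sub hG) hb).trans (exp_le_exp.2 ?_)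
  have e2 : (b / sl N) ^ 2 = b ^ 2 / ll N := by rw [div_pow, sl_sq (by linarith)]
  rw [e2]
  have h6 : ∑ p ∈ SR A p0 N, (1 : ℝ) / p ≤ 2 * ll N := hG.v2
  have h4 : b ^ 2 / ll N / 2 * ∑ p ∈ SR A p0 N, (1 : ℝ) / p ≤ b ^ 2 / ll N / 2 * (2 * ll N) := by
    apply mul_le_mul_of_nonneg_left h6 (by positivity)
  have h5 : b ^ 2 / ll N / 2 * (2 * ll N) = b ^ 2 := by field_simp
  have h7 := mul_le_mul_of_nonneg_left (hC3 (Sb N)) hK0
  linarith

/-- the remainder over the forms -/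
theorem rem_forms (hP : Par A p0 C) {ρ : ℝ} (hρ : 0 ≤ ρ) : ∃ Cr : ℝ, 0 ≤ Cr ∧ ∀ n : ℕ, ∀ᶠ N : ℕ in atTop,
    N.Prime → ∀ [NeZero N] (B : Finset (SF N 2)), IsNewSet N 2 B →
    ∑ f ∈ B, om f * ((ρ * |PP (SR A p0 N) (W388.lamf f) / sl N|) ^ n / (n.factorial : ℝ)) ^ 2 ≤
      Cr * (1 / 4) ^ n := by
  obtain ⟨C1, hC10, hC1⟩ := expR_mod hP (4 * ρ)
  obtain ⟨C2, hC20, hC2⟩ := expR_mod hP (-(4 * ρ))
  refine ⟨2 * (C1 + C2), by positivity, fun n => ?_⟩
  obtain ⟨N0, hN0⟩ := ls_obs 2 le_rfl 1 (1 / 8) one_pos (by norm_num) (by norm_num)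
  have hA1 : 0 < A := by have := hP.hA3; omega
  filter_upwards [hP.ev, eventually_ge_atTop N0, ev_XiR A hA1 n (ε := 1 / 16) (by norm_num), hC1, hC2]
    with N hG h1 h2 k1 k2 hN _ B hB
  have hL := hG.hL
  have hlog : 1 ≤ log (N : ℝ) := by linarith
  have hN0' := pos_of_log hlog
  have hNR : (1 : ℝ) ≤ N := by exact_mod_cast hN.one_lt.le
  have hX0 : 0 ≤ Xi A N (Rn N) := by
    unfold Xi
    have : 0 ≤ log (N : ℝ) := by linarith
    positivity
  have hz : 1 ≤ exp (Xi A N (Rn N)) := Real.one_le_exp hX0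
  have hA' : ∀ (D : ℝ) (F : (ℕ → ℝ) → ℝ), 0 ≤ D → Obs (Sb N) D F →
      Obs (Sb N) (exp (Xi A N (Rn N)) * D) fun lam => (PP (SR A p0 N) lam / sl N) * F lam := by
    intro D F hD hF
    have := hF.mul_lin Sb_prime (SR_sub hG) (hG.le_exp (show Rn N < Rn N + 1 by omega)) hD (fun p => tp p / sl N)
    refine this.congr fun lam _ => ?_
    unfold PP
    rw [Finset.sum_div]
    congr 1
    exact Finset.sum_congr rfl fun p _ => by ring
  have o1 : Obs (Sb N) 1 fun _ => 1 := Obs.const le_rfl 1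
  have o2 := Obs.mul_pow hz hA' zero_le_one o1 n
  have hlen : exp (Xi A N (Rn N)) ^ n * 1 ≤ (N : ℝ) ^ (1 - 1 / 8 : ℝ) := by
    rw [mul_one, ← Real.exp_nat_mul, Real.rpow_def_of_pos hN0']
    apply exp_le_exp.2
    linarith
  have f2 := hN0 N h1 B hB (Sb N) Sb_prime (Sb_ndvd hN) _ _ o2 hlen
  simp only [mul_one] at f2
  have iE : ∀ b : ℝ, Integrable (fun x => exp (b * XR A p0 N x)) (mu (Sb N)) := fun b =>
    (CB.exp ((XR_CB hG).smul b)).int
  have mD : ∫ x, ((ρ * |XR A p0 N x|) ^ n / (n.factorial : ℝ)) ^ 2 ∂(mu (Sb N)) ≤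
      (C1 + C2) * (1 / 4) ^ n := by
    calc ∫ x, ((ρ * |XR A p0 N x|) ^ n / (n.factorial : ℝ)) ^ 2 ∂(mu (Sb N)) ≤
        ∫ x, (1 / 4) ^ n * (exp (4 * ρ * XR A p0 N x) + exp (-(4 * ρ) * XR A p0 N x)) ∂(mu (Sb N)) := by
          refine integral_mono_of_nonneg (Filter.Eventually.of_forall fun x => sq_nonneg _)
            (((iE _).add (iE _)).const_mul _) (Filter.Eventually.of_forall fun x => ?_)
          exact rem_le hρ n
      _ = (1 / 4) ^ n * ((∫ x, exp (4 * ρ * XR A p0 N x) ∂(mu (Sb N))) +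
            ∫ x, exp (-(4 * ρ) * XR A p0 N x) ∂(mu (Sb N))) := by
          rw [integral_const_mul, integral_add (iE _) (iE _)]
      _ ≤ (1 / 4) ^ n * (C1 + C2) := mul_le_mul_of_nonneg_left (add_le_add k1 k2) (by positivity)
      _ = _ := mul_comm _ _
  set P : SF N 2 → ℝ := fun f => PP (SR A p0 N) (W388.lamf f) / sl N with hPd
  calc ∑ f ∈ B, om f * ((ρ * |P f|) ^ n / (n.factorial : ℝ)) ^ 2 =
      ∑ f ∈ B, (ρ ^ n / (n.factorial : ℝ)) ^ 2 * (om f * (P f ^ n) ^ 2) := by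
        refine Finset.sum_congr rfl fun f _ => ?_
        have e1 : ((ρ * |P f|) ^ n / (n.factorial : ℝ)) ^ 2 =
          (ρ ^ n / (n.factorial : ℝ)) ^ 2 * (P f ^ n) ^ 2 := by
          rw [mul_pow, ← sq_abs (P f ^ n), abs_pow]
          ring
        rw [e1]
        ring
    _ = (ρ ^ n / (n.factorial : ℝ)) ^ 2 * ∑ f ∈ B, om f * (P f ^ n) ^ 2 := by rw [Finset.mul_sum]
    _ ≤ (ρ ^ n / (n.factorial : ℝ)) ^ 2 * ((1 + 1) * ∫ x, (XR A p0 N x ^ n) ^ 2 ∂(mu (Sb N))) :=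
        mul_le_mul_of_nonneg_left f2 (by positivity)
    _ = 2 * ∫ x, ((ρ * |XR A p0 N x|) ^ n / (n.factorial : ℝ)) ^ 2 ∂(mu (Sb N)) := by
        rw [mul_left_comm, ← integral_const_mul]
        norm_num
        congr 1
        ext x
        rw [mul_pow, ← sq_abs (XR A p0 N x ^ n), abs_pow]
        ring
    _ ≤ _ := by linarith

/-- Chebyshev for the normalized sum -/
theorem tail_forms (hP : Par A p0 C) : ∀ᶠ N : ℕ in atTop, N.Prime → ∀ [NeZero N] (B : Finset (SF N 2)),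
    IsNewSet N 2 B → ∀ M : ℝ, 0 < M →
    ∑ f ∈ B with M < |PP (SR A p0 N) (W388.lamf f) / sl N|, om f ≤ 4 / M ^ 2 := by
  obtain ⟨N0, hN0⟩ := ls_obs 2 le_rfl 1 (1 / 8) one_pos (by norm_num) (by norm_num)
  filter_upwards [hP.ev, eventually_ge_atTop N0, ev_ll 1] with N hG h1 hll hN _ B hB M hM
  have hNR : (1 : ℝ) ≤ N := by exact_mod_cast hN.one_lt.le
  have hsl : 0 < sl N := Real.sqrt_pos.2 (by linarith)
  have q4 := hN0 N h1 B hB (Sb N) Sb_prime (Sb_ndvd hN) _ _ (obs_PP (i := Rn N) hG (by omega))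
    (Real.rpow_le_rpow_of_exponent_le hNR (by norm_num))
  rw [PP_sq Sb_prime (hG.sc_sub' (by omega))] at q4
  have hv2 : ∑ p ∈ Sc A p0 N (Rn N), (1 : ℝ) / p ≤ 2 * ll N := hG.v2
  refine chebM B (fun f => om f) (fun f => PP (SR A p0 N) (W388.lamf f) / sl N) (fun f _ => om_nonneg f) hM ?_
  have e1 : ∀ f : SF N 2, om f * (PP (SR A p0 N) (W388.lamf f) / sl N) ^ 2 =
      (1 / ll N) * (om f * PP (Sc A p0 N (Rn N)) (W388.lamf f) ^ 2) := by
    intro f
    rw [div_pow, sl_sq (by linarith)]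
    unfold SR
    ring
  simp only [e1]
  rw [← Finset.mul_sum]
  have hll0 : 0 < ll N := by linarith
  calc (1 / ll N) * ∑ f ∈ B, om f * PP (Sc A p0 N (Rn N)) (W388.lamf f) ^ 2 ≤ (1 / ll N) * (4 * ll N) :=
        mul_le_mul_of_nonneg_left (by linarith) (by positivity)
    _ = 4 := by field_simp

end Pool.Agent.H485.CC
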