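import Pool.Agent.H485.CC.Ep8

/-!
# The mass of an interval for the mollified values
-/

set_option autoImplicit false
set_option maxHeartbeats 1000000

open MeasureTheory Real Finset Filter Topology ProbabilityTheory

namespace Pool.Agent.H485.CC

open W388.LV (SF om IsNewSet)

variable {A p0 N : ℕ} {C : ℝ}

/-- Cauchy–Schwarz with weights -/
lemma csw {ι : Type} (E : Finset ι) (w F G : ι → ℝ) (hw : ∀ i ∈ E, 0 ≤ w i) {a b : ℝ}
    (h1 : ∑ i ∈ E, w i * F i ^ 2 ≤ a) (h2 : ∑ i ∈ E, w i * G i ^ 2 ≤ b) :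
    (∑ i ∈ E, w i * (F i * G i)) ^ 2 ≤ a * b := by
  have h := Finset.sum_mul_sq_le_sq_mul_sq E (fun i => Real.sqrt (w i) * F i) (fun i => Real.sqrt (w i) * G i)
  have e1 : ∀ i ∈ E, (Real.sqrt (w i) * F i) * (Real.sqrt (w i) * G i) = w i * (F i * G i) := by
    intro i hi
    have := Real.mul_self_sqrt (hw i hi)
    calc (Real.sqrt (w i) * F i) * (Real.sqrt (w i) * G i) = (Real.sqrt (w i) * Real.sqrt (w i)) * (F i * G i) := by ring
      _ = _ := by rw [this]
  have e2 : ∀ H : ι → ℝ, ∀ i ∈ E, (Real.sqrt (w i) * H i) ^ 2 = w i * H i ^ 2 := by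
    intro H i hi
    rw [mul_pow, Real.sq_sqrt (hw i hi)]
  rw [Finset.sum_congr rfl e1, Finset.sum_congr rfl (e2 F), Finset.sum_congr rfl (e2 G)] at h
  have h3 : 0 ≤ ∑ i ∈ E, w i * G i ^ 2 := Finset.sum_nonneg fun i hi => mul_nonneg (hw i hi) (sq_nonneg _)
  have h4 : 0 ≤ ∑ i ∈ E, w i * F i ^ 2 := Finset.sum_nonneg fun i hi => mul_nonneg (hw i hi) (sq_nonneg _)
  exact h.trans (mul_le_mul h1 h2 h3 (h4.trans h1))

/-- the mass of an interval for the mollified values -/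
theorem loc_G {K c : ℝ} (hP : Par A p0 C) (hc : 0 < c) (hK : 1 ≤ K) (hpk : ∀ᶠ N : ℕ in atTop, Pk A p0 C K c N)
    (a b : ℝ) (hab : a < b) {η : ℝ} (hη : η = GI a b / 16) :
    ∃ a0 : ℝ, 0 < a0 ∧ ∀ᶠ N : ℕ in atTop, N.Prime → ∀ [NeZero N] (B : Finset (SF N 2)),
      W388.LV.IsNewBasis N 2 B → ∀ E : Finset (SF N 2), (∀ f, f ∈ E ↔ f ∈ B ∧ W388.IsNewf N 2 f 1) →
      c ^ 2 / (2 ^ 17 * K) * GI a b ^ 2 ≤
        ∑ f ∈ E with (a + 3 * η < PP (SR A p0 N) (W388.lamf f) / sl N ∧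
            PP (SR A p0 N) (W388.lamf f) / sl N < b - 3 * η) ∧
          a0 * exp (-(ll N / 2)) < Mo A p0 N (W388.lamf f) * S5 N (W388.lamf f), om f := by
  set γ : ℝ := GI a b with hγ
  have hγ0 : 0 < γ := GI_pos hab
  have hγ1 : γ ≤ 1 := GI_le_one a b
  have hη0 : 0 < η := by rw [hη]; positivity
  have hK0 : 0 < K := by linarith
  set τ : ℝ := (c * γ / 256) ^ 2 / (2 * K) with hτ
  have hτ0 : 0 < τ := by positivity
  have hτK : 2 * K * τ = (c * γ / 256) ^ 2 := by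
    rw [hτ]
    field_simp
  set ε : ℝ := min (1 / 4) (τ / 4) with hε
  have hε0 : 0 < ε := lt_min (by norm_num) (by positivity)
  have hε1 : ε ≤ 1 / 4 := min_le_left _ _
  have hε2 : ε ≤ τ / 4 := min_le_right _ _
  set M : ℝ := |a| + |b| + 1 + 128 / τ with hM
  have ha' := abs_nonneg a
  have hb' := abs_nonneg b
  have h128 : 0 < 128 / τ := by positivity
  have hM1 : 1 ≤ M := by linarith
  have hM0 : 0 < M := by linarith
  have hM2 : 64 / M ^ 2 ≤ τ / 2 := by
    rw [div_le_iff₀ (by positivity)]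
    have h1 : 128 ≤ M * τ := by
      have h2 : 128 / τ ≤ M := by linarith
      rwa [div_le_iff₀ hτ0] at h2
    nlinarith
  obtain ⟨r, Q, hQ1, hQ2⟩ := exists_bump (a + 3 * η) (b - 3 * η) (η := η) hε0 hM0
  obtain ⟨Ta, ρ, hTa, hρ, hTay⟩ := trig_taylor r (Q ^ 2)
  set T : ℝ → ℝ := fun x => (Q ^ 2).eval (sin (r * x)) with hT
  have hTsq : ∀ x, T x = Q.eval (sin (r * x)) ^ 2 := fun x => by rw [hT]; simp
  have hTc : Continuous T := by
    rw [hT]
    exact (Q ^ 2).continuous.comp (by fun_prop)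
  have hT0 : ∀ x, 0 ≤ T x := fun x => by rw [hTsq]; exact sq_nonneg _
  have hT4 : ∀ x, T x ≤ 4 := by
    intro x
    rw [hTsq, ← sq_abs]
    have h1 : |Q.eval (sin (r * x))| ≤ 2 := (hQ2 x).trans (by linarith)
    calc |Q.eval (sin (r * x))| ^ 2 ≤ 2 ^ 2 := pow_le_pow_left₀ (abs_nonneg _) h1 2
      _ = 4 := by norm_num
  have hTb : ∀ x, |T x| ≤ 4 := fun x => by rw [abs_of_nonneg (hT0 x)]; exact hT4 x
  -- outside the interval
  have hTout : ∀ x, |x| ≤ M → (x ≤ a + 3 * η ∨ b - 3 * η ≤ x) → T x ^ 2 ≤ ε := by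
    intro x hx hout
    have h1 := hQ1 x hx
    rw [bump_zero hη0 hout, sub_zero] at h1
    have h2 : T x ≤ ε ^ 2 := by
      rw [hTsq, ← sq_abs]
      exact pow_le_pow_left₀ (abs_nonneg _) h1.le 2
    calc T x ^ 2 ≤ (ε ^ 2) ^ 2 := pow_le_pow_left₀ (hT0 x) h2 2
      _ = ε * (ε * ε * ε) := by ring
      _ ≤ ε * 1 := by
        refine mul_le_mul_of_nonneg_left ?_ hε0.le
        have h3 : ε * ε ≤ 1 := by nlinarith
        nlinarith
      _ = ε := mul_one _
  -- the Gaussian integral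
  have hIT : γ / 4 ≤ ∫ x, T x ∂(gaussianReal 0 1) := by
    have hms : MeasurableSet (Set.Icc (a + 4 * η) (b - 4 * η)) := measurableSet_Icc
    have h1 : γ / 2 ≤ (gaussianReal 0 1).real (Set.Icc (a + 4 * η) (b - 4 * η)) := by
      have h2 := GI_shift a b (s := 4 * η) (by positivity)
      rw [← hγ] at h2
      have : 2 * (4 * η) = γ / 2 := by rw [hη]; ring
      linarith
    have h2 : ∫ x, (Set.Icc (a + 4 * η) (b - 4 * η)).indicator (fun _ => (9 / 16 : ℝ)) x ∂(gaussianReal 0 1) ≤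
        ∫ x, T x ∂(gaussianReal 0 1) := by
      refine integral_mono ((integrable_const _).indicator hms) ?_ fun x => ?_
      · exact Integrable.of_bound hTc.aestronglyMeasurable 4 (Filter.Eventually.of_forall fun x => by
          rw [Real.norm_eq_abs]; exact hTb x)
      · by_cases hx : x ∈ Set.Icc (a + 4 * η) (b - 4 * η)
        · rw [Set.indicator_of_mem hx]
          have h3 : |x| ≤ M := by
            rw [abs_le]
            obtain ⟨h4, h5⟩ := hx
            constructor <;> linarith [neg_abs_le a, le_abs_self b]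
          have h4 := hQ1 x h3
          rw [bump_one hη0 (by linarith [hx.1]) (by linarith [hx.2])] at h4
          have h5 := (abs_lt.1 h4).1
          show 9 / 16 ≤ T x
          rw [hTsq]
          nlinarith
        · rw [Set.indicator_of_notMem hx]
          exact hT0 x
    rw [integral_indicator hms, setIntegral_const, smul_eq_mul] at h2
    nlinarith
  -- the degree
  obtain ⟨Cr, hCr0, hCr⟩ := rem_forms hP hρ
  obtain ⟨n, hn1, hn2⟩ : ∃ n : ℕ, Ta * (1 / 2) ^ (n + 1) * (2 * exp ((2 * ρ) ^ 2 + 1) + 2) ≤ (γ / 8) / 2 ∧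
      Ta ^ 2 * (Cr * (1 / 4) ^ (n + 1)) ≤ τ := by
    have h1 : Tendsto (fun n : ℕ => Ta * (1 / 2 : ℝ) ^ (n + 1) * (2 * exp ((2 * ρ) ^ 2 + 1) + 2)) atTop (𝓝 0) := by
      have h2 := (tendsto_pow_atTop_nhds_zero_of_lt_one (r := (1 / 2 : ℝ)) (by norm_num) (by norm_num))
      have h3 := (((tendsto_add_atTop_iff_nat 1).2 h2).const_mul Ta).mul_const (2 * exp ((2 * ρ) ^ 2 + 1) + 2)
      simpa using h3
    have h2 : Tendsto (fun n : ℕ => Ta ^ 2 * (Cr * (1 / 4 : ℝ) ^ (n + 1))) atTop (𝓝 0) := by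
      have h2 := (tendsto_pow_atTop_nhds_zero_of_lt_one (r := (1 / 4 : ℝ)) (by norm_num) (by norm_num))
      have h3 := (((tendsto_add_atTop_iff_nat 1).2 h2).const_mul Cr).const_mul (Ta ^ 2)
      simpa using h3
    obtain ⟨n, h3, h4⟩ := ((h1.eventually_lt_const (show 0 < (γ / 8) / 2 by positivity)).and
      (h2.eventually_lt_const hτ0)).exists
    exact ⟨n, h3.le, h4.le⟩
  obtain ⟨w, hw⟩ := hTay n
  refine ⟨c * γ / 2048, by positivity, ?_⟩
  obtain ⟨N0, hN0⟩ := ls_obs 2 le_rfl 1 (1 / 8) one_pos (by norm_num) (by norm_num)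
  filter_upwards [first_T hP hc hK hpk hTc hTb hTa hρ hw (show 0 < γ / 8 by positivity) hn1 (by linarith),
    hCr (n + 1), tail_forms hP, hpk, eventually_ge_atTop N0] with N h1 h2 h3 hpN h4 hN _ B hB E hE
  obtain ⟨hG, -, m2, -, -⟩ := hpN
  have hBs := isNewSet_of_basis hB
  have hEB : E ⊆ B := fun f hf => ((hE f).1 hf).1
  have hw0 : ∀ f ∈ E, 0 ≤ om f := fun f _ => om_nonneg f
  have hwB : ∀ f ∈ B, 0 ≤ om f := fun f _ => om_nonneg f
  have hNR : (1 : ℝ) ≤ N := by exact_mod_cast hN.one_lt.le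
  have q0 := hN0 N h4 B hBs (Sb N) Sb_prime (Sb_ndvd hN) 1 (fun _ => 1) (Obs.const le_rfl 1)
    (Real.one_le_rpow hNR (by norm_num))
  have q2 := hN0 N h4 B hBs (Sb N) Sb_prime (Sb_ndvd hN) _ _ (obs_SM hG) le_rfl
  set e2 : ℝ := exp (-(ll N / 2)) with he2
  have he20 : 0 < e2 := exp_pos _
  have hEe : exp (-ll N) = e2 ^ 2 := by
    rw [he2, ← Real.exp_nat_mul]
    congr 1
    push_cast
    ring
  have hmass : ∑ f ∈ E, om f ≤ 2 := by
    have h8 : ∑ f ∈ E, om f ≤ ∑ f ∈ B, om f :=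
      Finset.sum_le_sum_of_subset_of_nonneg hEB fun f hf _ => hwB f hf
    simp only [one_pow, mul_one, integral_const, smul_eq_mul, probReal_univ] at q0
    linarith
  set X : SF N 2 → ℝ := fun f => PP (SR A p0 N) (W388.lamf f) / sl N with hX
  set W : SF N 2 → ℝ := fun f => Mo A p0 N (W388.lamf f) * S5 N (W388.lamf f) with hW
  have hsecond : ∀ s : Finset (SF N 2), s ⊆ E → ∑ f ∈ s, om f * W f ^ 2 ≤ 2 * K * e2 ^ 2 := by
    intro s hs
    have h8 : ∑ f ∈ s, om f * W f ^ 2 ≤ ∑ f ∈ B, om f * W f ^ 2 :=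
      Finset.sum_le_sum_of_subset_of_nonneg (hs.trans hEB) fun f hf _ => mul_nonneg (hwB f hf) (sq_nonneg _)
    rw [hEe] at m2
    have q3 : ∑ f ∈ B, om f * W f ^ 2 ≤ (1 + 1) * ∫ x, (Mo A p0 N (XX (Sb N) x) * S5 N (XX (Sb N) x)) ^ 2 ∂(mu (Sb N)) := q2
    linarith
  set Tn : ℝ → ℝ := fun x => ∑ j ∈ range (n + 1), w j * x ^ j with hTn
  have hfirst : c / 4 * ((∫ x, T x ∂(gaussianReal 0 1)) - γ / 8) * e2 ≤ ∑ f ∈ E, om f * (W f * Tn (X f)) :=
    h1 hN B hB E hE
  have hfirst' : c * γ / 32 * e2 ≤ ∑ f ∈ E, om f * (W f * Tn (X f)) := by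
    refine le_trans ?_ hfirst
    refine mul_le_mul_of_nonneg_right ?_ he20.le
    nlinarith
  -- the remainder
  have hrem : ∑ f ∈ E, om f * (Tn (X f) - T (X f)) ^ 2 ≤ τ := by
    refine le_trans ?_ hn2
    have h8 := h2 hN B hBs
    calc ∑ f ∈ E, om f * (Tn (X f) - T (X f)) ^ 2 ≤
        ∑ f ∈ B, Ta ^ 2 * (om f * ((ρ * |X f|) ^ (n + 1) / ((n + 1).factorial : ℝ)) ^ 2) := by
          refine (Finset.sum_le_sum_of_subset_of_nonneg hEB fun f hf _ =>
            mul_nonneg (hwB f hf) (sq_nonneg _)).trans (Finset.sum_le_sum fun f hf => ?_)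
          have h9 : (Tn (X f) - T (X f)) ^ 2 ≤ (Ta * ((ρ * |X f|) ^ (n + 1) / ((n + 1).factorial : ℝ))) ^ 2 := by
            have e1 : (Tn (X f) - T (X f)) ^ 2 = |T (X f) - Tn (X f)| ^ 2 := by rw [sq_abs]; ring
            rw [e1]
            exact pow_le_pow_left₀ (abs_nonneg _) (hw (X f)) 2
          calc om f * (Tn (X f) - T (X f)) ^ 2 ≤ om f * (Ta * ((ρ * |X f|) ^ (n + 1) / ((n + 1).factorial : ℝ))) ^ 2 :=
                mul_le_mul_of_nonneg_left h9 (hwB f hf)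
            _ = _ := by ring
      _ = Ta ^ 2 * ∑ f ∈ B, om f * ((ρ * |X f|) ^ (n + 1) / ((n + 1).factorial : ℝ)) ^ 2 := by rw [Finset.mul_sum]
      _ ≤ _ := mul_le_mul_of_nonneg_left h8 (sq_nonneg _)
  have b1 : |∑ f ∈ E, om f * (W f * (Tn (X f) - T (X f)))| ≤ c * γ / 256 * e2 := by
    have h8 := csw E (fun f => om f) W (fun f => Tn (X f) - T (X f)) hw0 (hsecond E (Finset.Subset.refl _)) hrem
    apply abs_le_of_sq_le_sq _ (by positivity)
    refine h8.trans (le_of_eq ?_)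
    rw [mul_pow, ← hτK]
    ring
  -- outside
  have hout : ∑ f ∈ E with ¬ (a + 3 * η < X f ∧ X f < b - 3 * η), om f * T (X f) ^ 2 ≤ τ := by
    have h8 := h3 hN B hBs M hM0
    have h9 : ∑ f ∈ E with M < |X f|, om f ≤ 4 / M ^ 2 :=
      (Finset.sum_le_sum_of_subset_of_nonneg (Finset.filter_subset_filter _ hEB) fun f _ _ => om_nonneg f).trans h8
    have h10 : ∑ f ∈ E with ¬ (a + 3 * η < X f ∧ X f < b - 3 * η), om f * T (X f) ^ 2 ≤
        ∑ f ∈ E, om f * ε + ∑ f ∈ E with M < |X f|, 16 * om f := by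
      rw [Finset.sum_filter, Finset.sum_filter, ← Finset.sum_add_distrib]
      refine Finset.sum_le_sum fun f hf => ?_
      have hf0 := hw0 f hf
      have hT16 : T (X f) ^ 2 ≤ 16 := by
        calc T (X f) ^ 2 ≤ 4 ^ 2 := pow_le_pow_left₀ (hT0 _) (hT4 _) 2
          _ = 16 := by norm_num
      have hε3 : 0 ≤ om f * ε := mul_nonneg hf0 hε0.le
      by_cases hin : a + 3 * η < X f ∧ X f < b - 3 * η
      · rw [if_neg (not_not.2 hin)]
        split_ifs <;> linarith
      · rw [if_pos hin]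
        by_cases hXM : M < |X f|
        · rw [if_pos hXM]
          have := mul_le_mul_of_nonneg_left hT16 hf0
          linarith
        · rw [if_neg hXM, add_zero]
          refine mul_le_mul_of_nonneg_left ?_ hf0
          refine hTout _ (not_lt.1 hXM) ?_
          rw [not_and_or, not_lt, not_lt] at hin
          exact hin
    rw [← Finset.sum_mul, ← Finset.mul_sum] at h10
    have h11 : (∑ f ∈ E, om f) * ε ≤ 2 * ε := mul_le_mul_of_nonneg_right hmass hε0.le
    have h12 : 16 * ∑ f ∈ E with M < |X f|, om f ≤ 64 / M ^ 2 := by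
      have : 64 / M ^ 2 = 16 * (4 / M ^ 2) := by ring
      rw [this]
      exact mul_le_mul_of_nonneg_left h9 (by norm_num)
    linarith
  have b2 : |∑ f ∈ E with ¬ (a + 3 * η < X f ∧ X f < b - 3 * η), om f * (W f * T (X f))| ≤ c * γ / 256 * e2 := by
    have h8 := csw (E.filter fun f => ¬ (a + 3 * η < X f ∧ X f < b - 3 * η)) (fun f => om f) W (fun f => T (X f))
      (fun f _ => om_nonneg f) (hsecond _ (Finset.filter_subset _ _)) hout
    apply abs_le_of_sq_le_sq _ (by positivity)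
    refine h8.trans (le_of_eq ?_)
    rw [mul_pow, ← hτK]
    ring
  -- the main part
  set a0 : ℝ := c * γ / 2048 with ha0
  have ha00 : 0 < a0 := by positivity
  set Gs := E.filter fun f => (a + 3 * η < X f ∧ X f < b - 3 * η) ∧ a0 * e2 < W f with hGs
  have hGE : Gs ⊆ E := Finset.filter_subset _ _
  have hmain : ∑ f ∈ E, om f * (W f * T (X f)) ≤ ∑ f ∈ Gs, om f * (W f * T (X f)) +
      ∑ f ∈ E with ¬ (a + 3 * η < X f ∧ X f < b - 3 * η), om f * (W f * T (X f)) + 8 * a0 * e2 := by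
    have h8 : ∑ f ∈ E, om f * (W f * T (X f)) ≤ ∑ f ∈ Gs, om f * (W f * T (X f)) +
      ∑ f ∈ E with ¬ (a + 3 * η < X f ∧ X f < b - 3 * η), om f * (W f * T (X f)) +
        ∑ f ∈ E, om f * (4 * (a0 * e2)) := by
      rw [hGs, Finset.sum_filter, Finset.sum_filter, ← Finset.sum_add_distrib, ← Finset.sum_add_distrib]
      refine Finset.sum_le_sum fun f hf => ?_
      have hf0 := hw0 f hf
      have hpos : 0 ≤ om f * (4 * (a0 * e2)) := by positivity
      by_cases hin : a + 3 * η < X f ∧ X f < b - 3 * η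
      · by_cases hWf : a0 * e2 < W f
        · rw [if_pos ⟨hin, hWf⟩, if_neg (not_not.2 hin)]
          linarith
        · rw [if_neg (fun h => hWf h.2), if_neg (not_not.2 hin), zero_add, zero_add]
          refine mul_le_mul_of_nonneg_left ?_ hf0
          push Not at hWf
          have h9 := hT0 (X f)
          have h10 := hT4 (X f)
          have h11 : 0 < a0 * e2 := by positivity
          calc W f * T (X f) ≤ (a0 * e2) * T (X f) := mul_le_mul_of_nonneg_right hWf h9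
            _ ≤ (a0 * e2) * 4 := mul_le_mul_of_nonneg_left h10 h11.le
            _ = _ := by ring
      · rw [if_neg (fun h => hin h.1), if_pos hin, zero_add]
        linarith
    rw [← Finset.sum_mul] at h8
    have h9 : (∑ f ∈ E, om f) * (4 * (a0 * e2)) ≤ 2 * (4 * (a0 * e2)) :=
      mul_le_mul_of_nonneg_right hmass (by positivity)
    linarith
  have hsplit : ∑ f ∈ E, om f * (W f * Tn (X f)) = ∑ f ∈ E, om f * (W f * T (X f)) +
      ∑ f ∈ E, om f * (W f * (Tn (X f) - T (X f))) := by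
    rw [← Finset.sum_add_distrib]
    exact Finset.sum_congr rfl fun f _ => by ring
  have hlow : 5 / 256 * (c * γ) * e2 ≤ ∑ f ∈ Gs, om f * (W f * T (X f)) := by
    have h8 := (abs_le.1 b1).2
    have h9 := (abs_le.1 b2).2
    have h10 : 8 * a0 * e2 = c * γ / 256 * e2 := by rw [ha0]; ring
    linarith
  have hG16 : ∑ f ∈ Gs, om f * T (X f) ^ 2 ≤ 16 * ∑ f ∈ Gs, om f := by
    rw [Finset.mul_sum]
    refine Finset.sum_le_sum fun f hf => ?_
    have hf0 := om_nonneg f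
    have hT16 : T (X f) ^ 2 ≤ 16 := by
      calc T (X f) ^ 2 ≤ 4 ^ 2 := pow_le_pow_left₀ (hT0 _) (hT4 _) 2
        _ = 16 := by norm_num
    nlinarith
  have hcs := csw Gs (fun f => om f) W (fun f => T (X f)) (fun f _ => om_nonneg f) (hsecond Gs hGE) hG16
  have hsqlow : (5 / 256 * (c * γ) * e2) ^ 2 ≤ 2 * K * e2 ^ 2 * (16 * ∑ f ∈ Gs, om f) :=
    (pow_le_pow_left₀ (by positivity) hlow 2).trans hcs
  have hfin : 25 / 65536 * (c * γ) ^ 2 ≤ 32 * K * ∑ f ∈ Gs, om f := by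
    have h8 : (25 / 65536 * (c * γ) ^ 2) * e2 ^ 2 ≤ (32 * K * ∑ f ∈ Gs, om f) * e2 ^ 2 := by
      calc (25 / 65536 * (c * γ) ^ 2) * e2 ^ 2 = (5 / 256 * (c * γ) * e2) ^ 2 := by ring
        _ ≤ _ := hsqlow
        _ = _ := by ring
    exact le_of_mul_le_mul_right h8 (by positivity)
  calc c ^ 2 / (2 ^ 17 * K) * γ ^ 2 = (c * γ) ^ 2 / (131072 * K) := by
        field_simp
        norm_num
    _ ≤ (25 / 65536 * (c * γ) ^ 2) / (32 * K) := by
        rw [div_le_div_iff₀ (by positivity) (by positivity)]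
        have : 0 ≤ (c * γ) ^ 2 * K := by positivity
        nlinarith
    _ ≤ ∑ f ∈ Gs, om f := by
        rw [div_le_iff₀ (by positivity)]
        linarith

end Pool.Agent.H485.CC
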