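import Pool.Agent.H485.CC.Glob
import Pool.Agent.H485.CC.Cub

/-!
# The Euler product in the model
-/

set_option autoImplicit false
set_option maxHeartbeats 4000000

open MeasureTheory Real Finset

namespace Pool.Agent.H485.CC

lemma geo_sum : Summable fun a : ℕ => ((a : ℝ) + 1) * (3 / 4 : ℝ) ^ a := by
  have h1 := summable_pow_mul_geometric_of_norm_lt_one (R := ℝ) 1 (r := 3 / 4) (by
    rw [Real.norm_eq_abs, abs_of_pos (by norm_num)]; norm_num)
  have h2 := summable_geometric_of_lt_one (r := (3 / 4 : ℝ)) (by norm_num) (by norm_num)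
  refine (h1.add h2).congr fun a => ?_
  rw [pow_one]
  ring

lemma uu_pow_bound (θ : ℝ) {z : ℂ} (hz : ‖z‖ ≤ 3 / 4) (a : ℕ) :
    ‖(uu a θ : ℂ) * z ^ a‖ ≤ ((a : ℝ) + 1) * (3 / 4 : ℝ) ^ a := by
  rw [norm_mul, norm_pow, Complex.norm_real, Real.norm_eq_abs]
  exact mul_le_mul (abs_uu_le a θ) (pow_le_pow_left₀ (norm_nonneg _) hz a) (by positivity)
    (by positivity)

lemma lf_hasSum {t : ℝ} (ht0 : 0 ≤ t) (ht : t ≤ 3 / 4) {w : ℂ} (hw : ‖w‖ ≤ 1) (θ : ℝ) :
    HasSum (fun a : ℕ => (uu a θ : ℂ) * (t * w) ^ a) (lf t w θ) := by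
  set z : ℂ := t * w with hz'
  have hz : ‖z‖ ≤ 3 / 4 := by
    rw [hz', norm_mul, Complex.norm_real, Real.norm_eq_abs, abs_of_nonneg ht0]
    calc t * ‖w‖ ≤ t * 1 := mul_le_mul_of_nonneg_left hw ht0
      _ ≤ _ := by linarith
  have hsum : Summable (fun a : ℕ => (uu a θ : ℂ) * z ^ a) :=
    Summable.of_norm_bounded geo_sum (uu_pow_bound θ hz)
  have hs1 : Summable (fun a : ℕ => (uu (a + 1) θ : ℂ) * z ^ (a + 1)) :=
    (summable_nat_add_iff 1).2 hsum
  have e0 := hsum.tsum_eq_zero_add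
  have e1 := hs1.tsum_eq_zero_add
  have e2 : ∑' a : ℕ, (uu (a + 1 + 1) θ : ℂ) * z ^ (a + 1 + 1) =
      (uu 1 θ : ℂ) * z * (∑' a : ℕ, (uu (a + 1) θ : ℂ) * z ^ (a + 1)) -
        z ^ 2 * ∑' a : ℕ, (uu a θ : ℂ) * z ^ a := by
    rw [← tsum_mul_left, ← tsum_mul_left, ← Summable.tsum_sub (hs1.mul_left _) (hsum.mul_left _)]
    refine tsum_congr fun a => ?_
    have := one_mul_uu a θ
    have h3 : (uu (a + 1 + 1) θ : ℂ) = (uu 1 θ : ℂ) * (uu (a + 1) θ : ℂ) - (uu a θ : ℂ) := by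
      rw [← Complex.ofReal_mul, this]
      push_cast
      ring
    rw [h3]
    ring
  rw [e2] at e1
  rw [uu_zero] at e0
  simp only [zero_add, Complex.ofReal_one, pow_zero, one_mul, pow_one] at e0 e1
  have e3 : ∑' a : ℕ, (uu a θ : ℂ) * z ^ a = lf t w θ := by
    unfold lf
    rw [← hz']
    apply eq_inv_of_mul_eq_one_right
    linear_combination e1 + (1 - (uu 1 θ : ℂ) * z) * e0
  rw [← e3]
  exact hsum.hasSum

variable {S : Finset ℕ}

/-- the terms of the random series -/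
noncomputable def ft (S : Finset ℕ) (s : ℂ) (x : S → ℝ) (n : ℕ) : ℂ :=
  (XX S x n : ℂ) * (tp n : ℂ) * (n : ℂ) ^ (-s)

lemma tp_mul (m n : ℕ) : tp (m * n) = tp m * tp n := by
  unfold tp
  rw [Nat.cast_mul, Real.sqrt_mul (Nat.cast_nonneg m), mul_inv]

lemma XX_mul (x : S → ℝ) {m n : ℕ} (h : Nat.Coprime m n) :
    XX S x (m * n) = XX S x m * XX S x n := by
  unfold XX
  rw [← Finset.prod_mul_distrib]
  refine Finset.prod_congr rfl fun p _ => ?_
  rw [Nat.factorization_mul_of_coprime h, Finsupp.add_apply]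
  by_cases hp : (p : ℕ) ∈ m.primeFactors
  · have h1 : n.factorization p = 0 := by
      have hd := Nat.Coprime.disjoint_primeFactors h
      have := Finset.disjoint_left.1 hd hp
      rwa [← Finsupp.notMem_support_iff, Nat.support_factorization]
    rw [h1, add_zero, uu_zero, mul_one]
  · have h1 : m.factorization p = 0 := by
      rwa [← Finsupp.notMem_support_iff, Nat.support_factorization]
    rw [h1, zero_add, uu_zero, one_mul]

lemma XX_ppow_mem (hS : ∀ p ∈ S, p.Prime) (x : S → ℝ) {p : ℕ} (hp : p ∈ S) (a : ℕ) :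
    XX S x (p ^ a) = uu a (x ⟨p, hp⟩) := by
  unfold XX
  rw [Fintype.prod_eq_single (⟨p, hp⟩ : S)]
  · rw [(hS p hp).factorization_pow]; simp
  · intro q hq
    rw [(hS p hp).factorization_pow]
    have : (q : ℕ) ≠ p := fun h => hq (Subtype.ext h)
    rw [Finsupp.single_apply, if_neg (Ne.symm this), uu_zero]

lemma XX_ppow_notMem (x : S → ℝ) {p : ℕ} (hpp : p.Prime) (hp : p ∉ S) (a : ℕ) :
    XX S x (p ^ a) = 1 := by
  unfold XX
  apply Finset.prod_eq_one
  intro q _
  rw [hpp.factorization_pow]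
  have : (q : ℕ) ≠ p := fun h => hp (h ▸ q.2)
  rw [Finsupp.single_apply, if_neg (Ne.symm this), uu_zero]

lemma abs_XX_le' (x : S → ℝ) (hS : ∀ p ∈ S, p.Prime) {n : ℕ} (hn : 1 ≤ n) : |XX S x n| ≤ n := by
  refine (abs_XX_le x n).trans ?_
  have h1 : ∏ p ∈ S, ((n.factorization p : ℝ) + 1) =
      ∏ p ∈ S ∩ n.primeFactors, ((n.factorization p : ℝ) + 1) := by
    symm
    apply Finset.prod_subset Finset.inter_subset_left
    intro p hp hp2
    have : p ∉ n.primeFactors := fun h => hp2 (Finset.mem_inter.2 ⟨hp, h⟩)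
    rw [← Nat.support_factorization, Finsupp.notMem_support_iff] at this
    rw [this]
    simp
  rw [h1]
  have h2 : ∀ p ∈ n.primeFactors, ((n.factorization p : ℝ) + 1) ≤ (p : ℝ) ^ (n.factorization p) := by
    intro p hp
    have hpp := Nat.prime_of_mem_primeFactors hp
    have h3 : n.factorization p + 1 ≤ p ^ (n.factorization p) := by
      calc n.factorization p + 1 ≤ 2 ^ (n.factorization p) := Nat.lt_two_pow_self
        _ ≤ _ := Nat.pow_le_pow_left hpp.two_le _
    exact_mod_cast h3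
  calc ∏ p ∈ S ∩ n.primeFactors, ((n.factorization p : ℝ) + 1) ≤
      ∏ p ∈ S ∩ n.primeFactors, (p : ℝ) ^ (n.factorization p) :=
        Finset.prod_le_prod (fun p _ => by positivity) fun p hp => h2 p (Finset.mem_inter.1 hp).2
    _ ≤ ∏ p ∈ n.primeFactors, (p : ℝ) ^ (n.factorization p) := by
        refine Finset.prod_le_prod_of_subset_of_one_le Finset.inter_subset_right
          (fun p _ => by positivity) fun p hp _ => ?_
        have hpp := Nat.prime_of_mem_primeFactors hp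
        exact one_le_pow₀ (by exact_mod_cast hpp.one_le)
    _ = n := by
        have := Nat.prod_factorization_pow_eq_self (n := n) (by omega)
        rw [Finsupp.prod, Nat.support_factorization] at this
        conv_rhs => rw [← this]
        push_cast
        rfl

lemma ft_one (s : ℂ) (x : S → ℝ) : ft S s x 1 = 1 := by
  unfold ft
  rw [XX_one]
  simp [tp]

lemma ft_mul (s : ℂ) (x : S → ℝ) {m n : ℕ} (h : Nat.Coprime m n) :
    ft S s x (m * n) = ft S s x m * ft S s x n := by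
  unfold ft
  rw [XX_mul x h, tp_mul]
  rw [Nat.cast_mul, Complex.natCast_mul_natCast_cpow]
  push_cast
  ring

lemma ft_ppow (s : ℂ) (x : S → ℝ) {p : ℕ} (hp : p.Prime) (a : ℕ) :
    ft S s x (p ^ a) = (XX S x (p ^ a) : ℂ) * ((tp p : ℂ) * (p : ℂ) ^ (-s)) ^ a := by
  unfold ft
  have h1 : tp (p ^ a) = tp p ^ a := by
    unfold tp
    rw [Nat.cast_pow, Real.sqrt_eq_rpow, Real.sqrt_eq_rpow, inv_pow, ← Real.rpow_natCast,
      ← Real.rpow_natCast, ← Real.rpow_mul (Nat.cast_nonneg p), ← Real.rpow_mul (Nat.cast_nonneg p),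
      mul_comm]
  have h2 : ((p ^ a : ℕ) : ℂ) ^ (-s) = ((p : ℂ) ^ (-s)) ^ a := by
    rw [Nat.cast_pow, ← Complex.natCast_cpow_natCast_mul, Complex.cpow_nat_mul]
  rw [h1, h2]
  push_cast
  ring

/-- the expansion of the Euler product -/
theorem EE_hasSum (hS : ∀ p ∈ S, p.Prime) {s : ℂ} (hs : 0 ≤ s.re) (x : S → ℝ) :
    Summable (fun m : Nat.factoredNumbers S => ‖ft S s x m‖) ∧
      HasSum (fun m : Nat.factoredNumbers S => ft S s x m) (EE S s x) := by
  have hz : ∀ p : ℕ, p.Prime → ‖(tp p : ℂ) * (p : ℂ) ^ (-s)‖ ≤ 3 / 4 := by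
    intro p hp
    rw [norm_mul, Complex.norm_real, Real.norm_eq_abs, abs_of_nonneg (tp_nonneg p)]
    calc tp p * ‖(p : ℂ) ^ (-s)‖ ≤ tp p * 1 :=
          mul_le_mul_of_nonneg_left (norm_ps hp hs) (tp_nonneg p)
      _ ≤ _ := by rw [mul_one]; exact tp_le hp
  have hsum : ∀ {p : ℕ}, p.Prime → Summable (fun n : ℕ => ‖ft S s x (p ^ n)‖) := by
    intro p hp
    refine Summable.of_nonneg_of_le (fun n => norm_nonneg _) (fun n => ?_) geo_sum
    rw [ft_ppow s x hp]
    by_cases h : p ∈ S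
    · rw [XX_ppow_mem hS x h]
      exact uu_pow_bound _ (hz p hp) n
    · rw [XX_ppow_notMem x hp h]
      rw [norm_mul, norm_pow, Complex.norm_real, norm_one, one_mul]
      calc ‖(tp p : ℂ) * (p : ℂ) ^ (-s)‖ ^ n ≤ (3 / 4) ^ n :=
            pow_le_pow_left₀ (norm_nonneg _) (hz p hp) n
        _ ≤ ((n : ℝ) + 1) * (3 / 4) ^ n := by
            have : (0 : ℝ) ≤ n := Nat.cast_nonneg n
            have h2 : (0 : ℝ) < (3 / 4) ^ n := by positivity
            nlinarith
  obtain ⟨h1, h2⟩ := EulerProduct.summable_and_hasSum_factoredNumbers_prod_filter_prime_tsum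
    (f := ft S s x) (ft_one s x) (fun {m n} h => ft_mul s x h) hsum S
  refine ⟨h1, ?_⟩
  have e : (∏ p ∈ S with p.Prime, ∑' n : ℕ, ft S s x (p ^ n)) = EE S s x := by
    rw [Finset.filter_true_of_mem hS, EE, ← Finset.prod_coe_sort S]
    refine Finset.prod_congr rfl fun p _ => ?_
    have hp := hS p p.2
    rw [← (lf_hasSum (tp_nonneg p) (tp_le hp) (norm_ps hp hs) (x p)).tsum_eq]
    refine tsum_congr fun n => ?_
    rw [ft_ppow s x hp, XX_ppow_mem hS x p.2]
  rw [← e]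
  exact h2

end Pool.Agent.H485.CC
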