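import Pool.Agent.H485.CC.Pup2

/-!
# The number of the points of an orbit in the region above `1/√N` and its image
-/

set_option autoImplicit false
set_option maxHeartbeats 4000000

open Complex Filter Topology Set MeasureTheory UpperHalfPlane MatrixGroups CongruenceSubgroup
open scoped ENNReal Modular

namespace Pool.Agent.H485.CC

open Pool.Agent.W165.RS
open W388.LV (SF pet om ck)
open W120.LV (eqS eqS_apply pet_eq lint_ne_top)

variable {N : ℕ} [NeZero N]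

/-- the two regions do not meet the same orbit -/
lemma disj (hN : N.Prime) {c : ℝ} (hc : 1 ≤ N * c ^ 2) (hc0 : 0 < c) {z : ℍ} (hz : c < z.im)
    (γ : SL(2, ℤ)) (hγ : γ ∈ Gamma0 N) : (WN N • (γ • z) : ℍ).im ≤ c := by
  have hN0 : (0 : ℝ) < N := by exact_mod_cast hN.pos
  have ha : γ 0 0 ≠ 0 := by
    intro h0
    have hdvd : (N : ℤ) ∣ γ 1 0 := by
      have := CongruenceSubgroup.Gamma0_mem.1 hγ
      exact (ZMod.intCast_zmod_eq_zero_iff_dvd _ _).1 this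
    have had := γ.det_coe
    rw [Matrix.det_fin_two, h0] at had
    have h1 : (N : ℤ) ∣ 1 := by
      rw [← had]
      simp only [zero_mul, zero_sub]
      exact (Dvd.dvd.mul_left hdvd _).neg_right
    have h2 : N ∣ 1 := by exact_mod_cast h1
    exact hN.one_lt.ne' (Nat.dvd_one.1 h2)
  have h1 : (ModularGroup.S • (γ • z) : ℍ).im = (γ • z : ℍ).im / ‖((γ • z : ℍ) : ℂ)‖ ^ 2 := by
    rw [ModularGroup.im_smul_eq_div_normSq, ModularGroup.denom_S, Complex.normSq_eq_norm_sq]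
  have h2 : (WN N • (γ • z) : ℍ).im = (ModularGroup.S • (γ • z) : ℍ).im / N := by
    rw [WN_im, h1]
    have : ‖((γ • z : ℍ) : ℂ)‖ ≠ 0 := norm_ne_zero_iff.2 (γ • z).ne_zero
    field_simp
  have h3 : (ModularGroup.S • (γ • z) : ℍ).im =
      z.im / (((γ 0 0 : ℝ) * z.re + (γ 0 1 : ℝ)) ^ 2 + ((γ 0 0 : ℝ) * z.im) ^ 2) := by
    rw [← mul_smul, ModularGroup.im_smul_eq_div_normSq]
    congr 1
    have e1 : (ModularGroup.S * γ : SL(2, ℤ)) 1 0 = γ 0 0 := by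
      rw [Matrix.SpecialLinearGroup.coe_mul, ModularGroup.coe_S]
      simp [Matrix.mul_apply, Fin.sum_univ_two]
    have e2 : (ModularGroup.S * γ : SL(2, ℤ)) 1 1 = γ 0 1 := by
      rw [Matrix.SpecialLinearGroup.coe_mul, ModularGroup.coe_S]
      simp [Matrix.mul_apply, Fin.sum_univ_two]
    rw [ModularGroup.denom_apply, e1, e2, Complex.normSq_apply]
    simp only [add_re, mul_re, intCast_re, coe_re, intCast_im, coe_im, zero_mul, sub_zero,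
      add_im, mul_im, add_zero]
    ring
  rw [h2, h3]
  have hy : 0 < z.im := z.im_pos
  have ha1 : 1 ≤ (γ 0 0 : ℝ) ^ 2 := by
    have : (1 : ℤ) ≤ (γ 0 0) ^ 2 := by
      have := sq_nonneg (γ 0 0)
      have h4 : (γ 0 0) ^ 2 ≠ 0 := pow_ne_zero 2 ha
      omega
    exact_mod_cast this
  have h4 : z.im ^ 2 ≤ ((γ 0 0 : ℝ) * z.re + (γ 0 1 : ℝ)) ^ 2 + ((γ 0 0 : ℝ) * z.im) ^ 2 := by
    rw [mul_pow]
    nlinarith [sq_nonneg ((γ 0 0 : ℝ) * z.re + (γ 0 1 : ℝ)), sq_nonneg z.im]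
  have h5 : z.im / (((γ 0 0 : ℝ) * z.re + (γ 0 1 : ℝ)) ^ 2 + ((γ 0 0 : ℝ) * z.im) ^ 2) ≤ 1 / z.im := by
    calc z.im / (((γ 0 0 : ℝ) * z.re + (γ 0 1 : ℝ)) ^ 2 + ((γ 0 0 : ℝ) * z.im) ^ 2) ≤ z.im / z.im ^ 2 :=
          div_le_div_of_nonneg_left hy.le (by positivity) h4
      _ = _ := by field_simp
  calc z.im / (((γ 0 0 : ℝ) * z.re + (γ 0 1 : ℝ)) ^ 2 + ((γ 0 0 : ℝ) * z.im) ^ 2) / N ≤ (1 / c) / N := by
        apply div_le_div_of_nonneg_right _ hN0.le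
        exact h5.trans (one_div_le_one_div_of_le hc0 hz.le)
    _ ≤ c := by
        rw [div_div, div_le_iff₀ (by positivity)]
        nlinarith

/-- conjugation by the involution -/
def cj (g : Gamma0 N) : Gamma0 N :=
  ⟨⟨!![(g : SL(2, ℤ)) 1 1, -((g : SL(2, ℤ)) 1 0 / N); -(N * (g : SL(2, ℤ)) 0 1), (g : SL(2, ℤ)) 0 0], by
    have hdvd : (N : ℤ) ∣ (g : SL(2, ℤ)) 1 0 := by
      have := CongruenceSubgroup.Gamma0_mem.1 g.2
      exact (ZMod.intCast_zmod_eq_zero_iff_dvd _ _).1 this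
    have had := (g : SL(2, ℤ)).det_coe
    rw [Matrix.det_fin_two] at had
    rw [Matrix.det_fin_two]
    simp only [Matrix.of_apply, Matrix.cons_val', Matrix.cons_val_zero, Matrix.cons_val_one,
      Matrix.cons_val_fin_one]
    have h1 := Int.ediv_mul_cancel hdvd
    linear_combination had - (g : SL(2, ℤ)) 0 1 * h1⟩, CongruenceSubgroup.Gamma0_mem.2 (by
      show (((-(N * (g : SL(2, ℤ)) 0 1) : ℤ)) : ZMod N) = 0
      push_cast
      simp)⟩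

omit [NeZero N] in
lemma cj_00 (g : Gamma0 N) : (cj g : SL(2, ℤ)) 0 0 = (g : SL(2, ℤ)) 1 1 := rfl
omit [NeZero N] in
lemma cj_01 (g : Gamma0 N) : (cj g : SL(2, ℤ)) 0 1 = -((g : SL(2, ℤ)) 1 0 / N) := rfl
omit [NeZero N] in
lemma cj_10 (g : Gamma0 N) : (cj g : SL(2, ℤ)) 1 0 = -(N * (g : SL(2, ℤ)) 0 1) := rfl
omit [NeZero N] in
lemma cj_11 (g : Gamma0 N) : (cj g : SL(2, ℤ)) 1 1 = (g : SL(2, ℤ)) 0 0 := rfl

lemma cj_alg (M z a b C d : ℂ) (hM : M ≠ 0) (hz : z ≠ 0) (h1 : a * z + b ≠ 0)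
    (h2 : M * C * z + d ≠ 0) : -1 / (M * ((a * z + b) / (M * C * z + d))) =
      (d * (-1 / (M * z)) + -C) / (-(M * b) * (-1 / (M * z)) + a) := by
  have e1 : (-(M * b) * (-1 / (M * z)) + a) = (a * z + b) / z := by
    field_simp
    ring
  have e2 : (d * (-1 / (M * z)) + -C) = -(M * C * z + d) / (M * z) := by
    field_simp
    ring
  rw [e1, e2]
  field_simp

lemma cj_smul (g : Gamma0 N) (z : ℍ) : (WN N • ((g : SL(2, ℤ)) • z) : ℍ) = (cj g : SL(2, ℤ)) • (WN N • z) := by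
  apply UpperHalfPlane.ext
  have hN0 : (N : ℂ) ≠ 0 := by exact_mod_cast NeZero.ne N
  have hdvd : (N : ℤ) ∣ (g : SL(2, ℤ)) 1 0 := by
    have := CongruenceSubgroup.Gamma0_mem.1 g.2
    exact (ZMod.intCast_zmod_eq_zero_iff_dvd _ _).1 this
  obtain ⟨C', hC'⟩ := hdvd
  have hz : (z : ℂ) ≠ 0 := z.ne_zero
  have e1 : ((g : SL(2, ℤ)) 1 0 / N : ℤ) = C' := by
    rw [hC', Int.mul_ediv_cancel_left]
    exact_mod_cast NeZero.ne N
  rw [WN_smul, UpperHalfPlane.coe_specialLinearGroup_apply, UpperHalfPlane.coe_specialLinearGroup_apply]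
  simp only [algebraMap_int_eq, eq_intCast]
  rw [cj_00, cj_01, cj_10, cj_11, WN_smul, e1, hC']
  push_cast
  have hnum : (((g : SL(2, ℤ)) 0 0 : ℤ) : ℂ) * z + (((g : SL(2, ℤ)) 0 1 : ℤ) : ℂ) ≠ 0 := by
    intro h0
    have h1 := ((g : SL(2, ℤ)) • z : ℍ).ne_zero
    rw [UpperHalfPlane.coe_specialLinearGroup_apply] at h1
    simp only [algebraMap_int_eq, eq_intCast] at h1
    apply h1
    push_cast
    rw [h0, zero_div]
  have hden : (N : ℂ) * C' * z + (((g : SL(2, ℤ)) 1 1 : ℤ) : ℂ) ≠ 0 := by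
    have h1 := denom_ne_zero (g : SL(2, ℤ)) z
    rw [ModularGroup.denom_apply, hC'] at h1
    push_cast at h1
    exact h1
  exact cj_alg _ _ _ _ _ _ hN0 hz hnum hden

lemma cj_inj : Function.Injective (cj : Gamma0 N → Gamma0 N) := by
  intro g h hgh
  have hd : ∀ k : Gamma0 N, (N : ℤ) ∣ (k : SL(2, ℤ)) 1 0 := fun k =>
    (ZMod.intCast_zmod_eq_zero_iff_dvd _ _).1 (CongruenceSubgroup.Gamma0_mem.1 k.2)
  have hN0 : (N : ℤ) ≠ 0 := by exact_mod_cast NeZero.ne N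
  have e00 : (cj g : SL(2, ℤ)) 0 0 = (cj h : SL(2, ℤ)) 0 0 := by rw [hgh]
  have e01 : (cj g : SL(2, ℤ)) 0 1 = (cj h : SL(2, ℤ)) 0 1 := by rw [hgh]
  have e10 : (cj g : SL(2, ℤ)) 1 0 = (cj h : SL(2, ℤ)) 1 0 := by rw [hgh]
  have e11 : (cj g : SL(2, ℤ)) 1 1 = (cj h : SL(2, ℤ)) 1 1 := by rw [hgh]
  rw [cj_00, cj_00] at e00
  rw [cj_01, cj_01] at e01
  rw [cj_10, cj_10] at e10
  rw [cj_11, cj_11] at e11
  have f01 : (g : SL(2, ℤ)) 0 1 = (h : SL(2, ℤ)) 0 1 := mul_left_cancel₀ hN0 (neg_inj.1 e10)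
  have f10 : (g : SL(2, ℤ)) 1 0 = (h : SL(2, ℤ)) 1 0 := by
    have h1 := Int.ediv_mul_cancel (hd g)
    have h2 := Int.ediv_mul_cancel (hd h)
    rw [← h1, ← h2, neg_inj.1 e01]
  apply Subtype.ext
  apply Matrix.SpecialLinearGroup.ext
  intro i j
  fin_cases i <;> fin_cases j
  · exact e11
  · exact f01
  · exact f10
  · exact e00

omit [NeZero N] in
lemma UU_sub_EE (hN : N.Prime) {c : ℝ} (hc : 1 ≤ N * c ^ 2) (hc0 : 0 < c) : UU c ⊆ W120.LV.EE N := by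
  intro z hz
  refine ⟨hz.1, ?_⟩
  have hN0 : (0 : ℝ) < N := by exact_mod_cast hN.pos
  have hN1 : (1 : ℝ) ≤ N := by exact_mod_cast hN.one_le
  have h1 : 1 / (N : ℝ) ≤ c := by
    rw [div_le_iff₀ hN0]
    by_contra hcon
    push Not at hcon
    have h2 : (c * N) * (c * N) < 1 * 1 := by
      apply mul_lt_mul'' hcon hcon <;> positivity
    nlinarith
  exact lt_of_le_of_lt h1 hz.2

lemma cnt_one (hN : N.Prime) {c : ℝ} (hc : 1 ≤ N * c ^ 2) (hc0 : 0 < c) (w : ℍ) :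
    ∑' δ : Gamma0 N, (UU c).indicator (fun _ => (1 : ℝ≥0∞)) ((δ : SL(2, ℤ))⁻¹ • w) ≤ 2 := by
  refine le_trans (ENNReal.tsum_le_tsum fun δ => ?_) (W120.LV.count_EE N hN.pos w)
  exact Set.indicator_le_indicator_of_subset (UU_sub_EE hN hc hc0) (fun _ => zero_le) _

lemma cnt_two (hN : N.Prime) {c : ℝ} (hc : 1 ≤ N * c ^ 2) (hc0 : 0 < c) (w : ℍ) :
    ∑' δ : Gamma0 N, ((fun z : ℍ => WN N • z) ⁻¹' UU c).indicator (fun _ => (1 : ℝ≥0∞))
      ((δ : SL(2, ℤ))⁻¹ • w) ≤ 2 := by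
  have h1 : ∀ δ : Gamma0 N, ((fun z : ℍ => WN N • z) ⁻¹' UU c).indicator (fun _ => (1 : ℝ≥0∞))
      ((δ : SL(2, ℤ))⁻¹ • w) = (UU c).indicator (fun _ => (1 : ℝ≥0∞))
        (((cj δ⁻¹ : Gamma0 N) : SL(2, ℤ)) • (WN N • w)) := by
    intro δ
    have h2 := cj_smul δ⁻¹ w
    rw [show ((δ⁻¹ : Gamma0 N) : SL(2, ℤ)) = (δ : SL(2, ℤ))⁻¹ from rfl] at h2
    rw [← h2]
    rfl
  rw [tsum_congr h1]
  refine le_trans ?_ (cnt_one hN hc hc0 (WN N • w))
  have h3 : Function.Injective (fun δ : Gamma0 N => (cj δ⁻¹)⁻¹) := by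
    intro a b hab
    simp only [inv_inj] at hab
    exact inv_injective (cj_inj hab)
  have h4 := ENNReal.tsum_comp_le_tsum_of_injective h3 (fun δ : Gamma0 N =>
    (UU c).indicator (fun _ => (1 : ℝ≥0∞)) ((δ : SL(2, ℤ))⁻¹ • (WN N • w)))
  refine le_trans (le_of_eq ?_) h4
  refine tsum_congr fun δ => ?_
  simp

theorem cnt_le (hN : N.Prime) {c : ℝ} (hc : 1 ≤ N * c ^ 2) (hc0 : 0 < c) (w : ℍ) : cnt N c w ≤ 2 := by
  unfold cnt
  rw [ENNReal.tsum_add]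
  by_cases h : ∃ δ : Gamma0 N, ((δ : SL(2, ℤ))⁻¹ • w) ∈ UU c
  · obtain ⟨δ1, h1⟩ := h
    have h2 : ∑' δ : Gamma0 N, ((fun z : ℍ => WN N • z) ⁻¹' UU c).indicator (fun _ => (1 : ℝ≥0∞))
      ((δ : SL(2, ℤ))⁻¹ • w) = 0 := by
      rw [ENNReal.tsum_eq_zero]
      intro δ
      apply Set.indicator_of_notMem
      intro h3
      have h4 := disj hN hc hc0 h1.2 ((δ : SL(2, ℤ))⁻¹ * δ1)
        (Subgroup.mul_mem _ (Subgroup.inv_mem _ δ.2) δ1.2)
      rw [mul_smul, smul_inv_smul] at h4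
      have h5 : c < (WN N • ((δ : SL(2, ℤ))⁻¹ • w) : ℍ).im := h3.2
      linarith
    rw [h2, add_zero]
    exact cnt_one hN hc hc0 w
  · push Not at h
    rw [ENNReal.tsum_eq_zero.2 fun δ => Set.indicator_of_notMem (h δ) _, zero_add]
    exact cnt_two hN hc hc0 w

end Pool.Agent.H485.CC
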