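import Pool.Agent.H485.CC.Asm

/-!
# The harmonic moments
-/

set_option autoImplicit false
set_option maxHeartbeats 4000000

open MeasureTheory Real Finset Filter

namespace Pool.Agent.H485.CC

lemma mem_Sb {N n p : ℕ} (hn : n ≤ Yb N) (hn1 : 1 ≤ n) (hp : p ∈ n.primeFactors) : p ∈ Sb N := by
  have h1 := Nat.prime_of_mem_primeFactors hp
  have h2 := Nat.le_of_dvd hn1 (Nat.dvd_of_mem_primeFactors hp)
  exact mem_pr.2 ⟨h2.trans hn, h1⟩

lemma tp_le_one {n : ℕ} (hn : 1 ≤ n) : tp n ≤ 1 := by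
  unfold tp
  apply inv_le_one_of_one_le₀
  rw [Real.one_le_sqrt]
  exact_mod_cast hn

/-- the coefficients of the random sum -/
noncomputable def ax (N : ℕ) (x : Sb N → ℝ) (n : ℕ) : ℝ :=
  (Nat.factoredNumbers (Sb N)).indicator (fun n => XX (Sb N) x n * tp n) n

lemma abs_ax {N : ℕ} (x : Sb N → ℝ) (n : ℕ) : |ax N x n| ≤ n := by
  unfold ax
  by_cases h : n ∈ Nat.factoredNumbers (Sb N)
  · rw [Set.indicator_of_mem h]
    have hn : 1 ≤ n := Nat.one_le_iff_ne_zero.2 (Nat.ne_zero_of_mem_factoredNumbers h)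
    rw [abs_mul, abs_of_nonneg (tp_nonneg n)]
    calc |XX (Sb N) x n| * tp n ≤ n * 1 :=
          mul_le_mul (abs_XX_le' x Sb_prime hn) (tp_le_one hn) (tp_nonneg n) (Nat.cast_nonneg n)
      _ = _ := mul_one _
  · rw [Set.indicator_of_notMem h, abs_zero]
    exact Nat.cast_nonneg n

/-- the random sum with the parameters -/
noncomputable def SN (N : ℕ) (x : Sb N → ℝ) : ℝ :=
  SX (Sb N) (mm N) (hh N) (2 * π / Real.sqrt N) x

lemma SN_eq (N : ℕ) (x : Sb N → ℝ) : SN N x = ∑' n : ℕ, ax N x n * VV N n := by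
  unfold SN SX
  rw [tsum_subtype (Nat.factoredNumbers (Sb N)) (fun n => XX (Sb N) x n * tp n *
    Vw (nu (mm N) (hh N)) (Zs (mm N)) (2 * π / Real.sqrt N * (n : ℕ)))]
  refine tsum_congr fun n => ?_
  unfold ax VV
  by_cases h : n ∈ Nat.factoredNumbers (Sb N)
  · rw [Set.indicator_of_mem h, Set.indicator_of_mem h]
  · rw [Set.indicator_of_notMem h, Set.indicator_of_notMem h, zero_mul]

lemma SY_eq (N : ℕ) (x : Sb N → ℝ) :
    SYf N (XX (Sb N) x) = ∑ n ∈ Finset.Icc 1 (Yb N), ax N x n * VV N n := by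
  unfold SYf ax
  refine Finset.sum_congr rfl fun n hn => ?_
  rw [Finset.mem_Icc] at hn
  have h : n ∈ Nat.factoredNumbers (Sb N) := by
    apply Nat.mem_factoredNumbers_of_primeFactors_subset (by omega)
    intro p hp
    exact mem_Sb hn.2 hn.1 hp
  rw [Set.indicator_of_mem h]
  ring

lemma SN_cont {N : ℕ} (h : 1 ≤ log (N : ℝ)) : Continuous (SN N) ∧ ∃ C : ℝ, ∀ x, |SN N x| ≤ C := by
  have hN0 := pos_of_log h
  have hα : 0 < 2 * π * (N : ℝ) ^ (-(5 / 8) : ℝ) := by positivity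
  have hb : ∀ (n : ℕ) (x : Sb N → ℝ), ‖ax N x n * VV N n‖ ≤
      (n : ℝ) * exp (-(2 * π * (N : ℝ) ^ (-(5 / 8) : ℝ) * n)) := by
    intro n x
    rw [Real.norm_eq_abs, abs_mul, abs_of_nonneg (VV_nonneg N n)]
    exact mul_le_mul (abs_ax x n) (VV_le h n) (VV_nonneg N n) (Nat.cast_nonneg n)
  have hc : ∀ n : ℕ, Continuous fun x : Sb N → ℝ => ax N x n * VV N n := by
    intro n
    refine Continuous.mul ?_ continuous_const
    unfold ax
    by_cases h : n ∈ Nat.factoredNumbers (Sb N)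
    · simp only [Set.indicator_of_mem h]
      exact (continuous_XX n).mul continuous_const
    · simp only [Set.indicator_of_notMem h]
      exact continuous_const
  have e : SN N = fun x => ∑' n : ℕ, ax N x n * VV N n := by
    ext x
    exact SN_eq N x
  rw [e]
  refine ⟨continuous_tsum hc (sum_exp hα) hb,
    ∑' n : ℕ, (n : ℝ) * exp (-(2 * π * (N : ℝ) ^ (-(5 / 8) : ℝ) * n)), fun x => ?_⟩
  rw [← Real.norm_eq_abs]
  exact tsum_of_norm_bounded (sum_exp hα).hasSum (fun n => hb n x)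

lemma obs_SY (N : ℕ) : Obs (Sb N) (Yb N) (SYf N) := by
  unfold SYf
  refine Obs.sum (Finset.Icc 1 (Yb N)) (fun n lam => (tp n * VV N n) * lam n) fun n hn => ?_
  rw [Finset.mem_Icc] at hn
  refine Obs.single ⟨hn.1, fun p hp => mem_Sb hn.2 hn.1 hp⟩ (by exact_mod_cast hn.2) _

lemma hA {N : ℕ} (hsub : Ss N ⊆ Sb N) (b : ℝ) : ∀ (D : ℝ) (F : (ℕ → ℝ) → ℝ), 0 ≤ D →
    Obs (Sb N) D F → Obs (Sb N) (zr N * D) fun lam => (b * PP (Ss N) lam) * F lam := by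
  intro D F hD hF
  have := hF.mul_lin Sb_prime hsub Ss_le hD (fun p => b * tp p)
  refine this.congr fun lam _ => ?_
  unfold PP
  rw [Finset.mul_sum]
  congr 1
  exact Finset.sum_congr rfl fun p _ => by ring

lemma obs_T {N : ℕ} (hsub : Ss N ⊆ Sb N) (hz : 1 ≤ zr N) (b : ℝ) {D : ℝ} (hD : 0 ≤ D)
    {F : (ℕ → ℝ) → ℝ} (hF : Obs (Sb N) D F) (J : ℕ) :
    Obs (Sb N) (zr N ^ J * D) fun lam => tj J (b * PP (Ss N) lam) * F lam := by
  have := hF.mul_poly hz (hA hsub b) hD J (fun j => 1 / (j.factorial : ℝ))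
  exact this

lemma obs_P {N : ℕ} (hsub : Ss N ⊆ Sb N) (hz : 1 ≤ zr N) (j : ℕ) :
    Obs (Sb N) (zr N ^ j * 1) fun lam => PP (Ss N) lam ^ j := by
  have h1 : Obs (Sb N) 1 fun _ => 1 := Obs.const le_rfl 1
  have := Obs.mul_pow (A := fun lam => 1 * PP (Ss N) lam) hz (hA hsub 1) zero_le_one h1 j
  refine this.congr fun lam _ => ?_
  ring

lemma ev_len (Kc : ℝ) : ∀ᶠ N : ℕ in atTop, ∀ J : ℕ, (J : ℝ) ≤ Kc * ll N →
    zr N ^ J * Yb N ≤ (N : ℝ) ^ (1 - 1 / 8 : ℝ) ∧ zr N ^ J * 1 ≤ (N : ℝ) ^ (1 - 1 / 8 : ℝ) := by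
  filter_upwards [ev_ll (8 * |Kc| + 1), ev_log 1] with N h1 h2 J hJ
  have hN0 := pos_of_log h2
  have hll : 0 < ll N := by
    have := abs_nonneg Kc
    linarith
  have h3 : zr N ^ J ≤ (N : ℝ) ^ (1 / 8 : ℝ) := by
    unfold zr
    rw [← Real.exp_nat_mul, Real.rpow_def_of_pos hN0]
    apply exp_le_exp.2
    have h4 : (J : ℝ) * (log N / ll N ^ 2) = log N * (J / ll N ^ 2) := by ring
    rw [h4]
    apply mul_le_mul_of_nonneg_left _ (by linarith)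
    rw [div_le_iff₀ (by positivity)]
    have h5 : (J : ℝ) ≤ |Kc| * ll N := hJ.trans (mul_le_mul_of_nonneg_right (le_abs_self _) hll.le)
    nlinarith [mul_le_mul_of_nonneg_right (show 8 * |Kc| ≤ ll N by linarith) hll.le]
  have h4 : ((Yb N : ℕ) : ℝ) ≤ (N : ℝ) ^ (3 / 4 : ℝ) := Nat.floor_le (by positivity)
  have h5 : (N : ℝ) ^ (1 / 8 : ℝ) * (N : ℝ) ^ (3 / 4 : ℝ) = (N : ℝ) ^ (1 - 1 / 8 : ℝ) := by
    rw [← Real.rpow_add hN0]; norm_num
  have h6 : zr N ^ J * Yb N ≤ (N : ℝ) ^ (1 - 1 / 8 : ℝ) := by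
    rw [← h5]
    exact mul_le_mul h3 h4 (Nat.cast_nonneg _) (by positivity)
  refine ⟨h6, le_trans ?_ h3 |>.trans ?_⟩
  · rw [mul_one]
  · rw [← h5]
    have h7 : 1 ≤ (N : ℝ) ^ (3 / 4 : ℝ) := by
      apply Real.one_le_rpow _ (by norm_num)
      by_contra h
      push Not at h
      have := Real.log_neg hN0 h
      linarith
    have h8 : 0 < (N : ℝ) ^ (1 / 8 : ℝ) := by positivity
    nlinarith

lemma ev_NN : ∀ᶠ N : ℕ in atTop, NN (Sb N) (Ss N) 6 + NN (Sb N) (Ss N) (-6) ≤ exp (20 * ll N) ∧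
    NN (Sb N) (Ss N) 1 + NN (Sb N) (Ss N) (-1) ≤ exp (ll N) / 2 := by
  obtain ⟨K, hK0, hK⟩ := NN_le 6 (by norm_num)
  obtain ⟨C3, hC30, hC3⟩ := sum_tp3
  filter_upwards [ev_sumS (ε := 1 / 100) (by positivity),
    ev_lin (K * C3) (ε := 1 / 4) (by positivity), ev_ll 10, ev_sub] with N h1 h2 h3 hsub
  have h8 := hC3 (Sb N)
  have h9 : K * ∑ p ∈ Sb N, tp p ^ 3 ≤ K * C3 := mul_le_mul_of_nonneg_left h8 hK0
  have hS1 : ∑ p ∈ Ss N, (1 : ℝ) / p ≤ 1.01 * ll N := by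
    have := (abs_le.1 h1).2
    linarith
  have k1 := hK (Sb N) (Ss N) 6 Sb_prime hsub (by rw [abs_of_pos (by norm_num)])
  have k2 := hK (Sb N) (Ss N) (-6) Sb_prime hsub (by rw [abs_neg, abs_of_pos (by norm_num)])
  have k3 := hK (Sb N) (Ss N) 1 Sb_prime hsub (by rw [abs_of_pos (by norm_num)]; norm_num)
  have k4 := hK (Sb N) (Ss N) (-1) Sb_prime hsub (by rw [abs_neg, abs_of_pos (by norm_num)]; norm_num)
  have e4 : (4 : ℝ) ≤ exp (0.24 * ll N) := by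
    have := add_one_le_exp (0.24 * ll N)
    have h2' := Real.quadratic_le_exp_of_nonneg (x := 0.24 * ll N) (by linarith)
    nlinarith
  constructor
  · have f1 : NN (Sb N) (Ss N) 6 ≤ exp (19 * ll N) := k1.trans (exp_le_exp.2 (by linarith))
    have f2 : NN (Sb N) (Ss N) (-6) ≤ exp (19 * ll N) := k2.trans (exp_le_exp.2 (by linarith))
    have f3 : exp (20 * ll N) = exp (19 * ll N) * exp (ll N) := by rw [← Real.exp_add]; ring_nf
    rw [f3]
    have f4 : 2 ≤ exp (ll N) := by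
      have := add_one_le_exp (ll N)
      linarith
    nlinarith [exp_pos (19 * ll N)]
  · have f1 : NN (Sb N) (Ss N) 1 ≤ exp (0.756 * ll N) := k3.trans (exp_le_exp.2 (by linarith))
    have f2 : NN (Sb N) (Ss N) (-1) ≤ exp (0.756 * ll N) := k4.trans (exp_le_exp.2 (by linarith))
    have f3 : exp (ll N) = exp (0.756 * ll N) * exp (0.244 * ll N) := by
      rw [← Real.exp_add]; ring_nf
    have f4 : exp (0.24 * ll N) ≤ exp (0.244 * ll N) := exp_le_exp.2 (by linarith)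
    rw [f3]
    nlinarith [exp_pos (0.756 * ll N)]

theorem model_T {ε : ℝ} (hε : 0 < ε) : ∀ᶠ N : ℕ in atTop, ∀ b : ℝ, |b| ≤ 1 → ∀ J : ℕ,
    30 * ll N ≤ J →
    ∫ x, tj J (b * PP (Ss N) (XX (Sb N) x)) ^ 2 ∂(mu (Sb N)) ≤ exp ((2 * b ^ 2 + ε) * ll N) := by
  obtain ⟨K, hK0, hK⟩ := NN_le 6 (by norm_num)
  obtain ⟨C3, hC30, hC3⟩ := sum_tp3
  filter_upwards [ev_sumS (ε := ε / 8) (by positivity),
    ev_lin (K * C3) (ε := ε / 4) (by positivity), ev_ll 10, ev_sub, ev_NN,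
    ev_pow 4 0 (ε := ε / 4) (by positivity)] with N h1 h2 h3 hsub h4 h5 b hb J hJ
  rw [pow_zero, mul_one] at h5
  have hll : 0 < ll N := by linarith
  have hb2 : b ^ 2 ≤ 1 := by
    rw [← sq_abs]
    exact pow_le_one₀ (abs_nonneg _) hb
  refine (CC_le Sb_prime hsub J hb).trans ?_
  have h8 := hC3 (Sb N)
  have h9 : K * ∑ p ∈ Sb N, tp p ^ 3 ≤ K * C3 := mul_le_mul_of_nonneg_left h8 hK0
  have k1 := hK (Sb N) (Ss N) (2 * b) Sb_prime hsub (by rw [abs_mul, abs_two]; linarith)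
  set E : ℝ := exp ((2 * b ^ 2 + 3 * ε / 4) * ll N) with hE
  have e1 : NN (Sb N) (Ss N) (2 * b) ≤ E := by
    refine k1.trans (exp_le_exp.2 ?_)
    have h6 := (abs_le.1 h1).2
    have h7 : (2 * b) ^ 2 / 2 * ∑ p ∈ Ss N, (1 : ℝ) / p ≤ 2 * b ^ 2 * ((1 + ε / 8) * ll N) := by
      have : (2 * b) ^ 2 / 2 = 2 * b ^ 2 := by ring
      rw [this]
      exact mul_le_mul_of_nonneg_left (by linarith) (by positivity)
    have h10 : b ^ 2 * (ε * ll N) ≤ 1 * (ε * ll N) := mul_le_mul_of_nonneg_right hb2 (by positivity)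
    nlinarith
  have e2 : exp (-(2 * ((J : ℝ) + 1))) * (NN (Sb N) (Ss N) 6 + NN (Sb N) (Ss N) (-6)) ≤ E := by
    have f1 : exp (-(2 * ((J : ℝ) + 1))) * (NN (Sb N) (Ss N) 6 + NN (Sb N) (Ss N) (-6)) ≤
        exp (-60 * ll N) * exp (20 * ll N) := by
      refine mul_le_mul (exp_le_exp.2 (by linarith)) h4.1 ?_ (exp_pos _).le
      unfold NN
      exact add_nonneg (integral_nonneg fun x => (exp_pos _).le) (integral_nonneg fun x => (exp_pos _).le)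
    refine f1.trans ?_
    rw [← Real.exp_add]
    apply exp_le_exp.2
    have : 0 ≤ (2 * b ^ 2 + 3 * ε / 4) * ll N := by positivity
    linarith
  calc 2 * NN (Sb N) (Ss N) (2 * b) + 2 * exp (-(2 * ((J : ℝ) + 1))) *
        (NN (Sb N) (Ss N) 6 + NN (Sb N) (Ss N) (-6)) ≤ 4 * E := by linarith
    _ ≤ exp (ε / 4 * ll N) * E := mul_le_mul_of_nonneg_right h5 (exp_pos _).le
    _ = _ := by
      rw [hE, ← Real.exp_add]
      congr 1
      ring

lemma ev_N : ∀ᶠ N : ℕ in atTop, 1 / (N : ℝ) ≤ exp (-5 * ll N) := by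
  filter_upwards [ev_pow 5 1 (ε := 1) one_pos, ev_log 1] with N h1 h2
  have hN0 := pos_of_log h2
  rw [one_mul, exp_ll (by linarith), pow_one] at h1
  have h3 : (N : ℝ) = exp (log N) := (Real.exp_log hN0).symm
  rw [one_div, h3, ← Real.exp_neg]
  apply exp_le_exp.2
  linarith

theorem model_trunc {ε : ℝ} (hε : 0 < ε) : ∀ᶠ N : ℕ in atTop, ∀ b : ℝ, |b| ≤ 1 → ∀ J : ℕ,
    30 * ll N ≤ J →
    ∫ x, (tj J (b * PP (Ss N) (XX (Sb N) x)) * SYf N (XX (Sb N) x)) ^ 2 ∂(mu (Sb N)) ≤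
      exp ((1 + 4 * b + 2 * b ^ 2 + ε) * ll N) := by
  filter_upwards [model_second (half_pos hε), model_T (ε := 1) one_pos, tail, ev_N, ev_log 1,
    ev_pow 4 0 (half_pos hε), ev_ll 1, ev_sub] with N h1 h2 h3 h4 h5 h6 h7 hsub b hb J hJ
  rw [pow_zero, mul_one] at h6
  have hll : 0 < ll N := by linarith
  have hb2 : b ^ 2 ≤ 1 := by
    rw [← sq_abs]
    exact pow_le_one₀ (abs_nonneg _) hb
  have hkb : -1 ≤ 1 + 4 * b + 2 * b ^ 2 := by nlinarith [sq_nonneg (b + 1)]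
  obtain ⟨hSc, CS, hSb⟩ := SN_cont h5
  have hTc : Continuous fun x : (Sb N) → ℝ => tj J (b * PP (Ss N) (XX (Sb N) x)) :=
    (tj_cont J).comp (continuous_const.mul PP_cont)
  obtain ⟨CT, hTb⟩ : ∃ CT : ℝ, ∀ x : (Sb N) → ℝ, |tj J (b * PP (Ss N) (XX (Sb N) x))| ≤ CT := by
    refine ⟨∑ j ∈ range (J + 1), (1 / (j.factorial : ℝ)) * (∑ p ∈ Ss N, tp p * 2) ^ j, fun x => ?_⟩
    apply tj_bdd
    rw [abs_mul]
    calc |b| * |PP (Ss N) (XX (Sb N) x)| ≤ 1 * ∑ p ∈ Ss N, tp p * 2 :=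
          mul_le_mul hb (PP_bdd Sb_prime hsub x) (abs_nonneg _) zero_le_one
      _ = _ := one_mul _
  have i1 : Integrable (fun x => (tj J (b * PP (Ss N) (XX (Sb N) x)) * SN N x) ^ 2) (mu (Sb N)) := by
    refine integrable_mu (C := (CT * CS) ^ 2) ((hTc.mul hSc).pow 2) fun x => ?_
    rw [norm_pow, norm_mul, Real.norm_eq_abs, Real.norm_eq_abs]
    exact pow_le_pow_left₀ (by positivity) (mul_le_mul (hTb x) (hSb x) (abs_nonneg _)
      ((abs_nonneg _).trans (hTb x))) 2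
  have i2 : Integrable (fun x => tj J (b * PP (Ss N) (XX (Sb N) x)) ^ 2) (mu (Sb N)) := by
    refine integrable_mu (C := CT ^ 2) (hTc.pow 2) fun x => ?_
    rw [norm_pow, Real.norm_eq_abs]
    exact pow_le_pow_left₀ (by positivity) (hTb x) 2
  have i3 : Integrable (fun _ : (Sb N) → ℝ => (0 : ℝ)) (mu (Sb N)) := integrable_zero _ _ _
  have key : ∀ x : (Sb N) → ℝ, (tj J (b * PP (Ss N) (XX (Sb N) x)) * SYf N (XX (Sb N) x)) ^ 2 ≤
      2 * (tj J (b * PP (Ss N) (XX (Sb N) x)) * SN N x) ^ 2 +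
      2 * (exp (-5 * ll N)) ^ 2 * (tj J (b * PP (Ss N) (XX (Sb N) x)) ^ 2 + 0) := by
    intro x
    have e1 := (h3 (ax N x) (abs_ax x)).trans h4
    rw [← SN_eq, ← SY_eq] at e1
    set T := tj J (b * PP (Ss N) (XX (Sb N) x))
    set D := SN N x - SYf N (XX (Sb N) x) with hD
    have e2 : SYf N (XX (Sb N) x) = SN N x - D := by rw [hD]; ring
    have e3 : D ^ 2 ≤ (exp (-5 * ll N)) ^ 2 := by
      rw [← sq_abs]
      exact pow_le_pow_left₀ (abs_nonneg _) e1 2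
    rw [e2, add_zero]
    have e4 : (T * (SN N x - D)) ^ 2 ≤ 2 * (T * SN N x) ^ 2 + 2 * (T * D) ^ 2 := by
      nlinarith [sq_nonneg (T * SN N x + T * D)]
    have e5 : (T * D) ^ 2 ≤ (exp (-5 * ll N)) ^ 2 * T ^ 2 := by
      rw [mul_pow, mul_comm]
      exact mul_le_mul_of_nonneg_right e3 (sq_nonneg T)
    linarith
  refine (int_le3 (fun x => sq_nonneg _) i1 i2 i3 key).trans ?_
  rw [integral_zero, add_zero]
  have g1 := h1 b hb J hJ
  have g2 := h2 b hb J hJ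
  set E : ℝ := exp ((1 + 4 * b + 2 * b ^ 2 + ε / 2) * ll N) with hE
  have g3 : (exp (-5 * ll N)) ^ 2 * ∫ x, tj J (b * PP (Ss N) (XX (Sb N) x)) ^ 2 ∂(mu (Sb N)) ≤ E := by
    calc (exp (-5 * ll N)) ^ 2 * ∫ x, tj J (b * PP (Ss N) (XX (Sb N) x)) ^ 2 ∂(mu (Sb N)) ≤
        (exp (-5 * ll N)) ^ 2 * exp ((2 * b ^ 2 + 1) * ll N) :=
          mul_le_mul_of_nonneg_left g2 (by positivity)
      _ ≤ E := by
        rw [← Real.exp_nat_mul, ← Real.exp_add]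
        apply exp_le_exp.2
        push_cast
        nlinarith
  have g4 : ∫ x, (tj J (b * PP (Ss N) (XX (Sb N) x)) * SN N x) ^ 2 ∂(mu (Sb N)) ≤ E := g1
  calc 2 * (∫ x, (tj J (b * PP (Ss N) (XX (Sb N) x)) * SN N x) ^ 2 ∂(mu (Sb N))) +
        2 * (exp (-5 * ll N)) ^ 2 * (∫ x, tj J (b * PP (Ss N) (XX (Sb N) x)) ^ 2 ∂(mu (Sb N))) ≤
        4 * E := by linarith
    _ ≤ exp (ε / 2 * ll N) * E := mul_le_mul_of_nonneg_right h6 (exp_pos _).le
    _ = _ := by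
      rw [hE, ← Real.exp_add]
      congr 1
      ring

end Pool.Agent.H485.CC
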