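import Pool.Agent.H485.CC.Har

/-!
# The harmonic theorem
-/

set_option autoImplicit false
set_option maxHeartbeats 4000000

open MeasureTheory Real Finset Filter

namespace Pool.Agent.H485.CC

open W388.LV (SF om IsNewSet)

lemma om_nonneg {N : ℕ} [NeZero N] (f : SF N 2) : 0 ≤ om f := by
  obtain ⟨-, -, -, hp⟩ := W388.LV.q_pet N 2
  have hck : 0 ≤ W388.LV.ck 2 := by
    unfold W388.LV.ck
    have h1 : (0 : ℝ) < ((2 : ℤ) : ℝ) - 1 := by norm_num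
    have := Real.Gamma_pos_of_pos h1
    positivity
  exact div_nonneg hck (hp f).2.1

theorem har_all {ε : ℝ} (hε : 0 < ε) (Kc : ℝ) : ∀ᶠ N : ℕ in atTop, N.Prime → ∀ [NeZero N]
    (B : Finset (SF N 2)), IsNewSet N 2 B →
    (∀ b : ℝ, |b| ≤ 1 → ∀ J : ℕ, 30 * ll N ≤ J → J ≤ Kc * ll N →
      ∑ f ∈ B, om f * (tj J (b * PP (Ss N) (W388.lamf f)) * SYf N (W388.lamf f)) ^ 2 ≤
        exp ((1 + 4 * b + 2 * b ^ 2 + ε) * ll N) ∧
      ∑ f ∈ B, om f * tj J (b * PP (Ss N) (W388.lamf f)) ^ 2 ≤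
        exp ((2 * b ^ 2 + ε) * ll N)) ∧
    ∀ j : ℕ, (j : ℝ) ≤ Kc * ll N → ∑ f ∈ B, om f * (PP (Ss N) (W388.lamf f) ^ j) ^ 2 ≤
      ((2 * j).factorial : ℝ) * exp (ll N) := by
  obtain ⟨N0, hN0⟩ := ls_obs 2 le_rfl 1 (1 / 8) one_pos (by norm_num) (by norm_num)
  filter_upwards [eventually_ge_atTop N0, model_trunc (half_pos hε), model_T (half_pos hε), ev_NN,
    ev_sub, ev_len Kc, ev_log 1, ev_pow 2 0 (half_pos hε)] with N h0 h1 h2 h3 hsub h4 h5 h6 hp _ B hB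
  rw [pow_zero, mul_one] at h6
  have hz : 1 ≤ zr N := zr_ge_one (by linarith)
  have hE : ∀ y : ℝ, 2 * exp ((y + ε / 2) * ll N) ≤ exp ((y + ε) * ll N) := by
    intro y
    calc 2 * exp ((y + ε / 2) * ll N) ≤ exp (ε / 2 * ll N) * exp ((y + ε / 2) * ll N) :=
          mul_le_mul_of_nonneg_right h6 (exp_pos _).le
      _ = _ := by rw [← Real.exp_add]; congr 1; ring
  refine ⟨fun b hb J hJ1 hJ2 => ⟨?_, ?_⟩, fun j hj => ?_⟩
  · have o1 := obs_T hsub hz b (Nat.cast_nonneg _) (obs_SY N) J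
    have k1 := hN0 N h0 B hB (Sb N) Sb_prime (Sb_ndvd hp) _ _ o1 (h4 J hJ2).1
    have k2 := h1 b hb J hJ1
    refine k1.trans ?_
    have e : (1 : ℝ) + 1 = 2 := by norm_num
    rw [e]
    exact (mul_le_mul_of_nonneg_left k2 (by norm_num)).trans (hE _)
  · have o0 : Obs (Sb N) 1 fun _ => 1 := Obs.const le_rfl 1
    have o1 := obs_T hsub hz b zero_le_one o0 J
    have k1 := hN0 N h0 B hB (Sb N) Sb_prime (Sb_ndvd hp) _ _ o1 (h4 J hJ2).2
    have k2 := h2 b hb J hJ1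
    simp only [mul_one] at k1
    refine k1.trans ?_
    have e : (1 : ℝ) + 1 = 2 := by norm_num
    rw [e]
    exact (mul_le_mul_of_nonneg_left k2 (by norm_num)).trans (hE _)
  · have o1 := obs_P hsub hz j
    have k1 := hN0 N h0 B hB (Sb N) Sb_prime (Sb_ndvd hp) _ _ o1 (h4 j hj).2
    have k2 := DD_le (S := Sb N) Sb_prime hsub j
    refine k1.trans ?_
    have h7 : (0 : ℝ) ≤ ((2 * j).factorial : ℝ) := Nat.cast_nonneg _
    calc (1 + 1) * ∫ x, (PP (Ss N) (XX (Sb N) x) ^ j) ^ 2 ∂(mu (Sb N)) ≤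
        (1 + 1) * (((2 * j).factorial : ℝ) * (NN (Sb N) (Ss N) 1 + NN (Sb N) (Ss N) (-1))) :=
          mul_le_mul_of_nonneg_left k2 (by norm_num)
      _ ≤ (1 + 1) * (((2 * j).factorial : ℝ) * (exp (ll N) / 2)) :=
          mul_le_mul_of_nonneg_left (mul_le_mul_of_nonneg_left h3.2 h7) (by norm_num)
      _ = _ := by ring

/-- the pointwise inequality -/
lemma pw {α δ0 P s t1 t2 X Y : ℝ} (hα0 : 0 ≤ α) (hα1 : α ≤ 1) (hδ : 0 < δ0) (hs : δ0 ≤ |s|)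
    (h1 : exp (-(1 - α) * P) / 2 ≤ t1) (h2 : exp (α * P) / 2 ≤ t2) (hX : 0 < X) (hY : 0 < Y) :
    δ0 ^ (2 * α) / 4 ≤ X ^ α * Y ^ (1 - α) *
      (α * ((t1 * s) ^ 2 / X) + (1 - α) * (t2 ^ 2 / Y)) := by
  have hβ : 0 ≤ 1 - α := by linarith
  have t1p : 0 < t1 := lt_of_lt_of_le (by positivity) h1
  have t2p : 0 < t2 := lt_of_lt_of_le (by positivity) h2
  have hsp : 0 < |s| := lt_of_lt_of_le hδ hs
  have hU : 0 < (t1 * s) ^ 2 := by
    rw [← sq_abs, abs_mul]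
    have : 0 < |t1| := abs_pos.2 t1p.ne'
    positivity
  have hV : 0 < t2 ^ 2 := by positivity
  have g1 := Real.geom_mean_le_arith_mean2_weighted hα0 hβ (div_nonneg hU.le hX.le)
    (div_nonneg hV.le hY.le) (by ring)
  have g2 : ((t1 * s) ^ 2 / X) ^ α * (t2 ^ 2 / Y) ^ (1 - α) =
      (((t1 * s) ^ 2) ^ α * (t2 ^ 2) ^ (1 - α)) / (X ^ α * Y ^ (1 - α)) := by
    rw [Real.div_rpow hU.le hX.le, Real.div_rpow hV.le hY.le, div_mul_div_comm]
  rw [g2, div_le_iff₀ (by positivity)] at g1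
  refine le_trans ?_ (g1.trans (le_of_eq (by ring)))
  have g3 : (exp (-(1 - α) * P) / 2 * δ0) ^ 2 ≤ (t1 * s) ^ 2 := by
    have e : (t1 * s) ^ 2 = (t1 * |s|) ^ 2 := by rw [mul_pow, mul_pow, sq_abs]
    rw [e]
    exact pow_le_pow_left₀ (by positivity) (mul_le_mul h1 hs hδ.le t1p.le) 2
  have g4 : (exp (α * P) / 2) ^ 2 ≤ t2 ^ 2 := pow_le_pow_left₀ (by positivity) h2 2
  calc δ0 ^ (2 * α) / 4 = ((exp (-(1 - α) * P) / 2 * δ0) ^ 2) ^ α * ((exp (α * P) / 2) ^ 2) ^ (1 - α) := by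
        have a1 : ((exp (-(1 - α) * P) / 2 * δ0) ^ 2) ^ α =
            exp (-(2 * α * (1 - α) * P)) * (1 / 4 : ℝ) ^ α * δ0 ^ (2 * α) := by
          have b1 : (exp (-(1 - α) * P) / 2 * δ0) ^ 2 = exp (-(2 * (1 - α) * P)) * (1 / 4) * δ0 ^ 2 := by
            have : exp (-(1 - α) * P) ^ 2 = exp (-(2 * (1 - α) * P)) := by
              rw [← Real.exp_nat_mul]; push_cast; ring_nf
            rw [mul_pow, div_pow, this]; ring
          have b2 : (δ0 ^ 2) ^ α = δ0 ^ (2 * α) := by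
            rw [← Real.rpow_natCast, ← Real.rpow_mul hδ.le]; norm_num
          rw [b1, Real.mul_rpow (by positivity) (by positivity), Real.mul_rpow (by positivity) (by positivity),
            ← Real.exp_mul, b2]
          congr 3
          ring
        have a2 : ((exp (α * P) / 2) ^ 2) ^ (1 - α) =
            exp (2 * α * (1 - α) * P) * (1 / 4 : ℝ) ^ (1 - α) := by
          have b1 : (exp (α * P) / 2) ^ 2 = exp (2 * α * P) * (1 / 4) := by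
            have : exp (α * P) ^ 2 = exp (2 * α * P) := by
              rw [← Real.exp_nat_mul]; push_cast; ring_nf
            rw [div_pow, this]; ring
          rw [b1, Real.mul_rpow (by positivity) (by positivity), ← Real.exp_mul]
          congr 2
          ring
        rw [a1, a2]
        have a3 : (1 / 4 : ℝ) ^ α * (1 / 4 : ℝ) ^ (1 - α) = 1 / 4 := by
          rw [← Real.rpow_add (by norm_num)]; norm_num
        have a4 : exp (-(2 * α * (1 - α) * P)) * exp (2 * α * (1 - α) * P) = 1 := by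
          rw [← Real.exp_add]; simp
        calc δ0 ^ (2 * α) / 4 = (exp (-(2 * α * (1 - α) * P)) * exp (2 * α * (1 - α) * P)) *
              ((1 / 4 : ℝ) ^ α * (1 / 4 : ℝ) ^ (1 - α)) * δ0 ^ (2 * α) := by rw [a3, a4]; ring
          _ = _ := by ring
    _ ≤ ((t1 * s) ^ 2) ^ α * (t2 ^ 2) ^ (1 - α) :=
        mul_le_mul (Real.rpow_le_rpow (by positivity) g3 hα0) (Real.rpow_le_rpow (by positivity) g4 hβ)
          (by positivity) (by positivity)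

/-- the abstract deduction -/
lemma deduce {ι : Type} (B : Finset ι) (w S P t1 t2 : ι → ℝ) (hw : ∀ i ∈ B, 0 ≤ w i)
    {α δ0 R X Y : ℝ} (hα0 : 0 ≤ α) (hα1 : α ≤ 1) (hδ : 0 < δ0) (hX : 0 < X) (hY : 0 < Y)
    (ht1 : ∀ i ∈ B, |P i| ≤ R → exp (-(1 - α) * P i) / 2 ≤ t1 i)
    (ht2 : ∀ i ∈ B, |P i| ≤ R → exp (α * P i) / 2 ≤ t2 i)
    (hU : ∑ i ∈ B, w i * (t1 i * S i) ^ 2 ≤ X) (hV : ∑ i ∈ B, w i * t2 i ^ 2 ≤ Y) :
    ∑ i ∈ B with δ0 ≤ |S i| ∧ |P i| ≤ R, w i ≤ 4 * δ0 ^ (-(2 * α)) * (X ^ α * Y ^ (1 - α)) := by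
  have hβ : 0 ≤ 1 - α := by linarith
  have h1 : ∀ i ∈ B.filter (fun i => δ0 ≤ |S i| ∧ |P i| ≤ R), w i * (δ0 ^ (2 * α) / 4) ≤
      w i * (X ^ α * Y ^ (1 - α) * (α * ((t1 i * S i) ^ 2 / X) + (1 - α) * (t2 i ^ 2 / Y))) := by
    intro i hi
    rw [Finset.mem_filter] at hi
    exact mul_le_mul_of_nonneg_left (pw hα0 hα1 hδ hi.2.1 (ht1 i hi.1 hi.2.2) (ht2 i hi.1 hi.2.2) hX hY)
      (hw i hi.1)
  have h2 := Finset.sum_le_sum h1
  rw [← Finset.sum_mul] at h2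
  have h3 : ∑ i ∈ B.filter (fun i => δ0 ≤ |S i| ∧ |P i| ≤ R),
      w i * (X ^ α * Y ^ (1 - α) * (α * ((t1 i * S i) ^ 2 / X) + (1 - α) * (t2 i ^ 2 / Y))) ≤
      ∑ i ∈ B, w i * (X ^ α * Y ^ (1 - α) * (α * ((t1 i * S i) ^ 2 / X) + (1 - α) * (t2 i ^ 2 / Y))) := by
    refine Finset.sum_le_sum_of_subset_of_nonneg (Finset.filter_subset _ _) fun i hi _ => ?_
    have := hw i hi
    positivity
  have h4 : ∑ i ∈ B, w i * (X ^ α * Y ^ (1 - α) * (α * ((t1 i * S i) ^ 2 / X) + (1 - α) * (t2 i ^ 2 / Y))) =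
      X ^ α * Y ^ (1 - α) * (α * ((∑ i ∈ B, w i * (t1 i * S i) ^ 2) / X) +
        (1 - α) * ((∑ i ∈ B, w i * t2 i ^ 2) / Y)) := by
    rw [Finset.sum_div, Finset.sum_div, Finset.mul_sum, Finset.mul_sum, ← Finset.sum_add_distrib,
      Finset.mul_sum]
    exact Finset.sum_congr rfl fun i _ => by ring
  have h5 : α * ((∑ i ∈ B, w i * (t1 i * S i) ^ 2) / X) + (1 - α) * ((∑ i ∈ B, w i * t2 i ^ 2) / Y) ≤ 1 := by
    have e1 : (∑ i ∈ B, w i * (t1 i * S i) ^ 2) / X ≤ 1 := by rw [div_le_one hX]; exact hU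
    have e2 : (∑ i ∈ B, w i * t2 i ^ 2) / Y ≤ 1 := by rw [div_le_one hY]; exact hV
    have := mul_le_mul_of_nonneg_left e1 hα0
    have := mul_le_mul_of_nonneg_left e2 hβ
    linarith
  have h6 : (∑ i ∈ B with δ0 ≤ |S i| ∧ |P i| ≤ R, w i) * (δ0 ^ (2 * α) / 4) ≤ X ^ α * Y ^ (1 - α) := by
    refine h2.trans (h3.trans ?_)
    rw [h4]
    calc X ^ α * Y ^ (1 - α) * (α * ((∑ i ∈ B, w i * (t1 i * S i) ^ 2) / X) +
        (1 - α) * ((∑ i ∈ B, w i * t2 i ^ 2) / Y)) ≤ X ^ α * Y ^ (1 - α) * 1 :=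
          mul_le_mul_of_nonneg_left h5 (by positivity)
      _ = _ := mul_one _
  rw [← le_div_iff₀ (by positivity)] at h6
  refine h6.trans (le_of_eq ?_)
  rw [Real.rpow_neg hδ.le]
  field_simp

/-- the exceptional set -/
lemma except {ι : Type} (B : Finset ι) (w P : ι → ℝ) (hw : ∀ i ∈ B, 0 ≤ w i) {j : ℕ} (hj : 1 ≤ j)
    {E : ℝ} (hE : 0 ≤ E) (hU : ∑ i ∈ B, w i * (P i ^ j) ^ 2 ≤ ((2 * j).factorial : ℝ) * E) :
    ∑ i ∈ B with 6 * (j : ℝ) < |P i|, w i ≤ exp (-(2 * (j : ℝ))) * E := by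
  have hj0 : (0 : ℝ) < j := by exact_mod_cast hj
  have h1 : ∀ i ∈ B.filter (fun i => 6 * (j : ℝ) < |P i|), w i * (6 * (j : ℝ)) ^ (2 * j) ≤
      w i * (P i ^ j) ^ 2 := by
    intro i hi
    rw [Finset.mem_filter] at hi
    refine mul_le_mul_of_nonneg_left ?_ (hw i hi.1)
    calc (6 * (j : ℝ)) ^ (2 * j) ≤ |P i| ^ (2 * j) := pow_le_pow_left₀ (by positivity) hi.2.le _
      _ = (P i ^ j) ^ 2 := by rw [← pow_mul, mul_comm j 2, pow_mul, sq_abs, ← pow_mul]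
  have h2 := Finset.sum_le_sum h1
  rw [← Finset.sum_mul] at h2
  have h3 : ∑ i ∈ B.filter (fun i => 6 * (j : ℝ) < |P i|), w i * (P i ^ j) ^ 2 ≤
      ∑ i ∈ B, w i * (P i ^ j) ^ 2 :=
    Finset.sum_le_sum_of_subset_of_nonneg (Finset.filter_subset _ _) fun i hi _ =>
      mul_nonneg (hw i hi) (by positivity)
  have h4 : (∑ i ∈ B with 6 * (j : ℝ) < |P i|, w i) * (6 * (j : ℝ)) ^ (2 * j) ≤
      (2 * (j : ℝ)) ^ (2 * j) * E := by
    refine h2.trans (h3.trans (hU.trans (mul_le_mul_of_nonneg_right ?_ hE)))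
    have := Nat.factorial_le_pow (2 * j)
    have h5 : ((2 * j).factorial : ℝ) ≤ ((2 * j : ℕ) : ℝ) ^ (2 * j) := by exact_mod_cast this
    push_cast at h5
    exact h5
  rw [← le_div_iff₀ (by positivity)] at h4
  refine h4.trans (le_of_eq_of_le (b := (1 / 3 : ℝ) ^ (2 * j) * E) ?_ ?_)
  · have : (6 * (j : ℝ)) ^ (2 * j) = (2 * (j : ℝ)) ^ (2 * j) * 3 ^ (2 * j) := by
      rw [← mul_pow]; ring
    rw [this, one_div, inv_pow]
    field_simp
  · refine mul_le_mul_of_nonneg_right ?_ hE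
    have e1 : exp (-(2 * (j : ℝ))) = exp (-1) ^ (2 * j) := by
      rw [← Real.exp_nat_mul]; push_cast; ring_nf
    rw [e1]
    apply pow_le_pow_left₀ (by norm_num)
    rw [Real.exp_neg, ← one_div]
    apply one_div_le_one_div_of_le (exp_pos _)
    have := Real.exp_one_lt_d9
    linarith

end Pool.Agent.H485.CC
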