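import Pool.Agent.H485.CC.Ep10
import Pool.Agent.H485.CC.Hm2

/-!
# Large deviations: the tilted mean of the Euler product
-/

set_option autoImplicit false
set_option maxHeartbeats 4000000

open MeasureTheory Real Finset Filter

namespace Pool.Agent.H485.CC

lemma one_add_ge {y : ℝ} (hy : -(1 / 2) ≤ y) : exp (y - 2 * y ^ 2) ≤ 1 + y := by
  have h0 : 0 < 1 + y := by linarith
  have h1 : exp (y / (1 + y)) ≤ 1 + y := by
    have h2 := add_one_le_exp (-(y / (1 + y)))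
    have h3 : -(y / (1 + y)) + 1 = (1 + y)⁻¹ := by field_simp; ring
    rw [h3, Real.exp_neg] at h2
    exact (inv_le_inv₀ h0 (exp_pos _)).1 h2
  refine le_trans (exp_le_exp.2 ?_) h1
  rw [le_div_iff₀ h0]
  nlinarith [sq_nonneg y, mul_nonneg (sq_nonneg y) (show 0 ≤ 1 + 2 * y by linarith)]

lemma quad_le {b : ℝ} (hb : |b| ≤ 3) : |b + b ^ 2 / 2| ≤ 15 / 2 := by
  obtain ⟨h1, h2⟩ := abs_le.1 hb
  rw [abs_le]
  constructor <;> nlinarith

lemma int_ge_six {t : ℝ} (ht0 : 0 ≤ t) (ht : t ≤ 3 / 4) {b : ℝ} (hb : |b| ≤ 3) :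
    exp (-6) ≤ ∫ θ, exp (b * (uu 1 θ * t)) * lr t θ ∂st ∧
      ∫ θ, exp (b * (uu 1 θ * t)) * lr t θ ∂st ≤ exp 6 := by
  have hm := lr_mean ht0 ht
  have hi := lr_int ht0 ht b
  have hl := (lr_CB ht0 ht)
  have hil : Integrable (lr t) st := by
    have := lr_int ht0 ht 0
    simpa using this
  have hab : ∀ θ, |b * (uu 1 θ * t)| ≤ 6 := by
    intro θ
    have h1 : |uu 1 θ| ≤ 2 := by
      have := abs_uu_le 1 θ
      norm_num at this
      exact this
    rw [abs_mul, abs_mul, abs_of_nonneg ht0]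
    have h2 : |uu 1 θ| * t ≤ 2 * 1 := mul_le_mul h1 (by linarith) ht0 (by norm_num)
    calc |b| * (|uu 1 θ| * t) ≤ 3 * (2 * 1) := mul_le_mul hb h2 (by positivity) (by norm_num)
      _ = 6 := by norm_num
  constructor
  · calc exp (-6) = ∫ θ, exp (-6) * lr t θ ∂st := by rw [integral_const_mul, hm, mul_one]
      _ ≤ _ := by
        refine integral_mono (hil.const_mul _) hi fun θ => ?_
        exact mul_le_mul_of_nonneg_right (exp_le_exp.2 (abs_le.1 (hab θ)).1) (lr_pos ht0 ht θ).le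
  · have h2 : ∫ θ, exp (b * (uu 1 θ * t)) * lr t θ ∂st ≤ ∫ θ, exp 6 * lr t θ ∂st := by
      refine integral_mono hi (hil.const_mul _) fun θ => ?_
      exact mul_le_mul_of_nonneg_right (exp_le_exp.2 (abs_le.1 (hab θ)).2) (lr_pos ht0 ht θ).le
    rw [integral_const_mul, hm, mul_one] at h2
    exact h2

/-- lower bound of the local factor -/
lemma II_low {p : ℕ} (hp : p.Prime) {b : ℝ} (hb : |b| ≤ 3) :
    exp ((b + b ^ 2 / 2) * (1 / p) - 10 ^ 12 * tp p ^ 3) ≤ II gl b p := by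
  rw [II_gl hp, ← tp_sq]
  have ht0 := tp_nonneg p
  have ht := tp_le hp
  set t := tp p
  have hq := quad_le hb
  obtain ⟨hq1, hq2⟩ := abs_le.1 hq
  by_cases h : t ≤ 1 / 4000
  · have h1 := abs_le.1 (loc_lr ht0 (h.trans (by norm_num)) hb)
    set u := t ^ 2 * (b + b ^ 2 / 2) with hu
    have ht3 : t ^ 3 ≤ t ^ 2 * (1 / 4000) := by
      rw [pow_succ]; exact mul_le_mul_of_nonneg_left h (sq_nonneg t)
    have ht2 : t ^ 2 ≤ (1 / 4000) ^ 2 := pow_le_pow_left₀ ht0 h 2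
    have ht2' : 0 ≤ t ^ 2 := sq_nonneg t
    have ht3' : 0 ≤ t ^ 3 := by positivity
    have hu1 : |u| ≤ 15 / 2 * t ^ 2 := by
      rw [hu, abs_mul, abs_of_nonneg ht2', mul_comm]
      exact mul_le_mul_of_nonneg_right hq ht2'
    obtain ⟨hu2, hu3⟩ := abs_le.1 hu1
    set y := u - 2000 * t ^ 3 with hy
    have hy1 : |y| ≤ 8 * t ^ 2 := by
      rw [abs_le]; constructor <;> linarith
    have hy2 : y ^ 2 ≤ (8 * t ^ 2) ^ 2 := by
      rw [← sq_abs]
      exact pow_le_pow_left₀ (abs_nonneg _) hy1 2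
    have hy3 : 2 * y ^ 2 ≤ t ^ 3 := by
      have e : (8 * t ^ 2) ^ 2 = 64 * (t ^ 3 * t) := by ring
      have : t ^ 3 * t ≤ t ^ 3 * (1 / 4000) := mul_le_mul_of_nonneg_left h ht3'
      linarith
    have hy4 : -(1 / 2) ≤ y := by
      have := (abs_le.1 hy1).1
      have : 8 * t ^ 2 ≤ 1 / 2 := by nlinarith
      linarith
    refine le_trans (exp_le_exp.2 ?_) ((one_add_ge hy4).trans (by linarith [h1.1]))
    have : u = (b + b ^ 2 / 2) * t ^ 2 := by rw [hu]; ring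
    linarith
  · push Not at h
    refine le_trans (exp_le_exp.2 ?_) (int_ge_six ht0 ht hb).1
    have h3 : (1 / 4000 : ℝ) ^ 3 ≤ t ^ 3 := pow_le_pow_left₀ (by norm_num) h.le 3
    have h4 : t ^ 2 ≤ 1 := by nlinarith
    have h5 : (b + b ^ 2 / 2) * t ^ 2 ≤ 15 / 2 := by nlinarith [sq_nonneg t]
    norm_num at h3 ⊢
    linarith

lemma II_up {p : ℕ} (hp : p.Prime) {b : ℝ} (hb : |b| ≤ 3) :
    II gl b p ≤ exp (15 / 2 * (1 / p) + 10 ^ 12 * tp p ^ 3) := by
  rw [II_gl hp, ← tp_sq]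
  have ht0 := tp_nonneg p
  have ht := tp_le hp
  set t := tp p
  by_cases h : t ≤ 1 / 6
  · refine (loc_up ht0 h hb).trans (exp_le_exp.2 ?_)
    have : 0 ≤ t ^ 3 := by positivity
    linarith
  · push Not at h
    refine (int_ge_six ht0 ht hb).2.trans (exp_le_exp.2 ?_)
    have h3 : (1 / 6 : ℝ) ^ 3 ≤ t ^ 3 := pow_le_pow_left₀ (by norm_num) h.le 3
    have h4 : 0 ≤ t ^ 2 := sq_nonneg t
    norm_num at h3 ⊢
    linarith

/-- the tilted mean -/
noncomputable def EB (N : ℕ) (b : ℝ) : ℝ := ∫ x, exp (b * PP (Ss N) (XX (Sb N) x)) * EL (Sb N) x ∂(mu (Sb N))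

lemma EB_eq {N : ℕ} (hsub : Ss N ⊆ Sb N) (b : ℝ) : EB N b = ∏ p ∈ Ss N, II gl b p := by
  have h := fac (S := Sb N) Sb_prime 1 (fun _ => Ss N) (fun _ _ => hsub) (fun i hi j hj hij => by omega)
    (fun _ => ![1, 0, 0]) (fun _ _ => b) gl gl_CB
  rw [Finset.prod_congr rfl (fun p hp => II_gl_zero (Sb_prime p (mem_sdiff.1 hp).1)),
    Finset.prod_const_one, mul_one, prod_range_one] at h
  simp only [Fin.sum_univ_three, prod_range_one, Matrix.cons_val_zero, Matrix.cons_val_one, Matrix.cons_val,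
    one_mul, zero_mul, add_zero] at h
  rw [EB, ← h]
  congr 1
  ext x
  rw [EL_eq Sb_prime]

theorem EB_low {ε : ℝ} (hε : 0 < ε) : ∀ᶠ N : ℕ in atTop, ∀ b : ℝ, |b| ≤ 3 →
    exp ((b + b ^ 2 / 2 - ε) * ll N) ≤ EB N b ∧ EB N b ≤ exp (9 * ll N) := by
  obtain ⟨C, hC0, hC⟩ := sum_tp3
  filter_upwards [ev_sumS (ε := min (ε / 15) (1 / 100)) (by positivity), ev_sub,
    ev_lin (10 ^ 12 * C) (ε := min (ε / 2) (1 / 100)) (by positivity), ev_ll 1] with N h1 hsub h2 h3 b hb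
  rw [EB_eq hsub]
  have hll : 0 < ll N := by linarith
  have hq := quad_le hb
  have hS := hC (Ss N)
  obtain ⟨h1a, h1b⟩ := abs_le.1 h1
  have m1 : min (ε / 15) (1 / 100) ≤ ε / 15 := min_le_left _ _
  have m2 : min (ε / 15) (1 / 100) ≤ 1 / 100 := min_le_right _ _
  have m3 : min (ε / 2) (1 / 100) ≤ ε / 2 := min_le_left _ _
  have m4 : min (ε / 2) (1 / 100) ≤ 1 / 100 := min_le_right _ _
  have hC12 : (10 : ℝ) ^ 12 * ∑ p ∈ Ss N, tp p ^ 3 ≤ 10 ^ 12 * C := mul_le_mul_of_nonneg_left hS (by positivity)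
  constructor
  · have e1 : ∏ p ∈ Ss N, exp ((b + b ^ 2 / 2) * (1 / p) - 10 ^ 12 * tp p ^ 3) ≤ ∏ p ∈ Ss N, II gl b p :=
      Finset.prod_le_prod (fun p _ => (exp_pos _).le) fun p hp => II_low (Ss_prime p hp) hb
    refine le_trans ?_ e1
    rw [← Real.exp_sum, Finset.sum_sub_distrib, ← Finset.mul_sum, ← Finset.mul_sum]
    apply exp_le_exp.2
    have e2 : |(b + b ^ 2 / 2) * (∑ p ∈ Ss N, (1 : ℝ) / p - ll N)| ≤ 15 / 2 * (ε / 15 * ll N) := by
      rw [abs_mul]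
      exact mul_le_mul hq (h1.trans (mul_le_mul_of_nonneg_right m1 hll.le)) (abs_nonneg _) (by norm_num)
    have e3 := (abs_le.1 e2).1
    nlinarith [mul_le_mul_of_nonneg_right m3 hll.le]
  · have e1 : ∏ p ∈ Ss N, II gl b p ≤ ∏ p ∈ Ss N, exp (15 / 2 * (1 / p) + 10 ^ 12 * tp p ^ 3) :=
      Finset.prod_le_prod (fun p _ => (II_gl_pos b p).le) fun p hp => II_up (Ss_prime p hp) hb
    refine e1.trans ?_
    rw [← Real.exp_sum, Finset.sum_add_distrib, ← Finset.mul_sum, ← Finset.mul_sum]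
    apply exp_le_exp.2
    nlinarith [mul_le_mul_of_nonneg_right m2 hll.le, mul_le_mul_of_nonneg_right m4 hll.le]

lemma tj_abs (J : ℕ) (y : ℝ) : |tj J y| ≤ exp |y| := by
  unfold tj
  refine (Finset.abs_sum_le_sum_abs _ _).trans ?_
  refine le_trans (le_of_eq ?_) (Real.sum_le_exp_of_nonneg (abs_nonneg y) (J + 1))
  refine Finset.sum_congr rfl fun j _ => ?_
  rw [abs_mul, abs_pow, abs_of_nonneg (show (0 : ℝ) ≤ 1 / (j.factorial : ℝ) by positivity)]
  ring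

lemma tj_sup (J : ℕ) (y : ℝ) : |tj J y| ≤ exp 1 * (1 + |y|) ^ J := by
  unfold tj
  refine (Finset.abs_sum_le_sum_abs _ _).trans ?_
  have h1 : ∑ j ∈ range (J + 1), |1 / (j.factorial : ℝ) * y ^ j| ≤
      ∑ j ∈ range (J + 1), (1 : ℝ) ^ j / (j.factorial : ℝ) * (1 + |y|) ^ J := by
    refine Finset.sum_le_sum fun j hj => ?_
    rw [abs_mul, abs_pow, abs_of_nonneg (show (0 : ℝ) ≤ 1 / (j.factorial : ℝ) by positivity), one_pow]
    refine mul_le_mul_of_nonneg_left ?_ (by positivity)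
    calc |y| ^ j ≤ (1 + |y|) ^ j := pow_le_pow_left₀ (abs_nonneg y) (by linarith) j
      _ ≤ (1 + |y|) ^ J := pow_le_pow_right₀ (by linarith [abs_nonneg y]) (by
        have := Finset.mem_range.1 hj; omega)
  refine h1.trans ?_
  rw [← Finset.sum_mul]
  exact mul_le_mul_of_nonneg_right (Real.sum_le_exp_of_nonneg zero_le_one (J + 1)) (by positivity)

lemma tt_low {J : ℕ} {a c R P : ℝ} (ha : |a| ≤ 1) (hc : |c| ≤ 1) (hJ : 4 * R ≤ J) :
    exp ((a + c) * P) / 4 - 2 * exp (-R) * (exp (3 * P) + exp (-3 * P)) ≤ tj J (a * P) * tj J (c * P) := by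
  have hbd : ∀ d : ℝ, |d| ≤ 1 → |d * P| ≤ |P| := fun d hd => by
    rw [abs_mul]; exact mul_le_of_le_one_left (abs_nonneg _) hd
  by_cases h : |P| ≤ R
  · have h1 := tj_ge ((hbd a ha).trans h) hJ
    have h2 := tj_ge ((hbd c hc).trans h) hJ
    have h3 : exp (a * P) / 2 * (exp (c * P) / 2) ≤ tj J (a * P) * tj J (c * P) :=
      mul_le_mul h1 h2 (by positivity) (le_trans (by positivity) h1)
    have h4 : exp ((a + c) * P) / 4 = exp (a * P) / 2 * (exp (c * P) / 2) := by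
      rw [show (a + c) * P = a * P + c * P by ring, Real.exp_add]; ring
    have h5 : 0 ≤ 2 * exp (-R) * (exp (3 * P) + exp (-3 * P)) := by positivity
    linarith
  · push Not at h
    have h1 : |tj J (a * P) * tj J (c * P)| ≤ exp (2 * |P|) := by
      rw [abs_mul, show (2 : ℝ) * |P| = |P| + |P| by ring, Real.exp_add]
      exact mul_le_mul ((tj_abs J _).trans (exp_le_exp.2 (hbd a ha)))
        ((tj_abs J _).trans (exp_le_exp.2 (hbd c hc))) (abs_nonneg _) (exp_pos _).le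
    have h2 : exp ((a + c) * P) ≤ exp (2 * |P|) := by
      apply exp_le_exp.2
      have := (le_abs_self (a * P)).trans (hbd a ha)
      have := (le_abs_self (c * P)).trans (hbd c hc)
      nlinarith
    have h3 : exp (2 * |P|) ≤ exp (-R) * (exp (3 * P) + exp (-3 * P)) := by
      have e1 : exp (2 * |P|) ≤ exp (-R) * exp (3 * |P|) := by
        rw [← Real.exp_add]
        exact exp_le_exp.2 (by linarith)
      refine e1.trans (mul_le_mul_of_nonneg_left ?_ (exp_pos _).le)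
      rcases abs_cases P with ⟨h5, _⟩ | ⟨h5, _⟩
      · rw [h5]; linarith [exp_pos (-3 * P)]
      · rw [h5, show 3 * -P = -3 * P by ring]; linarith [exp_pos (3 * P)]
    have h4 := (abs_le.1 h1).1
    have h5 := exp_pos (2 * |P|)
    nlinarith

lemma ELt_low {N : ℕ} (hsub : Ss N ⊆ Sb N) {J : ℕ} {a c R : ℝ} (ha : |a| ≤ 1) (hc : |c| ≤ 1) (hJ : 4 * R ≤ J) :
    EB N (a + c) / 4 - 2 * exp (-R) * (EB N 3 + EB N (-3)) ≤
      ∫ x, EL (Sb N) x * (tj J (a * PP (Ss N) (XX (Sb N) x)) * tj J (c * PP (Ss N) (XX (Sb N) x))) ∂(mu (Sb N)) := by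
  have hP : CB fun x : Sb N → ℝ => PP (Ss N) (XX (Sb N) x) := CB.PP Sb_prime hsub
  have hE := EL_CB (S := Sb N) Sb_prime
  have hX : ∀ b : ℝ, CB fun x : Sb N → ℝ => exp (b * PP (Ss N) (XX (Sb N) x)) * EL (Sb N) x :=
    fun b => ((hP.smul b).exp).mul hE
  have hT : ∀ b : ℝ, CB fun x : Sb N → ℝ => tj J (b * PP (Ss N) (XX (Sb N) x)) := fun b => tj_CB J (hP.smul b)
  have e1 : EB N (a + c) / 4 - 2 * exp (-R) * (EB N 3 + EB N (-3)) =
      ∫ x, (1 / 4 * (exp ((a + c) * PP (Ss N) (XX (Sb N) x)) * EL (Sb N) x) - 2 * exp (-R) *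
        (exp (3 * PP (Ss N) (XX (Sb N) x)) * EL (Sb N) x + exp (-3 * PP (Ss N) (XX (Sb N) x)) * EL (Sb N) x)) ∂(mu (Sb N)) := by
    rw [integral_sub ((hX _).smul _).int (((hX 3).add (hX (-3))).smul _).int, integral_const_mul,
      integral_const_mul, integral_add (hX 3).int (hX (-3)).int]
    unfold EB
    ring
  rw [e1]
  refine integral_mono (((hX _).smul _).int.sub (((hX 3).add (hX (-3))).smul _).int)
    (hE.mul ((hT a).mul (hT c))).int fun x => ?_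
  dsimp only
  have h := mul_le_mul_of_nonneg_left (tt_low (P := PP (Ss N) (XX (Sb N) x)) ha hc hJ) (EL_pos (S := Sb N) Sb_prime x).le
  refine le_trans (le_of_eq ?_) h
  ring

end Pool.Agent.H485.CC
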