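import Pool.Agent.H485.CC.Ld1

/-!
# Large deviations: the tilted first moment over the even forms
-/

set_option autoImplicit false
set_option maxHeartbeats 4000000

open MeasureTheory Real Finset Filter

namespace Pool.Agent.H485.CC

open W388.LV (SF om IsNewSet pet)

lemma Sm_Icc {N n : ℕ} (hn : n ∈ Finset.Icc 1 (Yb N)) : Sm (Sb N) n := by
  rw [Finset.mem_Icc] at hn
  exact ⟨hn.1, fun p hp => mem_Sb hn.2 hn.1 hp⟩

lemma sum_inv_le (Y : ℕ) (hY : 1 ≤ Y) : ∑ n ∈ Finset.Icc 1 Y, (1 : ℝ) / n ≤ 1 + log Y := by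
  have h1 := harmonic_le_one_add_log Y
  refine le_trans (le_of_eq ?_) h1
  rw [harmonic_eq_sum_Icc]
  push_cast
  exact Finset.sum_congr rfl fun n _ => one_div _

lemma S5_sq {N : ℕ} (hlog : 1 ≤ log (N : ℝ)) : ∫ x, S5 N (XX (Sb N) x) ^ 2 ∂(mu (Sb N)) ≤ 1 + log N := by
  obtain ⟨cc, hcc1, hcc2⟩ := obs_S5 N
  have hN0 := pos_of_log hlog
  have hN1 : (1 : ℝ) ≤ N := by
    by_contra h
    push Not at h
    have := Real.log_neg hN0 h
    linarith
  have hY1 : 1 ≤ Yb N := Nat.le_floor (by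
    push_cast
    exact Real.one_le_rpow hN1 (by norm_num))
  have hYN : ((Yb N : ℕ) : ℝ) ≤ N := by
    have h1 : ((Yb N : ℕ) : ℝ) ≤ (N : ℝ) ^ (3 / 4 : ℝ) := Nat.floor_le (by positivity)
    refine h1.trans ?_
    calc (N : ℝ) ^ (3 / 4 : ℝ) ≤ (N : ℝ) ^ (1 : ℝ) := Real.rpow_le_rpow_of_exponent_le hN1 (by norm_num)
      _ = N := Real.rpow_one _
  have f2 := lin_obs (S := Sb N) Sb_prime hcc1 hcc2 (Yb N) le_rfl (fun n hn => Sm_Icc hn) (fun n => tp n * V5 N n)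
  have f3 := integral_obs (S := Sb N) Sb_prime hcc1 hcc2
  have e1 : ∫ x, S5 N (XX (Sb N) x) ^ 2 ∂(mu (Sb N)) = ∑ n ∈ cc.support, cc n * (tp n * V5 N n) := by
    rw [← f2]
    refine integral_congr_ae (Eventually.of_forall fun x => ?_)
    show S5 N (XX (Sb N) x) ^ 2 = S5 N (XX (Sb N) x) * S5 N (XX (Sb N) x)
    ring
  have e2 : (∑ n ∈ cc.support, cc n * (tp n * V5 N n)) ^ 2 ≤
      (∑ n ∈ cc.support, cc n ^ 2) * ∑ n ∈ cc.support, (tp n * V5 N n) ^ 2 :=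
    Finset.sum_mul_sq_le_sq_mul_sq _ _ _
  have e3 : ∑ n ∈ cc.support, (tp n * V5 N n) ^ 2 ≤ 1 + log N := by
    have h1 : ∑ n ∈ cc.support, (tp n * V5 N n) ^ 2 ≤ ∑ n ∈ cc.support, (1 : ℝ) / n := by
      refine Finset.sum_le_sum fun n _ => ?_
      rw [mul_pow, tp_sq]
      have h2 := V5_nonneg N n
      have h3 := V5_le_one hlog n
      exact mul_le_of_le_one_right (by positivity) (pow_le_one₀ h2 h3)
    have h2 : ∑ n ∈ cc.support, (1 : ℝ) / n ≤ ∑ n ∈ Finset.Icc 1 (Yb N), (1 : ℝ) / n := by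
      refine Finset.sum_le_sum_of_subset_of_nonneg (fun n hn => ?_) fun n _ _ => by positivity
      have h3 := hcc1 n hn
      rw [Finset.mem_Icc]
      exact ⟨h3.1.1, by exact_mod_cast h3.2⟩
    have h3 := sum_inv_le (Yb N) hY1
    have h4 : log (Yb N : ℕ) ≤ log N := Real.log_le_log (by exact_mod_cast hY1) hYN
    linarith
  rw [← f3, ← e1] at e2
  set I := ∫ x, S5 N (XX (Sb N) x) ^ 2 ∂(mu (Sb N)) with hI
  have hI0 : 0 ≤ I := integral_nonneg fun _ => sq_nonneg _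
  rcases hI0.eq_or_lt with h | h
  · rw [← h]; linarith
  · have : I ≤ ∑ n ∈ cc.support, (tp n * V5 N n) ^ 2 := by
      rw [sq] at e2
      exact le_of_mul_le_mul_left e2 h
    linarith

/-- lengths and sizes -/
lemma ev_size : ∀ᶠ N : ℕ in atTop, ∀ J : ℕ, (J : ℝ) ≤ 100 * ll N →
    zr N ^ (2 * J) ≤ (N : ℝ) ^ (1 / 8 : ℝ) ∧ exp 1 * (3 * zr N) ^ J ≤ (N : ℝ) ^ (1 / 40000 : ℝ) := by
  filter_upwards [ev_ll 100000000, ev_log 1, ev_pow (100000 * 400) 1 (ε := 1) one_pos] with N h1 h2 h3 J hJ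
  have hN0 := pos_of_log h2
  have hlog : 0 < log (N : ℝ) := by linarith
  have hll : 0 < ll N := by linarith
  rw [one_mul, exp_ll hlog, pow_one] at h3
  have hk : log N / ll N ^ 2 * ll N = log N / ll N := by field_simp
  have hs : log N / ll N ≤ log N / 100000000 := div_le_div_of_nonneg_left hlog.le (by norm_num) h1
  constructor
  · unfold zr
    rw [← Real.exp_nat_mul, Real.rpow_def_of_pos hN0]
    apply exp_le_exp.2
    push_cast
    have e1 : 2 * (J : ℝ) * (log N / ll N ^ 2) ≤ 2 * (100 * ll N) * (log N / ll N ^ 2) :=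
      mul_le_mul_of_nonneg_right (by linarith) (by positivity)
    have e2 : 2 * (100 * ll N) * (log N / ll N ^ 2) = 200 * (log N / ll N) := by rw [← hk]; ring
    linarith
  · have e0 : 3 * zr N = exp (log 3 + log N / ll N ^ 2) := by
      rw [Real.exp_add, Real.exp_log (by norm_num)]; rfl
    rw [e0, ← Real.exp_nat_mul, ← Real.exp_add, Real.rpow_def_of_pos hN0]
    apply exp_le_exp.2
    have hl3 : log (3 : ℝ) ≤ 2 := by
      have := Real.log_le_sub_one_of_pos (show (0 : ℝ) < 3 by norm_num)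
      linarith
    have e1 : (J : ℝ) * (log 3 + log N / ll N ^ 2) ≤ (100 * ll N) * (2 + log N / ll N ^ 2) := by
      refine mul_le_mul hJ (by linarith) ?_ (by positivity)
      have : 0 ≤ log (3 : ℝ) := Real.log_nonneg (by norm_num)
      positivity
    have e2 : (100 * ll N) * (2 + log N / ll N ^ 2) = 200 * ll N + 100 * (log N / ll N) := by
      rw [← hk]; ring
    nlinarith

lemma T_sup {N : ℕ} (hsub : Ss N ⊆ Sb N) (hlog : 0 ≤ log (N : ℝ)) {a : ℝ} (ha : |a| ≤ 1) (J : ℕ) (x : Sb N → ℝ) :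
    |tj J (a * PP (Ss N) (XX (Sb N) x))| ≤ exp 1 * (3 * zr N) ^ J := by
  refine (tj_sup J _).trans ?_
  refine mul_le_mul_of_nonneg_left (pow_le_pow_left₀ (by positivity) ?_ J) (exp_pos _).le
  have h1 := PP_bdd (S := Sb N) Sb_prime hsub x
  have hz := zr_ge_one hlog
  have h2 : ∑ p ∈ Ss N, tp p * 2 ≤ 2 * zr N := by
    have e1 : ∑ p ∈ Ss N, tp p * 2 ≤ ∑ _p ∈ Ss N, (2 : ℝ) := Finset.sum_le_sum fun p hp => by
      have := tp_le_one (Ss_prime p hp).one_le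
      linarith
    rw [Finset.sum_const, nsmul_eq_mul] at e1
    have e2 : ((Ss N).card : ℝ) ≤ zb N := by
      have : (Ss N).card ≤ zb N := by
        unfold Ss pr
        refine (Finset.card_filter_le _ _).trans ?_
        rw [Nat.card_Icc, Nat.add_sub_cancel]
      exact_mod_cast this
    have e3 := zb_le N
    linarith
  rw [abs_mul]
  have h3 : |a| * |PP (Ss N) (XX (Sb N) x)| ≤ 1 * |PP (Ss N) (XX (Sb N) x)| :=
    mul_le_mul_of_nonneg_right ha (abs_nonneg _)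
  linarith

/-- **the tilted first moment** -/
theorem first_LD {ε : ℝ} (hε : 0 < ε) : ∀ᶠ N : ℕ in atTop, N.Prime → ∀ [NeZero N] (B : Finset (SF N 2)),
    W388.LV.IsNewBasis N 2 B → ∀ E : Finset (SF N 2), (∀ f, f ∈ E ↔ f ∈ B ∧ W388.IsNewf N 2 f 1) →
    ∀ a c : ℝ, |a| ≤ 1 → |c| ≤ 1 → ∀ J : ℕ, 80 * ll N ≤ J → J ≤ 100 * ll N →
    exp ((a + c + (a + c) ^ 2 / 2 - ε) * ll N) ≤ ∑ f ∈ E, om f * (tj J (a * PP (Ss N) (W388.lamf f)) *
      (tj J (c * PP (Ss N) (W388.lamf f)) * S5 N (W388.lamf f))) := by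
  set ε' := min (ε / 4) (1 / 4) with hε'
  have hε'0 : 0 < ε' := by positivity
  have hm1 : ε' ≤ ε / 4 := min_le_left _ _
  have hm2 : ε' ≤ 1 / 4 := min_le_right _ _
  filter_upwards [EB_low (ε := ε') hε'0, ev_size, ev_sub, obs_even_pow, ev_len 200,
    ev_ll 20, ev_log 2, ev_lin 16 (ε := ε / 2) (by positivity),
    ev_big 20 10 (ε := 1 / 20) (by norm_num), ev_big 2 11 (ε := 1 / 2000) (by norm_num)] with
    N h1 h2 hsub hobs hlen hll hlogN h16 hb1 hb2 hN _ B hB E hE a c ha hc J hJ1 hJ2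
  have hlog : 1 ≤ log (N : ℝ) := by linarith
  have hlog0 : 0 < log (N : ℝ) := by linarith
  have hN0 := pos_of_log hlog
  have hz1 := zr_ge_one (N := N) hlog0.le
  have hz0 : 0 ≤ zr N := by linarith
  set β := a + c with hβ
  have hβ2 : |β| ≤ 2 := (abs_add_le a c).trans (by linarith)
  have hβ3 : |β| ≤ 3 := by linarith
  obtain ⟨s1, s2⟩ := h2 J hJ2
  set T1 : (ℕ → ℝ) → ℝ := fun lam => tj J (a * PP (Ss N) lam) with hT1
  set T2 : (ℕ → ℝ) → ℝ := fun lam => tj J (c * PP (Ss N) lam) with hT2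
  -- observables
  have o1 : Obs (Sb N) (zr N ^ J * 1) fun lam => tj J (c * PP (Ss N) lam) * 1 := by
    have hone : Obs (Sb N) 1 fun _ : ℕ → ℝ => (1 : ℝ) := by
      have := obs_P hsub hz1 0
      simpa using this
    exact obs_T hsub hz1 c zero_le_one hone J
  have o2 : Obs (Sb N) (zr N ^ J * (zr N ^ J * 1)) fun lam => T1 lam * (T2 lam * 1) :=
    obs_T hsub hz1 a (by positivity) o1 J
  have o3 : Obs (Sb N) (zr N ^ J * (zr N ^ J * Yb N)) fun lam => T1 lam * (T2 lam * S5 N lam) :=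
    obs_T hsub hz1 a (by positivity) (obs_T hsub hz1 c (Nat.cast_nonneg _) (obs_S5 N) J) J
  have l2 : zr N ^ J * (zr N ^ J * 1) ≤ (N : ℝ) ^ (1 / 8 : ℝ) := by
    rw [mul_one, ← pow_add, ← two_mul]; exact s1
  have l3 : zr N ^ J * (zr N ^ J * Yb N) ≤ (N : ℝ) ^ (1 - 1 / 8 : ℝ) := by
    rw [← mul_assoc, ← pow_add, ← two_mul]
    exact (hlen (2 * J) (by push_cast; linarith)).1
  -- sizes
  set M := (N : ℝ) ^ (1 / 40000 : ℝ) with hM
  have hM0 : 0 < M := by positivity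
  have b1 : ∀ x : Sb N → ℝ, |T1 (XX (Sb N) x)| ≤ M := fun x => (T_sup hsub hlog0.le ha J x).trans s2
  have b2 : ∀ x : Sb N → ℝ, |T2 (XX (Sb N) x)| ≤ M := fun x => (T_sup hsub hlog0.le hc J x).trans s2
  have b12 : ∀ x : Sb N → ℝ, (T1 (XX (Sb N) x) * T2 (XX (Sb N) x)) ^ 2 ≤ M ^ 4 := fun x => by
    have e : |T1 (XX (Sb N) x) * T2 (XX (Sb N) x)| ≤ M * M := by
      rw [abs_mul]; exact mul_le_mul (b1 x) (b2 x) (abs_nonneg _) hM0.le
    rw [← sq_abs]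
    calc |T1 (XX (Sb N) x) * T2 (XX (Sb N) x)| ^ 2 ≤ (M * M) ^ 2 := pow_le_pow_left₀ (abs_nonneg _) e 2
      _ = M ^ 4 := by ring
  have hP : CB fun x : Sb N → ℝ => PP (Ss N) (XX (Sb N) x) := CB.PP Sb_prime hsub
  have hT1C : CB fun x : Sb N → ℝ => T1 (XX (Sb N) x) := tj_CB J (hP.smul a)
  have hT2C : CB fun x : Sb N → ℝ => T2 (XX (Sb N) x) := tj_CB J (hP.smul c)
  have hSC : CB fun x : Sb N → ℝ => S5 N (XX (Sb N) x) := by
    unfold S5
    exact CB.sum _ fun n _ => CB.smul ⟨continuous_XX n, _, fun x => abs_XX_le x n⟩ _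
  -- the model
  obtain ⟨cc, hcc1, hcc2⟩ := o2.mono l2
  have hY : (N : ℝ) ^ (1 / 8 : ℝ) ≤ (Yb N : ℕ) := by
    have e1 : (N : ℝ) ^ (3 / 4 : ℝ) - 1 < (Yb N : ℕ) := Nat.sub_one_lt_floor _
    have e2 : (N : ℝ) ^ (3 / 4 : ℝ) ≥ (N : ℝ) ^ (1 / 8 : ℝ) * (N : ℝ) ^ (1 / 8 : ℝ) := by
      rw [← Real.rpow_add hN0]
      apply Real.rpow_le_rpow_of_exponent_le _ (by norm_num)
      by_contra hcon
      push Not at hcon
      have := Real.log_neg hN0 hcon
      linarith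
    have e3 : 2 ≤ (N : ℝ) ^ (1 / 8 : ℝ) := by
      have e4 : (N : ℝ) ^ (1 / 20 : ℝ) ≤ (N : ℝ) ^ (1 / 8 : ℝ) := by
        apply Real.rpow_le_rpow_of_exponent_le _ (by norm_num)
        by_contra hcon
        push Not at hcon
        have := Real.log_neg hN0 hcon
        linarith
      have e5 : (1 : ℝ) ≤ exp (10 * ll N) := Real.one_le_exp (by linarith)
      linarith
    nlinarith
  have f1 := EL_obs (S := Sb N) Sb_prime hcc1 hcc2
  have f2 := lin_obs (S := Sb N) Sb_prime hcc1 hcc2 (Yb N) hY (fun n hn => Sm_Icc hn) (fun n => tp n * V5 N n)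
  have f3 := integral_obs (S := Sb N) Sb_prime hcc1 hcc2
  have hF2 : ∑ n ∈ cc.support, cc n ^ 2 ≤ M ^ 4 := by
    rw [← f3]
    have hi : CB fun x : Sb N → ℝ => (T1 (XX (Sb N) x) * (T2 (XX (Sb N) x) * 1)) ^ 2 :=
      (hT1C.mul (hT2C.mul (CB.const 1))).pow 2
    calc ∫ x, (T1 (XX (Sb N) x) * (T2 (XX (Sb N) x) * 1)) ^ 2 ∂(mu (Sb N)) ≤ ∫ _x, M ^ 4 ∂(mu (Sb N)) :=
          integral_mono hi.int (integrable_const _) fun x => by rw [mul_one]; exact b12 x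
      _ = M ^ 4 := by rw [integral_const]; simp
  have h5 : (∑ n ∈ cc.support, cc n * (tp n * (1 - V5 N n))) ^ 2 ≤ M ^ 4 * (40 * (N : ℝ) ^ (-(3 / 8) : ℝ)) := by
    have g1 := Finset.sum_mul_sq_le_sq_mul_sq cc.support (fun n => cc n) (fun n => tp n * (1 - V5 N n))
    have g2 : ∑ n ∈ cc.support, (tp n * (1 - V5 N n)) ^ 2 ≤ 40 * (N : ℝ) ^ (-(3 / 8) : ℝ) := by
      have g3 : ∀ n ∈ cc.support, (tp n * (1 - V5 N n)) ^ 2 ≤ (2 * π * (N : ℝ) ^ (-(1 / 4) : ℝ)) ^ 2 := by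
        intro n hn
        have g4 := V5_ge hlog n
        have g5 := V5_le_one hlog n
        have g6 := (hcc1 n hn).2
        have g7 : 2 * π * (N : ℝ) ^ (-(3 / 8) : ℝ) * n ≤ 2 * π * (N : ℝ) ^ (-(1 / 4) : ℝ) := by
          have e4 : (N : ℝ) ^ (-(1 / 4) : ℝ) = (N : ℝ) ^ (-(3 / 8) : ℝ) * (N : ℝ) ^ (1 / 8 : ℝ) := by
            rw [← Real.rpow_add hN0]
            norm_num
          rw [e4, ← mul_assoc]
          exact mul_le_mul_of_nonneg_left g6 (by positivity)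
        have g8 : tp n * (1 - V5 N n) ≤ 1 * (2 * π * (N : ℝ) ^ (-(1 / 4) : ℝ)) :=
          mul_le_mul (tp_le_one (hcc1 n hn).1.1) (by linarith) (by linarith) zero_le_one
        rw [one_mul] at g8
        exact pow_le_pow_left₀ (mul_nonneg (tp_nonneg n) (by linarith)) g8 2
      refine (Finset.sum_le_card_nsmul _ _ _ g3).trans ?_
      rw [nsmul_eq_mul]
      have g4 : (cc.support.card : ℝ) ≤ (N : ℝ) ^ (1 / 8 : ℝ) := by
        have g5 : cc.support ⊆ Finset.Icc 1 ⌊(N : ℝ) ^ (1 / 8 : ℝ)⌋₊ := by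
          intro n hn
          rw [Finset.mem_Icc]
          exact ⟨(hcc1 n hn).1.1, Nat.le_floor (hcc1 n hn).2⟩
        have g6 := Finset.card_le_card g5
        rw [Nat.card_Icc, Nat.add_sub_cancel] at g6
        calc (cc.support.card : ℝ) ≤ (⌊(N : ℝ) ^ (1 / 8 : ℝ)⌋₊ : ℕ) := by exact_mod_cast g6
          _ ≤ _ := Nat.floor_le (by positivity)
      calc (cc.support.card : ℝ) * (2 * π * (N : ℝ) ^ (-(1 / 4) : ℝ)) ^ 2 ≤
          (N : ℝ) ^ (1 / 8 : ℝ) * (2 * π * (N : ℝ) ^ (-(1 / 4) : ℝ)) ^ 2 :=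
            mul_le_mul_of_nonneg_right g4 (sq_nonneg _)
        _ = (4 * π ^ 2) * (N : ℝ) ^ (-(3 / 8) : ℝ) := by
          have e4 : (N : ℝ) ^ (-(3 / 8) : ℝ) = (N : ℝ) ^ (1 / 8 : ℝ) * ((N : ℝ) ^ (-(1 / 4) : ℝ)) ^ 2 := by
            rw [← Real.rpow_natCast ((N : ℝ) ^ (-(1 / 4) : ℝ)) 2, ← Real.rpow_mul hN0.le,
              ← Real.rpow_add hN0]
            norm_num
          rw [e4]
          ring
        _ ≤ _ := by
          refine mul_le_mul_of_nonneg_right ?_ (by positivity)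
          have := Real.pi_lt_d2
          nlinarith [Real.pi_pos]
    refine g1.trans ?_
    exact mul_le_mul hF2 g2 (Finset.sum_nonneg fun _ _ => sq_nonneg _) (by positivity)
  -- the small quantities
  have hMp : ∀ t : ℝ, (N : ℝ) ^ t * M ^ 4 = (N : ℝ) ^ (t + 1 / 10000) := fun t => by
    rw [hM, ← Real.rpow_natCast ((N : ℝ) ^ (1 / 40000 : ℝ)) 4, ← Real.rpow_mul hN0.le, ← Real.rpow_add hN0]
    norm_num
  have hN1 : (1 : ℝ) ≤ N := by
    by_contra hcon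
    push Not at hcon
    have := Real.log_neg hN0 hcon
    linarith
  have h6 : |∑ n ∈ cc.support, cc n * (tp n * (1 - V5 N n))| ≤ exp (-10 * ll N) := by
    apply abs_le_of_sq_le_sq _ (exp_pos _).le
    refine h5.trans ?_
    have e1 : M ^ 4 * (40 * (N : ℝ) ^ (-(3 / 8) : ℝ)) = 40 * (N : ℝ) ^ (-(3 / 8) + 1 / 10000 : ℝ) := by
      rw [← hMp]; ring
    have e2 : (N : ℝ) ^ (-(3 / 8) + 1 / 10000 : ℝ) ≤ ((N : ℝ) ^ (1 / 20 : ℝ) * (N : ℝ) ^ (1 / 20 : ℝ))⁻¹ := by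
      rw [← Real.rpow_add hN0, ← Real.rpow_neg hN0.le]
      exact Real.rpow_le_rpow_of_exponent_le hN1 (by norm_num)
    have e3 : 0 < (N : ℝ) ^ (1 / 20 : ℝ) := by positivity
    have e4 : (20 * exp (10 * ll N)) * (20 * exp (10 * ll N)) ≤ (N : ℝ) ^ (1 / 20 : ℝ) * (N : ℝ) ^ (1 / 20 : ℝ) :=
      mul_le_mul hb1 hb1 (by positivity) e3.le
    have e5 : ((N : ℝ) ^ (1 / 20 : ℝ) * (N : ℝ) ^ (1 / 20 : ℝ))⁻¹ ≤ ((20 * exp (10 * ll N)) * (20 * exp (10 * ll N)))⁻¹ :=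
      inv_anti₀ (by positivity) e4
    have e6 : ((20 * exp (10 * ll N)) * (20 * exp (10 * ll N)))⁻¹ = 1 / 400 * exp (-10 * ll N) ^ 2 := by
      rw [show -10 * ll N = -(10 * ll N) by ring, Real.exp_neg]
      field_simp
      norm_num
    rw [e1]
    nlinarith [sq_nonneg (exp (-10 * ll N))]
  have m1 : ∫ x, EL (Sb N) x * (T1 (XX (Sb N) x) * T2 (XX (Sb N) x)) ∂(mu (Sb N)) - exp (-10 * ll N) ≤
      ∫ x, T1 (XX (Sb N) x) * (T2 (XX (Sb N) x) * S5 N (XX (Sb N) x)) ∂(mu (Sb N)) := by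
    have e1 : ∫ x, EL (Sb N) x * (T1 (XX (Sb N) x) * T2 (XX (Sb N) x)) ∂(mu (Sb N)) = ∑ n ∈ cc.support, cc n * tp n := by
      rw [← f1]
      exact integral_congr_ae (Eventually.of_forall fun x => by dsimp only; ring)
    have e2 : ∫ x, T1 (XX (Sb N) x) * (T2 (XX (Sb N) x) * S5 N (XX (Sb N) x)) ∂(mu (Sb N)) =
        ∑ n ∈ cc.support, cc n * (tp n * V5 N n) := by
      rw [← f2]
      refine integral_congr_ae (Eventually.of_forall fun x => ?_)
      show T1 (XX (Sb N) x) * (T2 (XX (Sb N) x) * S5 N (XX (Sb N) x)) =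
        T1 (XX (Sb N) x) * (T2 (XX (Sb N) x) * 1) * S5 N (XX (Sb N) x)
      ring
    have e3 : ∑ n ∈ cc.support, cc n * tp n - ∑ n ∈ cc.support, cc n * (tp n * V5 N n) =
        ∑ n ∈ cc.support, cc n * (tp n * (1 - V5 N n)) := by
      rw [← Finset.sum_sub_distrib]
      exact Finset.sum_congr rfl fun n _ => by ring
    rw [e1, e2]
    have := (abs_le.1 h6).2
    linarith
  -- the forms
  have hSb : ∀ p ∈ Sb N, ¬ p ∣ N := Sb_ndvd hN
  have m2 := hobs hN B hB E hE (Sb N) Sb_prime hSb _ _ o3 l3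
  have m3 : sqrt (∫ x, (T1 (XX (Sb N) x) * (T2 (XX (Sb N) x) * S5 N (XX (Sb N) x))) ^ 2 ∂(mu (Sb N))) ≤
      sqrt (M ^ 4 * (1 + log N)) := by
    apply Real.sqrt_le_sqrt
    have hi : CB fun x : Sb N → ℝ => (T1 (XX (Sb N) x) * (T2 (XX (Sb N) x) * S5 N (XX (Sb N) x))) ^ 2 :=
      (hT1C.mul (hT2C.mul hSC)).pow 2
    calc ∫ x, (T1 (XX (Sb N) x) * (T2 (XX (Sb N) x) * S5 N (XX (Sb N) x))) ^ 2 ∂(mu (Sb N)) ≤
          ∫ x, M ^ 4 * S5 N (XX (Sb N) x) ^ 2 ∂(mu (Sb N)) :=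
          integral_mono hi.int ((hSC.pow 2).smul _).int fun x => by
            have e : (T1 (XX (Sb N) x) * (T2 (XX (Sb N) x) * S5 N (XX (Sb N) x))) ^ 2 =
              (T1 (XX (Sb N) x) * T2 (XX (Sb N) x)) ^ 2 * S5 N (XX (Sb N) x) ^ 2 := by ring
            dsimp only
            rw [e]
            exact mul_le_mul_of_nonneg_right (b12 x) (sq_nonneg _)
      _ = M ^ 4 * ∫ x, S5 N (XX (Sb N) x) ^ 2 ∂(mu (Sb N)) := integral_const_mul _ _
      _ ≤ M ^ 4 * (1 + log N) := mul_le_mul_of_nonneg_left (S5_sq hlog) (by positivity)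
  have m4 : (N : ℝ) ^ (-(1 / 1000) : ℝ) * sqrt (M ^ 4 * (1 + log N)) ≤ exp (-10 * ll N) := by
    have e1 : sqrt (M ^ 4 * (1 + log N)) ≤ M ^ 2 * (2 * exp (ll N)) := by
      rw [Real.sqrt_le_left (by positivity), exp_ll hlog0]
      have e2 : 1 + log (N : ℝ) ≤ (2 * log N) ^ 2 := by nlinarith
      calc M ^ 4 * (1 + log N) ≤ M ^ 4 * (2 * log N) ^ 2 := mul_le_mul_of_nonneg_left e2 (by positivity)
        _ = (M ^ 2 * (2 * log N)) ^ 2 := by ring
    have e3 : (N : ℝ) ^ (-(1 / 1000) : ℝ) * M ^ 2 = (N : ℝ) ^ (-(1 / 1000) + 1 / 20000 : ℝ) := by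
      rw [hM, ← Real.rpow_natCast ((N : ℝ) ^ (1 / 40000 : ℝ)) 2, ← Real.rpow_mul hN0.le, ← Real.rpow_add hN0]
      norm_num
    have e4 : (N : ℝ) ^ (-(1 / 1000) + 1 / 20000 : ℝ) ≤ (N : ℝ) ^ (-(1 / 2000) : ℝ) :=
      Real.rpow_le_rpow_of_exponent_le hN1 (by norm_num)
    have e5 : (N : ℝ) ^ (-(1 / 2000) : ℝ) ≤ (2 * exp (11 * ll N))⁻¹ := by
      rw [Real.rpow_neg hN0.le]
      exact inv_anti₀ (by positivity) hb2
    have e6 : (2 * exp (11 * ll N))⁻¹ * (2 * exp (ll N)) = exp (-10 * ll N) := by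
      rw [show -10 * ll N = -(11 * ll N) + ll N by ring, Real.exp_add, Real.exp_neg]
      field_simp
    calc (N : ℝ) ^ (-(1 / 1000) : ℝ) * sqrt (M ^ 4 * (1 + log N)) ≤
          (N : ℝ) ^ (-(1 / 1000) : ℝ) * (M ^ 2 * (2 * exp (ll N))) := mul_le_mul_of_nonneg_left e1 (by positivity)
      _ = ((N : ℝ) ^ (-(1 / 1000) : ℝ) * M ^ 2) * (2 * exp (ll N)) := by ring
      _ ≤ (2 * exp (11 * ll N))⁻¹ * (2 * exp (ll N)) := by
        refine mul_le_mul_of_nonneg_right ?_ (by positivity)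
        rw [e3]
        exact e4.trans e5
      _ = _ := e6
  have m5 := ELt_low (R := 20 * ll N) hsub ha hc (by linarith : 4 * (20 * ll N) ≤ J)
  have m6 := h1 β hβ3
  have m7 := h1 3 (by norm_num)
  have m8 := h1 (-3) (by norm_num)
  have hX : exp (-ll N) ≤ exp ((β + β ^ 2 / 2 - ε') * ll N) := by
    apply exp_le_exp.2
    nlinarith [sq_nonneg (β + 1)]
  have k1 : 2 * exp (-(20 * ll N)) * (EB N 3 + EB N (-3)) ≤ 4 * exp (-10 * ll N) := by
    have e1 : 2 * exp (-(20 * ll N)) * (EB N 3 + EB N (-3)) ≤ 2 * exp (-(20 * ll N)) * (2 * exp (9 * ll N)) :=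
      mul_le_mul_of_nonneg_left (by linarith [m7.2, m8.2]) (by positivity)
    refine e1.trans ?_
    have e2 : 2 * exp (-(20 * ll N)) * (2 * exp (9 * ll N)) = 4 * exp (-11 * ll N) := by
      have : exp (-11 * ll N) = exp (-(20 * ll N)) * exp (9 * ll N) := by
        rw [← Real.exp_add]; congr 1; ring
      rw [this]; ring
    rw [e2]
    exact mul_le_mul_of_nonneg_left (exp_le_exp.2 (by linarith)) (by norm_num)
  have k2 : 96 * exp (-10 * ll N) ≤ exp ((β + β ^ 2 / 2 - ε') * ll N) := by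
    refine le_trans ?_ hX
    have e1 : exp (-ll N) = exp (-10 * ll N) * exp (9 * ll N) := by
      rw [← Real.exp_add]; congr 1; ring
    rw [e1, mul_comm]
    refine mul_le_mul_of_nonneg_left ?_ (exp_pos _).le
    have := add_one_le_exp (9 * ll N)
    linarith
  have k3 : exp ((β + β ^ 2 / 2 - ε) * ll N) ≤ exp ((β + β ^ 2 / 2 - ε') * ll N) / 16 := by
    rw [le_div_iff₀ (by norm_num : (0 : ℝ) < 16)]
    have e1 : (16 : ℝ) ≤ exp (ε / 2 * ll N) := by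
      have := add_one_le_exp (ε / 2 * ll N)
      linarith
    calc exp ((β + β ^ 2 / 2 - ε) * ll N) * 16 ≤ exp ((β + β ^ 2 / 2 - ε) * ll N) * exp (ε / 2 * ll N) :=
          mul_le_mul_of_nonneg_left e1 (exp_pos _).le
      _ ≤ _ := by
        rw [← Real.exp_add]
        apply exp_le_exp.2
        nlinarith
  have m2' := (abs_le.1 m2).1
  have m9 : (N : ℝ) ^ (-(1 / 1000) : ℝ) *
      sqrt (∫ x, (T1 (XX (Sb N) x) * (T2 (XX (Sb N) x) * S5 N (XX (Sb N) x))) ^ 2 ∂(mu (Sb N))) ≤ exp (-10 * ll N) :=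
    (mul_le_mul_of_nonneg_left m3 (by positivity)).trans m4
  have hP10 := exp_pos (-10 * ll N)
  refine k3.trans ?_
  have key : exp ((β + β ^ 2 / 2 - ε') * ll N) / 8 - 4 * exp (-10 * ll N) ≤
      ∑ f ∈ E, om f * (T1 (W388.lamf f) * (T2 (W388.lamf f) * S5 N (W388.lamf f))) := by
    have m5' : EB N β / 4 - 2 * exp (-(20 * ll N)) * (EB N 3 + EB N (-3)) ≤
        ∫ x, EL (Sb N) x * (T1 (XX (Sb N) x) * T2 (XX (Sb N) x)) ∂(mu (Sb N)) := m5
    linarith [m6.1]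
  refine le_trans ?_ key
  linarith

end Pool.Agent.H485.CC
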