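import Pool.Agent.H485.CC.Ld2

/-!
# Large deviations: the abstract deduction of the lower bound
-/

set_option autoImplicit false
set_option maxHeartbeats 4000000

open MeasureTheory Real Finset Filter

namespace Pool.Agent.H485.CC

lemma tj_le {J : ℕ} {y R : ℝ} (hy : |y| ≤ R) (hJ : 4 * R ≤ J) : tj J y ≤ 3 / 2 * exp y := by
  have h1 := (abs_le.1 (tj_err J y)).2
  have h2 : exp (-((J : ℝ) + 1)) * exp (exp 1 * |y|) ≤ exp y / 2 := by
    rw [← Real.exp_add]
    have h3 : exp 1 ≤ 2.72 := by have := Real.exp_one_lt_d9; linarith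
    have h4 : exp (-((J : ℝ) + 1) + exp 1 * |y|) ≤ exp (y - 1) := by
      apply exp_le_exp.2
      have := abs_nonneg y
      have := neg_abs_le y
      nlinarith
    refine h4.trans ?_
    rw [Real.exp_sub]
    have h5 : 2 ≤ exp 1 := by have := Real.exp_one_gt_d9; linarith
    exact div_le_div_of_nonneg_left (exp_pos _).le (by norm_num) h5
  linarith

/-- the abstract deduction -/
lemma ldp_abs {ι : Type} (E : Finset ι) (w P S t1 t2 tp tm : ι → ℝ) (hw : ∀ i ∈ E, 0 ≤ w i)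
    {v δ ε L R : ℝ} (hv0 : 0 < v) (hv2 : v < 2) (hδ : 0 < δ) (hδ1 : δ ≤ 1) (hε0 : 0 < ε)
    (hε : ε ≤ δ ^ 2 / 16) (hL : 1 ≤ L) (hbig : 1000 ≤ exp (ε * L))
    (h1 : ∀ i ∈ E, |P i| ≤ R → exp ((v - 2) / 2 * P i) / 2 ≤ t1 i ∧ t1 i ≤ 3 / 2 * exp ((v - 2) / 2 * P i))
    (h2 : ∀ i ∈ E, |P i| ≤ R → exp (v / 2 * P i) / 2 ≤ t2 i ∧ t2 i ≤ 3 / 2 * exp (v / 2 * P i))
    (hp : ∀ i ∈ E, |P i| ≤ R → exp ((v + δ) / 2 * P i) / 2 ≤ tp i)
    (hm : ∀ i ∈ E, |P i| ≤ R → exp ((v - δ) / 2 * P i) / 2 ≤ tm i)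
    (hU : ∑ i ∈ E, w i * (t1 i * S i) ^ 2 ≤ exp ((v ^ 2 / 2 - 1 + ε) * L))
    (hV : ∑ i ∈ E, w i * t2 i ^ 2 ≤ exp ((v ^ 2 / 2 + ε) * L))
    (hVp : ∑ i ∈ E, w i * tp i ^ 2 ≤ exp (((v + δ) ^ 2 / 2 + ε) * L))
    (hVm : ∑ i ∈ E, w i * tm i ^ 2 ≤ exp (((v - δ) ^ 2 / 2 + ε) * L))
    (hB : ∑ i ∈ E with R < |P i|, w i * t2 i ^ 2 ≤ exp (-L))
    (hM : exp ((v ^ 2 / 2 - 1 / 2 - ε) * L) ≤ ∑ i ∈ E, w i * (t1 i * (t2 i * S i))) :
    exp ((-(v ^ 2 / 2) - 3 * δ) * L) ≤ ∑ i ∈ E with exp ((v - 1 / 2 - 5 * δ) * L) < S i, w i := by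
  have hL0 : 0 < L := by linarith
  have hδ2 : δ ^ 2 ≤ δ := by nlinarith
  have hεδ : ε ≤ δ / 16 := by linarith
  set s0 : ℝ := exp ((v - 1 / 2 - 5 * δ) * L) with hs0
  have hs00 : 0 < s0 := exp_pos _
  have sqe : ∀ x : ℝ, exp (x / 2) ^ 2 = exp x := fun x => by
    rw [← Real.exp_nat_mul]; congr 1; push_cast; ring
  -- constants
  have hcon : ∀ (k : ℝ) (x y : ℝ), k ≤ 1000 → x + ε ≤ y → k * exp (x * L) ≤ exp (y * L) := by
    intro k x y hk hxy
    calc k * exp (x * L) ≤ exp (ε * L) * exp (x * L) :=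
          mul_le_mul_of_nonneg_right (hk.trans hbig) (exp_pos _).le
      _ = exp ((x + ε) * L) := by rw [← Real.exp_add]; congr 1; ring
      _ ≤ _ := exp_le_exp.2 (mul_le_mul_of_nonneg_right hxy hL0.le)
  -- pointwise bounds
  have p2u : ∀ i ∈ E, |P i| ≤ R → t2 i ^ 2 ≤ 9 / 4 * exp (v * P i) := by
    intro i hi hPi
    obtain ⟨a1, a2⟩ := h2 i hi hPi
    have a3 : 0 ≤ t2 i := le_trans (by positivity) a1
    calc t2 i ^ 2 ≤ (3 / 2 * exp (v / 2 * P i)) ^ 2 := pow_le_pow_left₀ a3 a2 2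
      _ = 9 / 4 * exp (v / 2 * P i) ^ 2 := by ring
      _ = _ := by rw [show v / 2 * P i = (v * P i) / 2 by ring, sqe]
  have p2l : ∀ i ∈ E, |P i| ≤ R → exp (v * P i) / 4 ≤ t2 i ^ 2 := by
    intro i hi hPi
    obtain ⟨a1, a2⟩ := h2 i hi hPi
    calc exp (v * P i) / 4 = (exp (v / 2 * P i) / 2) ^ 2 := by
          rw [div_pow, show v / 2 * P i = (v * P i) / 2 by ring, sqe]; norm_num
      _ ≤ _ := pow_le_pow_left₀ (by positivity) a1 2
  have ppl : ∀ i ∈ E, |P i| ≤ R → exp ((v + δ) * P i) / 4 ≤ tp i ^ 2 := by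
    intro i hi hPi
    calc exp ((v + δ) * P i) / 4 = (exp ((v + δ) / 2 * P i) / 2) ^ 2 := by
          rw [div_pow, show (v + δ) / 2 * P i = ((v + δ) * P i) / 2 by ring, sqe]; norm_num
      _ ≤ _ := pow_le_pow_left₀ (by positivity) (hp i hi hPi) 2
  have pml : ∀ i ∈ E, |P i| ≤ R → exp ((v - δ) * P i) / 4 ≤ tm i ^ 2 := by
    intro i hi hPi
    calc exp ((v - δ) * P i) / 4 = (exp ((v - δ) / 2 * P i) / 2) ^ 2 := by
          rw [div_pow, show (v - δ) / 2 * P i = ((v - δ) * P i) / 2 by ring, sqe]; norm_num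
      _ ≤ _ := pow_le_pow_left₀ (by positivity) (hm i hi hPi) 2
  -- the good set
  let G : ι → Prop := fun i => |P i| ≤ R ∧ (v - δ) * L ≤ P i ∧ P i ≤ (v + δ) * L
  have hOut : ∑ i ∈ E with ¬ G i, w i * t2 i ^ 2 ≤ 19 * exp (((v ^ 2 - δ ^ 2) / 2 + ε) * L) := by
    have k1 : ∑ i ∈ E with ¬ G i, w i * t2 i ^ 2 ≤ ∑ i ∈ E with R < |P i|, w i * t2 i ^ 2 +
        9 * exp (-(δ * (v + δ)) * L) * ∑ i ∈ E, w i * tp i ^ 2 +
        9 * exp ((δ * (v - δ)) * L) * ∑ i ∈ E, w i * tm i ^ 2 := by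
      rw [Finset.sum_filter, Finset.sum_filter, Finset.mul_sum, Finset.mul_sum, ← Finset.sum_add_distrib,
        ← Finset.sum_add_distrib]
      refine Finset.sum_le_sum fun i hi => ?_
      have w0 := hw i hi
      have q1 : 0 ≤ 9 * exp (-(δ * (v + δ)) * L) * (w i * tp i ^ 2) := by positivity
      have q2 : 0 ≤ 9 * exp ((δ * (v - δ)) * L) * (w i * tm i ^ 2) := by positivity
      have q3 : 0 ≤ w i * t2 i ^ 2 := by positivity
      by_cases hG : G i
      · rw [if_neg (not_not.2 hG)]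
        split_ifs <;> linarith
      · rw [if_pos hG]
        by_cases hR : R < |P i|
        · rw [if_pos hR]; linarith
        · rw [if_neg hR]
          push Not at hR
          have hcase : P i < (v - δ) * L ∨ (v + δ) * L < P i := by
            by_contra hcon'
            push Not at hcon'
            exact hG ⟨hR, hcon'.1, hcon'.2⟩
          have u2 := p2u i hi hR
          rcases hcase with hc | hc
          · have e1 : 9 / 4 * exp (v * P i) ≤ 9 * exp ((δ * (v - δ)) * L) * tm i ^ 2 := by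
              have e2 : exp (v * P i) = exp ((v - δ) * P i) * exp (δ * P i) := by
                rw [← Real.exp_add]; congr 1; ring
              have e3 : exp (δ * P i) ≤ exp ((δ * (v - δ)) * L) := by
                apply exp_le_exp.2
                nlinarith
              have e4 := pml i hi hR
              have e5 : exp ((v - δ) * P i) * exp (δ * P i) ≤ (4 * tm i ^ 2) * exp ((δ * (v - δ)) * L) :=
                mul_le_mul (by linarith) e3 (exp_pos _).le (by positivity)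
              rw [e2]
              linarith
            have := mul_le_mul_of_nonneg_left (u2.trans e1) w0
            linarith
          · have e1 : 9 / 4 * exp (v * P i) ≤ 9 * exp (-(δ * (v + δ)) * L) * tp i ^ 2 := by
              have e2 : exp (v * P i) = exp ((v + δ) * P i) * exp (-(δ * P i)) := by
                rw [← Real.exp_add]; congr 1; ring
              have e3 : exp (-(δ * P i)) ≤ exp (-(δ * (v + δ)) * L) := by
                apply exp_le_exp.2
                nlinarith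
              have e4 := ppl i hi hR
              have e5 : exp ((v + δ) * P i) * exp (-(δ * P i)) ≤ (4 * tp i ^ 2) * exp (-(δ * (v + δ)) * L) :=
                mul_le_mul (by linarith) e3 (exp_pos _).le (by positivity)
              rw [e2]
              linarith
            have := mul_le_mul_of_nonneg_left (u2.trans e1) w0
            linarith
    have k2 : 9 * exp (-(δ * (v + δ)) * L) * ∑ i ∈ E, w i * tp i ^ 2 ≤ 9 * exp (((v ^ 2 - δ ^ 2) / 2 + ε) * L) := by
      calc 9 * exp (-(δ * (v + δ)) * L) * ∑ i ∈ E, w i * tp i ^ 2 ≤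
            9 * exp (-(δ * (v + δ)) * L) * exp (((v + δ) ^ 2 / 2 + ε) * L) :=
            mul_le_mul_of_nonneg_left hVp (by positivity)
        _ = _ := by rw [mul_assoc, ← Real.exp_add]; congr 2; ring
    have k3 : 9 * exp ((δ * (v - δ)) * L) * ∑ i ∈ E, w i * tm i ^ 2 ≤ 9 * exp (((v ^ 2 - δ ^ 2) / 2 + ε) * L) := by
      calc 9 * exp ((δ * (v - δ)) * L) * ∑ i ∈ E, w i * tm i ^ 2 ≤
            9 * exp ((δ * (v - δ)) * L) * exp (((v - δ) ^ 2 / 2 + ε) * L) :=
            mul_le_mul_of_nonneg_left hVm (by positivity)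
        _ = _ := by rw [mul_assoc, ← Real.exp_add]; congr 2; ring
    have k4 : exp (-L) ≤ exp (((v ^ 2 - δ ^ 2) / 2 + ε) * L) := by
      apply exp_le_exp.2
      have : -1 ≤ (v ^ 2 - δ ^ 2) / 2 + ε := by nlinarith [sq_nonneg v]
      nlinarith
    linarith
  set M0 : ℝ := exp ((v ^ 2 / 2 - 1 / 2 - ε) * L) with hM0
  have hM00 : 0 < M0 := exp_pos _
  have hM0s : M0 ^ 2 = exp ((v ^ 2 - 1 - 2 * ε) * L) := by
    rw [hM0, ← Real.exp_nat_mul]; congr 1; push_cast; ring
  have hUs : ∀ s : Finset ι, s ⊆ E → ∑ i ∈ s, w i * (t1 i * S i) ^ 2 ≤ exp ((v ^ 2 / 2 - 1 + ε) * L) := fun s hs =>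
    (Finset.sum_le_sum_of_subset_of_nonneg hs fun i hi _ => mul_nonneg (hw i hi) (sq_nonneg _)).trans hU
  -- outside
  have hb : ∑ i ∈ E with ¬ G i, w i * (t1 i * S i * t2 i) ≤ M0 / 4 := by
    have k1 := csw (E.filter fun i => ¬ G i) w (fun i => t1 i * S i) t2 (fun i hi => hw i (Finset.mem_filter.1 hi).1)
      (hUs _ (Finset.filter_subset _ _)) hOut
    have k2 : exp ((v ^ 2 / 2 - 1 + ε) * L) * (19 * exp (((v ^ 2 - δ ^ 2) / 2 + ε) * L)) ≤ (M0 / 4) ^ 2 := by
      have e1 : exp ((v ^ 2 / 2 - 1 + ε) * L) * (19 * exp (((v ^ 2 - δ ^ 2) / 2 + ε) * L)) =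
          19 * exp ((v ^ 2 - 1 - δ ^ 2 / 2 + 2 * ε) * L) := by
        rw [mul_left_comm, ← Real.exp_add]; congr 2; ring
      have e2 := hcon 304 (v ^ 2 - 1 - δ ^ 2 / 2 + 2 * ε) (v ^ 2 - 1 - 2 * ε) (by norm_num) (by linarith)
      rw [e1, div_pow, hM0s]
      linarith
    exact le_of_abs_le (abs_le_of_sq_le_sq (k1.trans k2) (by positivity))
  -- the mass of the good set
  have hmass : ∑ i ∈ E with G i, w i ≤ 4 * exp ((-(v ^ 2 / 2) + v * δ + ε) * L) := by
    have k1 : ∑ i ∈ E with G i, w i ≤ ∑ i ∈ E, (4 * exp (-(v * (v - δ)) * L)) * (w i * t2 i ^ 2) := by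
      rw [Finset.sum_filter]
      refine Finset.sum_le_sum fun i hi => ?_
      have w0 := hw i hi
      split_ifs with hG
      · obtain ⟨g1, g2, g3⟩ := hG
        have e1 : 1 ≤ (4 * exp (-(v * (v - δ)) * L)) * t2 i ^ 2 := by
          have e2 : exp (v * (v - δ) * L) ≤ exp (v * P i) := by
            apply exp_le_exp.2
            nlinarith
          have e3 := p2l i hi g1
          have e4 : exp (-(v * (v - δ)) * L) * exp (v * (v - δ) * L) = 1 := by
            rw [← Real.exp_add, show -(v * (v - δ)) * L + v * (v - δ) * L = 0 by ring, Real.exp_zero]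
          have e5 : exp (-(v * (v - δ)) * L) * exp (v * (v - δ) * L) ≤ exp (-(v * (v - δ)) * L) * (4 * t2 i ^ 2) :=
            mul_le_mul_of_nonneg_left (by linarith) (exp_pos _).le
          linarith
        have := mul_le_mul_of_nonneg_left e1 w0
        linarith
      · positivity
    rw [← Finset.mul_sum] at k1
    refine k1.trans ?_
    calc 4 * exp (-(v * (v - δ)) * L) * ∑ i ∈ E, w i * t2 i ^ 2 ≤
          4 * exp (-(v * (v - δ)) * L) * exp ((v ^ 2 / 2 + ε) * L) :=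
          mul_le_mul_of_nonneg_left hV (by positivity)
      _ = _ := by rw [mul_assoc, ← Real.exp_add]; congr 2; ring
  -- small values
  have hd : ∑ i ∈ E with (G i ∧ ¬ s0 < S i), w i * (t1 i * S i * t2 i) ≤ M0 / 4 := by
    have k1 : ∑ i ∈ E with (G i ∧ ¬ s0 < S i), w i * (t1 i * S i * t2 i) ≤
        ∑ i ∈ E with G i, w i * (9 / 4 * exp (((v - 1) * v + δ) * L) * s0) := by
      rw [Finset.sum_filter, Finset.sum_filter]
      refine Finset.sum_le_sum fun i hi => ?_
      have w0 := hw i hi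
      by_cases hG : G i
      · rw [if_pos hG]
        split_ifs with hS
        · obtain ⟨g1, g2, g3⟩ := hG
          obtain ⟨a1, a2⟩ := h1 i hi g1
          obtain ⟨b1, b2⟩ := h2 i hi g1
          have a0 : 0 ≤ t1 i := le_trans (by positivity) a1
          have b0 : 0 ≤ t2 i := le_trans (by positivity) b1
          refine mul_le_mul_of_nonneg_left ?_ w0
          have e1 : t1 i * t2 i ≤ 9 / 4 * exp (((v - 1) * v + δ) * L) := by
            have e2 : t1 i * t2 i ≤ (3 / 2 * exp ((v - 2) / 2 * P i)) * (3 / 2 * exp (v / 2 * P i)) :=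
              mul_le_mul a2 b2 b0 (by positivity)
            have e3 : (3 / 2 * exp ((v - 2) / 2 * P i)) * (3 / 2 * exp (v / 2 * P i)) = 9 / 4 * exp ((v - 1) * P i) := by
              have : exp ((v - 1) * P i) = exp ((v - 2) / 2 * P i) * exp (v / 2 * P i) := by
                rw [← Real.exp_add]; congr 1; ring
              rw [this]; ring
            rw [e3] at e2
            refine e2.trans (mul_le_mul_of_nonneg_left (exp_le_exp.2 ?_) (by norm_num))
            have hx1 : |P i - v * L| ≤ δ * L := by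
              rw [abs_le]; constructor <;> linarith
            have hx2 : |v - 1| ≤ 1 := by
              rw [abs_le]; constructor <;> linarith
            have hx3 : (v - 1) * (P i - v * L) ≤ 1 * (δ * L) := by
              refine (le_abs_self _).trans ?_
              rw [abs_mul]
              exact mul_le_mul hx2 hx1 (abs_nonneg _) zero_le_one
            linarith
          push Not at hS
          calc t1 i * S i * t2 i = (t1 i * t2 i) * S i := by ring
            _ ≤ (t1 i * t2 i) * s0 := mul_le_mul_of_nonneg_left hS.2 (mul_nonneg a0 b0)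
            _ ≤ _ := mul_le_mul_of_nonneg_right e1 hs00.le
        · positivity
      · rw [if_neg hG, if_neg (fun h => hG h.1)]
    rw [← Finset.sum_mul] at k1
    refine k1.trans ?_
    calc (∑ i ∈ E with G i, w i) * (9 / 4 * exp (((v - 1) * v + δ) * L) * s0) ≤
          (4 * exp ((-(v ^ 2 / 2) + v * δ + ε) * L)) * (9 / 4 * exp (((v - 1) * v + δ) * L) * s0) :=
          mul_le_mul_of_nonneg_right hmass (by positivity)
      _ = 9 * exp ((v ^ 2 / 2 - 1 / 2 - 4 * δ + v * δ + ε) * L) := by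
          have : exp ((v ^ 2 / 2 - 1 / 2 - 4 * δ + v * δ + ε) * L) =
              exp ((-(v ^ 2 / 2) + v * δ + ε) * L) * exp (((v - 1) * v + δ) * L) * s0 := by
            rw [hs0, ← Real.exp_add, ← Real.exp_add]; congr 1; ring
          rw [this]; ring
      _ ≤ M0 / 4 := by
          have := hcon 36 (v ^ 2 / 2 - 1 / 2 - 4 * δ + v * δ + ε) (v ^ 2 / 2 - 1 / 2 - ε) (by norm_num) (by nlinarith)
          linarith
  -- splitting
  have hsplit : ∑ i ∈ E, w i * (t1 i * (t2 i * S i)) = ∑ i ∈ E with ¬ G i, w i * (t1 i * S i * t2 i) +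
      ∑ i ∈ E with (G i ∧ ¬ s0 < S i), w i * (t1 i * S i * t2 i) +
      ∑ i ∈ E with (G i ∧ s0 < S i), w i * (t1 i * S i * t2 i) := by
    rw [Finset.sum_filter, Finset.sum_filter, Finset.sum_filter, ← Finset.sum_add_distrib, ← Finset.sum_add_distrib]
    refine Finset.sum_congr rfl fun i _ => ?_
    have e : w i * (t1 i * (t2 i * S i)) = w i * (t1 i * S i * t2 i) := by ring
    rw [e]
    by_cases hG : G i
    · by_cases hS : s0 < S i
      · simp [hG, hS]
      · simp [hG, hS]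
    · simp [hG]
  have hlow : M0 / 2 ≤ ∑ i ∈ E with (G i ∧ s0 < S i), w i * (t1 i * S i * t2 i) := by
    rw [hsplit] at hM
    linarith
  set W := ∑ i ∈ E with (G i ∧ s0 < S i), w i with hW
  have hW2 : ∑ i ∈ E with (G i ∧ s0 < S i), w i * t2 i ^ 2 ≤ 9 / 4 * exp ((v ^ 2 + v * δ) * L) * W := by
    rw [hW, Finset.mul_sum]
    refine Finset.sum_le_sum fun i hi => ?_
    obtain ⟨hi1, ⟨g1, g2, g3⟩, -⟩ := Finset.mem_filter.1 hi
    have w0 := hw i hi1
    have e1 := p2u i hi1 g1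
    have e2 : exp (v * P i) ≤ exp ((v ^ 2 + v * δ) * L) := by
      apply exp_le_exp.2
      nlinarith
    have e3 : t2 i ^ 2 ≤ 9 / 4 * exp ((v ^ 2 + v * δ) * L) := e1.trans (by linarith)
    have := mul_le_mul_of_nonneg_left e3 w0
    linarith
  have hcs := csw (E.filter fun i => G i ∧ s0 < S i) w (fun i => t1 i * S i) t2
    (fun i hi => hw i (Finset.mem_filter.1 hi).1) (hUs _ (Finset.filter_subset _ _)) hW2
  have hsq : (M0 / 2) ^ 2 ≤ exp ((v ^ 2 / 2 - 1 + ε) * L) * (9 / 4 * exp ((v ^ 2 + v * δ) * L) * W) :=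
    (pow_le_pow_left₀ (by positivity) hlow 2).trans hcs
  have hfin : exp ((-(v ^ 2 / 2) - 3 * δ) * L) ≤ W := by
    set Q : ℝ := exp ((v ^ 2 / 2 - 1 + ε) * L) * exp ((v ^ 2 + v * δ) * L) with hQ
    have hQ0 : 0 < Q := by positivity
    have e1 : Q * exp ((-(v ^ 2 / 2) - 3 * δ) * L) = exp ((v ^ 2 - 1 + ε + v * δ - 3 * δ) * L) := by
      rw [hQ, ← Real.exp_add, ← Real.exp_add]; congr 1; ring
    have e2 := hcon 9 (v ^ 2 - 1 + ε + v * δ - 3 * δ) (v ^ 2 - 1 - 2 * ε) (by norm_num) (by nlinarith)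
    have e3 : exp ((v ^ 2 - 1 - 2 * ε) * L) ≤ 9 * (Q * W) := by
      rw [← hM0s]
      have : exp ((v ^ 2 / 2 - 1 + ε) * L) * (9 / 4 * exp ((v ^ 2 + v * δ) * L) * W) = 9 / 4 * (Q * W) := by
        rw [hQ]; ring
      rw [this] at hsq
      linarith
    have e4 : Q * exp ((-(v ^ 2 / 2) - 3 * δ) * L) ≤ Q * W := by
      rw [e1]
      linarith
    exact le_of_mul_le_mul_left e4 hQ0
  refine hfin.trans ?_
  rw [hW]
  refine Finset.sum_le_sum_of_subset_of_nonneg ?_ fun i hi _ => hw i (Finset.mem_filter.1 hi).1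
  intro i hi
  rw [Finset.mem_filter] at hi ⊢
  exact ⟨hi.1, hi.2.2⟩

end Pool.Agent.H485.CC
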