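import Pool.Agent.H485.CC.Ld3

/-!
# Large deviations: the harmonic lower bound
-/

set_option autoImplicit false
set_option maxHeartbeats 4000000

open MeasureTheory Real Finset Filter

namespace Pool.Agent.H485.CC

open W388.LV (SF om IsNewSet)

lemma pt_tail (J i : ℕ) {c : ℝ} (hc : |c| ≤ 1) (P : ℝ) :
    (tj J (c * P) * P ^ i) ^ 2 ≤ ((2 * i).factorial : ℝ) / 4 ^ (2 * i) * (exp (6 * P) + exp (-6 * P)) := by
  have h1 : tj J (c * P) ^ 2 ≤ exp (2 * |P|) := by
    have h2 : |tj J (c * P)| ≤ exp |P| := by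
      refine (tj_abs J _).trans (exp_le_exp.2 ?_)
      rw [abs_mul]
      exact mul_le_of_le_one_left (abs_nonneg _) hc
    calc tj J (c * P) ^ 2 = |tj J (c * P)| ^ 2 := (sq_abs _).symm
      _ ≤ exp |P| ^ 2 := pow_le_pow_left₀ (abs_nonneg _) h2 2
      _ = _ := by rw [← Real.exp_nat_mul]; push_cast; ring_nf
  have h3 : |P| ^ (2 * i) ≤ ((2 * i).factorial : ℝ) / 4 ^ (2 * i) * exp (4 * |P|) := by
    have h4 := Real.pow_div_factorial_le_exp (4 * |P|) (by positivity) (2 * i)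
    rw [div_le_iff₀ (by positivity), mul_pow] at h4
    rw [div_mul_eq_mul_div, le_div_iff₀ (by positivity)]
    linarith
  have h5 : exp (6 * |P|) ≤ exp (6 * P) + exp (-6 * P) := by
    rcases abs_cases P with ⟨h, _⟩ | ⟨h, _⟩
    · rw [h]; linarith [exp_pos (-6 * P)]
    · rw [h, show 6 * -P = -6 * P by ring]; linarith [exp_pos (6 * P)]
  calc (tj J (c * P) * P ^ i) ^ 2 = |P| ^ (2 * i) * tj J (c * P) ^ 2 := by
        rw [mul_pow, ← pow_mul, mul_comm i 2, pow_mul, pow_mul, sq_abs]; ring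
    _ ≤ (((2 * i).factorial : ℝ) / 4 ^ (2 * i) * exp (4 * |P|)) * exp (2 * |P|) :=
        mul_le_mul h3 h1 (sq_nonneg _) (by positivity)
    _ = ((2 * i).factorial : ℝ) / 4 ^ (2 * i) * exp (6 * |P|) := by
        have : exp (6 * |P|) = exp (4 * |P|) * exp (2 * |P|) := by rw [← Real.exp_add]; congr 1; ring
        rw [this]; ring
    _ ≤ _ := mul_le_mul_of_nonneg_left h5 (by positivity)

theorem tail_T : ∀ᶠ N : ℕ in atTop, N.Prime → ∀ [NeZero N] (B : Finset (SF N 2)), IsNewSet N 2 B →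
    ∀ c : ℝ, |c| ≤ 1 → ∀ J : ℕ, (J : ℝ) ≤ 100 * ll N →
    ∑ f ∈ B with 20 * ll N < |PP (Ss N) (W388.lamf f)|, om f * tj J (c * PP (Ss N) (W388.lamf f)) ^ 2 ≤
      exp (-ll N) := by
  obtain ⟨N0, hN0⟩ := ls_obs 2 le_rfl 1 (1 / 8) one_pos (by norm_num) (by norm_num)
  filter_upwards [eventually_ge_atTop N0, ev_NN, ev_sub, ev_len 200, ev_log 1, ev_ll 4] with
    N h0 h3 hsub h4 h5 hll hp _ B hB c hc J hJ
  have hz : 1 ≤ zr N := zr_ge_one (by linarith)
  have hll0 : 0 < ll N := by linarith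
  set i : ℕ := ⌈12 * ll N⌉₊ with hi
  have hi1 : 12 * ll N ≤ i := Nat.le_ceil _
  have hi2 : (i : ℝ) ≤ 12 * ll N + 1 := (Nat.ceil_lt_add_one (by linarith)).le
  have o1 := obs_T hsub hz c (by positivity) (obs_P hsub hz i) J
  have hlen : zr N ^ J * (zr N ^ i * 1) ≤ (N : ℝ) ^ (1 - 1 / 8 : ℝ) := by
    rw [← mul_assoc, ← pow_add]
    exact (h4 (J + i) (by push_cast; linarith)).2
  have k1 := hN0 N h0 B hB (Sb N) Sb_prime (Sb_ndvd hp) _ _ o1 hlen
  have hPC : CB fun x : Sb N → ℝ => PP (Ss N) (XX (Sb N) x) := CB.PP Sb_prime hsub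
  have k2 : ∫ x, (tj J (c * PP (Ss N) (XX (Sb N) x)) * PP (Ss N) (XX (Sb N) x) ^ i) ^ 2 ∂(mu (Sb N)) ≤
      ((2 * i).factorial : ℝ) / 4 ^ (2 * i) * exp (20 * ll N) := by
    have e1 : ∫ x, (tj J (c * PP (Ss N) (XX (Sb N) x)) * PP (Ss N) (XX (Sb N) x) ^ i) ^ 2 ∂(mu (Sb N)) ≤
        ∫ x, ((2 * i).factorial : ℝ) / 4 ^ (2 * i) * (exp (6 * PP (Ss N) (XX (Sb N) x)) +
          exp (-6 * PP (Ss N) (XX (Sb N) x))) ∂(mu (Sb N)) := by
      refine integral_mono (((tj_CB J (hPC.smul c)).mul (hPC.pow i)).pow 2).int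
        (((hPC.smul 6).exp.add (hPC.smul (-6)).exp).smul _).int fun x => ?_
      exact pt_tail J i hc _
    refine e1.trans ?_
    rw [integral_const_mul, integral_add (hPC.smul 6).exp.int (hPC.smul (-6)).exp.int]
    exact mul_le_mul_of_nonneg_left h3.1 (by positivity)
  have k3 : ∑ f ∈ B with 20 * ll N < |PP (Ss N) (W388.lamf f)|,
      om f * tj J (c * PP (Ss N) (W388.lamf f)) ^ 2 ≤
      ((20 * ll N) ^ (2 * i))⁻¹ * ∑ f ∈ B, om f * (tj J (c * PP (Ss N) (W388.lamf f)) *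
        PP (Ss N) (W388.lamf f) ^ i) ^ 2 := by
    rw [Finset.mul_sum, Finset.sum_filter]
    refine Finset.sum_le_sum fun f hf => ?_
    have hf0 := om_nonneg f
    split_ifs with hP
    · set P := PP (Ss N) (W388.lamf f)
      set T := tj J (c * P)
      have e1 : (20 * ll N) ^ (2 * i) ≤ (P ^ i) ^ 2 := by
        calc (20 * ll N) ^ (2 * i) ≤ |P| ^ (2 * i) := pow_le_pow_left₀ (by positivity) hP.le _
          _ = (P ^ i) ^ 2 := by rw [← pow_mul, mul_comm i 2, pow_mul, sq_abs, ← pow_mul]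
      have e2 : 0 < (20 * ll N) ^ (2 * i) := by positivity
      rw [inv_mul_eq_div, le_div_iff₀ e2]
      have e3 : 0 ≤ om f * T ^ 2 := by positivity
      calc om f * T ^ 2 * (20 * ll N) ^ (2 * i) ≤ om f * T ^ 2 * (P ^ i) ^ 2 := mul_le_mul_of_nonneg_left e1 e3
        _ = om f * (T * P ^ i) ^ 2 := by rw [mul_pow, mul_assoc]
    · positivity
  refine k3.trans ?_
  have k4 : ∑ f ∈ B, om f * (tj J (c * PP (Ss N) (W388.lamf f)) * PP (Ss N) (W388.lamf f) ^ i) ^ 2 ≤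
      2 * (((2 * i).factorial : ℝ) / 4 ^ (2 * i) * exp (20 * ll N)) := by
    refine k1.trans ?_
    have e : (1 : ℝ) + 1 = 2 := by norm_num
    rw [e]
    exact mul_le_mul_of_nonneg_left k2 (by norm_num)
  have e2 : 0 < (20 * ll N) ^ (2 * i) := by positivity
  calc ((20 * ll N) ^ (2 * i))⁻¹ * ∑ f ∈ B, om f * (tj J (c * PP (Ss N) (W388.lamf f)) *
        PP (Ss N) (W388.lamf f) ^ i) ^ 2 ≤
        ((20 * ll N) ^ (2 * i))⁻¹ * (2 * (((2 * i).factorial : ℝ) / 4 ^ (2 * i) * exp (20 * ll N))) :=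
        mul_le_mul_of_nonneg_left k4 (by positivity)
    _ = 2 * exp (20 * ll N) * (((2 * i).factorial : ℝ) / (80 * ll N) ^ (2 * i)) := by
        have : (80 * ll N) ^ (2 * i) = (20 * ll N) ^ (2 * i) * 4 ^ (2 * i) := by
          rw [← mul_pow]; congr 1; ring
        rw [this]
        field_simp
    _ ≤ 2 * exp (20 * ll N) * exp (-(24 * ll N)) := by
        refine mul_le_mul_of_nonneg_left ?_ (by positivity)
        have f1 : ((2 * i).factorial : ℝ) ≤ (25 * ll N) ^ (2 * i) := by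
          have f2 := Nat.factorial_le_pow (2 * i)
          have f3 : ((2 * i).factorial : ℝ) ≤ ((2 * i : ℕ) : ℝ) ^ (2 * i) := by exact_mod_cast f2
          refine f3.trans (pow_le_pow_left₀ (by positivity) ?_ _)
          push_cast
          linarith
        calc ((2 * i).factorial : ℝ) / (80 * ll N) ^ (2 * i) ≤ (25 * ll N) ^ (2 * i) / (80 * ll N) ^ (2 * i) :=
              div_le_div_of_nonneg_right f1 (by positivity)
          _ = (5 / 16 : ℝ) ^ (2 * i) := by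
              rw [← div_pow]; congr 1; field_simp; norm_num
          _ ≤ exp (-1) ^ (2 * i) := by
              apply pow_le_pow_left₀ (by norm_num)
              rw [Real.exp_neg, ← one_div, le_div_iff₀ (exp_pos _)]
              have := Real.exp_one_lt_d9
              linarith
          _ = exp (-(2 * (i : ℝ))) := by
              rw [← Real.exp_nat_mul]; push_cast; ring_nf
          _ ≤ _ := exp_le_exp.2 (by linarith)
    _ = 2 * exp (-(4 * ll N)) := by
        rw [mul_assoc, ← Real.exp_add]; congr 2; ring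
    _ ≤ exp (-ll N) := by
        have e1 : exp (-ll N) = exp (3 * ll N) * exp (-(4 * ll N)) := by rw [← Real.exp_add]; congr 1; ring
        rw [e1]
        refine mul_le_mul_of_nonneg_right ?_ (exp_pos _).le
        have := add_one_le_exp (3 * ll N)
        linarith

/-- the second moment with the smooth sum `S5` -/
theorem har_S5 {ε : ℝ} (hε : 0 < ε) : ∀ᶠ N : ℕ in atTop, N.Prime → ∀ [NeZero N] (B : Finset (SF N 2)),
    W388.LV.IsNewBasis N 2 B → ∀ E : Finset (SF N 2), (∀ f, f ∈ E ↔ f ∈ B ∧ W388.IsNewf N 2 f 1) →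
    ∀ b : ℝ, |b| ≤ 1 → ∀ J : ℕ, 30 * ll N ≤ J → (J : ℝ) ≤ 100 * ll N →
    ∑ f ∈ E, om f * (tj J (b * PP (Ss N) (W388.lamf f)) * S5 N (W388.lamf f)) ^ 2 ≤
        exp ((1 + 4 * b + 2 * b ^ 2 + ε) * ll N) ∧
      ∑ f ∈ E, om f * tj J (b * PP (Ss N) (W388.lamf f)) ^ 2 ≤ exp ((2 * b ^ 2 + ε) * ll N) := by
  set ε' := min (ε / 2) 1 with hε'
  have hε'0 : 0 < ε' := by positivity
  have hm1 : ε' ≤ ε / 2 := min_le_left _ _
  have hm2 : ε' ≤ 1 := min_le_right _ _
  filter_upwards [har_all hε'0 100, bv_even, bv_le, ev_N, ev_ll 4, ev_lin 16 (ε := ε / 2) (by positivity)] with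
    N h1 h2 h3 h4 hll h5 hp _ B hB E hE b hb J hJ1 hJ2
  have hll0 : 0 < ll N := by linarith
  have hBs := isNewSet_of_basis hB
  have hEB : E ⊆ B := fun f hf => ((hE f).1 hf).1
  obtain ⟨k1, k2⟩ := (h1 hp B hBs).1 b hb J hJ1 hJ2
  have hb2 : b ^ 2 ≤ 1 := by
    rw [← sq_abs]
    exact pow_le_one₀ (abs_nonneg _) hb
  obtain ⟨hb3, hb4⟩ := abs_le.1 hb
  have hS : ∀ f ∈ E, S5 N (W388.lamf f) ^ 2 ≤ 2 * SYf N (W388.lamf f) ^ 2 + 8 * exp (-10 * ll N) := by
    intro f hf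
    have hf1 := ((hE f).1 hf).2
    obtain ⟨vv, e1, e2⟩ := h2 hp f hf1
    have e3 := h3 hp f 1 hf1
    rw [e1, Complex.norm_real, Real.norm_eq_abs] at e3
    have e4 : |S5 N (W388.lamf f)| ≤ |SYf N (W388.lamf f)| + 2 * exp (-5 * ll N) := by
      have e5 : |2 * S5 N (W388.lamf f)| ≤ |vv| + 2 / N := by
        have := abs_sub_abs_le_abs_sub (2 * S5 N (W388.lamf f)) vv
        rw [abs_sub_comm] at this
        linarith
      rw [abs_mul, abs_two] at e5
      have e6 : 2 / (N : ℝ) = 2 * (1 / N) := by ring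
      rw [e6] at e5
      linarith
    have e7 : exp (-10 * ll N) = exp (-5 * ll N) ^ 2 := by
      rw [← Real.exp_nat_mul]; congr 1; push_cast; ring
    rw [← sq_abs, e7]
    calc |S5 N (W388.lamf f)| ^ 2 ≤ (|SYf N (W388.lamf f)| + 2 * exp (-5 * ll N)) ^ 2 :=
          pow_le_pow_left₀ (abs_nonneg _) e4 2
      _ ≤ 2 * |SYf N (W388.lamf f)| ^ 2 + 8 * exp (-5 * ll N) ^ 2 := by
          nlinarith [sq_nonneg (|SYf N (W388.lamf f)| - 2 * exp (-5 * ll N))]
      _ = _ := by rw [sq_abs]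
  constructor
  · calc ∑ f ∈ E, om f * (tj J (b * PP (Ss N) (W388.lamf f)) * S5 N (W388.lamf f)) ^ 2 ≤
          ∑ f ∈ B, (2 * (om f * (tj J (b * PP (Ss N) (W388.lamf f)) * SYf N (W388.lamf f)) ^ 2) +
            8 * exp (-10 * ll N) * (om f * tj J (b * PP (Ss N) (W388.lamf f)) ^ 2)) := by
          have hnn : ∀ f ∈ B, f ∉ E → 0 ≤ (2 * (om f * (tj J (b * PP (Ss N) (W388.lamf f)) * SYf N (W388.lamf f)) ^ 2) +
            8 * exp (-10 * ll N) * (om f * tj J (b * PP (Ss N) (W388.lamf f)) ^ 2)) := fun f _ _ => by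
            have := om_nonneg f
            positivity
          refine le_trans (Finset.sum_le_sum fun f hf => ?_) (Finset.sum_le_sum_of_subset_of_nonneg hEB hnn)
          have e1 := mul_le_mul_of_nonneg_left (hS f hf)
            (show 0 ≤ om f * tj J (b * PP (Ss N) (W388.lamf f)) ^ 2 by have := om_nonneg f; positivity)
          rw [mul_pow, mul_pow]
          linarith
      _ = 2 * ∑ f ∈ B, om f * (tj J (b * PP (Ss N) (W388.lamf f)) * SYf N (W388.lamf f)) ^ 2 +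
          8 * exp (-10 * ll N) * ∑ f ∈ B, om f * tj J (b * PP (Ss N) (W388.lamf f)) ^ 2 := by
          rw [Finset.sum_add_distrib, ← Finset.mul_sum, ← Finset.mul_sum]
      _ ≤ 2 * exp ((1 + 4 * b + 2 * b ^ 2 + ε') * ll N) + 8 * exp (-10 * ll N) * exp ((2 * b ^ 2 + ε') * ll N) :=
          add_le_add (mul_le_mul_of_nonneg_left k1 (by norm_num)) (mul_le_mul_of_nonneg_left k2 (by positivity))
      _ ≤ 10 * exp ((1 + 4 * b + 2 * b ^ 2 + ε') * ll N) := by
          have e1 : 8 * exp (-10 * ll N) * exp ((2 * b ^ 2 + ε') * ll N) ≤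
              8 * exp ((1 + 4 * b + 2 * b ^ 2 + ε') * ll N) := by
            rw [mul_assoc, ← Real.exp_add]
            refine mul_le_mul_of_nonneg_left (exp_le_exp.2 ?_) (by norm_num)
            nlinarith
          linarith
      _ ≤ exp (ε / 2 * ll N) * exp ((1 + 4 * b + 2 * b ^ 2 + ε') * ll N) := by
          refine mul_le_mul_of_nonneg_right ?_ (exp_pos _).le
          have := add_one_le_exp (ε / 2 * ll N)
          linarith
      _ ≤ _ := by
          rw [← Real.exp_add]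
          apply exp_le_exp.2
          nlinarith
  · refine (Finset.sum_le_sum_of_subset_of_nonneg hEB fun f _ _ => mul_nonneg (om_nonneg f) (sq_nonneg _)).trans
      (k2.trans (exp_le_exp.2 ?_))
    nlinarith

/-- **the harmonic lower bound** -/
theorem har_low {v δ : ℝ} (hv0 : 0 < v) (hδ : 0 < δ) (hδ1 : δ ≤ 1) (hδv : v + δ ≤ 2) :
    ∀ᶠ N : ℕ in atTop, N.Prime → ∀ [NeZero N] (B : Finset (SF N 2)),
    W388.LV.IsNewBasis N 2 B → ∀ E : Finset (SF N 2), (∀ f, f ∈ E ↔ f ∈ B ∧ W388.IsNewf N 2 f 1) →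
    exp ((-(v ^ 2 / 2) - 3 * δ) * ll N) ≤
      ∑ f ∈ E with exp ((v - 1 / 2 - 5 * δ) * ll N) < S5 N (W388.lamf f), om f := by
  set ε : ℝ := δ ^ 2 / 16 with hε
  have hε0 : 0 < ε := by positivity
  filter_upwards [first_LD (ε := ε) hε0, har_S5 (ε := ε) hε0, tail_T, ev_ll 20,
    ev_lin 1000 (ε := ε) hε0] with N h1 h2 h3 hll h4 hN _ B hB E hE
  have hll0 : 0 < ll N := by linarith
  have hBs := isNewSet_of_basis hB
  have hEB : E ⊆ B := fun f hf => ((hE f).1 hf).1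
  set J : ℕ := ⌈80 * ll N⌉₊ with hJ
  have hJ1 : 80 * ll N ≤ J := Nat.le_ceil _
  have hJ2 : (J : ℝ) ≤ 100 * ll N := by
    have := Nat.ceil_lt_add_one (show 0 ≤ 80 * ll N by linarith)
    linarith
  have hJ3 : 4 * (20 * ll N) ≤ J := by linarith
  have hJ4 : 30 * ll N ≤ J := by linarith
  have habs : ∀ x : ℝ, -1 ≤ x → x ≤ 1 → |x| ≤ 1 := fun x h1 h2 => abs_le.2 ⟨h1, h2⟩
  have ha := habs ((v - 2) / 2) (by linarith) (by linarith)
  have hc := habs (v / 2) (by linarith) (by linarith)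
  have hcp := habs ((v + δ) / 2) (by linarith) (by linarith)
  have hcm := habs ((v - δ) / 2) (by linarith) (by linarith)
  have hbd : ∀ (d : ℝ), |d| ≤ 1 → ∀ P : ℝ, |P| ≤ 20 * ll N → |d * P| ≤ 20 * ll N := fun d hd P hP => by
    rw [abs_mul]; exact (mul_le_of_le_one_left (abs_nonneg _) hd).trans hP
  refine ldp_abs (ε := ε) (R := 20 * ll N) E (fun f => om f) (fun f => PP (Ss N) (W388.lamf f))
    (fun f => S5 N (W388.lamf f)) (fun f => tj J ((v - 2) / 2 * PP (Ss N) (W388.lamf f)))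
    (fun f => tj J (v / 2 * PP (Ss N) (W388.lamf f))) (fun f => tj J ((v + δ) / 2 * PP (Ss N) (W388.lamf f)))
    (fun f => tj J ((v - δ) / 2 * PP (Ss N) (W388.lamf f))) (fun f _ => om_nonneg f) hv0 (by linarith) hδ hδ1
    hε0 le_rfl (by linarith) ?_ ?_ ?_ ?_ ?_ ?_ ?_ ?_ ?_ ?_ ?_
  · have := add_one_le_exp (ε * ll N)
    linarith
  · exact fun f _ hP => ⟨tj_ge (hbd _ ha _ hP) hJ3, tj_le (hbd _ ha _ hP) hJ3⟩
  · exact fun f _ hP => ⟨tj_ge (hbd _ hc _ hP) hJ3, tj_le (hbd _ hc _ hP) hJ3⟩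
  · exact fun f _ hP => tj_ge (hbd _ hcp _ hP) hJ3
  · exact fun f _ hP => tj_ge (hbd _ hcm _ hP) hJ3
  · refine (h2 hN B hB E hE _ ha J hJ4 hJ2).1.trans (le_of_eq ?_)
    congr 1; ring
  · refine (h2 hN B hB E hE _ hc J hJ4 hJ2).2.trans (le_of_eq ?_)
    congr 1; ring
  · refine (h2 hN B hB E hE _ hcp J hJ4 hJ2).2.trans (le_of_eq ?_)
    congr 1; ring
  · refine (h2 hN B hB E hE _ hcm J hJ4 hJ2).2.trans (le_of_eq ?_)
    congr 1; ring
  · refine le_trans ?_ (h3 hN B hBs (v / 2) hc J hJ2)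
    exact Finset.sum_le_sum_of_subset_of_nonneg (Finset.filter_subset_filter _ hEB) fun f _ _ =>
      mul_nonneg (om_nonneg f) (sq_nonneg _)
  · have k := h1 hN B hB E hE ((v - 2) / 2) (v / 2) ha hc J hJ1 hJ2
    refine le_trans (le_of_eq ?_) k
    congr 1; ring

end Pool.Agent.H485.CC
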