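import Pool.Agent.H485.CC.Ld4

/-!
# Large deviations: the harmonic theorem
-/

set_option autoImplicit false
set_option maxHeartbeats 4000000

open MeasureTheory Real Finset Filter

namespace Pool.Agent.H485.CC

open W388.LV (SF om IsNewSet)
open Pool.Agent.Y18.BSD

/-- **the harmonic lower bound for the central values** -/
theorem har_low_cv {A : ℝ} (hA1 : -(3 / 2) < A) (hA2 : A < 1 / 2) {ε : ℝ} (hε : 0 < ε) :
    ∀ᶠ N : ℕ in atTop, N.Prime → ∀ [NeZero N] (B : Finset (SF N 2)),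
    W388.LV.IsNewBasis N 2 B → ∀ E : Finset (SF N 2), (∀ f, f ∈ E ↔ f ∈ B ∧ W388.IsNewf N 2 f 1) →
    exp ((-((1 / 2 - A) ^ 2 / 2) - ε) * ll N) ≤ ∑ f ∈ E with exp (-A * ll N) < (bv f 0).re, om f := by
  obtain ⟨δ, hδ⟩ : ∃ δ : ℝ, δ = min (ε / 40) (min ((3 / 2 + A) / 10) 1) := ⟨_, rfl⟩
  have hδ0 : 0 < δ := by
    rw [hδ]
    exact lt_min (by positivity) (lt_min (by linarith) one_pos)
  have hδ1 : δ ≤ ε / 40 := by rw [hδ]; exact min_le_left _ _
  have hδ2 : δ ≤ (3 / 2 + A) / 10 := by rw [hδ]; exact (min_le_right _ _).trans (min_le_left _ _)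
  have hδ3 : δ ≤ 1 := by rw [hδ]; exact (min_le_right _ _).trans (min_le_right _ _)
  set v : ℝ := (1 / 2 - A) + 6 * δ with hv
  have hvA0 : 0 < 1 / 2 - A := by linarith
  have hv0 : 0 < v := by positivity
  filter_upwards [har_low hv0 hδ0 hδ3 (by rw [hv]; linarith), bv_even, ev_big 2 4 (ε := 1) one_pos,
    ev_ll 1] with N h1 h2 h3 hll hN _ B hB E hE
  have hll0 : 0 < ll N := by linarith
  have hNR : (0 : ℝ) < N := by exact_mod_cast hN.pos
  rw [Real.rpow_one] at h3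
  have h4 := h1 hN B hB E hE
  refine le_trans (exp_le_exp.2 ?_) (h4.trans (Finset.sum_le_sum_of_subset_of_nonneg ?_ fun f _ _ => om_nonneg f))
  · apply mul_le_mul_of_nonneg_right _ hll0.le
    have e1 : v ^ 2 = (1 / 2 - A) ^ 2 + 12 * δ * (1 / 2 - A) + 36 * δ ^ 2 := by rw [hv]; ring
    have e2 : δ * (1 / 2 - A) ≤ δ * 2 := mul_le_mul_of_nonneg_left (by linarith) hδ0.le
    have e3 : δ ^ 2 ≤ δ := by nlinarith
    rw [e1]
    linarith
  · intro f hf
    rw [Finset.mem_filter] at hf ⊢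
    refine ⟨hf.1, ?_⟩
    have hf1 := ((hE f).1 hf.1).2
    obtain ⟨x, e1, e2⟩ := h2 hN f hf1
    rw [e1, Complex.ofReal_re]
    have e3 : v - 1 / 2 - 5 * δ = -A + δ := by rw [hv]; ring
    have e4 := hf.2
    rw [e3] at e4
    have e5 : exp (-A * ll N) ≤ exp ((-A + δ) * ll N) := by
      apply exp_le_exp.2
      nlinarith
    have e6 : 2 / (N : ℝ) ≤ exp (-4 * ll N) := by
      rw [div_le_iff₀ hNR]
      have e7 : exp (-4 * ll N) * exp (4 * ll N) = 1 := by
        rw [← Real.exp_add, show -4 * ll N + 4 * ll N = 0 by ring, Real.exp_zero]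
      have := mul_le_mul_of_nonneg_left h3 (exp_pos (-4 * ll N)).le
      nlinarith
    have e7 : exp (-4 * ll N) ≤ exp ((-A + δ) * ll N) := by
      apply exp_le_exp.2
      apply mul_le_mul_of_nonneg_right _ hll0.le
      linarith
    have e8 := (abs_le.1 e2).1
    linarith

end Pool.Agent.H485.CC
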