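import Pool.Agent.H485.CC.Ld5
import Pool.Agent.H485.CC.Nc2
import Pool.Agent.H485.LD.All

/-!
# The newforms of prime level are a family in the sense of `LD.Fam`
-/

set_option autoImplicit false
set_option maxHeartbeats 4000000

open MeasureTheory Real Finset Filter

namespace Pool.Agent.H485.CC

open W388.LV (SF om IsNewSet)

lemma Sm_div {S : Finset ℕ} {p m : ℕ} (h : Sm S (p * m)) (hp : 0 < p) : Sm S m := by
  have := h.div (dvd_mul_right p m)
  rwa [Nat.mul_div_cancel_left _ hp] at this

/-- products with one eigenvalue -/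
lemma obs_mul_n {S : Finset ℕ} (hS : ∀ p ∈ S, p.Prime) : ∀ m : ℕ, Sm S m → ∀ (D : ℝ) (F : (ℕ → ℝ) → ℝ),
    0 ≤ D → Obs S D F → Obs S (m * D) fun lam => lam m * F lam := by
  intro m
  induction m using Nat.strong_induction_on with
  | _ m ih =>
    intro hm D F hD hF
    by_cases h1 : m = 1
    · subst h1
      have := hF.congr (G := fun lam => lam 1 * F lam) fun lam hl => by rw [hl.one, one_mul]
      refine this.mono ?_
      rw [Nat.cast_one, one_mul]
    · obtain ⟨p, hp, hpm⟩ := Nat.exists_prime_and_dvd h1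
      obtain ⟨m', rfl⟩ := hpm
      have hp0 := hp.pos
      have hSm := Sm_div hm hp0
      have hm' := hSm.1
      have hpS : p ∈ S := hm.2 (Nat.mem_primeFactors.2 ⟨hp, dvd_mul_right _ _, by have := hm.1; omega⟩)
      have hlt : m' < p * m' := by
        have := hp.two_le
        nlinarith
      have i1 := (ih m' hlt hSm D F hD hF).mul_prime hS hpS
      have hp1 : (1 : ℝ) ≤ p := by exact_mod_cast hp.one_le
      have hcast : ((p * m' : ℕ) : ℝ) * D = p * (m' * D) := by push_cast; ring
      by_cases hd : p ∣ m'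
      · obtain ⟨m2, rfl⟩ := hd
        have hSm2 := Sm_div hSm hp0
        have hlt2 : m2 < p * (p * m2) := by
          have := hSm2.1
          have := hp.two_le
          nlinarith [Nat.mul_le_mul this this]
        have i2 := (ih m2 hlt2 hSm2 D F hD hF).smul (-1)
        have hle : (m2 : ℝ) * D ≤ ((p * (p * m2) : ℕ) : ℝ) * D := by
          refine mul_le_mul_of_nonneg_right ?_ hD
          exact_mod_cast hlt2.le
        rw [← hcast] at i1
        refine (i1.add (i2.mono hle)).congr fun lam hl => ?_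
        have h2 := hl.mul p hpS (p * m2) hm'
        rw [if_pos (dvd_mul_right _ _), Nat.mul_div_cancel_left _ hp0] at h2
        have h3 : lam (p * (p * m2)) = lam p * lam (p * m2) - lam m2 := by linarith
        rw [h3]
        ring
      · rw [← hcast] at i1
        refine i1.congr fun lam hl => ?_
        have h2 := hl.mul p hpS m' hm'
        rw [if_neg hd, add_zero] at h2
        rw [← h2]
        ring

lemma obs_pow_n {S : Finset ℕ} (hS : ∀ p ∈ S, p.Prime) {m : ℕ} (hm : Sm S m) (k : ℕ) :
    Obs S ((m : ℝ) ^ k * 1) fun lam => lam m ^ k := by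
  have h1 : Obs S 1 fun _ : ℕ → ℝ => (1 : ℝ) := Obs.const le_rfl 1
  have h2 := Obs.mul_pow (A := fun lam : ℕ → ℝ => lam m) (z := m) (by exact_mod_cast hm.1)
    (fun D F hD hF => obs_mul_n hS m hm D F hD hF) zero_le_one h1 k
  exact h2.congr fun lam _ => mul_one _

lemma XX_tau {n : ℕ} (hn : n ≠ 0) (x : n.primeFactors → ℝ) : |XX n.primeFactors x n| ≤ n.divisors.card := by
  refine (abs_XX_le x n).trans (le_of_eq ?_)
  rw [Nat.card_divisors hn]
  push_cast
  rfl

lemma exp4pi : exp (4 * π) ≤ 300000 := by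
  have h1 : exp (4 * π) ≤ exp 12.6 := exp_le_exp.2 (by have := Real.pi_lt_d4; linarith)
  refine h1.trans ?_
  by_contra hcon
  push Not at hcon
  have h2 : (300000 : ℝ) ^ 5 < exp 12.6 ^ 5 := pow_lt_pow_left₀ hcon (by norm_num) (by norm_num)
  have h3 : exp 12.6 ^ 5 = exp 1 ^ 63 := by
    rw [← Real.exp_nat_mul, ← Real.exp_nat_mul]
    norm_num
  have h4 : exp 1 ^ 63 ≤ 2.7182818286 ^ 63 := pow_le_pow_left₀ (exp_pos _).le Real.exp_one_lt_d9.le 63
  rw [h3] at h2
  have h5 : (2.7182818286 : ℝ) ^ 63 ≤ 300000 ^ 5 := by norm_num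
  linarith

/-- the newforms are a family -/
theorem fam_ev : ∀ᶠ N : ℕ in atTop, N.Prime → ∀ [NeZero N] (B : Finset (SF N 2)), IsNewSet N 2 B →
    LD.Fam N B (fun f => om f) (fun f => W388.lamf f) := by
  obtain ⟨N0, hN0⟩ := ls_obs 2 le_rfl 1 (1 / 8) one_pos (by norm_num) (by norm_num)
  filter_upwards [eventually_ge_atTop N0, eventually_ge_atTop 2] with N h0 h2 hN _ B hB
  have hNR : (1 : ℝ) < N := by exact_mod_cast hN.one_lt
  refine ⟨fun f _ => om_nonneg f, fun f hf => ?_, fun f hf m n hmn => ?_, fun f hf n hn => ?_,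
    fun X hX s hs a => ?_, fun k n hn hk => ?_⟩
  · obtain ⟨ε, hε⟩ := hB.newf f hf
    exact (W388.heckeSeq_lamf hε).one
  · obtain ⟨ε, hε⟩ := hB.newf f hf
    exact (W388.heckeSeq_lamf hε).mul m n hmn
  · obtain ⟨ε, hε⟩ := hB.newf f hf
    exact hecke_sq (W388.heckeSeq_lamf hε) hN n hn
  · have h1 := ls_real B hB hX s (fun n => n) (fun a _ b _ h => h) hs a
    refine h1.trans ?_
    refine mul_le_mul_of_nonneg_right ?_ (Finset.sum_nonneg fun _ _ => sq_nonneg _)
    exact mul_le_mul_of_nonneg_right exp4pi (by positivity)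
  · have hn0 : n ≠ 0 := by omega
    have hSN : ∀ p ∈ (if k = 0 then ∅ else n.primeFactors), ¬ p ∣ N := by
      intro p hp
      split_ifs at hp with hk0
      · simp at hp
      · intro hd
        have hp' := Nat.prime_of_mem_primeFactors hp
        have e1 : p = N := (Nat.prime_dvd_prime_iff_eq hp' hN).1 hd
        have e2 : N ≤ n := by
          rw [← e1]
          exact Nat.le_of_dvd hn (Nat.dvd_of_mem_primeFactors hp)
        have e3 : (N : ℝ) ≤ (n : ℝ) ^ (2 * k) := by
          calc (N : ℝ) ≤ n := by exact_mod_cast e2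
            _ = (n : ℝ) ^ 1 := (pow_one _).symm
            _ ≤ (n : ℝ) ^ (2 * k) := pow_le_pow_right₀ (by exact_mod_cast hn) (by omega)
        have e4 : (N : ℝ) ^ (1 / 4 : ℝ) < N := by
          calc (N : ℝ) ^ (1 / 4 : ℝ) < (N : ℝ) ^ (1 : ℝ) := Real.rpow_lt_rpow_of_exponent_lt hNR (by norm_num)
            _ = N := Real.rpow_one _
        linarith
    rcases Nat.eq_zero_or_pos k with hk0 | hk0
    · subst hk0
      have h1 := hN0 N h0 B hB ∅ (by simp) (by simp) 1 (fun _ => 1) (Obs.const le_rfl 1)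
        (Real.one_le_rpow hNR.le (by norm_num))
      simp only [one_pow, mul_one, integral_const, smul_eq_mul, probReal_univ] at h1
      simp only [mul_zero, pow_zero, mul_one]
      linarith
    · rw [if_neg (by omega)] at hSN
      have hSm : Sm n.primeFactors n := ⟨hn, Finset.Subset.refl _⟩
      have o := obs_pow_n (S := n.primeFactors) (fun p hp => Nat.prime_of_mem_primeFactors hp) hSm k
      have hD : (n : ℝ) ^ k * 1 ≤ (N : ℝ) ^ (1 - 1 / 8 : ℝ) := by
        rw [mul_one]
        calc (n : ℝ) ^ k ≤ (n : ℝ) ^ (2 * k) := pow_le_pow_right₀ (by exact_mod_cast hn) (by omega)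
          _ ≤ (N : ℝ) ^ (1 / 4 : ℝ) := hk
          _ ≤ _ := Real.rpow_le_rpow_of_exponent_le hNR.le (by norm_num)
      have h1 := hN0 N h0 B hB n.primeFactors (fun p hp => Nat.prime_of_mem_primeFactors hp) hSN _ _ o hD
      have h3 : ∫ x, (XX n.primeFactors x n ^ k) ^ 2 ∂(mu n.primeFactors) ≤ (n.divisors.card : ℝ) ^ (2 * k) := by
        have hc : Continuous fun x : n.primeFactors → ℝ => (XX n.primeFactors x n ^ k) ^ 2 :=
          ((continuous_XX n).pow k).pow 2
        have hb : ∀ x : n.primeFactors → ℝ, (XX n.primeFactors x n ^ k) ^ 2 ≤ (n.divisors.card : ℝ) ^ (2 * k) := by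
          intro x
          rw [← pow_mul, mul_comm k 2, pow_mul, ← sq_abs, ← pow_mul]
          exact pow_le_pow_left₀ (abs_nonneg _) (XX_tau hn0 x) _
        have hi : Integrable (fun x : n.primeFactors → ℝ => (XX n.primeFactors x n ^ k) ^ 2) (mu n.primeFactors) :=
          integrable_mu hc (C := (n.divisors.card : ℝ) ^ (2 * k)) fun x => by
            rw [Real.norm_eq_abs, abs_of_nonneg (sq_nonneg _)]
            exact hb x
        calc ∫ x, (XX n.primeFactors x n ^ k) ^ 2 ∂(mu n.primeFactors) ≤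
            ∫ _x, (n.divisors.card : ℝ) ^ (2 * k) ∂(mu n.primeFactors) :=
              integral_mono hi (integrable_const _) hb
          _ = _ := by simp
      have e1 : ∀ f : SF N 2, om f * W388.lamf f n ^ (2 * k) = om f * (W388.lamf f n ^ k) ^ 2 := fun f => by
        rw [← pow_mul, mul_comm k 2]
      show ∑ f ∈ B, om f * W388.lamf f n ^ (2 * k) ≤ 2 * (n.divisors.card : ℝ) ^ (2 * k)
      rw [Finset.sum_congr rfl fun f _ => e1 f]
      linarith

end Pool.Agent.H485.CC
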