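import Pool.Agent.H485.CC.Ldf
import Pool.Agent.H485.CC.Fin

/-!
# Large deviations: the natural count
-/

set_option autoImplicit false
set_option maxHeartbeats 4000000

open Real Finset Filter

namespace Pool.Agent.H485.CC

open W388.LV (SF om IsNewSet)
open Pool.Agent.Y18.BSD

/-- the weights are rarely large -/
theorem om_large : ∃ C : ℝ, 0 < C ∧ ∀ᶠ N : ℕ in atTop, N.Prime → ∀ [NeZero N] (B : Finset (SF N 2)),
    IsNewSet N 2 B → LD.Few B (fun f => om f) (C * exp (-(1 / 2) * ll N)) fun f => om f ≤ C * ll N ^ 2 / N := by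
  obtain ⟨C, hC, N0, h⟩ := LD.s_nl
  refine ⟨C, hC, ?_⟩
  filter_upwards [fam_ev, eventually_ge_atTop N0] with N h1 h2 hN _ B hB
  exact h N h2 hN (SF N 2) B _ _ (h1 hN B hB)

/-- the weights are rarely small -/
theorem om_small {ε : ℝ} (hε : 0 < ε) (hε1 : ε < 1) : ∀ᶠ N : ℕ in atTop, N.Prime → ∀ [NeZero N]
    (B : Finset (SF N 2)), IsNewSet N 2 B →
    LD.Few B (fun f => om f) (exp (-(1 - ε) * ll N) + exp (-2 * ll N)) fun f =>
      1 ≤ om f * (N * exp (2 * ε * ll N)) := by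
  obtain ⟨N1, h1⟩ := LD.s_nu ε hε hε1
  obtain ⟨N2, h2⟩ := LD.tl_ok
  obtain ⟨C1, hC1, hD⟩ := Dn_trunc0
  obtain ⟨C2, hC2, hL⟩ := level_part
  filter_upwards [fam_ev, eventually_ge_atTop N1, eventually_ge_atTop N2, ev_ll 1,
    ev_lin (8 + 2 * (C1 + C2)) (ε := ε) hε] with N hf k1 k2 hll h4 hN _ B hB
  have hfam := hf hN B hB
  have a1 := h1 N k1 hN (SF N 2) B _ _ hfam
  have a2 := h2 N k2 hN (SF N 2) B _ _ hfam
  refine (a1.and (fun f _ => om_nonneg f) a2).mono le_rfl ?_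
  rintro f hfB ⟨b1, b2⟩
  obtain ⟨ε', hε'⟩ := hB.newf f hfB
  have hN1 : (1 : ℝ) ≤ N := by exact_mod_cast hN.one_le
  have hN0 : (0 : ℝ) < N := by linarith
  have c1 := om_inv hN hε'
  have c2 := hD N hN f ε' hε'
  have c3 := hL N hN f ε' hε' (N ^ 2)
  have hww : ∀ n : ℕ, 0 < ww N n := fun n => exp_pos _
  have hww1 : ∀ n : ℕ, ww N n ≤ 1 := fun n => by
    unfold ww
    apply Real.exp_le_one_iff.2
    have : 0 ≤ π / N * (n : ℝ) := by positivity
    linarith
  have c4 : ∑ n ∈ Finset.Icc 1 (N ^ 2), W388.lamf f n ^ 2 * ww N n ≤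
      ∑ n ∈ (Finset.Icc 1 (N ^ 2)).filter (fun n => N ∣ n), W388.lamf f n ^ 2 * ww N n +
      (∑ n ∈ Finset.Icc 1 (LD.xN N), LD.gN N (W388.lamf f) n +
      ∑ n ∈ Finset.Ioc (LD.xN N) (N ^ 2), W388.lamf f n ^ 2 * ww N n) := by
    rw [← Finset.sum_filter_add_sum_filter_not (Finset.Icc 1 (N ^ 2)) (fun n => N ∣ n)]
    refine add_le_add le_rfl ?_
    have hsub : (Finset.Icc 1 (N ^ 2)).filter (fun n => ¬ N ∣ n) ⊆
        (Finset.Icc 1 (LD.xN N)).filter (fun n => ¬ N ∣ n) ∪ Finset.Ioc (LD.xN N) (N ^ 2) := by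
      intro n hn
      rw [Finset.mem_filter, Finset.mem_Icc] at hn
      rw [Finset.mem_union, Finset.mem_filter, Finset.mem_Icc, Finset.mem_Ioc]
      rcases Nat.lt_or_ge (LD.xN N) n with h | h
      · exact Or.inr ⟨h, hn.1.2⟩
      · exact Or.inl ⟨⟨hn.1.1, h⟩, hn.2⟩
    have hnn : ∀ n : ℕ, 0 ≤ W388.lamf f n ^ 2 * ww N n := fun n => mul_nonneg (sq_nonneg _) (hww n).le
    refine (Finset.sum_le_sum_of_subset_of_nonneg hsub fun n _ _ => hnn n).trans ?_
    have hdis : Disjoint ((Finset.Icc 1 (LD.xN N)).filter (fun n => ¬ N ∣ n)) (Finset.Ioc (LD.xN N) (N ^ 2)) := by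
      rw [Finset.disjoint_left]
      intro n hn hn2
      rw [Finset.mem_filter, Finset.mem_Icc] at hn
      rw [Finset.mem_Ioc] at hn2
      omega
    rw [Finset.sum_union hdis]
    refine add_le_add ?_ le_rfl
    rw [Finset.sum_filter]
    refine Finset.sum_le_sum fun n _ => ?_
    unfold LD.gN
    by_cases hd : N ∣ n
    · rw [if_neg (not_not.2 hd), if_pos hd]
    · rw [if_pos hd, if_neg hd]
      exact mul_le_of_le_one_right (sq_nonneg _) (hww1 n)
  have b1' : ∑ n ∈ Finset.Icc 1 (LD.xN N), LD.gN N (W388.lamf f) n ≤ N * exp (ε * ll N) := b1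
  have b2' : ∑ n ∈ Finset.Ioc (LD.xN N) (N ^ 2), W388.lamf f n ^ 2 * ww N n ≤ N := b2
  have hll0 : 0 < ll N := by linarith
  have e1 : 1 ≤ exp (ε * ll N) := Real.one_le_exp (by positivity)
  have e2 : 8 + 2 * (C1 + C2) ≤ exp (ε * ll N) := by
    have := add_one_le_exp (ε * ll N)
    linarith
  have e3 : exp (2 * ε * ll N) = exp (ε * ll N) * exp (ε * ll N) := by
    rw [← Real.exp_add]; congr 1; ring
  have c5 : 2 * Dn N f ≤ N * exp (2 * ε * ll N) := by
    have c6 : Dn N f ≤ N * exp (ε * ll N) + N + (C1 + C2) := by linarith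
    have c7 : N * exp (ε * ll N) + N + (C1 + C2) ≤ N * (exp (ε * ll N) * (2 + (C1 + C2))) := by
      have d1 : (N : ℝ) ≤ N * exp (ε * ll N) := le_mul_of_one_le_right hN0.le e1
      have d2 : (C1 + C2) ≤ (N * exp (ε * ll N)) * (C1 + C2) :=
        le_mul_of_one_le_left (by positivity) (by nlinarith)
      nlinarith
    have c8 : N * (exp (ε * ll N) * (2 + (C1 + C2))) * 2 ≤ N * exp (2 * ε * ll N) := by
      rw [e3]
      have d1 : exp (ε * ll N) * (2 * (2 + (C1 + C2))) ≤ exp (ε * ll N) * exp (ε * ll N) :=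
        mul_le_mul_of_nonneg_left (by linarith) (exp_pos _).le
      have d2 := mul_le_mul_of_nonneg_left d1 hN0.le
      linarith
    linarith
  exact c1.trans (mul_le_mul_of_nonneg_left c5 (om_nonneg f))

/-- **the natural upper bound** -/
theorem nat_up {A : ℝ} (hA1 : -(1 / 2) ≤ A) (hA2 : A < 1 / 2) {ε : ℝ} (hε : 0 < ε) :
    ∀ᶠ N : ℕ in atTop, N.Prime → ∀ [NeZero N] (B : Finset (SF N 2)), IsNewSet N 2 B →
      ((B.filter fun f => exp (-A * ll N) < ‖bv f 0‖).card : ℝ) ≤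
        N * exp ((-((1 / 2 - A) ^ 2 / 2) + ε) * ll N) := by
  classical
  obtain ⟨δ, hδ⟩ : ∃ δ : ℝ, δ = min (ε / 4) (1 / 2) := ⟨_, rfl⟩
  have hδ0 : 0 < δ := by rw [hδ]; exact lt_min (by positivity) (by norm_num)
  have hδ1 : δ ≤ ε / 4 := by rw [hδ]; exact min_le_left _ _
  have hδ2 : δ ≤ 1 / 2 := by rw [hδ]; exact min_le_right _ _
  obtain ⟨C, hC0, hC⟩ := count_sq
  filter_upwards [har_main (by linarith : -(3 / 2) ≤ A) hA2 hδ0, om_small hδ0 (by linarith),
    ev_lin (2 * C + 2) (ε := δ) hδ0, ev_ll 1] with N h1 h2 h3 hll hN _ B hB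
  have hll0 : 0 < ll N := by linarith
  have hN0 : (0 : ℝ) < N := by exact_mod_cast hN.pos
  obtain ⟨Eb, k1, k2, k3⟩ := h2 hN B hB
  set T := B.filter fun f => exp (-A * ll N) < ‖bv f 0‖ with hT
  have hTB : T ⊆ B := Finset.filter_subset _ _
  have m1 := h1 hN B hB
  have m2 := hC N hN Eb (IsNewSet.sub hB k1)
  have he : 2 * C + 2 ≤ exp (δ * ll N) := by
    have := add_one_le_exp (δ * ll N)
    linarith
  -- the exceptional part
  have q1 : (Eb.card : ℝ) ≤ N * exp ((-(1 / 2) + δ) * ll N) := by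
    have e1 : exp (-(1 - δ) * ll N) + exp (-2 * ll N) ≤ 2 * exp (-(1 - δ) * ll N) := by
      have : exp (-2 * ll N) ≤ exp (-(1 - δ) * ll N) := exp_le_exp.2 (by nlinarith)
      linarith
    have e2 : (Eb.card : ℝ) ^ 2 ≤ (N * exp ((-(1 / 2) + δ) * ll N)) ^ 2 := by
      calc (Eb.card : ℝ) ^ 2 ≤ C * (N : ℝ) ^ 2 * ∑ f ∈ Eb, om f := m2
        _ ≤ C * (N : ℝ) ^ 2 * (2 * exp (-(1 - δ) * ll N)) :=
            mul_le_mul_of_nonneg_left (k2.trans e1) (by positivity)
        _ = (N : ℝ) ^ 2 * ((2 * C) * exp (-(1 - δ) * ll N)) := by ring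
        _ ≤ (N : ℝ) ^ 2 * (exp (δ * ll N) * exp (-(1 - δ) * ll N)) :=
            mul_le_mul_of_nonneg_left (mul_le_mul_of_nonneg_right (by linarith) (exp_pos _).le) (by positivity)
        _ = _ := by
          rw [mul_pow, ← Real.exp_add, ← Real.exp_nat_mul]
          congr 2
          push_cast
          ring
    exact le_of_abs_le (abs_le_of_sq_le_sq e2 (by positivity))
  -- the good part
  have q2 : ((T \ Eb).card : ℝ) ≤ N * exp ((-((1 / 2 - A) ^ 2 / 2) + 3 * δ) * ll N) := by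
    calc ((T \ Eb).card : ℝ) = ∑ f ∈ T \ Eb, (1 : ℝ) := by simp
      _ ≤ ∑ f ∈ T \ Eb, om f * (N * exp (2 * δ * ll N)) := Finset.sum_le_sum fun f hf => by
          rw [Finset.mem_sdiff] at hf
          exact k3 f (hTB hf.1) hf.2
      _ = (∑ f ∈ T \ Eb, om f) * (N * exp (2 * δ * ll N)) := by rw [Finset.sum_mul]
      _ ≤ exp ((-((1 / 2 - A) ^ 2 / 2) + δ) * ll N) * (N * exp (2 * δ * ll N)) := by
          refine mul_le_mul_of_nonneg_right ?_ (by positivity)
          refine (Finset.sum_le_sum_of_subset_of_nonneg Finset.sdiff_subset fun f _ _ => om_nonneg f).trans m1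
      _ = _ := by
          rw [mul_left_comm, ← Real.exp_add]
          congr 2
          ring
  have q3 : T.card ≤ Eb.card + (T \ Eb).card := by
    calc T.card ≤ (Eb ∪ (T \ Eb)).card := Finset.card_le_card fun f hf => by
          rw [Finset.mem_union, Finset.mem_sdiff]
          by_cases h : f ∈ Eb
          · exact Or.inl h
          · exact Or.inr ⟨hf, h⟩
      _ ≤ _ := Finset.card_union_le _ _
  have q4 : (T.card : ℝ) ≤ Eb.card + (T \ Eb).card := by exact_mod_cast q3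
  have hv : (1 / 2 - A) ^ 2 ≤ 1 := by
    have : 1 / 2 - A ≤ 1 := by linarith
    have : 0 ≤ 1 / 2 - A := by linarith
    nlinarith
  have q5 : exp ((-(1 / 2) + δ) * ll N) ≤ exp ((-((1 / 2 - A) ^ 2 / 2) + 3 * δ) * ll N) := by
    apply exp_le_exp.2
    apply mul_le_mul_of_nonneg_right _ hll0.le
    linarith
  have q6 := mul_le_mul_of_nonneg_left q5 hN0.le
  calc (T.card : ℝ) ≤ N * (2 * exp ((-((1 / 2 - A) ^ 2 / 2) + 3 * δ) * ll N)) := by linarith
    _ ≤ N * (exp (δ * ll N) * exp ((-((1 / 2 - A) ^ 2 / 2) + 3 * δ) * ll N)) := by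
        refine mul_le_mul_of_nonneg_left (mul_le_mul_of_nonneg_right ?_ (exp_pos _).le) hN0.le
        linarith
    _ ≤ _ := by
        rw [← Real.exp_add]
        refine mul_le_mul_of_nonneg_left (exp_le_exp.2 ?_) hN0.le
        nlinarith

/-- **the natural lower bound** -/
theorem nat_low {A : ℝ} (hA1 : -(1 / 2) < A) (hA2 : A < 1 / 2) {ε : ℝ} (hε : 0 < ε) :
    ∀ᶠ N : ℕ in atTop, N.Prime → ∀ [NeZero N] (B : Finset (SF N 2)), W388.LV.IsNewBasis N 2 B →
    ∀ E : Finset (SF N 2), (∀ f, f ∈ E ↔ f ∈ B ∧ W388.IsNewf N 2 f 1) →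
      N * exp ((-((1 / 2 - A) ^ 2 / 2) - ε) * ll N) ≤
        ((E.filter fun f => exp (-A * ll N) < (bv f 0).re).card : ℝ) := by
  classical
  have hv0 : 0 < 1 / 2 - A := by linarith
  have hv1 : (1 / 2 - A) ^ 2 < 1 := by nlinarith
  obtain ⟨δ, hδ⟩ : ∃ δ : ℝ, δ = min (ε / 2) ((1 - (1 / 2 - A) ^ 2) / 4) := ⟨_, rfl⟩
  have hδ0 : 0 < δ := by rw [hδ]; exact lt_min (by positivity) (by linarith)
  have hδ1 : δ ≤ ε / 2 := by rw [hδ]; exact min_le_left _ _
  have hδ2 : δ ≤ (1 - (1 / 2 - A) ^ 2) / 4 := by rw [hδ]; exact min_le_right _ _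
  obtain ⟨C, hC0, hC⟩ := om_large
  filter_upwards [har_low_cv (by linarith : -(3 / 2) < A) hA2 hδ0, hC,
    ev_lin (2 * C) (ε := (1 - (1 / 2 - A) ^ 2) / 4) (by linarith), ev_ll 1,
    ev_pow (2 * C) 2 (ε := ε / 2) (by positivity)] with N h1 h2 h3 hll h4 hN _ B hB E hE
  have hll0 : 0 < ll N := by linarith
  have hN0 : (0 : ℝ) < N := by exact_mod_cast hN.pos
  have hBs := isNewSet_of_basis hB
  have hEB : E ⊆ B := fun f hf => ((hE f).1 hf).1
  obtain ⟨Eb, k1, k2, k3⟩ := h2 hN B hBs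
  set T := E.filter fun f => exp (-A * ll N) < (bv f 0).re with hT
  have hTB : T ⊆ B := (Finset.filter_subset _ _).trans hEB
  have m1 := h1 hN B hB E hE
  set X : ℝ := exp ((-((1 / 2 - A) ^ 2 / 2) - δ) * ll N) with hX
  have hX0 : 0 < X := exp_pos _
  have m2 : ∑ f ∈ T, om f ≤ ∑ f ∈ Eb, om f + T.card * (C * ll N ^ 2 / N) := by
    calc ∑ f ∈ T, om f ≤ ∑ f ∈ Eb ∪ (T \ Eb), om f :=
          Finset.sum_le_sum_of_subset_of_nonneg (fun f hf => by
            rw [Finset.mem_union, Finset.mem_sdiff]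
            by_cases h : f ∈ Eb
            · exact Or.inl h
            · exact Or.inr ⟨hf, h⟩) fun f _ _ => om_nonneg f
      _ = ∑ f ∈ Eb, om f + ∑ f ∈ T \ Eb, om f := Finset.sum_union Finset.disjoint_sdiff
      _ ≤ ∑ f ∈ Eb, om f + ∑ f ∈ T \ Eb, (C * ll N ^ 2 / N) := by
          refine add_le_add le_rfl (Finset.sum_le_sum fun f hf => ?_)
          rw [Finset.mem_sdiff] at hf
          exact k3 f (hTB hf.1) hf.2
      _ = ∑ f ∈ Eb, om f + ((T \ Eb).card : ℝ) * (C * ll N ^ 2 / N) := by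
          rw [Finset.sum_const, nsmul_eq_mul]
      _ ≤ _ := by
          refine add_le_add le_rfl (mul_le_mul_of_nonneg_right ?_ (by positivity))
          exact_mod_cast Finset.card_le_card Finset.sdiff_subset
  have m3 : C * exp (-(1 / 2) * ll N) ≤ X / 2 := by
    have e1 : 2 * C ≤ exp ((1 - (1 / 2 - A) ^ 2) / 4 * ll N) := by
      have := add_one_le_exp ((1 - (1 / 2 - A) ^ 2) / 4 * ll N)
      linarith
    have e2 : exp ((1 - (1 / 2 - A) ^ 2) / 4 * ll N) * exp (-(1 / 2) * ll N) ≤ X := by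
      rw [hX, ← Real.exp_add]
      apply exp_le_exp.2
      nlinarith
    have e3 := mul_le_mul_of_nonneg_right e1 (exp_pos (-(1 / 2) * ll N)).le
    linarith
  have m4 : X / 2 ≤ T.card * (C * ll N ^ 2 / N) := by
    have m1' : X ≤ ∑ f ∈ T, om f := m1
    linarith
  rw [mul_div_assoc', le_div_iff₀ hN0] at m4
  have m5 : X * N ≤ T.card * (2 * C * ll N ^ 2) := by linarith
  have m6 : X * N ≤ T.card * exp (ε / 2 * ll N) :=
    m5.trans (mul_le_mul_of_nonneg_left h4 (Nat.cast_nonneg _))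
  have m7 : N * exp ((-((1 / 2 - A) ^ 2 / 2) - ε) * ll N) * exp (ε / 2 * ll N) ≤ T.card * exp (ε / 2 * ll N) := by
    refine le_trans ?_ m6
    rw [mul_assoc, ← Real.exp_add, mul_comm X]
    refine mul_le_mul_of_nonneg_left (exp_le_exp.2 ?_) hN0.le
    nlinarith
  exact le_of_mul_le_mul_right m7 (exp_pos _)

end Pool.Agent.H485.CC
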