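import Mathlib

/-!
# Uniform convergence of monotone functions
-/

set_option autoImplicit false

open Filter Topology Set

namespace Pool.Agent.H485.Uni

/-- the limit -/
noncomputable def GG (x : ℝ) : ℝ := -((max 0 (1 / 2 - x)) ^ 2 / 2)

lemma GG_mono {x y : ℝ} (h : x ≤ y) : GG x ≤ GG y := by
  unfold GG
  have h1 : max 0 (1 / 2 - y) ≤ max 0 (1 / 2 - x) := max_le_max le_rfl (by linarith)
  have h2 : 0 ≤ max 0 (1 / 2 - y) := le_max_left _ _
  have := pow_le_pow_left₀ h2 h1 2
  linarith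

lemma GG_lip {x y : ℝ} (h : x ≤ y) (hx : -(3 / 2) ≤ x) : GG y - GG x ≤ 2 * (y - x) := by
  unfold GG
  set a := max 0 (1 / 2 - x) with ha
  set b := max 0 (1 / 2 - y) with hb
  have h0 : 0 ≤ b := le_max_left _ _
  have h1 : b ≤ a := max_le_max le_rfl (by linarith)
  have h2 : a ≤ 2 := max_le (by norm_num) (by linarith)
  have h3 : a - b ≤ y - x := by
    have : a ≤ b + (y - x) := by
      apply max_le
      · linarith
      · have := le_max_right 0 (1 / 2 - y)
        linarith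
    linarith
  have h4 : (a - b) * (a + b) ≤ (y - x) * 4 := mul_le_mul h3 (by linarith) (by linarith) (by linarith)
  nlinarith

lemma GG_nonpos (x : ℝ) : GG x ≤ 0 := by
  unfold GG
  have : 0 ≤ (max 0 (1 / 2 - x)) ^ 2 := sq_nonneg _
  linarith

lemma GG_eq {x : ℝ} (hx : x ≤ 1 / 2) : GG x = -((1 / 2 - x) ^ 2 / 2) := by
  unfold GG
  rw [max_eq_right (by linarith)]

/-- pointwise convergence of monotone functions is uniform -/
theorem unif {F : ℕ → ℝ → ℝ} {l : Filter ℕ} {α : ℝ} (hα : α < 1 / 2) (hα2 : -(3 / 2) ≤ α)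
    (hmono : ∀ A0 : ℝ, α < A0 → A0 < 1 / 2 → ∀ᶠ N in l, MonotoneOn (F N) (Ici A0))
    (hup : ∀ ε : ℝ, 0 < ε → ∀ᶠ N in l, ∀ A, F N A ≤ ε)
    (hlim : ∀ A : ℝ, α < A → A < 1 / 2 → Tendsto (fun N => F N A) l (𝓝 (-((1 / 2 - A) ^ 2 / 2))))
    {δ : ℝ} (hδ : 0 < δ) : TendstoUniformlyOn F GG l (Ici (α + δ)) := by
  rw [Metric.tendstoUniformlyOn_iff]
  intro ε hε
  obtain ⟨A0, hA0⟩ : ∃ A0 : ℝ, A0 = min (α + δ) ((α + 1 / 2) / 2) := ⟨_, rfl⟩
  have a1 : α < A0 := by rw [hA0]; exact lt_min (by linarith) (by linarith)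
  have a2 : A0 < 1 / 2 := by rw [hA0]; exact (min_le_right _ _).trans_lt (by linarith)
  have a3 : A0 ≤ α + δ := by rw [hA0]; exact min_le_left _ _
  obtain ⟨K, hK⟩ := exists_nat_gt (64 / ε + 1)
  have hK0 : (0 : ℝ) < K := lt_trans (by positivity) hK
  have hK1 : 1 ≤ K := by
    have : (0 : ℝ) < K := hK0
    exact_mod_cast this
  set h : ℝ := (1 / 2 - A0) / K with hh
  have hh0 : 0 < h := div_pos (by linarith) hK0
  have hKh : K * h = 1 / 2 - A0 := by rw [hh]; field_simp
  have hh1 : h ≤ ε / 32 := by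
    rw [hh, div_le_iff₀ hK0]
    have h1 : 64 / ε ≤ K := by linarith
    rw [div_le_iff₀ hε] at h1
    nlinarith
  have hh2 : h ≤ 2 := by
    rw [hh, div_le_iff₀ hK0]
    have : (1 : ℝ) ≤ K := by exact_mod_cast hK1
    nlinarith
  have hgrid : ∀ i ∈ Finset.range K, ∀ᶠ N in l, dist (F N (A0 + i * h)) (GG (A0 + i * h)) < ε / 4 := by
    intro i hi
    have hi' : (i : ℝ) < K := by exact_mod_cast Finset.mem_range.1 hi
    have b1 : A0 + i * h < 1 / 2 := by
      have : (i : ℝ) * h < K * h := mul_lt_mul_of_pos_right hi' hh0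
      linarith
    have b2 : α < A0 + i * h := by
      have : 0 ≤ (i : ℝ) * h := by positivity
      linarith
    have := (Metric.tendsto_nhds.1 (hlim _ b2 b1)) (ε / 4) (by positivity)
    rw [GG_eq b1.le]
    exact this
  filter_upwards [hmono A0 a1 a2, hup (ε / 4) (by positivity), (Finset.eventually_all _).2 hgrid] with N k1 k2 k3
  intro A hA
  have hA' : A0 ≤ A := a3.trans hA
  rw [dist_comm, Real.dist_eq, abs_lt]
  by_cases hc : A < A0 + (K - 1) * h
  · -- inside the grid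
    set i : ℕ := ⌊(A - A0) / h⌋₊ with hi
    have q0 : 0 ≤ (A - A0) / h := div_nonneg (by linarith) hh0.le
    have q1 : (i : ℝ) ≤ (A - A0) / h := Nat.floor_le q0
    have q2 : (A - A0) / h < i + 1 := Nat.lt_floor_add_one _
    rw [le_div_iff₀ hh0] at q1
    rw [div_lt_iff₀ hh0] at q2
    have q3 : (i : ℝ) < K - 1 := by
      have : (i : ℝ) * h < (K - 1) * h := by linarith
      exact lt_of_mul_lt_mul_right this hh0.le
    have q4 : i + 1 < K := by
      have : ((i + 1 : ℕ) : ℝ) < K := by push_cast; linarith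
      exact_mod_cast this
    have r1 := k3 i (Finset.mem_range.2 (by omega))
    have r2 := k3 (i + 1) (Finset.mem_range.2 q4)
    push_cast at r2
    rw [Real.dist_eq, abs_lt] at r1 r2
    have ih : 0 ≤ (i : ℝ) * h := by positivity
    have m1 : F N (A0 + i * h) ≤ F N A := k1 (by rw [mem_Ici]; linarith) (by rw [mem_Ici]; exact hA') (by linarith)
    have m2 : F N A ≤ F N (A0 + (i + 1) * h) := k1 (by rw [mem_Ici]; exact hA') (by rw [mem_Ici]; nlinarith) (by linarith)
    have g1 := GG_mono (show A0 + i * h ≤ A by linarith)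
    have g2 := GG_mono (show A ≤ A0 + (i + 1) * h by linarith)
    have g3 := GG_lip (show A0 + i * h ≤ A0 + (i + 1) * h by nlinarith) (by linarith)
    have g4 : A0 + (i + 1) * h - (A0 + i * h) = h := by ring
    rw [g4] at g3
    constructor <;> linarith [r1.1, r1.2, r2.1, r2.2]
  · push Not at hc
    have e1 : ((K - 1 : ℕ) : ℝ) = K - 1 := by
      rw [Nat.cast_sub hK1]
      norm_num
    have r1 := k3 (K - 1) (Finset.mem_range.2 (by omega))
    rw [e1, Real.dist_eq, abs_lt] at r1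
    have hK1' : (0 : ℝ) ≤ (K - 1) * h := by
      have : (1 : ℝ) ≤ K := by exact_mod_cast hK1
      have : (0 : ℝ) ≤ K - 1 := by linarith
      positivity
    have m1 : F N (A0 + (K - 1) * h) ≤ F N A :=
      k1 (by rw [mem_Ici]; linarith) (by rw [mem_Ici]; exact hA') hc
    have m2 := k2 A
    have e2 : 1 / 2 - (A0 + (K - 1) * h) = h := by linarith
    have g0 : GG (A0 + (K - 1) * h) = -(h ^ 2 / 2) := by
      rw [GG_eq (by linarith), e2]
    have g1 := GG_mono hc
    have g2 := GG_nonpos A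
    have g3 : h ^ 2 / 2 ≤ h := by nlinarith
    rw [g0] at g1 r1
    constructor <;> linarith [r1.1, r1.2]

end Pool.Agent.H485.Uni
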