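import Pool.Agent.H485.CC.Ldn

/-!
# The moments with a larger tilt (`|b| ≤ 3/2`)
-/

set_option autoImplicit false
set_option maxHeartbeats 4000000

open MeasureTheory Real Finset Filter

namespace Pool.Agent.H485.CC

open W388.LV (SF om IsNewSet)

lemma tj_err2 (J : ℕ) (y : ℝ) : |tj J y - exp y| ≤ exp (-(((J : ℝ) + 1) / 2)) * exp (2 * |y|) := by
  have h1 := exp_hasSum y
  have h2 : exp y = tj J y + ∑' n : ℕ, y ^ (n + (J + 1)) / ((n + (J + 1)).factorial : ℝ) := by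
    rw [← h1.tsum_eq, ← h1.summable.sum_add_tsum_nat_add (J + 1)]
    congr 1
    unfold tj
    refine Finset.sum_congr rfl fun j _ => ?_
    ring
  have h3 : tj J y - exp y = -∑' n : ℕ, y ^ (n + (J + 1)) / ((n + (J + 1)).factorial : ℝ) := by
    rw [h2]; ring
  have h4 := (exp_hasSum (2 * |y|))
  have h5 : Summable fun n : ℕ => exp (-(((J : ℝ) + 1) / 2)) *
      ((2 * |y|) ^ (n + (J + 1)) / ((n + (J + 1)).factorial : ℝ)) :=
    ((summable_nat_add_iff (J + 1)).2 h4.summable).mul_left _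
  have h6 : ∀ n : ℕ, ‖y ^ (n + (J + 1)) / ((n + (J + 1)).factorial : ℝ)‖ ≤
      exp (-(((J : ℝ) + 1) / 2)) * ((2 * |y|) ^ (n + (J + 1)) / ((n + (J + 1)).factorial : ℝ)) := by
    intro n
    rw [norm_div, norm_pow, Real.norm_eq_abs, Real.norm_natCast, mul_pow, ← mul_div_assoc]
    refine div_le_div_of_nonneg_right ?_ (Nat.cast_nonneg _)
    have h7 : 1 ≤ exp (-(((J : ℝ) + 1) / 2)) * 2 ^ (n + (J + 1)) := by
      have e1 : exp (((n + (J + 1) : ℕ) : ℝ) * (1 / 2)) ≤ 2 ^ (n + (J + 1)) := by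
        rw [Real.exp_nat_mul]
        apply pow_le_pow_left₀ (exp_pos _).le
        have e2 : exp (1 / 2 : ℝ) ^ 2 = exp 1 := by rw [← Real.exp_nat_mul]; norm_num
        have e3 := Real.exp_one_lt_d9
        have e4 := exp_pos (1 / 2 : ℝ)
        nlinarith
      have e2 : exp (((J : ℝ) + 1) / 2) ≤ exp (((n + (J + 1) : ℕ) : ℝ) * (1 / 2)) := by
        apply exp_le_exp.2
        push_cast
        have : (0 : ℝ) ≤ n := Nat.cast_nonneg n
        linarith
      have e3 : exp (-(((J : ℝ) + 1) / 2)) * exp (((J : ℝ) + 1) / 2) = 1 := by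
        rw [← Real.exp_add, neg_add_cancel, Real.exp_zero]
      calc (1 : ℝ) = exp (-(((J : ℝ) + 1) / 2)) * exp (((J : ℝ) + 1) / 2) := e3.symm
        _ ≤ _ := mul_le_mul_of_nonneg_left (e2.trans e1) (exp_pos _).le
    have h8 : 0 ≤ |y| ^ (n + (J + 1)) := by positivity
    calc |y| ^ (n + (J + 1)) = 1 * |y| ^ (n + (J + 1)) := (one_mul _).symm
      _ ≤ (exp (-(((J : ℝ) + 1) / 2)) * 2 ^ (n + (J + 1))) * |y| ^ (n + (J + 1)) :=
        mul_le_mul_of_nonneg_right h7 h8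
      _ = _ := by ring
  rw [h3, abs_neg, ← Real.norm_eq_abs]
  refine (tsum_of_norm_bounded h5.hasSum h6).trans ?_
  rw [tsum_mul_left]
  refine mul_le_mul_of_nonneg_left ?_ (exp_pos _).le
  rw [← h4.tsum_eq, ← h4.summable.sum_add_tsum_nat_add (J + 1)]
  have : 0 ≤ ∑ i ∈ range (J + 1), (2 * |y|) ^ i / (i.factorial : ℝ) :=
    Finset.sum_nonneg fun i _ => by positivity
  linarith

lemma tj_sq_le2 (J : ℕ) {b : ℝ} (hb : |b| ≤ 3 / 2) (P : ℝ) : tj J (b * P) ^ 2 ≤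
    2 * exp (2 * b * P) + 2 * exp (-((J : ℝ) + 1)) * (exp (6 * P) + exp (-6 * P)) := by
  have h1 := tj_err2 J (b * P)
  set E := tj J (b * P) - exp (b * P) with hE
  have h2 : tj J (b * P) = exp (b * P) + E := by rw [hE]; ring
  have h3 : 2 * |b * P| ≤ 3 * |P| := by
    rw [abs_mul]
    have := mul_le_mul_of_nonneg_right hb (abs_nonneg P)
    linarith
  have h4 : |E| ≤ exp (-(((J : ℝ) + 1) / 2)) * exp (3 * |P|) :=
    h1.trans (mul_le_mul_of_nonneg_left (exp_le_exp.2 h3) (exp_pos _).le)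
  have h5 : E ^ 2 ≤ exp (-((J : ℝ) + 1)) * exp (6 * |P|) := by
    calc E ^ 2 = |E| ^ 2 := (sq_abs _).symm
      _ ≤ (exp (-(((J : ℝ) + 1) / 2)) * exp (3 * |P|)) ^ 2 := pow_le_pow_left₀ (abs_nonneg _) h4 2
      _ = _ := by
        rw [mul_pow, ← Real.exp_nat_mul, ← Real.exp_nat_mul]
        congr 2
        · push_cast; ring
        · push_cast; ring
  have h6 : exp (6 * |P|) ≤ exp (6 * P) + exp (-6 * P) := by
    rcases abs_cases P with ⟨h, _⟩ | ⟨h, _⟩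
    · rw [h]; linarith [exp_pos (-6 * P)]
    · rw [h]
      have : 6 * -P = -6 * P := by ring
      rw [this]; linarith [exp_pos (6 * P)]
  have h7 : exp (b * P) ^ 2 = exp (2 * b * P) := by
    rw [← Real.exp_nat_mul]; push_cast; ring_nf
  have h8 : tj J (b * P) ^ 2 ≤ 2 * exp (b * P) ^ 2 + 2 * E ^ 2 := by
    rw [h2]; nlinarith [sq_nonneg (exp (b * P) - E)]
  rw [h7] at h8
  have h9 : exp (-((J : ℝ) + 1)) * exp (6 * |P|) ≤
      exp (-((J : ℝ) + 1)) * (exp (6 * P) + exp (-6 * P)) :=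
    mul_le_mul_of_nonneg_left h6 (exp_pos _).le
  linarith

section

variable {S S' : Finset ℕ}

lemma BB_le2 (hS : ∀ p ∈ S, p.Prime) (hS' : S' ⊆ S) (J : ℕ) {b : ℝ} (hb : |b| ≤ 3 / 2) {s : ℂ}
    (hs : 0 ≤ s.re) :
    ∫ x, tj J (b * PP S' (XX S x)) ^ 2 * ‖EE S s x‖ ^ 2 ∂(mu S) ≤
      2 * MM S S' (2 * b) s + 2 * exp (-((J : ℝ) + 1)) * (MM S S' 6 s + MM S S' (-6) s) := by
  have hE : Continuous fun x : S → ℝ => ‖EE S s x‖ ^ 2 := by
    unfold EE
    refine (continuous_finsetProd _ fun p _ => ?_).norm.pow 2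
    exact (continuous_lf (tp_nonneg _) (tp_le (hS p p.2)) (norm_ps (hS p p.2) hs)).comp
      (continuous_apply p)
  have hEb : ∀ x : S → ℝ, |‖EE S s x‖ ^ 2| ≤ (16 ^ S.card) ^ 2 := by
    intro x
    rw [abs_of_nonneg (by positivity)]
    exact pow_le_pow_left₀ (norm_nonneg _) (norm_EE_le hS hs x) 2
  have i1 := fun b => exp_PP_int hS hS' b hE hEb
  have h1 : ∀ x : S → ℝ, tj J (b * PP S' (XX S x)) ^ 2 * ‖EE S s x‖ ^ 2 ≤
      2 * (exp (2 * b * PP S' (XX S x)) * ‖EE S s x‖ ^ 2) + 2 * exp (-((J : ℝ) + 1)) *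
        (exp (6 * PP S' (XX S x)) * ‖EE S s x‖ ^ 2 + exp (-6 * PP S' (XX S x)) * ‖EE S s x‖ ^ 2) := by
    intro x
    have := mul_le_mul_of_nonneg_right (tj_sq_le2 J hb (PP S' (XX S x))) (sq_nonneg ‖EE S s x‖)
    linarith
  exact int_le3 (fun x => by positivity) (i1 _) (i1 _) (i1 _) h1

lemma CC_le2 (hS : ∀ p ∈ S, p.Prime) (hS' : S' ⊆ S) (J : ℕ) {b : ℝ} (hb : |b| ≤ 3 / 2) :
    ∫ x, tj J (b * PP S' (XX S x)) ^ 2 ∂(mu S) ≤
      2 * NN S S' (2 * b) + 2 * exp (-((J : ℝ) + 1)) * (NN S S' 6 + NN S S' (-6)) := by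
  have i1 : ∀ b : ℝ, Integrable (fun x : S → ℝ => exp (b * PP S' (XX S x))) (mu S) := by
    intro b
    have := exp_PP_int hS hS' b (g := fun _ => 1) continuous_const (C := 1) (fun _ => by simp)
    simpa using this
  exact int_le3 (fun x => by positivity) (i1 _) (i1 _) (i1 _) fun x => tj_sq_le2 J hb _

end

theorem model_secondX {ε : ℝ} (hε : 0 < ε) : ∀ᶠ N : ℕ in atTop, ∀ b : ℝ, |b| ≤ 3 / 2 → ∀ J : ℕ,
    60 * ll N ≤ J →
    ∫ x, (tj J (b * PP (Ss N) (XX (Sb N) x)) *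
      SX (Sb N) (mm N) (hh N) (2 * π / Real.sqrt N) x) ^ 2 ∂(mu (Sb N)) ≤
      exp ((1 + 4 * b + 2 * b ^ 2 + ε) * ll N) := by
  have hε2 : 0 < min (ε / 2) 1 := by positivity
  filter_upwards [near_MM hε2, far_MM, ev_pow (10 ^ 10) 2 (ε := ε / 2) (by positivity), ev_ll 1,
    ev_log 1, ev_sub] with N h1 h2 h3 h4 h5 hsub b hb J hJ
  have hL0 : 0 < log (N : ℝ) := by linarith
  have hll0 : 0 < ll N := by linarith
  have hN0 : (0 : ℝ) < N := by
    by_contra h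
    have : (N : ℝ) = 0 := le_antisymm (not_lt.1 h) (Nat.cast_nonneg N)
    rw [this, Real.log_zero] at h5
    linarith
  have hmmp : (0 : ℝ) < mm N := by
    have : (2 : ℝ) ≤ mm N := by exact_mod_cast mm_two N
    linarith
  set σ : ℝ := 1 / log (N : ℝ) with hσ
  have hσ0 : 0 < σ := by positivity
  have hσ1 : σ ≤ 1 := by rw [hσ, div_le_one hL0]; exact h5
  have hhp : 0 < hh N := by unfold hh; positivity
  have hmσ : (mm N : ℝ) * (σ * hh N) ≤ 1 := by
    have : (mm N : ℝ) * (σ * hh N) = 1 / 8 := by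
      rw [hσ]; unfold hh; field_simp
    rw [this]; norm_num
  set E : ℝ := exp ((1 + 4 * b + 2 * b ^ 2 + ε / 2) * ll N) with hE
  have hE0 : 0 < E := exp_pos _
  have hb2 := abs_le.1 hb
  have hb6 : |2 * b| ≤ 6 := by
    rw [abs_mul, abs_two]; linarith
  have hkb : -1 ≤ 1 + 4 * b + 2 * b ^ 2 := by nlinarith [sq_nonneg (b + 1)]
  have hJe : exp (-((J : ℝ) + 1)) ≤ exp (-60 * ll N) := by
    apply exp_le_exp.2
    linarith
  -- near
  have hB1 : ∀ τ : ℝ, |τ| ≤ exp 1 * (1 / hh N) →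
      ∫ x, tj J (b * PP (Ss N) (XX (Sb N) x)) ^ 2 * ‖EE (Sb N) (σ + τ * Complex.I) x‖ ^ 2 ∂(mu (Sb N)) ≤
        6 * E := by
    intro τ hτ
    have hs : 0 ≤ ((σ : ℂ) + τ * Complex.I).re := by rw [re_line]; exact hσ0.le
    refine (BB_le2 Sb_prime hsub J hb hs).trans ?_
    have e1 := h1 (2 * b) hb6 τ hτ
    have e2 := h1 6 (by rw [abs_of_pos (by norm_num)]) τ hτ
    have e3 := h1 (-6) (by rw [abs_neg, abs_of_pos (by norm_num)]) τ hτ
    have f1 : exp ((1 + 2 * (2 * b) + (2 * b) ^ 2 / 2 + min (ε / 2) 1) * ll N) ≤ E := by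
      apply exp_le_exp.2
      apply mul_le_mul_of_nonneg_right _ hll0.le
      have := min_le_left (ε / 2) 1
      nlinarith
    have f2 : exp ((1 + 2 * 6 + 6 ^ 2 / 2 + min (ε / 2) 1) * ll N) ≤ exp (32 * ll N) := by
      apply exp_le_exp.2
      apply mul_le_mul_of_nonneg_right _ hll0.le
      have := min_le_right (ε / 2) 1
      linarith
    have f3 : exp ((1 + 2 * (-6) + (-6) ^ 2 / 2 + min (ε / 2) 1) * ll N) ≤ exp (32 * ll N) := by
      apply exp_le_exp.2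
      apply mul_le_mul_of_nonneg_right _ hll0.le
      have := min_le_right (ε / 2) 1
      linarith
    have f4 : exp (-60 * ll N) * exp (32 * ll N) ≤ E := by
      rw [← Real.exp_add]
      apply exp_le_exp.2
      nlinarith
    have m6 : MM (Sb N) (Ss N) 6 (σ + τ * Complex.I) + MM (Sb N) (Ss N) (-6) (σ + τ * Complex.I) ≤
        2 * exp (32 * ll N) := by linarith
    have m7 : 2 * exp (-((J : ℝ) + 1)) * (MM (Sb N) (Ss N) 6 (σ + τ * Complex.I) +
        MM (Sb N) (Ss N) (-6) (σ + τ * Complex.I)) ≤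
        2 * exp (-60 * ll N) * (2 * exp (32 * ll N)) := by
      refine mul_le_mul (by linarith) m6 ?_ (by positivity)
      unfold MM
      have g1 : ∀ b' : ℝ, 0 ≤ ∫ x, exp (b' * PP (Ss N) (XX (Sb N) x)) *
          ‖EE (Sb N) (σ + τ * Complex.I) x‖ ^ 2 ∂(mu (Sb N)) := fun b' =>
        integral_nonneg fun x => by positivity
      exact add_nonneg (g1 _) (g1 _)
    linarith
  -- far
  have hB2 : ∀ τ : ℝ,
      ∫ x, tj J (b * PP (Ss N) (XX (Sb N) x)) ^ 2 * ‖EE (Sb N) (σ + τ * Complex.I) x‖ ^ 2 ∂(mu (Sb N)) ≤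
        6 * exp (60 * ll N) := by
    intro τ
    have hs : 0 ≤ ((σ : ℂ) + τ * Complex.I).re := by rw [re_line]; exact hσ0.le
    refine (BB_le2 Sb_prime hsub J hb hs).trans ?_
    have e1 := h2 (2 * b) hb6 _ hs
    have e2 := h2 6 (by rw [abs_of_pos (by norm_num)]) _ hs
    have e3 := h2 (-6) (by rw [abs_neg, abs_of_pos (by norm_num)]) _ hs
    have f1 : exp (-((J : ℝ) + 1)) ≤ 1 := by
      apply exp_le_one_iff.2
      have : (0 : ℝ) ≤ J := Nat.cast_nonneg J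
      linarith
    have m7 : 2 * exp (-((J : ℝ) + 1)) * (MM (Sb N) (Ss N) 6 (σ + τ * Complex.I) +
        MM (Sb N) (Ss N) (-6) (σ + τ * Complex.I)) ≤
        2 * 1 * (2 * exp (60 * ll N)) := by
      refine mul_le_mul (by linarith) (by linarith) ?_ (by positivity)
      unfold MM
      have g1 : ∀ b' : ℝ, 0 ≤ ∫ x, exp (b' * PP (Ss N) (XX (Sb N) x)) *
          ‖EE (Sb N) (σ + τ * Complex.I) x‖ ^ 2 ∂(mu (Sb N)) := fun b' =>
        integral_nonneg fun x => by positivity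
      exact add_nonneg (g1 _) (g1 _)
    linarith
  have hTc : Continuous fun x : (Sb N) → ℝ => tj J (b * PP (Ss N) (XX (Sb N) x)) :=
    (tj_cont J).comp (continuous_const.mul PP_cont)
  have hTb : ∀ x : (Sb N) → ℝ, |tj J (b * PP (Ss N) (XX (Sb N) x))| ≤
      ∑ j ∈ range (J + 1), (1 / (j.factorial : ℝ)) * (3 / 2 * ∑ p ∈ Ss N, tp p * 2) ^ j := by
    intro x
    apply tj_bdd
    rw [abs_mul]
    exact mul_le_mul hb (PP_bdd Sb_prime hsub x) (abs_nonneg _) (by norm_num)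
  have key := model_bound Sb_prime (mm_two N) hhp hσ0 hmσ (c := 2 * π / Real.sqrt N)
    (by positivity) hTc hTb (B1 := 6 * E) (B2 := 6 * exp (60 * ll N)) (by positivity) (by positivity)
    hB1 hB2
  refine key.trans ?_
  have g1 : 27 * (6 * E) + 45 * exp (-(mm N : ℝ)) * (6 * exp (60 * ll N)) ≤ 432 * E := by
    have e1 : exp (-(mm N : ℝ)) * exp (60 * ll N) ≤ E := by
      rw [← Real.exp_add]
      apply exp_le_exp.2
      have := mm_ge N
      nlinarith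
    linarith
  have g2 : ((2 * π / Real.sqrt N) ^ (-σ)) ^ 2 ≤ 3 := by
    have hsN : 0 < Real.sqrt N := Real.sqrt_pos.2 hN0
    have hsN1 : 1 ≤ Real.sqrt N := by
      rw [Real.one_le_sqrt]
      by_contra h
      push Not at h
      have := Real.log_neg hN0 h
      linarith
    have e1 : (2 * π / Real.sqrt N) ^ (-σ) ≤ (N : ℝ) ^ (σ / 2) := by
      rw [Real.rpow_neg (by positivity), ← Real.inv_rpow (by positivity), inv_div]
      calc (Real.sqrt N / (2 * π)) ^ σ ≤ (Real.sqrt N) ^ σ := by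
            apply Real.rpow_le_rpow (by positivity) _ hσ0.le
            apply div_le_self hsN.le
            linarith [Real.pi_gt_three]
        _ = (N : ℝ) ^ (σ / 2) := by
            rw [Real.sqrt_eq_rpow, ← Real.rpow_mul hN0.le]
            congr 1
            ring
    calc ((2 * π / Real.sqrt N) ^ (-σ)) ^ 2 ≤ ((N : ℝ) ^ (σ / 2)) ^ 2 :=
          pow_le_pow_left₀ (by positivity) e1 2
      _ = exp 1 := by
          rw [← Real.rpow_natCast, ← Real.rpow_mul hN0.le, Real.rpow_def_of_pos hN0]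
          congr 1
          rw [hσ]
          push_cast
          field_simp
      _ ≤ 3 := by have := Real.exp_one_lt_d9; linarith
  have g3 : Real.Gamma σ ≤ log N := by
    have := gamma_le hσ0 hσ1
    rwa [hσ, one_div_one_div] at this
  have hG0 : 0 < Real.Gamma σ := Real.Gamma_pos_of_pos hσ0
  have g4 : 1 / hh N ≤ 520 * ll N / log N := by
    unfold hh
    rw [one_div_div]
    apply div_le_div_of_nonneg_right _ hL0.le
    have := mm_le h4
    linarith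
  have g5 : Real.Gamma σ * (1 / hh N) ≤ 520 * ll N := by
    calc Real.Gamma σ * (1 / hh N) ≤ log N * (520 * ll N / log N) :=
          mul_le_mul g3 g4 (by positivity) hL0.le
      _ = _ := by field_simp
  have g6 : (Real.Gamma σ * (1 / hh N)) ^ 2 ≤ (520 * ll N) ^ 2 :=
    pow_le_pow_left₀ (by positivity) g5 2
  calc ((2 * π / Real.sqrt N) ^ (-σ) * Real.Gamma σ / (2 * π)) ^ 2 * (27 * (π / hh N)) *
        ((27 * (6 * E) + 45 * exp (-(mm N : ℝ)) * (6 * exp (60 * ll N))) * (π / hh N)) ≤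
      ((2 * π / Real.sqrt N) ^ (-σ) * Real.Gamma σ / (2 * π)) ^ 2 * (27 * (π / hh N)) *
        ((432 * E) * (π / hh N)) := by
        refine mul_le_mul_of_nonneg_left ?_ (by positivity)
        exact mul_le_mul_of_nonneg_right g1 (by positivity)
    _ = 2916 * (((2 * π / Real.sqrt N) ^ (-σ)) ^ 2 * (Real.Gamma σ * (1 / hh N)) ^ 2) * E := by
        field_simp
        ring
    _ ≤ 2916 * (3 * (520 * ll N) ^ 2) * E := by
        refine mul_le_mul_of_nonneg_right ?_ hE0.le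
        refine mul_le_mul_of_nonneg_left ?_ (by norm_num)
        exact mul_le_mul g2 g6 (by positivity) (by norm_num)
    _ = 2365459200 * ll N ^ 2 * E := by ring
    _ ≤ (10 ^ 10 * ll N ^ 2) * E := by
        refine mul_le_mul_of_nonneg_right ?_ hE0.le
        nlinarith [sq_nonneg (ll N)]
    _ ≤ exp (ε / 2 * ll N) * E := mul_le_mul_of_nonneg_right h3 hE0.le
    _ = _ := by
        rw [hE, ← Real.exp_add]
        congr 1
        ring

theorem model_TX {ε : ℝ} (hε : 0 < ε) : ∀ᶠ N : ℕ in atTop, ∀ b : ℝ, |b| ≤ 3 / 2 → ∀ J : ℕ,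
    60 * ll N ≤ J →
    ∫ x, tj J (b * PP (Ss N) (XX (Sb N) x)) ^ 2 ∂(mu (Sb N)) ≤ exp ((2 * b ^ 2 + ε) * ll N) := by
  obtain ⟨K, hK0, hK⟩ := NN_le 6 (by norm_num)
  obtain ⟨C3, hC30, hC3⟩ := sum_tp3
  filter_upwards [ev_sumS (ε := ε / 24) (by positivity),
    ev_lin (K * C3) (ε := ε / 4) (by positivity), ev_ll 10, ev_sub, ev_NN,
    ev_pow 4 0 (ε := ε / 4) (by positivity)] with N h1 h2 h3 hsub h4 h5 b hb J hJ
  rw [pow_zero, mul_one] at h5
  have hll : 0 < ll N := by linarith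
  have hb2 : b ^ 2 ≤ 9 / 4 := by
    rw [← sq_abs]
    calc |b| ^ 2 ≤ (3 / 2) ^ 2 := pow_le_pow_left₀ (abs_nonneg _) hb 2
      _ = 9 / 4 := by norm_num
  refine (CC_le2 Sb_prime hsub J hb).trans ?_
  have h8 := hC3 (Sb N)
  have h9 : K * ∑ p ∈ Sb N, tp p ^ 3 ≤ K * C3 := mul_le_mul_of_nonneg_left h8 hK0
  have k1 := hK (Sb N) (Ss N) (2 * b) Sb_prime hsub (by rw [abs_mul, abs_two]; linarith)
  set E : ℝ := exp ((2 * b ^ 2 + 3 * ε / 4) * ll N) with hE
  have e1 : NN (Sb N) (Ss N) (2 * b) ≤ E := by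
    refine k1.trans (exp_le_exp.2 ?_)
    have h6 := (abs_le.1 h1).2
    have h7 : (2 * b) ^ 2 / 2 * ∑ p ∈ Ss N, (1 : ℝ) / p ≤ 2 * b ^ 2 * ((1 + ε / 24) * ll N) := by
      have : (2 * b) ^ 2 / 2 = 2 * b ^ 2 := by ring
      rw [this]
      exact mul_le_mul_of_nonneg_left (by linarith) (by positivity)
    have h10 : b ^ 2 * (ε * ll N) ≤ 9 / 4 * (ε * ll N) := mul_le_mul_of_nonneg_right hb2 (by positivity)
    nlinarith
  have e2 : exp (-((J : ℝ) + 1)) * (NN (Sb N) (Ss N) 6 + NN (Sb N) (Ss N) (-6)) ≤ E := by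
    have f1 : exp (-((J : ℝ) + 1)) * (NN (Sb N) (Ss N) 6 + NN (Sb N) (Ss N) (-6)) ≤
        exp (-60 * ll N) * exp (20 * ll N) := by
      refine mul_le_mul (exp_le_exp.2 (by linarith)) h4.1 ?_ (exp_pos _).le
      unfold NN
      exact add_nonneg (integral_nonneg fun x => (exp_pos _).le) (integral_nonneg fun x => (exp_pos _).le)
    refine f1.trans ?_
    rw [← Real.exp_add]
    apply exp_le_exp.2
    have : 0 ≤ (2 * b ^ 2 + 3 * ε / 4) * ll N := by positivity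
    linarith
  calc 2 * NN (Sb N) (Ss N) (2 * b) + 2 * exp (-((J : ℝ) + 1)) *
        (NN (Sb N) (Ss N) 6 + NN (Sb N) (Ss N) (-6)) ≤ 4 * E := by linarith
    _ ≤ exp (ε / 4 * ll N) * E := mul_le_mul_of_nonneg_right h5 (exp_pos _).le
    _ = _ := by
      rw [hE, ← Real.exp_add]
      congr 1
      ring

theorem model_truncX {ε : ℝ} (hε : 0 < ε) : ∀ᶠ N : ℕ in atTop, ∀ b : ℝ, |b| ≤ 3 / 2 → ∀ J : ℕ,
    60 * ll N ≤ J →
    ∫ x, (tj J (b * PP (Ss N) (XX (Sb N) x)) * SYf N (XX (Sb N) x)) ^ 2 ∂(mu (Sb N)) ≤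
      exp ((1 + 4 * b + 2 * b ^ 2 + ε) * ll N) := by
  filter_upwards [model_secondX (half_pos hε), model_TX (ε := 1) one_pos, tail, ev_N, ev_log 1,
    ev_pow 4 0 (half_pos hε), ev_ll 1, ev_sub] with N h1 h2 h3 h4 h5 h6 h7 hsub b hb J hJ
  rw [pow_zero, mul_one] at h6
  have hll : 0 < ll N := by linarith
  have hb2 : b ^ 2 ≤ 9 / 4 := by
    rw [← sq_abs]
    calc |b| ^ 2 ≤ (3 / 2) ^ 2 := pow_le_pow_left₀ (abs_nonneg _) hb 2
      _ = 9 / 4 := by norm_num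
  have hkb : -1 ≤ 1 + 4 * b + 2 * b ^ 2 := by nlinarith [sq_nonneg (b + 1)]
  obtain ⟨hSc, CS, hSb⟩ := SN_cont h5
  have hTc : Continuous fun x : (Sb N) → ℝ => tj J (b * PP (Ss N) (XX (Sb N) x)) :=
    (tj_cont J).comp (continuous_const.mul PP_cont)
  obtain ⟨CT, hTb⟩ : ∃ CT : ℝ, ∀ x : (Sb N) → ℝ, |tj J (b * PP (Ss N) (XX (Sb N) x))| ≤ CT := by
    refine ⟨∑ j ∈ range (J + 1), (1 / (j.factorial : ℝ)) * (3 / 2 * ∑ p ∈ Ss N, tp p * 2) ^ j, fun x => ?_⟩
    apply tj_bdd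
    rw [abs_mul]
    exact mul_le_mul hb (PP_bdd Sb_prime hsub x) (abs_nonneg _) (by norm_num)
  have i1 : Integrable (fun x => (tj J (b * PP (Ss N) (XX (Sb N) x)) * SN N x) ^ 2) (mu (Sb N)) := by
    refine integrable_mu (C := (CT * CS) ^ 2) ((hTc.mul hSc).pow 2) fun x => ?_
    rw [norm_pow, norm_mul, Real.norm_eq_abs, Real.norm_eq_abs]
    exact pow_le_pow_left₀ (by positivity) (mul_le_mul (hTb x) (hSb x) (abs_nonneg _)
      ((abs_nonneg _).trans (hTb x))) 2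
  have i2 : Integrable (fun x => tj J (b * PP (Ss N) (XX (Sb N) x)) ^ 2) (mu (Sb N)) := by
    refine integrable_mu (C := CT ^ 2) (hTc.pow 2) fun x => ?_
    rw [norm_pow, Real.norm_eq_abs]
    exact pow_le_pow_left₀ (by positivity) (hTb x) 2
  have i3 : Integrable (fun _ : (Sb N) → ℝ => (0 : ℝ)) (mu (Sb N)) := integrable_zero _ _ _
  have key : ∀ x : (Sb N) → ℝ, (tj J (b * PP (Ss N) (XX (Sb N) x)) * SYf N (XX (Sb N) x)) ^ 2 ≤
      2 * (tj J (b * PP (Ss N) (XX (Sb N) x)) * SN N x) ^ 2 +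
      2 * (exp (-5 * ll N)) ^ 2 * (tj J (b * PP (Ss N) (XX (Sb N) x)) ^ 2 + 0) := by
    intro x
    have e1 := (h3 (ax N x) (abs_ax x)).trans h4
    rw [← SN_eq, ← SY_eq] at e1
    set T := tj J (b * PP (Ss N) (XX (Sb N) x))
    set D := SN N x - SYf N (XX (Sb N) x) with hD
    have e2 : SYf N (XX (Sb N) x) = SN N x - D := by rw [hD]; ring
    have e3 : D ^ 2 ≤ (exp (-5 * ll N)) ^ 2 := by
      rw [← sq_abs]
      exact pow_le_pow_left₀ (abs_nonneg _) e1 2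
    rw [e2, add_zero]
    have e4 : (T * (SN N x - D)) ^ 2 ≤ 2 * (T * SN N x) ^ 2 + 2 * (T * D) ^ 2 := by
      nlinarith [sq_nonneg (T * SN N x + T * D)]
    have e5 : (T * D) ^ 2 ≤ (exp (-5 * ll N)) ^ 2 * T ^ 2 := by
      rw [mul_pow, mul_comm]
      exact mul_le_mul_of_nonneg_right e3 (sq_nonneg T)
    linarith
  refine (int_le3 (fun x => sq_nonneg _) i1 i2 i3 key).trans ?_
  rw [integral_zero, add_zero]
  have g1 := h1 b hb J hJ
  have g2 := h2 b hb J hJ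
  set E : ℝ := exp ((1 + 4 * b + 2 * b ^ 2 + ε / 2) * ll N) with hE
  have g3 : (exp (-5 * ll N)) ^ 2 * ∫ x, tj J (b * PP (Ss N) (XX (Sb N) x)) ^ 2 ∂(mu (Sb N)) ≤ E := by
    calc (exp (-5 * ll N)) ^ 2 * ∫ x, tj J (b * PP (Ss N) (XX (Sb N) x)) ^ 2 ∂(mu (Sb N)) ≤
        (exp (-5 * ll N)) ^ 2 * exp ((2 * b ^ 2 + 1) * ll N) :=
          mul_le_mul_of_nonneg_left g2 (by positivity)
      _ ≤ E := by
        rw [← Real.exp_nat_mul, ← Real.exp_add]
        apply exp_le_exp.2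
        push_cast
        nlinarith
  have g4 : ∫ x, (tj J (b * PP (Ss N) (XX (Sb N) x)) * SN N x) ^ 2 ∂(mu (Sb N)) ≤ E := g1
  calc 2 * (∫ x, (tj J (b * PP (Ss N) (XX (Sb N) x)) * SN N x) ^ 2 ∂(mu (Sb N))) +
        2 * (exp (-5 * ll N)) ^ 2 * (∫ x, tj J (b * PP (Ss N) (XX (Sb N) x)) ^ 2 ∂(mu (Sb N))) ≤
        4 * E := by linarith
    _ ≤ exp (ε / 2 * ll N) * E := mul_le_mul_of_nonneg_right h6 (exp_pos _).le
    _ = _ := by
      rw [hE, ← Real.exp_add]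
      congr 1
      ring

/-- the second moment over the forms with a larger tilt -/
theorem har2 {ε : ℝ} (hε : 0 < ε) : ∀ᶠ N : ℕ in atTop, N.Prime → ∀ [NeZero N]
    (B : Finset (SF N 2)), IsNewSet N 2 B → ∀ b : ℝ, |b| ≤ 3 / 2 → ∀ J : ℕ, 60 * ll N ≤ J → J ≤ 100 * ll N →
      ∑ f ∈ B, om f * (tj J (b * PP (Ss N) (W388.lamf f)) * SYf N (W388.lamf f)) ^ 2 ≤
        exp ((1 + 4 * b + 2 * b ^ 2 + ε) * ll N) := by
  obtain ⟨N0, hN0⟩ := ls_obs 2 le_rfl 1 (1 / 8) one_pos (by norm_num) (by norm_num)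
  filter_upwards [eventually_ge_atTop N0, model_truncX (half_pos hε),
    ev_sub, ev_len 100, ev_log 1, ev_pow 2 0 (half_pos hε)] with N h0 h1 hsub h4 h5 h6 hp _ B hB b hb J hJ1 hJ2
  rw [pow_zero, mul_one] at h6
  have hz : 1 ≤ zr N := zr_ge_one (by linarith)
  have o1 := obs_T hsub hz b (Nat.cast_nonneg _) (obs_SY N) J
  have k1 := hN0 N h0 B hB (Sb N) Sb_prime (Sb_ndvd hp) _ _ o1 (h4 J hJ2).1
  have k2 := h1 b hb J hJ1
  refine k1.trans ?_
  have e : (1 : ℝ) + 1 = 2 := by norm_num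
  rw [e]
  calc 2 * ∫ x, (tj J (b * PP (Ss N) (XX (Sb N) x)) * SYf N (XX (Sb N) x)) ^ 2 ∂(mu (Sb N)) ≤
      2 * exp ((1 + 4 * b + 2 * b ^ 2 + ε / 2) * ll N) := mul_le_mul_of_nonneg_left k2 (by norm_num)
    _ ≤ exp (ε / 2 * ll N) * exp ((1 + 4 * b + 2 * b ^ 2 + ε / 2) * ll N) :=
        mul_le_mul_of_nonneg_right h6 (exp_pos _).le
    _ = _ := by rw [← Real.exp_add]; congr 1; ring

end Pool.Agent.H485.CC
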