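import Pool.Agent.H485.CC.Ldx

/-!
# The lower tail: the mass of the forms with a small prime sum
-/

set_option autoImplicit false
set_option maxHeartbeats 4000000

open MeasureTheory Real Finset Filter

namespace Pool.Agent.H485.CC

open W388.LV (SF om IsNewSet)

lemma loc_lowY {t : ℝ} (ht0 : 0 ≤ t) {b : ℝ} (hb : |b| ≤ 3) :
    exp (b ^ 2 / 2 * t ^ 2 - 464 * t ^ 3) ≤ ∫ θ, exp (b * (uu 1 θ * t)) ∂st := by
  have hcu : Continuous fun θ : ℝ => uu 1 θ := continuous_uu 1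
  have hu : ∀ θ, |uu 1 θ| ≤ 2 := fun θ => by
    have := abs_uu_le 1 θ
    norm_num at this
    exact this
  have hCB : CB fun θ : ℝ => uu 1 θ := ⟨hcu, 2, hu⟩
  have hi1 : Integrable (fun θ => exp (b * (uu 1 θ * t))) st := by
    have h1 : CB fun θ : ℝ => exp (b * (uu 1 θ * t)) := ((hCB.mul (CB.const t)).smul b).exp
    obtain ⟨h2, C, h3⟩ := h1
    exact Integrable.of_bound h2.aestronglyMeasurable C (Filter.Eventually.of_forall h3)
  have hi2 : Integrable (fun θ => b * (uu 1 θ * t)) st := by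
    have h1 : CB fun θ : ℝ => b * (uu 1 θ * t) := (hCB.mul (CB.const t)).smul b
    obtain ⟨h2, C, h3⟩ := h1
    exact Integrable.of_bound h2.aestronglyMeasurable C (Filter.Eventually.of_forall h3)
  have hi3 : Integrable (fun θ => (b * (uu 1 θ * t)) ^ 2 / 2) st := by
    have h1 : CB fun θ : ℝ => (b * (uu 1 θ * t)) ^ 2 := ((hCB.mul (CB.const t)).smul b).pow 2
    obtain ⟨h2, C, h3⟩ := h1
    exact (Integrable.of_bound h2.aestronglyMeasurable C (Filter.Eventually.of_forall h3)).div_const 2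
  have m1 : ∫ θ, b * (uu 1 θ * t) ∂st = 0 := by
    rw [integral_const_mul, integral_mul_const, st_one]
    ring
  have m2 : ∫ θ, (b * (uu 1 θ * t)) ^ 2 / 2 ∂st = b ^ 2 / 2 * t ^ 2 := by
    have e : ∀ θ : ℝ, (b * (uu 1 θ * t)) ^ 2 / 2 = (b ^ 2 / 2 * t ^ 2) * uu 1 θ ^ 2 := fun θ => by ring
    simp_rw [e]
    rw [integral_const_mul, st_two, mul_one]
  have hb2 : b ^ 2 ≤ 9 := by
    rw [← sq_abs]
    calc |b| ^ 2 ≤ 3 ^ 2 := pow_le_pow_left₀ (abs_nonneg _) hb 2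
      _ = 9 := by norm_num
  by_cases h : t ≤ 1 / 8
  · have hy : ∀ θ, |b * (uu 1 θ * t)| ≤ 6 * t := fun θ => by
      rw [abs_mul, abs_mul, abs_of_nonneg ht0]
      have h1 : |uu 1 θ| * t ≤ 2 * t := mul_le_mul_of_nonneg_right (hu θ) ht0
      calc |b| * (|uu 1 θ| * t) ≤ 3 * (2 * t) := mul_le_mul hb h1 (by positivity) (by norm_num)
        _ = _ := by ring
    have h1 : ∫ θ, (1 + b * (uu 1 θ * t) + (b * (uu 1 θ * t)) ^ 2 / 2 - 216 * t ^ 3) ∂st ≤
        ∫ θ, exp (b * (uu 1 θ * t)) ∂st := by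
      refine integral_mono ((((integrable_const 1).add hi2).add hi3).sub (integrable_const _)) hi1 fun θ => ?_
      have h2 := exp_two_sided ((hy θ).trans (by linarith : 6 * t ≤ 1))
      have h3 := (abs_le.1 h2).1
      have h4 : |b * (uu 1 θ * t)| ^ 3 ≤ (6 * t) ^ 3 := pow_le_pow_left₀ (abs_nonneg _) (hy θ) 3
      have h5 : (6 * t) ^ 3 = 216 * t ^ 3 := by ring
      dsimp only
      linarith
    have h2 : ∫ θ, (1 + b * (uu 1 θ * t) + (b * (uu 1 θ * t)) ^ 2 / 2 - 216 * t ^ 3) ∂st =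
        1 + (b ^ 2 / 2 * t ^ 2 - 216 * t ^ 3) := by
      have j1 : Integrable (fun θ => 1 + b * (uu 1 θ * t)) st := (integrable_const 1).add hi2
      have j2 : Integrable (fun θ => 1 + b * (uu 1 θ * t) + (b * (uu 1 θ * t)) ^ 2 / 2) st := j1.add hi3
      rw [integral_sub j2 (integrable_const _), integral_add j1 hi3, integral_add (integrable_const 1) hi2, m1, m2]
      simp only [integral_const, probReal_univ, smul_eq_mul, one_mul, add_zero]
      ring
    rw [h2] at h1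
    set y := b ^ 2 / 2 * t ^ 2 - 216 * t ^ 3 with hy0
    have ht2 : 0 ≤ t ^ 2 := sq_nonneg t
    have ht3 : 0 ≤ t ^ 3 := by positivity
    have ht3' : t ^ 3 ≤ t ^ 2 * (1 / 8) := by
      rw [pow_succ]; exact mul_le_mul_of_nonneg_left h ht2
    have ht2' : t ^ 2 ≤ (1 / 8) ^ 2 := pow_le_pow_left₀ ht0 h 2
    have e0 : b ^ 2 / 2 * t ^ 2 ≤ 9 / 2 * t ^ 2 := mul_le_mul_of_nonneg_right (by linarith) ht2
    have e1 : 0 ≤ b ^ 2 / 2 * t ^ 2 := by positivity
    have e2 : -(1 / 2) ≤ y := by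
      have : t ^ 3 ≤ (1 / 8) ^ 3 := pow_le_pow_left₀ ht0 h 3
      norm_num at this ⊢
      linarith
    have e3 : |y| ≤ 27 * t ^ 2 := by
      rw [abs_le]
      constructor <;> linarith
    have e4 : 2 * y ^ 2 ≤ 248 * t ^ 3 := by
      have f1 : y ^ 2 ≤ (27 * t ^ 2) ^ 2 := by
        rw [← sq_abs]
        exact pow_le_pow_left₀ (abs_nonneg _) e3 2
      have f2 : (27 * t ^ 2) ^ 2 = 729 * (t ^ 3 * t) := by ring
      have f3 : t ^ 3 * t ≤ t ^ 3 * (1 / 8) := mul_le_mul_of_nonneg_left h ht3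
      linarith
    refine le_trans (exp_le_exp.2 ?_) ((one_add_ge e2).trans h1)
    linarith
  · push Not at h
    have h1 : ∫ θ, (1 + b * (uu 1 θ * t)) ∂st ≤ ∫ θ, exp (b * (uu 1 θ * t)) ∂st := by
      refine integral_mono ((integrable_const 1).add hi2) hi1 fun θ => ?_
      have := add_one_le_exp (b * (uu 1 θ * t))
      dsimp only
      linarith
    rw [integral_add (integrable_const 1) hi2, m1] at h1
    simp only [integral_const, probReal_univ, smul_eq_mul, mul_one, add_zero] at h1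
    refine le_trans ?_ h1
    apply Real.exp_le_one_iff.2
    have ht2 : 0 ≤ t ^ 2 := sq_nonneg t
    have e0 : b ^ 2 / 2 * t ^ 2 ≤ 9 / 2 * t ^ 2 := mul_le_mul_of_nonneg_right (by linarith) ht2
    have e1 : t ^ 2 * (1 / 8) ≤ t ^ 3 := by
      rw [pow_succ t 2]; exact mul_le_mul_of_nonneg_left h.le ht2
    linarith

theorem NN_low {ε : ℝ} (hε : 0 < ε) : ∀ᶠ N : ℕ in atTop, ∀ b : ℝ, |b| ≤ 3 →
    exp ((b ^ 2 / 2 - ε) * ll N) ≤ NN (Sb N) (Ss N) b ∧ NN (Sb N) (Ss N) b ≤ exp (9 * ll N) := by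
  obtain ⟨C3, hC30, hC3⟩ := sum_tp3
  obtain ⟨K, hK0, hK⟩ := NN_le 3 (by norm_num)
  filter_upwards [ev_sumS (ε := min (ε / 9) (1 / 100)) (by positivity), ev_sub,
    ev_lin (464 * C3) (ε := ε / 2) (by positivity), ev_lin (K * C3) (ε := 1) one_pos, ev_ll 1] with
    N h1 hsub h2 h2' h3 b hb
  have hll : 0 < ll N := by linarith
  obtain ⟨h1a, h1b⟩ := abs_le.1 h1
  have m1 : min (ε / 9) (1 / 100) ≤ ε / 9 := min_le_left _ _
  have m2 : min (ε / 9) (1 / 100) ≤ 1 / 100 := min_le_right _ _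
  have hb2 : b ^ 2 ≤ 9 := by
    rw [← sq_abs]
    calc |b| ^ 2 ≤ 3 ^ 2 := pow_le_pow_left₀ (abs_nonneg _) hb 2
      _ = 9 := by norm_num
  constructor
  · have h0 : NN (Sb N) (Ss N) b = ∏ p : Sb N, ∫ θ, exp ((if (p : ℕ) ∈ Ss N then b else 0) * (uu 1 θ * tp p)) ∂st := by
      unfold NN mu
      rw [← integral_fintype_prod_eq_prod (μ := fun _ : Sb N => st)
        (f := fun (p : Sb N) θ => exp ((if (p : ℕ) ∈ Ss N then b else 0) * (uu 1 θ * tp p)))]
      congr 1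
      ext x
      rw [PP_XX Sb_prime hsub, ← Real.exp_sum, Finset.mul_sum]
      congr 1
      refine Finset.sum_congr rfl fun p _ => ?_
      split_ifs
      · ring
      · ring
    rw [h0]
    have h4 : ∏ p : Sb N, exp ((if (p : ℕ) ∈ Ss N then b ^ 2 / 2 * (1 / ((p : ℕ) : ℝ)) else 0) - 464 * tp p ^ 3) ≤
        ∏ p : Sb N, ∫ θ, exp ((if (p : ℕ) ∈ Ss N then b else 0) * (uu 1 θ * tp p)) ∂st := by
      refine Finset.prod_le_prod (fun p _ => (exp_pos _).le) fun p _ => ?_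
      split_ifs with hp
      · have h5 := loc_lowY (tp_nonneg p) hb
        rwa [tp_sq] at h5
      · simp only [zero_mul, Real.exp_zero, integral_const, probReal_univ, smul_eq_mul, mul_one]
        apply Real.exp_le_one_iff.2
        have : 0 ≤ tp p ^ 3 := pow_nonneg (tp_nonneg p) 3
        linarith
    refine le_trans ?_ h4
    rw [← Real.exp_sum, Finset.sum_sub_distrib, ← Finset.mul_sum]
    apply exp_le_exp.2
    have e1 : ∑ p : Sb N, (if (p : ℕ) ∈ Ss N then b ^ 2 / 2 * (1 / ((p : ℕ) : ℝ)) else 0) =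
        b ^ 2 / 2 * ∑ p ∈ Ss N, (1 : ℝ) / p := by
      rw [Finset.sum_coe_sort (Sb N) (fun p : ℕ => if p ∈ Ss N then b ^ 2 / 2 * (1 / (p : ℝ)) else 0),
        ← Finset.sum_filter, Finset.mul_sum]
      congr 1
      ext p
      rw [Finset.mem_filter]
      exact ⟨fun h => h.2, fun h => ⟨hsub h, h⟩⟩
    have e2 : ∑ p : Sb N, tp p ^ 3 = ∑ p ∈ Sb N, tp p ^ 3 := Finset.sum_coe_sort (Sb N) (fun p : ℕ => tp p ^ 3)
    rw [e1, e2]
    have e3 := hC3 (Sb N)
    have e4 : b ^ 2 / 2 * (ll N - ∑ p ∈ Ss N, (1 : ℝ) / p) ≤ 9 / 2 * (ε / 9 * ll N) := by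
      have f1 : ll N - ∑ p ∈ Ss N, (1 : ℝ) / p ≤ ε / 9 * ll N := by
        have := mul_le_mul_of_nonneg_right m1 hll.le
        linarith
      have f2 : 0 ≤ ε / 9 * ll N := by positivity
      calc b ^ 2 / 2 * (ll N - ∑ p ∈ Ss N, (1 : ℝ) / p) ≤ b ^ 2 / 2 * (ε / 9 * ll N) :=
            mul_le_mul_of_nonneg_left f1 (by positivity)
        _ ≤ _ := mul_le_mul_of_nonneg_right (by linarith) f2
    linarith
  · refine (hK (Sb N) (Ss N) b Sb_prime hsub hb).trans (exp_le_exp.2 ?_)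
    have e3 := hC3 (Sb N)
    have e4 : K * ∑ p ∈ Sb N, tp p ^ 3 ≤ K * C3 := mul_le_mul_of_nonneg_left e3 hK0
    have e5 : b ^ 2 / 2 * ∑ p ∈ Ss N, (1 : ℝ) / p ≤ 9 / 2 * (1.01 * ll N) := by
      have f1 : ∑ p ∈ Ss N, (1 : ℝ) / p ≤ 1.01 * ll N := by
        have := mul_le_mul_of_nonneg_right m2 hll.le
        linarith
      have f0 : 0 ≤ ∑ p ∈ Ss N, (1 : ℝ) / p := Finset.sum_nonneg fun p _ => by positivity
      exact mul_le_mul (by linarith) f1 f0 (by norm_num)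
    linarith

/-- the first moment of the square of the truncated exponential over the even forms -/
theorem first_T2 {ε : ℝ} (hε : 0 < ε) : ∀ᶠ N : ℕ in atTop, N.Prime → ∀ [NeZero N] (B : Finset (SF N 2)),
    W388.LV.IsNewBasis N 2 B → ∀ E : Finset (SF N 2), (∀ f, f ∈ E ↔ f ∈ B ∧ W388.IsNewf N 2 f 1) →
    ∀ c : ℝ, |c| ≤ 1 → ∀ J : ℕ, 80 * ll N ≤ J → J ≤ 100 * ll N →
    exp ((2 * c ^ 2 - ε) * ll N) ≤ ∑ f ∈ E, om f * tj J (c * PP (Ss N) (W388.lamf f)) ^ 2 := by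
  set ε' := min (ε / 4) (1 / 4) with hε'
  have hε'0 : 0 < ε' := by positivity
  have hm1 : ε' ≤ ε / 4 := min_le_left _ _
  have hm2 : ε' ≤ 1 / 4 := min_le_right _ _
  filter_upwards [NN_low (ε := ε') hε'0, ev_size, ev_sub, obs_even_pow,
    ev_ll 20, ev_log 2, ev_lin 16 (ε := ε / 2) (by positivity),
    ev_big 2 11 (ε := 1 / 2000) (by norm_num)] with
    N h1 h2 hsub hobs hll hlogN h16 hb2 hN _ B hB E hE c hc J hJ1 hJ2
  have hlog : 1 ≤ log (N : ℝ) := by linarith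
  have hlog0 : 0 < log (N : ℝ) := by linarith
  have hN0 := pos_of_log hlog
  have hz1 := zr_ge_one (N := N) hlog0.le
  have hz0 : 0 ≤ zr N := by linarith
  have hN1 : (1 : ℝ) ≤ N := by
    by_contra hcon
    push Not at hcon
    have := Real.log_neg hN0 hcon
    linarith
  obtain ⟨s1, s2⟩ := h2 J hJ2
  set T : (ℕ → ℝ) → ℝ := fun lam => tj J (c * PP (Ss N) lam) with hT
  have hone : Obs (Sb N) 1 fun _ : ℕ → ℝ => (1 : ℝ) := Obs.const le_rfl 1
  have o2 : Obs (Sb N) (zr N ^ J * (zr N ^ J * 1)) fun lam => T lam * (T lam * 1) :=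
    obs_T hsub hz1 c (by positivity) (obs_T hsub hz1 c zero_le_one hone J) J
  have l2 : zr N ^ J * (zr N ^ J * 1) ≤ (N : ℝ) ^ (1 - 1 / 8 : ℝ) := by
    rw [mul_one, ← pow_add, ← two_mul]
    exact s1.trans (Real.rpow_le_rpow_of_exponent_le hN1 (by norm_num))
  set M := (N : ℝ) ^ (1 / 40000 : ℝ) with hM
  have hM0 : 0 < M := by positivity
  have b1 : ∀ x : Sb N → ℝ, |T (XX (Sb N) x)| ≤ M := fun x => (T_sup hsub hlog0.le hc J x).trans s2
  have hP : CB fun x : Sb N → ℝ => PP (Ss N) (XX (Sb N) x) := CB.PP Sb_prime hsub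
  have hTC : CB fun x : Sb N → ℝ => T (XX (Sb N) x) := tj_CB J (hP.smul c)
  have m2 := hobs hN B hB E hE (Sb N) Sb_prime (Sb_ndvd hN) _ _ o2 l2
  have m3 : sqrt (∫ x, (T (XX (Sb N) x) * (T (XX (Sb N) x) * 1)) ^ 2 ∂(mu (Sb N))) ≤ M ^ 2 := by
    rw [Real.sqrt_le_left (by positivity)]
    have hi : CB fun x : Sb N → ℝ => (T (XX (Sb N) x) * (T (XX (Sb N) x) * 1)) ^ 2 :=
      (hTC.mul (hTC.mul (CB.const 1))).pow 2
    calc ∫ x, (T (XX (Sb N) x) * (T (XX (Sb N) x) * 1)) ^ 2 ∂(mu (Sb N)) ≤ ∫ _x, M ^ 4 ∂(mu (Sb N)) :=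
          integral_mono hi.int (integrable_const _) fun x => by
            dsimp only
            rw [mul_one]
            calc (T (XX (Sb N) x) * T (XX (Sb N) x)) ^ 2 = |T (XX (Sb N) x)| ^ 4 := by
                  rw [← pow_two, ← pow_mul, ← abs_pow, abs_of_nonneg (by positivity)]
              _ ≤ M ^ 4 := pow_le_pow_left₀ (abs_nonneg _) (b1 x) 4
      _ = M ^ 4 := by rw [integral_const]; simp
      _ = (M ^ 2) ^ 2 := by ring
  have m4 : (N : ℝ) ^ (-(1 / 1000) : ℝ) * M ^ 2 ≤ exp (-10 * ll N) := by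
    have e3 : (N : ℝ) ^ (-(1 / 1000) : ℝ) * M ^ 2 = (N : ℝ) ^ (-(1 / 1000) + 1 / 20000 : ℝ) := by
      rw [hM, ← Real.rpow_natCast ((N : ℝ) ^ (1 / 40000 : ℝ)) 2, ← Real.rpow_mul hN0.le, ← Real.rpow_add hN0]
      norm_num
    have e4 : (N : ℝ) ^ (-(1 / 1000) + 1 / 20000 : ℝ) ≤ (N : ℝ) ^ (-(1 / 2000) : ℝ) :=
      Real.rpow_le_rpow_of_exponent_le hN1 (by norm_num)
    have e5 : (N : ℝ) ^ (-(1 / 2000) : ℝ) ≤ (2 * exp (11 * ll N))⁻¹ := by
      rw [Real.rpow_neg hN0.le]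
      exact inv_anti₀ (by positivity) hb2
    have e6 : (2 * exp (11 * ll N))⁻¹ ≤ exp (-10 * ll N) := by
      rw [show -10 * ll N = -(10 * ll N) by ring, Real.exp_neg]
      apply inv_anti₀ (exp_pos _)
      have : exp (10 * ll N) ≤ exp (11 * ll N) := exp_le_exp.2 (by linarith)
      linarith [exp_pos (11 * ll N)]
    rw [e3]
    exact e4.trans (e5.trans e6)
  have hc2 : |2 * c| ≤ 3 := by rw [abs_mul, abs_two]; linarith
  have m6 := h1 (2 * c) hc2
  have m7 := h1 3 (by norm_num)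
  have m8 := h1 (-3) (by norm_num)
  have hR : 4 * (20 * ll N) ≤ J := by linarith
  have m5 : NN (Sb N) (Ss N) (2 * c) / 4 - 2 * exp (-(20 * ll N)) * (NN (Sb N) (Ss N) 3 + NN (Sb N) (Ss N) (-3)) ≤
      ∫ x, T (XX (Sb N) x) * (T (XX (Sb N) x) * 1) ∂(mu (Sb N)) := by
    have hX : ∀ b : ℝ, CB fun x : Sb N → ℝ => exp (b * PP (Ss N) (XX (Sb N) x)) := fun b => (hP.smul b).exp
    have e1 : NN (Sb N) (Ss N) (2 * c) / 4 - 2 * exp (-(20 * ll N)) * (NN (Sb N) (Ss N) 3 + NN (Sb N) (Ss N) (-3)) =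
        ∫ x, (1 / 4 * exp (2 * c * PP (Ss N) (XX (Sb N) x)) - 2 * exp (-(20 * ll N)) *
          (exp (3 * PP (Ss N) (XX (Sb N) x)) + exp (-3 * PP (Ss N) (XX (Sb N) x)))) ∂(mu (Sb N)) := by
      rw [integral_sub ((hX _).smul _).int (((hX 3).add (hX (-3))).smul _).int, integral_const_mul,
        integral_const_mul, integral_add (hX 3).int (hX (-3)).int]
      unfold NN
      ring
    rw [e1]
    refine integral_mono (((hX _).smul _).int.sub (((hX 3).add (hX (-3))).smul _).int)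
      (hTC.mul (hTC.mul (CB.const 1))).int fun x => ?_
    have h := tt_low (P := PP (Ss N) (XX (Sb N) x)) hc hc hR
    dsimp only
    rw [mul_one]
    refine le_trans (le_of_eq ?_) h
    rw [show (c + c) = 2 * c by ring]
    ring
  have k1 : 2 * exp (-(20 * ll N)) * (NN (Sb N) (Ss N) 3 + NN (Sb N) (Ss N) (-3)) ≤ 4 * exp (-10 * ll N) := by
    have e1 : 2 * exp (-(20 * ll N)) * (NN (Sb N) (Ss N) 3 + NN (Sb N) (Ss N) (-3)) ≤
        2 * exp (-(20 * ll N)) * (2 * exp (9 * ll N)) :=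
      mul_le_mul_of_nonneg_left (by linarith [m7.2, m8.2]) (by positivity)
    refine e1.trans ?_
    have e2 : 2 * exp (-(20 * ll N)) * (2 * exp (9 * ll N)) = 4 * exp (-11 * ll N) := by
      have : exp (-11 * ll N) = exp (-(20 * ll N)) * exp (9 * ll N) := by
        rw [← Real.exp_add]; congr 1; ring
      rw [this]; ring
    rw [e2]
    exact mul_le_mul_of_nonneg_left (exp_le_exp.2 (by linarith)) (by norm_num)
  have hcc : (2 * c) ^ 2 / 2 = 2 * c ^ 2 := by ring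
  rw [hcc] at m6
  set X := exp ((2 * c ^ 2 - ε') * ll N) with hX
  have hX1 : exp (-ll N) ≤ X := by
    apply exp_le_exp.2
    nlinarith [sq_nonneg c]
  have k2 : 96 * exp (-10 * ll N) ≤ X := by
    refine le_trans ?_ hX1
    have e1 : exp (-ll N) = exp (-10 * ll N) * exp (9 * ll N) := by
      rw [← Real.exp_add]; congr 1; ring
    rw [e1, mul_comm]
    refine mul_le_mul_of_nonneg_left ?_ (exp_pos _).le
    have := add_one_le_exp (9 * ll N)
    linarith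
  have k3 : exp ((2 * c ^ 2 - ε) * ll N) ≤ X / 16 := by
    rw [le_div_iff₀ (by norm_num : (0 : ℝ) < 16)]
    have e1 : (16 : ℝ) ≤ exp (ε / 2 * ll N) := by
      have := add_one_le_exp (ε / 2 * ll N)
      linarith
    calc exp ((2 * c ^ 2 - ε) * ll N) * 16 ≤ exp ((2 * c ^ 2 - ε) * ll N) * exp (ε / 2 * ll N) :=
          mul_le_mul_of_nonneg_left e1 (exp_pos _).le
      _ ≤ _ := by
        rw [← Real.exp_add]
        apply exp_le_exp.2
        nlinarith
  have m2' := (abs_le.1 m2).1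
  have m9 : (N : ℝ) ^ (-(1 / 1000) : ℝ) *
      sqrt (∫ x, (T (XX (Sb N) x) * (T (XX (Sb N) x) * 1)) ^ 2 ∂(mu (Sb N))) ≤ exp (-10 * ll N) :=
    (mul_le_mul_of_nonneg_left m3 (by positivity)).trans m4
  set I2 := ∫ x, T (XX (Sb N) x) * (T (XX (Sb N) x) * 1) ∂(mu (Sb N)) with hI2
  have m2'' : -((N : ℝ) ^ (-(1 / 1000) : ℝ) *
      sqrt (∫ x, (T (XX (Sb N) x) * (T (XX (Sb N) x) * 1)) ^ 2 ∂(mu (Sb N)))) ≤
      ∑ f ∈ E, om f * (T (W388.lamf f) * (T (W388.lamf f) * 1)) - I2 / 2 := m2'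
  have key : X / 8 - 4 * exp (-10 * ll N) ≤
      ∑ f ∈ E, om f * (T (W388.lamf f) * (T (W388.lamf f) * 1)) := by
    have m61 := m6.1
    have he := exp_pos (-10 * ll N)
    linarith
  have e0 : ∑ f ∈ E, om f * tj J (c * PP (Ss N) (W388.lamf f)) ^ 2 =
      ∑ f ∈ E, om f * (T (W388.lamf f) * (T (W388.lamf f) * 1)) :=
    Finset.sum_congr rfl fun f _ => by rw [hT]; ring
  rw [e0]
  refine le_trans ?_ key
  have := exp_pos (-10 * ll N)
  linarith

end Pool.Agent.H485.CC
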