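import Pool.Agent.H485.CC.Ldy
import Pool.Agent.H485.CC.Ldn

/-!
# The lower tail: the mass of the forms with a small central value
-/

set_option autoImplicit false
set_option maxHeartbeats 4000000

open MeasureTheory Real Finset Filter

namespace Pool.Agent.H485.CC

open W388.LV (SF om IsNewSet)
open Pool.Agent.Y18.BSD

/-- the abstract deduction -/
lemma low_abs {ι : Type} (E : Finset ι) (w Q S t2 tp tm tb : ι → ℝ) (hw : ∀ i ∈ E, 0 ≤ w i)
    {v δ ε L R : ℝ} (hv0 : 0 < v) (hv1 : v ≤ 1) (hδ : 0 < δ) (hδ1 : δ ≤ 1) (hε0 : 0 < ε)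
    (hε : ε ≤ δ ^ 2 / 16) (hL : 1 ≤ L) (hbig : 1000 ≤ exp (ε * L))
    (h2 : ∀ i ∈ E, |Q i| ≤ R → exp (v / 2 * Q i) / 2 ≤ t2 i ∧ t2 i ≤ 3 / 2 * exp (v / 2 * Q i))
    (hp : ∀ i ∈ E, |Q i| ≤ R → exp ((v + δ) / 2 * Q i) / 2 ≤ tp i)
    (hm : ∀ i ∈ E, |Q i| ≤ R → exp ((v - δ) / 2 * Q i) / 2 ≤ tm i)
    (hb : ∀ i ∈ E, |Q i| ≤ 2 * L → exp ((1 + v / 2) * Q i) / 2 ≤ tb i)
    (hU : ∑ i ∈ E, w i * (tb i * S i) ^ 2 ≤ exp ((v ^ 2 / 2 - 1 + ε) * L))
    (hVp : ∑ i ∈ E, w i * tp i ^ 2 ≤ exp (((v + δ) ^ 2 / 2 + ε) * L))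
    (hVm : ∑ i ∈ E, w i * tm i ^ 2 ≤ exp (((v - δ) ^ 2 / 2 + ε) * L))
    (hB : ∑ i ∈ E with R < |Q i|, w i * t2 i ^ 2 ≤ exp (-L))
    (hM : exp ((v ^ 2 / 2 - ε) * L) ≤ ∑ i ∈ E, w i * t2 i ^ 2) :
    exp ((-(v ^ 2 / 2) - 2 * δ) * L) ≤ ∑ i ∈ E with |S i| ≤ exp ((-(1 / 2) - v + 3 * δ) * L), w i := by
  have hL0 : 0 < L := by linarith
  have hδ2 : δ ^ 2 ≤ δ := by nlinarith
  have hεδ : ε ≤ δ / 16 := by linarith
  have hvδ : v * δ ≤ δ := by nlinarith
  have hvδ0 : 0 ≤ v * δ := by positivity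
  set s1 : ℝ := exp ((-(1 / 2) - v + 3 * δ) * L) with hs1
  have hs10 : 0 < s1 := exp_pos _
  have sqe : ∀ x : ℝ, exp (x / 2) ^ 2 = exp x := fun x => by
    rw [← Real.exp_nat_mul]; congr 1; push_cast; ring
  -- constants
  have hcon : ∀ (k : ℝ) (x y : ℝ), k ≤ 1000 → x + ε ≤ y → k * exp (x * L) ≤ exp (y * L) := by
    intro k x y hk hxy
    calc k * exp (x * L) ≤ exp (ε * L) * exp (x * L) :=
          mul_le_mul_of_nonneg_right (hk.trans hbig) (exp_pos _).le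
      _ = exp ((x + ε) * L) := by rw [← Real.exp_add]; congr 1; ring
      _ ≤ _ := exp_le_exp.2 (mul_le_mul_of_nonneg_right hxy hL0.le)
  -- pointwise bounds
  have p2u : ∀ i ∈ E, |Q i| ≤ R → t2 i ^ 2 ≤ 9 / 4 * exp (v * Q i) := by
    intro i hi hPi
    obtain ⟨a1, a2⟩ := h2 i hi hPi
    have a3 : 0 ≤ t2 i := le_trans (by positivity) a1
    calc t2 i ^ 2 ≤ (3 / 2 * exp (v / 2 * Q i)) ^ 2 := pow_le_pow_left₀ a3 a2 2
      _ = 9 / 4 * exp (v / 2 * Q i) ^ 2 := by ring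
      _ = _ := by rw [show v / 2 * Q i = (v * Q i) / 2 by ring, sqe]
  have ppl : ∀ i ∈ E, |Q i| ≤ R → exp ((v + δ) * Q i) / 4 ≤ tp i ^ 2 := by
    intro i hi hPi
    calc exp ((v + δ) * Q i) / 4 = (exp ((v + δ) / 2 * Q i) / 2) ^ 2 := by
          rw [div_pow, show (v + δ) / 2 * Q i = ((v + δ) * Q i) / 2 by ring, sqe]; norm_num
      _ ≤ _ := pow_le_pow_left₀ (by positivity) (hp i hi hPi) 2
  have pml : ∀ i ∈ E, |Q i| ≤ R → exp ((v - δ) * Q i) / 4 ≤ tm i ^ 2 := by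
    intro i hi hPi
    calc exp ((v - δ) * Q i) / 4 = (exp ((v - δ) / 2 * Q i) / 2) ^ 2 := by
          rw [div_pow, show (v - δ) / 2 * Q i = ((v - δ) * Q i) / 2 by ring, sqe]; norm_num
      _ ≤ _ := pow_le_pow_left₀ (by positivity) (hm i hi hPi) 2
  have pbl : ∀ i ∈ E, |Q i| ≤ 2 * L → exp ((2 + v) * Q i) / 4 ≤ tb i ^ 2 := by
    intro i hi hPi
    calc exp ((2 + v) * Q i) / 4 = (exp ((1 + v / 2) * Q i) / 2) ^ 2 := by
          rw [div_pow, show (1 + v / 2) * Q i = ((2 + v) * Q i) / 2 by ring, sqe]; norm_num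
      _ ≤ _ := pow_le_pow_left₀ (by positivity) (hb i hi hPi) 2
  -- the good set
  let G : ι → Prop := fun i => |Q i| ≤ R ∧ (v - δ) * L ≤ Q i ∧ Q i ≤ (v + δ) * L
  have hOut : ∑ i ∈ E with ¬ G i, w i * t2 i ^ 2 ≤ 19 * exp (((v ^ 2 - δ ^ 2) / 2 + ε) * L) := by
    have k1 : ∑ i ∈ E with ¬ G i, w i * t2 i ^ 2 ≤ ∑ i ∈ E with R < |Q i|, w i * t2 i ^ 2 +
        9 * exp (-(δ * (v + δ)) * L) * ∑ i ∈ E, w i * tp i ^ 2 +
        9 * exp ((δ * (v - δ)) * L) * ∑ i ∈ E, w i * tm i ^ 2 := by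
      rw [Finset.sum_filter, Finset.sum_filter, Finset.mul_sum, Finset.mul_sum, ← Finset.sum_add_distrib,
        ← Finset.sum_add_distrib]
      refine Finset.sum_le_sum fun i hi => ?_
      have w0 := hw i hi
      have q1 : 0 ≤ 9 * exp (-(δ * (v + δ)) * L) * (w i * tp i ^ 2) := by positivity
      have q2 : 0 ≤ 9 * exp ((δ * (v - δ)) * L) * (w i * tm i ^ 2) := by positivity
      have q3 : 0 ≤ w i * t2 i ^ 2 := by positivity
      by_cases hG : G i
      · rw [if_neg (not_not.2 hG)]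
        split_ifs <;> linarith
      · rw [if_pos hG]
        by_cases hR : R < |Q i|
        · rw [if_pos hR]; linarith
        · rw [if_neg hR]
          push Not at hR
          have hcase : Q i < (v - δ) * L ∨ (v + δ) * L < Q i := by
            by_contra hcon'
            push Not at hcon'
            exact hG ⟨hR, hcon'.1, hcon'.2⟩
          have u2 := p2u i hi hR
          rcases hcase with hc | hc
          · have e1 : 9 / 4 * exp (v * Q i) ≤ 9 * exp ((δ * (v - δ)) * L) * tm i ^ 2 := by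
              have e2 : exp (v * Q i) = exp ((v - δ) * Q i) * exp (δ * Q i) := by
                rw [← Real.exp_add]; congr 1; ring
              have e3 : exp (δ * Q i) ≤ exp ((δ * (v - δ)) * L) := by
                apply exp_le_exp.2
                nlinarith
              have e4 := pml i hi hR
              have e5 : exp ((v - δ) * Q i) * exp (δ * Q i) ≤ (4 * tm i ^ 2) * exp ((δ * (v - δ)) * L) :=
                mul_le_mul (by linarith) e3 (exp_pos _).le (by positivity)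
              rw [e2]
              linarith
            have := mul_le_mul_of_nonneg_left (u2.trans e1) w0
            linarith
          · have e1 : 9 / 4 * exp (v * Q i) ≤ 9 * exp (-(δ * (v + δ)) * L) * tp i ^ 2 := by
              have e2 : exp (v * Q i) = exp ((v + δ) * Q i) * exp (-(δ * Q i)) := by
                rw [← Real.exp_add]; congr 1; ring
              have e3 : exp (-(δ * Q i)) ≤ exp (-(δ * (v + δ)) * L) := by
                apply exp_le_exp.2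
                nlinarith
              have e4 := ppl i hi hR
              have e5 : exp ((v + δ) * Q i) * exp (-(δ * Q i)) ≤ (4 * tp i ^ 2) * exp (-(δ * (v + δ)) * L) :=
                mul_le_mul (by linarith) e3 (exp_pos _).le (by positivity)
              rw [e2]
              linarith
            have := mul_le_mul_of_nonneg_left (u2.trans e1) w0
            linarith
    have k2 : 9 * exp (-(δ * (v + δ)) * L) * ∑ i ∈ E, w i * tp i ^ 2 ≤ 9 * exp (((v ^ 2 - δ ^ 2) / 2 + ε) * L) := by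
      calc 9 * exp (-(δ * (v + δ)) * L) * ∑ i ∈ E, w i * tp i ^ 2 ≤
            9 * exp (-(δ * (v + δ)) * L) * exp (((v + δ) ^ 2 / 2 + ε) * L) :=
            mul_le_mul_of_nonneg_left hVp (by positivity)
        _ = _ := by rw [mul_assoc, ← Real.exp_add]; congr 2; ring
    have k3 : 9 * exp ((δ * (v - δ)) * L) * ∑ i ∈ E, w i * tm i ^ 2 ≤ 9 * exp (((v ^ 2 - δ ^ 2) / 2 + ε) * L) := by
      calc 9 * exp ((δ * (v - δ)) * L) * ∑ i ∈ E, w i * tm i ^ 2 ≤
            9 * exp ((δ * (v - δ)) * L) * exp (((v - δ) ^ 2 / 2 + ε) * L) :=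
            mul_le_mul_of_nonneg_left hVm (by positivity)
        _ = _ := by rw [mul_assoc, ← Real.exp_add]; congr 2; ring
    have k4 : exp (-L) ≤ exp (((v ^ 2 - δ ^ 2) / 2 + ε) * L) := by
      apply exp_le_exp.2
      have : -1 ≤ (v ^ 2 - δ ^ 2) / 2 + ε := by nlinarith [sq_nonneg v]
      nlinarith
    linarith
  -- the mass of `t2²` on the good set
  set X : ℝ := exp ((v ^ 2 / 2 - ε) * L) with hX
  have hX0 : 0 < X := exp_pos _
  have hIn : X / 2 ≤ ∑ i ∈ E with G i, w i * t2 i ^ 2 := by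
    have e1 := Finset.sum_filter_add_sum_filter_not E G (fun i => w i * t2 i ^ 2)
    have e2 := hcon 38 ((v ^ 2 - δ ^ 2) / 2 + ε) (v ^ 2 / 2 - ε) (by norm_num) (by linarith)
    linarith
  set W := ∑ i ∈ E with G i, w i with hW
  have hWl : exp ((-(v ^ 2 / 2) - v * δ - ε) * L) ≤ 9 / 2 * W := by
    have e1 : ∑ i ∈ E with G i, w i * t2 i ^ 2 ≤ 9 / 4 * exp ((v ^ 2 + v * δ) * L) * W := by
      rw [hW, Finset.mul_sum]
      refine Finset.sum_le_sum fun i hi => ?_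
      obtain ⟨hi1, g1, g2, g3⟩ := Finset.mem_filter.1 hi
      have w0 := hw i hi1
      have e1 := p2u i hi1 g1
      have e2 : exp (v * Q i) ≤ exp ((v ^ 2 + v * δ) * L) := by
        apply exp_le_exp.2
        nlinarith
      have e3 : t2 i ^ 2 ≤ 9 / 4 * exp ((v ^ 2 + v * δ) * L) := e1.trans (by linarith)
      have := mul_le_mul_of_nonneg_left e3 w0
      linarith
    have e2 : X ≤ exp ((v ^ 2 + v * δ) * L) * (9 / 2 * W) := by linarith
    have e3 : X = exp ((v ^ 2 + v * δ) * L) * exp ((-(v ^ 2 / 2) - v * δ - ε) * L) := by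
      rw [hX, ← Real.exp_add]; congr 1; ring
    rw [e3] at e2
    exact le_of_mul_le_mul_left e2 (exp_pos _)
  -- the bad set
  have hbad : ∑ i ∈ E with (G i ∧ ¬ |S i| ≤ s1), w i ≤ 4 * exp ((-(v ^ 2 / 2) - 4 * δ + v * δ + ε) * L) := by
    have k1 : exp ((v ^ 2 - 1 + 4 * δ - v * δ) * L) / 4 * ∑ i ∈ E with (G i ∧ ¬ |S i| ≤ s1), w i ≤
        ∑ i ∈ E, w i * (tb i * S i) ^ 2 := by
      rw [Finset.mul_sum]
      refine le_trans (Finset.sum_le_sum fun i hi => ?_)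
        (Finset.sum_le_sum_of_subset_of_nonneg (Finset.filter_subset (fun i => G i ∧ ¬ |S i| ≤ s1) E)
          fun i hi _ => mul_nonneg (hw i hi) (sq_nonneg _))
      obtain ⟨hi1, ⟨g1, g2, g3⟩, hS⟩ := Finset.mem_filter.1 hi
      have w0 := hw i hi1
      push Not at hS
      have hQ2 : |Q i| ≤ 2 * L := by
        rw [abs_le]
        constructor <;> nlinarith
      have e1 := pbl i hi1 hQ2
      have e2 : s1 ^ 2 ≤ S i ^ 2 := by
        rw [← sq_abs (S i)]
        exact pow_le_pow_left₀ hs10.le hS.le 2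
      have e3 : s1 ^ 2 = exp ((-1 - 2 * v + 6 * δ) * L) := by
        rw [hs1, ← Real.exp_nat_mul]; congr 1; push_cast; ring
      have e4 : exp ((2 + v) * (v - δ) * L) ≤ exp ((2 + v) * Q i) := by
        apply exp_le_exp.2
        rw [mul_assoc]
        exact mul_le_mul_of_nonneg_left g2 (by linarith)
      have e5 : exp ((v ^ 2 - 1 + 4 * δ - v * δ) * L) / 4 ≤ (tb i * S i) ^ 2 := by
        have f1 : exp ((v ^ 2 - 1 + 4 * δ - v * δ) * L) / 4 = (exp ((2 + v) * (v - δ) * L) / 4) * s1 ^ 2 := by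
          rw [e3, div_mul_eq_mul_div, ← Real.exp_add]
          congr 2
          ring
        rw [f1, mul_pow]
        exact mul_le_mul (by linarith) e2 (sq_nonneg _) (sq_nonneg _)
      calc exp ((v ^ 2 - 1 + 4 * δ - v * δ) * L) / 4 * w i = w i * (exp ((v ^ 2 - 1 + 4 * δ - v * δ) * L) / 4) := by
            ring
        _ ≤ _ := mul_le_mul_of_nonneg_left e5 w0
    have k2 := k1.trans hU
    have k3 : exp ((v ^ 2 / 2 - 1 + ε) * L) =
        exp ((v ^ 2 - 1 + 4 * δ - v * δ) * L) / 4 * (4 * exp ((-(v ^ 2 / 2) - 4 * δ + v * δ + ε) * L)) := by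
      have : exp ((v ^ 2 / 2 - 1 + ε) * L) = exp ((v ^ 2 - 1 + 4 * δ - v * δ) * L) *
          exp ((-(v ^ 2 / 2) - 4 * δ + v * δ + ε) * L) := by
        rw [← Real.exp_add]; congr 1; ring
      rw [this]; ring
    rw [k3] at k2
    exact le_of_mul_le_mul_left k2 (by positivity)
  have hsplit : W ≤ ∑ i ∈ E with |S i| ≤ s1, w i + ∑ i ∈ E with (G i ∧ ¬ |S i| ≤ s1), w i := by
    rw [hW, Finset.sum_filter, Finset.sum_filter, Finset.sum_filter, ← Finset.sum_add_distrib]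
    refine Finset.sum_le_sum fun i hi => ?_
    have w0 := hw i hi
    by_cases hG : G i
    · by_cases hS : |S i| ≤ s1
      · simp [hG, hS]
      · simp [hG, hS]
    · by_cases hS : |S i| ≤ s1
      · simp [hG, hS, w0]
      · simp [hG, hS]
  have c1 := hcon 36 (-(v ^ 2 / 2) - 4 * δ + v * δ + ε) (-(v ^ 2 / 2) - v * δ - ε) (by norm_num) (by linarith)
  have c2 := hcon 9 (-(v ^ 2 / 2) - 2 * δ) (-(v ^ 2 / 2) - v * δ - ε) (by norm_num) (by linarith)
  linarith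

/-- **the harmonic lower tail for the smooth sum** -/
theorem har_tail {v δ : ℝ} (hv0 : 0 < v) (hv1 : v ≤ 1) (hδ : 0 < δ) (hδ1 : δ ≤ 1) :
    ∀ᶠ N : ℕ in atTop, N.Prime → ∀ [NeZero N] (B : Finset (SF N 2)),
    W388.LV.IsNewBasis N 2 B → ∀ E : Finset (SF N 2), (∀ f, f ∈ E ↔ f ∈ B ∧ W388.IsNewf N 2 f 1) →
    exp ((-(v ^ 2 / 2) - 2 * δ) * ll N) ≤
      ∑ f ∈ E with |SYf N (W388.lamf f)| ≤ exp ((-(1 / 2) - v + 3 * δ) * ll N), om f := by
  set ε : ℝ := δ ^ 2 / 16 with hε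
  have hε0 : 0 < ε := by positivity
  filter_upwards [first_T2 (ε := ε) hε0, har_S5 (ε := ε) hε0, har2 (ε := ε) hε0, tail_T, ev_ll 20,
    ev_lin 1000 (ε := ε) hε0] with N h1 h2 h2' h3 hll h4 hN _ B hB E hE
  have hll0 : 0 < ll N := by linarith
  have hBs := isNewSet_of_basis hB
  have hEB : E ⊆ B := fun f hf => ((hE f).1 hf).1
  set J : ℕ := ⌈80 * ll N⌉₊ with hJ
  have hJ1 : 80 * ll N ≤ J := Nat.le_ceil _
  have hJ2 : (J : ℝ) ≤ 100 * ll N := by
    have := Nat.ceil_lt_add_one (show 0 ≤ 80 * ll N by linarith)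
    linarith
  have hJ3 : 4 * (20 * ll N) ≤ J := by linarith
  have hJ4 : 30 * ll N ≤ J := by linarith
  have habs : ∀ x : ℝ, -1 ≤ x → x ≤ 1 → |x| ≤ 1 := fun x h1 h2 => abs_le.2 ⟨h1, h2⟩
  have hc := habs (-(v / 2)) (by linarith) (by linarith)
  have hcp := habs (-((v + δ) / 2)) (by linarith) (by linarith)
  have hcm := habs (-((v - δ) / 2)) (by linarith) (by linarith)
  have hbd : ∀ (d : ℝ), |d| ≤ 1 → ∀ P : ℝ, |P| ≤ 20 * ll N → |d * P| ≤ 20 * ll N := fun d hd P hP => by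
    rw [abs_mul]; exact (mul_le_of_le_one_left (abs_nonneg _) hd).trans hP
  have hneg : ∀ x P : ℝ, -x * P = x * -P := fun x P => by ring
  refine low_abs (ε := ε) (R := 20 * ll N) E (fun f => om f) (fun f => -PP (Ss N) (W388.lamf f))
    (fun f => SYf N (W388.lamf f)) (fun f => tj J (-(v / 2) * PP (Ss N) (W388.lamf f)))
    (fun f => tj J (-((v + δ) / 2) * PP (Ss N) (W388.lamf f)))
    (fun f => tj J (-((v - δ) / 2) * PP (Ss N) (W388.lamf f)))
    (fun f => tj J (-(1 + v / 2) * PP (Ss N) (W388.lamf f)))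
    (fun f _ => om_nonneg f) hv0 hv1 hδ hδ1
    hε0 le_rfl (by linarith) ?_ ?_ ?_ ?_ ?_ ?_ ?_ ?_ ?_ ?_
  · have := add_one_le_exp (ε * ll N)
    linarith
  · intro f _ hP
    rw [abs_neg] at hP
    have k := hbd _ hc _ hP
    have k1 := tj_ge k hJ3
    have k2 := tj_le k hJ3
    rw [hneg] at k1 k2
    exact ⟨by rw [hneg]; exact k1, by rw [hneg]; exact k2⟩
  · intro f _ hP
    rw [abs_neg] at hP
    have k1 := tj_ge (hbd _ hcp _ hP) hJ3
    rw [hneg] at k1
    rw [hneg]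
    exact k1
  · intro f _ hP
    rw [abs_neg] at hP
    have k1 := tj_ge (hbd _ hcm _ hP) hJ3
    rw [hneg] at k1
    rw [hneg]
    exact k1
  · intro f _ hP
    rw [abs_neg] at hP
    have k0 : |-(1 + v / 2) * PP (Ss N) (W388.lamf f)| ≤ 20 * ll N := by
      rw [abs_mul, abs_neg, abs_of_pos (by positivity : 0 < 1 + v / 2)]
      calc (1 + v / 2) * |PP (Ss N) (W388.lamf f)| ≤ 2 * (2 * ll N) :=
            mul_le_mul (by linarith) hP (abs_nonneg _) (by norm_num)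
        _ ≤ _ := by linarith
    have k1 := tj_ge k0 hJ3
    rw [hneg] at k1
    rw [hneg]
    exact k1
  · have k := h2' hN B hBs (-(1 + v / 2)) (by rw [abs_neg, abs_of_pos (by positivity)]; linarith) J
      (by linarith) hJ2
    refine (Finset.sum_le_sum_of_subset_of_nonneg hEB fun f _ _ => mul_nonneg (om_nonneg f) (sq_nonneg _)).trans
      (k.trans (le_of_eq ?_))
    congr 1; ring
  · refine (h2 hN B hB E hE _ hcp J hJ4 hJ2).2.trans (le_of_eq ?_)
    congr 1; ring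
  · refine (h2 hN B hB E hE _ hcm J hJ4 hJ2).2.trans (le_of_eq ?_)
    congr 1; ring
  · refine le_trans ?_ (h3 hN B hBs (-(v / 2)) hc J hJ2)
    refine Finset.sum_le_sum_of_subset_of_nonneg ?_ fun f _ _ => mul_nonneg (om_nonneg f) (sq_nonneg _)
    intro f hf
    rw [Finset.mem_filter] at hf ⊢
    refine ⟨hEB hf.1, ?_⟩
    have := hf.2
    rwa [abs_neg] at this
  · have k := h1 hN B hB E hE (-(v / 2)) hc J hJ1 hJ2
    refine le_trans (le_of_eq ?_) k
    congr 1; ring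

/-- **the harmonic lower tail for the central values** -/
theorem har_tail_cv {A : ℝ} (hA1 : 1 / 2 < A) (hA2 : A < 3 / 2) {ε : ℝ} (hε : 0 < ε) :
    ∀ᶠ N : ℕ in atTop, N.Prime → ∀ [NeZero N] (B : Finset (SF N 2)),
    W388.LV.IsNewBasis N 2 B → ∀ E : Finset (SF N 2), (∀ f, f ∈ E ↔ f ∈ B ∧ W388.IsNewf N 2 f 1) →
    exp ((-((A - 1 / 2) ^ 2 / 2) - ε) * ll N) ≤ ∑ f ∈ E with ‖bv f 0‖ ≤ exp (-A * ll N), om f := by
  obtain ⟨δ, hδ⟩ : ∃ δ : ℝ, δ = min (ε / 20) ((3 / 2 - A) / 10) := ⟨_, rfl⟩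
  have hδ0 : 0 < δ := by
    rw [hδ]
    exact lt_min (by positivity) (by linarith)
  have hδ1 : δ ≤ ε / 20 := by rw [hδ]; exact min_le_left _ _
  have hδ2 : δ ≤ (3 / 2 - A) / 10 := by rw [hδ]; exact min_le_right _ _
  set v : ℝ := (A - 1 / 2) + 4 * δ with hv
  have hvA0 : 0 < A - 1 / 2 := by linarith
  have hv0 : 0 < v := by positivity
  filter_upwards [har_tail hv0 (by rw [hv]; linarith) hδ0 (by linarith), bv_le, ev_lin 4 (ε := δ) hδ0,
    ev_ll 1] with N h1 h2 h3 hll hN _ B hB E hE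
  have hll0 : 0 < ll N := by linarith
  have h4 := h1 hN B hB E hE
  refine le_trans (exp_le_exp.2 ?_) (h4.trans (Finset.sum_le_sum_of_subset_of_nonneg ?_ fun f _ _ => om_nonneg f))
  · apply mul_le_mul_of_nonneg_right _ hll0.le
    have e1 : v ^ 2 = (A - 1 / 2) ^ 2 + 8 * (δ * (A - 1 / 2)) + 16 * δ ^ 2 := by rw [hv]; ring
    have e2 : δ * (A - 1 / 2) ≤ δ * 1 := mul_le_mul_of_nonneg_left (by linarith) hδ0.le
    have e3 : δ ^ 2 ≤ δ := by nlinarith
    rw [e1]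
    linarith
  · intro f hf
    rw [Finset.mem_filter] at hf ⊢
    refine ⟨hf.1, ?_⟩
    have hf1 := ((hE f).1 hf.1).2
    refine (h2 hN f 1 hf1).trans ?_
    have e3 : -(1 / 2) - v + 3 * δ = -A - δ := by rw [hv]; ring
    have e4 := hf.2
    rw [e3] at e4
    have e5 : exp (-5 * ll N) ≤ exp ((-A - δ) * ll N) := by
      apply exp_le_exp.2
      apply mul_le_mul_of_nonneg_right _ hll0.le
      linarith
    have e6 : 4 ≤ exp (δ * ll N) := by
      have := add_one_le_exp (δ * ll N)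
      linarith
    have e7 : exp (-A * ll N) = exp (δ * ll N) * exp ((-A - δ) * ll N) := by
      rw [← Real.exp_add]; congr 1; ring
    have e8 := mul_le_mul_of_nonneg_right e6 (exp_pos ((-A - δ) * ll N)).le
    rw [e7]
    linarith

/-- **the natural lower tail** -/
theorem nat_lowtail {A : ℝ} (hA1 : 1 / 2 < A) (hA2 : A < 3 / 2) {ε : ℝ} (hε : 0 < ε) :
    ∀ᶠ N : ℕ in atTop, N.Prime → ∀ [NeZero N] (B : Finset (SF N 2)), W388.LV.IsNewBasis N 2 B →
    ∀ E : Finset (SF N 2), (∀ f, f ∈ E ↔ f ∈ B ∧ W388.IsNewf N 2 f 1) →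
      N * exp ((-((A - 1 / 2) ^ 2 / 2) - ε) * ll N) ≤
        ((E.filter fun f => ‖bv f 0‖ ≤ exp (-A * ll N)).card : ℝ) := by
  classical
  have hv0 : 0 < A - 1 / 2 := by linarith
  have hv1 : (A - 1 / 2) ^ 2 < 1 := by nlinarith
  obtain ⟨δ, hδ⟩ : ∃ δ : ℝ, δ = min (ε / 2) ((1 - (A - 1 / 2) ^ 2) / 4) := ⟨_, rfl⟩
  have hδ0 : 0 < δ := by rw [hδ]; exact lt_min (by positivity) (by linarith)
  have hδ1 : δ ≤ ε / 2 := by rw [hδ]; exact min_le_left _ _
  have hδ2 : δ ≤ (1 - (A - 1 / 2) ^ 2) / 4 := by rw [hδ]; exact min_le_right _ _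
  obtain ⟨C, hC0, hC⟩ := om_large
  filter_upwards [har_tail_cv hA1 hA2 hδ0, hC,
    ev_lin (2 * C) (ε := (1 - (A - 1 / 2) ^ 2) / 4) (by linarith), ev_ll 1,
    ev_pow (2 * C) 2 (ε := ε / 2) (by positivity)] with N h1 h2 h3 hll h4 hN _ B hB E hE
  have hll0 : 0 < ll N := by linarith
  have hN0 : (0 : ℝ) < N := by exact_mod_cast hN.pos
  have hBs := isNewSet_of_basis hB
  have hEB : E ⊆ B := fun f hf => ((hE f).1 hf).1
  obtain ⟨Eb, k1, k2, k3⟩ := h2 hN B hBs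
  set T := E.filter fun f => ‖bv f 0‖ ≤ exp (-A * ll N) with hT
  have hTB : T ⊆ B := (Finset.filter_subset _ _).trans hEB
  have m1 := h1 hN B hB E hE
  set X : ℝ := exp ((-((A - 1 / 2) ^ 2 / 2) - δ) * ll N) with hX
  have hX0 : 0 < X := exp_pos _
  have m2 : ∑ f ∈ T, om f ≤ ∑ f ∈ Eb, om f + T.card * (C * ll N ^ 2 / N) := by
    calc ∑ f ∈ T, om f ≤ ∑ f ∈ Eb ∪ (T \ Eb), om f :=
          Finset.sum_le_sum_of_subset_of_nonneg (fun f hf => by
            rw [Finset.mem_union, Finset.mem_sdiff]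
            by_cases h : f ∈ Eb
            · exact Or.inl h
            · exact Or.inr ⟨hf, h⟩) fun f _ _ => om_nonneg f
      _ = ∑ f ∈ Eb, om f + ∑ f ∈ T \ Eb, om f := Finset.sum_union Finset.disjoint_sdiff
      _ ≤ ∑ f ∈ Eb, om f + ∑ f ∈ T \ Eb, (C * ll N ^ 2 / N) := by
          refine add_le_add le_rfl (Finset.sum_le_sum fun f hf => ?_)
          rw [Finset.mem_sdiff] at hf
          exact k3 f (hTB hf.1) hf.2
      _ = ∑ f ∈ Eb, om f + ((T \ Eb).card : ℝ) * (C * ll N ^ 2 / N) := by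
          rw [Finset.sum_const, nsmul_eq_mul]
      _ ≤ _ := by
          refine add_le_add le_rfl (mul_le_mul_of_nonneg_right ?_ (by positivity))
          exact_mod_cast Finset.card_le_card Finset.sdiff_subset
  have m3 : C * exp (-(1 / 2) * ll N) ≤ X / 2 := by
    have e1 : 2 * C ≤ exp ((1 - (A - 1 / 2) ^ 2) / 4 * ll N) := by
      have := add_one_le_exp ((1 - (A - 1 / 2) ^ 2) / 4 * ll N)
      linarith
    have e2 : exp ((1 - (A - 1 / 2) ^ 2) / 4 * ll N) * exp (-(1 / 2) * ll N) ≤ X := by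
      rw [hX, ← Real.exp_add]
      apply exp_le_exp.2
      nlinarith
    have e3 := mul_le_mul_of_nonneg_right e1 (exp_pos (-(1 / 2) * ll N)).le
    linarith
  have m4 : X / 2 ≤ T.card * (C * ll N ^ 2 / N) := by
    have m1' : X ≤ ∑ f ∈ T, om f := m1
    linarith
  rw [mul_div_assoc', le_div_iff₀ hN0] at m4
  have m5 : X * N ≤ T.card * (2 * C * ll N ^ 2) := by linarith
  have m6 : X * N ≤ T.card * exp (ε / 2 * ll N) :=
    m5.trans (mul_le_mul_of_nonneg_left h4 (Nat.cast_nonneg _))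
  have m7 : N * exp ((-((A - 1 / 2) ^ 2 / 2) - ε) * ll N) * exp (ε / 2 * ll N) ≤ T.card * exp (ε / 2 * ll N) := by
    refine le_trans ?_ m6
    rw [mul_assoc, ← Real.exp_add, mul_comm X]
    refine mul_le_mul_of_nonneg_left (exp_le_exp.2 ?_) hN0.le
    nlinarith
  exact le_of_mul_le_mul_right m7 (exp_pos _)

end Pool.Agent.H485.CC
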