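import Pool.Agent.H485.CC.Pup2

/-!
# The number of the points of an orbit of `Γ₀(N)` in a strip
-/

set_option autoImplicit false
set_option maxHeartbeats 4000000

open Complex Filter Topology Set MeasureTheory UpperHalfPlane MatrixGroups CongruenceSubgroup
open scoped ENNReal Modular

namespace Pool.Agent.H485.CC

open Pool.Agent.W165.RS
open W388.LV (SF pet om ck)
open W120.LV (eqS eqS_apply pet_eq lint_ne_top)

/-- two points of a strip in the same orbit, upper triangular case -/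
theorem unique_tri {c : ℝ} (g : SL(2, ℤ)) (hc : g 1 0 = 0) (w : ℍ) (hw : w ∈ UU c)
    (hgw : g • w ∈ UU c) : g = 1 ∨ g = -1 := by
  obtain ⟨n, hn⟩ := ModularGroup.exists_eq_T_zpow_of_c_eq_zero hc
  have h1 := hn w
  have hre : (g • w).re = w.re + n := by rw [h1, ModularGroup.re_T_zpow_smul]
  have h0 : n = 0 := by
    have a1 := hw.1.1
    have a2 := hw.1.2
    have a3 := hgw.1.1
    have a4 := hgw.1.2
    rw [hre] at a3 a4
    have b1 : (n : ℝ) < 1 := by linarith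
    have b2 : (-1 : ℝ) < n := by linarith
    have b3 : n < 1 := by exact_mod_cast b1
    have b4 : -1 < n := by exact_mod_cast b2
    omega
  subst h0
  have had := g.det_coe
  rw [Matrix.det_fin_two, hc] at had
  simp only [mul_zero, sub_zero] at had
  have hb : g 0 1 = 0 := by
    have h2 : ((g • w : ℍ) : ℂ) = (w : ℂ) := by rw [h1]; simp
    have h3 := UpperHalfPlane.specialLinearGroup_apply (R := ℤ) g w
    rw [h3] at h2
    simp only [algebraMap_int_eq, eq_intCast] at h2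
    rw [hc] at h2
    rcases Int.eq_one_or_neg_one_of_mul_eq_one' had with ⟨ha, hd⟩ | ⟨ha, hd⟩
    · rw [ha, hd] at h2
      push_cast at h2
      simp at h2
      exact_mod_cast h2
    · rw [ha, hd] at h2
      push_cast at h2
      simp at h2
      have : ((g 0 1 : ℤ) : ℂ) = 0 := by
        linear_combination (-1 : ℂ) * h2
      exact_mod_cast this
  rcases Int.eq_one_or_neg_one_of_mul_eq_one' had with ⟨ha, hd⟩ | ⟨ha, hd⟩
  · left
    apply Matrix.SpecialLinearGroup.ext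
    intro i j
    fin_cases i <;> fin_cases j <;> simp [ha, hd, hb, hc]
  · right
    apply Matrix.SpecialLinearGroup.ext
    intro i j
    fin_cases i <;> fin_cases j <;> simp [ha, hd, hb, hc]

/-- the bottom row determines the element -/
lemma row_inj {c : ℝ} {g h : SL(2, ℤ)} {w : ℍ} (hg : g • w ∈ UU c) (hh : h • w ∈ UU c)
    (h0 : g 1 0 = h 1 0) (h1 : g 1 1 = h 1 1) : g = h := by
  have hdet := h.det_coe
  rw [Matrix.det_fin_two] at hdet
  have hinv : (h⁻¹ : SL(2, ℤ)).1 = !![h 1 1, -h 0 1; -h 1 0, h 0 0] := by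
    rw [Matrix.SpecialLinearGroup.coe_inv, Matrix.adjugate_fin_two]
  have e1 : (g * h⁻¹) 1 0 = 0 := by
    rw [Matrix.SpecialLinearGroup.coe_mul, hinv, Matrix.mul_apply, Fin.sum_univ_two, h0, h1]
    simp
    ring
  have e2 : (g * h⁻¹) 1 1 = 1 := by
    rw [Matrix.SpecialLinearGroup.coe_mul, hinv, Matrix.mul_apply, Fin.sum_univ_two, h0, h1]
    simp
    linarith
  rcases unique_tri (g * h⁻¹) e1 (h • w) hh (by rw [← mul_smul, inv_mul_cancel_right]; exact hg) with e | e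
  · exact mul_inv_eq_one.1 e
  · exfalso
    rw [e] at e2
    simp at e2

/-- the condition on the bottom row -/
lemma row_cond {c : ℝ} (hc : 0 < c) {g : SL(2, ℤ)} {w : ℍ} (hg : g • w ∈ UU c) :
    ((g 1 0 : ℝ) * w.re + (g 1 1 : ℝ)) ^ 2 + ((g 1 0 : ℝ) * w.im) ^ 2 < w.im / c := by
  have him : (g • w).im = w.im / Complex.normSq (denom g w) :=
    ModularGroup.im_smul_eq_div_normSq g w
  have hns : Complex.normSq (denom g w) =
      ((g 1 0 : ℝ) * w.re + (g 1 1 : ℝ)) ^ 2 + ((g 1 0 : ℝ) * w.im) ^ 2 := by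
    rw [ModularGroup.denom_apply, Complex.normSq_apply]
    simp only [add_re, mul_re, intCast_re, coe_re, intCast_im, coe_im, zero_mul, sub_zero,
      add_im, mul_im, add_zero]
    ring
  have h2 : c < (g • w).im := hg.2
  have hpos : 0 < Complex.normSq (denom g w) := by
    rw [Complex.normSq_pos]
    exact denom_ne_zero _ w
  rw [him, lt_div_iff₀ hpos] at h2
  rw [← hns, lt_div_iff₀ hc]
  linarith

/-- the possible bottom rows -/
noncomputable def rows (N : ℕ) (K : ℕ) (x L : ℝ) : Finset (ℤ × ℤ) :=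
  {(0, 1), (0, -1)} ∪ (((Finset.Icc (-(K : ℤ)) K).erase 0).biUnion fun C' =>
    (Finset.Icc ⌈-((N : ℝ) * C' * x) - L⌉ ⌊-((N : ℝ) * C' * x) + L⌋).image fun D => ((N : ℤ) * C', D))

lemma rows_card (N : ℕ) (K : ℕ) (x : ℝ) {L : ℝ} (hL : 1 ≤ L) : ((rows N K x L).card : ℝ) ≤ 2 + 6 * K * L := by
  unfold rows
  have h1 : ((({(0, 1), (0, -1)} : Finset (ℤ × ℤ)).card : ℕ) : ℝ) ≤ 2 := by
    exact_mod_cast Finset.card_le_two
  have h2 : ∀ C' ∈ (Finset.Icc (-(K : ℤ)) K).erase 0,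
      (((Finset.Icc ⌈-((N : ℝ) * C' * x) - L⌉ ⌊-((N : ℝ) * C' * x) + L⌋).image
        fun D => ((N : ℤ) * C', D)).card : ℝ) ≤ 3 * L := by
    intro C' _
    have h3 : (((Finset.Icc ⌈-((N : ℝ) * C' * x) - L⌉ ⌊-((N : ℝ) * C' * x) + L⌋).image
        fun D => ((N : ℤ) * C', D)).card : ℝ) ≤
        ((Finset.Icc ⌈-((N : ℝ) * C' * x) - L⌉ ⌊-((N : ℝ) * C' * x) + L⌋).card : ℝ) := by
      exact_mod_cast Finset.card_image_le
    refine h3.trans ?_
    rw [Int.card_Icc]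
    have h4 : (((⌊-((N : ℝ) * C' * x) + L⌋ + 1 - ⌈-((N : ℝ) * C' * x) - L⌉).toNat : ℕ) : ℝ) =
        max ((⌊-((N : ℝ) * C' * x) + L⌋ : ℝ) + 1 - ⌈-((N : ℝ) * C' * x) - L⌉) 0 := by
      have : (((⌊-((N : ℝ) * C' * x) + L⌋ + 1 - ⌈-((N : ℝ) * C' * x) - L⌉).toNat : ℤ) : ℝ) =
        ((max (⌊-((N : ℝ) * C' * x) + L⌋ + 1 - ⌈-((N : ℝ) * C' * x) - L⌉) 0 : ℤ) : ℝ) := by
        rw [Int.toNat_eq_max]
      push_cast at this
      exact_mod_cast this
    rw [h4]
    apply max_le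
    · have e1 := Int.floor_le (-((N : ℝ) * C' * x) + L)
      have e2 := Int.le_ceil (-((N : ℝ) * C' * x) - L)
      linarith
    · linarith
  have h3 : (((Finset.Icc (-(K : ℤ)) K).erase 0).card : ℝ) ≤ 2 * K := by
    rw [Finset.card_erase_of_mem (by simp), Int.card_Icc]
    have : (((K : ℤ) + 1 - -(K : ℤ)).toNat - 1 : ℕ) = 2 * K := by omega
    rw [this]
    push_cast
    exact le_refl _
  have h4 : ((((Finset.Icc (-(K : ℤ)) K).erase 0).biUnion fun C' =>
    (Finset.Icc ⌈-((N : ℝ) * C' * x) - L⌉ ⌊-((N : ℝ) * C' * x) + L⌋).image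
      fun D => ((N : ℤ) * C', D)).card : ℝ) ≤ 2 * K * (3 * L) := by
    have h5 : ((((Finset.Icc (-(K : ℤ)) K).erase 0).biUnion fun C' =>
      (Finset.Icc ⌈-((N : ℝ) * C' * x) - L⌉ ⌊-((N : ℝ) * C' * x) + L⌋).image
        fun D => ((N : ℤ) * C', D)).card : ℝ) ≤
        ∑ C' ∈ (Finset.Icc (-(K : ℤ)) K).erase 0,
          (((Finset.Icc ⌈-((N : ℝ) * C' * x) - L⌉ ⌊-((N : ℝ) * C' * x) + L⌋).image
            fun D => ((N : ℤ) * C', D)).card : ℝ) := by
      exact_mod_cast Finset.card_biUnion_le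
    refine h5.trans ((Finset.sum_le_sum h2).trans ?_)
    rw [Finset.sum_const, nsmul_eq_mul]
    exact mul_le_mul_of_nonneg_right h3 (by linarith)
  have h5 := Finset.card_union_le ({(0, 1), (0, -1)} : Finset (ℤ × ℤ))
    (((Finset.Icc (-(K : ℤ)) K).erase 0).biUnion fun C' =>
    (Finset.Icc ⌈-((N : ℝ) * C' * x) - L⌉ ⌊-((N : ℝ) * C' * x) + L⌋).image fun D => ((N : ℤ) * C', D))
  have h6 : ((({(0, 1), (0, -1)} ∪ (((Finset.Icc (-(K : ℤ)) K).erase 0).biUnion fun C' =>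
    (Finset.Icc ⌈-((N : ℝ) * C' * x) - L⌉ ⌊-((N : ℝ) * C' * x) + L⌋).image fun D => ((N : ℤ) * C', D)) :
      Finset (ℤ × ℤ)).card : ℕ) : ℝ) ≤ ((({(0, 1), (0, -1)} : Finset (ℤ × ℤ)).card : ℕ) : ℝ) +
    ((((Finset.Icc (-(K : ℤ)) K).erase 0).biUnion fun C' =>
    (Finset.Icc ⌈-((N : ℝ) * C' * x) - L⌉ ⌊-((N : ℝ) * C' * x) + L⌋).image
      fun D => ((N : ℤ) * C', D)).card : ℝ) := by
    exact_mod_cast h5
  linarith

lemma mem_rows {N : ℕ} [NeZero N] {c : ℝ} (hc : 0 < c) {w : ℍ} {g : SL(2, ℤ)} (hgN : g ∈ Gamma0 N)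
    (hg : g • w ∈ UU c) : (g 1 0, g 1 1) ∈
      rows N ⌊1 / (N * Real.sqrt (c * w.im))⌋₊ w.re (Real.sqrt (w.im / c)) := by
  have hN0 : (0 : ℝ) < N := by exact_mod_cast Nat.pos_of_ne_zero (NeZero.ne N)
  have hy : 0 < w.im := w.im_pos
  have h1 := row_cond hc hg
  have hdvd : (N : ℤ) ∣ g 1 0 := by
    have := CongruenceSubgroup.Gamma0_mem.1 hgN
    exact (ZMod.intCast_zmod_eq_zero_iff_dvd _ _).1 this
  obtain ⟨C', hC'⟩ := hdvd
  unfold rows
  rw [Finset.mem_union]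
  by_cases h0 : C' = 0
  · left
    have hC0 : g 1 0 = 0 := by rw [hC', h0, mul_zero]
    have had := g.det_coe
    rw [Matrix.det_fin_two, hC0] at had
    simp only [mul_zero, sub_zero] at had
    rw [Finset.mem_insert, Finset.mem_singleton, hC0]
    rcases Int.eq_one_or_neg_one_of_mul_eq_one' had with ⟨_, hd⟩ | ⟨_, hd⟩
    · left; rw [hd]
    · right; rw [hd]
  · right
    rw [Finset.mem_biUnion]
    have hCr : (g 1 0 : ℝ) = N * C' := by rw [hC']; push_cast; ring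
    refine ⟨C', ?_, ?_⟩
    · rw [Finset.mem_erase, Finset.mem_Icc, ← abs_le]
      refine ⟨h0, ?_⟩
      have h2 : ((N : ℝ) * C' * w.im) ^ 2 < w.im / c := by
        rw [hCr] at h1
        linarith [sq_nonneg ((N : ℝ) * C' * w.re + (g 1 1 : ℝ))]
      have h3 : |(C' : ℝ)| ≤ 1 / (N * Real.sqrt (c * w.im)) := by
        have hs : 0 < Real.sqrt (c * w.im) := Real.sqrt_pos.2 (by positivity)
        rw [le_div_iff₀ (by positivity)]
        rw [← pow_le_one_iff_of_nonneg (by positivity) two_ne_zero]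
        have hsq : Real.sqrt (c * w.im) ^ 2 = c * w.im := Real.sq_sqrt (by positivity)
        rw [mul_pow, mul_pow, hsq, sq_abs]
        rw [lt_div_iff₀ hc] at h2
        have h6 : ((C' : ℝ) ^ 2 * ((N : ℝ) ^ 2 * (c * w.im))) * w.im < 1 * w.im := by
          calc ((C' : ℝ) ^ 2 * ((N : ℝ) ^ 2 * (c * w.im))) * w.im = ((N : ℝ) * C' * w.im) ^ 2 * c := by ring
            _ < w.im := h2
            _ = _ := (one_mul _).symm
        exact (lt_of_mul_lt_mul_right h6 hy.le).le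
      have h4 : (C'.natAbs : ℝ) ≤ 1 / (N * Real.sqrt (c * w.im)) := by
        rw [Nat.cast_natAbs]
        push_cast
        exact h3
      have h5 : C'.natAbs ≤ ⌊1 / (N * Real.sqrt (c * w.im))⌋₊ := Nat.le_floor h4
      rw [Int.abs_eq_natAbs]
      exact_mod_cast h5
    · rw [Finset.mem_image]
      refine ⟨g 1 1, ?_, by rw [← hC']⟩
      have h2 : |(N : ℝ) * C' * w.re + (g 1 1 : ℝ)| ≤ Real.sqrt (w.im / c) := by
        rw [← Real.sqrt_sq_eq_abs]
        apply Real.sqrt_le_sqrt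
        rw [hCr] at h1
        nlinarith [sq_nonneg ((N : ℝ) * C' * w.im)]
      have h3 := abs_le.1 h2
      rw [Finset.mem_Icc]
      exact ⟨Int.ceil_le.2 (by linarith), Int.le_floor.2 (by linarith)⟩

end Pool.Agent.H485.CC
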