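import Pool.Agent.H485.CC.Ls1

/-!
# The strip inequality beyond the level
-/

set_option autoImplicit false
set_option maxHeartbeats 4000000

open Complex Filter Topology Set MeasureTheory UpperHalfPlane MatrixGroups CongruenceSubgroup
open scoped ENNReal Modular

namespace Pool.Agent.H485.CC

open Pool.Agent.W165.RS
open W388.LV (SF pet om ck)
open W120.LV (eqS eqS_apply pet_eq lint_ne_top)

variable {N : ℕ} [NeZero N]

lemma count_base {c : ℝ} (hc : 0 < c) {w : ℍ} (hw : c < w.im) :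
    ∑' g : Gamma0 N, (UU c).indicator (fun _ => (1 : ℝ≥0∞)) ((g : SL(2, ℤ)) • w) ≤
      ENNReal.ofReal (2 + 6 / (N * c)) := by
  classical
  have hN0 : (0 : ℝ) < N := by exact_mod_cast Nat.pos_of_ne_zero (NeZero.ne N)
  have hy : 0 < w.im := w.im_pos
  rw [ENNReal.tsum_eq_iSup_sum]
  refine iSup_le fun s => ?_
  have h1 : ∑ g ∈ s, (UU c).indicator (fun _ => (1 : ℝ≥0∞)) ((g : SL(2, ℤ)) • w) =
      (((s.filter fun g : Gamma0 N => ((g : SL(2, ℤ)) • w) ∈ UU c).card : ℕ) : ℝ≥0∞) := by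
    rw [Finset.card_filter]
    push_cast
    refine Finset.sum_congr rfl fun g _ => ?_
    by_cases h : ((g : SL(2, ℤ)) • w) ∈ UU c
    · rw [Set.indicator_of_mem h, if_pos h]
    · rw [Set.indicator_of_notMem h, if_neg h]
  rw [h1]
  set K : ℕ := ⌊1 / (N * Real.sqrt (c * w.im))⌋₊ with hK
  set L : ℝ := Real.sqrt (w.im / c) with hL
  have hL1 : 1 ≤ L := by
    rw [hL]
    apply Real.one_le_sqrt.2
    rw [one_le_div hc]
    exact hw.le
  have h2 : (s.filter fun g : Gamma0 N => ((g : SL(2, ℤ)) • w) ∈ UU c).card ≤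
      (rows N K w.re L).card := by
    refine Finset.card_le_card_of_injOn (fun g : Gamma0 N => ((g : SL(2, ℤ)) 1 0, (g : SL(2, ℤ)) 1 1)) ?_ ?_
    · intro g hg
      rw [Finset.mem_coe, Finset.mem_filter] at hg
      exact mem_rows hc g.2 hg.2
    · intro g hg h hh heq
      rw [Finset.mem_coe, Finset.mem_filter] at hg hh
      simp only [Prod.mk.injEq] at heq
      exact Subtype.ext (row_inj hg.2 hh.2 heq.1 heq.2)
  have h3 := rows_card N K w.re hL1
  have h4 : (K : ℝ) * L ≤ 1 / (N * c) := by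
    have h5 : (K : ℝ) ≤ 1 / (N * Real.sqrt (c * w.im)) := Nat.floor_le (by positivity)
    have h6 : L = Real.sqrt (c * w.im) / c := by
      have e1 : w.im / c = (c * w.im) / c ^ 2 := by field_simp
      rw [hL, e1, Real.sqrt_div (by positivity), Real.sqrt_sq hc.le]
    have hs : 0 < Real.sqrt (c * w.im) := Real.sqrt_pos.2 (by positivity)
    calc (K : ℝ) * L ≤ 1 / (N * Real.sqrt (c * w.im)) * (Real.sqrt (c * w.im) / c) := by
          rw [h6]
          exact mul_le_mul_of_nonneg_right h5 (by positivity)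
      _ = _ := by field_simp
  have h5 : (((s.filter fun g : Gamma0 N => ((g : SL(2, ℤ)) • w) ∈ UU c).card : ℕ) : ℝ) ≤
      2 + 6 / (N * c) := by
    have h6 : (((s.filter fun g : Gamma0 N => ((g : SL(2, ℤ)) • w) ∈ UU c).card : ℕ) : ℝ) ≤
      ((rows N K w.re L).card : ℝ) := by exact_mod_cast h2
    have h7 : 6 / ((N : ℝ) * c) = 6 * (1 / (N * c)) := by ring
    rw [h7]
    linarith
  rw [← ENNReal.ofReal_natCast]
  exact ENNReal.ofReal_le_ofReal h5

/-- the number of the points of an orbit in a strip -/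
theorem count_UU {c : ℝ} (hc : 0 < c) (w : ℍ) :
    ∑' δ : Gamma0 N, (UU c).indicator (fun _ => (1 : ℝ≥0∞)) ((δ : SL(2, ℤ))⁻¹ • w) ≤
      ENNReal.ofReal (2 + 6 / (N * c)) := by
  by_cases h : ∃ δ : Gamma0 N, ((δ : SL(2, ℤ))⁻¹ • w) ∈ UU c
  · obtain ⟨δ1, h1⟩ := h
    have h2 := count_base (N := N) hc (w := (δ1 : SL(2, ℤ))⁻¹ • w) h1.2
    rw [← ((Equiv.inv (Gamma0 N)).trans (Equiv.mulRight δ1)).tsum_eq] at h2
    refine le_trans (le_of_eq ?_) h2
    refine tsum_congr fun δ => ?_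
    congr 1
    show _ = (((δ⁻¹ * δ1 : Gamma0 N) : SL(2, ℤ))) • ((δ1 : SL(2, ℤ))⁻¹ • w)
    rw [← mul_smul]
    congr 1
    push_cast
    group
  · push Not at h
    rw [ENNReal.tsum_eq_zero.2]
    · exact zero_le
    · intro δ
      exact Set.indicator_of_notMem (h δ) _

theorem sum_le_UU (f : SF N 2) {c : ℝ} (hc : 0 < c) (z : ℍ) :
    ∑' g : SL(2, ℤ), (UU c).indicator (FF f) (g • z) ≤
    ENNReal.ofReal (2 + 6 / (N * c)) * ∑' γ : SL(2, ℤ) ⧸ Gamma0 N, FF f ((Quotient.out γ)⁻¹ • z) := by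
  rw [← (Equiv.inv SL(2, ℤ)).tsum_eq, ← (eqS N).tsum_eq, ENNReal.tsum_prod', ← ENNReal.tsum_mul_left]
  refine ENNReal.tsum_le_tsum fun γ => ?_
  have h1 : ∀ δ : Gamma0 N, (UU c).indicator (FF f) ((Equiv.inv SL(2, ℤ)) (eqS N (γ, δ)) • z) =
      FF f ((Quotient.out γ)⁻¹ • z) *
        (UU c).indicator (fun _ => (1 : ℝ≥0∞)) ((δ : SL(2, ℤ))⁻¹ • ((Quotient.out γ)⁻¹ • z)) := by
    intro δ
    rw [eqS_apply, Equiv.inv_apply, mul_inv_rev, mul_smul]
    by_cases h : ((δ : SL(2, ℤ))⁻¹ • ((Quotient.out γ)⁻¹ • z)) ∈ UU c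
    · rw [Set.indicator_of_mem h, Set.indicator_of_mem h, mul_one]
      exact FF_inv f _ (Subgroup.inv_mem _ δ.2) _
    · rw [Set.indicator_of_notMem h, Set.indicator_of_notMem h, mul_zero]
  rw [tsum_congr h1, ENNReal.tsum_mul_left, mul_comm]
  exact mul_le_mul_left (count_UU hc _) _

theorem lint_le_UU (f : SF N 2) {c : ℝ} (hc : 0 < c) : ∫⁻ z : ℍ, (UU c).indicator (FF f) z ≤
    ENNReal.ofReal (1 + 3 / (N * c)) * ∫⁻ z in (ModularGroup.fd : Set ℍ),
      ∑' γ : SL(2, ℤ) ⧸ Gamma0 N, FF f ((Quotient.out γ)⁻¹ • z) := by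
  have hN0 : (0 : ℝ) < N := by exact_mod_cast Nat.pos_of_ne_zero (NeZero.ne N)
  rw [unfold _ ((FF_meas f).indicator (measurableSet_UU c)), ← lintegral_const_mul' _ _ (by simp),
    ← lintegral_indicator measurableSet_fd]
  refine lintegral_mono_ae ?_
  filter_upwards [W388.LV.q_phi] with z hz
  rw [hz]
  by_cases h : z ∈ (ModularGroup.fd : Set ℍ)
  · rw [Set.indicator_of_mem h, Set.indicator_of_mem h]
    have e1 : ENNReal.ofReal (2 + 6 / (N * c)) = 2 * ENNReal.ofReal (1 + 3 / (N * c)) := by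
      rw [show (2 + 6 / (N * c) : ℝ) = 2 * (1 + 3 / (N * c)) by ring, ENNReal.ofReal_mul (by norm_num)]
      simp
    calc (2 : ℝ≥0∞)⁻¹ * ∑' g : SL(2, ℤ), (UU c).indicator (FF f) (g • z)
        ≤ (2 : ℝ≥0∞)⁻¹ * (ENNReal.ofReal (2 + 6 / (N * c)) *
          ∑' γ : SL(2, ℤ) ⧸ Gamma0 N, FF f ((Quotient.out γ)⁻¹ • z)) :=
          mul_le_mul_right (sum_le_UU f hc z) _
      _ = _ := by
          rw [e1, mul_assoc, ← mul_assoc, ENNReal.inv_mul_cancel (by norm_num) (by norm_num), one_mul]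
  · rw [Set.indicator_of_notMem h, zero_mul]; exact zero_le

/-- the strip inequality -/
theorem strip_long (f : SF N 2) {c : ℝ} (hc : 0 < c) (s : Finset ℕ) :
    ∑ n ∈ s, ‖ac f n‖ ^ 2 * (Real.exp (-(4 * Real.pi * n * c)) / (4 * Real.pi * n)) ≤
      (1 + 3 / (N * c)) * (pet N 2 f f).re := by
  have hN0 : (0 : ℝ) < N := by exact_mod_cast Nat.pos_of_ne_zero (NeZero.ne N)
  have h1 := lint_le_UU f hc
  rw [UU_int f hc] at h1
  have h2 : ENNReal.ofReal (∑ n ∈ s, ‖ac f n‖ ^ 2 * (Real.exp (-(4 * Real.pi * n * c)) / (4 * Real.pi * n))) ≤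
      ENNReal.ofReal (1 + 3 / (N * c)) * ∫⁻ z in (ModularGroup.fd : Set ℍ),
      ∑' γ : SL(2, ℤ) ⧸ Gamma0 N, FF f ((Quotient.out γ)⁻¹ • z) := by
    refine le_trans ?_ h1
    rw [ENNReal.ofReal_sum_of_nonneg fun n _ => by positivity]
    exact ENNReal.sum_le_tsum s
  rw [pet_eq f]
  have h3 := ENNReal.toReal_mono (ENNReal.mul_ne_top ENNReal.ofReal_ne_top (lint_ne_top f)) h2
  rw [ENNReal.toReal_ofReal (Finset.sum_nonneg fun n _ => by positivity), ENNReal.toReal_mul,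
    ENNReal.toReal_ofReal (by positivity)] at h3
  exact h3

end Pool.Agent.H485.CC
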