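import Pool.Agent.H485.CC.Pup2
import Pool.Agent.H485.CC.Hmn
import Pool.Graph.R_pool_sql_team_seeded_c8625f6e.K4H13.CV.Asm1

/-!
# The harmonic weight of a newform of prime level, lower bound
-/

set_option autoImplicit false
set_option maxHeartbeats 4000000

open Filter Topology Set MeasureTheory UpperHalfPlane MatrixGroups CongruenceSubgroup
open scoped ENNReal Modular

namespace Pool.Agent.H485.CC

open Pool.Agent.W165.RS
open W388.LV (SF pet om ck)

variable {N : ℕ} [NeZero N]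

lemma norm_ac {f : SF N 2} {ε : ℝ} (hf : W388.IsNewf N 2 f ε) (n : ℕ) :
    ‖ac f n‖ ^ 2 = W388.lamf f n ^ 2 * n := by
  rcases Nat.eq_zero_or_pos n with rfl | hn
  · rw [ac_zero]; simp
  · have hn' : (0 : ℝ) < n := by exact_mod_cast hn
    unfold W388.lamf ac
    have e1 : ((((2 : ℤ) : ℝ) - 1) / 2) = 1 / 2 := by norm_num
    rw [e1, ← Real.sqrt_eq_rpow, div_pow, Real.sq_sqrt hn'.le, div_mul_cancel₀ _ hn'.ne']
    have hre : (((qExpansion 1 f).coeff n).re : ℂ) = (qExpansion 1 f).coeff n := by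
      apply Complex.ext
      · rw [Complex.ofReal_re]
      · rw [Complex.ofReal_im]; exact (hf.real n).symm
    conv_lhs => rw [← hre]
    rw [Complex.norm_real, Real.norm_eq_abs, sq_abs]

lemma lam_sq_le (hN : N.Prime) {f : SF N 2} {ε : ℝ} (hf : W388.IsNewf N 2 f ε) (n : ℕ) :
    W388.lamf f n ^ 2 ≤ (n : ℝ) ^ 3 := by
  rcases Nat.eq_zero_or_pos n with rfl | hn
  · rw [(W388.heckeSeq_lamf hf).zero]; simp
  · have hn' : (0 : ℝ) < n := by exact_mod_cast hn
    have h1 := abs_lam_tp hN hf n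
    have h2 : (W388.lamf f n * tp n) ^ 2 ≤ (n : ℝ) ^ 2 := by
      rw [← sq_abs]
      exact pow_le_pow_left₀ (abs_nonneg _) h1 2
    rw [mul_pow, tp_sq, mul_one_div, div_le_iff₀ hn'] at h2
    calc W388.lamf f n ^ 2 ≤ (n : ℝ) ^ 2 * n := h2
      _ = _ := by ring

/-- the sum which controls the weight -/
noncomputable def Dn (N : ℕ) [NeZero N] (f : SF N 2) : ℝ :=
  ∑' n : ℕ, W388.lamf f n ^ 2 * Real.exp (-(Real.pi / N * n))

lemma Dn_summable (hN : N.Prime) {f : SF N 2} {ε : ℝ} (hf : W388.IsNewf N 2 f ε) :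
    Summable fun n : ℕ => W388.lamf f n ^ 2 * Real.exp (-(Real.pi / N * n)) := by
  have hN0 : (0 : ℝ) < N := by exact_mod_cast hN.pos
  have h1 := Real.summable_pow_mul_exp_neg_nat_mul 3 (r := Real.pi / N) (by positivity)
  refine Summable.of_nonneg_of_le (fun n => by positivity) (fun n => ?_) h1
  rw [neg_mul]
  exact mul_le_mul_of_nonneg_right (lam_sq_le hN hf n) (Real.exp_pos _).le

theorem pet_up (hN : N.Prime) {f : SF N 2} {ε : ℝ} (hf : W388.IsNewf N 2 f ε) :
    (pet N 2 f f).re ≤ 1 / (2 * Real.pi) * Dn N f := by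
  have hN0 : (0 : ℝ) < N := by exact_mod_cast hN.pos
  have hc : (0 : ℝ) < 1 / (4 * N) := by positivity
  have hc2 : 1 / (4 * (N : ℝ)) < 1 / (2 * N) := by
    apply one_div_lt_one_div_of_lt (by positivity)
    linarith
  have h1 := UU_int f hc
  have e1 : ∀ n : ℕ, ‖ac f n‖ ^ 2 * (Real.exp (-(4 * Real.pi * n * (1 / (4 * N)))) / (4 * Real.pi * n)) =
      1 / (4 * Real.pi) * (W388.lamf f n ^ 2 * Real.exp (-(Real.pi / N * n))) := by
    intro n
    rw [norm_ac hf]
    rcases Nat.eq_zero_or_pos n with rfl | hn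
    · rw [(W388.heckeSeq_lamf hf).zero]; simp
    · have hn' : (0 : ℝ) < n := by exact_mod_cast hn
      have : 4 * Real.pi * n * (1 / (4 * N)) = Real.pi / N * n := by field_simp
      rw [this]
      field_simp
  simp_rw [e1] at h1
  rw [← ENNReal.ofReal_tsum_of_nonneg (fun n => by positivity) ((Dn_summable hN hf).mul_left _),
    tsum_mul_left] at h1
  have h2 := pet_le_of_cnt (FF_W hf) (cnt_ge hN hc2) (by rw [h1]; exact ENNReal.ofReal_ne_top)
  rw [h1, ENNReal.toReal_ofReal] at h2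
  · refine h2.trans (le_of_eq ?_)
    unfold Dn
    field_simp
    norm_num
  · have : 0 ≤ ∑' n : ℕ, W388.lamf f n ^ 2 * Real.exp (-(Real.pi / N * n)) :=
      tsum_nonneg fun n => by positivity
    positivity

lemma pet_pos {f : SF N 2} {ε : ℝ} (hf : W388.IsNewf N 2 f ε) : 0 < (pet N 2 f f).re := by
  refine lt_of_lt_of_le ?_ (Pool.Agent.K4H13.CV.pet_lower f hf.one)
  positivity

/-- the harmonic weight is not too small -/
theorem om_inv (hN : N.Prime) {f : SF N 2} {ε : ℝ} (hf : W388.IsNewf N 2 f ε) :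
    1 ≤ om f * (2 * Dn N f) := by
  have hp := pet_pos hf
  have h1 := pet_up hN hf
  have hck : ck 2 = 1 / (4 * Real.pi) := by
    unfold ck
    norm_num [Real.Gamma_one]
  unfold om
  rw [hck, div_mul_eq_mul_div, le_div_iff₀ hp, one_mul]
  refine h1.trans (le_of_eq ?_)
  field_simp
  ring

end Pool.Agent.H485.CC
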