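import Pool.Agent.H485.CC.Nat2
import Pool.Agent.H485.CC.Pup3

/-!
# The harmonic weights in terms of the eigenvalues at the primes
-/

set_option autoImplicit false
set_option maxHeartbeats 4000000

open Real Finset Filter

namespace Pool.Agent.H485.CC

open W388.LV (SF om)
open Pool.Agent.K4H13.CV in
lemma lam_level {N : ℕ} [NeZero N] (hN : N.Prime) {f : SF N 2} {ε : ℝ} (hf : W388.IsNewf N 2 f ε)
    (a : ℕ) : |W388.lamf f (N ^ a)| ≤ 1 := by
  have h1 : ‖(UpperHalfPlane.qExpansion 1 f).coeff (N ^ a)‖ = 1 := co_pow_level hf hN a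
  have h2 : (1 : ℝ) ≤ ((N ^ a : ℕ) : ℝ) := by exact_mod_cast Nat.one_le_pow _ _ hN.pos
  unfold W388.lamf
  have e1 : ((((2 : ℤ) : ℝ) - 1) / 2) = 1 / 2 := by norm_num
  rw [e1, ← Real.sqrt_eq_rpow]
  have h3 : 1 ≤ Real.sqrt ((N ^ a : ℕ) : ℝ) := Real.one_le_sqrt.2 h2
  rw [abs_div, abs_of_pos (by linarith : 0 < Real.sqrt ((N ^ a : ℕ) : ℝ)), div_le_one (by linarith)]
  have h4 := Complex.abs_re_le_norm ((UpperHalfPlane.qExpansion 1 f).coeff (N ^ a))
  rw [h1] at h4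
  linarith

lemma lam_pow {N : ℕ} {lam : ℕ → ℝ} (h : W388.HeckeSeq N lam) {p : ℕ} (hp : p.Prime)
    (hpN : ¬ p ∣ N) (h2 : |lam p| ≤ 2) (a : ℕ) : |lam (p ^ a)| ≤ a + 1 := by
  have h3 := abs_le.1 h2
  set θ : ℝ := arccos (lam p / 2) with hθ
  have h4 : 2 * cos θ = lam p := by
    rw [hθ, cos_arccos (by linarith) (by linarith)]
    ring
  have key : ∀ a : ℕ, lam (p ^ a) = uu a θ ∧ lam (p ^ (a + 1)) = uu (a + 1) θ := by
    intro a
    induction a with
    | zero =>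
      refine ⟨?_, ?_⟩
      · rw [pow_zero, h.one, uu_zero]
      · rw [zero_add, pow_one, uu_one, h4]
    | succ a ih =>
      refine ⟨ih.2, ?_⟩
      have := h.pow p a hp
      rw [if_neg hpN] at this
      rw [show a + 1 + 1 = a + 2 from rfl, this, ih.1, ih.2, uu_add_two, h4]
  rw [(key a).1]
  exact abs_uu_le a θ

lemma GM_lamf {N : ℕ} [NeZero N] (hN : N.Prime) {f : SF N 2} {ε : ℝ} (hf : W388.IsNewf N 2 f ε)
    (hR : ∀ p : ℕ, p.Prime → p ≠ N → |W388.lamf f p| ≤ 2) : GM fun n => W388.lamf f n ^ 2 := by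
  have hs := W388.heckeSeq_lamf hf
  refine ⟨fun n => sq_nonneg _, ?_, ?_, ?_⟩
  · show W388.lamf f 1 ^ 2 = 1
    rw [hs.one, one_pow]
  · intro m n h
    show W388.lamf f (m * n) ^ 2 = _
    rw [hs.mul m n h, mul_pow]
  · intro p a hp
    show W388.lamf f (p ^ a) ^ 2 ≤ _
    rw [← sq_abs]
    refine pow_le_pow_left₀ (abs_nonneg _) ?_ 2
    by_cases hpN : p = N
    · subst hpN
      have := lam_level hN hf a
      have h0 : (0 : ℝ) ≤ a := Nat.cast_nonneg a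
      linarith
    · exact lam_pow hs hp (fun hd => hpN ((Nat.prime_dvd_prime_iff_eq hp hN).1 hd)) (hR p hp hpN) a

lemma exp_neg_le {y : ℝ} (hy : 0 < y) : exp (-y) ≤ 3628800 / y ^ 10 := by
  have h := Real.pow_div_factorial_le_exp y hy.le 10
  rw [Real.exp_neg, inv_le_comm₀ (exp_pos _) (by positivity), inv_div]
  refine le_trans (le_of_eq ?_) h
  norm_num [Nat.factorial]

/-- the tail -/
lemma tail_le {N : ℕ} (hN : 1 ≤ N) {n : ℕ} (hn : N ^ 2 < n) :
    (n : ℝ) ^ 3 * ww N n ≤ 3628800 / (n : ℝ) ^ 2 := by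
  have hN0 : (0 : ℝ) < N := by exact_mod_cast hN
  have hn0 : (0 : ℝ) < n := by exact_mod_cast (by omega : 0 < n)
  have h1 : (N : ℝ) ^ 2 ≤ n := by exact_mod_cast hn.le
  set y : ℝ := π / N * n with hy
  have hy0 : 0 < y := by positivity
  have h2 : (n : ℝ) ≤ y ^ 2 := by
    have h3 : y ^ 2 = π ^ 2 * n * (n / (N : ℝ) ^ 2) := by rw [hy]; field_simp
    have h4 : 1 ≤ (n : ℝ) / (N : ℝ) ^ 2 := by rw [le_div_iff₀ (by positivity)]; linarith
    have h5 : 1 ≤ π ^ 2 := by nlinarith [Real.pi_gt_three]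
    rw [h3]
    calc (n : ℝ) = 1 * n * 1 := by ring
      _ ≤ π ^ 2 * n * (n / (N : ℝ) ^ 2) := by gcongr
  have h3 : (n : ℝ) ^ 5 ≤ y ^ 10 := by
    calc (n : ℝ) ^ 5 ≤ (y ^ 2) ^ 5 := pow_le_pow_left₀ hn0.le h2 5
      _ = _ := by ring
  have h4 : ww N n ≤ 3628800 / (n : ℝ) ^ 5 := by
    refine (exp_neg_le hy0).trans ?_
    gcongr
  calc (n : ℝ) ^ 3 * ww N n ≤ (n : ℝ) ^ 3 * (3628800 / (n : ℝ) ^ 5) :=
        mul_le_mul_of_nonneg_left h4 (by positivity)
    _ = _ := by field_simp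

/-- a bound for the sum which controls the weight -/
theorem Dn_le : ∃ C : ℝ, 0 < C ∧ ∀ (N : ℕ) [NeZero N], N.Prime → ∀ (f : SF N 2) (ε : ℝ),
    W388.IsNewf N 2 f ε → (∀ p : ℕ, p.Prime → p ≠ N → |W388.lamf f p| ≤ 2) →
    log N * Dn N f ≤ C * N * exp (∑ p ∈ pr (N ^ 2), W388.lamf f p ^ 2 / p) := by
  obtain ⟨C3, hC0, hC3⟩ := sum_tp3
  set C4 : ℝ := ∑' n : ℕ, 3628800 / (n : ℝ) ^ 2 with hC4
  have hs4 : Summable fun n : ℕ => 3628800 / (n : ℝ) ^ 2 := by
    have := (Real.summable_nat_pow_inv.2 (show 1 < 2 by norm_num)).mul_left 3628800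
    exact this.congr fun n => by rw [div_eq_mul_inv]
  have hC4n : 0 ≤ C4 := tsum_nonneg fun n => by positivity
  refine ⟨(4 + 2 * K1 * C3) * exp (K1 * C3) + C4 + 1, by
    have := K1_nonneg
    positivity, fun N _ hN f ε hf hR => ?_⟩
  have hg := GM_lamf hN hf hR
  have hN0 : (0 : ℝ) < N := by exact_mod_cast hN.pos
  have hN1 : (1 : ℝ) ≤ N := by exact_mod_cast hN.one_le
  have hlog : 0 ≤ log (N : ℝ) := Real.log_nonneg hN1
  have h1 := D_trunc hC0 hC3 hg hN.two_le (N ^ 2)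
  have h2 := G_le hg (N ^ 2)
  have h3 : ∑ p ∈ pr (N ^ 2), (W388.lamf f p ^ 2 / p + K1 * tp p ^ 3) ≤
      ∑ p ∈ pr (N ^ 2), W388.lamf f p ^ 2 / p + K1 * C3 := by
    rw [Finset.sum_add_distrib, ← Finset.mul_sum]
    have := mul_le_mul_of_nonneg_left (hC3 (pr (N ^ 2))) K1_nonneg
    linarith
  set E : ℝ := exp (∑ p ∈ pr (N ^ 2), W388.lamf f p ^ 2 / p) with hE
  have hE1 : 1 ≤ E := Real.one_le_exp (Finset.sum_nonneg fun p _ => by positivity)
  have h4 : ∑ n ∈ Finset.Icc 1 (N ^ 2), W388.lamf f n ^ 2 / n ≤ exp (K1 * C3) * E := by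
    refine h2.trans ((Real.exp_le_exp.2 h3).trans (le_of_eq ?_))
    rw [Real.exp_add]; ring
  have h5 : Dn N f ≤ ∑ n ∈ Finset.Icc 1 (N ^ 2), W388.lamf f n ^ 2 * ww N n + C4 := by
    have hsum := Dn_summable hN hf
    have e1 : Dn N f ≤ ∑' n : ℕ, ((if n ∈ Finset.Icc 1 (N ^ 2) then W388.lamf f n ^ 2 * ww N n else 0) +
        3628800 / (n : ℝ) ^ 2) := by
      unfold Dn
      refine hsum.tsum_le_tsum (fun n => ?_) (Summable.add ?_ hs4)
      · have hp : (0 : ℝ) ≤ 3628800 / (n : ℝ) ^ 2 := by positivity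
        by_cases hn : n ∈ Finset.Icc 1 (N ^ 2)
        · rw [if_pos hn]
          show W388.lamf f n ^ 2 * ww N n ≤ _
          linarith
        · rw [if_neg hn, zero_add]
          rcases Nat.eq_zero_or_pos n with rfl | hn0
          · rw [(W388.heckeSeq_lamf hf).zero]; simp
          · rw [Finset.mem_Icc, not_and_or] at hn
            have hn2 : N ^ 2 < n := by omega
            refine le_trans ?_ (tail_le hN.one_le hn2)
            exact mul_le_mul_of_nonneg_right (lam_sq_le hN hf n) (exp_pos _).le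
      · exact summable_of_ne_finset_zero (s := Finset.Icc 1 (N ^ 2)) fun n hn => if_neg hn
    refine e1.trans ?_
    rw [Summable.tsum_add (summable_of_ne_finset_zero (s := Finset.Icc 1 (N ^ 2)) fun n hn => if_neg hn) hs4]
    refine add_le_add (le_of_eq ?_) le_rfl
    rw [tsum_eq_sum (s := Finset.Icc 1 (N ^ 2)) fun n hn => if_neg hn]
    exact Finset.sum_congr rfl fun n hn => if_pos hn
  have h6 : log (N : ℝ) ≤ N := by
    have := Real.log_le_sub_one_of_pos hN0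
    linarith
  have hK : 0 ≤ 4 + 2 * K1 * C3 := by have := K1_nonneg; positivity
  calc log N * Dn N f ≤ log N * (∑ n ∈ Finset.Icc 1 (N ^ 2), W388.lamf f n ^ 2 * ww N n + C4) :=
        mul_le_mul_of_nonneg_left h5 hlog
    _ = log N * ∑ n ∈ Finset.Icc 1 (N ^ 2), W388.lamf f n ^ 2 * ww N n + log N * C4 := by ring
    _ ≤ (4 + 2 * K1 * C3) * N * ∑ n ∈ Finset.Icc 1 (N ^ 2), W388.lamf f n ^ 2 / n + N * C4 :=
        add_le_add h1 (mul_le_mul_of_nonneg_right h6 hC4n)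
    _ ≤ (4 + 2 * K1 * C3) * N * (exp (K1 * C3) * E) + N * C4 * E := by
        refine add_le_add (mul_le_mul_of_nonneg_left h4 (by positivity)) ?_
        exact le_mul_of_one_le_right (by positivity) hE1
    _ ≤ ((4 + 2 * K1 * C3) * exp (K1 * C3) + C4 + 1) * N * E := by
        have : 0 ≤ (N : ℝ) * E := by positivity
        nlinarith

end Pool.Agent.H485.CC
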