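import Pool.Agent.H485.CC.Ls3
import Pool.Agent.H485.CC.Nat3

/-!
# The squares of the eigenvalues
-/

set_option autoImplicit false
set_option maxHeartbeats 4000000

open Real Finset Filter

namespace Pool.Agent.H485.CC

open W388.LV (SF om)

section

variable {N : ℕ} {lam : ℕ → ℝ}

lemma hecke_add (h : W388.HeckeSeq N lam) {p : ℕ} (hp : p.Prime) (hpN : ¬ p ∣ N) (m n : ℕ) :
    lam (p ^ (m + n + 2)) = lam (p ^ (m + 1)) * lam (p ^ (n + 1)) - lam (p ^ m) * lam (p ^ n) := by
  have hr : ∀ j, lam (p ^ (j + 2)) = lam p * lam (p ^ (j + 1)) - lam (p ^ j) := by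
    intro j
    have := h.pow p j hp
    rwa [if_neg hpN] at this
  have h0 : lam (p ^ 0) = 1 := by rw [pow_zero, h.one]
  have key : ∀ n : ℕ, lam (p ^ (m + n + 2)) = lam (p ^ (m + 1)) * lam (p ^ (n + 1)) - lam (p ^ m) * lam (p ^ n) ∧
      lam (p ^ (m + (n + 1) + 2)) = lam (p ^ (m + 1)) * lam (p ^ (n + 1 + 1)) -
        lam (p ^ m) * lam (p ^ (n + 1)) := by
    intro n
    induction n with
    | zero =>
      have e1 := hr m
      have e2 := hr (m + 1)
      have e3 := hr 0
      rw [h0, zero_add, pow_one] at e3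
      refine ⟨?_, ?_⟩
      · rw [add_zero, e1, h0, zero_add, pow_one]
        ring
      · show lam (p ^ (m + 1 + 2)) = lam (p ^ (m + 1)) * lam (p ^ (0 + 2)) - lam (p ^ m) * lam (p ^ 1)
        rw [e2, show m + 1 + 1 = m + 2 from rfl, e1, show 0 + 2 = 2 from rfl, e3, pow_one]
        ring
    | succ n ih =>
      refine ⟨ih.2, ?_⟩
      have e1 := hr (m + n + 2)
      have e2 := hr (n + 1)
      have e3 := hr n
      have i1 := ih.1
      have i2 := ih.2
      rw [show m + (n + 1) + 2 = m + n + 2 + 1 by ring] at i2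
      rw [show m + (n + 1 + 1) + 2 = m + n + 2 + 2 by ring, e1, i1, i2,
        show n + 1 + 1 + 1 = n + 1 + 2 from rfl, e2, show n + 1 + 1 = n + 2 from rfl, e3]
      ring
  exact (key n).1

lemma hecke_sq_pp (h : W388.HeckeSeq N lam) {p : ℕ} (hp : p.Prime) (hpN : ¬ p ∣ N) (a : ℕ) :
    ∑ b ∈ range (a + 1), lam ((p ^ b) ^ 2) = lam (p ^ a) ^ 2 := by
  induction a with
  | zero => simp [h.one]
  | succ a ih =>
    rw [Finset.sum_range_succ, ih]
    have := hecke_add h hp hpN a a
    rw [← pow_mul, show (a + 1) * 2 = a + a + 2 by ring, this]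
    ring

/-- `e ↦ λ(e²)` -/
noncomputable def sqf (lam : ℕ → ℝ) : ArithmeticFunction ℝ :=
  ⟨fun n => if n = 0 then 0 else lam (n ^ 2), by simp⟩

lemma sqf_apply (lam : ℕ → ℝ) {n : ℕ} (hn : n ≠ 0) : sqf lam n = lam (n ^ 2) := by
  show (if n = 0 then 0 else lam (n ^ 2)) = _
  rw [if_neg hn]

lemma sqf_mult (h : W388.HeckeSeq N lam) : (sqf lam).IsMultiplicative := by
  rw [ArithmeticFunction.IsMultiplicative.iff_ne_zero]
  refine ⟨?_, ?_⟩
  · rw [sqf_apply lam one_ne_zero, one_pow, h.one]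
  · intro m n hm hn hmn
    rw [sqf_apply lam (mul_ne_zero hm hn), sqf_apply lam hm, sqf_apply lam hn, mul_pow]
    exact h.mul _ _ (Nat.Coprime.pow 2 2 hmn)

lemma sum_sqf (lam : ℕ → ℝ) (n : ℕ) : (sqf lam * (ArithmeticFunction.zeta : ArithmeticFunction ℝ)) n =
    ∑ e ∈ n.divisors, lam (e ^ 2) := by
  rw [ArithmeticFunction.coe_mul_zeta_apply]
  refine Finset.sum_congr rfl fun e he => ?_
  exact sqf_apply lam (Nat.pos_of_mem_divisors he).ne'

/-- the square of an eigenvalue -/
theorem hecke_sq (h : W388.HeckeSeq N lam) (hN : N.Prime) (n : ℕ) (hn : ¬ N ∣ n) :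
    lam n ^ 2 = ∑ e ∈ n.divisors, lam (e ^ 2) := by
  revert hn
  induction n using Nat.recOnPosPrimePosCoprime with
  | prime_pow p k hp hk =>
    intro hn
    have hpN : ¬ p ∣ N := by
      intro hd
      have : p = N := (Nat.prime_dvd_prime_iff_eq hp hN).1 hd
      exact hn (this ▸ dvd_pow_self p hk.ne')
    rw [Nat.sum_divisors_prime_pow hp, hecke_sq_pp h hp hpN]
  | zero => intro hn; exact absurd (dvd_zero N) hn
  | one => intro _; simp [h.one]
  | coprime a b ha hb hab iha ihb =>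
    intro hn
    have hm : ((sqf lam * (ArithmeticFunction.zeta : ArithmeticFunction ℝ))).IsMultiplicative :=
      (sqf_mult h).mul ArithmeticFunction.isMultiplicative_zeta.natCast
    rw [h.mul a b hab, mul_pow, iha fun hd => hn (Dvd.dvd.mul_right hd b),
      ihb fun hd => hn (Dvd.dvd.mul_left hd a), ← sum_sqf, ← sum_sqf, ← sum_sqf]
    exact (hm.map_mul_of_coprime hab).symm

end

end Pool.Agent.H485.CC
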