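import Pool.Agent.H485.CC.Ls4

/-!
# The weights as sums of the eigenvalues at the squares
-/

set_option autoImplicit false
set_option maxHeartbeats 4000000

open Real Finset Filter

namespace Pool.Agent.H485.CC

open W388.LV (SF om)

/-- the truncation -/
lemma Dn_trunc0 : ∃ C : ℝ, 0 < C ∧ ∀ (N : ℕ) [NeZero N], N.Prime → ∀ (f : SF N 2) (ε : ℝ),
    W388.IsNewf N 2 f ε →
    Dn N f ≤ ∑ n ∈ Finset.Icc 1 (N ^ 2), W388.lamf f n ^ 2 * ww N n + C := by
  set C4 : ℝ := ∑' n : ℕ, 3628800 / (n : ℝ) ^ 2 with hC4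
  have hs4 : Summable fun n : ℕ => 3628800 / (n : ℝ) ^ 2 := by
    have := (Real.summable_nat_pow_inv.2 (show 1 < 2 by norm_num)).mul_left 3628800
    exact this.congr fun n => by rw [div_eq_mul_inv]
  have hC4n : 0 ≤ C4 := tsum_nonneg fun n => by positivity
  refine ⟨C4 + 1, by positivity, fun N _ hN f ε hf => ?_⟩
  have hsum := Dn_summable hN hf
  have e1 : Dn N f ≤ ∑' n : ℕ, ((if n ∈ Finset.Icc 1 (N ^ 2) then W388.lamf f n ^ 2 * ww N n else 0) +
      3628800 / (n : ℝ) ^ 2) := by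
    unfold Dn
    refine hsum.tsum_le_tsum (fun n => ?_) (Summable.add ?_ hs4)
    · have hp : (0 : ℝ) ≤ 3628800 / (n : ℝ) ^ 2 := by positivity
      by_cases hn : n ∈ Finset.Icc 1 (N ^ 2)
      · rw [if_pos hn]
        show W388.lamf f n ^ 2 * ww N n ≤ _
        linarith
      · rw [if_neg hn, zero_add]
        rcases Nat.eq_zero_or_pos n with rfl | hn0
        · rw [(W388.heckeSeq_lamf hf).zero]; simp
        · rw [Finset.mem_Icc, not_and_or] at hn
          have hn2 : N ^ 2 < n := by omega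
          refine le_trans ?_ (tail_le hN.one_le hn2)
          exact mul_le_mul_of_nonneg_right (lam_sq_le hN hf n) (exp_pos _).le
    · exact summable_of_ne_finset_zero (s := Finset.Icc 1 (N ^ 2)) fun n hn => if_neg hn
  refine e1.trans ?_
  rw [Summable.tsum_add (summable_of_ne_finset_zero (s := Finset.Icc 1 (N ^ 2)) fun n hn => if_neg hn) hs4]
  refine add_le_add (le_of_eq ?_) (by linarith)
  rw [tsum_eq_sum (s := Finset.Icc 1 (N ^ 2)) fun n hn => if_neg hn]
  exact Finset.sum_congr rfl fun n hn => if_pos hn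

/-- the multiples of the level -/
lemma level_part : ∃ C : ℝ, 0 < C ∧ ∀ (N : ℕ) [NeZero N], N.Prime → ∀ (f : SF N 2) (ε : ℝ),
    W388.IsNewf N 2 f ε → ∀ T : ℕ,
    ∑ n ∈ (Finset.Icc 1 T).filter (fun n => N ∣ n), W388.lamf f n ^ 2 * ww N n ≤ C := by
  have hs : Summable fun n : ℕ => (n : ℝ) ^ 3 * exp (-π * n) :=
    Real.summable_pow_mul_exp_neg_nat_mul 3 Real.pi_pos
  refine ⟨∑' n : ℕ, (n : ℝ) ^ 3 * exp (-π * n) + 1, by
    have : 0 ≤ ∑' n : ℕ, (n : ℝ) ^ 3 * exp (-π * n) := tsum_nonneg fun n => by positivity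
    linarith, fun N _ hN f ε hf T => ?_⟩
  have hN0 : (0 : ℝ) < N := by exact_mod_cast hN.pos
  have h1 : ∀ n ∈ (Finset.Icc 1 T).filter (fun n => N ∣ n), W388.lamf f n ^ 2 * ww N n ≤
      (fun m : ℕ => (m : ℝ) ^ 3 * exp (-π * m)) (n / N) := by
    intro n hn
    rw [Finset.mem_filter, Finset.mem_Icc] at hn
    obtain ⟨⟨hn1, -⟩, hd⟩ := hn
    have hnn : n ≠ 0 := by omega
    obtain ⟨v, m, hm, hnm⟩ := Nat.exists_eq_pow_mul_and_not_dvd hnn N hN.ne_one
    have hv : v ≠ 0 := by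
      rintro rfl
      rw [pow_zero, one_mul] at hnm
      exact hm (hnm ▸ hd)
    have hcop : Nat.Coprime (N ^ v) m := Nat.Coprime.pow_left v ((Nat.Prime.coprime_iff_not_dvd hN).2 hm)
    have e1 : W388.lamf f n ^ 2 ≤ ((n / N : ℕ) : ℝ) ^ 3 := by
      rw [hnm, (W388.heckeSeq_lamf hf).mul _ _ hcop, mul_pow, ← hnm]
      have e2 : W388.lamf f (N ^ v) ^ 2 ≤ 1 := by
        rw [← sq_abs]
        exact pow_le_one₀ (abs_nonneg _) (lam_level hN hf v)
      have e3 : W388.lamf f m ^ 2 ≤ (m : ℝ) ^ 3 := lam_sq_le hN hf m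
      have e4 : m ≤ n / N := by
        rw [Nat.le_div_iff_mul_le hN.pos, hnm]
        obtain ⟨u, rfl⟩ := Nat.exists_eq_succ_of_ne_zero hv
        have : 1 ≤ N ^ u := Nat.one_le_pow _ _ hN.pos
        rw [pow_succ]
        nlinarith [Nat.zero_le (m * N)]
      have e5 : (m : ℝ) ^ 3 ≤ ((n / N : ℕ) : ℝ) ^ 3 :=
        pow_le_pow_left₀ (Nat.cast_nonneg _) (by exact_mod_cast e4) 3
      calc W388.lamf f (N ^ v) ^ 2 * W388.lamf f m ^ 2 ≤ 1 * (m : ℝ) ^ 3 :=
            mul_le_mul e2 e3 (sq_nonneg _) zero_le_one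
        _ ≤ _ := by rw [one_mul]; exact e5
    have e2 : ww N n = exp (-π * ((n / N : ℕ) : ℝ)) := by
      unfold ww
      rw [Nat.cast_div hd hN0.ne']
      congr 1
      field_simp
    rw [e2]
    exact mul_le_mul_of_nonneg_right e1 (exp_pos _).le
  refine (Finset.sum_le_sum h1).trans ?_
  have hinj : Set.InjOn (fun n : ℕ => n / N) ((Finset.Icc 1 T).filter (fun n => N ∣ n) : Finset ℕ) := by
    intro a ha b hb hab
    rw [Finset.mem_coe, Finset.mem_filter] at ha hb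
    have h1 := Nat.div_mul_cancel ha.2
    have h2 := Nat.div_mul_cancel hb.2
    rw [← h1, ← h2]
    simp only at hab
    rw [hab]
  rw [← Finset.sum_image (f := fun m : ℕ => (m : ℝ) ^ 3 * exp (-π * m)) hinj]
  have := hs.sum_le_tsum (((Finset.Icc 1 T).filter (fun n => N ∣ n)).image fun n => n / N)
    (fun n _ => by positivity)
  linarith

/-- the coefficients -/
noncomputable def phi (N T e : ℕ) : ℝ :=
  ∑ n ∈ (Finset.Icc 1 T).filter (fun n => ¬ N ∣ n ∧ e ∣ n), ww N n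

lemma phi_nonneg (N T e : ℕ) : 0 ≤ phi N T e := Finset.sum_nonneg fun _ _ => (exp_pos _).le

lemma sq_sum {N : ℕ} (hN : N.Prime) {lam : ℕ → ℝ} (h : W388.HeckeSeq N lam) (T : ℕ) :
    ∑ n ∈ (Finset.Icc 1 T).filter (fun n => ¬ N ∣ n), lam n ^ 2 * ww N n =
      ∑ e ∈ Finset.Icc 1 T, phi N T e * lam (e ^ 2) := by
  have h1 : ∑ n ∈ (Finset.Icc 1 T).filter (fun n => ¬ N ∣ n), lam n ^ 2 * ww N n =
      ∑ n ∈ (Finset.Icc 1 T).filter (fun n => ¬ N ∣ n), ∑ e ∈ n.divisors, ww N n * lam (e ^ 2) := by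
    refine Finset.sum_congr rfl fun n hn => ?_
    rw [hecke_sq h hN n (Finset.mem_filter.1 hn).2, Finset.sum_mul]
    exact Finset.sum_congr rfl fun e _ => mul_comm _ _
  rw [h1]
  rw [Finset.sum_comm' (s' := fun e => (Finset.Icc 1 T).filter (fun n => ¬ N ∣ n ∧ e ∣ n))
    (t' := Finset.Icc 1 T)]
  · refine Finset.sum_congr rfl fun e _ => ?_
    unfold phi
    rw [Finset.sum_mul]
  · intro n e
    simp only [Finset.mem_filter, Finset.mem_Icc, Nat.mem_divisors]
    constructor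
    · rintro ⟨⟨⟨a1, a2⟩, a3⟩, a4, a5⟩
      refine ⟨⟨⟨a1, a2⟩, a3, a4⟩, Nat.pos_of_dvd_of_pos a4 (by omega), ?_⟩
      exact (Nat.le_of_dvd (by omega) a4).trans a2
    · rintro ⟨⟨⟨a1, a2⟩, a3, a4⟩, -⟩
      exact ⟨⟨⟨a1, a2⟩, a3⟩, a4, by omega⟩

/-- the bound of the coefficients -/
lemma phi_le {N : ℕ} (hN : 1 ≤ N) (T : ℕ) {e : ℕ} (he : 1 ≤ e) :
    phi N T e ≤ 1 / (exp (π * e / N) - 1) := by
  have hN0 : (0 : ℝ) < N := by exact_mod_cast hN
  have he0 : (0 : ℝ) < e := by exact_mod_cast he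
  set y : ℝ := π * e / N with hy
  have hy0 : 0 < y := by positivity
  set q : ℝ := exp (-y) with hq
  have hq0 : 0 < q := exp_pos _
  have hq1 : q < 1 := exp_lt_one_iff.2 (by linarith)
  have h1 : phi N T e ≤ ∑ n ∈ (Finset.Icc 1 T).filter (fun n => ¬ N ∣ n ∧ e ∣ n),
      (fun d : ℕ => q * q ^ (d - 1)) (n / e) := by
    unfold phi
    refine Finset.sum_le_sum fun n hn => ?_
    rw [Finset.mem_filter, Finset.mem_Icc] at hn
    obtain ⟨⟨hn1, -⟩, -, hd⟩ := hn
    have hd1 : 1 ≤ n / e := Nat.div_pos (Nat.le_of_dvd (by omega) hd) he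
    show ww N n ≤ q * q ^ (n / e - 1)
    rw [← pow_succ', Nat.sub_add_cancel hd1, hq, ← Real.exp_nat_mul, Nat.cast_div hd he0.ne']
    unfold ww
    apply exp_le_exp.2
    rw [hy]
    apply le_of_eq
    field_simp
  refine h1.trans ?_
  have hinj : Set.InjOn (fun n : ℕ => n / e) ((Finset.Icc 1 T).filter (fun n => ¬ N ∣ n ∧ e ∣ n) : Finset ℕ) := by
    intro a ha b hb hab
    rw [Finset.mem_coe, Finset.mem_filter] at ha hb
    have h1 := Nat.div_mul_cancel ha.2.2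
    have h2 := Nat.div_mul_cancel hb.2.2
    rw [← h1, ← h2]
    simp only at hab
    rw [hab]
  rw [← Finset.sum_image (f := fun d : ℕ => q * q ^ (d - 1)) hinj]
  set s := ((Finset.Icc 1 T).filter (fun n => ¬ N ∣ n ∧ e ∣ n)).image fun n => n / e with hs
  have hs1 : ∀ d ∈ s, 1 ≤ d := by
    intro d hd
    rw [hs, Finset.mem_image] at hd
    obtain ⟨n, hn, rfl⟩ := hd
    rw [Finset.mem_filter, Finset.mem_Icc] at hn
    exact Nat.div_pos (Nat.le_of_dvd (by omega) hn.2.2) he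
  have hinj2 : Set.InjOn (fun d : ℕ => d - 1) (s : Set ℕ) := by
    intro a ha b hb hab
    have := hs1 a ha
    have := hs1 b hb
    simp only at hab
    omega
  have h2 : ∑ d ∈ s, q * q ^ (d - 1) = q * ∑ j ∈ s.image (fun d => d - 1), q ^ j := by
    rw [Finset.sum_image hinj2, Finset.mul_sum]
  rw [h2]
  have h3 : ∑ j ∈ s.image (fun d => d - 1), q ^ j ≤ (1 - q)⁻¹ := by
    rw [← tsum_geometric_of_lt_one hq0.le hq1]
    exact (summable_geometric_of_lt_one hq0.le hq1).sum_le_tsum _ fun _ _ => by positivity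
  have h4 : exp y = q⁻¹ := by rw [hq, Real.exp_neg, inv_inv]
  have h5 : 0 < 1 - q := by linarith
  calc q * ∑ j ∈ s.image (fun d => d - 1), q ^ j ≤ q * (1 - q)⁻¹ :=
        mul_le_mul_of_nonneg_left h3 hq0.le
    _ = 1 / (exp y - 1) := by
        rw [h4]
        have : q⁻¹ - 1 = (1 - q) / q := by field_simp
        rw [this, one_div_div, div_eq_mul_inv]

lemma phi_le1 {N : ℕ} (hN : 1 ≤ N) (T : ℕ) {e : ℕ} (he : 1 ≤ e) : phi N T e ≤ (N : ℝ) / e := by
  have hN0 : (0 : ℝ) < N := by exact_mod_cast hN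
  have he0 : (0 : ℝ) < e := by exact_mod_cast he
  refine (phi_le hN T he).trans ?_
  have hy0 : 0 < π * e / N := by positivity
  have h1 := add_one_le_exp (π * e / N)
  calc 1 / (exp (π * e / N) - 1) ≤ 1 / (π * e / N) := by
        apply one_div_le_one_div_of_le hy0
        linarith
    _ = (N / e) / π := by field_simp
    _ ≤ _ := div_le_self (by positivity) (by linarith [Real.pi_gt_three])

lemma phi_le3 {N : ℕ} (hN : 1 ≤ N) (T : ℕ) {e : ℕ} (he : 1 ≤ e) : phi N T e ≤ 6 * ((N : ℝ) / e) ^ 3 := by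
  have hN0 : (0 : ℝ) < N := by exact_mod_cast hN
  have he0 : (0 : ℝ) < e := by exact_mod_cast he
  refine (phi_le hN T he).trans ?_
  set y : ℝ := π * e / N with hy
  have hy0 : 0 < y := by positivity
  have h1 : 1 + y ^ 3 / 6 ≤ exp y := by
    have := Real.sum_le_exp_of_nonneg hy0.le 4
    rw [Finset.sum_range_succ, Finset.sum_range_succ, Finset.sum_range_succ, Finset.sum_range_succ,
      Finset.sum_range_zero] at this
    norm_num [Nat.factorial] at this
    have h2 : 0 ≤ y + y ^ 2 / 2 := by positivity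
    linarith
  have h2 : ((e : ℝ) / N) ^ 3 ≤ y ^ 3 := by
    apply pow_le_pow_left₀ (by positivity)
    rw [hy, mul_div_assoc]
    exact le_mul_of_one_le_left (by positivity) (by linarith [Real.pi_gt_three])
  calc 1 / (exp y - 1) ≤ 1 / (y ^ 3 / 6) := by
        apply one_div_le_one_div_of_le (by positivity)
        linarith
    _ ≤ 1 / (((e : ℝ) / N) ^ 3 / 6) := by
        apply one_div_le_one_div_of_le (by positivity)
        linarith
    _ = _ := by field_simp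

/-- the weights and the eigenvalues at the squares -/
theorem Dn_sq : ∃ C : ℝ, 0 < C ∧ ∀ (N : ℕ) [NeZero N], N.Prime → ∀ (f : SF N 2) (ε : ℝ),
    W388.IsNewf N 2 f ε →
    Dn N f ≤ ∑ e ∈ Finset.Icc 1 (N ^ 2), phi N (N ^ 2) e * W388.lamf f (e ^ 2) + C := by
  obtain ⟨C1, h10, h1⟩ := Dn_trunc0
  obtain ⟨C2, h20, h2⟩ := level_part
  refine ⟨C1 + C2, by positivity, fun N _ hN f ε hf => ?_⟩
  have h3 := h1 N hN f ε hf
  have h4 := h2 N hN f ε hf (N ^ 2)
  have h5 := sq_sum hN (W388.heckeSeq_lamf hf) (N ^ 2)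
  rw [← Finset.sum_filter_add_sum_filter_not _ (fun n => N ∣ n)] at h3
  linarith

end Pool.Agent.H485.CC
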