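import Pool.Agent.H485.CC.Ls5

/-!
# The second moment of the inverses of the weights
-/

set_option autoImplicit false
set_option maxHeartbeats 4000000

open Real Finset Filter

namespace Pool.Agent.H485.CC

open W388.LV (SF om IsNewSet)

/-- `2^(-1/2)` -/
noncomputable def rh : ℝ := Real.sqrt (1 / 2)

lemma rh_pos : 0 < rh := Real.sqrt_pos.2 (by norm_num)

lemma rh_sq : rh ^ 2 = 1 / 2 := Real.sq_sqrt (by norm_num)

lemma rh_lt : rh < 1 := by
  have h := rh_sq
  have h0 := rh_pos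
  nlinarith

/-- the sizes of the blocks -/
noncomputable def th (L k : ℕ) : ℝ := rh ^ k + rh ^ ((k - L) + (L - k))

lemma th_pos (L k : ℕ) : 0 < th L k := by
  unfold th
  have := rh_pos
  positivity

lemma sum_geo (s : Finset ℕ) : ∑ k ∈ s, rh ^ k ≤ (1 - rh)⁻¹ := by
  rw [← tsum_geometric_of_lt_one rh_pos.le rh_lt]
  exact (summable_geometric_of_lt_one rh_pos.le rh_lt).sum_le_tsum _ fun _ _ => by
    have := rh_pos
    positivity

lemma sum_th (L : ℕ) (s : Finset ℕ) : ∑ k ∈ s, th L k ≤ 3 * (1 - rh)⁻¹ := by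
  have h0 := rh_pos
  unfold th
  rw [Finset.sum_add_distrib]
  have h1 := sum_geo s
  have h2 : ∑ k ∈ s, rh ^ ((k - L) + (L - k)) ≤ 2 * (1 - rh)⁻¹ := by
    rw [← Finset.sum_filter_add_sum_filter_not s (fun k => k ≤ L)]
    have e1 : ∑ k ∈ s with k ≤ L, rh ^ ((k - L) + (L - k)) ≤ (1 - rh)⁻¹ := by
      have : ∑ k ∈ s with k ≤ L, rh ^ ((k - L) + (L - k)) =
          ∑ j ∈ (s.filter fun k => k ≤ L).image (fun k => L - k), rh ^ j := by
        rw [Finset.sum_image]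
        · refine Finset.sum_congr rfl fun k hk => ?_
          have := (Finset.mem_filter.1 hk).2
          congr 1
          omega
        · intro a ha b hb hab
          rw [Finset.mem_coe, Finset.mem_filter] at ha hb
          simp only at hab
          omega
      rw [this]
      exact sum_geo _
    have e2 : ∑ k ∈ s with ¬ k ≤ L, rh ^ ((k - L) + (L - k)) ≤ (1 - rh)⁻¹ := by
      have : ∑ k ∈ s with ¬ k ≤ L, rh ^ ((k - L) + (L - k)) =
          ∑ j ∈ (s.filter fun k => ¬ k ≤ L).image (fun k => k - L), rh ^ j := by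
        rw [Finset.sum_image]
        · refine Finset.sum_congr rfl fun k hk => ?_
          have := (Finset.mem_filter.1 hk).2
          congr 1
          omega
        · intro a ha b hb hab
          rw [Finset.mem_coe, Finset.mem_filter] at ha hb
          simp only at hab
          omega
      rw [this]
      exact sum_geo _
    linarith
  linarith

/-- one block -/
lemma block {N : ℕ} [NeZero N] (B : Finset (SF N 2)) (hB : IsNewSet N 2 B) (T k : ℕ) :
    ∑ f ∈ B, om f * (∑ e ∈ (Finset.Icc 1 T).filter (fun e => Nat.log 2 e = k),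
      phi N T e * W388.lamf f (e ^ 2)) ^ 2 ≤
      (Real.exp (4 * Real.pi) * 936) * (N : ℝ) ^ 2 * th (Nat.log 2 N) k ^ 2 := by
  have hNn : N ≠ 0 := NeZero.ne N
  have hN1 : 1 ≤ N := Nat.one_le_iff_ne_zero.2 hNn
  have hN0 : (0 : ℝ) < N := by exact_mod_cast hN1
  set I := (Finset.Icc 1 T).filter (fun e => Nat.log 2 e = k) with hI
  have hmem : ∀ e ∈ I, 1 ≤ e ∧ 2 ^ k ≤ e ∧ e < 2 ^ (k + 1) := by
    intro e he
    rw [hI, Finset.mem_filter, Finset.mem_Icc] at he
    obtain ⟨⟨h1, -⟩, h2⟩ := he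
    have := (Nat.log_eq_iff (Or.inr ⟨one_lt_two, by omega⟩)).1 h2
    exact ⟨h1, this.1, this.2⟩
  have hcard : (I.card : ℝ) ≤ 2 ^ k := by
    have h1 : I ⊆ Finset.Ico (2 ^ k) (2 ^ (k + 1)) := by
      intro e he
      have := hmem e he
      rw [Finset.mem_Ico]
      exact ⟨this.2.1, this.2.2⟩
    have h2 := Finset.card_le_card h1
    rw [Nat.card_Ico] at h2
    have h3 : I.card ≤ 2 ^ k := by
      rw [pow_succ] at h2
      omega
    exact_mod_cast h3
  have h2k : (0 : ℝ) < 2 ^ k := by positivity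
  set r : ℝ := 2 ^ k / N with hr
  have hr0 : 0 < r := by positivity
  have h1 := ls_real B hB (X := 4 ^ (k + 1)) (one_le_pow₀ (by norm_num)) I (fun e => e ^ 2)
    (fun a ha b hb hab => by
      simp only at hab
      exact Nat.pow_left_injective (n := 2) two_ne_zero hab)
    (fun e he => by
      have := hmem e he
      refine ⟨Nat.one_le_pow _ _ (by omega), ?_⟩
      have h4 : (e : ℝ) ≤ 2 ^ (k + 1) := by exact_mod_cast this.2.2.le
      push_cast
      calc (e : ℝ) ^ 2 ≤ ((2 : ℝ) ^ (k + 1)) ^ 2 := pow_le_pow_left₀ (Nat.cast_nonneg _) h4 2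
        _ = 4 ^ (k + 1) := by rw [← pow_mul, mul_comm, pow_mul]; norm_num) (fun e => phi N T e)
  refine h1.trans ?_
  -- the sum of the coefficients
  have h4k : (4 : ℝ) ^ (k + 1) = 4 * (2 ^ k) ^ 2 := by
    rw [pow_succ, ← pow_mul, mul_comm k 2, pow_mul]; norm_num; ring
  have hX : (1 + 3 * (4 : ℝ) ^ (k + 1) / N) = 2 ^ k * (1 / 2 ^ k + 12 * r) := by
    rw [h4k, hr]
    field_simp
    ring
  have key : (1 + 3 * (4 : ℝ) ^ (k + 1) / N) * ∑ e ∈ I, phi N T e ^ 2 ≤
      936 * (N : ℝ) ^ 2 * th (Nat.log 2 N) k ^ 2 := by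
    have hth : (1 : ℝ) / 2 ^ k + (1 / 2) ^ ((k - Nat.log 2 N) + (Nat.log 2 N - k)) ≤ th (Nat.log 2 N) k ^ 2 := by
      unfold th
      have e1 : (1 : ℝ) / 2 ^ k = (rh ^ k) ^ 2 := by
        rw [← pow_mul, mul_comm, pow_mul, rh_sq, one_div_pow]
      have e2 : (1 / 2 : ℝ) ^ ((k - Nat.log 2 N) + (Nat.log 2 N - k)) =
          (rh ^ ((k - Nat.log 2 N) + (Nat.log 2 N - k))) ^ 2 := by
        rw [← pow_mul, mul_comm, pow_mul, rh_sq]
      rw [e1, e2]
      have h0 := rh_pos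
      have a1 : 0 < rh ^ k := by positivity
      have a2 : 0 < rh ^ ((k - Nat.log 2 N) + (Nat.log 2 N - k)) := by positivity
      nlinarith [mul_pos a1 a2]
    have hL1 : (2 : ℝ) ^ (Nat.log 2 N) ≤ N := by exact_mod_cast Nat.pow_log_le_self 2 hNn
    have hL2 : (N : ℝ) ≤ 2 ^ (Nat.log 2 N + 1) := by
      exact_mod_cast (Nat.lt_pow_succ_log_self one_lt_two N).le
    set L := Nat.log 2 N with hL
    rcases le_or_gt k L with hkL | hkL
    · -- `r ≤ 1`
      have hr1 : r ≤ (1 / 2) ^ (L - k) := by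
        rw [hr, div_le_iff₀ hN0]
        calc (2 : ℝ) ^ k = (1 / 2) ^ (L - k) * 2 ^ L := by
              have : (2 : ℝ) ^ L = 2 ^ (L - k) * 2 ^ k := by rw [← pow_add]; congr 1; omega
              rw [this, ← mul_assoc, ← mul_pow]
              norm_num
          _ ≤ _ := mul_le_mul_of_nonneg_left hL1 (by positivity)
      have hs : ∑ e ∈ I, phi N T e ^ 2 ≤ (N : ℝ) ^ 2 / 2 ^ k := by
        calc ∑ e ∈ I, phi N T e ^ 2 ≤ ∑ e ∈ I, ((N : ℝ) / 2 ^ k) ^ 2 := by
              refine Finset.sum_le_sum fun e he => ?_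
              have h5 := hmem e he
              apply pow_le_pow_left₀ (phi_nonneg _ _ _)
              refine (phi_le1 hN1 T h5.1).trans ?_
              have h6 : (2 : ℝ) ^ k ≤ e := by exact_mod_cast h5.2.1
              exact div_le_div_of_nonneg_left hN0.le h2k h6
          _ = I.card * ((N : ℝ) / 2 ^ k) ^ 2 := by rw [Finset.sum_const, nsmul_eq_mul]
          _ ≤ 2 ^ k * ((N : ℝ) / 2 ^ k) ^ 2 := mul_le_mul_of_nonneg_right hcard (by positivity)
          _ = _ := by field_simp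
      have e0 : (k - L) + (L - k) = L - k := by omega
      rw [e0] at hth
      calc (1 + 3 * (4 : ℝ) ^ (k + 1) / N) * ∑ e ∈ I, phi N T e ^ 2 ≤
          (1 + 3 * (4 : ℝ) ^ (k + 1) / N) * ((N : ℝ) ^ 2 / 2 ^ k) :=
            mul_le_mul_of_nonneg_left hs (by positivity)
        _ = (N : ℝ) ^ 2 * (1 / 2 ^ k + 12 * r) := by
            rw [hX]
            field_simp
        _ ≤ (N : ℝ) ^ 2 * (936 * (1 / 2 ^ k + (1 / 2) ^ (L - k))) := by
            apply mul_le_mul_of_nonneg_left _ (by positivity)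
            have : (0 : ℝ) ≤ 1 / 2 ^ k := by positivity
            have : (0 : ℝ) ≤ (1 / 2) ^ (L - k) := by positivity
            linarith
        _ = 936 * (N : ℝ) ^ 2 * (1 / 2 ^ k + (1 / 2) ^ (L - k)) := by ring
        _ ≤ _ := mul_le_mul_of_nonneg_left hth (by positivity)
    · have hr1 : 1 / r ≤ 2 * (1 / 2) ^ (k - L) := by
        rw [hr, one_div_div, div_le_iff₀ h2k]
        calc (N : ℝ) ≤ 2 ^ (L + 1) := hL2
          _ = 2 * (1 / 2) ^ (k - L) * 2 ^ k := by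
              have : (2 : ℝ) ^ k = 2 ^ (k - L) * 2 ^ L := by rw [← pow_add]; congr 1; omega
              rw [this, mul_assoc 2, ← mul_assoc ((1 / 2 : ℝ) ^ (k - L)), ← mul_pow]
              norm_num
              ring
      have hrr : 1 ≤ r := by
        rw [hr, le_div_iff₀ hN0, one_mul]
        refine hL2.trans ?_
        exact pow_le_pow_right₀ (by norm_num) (by omega)
      have hs : ∑ e ∈ I, phi N T e ^ 2 ≤ 36 * ((N : ℝ) ^ 2 / 2 ^ k) * (1 / r ^ 4) := by
        calc ∑ e ∈ I, phi N T e ^ 2 ≤ ∑ e ∈ I, (6 * ((N : ℝ) / 2 ^ k) ^ 3) ^ 2 := by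
              refine Finset.sum_le_sum fun e he => ?_
              have h5 := hmem e he
              apply pow_le_pow_left₀ (phi_nonneg _ _ _)
              refine (phi_le3 hN1 T h5.1).trans ?_
              have h6 : (2 : ℝ) ^ k ≤ e := by exact_mod_cast h5.2.1
              apply mul_le_mul_of_nonneg_left _ (by norm_num)
              apply pow_le_pow_left₀ (by positivity)
              exact div_le_div_of_nonneg_left hN0.le h2k h6
          _ = I.card * (6 * ((N : ℝ) / 2 ^ k) ^ 3) ^ 2 := by rw [Finset.sum_const, nsmul_eq_mul]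
          _ ≤ 2 ^ k * (6 * ((N : ℝ) / 2 ^ k) ^ 3) ^ 2 := mul_le_mul_of_nonneg_right hcard (by positivity)
          _ = _ := by
            rw [hr]
            field_simp
            norm_num
      have e0 : (k - L) + (L - k) = k - L := by omega
      rw [e0] at hth
      have h5 : 1 / r ^ 4 ≤ 1 := by
        rw [div_le_one (by positivity)]
        exact one_le_pow₀ hrr
      have h6 : r * (1 / r ^ 4) ≤ 1 / r := by
        have : r * (1 / r ^ 4) = 1 / r ^ 3 := by field_simp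
        rw [this]
        apply one_div_le_one_div_of_le hr0
        nlinarith [pow_pos hr0 2, mul_pos hr0 hr0]
      calc (1 + 3 * (4 : ℝ) ^ (k + 1) / N) * ∑ e ∈ I, phi N T e ^ 2 ≤
          (1 + 3 * (4 : ℝ) ^ (k + 1) / N) * (36 * ((N : ℝ) ^ 2 / 2 ^ k) * (1 / r ^ 4)) :=
            mul_le_mul_of_nonneg_left hs (by positivity)
        _ = (N : ℝ) ^ 2 * (36 * (1 / 2 ^ k * (1 / r ^ 4)) + 432 * (r * (1 / r ^ 4))) := by
            rw [hX]
            field_simp
            ring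
        _ ≤ (N : ℝ) ^ 2 * (936 * (1 / 2 ^ k + (1 / 2) ^ (k - L))) := by
            apply mul_le_mul_of_nonneg_left _ (by positivity)
            have g1 : (0 : ℝ) ≤ 1 / 2 ^ k := by positivity
            have g2 : (0 : ℝ) ≤ (1 / 2) ^ (k - L) := by positivity
            have g3 : (1 : ℝ) / 2 ^ k * (1 / r ^ 4) ≤ 1 / 2 ^ k * 1 := mul_le_mul_of_nonneg_left h5 g1
            linarith
        _ = 936 * (N : ℝ) ^ 2 * (1 / 2 ^ k + (1 / 2) ^ (k - L)) := by ring
        _ ≤ _ := mul_le_mul_of_nonneg_left hth (by positivity)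
  calc (Real.exp (4 * Real.pi) * (1 + 3 * (4 : ℝ) ^ (k + 1) / N)) * ∑ e ∈ I, phi N T e ^ 2 =
      Real.exp (4 * Real.pi) * ((1 + 3 * (4 : ℝ) ^ (k + 1) / N) * ∑ e ∈ I, phi N T e ^ 2) := by ring
    _ ≤ Real.exp (4 * Real.pi) * (936 * (N : ℝ) ^ 2 * th (Nat.log 2 N) k ^ 2) :=
        mul_le_mul_of_nonneg_left key (exp_pos _).le
    _ = _ := by ring

/-- the sum over the blocks -/
lemma all_blocks : ∃ C : ℝ, 0 < C ∧ ∀ (N : ℕ) [NeZero N] (B : Finset (SF N 2)), IsNewSet N 2 B →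
    ∀ T : ℕ, ∑ f ∈ B, om f * (∑ e ∈ Finset.Icc 1 T, phi N T e * W388.lamf f (e ^ 2)) ^ 2 ≤
      C * (N : ℝ) ^ 2 := by
  have hrh : 0 < 1 - rh := by linarith [rh_lt]
  refine ⟨Real.exp (4 * Real.pi) * 936 * (3 * (1 - rh)⁻¹) ^ 2, by positivity, fun N _ B hB T => ?_⟩
  set K := Finset.range (Nat.log 2 T + 1) with hK
  set S : SF N 2 → ℕ → ℝ := fun f k => ∑ e ∈ (Finset.Icc 1 T).filter (fun e => Nat.log 2 e = k),
      phi N T e * W388.lamf f (e ^ 2) with hS
  have h1 : ∀ f : SF N 2, ∑ e ∈ Finset.Icc 1 T, phi N T e * W388.lamf f (e ^ 2) = ∑ k ∈ K, S f k := by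
    intro f
    rw [hS]
    rw [Finset.sum_fiberwise_of_maps_to]
    intro e he
    rw [hK, Finset.mem_range, Nat.lt_succ_iff]
    exact Nat.log_mono_right (Finset.mem_Icc.1 he).2
  set L := Nat.log 2 N with hL
  have h2 : ∀ f : SF N 2, (∑ k ∈ K, S f k) ^ 2 ≤ (∑ k ∈ K, th L k) * ∑ k ∈ K, S f k ^ 2 / th L k := by
    intro f
    refine Finset.sum_sq_le_sum_mul_sum_of_sq_eq_mul K (fun k _ => (th_pos L k).le)
      (fun k _ => div_nonneg (sq_nonneg _) (th_pos L k).le) fun k _ => ?_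
    rw [mul_div_cancel₀ _ (th_pos L k).ne']
  have hth := sum_th L K
  have hth0 : 0 ≤ ∑ k ∈ K, th L k := Finset.sum_nonneg fun k _ => (th_pos L k).le
  set A : ℝ := Real.exp (4 * Real.pi) * 936 with hA
  calc ∑ f ∈ B, om f * (∑ e ∈ Finset.Icc 1 T, phi N T e * W388.lamf f (e ^ 2)) ^ 2 ≤
      ∑ f ∈ B, om f * ((∑ k ∈ K, th L k) * ∑ k ∈ K, S f k ^ 2 / th L k) := by
        refine Finset.sum_le_sum fun f _ => ?_
        rw [h1]
        exact mul_le_mul_of_nonneg_left (h2 f) (om_nonneg f)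
    _ = (∑ k ∈ K, th L k) * ∑ k ∈ K, (∑ f ∈ B, om f * S f k ^ 2) / th L k := by
        have : ∀ k ∈ K, (∑ f ∈ B, om f * S f k ^ 2) / th L k = ∑ f ∈ B, om f * (S f k ^ 2 / th L k) := by
          intro k _
          rw [Finset.sum_div]
          exact Finset.sum_congr rfl fun f _ => by ring
        rw [Finset.sum_congr rfl this, Finset.sum_comm, Finset.mul_sum]
        refine Finset.sum_congr rfl fun f _ => ?_
        rw [← Finset.mul_sum]
        ring
    _ ≤ (∑ k ∈ K, th L k) * ∑ k ∈ K, A * (N : ℝ) ^ 2 * th L k := by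
        refine mul_le_mul_of_nonneg_left (Finset.sum_le_sum fun k _ => ?_) hth0
        rw [div_le_iff₀ (th_pos L k)]
        refine (block B hB T k).trans (le_of_eq ?_)
        ring
    _ = A * (N : ℝ) ^ 2 * (∑ k ∈ K, th L k) ^ 2 := by
        rw [← Finset.mul_sum]
        ring
    _ ≤ A * (N : ℝ) ^ 2 * (3 * (1 - rh)⁻¹) ^ 2 := by
        apply mul_le_mul_of_nonneg_left _ (by positivity)
        exact pow_le_pow_left₀ hth0 hth 2
    _ = _ := by ring

/-- the second moment of the inverses of the weights -/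
theorem second_inv : ∃ C : ℝ, 0 < C ∧ ∀ (N : ℕ) [NeZero N], N.Prime → ∀ B : Finset (SF N 2),
    IsNewSet N 2 B → ∑ f ∈ B, om f * Dn N f ^ 2 ≤ C * (N : ℝ) ^ 2 := by
  obtain ⟨C1, h10, h1⟩ := Dn_sq
  obtain ⟨C2, h20, h2⟩ := all_blocks
  refine ⟨2 * C2 + 2 * C1 ^ 2 * (Real.exp (4 * Real.pi) * 4), by positivity, fun N _ hN B hB => ?_⟩
  have hN1 : (1 : ℝ) ≤ N := by exact_mod_cast hN.one_le
  have hN0 : (0 : ℝ) < N := by linarith
  set S : SF N 2 → ℝ := fun f => ∑ e ∈ Finset.Icc 1 (N ^ 2), phi N (N ^ 2) e * W388.lamf f (e ^ 2) with hS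
  have h3 : ∀ f ∈ B, Dn N f ^ 2 ≤ 2 * S f ^ 2 + 2 * C1 ^ 2 := by
    intro f hf
    obtain ⟨ε, hε⟩ := hB.newf f hf
    have e1 := h1 N hN f ε hε
    have e2 : 0 ≤ Dn N f := tsum_nonneg fun n => by positivity
    have e3 : Dn N f ^ 2 ≤ (S f + C1) ^ 2 := pow_le_pow_left₀ e2 e1 2
    nlinarith [sq_nonneg (S f - C1)]
  have h4 : ∑ f ∈ B, om f ≤ Real.exp (4 * Real.pi) * 4 := by
    have := ls_real B hB (X := 1) le_rfl ({1} : Finset ℕ) (fun n => n) (fun a _ b _ h => h)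
      (fun i hi => by rw [Finset.mem_singleton.1 hi]; simp) (fun _ => 1)
    simp only [Finset.sum_singleton, one_mul, one_pow, mul_one] at this
    have e1 : ∑ f ∈ B, om f * W388.lamf f 1 ^ 2 = ∑ f ∈ B, om f := by
      refine Finset.sum_congr rfl fun f hf => ?_
      obtain ⟨ε, hε⟩ := hB.newf f hf
      rw [(W388.heckeSeq_lamf hε).one, one_pow, mul_one]
    rw [e1] at this
    refine this.trans (mul_le_mul_of_nonneg_left ?_ (exp_pos _).le)
    have : (3 : ℝ) / N ≤ 3 := div_le_self (by norm_num) hN1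
    linarith
  calc ∑ f ∈ B, om f * Dn N f ^ 2 ≤ ∑ f ∈ B, om f * (2 * S f ^ 2 + 2 * C1 ^ 2) :=
        Finset.sum_le_sum fun f hf => mul_le_mul_of_nonneg_left (h3 f hf) (om_nonneg f)
    _ = 2 * ∑ f ∈ B, om f * S f ^ 2 + 2 * C1 ^ 2 * ∑ f ∈ B, om f := by
        rw [Finset.mul_sum, Finset.mul_sum, ← Finset.sum_add_distrib]
        exact Finset.sum_congr rfl fun f _ => by ring
    _ ≤ 2 * (C2 * (N : ℝ) ^ 2) + 2 * C1 ^ 2 * (Real.exp (4 * Real.pi) * 4) :=
        add_le_add (mul_le_mul_of_nonneg_left (h2 N B hB (N ^ 2)) zero_le_two)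
          (mul_le_mul_of_nonneg_left h4 (by positivity))
    _ ≤ 2 * (C2 * (N : ℝ) ^ 2) + 2 * C1 ^ 2 * (Real.exp (4 * Real.pi) * 4) * (N : ℝ) ^ 2 :=
        add_le_add le_rfl (le_mul_of_one_le_right (by positivity) (one_le_pow₀ hN1))
    _ = _ := by ring

/-- counting and the harmonic weights -/
theorem count_sq : ∃ C : ℝ, 0 < C ∧ ∀ (N : ℕ) [NeZero N], N.Prime → ∀ B : Finset (SF N 2),
    IsNewSet N 2 B → (B.card : ℝ) ^ 2 ≤ C * (N : ℝ) ^ 2 * ∑ f ∈ B, om f := by
  obtain ⟨C, hC0, hC⟩ := second_inv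
  refine ⟨4 * C, by positivity, fun N _ hN B hB => ?_⟩
  have h1 : (B.card : ℝ) ≤ ∑ f ∈ B, om f * (2 * Dn N f) := by
    have : (B.card : ℝ) = ∑ f ∈ B, (1 : ℝ) := by simp
    rw [this]
    refine Finset.sum_le_sum fun f hf => ?_
    obtain ⟨ε, hε⟩ := hB.newf f hf
    exact om_inv hN hε
  have h2 : (∑ f ∈ B, om f * (2 * Dn N f)) ^ 2 ≤ (∑ f ∈ B, om f) * ∑ f ∈ B, om f * (2 * Dn N f) ^ 2 := by
    refine Finset.sum_sq_le_sum_mul_sum_of_sq_eq_mul B (fun f _ => om_nonneg f)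
      (fun f _ => mul_nonneg (om_nonneg f) (sq_nonneg _)) fun f _ => ?_
    ring
  have h3 : ∑ f ∈ B, om f * (2 * Dn N f) ^ 2 ≤ 4 * (C * (N : ℝ) ^ 2) := by
    have : ∑ f ∈ B, om f * (2 * Dn N f) ^ 2 = 4 * ∑ f ∈ B, om f * Dn N f ^ 2 := by
      rw [Finset.mul_sum]
      exact Finset.sum_congr rfl fun f _ => by ring
    rw [this]
    exact mul_le_mul_of_nonneg_left (hC N hN B hB) (by norm_num)
  have h4 : 0 ≤ ∑ f ∈ B, om f := Finset.sum_nonneg fun f _ => om_nonneg f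
  calc (B.card : ℝ) ^ 2 ≤ (∑ f ∈ B, om f * (2 * Dn N f)) ^ 2 := pow_le_pow_left₀ (Nat.cast_nonneg _) h1 2
    _ ≤ (∑ f ∈ B, om f) * ∑ f ∈ B, om f * (2 * Dn N f) ^ 2 := h2
    _ ≤ (∑ f ∈ B, om f) * (4 * (C * (N : ℝ) ^ 2)) := mul_le_mul_of_nonneg_left h3 h4
    _ = _ := by ring

end Pool.Agent.H485.CC
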