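import Mathlib

/-!
# Smooth weights and Mellin inversion
-/

set_option autoImplicit false
set_option maxHeartbeats 4000000
set_option linter.unusedSectionVars false

open MeasureTheory Real Finset

namespace Pool.Agent.H485.CC

lemma norm_Gamma_le' {s : ℂ} (hs : 0 < s.re) : ‖Complex.Gamma s‖ ≤ Real.Gamma s.re := by
  rw [Complex.Gamma_eq_integral hs, Complex.GammaIntegral, Real.Gamma_eq_integral hs]
  refine (norm_integral_le_integral_norm _).trans (le_of_eq ?_)
  refine setIntegral_congr_fun measurableSet_Ioi fun x hx => ?_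
  have hx' : (0 : ℝ) < x := hx
  rw [norm_mul, Complex.norm_real, Real.norm_eq_abs, abs_of_pos (exp_pos _),
    Complex.norm_cpow_eq_rpow_re_of_pos hx']
  simp

section

variable {Ω' : Type} [MeasurableSpace Ω'] (ν : Measure Ω') [IsProbabilityMeasure ν] (Z : Ω' → ℝ)

/-- the smoothed exponential -/
noncomputable def Vw (y : ℝ) : ℝ := ∫ u, exp (-(y * exp (Z u))) ∂ν

/-- the transform of the law of `Z` -/
noncomputable def Gw (s : ℂ) : ℂ := ∫ u, Complex.exp (-(s * Z u)) ∂ν

variable {ν Z}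

lemma Vw_nonneg (y : ℝ) : 0 ≤ Vw ν Z y := integral_nonneg fun _ => (exp_pos _).le

lemma Vw_int (hZ : Measurable Z) {y : ℝ} (hy : 0 ≤ y) :
    Integrable (fun u => exp (-(y * exp (Z u)))) ν := by
  refine Integrable.of_bound (by fun_prop) 1 (Filter.Eventually.of_forall fun u => ?_)
  rw [Real.norm_eq_abs, abs_of_pos (exp_pos _)]
  apply exp_le_one_iff.2
  have := exp_pos (Z u)
  nlinarith [mul_nonneg hy this.le]

lemma Vw_le (hZ : Measurable Z) {H : ℝ} (hH : ∀ᵐ u ∂ν, |Z u| ≤ H) {y : ℝ} (hy : 0 ≤ y) :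
    Vw ν Z y ≤ exp (-(y * exp (-H))) := by
  unfold Vw
  calc ∫ u, exp (-(y * exp (Z u))) ∂ν ≤ ∫ _, exp (-(y * exp (-H))) ∂ν := by
        refine integral_mono_ae (Vw_int hZ hy) (integrable_const _) ?_
        filter_upwards [hH] with u hu
        apply exp_le_exp.2
        apply neg_le_neg
        exact mul_le_mul_of_nonneg_left (exp_le_exp.2 (abs_le.1 hu).1) hy
    _ = _ := by simp

lemma Vw_le_one (hZ : Measurable Z) {H : ℝ} (hH : ∀ᵐ u ∂ν, |Z u| ≤ H) {y : ℝ} (hy : 0 ≤ y) :
    Vw ν Z y ≤ 1 := by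
  refine (Vw_le hZ hH hy).trans (exp_le_one_iff.2 ?_)
  have := exp_pos (-H)
  nlinarith [mul_nonneg hy this.le]

lemma Vw_continuousAt (hZ : Measurable Z) {y : ℝ} (hy : 0 < y) : ContinuousAt (Vw ν Z) y := by
  unfold Vw
  refine continuousAt_of_dominated (bound := fun _ => 1) ?_ ?_ (integrable_const _) ?_
  · exact Filter.Eventually.of_forall fun x => by fun_prop
  · filter_upwards [lt_mem_nhds hy] with x hx
    refine Filter.Eventually.of_forall fun u => ?_
    rw [Real.norm_eq_abs, abs_of_pos (exp_pos _)]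
    apply exp_le_one_iff.2
    have := exp_pos (Z u)
    nlinarith [mul_pos hx this]
  · refine Filter.Eventually.of_forall fun u => ?_
    fun_prop

lemma Gw_continuous (hZ : Measurable Z) {H : ℝ} (hH : ∀ᵐ u ∂ν, |Z u| ≤ H) (σ : ℝ) :
    Continuous fun τ : ℝ => Gw ν Z (σ + τ * Complex.I) := by
  unfold Gw
  refine continuous_of_dominated (bound := fun _ => exp (|σ| * H)) ?_ ?_ (integrable_const _) ?_
  · intro τ; fun_prop
  · intro τ
    filter_upwards [hH] with u hu
    rw [Complex.norm_exp]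
    apply exp_le_exp.2
    have h1 : (-((σ + τ * Complex.I) * (Z u : ℂ))).re = -(σ * Z u) := by simp
    rw [h1]
    calc -(σ * Z u) ≤ |σ * Z u| := neg_le_abs _
      _ = |σ| * |Z u| := abs_mul _ _
      _ ≤ _ := mul_le_mul_of_nonneg_left hu (abs_nonneg _)
  · refine Filter.Eventually.of_forall fun u => ?_
    fun_prop

lemma mellin_Vw (hZ : Measurable Z) {H : ℝ} (hH : ∀ᵐ u ∂ν, |Z u| ≤ H) {s : ℂ} (hs : 0 < s.re) :
    MellinConvergent (fun y => (Vw ν Z y : ℂ)) s ∧
      mellin (fun y => (Vw ν Z y : ℂ)) s = Gw ν Z s * Complex.Gamma s := by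
  have hgam : IntegrableOn (fun x : ℝ => x ^ (s.re - 1) * exp (-(exp (-H)) * x ^ (1 : ℝ))) (Set.Ioi 0) :=
    integrableOn_rpow_mul_exp_neg_mul_rpow (by linarith) one_pos (exp_pos _)
  have hbd : ∀ x : ℝ, 0 < x → ‖(x : ℂ) ^ (s - 1)‖ = x ^ (s.re - 1) := by
    intro x hx
    rw [Complex.norm_cpow_eq_rpow_re_of_pos hx]
    simp
  have hF : Integrable (fun z : ℝ × Ω' => (z.1 : ℂ) ^ (s - 1) * Complex.exp (-((z.1 : ℂ) * exp (Z z.2))))
      ((volume.restrict (Set.Ioi 0)).prod ν) := by
    have h1 : Integrable (fun z : ℝ × Ω' => z.1 ^ (s.re - 1) * exp (-(exp (-H)) * z.1 ^ (1 : ℝ)))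
        ((volume.restrict (Set.Ioi 0)).prod ν) := by
      have := hgam.integrable.comp_fst ν
      exact this
    refine h1.mono' ?_ ?_
    · apply Measurable.aestronglyMeasurable
      have h2 : Measurable fun z : ℝ × Ω' => (z.1 : ℂ) ^ (s - 1) := by
        exact (Complex.measurable_ofReal.comp measurable_fst).pow_const _
      refine h2.mul ?_
      fun_prop
    · have e1 : ∀ᵐ z ∂((volume.restrict (Set.Ioi (0 : ℝ))).prod ν), |Z z.2| ≤ H :=
        Measure.quasiMeasurePreserving_snd.ae hH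
      have e2 : ∀ᵐ z ∂((volume.restrict (Set.Ioi (0 : ℝ))).prod ν), z.1 ∈ Set.Ioi (0 : ℝ) :=
        Measure.quasiMeasurePreserving_fst.ae (ae_restrict_mem measurableSet_Ioi)
      filter_upwards [e1, e2] with z hz1 hz2
      have hz2' : 0 < z.1 := hz2
      rw [norm_mul, hbd _ hz2', Complex.norm_exp]
      refine mul_le_mul_of_nonneg_left (exp_le_exp.2 ?_) (by positivity)
      have h3 : (-((z.1 : ℂ) * (exp (Z z.2) : ℝ))).re = -(z.1 * exp (Z z.2)) := by
        rw [← Complex.ofReal_mul, ← Complex.ofReal_neg, Complex.ofReal_re]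
      rw [h3, rpow_one]
      have h4 : exp (-H) ≤ exp (Z z.2) := exp_le_exp.2 (abs_le.1 hz1).1
      have := mul_le_mul_of_nonneg_right h4 hz2'.le
      linarith
  have hV : ∀ t : ℝ, (Vw ν Z t : ℂ) = ∫ u, Complex.exp (-((t : ℂ) * exp (Z u))) ∂ν := by
    intro t
    unfold Vw
    rw [← integral_complex_ofReal]
    congr 1
    ext u
    push_cast
    rfl
  have hin : ∀ t : ℝ, (t : ℂ) ^ (s - 1) • (Vw ν Z t : ℂ) =
      ∫ u, (t : ℂ) ^ (s - 1) * Complex.exp (-((t : ℂ) * exp (Z u))) ∂ν := by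
    intro t
    rw [hV, smul_eq_mul, integral_const_mul]
  constructor
  · unfold MellinConvergent
    simp_rw [hin]
    exact hF.integral_prod_left
  · unfold mellin
    simp_rw [hin]
    rw [integral_integral_swap hF]
    unfold Gw
    rw [← integral_mul_const]
    congr 1
    ext u
    have h5 := Complex.integral_cpow_mul_exp_neg_mul_Ioi (a := s) (r := exp (Z u)) hs (exp_pos _)
    have h6 : ∀ t : ℝ, (t : ℂ) ^ (s - 1) * Complex.exp (-((t : ℂ) * exp (Z u))) =
      (t : ℂ) ^ (s - 1) * Complex.exp (-((exp (Z u) : ℝ) : ℂ) * t) := by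
      intro t
      congr 2
      ring
    simp_rw [h6]
    have h7 : ∀ t : ℝ, (t : ℂ) ^ (s - 1) * Complex.exp (-((exp (Z u) : ℝ) : ℂ) * t) =
      (t : ℂ) ^ (s - 1) * Complex.exp (-(((exp (Z u) : ℝ) : ℂ) * t)) := by
      intro t; rw [neg_mul]
    simp_rw [h7]
    rw [h5]
    congr 1
    rw [one_div, ← Complex.ofReal_inv, ← Real.exp_neg, Complex.ofReal_exp]
    rw [Complex.cpow_def_of_ne_zero (Complex.exp_ne_zero _)]
    rw [← Complex.ofReal_exp, ← Complex.ofReal_log (exp_pos _).le, Real.log_exp]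
    congr 1
    push_cast
    ring

theorem Vw_inv (hZ : Measurable Z) {H : ℝ} (hH : ∀ᵐ u ∂ν, |Z u| ≤ H) {σ : ℝ} (hσ : 0 < σ)
    (hG : Integrable fun τ : ℝ => Gw ν Z (σ + τ * Complex.I)) {y : ℝ} (hy : 0 < y) :
    (Vw ν Z y : ℂ) = (1 / (2 * π)) • ∫ τ : ℝ, (y : ℂ) ^ (-(σ + τ * Complex.I)) *
      (Gw ν Z (σ + τ * Complex.I) * Complex.Gamma (σ + τ * Complex.I)) := by
  have hre : ∀ τ : ℝ, ((σ : ℂ) + τ * Complex.I).re = σ := by intro τ; simp
  have hm := fun τ : ℝ => mellin_Vw (ν := ν) hZ hH (s := σ + τ * Complex.I) (by rw [hre]; exact hσ)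
  have h1 : mellinInv σ (mellin (fun y => (Vw ν Z y : ℂ))) y = (Vw ν Z y : ℂ) := by
    refine mellinInv_mellin_eq σ _ hy ?_ ?_ ?_
    · have := (hm 0).1
      simpa using this
    · unfold Complex.VerticalIntegrable
      have : (fun τ : ℝ => mellin (fun y => (Vw ν Z y : ℂ)) (σ + τ * Complex.I)) =
          fun τ : ℝ => Gw ν Z (σ + τ * Complex.I) * Complex.Gamma (σ + τ * Complex.I) := by
        ext τ
        exact (hm τ).2
      rw [this]
      refine (hG.norm.mul_const (Real.Gamma σ)).mono' ?_ ?_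
      · apply Continuous.aestronglyMeasurable
        refine (Gw_continuous hZ hH σ).mul ?_
        rw [continuous_iff_continuousAt]
        intro τ
        refine ContinuousAt.comp (f := fun τ : ℝ => (σ : ℂ) + τ * Complex.I) ?_ (by fun_prop)
        apply (Complex.differentiableAt_Gamma _ _).continuousAt
        intro m hm'
        have := congrArg Complex.re hm'
        rw [hre] at this
        simp at this
        have : (0 : ℝ) ≤ m := Nat.cast_nonneg m
        linarith
      · refine Filter.Eventually.of_forall fun τ => ?_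
        rw [norm_mul]
        refine mul_le_mul_of_nonneg_left ?_ (norm_nonneg _)
        have := norm_Gamma_le' (s := σ + τ * Complex.I) (by rw [hre]; exact hσ)
        rwa [hre] at this
    · exact Complex.continuous_ofReal.continuousAt.comp (Vw_continuousAt hZ hy)
  rw [← h1, mellinInv]
  congr 1
  refine integral_congr_ae (Filter.Eventually.of_forall fun τ => ?_)
  simp only [smul_eq_mul]
  rw [(hm τ).2]

end

end Pool.Agent.H485.CC
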