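import Pool.Agent.H485.CC.Eul
import Pool.Agent.H485.CC.Mel

/-!
# The second moment of the random smoothed sum
-/

set_option autoImplicit false
set_option maxHeartbeats 4000000

open MeasureTheory Real Finset

namespace Pool.Agent.H485.CC

variable {S : Finset ℕ}

/-- the random smoothed sum -/
noncomputable def SX (S : Finset ℕ) (m : ℕ) (h c : ℝ) (x : S → ℝ) : ℝ :=
  ∑' n : Nat.factoredNumbers S, XX S x n * tp n * Vw (nu m h) (Zs m) (c * (n : ℕ))

/-- the transform of the weight -/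
noncomputable def GG (m : ℕ) (h σ τ : ℝ) : ℂ :=
  Gw (nu m h) (Zs m) (σ + τ * Complex.I) * Complex.Gamma (σ + τ * Complex.I)

lemma re_line (σ τ : ℝ) : ((σ : ℂ) + τ * Complex.I).re = σ := by simp

lemma GG_cont (m : ℕ) {h σ : ℝ} (hh : 0 < h) (hσ : 0 < σ) : Continuous (GG m h σ) := by
  have := nu_prob m hh
  unfold GG
  refine (Gw_continuous (Zs_meas m) (Zs_ae m hh) σ).mul ?_
  rw [continuous_iff_continuousAt]
  intro τ
  refine ContinuousAt.comp (f := fun τ : ℝ => (σ : ℂ) + τ * Complex.I) ?_ (by fun_prop)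
  apply (Complex.differentiableAt_Gamma _ _).continuousAt
  intro m hm'
  have := congrArg Complex.re hm'
  rw [re_line] at this
  simp at this
  have : (0 : ℝ) ≤ m := Nat.cast_nonneg m
  linarith

/-- the majorant of the transform -/
noncomputable def wt (m : ℕ) (h τ : ℝ) : ℝ :=
  if |τ| ≤ exp 1 * (1 / h) then 27 * ph (1 / h) τ else 45 * exp (-(m : ℝ)) * ph (1 / h) τ

lemma wt_nonneg (m : ℕ) (h τ : ℝ) : 0 ≤ wt m h τ := by
  unfold wt
  have := (ph_pos (1 / h) τ).le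
  split_ifs <;> positivity

lemma wt_meas (m : ℕ) (h : ℝ) : Measurable (wt m h) := by
  unfold wt ph
  refine Measurable.ite ?_ (by fun_prop) (by fun_prop)
  exact measurableSet_le (by fun_prop) (by fun_prop)

lemma exp_m {m : ℕ} (hm : 2 ≤ m) : 45 * exp (-(m : ℝ)) ≤ 27 := by
  have e1 : exp (-(m : ℝ)) ≤ exp (-1) := by
    apply exp_le_exp.2
    have : (2 : ℝ) ≤ m := by exact_mod_cast hm
    linarith
  have e2 : exp (-1) ≤ 0.4 := by
    rw [Real.exp_neg, inv_le_comm₀ (exp_pos _) (by norm_num)]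
    have := Real.exp_one_gt_d9
    norm_num
    linarith
  linarith

lemma wt_le {m : ℕ} (hm : 2 ≤ m) (h τ : ℝ) : wt m h τ ≤ 27 * ph (1 / h) τ := by
  unfold wt
  split_ifs
  · exact le_refl _
  · exact mul_le_mul_of_nonneg_right (exp_m hm) (ph_pos _ _).le

lemma wt_int {m : ℕ} (hm : 2 ≤ m) {h : ℝ} (hh : 0 < h) : Integrable (wt m h) := by
  refine ((ph_integrable (a := 1 / h) (by positivity)).const_mul 27).mono'
    (wt_meas m h).aestronglyMeasurable (Filter.Eventually.of_forall fun τ => ?_)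
  rw [Real.norm_eq_abs, abs_of_nonneg (wt_nonneg m h τ)]
  exact wt_le hm h τ

lemma wt_integral_le {m : ℕ} (hm : 2 ≤ m) {h : ℝ} (hh : 0 < h) : ∫ τ, wt m h τ ≤ 27 * (π / h) := by
  calc ∫ τ, wt m h τ ≤ ∫ τ, 27 * ph (1 / h) τ :=
        integral_mono (wt_int hm hh) ((ph_integrable (a := 1 / h) (by positivity)).const_mul 27)
          (fun τ => wt_le hm h τ)
    _ = _ := by
        rw [integral_const_mul, ph_integral (by positivity)]
        ring

lemma wt_pos_int {m : ℕ} (hm : 2 ≤ m) {h : ℝ} (hh : 0 < h) : 0 < ∫ τ, wt m h τ := by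
  rw [integral_pos_iff_support_of_nonneg (wt_nonneg m h) (wt_int hm hh)]
  have : Function.support (wt m h) = Set.univ := by
    ext τ
    simp only [Function.mem_support, Set.mem_univ, iff_true]
    have := ph_pos (1 / h) τ
    unfold wt
    split_ifs <;> positivity
  rw [this]
  simp

lemma norm_Gw_le {m : ℕ} (hm : 2 ≤ m) {h σ : ℝ} (hh : 0 < h) (hσ0 : 0 < σ) (hσ : m * (σ * h) ≤ 1)
    (τ : ℝ) : ‖Gw (nu m h) (Zs m) (σ + τ * Complex.I)‖ ≤ wt m h τ := by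
  have := Gw_bound hm hh hσ0 hσ τ
  unfold wt
  split_ifs with h1
  · exact this.1
  · exact this.2 (not_le.1 h1)

lemma Gw_integrable {m : ℕ} (hm : 2 ≤ m) {h σ : ℝ} (hh : 0 < h) (hσ0 : 0 < σ)
    (hσ : m * (σ * h) ≤ 1) : Integrable fun τ : ℝ => Gw (nu m h) (Zs m) (σ + τ * Complex.I) := by
  have := nu_prob m hh
  exact (wt_int hm hh).mono' (Gw_continuous (Zs_meas m) (Zs_ae m hh) σ).aestronglyMeasurable
    (Filter.Eventually.of_forall fun τ => norm_Gw_le hm hh hσ0 hσ τ)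

lemma norm_GG_le {m : ℕ} (hm : 2 ≤ m) {h σ : ℝ} (hh : 0 < h) (hσ0 : 0 < σ) (hσ : m * (σ * h) ≤ 1)
    (τ : ℝ) : ‖GG m h σ τ‖ ≤ Real.Gamma σ * wt m h τ := by
  unfold GG
  rw [norm_mul, mul_comm]
  refine mul_le_mul ?_ (norm_Gw_le hm hh hσ0 hσ τ) (norm_nonneg _) (Real.Gamma_pos_of_pos hσ0).le
  have := norm_Gamma_le' (s := σ + τ * Complex.I) (by rw [re_line]; exact hσ0)
  rwa [re_line] at this

lemma GG_integrable {m : ℕ} (hm : 2 ≤ m) {h σ : ℝ} (hh : 0 < h) (hσ0 : 0 < σ)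
    (hσ : m * (σ * h) ≤ 1) : Integrable (GG m h σ) :=
  ((wt_int hm hh).const_mul (Real.Gamma σ)).mono' (GG_cont m hh hσ0).aestronglyMeasurable
    (Filter.Eventually.of_forall fun τ => norm_GG_le hm hh hσ0 hσ τ)

lemma norm_ft (σ τ : ℝ) (x : S → ℝ) {n : ℕ} (hn : 1 ≤ n) :
    ‖ft S (σ + τ * Complex.I) x n‖ = ‖ft S σ x n‖ := by
  unfold ft
  rw [norm_mul, norm_mul _ ((n : ℂ) ^ (-(σ : ℂ)))]
  congr 1
  rw [Complex.norm_natCast_cpow_of_pos (by omega), Complex.norm_natCast_cpow_of_pos (by omega)]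
  congr 1
  simp

theorem SX_mellin (hS : ∀ p ∈ S, p.Prime) {m : ℕ} (hm : 2 ≤ m) {h σ : ℝ} (hh : 0 < h)
    (hσ0 : 0 < σ) (hσ : m * (σ * h) ≤ 1) {c : ℝ} (hc : 0 < c) (x : S → ℝ) :
    ((SX S m h c x : ℝ) : ℂ) = (1 / (2 * π)) • ∫ τ : ℝ, ((c : ℂ) ^ (-(σ + τ * Complex.I)) *
      GG m h σ τ) * EE S (σ + τ * Complex.I) x := by
  have := nu_prob m hh
  set F : Nat.factoredNumbers S → ℝ → ℂ := fun n τ =>
    ((c : ℂ) ^ (-(σ + τ * Complex.I)) * GG m h σ τ) * ft S (σ + τ * Complex.I) x n with hF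
  have hn1 : ∀ n : Nat.factoredNumbers S, 1 ≤ (n : ℕ) := fun n =>
    Nat.one_le_iff_ne_zero.2 (Nat.ne_zero_of_mem_factoredNumbers n.2)
  have hcn : ∀ τ : ℝ, ‖(c : ℂ) ^ (-(σ + τ * Complex.I))‖ = c ^ (-σ) := by
    intro τ
    rw [Complex.norm_cpow_eq_rpow_re_of_pos hc]
    congr 1
    simp
  have hnorm : ∀ n τ, ‖F n τ‖ = c ^ (-σ) * ‖ft S σ x n‖ * ‖GG m h σ τ‖ := by
    intro n τ
    rw [hF]
    dsimp only
    rw [norm_mul, norm_mul, norm_ft σ τ x (hn1 n), hcn]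
    ring
  have hcont : ∀ n, Continuous (F n) := by
    intro n
    have hn0 : ((n : ℕ) : ℂ) ≠ 0 := by
      have := hn1 n
      exact_mod_cast (by omega : (n : ℕ) ≠ 0)
    have hc0 : (c : ℂ) ≠ 0 := by exact_mod_cast hc.ne'
    rw [hF]
    unfold ft
    refine (Continuous.mul ?_ (GG_cont m hh hσ0)).mul (continuous_const.mul ?_)
    · exact Continuous.const_cpow (by fun_prop) (Or.inl hc0)
    · exact Continuous.const_cpow (by fun_prop) (Or.inl hn0)
  have hint : ∀ n, Integrable (F n) := by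
    intro n
    refine ((GG_integrable hm hh hσ0 hσ).norm.const_mul (c ^ (-σ) * ‖ft S σ x n‖)).mono'
      (hcont n).aestronglyMeasurable (Filter.Eventually.of_forall fun τ => ?_)
    rw [hnorm]
  have hsum : Summable fun n => ∫ τ, ‖F n τ‖ := by
    have h1 := (EE_hasSum hS (s := (σ : ℂ)) (by simpa using hσ0.le) x).1
    have h2 := (h1.mul_left (c ^ (-σ))).mul_right (∫ τ, ‖GG m h σ τ‖)
    refine h2.congr fun n => ?_
    simp_rw [hnorm]
    rw [integral_const_mul]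
  have h3 := integral_tsum_of_summable_integral_norm hint hsum
  have h4 : ∀ τ : ℝ, ∑' n, F n τ = ((c : ℂ) ^ (-(σ + τ * Complex.I)) *
      GG m h σ τ) * EE S (σ + τ * Complex.I) x := by
    intro τ
    rw [hF]
    dsimp only
    rw [tsum_mul_left, (EE_hasSum hS (s := σ + τ * Complex.I) (by rw [re_line]; exact hσ0.le) x).2.tsum_eq]
  simp_rw [h4] at h3
  rw [← h3]
  unfold SX
  rw [Complex.ofReal_tsum, ← tsum_const_smul'']
  refine tsum_congr fun n => ?_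
  have hn0 : (0 : ℝ) < ((n : ℕ) : ℝ) := by exact_mod_cast hn1 n
  have h5 := Vw_inv (ν := nu m h) (Z := Zs m) (Zs_meas m) (Zs_ae m hh) hσ0
    (Gw_integrable hm hh hσ0 hσ) (y := c * (n : ℕ)) (by positivity)
  push_cast
  push_cast at h5
  rw [h5, Complex.real_smul, Complex.real_smul]
  rw [hF]
  dsimp only
  rw [mul_left_comm, ← integral_const_mul]
  congr 1
  refine integral_congr_ae (Filter.Eventually.of_forall fun τ => ?_)
  dsimp only
  unfold ft GG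
  have e : ((c : ℂ) * ((n : ℕ) : ℂ)) ^ (-(σ + τ * Complex.I)) =
      (c : ℂ) ^ (-(σ + τ * Complex.I)) * ((n : ℕ) : ℂ) ^ (-(σ + τ * Complex.I)) := by
    have := Complex.mul_cpow_ofReal_nonneg hc.le hn0.le (-(σ + τ * Complex.I))
    push_cast at this
    exact this
  rw [e]
  ring

lemma norm_EE_le (hS : ∀ p ∈ S, p.Prime) {s : ℂ} (hs : 0 ≤ s.re) (x : S → ℝ) :
    ‖EE S s x‖ ≤ 16 ^ S.card := by
  unfold EE
  rw [norm_prod]
  calc ∏ p : S, ‖lf (tp p) (((p : ℕ) : ℂ) ^ (-s)) (x p)‖ ≤ ∏ _p : S, (16 : ℝ) :=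
        Finset.prod_le_prod (fun _ _ => norm_nonneg _) fun p _ =>
          norm_lf_le (tp_nonneg _) (tp_le (hS p p.2)) (norm_ps (hS p p.2) hs) _
    _ = _ := by simp

lemma EE_cont (hS : ∀ p ∈ S, p.Prime) {σ : ℝ} (hσ : 0 ≤ σ) :
    Continuous fun z : (S → ℝ) × ℝ => EE S (σ + z.2 * Complex.I) z.1 := by
  unfold EE
  refine continuous_finsetProd _ fun p _ => ?_
  have hp := hS p p.2
  unfold lf
  have hp0 : ((p : ℕ) : ℂ) ≠ 0 := by exact_mod_cast hp.ne_zero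
  have h1 : Continuous fun z : (S → ℝ) × ℝ => (((p : ℕ) : ℂ) ^ (-(σ + z.2 * Complex.I))) :=
    Continuous.const_cpow (by fun_prop) (Or.inl hp0)
  have h2 : Continuous fun z : (S → ℝ) × ℝ => (uu 1 (z.1 p) : ℂ) :=
    Complex.continuous_ofReal.comp ((continuous_uu 1).comp ((continuous_apply p).comp continuous_fst))
  refine Continuous.inv₀ ?_ fun z h => ?_
  · exact (continuous_const.sub (h2.mul (continuous_const.mul h1))).add ((continuous_const.mul h1).pow 2)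
  · have := norm_den_ge (tp_nonneg p) (tp_le hp) (w := ((p : ℕ) : ℂ) ^ (-(σ + z.2 * Complex.I)))
      (norm_ps hp (by rw [re_line]; exact hσ)) (z.1 p)
    rw [h, norm_zero] at this
    linarith

lemma cs {w g : ℝ → ℝ} (hw : ∀ τ, 0 ≤ w τ) (hwi : Integrable w) (hw0 : 0 < ∫ τ, w τ)
    (hg : AEStronglyMeasurable g) {C : ℝ} (hC : ∀ τ, |g τ| ≤ C) :
    (∫ τ, w τ * g τ) ^ 2 ≤ (∫ τ, w τ) * ∫ τ, w τ * g τ ^ 2 := by
  have h1 : Integrable fun τ => w τ * g τ := by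
    refine (hwi.mul_const C).mono' (hwi.aestronglyMeasurable.mul hg)
      (Filter.Eventually.of_forall fun τ => ?_)
    rw [norm_mul, Real.norm_eq_abs, Real.norm_eq_abs, abs_of_nonneg (hw τ)]
    exact mul_le_mul_of_nonneg_left (hC τ) (hw τ)
  have h2 : Integrable fun τ => w τ * g τ ^ 2 := by
    refine (hwi.mul_const (C ^ 2)).mono' (hwi.aestronglyMeasurable.mul (hg.pow 2))
      (Filter.Eventually.of_forall fun τ => ?_)
    rw [norm_mul, Real.norm_eq_abs, Real.norm_eq_abs, abs_of_nonneg (hw τ), abs_of_nonneg (sq_nonneg _)]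
    refine mul_le_mul_of_nonneg_left ?_ (hw τ)
    rw [← sq_abs]
    exact pow_le_pow_left₀ (abs_nonneg _) (hC τ) 2
  set I0 := ∫ τ, w τ with hI0
  set I1 := ∫ τ, w τ * g τ with hI1
  set I2 := ∫ τ, w τ * g τ ^ 2 with hI2
  have h3 : 0 ≤ ∫ τ, w τ * (g τ - I1 / I0) ^ 2 :=
    integral_nonneg fun τ => mul_nonneg (hw τ) (sq_nonneg _)
  have h4 : ∫ τ, w τ * (g τ - I1 / I0) ^ 2 = I2 - 2 * (I1 / I0) * I1 + (I1 / I0) ^ 2 * I0 := by
    have e : ∀ τ, w τ * (g τ - I1 / I0) ^ 2 = w τ * g τ ^ 2 - 2 * (I1 / I0) * (w τ * g τ) +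
        (I1 / I0) ^ 2 * w τ := by intro τ; ring
    simp_rw [e]
    have j1 : Integrable fun τ => 2 * (I1 / I0) * (w τ * g τ) := h1.const_mul _
    have j2 : Integrable fun τ => (I1 / I0) ^ 2 * w τ := hwi.const_mul _
    have j3 : Integrable fun τ => w τ * g τ ^ 2 - 2 * (I1 / I0) * (w τ * g τ) := h2.sub j1
    rw [integral_add j3 j2, integral_sub h2 j1, integral_const_mul, integral_const_mul]
  rw [h4] at h3
  have h5 : I2 - 2 * (I1 / I0) * I1 + (I1 / I0) ^ 2 * I0 = I2 - I1 ^ 2 / I0 := by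
    field_simp
    ring
  rw [h5] at h3
  have h6 : I1 ^ 2 / I0 ≤ I2 := by linarith
  rw [div_le_iff₀ hw0] at h6
  linarith

theorem SX_sq (hS : ∀ p ∈ S, p.Prime) {m : ℕ} (hm : 2 ≤ m) {h σ : ℝ} (hh : 0 < h)
    (hσ0 : 0 < σ) (hσ : m * (σ * h) ≤ 1) {c : ℝ} (hc : 0 < c) (x : S → ℝ) :
    SX S m h c x ^ 2 ≤ (c ^ (-σ) * Real.Gamma σ / (2 * π)) ^ 2 * (27 * (π / h)) *
      ∫ τ, wt m h τ * ‖EE S (σ + τ * Complex.I) x‖ ^ 2 := by
  have hG := Real.Gamma_pos_of_pos hσ0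
  have hcn : ∀ τ : ℝ, ‖(c : ℂ) ^ (-(σ + τ * Complex.I))‖ = c ^ (-σ) := by
    intro τ
    rw [Complex.norm_cpow_eq_rpow_re_of_pos hc]
    congr 1
    simp
  have hcσ : 0 < c ^ (-σ) := by positivity
  have hE : Continuous fun τ : ℝ => ‖EE S (σ + τ * Complex.I) x‖ :=
    ((EE_cont hS hσ0.le).comp (Continuous.prodMk continuous_const continuous_id)).norm
  have hEb : ∀ τ : ℝ, |‖EE S (σ + τ * Complex.I) x‖| ≤ 16 ^ S.card := by
    intro τ
    rw [abs_norm]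
    exact norm_EE_le hS (by rw [re_line]; exact hσ0.le) x
  have h1 : |SX S m h c x| ≤ (c ^ (-σ) * Real.Gamma σ / (2 * π)) *
      ∫ τ, wt m h τ * ‖EE S (σ + τ * Complex.I) x‖ := by
    have e1 : |SX S m h c x| = ‖((SX S m h c x : ℝ) : ℂ)‖ := by
      rw [Complex.norm_real, Real.norm_eq_abs]
    rw [e1, SX_mellin hS hm hh hσ0 hσ hc x, norm_smul, Real.norm_eq_abs, abs_of_pos (by positivity)]
    have h2 : ‖∫ τ : ℝ, ((c : ℂ) ^ (-(σ + τ * Complex.I)) * GG m h σ τ) * EE S (σ + τ * Complex.I) x‖ ≤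
        ∫ τ, (c ^ (-σ) * Real.Gamma σ) * (wt m h τ * ‖EE S (σ + τ * Complex.I) x‖) := by
      refine norm_integral_le_of_norm_le ?_ (Filter.Eventually.of_forall fun τ => ?_)
      · refine Integrable.const_mul ?_ _
        refine ((wt_int hm hh).mul_const (16 ^ S.card)).mono'
          ((wt_meas m h).aestronglyMeasurable.mul hE.aestronglyMeasurable)
          (Filter.Eventually.of_forall fun τ => ?_)
        rw [norm_mul, Real.norm_eq_abs, Real.norm_eq_abs, abs_of_nonneg (wt_nonneg m h τ)]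
        exact mul_le_mul_of_nonneg_left (hEb τ) (wt_nonneg m h τ)
      · rw [norm_mul, norm_mul, hcn]
        have h3 := norm_GG_le hm hh hσ0 hσ τ
        calc c ^ (-σ) * ‖GG m h σ τ‖ * ‖EE S (σ + τ * Complex.I) x‖ ≤
            c ^ (-σ) * (Real.Gamma σ * wt m h τ) * ‖EE S (σ + τ * Complex.I) x‖ := by gcongr
          _ = _ := by ring
    rw [integral_const_mul] at h2
    calc 1 / (2 * π) * ‖∫ τ : ℝ, ((c : ℂ) ^ (-(σ + τ * Complex.I)) * GG m h σ τ) *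
          EE S (σ + τ * Complex.I) x‖ ≤ 1 / (2 * π) * ((c ^ (-σ) * Real.Gamma σ) *
          ∫ τ, wt m h τ * ‖EE S (σ + τ * Complex.I) x‖) :=
          mul_le_mul_of_nonneg_left h2 (by positivity)
      _ = _ := by ring
  have h4 := cs (wt_nonneg m h) (wt_int hm hh) (wt_pos_int hm hh) hE.aestronglyMeasurable hEb
  have h5 : 0 ≤ ∫ τ, wt m h τ * ‖EE S (σ + τ * Complex.I) x‖ ^ 2 :=
    integral_nonneg fun τ => mul_nonneg (wt_nonneg m h τ) (sq_nonneg _)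
  calc SX S m h c x ^ 2 = |SX S m h c x| ^ 2 := (sq_abs _).symm
    _ ≤ ((c ^ (-σ) * Real.Gamma σ / (2 * π)) *
      ∫ τ, wt m h τ * ‖EE S (σ + τ * Complex.I) x‖) ^ 2 := pow_le_pow_left₀ (abs_nonneg _) h1 2
    _ = (c ^ (-σ) * Real.Gamma σ / (2 * π)) ^ 2 *
      (∫ τ, wt m h τ * ‖EE S (σ + τ * Complex.I) x‖) ^ 2 := by ring
    _ ≤ (c ^ (-σ) * Real.Gamma σ / (2 * π)) ^ 2 * ((∫ τ, wt m h τ) *
      ∫ τ, wt m h τ * ‖EE S (σ + τ * Complex.I) x‖ ^ 2) :=
        mul_le_mul_of_nonneg_left h4 (sq_nonneg _)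
    _ ≤ (c ^ (-σ) * Real.Gamma σ / (2 * π)) ^ 2 * ((27 * (π / h)) *
      ∫ τ, wt m h τ * ‖EE S (σ + τ * Complex.I) x‖ ^ 2) :=
        mul_le_mul_of_nonneg_left (mul_le_mul_of_nonneg_right (wt_integral_le hm hh) h5) (sq_nonneg _)
    _ = _ := by ring

theorem model_bound (hS : ∀ p ∈ S, p.Prime) {m : ℕ} (hm : 2 ≤ m) {h σ : ℝ} (hh : 0 < h)
    (hσ0 : 0 < σ) (hσ : m * (σ * h) ≤ 1) {c : ℝ} (hc : 0 < c) {T : (S → ℝ) → ℝ}
    (hT : Continuous T) {CT : ℝ} (hTb : ∀ x, |T x| ≤ CT) {B1 B2 : ℝ} (hB1 : 0 ≤ B1) (hB2 : 0 ≤ B2)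
    (h1 : ∀ τ : ℝ, |τ| ≤ exp 1 * (1 / h) →
      ∫ x, T x ^ 2 * ‖EE S (σ + τ * Complex.I) x‖ ^ 2 ∂(mu S) ≤ B1)
    (h2 : ∀ τ : ℝ, ∫ x, T x ^ 2 * ‖EE S (σ + τ * Complex.I) x‖ ^ 2 ∂(mu S) ≤ B2) :
    ∫ x, (T x * SX S m h c x) ^ 2 ∂(mu S) ≤ (c ^ (-σ) * Real.Gamma σ / (2 * π)) ^ 2 *
      (27 * (π / h)) * ((27 * B1 + 45 * exp (-(m : ℝ)) * B2) * (π / h)) := by
  have hEc := EE_cont hS hσ0.le
  set C0 : ℝ := (c ^ (-σ) * Real.Gamma σ / (2 * π)) ^ 2 * (27 * (π / h)) with hC0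
  have hC00 : 0 ≤ C0 := by positivity
  set K : (S → ℝ) → ℝ → ℝ := fun x τ => T x ^ 2 * (wt m h τ * ‖EE S (σ + τ * Complex.I) x‖ ^ 2) with hK
  have hKi : Integrable (Function.uncurry K) ((mu S).prod volume) := by
    have h3 : Integrable (fun z : (S → ℝ) × ℝ => (CT ^ 2 * (16 ^ S.card) ^ 2) * wt m h z.2)
        ((mu S).prod volume) := ((wt_int hm hh).comp_snd (mu S)).const_mul _
    refine h3.mono' ?_ (Filter.Eventually.of_forall fun z => ?_)
    · rw [hK]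
      apply Measurable.aestronglyMeasurable
      have m1 : Measurable fun z : (S → ℝ) × ℝ => T z.1 ^ 2 :=
        ((hT.comp continuous_fst).pow 2).measurable
      have m2 : Measurable fun z : (S → ℝ) × ℝ => wt m h z.2 := (wt_meas m h).comp measurable_snd
      have m3 : Measurable fun z : (S → ℝ) × ℝ => ‖EE S (σ + z.2 * Complex.I) z.1‖ ^ 2 :=
        (hEc.norm.pow 2).measurable
      exact m1.mul (m2.mul m3)
    · rw [hK]
      dsimp only [Function.uncurry]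
      have e1 : T z.1 ^ 2 ≤ CT ^ 2 := by
        rw [← sq_abs]
        exact pow_le_pow_left₀ (abs_nonneg _) (hTb _) 2
      have e2 : ‖EE S (σ + z.2 * Complex.I) z.1‖ ^ 2 ≤ (16 ^ S.card) ^ 2 :=
        pow_le_pow_left₀ (norm_nonneg _) (norm_EE_le hS (by rw [re_line]; exact hσ0.le) _) 2
      have e3 := wt_nonneg m h z.2
      rw [Real.norm_eq_abs, abs_of_nonneg (by positivity)]
      calc T z.1 ^ 2 * (wt m h z.2 * ‖EE S (σ + z.2 * Complex.I) z.1‖ ^ 2) ≤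
          CT ^ 2 * (wt m h z.2 * (16 ^ S.card) ^ 2) := by gcongr
        _ = _ := by ring
  have h3 : ∫ x, (T x * SX S m h c x) ^ 2 ∂(mu S) ≤ ∫ x, C0 * (∫ τ, K x τ) ∂(mu S) := by
    refine integral_mono_of_nonneg (Filter.Eventually.of_forall fun x => sq_nonneg _)
      (hKi.integral_prod_left.const_mul C0) (Filter.Eventually.of_forall fun x => ?_)
    dsimp only
    have h4 := SX_sq hS hm hh hσ0 hσ hc x
    calc (T x * SX S m h c x) ^ 2 = T x ^ 2 * SX S m h c x ^ 2 := by ring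
      _ ≤ T x ^ 2 * (C0 * ∫ τ, wt m h τ * ‖EE S (σ + τ * Complex.I) x‖ ^ 2) :=
        mul_le_mul_of_nonneg_left h4 (sq_nonneg _)
      _ = _ := by
        rw [hK]
        dsimp only
        rw [integral_const_mul]
        ring
  refine h3.trans ?_
  rw [integral_const_mul, integral_integral_swap hKi]
  refine mul_le_mul_of_nonneg_left ?_ hC00
  have h5 : ∀ τ, ∫ x, K x τ ∂(mu S) = wt m h τ *
      ∫ x, T x ^ 2 * ‖EE S (σ + τ * Complex.I) x‖ ^ 2 ∂(mu S) := by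
    intro τ
    rw [← integral_const_mul]
    congr 1
    ext x
    rw [hK]
    ring
  have h6 : ∀ τ, ∫ x, K x τ ∂(mu S) ≤ (27 * B1 + 45 * exp (-(m : ℝ)) * B2) * ph (1 / h) τ := by
    intro τ
    rw [h5]
    have p0 := ph_pos (1 / h) τ
    have e0 : 0 ≤ ∫ x, T x ^ 2 * ‖EE S (σ + τ * Complex.I) x‖ ^ 2 ∂(mu S) :=
      integral_nonneg fun x => by positivity
    unfold wt
    split_ifs with hτ
    · calc 27 * ph (1 / h) τ * ∫ x, T x ^ 2 * ‖EE S (σ + τ * Complex.I) x‖ ^ 2 ∂(mu S) ≤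
          27 * ph (1 / h) τ * B1 := mul_le_mul_of_nonneg_left (h1 τ hτ) (by positivity)
        _ ≤ 27 * ph (1 / h) τ * B1 + 45 * exp (-(m : ℝ)) * B2 * ph (1 / h) τ := by
          have : 0 ≤ 45 * exp (-(m : ℝ)) * B2 * ph (1 / h) τ := by positivity
          linarith
        _ = _ := by ring
    · calc 45 * exp (-(m : ℝ)) * ph (1 / h) τ * ∫ x, T x ^ 2 * ‖EE S (σ + τ * Complex.I) x‖ ^ 2 ∂(mu S) ≤
          45 * exp (-(m : ℝ)) * ph (1 / h) τ * B2 := mul_le_mul_of_nonneg_left (h2 τ) (by positivity)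
        _ ≤ 27 * ph (1 / h) τ * B1 + 45 * exp (-(m : ℝ)) * ph (1 / h) τ * B2 := by
          have : 0 ≤ 27 * ph (1 / h) τ * B1 := by positivity
          linarith
        _ = _ := by ring
  calc ∫ τ, ∫ x, K x τ ∂(mu S) ≤ ∫ τ, (27 * B1 + 45 * exp (-(m : ℝ)) * B2) * ph (1 / h) τ :=
        integral_mono hKi.integral_prod_right ((ph_integrable (a := 1 / h) (by positivity)).const_mul _) h6
    _ = _ := by
        rw [integral_const_mul, ph_integral (by positivity)]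
        ring

end Pool.Agent.H485.CC
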