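import Pool.Agent.H485.CC.Tru

/-!
# Factorization of expectations over several scales
-/

set_option autoImplicit false
set_option maxHeartbeats 4000000

open MeasureTheory Real Finset

namespace Pool.Agent.H485.CC

/-- continuous and bounded -/
def CB {X : Type} [TopologicalSpace X] (F : X → ℝ) : Prop := Continuous F ∧ ∃ C : ℝ, ∀ x, |F x| ≤ C

namespace CB

variable {X : Type} [TopologicalSpace X] {F G : X → ℝ}

lemma const (c : ℝ) : CB fun _ : X => c := ⟨continuous_const, |c|, fun _ => le_rfl⟩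

lemma mul (hF : CB F) (hG : CB G) : CB fun x => F x * G x := by
  obtain ⟨h1, C, hC⟩ := hF
  obtain ⟨h2, D, hD⟩ := hG
  refine ⟨h1.mul h2, C * D, fun x => ?_⟩
  rw [abs_mul]
  exact mul_le_mul (hC x) (hD x) (abs_nonneg _) ((abs_nonneg _).trans (hC x))

lemma add (hF : CB F) (hG : CB G) : CB fun x => F x + G x := by
  obtain ⟨h1, C, hC⟩ := hF
  obtain ⟨h2, D, hD⟩ := hG
  exact ⟨h1.add h2, C + D, fun x => (abs_add_le _ _).trans (add_le_add (hC x) (hD x))⟩

lemma smul (hF : CB F) (c : ℝ) : CB fun x => c * F x := (const c).mul hF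

lemma pow (hF : CB F) (n : ℕ) : CB fun x => F x ^ n := by
  induction n with
  | zero => simpa using const 1
  | succ n ih => simpa only [pow_succ] using ih.mul hF

lemma sum {ι : Type} (s : Finset ι) {f : ι → X → ℝ} (h : ∀ i ∈ s, CB (f i)) : CB fun x => ∑ i ∈ s, f i x := by
  classical
  induction s using Finset.induction_on with
  | empty => simpa using const 0
  | insert a s ha ih =>
    have h1 := (h a (mem_insert_self _ _)).add (ih fun i hi => h i (mem_insert_of_mem hi))
    simpa only [Finset.sum_insert ha] using h1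

lemma prod {ι : Type} (s : Finset ι) {f : ι → X → ℝ} (h : ∀ i ∈ s, CB (f i)) : CB fun x => ∏ i ∈ s, f i x := by
  classical
  induction s using Finset.induction_on with
  | empty => simpa using const 1
  | insert a s ha ih =>
    have h1 := (h a (mem_insert_self _ _)).mul (ih fun i hi => h i (mem_insert_of_mem hi))
    simpa only [Finset.prod_insert ha] using h1

lemma exp (hF : CB F) : CB fun x => Real.exp (F x) := by
  obtain ⟨h1, C, hC⟩ := hF
  refine ⟨Real.continuous_exp.comp h1, Real.exp C, fun x => ?_⟩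
  rw [abs_of_pos (Real.exp_pos _)]
  exact Real.exp_le_exp.2 ((le_abs_self _).trans (hC x))

lemma comp {Y : Type} [TopologicalSpace Y] (hF : CB F) {g : Y → X} (hg : Continuous g) : CB fun y => F (g y) := by
  obtain ⟨h1, C, hC⟩ := hF
  exact ⟨h1.comp hg, C, fun y => hC _⟩

end CB

variable {S : Finset ℕ}

lemma CB.int {F : (S → ℝ) → ℝ} (hF : CB F) : Integrable F (mu S) := by
  obtain ⟨h1, C, hC⟩ := hF
  exact integrable_mu h1 (C := C) fun x => by rw [Real.norm_eq_abs]; exact hC x

lemma CB.PP (hS : ∀ p ∈ S, p.Prime) {S' : Finset ℕ} (hS' : S' ⊆ S) : CB fun x : S → ℝ => PP S' (XX S x) :=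
  ⟨PP_cont, _, PP_bdd hS hS'⟩

/-- the local expectation -/
noncomputable def II (g : ℕ → ℝ → ℝ) (b : ℝ) (p : ℕ) : ℝ := ∫ θ, exp (b * (uu 1 θ * tp p)) * g p θ ∂st

lemma prod_int (b : ℕ → ℝ) (g : ℕ → ℝ → ℝ) :
    ∫ x, ∏ p : S, (exp (b p * (uu 1 (x p) * tp p)) * g p (x p)) ∂(mu S) = ∏ p ∈ S, II g (b p) p := by
  unfold mu II
  rw [integral_fintype_prod_eq_prod (μ := fun _ : S => st)
    (f := fun (p : S) θ => exp (b p * (uu 1 θ * tp p)) * g p θ),
    Finset.prod_coe_sort S (fun p => ∫ θ, exp (b p * (uu 1 θ * tp p)) * g p θ ∂st)]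

/-- the factorization -/
theorem fac (hS : ∀ p ∈ S, p.Prime) (n : ℕ) (Sc : ℕ → Finset ℕ) (hSc : ∀ i < n, Sc i ⊆ S)
    (hd : ∀ i < n, ∀ j < n, i ≠ j → Disjoint (Sc i) (Sc j)) (w c : ℕ → Fin 3 → ℝ) (g : ℕ → ℝ → ℝ)
    (hg : ∀ p, CB (g p)) :
    ∫ x, (∏ i ∈ range n, ∑ k : Fin 3, w i k * exp (c i k * PP (Sc i) (XX S x))) * ∏ p : S, g p (x p) ∂(mu S) =
      (∏ i ∈ range n, ∑ k : Fin 3, w i k * ∏ p ∈ Sc i, II g (c i k) p) *
        ∏ p ∈ S \ (range n).biUnion Sc, II g 0 p := by
  classical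
  induction n generalizing g with
  | zero =>
    simp only [range_zero, prod_empty, one_mul, biUnion_empty, sdiff_empty]
    have := prod_int (S := S) (fun _ => 0) g
    simp only [zero_mul, Real.exp_zero, one_mul] at this
    rw [this]
  | succ n ih =>
    set g' : Fin 3 → ℕ → ℝ → ℝ := fun k p θ =>
      (if p ∈ Sc n then exp (c n k * (uu 1 θ * tp p)) else 1) * g p θ with hg'
    have hg'CB : ∀ k p, CB (g' k p) := by
      intro k p
      simp only [hg']
      split_ifs
      · refine CB.mul (CB.exp ?_) (hg p)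
        refine ⟨continuous_const.mul ((continuous_uu 1).mul continuous_const), |c n k| * (2 * tp p), fun θ => ?_⟩
        rw [abs_mul, abs_mul, abs_of_nonneg (tp_nonneg p)]
        exact mul_le_mul_of_nonneg_left (mul_le_mul_of_nonneg_right (abs_uu_one θ) (tp_nonneg p)) (abs_nonneg _)
      · simpa using hg p
    have hSn : Sc n ⊆ S := hSc n (Nat.lt_succ_self n)
    -- pointwise
    have e1 : ∀ x : S → ℝ, (∏ i ∈ range (n + 1), ∑ k : Fin 3, w i k * exp (c i k * PP (Sc i) (XX S x))) *
        ∏ p : S, g p (x p) = ∑ k : Fin 3, w n k * ((∏ i ∈ range n, ∑ k : Fin 3, w i k *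
          exp (c i k * PP (Sc i) (XX S x))) * ∏ p : S, g' k p (x p)) := by
      intro x
      rw [prod_range_succ, mul_right_comm, Finset.mul_sum]
      refine Finset.sum_congr rfl fun k _ => ?_
      have e2 : ∏ p : S, g' k p (x p) = exp (c n k * PP (Sc n) (XX S x)) * ∏ p : S, g p (x p) := by
        simp only [hg']
        rw [Finset.prod_mul_distrib]
        congr 1
        rw [PP_XX hS hSn, Finset.mul_sum, Real.exp_sum]
        refine Finset.prod_congr rfl fun p _ => ?_
        split_ifs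
        · congr 1
          ring
        · simp
      rw [e2]
      ring
    simp_rw [e1]
    have hCB1 : ∀ k, CB fun x : S → ℝ => (∏ i ∈ range n, ∑ k : Fin 3, w i k *
          exp (c i k * PP (Sc i) (XX S x))) * ∏ p : S, g' k p (x p) := by
      intro k
      refine CB.mul (CB.prod _ fun i hi => CB.sum _ fun k _ => ?_) (CB.prod _ fun p _ => ?_)
      · exact ((CB.PP hS (hSc i (Nat.lt_succ_of_lt (mem_range.1 hi)))).smul _).exp.smul _
      · exact (hg'CB k p).comp (continuous_apply p)
    rw [integral_finsetSum _ fun k _ => ((hCB1 k).smul _).int]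
    simp_rw [integral_const_mul]
    have ih' := fun k => ih (fun i hi => hSc i (Nat.lt_succ_of_lt hi))
      (fun i hi j hj hij => hd i (Nat.lt_succ_of_lt hi) j (Nat.lt_succ_of_lt hj) hij) (g' k) (hg'CB k)
    simp_rw [ih']
    -- the local factors
    have l1 : ∀ (k : Fin 3) (b : ℝ) (p : ℕ), p ∉ Sc n → II (g' k) b p = II g b p := by
      intro k b p hp
      unfold II
      simp only [hg', if_neg hp, one_mul]
    have l2 : ∀ (k : Fin 3) (p : ℕ), p ∈ Sc n → II (g' k) 0 p = II g (c n k) p := by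
      intro k p hp
      unfold II
      simp only [hg', if_pos hp, zero_mul, Real.exp_zero, one_mul]
    have hdn : ∀ i < n, ∀ p ∈ Sc i, p ∉ Sc n := by
      intro i hi p hp hpn
      exact Finset.disjoint_left.1 (hd i (Nat.lt_succ_of_lt hi) n (Nat.lt_succ_self n) (by omega)) hp hpn
    have e3 : ∀ k : Fin 3, ∏ i ∈ range n, ∑ k' : Fin 3, w i k' * ∏ p ∈ Sc i, II (g' k) (c i k') p =
        ∏ i ∈ range n, ∑ k' : Fin 3, w i k' * ∏ p ∈ Sc i, II g (c i k') p := by
      intro k
      refine Finset.prod_congr rfl fun i hi => Finset.sum_congr rfl fun k' _ => ?_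
      congr 1
      exact Finset.prod_congr rfl fun p hp => l1 k _ p (hdn i (mem_range.1 hi) p hp)
    have hsub : Sc n ⊆ S \ (range n).biUnion Sc := by
      intro p hp
      rw [mem_sdiff]
      refine ⟨hSn hp, fun h => ?_⟩
      obtain ⟨i, hi, hpi⟩ := mem_biUnion.1 h
      exact hdn i (mem_range.1 hi) p hpi hp
    have e4 : ∀ k : Fin 3, ∏ p ∈ S \ (range n).biUnion Sc, II (g' k) 0 p =
        (∏ p ∈ Sc n, II g (c n k) p) * ∏ p ∈ S \ (range (n + 1)).biUnion Sc, II g 0 p := by
      intro k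
      rw [← Finset.prod_sdiff hsub, mul_comm]
      congr 1
      · exact Finset.prod_congr rfl fun p hp => l2 k p hp
      · have e5 : (S \ (range n).biUnion Sc) \ Sc n = S \ (range (n + 1)).biUnion Sc := by
          ext p
          simp only [mem_sdiff, mem_biUnion, mem_range, not_exists, not_and]
          constructor
          · rintro ⟨⟨h1, h2⟩, h3⟩
            refine ⟨h1, fun i hi => ?_⟩
            rcases Nat.lt_succ_iff_lt_or_eq.1 hi with h | h
            · exact h2 i h
            · rw [h]; exact h3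
          · rintro ⟨h1, h2⟩
            exact ⟨⟨h1, fun i hi => h2 i (Nat.lt_succ_of_lt hi)⟩, h2 n (Nat.lt_succ_self n)⟩
        rw [e5]
        refine Finset.prod_congr rfl fun p hp => l1 k 0 p fun h => ?_
        rw [mem_sdiff] at hp
        exact hp.2 (mem_biUnion.2 ⟨n, mem_range.2 (Nat.lt_succ_self n), h⟩)
    simp_rw [e3, e4]
    rw [prod_range_succ, mul_assoc, Finset.sum_mul, Finset.mul_sum]
    refine Finset.sum_congr rfl fun k _ => ?_
    ring

/-- the majorant of the square of a truncated exponential -/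
lemma tj_sq_maj (J : ℕ) (P : ℝ) : tj J (-P) ^ 2 ≤
    exp (-2 * P) + 3 * exp (-((J : ℝ) + 1)) * (exp (6 * P) + exp (-6 * P)) := by
  have h1 := tj_err J (-P)
  set E := tj J (-P) - exp (-P) with hE
  have h2 : tj J (-P) = exp (-P) + E := by rw [hE]; ring
  rw [abs_neg] at h1
  set q : ℝ := exp (-((J : ℝ) + 1)) with hq
  have hq0 : 0 < q := exp_pos _
  have hq1 : q ≤ 1 := by
    rw [hq]
    apply exp_le_one_iff.2
    have : (0 : ℝ) ≤ J := Nat.cast_nonneg J
    linarith
  have he : exp 1 ≤ 2.72 := by have := Real.exp_one_lt_d9; linarith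
  have hP := abs_nonneg P
  have h3 : |E| ≤ q * exp (3 * |P|) := by
    refine h1.trans (mul_le_mul_of_nonneg_left (exp_le_exp.2 ?_) hq0.le)
    nlinarith
  have h5 : E ^ 2 ≤ q * exp (6 * |P|) := by
    calc E ^ 2 = |E| ^ 2 := (sq_abs _).symm
      _ ≤ (q * exp (3 * |P|)) ^ 2 := pow_le_pow_left₀ (abs_nonneg _) h3 2
      _ = q * (q * exp (3 * |P|) ^ 2) := by ring
      _ ≤ q * (1 * exp (3 * |P|) ^ 2) := by gcongr
      _ = _ := by
        rw [one_mul, ← Real.exp_nat_mul]
        congr 2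
        push_cast; ring
  have h4 : 2 * (exp (-P) * E) ≤ 2 * (q * exp (6 * |P|)) := by
    have h6 : exp (-P) * E ≤ exp (|P|) * (q * exp (3 * |P|)) := by
      calc exp (-P) * E ≤ exp (-P) * |E| := mul_le_mul_of_nonneg_left (le_abs_self _) (exp_pos _).le
        _ ≤ exp (|P|) * (q * exp (3 * |P|)) :=
          mul_le_mul (exp_le_exp.2 (neg_le_abs P)) h3 (abs_nonneg _) (exp_pos _).le
    have h7 : exp (|P|) * (q * exp (3 * |P|)) = q * exp (4 * |P|) := by
      rw [mul_left_comm, ← Real.exp_add]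
      ring_nf
    have h8 : exp (4 * |P|) ≤ exp (6 * |P|) := exp_le_exp.2 (by linarith)
    have h9 := mul_le_mul_of_nonneg_left h8 hq0.le
    linarith
  have h6 : exp (6 * |P|) ≤ exp (6 * P) + exp (-6 * P) := by
    rcases abs_cases P with ⟨h, _⟩ | ⟨h, _⟩
    · rw [h]; linarith [exp_pos (-6 * P)]
    · rw [h]
      have : 6 * -P = -6 * P := by ring
      rw [this]; linarith [exp_pos (6 * P)]
  have h7 : exp (-P) ^ 2 = exp (-2 * P) := by
    rw [← Real.exp_nat_mul]; push_cast; ring_nf
  have h8 : tj J (-P) ^ 2 = exp (-P) ^ 2 + 2 * (exp (-P) * E) + E ^ 2 := by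
    rw [h2]; ring
  rw [h8, h7]
  have h9 := mul_le_mul_of_nonneg_left h6 (show 0 ≤ 3 * q by positivity)
  linarith

/-- the error of a truncated exponential -/
lemma tj_err_maj (J : ℕ) (P : ℝ) : |tj J (-P) - exp (-1 * P)| ≤
    exp (-((J : ℝ) + 1)) * exp (3 * P) + exp (-((J : ℝ) + 1)) * exp (-3 * P) := by
  have h1 := tj_err J (-P)
  rw [abs_neg] at h1
  rw [neg_one_mul]
  refine h1.trans ?_
  rw [← mul_add]
  refine mul_le_mul_of_nonneg_left ?_ (exp_pos _).le
  have he : exp 1 ≤ 2.72 := by have := Real.exp_one_lt_d9; linarith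
  have hP := abs_nonneg P
  have h2 : exp (exp 1 * |P|) ≤ exp (3 * |P|) := exp_le_exp.2 (by nlinarith)
  refine h2.trans ?_
  rcases abs_cases P with ⟨h, _⟩ | ⟨h, _⟩
  · rw [h]; linarith [exp_pos (-3 * P)]
  · rw [h]
    have : 3 * -P = -3 * P := by ring
    rw [this]; linarith [exp_pos (3 * P)]

/-- products of approximations -/
lemma prod_approx {ι : Type} [DecidableEq ι] (s : Finset ι) (a b e : ι → ℝ) (hb : ∀ i ∈ s, 0 ≤ b i)
    (h : ∀ i ∈ s, |a i - b i| ≤ e i) :
    |∏ i ∈ s, a i - ∏ i ∈ s, b i| ≤ ∏ i ∈ s, (b i + e i) - ∏ i ∈ s, b i := by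
  induction s using Finset.induction_on with
  | empty => simp
  | insert i s hi ih =>
    have ih' := ih (fun j hj => hb j (mem_insert_of_mem hj)) (fun j hj => h j (mem_insert_of_mem hj))
    rw [prod_insert hi, prod_insert hi, prod_insert hi]
    set A := ∏ j ∈ s, a j
    set Bp := ∏ j ∈ s, b j
    set Cp := ∏ j ∈ s, (b j + e j)
    have hbi := hb i (mem_insert_self _ _)
    have hei := h i (mem_insert_self _ _)
    have hBp : 0 ≤ Bp := Finset.prod_nonneg fun j hj => hb j (mem_insert_of_mem hj)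
    have e0 : 0 ≤ e i := (abs_nonneg _).trans hei
    have hai : |a i| ≤ b i + e i := by
      calc |a i| = |b i + (a i - b i)| := by ring_nf
        _ ≤ |b i| + |a i - b i| := abs_add_le _ _
        _ ≤ _ := by rw [abs_of_nonneg hbi]; linarith
    calc |a i * A - b i * Bp| = |a i * (A - Bp) + (a i - b i) * Bp| := by ring_nf
      _ ≤ |a i * (A - Bp)| + |(a i - b i) * Bp| := abs_add_le _ _
      _ = |a i| * |A - Bp| + |a i - b i| * Bp := by rw [abs_mul, abs_mul, abs_of_nonneg hBp]
      _ ≤ (b i + e i) * (Cp - Bp) + e i * Bp := by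
        refine add_le_add (mul_le_mul hai ih' (abs_nonneg _) (by linarith)) ?_
        exact mul_le_mul_of_nonneg_right hei hBp
      _ = _ := by ring

end Pool.Agent.H485.CC
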