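import Pool.Agent.H485.CC.Ml1

/-!
# The second moment of the random smoothed sum, without loss
-/

set_option autoImplicit false
set_option maxHeartbeats 4000000

open MeasureTheory Real Finset

namespace Pool.Agent.H485.CC

variable {S : Finset ℕ}

/-- polynomial decay of the transform -/
theorem Gw_bound_poly (k : ℕ) {h σ : ℝ} (hh : 0 < h) (hσ0 : 0 < σ) (hσ : ((2 * k : ℕ) : ℝ) * (σ * h) ≤ 1)
    (τ : ℝ) : ‖Gw (nu (2 * k) h) (Zs (2 * k)) (σ + τ * Complex.I)‖ ≤ (3 * 2 ^ k) * ph (1 / h) τ ^ k := by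
  set s : ℂ := σ + τ * Complex.I with hs
  have hre : s.re = σ := by simp [hs]
  have him : s.im = τ := by simp [hs]
  have hs0 : s ≠ 0 := by
    intro h0
    rw [h0] at hre
    simp at hre
    linarith
  obtain ⟨b1, b2⟩ := un_bound hh (s := s) (by rw [hre]; exact hσ0.le)
  have b2 := b2 hs0
  rw [hre] at b1 b2
  set g : ℂ := ∫ u, Complex.exp (-(s * (u : ℝ))) ∂(un h) with hg
  rw [Gw_eq (2 * k) hh, norm_pow]
  have he : exp (σ * h) ^ (2 * k) ≤ exp 1 := by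
    rw [← Real.exp_nat_mul]
    exact exp_le_exp.2 hσ
  have he3 : exp 1 ≤ 2.7182818286 := Real.exp_one_lt_d9.le
  set a : ℝ := 1 / h with ha
  have ha0 : 0 < a := by positivity
  have hτs : |τ| ≤ ‖s‖ := by rw [← him]; exact Complex.abs_im_le_norm s
  -- `‖g‖² ≤ exp(2σh) · 2 · ph`
  have key : ‖g‖ ^ 2 ≤ exp (σ * h) ^ 2 * (2 * ph a τ) := by
    unfold ph
    by_cases hτ : |τ| ≤ a
    · have e1 : (τ / a) ^ 2 ≤ 1 := by
        rw [← sq_abs, abs_div, abs_of_pos ha0]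
        have : |τ| / a ≤ 1 := by rw [div_le_one ha0]; exact hτ
        exact pow_le_one₀ (by positivity) this
      have e2 : 1 ≤ 2 * (1 + (τ / a) ^ 2)⁻¹ := by
        rw [← div_eq_mul_inv, le_div_iff₀ (by positivity)]
        linarith
      calc ‖g‖ ^ 2 ≤ exp (σ * h) ^ 2 := pow_le_pow_left₀ (norm_nonneg _) b1 2
        _ = exp (σ * h) ^ 2 * 1 := (mul_one _).symm
        _ ≤ _ := mul_le_mul_of_nonneg_left e2 (by positivity)
    · push Not at hτ
      have hτ0 : 0 < |τ| := lt_trans ha0 hτ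
      have d1 : ‖g‖ ≤ exp (σ * h) * (a / |τ|) := by
        refine b2.trans ?_
        gcongr
      have e1 : 1 ≤ (τ / a) ^ 2 := by
        rw [← sq_abs, abs_div, abs_of_pos ha0]
        have : 1 ≤ |τ| / a := by
          rw [le_div_iff₀ ha0]
          linarith
        exact one_le_pow₀ this
      have e2 : (a / |τ|) ^ 2 = ((τ / a) ^ 2)⁻¹ := by
        clear_value a
        rw [div_pow, div_pow, sq_abs, inv_div]
      have e3 : (a / |τ|) ^ 2 ≤ 2 * (1 + (τ / a) ^ 2)⁻¹ := by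
        rw [e2]
        have e3 : 0 < (τ / a) ^ 2 := by linarith
        rw [← one_div, ← div_eq_mul_inv, div_le_div_iff₀ e3 (by linarith)]
        linarith
      calc ‖g‖ ^ 2 ≤ (exp (σ * h) * (a / |τ|)) ^ 2 := pow_le_pow_left₀ (norm_nonneg _) d1 2
        _ = exp (σ * h) ^ 2 * (a / |τ|) ^ 2 := mul_pow _ _ _
        _ ≤ _ := mul_le_mul_of_nonneg_left e3 (by positivity)
  have hph := ph_pos a τ
  calc ‖g‖ ^ (2 * k) = (‖g‖ ^ 2) ^ k := by rw [pow_mul]
    _ ≤ (exp (σ * h) ^ 2 * (2 * ph a τ)) ^ k := pow_le_pow_left₀ (by positivity) key k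
    _ = exp (σ * h) ^ (2 * k) * (2 ^ k * ph a τ ^ k) := by rw [mul_pow, ← pow_mul, mul_pow]
    _ ≤ 3 * (2 ^ k * ph a τ ^ k) := mul_le_mul_of_nonneg_right (by linarith) (by positivity)
    _ = _ := by ring

lemma ph_le_one {a : ℝ} (τ : ℝ) : ph a τ ≤ 1 := by
  unfold ph
  apply inv_le_one_of_one_le₀
  nlinarith [sq_nonneg (τ / a)]

/-- the majorant -/
noncomputable def wq (k : ℕ) (h τ : ℝ) : ℝ := (3 * 2 ^ k) * ph (1 / h) τ ^ k

lemma wq_nonneg (k : ℕ) (h τ : ℝ) : 0 ≤ wq k h τ := by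
  unfold wq
  have := (ph_pos (1 / h) τ).le
  positivity

lemma wq_cont (k : ℕ) {h : ℝ} : Continuous (wq k h) := by
  unfold wq ph
  refine continuous_const.mul (Continuous.pow ?_ k)
  refine Continuous.inv₀ (by fun_prop) fun τ => ?_
  positivity

lemma wq_le {k : ℕ} (hk : 1 ≤ k) (h τ : ℝ) : wq k h τ ≤ (3 * 2 ^ k) * ph (1 / h) τ := by
  unfold wq
  refine mul_le_mul_of_nonneg_left ?_ (by positivity)
  have h0 := (ph_pos (1 / h) τ).le
  calc ph (1 / h) τ ^ k ≤ ph (1 / h) τ ^ 1 := pow_le_pow_of_le_one h0 (ph_le_one τ) hk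
    _ = _ := pow_one _

lemma wq_int {k : ℕ} (hk : 1 ≤ k) {h : ℝ} (hh : 0 < h) : Integrable (wq k h) := by
  refine ((ph_integrable (a := 1 / h) (by positivity)).const_mul (3 * 2 ^ k)).mono'
    (wq_cont k).aestronglyMeasurable (Filter.Eventually.of_forall fun τ => ?_)
  rw [Real.norm_eq_abs, abs_of_nonneg (wq_nonneg k h τ)]
  exact wq_le hk h τ

lemma wq_integral_le {k : ℕ} (hk : 1 ≤ k) {h : ℝ} (hh : 0 < h) : ∫ τ, wq k h τ ≤ (3 * 2 ^ k) * (π / h) := by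
  calc ∫ τ, wq k h τ ≤ ∫ τ, (3 * 2 ^ k) * ph (1 / h) τ :=
        integral_mono (wq_int hk hh) ((ph_integrable (a := 1 / h) (by positivity)).const_mul _)
          (fun τ => wq_le hk h τ)
    _ = _ := by
        rw [integral_const_mul, ph_integral (by positivity)]
        ring

lemma wq_pos_int {k : ℕ} (hk : 1 ≤ k) {h : ℝ} (hh : 0 < h) : 0 < ∫ τ, wq k h τ := by
  rw [integral_pos_iff_support_of_nonneg (wq_nonneg k h) (wq_int hk hh)]
  have : Function.support (wq k h) = Set.univ := by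
    ext τ
    simp only [Function.mem_support, Set.mem_univ, iff_true]
    have := ph_pos (1 / h) τ
    unfold wq
    positivity
  rw [this]
  simp

theorem SX_sq2 (hS : ∀ p ∈ S, p.Prime) {k : ℕ} (hk : 1 ≤ k) {h σ : ℝ} (hh : 0 < h)
    (hσ0 : 0 < σ) (hσ : ((2 * k : ℕ) : ℝ) * (σ * h) ≤ 1) {c : ℝ} (hc : 0 < c) (x : S → ℝ) :
    SX S (2 * k) h c x ^ 2 ≤ (c ^ (-σ) * Real.Gamma σ / (2 * π)) ^ 2 * ((3 * 2 ^ k) * (π / h)) *
      ∫ τ, wq k h τ * ‖EE S (σ + τ * Complex.I) x‖ ^ 2 := by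
  have hG := Real.Gamma_pos_of_pos hσ0
  have hm : 2 ≤ 2 * k := by omega
  have hcn : ∀ τ : ℝ, ‖(c : ℂ) ^ (-(σ + τ * Complex.I))‖ = c ^ (-σ) := by
    intro τ
    rw [Complex.norm_cpow_eq_rpow_re_of_pos hc]
    congr 1
    simp
  have hcσ : 0 < c ^ (-σ) := by positivity
  have hE : Continuous fun τ : ℝ => ‖EE S (σ + τ * Complex.I) x‖ :=
    ((EE_cont hS hσ0.le).comp (Continuous.prodMk continuous_const continuous_id)).norm
  have hEb : ∀ τ : ℝ, |‖EE S (σ + τ * Complex.I) x‖| ≤ 16 ^ S.card := by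
    intro τ
    rw [abs_norm]
    exact norm_EE_le hS (by rw [re_line]; exact hσ0.le) x
  have h1 : |SX S (2 * k) h c x| ≤ (c ^ (-σ) * Real.Gamma σ / (2 * π)) *
      ∫ τ, wq k h τ * ‖EE S (σ + τ * Complex.I) x‖ := by
    have e1 : |SX S (2 * k) h c x| = ‖((SX S (2 * k) h c x : ℝ) : ℂ)‖ := by
      rw [Complex.norm_real, Real.norm_eq_abs]
    rw [e1, SX_mellin hS hm hh hσ0 hσ hc x, norm_smul, Real.norm_eq_abs, abs_of_pos (by positivity)]
    have h2 : ‖∫ τ : ℝ, ((c : ℂ) ^ (-(σ + τ * Complex.I)) * GG (2 * k) h σ τ) * EE S (σ + τ * Complex.I) x‖ ≤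
        ∫ τ, (c ^ (-σ) * Real.Gamma σ) * (wq k h τ * ‖EE S (σ + τ * Complex.I) x‖) := by
      refine norm_integral_le_of_norm_le ?_ (Filter.Eventually.of_forall fun τ => ?_)
      · refine Integrable.const_mul ?_ _
        refine ((wq_int hk hh).mul_const (16 ^ S.card)).mono'
          ((wq_cont k).aestronglyMeasurable.mul hE.aestronglyMeasurable)
          (Filter.Eventually.of_forall fun τ => ?_)
        rw [norm_mul, Real.norm_eq_abs, Real.norm_eq_abs, abs_of_nonneg (wq_nonneg k h τ)]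
        exact mul_le_mul_of_nonneg_left (hEb τ) (wq_nonneg k h τ)
      · rw [norm_mul, norm_mul, hcn]
        have h3 : ‖GG (2 * k) h σ τ‖ ≤ Real.Gamma σ * wq k h τ := by
          unfold GG
          rw [norm_mul, mul_comm]
          refine mul_le_mul ?_ (Gw_bound_poly k hh hσ0 hσ τ) (norm_nonneg _) (Real.Gamma_pos_of_pos hσ0).le
          have := norm_Gamma_le' (s := σ + τ * Complex.I) (by rw [re_line]; exact hσ0)
          rwa [re_line] at this
        calc c ^ (-σ) * ‖GG (2 * k) h σ τ‖ * ‖EE S (σ + τ * Complex.I) x‖ ≤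
            c ^ (-σ) * (Real.Gamma σ * wq k h τ) * ‖EE S (σ + τ * Complex.I) x‖ := by gcongr
          _ = _ := by ring
    rw [integral_const_mul] at h2
    calc 1 / (2 * π) * ‖∫ τ : ℝ, ((c : ℂ) ^ (-(σ + τ * Complex.I)) * GG (2 * k) h σ τ) *
          EE S (σ + τ * Complex.I) x‖ ≤ 1 / (2 * π) * ((c ^ (-σ) * Real.Gamma σ) *
          ∫ τ, wq k h τ * ‖EE S (σ + τ * Complex.I) x‖) :=
          mul_le_mul_of_nonneg_left h2 (by positivity)
      _ = _ := by ring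
  have h4 := cs (wq_nonneg k h) (wq_int hk hh) (wq_pos_int hk hh) hE.aestronglyMeasurable hEb
  have h5 : 0 ≤ ∫ τ, wq k h τ * ‖EE S (σ + τ * Complex.I) x‖ ^ 2 :=
    integral_nonneg fun τ => mul_nonneg (wq_nonneg k h τ) (sq_nonneg _)
  calc SX S (2 * k) h c x ^ 2 = |SX S (2 * k) h c x| ^ 2 := (sq_abs _).symm
    _ ≤ ((c ^ (-σ) * Real.Gamma σ / (2 * π)) *
      ∫ τ, wq k h τ * ‖EE S (σ + τ * Complex.I) x‖) ^ 2 := pow_le_pow_left₀ (abs_nonneg _) h1 2
    _ = (c ^ (-σ) * Real.Gamma σ / (2 * π)) ^ 2 *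
      (∫ τ, wq k h τ * ‖EE S (σ + τ * Complex.I) x‖) ^ 2 := by ring
    _ ≤ (c ^ (-σ) * Real.Gamma σ / (2 * π)) ^ 2 * ((∫ τ, wq k h τ) *
      ∫ τ, wq k h τ * ‖EE S (σ + τ * Complex.I) x‖ ^ 2) :=
        mul_le_mul_of_nonneg_left h4 (sq_nonneg _)
    _ ≤ (c ^ (-σ) * Real.Gamma σ / (2 * π)) ^ 2 * (((3 * 2 ^ k) * (π / h)) *
      ∫ τ, wq k h τ * ‖EE S (σ + τ * Complex.I) x‖ ^ 2) :=
        mul_le_mul_of_nonneg_left (mul_le_mul_of_nonneg_right (wq_integral_le hk hh) h5) (sq_nonneg _)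
    _ = _ := by ring

/-- the bound in the model -/
theorem model_bound2 (hS : ∀ p ∈ S, p.Prime) {k : ℕ} (hk : 1 ≤ k) {h σ : ℝ} (hh : 0 < h)
    (hσ0 : 0 < σ) (hσ : ((2 * k : ℕ) : ℝ) * (σ * h) ≤ 1) {c : ℝ} (hc : 0 < c) {T : (S → ℝ) → ℝ}
    (hT : CB T) {B0 : ℝ}
    (h1 : ∀ τ : ℝ, ph (1 / h) τ ^ (k - 1) * ∫ x, T x ^ 2 * ‖EE S (σ + τ * Complex.I) x‖ ^ 2 ∂(mu S) ≤ B0) :
    ∫ x, (T x * SX S (2 * k) h c x) ^ 2 ∂(mu S) ≤ (c ^ (-σ) * Real.Gamma σ / (2 * π)) ^ 2 *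
      ((3 * 2 ^ k) * (π / h)) * (((3 * 2 ^ k) * B0) * (π / h)) := by
  obtain ⟨hTc, CT, hTb⟩ := hT
  have hEc := EE_cont hS hσ0.le
  set C0 : ℝ := (c ^ (-σ) * Real.Gamma σ / (2 * π)) ^ 2 * ((3 * 2 ^ k) * (π / h)) with hC0
  have hC00 : 0 ≤ C0 := by positivity
  set K : (S → ℝ) → ℝ → ℝ := fun x τ => T x ^ 2 * (wq k h τ * ‖EE S (σ + τ * Complex.I) x‖ ^ 2) with hK
  have hKi : Integrable (Function.uncurry K) ((mu S).prod volume) := by
    have h3 : Integrable (fun z : (S → ℝ) × ℝ => (CT ^ 2 * (16 ^ S.card) ^ 2) * wq k h z.2)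
        ((mu S).prod volume) := ((wq_int hk hh).comp_snd (mu S)).const_mul _
    refine h3.mono' ?_ (Filter.Eventually.of_forall fun z => ?_)
    · rw [hK]
      apply Measurable.aestronglyMeasurable
      have m1 : Measurable fun z : (S → ℝ) × ℝ => T z.1 := hTc.measurable.comp measurable_fst
      have m2 : Measurable fun z : (S → ℝ) × ℝ => wq k h z.2 := (wq_cont k).measurable.comp measurable_snd
      exact (m1.pow_const 2).mul (m2.mul (hEc.norm.measurable.pow_const 2))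
    · rw [hK]
      dsimp only [Function.uncurry]
      rw [Real.norm_eq_abs, abs_mul, abs_mul, abs_of_nonneg (wq_nonneg k h z.2), abs_pow, abs_pow, abs_norm]
      have e1 : |T z.1| ^ 2 ≤ CT ^ 2 := pow_le_pow_left₀ (abs_nonneg _) (hTb _) 2
      have e2 : ‖EE S (σ + z.2 * Complex.I) z.1‖ ^ 2 ≤ (16 ^ S.card) ^ 2 :=
        pow_le_pow_left₀ (norm_nonneg _) (norm_EE_le hS (by rw [re_line]; exact hσ0.le) _) 2
      calc |T z.1| ^ 2 * (wq k h z.2 * ‖EE S (σ + z.2 * Complex.I) z.1‖ ^ 2) ≤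
          CT ^ 2 * (wq k h z.2 * (16 ^ S.card) ^ 2) := by
            refine mul_le_mul e1 ?_ (mul_nonneg (wq_nonneg k h z.2) (sq_nonneg _)) (sq_nonneg _)
            exact mul_le_mul_of_nonneg_left e2 (wq_nonneg k h z.2)
        _ = _ := by ring
  have h3 : ∫ x, (T x * SX S (2 * k) h c x) ^ 2 ∂(mu S) ≤ ∫ x, C0 * (∫ τ, K x τ) ∂(mu S) := by
    refine integral_mono_of_nonneg (Filter.Eventually.of_forall fun x => sq_nonneg _)
      (hKi.integral_prod_left.const_mul C0) (Filter.Eventually.of_forall fun x => ?_)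
    dsimp only
    have h4 := SX_sq2 hS hk hh hσ0 hσ hc x
    calc (T x * SX S (2 * k) h c x) ^ 2 = T x ^ 2 * SX S (2 * k) h c x ^ 2 := by ring
      _ ≤ T x ^ 2 * (C0 * ∫ τ, wq k h τ * ‖EE S (σ + τ * Complex.I) x‖ ^ 2) :=
        mul_le_mul_of_nonneg_left h4 (sq_nonneg _)
      _ = _ := by
        rw [hK]
        dsimp only
        rw [integral_const_mul]
        ring
  refine h3.trans ?_
  rw [integral_const_mul, integral_integral_swap hKi]
  refine mul_le_mul_of_nonneg_left ?_ hC00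
  have h5 : ∀ τ, ∫ x, K x τ ∂(mu S) = wq k h τ *
      ∫ x, T x ^ 2 * ‖EE S (σ + τ * Complex.I) x‖ ^ 2 ∂(mu S) := by
    intro τ
    rw [← integral_const_mul]
    congr 1
    ext x
    rw [hK]
    ring
  have h6 : ∀ τ, ∫ x, K x τ ∂(mu S) ≤ ((3 * 2 ^ k) * B0) * ph (1 / h) τ := by
    intro τ
    rw [h5]
    unfold wq
    have p0 := ph_pos (1 / h) τ
    obtain ⟨j, rfl⟩ : ∃ j, k = j + 1 := ⟨k - 1, by omega⟩
    have := h1 τ
    rw [Nat.add_sub_cancel] at this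
    calc 3 * 2 ^ (j + 1) * ph (1 / h) τ ^ (j + 1) *
          ∫ x, T x ^ 2 * ‖EE S (σ + τ * Complex.I) x‖ ^ 2 ∂(mu S) =
        (3 * 2 ^ (j + 1) * ph (1 / h) τ) * (ph (1 / h) τ ^ j *
          ∫ x, T x ^ 2 * ‖EE S (σ + τ * Complex.I) x‖ ^ 2 ∂(mu S)) := by ring
      _ ≤ (3 * 2 ^ (j + 1) * ph (1 / h) τ) * B0 := mul_le_mul_of_nonneg_left this (by positivity)
      _ = _ := by ring
  calc ∫ τ, ∫ x, K x τ ∂(mu S) ≤ ∫ τ, ((3 * 2 ^ k) * B0) * ph (1 / h) τ :=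
        integral_mono hKi.integral_prod_right ((ph_integrable (a := 1 / h) (by positivity)).const_mul _) h6
    _ = _ := by
        rw [integral_const_mul, ph_integral (by positivity)]
        ring

end Pool.Agent.H485.CC
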