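import Pool.Agent.H485.CC.Ml1

/-!
# The local factor at the central point
-/

set_option autoImplicit false
set_option maxHeartbeats 600000

open MeasureTheory Real Finset

namespace Pool.Agent.H485.CC

/-- the local factor at the central point -/
noncomputable def lr (t θ : ℝ) : ℝ := (1 - uu 1 θ * t + t ^ 2)⁻¹

lemma lr_den {t : ℝ} (ht0 : 0 ≤ t) (ht : t ≤ 3 / 4) (θ : ℝ) : 1 / 16 ≤ 1 - uu 1 θ * t + t ^ 2 := by
  have h1 := (abs_le.1 (abs_uu_one θ)).2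
  have h2 : uu 1 θ * t ≤ 2 * t := mul_le_mul_of_nonneg_right h1 ht0
  nlinarith

lemma lr_pos {t : ℝ} (ht0 : 0 ≤ t) (ht : t ≤ 3 / 4) (θ : ℝ) : 0 < lr t θ := by
  have := lr_den ht0 ht θ
  unfold lr
  have h : 0 < 1 - uu 1 θ * t + t ^ 2 := by linarith
  positivity

lemma lr_le {t : ℝ} (ht0 : 0 ≤ t) (ht : t ≤ 3 / 4) (θ : ℝ) : lr t θ ≤ 16 := by
  have h := lr_den ht0 ht θ
  unfold lr
  calc (1 - uu 1 θ * t + t ^ 2)⁻¹ ≤ (1 / 16)⁻¹ := inv_anti₀ (by norm_num) h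
    _ = 16 := by norm_num

lemma lr_CB {t : ℝ} (ht0 : 0 ≤ t) (ht : t ≤ 3 / 4) : CB (lr t) := by
  refine ⟨?_, 16, fun θ => ?_⟩
  · unfold lr
    refine Continuous.inv₀ ?_ fun θ => ?_
    · exact (continuous_const.sub ((continuous_uu 1).mul continuous_const)).add continuous_const
    · have := lr_den ht0 ht θ
      intro h
      linarith
  · rw [abs_of_pos (lr_pos ht0 ht θ)]
    exact lr_le ht0 ht θ

lemma lf_one (t θ : ℝ) : lf t 1 θ = (lr t θ : ℂ) := by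
  unfold lf lr
  push_cast
  rw [mul_one]

lemma lr_mean {t : ℝ} (ht0 : 0 ≤ t) (ht : t ≤ 3 / 4) : ∫ θ, lr t θ ∂st = 1 := by
  have hb : ∀ (a : ℕ) (θ : ℝ), ‖uu a θ * t ^ a‖ ≤ ((a : ℝ) + 1) * (3 / 4 : ℝ) ^ a := by
    intro a θ
    rw [norm_mul, norm_pow, Real.norm_eq_abs, Real.norm_eq_abs, abs_of_nonneg ht0]
    exact mul_le_mul (abs_uu_le a θ) (pow_le_pow_left₀ ht0 ht a) (by positivity) (by positivity)
  have h1 : ∀ θ, HasSum (fun a : ℕ => uu a θ * t ^ a) (lr t θ) := by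
    intro θ
    have h := lf_hasSum ht0 ht (w := 1) (by simp) θ
    rw [lf_one] at h
    have e : (fun a : ℕ => (uu a θ : ℂ) * ((t : ℂ) * 1) ^ a) = fun a : ℕ => ((uu a θ * t ^ a : ℝ) : ℂ) := by
      ext a
      push_cast
      rw [mul_one]
    rw [e] at h
    exact_mod_cast h
  have hi : ∀ a : ℕ, Integrable (fun θ => uu a θ * t ^ a) st := by
    intro a
    exact integrable_st (C := ((a : ℝ) + 1) * (3 / 4 : ℝ) ^ a) ((continuous_uu a).mul continuous_const) fun θ => hb a θ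
  have hs : Summable fun a : ℕ => ∫ θ, ‖uu a θ * t ^ a‖ ∂st := by
    refine Summable.of_nonneg_of_le (fun a => integral_nonneg fun _ => norm_nonneg _) (fun a => ?_) geo_sum
    calc ∫ θ, ‖uu a θ * t ^ a‖ ∂st ≤ ∫ _, ((a : ℝ) + 1) * (3 / 4 : ℝ) ^ a ∂st :=
          integral_mono (hi a).norm (integrable_const _) (hb a)
      _ = _ := by simp
  have h2 := integral_tsum_of_summable_integral_norm hi hs
  have h3 : ∀ θ, ∑' a : ℕ, uu a θ * t ^ a = lr t θ := fun θ => (h1 θ).tsum_eq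
  simp_rw [h3] at h2
  rw [← h2]
  have h4 : ∀ a : ℕ, ∫ θ, uu a θ * t ^ a ∂st = if a = 0 then 1 else 0 := by
    intro a
    rw [integral_mul_const]
    have := orth_st a 0
    simp only [uu_zero, mul_one] at this
    rw [this]
    split_ifs with h
    · subst h; simp
    · simp
  simp_rw [h4]
  rw [tsum_ite_eq]

lemma exp_two_sided {y : ℝ} (hy : |y| ≤ 1) : |exp y - (1 + y + y ^ 2 / 2)| ≤ |y| ^ 3 := by
  have h := Real.exp_bound hy (n := 3) (by norm_num)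
  have e1 : ∑ m ∈ range 3, y ^ m / (m.factorial : ℝ) = 1 + y + y ^ 2 / 2 := by
    simp [Finset.sum_range_succ, Nat.factorial]
  rw [e1] at h
  refine h.trans ?_
  have : ((3 : ℕ).succ : ℝ) / ((3 : ℕ).factorial * (3 : ℕ)) ≤ 1 := by
    norm_num [Nat.factorial]
  calc |y| ^ 3 * (((3 : ℕ).succ : ℝ) / ((3 : ℕ).factorial * (3 : ℕ))) ≤ |y| ^ 3 * 1 :=
        mul_le_mul_of_nonneg_left this (by positivity)
    _ = _ := mul_one _

lemma lr_two_sided {t X : ℝ} (ht0 : 0 ≤ t) (ht : t ≤ 1 / 6) (hX : |X| ≤ 2) :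
    |(1 - X * t + t ^ 2)⁻¹ - (1 + X * t + (X ^ 2 - 1) * t ^ 2)| ≤ 100 * t ^ 3 := by
  have hX1 := (abs_le.1 hX).1
  have hX2 := (abs_le.1 hX).2
  have hXt : |X * t| ≤ 2 * t := by
    rw [abs_mul, abs_of_nonneg ht0]
    exact mul_le_mul_of_nonneg_right hX ht0
  have hD : 2 / 3 ≤ 1 - X * t + t ^ 2 := by
    have := (abs_le.1 hXt).2
    nlinarith
  have hD0 : 0 < 1 - X * t + t ^ 2 := by linarith
  have e : (1 - X * t + t ^ 2)⁻¹ - (1 + X * t + (X ^ 2 - 1) * t ^ 2) =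
      (t ^ 3 * (X * (X ^ 2 - 2) - (X ^ 2 - 1) * t)) / (1 - X * t + t ^ 2) := by
    field_simp
    ring
  rw [e, abs_div, abs_of_pos hD0, div_le_iff₀ hD0, abs_mul, abs_of_nonneg (show 0 ≤ t ^ 3 by positivity)]
  have hX4 : X ^ 2 ≤ 4 := by nlinarith
  have h1 : |X * (X ^ 2 - 2) - (X ^ 2 - 1) * t| ≤ 8 := by
    have a1 : |X * (X ^ 2 - 2)| ≤ 2 * 2 := by
      rw [abs_mul]
      refine mul_le_mul hX ?_ (abs_nonneg _) (by norm_num)
      rw [abs_le]; constructor <;> nlinarith [sq_nonneg X]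
    have a2 : |(X ^ 2 - 1) * t| ≤ 3 * (1 / 6) := by
      rw [abs_mul, abs_of_nonneg ht0]
      refine mul_le_mul ?_ ht ht0 (by norm_num)
      rw [abs_le]; constructor <;> nlinarith [sq_nonneg X]
    have := abs_sub (X * (X ^ 2 - 2)) ((X ^ 2 - 1) * t)
    calc |X * (X ^ 2 - 2) - (X ^ 2 - 1) * t| ≤ |X * (X ^ 2 - 2)| + |(X ^ 2 - 1) * t| := abs_sub _ _
      _ ≤ 8 := by linarith
  have t3 : 0 ≤ t ^ 3 := by positivity
  calc t ^ 3 * |X * (X ^ 2 - 2) - (X ^ 2 - 1) * t| ≤ t ^ 3 * 8 := mul_le_mul_of_nonneg_left h1 t3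
    _ ≤ 100 * t ^ 3 * (1 - X * t + t ^ 2) := by nlinarith

lemma loc_pt {t b X : ℝ} (ht0 : 0 ≤ t) (ht : t ≤ 1 / 6) (hb : |b| ≤ 3) (hX : |X| ≤ 2) :
    |exp (b * (X * t)) * (1 - X * t + t ^ 2)⁻¹ - ((1 - t ^ 2) + (b + 1) * t * X +
      (t ^ 2 * (1 + b + b ^ 2 / 2)) * X ^ 2)| ≤ 2000 * t ^ 3 := by
  have ht1 : t ≤ 3 / 4 := by linarith
  have t3 : 0 ≤ t ^ 3 := by positivity
  have t2 : 0 ≤ t ^ 2 := by positivity
  have hXt : |X * t| ≤ 2 * t := by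
    rw [abs_mul, abs_of_nonneg ht0]
    exact mul_le_mul_of_nonneg_right hX ht0
  obtain ⟨y, hy⟩ : ∃ y : ℝ, y = b * (X * t) := ⟨_, rfl⟩
  have hy6 : |y| ≤ 6 * t := by
    rw [hy, abs_mul]
    calc |b| * |X * t| ≤ 3 * (2 * t) := mul_le_mul hb hXt (abs_nonneg _) (by norm_num)
      _ = _ := by ring
  have hy1 : |y| ≤ 1 := by linarith
  have h1 := exp_two_sided hy1
  have h2 := lr_two_sided ht0 ht hX
  obtain ⟨r1, hr1⟩ : ∃ r1 : ℝ, r1 = exp y - (1 + y + y ^ 2 / 2) := ⟨_, rfl⟩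
  obtain ⟨r2, hr2⟩ : ∃ r2 : ℝ, r2 = (1 - X * t + t ^ 2)⁻¹ - (1 + X * t + (X ^ 2 - 1) * t ^ 2) := ⟨_, rfl⟩
  rw [← hr1] at h1
  rw [← hr2] at h2
  have e1 : exp y = 1 + y + y ^ 2 / 2 + r1 := by rw [hr1]; ring
  have e2 : (1 - X * t + t ^ 2)⁻¹ = 1 + X * t + (X ^ 2 - 1) * t ^ 2 + r2 := by rw [hr2]; ring
  have h1' : |r1| ≤ 216 * t ^ 3 := by
    refine h1.trans ?_
    calc |y| ^ 3 ≤ (6 * t) ^ 3 := pow_le_pow_left₀ (abs_nonneg _) hy6 3
      _ = _ := by ring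
  have hX4 : X ^ 2 ≤ 4 := by
    have := (abs_le.1 hX).1
    have := (abs_le.1 hX).2
    nlinarith
  have hX3 : |X ^ 2 - 1| ≤ 3 := by
    rw [abs_le]; constructor <;> linarith [sq_nonneg X]
  have hysq : y ^ 2 ≤ 36 * t ^ 2 := by
    rw [← sq_abs]
    calc |y| ^ 2 ≤ (6 * t) ^ 2 := pow_le_pow_left₀ (abs_nonneg _) hy6 2
      _ = _ := by ring
  rw [← hy, e1, e2]
  have e3 : (1 + y + y ^ 2 / 2 + r1) * (1 + X * t + (X ^ 2 - 1) * t ^ 2 + r2) -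
      ((1 - t ^ 2) + (b + 1) * t * X + (t ^ 2 * (1 + b + b ^ 2 / 2)) * X ^ 2) =
      y * ((X ^ 2 - 1) * t ^ 2) + y ^ 2 / 2 * (X * t + (X ^ 2 - 1) * t ^ 2) +
      r1 * (1 + X * t + (X ^ 2 - 1) * t ^ 2) + r2 * (1 + y + y ^ 2 / 2) + r1 * r2 := by
    rw [hy]; ring
  rw [e3]
  have hX5 : |(X ^ 2 - 1) * t ^ 2| ≤ 3 * t ^ 2 := by
    rw [abs_mul (X ^ 2 - 1), abs_of_nonneg t2]
    exact mul_le_mul_of_nonneg_right hX3 t2
  have b1 : |y * ((X ^ 2 - 1) * t ^ 2)| ≤ 18 * t ^ 3 := by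
    rw [abs_mul y]
    calc |y| * |(X ^ 2 - 1) * t ^ 2| ≤ (6 * t) * (3 * t ^ 2) :=
          mul_le_mul hy6 hX5 (abs_nonneg _) (by linarith)
      _ = _ := by ring
  have b0 : |X * t + (X ^ 2 - 1) * t ^ 2| ≤ 3 * t := by
    refine (abs_add_le _ _).trans ?_
    nlinarith
  have b2 : |y ^ 2 / 2 * (X * t + (X ^ 2 - 1) * t ^ 2)| ≤ 54 * t ^ 3 := by
    rw [abs_mul (y ^ 2 / 2), abs_of_nonneg (show 0 ≤ y ^ 2 / 2 by positivity)]
    calc y ^ 2 / 2 * |X * t + (X ^ 2 - 1) * t ^ 2| ≤ (36 * t ^ 2) / 2 * (3 * t) :=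
          mul_le_mul (by linarith) b0 (abs_nonneg _) (by positivity)
      _ = _ := by ring
  have b3 : |r1 * (1 + X * t + (X ^ 2 - 1) * t ^ 2)| ≤ 432 * t ^ 3 := by
    rw [abs_mul r1]
    have : |1 + X * t + (X ^ 2 - 1) * t ^ 2| ≤ 2 := by
      have e : 1 + X * t + (X ^ 2 - 1) * t ^ 2 = 1 + (X * t + (X ^ 2 - 1) * t ^ 2) := by ring
      rw [e]
      refine (abs_add_le _ _).trans ?_
      rw [abs_one]
      linarith
    calc |r1| * |1 + X * t + (X ^ 2 - 1) * t ^ 2| ≤ (216 * t ^ 3) * 2 :=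
          mul_le_mul h1' this (abs_nonneg _) (by positivity)
      _ = _ := by ring
  have b4 : |r2 * (1 + y + y ^ 2 / 2)| ≤ 300 * t ^ 3 := by
    rw [abs_mul r2]
    have : |1 + y + y ^ 2 / 2| ≤ 3 := by
      have hy2 := abs_le.1 hy1
      rw [abs_le]
      constructor <;> nlinarith [sq_nonneg y]
    calc |r2| * |1 + y + y ^ 2 / 2| ≤ (100 * t ^ 3) * 3 :=
          mul_le_mul h2 this (abs_nonneg _) (by positivity)
      _ = _ := by ring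
  have b5 : |r1 * r2| ≤ 100 * t ^ 3 := by
    rw [abs_mul r1]
    have : |r1| ≤ 1 := by
      have h3 : t ^ 3 ≤ (1 / 6) ^ 3 := pow_le_pow_left₀ ht0 ht 3
      norm_num at h3
      linarith
    calc |r1| * |r2| ≤ 1 * (100 * t ^ 3) := mul_le_mul this h2 (abs_nonneg _) (by norm_num)
      _ = _ := by ring
  calc _ ≤ |y * ((X ^ 2 - 1) * t ^ 2)| + |y ^ 2 / 2 * (X * t + (X ^ 2 - 1) * t ^ 2)| +
        |r1 * (1 + X * t + (X ^ 2 - 1) * t ^ 2)| + |r2 * (1 + y + y ^ 2 / 2)| + |r1 * r2| := by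
        refine (abs_add_le _ _).trans (add_le_add ?_ le_rfl)
        refine (abs_add_le _ _).trans (add_le_add ?_ le_rfl)
        refine (abs_add_le _ _).trans (add_le_add ?_ le_rfl)
        exact abs_add_le _ _
    _ ≤ 2000 * t ^ 3 := by linarith

lemma int_close {F G : ℝ → ℝ} (hF : Integrable F st) (hG : Integrable G st) {K : ℝ}
    (h : ∀ θ, |F θ - G θ| ≤ K) : |∫ θ, F θ ∂st - ∫ θ, G θ ∂st| ≤ K := by
  rw [← integral_sub hF hG]
  have h1 := norm_integral_le_of_norm_le (μ := st) (f := fun θ => F θ - G θ) (g := fun _ => K)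
    (integrable_const _) (Filter.Eventually.of_forall fun θ => by rw [Real.norm_eq_abs]; exact h θ)
  rw [Real.norm_eq_abs] at h1
  simpa using h1

lemma lr_int {t : ℝ} (ht0 : 0 ≤ t) (ht1 : t ≤ 3 / 4) (b : ℝ) :
    Integrable (fun θ => exp (b * (uu 1 θ * t)) * lr t θ) st := by
  have h1 : CB fun θ => exp (b * (uu 1 θ * t)) * lr t θ := by
    refine CB.mul (CB.exp ?_) (lr_CB ht0 ht1)
    refine ⟨continuous_const.mul ((continuous_uu 1).mul continuous_const), |b| * (2 * t), fun θ => ?_⟩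
    rw [abs_mul, abs_mul, abs_of_nonneg ht0]
    exact mul_le_mul_of_nonneg_left (mul_le_mul_of_nonneg_right (abs_uu_one θ) ht0) (abs_nonneg _)
  obtain ⟨hc, C, hC⟩ := h1
  exact integrable_st (C := C) hc fun θ => by rw [Real.norm_eq_abs]; exact hC θ

lemma loc_lr {t b : ℝ} (ht0 : 0 ≤ t) (ht : t ≤ 1 / 6) (hb : |b| ≤ 3) :
    |∫ θ, exp (b * (uu 1 θ * t)) * lr t θ ∂st - (1 + t ^ 2 * (b + b ^ 2 / 2))| ≤ 2000 * t ^ 3 := by
  have ht1 : t ≤ 3 / 4 := by linarith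
  obtain ⟨q1, q2⟩ := st_quad (1 - t ^ 2) ((b + 1) * t) (t ^ 2 * (1 + b + b ^ 2 / 2))
  have h := int_close (lr_int ht0 ht1 b) q1 (K := 2000 * t ^ 3) (fun θ => loc_pt ht0 ht hb (abs_uu_one θ))
  rw [q2] at h
  have e0 : (1 - t ^ 2) + t ^ 2 * (1 + b + b ^ 2 / 2) = 1 + t ^ 2 * (b + b ^ 2 / 2) := by ring
  rw [e0] at h
  exact h

/-- lower bound for the main local factor -/
lemma loc_low {t : ℝ} (ht0 : 0 ≤ t) (ht : t ≤ 1 / 4000) :
    exp (-(t ^ 2 / 2) - 2001 * t ^ 3) ≤ ∫ θ, exp (-1 * (uu 1 θ * t)) * lr t θ ∂st := by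
  have h := loc_lr ht0 (by linarith) (b := -1) (by norm_num)
  have h1 := (abs_le.1 h).1
  set z : ℝ := t ^ 2 / 2 + 2000 * t ^ 3 with hz
  have t3 : 0 ≤ t ^ 3 := by positivity
  have hz0 : 0 ≤ z := by positivity
  have ht3 : 2000 * t ^ 3 ≤ t ^ 2 / 2 := by nlinarith [sq_nonneg t]
  have hz1 : z ≤ t ^ 2 := by linarith
  have hz2 : z ≤ 1 / 2 := by nlinarith
  have hz3 : z ^ 2 ≤ t ^ 3 := by
    calc z ^ 2 ≤ (t ^ 2) ^ 2 := pow_le_pow_left₀ hz0 hz1 2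
      _ = t ^ 3 * t := by ring
      _ ≤ t ^ 3 * 1 := mul_le_mul_of_nonneg_left (by linarith) t3
      _ = _ := mul_one _
  have h2 : exp (-(z + z ^ 2)) ≤ 1 - z := by
    have h3 := Real.quadratic_le_exp_of_nonneg (x := z + z ^ 2) (by positivity)
    have h5 : 0 < 1 - z := by linarith
    have h4 : 1 ≤ (1 - z) * exp (z + z ^ 2) := by
      refine le_trans ?_ (mul_le_mul_of_nonneg_left h3 h5.le)
      have e : (1 - z) * (1 + (z + z ^ 2) + (z + z ^ 2) ^ 2 / 2) = 1 + z ^ 2 * ((1 - z) * (1 + z) ^ 2 / 2 - z) := by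
        ring
      rw [e]
      have h6 : 0 ≤ (1 - z) * (1 + z) ^ 2 / 2 - z := by nlinarith [mul_nonneg hz0 hz0]
      have := mul_nonneg (sq_nonneg z) h6
      linarith
    rw [Real.exp_neg, inv_le_iff_one_le_mul₀ (exp_pos _)]
    exact h4
  refine le_trans (exp_le_exp.2 ?_) (h2.trans ?_)
  · rw [hz] at hz3 ⊢
    linarith
  · rw [hz]
    linarith

/-- upper bound for the local factors -/
lemma loc_up {t b : ℝ} (ht0 : 0 ≤ t) (ht : t ≤ 1 / 6) (hb : |b| ≤ 3) :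
    ∫ θ, exp (b * (uu 1 θ * t)) * lr t θ ∂st ≤ exp (15 / 2 * t ^ 2 + 2000 * t ^ 3) := by
  have h := loc_lr ht0 ht hb
  have h1 := (abs_le.1 h).2
  have h2 : b + b ^ 2 / 2 ≤ 15 / 2 := by
    have := abs_le.1 hb
    nlinarith
  have h3 : t ^ 2 * (b + b ^ 2 / 2) ≤ t ^ 2 * (15 / 2) := mul_le_mul_of_nonneg_left h2 (sq_nonneg t)
  have h4 := Real.add_one_le_exp (15 / 2 * t ^ 2 + 2000 * t ^ 3)
  linarith

end Pool.Agent.H485.CC
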