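import Pool.Agent.H485.CC.Ml2
import Pool.Agent.H485.CC.Ml3
import Pool.Agent.H485.CC.Bnd

/-!
# The scales
-/

set_option autoImplicit false
set_option maxHeartbeats 1000000

open MeasureTheory Real Finset Filter

namespace Pool.Agent.H485.CC

/-- the sum of the reciprocals of the primes up to `e^x` -/
noncomputable def rs (x : ℝ) : ℝ := ∑ p ∈ pr ⌊exp x⌋₊, (1 : ℝ) / p

lemma floor_exp {x : ℝ} (hx : 2 ≤ x) : 3 ≤ ⌊exp x⌋₊ ∧ x - 1 ≤ log (⌊exp x⌋₊ : ℕ) ∧ log (⌊exp x⌋₊ : ℕ) ≤ x := by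
  have h1 : exp x - 1 < (⌊exp x⌋₊ : ℕ) := Nat.sub_one_lt_floor _
  have h2 : x + 1 ≤ exp x := add_one_le_exp x
  have h3 : 3 ≤ ⌊exp x⌋₊ := Nat.le_floor (by push_cast; linarith)
  have h3' : (3 : ℝ) ≤ (⌊exp x⌋₊ : ℕ) := by exact_mod_cast h3
  refine ⟨h3, ?_, ?_⟩
  · have h4 : exp (x - 1) ≤ (⌊exp x⌋₊ : ℕ) := by
      have h5 : exp x = exp 1 * exp (x - 1) := by rw [← Real.exp_add]; ring_nf
      have h6 : 2.7 ≤ exp 1 := by have := Real.exp_one_gt_d9; linarith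
      have h7 : x ≤ exp (x - 1) := by have := add_one_le_exp (x - 1); linarith
      nlinarith
    calc x - 1 = log (exp (x - 1)) := (Real.log_exp _).symm
      _ ≤ _ := Real.log_le_log (exp_pos _) h4
  · rw [Real.log_le_iff_le_exp (by linarith)]
    exact Nat.floor_le (exp_pos _).le

theorem mert : ∃ C : ℝ, 0 ≤ C ∧ ∀ x : ℝ, 2 ≤ x → |rs x - log x| ≤ C := by
  obtain ⟨C, hC⟩ := Pool.Agent.Erdos456.Mert.mertens_inv
  have hC0 : 0 ≤ C := (abs_nonneg _).trans (hC 3 le_rfl)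
  refine ⟨C + 1, by linarith, fun x hx => ?_⟩
  obtain ⟨h1, h2, h3⟩ := floor_exp hx
  have h4 := abs_le.1 (hC _ h1)
  have h5 : log (log (⌊exp x⌋₊ : ℕ)) ≤ log x := Real.log_le_log (by linarith) h3
  have h6 : log x - 1 ≤ log (log (⌊exp x⌋₊ : ℕ)) := by
    have h7 : log (x / 2) ≤ log (log (⌊exp x⌋₊ : ℕ)) := Real.log_le_log (by linarith) (by linarith)
    rw [Real.log_div (by linarith) (by norm_num)] at h7
    have := Real.log_two_lt_d9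
    linarith
  have h8 : rs x = ∑ p ∈ (Finset.Icc 1 ⌊exp x⌋₊).filter Nat.Prime, (1 : ℝ) / p := rfl
  rw [abs_le, h8]
  constructor <;> linarith [h4.1, h4.2]

lemma pr_sub_exp {x y : ℝ} (h : x ≤ y) : pr ⌊exp x⌋₊ ⊆ pr ⌊exp y⌋₊ :=
  pr_mono (Nat.floor_le_floor (exp_le_exp.2 h))

lemma log_sumX : ∃ C : ℝ, 0 ≤ C ∧ ∀ x : ℝ, 2 ≤ x → ∑ p ∈ pr ⌊exp x⌋₊, log (p : ℝ) / p ≤ x + C := by
  obtain ⟨C, hC⟩ := Pool.Agent.Erdos456.Mert.mertens_log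
  have hC0 : 0 ≤ C := (abs_nonneg _).trans (hC 1 le_rfl)
  refine ⟨C, hC0, fun x hx => ?_⟩
  obtain ⟨h1, h2, h3⟩ := floor_exp hx
  have h4 := (abs_le.1 (hC _ (by omega : 1 ≤ ⌊exp x⌋₊))).2
  have h8 : ∑ p ∈ pr ⌊exp x⌋₊, log (p : ℝ) / p =
    ∑ p ∈ (Finset.Icc 1 ⌊exp x⌋₊).filter Nat.Prime, log (p : ℝ) / p := rfl
  rw [h8]
  linarith

/-- the sum of the distances -/
theorem sum_dist : ∃ C : ℝ, 0 ≤ C ∧ ∀ x : ℝ, 2 ≤ x → ∀ s : ℂ, 0 ≤ s.re →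
    ∑ p ∈ pr ⌊exp x⌋₊, ‖1 - ((p : ℕ) : ℂ) ^ (-s)‖ / p ≤ C + 2 * log (1 + ‖s‖ * x) := by
  obtain ⟨C0, hC00, hC0⟩ := mert
  obtain ⟨C1, hC10, hC1⟩ := log_sumX
  refine ⟨4 + 2 * C1 + 4 * C0, by positivity, fun x hx s hs => ?_⟩
  have hx0 : 0 < x := by linarith
  -- the part of small primes
  have small : ∀ y : ℝ, 2 ≤ y → ‖s‖ * y ≤ 1 →
      ∑ p ∈ pr ⌊exp y⌋₊, ‖1 - ((p : ℕ) : ℂ) ^ (-s)‖ / p ≤ 2 + 2 * C1 := by
    intro y hy hsy
    have hs2 : ‖s‖ ≤ 1 := by nlinarith [norm_nonneg s]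
    calc ∑ p ∈ pr ⌊exp y⌋₊, ‖1 - ((p : ℕ) : ℂ) ^ (-s)‖ / p ≤
        ∑ p ∈ pr ⌊exp y⌋₊, 2 * ‖s‖ * (log (p : ℝ) / p) := by
          refine Finset.sum_le_sum fun p hp => ?_
          obtain ⟨hp1, hp2⟩ := mem_pr.1 hp
          have hp0 : (0 : ℝ) < p := by exact_mod_cast hp2.pos
          have hpl : log (p : ℝ) ≤ y := by
            rw [Real.log_le_iff_le_exp hp0]
            calc (p : ℝ) ≤ (⌊exp y⌋₊ : ℕ) := by exact_mod_cast hp1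
              _ ≤ _ := Nat.floor_le (exp_pos _).le
          have h1 := one_sub_ps hp2 (s := s) ((mul_le_mul_of_nonneg_left hpl (norm_nonneg s)).trans hsy)
          calc ‖1 - ((p : ℕ) : ℂ) ^ (-s)‖ / p ≤ (2 * ‖s‖ * log p) / p := div_le_div_of_nonneg_right h1 hp0.le
            _ = _ := by ring
      _ = 2 * ‖s‖ * ∑ p ∈ pr ⌊exp y⌋₊, log (p : ℝ) / p := by rw [Finset.mul_sum]
      _ ≤ 2 * ‖s‖ * (y + C1) := mul_le_mul_of_nonneg_left (hC1 y hy) (by positivity)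
      _ = 2 * (‖s‖ * y) + 2 * (‖s‖ * C1) := by ring
      _ ≤ 2 * 1 + 2 * (1 * C1) := by
        have := mul_le_mul_of_nonneg_right hs2 hC10
        linarith
      _ = _ := by ring
  have all2 : ∀ S : Finset ℕ, (∀ p ∈ S, p.Prime) →
      ∑ p ∈ S, ‖1 - ((p : ℕ) : ℂ) ^ (-s)‖ / p ≤ 2 * ∑ p ∈ S, (1 : ℝ) / p := by
    intro S hS
    rw [Finset.mul_sum]
    refine Finset.sum_le_sum fun p hp => ?_
    have hp0 : (0 : ℝ) < p := by exact_mod_cast (hS p hp).pos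
    calc ‖1 - ((p : ℕ) : ℂ) ^ (-s)‖ / p ≤ 2 / p := div_le_div_of_nonneg_right (one_sub_ps' (hS p hp) hs) hp0.le
      _ = _ := by ring
  have hlog0 : 0 ≤ log (1 + ‖s‖ * x) := Real.log_nonneg (by
    have : 0 ≤ ‖s‖ * x := by positivity
    linarith)
  have hprime : ∀ y : ℝ, ∀ p ∈ pr ⌊exp y⌋₊, p.Prime := fun y p hp => (mem_pr.1 hp).2
  by_cases hA : ‖s‖ * x ≤ 1
  · have := small x hx hA
    linarith
  push Not at hA
  have hs0 : 0 < ‖s‖ := by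
    by_contra h
    have : ‖s‖ = 0 := le_antisymm (not_lt.1 h) (norm_nonneg s)
    rw [this, zero_mul] at hA
    linarith
  by_cases hB : ‖s‖ ≤ 1 / 2
  · set y : ℝ := 1 / ‖s‖ with hy
    have hy2 : 2 ≤ y := by
      rw [hy, le_div_iff₀ hs0]
      linarith
    have hyx : y ≤ x := by
      rw [hy, div_le_iff₀ hs0]
      linarith
    have h1 := small y hy2 (by rw [hy]; field_simp; exact le_rfl)
    rw [← Finset.sum_sdiff (pr_sub_exp hyx)]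
    have h2 := all2 (pr ⌊exp x⌋₊ \ pr ⌊exp y⌋₊) fun p hp => hprime x p (Finset.mem_sdiff.1 hp).1
    have h2' : ∑ p ∈ pr ⌊exp x⌋₊ \ pr ⌊exp y⌋₊, (1 : ℝ) / p = ∑ p ∈ pr ⌊exp x⌋₊, (1 : ℝ) / p -
        ∑ p ∈ pr ⌊exp y⌋₊, (1 : ℝ) / p := Finset.sum_sdiff_eq_sub (pr_sub_exp hyx)
    rw [h2'] at h2
    have h3 := abs_le.1 (hC0 x hx)
    have h4 := abs_le.1 (hC0 y hy2)
    have h5 : log x - log y = log (‖s‖ * x) := by
      rw [hy, Real.log_div one_ne_zero hs0.ne', Real.log_one, Real.log_mul hs0.ne' hx0.ne']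
      ring
    have h6 : log (‖s‖ * x) ≤ log (1 + ‖s‖ * x) := Real.log_le_log (by positivity) (by linarith)
    have h7 : rs x = ∑ p ∈ pr ⌊exp x⌋₊, (1 : ℝ) / p := rfl
    have h8 : rs y = ∑ p ∈ pr ⌊exp y⌋₊, (1 : ℝ) / p := rfl
    rw [← h7, ← h8] at h2
    linarith [h3.2, h4.1]
  · push Not at hB
    have h2 := all2 (pr ⌊exp x⌋₊) (hprime x)
    have h3 := abs_le.1 (hC0 x hx)
    have h7 : rs x = ∑ p ∈ pr ⌊exp x⌋₊, (1 : ℝ) / p := rfl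
    rw [← h7] at h2
    have h5 : log x ≤ log (1 + ‖s‖ * x) + 1 := by
      have h6 : log x ≤ log (2 * (1 + ‖s‖ * x)) := Real.log_le_log hx0 (by nlinarith)
      rw [Real.log_mul (by norm_num) (by positivity)] at h6
      have := Real.log_two_lt_d9
      linarith
    linarith [h3.2]

/-! ### the scales -/

/-- the number of the scales -/
noncomputable def Rn (N : ℕ) : ℕ := Nat.clog 2 ((⌈ll N⌉₊ + 1) ^ 2)

/-- the logarithm of the scale `i` -/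
noncomputable def Xi (A N i : ℕ) : ℝ := log N / (256 * A) / 2 ^ i

/-- the bounds of the scales -/
noncomputable def bq (A p0 N i : ℕ) : ℕ := if i ≤ Rn N then ⌊exp (Xi A N i)⌋₊ else p0

/-- the primes of a scale -/
noncomputable def Sc (A p0 N i : ℕ) : Finset ℕ := pr (bq A p0 N i) \ pr (bq A p0 N (i + 1))

/-- the degrees -/
noncomputable def Jn (A N i : ℕ) : ℕ := if i < Rn N then 2 * A * (i + 1) else 2 * A * (⌈ll N⌉₊ + 1)

/-- all primes of the mollifier -/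
noncomputable def Sa (A p0 N : ℕ) : Finset ℕ := pr (bq A p0 N 0) \ pr p0

lemma two_pow_R (N : ℕ) : (⌈ll N⌉₊ + 1) ^ 2 ≤ 2 ^ Rn N ∧ 2 ^ Rn N ≤ 2 * (⌈ll N⌉₊ + 1) ^ 2 := by
  constructor
  · exact Nat.le_pow_clog (by norm_num) _
  · unfold Rn
    rcases Nat.lt_or_ge 1 ((⌈ll N⌉₊ + 1) ^ 2) with h | h
    · have h1 := Nat.pow_pred_clog_lt_self (b := 2) (by norm_num) h
      have h2 : 0 < Nat.clog 2 ((⌈ll N⌉₊ + 1) ^ 2) := Nat.clog_pos (by norm_num) h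
      obtain ⟨k, hk⟩ : ∃ k, Nat.clog 2 ((⌈ll N⌉₊ + 1) ^ 2) = k + 1 := ⟨_, (Nat.succ_pred_eq_of_pos h2).symm⟩
      rw [hk] at h1 ⊢
      rw [Nat.pred_succ] at h1
      rw [pow_succ]
      omega
    · have h3 : (⌈ll N⌉₊ + 1) ^ 2 = 1 := le_antisymm h (Nat.one_le_pow _ _ (by omega))
      rw [h3]
      simp

variable {A p0 N : ℕ}

lemma Xi_succ (A N i : ℕ) : Xi A N (i + 1) = Xi A N i / 2 := by
  unfold Xi
  rw [pow_succ]
  ring

lemma Xi_anti (_hA : 0 < A) (hL : 0 ≤ log (N : ℝ)) {i j : ℕ} (h : i ≤ j) : Xi A N j ≤ Xi A N i := by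
  unfold Xi
  apply div_le_div_of_nonneg_left (by positivity) (by positivity)
  exact pow_le_pow_right₀ (by norm_num) h

lemma ev_XR (A : ℕ) (hA : 0 < A) (C : ℝ) : ∀ᶠ N : ℕ in atTop, C ≤ Xi A N (Rn N) := by
  have hA0 : (0 : ℝ) < A := by exact_mod_cast hA
  filter_upwards [ev_pow (|C| * (256 * A) * 18) 2 (ε := 1) one_pos, ev_ll 1, ev_log 1] with N h1 h2 h3
  unfold Xi
  have h4 : ((2 : ℝ)) ^ Rn N ≤ 18 * ll N ^ 2 := by
    have h5 := (two_pow_R N).2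
    have h6 : ((2 : ℝ)) ^ Rn N ≤ 2 * ((⌈ll N⌉₊ : ℝ) + 1) ^ 2 := by exact_mod_cast h5
    have h7 := Nat.ceil_lt_add_one (show 0 ≤ ll N by linarith)
    have h8 : ((⌈ll N⌉₊ : ℝ) + 1) ≤ 3 * ll N := by linarith
    calc ((2 : ℝ)) ^ Rn N ≤ 2 * ((⌈ll N⌉₊ : ℝ) + 1) ^ 2 := h6
      _ ≤ 2 * (3 * ll N) ^ 2 := by
        have := pow_le_pow_left₀ (by positivity) h8 2
        linarith
      _ = _ := by ring
  rw [one_mul, exp_ll (by linarith)] at h1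
  rw [div_div, le_div_iff₀ (by positivity)]
  calc C * (256 * A * 2 ^ Rn N) ≤ |C| * (256 * A * 2 ^ Rn N) :=
        mul_le_mul_of_nonneg_right (le_abs_self C) (by positivity)
    _ ≤ |C| * (256 * A * (18 * ll N ^ 2)) := by gcongr
    _ = |C| * (256 * A) * 18 * ll N ^ 2 := by ring
    _ ≤ _ := h1

lemma bq_anti (hA : 0 < A) (hL : 0 ≤ log (N : ℝ)) (hp0 : p0 ≤ ⌊exp (Xi A N (Rn N))⌋₊) {i j : ℕ} (h : i ≤ j) :
    bq A p0 N j ≤ bq A p0 N i := by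
  unfold bq
  split_ifs with h1 h2 h2
  · exact Nat.floor_le_floor (exp_le_exp.2 (Xi_anti hA hL h))
  · omega
  · exact hp0.trans (Nat.floor_le_floor (exp_le_exp.2 (Xi_anti hA hL h2)))
  · exact le_rfl

lemma Sc_disj (hA : 0 < A) (hL : 0 ≤ log (N : ℝ)) (hp0 : p0 ≤ ⌊exp (Xi A N (Rn N))⌋₊) {i j : ℕ} (h : i ≠ j) :
    Disjoint (Sc A p0 N i) (Sc A p0 N j) := by
  wlog hij : i < j generalizing i j
  · exact (this h.symm (by omega)).symm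
  rw [Finset.disjoint_left]
  intro p hp hq
  unfold Sc at hp hq
  rw [Finset.mem_sdiff] at hp hq
  exact hp.2 (pr_mono (bq_anti hA hL hp0 hij) hq.1)

lemma Sc_union (hA : 0 < A) (hL : 0 ≤ log (N : ℝ)) (hp0 : p0 ≤ ⌊exp (Xi A N (Rn N))⌋₊) (n : ℕ) :
    (range n).biUnion (Sc A p0 N) = pr (bq A p0 N 0) \ pr (bq A p0 N n) := by
  induction n with
  | zero => simp
  | succ n ih =>
    rw [Finset.range_add_one, Finset.biUnion_insert, ih]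
    ext p
    unfold Sc
    have h1 := pr_mono (bq_anti hA hL hp0 (Nat.zero_le n))
    have h2 := pr_mono (bq_anti hA hL hp0 (Nat.le_succ n))
    simp only [Finset.mem_union, Finset.mem_sdiff]
    constructor
    · rintro (h | h)
      · exact ⟨h1 h.1, h.2⟩
      · exact ⟨h.1, fun h3 => h.2 (h2 h3)⟩
    · rintro ⟨h3, h4⟩
      by_cases h5 : p ∈ pr (bq A p0 N n)
      · exact Or.inl ⟨h5, h4⟩
      · exact Or.inr ⟨h3, h5⟩

lemma bq_end (A p0 N : ℕ) : bq A p0 N (Rn N + 1) = p0 := by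
  unfold bq
  rw [if_neg (by omega)]

lemma sum_Sc (hA : 0 < A) (hL : 0 ≤ log (N : ℝ)) (hp0 : p0 ≤ ⌊exp (Xi A N (Rn N))⌋₊) (f : ℕ → ℝ) (n : ℕ) :
    ∑ i ∈ range n, ∑ p ∈ Sc A p0 N i, f p = ∑ p ∈ pr (bq A p0 N 0) \ pr (bq A p0 N n), f p := by
  rw [← Sc_union hA hL hp0 n, Finset.sum_biUnion]
  intro i _ j _ hij
  exact Sc_disj hA hL hp0 hij

lemma sum_Sa (hA : 0 < A) (hL : 0 ≤ log (N : ℝ)) (hp0 : p0 ≤ ⌊exp (Xi A N (Rn N))⌋₊) (f : ℕ → ℝ) :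
    ∑ i ∈ range (Rn N + 1), ∑ p ∈ Sc A p0 N i, f p = ∑ p ∈ Sa A p0 N, f p := by
  rw [sum_Sc hA hL hp0, bq_end]
  rfl

end Pool.Agent.H485.CC
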