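import Pool.Agent.H485.CC.Ml4
import Pool.Agent.H485.CC.Har

/-!
# The properties of the scales
-/

set_option autoImplicit false
set_option maxHeartbeats 1000000

open MeasureTheory Real Finset Filter

namespace Pool.Agent.H485.CC

/-- the weight of a scale -/
noncomputable def vv (A p0 N i : ℕ) : ℝ := ∑ p ∈ Sc A p0 N i, (1 : ℝ) / p

/-- the properties of the scales -/
structure Good (A p0 N : ℕ) (C : ℝ) : Prop where
  hA : 0 < A
  hL : 100 ≤ log (N : ℝ)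
  hll : 100 ≤ ll N
  hX : 2 ≤ Xi A N (Rn N)
  hp0 : p0 ≤ ⌊exp (Xi A N (Rn N))⌋₊
  v1 : ∀ i < Rn N, vv A p0 N i ≤ C
  v2 : vv A p0 N (Rn N) ≤ 2 * ll N
  v3 : ∑ i ∈ range (Rn N), vv A p0 N i ≤ 2 * log (ll N) + C
  V : |∑ p ∈ Sa A p0 N, (1 : ℝ) / p - ll N| ≤ C + log (256 * A) + p0
  rest : ∑ p ∈ Sb N \ Sa A p0 N, (1 : ℝ) / p ≤ C + log (256 * A) + p0
  sub : Sa A p0 N ⊆ Sb N

variable {A p0 N : ℕ}

lemma sum_pr_le (n : ℕ) : ∑ p ∈ pr n, (1 : ℝ) / p ≤ n := by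
  calc ∑ p ∈ pr n, (1 : ℝ) / p ≤ ∑ _p ∈ pr n, (1 : ℝ) := by
        refine Finset.sum_le_sum fun p hp => ?_
        have : (1 : ℝ) ≤ p := by exact_mod_cast (mem_pr.1 hp).2.one_le
        rw [div_le_one (by linarith)]
        exact this
    _ = (pr n).card := by simp
    _ ≤ n := by
      have : (pr n).card ≤ n := by
        calc (pr n).card ≤ (Finset.Icc 1 n).card := Finset.card_filter_le _ _
          _ = n := by simp
      exact_mod_cast this

theorem good : ∃ C : ℝ, 0 ≤ C ∧ ∀ A p0 : ℕ, 0 < A → ∀ᶠ N : ℕ in atTop, Good A p0 N C := by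
  obtain ⟨C0, hC00, hC0⟩ := mert
  refine ⟨10 + 2 * C0, by positivity, fun A p0 hA => ?_⟩
  have hA0 : (1 : ℝ) ≤ A := by exact_mod_cast hA
  have hp0ev : ∀ᶠ N : ℕ in atTop, p0 ≤ ⌊exp (Xi A N (Rn N))⌋₊ := by
    filter_upwards [ev_XR A hA (p0 : ℝ)] with N h
    apply Nat.le_floor
    linarith [add_one_le_exp (Xi A N (Rn N))]
  filter_upwards [ev_log 100, ev_ll (100 + C0), ev_XR A hA 2, hp0ev, ev_log (2 * (256 * A))]
    with N h1 h2 h3 h4 h5
  have hll : 100 ≤ ll N := by linarith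
  have hL0 : 0 < log (N : ℝ) := by linarith
  have hN0 := pos_of_log (show 1 ≤ log (N : ℝ) by linarith)
  have hXi2 : ∀ i ≤ Rn N, 2 ≤ Xi A N i := fun i hi => h3.trans (Xi_anti hA hL0.le hi)
  have hbq : ∀ i ≤ Rn N, bq A p0 N i = ⌊exp (Xi A N i)⌋₊ := fun i hi => if_pos hi
  have hrs : ∀ i ≤ Rn N, ∑ p ∈ pr (bq A p0 N i), (1 : ℝ) / p = rs (Xi A N i) := fun i hi => by
    rw [hbq i hi]; rfl
  have hX0 : Xi A N 0 = log N / (256 * A) := by unfold Xi; simp
  have hlogX0 : log (Xi A N 0) = ll N - log (256 * A) := by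
    rw [hX0, Real.log_div hL0.ne' (by positivity)]
    rfl
  have hlogA : 0 ≤ log (256 * (A : ℝ)) := Real.log_nonneg (by linarith)
  have hmono : ∀ {i j : ℕ}, i ≤ j → pr (bq A p0 N j) ⊆ pr (bq A p0 N i) := fun h =>
    pr_mono (bq_anti hA hL0.le h4 h)
  have hm := fun i hi => abs_le.1 (hC0 (Xi A N i) (hXi2 i hi))
  have hlog2 := Real.log_two_lt_d9
  have hlog2' := Real.log_two_gt_d9
  have hXpos : ∀ i, 0 < Xi A N i := fun i => by unfold Xi; positivity
  have hp0b : p0 ≤ bq A p0 N 0 := by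
    have := bq_anti (p0 := p0) hA hL0.le h4 (Nat.zero_le (Rn N + 1))
    rwa [bq_end] at this
  have hb0 : bq A p0 N 0 ≤ Yb N := by
    rw [hbq 0 (Nat.zero_le _)]
    unfold Yb
    apply Nat.floor_le_floor
    rw [Real.rpow_def_of_pos hN0]
    apply exp_le_exp.2
    rw [hX0, div_le_iff₀ (by positivity)]
    nlinarith
  have hSa : ∑ p ∈ Sa A p0 N, (1 : ℝ) / p = rs (Xi A N 0) - ∑ p ∈ pr p0, (1 : ℝ) / p := by
    unfold Sa
    rw [Finset.sum_sdiff_eq_sub (pr_mono hp0b), hrs 0 (Nat.zero_le _)]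
  have hpr0 := sum_pr_le p0
  have hpr00 : 0 ≤ ∑ p ∈ pr p0, (1 : ℝ) / p := Finset.sum_nonneg fun p _ => by positivity
  have hsub : Sa A p0 N ⊆ Sb N := fun p hp => pr_mono hb0 (Finset.mem_sdiff.1 hp).1
  refine ⟨hA, h1, hll, h3, h4, fun i hi => ?_, ?_, ?_, ?_, ?_, hsub⟩
  · unfold vv Sc
    rw [Finset.sum_sdiff_eq_sub (hmono (Nat.le_succ i)), hrs i hi.le, hrs (i + 1) hi]
    have e1 := hm i hi.le
    have e2 := hm (i + 1) hi
    rw [Xi_succ, Real.log_div (hXpos i).ne' (by norm_num)] at e2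
    rw [Xi_succ]
    linarith [e1.2, e2.1]
  · calc vv A p0 N (Rn N) ≤ ∑ p ∈ pr (bq A p0 N (Rn N)), (1 : ℝ) / p := by
          unfold vv Sc
          exact Finset.sum_le_sum_of_subset_of_nonneg Finset.sdiff_subset fun p _ _ => by positivity
      _ = rs (Xi A N (Rn N)) := hrs _ le_rfl
      _ ≤ log (Xi A N (Rn N)) + C0 := by linarith [(hm _ le_rfl).2]
      _ ≤ log (Xi A N 0) + C0 := by
        have := Real.log_le_log (hXpos (Rn N)) (Xi_anti hA hL0.le (Nat.zero_le (Rn N)))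
        linarith
      _ ≤ _ := by rw [hlogX0]; linarith
  · have e0 := sum_Sc (p0 := p0) hA hL0.le h4 (fun p => (1 : ℝ) / p) (Rn N)
    unfold vv
    rw [e0, Finset.sum_sdiff_eq_sub (hmono (Nat.zero_le _)), hrs 0 (Nat.zero_le _), hrs _ le_rfl]
    have e1 := hm 0 (Nat.zero_le _)
    have e2 := hm _ le_rfl
    have e3 : log (Xi A N (Rn N)) = log (Xi A N 0) - Rn N * log 2 := by
      have : Xi A N (Rn N) = Xi A N 0 / 2 ^ Rn N := by unfold Xi; simp
      rw [this, Real.log_div (hXpos 0).ne' (by positivity), Real.log_pow]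
    have e4 : (Rn N : ℝ) * log 2 ≤ 2 * log (ll N) + 3 := by
      have h6 := (two_pow_R N).2
      have h7 : ((2 : ℝ)) ^ Rn N ≤ 2 * ((⌈ll N⌉₊ : ℝ) + 1) ^ 2 := by exact_mod_cast h6
      have h8 := Nat.ceil_lt_add_one (show 0 ≤ ll N by linarith)
      have h9 : ((⌈ll N⌉₊ : ℝ) + 1) ≤ 2 * ll N := by linarith
      have h10 : ((2 : ℝ)) ^ Rn N ≤ 8 * ll N ^ 2 := by
        have := pow_le_pow_left₀ (by positivity) h9 2
        nlinarith
      have h11 := Real.log_le_log (by positivity) h10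
      rw [Real.log_pow, Real.log_mul (by norm_num) (by positivity), Real.log_pow] at h11
      have h12 : log 8 = 3 * log 2 := by
        rw [show (8 : ℝ) = 2 ^ 3 by norm_num, Real.log_pow]
        push_cast
        rfl
      push_cast at h11
      linarith
    linarith [e1.2, e2.1]
  · rw [hSa, abs_le]
    have e1 := hm 0 (Nat.zero_le _)
    rw [hlogX0] at e1
    constructor <;> linarith [e1.1, e1.2]
  · have e1 : Sb N = pr ⌊exp (3 / 4 * log N)⌋₊ := by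
      unfold Sb Yb
      rw [Real.rpow_def_of_pos hN0, mul_comm]
    have e2 : ∑ p ∈ Sb N, (1 : ℝ) / p = rs (3 / 4 * log N) := by rw [e1]; rfl
    rw [Finset.sum_sdiff_eq_sub hsub, e2, hSa]
    have e3 := hm 0 (Nat.zero_le _)
    rw [hlogX0] at e3
    have e4 := abs_le.1 (hC0 (3 / 4 * log N) (by linarith))
    have e5 : log (3 / 4 * log (N : ℝ)) ≤ ll N := Real.log_le_log (by positivity) (by linarith)
    linarith [e3.1, e4.2]

variable {C : ℝ}

lemma Good.sc_sub (h : Good A p0 N C) {i : ℕ} (hi : i < Rn N + 1) : Sc A p0 N i ⊆ Sa A p0 N := by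
  have h0 : (0 : ℝ) ≤ log N := by linarith [h.hL]
  intro p hp
  have h1 : p ∈ (range (Rn N + 1)).biUnion (Sc A p0 N) := Finset.mem_biUnion.2 ⟨i, Finset.mem_range.2 hi, hp⟩
  rw [Sc_union h.hA h0 h.hp0, bq_end] at h1
  exact h1

lemma Good.sc_sub' (h : Good A p0 N C) {i : ℕ} (hi : i < Rn N + 1) : Sc A p0 N i ⊆ Sb N :=
  (h.sc_sub hi).trans h.sub

lemma Good.disj (h : Good A p0 N C) : ∀ i < Rn N + 1, ∀ j < Rn N + 1, i ≠ j →
    Disjoint (Sc A p0 N i) (Sc A p0 N j) := fun i _ j _ hij =>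
  Sc_disj h.hA (by linarith [h.hL]) h.hp0 hij

lemma Good.union (h : Good A p0 N C) : (range (Rn N + 1)).biUnion (Sc A p0 N) = Sa A p0 N := by
  rw [Sc_union h.hA (by linarith [h.hL]) h.hp0, bq_end]
  rfl

lemma Good.sum (h : Good A p0 N C) (f : ℕ → ℝ) :
    ∑ i ∈ range (Rn N + 1), ∑ p ∈ Sc A p0 N i, f p = ∑ p ∈ Sa A p0 N, f p :=
  sum_Sa h.hA (by linarith [h.hL]) h.hp0 f

lemma Good.le_exp (h : Good A p0 N C) {i : ℕ} (hi : i < Rn N + 1) : ∀ p ∈ Sc A p0 N i, (p : ℝ) ≤ exp (Xi A N i) := by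
  intro p hp
  have h1 := (mem_pr.1 (Finset.mem_sdiff.1 hp).1).1
  have h2 : bq A p0 N i = ⌊exp (Xi A N i)⌋₊ := if_pos (by omega)
  rw [h2] at h1
  calc (p : ℝ) ≤ (⌊exp (Xi A N i)⌋₊ : ℕ) := by exact_mod_cast h1
    _ ≤ _ := Nat.floor_le (exp_pos _).le

lemma Good.gt (h : Good A p0 N C) : ∀ p ∈ Sa A p0 N, p0 < p ∧ p.Prime := by
  intro p hp
  obtain ⟨h1, h2⟩ := Finset.mem_sdiff.1 hp
  have h3 := (mem_pr.1 h1).2
  refine ⟨?_, h3⟩
  by_contra hcon
  exact h2 (mem_pr.2 ⟨by omega, h3⟩)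

lemma Jn_ge (A N i : ℕ) : 2 * A ≤ Jn A N i := by
  unfold Jn
  split_ifs <;> nlinarith

lemma Jn_even (A N i : ℕ) : Even (Jn A N i) := by
  unfold Jn
  split_ifs
  · exact ⟨A * (i + 1), by ring⟩
  · exact ⟨A * (⌈ll N⌉₊ + 1), by ring⟩

lemma sum_geo_A {A : ℕ} (hA : 3 ≤ A) (n : ℕ) : ∑ i ∈ range n, exp (-((A : ℝ) * (i + 1))) ≤ 1 / 10 := by
  have hr : exp (-(A : ℝ)) ≤ 1 / 16 := by
    have h1 : exp (-(A : ℝ)) ≤ exp (-3) := exp_le_exp.2 (by
      have : (3 : ℝ) ≤ A := by exact_mod_cast hA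
      linarith)
    refine h1.trans ?_
    rw [Real.exp_neg, inv_le_comm₀ (exp_pos _) (by norm_num)]
    have h2 := Real.exp_one_gt_d9
    have h3 : exp 3 = exp 1 ^ 3 := by rw [← Real.exp_nat_mul]; norm_num
    rw [h3]
    norm_num
    have h4 : (2.6 : ℝ) ^ 3 ≤ exp 1 ^ 3 := pow_le_pow_left₀ (by norm_num) (by linarith) 3
    norm_num at h4
    linarith
  have e : ∀ i : ℕ, exp (-((A : ℝ) * (i + 1))) = exp (-(A : ℝ)) ^ (i + 1) := by
    intro i
    rw [← Real.exp_nat_mul]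
    congr 1
    push_cast
    ring
  have h5 : ∀ i : ℕ, exp (-((A : ℝ) * (i + 1))) ≤ (1 / 16) * (1 / 16) ^ i := by
    intro i
    rw [e, ← pow_succ']
    exact pow_le_pow_left₀ (exp_pos _).le hr _
  calc ∑ i ∈ range n, exp (-((A : ℝ) * (i + 1))) ≤ ∑ i ∈ range n, (1 / 16) * (1 / 16 : ℝ) ^ i :=
        Finset.sum_le_sum fun i _ => h5 i
    _ = (1 / 16) * ∑ i ∈ range n, (1 / 16 : ℝ) ^ i := by rw [Finset.mul_sum]
    _ ≤ (1 / 16) * (16 / 15) := by
      refine mul_le_mul_of_nonneg_left ?_ (by norm_num)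
      have h6 := Summable.sum_le_tsum (range n) (fun i _ => by positivity)
        (summable_geometric_of_lt_one (r := (1 / 16 : ℝ)) (by norm_num) (by norm_num))
      rw [tsum_geometric_of_lt_one (by norm_num) (by norm_num)] at h6
      norm_num at h6 ⊢
      linarith
    _ ≤ _ := by norm_num

lemma sum_J (hA : 3 ≤ A) : ∑ i ∈ range (Rn N + 1), exp (-((Jn A N i : ℕ) : ℝ) / 2) ≤ 1 / 5 := by
  rw [Finset.sum_range_succ]
  have h1 : ∑ i ∈ range (Rn N), exp (-((Jn A N i : ℕ) : ℝ) / 2) = ∑ i ∈ range (Rn N), exp (-((A : ℝ) * (i + 1))) := by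
    refine Finset.sum_congr rfl fun i hi => ?_
    unfold Jn
    rw [if_pos (Finset.mem_range.1 hi)]
    congr 1
    push_cast
    ring
  have h2 : exp (-((Jn A N (Rn N) : ℕ) : ℝ) / 2) ≤ 1 / 10 := by
    have h3 := sum_geo_A hA 1
    simp only [Finset.sum_range_one, Nat.cast_zero, zero_add, mul_one] at h3
    refine le_trans (exp_le_exp.2 ?_) h3
    have h4 : (2 * A : ℝ) ≤ (Jn A N (Rn N) : ℕ) := by exact_mod_cast Jn_ge A N (Rn N)
    linarith
  rw [h1]
  linarith [sum_geo_A hA (Rn N)]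

lemma sum_half (n : ℕ) : ∑ i ∈ range n, ((i : ℝ) + 1) / 2 ^ i ≤ 4 := by
  have h : ∀ n : ℕ, ∑ i ∈ range n, ((i : ℝ) + 1) / 2 ^ i = 4 - 2 * (n + 2) / 2 ^ n := by
    intro n
    induction n with
    | zero => norm_num
    | succ n ih =>
      rw [Finset.sum_range_succ, ih, pow_succ]
      push_cast
      field_simp
      ring
  rw [h]
  have : 0 ≤ 2 * ((n : ℝ) + 2) / 2 ^ n := by positivity
  linarith

/-- the total length of the mollifier -/
lemma Good.length (h : Good A p0 N C) :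
    ∑ i ∈ range (Rn N + 1), (Jn A N i : ℝ) * Xi A N i ≤ log N / 8 := by
  have hL := h.hL
  have hL0 : 0 < log (N : ℝ) := by linarith
  have hA0 : (0 : ℝ) < A := by exact_mod_cast h.hA
  rw [Finset.sum_range_succ]
  have h1 : ∑ i ∈ range (Rn N), (Jn A N i : ℝ) * Xi A N i = log N / 128 * ∑ i ∈ range (Rn N), ((i : ℝ) + 1) / 2 ^ i := by
    rw [Finset.mul_sum]
    refine Finset.sum_congr rfl fun i hi => ?_
    unfold Jn Xi
    rw [if_pos (Finset.mem_range.1 hi)]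
    push_cast
    field_simp
    ring
  have h2 : (Jn A N (Rn N) : ℝ) * Xi A N (Rn N) ≤ log N / 128 := by
    unfold Jn Xi
    rw [if_neg (lt_irrefl _)]
    have h3 := (two_pow_R N).1
    have h4 : ((⌈ll N⌉₊ : ℝ) + 1) ^ 2 ≤ 2 ^ Rn N := by exact_mod_cast h3
    push_cast
    have h5 : (2 * (A : ℝ) * ((⌈ll N⌉₊ : ℝ) + 1)) * (log N / (256 * A) / 2 ^ Rn N) =
        log N / 128 * (((⌈ll N⌉₊ : ℝ) + 1) / 2 ^ Rn N) := by
      field_simp
      ring
    rw [h5]
    apply mul_le_of_le_one_right (by positivity)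
    rw [div_le_one (by positivity)]
    refine le_trans ?_ h4
    nlinarith [Nat.cast_nonneg (α := ℝ) ⌈ll N⌉₊]
  rw [h1]
  have h6 := mul_le_mul_of_nonneg_left (sum_half (Rn N)) (show 0 ≤ log (N : ℝ) / 128 by positivity)
  linarith

/-- the degrees are large -/
lemma Good.J_ge (h : Good A p0 N C) {K : ℝ} (hK0 : 0 ≤ K) (hK : K * (C + 2) ≤ A) (i : ℕ) (hi : i < Rn N + 1) :
    K * vv A p0 N i ≤ Jn A N i := by
  have hA0 : (0 : ℝ) < A := by exact_mod_cast h.hA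
  by_cases hi2 : i < Rn N
  · have h1 : (2 * A : ℝ) ≤ (Jn A N i : ℕ) := by exact_mod_cast Jn_ge A N i
    have h2 := mul_le_mul_of_nonneg_left (h.v1 i hi2) hK0
    nlinarith
  · have h3 : i = Rn N := by omega
    rw [h3]
    have h2 := mul_le_mul_of_nonneg_left h.v2 hK0
    unfold Jn
    rw [if_neg (lt_irrefl _)]
    have h4 : ll N ≤ ⌈ll N⌉₊ := Nat.le_ceil _
    have h5 : 0 ≤ C := by
      have h6 : 0 ≤ ∑ i ∈ range (Rn N), vv A p0 N i :=
        Finset.sum_nonneg fun i _ => Finset.sum_nonneg fun p _ => by positivity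
      by_contra hcon
      push Not at hcon
      have h7 := h.v1 0 (by
        unfold Rn
        apply Nat.clog_pos (by norm_num)
        have : 1 ≤ ⌈ll N⌉₊ := by
          have : (0 : ℝ) < ⌈ll N⌉₊ := by linarith [h.hll]
          exact_mod_cast this
        nlinarith)
      have h8 : 0 ≤ vv A p0 N 0 := Finset.sum_nonneg fun p _ => by positivity
      linarith
    push_cast
    have h6 : K * (2 * ll N) ≤ A * (2 * ll N) := by
      refine mul_le_mul_of_nonneg_right ?_ (by linarith [h.hll])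
      nlinarith
    nlinarith

end Pool.Agent.H485.CC
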