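import Pool.Agent.H485.CC.Ml5

/-!
# The mollified second moment in the model
-/

set_option autoImplicit false
set_option maxHeartbeats 1000000

open MeasureTheory Real Finset Filter

namespace Pool.Agent.H485.CC

/-- the mollifier -/
noncomputable def Mo (A p0 N : ℕ) (lam : ℕ → ℝ) : ℝ :=
  ∏ i ∈ range (Rn N + 1), tj (Jn A N i) (-PP (Sc A p0 N i) lam)

/-- the sum over the primes of the mollifier -/
noncomputable def VS (A p0 N : ℕ) : ℝ := ∑ p ∈ Sa A p0 N, (1 : ℝ) / p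

/-- the local functions -/
noncomputable def gs (s : ℂ) (p : ℕ) (θ : ℝ) : ℝ :=
  if p.Prime then ‖lf (tp p) (((p : ℕ) : ℂ) ^ (-s)) θ‖ ^ 2 else 1

lemma gs_CB {s : ℂ} (hs : 0 ≤ s.re) (p : ℕ) : CB (gs s p) := by
  by_cases hp : p.Prime
  · have e : gs s p = fun θ => ‖lf (tp p) (((p : ℕ) : ℂ) ^ (-s)) θ‖ ^ 2 := by
      ext θ
      unfold gs
      rw [if_pos hp]
    rw [e]
    refine ⟨(continuous_lf (tp_nonneg p) (tp_le hp) (norm_ps hp hs)).norm.pow 2, 16 ^ 2, fun θ => ?_⟩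
    rw [abs_of_nonneg (sq_nonneg _)]
    exact pow_le_pow_left₀ (norm_nonneg _) (norm_lf_le (tp_nonneg p) (tp_le hp) (norm_ps hp hs) θ) 2
  · have e : gs s p = fun _ => 1 := by
      ext θ
      unfold gs
      rw [if_neg hp]
    rw [e]
    exact CB.const 1

/-- the local bound -/
lemma II_gs : ∃ K : ℝ, 0 ≤ K ∧ ∀ (s : ℂ) (b : ℝ) (p : ℕ), p.Prime → |b| ≤ 6 → 0 ≤ s.re →
    0 ≤ II (gs s) b p ∧ II (gs s) b p ≤ exp ((1 + 2 * b + b ^ 2 / 2) * (1 / p) +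
      2 * |b| * (‖1 - ((p : ℕ) : ℂ) ^ (-s)‖ / p) + K * tp p ^ 3) := by
  obtain ⟨K, hK0, hK⟩ := local_le 6 (by norm_num)
  refine ⟨K, hK0, fun s b p hp hb hs => ?_⟩
  have hw := norm_ps hp hs
  have e : II (gs s) b p = ∫ θ, exp (b * (uu 1 θ * tp p)) * ‖lf (tp p) (((p : ℕ) : ℂ) ^ (-s)) θ‖ ^ 2 ∂st := by
    unfold II gs
    simp only [if_pos hp]
  rw [e]
  refine ⟨integral_nonneg fun θ => by positivity, ?_⟩
  refine (hK (tp p) _ _ (tp_nonneg _) (tp_le hp) hw hb).trans ?_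
  have h2 : ∀ y : ℝ, 1 + y ≤ exp y := fun y => by rw [add_comm]; exact add_one_le_exp y
  refine le_trans ?_ (h2 _)
  rw [tp_sq]
  have hw2 : ‖((p : ℕ) : ℂ) ^ (-s)‖ ^ 2 ≤ 1 := pow_le_one₀ (norm_nonneg _) hw
  have hp0 : (0 : ℝ) ≤ 1 / ((p : ℕ) : ℝ) := by positivity
  have h3 : 2 * b * (((p : ℕ) : ℂ) ^ (-s)).re ≤ 2 * b + 2 * |b| * ‖1 - ((p : ℕ) : ℂ) ^ (-s)‖ := by
    have h4 : |1 - (((p : ℕ) : ℂ) ^ (-s)).re| ≤ ‖1 - ((p : ℕ) : ℂ) ^ (-s)‖ := by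
      have := Complex.abs_re_le_norm (1 - ((p : ℕ) : ℂ) ^ (-s))
      simpa using this
    have h5 : b * ((((p : ℕ) : ℂ) ^ (-s)).re - 1) ≤ |b| * |1 - (((p : ℕ) : ℂ) ^ (-s)).re| := by
      rw [abs_sub_comm, ← abs_mul]
      exact le_abs_self _
    have h6 := mul_le_mul_of_nonneg_left h4 (abs_nonneg b)
    linarith
  have h7 : 1 / ((p : ℕ) : ℝ) * (‖((p : ℕ) : ℂ) ^ (-s)‖ ^ 2 + 2 * b * (((p : ℕ) : ℂ) ^ (-s)).re + b ^ 2 / 2) ≤
      1 / ((p : ℕ) : ℝ) * (1 + (2 * b + 2 * |b| * ‖1 - ((p : ℕ) : ℂ) ^ (-s)‖) + b ^ 2 / 2) :=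
    mul_le_mul_of_nonneg_left (by linarith) hp0
  have h8 : 1 / ((p : ℕ) : ℝ) * (1 + (2 * b + 2 * |b| * ‖1 - ((p : ℕ) : ℂ) ^ (-s)‖) + b ^ 2 / 2) =
    (1 + 2 * b + b ^ 2 / 2) * (1 / ((p : ℕ) : ℝ)) +
      2 * |b| * (‖1 - ((p : ℕ) : ℂ) ^ (-s)‖ / ((p : ℕ) : ℝ)) := by ring
  linarith

/-- products of local bounds -/
lemma prod_II {K : ℝ} {s : ℂ} {b : ℝ} (h : ∀ p : ℕ, p.Prime →
    0 ≤ II (gs s) b p ∧ II (gs s) b p ≤ exp ((1 + 2 * b + b ^ 2 / 2) * (1 / p) +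
      2 * |b| * (‖1 - ((p : ℕ) : ℂ) ^ (-s)‖ / p) + K * tp p ^ 3)) (S : Finset ℕ) (hS : ∀ p ∈ S, p.Prime) :
    0 ≤ ∏ p ∈ S, II (gs s) b p ∧ ∏ p ∈ S, II (gs s) b p ≤ exp ((1 + 2 * b + b ^ 2 / 2) * ∑ p ∈ S, (1 : ℝ) / p +
      2 * |b| * ∑ p ∈ S, ‖1 - ((p : ℕ) : ℂ) ^ (-s)‖ / p + K * ∑ p ∈ S, tp p ^ 3) := by
  refine ⟨Finset.prod_nonneg fun p hp => (h p (hS p hp)).1, ?_⟩
  refine (Finset.prod_le_prod (fun p hp => (h p (hS p hp)).1) fun p hp => (h p (hS p hp)).2).trans ?_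
  rw [← Real.exp_sum, Finset.sum_add_distrib, Finset.sum_add_distrib, ← Finset.mul_sum, ← Finset.mul_sum,
    ← Finset.mul_sum]

variable {A p0 N : ℕ} {C : ℝ}

/-- weights of the majorant -/
noncomputable def wm (A N i : ℕ) : Fin 3 → ℝ :=
  ![1, 3 * exp (-((Jn A N i : ℝ) + 1)), 3 * exp (-((Jn A N i : ℝ) + 1))]

/-- exponents of the majorant -/
noncomputable def cm : Fin 3 → ℝ := ![-2, 6, -6]

lemma Mo_sq_le (lam : ℕ → ℝ) : Mo A p0 N lam ^ 2 ≤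
    ∏ i ∈ range (Rn N + 1), ∑ k : Fin 3, wm A N i k * exp (cm k * PP (Sc A p0 N i) lam) := by
  unfold Mo
  rw [← Finset.prod_pow]
  refine Finset.prod_le_prod (fun i _ => sq_nonneg _) fun i _ => ?_
  refine (tj_sq_maj _ _).trans (le_of_eq ?_)
  rw [Fin.sum_univ_three]
  simp only [wm, cm, Matrix.cons_val_zero, Matrix.cons_val_one, Matrix.cons_val]
  ring

lemma one_add_le {x y : ℝ} (hx : 0 ≤ x) (hy : x ≤ 3 * y) : 1 + x ≤ exp (3 * y) := by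
  have := add_one_le_exp (3 * y)
  linarith

lemma scale_bound {v D T K E J : ℝ} (hv : 0 ≤ v) (hD : D ≤ 2 * v) (hJ : 96 * v ≤ J) {a b c : ℝ}
    (ha : a ≤ exp ((1 + 2 * (-2) + (-2) ^ 2 / 2) * v + 2 * |(-2 : ℝ)| * D + K * T))
    (hb : b ≤ exp ((1 + 2 * 6 + 6 ^ 2 / 2) * v + 2 * |(6 : ℝ)| * D + K * T))
    (hc : c ≤ exp ((1 + 2 * (-6) + (-6) ^ 2 / 2) * v + 2 * |(-6 : ℝ)| * D + K * T))
    (hE : E = exp (-(J + 1))) :
    1 * a + 3 * E * b + 3 * E * c ≤ exp (-v + 4 * D + K * T + 3 * exp (-J / 2)) := by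
  have e1 : (1 + 2 * (-2 : ℝ) + (-2) ^ 2 / 2) * v + 2 * |(-2 : ℝ)| * D + K * T = -v + 4 * D + K * T := by
    rw [abs_neg, abs_two]; ring
  have e2 : (1 + 2 * 6 + (6 : ℝ) ^ 2 / 2) * v + 2 * |(6 : ℝ)| * D + K * T = (-v + 4 * D + K * T) + (32 * v + 8 * D) := by
    rw [abs_of_pos (by norm_num)]; ring
  have e3 : (1 + 2 * (-6) + (-6 : ℝ) ^ 2 / 2) * v + 2 * |(-6 : ℝ)| * D + K * T ≤
      (-v + 4 * D + K * T) + (32 * v + 8 * D) := by
    rw [abs_neg, abs_of_pos (by norm_num : (0 : ℝ) < 6)]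
    linarith
  rw [e1] at ha
  rw [e2] at hb
  have hc' := hc.trans (exp_le_exp.2 e3)
  rw [Real.exp_add] at hb hc'
  set Q := exp (-v + 4 * D + K * T) with hQ
  have hQ0 : 0 < Q := exp_pos _
  have h1 : exp (32 * v + 8 * D) ≤ exp (J / 2) := exp_le_exp.2 (by linarith)
  have hE0 : 0 < E := by rw [hE]; exact exp_pos _
  have h2 : E * exp (J / 2) ≤ (1 / 2) * exp (-J / 2) := by
    rw [hE, ← Real.exp_add]
    have e4 : -(J + 1) + J / 2 = -1 + -J / 2 := by ring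
    rw [e4, Real.exp_add]
    refine mul_le_mul_of_nonneg_right ?_ (exp_pos _).le
    rw [Real.exp_neg, inv_le_comm₀ (exp_pos _) (by norm_num)]
    have := Real.exp_one_gt_d9
    linarith
  have h3 : E * exp (32 * v + 8 * D) ≤ (1 / 2) * exp (-J / 2) :=
    (mul_le_mul_of_nonneg_left h1 hE0.le).trans h2
  have h4 : E * b ≤ Q * ((1 / 2) * exp (-J / 2)) := by
    calc E * b ≤ E * (Q * exp (32 * v + 8 * D)) := mul_le_mul_of_nonneg_left hb hE0.le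
      _ = Q * (E * exp (32 * v + 8 * D)) := by ring
      _ ≤ _ := mul_le_mul_of_nonneg_left h3 hQ0.le
  have h5 : E * c ≤ Q * ((1 / 2) * exp (-J / 2)) := by
    calc E * c ≤ E * (Q * exp (32 * v + 8 * D)) := mul_le_mul_of_nonneg_left hc' hE0.le
      _ = Q * (E * exp (32 * v + 8 * D)) := by ring
      _ ≤ _ := mul_le_mul_of_nonneg_left h3 hQ0.le
  rw [Real.exp_add, ← hQ]
  have h6 : 1 + 3 * exp (-J / 2) ≤ exp (3 * exp (-J / 2)) :=
    one_add_le (by positivity) le_rfl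
  calc 1 * a + 3 * E * b + 3 * E * c ≤ Q + 3 * (Q * ((1 / 2) * exp (-J / 2))) + 3 * (Q * ((1 / 2) * exp (-J / 2))) := by
        linarith
    _ = Q * (1 + 3 * exp (-J / 2)) := by ring
    _ ≤ _ := mul_le_mul_of_nonneg_left h6 hQ0.le

/-- the bound for the Euler product times the mollifier -/
theorem ml_EE : ∃ C1 : ℝ, 0 ≤ C1 ∧ ∀ (A p0 N : ℕ) (C : ℝ), Good A p0 N C → 96 * (C + 2) ≤ A →
    ∀ s : ℂ, 0 ≤ s.re → ∫ x, Mo A p0 N (XX (Sb N) x) ^ 2 * ‖EE (Sb N) s x‖ ^ 2 ∂(mu (Sb N)) ≤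
      exp (-VS A p0 N + C1 + (C + log (256 * A) + p0) + 8 * log (1 + ‖s‖ * Xi A N 0)) := by
  obtain ⟨K, hK0, hK⟩ := II_gs
  obtain ⟨C3, hC30, hC3⟩ := sum_tp3
  obtain ⟨Cd, hCd0, hCd⟩ := sum_dist
  refine ⟨4 * Cd + 2 * (K * C3) + 3 / 5, by positivity, fun A p0 N C hG hA s hs => ?_⟩
  have hG1 : ∀ b : ℝ, |b| ≤ 6 → ∀ p : ℕ, p.Prime → _ := fun b hb p hp => hK s b p hp hb hs
  have hSprime : ∀ p ∈ Sb N, p.Prime := Sb_prime
  have hL0 : (0 : ℝ) ≤ log N := by linarith [hG.hL]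
  -- majorant
  have hmaj : ∀ x : Sb N → ℝ, Mo A p0 N (XX (Sb N) x) ^ 2 * ‖EE (Sb N) s x‖ ^ 2 ≤
      (∏ i ∈ range (Rn N + 1), ∑ k : Fin 3, wm A N i k * exp (cm k * PP (Sc A p0 N i) (XX (Sb N) x))) *
        ∏ p : Sb N, gs s p (x p) := by
    intro x
    have e : ‖EE (Sb N) s x‖ ^ 2 = ∏ p : Sb N, gs s p (x p) := by
      unfold EE
      rw [norm_prod, ← Finset.prod_pow]
      refine Finset.prod_congr rfl fun p _ => ?_
      unfold gs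
      rw [if_pos (hSprime p p.2)]
    rw [← e]
    exact mul_le_mul_of_nonneg_right (Mo_sq_le _) (sq_nonneg _)
  have hCB : CB fun x : Sb N → ℝ => (∏ i ∈ range (Rn N + 1), ∑ k : Fin 3, wm A N i k *
      exp (cm k * PP (Sc A p0 N i) (XX (Sb N) x))) * ∏ p : Sb N, gs s p (x p) := by
    refine CB.mul (CB.prod _ fun i hi => CB.sum _ fun k _ => ?_) (CB.prod _ fun p _ => ?_)
    · exact ((CB.PP hSprime (hG.sc_sub' (mem_range.1 hi))).smul _).exp.smul _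
    · exact (gs_CB hs p).comp (continuous_apply p)
  refine (integral_mono_of_nonneg (Filter.Eventually.of_forall fun x => by positivity) hCB.int
    (Filter.Eventually.of_forall hmaj)).trans ?_
  rw [fac hSprime (Rn N + 1) (Sc A p0 N) (fun i hi => hG.sc_sub' hi) hG.disj (wm A N) (fun _ => cm) (gs s)
    (gs_CB hs), hG.union]
  set dd : ℕ → ℝ := fun p => ‖1 - ((p : ℕ) : ℂ) ^ (-s)‖ / p with hdd
  have hdd0 : ∀ p, 0 ≤ dd p := fun p => by positivity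
  have hScp : ∀ i < Rn N + 1, ∀ p ∈ Sc A p0 N i, p.Prime := fun i hi p hp => hSprime p (hG.sc_sub' hi hp)
  -- scales
  have hscale : ∀ i ∈ range (Rn N + 1), 0 ≤ ∑ k : Fin 3, wm A N i k * ∏ p ∈ Sc A p0 N i, II (gs s) (cm k) p ∧
      ∑ k : Fin 3, wm A N i k * ∏ p ∈ Sc A p0 N i, II (gs s) (cm k) p ≤
      exp (-vv A p0 N i + 4 * (∑ p ∈ Sc A p0 N i, dd p) + K * (∑ p ∈ Sc A p0 N i, tp p ^ 3) +
        3 * exp (-((Jn A N i : ℕ) : ℝ) / 2)) := by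
    intro i hi
    have hi' := mem_range.1 hi
    have p1 := prod_II (hG1 (-2) (by norm_num)) (Sc A p0 N i) (hScp i hi')
    have p2 := prod_II (hG1 6 (by norm_num)) (Sc A p0 N i) (hScp i hi')
    have p3 := prod_II (hG1 (-6) (by norm_num)) (Sc A p0 N i) (hScp i hi')
    rw [Fin.sum_univ_three]
    simp only [wm, cm, Matrix.cons_val_zero, Matrix.cons_val_one, Matrix.cons_val]
    refine ⟨?_, ?_⟩
    · have := p1.1; have := p2.1; have := p3.1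
      positivity
    · have hv0 : 0 ≤ vv A p0 N i := Finset.sum_nonneg fun p _ => by positivity
      refine scale_bound hv0 ?_ ?_ p1.2 p2.2 p3.2 rfl
      · unfold vv
        rw [Finset.mul_sum]
        refine Finset.sum_le_sum fun p hp => ?_
        have hp0 : (0 : ℝ) < p := by exact_mod_cast (hScp i hi' p hp).pos
        calc dd p ≤ 2 / p := div_le_div_of_nonneg_right (one_sub_ps' (hScp i hi' p hp) hs) hp0.le
          _ = _ := by ring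
      · exact hG.J_ge (by norm_num) hA i hi'
  have hprod := Finset.prod_le_prod (fun i hi => (hscale i hi).1) (fun i hi => (hscale i hi).2)
  rw [← Real.exp_sum] at hprod
  -- rest
  have hrp : ∀ p ∈ Sb N \ Sa A p0 N, p.Prime := fun p hp => hSprime p (mem_sdiff.1 hp).1
  have prest := prod_II (hG1 0 (by norm_num)) (Sb N \ Sa A p0 N) hrp
  have h1 : (∏ i ∈ range (Rn N + 1), ∑ k : Fin 3, wm A N i k * ∏ p ∈ Sc A p0 N i, II (gs s) (cm k) p) *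
      ∏ p ∈ Sb N \ Sa A p0 N, II (gs s) 0 p ≤ _ :=
    mul_le_mul hprod prest.2 prest.1 (exp_pos _).le
  refine h1.trans ?_
  rw [← Real.exp_add]
  apply exp_le_exp.2
  rw [Finset.sum_add_distrib, Finset.sum_add_distrib, Finset.sum_add_distrib, ← Finset.mul_sum,
    ← Finset.mul_sum, ← Finset.mul_sum, hG.sum dd, hG.sum (fun p => tp p ^ 3), Finset.sum_neg_distrib]
  have e1 : ∑ i ∈ range (Rn N + 1), vv A p0 N i = VS A p0 N := hG.sum _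
  rw [e1]
  have hA3 : 3 ≤ A := by
    have h5 : 0 ≤ C := by
      by_contra hcon
      push Not at hcon
      have h7 := hG.v1 0 (by
        unfold Rn
        apply Nat.clog_pos (by norm_num)
        have h8 : ll N ≤ ⌈ll N⌉₊ := Nat.le_ceil _
        have : 1 ≤ ⌈ll N⌉₊ := by
          have : (0 : ℝ) < ⌈ll N⌉₊ := by linarith [hG.hll]
          exact_mod_cast this
        nlinarith)
      have h8 : 0 ≤ vv A p0 N 0 := Finset.sum_nonneg fun p _ => by positivity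
      linarith
    have : (3 : ℝ) ≤ A := by linarith
    exact_mod_cast this
  have h2 := sum_J (N := N) hA3
  have h3 := mul_le_mul_of_nonneg_left (hC3 (Sa A p0 N)) hK0
  have h4 := mul_le_mul_of_nonneg_left (hC3 (Sb N \ Sa A p0 N)) hK0
  have h5 := hG.rest
  have h6 : ∑ p ∈ Sa A p0 N, dd p ≤ Cd + 2 * log (1 + ‖s‖ * Xi A N 0) := by
    refine le_trans ?_ (hCd (Xi A N 0) (hG.hX.trans (Xi_anti hG.hA hL0 (Nat.zero_le _))) s hs)
    refine Finset.sum_le_sum_of_subset_of_nonneg ?_ fun p _ _ => hdd0 p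
    unfold Sa
    have : bq A p0 N 0 = ⌊exp (Xi A N 0)⌋₊ := if_pos (Nat.zero_le _)
    rw [this]
    exact Finset.sdiff_subset
  have h7 : (1 + 2 * (0 : ℝ) + 0 ^ 2 / 2) * ∑ p ∈ Sb N \ Sa A p0 N, (1 : ℝ) / p = ∑ p ∈ Sb N \ Sa A p0 N, (1 : ℝ) / p := by
    ring
  rw [h7, abs_zero]
  linarith

end Pool.Agent.H485.CC
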