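import Pool.Agent.H485.CC.Ml6

/-!
# The mollified second moment in the model, with the smooth weight
-/

set_option autoImplicit false
set_option maxHeartbeats 1000000

open MeasureTheory Real Finset Filter

namespace Pool.Agent.H485.CC

/-- the width -/
noncomputable def hv (N : ℕ) : ℝ := log N / 80

/-- the weight -/
noncomputable def V5 (N : ℕ) (n : ℕ) : ℝ := Vw (nu 10 (hv N)) (Zs 10) (2 * π / Real.sqrt N * n)

/-- the truncated sum -/
noncomputable def S5 (N : ℕ) (lam : ℕ → ℝ) : ℝ := ∑ n ∈ Finset.Icc 1 (Yb N), (tp n * V5 N n) * lam n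

lemma hv_pos {N : ℕ} (h : 1 ≤ log (N : ℝ)) : 0 < hv N := by
  unfold hv
  have : 0 < log (N : ℝ) := by linarith
  positivity

lemma mh5 (N : ℕ) : ((10 : ℕ) : ℝ) * hv N = log N / 8 := by
  unfold hv
  push_cast
  ring

lemma V5_nonneg (N n : ℕ) : 0 ≤ V5 N n := integral_nonneg fun _ => (exp_pos _).le

/-- the decay of the weight -/
lemma V5_le {N : ℕ} (h : 1 ≤ log (N : ℝ)) (n : ℕ) :
    V5 N n ≤ exp (-(2 * π * (N : ℝ) ^ (-(5 / 8) : ℝ) * n)) := by
  have hN0 := pos_of_log h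
  have := nu_prob 10 (hv_pos h)
  refine (Vw_le (Zs_meas _) (Zs_ae _ (hv_pos h)) (by positivity)).trans (le_of_eq ?_)
  rw [mh5]
  congr 2
  have e1 : exp (-(log N / 8)) = (N : ℝ) ^ (-(1 / 8) : ℝ) := by
    rw [Real.rpow_def_of_pos hN0]
    congr 1
    ring
  rw [e1, Real.sqrt_eq_rpow, div_eq_mul_inv, ← Real.rpow_neg hN0.le]
  have e2 : (N : ℝ) ^ (-(5 / 8) : ℝ) = (N : ℝ) ^ (-(1 / 2) : ℝ) * (N : ℝ) ^ (-(1 / 8) : ℝ) := by
    rw [← Real.rpow_add hN0]
    norm_num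
  rw [e2]
  ring

theorem tail5 : ∀ᶠ N : ℕ in atTop, ∀ a : ℕ → ℝ, (∀ n, |a n| ≤ n) →
    |∑' n : ℕ, a n * V5 N n - ∑ n ∈ Finset.Icc 1 (Yb N), a n * V5 N n| ≤ 1 / N := by
  filter_upwards [ev_tiny, ev_log 100] with N h1 h2 a ha
  have hlog : 1 ≤ log (N : ℝ) := by linarith
  have hN0 := pos_of_log hlog
  set α : ℝ := 2 * π * (N : ℝ) ^ (-(5 / 8) : ℝ) with hα
  have hα0 : 0 < α := by positivity
  have hNe : (N : ℝ) = exp (log N) := (Real.exp_log hN0).symm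
  have hα1 : α / 2 ≤ 1 := by
    have e1 : (N : ℝ) ^ (-(5 / 8) : ℝ) ≤ exp (-50) := by
      rw [Real.rpow_def_of_pos hN0]
      apply exp_le_exp.2
      linarith
    have e2 : exp (-50) ≤ 1 / 50 := by
      rw [Real.exp_neg, ← one_div]
      apply one_div_le_one_div_of_le (by norm_num)
      have := add_one_le_exp (50 : ℝ)
      linarith
    have := Real.pi_lt_four
    nlinarith [Real.pi_pos]
  have hb : ∀ n : ℕ, |a n * V5 N n| ≤ (n : ℝ) * exp (-(α * n)) := by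
    intro n
    rw [abs_mul, abs_of_nonneg (V5_nonneg N n)]
    exact mul_le_mul (ha n) (V5_le hlog n) (V5_nonneg N n) (Nat.cast_nonneg n)
  have hsum : Summable fun n : ℕ => a n * V5 N n :=
    Summable.of_norm_bounded (sum_exp hα0) fun n => by rw [Real.norm_eq_abs]; exact hb n
  have ha0 : a 0 * V5 N 0 = 0 := by
    have := ha 0
    simp only [Nat.cast_zero, abs_nonpos_iff] at this
    rw [this, zero_mul]
  have e1 : ∑ n ∈ Finset.Icc 1 (Yb N), a n * V5 N n = ∑ n ∈ range (Yb N + 1), a n * V5 N n := by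
    rw [Finset.range_eq_Ico, Finset.sum_eq_sum_Ico_succ_bot (by omega), ha0, zero_add]
    rfl
  rw [e1, ← hsum.sum_add_tsum_nat_add (Yb N + 1), add_sub_cancel_left]
  obtain ⟨g1, g2⟩ := geo_tail (r := α / 2) (by positivity) hα1
  have hY : (N : ℝ) ^ (3 / 4 : ℝ) ≤ (Yb N : ℝ) + 1 := (Nat.lt_floor_add_one _).le
  have h3 : ∀ n : ℕ, ‖a (n + (Yb N + 1)) * V5 N (n + (Yb N + 1))‖ ≤
      exp (-(α / 2 * (N : ℝ) ^ (3 / 4 : ℝ))) *
        (((n + (Yb N + 1) : ℕ) : ℝ) * exp (-(α / 2 * ((n + (Yb N + 1) : ℕ) : ℝ)))) := by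
    intro n
    rw [Real.norm_eq_abs]
    refine (hb _).trans ?_
    have e2 : exp (-(α * ((n + (Yb N + 1) : ℕ) : ℝ))) ≤ exp (-(α / 2 * (N : ℝ) ^ (3 / 4 : ℝ))) *
        exp (-(α / 2 * ((n + (Yb N + 1) : ℕ) : ℝ))) := by
      rw [← Real.exp_add]
      apply exp_le_exp.2
      have e3 : (N : ℝ) ^ (3 / 4 : ℝ) ≤ ((n + (Yb N + 1) : ℕ) : ℝ) := by
        push_cast
        have : (0 : ℝ) ≤ n := Nat.cast_nonneg n
        linarith
      nlinarith [mul_le_mul_of_nonneg_left e3 (show 0 ≤ α / 2 by positivity)]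
    calc ((n + (Yb N + 1) : ℕ) : ℝ) * exp (-(α * ((n + (Yb N + 1) : ℕ) : ℝ))) ≤
        ((n + (Yb N + 1) : ℕ) : ℝ) * (exp (-(α / 2 * (N : ℝ) ^ (3 / 4 : ℝ))) *
        exp (-(α / 2 * ((n + (Yb N + 1) : ℕ) : ℝ)))) :=
          mul_le_mul_of_nonneg_left e2 (Nat.cast_nonneg _)
      _ = _ := by ring
  have g3 : Summable fun n : ℕ => exp (-(α / 2 * (N : ℝ) ^ (3 / 4 : ℝ))) *
        (((n + (Yb N + 1) : ℕ) : ℝ) * exp (-(α / 2 * ((n + (Yb N + 1) : ℕ) : ℝ)))) :=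
    ((summable_nat_add_iff (Yb N + 1)).2 g1).mul_left _
  rw [← Real.norm_eq_abs]
  refine (tsum_of_norm_bounded g3.hasSum h3).trans ?_
  rw [tsum_mul_left]
  have g4 : ∑' n : ℕ, (((n + (Yb N + 1) : ℕ) : ℝ) * exp (-(α / 2 * ((n + (Yb N + 1) : ℕ) : ℝ)))) ≤
      4 / (α / 2) ^ 2 := by
    refine le_trans ?_ g2
    rw [← g1.sum_add_tsum_nat_add (Yb N + 1)]
    have : 0 ≤ ∑ i ∈ range (Yb N + 1), (i : ℝ) * exp (-(α / 2 * i)) :=
      Finset.sum_nonneg fun i _ => by positivity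
    linarith
  have g5 : α / 2 * (N : ℝ) ^ (3 / 4 : ℝ) = π * (N : ℝ) ^ (1 / 8 : ℝ) := by
    rw [hα]
    have : (N : ℝ) ^ (-(5 / 8) : ℝ) * (N : ℝ) ^ (3 / 4 : ℝ) = (N : ℝ) ^ (1 / 8 : ℝ) := by
      rw [← Real.rpow_add hN0]; norm_num
    rw [← this]
    ring
  have g6 : 4 / (α / 2) ^ 2 ≤ (N : ℝ) ^ (5 / 4 : ℝ) := by
    have e4 : (α / 2) ^ 2 = π ^ 2 * (N : ℝ) ^ (-(5 / 4) : ℝ) := by
      rw [hα]
      have : ((N : ℝ) ^ (-(5 / 8) : ℝ)) ^ 2 = (N : ℝ) ^ (-(5 / 4) : ℝ) := by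
        rw [← Real.rpow_natCast, ← Real.rpow_mul hN0.le]; norm_num
      rw [← this]
      ring
    rw [e4, Real.rpow_neg hN0.le, div_le_iff₀ (by positivity)]
    have e5 : (N : ℝ) ^ (5 / 4 : ℝ) * (π ^ 2 * ((N : ℝ) ^ (5 / 4 : ℝ))⁻¹) = π ^ 2 := by
      field_simp
    rw [e5]
    nlinarith [Real.pi_gt_three]
  calc exp (-(α / 2 * (N : ℝ) ^ (3 / 4 : ℝ))) * _ ≤
        exp (-((N : ℝ) ^ (1 / 8 : ℝ))) * (N : ℝ) ^ (5 / 4 : ℝ) := by
        refine mul_le_mul ?_ (g4.trans g6) (tsum_nonneg fun n => by positivity) (exp_pos _).le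
        rw [g5]
        apply exp_le_exp.2
        have : 0 ≤ (N : ℝ) ^ (1 / 8 : ℝ) := by positivity
        nlinarith [Real.pi_gt_three]
    _ = (N : ℝ) ^ (5 / 4 : ℝ) * exp (-((N : ℝ) ^ (1 / 8 : ℝ))) := mul_comm _ _
    _ ≤ _ := h1

/-- the random sum with the parameters -/
noncomputable def Q5 (N : ℕ) (x : Sb N → ℝ) : ℝ :=
  SX (Sb N) (2 * 5) (hv N) (2 * π / Real.sqrt N) x

lemma Q5_eq (N : ℕ) (x : Sb N → ℝ) : Q5 N x = ∑' n : ℕ, ax N x n * V5 N n := by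
  unfold Q5 SX
  rw [tsum_subtype (Nat.factoredNumbers (Sb N)) (fun n => XX (Sb N) x n * tp n *
    Vw (nu (2 * 5) (hv N)) (Zs (2 * 5)) (2 * π / Real.sqrt N * (n : ℕ)))]
  refine tsum_congr fun n => ?_
  unfold ax V5
  by_cases h : n ∈ Nat.factoredNumbers (Sb N)
  · rw [Set.indicator_of_mem h, Set.indicator_of_mem h]
  · rw [Set.indicator_of_notMem h, Set.indicator_of_notMem h, zero_mul]

lemma S5_eq (N : ℕ) (x : Sb N → ℝ) :
    S5 N (XX (Sb N) x) = ∑ n ∈ Finset.Icc 1 (Yb N), ax N x n * V5 N n := by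
  unfold S5 ax
  refine Finset.sum_congr rfl fun n hn => ?_
  rw [Finset.mem_Icc] at hn
  have h : n ∈ Nat.factoredNumbers (Sb N) := by
    apply Nat.mem_factoredNumbers_of_primeFactors_subset (by omega)
    intro p hp
    exact mem_Sb hn.2 hn.1 hp
  rw [Set.indicator_of_mem h]
  ring

lemma Q5_CB {N : ℕ} (h : 1 ≤ log (N : ℝ)) : CB (Q5 N) := by
  have hN0 := pos_of_log h
  have hα : 0 < 2 * π * (N : ℝ) ^ (-(5 / 8) : ℝ) := by positivity
  have hb : ∀ (n : ℕ) (x : Sb N → ℝ), ‖ax N x n * V5 N n‖ ≤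
      (n : ℝ) * exp (-(2 * π * (N : ℝ) ^ (-(5 / 8) : ℝ) * n)) := by
    intro n x
    rw [Real.norm_eq_abs, abs_mul, abs_of_nonneg (V5_nonneg N n)]
    exact mul_le_mul (abs_ax x n) (V5_le h n) (V5_nonneg N n) (Nat.cast_nonneg n)
  have hc : ∀ n : ℕ, Continuous fun x : Sb N → ℝ => ax N x n * V5 N n := by
    intro n
    refine Continuous.mul ?_ continuous_const
    unfold ax
    by_cases h : n ∈ Nat.factoredNumbers (Sb N)
    · simp only [Set.indicator_of_mem h]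
      exact (continuous_XX n).mul continuous_const
    · simp only [Set.indicator_of_notMem h]
      exact continuous_const
  have e : Q5 N = fun x => ∑' n : ℕ, ax N x n * V5 N n := by
    ext x
    exact Q5_eq N x
  rw [e]
  refine ⟨continuous_tsum hc (sum_exp hα) hb,
    ∑' n : ℕ, (n : ℝ) * exp (-(2 * π * (N : ℝ) ^ (-(5 / 8) : ℝ) * n)), fun x => ?_⟩
  rw [← Real.norm_eq_abs]
  exact tsum_of_norm_bounded (sum_exp hα).hasSum (fun n => hb n x)

lemma obs_S5 (N : ℕ) : Obs (Sb N) (Yb N) (S5 N) := by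
  unfold S5
  refine Obs.sum (Finset.Icc 1 (Yb N)) (fun n lam => (tp n * V5 N n) * lam n) fun n hn => ?_
  rw [Finset.mem_Icc] at hn
  refine Obs.single ⟨hn.1, fun p hp => mem_Sb hn.2 hn.1 hp⟩ (by exact_mod_cast hn.2) _

/-- the mollifier in the model is continuous and bounded -/
lemma tj_CB {X : Type} [TopologicalSpace X] (J : ℕ) {F : X → ℝ} (hF : CB F) : CB fun x => tj J (F x) := by
  unfold tj
  exact CB.sum _ fun j _ => (hF.pow j).smul _

variable {A p0 N : ℕ} {C : ℝ}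

lemma Mo_CB (hG : Good A p0 N C) : CB fun x : Sb N → ℝ => Mo A p0 N (XX (Sb N) x) := by
  unfold Mo
  refine CB.prod _ fun i hi => tj_CB _ ?_
  have h := (CB.PP (S := Sb N) Sb_prime (hG.sc_sub' (mem_range.1 hi))).smul (-1)
  simpa using h

/-- the second moment in the model -/
theorem model_second2 : ∃ C1 : ℝ, 0 ≤ C1 ∧ ∀ (A p0 N : ℕ) (C : ℝ), Good A p0 N C → 96 * (C + 2) ≤ A →
    ∫ x, (Mo A p0 N (XX (Sb N) x) * Q5 N x) ^ 2 ∂(mu (Sb N)) ≤
      exp (-VS A p0 N + C1 + (C + log (256 * A) + p0)) := by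
  obtain ⟨C1, hC10, hC1⟩ := ml_EE
  refine ⟨C1 + log (44236800 * 4096), add_nonneg hC10 (Real.log_nonneg (by norm_num)),
    fun A p0 N C hG hA => ?_⟩
  have hL100 := hG.hL
  have hL1 : 1 ≤ log (N : ℝ) := by linarith
  have hL0 : 0 < log (N : ℝ) := by linarith
  have hN0 := pos_of_log hL1
  set σ : ℝ := 1 / log (N : ℝ) with hσ
  have hσ0 : 0 < σ := by positivity
  have hσ1 : σ ≤ 1 := by rw [hσ, div_le_one hL0]; exact hL1
  have hhp : 0 < hv N := hv_pos hL1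
  have hmσ : ((2 * 5 : ℕ) : ℝ) * (σ * hv N) ≤ 1 := by
    have : ((2 * 5 : ℕ) : ℝ) * (σ * hv N) = 1 / 8 := by
      rw [hσ]; unfold hv; push_cast; field_simp; norm_num
    rw [this]; norm_num
  have hA0 : (1 : ℝ) ≤ A := by exact_mod_cast hG.hA
  set B := exp (-VS A p0 N + C1 + (C + log (256 * A) + p0)) with hB
  have hB0 : 0 < B := exp_pos _
  have hmain : ∀ τ : ℝ, ph (1 / hv N) τ ^ (5 - 1) *
      ∫ x, Mo A p0 N (XX (Sb N) x) ^ 2 * ‖EE (Sb N) (σ + τ * Complex.I) x‖ ^ 2 ∂(mu (Sb N)) ≤ 4096 * B := by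
    intro τ
    have hs : 0 ≤ ((σ : ℂ) + τ * Complex.I).re := by rw [re_line]; exact hσ0.le
    have h1 := hC1 A p0 N C hG hA _ hs
    have h2 : ‖((σ : ℂ) + τ * Complex.I)‖ ≤ σ + |τ| := by
      refine (norm_add_le _ _).trans (le_of_eq ?_)
      rw [Complex.norm_real, norm_mul, Complex.norm_real, Complex.norm_I, mul_one, Real.norm_eq_abs,
        Real.norm_eq_abs, abs_of_pos hσ0]
    set z : ℝ := (hv N * τ) ^ 2 with hz
    have hz0 : 0 ≤ z := sq_nonneg _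
    have h3 : ‖((σ : ℂ) + τ * Complex.I)‖ * Xi A N 0 ≤ (1 + |τ| * log N) / 256 := by
      have h4 : Xi A N 0 ≤ log N / 256 := by
        unfold Xi
        rw [pow_zero, div_one]
        apply div_le_div_of_nonneg_left hL0.le (by norm_num)
        linarith
      have h5 : 0 ≤ Xi A N 0 := by unfold Xi; positivity
      calc ‖((σ : ℂ) + τ * Complex.I)‖ * Xi A N 0 ≤ (σ + |τ|) * (log N / 256) :=
            mul_le_mul h2 h4 h5 (by positivity)
        _ = _ := by rw [hσ]; field_simp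
    have h4 : |τ| * log N = 80 * |hv N * τ| := by
      rw [abs_mul, abs_of_pos hhp]; unfold hv; ring
    have h5 : 1 + ‖((σ : ℂ) + τ * Complex.I)‖ * Xi A N 0 ≤ 2 * (1 + |hv N * τ|) := by
      rw [h4] at h3
      have := abs_nonneg (hv N * τ)
      linarith
    have h6 : (1 + ‖((σ : ℂ) + τ * Complex.I)‖ * Xi A N 0) ^ 2 ≤ 8 * (1 + z) := by
      have h60 : 0 ≤ 1 + ‖((σ : ℂ) + τ * Complex.I)‖ * Xi A N 0 := by
        have : 0 ≤ Xi A N 0 := by unfold Xi; positivity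
        positivity
      have h7 : (1 + ‖((σ : ℂ) + τ * Complex.I)‖ * Xi A N 0) ^ 2 ≤ (2 * (1 + |hv N * τ|)) ^ 2 :=
        pow_le_pow_left₀ h60 h5 2
      have h8 : (2 * (1 + |hv N * τ|)) ^ 2 ≤ 8 * (1 + z) := by
        rw [hz, ← sq_abs (hv N * τ)]
        nlinarith [sq_nonneg (|hv N * τ| - 1)]
      exact h7.trans h8
    have h7 : exp (8 * log (1 + ‖((σ : ℂ) + τ * Complex.I)‖ * Xi A N 0)) ≤ 4096 * (1 + z) ^ 4 := by
      have h70 : 0 < 1 + ‖((σ : ℂ) + τ * Complex.I)‖ * Xi A N 0 := by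
        have : 0 ≤ Xi A N 0 := by unfold Xi; positivity
        positivity
      have e : exp (8 * log (1 + ‖((σ : ℂ) + τ * Complex.I)‖ * Xi A N 0)) =
          ((1 + ‖((σ : ℂ) + τ * Complex.I)‖ * Xi A N 0) ^ 2) ^ 4 := by
        rw [← pow_mul, show (8 : ℝ) = ((8 : ℕ) : ℝ) by norm_num, Real.exp_nat_mul, Real.exp_log h70]
      rw [e]
      calc ((1 + ‖((σ : ℂ) + τ * Complex.I)‖ * Xi A N 0) ^ 2) ^ 4 ≤ (8 * (1 + z)) ^ 4 :=
            pow_le_pow_left₀ (sq_nonneg _) h6 4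
        _ = _ := by ring
    have h8 : ph (1 / hv N) τ = (1 + z)⁻¹ := by
      unfold ph
      rw [hz, div_div_eq_mul_div, div_one, mul_comm]
    rw [Real.exp_add, ← hB] at h1
    have h9 : (0 : ℝ) < 1 + z := by linarith
    calc ph (1 / hv N) τ ^ (5 - 1) * ∫ x, Mo A p0 N (XX (Sb N) x) ^ 2 *
          ‖EE (Sb N) (σ + τ * Complex.I) x‖ ^ 2 ∂(mu (Sb N)) ≤ ((1 + z)⁻¹) ^ 4 * (B * (4096 * (1 + z) ^ 4)) := by
          rw [h8]
          refine mul_le_mul_of_nonneg_left (h1.trans (mul_le_mul_of_nonneg_left h7 hB0.le)) (by positivity)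
      _ = 4096 * B := by field_simp
  have key := model_bound2 (S := Sb N) Sb_prime (k := 5) (by norm_num) hhp hσ0 hmσ
    (c := 2 * π / Real.sqrt N) (by positivity) (Mo_CB hG) hmain
  have g2 : ((2 * π / Real.sqrt N) ^ (-σ)) ^ 2 ≤ 3 := by
    have hsN : 0 < Real.sqrt N := Real.sqrt_pos.2 hN0
    have e1 : (2 * π / Real.sqrt N) ^ (-σ) ≤ (N : ℝ) ^ (σ / 2) := by
      rw [Real.rpow_neg (by positivity), ← Real.inv_rpow (by positivity), inv_div]
      calc (Real.sqrt N / (2 * π)) ^ σ ≤ (Real.sqrt N) ^ σ := by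
            apply Real.rpow_le_rpow (by positivity) _ hσ0.le
            apply div_le_self hsN.le
            linarith [Real.pi_gt_three]
        _ = (N : ℝ) ^ (σ / 2) := by
            rw [Real.sqrt_eq_rpow, ← Real.rpow_mul hN0.le]
            congr 1
            ring
    calc ((2 * π / Real.sqrt N) ^ (-σ)) ^ 2 ≤ ((N : ℝ) ^ (σ / 2)) ^ 2 :=
          pow_le_pow_left₀ (by positivity) e1 2
      _ = exp 1 := by
          rw [← Real.rpow_natCast, ← Real.rpow_mul hN0.le, Real.rpow_def_of_pos hN0]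
          congr 1
          rw [hσ]
          push_cast
          field_simp
      _ ≤ 3 := by have := Real.exp_one_lt_d9; linarith
  have g3 : Real.Gamma σ ≤ log N := by
    have := gamma_le hσ0 hσ1
    rwa [hσ, one_div_one_div] at this
  have hG0 : 0 < Real.Gamma σ := Real.Gamma_pos_of_pos hσ0
  have g5 : Real.Gamma σ * (1 / hv N) ≤ 80 := by
    calc Real.Gamma σ * (1 / hv N) ≤ log N * (1 / hv N) :=
          mul_le_mul_of_nonneg_right g3 (by positivity)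
      _ = 80 := by unfold hv; field_simp
  have g6 : (Real.Gamma σ * (1 / hv N)) ^ 2 ≤ 80 ^ 2 :=
    pow_le_pow_left₀ (by positivity) g5 2
  refine key.trans ?_
  calc ((2 * π / Real.sqrt N) ^ (-σ) * Real.Gamma σ / (2 * π)) ^ 2 * ((3 * 2 ^ 5) * (π / hv N)) *
        (((3 * 2 ^ 5) * (4096 * B)) * (π / hv N)) =
      2304 * (((2 * π / Real.sqrt N) ^ (-σ)) ^ 2 * (Real.Gamma σ * (1 / hv N)) ^ 2) * (4096 * B) := by
        field_simp
        ring
    _ ≤ 2304 * (3 * 80 ^ 2) * (4096 * B) := by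
        refine mul_le_mul_of_nonneg_right ?_ (by positivity)
        refine mul_le_mul_of_nonneg_left ?_ (by norm_num)
        exact mul_le_mul g2 g6 (by positivity) (by norm_num)
    _ = (44236800 * 4096) * B := by ring
    _ = _ := by
        rw [hB]
        nth_rewrite 1 [← Real.exp_log (show (0 : ℝ) < 44236800 * 4096 by norm_num)]
        rw [← Real.exp_add]
        congr 1
        ring

end Pool.Agent.H485.CC
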