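import Pool.Agent.H485.CC.Ml7

/-!
# The mollifier as an observable, and the first moment in the model
-/

set_option autoImplicit false
set_option maxHeartbeats 1000000

open MeasureTheory Real Finset Filter

namespace Pool.Agent.H485.CC

/-- partial products of the mollifier -/
noncomputable def Mk (A p0 N n : ℕ) (lam : ℕ → ℝ) : ℝ :=
  ∏ i ∈ range n, tj (Jn A N i) (-PP (Sc A p0 N i) lam)

variable {A p0 N : ℕ} {C : ℝ}

lemma Mo_eq (A p0 N : ℕ) (lam : ℕ → ℝ) : Mo A p0 N lam = Mk A p0 N (Rn N + 1) lam := rfl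

/-- the partial products are observables -/
lemma obs_Mk (hG : Good A p0 N C) {D : ℝ} (hD : 0 ≤ D) {F : (ℕ → ℝ) → ℝ} (hF : Obs (Sb N) D F) (n : ℕ)
    (hn : n ≤ Rn N + 1) :
    Obs (Sb N) (exp (∑ i ∈ range n, (Jn A N i : ℝ) * Xi A N i) * D) fun lam => Mk A p0 N n lam * F lam := by
  induction n with
  | zero => simpa [Mk] using hF
  | succ n ih =>
    have ih' := ih (by omega)
    have hsub := hG.sc_sub' (show n < Rn N + 1 by omega)
    have hX0 : 0 ≤ Xi A N n := by
      unfold Xi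
      have := hG.hL
      have : 0 ≤ log (N : ℝ) := by linarith
      positivity
    have hz : 1 ≤ exp (Xi A N n) := Real.one_le_exp hX0
    have hA' : ∀ (D : ℝ) (F : (ℕ → ℝ) → ℝ), 0 ≤ D → Obs (Sb N) D F →
        Obs (Sb N) (exp (Xi A N n) * D) fun lam => (-PP (Sc A p0 N n) lam) * F lam := by
      intro D F hD hF
      have := hF.mul_lin Sb_prime hsub (hG.le_exp (show n < Rn N + 1 by omega)) hD (fun p => -tp p)
      refine this.congr fun lam _ => ?_
      unfold PP
      rw [← Finset.sum_neg_distrib]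
      congr 1
      exact Finset.sum_congr rfl fun p _ => by ring
    have h := Obs.mul_poly hz hA' (by positivity) ih' (Jn A N n) (fun j => 1 / (j.factorial : ℝ))
    have e : exp (Xi A N n) ^ Jn A N n * (exp (∑ i ∈ range n, (Jn A N i : ℝ) * Xi A N i) * D) =
        exp (∑ i ∈ range (n + 1), (Jn A N i : ℝ) * Xi A N i) * D := by
      rw [Finset.sum_range_succ, Real.exp_add, ← Real.exp_nat_mul]
      ring
    rw [e] at h
    refine h.congr fun lam _ => ?_
    unfold Mk tj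
    rw [Finset.prod_range_succ]
    ring

lemma len_mono (hG : Good A p0 N C) {n : ℕ} (hn : n ≤ Rn N + 1) :
    exp (∑ i ∈ range n, (Jn A N i : ℝ) * Xi A N i) ≤ (N : ℝ) ^ (1 / 8 : ℝ) := by
  have hL := hG.hL
  have hN0 := pos_of_log (show 1 ≤ log (N : ℝ) by linarith)
  rw [Real.rpow_def_of_pos hN0]
  apply exp_le_exp.2
  have h1 : ∑ i ∈ range n, (Jn A N i : ℝ) * Xi A N i ≤ ∑ i ∈ range (Rn N + 1), (Jn A N i : ℝ) * Xi A N i := by
    refine Finset.sum_le_sum_of_subset_of_nonneg (range_mono hn) fun i _ _ => ?_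
    have : 0 ≤ log (N : ℝ) := by linarith
    unfold Xi
    positivity
  linarith [hG.length]

lemma obs_Mk' (hG : Good A p0 N C) {n : ℕ} (hn : n ≤ Rn N + 1) :
    Obs (Sb N) ((N : ℝ) ^ (1 / 8 : ℝ)) (Mk A p0 N n) := by
  have h1 : Obs (Sb N) 1 fun _ => 1 := Obs.const le_rfl 1
  have h := obs_Mk hG zero_le_one h1 n hn
  rw [mul_one] at h
  exact (h.mono (len_mono hG hn)).congr fun lam _ => mul_one _

lemma obs_SM (hG : Good A p0 N C) :
    Obs (Sb N) ((N : ℝ) ^ (1 - 1 / 8 : ℝ)) fun lam => Mo A p0 N lam * S5 N lam := by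
  have h := obs_Mk hG (Nat.cast_nonneg _) (obs_S5 N) (Rn N + 1) le_rfl
  have hL := hG.hL
  have hN0 := pos_of_log (show 1 ≤ log (N : ℝ) by linarith)
  refine h.mono ?_
  have h4 : ((Yb N : ℕ) : ℝ) ≤ (N : ℝ) ^ (3 / 4 : ℝ) := Nat.floor_le (by positivity)
  have h5 : (N : ℝ) ^ (1 / 8 : ℝ) * (N : ℝ) ^ (3 / 4 : ℝ) = (N : ℝ) ^ (1 - 1 / 8 : ℝ) := by
    rw [← Real.rpow_add hN0]; norm_num
  rw [← h5]
  exact mul_le_mul (len_mono hG le_rfl) h4 (Nat.cast_nonneg _) (by positivity)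

/-- the coefficients of the local factor -/
lemma lr_coef {t : ℝ} (ht0 : 0 ≤ t) (ht : t ≤ 3 / 4) (v : ℕ) : ∫ θ, lr t θ * uu v θ ∂st = t ^ v := by
  have hb : ∀ (a : ℕ) (θ : ℝ), ‖(uu a θ * uu v θ) * t ^ a‖ ≤ ((v : ℝ) + 1) * (((a : ℝ) + 1) * (3 / 4 : ℝ) ^ a) := by
    intro a θ
    rw [norm_mul, norm_mul, norm_pow, Real.norm_eq_abs, Real.norm_eq_abs, Real.norm_eq_abs, abs_of_nonneg ht0]
    calc |uu a θ| * |uu v θ| * t ^ a ≤ (((a : ℝ) + 1) * ((v : ℝ) + 1)) * (3 / 4 : ℝ) ^ a := by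
          refine mul_le_mul (mul_le_mul (abs_uu_le a θ) (abs_uu_le v θ) (abs_nonneg _) (by positivity))
            (pow_le_pow_left₀ ht0 ht a) (by positivity) (by positivity)
      _ = _ := by ring
  have h1 : ∀ θ, HasSum (fun a : ℕ => (uu a θ * uu v θ) * t ^ a) (lr t θ * uu v θ) := by
    intro θ
    have h := lf_hasSum ht0 ht (w := 1) (by simp) θ
    rw [lf_one] at h
    have e : (fun a : ℕ => (uu a θ : ℂ) * ((t : ℂ) * 1) ^ a) = fun a : ℕ => ((uu a θ * t ^ a : ℝ) : ℂ) := by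
      ext a
      push_cast
      rw [mul_one]
    rw [e] at h
    have h2 : HasSum (fun a : ℕ => uu a θ * t ^ a) (lr t θ) := by exact_mod_cast h
    have h3 := h2.mul_right (uu v θ)
    refine h3.congr_fun ?_ |> id
    intro a
    ring
  have hi : ∀ a : ℕ, Integrable (fun θ => (uu a θ * uu v θ) * t ^ a) st := by
    intro a
    exact integrable_st (C := ((v : ℝ) + 1) * (((a : ℝ) + 1) * (3 / 4 : ℝ) ^ a))
      (((continuous_uu a).mul (continuous_uu v)).mul continuous_const) fun θ => hb a θ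
  have hs : Summable fun a : ℕ => ∫ θ, ‖(uu a θ * uu v θ) * t ^ a‖ ∂st := by
    refine Summable.of_nonneg_of_le (fun a => integral_nonneg fun _ => norm_nonneg _) (fun a => ?_)
      (geo_sum.mul_left ((v : ℝ) + 1))
    calc ∫ θ, ‖(uu a θ * uu v θ) * t ^ a‖ ∂st ≤ ∫ _, ((v : ℝ) + 1) * (((a : ℝ) + 1) * (3 / 4 : ℝ) ^ a) ∂st :=
          integral_mono (hi a).norm (integrable_const _) (hb a)
      _ = _ := by simp
  have h2 := integral_tsum_of_summable_integral_norm hi hs
  have h3 : ∀ θ, ∑' a : ℕ, (uu a θ * uu v θ) * t ^ a = lr t θ * uu v θ := fun θ => (h1 θ).tsum_eq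
  simp_rw [h3] at h2
  rw [← h2]
  have h4 : ∀ a : ℕ, ∫ θ, (uu a θ * uu v θ) * t ^ a ∂st = if a = v then t ^ v else 0 := by
    intro a
    rw [integral_mul_const, orth_st]
    split_ifs with h
    · subst h; simp
    · simp
  simp_rw [h4]
  rw [tsum_ite_eq]

variable {S : Finset ℕ}

/-- the Euler product at the central point -/
noncomputable def EL (S : Finset ℕ) (x : S → ℝ) : ℝ := ∏ p : S, lr (tp p) (x p)

lemma EL_pos (hS : ∀ p ∈ S, p.Prime) (x : S → ℝ) : 0 < EL S x :=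
  Finset.prod_pos fun p _ => lr_pos (tp_nonneg _) (tp_le (hS p p.2)) _

lemma EL_CB (hS : ∀ p ∈ S, p.Prime) : CB (EL S) := by
  unfold EL
  exact CB.prod _ fun p _ => (lr_CB (tp_nonneg _) (tp_le (hS p p.2))).comp (continuous_apply p)

lemma tp_factor {n : ℕ} (hn : Sm S n) : tp n = ∏ p : S, tp p ^ (n.factorization p) := by
  have hn0 : n ≠ 0 := by have := hn.1; omega
  have h1 : ∀ n : ℕ, tp n = Real.sqrt ((n : ℝ)⁻¹) := fun n => by unfold tp; rw [Real.sqrt_inv]
  have h2 : ∀ s : Finset ℕ, ∏ p ∈ s, tp p ^ (n.factorization p) = tp (∏ p ∈ s, p ^ (n.factorization p)) := by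
    intro s
    induction s using Finset.induction_on with
    | empty => simp [tp]
    | insert a s ha ih =>
      rw [Finset.prod_insert ha, Finset.prod_insert ha, tp_mul, ih]
      congr 1
      unfold tp
      rw [Nat.cast_pow, inv_pow, Real.sqrt_eq_rpow, Real.sqrt_eq_rpow, ← Real.rpow_natCast,
        ← Real.rpow_natCast, ← Real.rpow_mul (Nat.cast_nonneg a), ← Real.rpow_mul (Nat.cast_nonneg a), mul_comm]
  rw [Finset.prod_coe_sort S (fun p => tp p ^ (n.factorization p)), h2]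
  congr 1
  have h3 : ∏ p ∈ S, p ^ (n.factorization p) = ∏ p ∈ n.primeFactors, p ^ (n.factorization p) := by
    symm
    apply Finset.prod_subset hn.2
    intro p _ hp
    have : n.factorization p = 0 := by
      rw [← Finsupp.notMem_support_iff, Nat.support_factorization]
      exact hp
    rw [this, pow_zero]
  rw [h3]
  have := Nat.prod_factorization_pow_eq_self hn0
  rw [Finsupp.prod, Nat.support_factorization] at this
  exact this.symm

/-- the coefficients of the Euler product -/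
lemma EL_XX (hS : ∀ p ∈ S, p.Prime) {n : ℕ} (hn : Sm S n) : ∫ x, EL S x * XX S x n ∂(mu S) = tp n := by
  unfold EL XX mu
  simp_rw [← Finset.prod_mul_distrib]
  rw [integral_fintype_prod_eq_prod (μ := fun _ : S => st)
    (f := fun (p : S) t => lr (tp p) t * uu (n.factorization p) t), tp_factor hn]
  exact Finset.prod_congr rfl fun p _ => lr_coef (tp_nonneg _) (tp_le (hS p p.2)) _

/-- bilinear expansion -/
lemma EL_obs (hS : ∀ p ∈ S, p.Prime) {D : ℝ} {F : (ℕ → ℝ) → ℝ} {c : ℕ →₀ ℝ}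
    (hc : ∀ n ∈ c.support, Sm S n ∧ (n : ℝ) ≤ D)
    (hF : ∀ lam : ℕ → ℝ, HRel S lam → F lam = c.sum fun n a => a * lam n) :
    ∫ x, EL S x * F (XX S x) ∂(mu S) = ∑ n ∈ c.support, c n * tp n := by
  have h1 : ∀ x, EL S x * F (XX S x) = ∑ n ∈ c.support, c n * (EL S x * XX S x n) := by
    intro x
    rw [hF _ (XX_hrel hS x), Finsupp.sum, Finset.mul_sum]
    exact Finset.sum_congr rfl fun n _ => by ring
  have hX : ∀ n, CB fun x : S → ℝ => XX S x n := fun n => ⟨continuous_XX n, _, fun x => abs_XX_le x n⟩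
  have hint : ∀ n, Integrable (fun x => c n * (EL S x * XX S x n)) (mu S) := fun n =>
    (((EL_CB hS).mul (hX n)).smul _).int
  simp_rw [h1]
  rw [integral_finsetSum _ fun n _ => hint n]
  refine Finset.sum_congr rfl fun n hn => ?_
  rw [integral_const_mul, EL_XX hS (hc n hn).1]

/-- products of observables with single coefficients -/
lemma lin_obs (hS : ∀ p ∈ S, p.Prime) {D : ℝ} {F : (ℕ → ℝ) → ℝ} {c : ℕ →₀ ℝ}
    (hc : ∀ n ∈ c.support, Sm S n ∧ (n : ℝ) ≤ D)
    (hF : ∀ lam : ℕ → ℝ, HRel S lam → F lam = c.sum fun n a => a * lam n) (Y : ℕ) (hDY : D ≤ Y)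
    (hY : ∀ n ∈ Finset.Icc 1 Y, Sm S n) (w : ℕ → ℝ) :
    ∫ x, F (XX S x) * ∑ n ∈ Finset.Icc 1 Y, w n * XX S x n ∂(mu S) = ∑ n ∈ c.support, c n * w n := by
  have h1 : ∀ x, F (XX S x) * ∑ n ∈ Finset.Icc 1 Y, w n * XX S x n = ∑ m ∈ c.support, ∑ n ∈ Finset.Icc 1 Y,
      (c m * w n) * (XX S x m * XX S x n) := by
    intro x
    rw [hF _ (XX_hrel hS x), Finsupp.sum, Finset.sum_mul_sum]
    exact Finset.sum_congr rfl fun m _ => Finset.sum_congr rfl fun n _ => by ring
  have hX : ∀ n, CB fun x : S → ℝ => XX S x n := fun n => ⟨continuous_XX n, _, fun x => abs_XX_le x n⟩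
  have hint : ∀ m n, Integrable (fun x => (c m * w n) * (XX S x m * XX S x n)) (mu S) := fun m n =>
    (((hX m).mul (hX n)).smul _).int
  simp_rw [h1]
  rw [integral_finsetSum _ fun m _ => integrable_finsetSum _ fun n _ => hint m n]
  refine Finset.sum_congr rfl fun m hm => ?_
  rw [integral_finsetSum _ fun n _ => hint m n]
  have hmY : m ∈ Finset.Icc 1 Y := by
    rw [Finset.mem_Icc]
    refine ⟨(hc m hm).1.1, ?_⟩
    have := (hc m hm).2.trans hDY
    exact_mod_cast this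
  rw [Finset.sum_eq_single m]
  · rw [integral_const_mul, orth_XX (hc m hm).1 (hc m hm).1, if_pos rfl, mul_one]
  · intro n hn hnm
    rw [integral_const_mul, orth_XX (hc m hm).1 (hY n hn), if_neg (Ne.symm hnm), mul_zero]
  · intro h; exact absurd hmY h

end Pool.Agent.H485.CC
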