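import Pool.Agent.H485.CC.Ml8

/-!
# The moments of the mollifier, and the first moment with the Euler product
-/

set_option autoImplicit false
set_option maxHeartbeats 1000000

open MeasureTheory Real Finset Filter

namespace Pool.Agent.H485.CC

variable {A p0 N : ℕ} {C : ℝ}

lemma II_one : ∃ K : ℝ, 0 ≤ K ∧ ∀ (b : ℝ) (p : ℕ), p.Prime → |b| ≤ 6 →
    0 ≤ II (fun _ _ => 1) b p ∧ II (fun _ _ => 1) b p ≤ exp (b ^ 2 / 2 * (1 / p) + K * tp p ^ 3) := by
  obtain ⟨K, hK0, hK⟩ := local_le 6 (by norm_num)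
  refine ⟨K, hK0, fun b p hp hb => ?_⟩
  have h := hK (tp p) 0 b (tp_nonneg _) (tp_le hp) (by simp) hb
  simp only [lf_zero, norm_one, one_pow, mul_one, norm_zero, Complex.zero_re, mul_zero, add_zero] at h
  have e : II (fun _ _ => 1) b p = ∫ θ, exp (b * (uu 1 θ * tp p)) ∂st := by
    unfold II
    simp
  rw [e]
  refine ⟨integral_nonneg fun θ => (exp_pos _).le, h.trans ?_⟩
  have h2 := add_one_le_exp (b ^ 2 / 2 * (1 / p) + K * tp p ^ 3)
  rw [tp_sq]
  have e3 : (1 : ℝ) / p * (0 ^ 2 + b ^ 2 / 2) = b ^ 2 / 2 * (1 / p) := by ring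
  linarith

lemma II_one_zero (p : ℕ) : II (fun _ _ => 1) 0 p = 1 := by
  unfold II
  simp

lemma Mk_sq_le (n : ℕ) (lam : ℕ → ℝ) : Mk A p0 N n lam ^ 2 ≤
    ∏ i ∈ range n, ∑ k : Fin 3, wm A N i k * exp (cm k * PP (Sc A p0 N i) lam) := by
  unfold Mk
  rw [← Finset.prod_pow]
  refine Finset.prod_le_prod (fun i _ => sq_nonneg _) fun i _ => ?_
  refine (tj_sq_maj _ _).trans (le_of_eq ?_)
  rw [Fin.sum_univ_three]
  simp only [wm, cm, Matrix.cons_val_zero, Matrix.cons_val_one, Matrix.cons_val]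
  ring

/-- crude second moment -/
theorem Mk_sq : ∃ K : ℝ, 0 ≤ K ∧ ∀ (A p0 N : ℕ) (C : ℝ), Good A p0 N C → 3 ≤ A → ∀ n ≤ Rn N + 1,
    ∫ x, Mk A p0 N n (XX (Sb N) x) ^ 2 ∂(mu (Sb N)) ≤ exp (18 * ∑ i ∈ range n, vv A p0 N i + K) := by
  obtain ⟨K, hK0, hK⟩ := II_one
  obtain ⟨C3, hC30, hC3⟩ := sum_tp3
  refine ⟨K * C3 + 3 / 5, by positivity, fun A p0 N C hG hA n hn => ?_⟩
  have hSprime : ∀ p ∈ Sb N, p.Prime := Sb_prime
  have hScS : ∀ i < n, Sc A p0 N i ⊆ Sb N := fun i hi => hG.sc_sub' (by omega)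
  have hdisj : ∀ i < n, ∀ j < n, i ≠ j → Disjoint (Sc A p0 N i) (Sc A p0 N j) := fun i hi j hj =>
    hG.disj i (by omega) j (by omega)
  have hCB : CB fun x : Sb N → ℝ => (∏ i ∈ range n, ∑ k : Fin 3, wm A N i k *
      exp (cm k * PP (Sc A p0 N i) (XX (Sb N) x))) * ∏ p : Sb N, (1 : ℝ) := by
    refine CB.mul (CB.prod _ fun i hi => CB.sum _ fun k _ => ?_) (CB.prod _ fun p _ => CB.const 1)
    exact ((CB.PP hSprime (hScS i (mem_range.1 hi))).smul _).exp.smul _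
  refine (integral_mono_of_nonneg (Filter.Eventually.of_forall fun x => sq_nonneg _) hCB.int
    (Filter.Eventually.of_forall fun x => ?_)).trans ?_
  · simp only [Finset.prod_const_one, mul_one]
    exact Mk_sq_le n _
  rw [fac hSprime n (Sc A p0 N) hScS hdisj (wm A N) (fun _ => cm) (fun _ _ => 1) (fun p => CB.const 1)]
  rw [Finset.prod_congr rfl (fun p _ => II_one_zero p), Finset.prod_const_one, mul_one]
  have hpr : ∀ b : ℝ, |b| ≤ 6 → ∀ i < n, 0 ≤ ∏ p ∈ Sc A p0 N i, II (fun _ _ => 1) b p ∧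
      ∏ p ∈ Sc A p0 N i, II (fun _ _ => 1) b p ≤
        exp (b ^ 2 / 2 * vv A p0 N i + K * ∑ p ∈ Sc A p0 N i, tp p ^ 3) := by
    intro b hb i hi
    have hp : ∀ p ∈ Sc A p0 N i, p.Prime := fun p hp => hSprime p (hScS i hi hp)
    refine ⟨Finset.prod_nonneg fun p h => (hK b p (hp p h) hb).1, ?_⟩
    refine (Finset.prod_le_prod (fun p h => (hK b p (hp p h) hb).1) fun p h => (hK b p (hp p h) hb).2).trans ?_
    rw [← Real.exp_sum, Finset.sum_add_distrib, ← Finset.mul_sum, ← Finset.mul_sum]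
    rfl
  have hscale : ∀ i ∈ range n, 0 ≤ ∑ k : Fin 3, wm A N i k * ∏ p ∈ Sc A p0 N i, II (fun _ _ => 1) (cm k) p ∧
      ∑ k : Fin 3, wm A N i k * ∏ p ∈ Sc A p0 N i, II (fun _ _ => 1) (cm k) p ≤
      exp (18 * vv A p0 N i + K * (∑ p ∈ Sc A p0 N i, tp p ^ 3) + 3 * exp (-((Jn A N i : ℕ) : ℝ) / 2)) := by
    intro i hi
    have hi' := mem_range.1 hi
    have p1 := hpr (-2) (by norm_num) i hi'
    have p2 := hpr 6 (by norm_num) i hi'
    have p3 := hpr (-6) (by norm_num) i hi'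
    rw [Fin.sum_univ_three]
    simp only [wm, cm, Matrix.cons_val_zero, Matrix.cons_val_one, Matrix.cons_val]
    refine ⟨?_, ?_⟩
    · have := p1.1; have := p2.1; have := p3.1
      positivity
    · have hv0 : 0 ≤ vv A p0 N i := Finset.sum_nonneg fun p _ => by positivity
      set T := K * ∑ p ∈ Sc A p0 N i, tp p ^ 3 with hT
      set Q := exp (18 * vv A p0 N i + T) with hQ
      have hQ0 : 0 < Q := exp_pos _
      have q1 : ∏ p ∈ Sc A p0 N i, II (fun _ _ => 1) (-2) p ≤ Q :=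
        p1.2.trans (exp_le_exp.2 (by nlinarith))
      have q2 : ∏ p ∈ Sc A p0 N i, II (fun _ _ => 1) 6 p ≤ Q :=
        p2.2.trans (exp_le_exp.2 (by nlinarith))
      have q3 : ∏ p ∈ Sc A p0 N i, II (fun _ _ => 1) (-6) p ≤ Q :=
        p3.2.trans (exp_le_exp.2 (by nlinarith))
      set E := exp (-((Jn A N i : ℝ) + 1)) with hE
      have hE0 : 0 < E := exp_pos _
      have hE1 : E ≤ (1 / 2) * exp (-(Jn A N i : ℝ) / 2) := by
        have hJ : (0 : ℝ) ≤ Jn A N i := Nat.cast_nonneg _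
        have e4 : exp (-1) ≤ 1 / 2 := by
          rw [Real.exp_neg, inv_le_comm₀ (exp_pos _) (by norm_num)]
          have := Real.exp_one_gt_d9
          linarith
        calc E ≤ exp (-1 + -(Jn A N i : ℝ) / 2) := exp_le_exp.2 (by linarith)
          _ = exp (-1) * exp (-(Jn A N i : ℝ) / 2) := Real.exp_add _ _
          _ ≤ _ := mul_le_mul_of_nonneg_right e4 (exp_pos _).le
      have h6 : 1 + 3 * exp (-(Jn A N i : ℝ) / 2) ≤ exp (3 * exp (-(Jn A N i : ℝ) / 2)) :=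
        one_add_le (by positivity) le_rfl
      rw [Real.exp_add, ← hQ]
      have h7 : 3 * E * ∏ p ∈ Sc A p0 N i, II (fun _ _ => 1) 6 p ≤ 3 * E * Q :=
        mul_le_mul_of_nonneg_left q2 (by positivity)
      have h8 : 3 * E * ∏ p ∈ Sc A p0 N i, II (fun _ _ => 1) (-6) p ≤ 3 * E * Q :=
        mul_le_mul_of_nonneg_left q3 (by positivity)
      have h9 : E * Q ≤ ((1 / 2) * exp (-(Jn A N i : ℝ) / 2)) * Q := mul_le_mul_of_nonneg_right hE1 hQ0.le
      calc 1 * ∏ p ∈ Sc A p0 N i, II (fun _ _ => 1) (-2) p +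
          3 * E * ∏ p ∈ Sc A p0 N i, II (fun _ _ => 1) 6 p +
          3 * E * ∏ p ∈ Sc A p0 N i, II (fun _ _ => 1) (-6) p ≤
          Q * (1 + 3 * exp (-(Jn A N i : ℝ) / 2)) := by linarith
        _ ≤ _ := mul_le_mul_of_nonneg_left h6 hQ0.le
  refine (Finset.prod_le_prod (fun i hi => (hscale i hi).1) (fun i hi => (hscale i hi).2)).trans ?_
  rw [← Real.exp_sum]
  apply exp_le_exp.2
  rw [Finset.sum_add_distrib, Finset.sum_add_distrib, ← Finset.mul_sum, ← Finset.mul_sum, ← Finset.mul_sum]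
  have h1 : ∑ i ∈ range n, ∑ p ∈ Sc A p0 N i, tp p ^ 3 ≤ C3 := by
    refine le_trans ?_ (hC3 ((range n).biUnion (Sc A p0 N)))
    rw [Finset.sum_biUnion]
    intro i hi j hj hij
    exact hdisj i (by simpa using hi) j (by simpa using hj) hij
  have h2 : ∑ i ∈ range n, exp (-((Jn A N i : ℕ) : ℝ) / 2) ≤ 1 / 5 := by
    refine le_trans ?_ (sum_J (N := N) hA)
    exact Finset.sum_le_sum_of_subset_of_nonneg (range_mono hn) fun i _ _ => (exp_pos _).le
  have h3 := mul_le_mul_of_nonneg_left h1 hK0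
  linarith

/-- the starting point of the primes -/
lemma start : ∃ p1 : ℕ, (∀ p : ℕ, p1 < p → tp p ≤ 1 / 4000) ∧
    ∀ S : Finset ℕ, (∀ p ∈ S, p1 < p) → ∑ p ∈ S, tp p ^ 3 ≤ 1 / 10000 := by
  have h : Summable fun n : ℕ => tp n ^ 3 := by
    have h1 := Real.summable_one_div_nat_rpow.2 (show (1 : ℝ) < 3 / 2 by norm_num)
    refine h1.congr fun n => ?_
    unfold tp
    rw [inv_pow, one_div, Real.sqrt_eq_rpow, ← Real.rpow_natCast, ← Real.rpow_mul (Nat.cast_nonneg n)]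
    norm_num
  obtain ⟨s, hs⟩ := summable_iff_vanishing_norm.1 h (1 / 10000) (by norm_num)
  refine ⟨16000000 + s.sup id, fun p hp => ?_, fun S hS => ?_⟩
  · unfold tp
    have h1 : (16000000 : ℝ) ≤ p := by exact_mod_cast (by omega : 16000000 ≤ p)
    have h2 : (4000 : ℝ) ≤ Real.sqrt p := by
      apply Real.le_sqrt_of_sq_le
      linarith
    rw [one_div]
    exact inv_anti₀ (by norm_num) h2
  · have hd : Disjoint S s := by
      rw [Finset.disjoint_left]
      intro p hp hps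
      have h1 := hS p hp
      have h2 : p ≤ s.sup id := Finset.le_sup (f := id) hps
      omega
    have h3 := hs S hd
    rw [Real.norm_eq_abs] at h3
    exact (le_abs_self _).trans h3.le

/-- the local functions at the central point -/
noncomputable def gl (p : ℕ) (θ : ℝ) : ℝ := if p.Prime then lr (tp p) θ else 1

lemma gl_CB (p : ℕ) : CB (gl p) := by
  by_cases hp : p.Prime
  · have e : gl p = lr (tp p) := by ext θ; unfold gl; rw [if_pos hp]
    rw [e]
    exact lr_CB (tp_nonneg p) (tp_le hp)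
  · have e : gl p = fun _ => 1 := by ext θ; unfold gl; rw [if_neg hp]
    rw [e]
    exact CB.const 1

lemma II_gl {p : ℕ} (hp : p.Prime) (b : ℝ) : II gl b p = ∫ θ, exp (b * (uu 1 θ * tp p)) * lr (tp p) θ ∂st := by
  unfold II gl
  simp only [if_pos hp]

lemma II_gl_zero {p : ℕ} (hp : p.Prime) : II gl 0 p = 1 := by
  rw [II_gl hp]
  simp only [zero_mul, Real.exp_zero, one_mul]
  exact lr_mean (tp_nonneg p) (tp_le hp)

lemma EL_eq {S : Finset ℕ} (hS : ∀ p ∈ S, p.Prime) (x : S → ℝ) : EL S x = ∏ p : S, gl p (x p) := by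
  unfold EL gl
  exact Finset.prod_congr rfl fun p _ => by rw [if_pos (hS p p.2)]

/-- exponents of the majorant for the first moment -/
noncomputable def c1m : Fin 3 → ℝ := ![-1, 3, -3]

/-- weights for the first moment -/
noncomputable def w1m (A N i : ℕ) : Fin 3 → ℝ :=
  ![1, exp (-((Jn A N i : ℝ) + 1)), exp (-((Jn A N i : ℝ) + 1))]

/-- weights for the first moment -/
noncomputable def w0m : Fin 3 → ℝ := ![1, 0, 0]

lemma Mo_ge (lam : ℕ → ℝ) :
    2 * ∏ i ∈ range (Rn N + 1), (∑ k : Fin 3, w0m k * exp (c1m k * PP (Sc A p0 N i) lam)) -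
      ∏ i ∈ range (Rn N + 1), (∑ k : Fin 3, w1m A N i k * exp (c1m k * PP (Sc A p0 N i) lam)) ≤
    Mo A p0 N lam := by
  have h := prod_approx (range (Rn N + 1)) (fun i => tj (Jn A N i) (-PP (Sc A p0 N i) lam))
    (fun i => exp (-1 * PP (Sc A p0 N i) lam))
    (fun i => exp (-((Jn A N i : ℝ) + 1)) * exp (3 * PP (Sc A p0 N i) lam) +
      exp (-((Jn A N i : ℝ) + 1)) * exp (-3 * PP (Sc A p0 N i) lam))
    (fun i _ => (exp_pos _).le) (fun i _ => tj_err_maj _ _)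
  have h1 := (abs_le.1 h).1
  have e1 : ∀ i, ∑ k : Fin 3, w0m k * exp (c1m k * PP (Sc A p0 N i) lam) = exp (-1 * PP (Sc A p0 N i) lam) := by
    intro i
    rw [Fin.sum_univ_three]
    simp only [w0m, c1m, Matrix.cons_val_zero, Matrix.cons_val_one, Matrix.cons_val]
    ring
  have e2 : ∀ i, ∑ k : Fin 3, w1m A N i k * exp (c1m k * PP (Sc A p0 N i) lam) =
      exp (-1 * PP (Sc A p0 N i) lam) + (exp (-((Jn A N i : ℝ) + 1)) * exp (3 * PP (Sc A p0 N i) lam) +
      exp (-((Jn A N i : ℝ) + 1)) * exp (-3 * PP (Sc A p0 N i) lam)) := by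
    intro i
    rw [Fin.sum_univ_three]
    simp only [w1m, c1m, Matrix.cons_val_zero, Matrix.cons_val_one, Matrix.cons_val]
    ring
  simp_rw [e1, e2]
  unfold Mo
  linarith

lemma r_bound {J v T : ℝ} (hJ : 96 * v ≤ J) (hT : T ≤ 1 / 10000) (hJ0 : 0 ≤ J) {a b c : ℝ}
    (ha : exp (-(v / 2) - 2001 * T) ≤ a) (hb : b ≤ exp (15 / 2 * v + 2000 * T))
    (hc : c ≤ exp (15 / 2 * v + 2000 * T)) :
    a + exp (-(J + 1)) * b + exp (-(J + 1)) * c ≤ a * exp (6 / 5 * exp (-J / 2)) := by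
  have h1 : exp (-(J + 1)) * exp (15 / 2 * v + 2000 * T) ≤ (3 / 5) * exp (-J / 2) * exp (-(v / 2) - 2001 * T) := by
    have e1 : (3 / 5 : ℝ) ≥ exp (-(11 / 20)) := by
      have h := Real.exp_one_gt_d9
      have h2 : exp (-(11 / 20)) ≤ 3 / 5 := by
        rw [Real.exp_neg, inv_le_comm₀ (exp_pos _) (by norm_num)]
        have h3 := Real.quadratic_le_exp_of_nonneg (x := 11 / 20) (by norm_num)
        linarith
      exact h2
    have e2 : exp (-(J + 1)) * exp (15 / 2 * v + 2000 * T) ≤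
        exp (-(11 / 20)) * exp (-J / 2) * exp (-(v / 2) - 2001 * T) := by
      rw [← Real.exp_add, ← Real.exp_add, ← Real.exp_add]
      apply exp_le_exp.2
      linarith
    refine e2.trans ?_
    have : 0 ≤ exp (-J / 2) * exp (-(v / 2) - 2001 * T) := by positivity
    nlinarith
  have h2 : exp (-(J + 1)) * b ≤ (3 / 5) * exp (-J / 2) * a := by
    calc exp (-(J + 1)) * b ≤ exp (-(J + 1)) * exp (15 / 2 * v + 2000 * T) :=
          mul_le_mul_of_nonneg_left hb (exp_pos _).le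
      _ ≤ _ := h1
      _ ≤ _ := mul_le_mul_of_nonneg_left ha (by positivity)
  have h3 : exp (-(J + 1)) * c ≤ (3 / 5) * exp (-J / 2) * a := by
    calc exp (-(J + 1)) * c ≤ exp (-(J + 1)) * exp (15 / 2 * v + 2000 * T) :=
          mul_le_mul_of_nonneg_left hc (exp_pos _).le
      _ ≤ _ := h1
      _ ≤ _ := mul_le_mul_of_nonneg_left ha (by positivity)
  have ha0 : 0 < a := lt_of_lt_of_le (exp_pos _) ha
  have h4 := add_one_le_exp (6 / 5 * exp (-J / 2))
  calc a + exp (-(J + 1)) * b + exp (-(J + 1)) * c ≤ a * (6 / 5 * exp (-J / 2) + 1) := by linarith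
    _ ≤ _ := mul_le_mul_of_nonneg_left h4 ha0.le

/-- the first moment with the Euler product -/
theorem EL_Mo : ∃ p1 : ℕ, ∀ (A p0 N : ℕ) (C : ℝ), p1 ≤ p0 → 3 ≤ A → 0 ≤ C → Good A p0 N C → 96 * (C + 2) ≤ A →
    (1 / 4) * exp (-(VS A p0 N / 2)) ≤ ∫ x, EL (Sb N) x * Mo A p0 N (XX (Sb N) x) ∂(mu (Sb N)) := by
  obtain ⟨p1, hp1, hp3⟩ := start
  refine ⟨p1, fun A p0 N C hp hA hC hG hAC => ?_⟩
  have hSprime : ∀ p ∈ Sb N, p.Prime := Sb_prime
  have hScS : ∀ i < Rn N + 1, Sc A p0 N i ⊆ Sb N := fun i hi => hG.sc_sub' hi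
  have hSa : ∀ p ∈ Sa A p0 N, p1 < p ∧ p.Prime := fun p h => ⟨lt_of_le_of_lt hp (hG.gt p h).1, (hG.gt p h).2⟩
  have hSc : ∀ i < Rn N + 1, ∀ p ∈ Sc A p0 N i, p1 < p ∧ p.Prime := fun i hi p h => hSa p (hG.sc_sub hi h)
  have hfac : ∀ w : ℕ → Fin 3 → ℝ, ∫ x, (∏ i ∈ range (Rn N + 1), ∑ k : Fin 3, w i k *
      exp (c1m k * PP (Sc A p0 N i) (XX (Sb N) x))) * EL (Sb N) x ∂(mu (Sb N)) =
      ∏ i ∈ range (Rn N + 1), ∑ k : Fin 3, w i k * ∏ p ∈ Sc A p0 N i, II gl (c1m k) p := by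
    intro w
    have h := fac hSprime (Rn N + 1) (Sc A p0 N) hScS hG.disj w (fun _ => c1m) gl gl_CB
    rw [Finset.prod_congr rfl (fun p hp => II_gl_zero (hSprime p (mem_sdiff.1 hp).1)),
      Finset.prod_const_one, mul_one] at h
    rw [← h]
    congr 1
    ext x
    rw [EL_eq hSprime]
  have hCB : ∀ w : ℕ → Fin 3 → ℝ, CB fun x : Sb N → ℝ => (∏ i ∈ range (Rn N + 1), ∑ k : Fin 3, w i k *
      exp (c1m k * PP (Sc A p0 N i) (XX (Sb N) x))) * EL (Sb N) x := by
    intro w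
    refine CB.mul (CB.prod _ fun i hi => CB.sum _ fun k _ => ?_) (EL_CB hSprime)
    exact ((CB.PP hSprime (hScS i (mem_range.1 hi))).smul _).exp.smul _
  have h1 : 2 * (∫ x, (∏ i ∈ range (Rn N + 1), ∑ k : Fin 3, w0m k *
      exp (c1m k * PP (Sc A p0 N i) (XX (Sb N) x))) * EL (Sb N) x ∂(mu (Sb N))) -
      ∫ x, (∏ i ∈ range (Rn N + 1), ∑ k : Fin 3, w1m A N i k *
      exp (c1m k * PP (Sc A p0 N i) (XX (Sb N) x))) * EL (Sb N) x ∂(mu (Sb N)) ≤
      ∫ x, EL (Sb N) x * Mo A p0 N (XX (Sb N) x) ∂(mu (Sb N)) := by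
    rw [← integral_const_mul, ← integral_sub ((hCB fun _ => w0m).smul 2).int (hCB (w1m A N)).int]
    refine integral_mono (((hCB fun _ => w0m).smul 2).int.sub (hCB (w1m A N)).int)
      ((EL_CB hSprime).mul (Mo_CB hG)).int fun x => ?_
    dsimp only
    have h := mul_le_mul_of_nonneg_left (Mo_ge (A := A) (p0 := p0) (N := N) (XX (Sb N) x)) (EL_pos hSprime x).le
    linarith
  refine le_trans ?_ h1
  rw [hfac (fun _ => w0m), hfac (w1m A N)]
  set a : ℕ → ℝ := fun i => ∏ p ∈ Sc A p0 N i, II gl (-1) p with ha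
  set T : ℕ → ℝ := fun i => ∑ p ∈ Sc A p0 N i, tp p ^ 3 with hT
  have ha1 : ∀ i < Rn N + 1, exp (-(vv A p0 N i / 2) - 2001 * T i) ≤ a i := by
    intro i hi
    have e : -(vv A p0 N i / 2) - 2001 * T i = ∑ p ∈ Sc A p0 N i, (-(tp p ^ 2 / 2) - 2001 * tp p ^ 3) := by
      rw [Finset.sum_sub_distrib, Finset.sum_neg_distrib, ← Finset.mul_sum, ← Finset.sum_div]
      unfold vv
      simp_rw [tp_sq]
      simp only [hT]
    rw [e, Real.exp_sum]
    refine Finset.prod_le_prod (fun p _ => (exp_pos _).le) fun p hp => ?_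
    rw [II_gl (hSc i hi p hp).2]
    exact loc_low (tp_nonneg p) (hp1 p (hSc i hi p hp).1)
  have hb1 : ∀ b : ℝ, |b| ≤ 3 → ∀ i < Rn N + 1, ∏ p ∈ Sc A p0 N i, II gl b p ≤
      exp (15 / 2 * vv A p0 N i + 2000 * T i) := by
    intro b hb i hi
    have e : 15 / 2 * vv A p0 N i + 2000 * T i = ∑ p ∈ Sc A p0 N i, (15 / 2 * tp p ^ 2 + 2000 * tp p ^ 3) := by
      rw [Finset.sum_add_distrib, ← Finset.mul_sum, ← Finset.mul_sum]
      unfold vv
      simp_rw [tp_sq]
      simp only [hT]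
    rw [e, Real.exp_sum]
    refine Finset.prod_le_prod (fun p hp => ?_) fun p hp => ?_
    · rw [II_gl (hSc i hi p hp).2]
      exact integral_nonneg fun θ => mul_nonneg (exp_pos _).le (lr_pos (tp_nonneg p) (tp_le (hSc i hi p hp).2) θ).le
    · rw [II_gl (hSc i hi p hp).2]
      exact loc_up (tp_nonneg p) ((hp1 p (hSc i hi p hp).1).trans (by norm_num)) hb
  have ha0 : ∀ i < Rn N + 1, 0 < a i := fun i hi => lt_of_lt_of_le (exp_pos _) (ha1 i hi)
  have e0 : ∏ i ∈ range (Rn N + 1), ∑ k : Fin 3, w0m k * ∏ p ∈ Sc A p0 N i, II gl (c1m k) p =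
      ∏ i ∈ range (Rn N + 1), a i := by
    refine Finset.prod_congr rfl fun i _ => ?_
    rw [Fin.sum_univ_three]
    simp only [w0m, c1m, Matrix.cons_val_zero, Matrix.cons_val_one, Matrix.cons_val, ha]
    ring
  have e1 : ∏ i ∈ range (Rn N + 1), ∑ k : Fin 3, w1m A N i k * ∏ p ∈ Sc A p0 N i, II gl (c1m k) p ≤
      (∏ i ∈ range (Rn N + 1), a i) * (3 / 2) := by
    have h2 : ∀ i ∈ range (Rn N + 1), ∑ k : Fin 3, w1m A N i k * ∏ p ∈ Sc A p0 N i, II gl (c1m k) p ≤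
        a i * exp (6 / 5 * exp (-((Jn A N i : ℕ) : ℝ) / 2)) := by
      intro i hi
      have hi' := mem_range.1 hi
      rw [Fin.sum_univ_three]
      simp only [w1m, c1m, Matrix.cons_val_zero, Matrix.cons_val_one, Matrix.cons_val]
      rw [one_mul]
      refine r_bound (hG.J_ge (by norm_num) hAC i hi') ?_ (Nat.cast_nonneg _) (ha1 i hi')
        (hb1 3 (by norm_num) i hi') (hb1 (-3) (by norm_num) i hi')
      exact hp3 _ fun p hp => (hSc i hi' p hp).1
    have h20 : ∀ i ∈ range (Rn N + 1), 0 ≤ ∑ k : Fin 3, w1m A N i k * ∏ p ∈ Sc A p0 N i, II gl (c1m k) p := by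
      intro i hi
      have hi' := mem_range.1 hi
      have h3 : ∀ b : ℝ, 0 ≤ ∏ p ∈ Sc A p0 N i, II gl b p := fun b => Finset.prod_nonneg fun p hp => by
        rw [II_gl (hSc i hi' p hp).2]
        exact integral_nonneg fun θ => mul_nonneg (exp_pos _).le (lr_pos (tp_nonneg p) (tp_le (hSc i hi' p hp).2) θ).le
      rw [Fin.sum_univ_three]
      simp only [w1m, c1m, Matrix.cons_val_zero, Matrix.cons_val_one, Matrix.cons_val]
      have := h3 (-1); have := h3 3; have := h3 (-3)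
      positivity
    refine (Finset.prod_le_prod h20 h2).trans ?_
    rw [Finset.prod_mul_distrib, ← Real.exp_sum, ← Finset.mul_sum]
    refine mul_le_mul_of_nonneg_left ?_ (Finset.prod_nonneg fun i hi => (ha0 i (mem_range.1 hi)).le)
    have h3 := sum_J (N := N) hA
    calc exp (6 / 5 * ∑ i ∈ range (Rn N + 1), exp (-((Jn A N i : ℕ) : ℝ) / 2)) ≤ exp (6 / 25) :=
          exp_le_exp.2 (by linarith)
      _ ≤ 3 / 2 := by
        have h4 := Real.exp_bound_div_one_sub_of_interval (x := 6 / 25) (by norm_num) (by norm_num)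
        refine h4.trans ?_
        norm_num
  have e2 : (4 / 5) * exp (-(VS A p0 N / 2)) ≤ ∏ i ∈ range (Rn N + 1), a i := by
    have h2 : ∏ i ∈ range (Rn N + 1), exp (-(vv A p0 N i / 2) - 2001 * T i) ≤ ∏ i ∈ range (Rn N + 1), a i :=
      Finset.prod_le_prod (fun i _ => (exp_pos _).le) fun i hi => ha1 i (mem_range.1 hi)
    refine le_trans ?_ h2
    rw [← Real.exp_sum, Finset.sum_sub_distrib, Finset.sum_neg_distrib, ← Finset.mul_sum, ← Finset.sum_div]
    have h3 : ∑ i ∈ range (Rn N + 1), vv A p0 N i = VS A p0 N := hG.sum _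
    have h4 : ∑ i ∈ range (Rn N + 1), T i ≤ 1 / 10000 := by
      have : ∑ i ∈ range (Rn N + 1), T i = ∑ p ∈ Sa A p0 N, tp p ^ 3 := hG.sum _
      rw [this]
      exact hp3 _ fun p hp => (hSa p hp).1
    rw [h3]
    have h5 : (4 / 5 : ℝ) ≤ exp (-(2001 / 10000)) := by
      have := add_one_le_exp (-(2001 / 10000) : ℝ)
      have h6 := Real.one_sub_div_pow_le_exp_neg (n := 2) (t := 2001 / 10000) (by norm_num)
      norm_num at h6
      linarith
    calc (4 / 5) * exp (-(VS A p0 N / 2)) ≤ exp (-(2001 / 10000)) * exp (-(VS A p0 N / 2)) :=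
          mul_le_mul_of_nonneg_right h5 (exp_pos _).le
      _ = exp (-(2001 / 10000) + -(VS A p0 N / 2)) := (Real.exp_add _ _).symm
      _ ≤ _ := exp_le_exp.2 (by linarith)
  rw [e0]
  linarith [exp_pos (-(VS A p0 N / 2))]

end Pool.Agent.H485.CC
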