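import Pool.Agent.H485.CC.Ml9

/-!
# The package of model moments
-/

set_option autoImplicit false
set_option maxHeartbeats 1000000

open MeasureTheory Real Finset Filter

namespace Pool.Agent.H485.CC

lemma Vw_ge {Ω : Type} [MeasurableSpace Ω] {ν : Measure Ω} [IsProbabilityMeasure ν] {Z : Ω → ℝ}
    (hZ : Measurable Z) {H : ℝ} (hH : ∀ᵐ u ∂ν, |Z u| ≤ H) {y : ℝ} (hy : 0 ≤ y) :
    1 - y * exp H ≤ Vw ν Z y := by
  unfold Vw
  calc 1 - y * exp H = ∫ _, (1 - y * exp H) ∂ν := by simp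
    _ ≤ _ := by
      refine integral_mono_ae (integrable_const _) (Vw_int hZ hy) ?_
      filter_upwards [hH] with u hu
      have h1 := add_one_le_exp (-(y * exp (Z u)))
      have h2 : y * exp (Z u) ≤ y * exp H :=
        mul_le_mul_of_nonneg_left (exp_le_exp.2 ((le_abs_self _).trans hu)) hy
      linarith

lemma V5_le_one {N : ℕ} (h : 1 ≤ log (N : ℝ)) (n : ℕ) : V5 N n ≤ 1 := by
  have := nu_prob 10 (hv_pos h)
  exact Vw_le_one (Zs_meas _) (Zs_ae _ (hv_pos h)) (by positivity)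

lemma V5_ge {N : ℕ} (h : 1 ≤ log (N : ℝ)) (n : ℕ) :
    1 - 2 * π * (N : ℝ) ^ (-(3 / 8) : ℝ) * n ≤ V5 N n := by
  have hN0 := pos_of_log h
  have := nu_prob 10 (hv_pos h)
  refine le_trans (le_of_eq ?_) (Vw_ge (Zs_meas _) (Zs_ae _ (hv_pos h)) (by positivity))
  rw [mh5]
  have e1 : exp (log N / 8) = (N : ℝ) ^ (1 / 8 : ℝ) := by
    rw [Real.rpow_def_of_pos hN0]
    congr 1
    ring
  have e2 : (N : ℝ) ^ (-(3 / 8) : ℝ) = (N : ℝ) ^ (-(1 / 2) : ℝ) * (N : ℝ) ^ (1 / 8 : ℝ) := by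
    rw [← Real.rpow_add hN0]
    norm_num
  have e3 : 2 * π / Real.sqrt N = 2 * π * (N : ℝ) ^ (-(1 / 2) : ℝ) := by
    rw [Real.sqrt_eq_rpow, Real.rpow_neg hN0.le]
    rfl
  rw [e1, e2, e3]
  ring

/-- powers of `N` beat powers of `log N` -/
lemma ev_big (C a : ℝ) {ε : ℝ} (hε : 0 < ε) : ∀ᶠ N : ℕ in atTop, C * exp (a * ll N) ≤ (N : ℝ) ^ ε := by
  filter_upwards [ev_pow ((|C| + |a|) / ε) 1 (ε := 1) one_pos, ev_ll 1, ev_log 1] with N h1 h2 h3
  have hN0 := pos_of_log h3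
  rw [pow_one, one_mul, exp_ll (by linarith)] at h1
  rw [Real.rpow_def_of_pos hN0]
  have h4 : C ≤ exp |C| := by
    have := add_one_le_exp |C|
    linarith [le_abs_self C]
  calc C * exp (a * ll N) ≤ exp |C| * exp (a * ll N) := mul_le_mul_of_nonneg_right h4 (exp_pos _).le
    _ = exp (|C| + a * ll N) := (Real.exp_add _ _).symm
    _ ≤ exp (log N * ε) := by
      apply exp_le_exp.2
      have h5 : (|C| + |a|) * ll N ≤ log N * ε := by
        have h6 := mul_le_mul_of_nonneg_right h1 hε.le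
        have h7 : (|C| + |a|) / ε * ll N * ε = (|C| + |a|) * ll N := by field_simp
        linarith
      have h8 : a * ll N ≤ |a| * ll N := mul_le_mul_of_nonneg_right (le_abs_self a) (by linarith)
      have h9 : |C| ≤ |C| * ll N := le_mul_of_one_le_right (abs_nonneg _) h2
      nlinarith

/-- all the model moments -/
theorem pack : ∃ (A p0 : ℕ) (C K c : ℝ), 0 < c ∧ 1 ≤ K ∧ ∀ᶠ N : ℕ in atTop, Good A p0 N C ∧
    c * exp (-(ll N / 2)) ≤ ∫ x, Mo A p0 N (XX (Sb N) x) * S5 N (XX (Sb N) x) ∂(mu (Sb N)) ∧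
    ∫ x, (Mo A p0 N (XX (Sb N) x) * S5 N (XX (Sb N) x)) ^ 2 ∂(mu (Sb N)) ≤ K * exp (-ll N) ∧
    ∫ x, Mo A p0 N (XX (Sb N) x) ^ 2 ∂(mu (Sb N)) ≤ K * exp (20 * ll N) ∧
    ∫ x, Mk A p0 N (Rn N) (XX (Sb N) x) ^ 2 ∂(mu (Sb N)) ≤ K * exp (36 * log (ll N)) := by
  obtain ⟨C, hC0, hgood⟩ := good
  obtain ⟨p1, hfirst⟩ := EL_Mo
  obtain ⟨C1, hC10, hsecond⟩ := model_second2
  obtain ⟨K0, hK00, hMk⟩ := Mk_sq
  set A : ℕ := ⌈96 * (C + 2)⌉₊ + 3 with hA
  have hA3 : 3 ≤ A := by omega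
  have hAC : 96 * (C + 2) ≤ A := by
    rw [hA]
    push_cast
    have := Nat.le_ceil (96 * (C + 2))
    linarith
  set Cv : ℝ := C + log (256 * A) + p1 with hCv
  have hCv0 : 0 ≤ Cv := by
    have h1 : (3 : ℝ) ≤ A := by exact_mod_cast hA3
    have h2 : 0 ≤ log (256 * (A : ℝ)) := Real.log_nonneg (by linarith)
    have h3 : (0 : ℝ) ≤ p1 := Nat.cast_nonneg _
    positivity
  set K1 : ℝ := exp (18 * Cv + K0) with hK1
  set K2 : ℝ := exp (36 * C + K0) with hK2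
  set K3 : ℝ := 2 * exp (2 * Cv + C1) + 2 with hK3
  set c0 : ℝ := (1 / 4) * exp (-(Cv / 2)) with hc0
  have hc00 : 0 < c0 := by positivity
  have hK1p : 0 < K1 := exp_pos _
  have hK2p : 0 < K2 := exp_pos _
  have hK3p : 0 < K3 := by positivity
  refine ⟨A, p1, C, K1 + K2 + K3 + 1, c0 / 2, by positivity, by linarith, ?_⟩
  filter_upwards [hgood A p1 (by omega), ev_big (160 * K1 / c0 ^ 2) 21 (ε := 3 / 8) (by norm_num), tail5,
    ev_big K1 21 (ε := 2) (by norm_num), ev_big 2 0 (ε := 1 / 8) (by norm_num)] with N hG hb1 htail hb2 hb3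
  have hL := hG.hL
  have hlog : 1 ≤ log (N : ℝ) := by linarith
  have hN0 := pos_of_log hlog
  have hll := hG.hll
  have hV := abs_le.1 hG.V
  have hVS : VS A p1 N = ∑ p ∈ Sa A p1 N, (1 : ℝ) / p := rfl
  rw [← hVS, ← hCv] at hV
  -- third
  have h3 : ∫ x, Mo A p1 N (XX (Sb N) x) ^ 2 ∂(mu (Sb N)) ≤ K1 * exp (18 * ll N) := by
    have h := hMk A p1 N C hG hA3 (Rn N + 1) le_rfl
    have e1 : ∑ i ∈ range (Rn N + 1), vv A p1 N i = VS A p1 N := hG.sum _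
    rw [e1] at h
    refine h.trans ?_
    rw [hK1, ← Real.exp_add]
    exact exp_le_exp.2 (by linarith)
  have h3' : ∫ x, Mo A p1 N (XX (Sb N) x) ^ 2 ∂(mu (Sb N)) ≤ K1 * exp (20 * ll N) :=
    h3.trans (mul_le_mul_of_nonneg_left (exp_le_exp.2 (by linarith)) hK1p.le)
  have h30 : 0 ≤ ∫ x, Mo A p1 N (XX (Sb N) x) ^ 2 ∂(mu (Sb N)) := integral_nonneg fun _ => sq_nonneg _
  -- fourth
  have h4 : ∫ x, Mk A p1 N (Rn N) (XX (Sb N) x) ^ 2 ∂(mu (Sb N)) ≤ K2 * exp (36 * log (ll N)) := by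
    have h := hMk A p1 N C hG hA3 (Rn N) (by omega)
    refine h.trans ?_
    rw [hK2, ← Real.exp_add]
    have := hG.v3
    exact exp_le_exp.2 (by linarith)
  -- second
  have hMC := Mo_CB hG
  have hQC := Q5_CB hlog
  have hSC : CB fun x : Sb N → ℝ => S5 N (XX (Sb N) x) := by
    unfold S5
    exact CB.sum _ fun n _ => CB.smul ⟨continuous_XX n, _, fun x => abs_XX_le x n⟩ _
  have h2 : ∫ x, (Mo A p1 N (XX (Sb N) x) * S5 N (XX (Sb N) x)) ^ 2 ∂(mu (Sb N)) ≤ K3 * exp (-ll N) := by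
    have key : ∀ x : (Sb N) → ℝ, (Mo A p1 N (XX (Sb N) x) * S5 N (XX (Sb N) x)) ^ 2 ≤
        2 * (Mo A p1 N (XX (Sb N) x) * Q5 N x) ^ 2 +
        2 * (1 / (N : ℝ)) ^ 2 * (Mo A p1 N (XX (Sb N) x) ^ 2 + 0) := by
      intro x
      have e1 := htail (ax N x) (abs_ax x)
      rw [← Q5_eq, ← S5_eq] at e1
      set T := Mo A p1 N (XX (Sb N) x)
      set D := Q5 N x - S5 N (XX (Sb N) x) with hD
      have e2 : S5 N (XX (Sb N) x) = Q5 N x - D := by rw [hD]; ring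
      have e3 : D ^ 2 ≤ (1 / (N : ℝ)) ^ 2 := by
        rw [← sq_abs]
        exact pow_le_pow_left₀ (abs_nonneg _) e1 2
      rw [e2, add_zero]
      have e4 : (T * (Q5 N x - D)) ^ 2 ≤ 2 * (T * Q5 N x) ^ 2 + 2 * (T * D) ^ 2 := by
        nlinarith [sq_nonneg (T * Q5 N x + T * D)]
      have e5 : (T * D) ^ 2 ≤ (1 / (N : ℝ)) ^ 2 * T ^ 2 := by
        rw [mul_pow, mul_comm]
        exact mul_le_mul_of_nonneg_right e3 (sq_nonneg T)
      linarith
    have i3 : Integrable (fun _ : (Sb N) → ℝ => (0 : ℝ)) (mu (Sb N)) := integrable_zero _ _ _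
    refine (int_le3 (fun x => sq_nonneg _) ((hMC.mul hQC).pow 2).int (hMC.pow 2).int i3 key).trans ?_
    rw [integral_zero, add_zero]
    have g1 := hsecond A p1 N C hG hAC
    have g2 : exp (-VS A p1 N + C1 + (C + log (256 * A) + p1)) ≤ exp (2 * Cv + C1) * exp (-ll N) := by
      rw [← Real.exp_add]
      exact exp_le_exp.2 (by linarith)
    have g3 : (1 / (N : ℝ)) ^ 2 * ∫ x, Mo A p1 N (XX (Sb N) x) ^ 2 ∂(mu (Sb N)) ≤ exp (-ll N) := by
      have e1 : (1 / (N : ℝ)) ^ 2 = ((N : ℝ) ^ (2 : ℝ))⁻¹ := by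
        rw [div_pow, one_pow, one_div]
        norm_cast
      rw [e1, inv_mul_le_iff₀ (by positivity)]
      calc ∫ x, Mo A p1 N (XX (Sb N) x) ^ 2 ∂(mu (Sb N)) ≤ K1 * exp (20 * ll N) := h3'
        _ = (K1 * exp (21 * ll N)) * exp (-ll N) := by
          have e9 : exp (20 * ll N) = exp (21 * ll N) * exp (-ll N) := by
            rw [← Real.exp_add]; congr 1; ring
          rw [e9]
          ring
        _ ≤ _ := mul_le_mul_of_nonneg_right hb2 (exp_pos _).le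
    have hE := exp_pos (-ll N)
    rw [hK3]
    linarith
  -- first
  obtain ⟨cc, hcc1, hcc2⟩ := obs_Mk' (n := Rn N + 1) hG le_rfl
  have hY : (N : ℝ) ^ (1 / 8 : ℝ) ≤ (Yb N : ℕ) := by
    have e1 : (N : ℝ) ^ (3 / 4 : ℝ) - 1 < (Yb N : ℕ) := Nat.sub_one_lt_floor _
    rw [zero_mul, Real.exp_zero, mul_one] at hb3
    have e2 : (N : ℝ) ^ (3 / 4 : ℝ) ≥ (N : ℝ) ^ (1 / 8 : ℝ) * (N : ℝ) ^ (1 / 8 : ℝ) := by
      rw [← Real.rpow_add hN0]
      apply Real.rpow_le_rpow_of_exponent_le _ (by norm_num)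
      by_contra hcon
      push Not at hcon
      have := Real.log_neg hN0 hcon
      linarith
    nlinarith
  have hSmY : ∀ n ∈ Finset.Icc 1 (Yb N), Sm (Sb N) n := by
    intro n hn
    rw [Finset.mem_Icc] at hn
    exact ⟨hn.1, fun p hp => mem_Sb hn.2 hn.1 hp⟩
  have f1 := EL_obs (S := Sb N) Sb_prime hcc1 hcc2
  have f2 := lin_obs (S := Sb N) Sb_prime hcc1 hcc2 (Yb N) hY hSmY (fun n => tp n * V5 N n)
  have f3 := integral_obs (S := Sb N) Sb_prime hcc1 hcc2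
  have f4 := hfirst A p1 N C le_rfl hA3 hC0 hG hAC
  have e1 : ∫ x, EL (Sb N) x * Mo A p1 N (XX (Sb N) x) ∂(mu (Sb N)) = ∑ n ∈ cc.support, cc n * tp n := f1
  have e2 : ∫ x, Mo A p1 N (XX (Sb N) x) * S5 N (XX (Sb N) x) ∂(mu (Sb N)) =
      ∑ n ∈ cc.support, cc n * (tp n * V5 N n) := f2
  have e3 : ∫ x, Mo A p1 N (XX (Sb N) x) ^ 2 ∂(mu (Sb N)) = ∑ n ∈ cc.support, cc n ^ 2 := f3
  have h5 : (∑ n ∈ cc.support, cc n * (tp n * (1 - V5 N n))) ^ 2 ≤ (c0 / 2) ^ 2 * exp (-ll N) := by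
    have g1 := Finset.sum_mul_sq_le_sq_mul_sq cc.support (fun n => cc n) (fun n => tp n * (1 - V5 N n))
    have g2 : ∑ n ∈ cc.support, (tp n * (1 - V5 N n)) ^ 2 ≤ 40 * (N : ℝ) ^ (-(3 / 8) : ℝ) := by
      have g3 : ∀ n ∈ cc.support, (tp n * (1 - V5 N n)) ^ 2 ≤ (2 * π * (N : ℝ) ^ (-(1 / 4) : ℝ)) ^ 2 := by
        intro n hn
        have g4 := V5_ge hlog n
        have g5 := V5_le_one hlog n
        have g6 := (hcc1 n hn).2
        have g7 : 2 * π * (N : ℝ) ^ (-(3 / 8) : ℝ) * n ≤ 2 * π * (N : ℝ) ^ (-(1 / 4) : ℝ) := by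
          have e4 : (N : ℝ) ^ (-(1 / 4) : ℝ) = (N : ℝ) ^ (-(3 / 8) : ℝ) * (N : ℝ) ^ (1 / 8 : ℝ) := by
            rw [← Real.rpow_add hN0]
            norm_num
          rw [e4, ← mul_assoc]
          exact mul_le_mul_of_nonneg_left g6 (by positivity)
        have g8 : tp n * (1 - V5 N n) ≤ 1 * (2 * π * (N : ℝ) ^ (-(1 / 4) : ℝ)) :=
          mul_le_mul (tp_le_one (hcc1 n hn).1.1) (by linarith) (by linarith) zero_le_one
        rw [one_mul] at g8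
        exact pow_le_pow_left₀ (mul_nonneg (tp_nonneg n) (by linarith)) g8 2
      refine (Finset.sum_le_card_nsmul _ _ _ g3).trans ?_
      rw [nsmul_eq_mul]
      have g4 : (cc.support.card : ℝ) ≤ (N : ℝ) ^ (1 / 8 : ℝ) := by
        have g5 : cc.support ⊆ Finset.Icc 1 ⌊(N : ℝ) ^ (1 / 8 : ℝ)⌋₊ := by
          intro n hn
          rw [Finset.mem_Icc]
          exact ⟨(hcc1 n hn).1.1, Nat.le_floor (hcc1 n hn).2⟩
        have g6 := Finset.card_le_card g5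
        rw [Nat.card_Icc, Nat.add_sub_cancel] at g6
        calc (cc.support.card : ℝ) ≤ (⌊(N : ℝ) ^ (1 / 8 : ℝ)⌋₊ : ℕ) := by exact_mod_cast g6
          _ ≤ _ := Nat.floor_le (by positivity)
      calc (cc.support.card : ℝ) * (2 * π * (N : ℝ) ^ (-(1 / 4) : ℝ)) ^ 2 ≤
          (N : ℝ) ^ (1 / 8 : ℝ) * (2 * π * (N : ℝ) ^ (-(1 / 4) : ℝ)) ^ 2 :=
            mul_le_mul_of_nonneg_right g4 (sq_nonneg _)
        _ = (4 * π ^ 2) * (N : ℝ) ^ (-(3 / 8) : ℝ) := by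
          have e4 : (N : ℝ) ^ (-(3 / 8) : ℝ) = (N : ℝ) ^ (1 / 8 : ℝ) * ((N : ℝ) ^ (-(1 / 4) : ℝ)) ^ 2 := by
            rw [← Real.rpow_natCast ((N : ℝ) ^ (-(1 / 4) : ℝ)) 2, ← Real.rpow_mul hN0.le,
              ← Real.rpow_add hN0]
            norm_num
          rw [e4]
          ring
        _ ≤ _ := by
          refine mul_le_mul_of_nonneg_right ?_ (by positivity)
          have := Real.pi_lt_d2
          nlinarith [Real.pi_pos]
    rw [← e3] at g1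
    refine g1.trans ?_
    have g3 : (∫ x, Mo A p1 N (XX (Sb N) x) ^ 2 ∂(mu (Sb N))) *
        ∑ n ∈ cc.support, (tp n * (1 - V5 N n)) ^ 2 ≤
        (K1 * exp (20 * ll N)) * (40 * (N : ℝ) ^ (-(3 / 8) : ℝ)) :=
      mul_le_mul h3' g2 (Finset.sum_nonneg fun _ _ => sq_nonneg _) (by positivity)
    refine g3.trans ?_
    rw [Real.rpow_neg hN0.le]
    have g4 : 0 < (N : ℝ) ^ (3 / 8 : ℝ) := by positivity
    have g5 : (K1 * exp (20 * ll N)) * (40 * ((N : ℝ) ^ (3 / 8 : ℝ))⁻¹) =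
        ((c0 / 2) ^ 2 * exp (-ll N)) * ((160 * K1 / c0 ^ 2 * exp (21 * ll N)) / (N : ℝ) ^ (3 / 8 : ℝ)) := by
      have e5 : exp (20 * ll N) = exp (-ll N) * exp (21 * ll N) := by
        rw [← Real.exp_add]; congr 1; ring
      rw [e5]
      field_simp
      ring
    rw [g5]
    refine mul_le_of_le_one_right (by positivity) ?_
    rw [div_le_one g4]
    exact hb1
  have h6 : |∑ n ∈ cc.support, cc n * (tp n * (1 - V5 N n))| ≤ (c0 / 2) * exp (-(ll N / 2)) := by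
    apply abs_le_of_sq_le_sq _ (by positivity)
    rw [mul_pow, ← Real.exp_nat_mul]
    have : ((2 : ℕ) : ℝ) * -(ll N / 2) = -ll N := by push_cast; ring
    rw [this]
    exact h5
  have h7 : ∑ n ∈ cc.support, cc n * (tp n * (1 - V5 N n)) =
      ∑ n ∈ cc.support, cc n * tp n - ∑ n ∈ cc.support, cc n * (tp n * V5 N n) := by
    rw [← Finset.sum_sub_distrib]
    exact Finset.sum_congr rfl fun n _ => by ring
  have h8 : c0 * exp (-(ll N / 2)) ≤ ∫ x, EL (Sb N) x * Mo A p1 N (XX (Sb N) x) ∂(mu (Sb N)) := by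
    refine le_trans ?_ f4
    rw [hc0, mul_assoc, ← Real.exp_add]
    refine mul_le_mul_of_nonneg_left (exp_le_exp.2 (by linarith)) (by norm_num)
  refine ⟨hG, ?_, ?_, ?_, ?_⟩
  · rw [e2]
    rw [e1] at h8
    rw [h7] at h6
    have := (abs_le.1 h6).2
    linarith
  · refine h2.trans (mul_le_mul_of_nonneg_right ?_ (exp_pos _).le)
    linarith
  · refine h3'.trans (mul_le_mul_of_nonneg_right ?_ (exp_pos _).le)
    linarith
  · refine h4.trans (mul_le_mul_of_nonneg_right ?_ (exp_pos _).le)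
    linarith

end Pool.Agent.H485.CC
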