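import Pool.Agent.H485.CC.Mla
import Pool.Agent.H485.CC.Hm2

/-!
# The exact approximate functional equation for even forms
-/

set_option autoImplicit false
set_option maxHeartbeats 1000000

open MeasureTheory Real Finset Filter

namespace Pool.Agent.H485.CC

open W388.LV (SF om IsNewSet)
open Pool.Agent.Y18.BSD Pool.Agent.K4H13.CV

lemma sum_pt {N : ℕ} [NeZero N] (f : SF N 2) {y : ℝ} (hy : 0 < y) :
    ∑' n : ℕ, (UpperHalfPlane.qExpansion 1 f).coeff n * (Real.exp (-(2 * Real.pi * n * y)) : ℂ) =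
      f (W388.XPars.pt 0 y hy) := by
  rw [← (W388.XPars.hasSum_f f 0 y hy).tsum_eq]
  refine tsum_congr fun n => ?_
  congr 1
  unfold Function.Periodic.qParam
  rw [← Complex.exp_nat_mul, Complex.ofReal_exp]
  congr 1
  push_cast
  have hI : Complex.I ^ 2 = -1 := Complex.I_sq
  linear_combination (-(2 * Real.pi * n * y) : ℂ) * hI

lemma fr_rel {N : ℕ} [NeZero N] {f : SF N 2} (hf : W388.IsNewf N 2 f 1) (t : ℝ) (ht : 0 < t) :
    ∑' n : ℕ, (UpperHalfPlane.qExpansion 1 f).coeff n * (Real.exp (-(2 * Real.pi * n / Real.sqrt N) / t) : ℂ) =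
    1 * (t : ℂ) ^ 2 * ∑' n : ℕ, (starRingEnd ℂ) ((UpperHalfPlane.qExpansion 1 f).coeff n) *
      (Real.exp (-(2 * Real.pi * n / Real.sqrt N) * t) : ℂ) := by
  have hN : (0 : ℝ) < N := Nat.cast_pos.2 (Nat.pos_of_ne_zero (NeZero.ne N))
  have hs : 0 < Real.sqrt N := Real.sqrt_pos.2 hN
  have h1 : 0 < 1 / (Real.sqrt N * t) := by positivity
  have h2 : 0 < t / Real.sqrt N := by positivity
  have e1 := sum_pt f h1
  have e2 := sum_pt f h2
  have a1 : ∑' n : ℕ, (UpperHalfPlane.qExpansion 1 f).coeff n * (Real.exp (-(2 * Real.pi * n / Real.sqrt N) / t) : ℂ) =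
      f (W388.XPars.pt 0 (1 / (Real.sqrt N * t)) h1) := by
    rw [← e1]
    refine tsum_congr fun n => ?_
    congr 3
    field_simp
  have a2 : ∑' n : ℕ, (starRingEnd ℂ) ((UpperHalfPlane.qExpansion 1 f).coeff n) *
      (Real.exp (-(2 * Real.pi * n / Real.sqrt N) * t) : ℂ) = f (W388.XPars.pt 0 (t / Real.sqrt N) h2) := by
    rw [← e2]
    refine tsum_congr fun n => ?_
    rw [Complex.conj_eq_iff_im.2 (hf.real n)]
    congr 3
    field_simp
  rw [a1, a2]
  have hfr := hf.fricke (W388.XPars.pt 0 (t / Real.sqrt N) h2) (W388.XPars.pt 0 (1 / (Real.sqrt N * t)) h1) (by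
    show (((0 : ℝ) : ℂ) + ((1 / (Real.sqrt N * t) : ℝ) : ℂ) * Complex.I) * ((N : ℂ) * (((0 : ℝ) : ℂ) + ((t / Real.sqrt N : ℝ) : ℂ) * Complex.I)) = -1
    have hN2 : (N : ℂ) = ((Real.sqrt N : ℝ) : ℂ) * ((Real.sqrt N : ℝ) : ℂ) := by
      rw [← Complex.ofReal_mul, Real.mul_self_sqrt hN.le]
      simp
    have hs' : ((Real.sqrt N : ℝ) : ℂ) ≠ 0 := by exact_mod_cast hs.ne'
    have ht' : (t : ℂ) ≠ 0 := by exact_mod_cast ht.ne'
    rw [hN2]
    push_cast
    field_simp
    have hI : Complex.I ^ 2 = -1 := Complex.I_sq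
    linear_combination (t : ℂ) * hI)
  rw [hfr]
  have hz : ((W388.XPars.pt 0 (t / Real.sqrt N) h2 : UpperHalfPlane) : ℂ) = ((t / Real.sqrt N : ℝ) : ℂ) * Complex.I := by
    show (((0 : ℝ) : ℂ) + ((t / Real.sqrt N : ℝ) : ℂ) * Complex.I) = _
    simp
  rw [hz]
  have hs' : ((Real.sqrt N : ℝ) : ℂ) ≠ 0 := by exact_mod_cast hs.ne'
  have e3 : ((Real.sqrt N : ℝ) : ℂ) * (((t / Real.sqrt N : ℝ) : ℂ) * Complex.I) / Complex.I = (t : ℂ) := by
    push_cast
    field_simp
  rw [e3]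
  norm_cast

open Complex in
open Pool.Agent.TH940 (mellin2 coeff_bd) in
lemma afe0_even {N : ℕ} [NeZero N] {f : Cf2 N} (hf : W388.IsNewf N 2 f 1) :
    ∀ X Y : ℝ, 0 < X → 0 < Y → X * Y = N / (4 * Real.pi ^ 2) →
      bv f 0 = ∑' n : ℕ, ((W388.lamf f n * tp n * Real.exp (-(n / X)) : ℝ) : ℂ) +
        1 * ∑' n : ℕ, ((W388.lamf f n * tp n * Real.exp (-(n / Y)) : ℝ) : ℂ) := by
  have hN1 : (1 : ℝ) ≤ N := by exact_mod_cast Nat.pos_of_ne_zero (NeZero.ne N)
  have hs1 : (1 : ℝ) ≤ Real.sqrt N := by rw [Real.one_le_sqrt]; exact hN1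
  obtain ⟨C, hC0, hC⟩ := coeff_bd f
  obtain ⟨K, -, hK⟩ := mellin2 1 C (by norm_num) (by norm_num)
  obtain ⟨F, hF1, hF2, hF3, -⟩ := hK (fun n => (UpperHalfPlane.qExpansion 1 f).coeff n)
    (Real.sqrt N) hs1 (W388.coeff_zero f) (fun n hn => hC n hn) 1 (by simp) (fun t ht => fr_rel hf t ht)
  have hre : ∀ n, (((UpperHalfPlane.qExpansion 1 f).coeff n).re : ℂ) = (UpperHalfPlane.qExpansion 1 f).coeff n := by
    intro n
    apply Complex.ext
    · rw [Complex.ofReal_re]
    · rw [Complex.ofReal_im]; exact (hf.real n).symm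
  have hF0 : F (1 / 2) = bv f 0 := by
    have hL : IsL f F := by
      refine ⟨hF1, fun s hs => ?_⟩
      rw [hF2 s (by linarith)]
      refine tsum_congr fun n => ?_
      rcases Nat.eq_zero_or_pos n with rfl | hn
      · unfold W388.lamf
        rw [W388.coeff_zero f]
        simp
      · have hn' : (0 : ℝ) < n := by exact_mod_cast hn
        have hnc : (n : ℂ) ≠ 0 := by exact_mod_cast hn.ne'
        unfold W388.lamf
        have e1 : ((((2 : ℤ) : ℝ) - 1) / 2) = 1 / 2 := by norm_num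
        rw [e1, Complex.ofReal_div, hre n, Complex.ofReal_cpow hn'.le, neg_add, Complex.cpow_add _ _ hnc]
        push_cast
        rw [Complex.cpow_neg (n : ℂ) (1 / 2)]
        ring
    exact lv_eq hf hL
  intro X Y hX hY hXY
  rw [← hF0, hF3 X Y hX hY (by rw [hXY, Real.sq_sqrt (by linarith)])]
  have key : ∀ n : ℕ, (UpperHalfPlane.qExpansion 1 f).coeff n / n = ((W388.lamf f n * tp n : ℝ) : ℂ) := by
    intro n
    rcases Nat.eq_zero_or_pos n with rfl | hn
    · rw [W388.coeff_zero f]; simp [tp]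
    · have hn' : (0 : ℝ) < n := by exact_mod_cast hn
      unfold W388.lamf tp
      have e1 : ((((2 : ℤ) : ℝ) - 1) / 2) = 1 / 2 := by norm_num
      rw [e1, ← Real.sqrt_eq_rpow]
      have e2 : ((UpperHalfPlane.qExpansion 1 f).coeff n).re / Real.sqrt n * (Real.sqrt n)⁻¹ =
          ((UpperHalfPlane.qExpansion 1 f).coeff n).re / n := by
        rw [← div_eq_mul_inv, div_div, Real.mul_self_sqrt hn'.le]
      rw [e2, Complex.ofReal_div, hre n]
      rfl
  congr 1
  · refine tsum_congr fun n => ?_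
    rw [key, ← Complex.ofReal_mul]
  · congr 1
    refine tsum_congr fun n => ?_
    rw [← hre n, Complex.conj_ofReal, hre n, key, ← Complex.ofReal_mul]

/-- the approximate functional equation -/
theorem afe_even {N : ℕ} [NeZero N] (hNp : N.Prime) {f : Cf2 N} (hf : W388.IsNewf N 2 f 1)
    (m : ℕ) {h : ℝ} (hh : 0 < h) :
    bv f 0 = ((2 * ∑' n : ℕ, W388.lamf f n * tp n *
      Vw (nu m h) (Zs m) (2 * π / Real.sqrt N * n) : ℝ) : ℂ) := by
  have hN0 : (0 : ℝ) < N := by exact_mod_cast hNp.pos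
  have hs0 : 0 < Real.sqrt N := Real.sqrt_pos.2 hN0
  have h0 := afe0_even hf
  have hc : 0 < 2 * π / Real.sqrt N := by positivity
  have h1 := avg (abs_lam_tp hNp hf) hc (m := m) hh (bv f 0) 1 (fun v => by
    have h2 := h0 (exp (-v) * (Real.sqrt N / (2 * π))) (exp v * (Real.sqrt N / (2 * π)))
      (by positivity) (by positivity) (by
        have e1 : exp (-v) * exp v = 1 := by rw [← exp_add]; simp
        have e2 : Real.sqrt N * Real.sqrt N = N := Real.mul_self_sqrt hN0.le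
        calc exp (-v) * (Real.sqrt N / (2 * π)) * (exp v * (Real.sqrt N / (2 * π))) =
            (exp (-v) * exp v) * (Real.sqrt N * Real.sqrt N) / (4 * π ^ 2) := by field_simp; ring
          _ = _ := by rw [e1, e2, one_mul])
    rw [h2, Complex.ofReal_tsum, Complex.ofReal_tsum]
    congr 1
    · refine tsum_congr fun n => ?_
      congr 3
      rw [exp_neg]
      field_simp
    · congr 1
      refine tsum_congr fun n => ?_
      congr 3
      rw [exp_neg v]
      field_simp)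
  rw [h1]
  push_cast
  ring

/-- the central value of an even form -/
theorem bv_even : ∀ᶠ N : ℕ in atTop, N.Prime → ∀ [NeZero N] (f : SF N 2),
    W388.IsNewf N 2 f 1 → ∃ v : ℝ, bv f 0 = (v : ℂ) ∧ |v - 2 * S5 N (W388.lamf f)| ≤ 2 / N := by
  filter_upwards [tail5, ev_log 1] with N h1 h3 hp _ f hf
  have e1 := afe_even hp hf 10 (hv_pos h3)
  have e2 := h1 (fun n => W388.lamf f n * tp n) (abs_lam_tp hp hf)
  have e3 : ∑ n ∈ Finset.Icc 1 (Yb N), W388.lamf f n * tp n * V5 N n = S5 N (W388.lamf f) := by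
    unfold S5
    exact Finset.sum_congr rfl fun n _ => by ring
  rw [e3] at e2
  have e4 : ∑' n : ℕ, W388.lamf f n * tp n * Vw (nu 10 (hv N)) (Zs 10) (2 * π / Real.sqrt N * n) =
      ∑' n : ℕ, W388.lamf f n * tp n * V5 N n := rfl
  rw [e4] at e1
  refine ⟨_, e1, ?_⟩
  have e5 : 2 * ∑' n : ℕ, W388.lamf f n * tp n * V5 N n - 2 * S5 N (W388.lamf f) =
      2 * (∑' n : ℕ, W388.lamf f n * tp n * V5 N n - S5 N (W388.lamf f)) := by ring
  rw [e5, abs_mul, abs_two]
  have e6 : (2 : ℝ) / N = 2 * (1 / N) := by ring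
  rw [e6]
  exact mul_le_mul_of_nonneg_left e2 (by norm_num)

end Pool.Agent.H485.CC
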