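import Pool.Agent.H485.CC.St

/-!
# The random model, and observables which are combinations of Hecke eigenvalues
-/

set_option autoImplicit false

open MeasureTheory Real Finset

namespace Pool.Agent.H485.CC

/-- the Sato-Tate measure on the product over a finite set of primes -/
noncomputable def mu (S : Finset ℕ) : Measure (S → ℝ) := Measure.pi fun _ => st

instance (S : Finset ℕ) : IsProbabilityMeasure (mu S) := by unfold mu; infer_instance

/-- the random multiplicative function -/
noncomputable def XX (S : Finset ℕ) (x : S → ℝ) (n : ℕ) : ℝ :=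
  ∏ p : S, uu (n.factorization p) (x p)

/-- Hecke relations at the primes in `S` -/
structure HRel (S : Finset ℕ) (lam : ℕ → ℝ) : Prop where
  one : lam 1 = 1
  mul : ∀ p ∈ S, ∀ n : ℕ, 1 ≤ n →
    lam p * lam n = lam (p * n) + if p ∣ n then lam (n / p) else 0

variable {S : Finset ℕ}

lemma XX_one (x : S → ℝ) : XX S x 1 = 1 := by
  unfold XX
  simp [uu_zero]

lemma XX_prime (hS : ∀ p ∈ S, p.Prime) (x : S → ℝ) {p : ℕ} (hp : p ∈ S) :
    XX S x p = uu 1 (x ⟨p, hp⟩) := by
  unfold XX
  rw [Fintype.prod_eq_single (⟨p, hp⟩ : S)]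
  · rw [(hS p hp).factorization]; simp
  · intro q hq
    rw [(hS p hp).factorization]
    have : (q : ℕ) ≠ p := fun h => hq (Subtype.ext h)
    rw [Finsupp.single_apply, if_neg (Ne.symm this), uu_zero]

lemma XX_hrel (hS : ∀ p ∈ S, p.Prime) (x : S → ℝ) : HRel S (XX S x) := by
  refine ⟨XX_one x, fun p hp n hn => ?_⟩
  have hpp := hS p hp
  have hn0 : n ≠ 0 := by omega
  rw [XX_prime hS x hp]
  have key : ∀ m : ℕ, (∀ q : S, (q : ℕ) ≠ p → m.factorization q = n.factorization q) →
      XX S x m = uu (m.factorization p) (x ⟨p, hp⟩) *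
        ∏ q ∈ univ.erase (⟨p, hp⟩ : S), uu (n.factorization q) (x q) := by
    intro m hm
    unfold XX
    rw [← Finset.mul_prod_erase univ _ (mem_univ (⟨p, hp⟩ : S))]
    congr 1
    refine Finset.prod_congr rfl fun q hq => ?_
    rw [hm q fun h => (Finset.mem_erase.1 hq).1 (Subtype.ext h)]
  have e1 : (p * n).factorization = Finsupp.single p 1 + n.factorization := by
    rw [Nat.factorization_mul hpp.ne_zero hn0, hpp.factorization]
  have h1 := key n fun q _ => rfl
  have h2 := key (p * n) fun q hq => by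
    rw [e1, Finsupp.add_apply, Finsupp.single_apply, if_neg (Ne.symm hq), zero_add]
  have e2 : (p * n).factorization p = n.factorization p + 1 := by
    rw [e1, Finsupp.add_apply, Finsupp.single_apply, if_pos rfl, add_comm]
  rw [h1, h2, e2]
  split_ifs with hd
  · have e3 : (n / p).factorization = n.factorization - Finsupp.single p 1 := by
      rw [Nat.factorization_div hd, hpp.factorization]
    have h3 := key (n / p) fun q hq => by
      rw [e3, Finsupp.tsub_apply, Finsupp.single_apply, if_neg (Ne.symm hq), Nat.sub_zero]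
    have e4 : (n / p).factorization p = n.factorization p - 1 := by
      rw [e3, Finsupp.tsub_apply, Finsupp.single_apply, if_pos rfl]
    have hv : 1 ≤ n.factorization p := (hpp.dvd_iff_one_le_factorization hn0).1 hd
    obtain ⟨v, hv'⟩ : ∃ v, n.factorization p = v + 1 := ⟨n.factorization p - 1, by omega⟩
    rw [h3, e4, hv']
    have := one_mul_uu v (x ⟨p, hp⟩)
    rw [Nat.add_sub_cancel, ← mul_assoc, this]
    ring
  · have hv : n.factorization p = 0 := Nat.factorization_eq_zero_of_not_dvd hd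
    rw [hv, uu_zero, zero_add]
    ring

lemma abs_XX_le (x : S → ℝ) (n : ℕ) : |XX S x n| ≤ ∏ p ∈ S, ((n.factorization p : ℝ) + 1) := by
  unfold XX
  rw [Finset.abs_prod, ← Finset.prod_coe_sort S (fun p => ((n.factorization p : ℝ) + 1))]
  exact Finset.prod_le_prod (fun _ _ => abs_nonneg _) fun p _ => abs_uu_le _ _

lemma continuous_XX (n : ℕ) : Continuous fun x : S → ℝ => XX S x n := by
  unfold XX
  exact continuous_finsetProd _ fun p _ => (continuous_uu _).comp (continuous_apply p)

/-- bounded continuous functions are integrable -/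
lemma integrable_mu {E : Type} [NormedAddCommGroup E] [SecondCountableTopology E]
    {g : (S → ℝ) → E} (hg : Continuous g)
    {C : ℝ} (hC : ∀ θ, ‖g θ‖ ≤ C) : Integrable g (mu S) :=
  Integrable.of_bound hg.aestronglyMeasurable C (Filter.Eventually.of_forall hC)

/-- `n` is a product of primes in `S` -/
def Sm (S : Finset ℕ) (n : ℕ) : Prop := 1 ≤ n ∧ n.primeFactors ⊆ S

lemma Sm.mul_prime {n p : ℕ} (h : Sm S n) (hS : ∀ p ∈ S, p.Prime) (hp : p ∈ S) : Sm S (p * n) := by
  have hpp := hS p hp
  have hn0 : n ≠ 0 := by have := h.1; omega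
  refine ⟨Nat.mul_pos hpp.pos h.1, ?_⟩
  rw [Nat.primeFactors_mul hpp.ne_zero hn0, hpp.primeFactors]
  intro q hq
  rw [mem_union, mem_singleton] at hq
  rcases hq with rfl | hq
  · exact hp
  · exact h.2 hq

lemma Sm.div {n p : ℕ} (h : Sm S n) (hd : p ∣ n) : Sm S (n / p) := by
  have hn0 : n ≠ 0 := by have := h.1; omega
  obtain ⟨m, rfl⟩ := hd
  have hp0 : p ≠ 0 := fun h => hn0 (by rw [h, zero_mul])
  have hm0 : m ≠ 0 := fun h => hn0 (by rw [h, mul_zero])
  rw [Nat.mul_div_cancel_left _ (Nat.pos_of_ne_zero hp0)]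
  refine ⟨Nat.pos_of_ne_zero hm0, ?_⟩
  intro q hq
  apply h.2
  rw [Nat.primeFactors_mul hp0 hm0]
  exact mem_union_right _ hq

lemma orth_XX {m n : ℕ} (hm : Sm S m) (hn : Sm S n) :
    ∫ x, XX S x m * XX S x n ∂(mu S) = if m = n then 1 else 0 := by
  unfold XX mu
  simp_rw [← Finset.prod_mul_distrib]
  rw [integral_fintype_prod_eq_prod (μ := fun _ : S => st)
    (f := fun (p : S) t => uu (m.factorization p) t * uu (n.factorization p) t)]
  simp_rw [orth_st]
  split_ifs with h
  · subst h; simp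
  · have : ∃ p : S, m.factorization p ≠ n.factorization p := by
      by_contra hc
      push Not at hc
      apply h
      apply Nat.eq_of_factorization_eq (by have := hm.1; omega) (by have := hn.1; omega)
      intro p
      by_cases hp : p ∈ S
      · exact hc ⟨p, hp⟩
      · have h1 : m.factorization p = 0 := by
          rw [← Finsupp.notMem_support_iff, Nat.support_factorization]
          exact fun h => hp (hm.2 h)
        have h2 : n.factorization p = 0 := by
          rw [← Finsupp.notMem_support_iff, Nat.support_factorization]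
          exact fun h => hp (hn.2 h)
        rw [h1, h2]
    obtain ⟨p, hp⟩ := this
    exact Finset.prod_eq_zero (mem_univ p) (if_neg hp)

/-- combinations of `lam n`, `n ≤ D` -/
def Obs (S : Finset ℕ) (D : ℝ) (F : (ℕ → ℝ) → ℝ) : Prop :=
  ∃ c : ℕ →₀ ℝ, (∀ n ∈ c.support, Sm S n ∧ (n : ℝ) ≤ D) ∧
    ∀ lam : ℕ → ℝ, HRel S lam → F lam = c.sum fun n a => a * lam n

namespace Obs

variable {D : ℝ} {F G : (ℕ → ℝ) → ℝ}

lemma mono {D' : ℝ} (h : Obs S D F) (hD : D ≤ D') : Obs S D' F := by
  obtain ⟨c, h1, h2⟩ := h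
  exact ⟨c, fun n hn => ⟨(h1 n hn).1, (h1 n hn).2.trans hD⟩, h2⟩

lemma congr (h : Obs S D F) (hFG : ∀ lam, HRel S lam → F lam = G lam) : Obs S D G := by
  obtain ⟨c, h1, h2⟩ := h
  exact ⟨c, h1, fun lam hl => by rw [← hFG lam hl, h2 lam hl]⟩

lemma zero : Obs S D fun _ => 0 := by
  refine ⟨0, by simp, fun lam _ => by simp⟩

lemma single {n : ℕ} (hn : Sm S n) (hD : (n : ℝ) ≤ D) (a : ℝ) : Obs S D fun lam => a * lam n := by
  refine ⟨Finsupp.single n a, fun m hm => ?_, fun lam _ => ?_⟩
  · have := Finsupp.support_single_subset hm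
    rw [mem_singleton] at this
    rw [this]
    exact ⟨hn, hD⟩
  · rw [Finsupp.sum_single_index (by simp)]

lemma const (hD : 1 ≤ D) (a : ℝ) : Obs S D fun _ => a := by
  have h : Obs S D fun lam => a * lam 1 := single ⟨le_refl _, by simp⟩ (by simpa using hD) a
  exact h.congr fun lam hl => by rw [hl.one, mul_one]

lemma add (h : Obs S D F) (h' : Obs S D G) : Obs S D fun lam => F lam + G lam := by
  obtain ⟨c, h1, h2⟩ := h
  obtain ⟨c', h1', h2'⟩ := h'
  refine ⟨c + c', fun n hn => ?_, fun lam hl => ?_⟩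
  · have := Finsupp.support_add hn
    rw [mem_union] at this
    rcases this with h | h
    · exact h1 n h
    · exact h1' n h
  · show F lam + G lam = _
    rw [h2 lam hl, h2' lam hl, Finsupp.sum_add_index' (by simp) (by intros; ring)]

lemma smul (h : Obs S D F) (a : ℝ) : Obs S D fun lam => a * F lam := by
  obtain ⟨c, h1, h2⟩ := h
  refine ⟨a • c, fun n hn => h1 n (Finsupp.support_smul hn), fun lam hl => ?_⟩
  show a * F lam = _
  rw [h2 lam hl, Finsupp.sum_smul_index (by simp), Finsupp.mul_sum]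
  exact Finsupp.sum_congr fun n _ => by ring

lemma sum {ι : Type} (s : Finset ι) (f : ι → (ℕ → ℝ) → ℝ) (h : ∀ i ∈ s, Obs S D (f i)) :
    Obs S D fun lam => ∑ i ∈ s, f i lam := by
  classical
  induction s using Finset.induction_on with
  | empty => simpa using zero
  | insert a s ha ih =>
    have h1 := (h a (mem_insert_self _ _)).add (ih fun i hi => h i (mem_insert_of_mem hi))
    exact h1.congr fun lam _ => by rw [Finset.sum_insert ha]

lemma mul_prime (hS : ∀ p ∈ S, p.Prime) (h : Obs S D F) {p : ℕ} (hp : p ∈ S) :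
    Obs S (p * D) fun lam => lam p * F lam := by
  obtain ⟨c, h1, h2⟩ := h
  have hpp := hS p hp
  have h1p : (1 : ℝ) ≤ p := by exact_mod_cast hpp.one_le
  have key : ∀ n ∈ c.support, Obs S (p * D) fun lam =>
      c n * lam (p * n) + c n * (if p ∣ n then lam (n / p) else 0) := by
    intro n hn
    obtain ⟨hs, hD⟩ := h1 n hn
    have hn1 : (1 : ℝ) ≤ n := by exact_mod_cast hs.1
    have hD0 : 0 ≤ D := by linarith
    refine (single (hs.mul_prime hS hp) ?_ _).add ?_
    · push_cast
      exact mul_le_mul_of_nonneg_left hD (by linarith)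
    · by_cases hd : p ∣ n
      · simp only [if_pos hd]
        refine single (hs.div hd) ?_ _
        have h3 : ((n / p : ℕ) : ℝ) ≤ n := by exact_mod_cast Nat.div_le_self n p
        calc ((n / p : ℕ) : ℝ) ≤ D := h3.trans hD
          _ = 1 * D := (one_mul _).symm
          _ ≤ p * D := mul_le_mul_of_nonneg_right h1p hD0
      · simp only [if_neg hd, mul_zero]
        exact zero
  refine (sum c.support _ key).congr fun lam hl => ?_
  rw [h2 lam hl, Finsupp.sum, Finset.mul_sum]
  refine Finset.sum_congr rfl fun n hn => ?_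
  have := hl.mul p hp n (h1 n hn).1.1
  calc c n * lam (p * n) + c n * (if p ∣ n then lam (n / p) else 0) =
      c n * (lam (p * n) + if p ∣ n then lam (n / p) else 0) := by ring
    _ = _ := by rw [← this]; ring

lemma mul_lin (hS : ∀ p ∈ S, p.Prime) (h : Obs S D F) {S' : Finset ℕ} (hS' : S' ⊆ S) {z : ℝ}
    (hz : ∀ p ∈ S', (p : ℝ) ≤ z) (hD : 0 ≤ D) (w : ℕ → ℝ) :
    Obs S (z * D) fun lam => (∑ p ∈ S', w p * lam p) * F lam := by
  have := sum S' (fun p lam => w p * (lam p * F lam)) fun p hp =>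
    ((h.mul_prime hS (hS' hp)).smul (w p)).mono (mul_le_mul_of_nonneg_right (hz p hp) hD)
  exact this.congr fun lam _ => by
    rw [Finset.sum_mul]
    exact Finset.sum_congr rfl fun p _ => by ring

lemma mul_sq (hS : ∀ p ∈ S, p.Prime) (h : Obs S D F) {S' : Finset ℕ} (hS' : S' ⊆ S) {z : ℝ}
    (hz : ∀ p ∈ S', (p : ℝ) ≤ z) (hD : 0 ≤ D) (w : ℕ → ℝ) (hz0 : 0 ≤ z) :
    Obs S (z ^ 2 * D) fun lam => (∑ p ∈ S', w p * lam p ^ 2) * F lam := by
  have := sum S' (fun p lam => w p * (lam p * (lam p * F lam))) fun p hp =>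
    (((h.mul_prime hS (hS' hp)).mul_prime hS (hS' hp)).smul (w p)).mono (by
      have h1 := hz p hp
      have h2 : (0 : ℝ) ≤ p := Nat.cast_nonneg p
      calc (p : ℝ) * (p * D) ≤ z * (z * D) :=
            mul_le_mul h1 (mul_le_mul_of_nonneg_right h1 hD) (by positivity) hz0
        _ = z ^ 2 * D := by ring)
  exact this.congr fun lam _ => by
    rw [Finset.sum_mul]
    exact Finset.sum_congr rfl fun p _ => by ring

/-- powers -/
lemma mul_pow {A : (ℕ → ℝ) → ℝ} {z : ℝ} (hz : 1 ≤ z)
    (hA : ∀ (D : ℝ) (F : (ℕ → ℝ) → ℝ), 0 ≤ D → Obs S D F → Obs S (z * D) fun lam => A lam * F lam)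
    (hD : 0 ≤ D) (h : Obs S D F) (j : ℕ) : Obs S (z ^ j * D) fun lam => A lam ^ j * F lam := by
  induction j with
  | zero => simpa using h
  | succ j ih =>
    have := hA _ _ (by positivity) ih
    have e : z * (z ^ j * D) = z ^ (j + 1) * D := by ring
    rw [e] at this
    exact this.congr fun lam _ => by ring

lemma mul_poly {A : (ℕ → ℝ) → ℝ} {z : ℝ} (hz : 1 ≤ z)
    (hA : ∀ (D : ℝ) (F : (ℕ → ℝ) → ℝ), 0 ≤ D → Obs S D F → Obs S (z * D) fun lam => A lam * F lam)
    (hD : 0 ≤ D) (h : Obs S D F) (J : ℕ) (w : ℕ → ℝ) :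
    Obs S (z ^ J * D) fun lam => (∑ j ∈ range (J + 1), w j * A lam ^ j) * F lam := by
  have := sum (D := z ^ J * D) (range (J + 1)) (fun j lam => w j * (A lam ^ j * F lam)) fun j hj =>
    ((mul_pow hz hA hD h j).smul (w j)).mono (mul_le_mul_of_nonneg_right
      (pow_le_pow_right₀ hz (Nat.lt_succ_iff.1 (mem_range.1 hj))) hD)
  refine this.congr fun lam _ => ?_
  show ∑ i ∈ range (J + 1), w i * (A lam ^ i * F lam) = (∑ j ∈ range (J + 1), w j * A lam ^ j) * F lam
  rw [Finset.sum_mul]
  exact Finset.sum_congr rfl fun p _ => by ring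

end Obs

/-- the mean square in the model -/
lemma integral_obs {D : ℝ} {F : (ℕ → ℝ) → ℝ} (hS : ∀ p ∈ S, p.Prime) {c : ℕ →₀ ℝ}
    (hc : ∀ n ∈ c.support, Sm S n ∧ (n : ℝ) ≤ D)
    (hF : ∀ lam : ℕ → ℝ, HRel S lam → F lam = c.sum fun n a => a * lam n) :
    ∫ x, F (XX S x) ^ 2 ∂(mu S) = ∑ n ∈ c.support, c n ^ 2 := by
  have h1 : ∀ x, F (XX S x) ^ 2 = ∑ m ∈ c.support, ∑ n ∈ c.support,
      c m * c n * (XX S x m * XX S x n) := by
    intro x
    rw [hF _ (XX_hrel hS x), Finsupp.sum, sq, Finset.sum_mul_sum]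
    exact Finset.sum_congr rfl fun m _ => Finset.sum_congr rfl fun n _ => by ring
  have hint : ∀ m n, Integrable (fun x => c m * c n * (XX S x m * XX S x n)) (mu S) := by
    intro m n
    refine integrable_mu (C := |c m * c n| * ((∏ p ∈ S, ((m.factorization p : ℝ) + 1)) *
      ∏ p ∈ S, ((n.factorization p : ℝ) + 1))) ?_ fun x => ?_
    · exact continuous_const.mul ((continuous_XX m).mul (continuous_XX n))
    · rw [Real.norm_eq_abs, abs_mul, abs_mul (XX S x m)]
      exact mul_le_mul_of_nonneg_left (mul_le_mul (abs_XX_le x m) (abs_XX_le x n) (abs_nonneg _)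
        (Finset.prod_nonneg fun _ _ => by positivity)) (abs_nonneg _)
  simp_rw [h1]
  rw [integral_finsetSum _ fun m _ => integrable_finsetSum _ fun n _ => hint m n]
  refine Finset.sum_congr rfl fun m hm => ?_
  rw [integral_finsetSum _ fun n _ => hint m n]
  rw [Finset.sum_eq_single m]
  · rw [integral_const_mul, orth_XX (hc m hm).1 (hc m hm).1, if_pos rfl]; ring
  · intro n hn hnm
    rw [integral_const_mul, orth_XX (hc m hm).1 (hc n hn).1, if_neg (Ne.symm hnm), mul_zero]
  · intro h; exact absurd hm h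

end Pool.Agent.H485.CC
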