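import Pool.Agent.H485.CC.Par

/-!
# Sums of a nonnegative multiplicative function
-/

set_option autoImplicit false
set_option maxHeartbeats 4000000

open Real Finset Filter

namespace Pool.Agent.H485.CC

lemma abel {l w : ℕ → ℝ} {c : ℝ} (hw0 : ∀ n, 0 ≤ w n) (hw : Antitone w)
    (hl : ∀ n, ∑ k ∈ Finset.Icc 1 n, l k ≤ c * n) (M : ℕ) :
    ∑ k ∈ Finset.Icc 1 M, l k * w k ≤ c * ∑ k ∈ Finset.Icc 1 M, w k := by
  have key : ∀ M : ℕ, ∑ k ∈ Finset.Icc 1 M, l k * w k ≤ c * ∑ k ∈ Finset.Icc 1 M, w k -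
      (c * M - ∑ k ∈ Finset.Icc 1 M, l k) * w M := by
    intro M
    induction M with
    | zero => simp
    | succ M ih =>
      rw [Finset.sum_Icc_succ_top (by omega), Finset.sum_Icc_succ_top (by omega),
        Finset.sum_Icc_succ_top (by omega)]
      have h1 := hl M
      have h2 := hw (Nat.le_succ M)
      have h3 : 0 ≤ (c * M - ∑ k ∈ Finset.Icc 1 M, l k) * (w M - w (M + 1)) :=
        mul_nonneg (by linarith) (by linarith)
      push_cast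
      linarith
  have h1 := hl M
  have h2 : 0 ≤ (c * M - ∑ k ∈ Finset.Icc 1 M, l k) * w M := mul_nonneg (by linarith) (hw0 M)
  linarith [key M]

lemma sum_exp_le {Y : ℝ} (hY : 0 < Y) (M : ℕ) : ∑ n ∈ Finset.Icc 1 M, exp (-(n / Y)) ≤ Y := by
  have h1 : ∀ n : ℕ, exp (-(n / Y)) = exp (-(1 / Y)) ^ n := by
    intro n
    rw [← Real.exp_nat_mul]
    congr 1
    ring
  have h2 : exp (-(1 / Y)) < 1 := exp_lt_one_iff.2 (by
    have : 0 < 1 / Y := by positivity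
    linarith)
  have h3 : Summable fun n : ℕ => exp (-(1 / Y)) ^ n :=
    summable_geometric_of_lt_one (exp_pos _).le h2
  have h4 : ∑ n ∈ Finset.Icc 1 M, exp (-(1 / Y)) ^ n ≤ ∑' n : ℕ, exp (-(1 / Y)) ^ (n + 1) := by
    have : ∑ n ∈ Finset.Icc 1 M, exp (-(1 / Y)) ^ n = ∑ n ∈ range M, exp (-(1 / Y)) ^ (n + 1) := by
      rw [Finset.range_eq_Ico, Finset.sum_Ico_add' (fun n => exp (-(1 / Y)) ^ n) 0 M 1]
      rfl
    rw [this]
    exact ((summable_nat_add_iff 1).2 h3).sum_le_tsum _ fun n _ => by positivity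
  simp_rw [h1]
  refine h4.trans ?_
  simp_rw [pow_succ]
  rw [tsum_mul_right, tsum_geometric_of_lt_one (exp_pos _).le h2, inv_mul_eq_div,
    div_le_iff₀ (by linarith)]
  have h5 : exp (-(1 / Y)) * (1 + 1 / Y) ≤ 1 := by
    have h6 := add_one_le_exp (1 / Y)
    calc exp (-(1 / Y)) * (1 + 1 / Y) ≤ exp (-(1 / Y)) * exp (1 / Y) :=
          mul_le_mul_of_nonneg_left (by linarith) (exp_pos _).le
      _ = 1 := by rw [← Real.exp_add]; simp
  have h7 : exp (-(1 / Y)) * (1 + 1 / Y) * Y ≤ 1 * Y := mul_le_mul_of_nonneg_right h5 hY.le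
  have h8 : exp (-(1 / Y)) * (1 + 1 / Y) * Y = exp (-(1 / Y)) * Y + exp (-(1 / Y)) := by
    field_simp
  linarith

/-- Chebyshev's bound with a smooth weight -/
lemma cheb {Y : ℝ} (hY : 0 < Y) (T : ℕ) : ∑ p ∈ pr T, log p * exp (-(p / Y)) ≤ 2 * Y := by
  have h1 : ∑ p ∈ pr T, log p * exp (-(p / Y)) =
      ∑ k ∈ Finset.Icc 1 T, (if k.Prime then log k else 0) * exp (-(k / Y)) := by
    unfold pr
    rw [Finset.sum_filter]
    refine Finset.sum_congr rfl fun k _ => ?_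
    split_ifs <;> simp
  rw [h1]
  have h2 := abel (l := fun k : ℕ => if k.Prime then log (k : ℝ) else 0)
    (w := fun k : ℕ => exp (-((k : ℝ) / Y))) (c := 2) (fun n => (exp_pos _).le)
    (fun a b hab => exp_le_exp.2 (neg_le_neg (div_le_div_of_nonneg_right (Nat.cast_le.2 hab) hY.le)))
    (fun n => by
      have := Pool.Agent.Erdos456.Mert.theta_le n
      rw [Finset.sum_filter] at this
      exact this) T
  exact h2.trans (mul_le_mul_of_nonneg_left (sum_exp_le hY T) (by norm_num))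

/-- the class of functions -/
structure GM (g : ℕ → ℝ) : Prop where
  nonneg : ∀ n, 0 ≤ g n
  one : g 1 = 1
  mul : ∀ m n : ℕ, Nat.Coprime m n → g (m * n) = g m * g n
  pp : ∀ p a : ℕ, p.Prime → g (p ^ a) ≤ ((a : ℝ) + 1) ^ 2

lemma pow_half_sum : Summable fun a : ℕ => ((a : ℝ) + 1) ^ 3 * (1 / 2 : ℝ) ^ a := by
  have h : ∀ k : ℕ, Summable fun a : ℕ => ((a : ℝ)) ^ k * (1 / 2 : ℝ) ^ a := fun k =>
    summable_pow_mul_geometric_of_norm_lt_one (R := ℝ) k (r := 1 / 2) (by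
      rw [Real.norm_eq_abs, abs_of_pos (by norm_num)]; norm_num)
  have := (((h 3).add ((h 2).mul_left 3)).add ((h 1).mul_left 3)).add (h 0)
  refine this.congr fun a => ?_
  ring

/-- the constant -/
noncomputable def K1 : ℝ := 4 * ∑' a : ℕ, ((a : ℝ) + 1) ^ 3 * (1 / 2 : ℝ) ^ a

lemma K1_nonneg : 0 ≤ K1 := by
  unfold K1
  have : 0 ≤ ∑' a : ℕ, ((a : ℝ) + 1) ^ 3 * (1 / 2 : ℝ) ^ a := tsum_nonneg fun a => by positivity
  positivity

lemma high_pow {p : ℕ} (hp : p.Prime) (a : ℕ) (ha : 2 ≤ a) :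
    ((a : ℝ) + 1) ^ 3 / (p : ℝ) ^ a ≤ 4 / (p : ℝ) ^ 2 * (((a : ℝ) + 1) ^ 3 * (1 / 2 : ℝ) ^ a) := by
  obtain ⟨b, rfl⟩ : ∃ b, a = b + 2 := ⟨a - 2, by omega⟩
  have hp0 : (0 : ℝ) < p := by exact_mod_cast hp.pos
  have hp2 : (2 : ℝ) ≤ p := by exact_mod_cast hp.two_le
  have h1 : (1 : ℝ) / (p : ℝ) ^ b ≤ (1 / 2 : ℝ) ^ b := by
    rw [one_div, one_div, inv_pow]
    apply inv_anti₀ (by positivity)
    exact pow_le_pow_left₀ (by norm_num) hp2 b
  have e1 : (((b + 2 : ℕ) : ℝ) + 1) ^ 3 / (p : ℝ) ^ (b + 2) =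
      1 / (p : ℝ) ^ 2 * (((b + 2 : ℕ) : ℝ) + 1) ^ 3 * (1 / (p : ℝ) ^ b) := by
    rw [pow_add]
    field_simp
  rw [e1]
  calc 1 / (p : ℝ) ^ 2 * (((b + 2 : ℕ) : ℝ) + 1) ^ 3 * (1 / (p : ℝ) ^ b) ≤
      1 / (p : ℝ) ^ 2 * (((b + 2 : ℕ) : ℝ) + 1) ^ 3 * (1 / 2 : ℝ) ^ b :=
        mul_le_mul_of_nonneg_left h1 (by positivity)
    _ = _ := by rw [pow_add]; ring

lemma high_sum {p : ℕ} (hp : p.Prime) (T : ℕ) :
    ∑ a ∈ Finset.Icc 2 T, ((a : ℝ) + 1) ^ 3 / (p : ℝ) ^ a ≤ K1 / (p : ℝ) ^ 2 := by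
  calc ∑ a ∈ Finset.Icc 2 T, ((a : ℝ) + 1) ^ 3 / (p : ℝ) ^ a ≤
      ∑ a ∈ Finset.Icc 2 T, 4 / (p : ℝ) ^ 2 * (((a : ℝ) + 1) ^ 3 * (1 / 2 : ℝ) ^ a) :=
        Finset.sum_le_sum fun a ha => high_pow hp a (Finset.mem_Icc.1 ha).1
    _ = 4 / (p : ℝ) ^ 2 * ∑ a ∈ Finset.Icc 2 T, (((a : ℝ) + 1) ^ 3 * (1 / 2 : ℝ) ^ a) := by
        rw [Finset.mul_sum]
    _ ≤ 4 / (p : ℝ) ^ 2 * ∑' a : ℕ, ((a : ℝ) + 1) ^ 3 * (1 / 2 : ℝ) ^ a :=
        mul_le_mul_of_nonneg_left (pow_half_sum.sum_le_tsum _ fun a _ => by positivity) (by positivity)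
    _ = _ := by unfold K1; ring

lemma log_div_sq {p : ℕ} (hp : p.Prime) : log p / (p : ℝ) ^ 2 ≤ 2 * tp p ^ 3 := by
  have hp0 : (0 : ℝ) < p := by exact_mod_cast hp.pos
  have hs : 0 < Real.sqrt p := Real.sqrt_pos.2 hp0
  have h1 : log p ≤ 2 * Real.sqrt p := by
    have h2 : log p = 2 * log (Real.sqrt p) := by
      rw [Real.log_sqrt hp0.le]; ring
    rw [h2]
    have := Real.log_le_sub_one_of_pos hs
    linarith
  have h3 : (p : ℝ) = Real.sqrt p ^ 2 := (Real.sq_sqrt hp0.le).symm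
  calc log p / (p : ℝ) ^ 2 ≤ 2 * Real.sqrt p / (p : ℝ) ^ 2 :=
        div_le_div_of_nonneg_right h1 (by positivity)
    _ = 2 * tp p ^ 3 := by
        unfold tp
        conv_lhs => rw [h3]
        rw [Real.sqrt_sq hs.le]
        field_simp

/-- the local sum -/
lemma loc_sum {p : ℕ} (hp : p.Prime) {g : ℕ → ℝ} (hg : GM g) :
    Summable (fun a : ℕ => ‖g (p ^ a) / ((p ^ a : ℕ) : ℝ)‖) ∧
    ∑' a : ℕ, g (p ^ a) / ((p ^ a : ℕ) : ℝ) ≤ exp (g p / p + K1 * tp p ^ 3) := by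
  have hp0 : (0 : ℝ) < p := by exact_mod_cast hp.pos
  have hp2 : (2 : ℝ) ≤ p := by exact_mod_cast hp.two_le
  have hb : ∀ a : ℕ, g (p ^ a) / ((p ^ a : ℕ) : ℝ) ≤ ((a : ℝ) + 1) ^ 3 * (1 / 2 : ℝ) ^ a := by
    intro a
    have h1 := hg.pp p a hp
    have h2 : (1 : ℝ) / ((p ^ a : ℕ) : ℝ) ≤ (1 / 2 : ℝ) ^ a := by
      push_cast
      rw [one_div, one_div, inv_pow]
      apply inv_anti₀ (by positivity)
      exact pow_le_pow_left₀ (by norm_num) hp2 a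
    have h3 : ((a : ℝ) + 1) ^ 2 ≤ ((a : ℝ) + 1) ^ 3 := by
      apply pow_le_pow_right₀ _ (by norm_num)
      have : (0 : ℝ) ≤ a := Nat.cast_nonneg a
      linarith
    calc g (p ^ a) / ((p ^ a : ℕ) : ℝ) = g (p ^ a) * (1 / ((p ^ a : ℕ) : ℝ)) := by ring
      _ ≤ ((a : ℝ) + 1) ^ 3 * (1 / 2 : ℝ) ^ a :=
        mul_le_mul (h1.trans h3) h2 (by positivity) (by positivity)
  have hs : Summable (fun a : ℕ => g (p ^ a) / ((p ^ a : ℕ) : ℝ)) :=
    Summable.of_nonneg_of_le (fun a => div_nonneg (hg.nonneg _) (Nat.cast_nonneg _)) hb pow_half_sum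
  refine ⟨hs.norm, ?_⟩
  have h0 := hs.sum_add_tsum_nat_add 2
  rw [Finset.sum_range_succ, Finset.sum_range_succ, Finset.sum_range_zero, zero_add] at h0
  simp only [pow_zero, pow_one, Nat.cast_one, div_one, hg.one] at h0
  rw [← h0]
  have h3 : ∑' a : ℕ, g (p ^ (a + 2)) / ((p ^ (a + 2) : ℕ) : ℝ) ≤ K1 / (p : ℝ) ^ 2 := by
    have h4 : ∀ a : ℕ, g (p ^ (a + 2)) / ((p ^ (a + 2) : ℕ) : ℝ) ≤
        4 / (p : ℝ) ^ 2 * ((((a + 2 : ℕ) : ℝ) + 1) ^ 3 * (1 / 2 : ℝ) ^ (a + 2)) := by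
      intro a
      refine le_trans ?_ (high_pow hp (a + 2) (by omega))
      push_cast
      refine div_le_div_of_nonneg_right ?_ (by positivity)
      have h1 := hg.pp p (a + 2) hp
      push_cast at h1
      refine h1.trans ?_
      apply pow_le_pow_right₀ _ (by norm_num)
      have : (0 : ℝ) ≤ a := Nat.cast_nonneg a
      linarith
    have h5 : Summable fun a : ℕ => 4 / (p : ℝ) ^ 2 * ((((a + 2 : ℕ) : ℝ) + 1) ^ 3 * (1 / 2 : ℝ) ^ (a + 2)) :=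
      ((summable_nat_add_iff 2).2 pow_half_sum).mul_left _
    refine (Summable.tsum_le_tsum h4 ((summable_nat_add_iff 2).2 hs) h5).trans ?_
    rw [tsum_mul_left]
    have h6 := pow_half_sum.sum_add_tsum_nat_add 2
    have h7 : 0 ≤ ∑ i ∈ range 2, ((i : ℝ) + 1) ^ 3 * (1 / 2 : ℝ) ^ i :=
      Finset.sum_nonneg fun i _ => by positivity
    calc 4 / (p : ℝ) ^ 2 * ∑' a : ℕ, ((((a + 2 : ℕ) : ℝ) + 1) ^ 3 * (1 / 2 : ℝ) ^ (a + 2)) ≤
        4 / (p : ℝ) ^ 2 * ∑' a : ℕ, (((a : ℝ) + 1) ^ 3 * (1 / 2 : ℝ) ^ a) :=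
          mul_le_mul_of_nonneg_left (by linarith) (by positivity)
      _ = _ := by unfold K1; ring
  have h8 : K1 / (p : ℝ) ^ 2 ≤ K1 * tp p ^ 3 := by
    rw [div_eq_mul_inv]
    refine mul_le_mul_of_nonneg_left ?_ K1_nonneg
    have hs1 : 1 ≤ Real.sqrt p := by rw [Real.one_le_sqrt]; linarith
    have h3 : (p : ℝ) = Real.sqrt p ^ 2 := (Real.sq_sqrt hp0.le).symm
    unfold tp
    rw [inv_pow]
    apply inv_anti₀ (by positivity)
    calc Real.sqrt p ^ 3 ≤ Real.sqrt p ^ 4 := pow_le_pow_right₀ hs1 (by norm_num)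
      _ = (p : ℝ) ^ 2 := by
        conv_rhs => rw [h3]
        ring
  have h9 := add_one_le_exp (g p / p + K1 * tp p ^ 3)
  linarith

/-- the logarithmic mean -/
lemma G_le {g : ℕ → ℝ} (hg : GM g) (T : ℕ) : ∑ n ∈ Finset.Icc 1 T, g n / n ≤
    exp (∑ p ∈ pr T, (g p / p + K1 * tp p ^ 3)) := by
  obtain ⟨h1, h2⟩ := EulerProduct.summable_and_hasSum_factoredNumbers_prod_filter_prime_tsum
    (f := fun n : ℕ => g n / (n : ℝ)) (by simp [hg.one])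
    (fun {m n} h => by rw [hg.mul m n h]; push_cast; rw [mul_div_mul_comm])
    (fun {p} hp => (loc_sum hp hg).1) (pr T)
  have h3 : (∏ p ∈ pr T with p.Prime, ∑' n : ℕ, g (p ^ n) / ((p ^ n : ℕ) : ℝ)) ≤
      exp (∑ p ∈ pr T, (g p / p + K1 * tp p ^ 3)) := by
    rw [Finset.filter_true_of_mem fun p hp => (mem_pr.1 hp).2, Real.exp_sum]
    refine Finset.prod_le_prod (fun p _ => tsum_nonneg fun n =>
      div_nonneg (hg.nonneg _) (Nat.cast_nonneg _)) fun p hp => (loc_sum (mem_pr.1 hp).2 hg).2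
  refine le_trans ?_ h3
  rw [← h2.tsum_eq, tsum_subtype (Nat.factoredNumbers (pr T)) (fun n : ℕ => g n / (n : ℝ))]
  have h4 : Summable ((Nat.factoredNumbers (pr T)).indicator fun n : ℕ => g n / (n : ℝ)) :=
    summable_subtype_iff_indicator.1 h2.summable
  refine le_trans (le_of_eq ?_) (h4.sum_le_tsum (Finset.Icc 1 T) fun n _ => ?_)
  · refine Finset.sum_congr rfl fun n hn => ?_
    rw [Finset.mem_Icc] at hn
    rw [Set.indicator_of_mem]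
    apply Nat.mem_factoredNumbers_of_primeFactors_subset (by omega)
    intro p hp
    exact mem_pr.2 ⟨(Nat.le_of_dvd (by omega) (Nat.dvd_of_mem_primeFactors hp)).trans hn.2,
      Nat.prime_of_mem_primeFactors hp⟩
  · apply Set.indicator_nonneg
    intro n _
    exact div_nonneg (hg.nonneg _) (Nat.cast_nonneg _)

end Pool.Agent.H485.CC
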