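import Pool.Agent.H485.CC.Nat1

/-!
# The smooth mean of a nonnegative multiplicative function
-/

set_option autoImplicit false
set_option maxHeartbeats 4000000

open Real Finset Filter

namespace Pool.Agent.H485.CC

lemma log_eq {n T : ℕ} (hn : 1 ≤ n) (hT : n ≤ T) : log (n : ℝ) =
    ∑ p ∈ pr T, ∑ a ∈ Finset.Icc 1 T, if n.factorization p = a then (a : ℝ) * log p else 0 := by
  have h1 : ∀ p ∈ pr T, (∑ a ∈ Finset.Icc 1 T, if n.factorization p = a then (a : ℝ) * log p else 0) =
      (n.factorization p : ℝ) * log p := by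
    intro p _
    by_cases hv : n.factorization p ∈ Finset.Icc 1 T
    · rw [Finset.sum_ite_eq, if_pos hv]
    · rw [Finset.sum_ite_eq, if_neg hv]
      rw [Finset.mem_Icc, not_and_or] at hv
      rcases hv with hv | hv
      · have : n.factorization p = 0 := by omega
        rw [this]; simp
      · exfalso
        apply hv
        exact (Nat.factorization_lt p (by omega)).le.trans hT
  rw [Finset.sum_congr rfl h1, Real.log_nat_eq_sum_factorization, Finsupp.sum]
  apply Finset.sum_subset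
  · intro p hp
    rw [Nat.support_factorization] at hp
    exact mem_pr.2 ⟨(Nat.le_of_dvd (by omega) (Nat.dvd_of_mem_primeFactors hp)).trans hT,
      Nat.prime_of_mem_primeFactors hp⟩
  · intro p _ hp
    rw [Finsupp.notMem_support_iff] at hp
    rw [hp]; simp

lemma inner {g w : ℕ → ℝ} (hg : GM g) (hw : ∀ n, 0 ≤ w n) {p : ℕ} (hp : p.Prime) (a T : ℕ) :
    ∑ n ∈ Finset.Icc 1 T with n.factorization p = a, g n * w n ≤
      ∑ m ∈ Finset.Icc 1 T, g (p ^ a) * g m * w (p ^ a * m) := by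
  have hdec : ∀ n ∈ (Finset.Icc 1 T).filter (fun n => n.factorization p = a),
      p ^ a * (n / p ^ a) = n ∧ Nat.Coprime (p ^ a) (n / p ^ a) ∧ n / p ^ a ∈ Finset.Icc 1 T := by
    intro n hn
    rw [Finset.mem_filter, Finset.mem_Icc] at hn
    obtain ⟨⟨h1, h2⟩, h3⟩ := hn
    have hn0 : n ≠ 0 := by omega
    have e1 : p ^ a * (n / p ^ a) = n := by
      rw [← h3]; exact Nat.ordProj_mul_ordCompl_eq_self n p
    have h4 : Nat.Coprime p (n / p ^ a) := by
      rw [← h3]; exact Nat.coprime_ordCompl hp hn0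
    refine ⟨e1, Nat.Coprime.pow_left a h4, ?_⟩
    rw [Finset.mem_Icc]
    refine ⟨?_, (Nat.div_le_self _ _).trans h2⟩
    rcases Nat.eq_zero_or_pos (n / p ^ a) with h5 | h5
    · rw [h5, mul_zero] at e1; omega
    · exact h5
  have h1 : ∑ n ∈ Finset.Icc 1 T with n.factorization p = a, g n * w n =
      ∑ n ∈ Finset.Icc 1 T with n.factorization p = a,
        (fun m => g (p ^ a) * g m * w (p ^ a * m)) (n / p ^ a) := by
    refine Finset.sum_congr rfl fun n hn => ?_
    obtain ⟨e1, e2, -⟩ := hdec n hn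
    dsimp only
    rw [← hg.mul _ _ e2, e1]
  rw [h1, ← Finset.sum_image (f := fun m => g (p ^ a) * g m * w (p ^ a * m)) (g := fun n => n / p ^ a)]
  · refine Finset.sum_le_sum_of_subset_of_nonneg ?_ fun m _ _ =>
      mul_nonneg (mul_nonneg (hg.nonneg _) (hg.nonneg _)) (hw _)
    intro m hm
    rw [Finset.mem_image] at hm
    obtain ⟨n, hn, rfl⟩ := hm
    exact (hdec n hn).2.2
  · intro n hn n' hn' h
    have e1 := (hdec n hn).1
    have e2 := (hdec n' hn').1
    dsimp only at h
    rw [← e1, ← e2, h]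

/-- the weight -/
noncomputable def ww (N : ℕ) (n : ℕ) : ℝ := exp (-(π / N * n))

lemma log_sum {g : ℕ → ℝ} (hg : GM g) {N : ℕ} (T : ℕ) :
    ∑ n ∈ Finset.Icc 1 T, g n * ww N n * log n ≤
      ∑ m ∈ Finset.Icc 1 T, g m * ∑ p ∈ pr T, ∑ a ∈ Finset.Icc 1 T,
        (a : ℝ) * log p * g (p ^ a) * ww N (p ^ a * m) := by
  have hw : ∀ n, 0 ≤ ww N n := fun n => (exp_pos _).le
  have h1 : ∑ n ∈ Finset.Icc 1 T, g n * ww N n * log n =
      ∑ p ∈ pr T, ∑ a ∈ Finset.Icc 1 T, ((a : ℝ) * log p) *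
        ∑ n ∈ Finset.Icc 1 T with n.factorization p = a, g n * ww N n := by
    calc ∑ n ∈ Finset.Icc 1 T, g n * ww N n * log n =
        ∑ n ∈ Finset.Icc 1 T, ∑ p ∈ pr T, ∑ a ∈ Finset.Icc 1 T,
          (if n.factorization p = a then ((a : ℝ) * log p) * (g n * ww N n) else 0) := by
          refine Finset.sum_congr rfl fun n hn => ?_
          rw [Finset.mem_Icc] at hn
          rw [log_eq hn.1 hn.2, Finset.mul_sum]
          refine Finset.sum_congr rfl fun p _ => ?_
          rw [Finset.mul_sum]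
          refine Finset.sum_congr rfl fun a _ => ?_
          split_ifs <;> ring
      _ = ∑ p ∈ pr T, ∑ n ∈ Finset.Icc 1 T, ∑ a ∈ Finset.Icc 1 T,
          (if n.factorization p = a then ((a : ℝ) * log p) * (g n * ww N n) else 0) :=
          Finset.sum_comm
      _ = _ := by
          refine Finset.sum_congr rfl fun p _ => ?_
          rw [Finset.sum_comm]
          refine Finset.sum_congr rfl fun a _ => ?_
          rw [Finset.mul_sum, Finset.sum_filter]
  rw [h1]
  have h2 : ∑ p ∈ pr T, ∑ a ∈ Finset.Icc 1 T, ((a : ℝ) * log p) *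
        ∑ n ∈ Finset.Icc 1 T with n.factorization p = a, g n * ww N n ≤
      ∑ p ∈ pr T, ∑ a ∈ Finset.Icc 1 T, ((a : ℝ) * log p) *
        ∑ m ∈ Finset.Icc 1 T, g (p ^ a) * g m * ww N (p ^ a * m) := by
    refine Finset.sum_le_sum fun p hp => Finset.sum_le_sum fun a _ => ?_
    refine mul_le_mul_of_nonneg_left (inner hg hw (mem_pr.1 hp).2 a T) ?_
    have : 0 ≤ log (p : ℝ) := Real.log_natCast_nonneg p
    positivity
  refine h2.trans (le_of_eq ?_)
  calc ∑ p ∈ pr T, ∑ a ∈ Finset.Icc 1 T, ((a : ℝ) * log p) *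
        ∑ m ∈ Finset.Icc 1 T, g (p ^ a) * g m * ww N (p ^ a * m) =
      ∑ p ∈ pr T, ∑ a ∈ Finset.Icc 1 T, ∑ m ∈ Finset.Icc 1 T,
        g m * ((a : ℝ) * log p * g (p ^ a) * ww N (p ^ a * m)) := by
        refine Finset.sum_congr rfl fun p _ => Finset.sum_congr rfl fun a _ => ?_
        rw [Finset.mul_sum]
        exact Finset.sum_congr rfl fun m _ => by ring
    _ = ∑ p ∈ pr T, ∑ m ∈ Finset.Icc 1 T, ∑ a ∈ Finset.Icc 1 T,
        g m * ((a : ℝ) * log p * g (p ^ a) * ww N (p ^ a * m)) :=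
        Finset.sum_congr rfl fun p _ => Finset.sum_comm
    _ = ∑ m ∈ Finset.Icc 1 T, ∑ p ∈ pr T, ∑ a ∈ Finset.Icc 1 T,
        g m * ((a : ℝ) * log p * g (p ^ a) * ww N (p ^ a * m)) := Finset.sum_comm
    _ = _ := by
        refine Finset.sum_congr rfl fun m _ => ?_
        rw [Finset.mul_sum]
        refine Finset.sum_congr rfl fun p _ => ?_
        rw [Finset.mul_sum]

lemma prime_sum {g : ℕ → ℝ} (hg : GM g) {N : ℕ} (hN : 1 ≤ N) {T m : ℕ} (hm : 1 ≤ m) {C3 : ℝ}
    (hC3 : ∀ S : Finset ℕ, ∑ p ∈ S, tp p ^ 3 ≤ C3) :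
    ∑ p ∈ pr T, ∑ a ∈ Finset.Icc 1 T, (a : ℝ) * log p * g (p ^ a) * ww N (p ^ a * m) ≤
      (3 + 2 * K1 * C3) * (N / m) := by
  have hN0 : (0 : ℝ) < N := by exact_mod_cast hN
  have hm0 : (0 : ℝ) < m := by exact_mod_cast hm
  have h1 : ∀ p ∈ pr T, ∑ a ∈ Finset.Icc 1 T, (a : ℝ) * log p * g (p ^ a) * ww N (p ^ a * m) ≤
      4 * (log p * exp (-(p / (N / (π * m))))) + N / m * (K1 * (2 * tp p ^ 3)) := by
    intro p hp
    have hpp := (mem_pr.1 hp).2
    have hpT := (mem_pr.1 hp).1
    have hp0 : (0 : ℝ) < p := by exact_mod_cast hpp.pos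
    have hl : 0 ≤ log (p : ℝ) := Real.log_natCast_nonneg p
    have hT1 : 1 ≤ T := hpp.one_le.trans hpT
    rw [← Finset.add_sum_Ioc_eq_sum_Icc hT1]
    have e1 : (((1 : ℕ) : ℝ)) * log p * g (p ^ 1) * ww N (p ^ 1 * m) ≤
        4 * (log p * exp (-(p / (N / (π * m))))) := by
      have h2 := hg.pp p 1 hpp
      norm_num at h2
      rw [pow_one, Nat.cast_one, one_mul]
      have e2 : ww N (p * m) = exp (-(p / (N / (π * m)))) := by
        unfold ww
        push_cast
        congr 2
        field_simp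
      rw [e2]
      have := mul_le_mul_of_nonneg_left h2 (mul_nonneg hl (exp_pos (-(p / (N / (π * m))))).le)
      linarith
    have e2 : ∑ a ∈ Finset.Ioc 1 T, (a : ℝ) * log p * g (p ^ a) * ww N (p ^ a * m) ≤
        N / m * (K1 * (2 * tp p ^ 3)) := by
      have hIoc : Finset.Ioc 1 T = Finset.Icc 2 T := by
        ext a; simp [Finset.mem_Ioc, Finset.mem_Icc]; omega
      rw [hIoc]
      calc ∑ a ∈ Finset.Icc 2 T, (a : ℝ) * log p * g (p ^ a) * ww N (p ^ a * m) ≤
          ∑ a ∈ Finset.Icc 2 T, N / m * log p * (((a : ℝ) + 1) ^ 3 / (p : ℝ) ^ a) := by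
            refine Finset.sum_le_sum fun a _ => ?_
            have h2 := hg.pp p a hpp
            have ha : (0 : ℝ) ≤ a := Nat.cast_nonneg a
            have h3 : ww N (p ^ a * m) ≤ N / (m * (p : ℝ) ^ a) := by
              unfold ww
              have h4 : exp (-(π / N * ((p ^ a * m : ℕ) : ℝ))) ≤ (π / N * ((p ^ a * m : ℕ) : ℝ))⁻¹ := by
                rw [Real.exp_neg]
                apply inv_anti₀
                · have : (0 : ℝ) < ((p ^ a * m : ℕ) : ℝ) := by push_cast; positivity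
                  positivity
                · have := add_one_le_exp (π / N * ((p ^ a * m : ℕ) : ℝ))
                  linarith
              refine h4.trans ?_
              push_cast
              rw [show (π / N * ((p : ℝ) ^ a * (m : ℝ)))⁻¹ = N / (m * (p : ℝ) ^ a) / π by field_simp]
              exact div_le_self (by positivity) (by linarith [Real.pi_gt_three])
            have h5 : (a : ℝ) * log p * g (p ^ a) ≤ log p * ((a : ℝ) + 1) ^ 3 := by
              have : (a : ℝ) * g (p ^ a) ≤ ((a : ℝ) + 1) * ((a : ℝ) + 1) ^ 2 :=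
                mul_le_mul (by linarith) h2 (hg.nonneg _) (by linarith)
              have := mul_le_mul_of_nonneg_left this hl
              nlinarith
            calc (a : ℝ) * log p * g (p ^ a) * ww N (p ^ a * m) ≤
                (log p * ((a : ℝ) + 1) ^ 3) * (N / (m * (p : ℝ) ^ a)) :=
                  mul_le_mul h5 h3 (exp_pos _).le (by positivity)
              _ = _ := by field_simp
        _ = N / m * log p * ∑ a ∈ Finset.Icc 2 T, ((a : ℝ) + 1) ^ 3 / (p : ℝ) ^ a := by
            rw [Finset.mul_sum]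
        _ ≤ N / m * log p * (K1 / (p : ℝ) ^ 2) :=
            mul_le_mul_of_nonneg_left (high_sum hpp T) (by positivity)
        _ = N / m * (K1 * (log p / (p : ℝ) ^ 2)) := by ring
        _ ≤ _ := by
            refine mul_le_mul_of_nonneg_left ?_ (by positivity)
            exact mul_le_mul_of_nonneg_left (log_div_sq hpp) K1_nonneg
    linarith
  refine (Finset.sum_le_sum h1).trans ?_
  rw [Finset.sum_add_distrib, ← Finset.mul_sum, ← Finset.mul_sum, ← Finset.mul_sum, ← Finset.mul_sum]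
  have h2 := cheb (Y := N / (π * m)) (by positivity) T
  have h3 := hC3 (pr T)
  have h4 : 4 * (2 * (N / (π * m))) ≤ 3 * (N / m) := by
    have : 4 * (2 * (N / (π * m))) = (8 / π) * (N / m) := by field_simp; ring
    rw [this]
    refine mul_le_mul_of_nonneg_right ?_ (by positivity)
    rw [div_le_iff₀ Real.pi_pos]
    linarith [Real.pi_gt_three]
  have h5 : N / m * (K1 * (2 * ∑ p ∈ pr T, tp p ^ 3)) ≤ N / m * (K1 * (2 * C3)) := by
    refine mul_le_mul_of_nonneg_left ?_ (by positivity)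
    refine mul_le_mul_of_nonneg_left ?_ K1_nonneg
    linarith
  linarith

/-- the truncated sum -/
lemma D_trunc {C3 : ℝ} (hC0 : 0 ≤ C3) (hC3 : ∀ S : Finset ℕ, ∑ p ∈ S, tp p ^ 3 ≤ C3) {g : ℕ → ℝ}
    (hg : GM g) {N : ℕ} (hN : 2 ≤ N) (T : ℕ) :
    log N * ∑ n ∈ Finset.Icc 1 T, g n * ww N n ≤
      (4 + 2 * K1 * C3) * N * ∑ n ∈ Finset.Icc 1 T, g n / n := by
  have hN0 : (0 : ℝ) < N := by exact_mod_cast (by omega : 0 < N)
  have h1 : ∑ n ∈ Finset.Icc 1 T, g n * ww N n * log n ≤
      (3 + 2 * K1 * C3) * N * ∑ n ∈ Finset.Icc 1 T, g n / n := by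
    refine (log_sum hg T).trans ?_
    rw [Finset.mul_sum]
    refine Finset.sum_le_sum fun m hm => ?_
    have hm1 := (Finset.mem_Icc.1 hm).1
    have := mul_le_mul_of_nonneg_left (prime_sum hg (by omega : 1 ≤ N) (T := T) hm1 hC3) (hg.nonneg m)
    refine this.trans (le_of_eq ?_)
    ring
  have h2 : ∑ n ∈ Finset.Icc 1 T, g n * ww N n * (log N - log n) ≤ N * ∑ n ∈ Finset.Icc 1 T, g n / n := by
    rw [Finset.mul_sum]
    refine Finset.sum_le_sum fun n hn => ?_
    have hn1 := (Finset.mem_Icc.1 hn).1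
    have hn0 : (0 : ℝ) < n := by exact_mod_cast hn1
    have e1 : log (N : ℝ) - log n ≤ N / n := by
      rw [← Real.log_div hN0.ne' hn0.ne']
      have := Real.log_le_sub_one_of_pos (show 0 < (N : ℝ) / n by positivity)
      linarith
    have e2 : ww N n ≤ 1 := by
      unfold ww
      apply exp_le_one_iff.2
      have : 0 ≤ π / N * (n : ℝ) := by positivity
      linarith
    have e3 : 0 ≤ ww N n := (exp_pos _).le
    have e4 := hg.nonneg n
    calc g n * ww N n * (log N - log n) ≤ g n * ww N n * (N / n) :=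
          mul_le_mul_of_nonneg_left e1 (mul_nonneg e4 e3)
      _ ≤ g n * 1 * (N / n) := by gcongr
      _ = _ := by ring
  have h3 : log N * ∑ n ∈ Finset.Icc 1 T, g n * ww N n =
      ∑ n ∈ Finset.Icc 1 T, g n * ww N n * log n + ∑ n ∈ Finset.Icc 1 T, g n * ww N n * (log N - log n) := by
    rw [← Finset.sum_add_distrib, Finset.mul_sum]
    exact Finset.sum_congr rfl fun n _ => by ring
  rw [h3]
  linarith

end Pool.Agent.H485.CC
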