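import Pool.Agent.H485.CC.Nat3
import Pool.Agent.H485.CC.Hm2

/-!
# The exceptional set for the harmonic weights
-/

set_option autoImplicit false
set_option maxHeartbeats 4000000

open MeasureTheory Real Finset Filter

namespace Pool.Agent.H485.CC

open W388.LV (SF om IsNewSet)

/-- `∑ (λ(p)² - 1) / p` -/
noncomputable def QQ (S : Finset ℕ) (lam : ℕ → ℝ) : ℝ := ∑ p ∈ S, 1 / (p : ℝ) * (lam p ^ 2 - 1)

lemma QQ_eq (S : Finset ℕ) (lam : ℕ → ℝ) : QQ S lam =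
    ∑ p ∈ S, 1 / (p : ℝ) * lam p ^ 2 - ∑ p ∈ S, 1 / (p : ℝ) := by
  unfold QQ
  rw [← Finset.sum_sub_distrib]
  exact Finset.sum_congr rfl fun p _ => by ring

lemma QQ_XX {S : Finset ℕ} (hS : ∀ p ∈ S, p.Prime) (x : S → ℝ) :
    QQ S (XX S x) = ∑ p : S, 1 / ((p : ℕ) : ℝ) * (uu 1 (x p) ^ 2 - 1) := by
  unfold QQ
  rw [← Finset.sum_coe_sort S]
  refine Finset.sum_congr rfl fun p _ => ?_
  rw [XX_prime hS x p.2]

lemma loc_Q {b t : ℝ} (ht0 : 0 ≤ t) (ht : t ≤ 1) :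
    ∫ θ, exp (b * (t * (uu 1 θ ^ 2 - 1))) ∂st ≤
      exp (((3 * |b|) ^ 2 / 2 + (3 * |b|) ^ 3 * exp (3 * |b|)) * t ^ 2) := by
  set C : ℝ := (3 * |b|) ^ 2 / 2 + (3 * |b|) ^ 3 * exp (3 * |b|) with hC
  have h1 : ∀ θ, |uu 1 θ ^ 2 - 1| ≤ 3 := by
    intro θ
    have h2 := abs_uu_one θ
    have h3 : uu 1 θ ^ 2 ≤ 4 := by
      rw [← sq_abs]
      nlinarith [abs_nonneg (uu 1 θ)]
    have h4 : 0 ≤ uu 1 θ ^ 2 := sq_nonneg _
    rw [abs_le]
    constructor <;> linarith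
  have h2 : ∀ θ, exp (b * (t * (uu 1 θ ^ 2 - 1))) ≤
      (1 - b * t + C * t ^ 2) + 0 * uu 1 θ + (b * t) * uu 1 θ ^ 2 := by
    intro θ
    have h3 : |b * (t * (uu 1 θ ^ 2 - 1))| ≤ 3 * |b| * t := by
      rw [abs_mul, abs_mul, abs_of_nonneg ht0]
      have := mul_le_mul_of_nonneg_left (h1 θ) (mul_nonneg (abs_nonneg b) ht0)
      calc |b| * (t * |uu 1 θ ^ 2 - 1|) = |b| * t * |uu 1 θ ^ 2 - 1| := by ring
        _ ≤ |b| * t * 3 := this
        _ = _ := by ring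
    have h4 := exp_approx (B := 3 * |b|) (by positivity) ht0 ht h3
    have h5 : (b * (t * (uu 1 θ ^ 2 - 1))) ^ 2 ≤ (3 * |b| * t) ^ 2 := by
      rw [← sq_abs]
      exact pow_le_pow_left₀ (abs_nonneg _) h3 2
    have h6 : (3 * |b|) ^ 3 * exp (3 * |b|) * t ^ 3 ≤ (3 * |b|) ^ 3 * exp (3 * |b|) * t ^ 2 := by
      apply mul_le_mul_of_nonneg_left _ (by positivity)
      exact pow_le_pow_of_le_one ht0 ht (by norm_num)
    have h7 : C * t ^ 2 = (3 * |b| * t) ^ 2 / 2 + (3 * |b|) ^ 3 * exp (3 * |b|) * t ^ 2 := by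
      rw [hC]; ring
    rw [h7]
    linarith
  obtain ⟨i1, i2⟩ := st_quad (1 - b * t + C * t ^ 2) 0 (b * t)
  have i0 : Integrable (fun θ => exp (b * (t * (uu 1 θ ^ 2 - 1)))) st := by
    refine integrable_st (C := exp (3 * |b| * t)) ?_ fun θ => ?_
    · exact Real.continuous_exp.comp (continuous_const.mul (continuous_const.mul
        (((continuous_uu 1).pow 2).sub continuous_const)))
    · rw [Real.norm_eq_abs, abs_of_pos (exp_pos _)]
      apply exp_le_exp.2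
      refine (le_abs_self _).trans ?_
      rw [abs_mul, abs_mul, abs_of_nonneg ht0]
      have := mul_le_mul_of_nonneg_left (h1 θ) (mul_nonneg (abs_nonneg b) ht0)
      calc |b| * (t * |uu 1 θ ^ 2 - 1|) = |b| * t * |uu 1 θ ^ 2 - 1| := by ring
        _ ≤ |b| * t * 3 := this
        _ = _ := by ring
  refine (integral_mono i0 i1 h2).trans ?_
  rw [i2]
  have := add_one_le_exp (C * t ^ 2)
  linarith

lemma mgf_Q (b : ℝ) : ∃ C : ℝ, 0 < C ∧ ∀ (S : Finset ℕ), (∀ p ∈ S, p.Prime) →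
    ∫ x, exp (b * QQ S (XX S x)) ∂(mu S) ≤ C := by
  obtain ⟨C3, hC0, hC3⟩ := sum_tp3
  set K : ℝ := (3 * |b|) ^ 2 / 2 + (3 * |b|) ^ 3 * exp (3 * |b|) with hK
  have hK0 : 0 ≤ K := by positivity
  refine ⟨exp (K * C3), exp_pos _, fun S hS => ?_⟩
  have e1 : ∫ x, exp (b * QQ S (XX S x)) ∂(mu S) =
      ∏ p : S, ∫ θ, exp (b * (1 / ((p : ℕ) : ℝ) * (uu 1 θ ^ 2 - 1))) ∂st := by
    unfold mu
    rw [← integral_fintype_prod_eq_prod (μ := fun _ : S => st)
      (f := fun (p : S) θ => exp (b * (1 / ((p : ℕ) : ℝ) * (uu 1 θ ^ 2 - 1))))]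
    congr 1
    ext x
    rw [QQ_XX hS, ← Real.exp_sum, Finset.mul_sum]
  rw [e1]
  have h1 : ∀ p : S, ∫ θ, exp (b * (1 / ((p : ℕ) : ℝ) * (uu 1 θ ^ 2 - 1))) ∂st ≤
      exp (K * tp p ^ 3) := by
    intro p
    have hp := hS p p.2
    have hp1 : (1 : ℝ) ≤ (p : ℕ) := by exact_mod_cast hp.one_le
    refine (loc_Q (by positivity) (by rw [div_le_one (by linarith)]; exact hp1)).trans ?_
    apply exp_le_exp.2
    apply mul_le_mul_of_nonneg_left _ hK0
    rw [← tp_sq]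
    have h2 := tp_nonneg (p : ℕ)
    have h3 := tp_le hp
    calc (tp (p : ℕ) ^ 2) ^ 2 = tp (p : ℕ) * tp (p : ℕ) ^ 3 := by ring
      _ ≤ 1 * tp (p : ℕ) ^ 3 := mul_le_mul_of_nonneg_right (by linarith) (by positivity)
      _ = _ := one_mul _
  refine (Finset.prod_le_prod (fun p _ => integral_nonneg fun θ => (exp_pos _).le) fun p _ => h1 p).trans ?_
  rw [← Real.exp_sum]
  apply exp_le_exp.2
  rw [← Finset.mul_sum, Finset.sum_coe_sort S (fun p => tp p ^ 3)]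
  exact mul_le_mul_of_nonneg_left (hC3 S) hK0

lemma obs_Q {S : Finset ℕ} (hS : ∀ p ∈ S, p.Prime) {z : ℝ} (hz1 : 1 ≤ z) (hz : ∀ p ∈ S, (p : ℝ) ≤ z)
    (j : ℕ) : Obs S ((z ^ 2) ^ j * 1) fun lam => QQ S lam ^ j := by
  have hA : ∀ (D : ℝ) (F : (ℕ → ℝ) → ℝ), 0 ≤ D → Obs S D F →
      Obs S (z ^ 2 * D) fun lam => QQ S lam * F lam := by
    intro D F hD hF
    have h1 := hF.mul_sq hS (Finset.Subset.refl S) hz hD (fun p => 1 / (p : ℝ)) (by linarith)
    have h2 := (hF.smul (-∑ p ∈ S, 1 / (p : ℝ))).mono (show D ≤ z ^ 2 * D from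
      le_mul_of_one_le_left hD (one_le_pow₀ hz1))
    refine (h1.add h2).congr fun lam _ => ?_
    show (∑ p ∈ S, 1 / (p : ℝ) * lam p ^ 2) * F lam + (-∑ p ∈ S, 1 / (p : ℝ)) * F lam = QQ S lam * F lam
    rw [QQ_eq]
    ring
  have h1 := Obs.mul_pow (A := fun lam => QQ S lam) (one_le_pow₀ hz1) hA zero_le_one
    (Obs.const (le_refl 1) 1) j
  exact h1.congr fun lam _ => by rw [mul_one]

lemma continuous_QQ {S : Finset ℕ} : Continuous fun x : S → ℝ => QQ S (XX S x) := by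
  unfold QQ
  exact continuous_finsetSum _ fun p _ => continuous_const.mul (((continuous_XX p).pow 2).sub continuous_const)

lemma bdd_QQ {S : Finset ℕ} (hS : ∀ p ∈ S, p.Prime) (x : S → ℝ) :
    |QQ S (XX S x)| ≤ ∑ p ∈ S, 1 / (p : ℝ) * 3 := by
  rw [QQ_XX hS]
  refine (Finset.abs_sum_le_sum_abs _ _).trans ?_
  rw [← Finset.sum_coe_sort S]
  refine Finset.sum_le_sum fun p _ => ?_
  rw [abs_mul, abs_of_nonneg (by positivity : (0 : ℝ) ≤ 1 / ((p : ℕ) : ℝ))]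
  refine mul_le_mul_of_nonneg_left ?_ (by positivity)
  have h2 := abs_uu_one (x p)
  have h3 : uu 1 (x p) ^ 2 ≤ 4 := by
    rw [← sq_abs]
    nlinarith [abs_nonneg (uu 1 (x p))]
  have h4 : 0 ≤ uu 1 (x p) ^ 2 := sq_nonneg _
  rw [abs_le]
  constructor <;> linarith

/-- moments in the model -/
lemma mom_Q {b : ℝ} (hb : 0 < b) : ∃ C : ℝ, 0 < C ∧ ∀ (S : Finset ℕ), (∀ p ∈ S, p.Prime) → ∀ j : ℕ,
    ∫ x, (QQ S (XX S x) ^ j) ^ 2 ∂(mu S) ≤ C * ((2 * j : ℕ) / b) ^ (2 * j) := by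
  obtain ⟨C1, h10, h1⟩ := mgf_Q b
  obtain ⟨C2, h20, h2⟩ := mgf_Q (-b)
  refine ⟨C1 + C2, by positivity, fun S hS j => ?_⟩
  have hpt : ∀ x : S → ℝ, (QQ S (XX S x) ^ j) ^ 2 ≤
      ((2 * j : ℕ) / b) ^ (2 * j) * (exp (b * QQ S (XX S x)) + exp (-b * QQ S (XX S x))) := by
    intro x
    set y := QQ S (XX S x)
    have e1 : (b * |y|) ^ (2 * j) / ((2 * j).factorial : ℝ) ≤ exp (b * |y|) :=
      Real.pow_div_factorial_le_exp _ (by positivity) _
    have e2 : exp (b * |y|) ≤ exp (b * y) + exp (-b * y) := by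
      rcases le_total 0 y with h | h
      · rw [abs_of_nonneg h]
        linarith [exp_pos (-b * y)]
      · rw [abs_of_nonpos h, show b * -y = -b * y by ring]
        linarith [exp_pos (b * y)]
    have e3 : ((2 * j).factorial : ℝ) ≤ ((2 * j : ℕ) : ℝ) ^ (2 * j) := by
      exact_mod_cast Nat.factorial_le_pow (2 * j)
    have e4 : (0 : ℝ) < ((2 * j).factorial : ℝ) := by exact_mod_cast Nat.factorial_pos _
    rw [div_le_iff₀ e4] at e1
    have e5 : (y ^ j) ^ 2 = |y| ^ (2 * j) := by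
      rw [← pow_mul, mul_comm j 2, pow_mul, ← sq_abs, ← pow_mul]
    have e6 : exp (b * |y|) * ((2 * j).factorial : ℝ) ≤
        (exp (b * y) + exp (-b * y)) * ((2 * j : ℕ) : ℝ) ^ (2 * j) :=
      mul_le_mul e2 e3 e4.le (by positivity)
    rw [mul_pow] at e1
    rw [e5, div_pow, div_mul_eq_mul_div, le_div_iff₀ (by positivity)]
    linarith
  set M : ℝ := ∑ p ∈ S, 1 / (p : ℝ) * 3 with hM
  have i1 : ∀ c : ℝ, Integrable (fun x => exp (c * QQ S (XX S x))) (mu S) := fun c =>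
    integrable_mu (C := exp (|c| * M)) (Real.continuous_exp.comp (continuous_const.mul continuous_QQ))
      fun x => by
        rw [Real.norm_eq_abs, abs_of_pos (exp_pos _)]
        apply exp_le_exp.2
        refine (le_abs_self _).trans ?_
        rw [abs_mul]
        exact mul_le_mul_of_nonneg_left (bdd_QQ hS x) (abs_nonneg _)
  have i2 : Integrable (fun x => (QQ S (XX S x) ^ j) ^ 2) (mu S) :=
    integrable_mu (C := (M ^ j) ^ 2) ((continuous_QQ.pow j).pow 2) fun x => by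
      rw [norm_pow, norm_pow, Real.norm_eq_abs]
      exact pow_le_pow_left₀ (by positivity) (pow_le_pow_left₀ (abs_nonneg _) (bdd_QQ hS x) j) 2
  refine (integral_mono i2 (((i1 b).add (i1 (-b))).const_mul _) hpt).trans ?_
  have e7 : ∫ x, ((2 * j : ℕ) / b) ^ (2 * j) * (exp (b * QQ S (XX S x)) + exp (-b * QQ S (XX S x))) ∂(mu S) =
      ((2 * j : ℕ) / b) ^ (2 * j) * (∫ x, exp (b * QQ S (XX S x)) ∂(mu S) +
        ∫ x, exp (-b * QQ S (XX S x)) ∂(mu S)) := by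
    rw [integral_const_mul, integral_add (i1 b) (i1 (-b))]
  refine (le_of_eq e7).trans ?_
  rw [mul_comm]
  exact mul_le_mul_of_nonneg_right (add_le_add (h1 S hS) (h2 S hS)) (by positivity)

/-- the exceptional set -/
theorem exc_Q {κ : ℝ} (hκ : 0 < κ) : ∃ C : ℝ, 0 < C ∧ ∀ᶠ N : ℕ in atTop, N.Prime → ∀ [NeZero N]
    (B : Finset (SF N 2)), IsNewSet N 2 B →
      ∑ f ∈ B with κ * ll N < QQ (Ss N) (W388.lamf f), om f ≤ C * exp (-8 * ll N) := by
  obtain ⟨C, hC0, hC⟩ := mom_Q (b := 30 / κ) (by positivity)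
  obtain ⟨N0, hN0⟩ := ls_obs 2 le_rfl 1 (1 / 8) one_pos (by norm_num) (by norm_num)
  refine ⟨2 * C, by positivity, ?_⟩
  filter_upwards [Filter.eventually_ge_atTop N0, ev_len 10, ev_ll 4, ev_log 1, ev_sub] with
    N h1 h2 h3 h4 hsub hp _ B hB
  have hll : 0 < ll N := by linarith
  set j : ℕ := ⌈4 * ll N⌉₊ with hj
  have hj1 : 4 * ll N ≤ j := Nat.le_ceil _
  have hj2 : (j : ℝ) ≤ 5 * ll N := by
    have := Nat.ceil_lt_add_one (show 0 ≤ 4 * ll N by linarith)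
    linarith
  have hSN : ∀ p ∈ Ss N, ¬ p ∣ N := fun p hp' => Sb_ndvd hp p (hsub hp')
  have hz1 := zr_ge_one (N := N) (by linarith)
  have h5 := hN0 N h1 B hB (Ss N) Ss_prime hSN _ _ (obs_Q (S := Ss N) Ss_prime hz1 Ss_le j) (by
    have := (h2 (2 * j) (by push_cast; linarith)).2
    rw [← pow_mul]
    exact this)
  have h6 := hC (Ss N) Ss_prime j
  have h7 : ∀ f ∈ B, (if κ * ll N < QQ (Ss N) (W388.lamf f) then om f else 0) * ((κ * ll N) ^ j) ^ 2 ≤
      om f * (QQ (Ss N) (W388.lamf f) ^ j) ^ 2 := by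
    intro f _
    have hom := om_nonneg f
    split_ifs with h
    · apply mul_le_mul_of_nonneg_left _ hom
      exact pow_le_pow_left₀ (by positivity) (pow_le_pow_left₀ (by positivity) h.le j) 2
    · rw [zero_mul]; positivity
  have h8 := Finset.sum_le_sum h7
  rw [← Finset.sum_mul, ← Finset.sum_filter] at h8
  have h9 : (∑ f ∈ B with κ * ll N < QQ (Ss N) (W388.lamf f), om f) * ((κ * ll N) ^ j) ^ 2 ≤
      2 * (C * ((2 * j : ℕ) / (30 / κ)) ^ (2 * j)) := by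
    refine h8.trans (h5.trans ?_)
    have : (1 + 1 : ℝ) = 2 := by norm_num
    rw [this]
    exact mul_le_mul_of_nonneg_left h6 zero_le_two
  have h10 : ((2 * j : ℕ) / (30 / κ) : ℝ) ^ (2 * j) ≤ exp (-8 * ll N) * ((κ * ll N) ^ j) ^ 2 := by
    have e1 : ((2 * j : ℕ) / (30 / κ) : ℝ) ≤ exp (-1) * (κ * ll N) := by
      have e2 : ((2 * j : ℕ) / (30 / κ) : ℝ) = κ * ((2 * j : ℕ) / 30) := by field_simp
      rw [e2]
      have e3 : (1 / 3 : ℝ) ≤ exp (-1) := by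
        have := Real.exp_neg_one_gt_d9
        linarith
      push_cast
      calc κ * (2 * (j : ℝ) / 30) ≤ κ * ((1 / 3) * ll N) := by
            apply mul_le_mul_of_nonneg_left _ hκ.le
            linarith
        _ ≤ κ * (exp (-1) * ll N) := by
            apply mul_le_mul_of_nonneg_left _ hκ.le
            exact mul_le_mul_of_nonneg_right e3 hll.le
        _ = _ := by ring
    calc ((2 * j : ℕ) / (30 / κ) : ℝ) ^ (2 * j) ≤ (exp (-1) * (κ * ll N)) ^ (2 * j) :=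
          pow_le_pow_left₀ (by positivity) e1 _
      _ = exp (-(2 * (j : ℝ))) * ((κ * ll N) ^ j) ^ 2 := by
          rw [mul_pow, ← Real.exp_nat_mul, ← pow_mul, mul_comm j 2]
          congr 2
          push_cast
          ring
      _ ≤ _ := by
          apply mul_le_mul_of_nonneg_right _ (by positivity)
          apply exp_le_exp.2
          linarith
  have h11 : (0 : ℝ) < ((κ * ll N) ^ j) ^ 2 := by positivity
  have h12 : (∑ f ∈ B with κ * ll N < QQ (Ss N) (W388.lamf f), om f) * ((κ * ll N) ^ j) ^ 2 ≤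
      (2 * C * exp (-8 * ll N)) * ((κ * ll N) ^ j) ^ 2 := by
    refine h9.trans ?_
    have := mul_le_mul_of_nonneg_left h10 (show 0 ≤ 2 * C by positivity)
    linarith
  exact le_of_mul_le_mul_right h12 h11

end Pool.Agent.H485.CC
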