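import Pool.Agent.H485.CC.Nat4

/-!
# Counting newforms with a large central value
-/

set_option autoImplicit false
set_option maxHeartbeats 4000000

open MeasureTheory Real Finset Filter

namespace Pool.Agent.H485.CC

open W388.LV (SF om IsNewSet)
open Pool.Agent.Y18.BSD Pool.Agent.K4H13.CV

lemma ss_sub {N : ℕ} (hN : 1 ≤ N) (hs : Ss N ⊆ Sb N) : Ss N ⊆ pr (N ^ 2) := by
  intro p hp
  have h1 := mem_pr.1 (hs hp)
  rw [mem_pr]
  refine ⟨?_, h1.2⟩
  have hN1 : (1 : ℝ) ≤ N := by exact_mod_cast hN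
  have h2 : ((Yb N : ℕ) : ℝ) ≤ N := by
    calc ((Yb N : ℕ) : ℝ) ≤ (N : ℝ) ^ (3 / 4 : ℝ) := Nat.floor_le (by positivity)
      _ ≤ (N : ℝ) ^ (1 : ℝ) := Real.rpow_le_rpow_of_exponent_le hN1 (by norm_num)
      _ = N := Real.rpow_one _
  have h3 : Yb N ≤ N := by exact_mod_cast h2
  have h4 : N ≤ N ^ 2 := by nlinarith
  exact h1.1.trans (h3.trans h4)

theorem ev_sumT {ε : ℝ} (hε : 0 < ε) : ∀ᶠ N : ℕ in atTop,
    ∑ p ∈ pr (N ^ 2) \ Ss N, (1 : ℝ) / p ≤ ε * ll N := by
  obtain ⟨C, hC⟩ := Pool.Agent.Erdos456.Mert.mertens_inv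
  have hC0 : 0 ≤ C := (abs_nonneg _).trans (hC 3 le_rfl)
  filter_upwards [ev_sumS (half_pos hε), ev_lin (C + 1) (half_pos hε), ev_ll 1, ev_log 100, ev_sub] with
    N h1 h2 h4 h5 hsub
  have hN0 := pos_of_log (by linarith : 1 ≤ log (N : ℝ))
  have hN1 : (3 : ℝ) ≤ N := by
    by_contra h
    push Not at h
    have h6 : log (N : ℝ) ≤ log 3 := Real.log_le_log hN0 h.le
    have h7 : log (3 : ℝ) ≤ 3 - 1 := Real.log_le_sub_one_of_pos (by norm_num)
    linarith
  have hN3 : 3 ≤ N := by exact_mod_cast hN1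
  rw [Finset.sum_sdiff_eq_sub (ss_sub (by omega) hsub)]
  have h6 := (abs_le.1 (hC (N ^ 2) (by nlinarith))).2
  have h7 : log (log ((N ^ 2 : ℕ) : ℝ)) ≤ ll N + 1 := by
    push_cast
    rw [Real.log_pow, Real.log_mul (by norm_num) (by linarith)]
    have h12 : log ((2 : ℕ) : ℝ) ≤ 1 := by
      have := Real.log_two_lt_d9
      push_cast
      linarith
    unfold ll
    linarith
  have h15 : ∑ p ∈ pr (N ^ 2), (1 : ℝ) / p = ∑ p ∈ (Finset.Icc 1 (N ^ 2)).filter Nat.Prime, (1 : ℝ) / p := rfl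
  rw [h15]
  linarith [(abs_le.1 h1).1]

/-- the harmonic weights are at least `N⁻¹ exp(- Q - ε log log N)` -/
theorem om_low {ε : ℝ} (hε : 0 < ε) : ∀ᶠ N : ℕ in atTop, N.Prime → ∀ [NeZero N] (f : SF N 2) (e : ℝ),
    W388.IsNewf N 2 f e → (∀ p : ℕ, p.Prime → p ≠ N → |W388.lamf f p| ≤ 2) →
    1 ≤ om f * (N * exp (QQ (Ss N) (W388.lamf f) + ε * ll N)) := by
  obtain ⟨C, hC0, hC⟩ := Dn_le
  filter_upwards [ev_sumT (ε := ε / 16) (by positivity), ev_sumS (ε := ε / 4) (by positivity),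
    ev_pow (2 * C) 0 (ε := ε / 4) (by positivity), ev_ll 1, ev_log 1, ev_sub] with
    N h1 h2 h3 h4 h5 hsub hp _ f e hf hR
  rw [pow_zero, mul_one] at h3
  have hlog : 0 < log (N : ℝ) := by linarith
  have hN0 : (0 : ℝ) < N := by exact_mod_cast hp.pos
  have k1 := hC N hp f e hf hR
  have k2 := om_inv hp hf
  have k3 : ∑ p ∈ pr (N ^ 2), W388.lamf f p ^ 2 / p ≤ QQ (Ss N) (W388.lamf f) + (1 + ε / 2) * ll N := by
    rw [← Finset.sum_sdiff (ss_sub hp.one_le hsub)]
    have e1 : ∑ p ∈ pr (N ^ 2) \ Ss N, W388.lamf f p ^ 2 / p ≤ 4 * (ε / 16 * ll N) := by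
      refine le_trans ?_ (mul_le_mul_of_nonneg_left h1 (by norm_num))
      rw [Finset.mul_sum]
      refine Finset.sum_le_sum fun p hp' => ?_
      have hpp := (mem_pr.1 (Finset.mem_sdiff.1 hp').1).2
      have e2 : W388.lamf f p ^ 2 ≤ 4 := by
        have := (GM_lamf hp hf hR).pp p 1 hpp
        rw [pow_one] at this
        norm_num at this
        exact this
      rw [mul_one_div]
      exact div_le_div_of_nonneg_right e2 (Nat.cast_nonneg p)
    have e3 : ∑ p ∈ Ss N, W388.lamf f p ^ 2 / p = QQ (Ss N) (W388.lamf f) + ∑ p ∈ Ss N, 1 / (p : ℝ) := by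
      rw [QQ_eq]
      have : ∑ p ∈ Ss N, W388.lamf f p ^ 2 / p = ∑ p ∈ Ss N, 1 / (p : ℝ) * W388.lamf f p ^ 2 :=
        Finset.sum_congr rfl fun p _ => by ring
      rw [this]
      ring
    have e4 := (abs_le.1 h2).2
    rw [e3]
    nlinarith
  have hom := om_nonneg f
  have k4 : 2 * Dn N f ≤ N * exp (QQ (Ss N) (W388.lamf f) + ε * ll N) := by
    have e1 : log N * (2 * Dn N f) ≤ log N * (N * exp (QQ (Ss N) (W388.lamf f) + ε * ll N)) := by
      calc log N * (2 * Dn N f) = 2 * (log N * Dn N f) := by ring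
        _ ≤ 2 * (C * N * exp (∑ p ∈ pr (N ^ 2), W388.lamf f p ^ 2 / p)) :=
            mul_le_mul_of_nonneg_left k1 zero_le_two
        _ ≤ 2 * (C * N * exp (QQ (Ss N) (W388.lamf f) + (1 + ε / 2) * ll N)) := by
            apply mul_le_mul_of_nonneg_left _ zero_le_two
            apply mul_le_mul_of_nonneg_left (exp_le_exp.2 k3) (by positivity)
        _ = (2 * C) * (N * exp (QQ (Ss N) (W388.lamf f) + (1 + ε / 2) * ll N)) := by ring
        _ ≤ exp (ε / 4 * ll N) * (N * exp (QQ (Ss N) (W388.lamf f) + (1 + ε / 2) * ll N)) :=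
            mul_le_mul_of_nonneg_right h3 (by positivity)
        _ = N * exp (QQ (Ss N) (W388.lamf f) + (1 + 3 * ε / 4) * ll N) := by
            rw [mul_left_comm, ← Real.exp_add]
            ring_nf
        _ ≤ N * (exp (ll N) * exp (QQ (Ss N) (W388.lamf f) + ε * ll N)) := by
            rw [← Real.exp_add]
            apply mul_le_mul_of_nonneg_left _ hN0.le
            apply exp_le_exp.2
            nlinarith
        _ = _ := by rw [exp_ll hlog]; ring
    exact le_of_mul_le_mul_left e1 hlog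
  exact k2.trans (mul_le_mul_of_nonneg_left k4 hom)

lemma QQ_le {N : ℕ} [NeZero N] (hp : N.Prime) (hsub : Ss N ⊆ Sb N)
    {f : SF N 2} (hR : ∀ p : ℕ, p.Prime → p ≠ N → |W388.lamf f p| ≤ 2) :
    QQ (Ss N) (W388.lamf f) ≤ 3 * ∑ p ∈ Ss N, (1 : ℝ) / p := by
  unfold QQ
  rw [Finset.mul_sum]
  refine Finset.sum_le_sum fun p hp' => ?_
  have h1 : p ≠ N := fun h => Sb_ndvd hp p (hsub hp') (h ▸ dvd_refl _)
  have h2 := hR p (Ss_prime p hp') h1
  have h3 : W388.lamf f p ^ 2 ≤ 4 := by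
    rw [← sq_abs]
    nlinarith [abs_nonneg (W388.lamf f p)]
  rw [mul_comm]
  exact mul_le_mul_of_nonneg_right (by linarith) (by positivity)

/-- the number of forms with a large central value -/
theorem nat_main {A : ℝ} (hA1 : -(3 / 2) ≤ A) (hA2 : A < 1 / 2) {ε : ℝ} (hε : 0 < ε) :
    ∀ᶠ N : ℕ in atTop, N.Prime → ∀ [NeZero N] (B : Finset (SF N 2)), IsNewSet N 2 B →
      (∀ f ∈ B, ∀ p : ℕ, p.Prime → p ≠ N → |W388.lamf f p| ≤ 2) →
      ((B.filter fun f => exp (-A * ll N) < ‖bv f 0‖).card : ℝ) ≤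
        N * exp ((-((1 / 2 - A) ^ 2 / 2) + ε) * ll N) := by
  obtain ⟨C, hC0, hC⟩ := exc_Q (κ := ε / 4) (by positivity)
  filter_upwards [hC, har_main hA1 hA2 (ε := ε / 4) (by positivity), om_low (ε := ε / 4) (by positivity),
    om_low (ε := 1 / 2) (by norm_num), ev_sumS (ε := 1 / 12) (by norm_num), ev_sub, ev_ll 1,
    ev_pow (C + 1) 0 (ε := ε / 4) (by positivity)] with
    N h1 h2 h3 h3' h4 hsub h5 h6 hp _ B hB hR
  rw [pow_zero, mul_one] at h6
  have hN0 : (0 : ℝ) < N := by exact_mod_cast hp.pos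
  have hll : 0 < ll N := by linarith
  set l := ll N with hl
  set G : ℝ := -((1 / 2 - A) ^ 2 / 2) with hG
  have hG4 : -2 ≤ G := by rw [hG]; nlinarith
  set Q : SF N 2 → ℝ := fun f => QQ (Ss N) (W388.lamf f) with hQ
  have k1 := sum_or B (fun _ => (1 : ℝ)) (fun _ _ => zero_le_one)
    (fun f => exp (-A * l) < ‖bv f 0‖) (fun f => exp (-A * l) < ‖bv f 0‖ ∧ Q f ≤ ε / 4 * l)
    (fun f => ε / 4 * l < Q f) (fun f _ hf => by
      rcases le_or_gt (Q f) (ε / 4 * l) with h | h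
      · exact Or.inl ⟨hf, h⟩
      · exact Or.inr h)
  have k2 : ∑ f ∈ B with exp (-A * l) < ‖bv f 0‖ ∧ Q f ≤ ε / 4 * l, (1 : ℝ) ≤
      N * exp ((ε / 2) * l) * exp ((G + ε / 4) * l) := by
    calc ∑ f ∈ B with exp (-A * l) < ‖bv f 0‖ ∧ Q f ≤ ε / 4 * l, (1 : ℝ) ≤
        ∑ f ∈ B with exp (-A * l) < ‖bv f 0‖ ∧ Q f ≤ ε / 4 * l, N * exp ((ε / 2) * l) * om f := by
          refine Finset.sum_le_sum fun f hf => ?_
          rw [Finset.mem_filter] at hf
          obtain ⟨e, he⟩ := hB.newf f hf.1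
          have g1 := h3 hp f e he (hR f hf.1)
          have g2 : exp (QQ (Ss N) (W388.lamf f) + ε / 4 * l) ≤ exp (ε / 2 * l) := by
            apply exp_le_exp.2
            have := hf.2.2
            simp only [hQ] at this
            linarith
          calc (1 : ℝ) ≤ om f * (N * exp (QQ (Ss N) (W388.lamf f) + ε / 4 * l)) := g1
            _ ≤ om f * (N * exp (ε / 2 * l)) := by
                apply mul_le_mul_of_nonneg_left _ (om_nonneg f)
                exact mul_le_mul_of_nonneg_left g2 hN0.le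
            _ = _ := by ring
      _ ≤ ∑ f ∈ B with exp (-A * l) < ‖bv f 0‖, N * exp ((ε / 2) * l) * om f := by
          refine Finset.sum_le_sum_of_subset_of_nonneg ?_ fun f _ _ => ?_
          · intro f hf
            rw [Finset.mem_filter] at *
            exact ⟨hf.1, hf.2.1⟩
          · have := om_nonneg f
            positivity
      _ = N * exp ((ε / 2) * l) * ∑ f ∈ B with exp (-A * l) < ‖bv f 0‖, om f := by
          rw [Finset.mul_sum]
      _ ≤ _ := mul_le_mul_of_nonneg_left (h2 hp B hB) (by positivity)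
  have k3 : ∑ f ∈ B with ε / 4 * l < Q f, (1 : ℝ) ≤ N * exp (4 * l) * (C * exp (-8 * l)) := by
    calc ∑ f ∈ B with ε / 4 * l < Q f, (1 : ℝ) ≤ ∑ f ∈ B with ε / 4 * l < Q f, N * exp (4 * l) * om f := by
          refine Finset.sum_le_sum fun f hf => ?_
          rw [Finset.mem_filter] at hf
          obtain ⟨e, he⟩ := hB.newf f hf.1
          have g1 := h3' hp f e he (hR f hf.1)
          have g2 : exp (QQ (Ss N) (W388.lamf f) + 1 / 2 * l) ≤ exp (4 * l) := by
            apply exp_le_exp.2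
            have g3 := QQ_le hp hsub (hR f hf.1)
            have g4 := (abs_le.1 h4).2
            linarith
          calc (1 : ℝ) ≤ om f * (N * exp (QQ (Ss N) (W388.lamf f) + 1 / 2 * l)) := g1
            _ ≤ om f * (N * exp (4 * l)) := by
                apply mul_le_mul_of_nonneg_left _ (om_nonneg f)
                exact mul_le_mul_of_nonneg_left g2 hN0.le
            _ = _ := by ring
      _ = N * exp (4 * l) * ∑ f ∈ B with ε / 4 * l < Q f, om f := by rw [Finset.mul_sum]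
      _ ≤ _ := mul_le_mul_of_nonneg_left (h1 hp B hB) (by positivity)
  have k4 : ∑ f ∈ B with exp (-A * l) < ‖bv f 0‖, (1 : ℝ) =
      ((B.filter fun f => exp (-A * l) < ‖bv f 0‖).card : ℝ) := by simp
  rw [← k4]
  refine k1.trans ((add_le_add k2 k3).trans ?_)
  have e1 : N * exp ((ε / 2) * l) * exp ((G + ε / 4) * l) = N * exp ((G + 3 * ε / 4) * l) := by
    rw [mul_assoc, ← Real.exp_add]
    ring_nf
  have e2 : N * exp (4 * l) * (C * exp (-8 * l)) ≤ N * (C * exp ((G + 3 * ε / 4) * l)) := by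
    calc N * exp (4 * l) * (C * exp (-8 * l)) = N * (C * (exp (4 * l) * exp (-8 * l))) := by ring
      _ ≤ _ := by
        apply mul_le_mul_of_nonneg_left _ hN0.le
        apply mul_le_mul_of_nonneg_left _ hC0.le
        rw [← Real.exp_add]
        apply exp_le_exp.2
        nlinarith
  have e3 : exp ((G + ε) * l) = exp (ε / 4 * l) * exp ((G + 3 * ε / 4) * l) := by
    rw [← Real.exp_add]
    ring_nf
  rw [e1, e3]
  calc N * exp ((G + 3 * ε / 4) * l) + N * exp (4 * l) * (C * exp (-8 * l)) ≤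
      N * exp ((G + 3 * ε / 4) * l) + N * (C * exp ((G + 3 * ε / 4) * l)) := add_le_add le_rfl e2
    _ = N * ((C + 1) * exp ((G + 3 * ε / 4) * l)) := by ring
    _ ≤ N * (exp (ε / 4 * l) * exp ((G + 3 * ε / 4) * l)) := by
        apply mul_le_mul_of_nonneg_left _ hN0.le
        exact mul_le_mul_of_nonneg_right h6 (exp_pos _).le

end Pool.Agent.H485.CC
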