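import Pool.Agent.H485.CC.Mlc
import Pool.Agent.H485.CC.Ls6

/-!
# The harmonic weights are not concentrated
-/

set_option autoImplicit false
set_option maxHeartbeats 1000000

open Real Finset Filter

namespace Pool.Agent.H485.CC

open W388.LV (SF om IsNewSet pet)

/-- the rough numbers -/
def Ro (j X : ℕ) : Finset ℕ := (Finset.Icc 1 X).filter fun n => Nat.Coprime ((2 ^ j).factorial) n

lemma mem_Ro {j X n : ℕ} : n ∈ Ro j X ↔ (1 ≤ n ∧ n ≤ X) ∧ Nat.Coprime ((2 ^ j).factorial) n := by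
  unfold Ro
  rw [Finset.mem_filter, Finset.mem_Icc]

lemma Ro_gt {j X n : ℕ} (h : n ∈ Ro j X) (h1 : n ≠ 1) : 2 ^ j < n := by
  rw [mem_Ro] at h
  by_contra hcon
  push Not at hcon
  have h2 : n ∣ (2 ^ j).factorial := Nat.dvd_factorial (by omega) hcon
  have h3 : Nat.gcd ((2 ^ j).factorial) n = n := Nat.gcd_eq_right h2
  have h4 := h.2
  unfold Nat.Coprime at h4
  omega

lemma Ro_dvd {j X n e : ℕ} (h : n ∈ Ro j X) (he : e ∣ n) : e ∈ Ro j X := by
  rw [mem_Ro] at *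
  have hn : 0 < n := by omega
  refine ⟨⟨Nat.pos_of_dvd_of_pos he hn, (Nat.le_of_dvd hn he).trans h.1.2⟩, ?_⟩
  exact Nat.Coprime.coprime_dvd_right he h.2

/-- number of multiples -/
def cnr (j X e : ℕ) : ℕ := ((Ro j X).filter fun n => e ∣ n).card

lemma cnr_le {j X e : ℕ} (he : 1 ≤ e) : cnr j X e ≤ X / e := by
  unfold cnr
  have h1 : ((Ro j X).filter fun n => e ∣ n) ⊆ (Finset.Icc 1 (X / e)).image (fun d => e * d) := by
    intro n hn
    rw [Finset.mem_filter, mem_Ro] at hn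
    obtain ⟨d, rfl⟩ := hn.2
    rw [Finset.mem_image]
    refine ⟨d, ?_, rfl⟩
    rw [Finset.mem_Icc]
    refine ⟨Nat.pos_of_ne_zero fun h => ?_, ?_⟩
    · rw [h, mul_zero] at hn
      omega
    · rw [Nat.le_div_iff_mul_le he, mul_comm]
      exact hn.1.1.2
  refine (Finset.card_le_card h1).trans (Finset.card_image_le.trans ?_)
  rw [Nat.card_Icc, Nat.add_sub_cancel]

lemma cnr_one (j X : ℕ) : cnr j X 1 = (Ro j X).card := by
  unfold cnr
  congr 1
  exact Finset.filter_true_of_mem fun n _ => one_dvd n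

/-- the sum of the squares over the rough numbers -/
lemma rough_sq {N : ℕ} (hN : N.Prime) {lam : ℕ → ℝ} (h : W388.HeckeSeq N lam) {j X : ℕ} (hX : X < N)
    (hX1 : 1 ≤ X) :
    ∑ n ∈ Ro j X, lam n ^ 2 = (Ro j X).card +
      ∑ e ∈ (Ro j X).erase 1, (cnr j X e : ℝ) * lam (e ^ 2) := by
  have h1 : ∑ n ∈ Ro j X, lam n ^ 2 = ∑ n ∈ Ro j X, ∑ e ∈ n.divisors, lam (e ^ 2) := by
    refine Finset.sum_congr rfl fun n hn => ?_
    rw [mem_Ro] at hn
    exact hecke_sq h hN n fun hd => by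
      have := Nat.le_of_dvd (by omega) hd
      omega
  have h2 : ∑ n ∈ Ro j X, ∑ e ∈ n.divisors, lam (e ^ 2) =
      ∑ e ∈ Ro j X, ∑ n ∈ (Ro j X).filter (fun n => e ∣ n), lam (e ^ 2) := by
    rw [Finset.sum_comm' (s' := fun e => (Ro j X).filter (fun n => e ∣ n)) (t' := Ro j X)]
    intro n e
    rw [Finset.mem_filter, Nat.mem_divisors]
    constructor
    · rintro ⟨h3, h4, h5⟩
      exact ⟨⟨h3, h4⟩, Ro_dvd h3 h4⟩
    · rintro ⟨⟨h3, h4⟩, -⟩
      refine ⟨h3, h4, ?_⟩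
      have := (mem_Ro.1 h3).1
      omega
  have h3 : ∑ e ∈ Ro j X, ∑ n ∈ (Ro j X).filter (fun n => e ∣ n), lam (e ^ 2) =
      ∑ e ∈ Ro j X, (cnr j X e : ℝ) * lam (e ^ 2) := by
    refine Finset.sum_congr rfl fun e _ => ?_
    rw [Finset.sum_const, nsmul_eq_mul]
    rfl
  have h4 : (1 : ℕ) ∈ Ro j X := mem_Ro.2 ⟨⟨le_rfl, hX1⟩, Nat.coprime_one_right _⟩
  rw [h1, h2, h3, ← Finset.add_sum_erase _ _ h4, cnr_one, one_pow, h.one, mul_one]

/-- the sizes of the blocks -/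
noncomputable def t2 (L k : ℕ) : ℝ := rh ^ k + 4 * rh ^ (L - k)

lemma t2_pos (L k : ℕ) : 0 < t2 L k := by
  unfold t2
  have := rh_pos
  positivity

lemma sum_t2 {L j : ℕ} : ∑ k ∈ Finset.Icc j (L - j), t2 L k ≤ 5 * (1 - rh)⁻¹ * rh ^ j := by
  have h0 := rh_pos
  have hr : 0 < 1 - rh := by linarith [rh_lt]
  unfold t2
  rw [Finset.sum_add_distrib, ← Finset.mul_sum]
  have h1 : ∑ k ∈ Finset.Icc j (L - j), rh ^ k ≤ (1 - rh)⁻¹ * rh ^ j := by
    have e1 : ∑ k ∈ Finset.Icc j (L - j), rh ^ k = (∑ i ∈ (Finset.Icc j (L - j)).image (fun k => k - j), rh ^ i) * rh ^ j := by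
      rw [Finset.sum_image, Finset.sum_mul]
      · refine Finset.sum_congr rfl fun k hk => ?_
        rw [Finset.mem_Icc] at hk
        rw [← pow_add]
        congr 1
        omega
      · intro a ha b hb hab
        rw [Finset.mem_coe, Finset.mem_Icc] at ha hb
        simp only at hab
        omega
    rw [e1]
    exact mul_le_mul_of_nonneg_right (sum_geo _) (by positivity)
  have h2 : ∑ k ∈ Finset.Icc j (L - j), rh ^ (L - k) ≤ (1 - rh)⁻¹ * rh ^ j := by
    have e1 : ∑ k ∈ Finset.Icc j (L - j), rh ^ (L - k) =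
        (∑ i ∈ (Finset.Icc j (L - j)).image (fun k => L - k - j), rh ^ i) * rh ^ j := by
      rw [Finset.sum_image, Finset.sum_mul]
      · refine Finset.sum_congr rfl fun k hk => ?_
        rw [Finset.mem_Icc] at hk
        rw [← pow_add]
        congr 1
        omega
      · intro a ha b hb hab
        rw [Finset.mem_coe, Finset.mem_Icc] at ha hb
        simp only at hab
        omega
    rw [e1]
    exact mul_le_mul_of_nonneg_right (sum_geo _) (by positivity)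
  linarith

/-- one block -/
lemma block2 {N : ℕ} [NeZero N] (B : Finset (SF N 2)) (hB : IsNewSet N 2 B) (j X k : ℕ) (hk : k ≤ Nat.log 2 N) :
    ∑ f ∈ B, om f * (∑ e ∈ ((Ro j X).erase 1).filter (fun e => Nat.log 2 e = k),
      (cnr j X e : ℝ) * W388.lamf f (e ^ 2)) ^ 2 ≤
      Real.exp (4 * Real.pi) * (X : ℝ) ^ 2 * t2 (Nat.log 2 N) k ^ 2 := by
  have hNn : N ≠ 0 := NeZero.ne N
  have hN1 : 1 ≤ N := Nat.one_le_iff_ne_zero.2 hNn
  have hN0 : (0 : ℝ) < N := by exact_mod_cast hN1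
  set I := ((Ro j X).erase 1).filter (fun e => Nat.log 2 e = k) with hI
  have hmem : ∀ e ∈ I, 1 ≤ e ∧ 2 ^ k ≤ e ∧ e < 2 ^ (k + 1) := by
    intro e he
    rw [hI, Finset.mem_filter, Finset.mem_erase, mem_Ro] at he
    obtain ⟨⟨-, ⟨h1, -⟩, -⟩, h2⟩ := he
    have := (Nat.log_eq_iff (Or.inr ⟨one_lt_two, by omega⟩)).1 h2
    exact ⟨h1, this.1, this.2⟩
  have hcard : (I.card : ℝ) ≤ 2 ^ k := by
    have h1 : I ⊆ Finset.Ico (2 ^ k) (2 ^ (k + 1)) := by
      intro e he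
      have := hmem e he
      rw [Finset.mem_Ico]
      exact ⟨this.2.1, this.2.2⟩
    have h2 := Finset.card_le_card h1
    rw [Nat.card_Ico] at h2
    have h3 : I.card ≤ 2 ^ k := by
      rw [pow_succ] at h2
      omega
    exact_mod_cast h3
  have h2k : (0 : ℝ) < 2 ^ k := by positivity
  have h1 := ls_real B hB (X := 4 ^ (k + 1)) (one_le_pow₀ (by norm_num)) I (fun e => e ^ 2)
    (fun a ha b hb hab => by
      simp only at hab
      exact Nat.pow_left_injective (n := 2) two_ne_zero hab)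
    (fun e he => by
      have := hmem e he
      refine ⟨Nat.one_le_pow _ _ (by omega), ?_⟩
      have h4 : (e : ℝ) ≤ 2 ^ (k + 1) := by exact_mod_cast this.2.2.le
      push_cast
      calc (e : ℝ) ^ 2 ≤ ((2 : ℝ) ^ (k + 1)) ^ 2 := pow_le_pow_left₀ (Nat.cast_nonneg _) h4 2
        _ = 4 ^ (k + 1) := by rw [← pow_mul, mul_comm, pow_mul]; norm_num) (fun e => (cnr j X e : ℝ))
  refine h1.trans ?_
  have h4k : (4 : ℝ) ^ (k + 1) = 4 * (2 ^ k) ^ 2 := by
    rw [pow_succ, ← pow_mul, mul_comm k 2, pow_mul]; norm_num; ring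
  have hs : ∑ e ∈ I, (cnr j X e : ℝ) ^ 2 ≤ (X : ℝ) ^ 2 / 2 ^ k := by
    calc ∑ e ∈ I, (cnr j X e : ℝ) ^ 2 ≤ ∑ e ∈ I, ((X : ℝ) / 2 ^ k) ^ 2 := by
          refine Finset.sum_le_sum fun e he => ?_
          have h5 := hmem e he
          apply pow_le_pow_left₀ (Nat.cast_nonneg _)
          have h6 : (2 : ℝ) ^ k ≤ e := by exact_mod_cast h5.2.1
          have h7 : (cnr j X e : ℝ) ≤ (X / e : ℕ) := by exact_mod_cast cnr_le h5.1
          calc (cnr j X e : ℝ) ≤ (X / e : ℕ) := h7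
            _ ≤ (X : ℝ) / e := Nat.cast_div_le
            _ ≤ _ := div_le_div_of_nonneg_left (Nat.cast_nonneg _) h2k h6
      _ = I.card * ((X : ℝ) / 2 ^ k) ^ 2 := by rw [Finset.sum_const, nsmul_eq_mul]
      _ ≤ 2 ^ k * ((X : ℝ) / 2 ^ k) ^ 2 := mul_le_mul_of_nonneg_right hcard (by positivity)
      _ = _ := by field_simp
  set L := Nat.log 2 N with hL
  have hth : (1 : ℝ) / 2 ^ k + 16 * (1 / 2) ^ (L - k) ≤ t2 L k ^ 2 := by
    unfold t2
    have e1 : (1 : ℝ) / 2 ^ k = (rh ^ k) ^ 2 := by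
      rw [← pow_mul, mul_comm, pow_mul, rh_sq, one_div_pow]
    have e2 : (1 / 2 : ℝ) ^ (L - k) = (rh ^ (L - k)) ^ 2 := by
      rw [← pow_mul, mul_comm, pow_mul, rh_sq]
    rw [e1, e2]
    have h0 := rh_pos
    have a1 : 0 < rh ^ k := by positivity
    have a2 : 0 < rh ^ (L - k) := by positivity
    nlinarith [mul_pos a1 a2]
  have hL1 : (2 : ℝ) ^ L ≤ N := by exact_mod_cast Nat.pow_log_le_self 2 hNn
  have hr1 : (2 : ℝ) ^ k / N ≤ (1 / 2) ^ (L - k) := by
    rw [div_le_iff₀ hN0]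
    calc (2 : ℝ) ^ k = (1 / 2) ^ (L - k) * 2 ^ L := by
          have : (2 : ℝ) ^ L = 2 ^ (L - k) * 2 ^ k := by rw [← pow_add]; congr 1; omega
          rw [this, ← mul_assoc, ← mul_pow]
          norm_num
      _ ≤ _ := mul_le_mul_of_nonneg_left hL1 (by positivity)
  have key : (1 + 3 * (4 : ℝ) ^ (k + 1) / N) * ∑ e ∈ I, (cnr j X e : ℝ) ^ 2 ≤ (X : ℝ) ^ 2 * t2 L k ^ 2 := by
    calc (1 + 3 * (4 : ℝ) ^ (k + 1) / N) * ∑ e ∈ I, (cnr j X e : ℝ) ^ 2 ≤
        (1 + 3 * (4 : ℝ) ^ (k + 1) / N) * ((X : ℝ) ^ 2 / 2 ^ k) :=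
          mul_le_mul_of_nonneg_left hs (by positivity)
      _ = (X : ℝ) ^ 2 * (1 / 2 ^ k + 12 * ((2 : ℝ) ^ k / N)) := by
          rw [h4k]
          field_simp
          ring
      _ ≤ (X : ℝ) ^ 2 * (1 / 2 ^ k + 16 * (1 / 2) ^ (L - k)) := by
          apply mul_le_mul_of_nonneg_left _ (by positivity)
          have : (0 : ℝ) ≤ (1 / 2) ^ (L - k) := by positivity
          linarith
      _ ≤ _ := mul_le_mul_of_nonneg_left hth (by positivity)
  calc (Real.exp (4 * Real.pi) * (1 + 3 * (4 : ℝ) ^ (k + 1) / N)) * ∑ e ∈ I, (cnr j X e : ℝ) ^ 2 =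
      Real.exp (4 * Real.pi) * ((1 + 3 * (4 : ℝ) ^ (k + 1) / N) * ∑ e ∈ I, (cnr j X e : ℝ) ^ 2) := by ring
    _ ≤ Real.exp (4 * Real.pi) * ((X : ℝ) ^ 2 * t2 L k ^ 2) :=
        mul_le_mul_of_nonneg_left key (exp_pos _).le
    _ = _ := by ring

/-- the variance -/
lemma rough_var {N : ℕ} [NeZero N] (B : Finset (SF N 2)) (hB : IsNewSet N 2 B) (j X : ℕ)
    (hX : X * 2 ^ j ≤ N) :
    ∑ f ∈ B, om f * (∑ e ∈ (Ro j X).erase 1, (cnr j X e : ℝ) * W388.lamf f (e ^ 2)) ^ 2 ≤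
      Real.exp (4 * Real.pi) * (X : ℝ) ^ 2 * (5 * (1 - rh)⁻¹ * rh ^ j) ^ 2 := by
  have hrh : 0 < 1 - rh := by linarith [rh_lt]
  have hNn : N ≠ 0 := NeZero.ne N
  set L := Nat.log 2 N with hL
  set K := Finset.Icc j (L - j) with hK
  set S : SF N 2 → ℕ → ℝ := fun f k => ∑ e ∈ ((Ro j X).erase 1).filter (fun e => Nat.log 2 e = k),
      (cnr j X e : ℝ) * W388.lamf f (e ^ 2) with hS
  have h1 : ∀ f : SF N 2, ∑ e ∈ (Ro j X).erase 1, (cnr j X e : ℝ) * W388.lamf f (e ^ 2) = ∑ k ∈ K, S f k := by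
    intro f
    rw [hS]
    rw [Finset.sum_fiberwise_of_maps_to]
    intro e he
    rw [Finset.mem_erase] at he
    have h2 := Ro_gt he.2 he.1
    have h3 := (mem_Ro.1 he.2).1
    rw [hK, Finset.mem_Icc]
    refine ⟨(Nat.le_log_iff_pow_le one_lt_two (by omega)).2 h2.le, ?_⟩
    have h4 : Nat.log 2 (e * 2 ^ j) ≤ L := Nat.log_mono_right ((Nat.mul_le_mul_right _ h3.2).trans hX)
    have he0 : e ≠ 0 := by omega
    have h5 : ∀ i : ℕ, Nat.log 2 (e * 2 ^ i) = Nat.log 2 e + i := by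
      intro i
      induction i with
      | zero => simp
      | succ i ih =>
        rw [pow_succ, ← mul_assoc, Nat.log_mul_base one_lt_two (mul_ne_zero he0 (by positivity)), ih]
        rfl
    have h5 := h5 j
    omega
  have h2 : ∀ f : SF N 2, (∑ k ∈ K, S f k) ^ 2 ≤ (∑ k ∈ K, t2 L k) * ∑ k ∈ K, S f k ^ 2 / t2 L k := by
    intro f
    refine Finset.sum_sq_le_sum_mul_sum_of_sq_eq_mul K (fun k _ => (t2_pos L k).le)
      (fun k _ => div_nonneg (sq_nonneg _) (t2_pos L k).le) fun k _ => ?_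
    rw [mul_div_cancel₀ _ (t2_pos L k).ne']
  have hth : ∑ k ∈ K, t2 L k ≤ 5 * (1 - rh)⁻¹ * rh ^ j := sum_t2
  have hth0 : 0 ≤ ∑ k ∈ K, t2 L k := Finset.sum_nonneg fun k _ => (t2_pos L k).le
  set A : ℝ := Real.exp (4 * Real.pi) with hA
  have hA0 : 0 < A := exp_pos _
  calc ∑ f ∈ B, om f * (∑ e ∈ (Ro j X).erase 1, (cnr j X e : ℝ) * W388.lamf f (e ^ 2)) ^ 2 ≤
      ∑ f ∈ B, om f * ((∑ k ∈ K, t2 L k) * ∑ k ∈ K, S f k ^ 2 / t2 L k) := by
        refine Finset.sum_le_sum fun f _ => ?_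
        rw [h1]
        exact mul_le_mul_of_nonneg_left (h2 f) (om_nonneg f)
    _ = (∑ k ∈ K, t2 L k) * ∑ k ∈ K, (∑ f ∈ B, om f * S f k ^ 2) / t2 L k := by
        have : ∀ k ∈ K, (∑ f ∈ B, om f * S f k ^ 2) / t2 L k = ∑ f ∈ B, om f * (S f k ^ 2 / t2 L k) := by
          intro k _
          rw [Finset.sum_div]
          exact Finset.sum_congr rfl fun f _ => by ring
        rw [Finset.sum_congr rfl this, Finset.sum_comm, Finset.mul_sum]
        refine Finset.sum_congr rfl fun f _ => ?_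
        rw [← Finset.mul_sum]
        ring
    _ ≤ (∑ k ∈ K, t2 L k) * ∑ k ∈ K, A * (X : ℝ) ^ 2 * t2 L k := by
        refine mul_le_mul_of_nonneg_left (Finset.sum_le_sum fun k hk => ?_) hth0
        rw [div_le_iff₀ (t2_pos L k)]
        refine (block2 B hB j X k ?_).trans (le_of_eq ?_)
        · rw [hK, Finset.mem_Icc] at hk
          omega
        · ring
    _ = A * (X : ℝ) ^ 2 * (∑ k ∈ K, t2 L k) ^ 2 := by
        rw [← Finset.mul_sum]
        ring
    _ ≤ A * (X : ℝ) ^ 2 * (5 * (1 - rh)⁻¹ * rh ^ j) ^ 2 := by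
        apply mul_le_mul_of_nonneg_left _ (by positivity)
        exact pow_le_pow_left₀ hth0 hth 2

/-- the weight and the sum of squares -/
lemma om_sum_sq {N : ℕ} [NeZero N] {B : Finset (SF N 2)} (hB : IsNewSet N 2 B) {f : SF N 2} (hf : f ∈ B)
    {s : Finset ℕ} (hs : ∀ n ∈ s, n ≤ N) :
    om f * ∑ n ∈ s, W388.lamf f n ^ 2 ≤ 4 * exp (4 * π) := by
  have hN0 : (0 : ℝ) < N := by exact_mod_cast Nat.pos_of_ne_zero (NeZero.ne N)
  have hp := pet_posB hB hf
  have h1 := strip_long f (c := 1 / N) (by positivity) s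
  have e1 : (1 + 3 / ((N : ℝ) * (1 / N))) = 4 := by field_simp; norm_num
  rw [e1] at h1
  have h2 := div_le_div_of_nonneg_right h1 hp.le
  rw [Finset.sum_div, mul_div_assoc, div_self hp.ne', mul_one] at h2
  rw [Finset.sum_congr rfl (fun n _ => term_eq hB hf n (1 / N))] at h2
  have h3 : exp (-(4 * π)) * (om f * ∑ n ∈ s, W388.lamf f n ^ 2) ≤
      ∑ n ∈ s, om f * W388.lamf f n ^ 2 * Real.exp (-(4 * Real.pi * n * (1 / N))) := by
    rw [Finset.mul_sum, Finset.mul_sum]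
    refine Finset.sum_le_sum fun n hn => ?_
    rw [mul_comm]
    refine mul_le_mul_of_nonneg_left (exp_le_exp.2 ?_) (mul_nonneg (om_nonneg f) (sq_nonneg _))
    have h4 : (n : ℝ) ≤ N := by exact_mod_cast hs n hn
    have h5 : (n : ℝ) * (1 / N) ≤ 1 := by
      rw [mul_one_div, div_le_one hN0]
      exact h4
    nlinarith [Real.pi_pos]
  have h4 : exp (-(4 * π)) * (om f * ∑ n ∈ s, W388.lamf f n ^ 2) ≤ 4 := h3.trans h2
  have h5 : exp (4 * π) * exp (-(4 * π)) = 1 := by rw [← Real.exp_add]; simp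
  calc om f * ∑ n ∈ s, W388.lamf f n ^ 2 = exp (4 * π) * (exp (-(4 * π)) * (om f * ∑ n ∈ s, W388.lamf f n ^ 2)) := by
        rw [← mul_assoc, h5, one_mul]
    _ ≤ exp (4 * π) * 4 := mul_le_mul_of_nonneg_left h4 (exp_pos _).le
    _ = _ := mul_comm _ _

/-- the number of the rough numbers -/
lemma Ro_blocks (j k : ℕ) : k * Nat.totient ((2 ^ j).factorial) ≤ (Ro j (k * (2 ^ j).factorial)).card := by
  set Q := (2 ^ j).factorial with hQ
  have h : ∀ k : ℕ, ((Finset.Ico 1 (1 + k * Q)).filter fun n => Nat.Coprime Q n).card = k * Nat.totient Q := by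
    intro k
    induction k with
    | zero => simp
    | succ k ih =>
      have e1 : Finset.Ico 1 (1 + (k + 1) * Q) = Finset.Ico 1 (1 + k * Q) ∪ Finset.Ico (1 + k * Q) (1 + k * Q + Q) := by
        rw [Finset.Ico_union_Ico_eq_Ico (by omega) (by omega)]
        congr 1
        ring
      rw [e1, Finset.filter_union, Finset.card_union_of_disjoint, ih, Nat.filter_coprime_Ico_eq_totient]
      · ring
      · apply Finset.disjoint_filter_filter
        rw [Finset.disjoint_left]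
        intro x hx hy
        rw [Finset.mem_Ico] at hx hy
        omega
  rw [← h k]
  apply Finset.card_le_card
  intro n hn
  rw [Finset.mem_filter, Finset.mem_Ico] at hn
  rw [mem_Ro]
  exact ⟨⟨hn.1.1, by omega⟩, hn.2⟩

lemma Ro_card {j X : ℕ} (hX : (2 ^ j).factorial ≤ X) :
    (X : ℝ) * (Nat.totient ((2 ^ j).factorial) / (2 * (2 ^ j).factorial)) ≤ (Ro j X).card := by
  set Q := (2 ^ j).factorial with hQ
  have hQ0 : 0 < Q := Nat.factorial_pos _
  have hQR : (0 : ℝ) < Q := by exact_mod_cast hQ0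
  set k := X / Q with hk
  have h1 := Ro_blocks j k
  have h2 : Ro j (k * Q) ⊆ Ro j X := by
    intro n hn
    rw [mem_Ro] at hn ⊢
    exact ⟨⟨hn.1.1, hn.1.2.trans (Nat.div_mul_le_self X Q)⟩, hn.2⟩
  have h3 : k * Nat.totient Q ≤ (Ro j X).card := h1.trans (Finset.card_le_card h2)
  have h4 : (X : ℝ) ≤ 2 * (k * Q) := by
    have h5 : 1 ≤ k := Nat.div_pos hX hQ0
    have h6 := Nat.div_add_mod X Q
    have h7 := Nat.mod_lt X hQ0
    have h8 : X ≤ 2 * (k * Q) := by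
      have : Q ≤ k * Q := Nat.le_mul_of_pos_left Q h5
      have h9 : Q * (X / Q) = k * Q := by rw [hk, mul_comm]
      omega
    exact_mod_cast h8
  have h5 : ((k * Nat.totient Q : ℕ) : ℝ) ≤ (Ro j X).card := by exact_mod_cast h3
  refine le_trans ?_ h5
  push_cast
  have h6 : (0 : ℝ) ≤ Nat.totient Q := Nat.cast_nonneg _
  calc (X : ℝ) * (Nat.totient Q / (2 * Q)) ≤ (2 * (k * Q)) * (Nat.totient Q / (2 * Q)) :=
        mul_le_mul_of_nonneg_right h4 (by positivity)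
    _ = _ := by field_simp

/-- the density of the rough numbers -/
lemma dens : ∃ c : ℝ, 0 < c ∧ ∀ j : ℕ, 2 ≤ j → c / (j : ℝ) ^ 2 ≤
    Nat.totient ((2 ^ j).factorial) / (2 * ((2 ^ j).factorial : ℝ)) := by
  obtain ⟨C, hC⟩ := Pool.Agent.Erdos456.Mert.mertens_inv
  refine ⟨exp (-2 * C) / 2, by positivity, fun j hj => ?_⟩
  set Q := (2 ^ j).factorial with hQ
  have hQ0 : 0 < Q := Nat.factorial_pos _
  have hQR : (0 : ℝ) < Q := by exact_mod_cast hQ0
  have hpf : Q.primeFactors = (Finset.Icc 1 (2 ^ j)).filter Nat.Prime := by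
    ext p
    rw [Nat.mem_primeFactors, Finset.mem_filter, Finset.mem_Icc, hQ]
    constructor
    · rintro ⟨h1, h2, -⟩
      exact ⟨⟨h1.one_le, (Nat.Prime.dvd_factorial h1).1 h2⟩, h1⟩
    · rintro ⟨⟨-, h1⟩, h2⟩
      exact ⟨h2, (Nat.Prime.dvd_factorial h2).2 h1, (Nat.factorial_pos _).ne'⟩
  have h1 : (Nat.totient Q : ℝ) = Q * ∏ p ∈ Q.primeFactors, (1 - (p : ℝ)⁻¹) := by
    have h := Nat.totient_eq_mul_prod_factors Q
    have h2 := congrArg (fun q : ℚ => (q : ℝ)) h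
    push_cast at h2
    exact h2
  have h4 : (3 : ℕ) ≤ 2 ^ j := by
    calc 3 ≤ 2 ^ 2 := by norm_num
      _ ≤ 2 ^ j := Nat.pow_le_pow_right (by norm_num) hj
  have h2 := (abs_le.1 (hC (2 ^ j) h4)).2
  have hlog2 : log 2 ≤ 1 := by have := Real.log_two_lt_d9; linarith
  have hlog20 : 0 < log 2 := Real.log_pos (by norm_num)
  have hj0 : (0 : ℝ) < j := by
    have : 0 < j := by omega
    exact_mod_cast this
  have h3 : log (log ((2 ^ j : ℕ) : ℝ)) ≤ log j := by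
    push_cast
    rw [Real.log_pow]
    apply Real.log_le_log (by positivity)
    nlinarith
  have h5 : exp (-2 * C) / (j : ℝ) ^ 2 ≤ ∏ p ∈ Q.primeFactors, (1 - (p : ℝ)⁻¹) := by
    have h6 : ∏ p ∈ Q.primeFactors, exp (-2 * (1 / (p : ℝ))) ≤ ∏ p ∈ Q.primeFactors, (1 - (p : ℝ)⁻¹) := by
      refine Finset.prod_le_prod (fun p _ => (exp_pos _).le) fun p hp => ?_
      have hpp := Nat.prime_of_mem_primeFactors hp
      have hp2 : (2 : ℝ) ≤ p := by exact_mod_cast hpp.two_le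
      set t : ℝ := (p : ℝ)⁻¹ with ht
      have ht0 : 0 < t := by positivity
      have ht1 : t ≤ 1 / 2 := by
        rw [ht, inv_le_comm₀ (by linarith) (by norm_num)]
        linarith
      have e1 : -2 * (1 / (p : ℝ)) = -(2 * t) := by rw [ht]; ring
      rw [e1, Real.exp_neg]
      have h7 := Real.quadratic_le_exp_of_nonneg (x := 2 * t) (by linarith)
      rw [inv_le_comm₀ (exp_pos _) (by linarith)]
      refine le_trans ?_ h7
      rw [inv_le_iff_one_le_mul₀ (by linarith)]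
      nlinarith
    refine le_trans ?_ h6
    rw [← Real.exp_sum, ← Finset.mul_sum, hpf]
    have h8 : exp (-2 * C) / (j : ℝ) ^ 2 = exp (-2 * C + -2 * log j) := by
      rw [Real.exp_add]
      have : exp (-2 * log (j : ℝ)) = ((j : ℝ) ^ 2)⁻¹ := by
        rw [← Real.exp_log (show (0 : ℝ) < ((j : ℝ) ^ 2)⁻¹ by positivity), Real.log_inv, Real.log_pow]
        congr 1
        push_cast
        ring
      rw [this]
      rfl
    rw [h8]
    apply exp_le_exp.2
    linarith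
  rw [h1]
  have h6 : (Q : ℝ) * (∏ p ∈ Q.primeFactors, (1 - (p : ℝ)⁻¹)) / (2 * (Q : ℝ)) =
      (∏ p ∈ Q.primeFactors, (1 - (p : ℝ)⁻¹)) / 2 := by field_simp
  rw [h6]
  have h7 : exp (-2 * C) / 2 / (j : ℝ) ^ 2 = (exp (-2 * C) / (j : ℝ) ^ 2) / 2 := by ring
  rw [h7]
  linarith

end Pool.Agent.H485.CC
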