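import Pool.Agent.H485.CC.Mod

/-!
# The general Hecke relation
-/

set_option autoImplicit false
set_option maxHeartbeats 1000000

open Finset

namespace Pool.Agent.H485.CC

lemma Sm.one' {S : Finset ℕ} : Sm S 1 := ⟨le_rfl, by simp⟩

/-- the general Hecke relation -/
theorem HRel.gen {S : Finset ℕ} (hS : ∀ p ∈ S, p.Prime) {lam : ℕ → ℝ} (h : HRel S lam) :
    ∀ n : ℕ, Sm S n → ∀ m : ℕ, 1 ≤ m →
      lam n * lam m = ∑ d ∈ (Nat.gcd n m).divisors, lam (n * m / (d * d)) := by
  intro n
  induction n using Nat.strong_induction_on with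
  | _ n ih =>
    intro hn m hm
    rcases Nat.lt_or_ge 1 n with h1 | h1
    swap
    · have hn1 : n = 1 := by have := hn.1; omega
      subst hn1
      simp [h.one]
    · obtain ⟨p, hp, hpn⟩ := Nat.exists_prime_and_dvd (show n ≠ 1 by omega)
      have hpS : p ∈ S := hn.2 (Nat.mem_primeFactors.2 ⟨hp, hpn, by omega⟩)
      obtain ⟨k, rfl⟩ := hpn
      have hk0 : 0 < k := by
        rcases Nat.eq_zero_or_pos k with h0 | h0
        · subst h0; simp at h1
        · exact h0
      have hp0 : 0 < p := hp.pos
      have hp1 : 1 < p := hp.one_lt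
      have hkS : Sm S k := by
        have := hn.div (p := p) (Dvd.intro _ rfl)
        rwa [Nat.mul_div_cancel_left _ hp0] at this
      have hklt : k < p * k := by nlinarith
      have e1 : lam (p * k) = lam p * lam k - if p ∣ k then lam (k / p) else 0 := by
        rw [h.mul p hpS k hk0]; ring
      have ih1 := ih k hklt hkS m hm
      have e2 : (if p ∣ k then lam (k / p) else 0) * lam m =
          ∑ d ∈ (Nat.gcd k m).divisors with p * d ∣ k, lam (k * m / (d * d) / p) := by
        split_ifs with hd
        · obtain ⟨l, rfl⟩ := hd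
          have hl0 : 0 < l := Nat.pos_of_ne_zero fun h0 => by subst h0; simp at hk0
          have hlS : Sm S l := by
            have := hkS.div (p := p) (Dvd.intro _ rfl)
            rwa [Nat.mul_div_cancel_left _ hp0] at this
          rw [Nat.mul_div_cancel_left _ hp0, ih l (by nlinarith) hlS m hm]
          refine Finset.sum_congr ?_ fun d hd => ?_
          · ext d
            simp only [Nat.mem_divisors, Finset.mem_filter]
            constructor
            · rintro ⟨h3, h4⟩
              have h5 := h3.trans (Nat.gcd_dvd_left _ _)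
              have h6 := h3.trans (Nat.gcd_dvd_right _ _)
              exact ⟨⟨Nat.dvd_gcd (h5.mul_left _) h6, (Nat.gcd_pos_of_pos_left _ hk0).ne'⟩,
                Nat.mul_dvd_mul_left p h5⟩
            · rintro ⟨⟨h3, h4⟩, h5⟩
              exact ⟨Nat.dvd_gcd (Nat.dvd_of_mul_dvd_mul_left hp0 h5) (h3.trans (Nat.gcd_dvd_right _ _)),
                (Nat.gcd_pos_of_pos_left _ hl0).ne'⟩
          · rw [Nat.div_div_eq_div_mul]
            congr 1
            rw [show p * l * m = p * (l * m) by ring, show d * d * p = p * (d * d) by ring,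
              Nat.mul_div_mul_left _ _ hp0]
        · rw [zero_mul]
          symm
          apply Finset.sum_eq_zero
          intro d hd'
          exact absurd ((Dvd.intro _ rfl).trans (Finset.mem_filter.1 hd').2) hd
      have e3 : lam p * (lam k * lam m) =
          ∑ d ∈ (Nat.gcd k m).divisors, lam (p * k * m / (d * d)) +
          ∑ d ∈ (Nat.gcd k m).divisors with (p * d ∣ k ∨ p * d ∣ m), lam (k * m / (d * d) / p) := by
        rw [ih1, Finset.mul_sum, Finset.sum_filter, ← Finset.sum_add_distrib]
        refine Finset.sum_congr rfl fun d hd => ?_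
        rw [Nat.mem_divisors] at hd
        obtain ⟨a, ha⟩ := hd.1.trans (Nat.gcd_dvd_left _ _)
        obtain ⟨b, hb⟩ := hd.1.trans (Nat.gcd_dvd_right _ _)
        have hd0 : 0 < d := Nat.pos_of_ne_zero fun h0 => by rw [h0, zero_mul] at ha; omega
        have ha0 : 0 < a := Nat.pos_of_ne_zero fun h0 => by rw [h0, mul_zero] at ha; omega
        have hb0 : 0 < b := Nat.pos_of_ne_zero fun h0 => by rw [h0, mul_zero] at hb; omega
        have f1 : k * m / (d * d) = a * b := by
          rw [ha, hb, show d * a * (d * b) = d * d * (a * b) by ring,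
            Nat.mul_div_cancel_left _ (by positivity)]
        have f2 : p * k * m / (d * d) = p * (a * b) := by
          rw [ha, hb, show p * (d * a) * (d * b) = d * d * (p * (a * b)) by ring,
            Nat.mul_div_cancel_left _ (by positivity)]
        rw [f1, f2, h.mul p hpS (a * b) (Nat.mul_pos ha0 hb0)]
        congr 1
        have f3 : p ∣ a * b ↔ (p * d ∣ k ∨ p * d ∣ m) := by
          rw [hp.dvd_mul, ha, hb, mul_comm d a, mul_comm d b, Nat.mul_dvd_mul_iff_right hd0,
            Nat.mul_dvd_mul_iff_right hd0]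
        by_cases hc : p ∣ a * b
        · rw [if_pos hc, if_pos (f3.1 hc)]
        · rw [if_neg hc, if_neg (fun h' => hc (f3.2 h'))]
      have e4 : ∑ d ∈ (Nat.gcd k m).divisors with (p * d ∣ k ∨ p * d ∣ m), lam (k * m / (d * d) / p) =
          ∑ d ∈ (Nat.gcd k m).divisors with p * d ∣ k, lam (k * m / (d * d) / p) +
          ∑ d ∈ (Nat.gcd k m).divisors with (¬ p * d ∣ k ∧ p * d ∣ m), lam (k * m / (d * d) / p) := by
        rw [← Finset.sum_union]
        · refine Finset.sum_congr ?_ fun _ _ => rfl
          ext d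
          simp only [Finset.mem_filter, Finset.mem_union]
          tauto
        · rw [Finset.disjoint_left]
          intro d h3 h4
          exact (Finset.mem_filter.1 h4).2.1 (Finset.mem_filter.1 h3).2
      have e5 : ∑ d ∈ (Nat.gcd k m).divisors with (¬ p * d ∣ k ∧ p * d ∣ m), lam (k * m / (d * d) / p) =
          ∑ e ∈ (Nat.gcd (p * k) m).divisors with ¬ e ∣ k, lam (p * k * m / (e * e)) := by
        refine Finset.sum_nbij (fun d => p * d) ?_ ?_ ?_ ?_
        · intro d hd
          simp only [Finset.mem_filter, Nat.mem_divisors] at hd ⊢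
          obtain ⟨⟨h3, h4⟩, h5, h6⟩ := hd
          exact ⟨⟨Nat.dvd_gcd (Nat.mul_dvd_mul_left p (h3.trans (Nat.gcd_dvd_left _ _))) h6,
            (Nat.gcd_pos_of_pos_right _ hm).ne'⟩, h5⟩
        · intro a _ b _ hab
          exact Nat.eq_of_mul_eq_mul_left hp0 hab
        · intro e he
          simp only [Finset.coe_filter, Nat.mem_divisors, Set.mem_setOf_eq] at he
          obtain ⟨⟨h3, h4⟩, h5⟩ := he
          have h6 := h3.trans (Nat.gcd_dvd_left _ _)
          have h7 := h3.trans (Nat.gcd_dvd_right _ _)
          have h8 : p ∣ e := by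
            by_contra hpe
            have hc : Nat.Coprime e p := ((Nat.Prime.coprime_iff_not_dvd hp).2 hpe).symm
            exact h5 (hc.dvd_of_dvd_mul_left h6)
          obtain ⟨d, rfl⟩ := h8
          refine ⟨d, ?_, rfl⟩
          simp only [Finset.coe_filter, Nat.mem_divisors, Set.mem_setOf_eq]
          exact ⟨⟨Nat.dvd_gcd (Nat.dvd_of_mul_dvd_mul_left hp0 h6) ((Dvd.intro_left _ rfl).trans h7),
            (Nat.gcd_pos_of_pos_right _ hm).ne'⟩, h5, h7⟩
        · intro d _
          congr 1
          rw [Nat.div_div_eq_div_mul, show p * k * m = p * (k * m) by ring,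
            show p * d * (p * d) = p * (d * d * p) by ring, Nat.mul_div_mul_left _ _ hp0]
      have e6 : ∑ e ∈ (Nat.gcd (p * k) m).divisors, lam (p * k * m / (e * e)) =
          ∑ d ∈ (Nat.gcd k m).divisors, lam (p * k * m / (d * d)) +
          ∑ e ∈ (Nat.gcd (p * k) m).divisors with ¬ e ∣ k, lam (p * k * m / (e * e)) := by
        rw [← Finset.sum_filter_add_sum_filter_not (Nat.gcd (p * k) m).divisors (fun e => e ∣ k)]
        congr 1
        refine Finset.sum_congr ?_ fun _ _ => rfl
        ext d
        simp only [Finset.mem_filter, Nat.mem_divisors]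
        constructor
        · rintro ⟨⟨h3, h4⟩, h5⟩
          exact ⟨Nat.dvd_gcd h5 (h3.trans (Nat.gcd_dvd_right _ _)), (Nat.gcd_pos_of_pos_right _ hm).ne'⟩
        · rintro ⟨h3, h4⟩
          have h5 := h3.trans (Nat.gcd_dvd_left _ _)
          exact ⟨⟨Nat.dvd_gcd (h5.mul_left _) (h3.trans (Nat.gcd_dvd_right _ _)),
            (Nat.gcd_pos_of_pos_right _ hm).ne'⟩, h5⟩
      calc lam (p * k) * lam m = lam p * (lam k * lam m) - (if p ∣ k then lam (k / p) else 0) * lam m := by
            rw [e1]; ring
        _ = _ := by rw [e3, e2, e4, e5, e6]; ring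

end Pool.Agent.H485.CC
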