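import Pool.Agent.H485.CC.Pf9

/-!
# The total harmonic weight tends to one
-/

set_option autoImplicit false
set_option maxHeartbeats 4000000

open Filter Topology Real

namespace Pool.Agent.H485.CC

open W388.LV (SF om IsNewSet)

lemma pr_card (n : ℕ) : (pr n).card = Nat.primeCounting n := by
  unfold Nat.primeCounting Nat.primeCounting'
  rw [Nat.count_eq_card_filter_range]
  congr 1
  ext p
  rw [mem_pr, Finset.mem_filter, Finset.mem_range, Nat.lt_succ_iff]

lemma pi_lower : ∀ᶠ P : ℕ in atTop, (P : ℝ) / (2 * log P) ≤ ((pr P).card : ℝ) := by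
  have h1 : Tendsto (fun P : ℕ => log ((P : ℝ)) / (P : ℝ)) atTop (𝓝 0) := by
    have := Real.isLittleO_log_id_atTop.tendsto_div_nhds_zero
    exact this.comp tendsto_natCast_atTop_atTop
  filter_upwards [h1.eventually (ge_mem_nhds (show (0 : ℝ) < 1 / 20 by norm_num)),
    eventually_ge_atTop 10] with P hP hP2
  have hP0 : (0 : ℝ) < P := by
    have : (10 : ℝ) ≤ P := by exact_mod_cast hP2
    linarith
  have hP10 : (10 : ℝ) ≤ P := by exact_mod_cast hP2
  have hl : 0 < log (P : ℝ) := Real.log_pos (by linarith)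
  have h2 := Chebyshev.pi_ge P
  rw [pr_card]
  refine le_trans ?_ h2
  have h3 : log ((P : ℝ) + 1) ≤ log P + 1 / P := by
    have : (P : ℝ) + 1 = P * (1 + 1 / P) := by field_simp
    rw [this, Real.log_mul (by positivity) (by positivity)]
    have := Real.log_le_sub_one_of_pos (show (0 : ℝ) < 1 + 1 / P by positivity)
    linarith
  have h4 : (1 : ℝ) / P ≤ 1 / 10 := one_div_le_one_div_of_le (by norm_num) hP10
  rw [div_le_iff₀ hP0] at hP
  rw [div_le_div_iff₀ (by positivity) hl]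
  have h5 := Real.log_two_gt_d9
  have h6 : (P : ℝ) / 2 ≤ P * log 2 - log (P + 1) := by nlinarith
  nlinarith

lemma rho2_le {r y : ℝ} (hy : 2 ≤ y) (hr : exp r = y ^ 2) : 1 / rho2 r - 1 ≤ 8 / y ^ 2 := by
  have hc : y ^ 2 / 2 ≤ Real.cosh r := by
    rw [Real.cosh_eq, hr]
    have := exp_pos (-r)
    linarith
  have hy2 : 4 ≤ y ^ 2 := by nlinarith
  unfold rho2
  have h1 : 0 < Real.cosh r - 1 := by linarith
  have e : 1 / ((Real.cosh r - 1) / (Real.cosh r + 1)) - 1 = 2 / (Real.cosh r - 1) := by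
    have : 0 < Real.cosh r + 1 := by linarith
    field_simp
    ring
  rw [e, div_le_div_iff₀ h1 (by positivity)]
  nlinarith

lemma qs_lem {N Y l q0 s : ℝ} (hN : 0 < N) (hY : 0 < Y) (hl : 0 < l) (hq : 0 < q0) (h1 : l ≤ q0 / 4 * Y)
    (h2 : N / (4 * Y * l) ≤ s) : N / Y ^ 2 ≤ q0 * s := by
  calc N / Y ^ 2 ≤ q0 * (N / (4 * Y * l)) := by
        rw [div_le_iff₀ (by positivity)]
        have : q0 * (N / (4 * Y * l)) * Y ^ 2 = N * ((q0 / 4 * Y) / l) := by
          field_simp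
        rw [this]
        apply le_mul_of_one_le_right hN.le
        rw [le_div_iff₀ hl]
        linarith
    _ ≤ q0 * s := mul_le_mul_of_nonneg_left h2 hq.le

lemma px_lem {N Y P : ℝ} (hN : 0 < N) (hY : 0 < Y) (hP0 : 0 ≤ P) (hP : P ≤ N / Y) (h1 : 1 ≤ N / Y ^ 2) :
    1 + 3 * P ^ 2 / N ≤ 4 * (N / Y ^ 2) := by
  have g1 : P ^ 2 ≤ (N / Y) ^ 2 := pow_le_pow_left₀ hP0 hP 2
  have g2 : 3 * P ^ 2 / N ≤ 3 * (N / Y ^ 2) := by
    rw [div_le_iff₀ hN]
    have : 3 * (N / Y ^ 2) * N = 3 * (N / Y) ^ 2 := by field_simp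
    rw [this]
    linarith
  linarith

lemma mass_alg {δ Ce W s D M q0 X : ℝ} (hδ : 0 < δ) (hCe : 0 < Ce) (hs0 : 0 < s) (hW0 : 0 ≤ W) (hW2 : W ≤ 2)
    (hM : 0 ≤ M) (hM1 : M ≤ q0 * s) (hq1 : q0 ≤ δ / (8 * Ce)) (hq2 : q0 ≤ δ ^ 2 / (32 * Ce))
    (hA : s - D ≤ Ce * (4 * M)) (hsq : D - W * s ≤ sqrt (W * (Ce * X * s))) (hX : X ≤ 4 * M) :
    1 - δ ≤ W := by
  have h6 : sqrt (W * (Ce * X * s)) ≤ δ / 2 * s := by
    apply Real.sqrt_le_iff.2
    refine ⟨by positivity, ?_⟩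
    have h1 : Ce * X * s ≤ Ce * (4 * (q0 * s)) * s := by
      refine mul_le_mul_of_nonneg_right ?_ hs0.le
      exact mul_le_mul_of_nonneg_left (by linarith) hCe.le
    have h0 : 0 ≤ Ce * (4 * (q0 * s)) * s := by
      have : 0 ≤ q0 * s := hM.trans hM1
      positivity
    calc W * (Ce * X * s) ≤ W * (Ce * (4 * (q0 * s)) * s) := mul_le_mul_of_nonneg_left h1 hW0
      _ ≤ 2 * (Ce * (4 * (q0 * s)) * s) := mul_le_mul_of_nonneg_right hW2 h0
      _ = (8 * Ce * q0) * s ^ 2 := by ring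
      _ ≤ (δ / 2) ^ 2 * s ^ 2 := by
        refine mul_le_mul_of_nonneg_right ?_ (by positivity)
        rw [le_div_iff₀ (by positivity)] at hq2
        nlinarith
      _ = _ := by ring
  have h8 : Ce * (4 * M) ≤ δ / 2 * s := by
    rw [le_div_iff₀ (by positivity)] at hq1
    calc Ce * (4 * M) ≤ Ce * (4 * (q0 * s)) := mul_le_mul_of_nonneg_left (by linarith) hCe.le
      _ = (q0 * (8 * Ce)) * s / 2 := by ring
      _ ≤ δ * s / 2 := by
        have := mul_le_mul_of_nonneg_right hq1 hs0.le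
        linarith
      _ = _ := by ring
  have h9 : (1 - W) * s ≤ δ * s := by linarith
  have := le_of_mul_le_mul_right h9 hs0
  linarith

variable {N : ℕ} [NeZero N]

lemma sq_moment (hN : N.Prime) {B : Finset (SF N 2)} (hB : IsNewSet N 2 B) {P : ℕ} (hP : P < N)
    (hP1 : 1 ≤ P) :
    |∑ p ∈ pr P, DB B p - Wt B * (pr P).card| ≤
      sqrt (Wt B * (exp (4 * π) * (1 + 3 * (P : ℝ) ^ 2 / N) * (pr P).card)) := by
  have hprime : ∀ p ∈ pr P, p.Prime := fun p hp => (mem_pr.1 hp).2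
  have hnd : ∀ p ∈ pr P, ¬ p ∣ N := by
    intro p hp hd
    have h1 := mem_pr.1 hp
    rcases (Nat.dvd_prime hN).1 hd with h | h
    · exact h1.2.one_lt.ne' h
    · omega
  have hl : ∀ f ∈ B, ∀ p ∈ pr P, W388.lamf f p ^ 2 = W388.lamf f (p * p) + 1 := by
    intro f hf p hp
    obtain ⟨ε, hε⟩ := hB.newf f hf
    have h := hrel_lamf hε hprime hnd
    have h1 := h.mul p hp p (hprime p hp).one_le
    rw [if_pos (dvd_refl p), Nat.div_self (hprime p hp).pos, h.one] at h1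
    rw [sq, h1]
  have e1 : ∑ p ∈ pr P, DB B p - Wt B * (pr P).card =
      ∑ f ∈ B, om f * ∑ p ∈ pr P, W388.lamf f (p * p) := by
    unfold DB Wt
    rw [Finset.sum_comm, Finset.sum_mul, ← Finset.sum_sub_distrib]
    refine Finset.sum_congr rfl fun f hf => ?_
    rw [← Finset.mul_sum, ← mul_sub]
    congr 1
    rw [Finset.sum_congr rfl (hl f hf), Finset.sum_add_distrib]
    simp
  rw [e1]
  apply Real.abs_le_sqrt
  have h2 : (∑ f ∈ B, om f * ∑ p ∈ pr P, W388.lamf f (p * p)) ^ 2 ≤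
      Wt B * ∑ f ∈ B, om f * (∑ p ∈ pr P, W388.lamf f (p * p)) ^ 2 := by
    have h3 := Finset.sum_mul_sq_le_sq_mul_sq B (fun f => sqrt (om f))
      (fun f => sqrt (om f) * ∑ p ∈ pr P, W388.lamf f (p * p))
    have e2 : ∀ f : SF N 2, sqrt (om f) * (sqrt (om f) * ∑ p ∈ pr P, W388.lamf f (p * p)) =
        om f * ∑ p ∈ pr P, W388.lamf f (p * p) := by
      intro f
      rw [← mul_assoc, Real.mul_self_sqrt (om_nonneg f)]
    have e3 : ∀ f : SF N 2, (sqrt (om f) * ∑ p ∈ pr P, W388.lamf f (p * p)) ^ 2 =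
        om f * (∑ p ∈ pr P, W388.lamf f (p * p)) ^ 2 := by
      intro f
      rw [mul_pow, Real.sq_sqrt (om_nonneg f)]
    have e4 : ∀ f : SF N 2, sqrt (om f) ^ 2 = om f := fun f => Real.sq_sqrt (om_nonneg f)
    simp only [e2, e3, e4] at h3
    exact h3
  refine h2.trans (mul_le_mul_of_nonneg_left ?_ (Finset.sum_nonneg fun f _ => om_nonneg f))
  have hP1' : (1 : ℝ) ≤ P := by exact_mod_cast hP1
  have h5 := ls_real B hB (X := (P : ℝ) ^ 2) (one_le_pow₀ hP1') (pr P) (fun p => p * p)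
    (fun p _ q _ h => by
      have : p * p = q * q := h
      exact Nat.mul_self_inj.1 this)
    (fun p hp => by
      have h1 := mem_pr.1 hp
      refine ⟨Nat.mul_pos h1.2.pos h1.2.pos, ?_⟩
      have : (p : ℝ) ≤ P := by exact_mod_cast h1.1
      push_cast
      have h0 : (0 : ℝ) ≤ p := Nat.cast_nonneg p
      nlinarith) (fun _ => 1)
  simp only [one_mul, one_pow, Finset.sum_const, nsmul_eq_mul, mul_one] at h5
  exact h5

/-- the total weight is at least `1 - δ` -/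
theorem mass_low1 {δ : ℝ} (hδ : 0 < δ) : ∀ᶠ N : ℕ in atTop, N.Prime → ∀ [NeZero N]
    (B : Finset (SF N 2)), W388.LV.IsNewBasis N 2 B → 1 - δ ≤ Wt B := by
  set Ce : ℝ := exp (4 * π) with hCe
  have hCe0 : 0 < Ce := exp_pos _
  set q0 : ℝ := min (δ / (8 * Ce)) (δ ^ 2 / (32 * Ce)) with hq0
  have hq00 : 0 < q0 := by positivity
  have hY : Tendsto (fun N : ℕ => (N : ℝ) ^ (1 / 60 : ℝ)) atTop atTop :=
    (tendsto_rpow_atTop (by norm_num)).comp tendsto_natCast_atTop_atTop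
  have hq : Tendsto (fun N : ℕ => log (N : ℝ) / (N : ℝ) ^ (1 / 60 : ℝ)) atTop (𝓝 0) :=
    (isLittleO_log_rpow_atTop (by norm_num : (0 : ℝ) < 1 / 60)).tendsto_div_nhds_zero.comp
      tendsto_natCast_atTop_atTop
  have hPt : Tendsto (fun N : ℕ => ⌊(N : ℝ) / (N : ℝ) ^ (1 / 60 : ℝ)⌋₊) atTop atTop := by
    refine tendsto_nat_floor_atTop.comp ?_
    have h1 : Tendsto (fun N : ℕ => (N : ℝ) ^ (59 / 60 : ℝ)) atTop atTop :=
      (tendsto_rpow_atTop (by norm_num)).comp tendsto_natCast_atTop_atTop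
    refine h1.congr' ?_
    filter_upwards [eventually_gt_atTop 0] with N hN
    have hN0 : (0 : ℝ) < N := by exact_mod_cast hN
    nth_rewrite 2 [← Real.rpow_one (N : ℝ)]
    rw [← Real.rpow_sub hN0]
    norm_num
  filter_upwards [hY.eventually_ge_atTop 2, hq.eventually (ge_mem_nhds (show 0 < q0 / 4 by positivity)),
    hPt.eventually pi_lower, eventually_ge_atTop 20] with N hN1 hN2 hN3 hN4 hN _ B hB
  have hBs : IsNewSet N 2 B := ⟨hB.newf, hB.orth⟩
  have hN20 : (20 : ℝ) ≤ N := by exact_mod_cast hN4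
  have hN0 : (0 : ℝ) < N := by linarith
  set Y : ℝ := (N : ℝ) ^ (1 / 60 : ℝ) with hYd
  have hY0 : 0 < Y := by linarith
  have hNY : (N : ℝ) = Y ^ 60 := by
    rw [hYd, ← Real.rpow_natCast, ← Real.rpow_mul hN0.le]
    norm_num
  set r : ℝ := 2 * log Y with hr
  have hr0 : 0 < r := by
    have := Real.log_pos (show 1 < Y by linarith)
    positivity
  have her : exp r = Y ^ 2 := by
    rw [hr, ← Real.exp_log hY0, ← Real.exp_nat_mul]
    rw [Real.exp_log hY0]
    push_cast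
    rfl
  have her3 : exp (3 * r) = Y ^ 6 := by
    have : exp (3 * r) = exp r ^ 3 := by rw [← Real.exp_nat_mul]; push_cast; rfl
    rw [this, her]
    ring
  set K : ℕ := ⌈5 * Y * exp (3 * r)⌉₊ with hK
  have hK1 : 5 * Y * exp (3 * r) ≤ K := Nat.le_ceil _
  have hY7 : 128 ≤ Y ^ 7 := by
    calc (128 : ℝ) = 2 ^ 7 := by norm_num
      _ ≤ Y ^ 7 := pow_le_pow_left₀ (by norm_num) hN1 7
  have hK2 : (K : ℝ) ≤ 6 * Y ^ 7 := by
    have h1 := Nat.ceil_lt_add_one (show 0 ≤ 5 * Y * exp (3 * r) by positivity)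
    rw [← hK] at h1
    rw [her3] at h1
    nlinarith
  have hY53 : 128 ≤ Y ^ 53 := by
    calc (128 : ℝ) ≤ 2 ^ 53 := by norm_num
      _ ≤ Y ^ 53 := pow_le_pow_left₀ (by norm_num) hN1 53
  have hKN : 2 * K < N := by
    have : (2 : ℝ) * K < N := by
      rw [hNY]
      have : Y ^ 60 = Y ^ 7 * Y ^ 53 := by ring
      rw [this]
      nlinarith
    exact_mod_cast this
  obtain ⟨-, d2, -⟩ := Pool.Agent.K4H13.CV.dimS Pool.Agent.K4H13.CV.hyp hN (by omega) hB
  have hcard : (N : ℝ) ≤ 12 * B.card + 13 := by exact_mod_cast d2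
  set P : ℕ := ⌊(N : ℝ) / Y⌋₊ with hP
  have hP1 : (P : ℝ) ≤ N / Y := Nat.floor_le (by positivity)
  have hP2 : (N : ℝ) / Y < P + 1 := Nat.lt_floor_add_one _
  have hPY : (P : ℝ) * Y ≤ N := by
    rwa [le_div_iff₀ hY0] at hP1
  have hNdY : 2 ≤ (N : ℝ) / Y := by
    rw [le_div_iff₀ hY0, hNY]
    have : Y ^ 60 = Y * Y ^ 59 := by ring
    rw [this]
    have : (2 : ℝ) ≤ Y ^ 59 := by
      calc (2 : ℝ) ≤ 2 ^ 59 := by norm_num
        _ ≤ Y ^ 59 := pow_le_pow_left₀ (by norm_num) hN1 59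
    nlinarith
  have hP3 : (N : ℝ) / Y / 2 ≤ P := by linarith
  have hPge : 1 ≤ P := by
    have : (0 : ℝ) < P := by linarith
    exact_mod_cast this
  have hPN : P < N := by
    have : (P : ℝ) < N := by
      have hp : (1 : ℝ) ≤ P := by exact_mod_cast hPge
      nlinarith
    exact_mod_cast this
  have hcore := mass_core hN hBs hcard hN1 hr0 hK1 hKN (pr P) (fun n hn => by
    have h1 := mem_pr.1 hn
    refine ⟨h1.2.one_le, ?_⟩
    have : (n : ℝ) ≤ P := by exact_mod_cast h1.1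
    nlinarith)
  have hρ := rho2_le hN1 her
  -- bound for the defect
  have hdef : N / (4 * π * (Y - 1)) - N / (4 * π * Y) + (1 / rho2 r - 1) * (((N : ℝ) + 1) / 12) + 14 / 12 +
        10 * (3 * (2 * K + 1) ^ 4 + 1) * (π / 3) ≤ 4 * (N / Y ^ 2) := by
    have hpi3 := Real.pi_gt_three
    have hpi4 := Real.pi_lt_four
    have e1 : N / (4 * π * (Y - 1)) - N / (4 * π * Y) ≤ (N : ℝ) / Y ^ 2 := by
      have hY1 : 0 < Y - 1 := by linarith
      have : N / (4 * π * (Y - 1)) - N / (4 * π * Y) = (N : ℝ) / (4 * π * (Y - 1) * Y) := by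
        field_simp
        ring
      rw [this]
      apply div_le_div_of_nonneg_left hN0.le (by positivity)
      nlinarith
    have e2 : (1 / rho2 r - 1) * (((N : ℝ) + 1) / 12) ≤ 2 * (N / Y ^ 2) := by
      calc (1 / rho2 r - 1) * (((N : ℝ) + 1) / 12) ≤ (8 / Y ^ 2) * ((2 * N) / 12) := by
            refine mul_le_mul hρ (by linarith) (by positivity) (by positivity)
        _ = (16 / 12) * (N / Y ^ 2) := by ring
        _ ≤ _ := by
          have : (0 : ℝ) ≤ N / Y ^ 2 := by positivity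
          linarith
    have e3 : 14 / 12 + 10 * (3 * (2 * (K : ℝ) + 1) ^ 4 + 1) * (π / 3) ≤ N / Y ^ 2 := by
      have f1 : 2 * (K : ℝ) + 1 ≤ 13 * Y ^ 7 := by linarith
      have f2 : (2 * (K : ℝ) + 1) ^ 4 ≤ 28561 * Y ^ 28 := by
        calc (2 * (K : ℝ) + 1) ^ 4 ≤ (13 * Y ^ 7) ^ 4 := pow_le_pow_left₀ (by positivity) f1 4
          _ = _ := by ring
      have f3 : (N : ℝ) / Y ^ 2 = Y ^ 30 * Y ^ 28 := by
        rw [hNY]
        field_simp
      have f4 : (10 : ℝ) ^ 9 ≤ Y ^ 30 := by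
        calc (10 : ℝ) ^ 9 ≤ 2 ^ 30 := by norm_num
          _ ≤ Y ^ 30 := pow_le_pow_left₀ (by norm_num) hN1 30
      have f5 : 1 ≤ Y ^ 28 := one_le_pow₀ (by linarith)
      rw [f3]
      have f6 : 10 * (3 * (2 * (K : ℝ) + 1) ^ 4 + 1) * (π / 3) ≤
          10 * (3 * (28561 * Y ^ 28) + 1) * (4 / 3) := by
        refine mul_le_mul ?_ (by linarith) (by positivity) (by positivity)
        linarith
      have f7 : (10 : ℝ) ^ 9 * Y ^ 28 ≤ Y ^ 30 * Y ^ 28 := mul_le_mul_of_nonneg_right f4 (by positivity)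
      linarith
    linarith
  have hA : ∑ n ∈ pr P, (1 - DB B n) ≤ Ce * (4 * (N / Y ^ 2)) := by
    have h1 := hcore.trans hdef
    have h2 := mul_le_mul_of_nonneg_left h1 hCe0.le
    rw [← mul_assoc, hCe, ← Real.exp_add, add_neg_cancel, Real.exp_zero, one_mul] at h2
    exact h2
  have hW := Wt_le hN hBs
  have hW2 : Wt B ≤ 2 := by
    refine hW.trans ?_
    have h1 : 4 * π / N ≤ 0.65 := by
      rw [div_le_iff₀ hN0]
      have := Real.pi_lt_d2
      linarith
    have h2 : exp (0.65 : ℝ) ≤ 2 := by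
      have h3 := Real.exp_one_lt_d9
      have h4 : exp (0.65 : ℝ) ^ 20 ≤ 2 ^ 20 := by
        rw [← Real.exp_nat_mul]
        have : ((20 : ℕ) : ℝ) * 0.65 = ((13 : ℕ) : ℝ) * 1 := by norm_num
        rw [this, Real.exp_nat_mul]
        calc exp 1 ^ 13 ≤ 2.7182818286 ^ 13 := pow_le_pow_left₀ (exp_pos _).le h3.le 13
          _ ≤ 2 ^ 20 := by norm_num
      exact le_of_pow_le_pow_left₀ (by norm_num) (by norm_num) h4
    exact (exp_le_exp.2 h1).trans h2
  have hW0 : 0 ≤ Wt B := Finset.sum_nonneg fun f _ => om_nonneg f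
  have hsq := sq_moment hN hBs hPN hPge
  set s : ℝ := ((pr P).card : ℝ) with hs
  -- the number of primes
  have hlogP : log (P : ℝ) ≤ log N := Real.log_le_log (by exact_mod_cast hPge) (by exact_mod_cast hPN.le)
  have hlN : 0 < log (N : ℝ) := Real.log_pos (by linarith)
  have hP2' : (2 : ℝ) ≤ P ∨ P = 1 := by
    rcases Nat.lt_or_ge P 2 with h | h
    · right; omega
    · left; exact_mod_cast h
  have hs1 : N / (4 * Y * log N) ≤ s := by
    have hlogPp : 0 < log (P : ℝ) := by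
      have : (2 : ℝ) ≤ P := by
        have h3 : (4 : ℝ) ≤ N / Y := by
          rw [le_div_iff₀ hY0, hNY]
          have : Y ^ 60 = Y * Y ^ 59 := by ring
          rw [this]
          have : (4 : ℝ) ≤ Y ^ 59 := by
            calc (4 : ℝ) ≤ 2 ^ 59 := by norm_num
              _ ≤ Y ^ 59 := pow_le_pow_left₀ (by norm_num) hN1 59
          nlinarith
        linarith
      exact Real.log_pos (by linarith)
    refine le_trans ?_ hN3
    calc N / (4 * Y * log N) = (N / Y / 2) / (2 * log N) := by field_simp; ring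
      _ ≤ P / (2 * log N) := div_le_div_of_nonneg_right hP3 (by positivity)
      _ ≤ P / (2 * log P) := div_le_div_of_nonneg_left (Nat.cast_nonneg P) (by positivity) (by linarith)
  have hs0 : 0 < s := lt_of_lt_of_le (div_pos hN0 (mul_pos (mul_pos (by norm_num) hY0) hlN)) hs1
  have hM0 : 0 ≤ (N : ℝ) / Y ^ 2 := div_nonneg hN0.le (sq_nonneg Y)
  have hM1 : (N : ℝ) / Y ^ 2 ≤ q0 * s := by
    have h1 : log N ≤ q0 / 4 * Y := by
      rwa [div_le_iff₀ hY0] at hN2
    exact qs_lem hN0 hY0 hlN hq00 h1 hs1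
  have h7 : 1 + 3 * (P : ℝ) ^ 2 / N ≤ 4 * (N / Y ^ 2) := by
    have g3 : 1 ≤ (N : ℝ) / Y ^ 2 := by
      rw [le_div_iff₀ (pow_pos hY0 2), hNY, one_mul]
      exact pow_le_pow_right₀ (by linarith) (by norm_num)
    exact px_lem hN0 hY0 (Nat.cast_nonneg P) hP1 g3
  have h5 : ∑ n ∈ pr P, (1 - DB B n) = s - ∑ n ∈ pr P, DB B n := by
    rw [Finset.sum_sub_distrib, Finset.sum_const, nsmul_eq_mul, mul_one]
  rw [h5] at hA
  exact mass_alg hδ hCe0 hs0 hW0 hW2 hM0 hM1 (min_le_left _ _) (min_le_right _ _) hA (abs_le.1 hsq).2 h7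

end Pool.Agent.H485.CC
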