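import Pool.Agent.H485.CC.Nv9
import Pool.Agent.H485.CC.Pf10
import Pool.Agent.H485.CC.Clt4

/-!
# The natural large sieve for observables: asymptotic form
-/

set_option autoImplicit false
set_option maxHeartbeats 1000000

open MeasureTheory Real Finset Filter Topology

namespace Pool.Agent.H485.CC

open W388.LV (SF om IsNewSet)

lemma num_bd {c X : ℝ} (hc : 1 ≤ c) (hX : 1 ≤ X) {N D K1 K2 : ℕ} (hN : (N : ℝ) = X ^ 200)
    (hD : (D : ℝ) ≤ X) (h1 : (K1 : ℝ) ≤ c * X ^ 11) (h2 : (K2 : ℝ) ≤ c * X ^ 111) :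
    3 * (2 * (K1 : ℝ) + 1) ^ 4 + 3 * ((D * D : ℕ) * ((2 * (K2 : ℝ) + 1) *
      (2 * (729 * ((K2 ^ 2 + N * (D * D) : ℕ) : ℝ) ^ (1 / 4 : ℝ))))) ≤ 27000 * c ^ 4 * X ^ 169 := by
  have hX0 : 0 < X := by linarith
  have hc0 : 0 < c := by linarith
  have e1 : 2 * (K1 : ℝ) + 1 ≤ 3 * c * X ^ 11 := by
    have : 1 ≤ c * X ^ 11 := one_le_mul_of_one_le_of_one_le hc (one_le_pow₀ hX)
    linarith
  have e2 : 2 * (K2 : ℝ) + 1 ≤ 3 * c * X ^ 111 := by
    have : 1 ≤ c * X ^ 111 := one_le_mul_of_one_le_of_one_le hc (one_le_pow₀ hX)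
    linarith
  have e3 : ((K2 ^ 2 + N * (D * D) : ℕ) : ℝ) ≤ (2 * c ^ 2) ^ 4 * X ^ 224 := by
    push_cast
    rw [hN]
    have a1 : (K2 : ℝ) ^ 2 ≤ (c * X ^ 111) ^ 2 := pow_le_pow_left₀ (Nat.cast_nonneg _) h2 2
    have a2 : X ^ 200 * ((D : ℝ) * D) ≤ X ^ 200 * (X * X) := by
      apply mul_le_mul_of_nonneg_left _ (by positivity)
      exact mul_le_mul hD hD (Nat.cast_nonneg _) hX0.le
    have a3 : (c * X ^ 111) ^ 2 ≤ c ^ 8 * X ^ 224 := by
      have b1 : c ^ 2 ≤ c ^ 8 := pow_le_pow_right₀ hc (by norm_num)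
      have b2 : X ^ 222 ≤ X ^ 224 := pow_le_pow_right₀ hX (by norm_num)
      calc (c * X ^ 111) ^ 2 = c ^ 2 * X ^ 222 := by ring
        _ ≤ c ^ 8 * X ^ 224 := mul_le_mul b1 b2 (by positivity) (by positivity)
    have a4 : X ^ 200 * (X * X) ≤ c ^ 8 * X ^ 224 := by
      have b2 : X ^ 202 ≤ X ^ 224 := pow_le_pow_right₀ hX (by norm_num)
      calc X ^ 200 * (X * X) = 1 * X ^ 202 := by ring
        _ ≤ c ^ 8 * X ^ 224 := mul_le_mul (one_le_pow₀ hc) b2 (by positivity) (by positivity)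
    have a5 : (2 * c ^ 2) ^ 4 * X ^ 224 = 16 * (c ^ 8 * X ^ 224) := by ring
    rw [a5]
    have a6 : 0 ≤ c ^ 8 * X ^ 224 := by positivity
    linarith
  have e4 : ((K2 ^ 2 + N * (D * D) : ℕ) : ℝ) ^ (1 / 4 : ℝ) ≤ 2 * c ^ 2 * X ^ 56 := by
    have a1 : ((K2 ^ 2 + N * (D * D) : ℕ) : ℝ) ^ (1 / 4 : ℝ) ≤ ((2 * c ^ 2 * X ^ 56) ^ 4) ^ (1 / 4 : ℝ) := by
      apply Real.rpow_le_rpow (Nat.cast_nonneg _) _ (by norm_num)
      refine e3.trans (le_of_eq ?_)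
      ring
    refine a1.trans (le_of_eq ?_)
    rw [← Real.rpow_natCast, ← Real.rpow_mul (by positivity)]
    norm_num
  have e5 : (2 * (K1 : ℝ) + 1) ^ 4 ≤ 81 * c ^ 4 * X ^ 169 := by
    calc (2 * (K1 : ℝ) + 1) ^ 4 ≤ (3 * c * X ^ 11) ^ 4 := pow_le_pow_left₀ (by positivity) e1 4
      _ = 81 * c ^ 4 * X ^ 44 := by ring
      _ ≤ _ := mul_le_mul_of_nonneg_left (pow_le_pow_right₀ hX (by norm_num)) (by positivity)
  have e6 : ((D * D : ℕ) : ℝ) * ((2 * (K2 : ℝ) + 1) *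
      (2 * (729 * ((K2 ^ 2 + N * (D * D) : ℕ) : ℝ) ^ (1 / 4 : ℝ)))) ≤ 8748 * c ^ 4 * X ^ 169 := by
    have a0 : 0 ≤ ((K2 ^ 2 + N * (D * D) : ℕ) : ℝ) ^ (1 / 4 : ℝ) := Real.rpow_nonneg (Nat.cast_nonneg _) _
    have a1 : ((D * D : ℕ) : ℝ) ≤ X ^ 2 := by
      push_cast
      rw [sq]
      exact mul_le_mul hD hD (Nat.cast_nonneg _) hX0.le
    calc ((D * D : ℕ) : ℝ) * ((2 * (K2 : ℝ) + 1) *
      (2 * (729 * ((K2 ^ 2 + N * (D * D) : ℕ) : ℝ) ^ (1 / 4 : ℝ)))) ≤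
        X ^ 2 * ((3 * c * X ^ 111) * (2 * (729 * (2 * c ^ 2 * X ^ 56)))) := by
          gcongr
      _ = 8748 * c ^ 3 * X ^ 169 := by ring
      _ ≤ _ := by
        apply mul_le_mul_of_nonneg_right _ (by positivity)
        apply mul_le_mul_of_nonneg_left _ (by norm_num)
        exact pow_le_pow_right₀ hc (by norm_num)
  have e7 : 0 ≤ c ^ 4 * X ^ 169 := by positivity
  linarith

lemma rho2_ev {d : ℝ} (hd : 0 < d) : ∃ r : ℝ, 0 < r ∧ 1 / rho2 r ≤ 1 + d := by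
  obtain ⟨y, hy2, hy⟩ : ∃ y : ℝ, 2 ≤ y ∧ 8 / y ^ 2 ≤ d := by
    refine ⟨max 2 (8 / d), le_max_left _ _, ?_⟩
    have h1 : 2 ≤ max 2 (8 / d) := le_max_left _ _
    have h2 : 8 / d ≤ max 2 (8 / d) := le_max_right _ _
    set y := max 2 (8 / d)
    rw [div_le_iff₀ (by positivity)]
    rw [div_le_iff₀ hd] at h2
    nlinarith
  refine ⟨Real.log (y ^ 2), Real.log_pos (by nlinarith), ?_⟩
  have := rho2_le hy2 (r := Real.log (y ^ 2)) (Real.exp_log (by positivity))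
  linarith

/-- the constants -/
theorem nat_num {d : ℝ} (hd : 0 < d) : ∃ r : ℝ, 0 < r ∧ ∀ᶠ N : ℕ in atTop, ∃ P0 D K1 K2 : ℕ, ∃ Y Bd : ℝ,
    1 ≤ Y ∧ 0 < P0 ∧ (∀ p : ℕ, log N ^ 4 ≤ p → P0 ≤ p) ∧ D = ⌊(N : ℝ) ^ (1 / 200 : ℝ)⌋₊ ∧
    5 * Y * Real.exp (3 * r) * D ≤ K1 ∧ 5 * Y * Real.exp (3 * r) * (D * Real.sqrt N) ≤ K2 ∧
    2 * K1 < N ∧ 2 * K2 < N ∧ 3 * (2 * (K1 : ℝ) + 1) ^ 4 + 3 * ((D * D : ℕ) * ((2 * (K2 : ℝ) + 1) *
      (2 * (729 * ((K2 ^ 2 + N * (D * D) : ℕ) : ℝ) ^ (1 / 4 : ℝ))))) ≤ Bd ∧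
    (∀ n : ℕ, 1 ≤ n → n ≤ N → (∀ p ∈ n.primeFactors, P0 ≤ p) → gq n ^ 2 ≤ 1 + d) ∧
    (1 + 4 / Real.sqrt P0) / (8 * Real.pi * rho2 r) * ((N + 1) * (Real.pi / 3)) +
        10 * (D : ℝ) ^ 3 * (Bd * (Real.pi / 3) + (N + 1) * (2 / Y)) ≤ ((1 + d) ^ 3 + d) / 24 * N := by
  obtain ⟨r, hr, hrd⟩ := rho2_ev hd
  refine ⟨r, hr, ?_⟩
  set c : ℝ := 5 * Real.exp (3 * r) + 1 with hc
  have hc1 : 1 ≤ c := by have := Real.exp_pos (3 * r); linarith
  have hρ := rho2_pos hr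
  have hXt : Tendsto (fun N : ℕ => (N : ℝ) ^ (1 / 200 : ℝ)) atTop atTop :=
    (tendsto_rpow_atTop (by norm_num)).comp tendsto_natCast_atTop_atTop
  have hgl : Tendsto (fun N : ℕ => exp (4 / log N)) atTop (𝓝 1) := by
    have h1 : Tendsto (fun N : ℕ => 4 / log (N : ℝ)) atTop (𝓝 0) := tendsto_log.const_div_atTop _
    have h2 := (Real.continuous_exp.tendsto 0).comp h1
    rwa [Real.exp_zero] at h2
  filter_upwards [hXt.eventually_ge_atTop (24 * (540000 * c ^ 4 + 40) / d + 3 * c + 3), ev_log (max 1 (4 / d)),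
    eventually_ge_atTop 3, (tendsto_natCast_atTop_atTop (R := ℝ)).eventually_ge_atTop (1 / d),
    hgl.eventually_le_const (show (1 : ℝ) < 1 + d by linarith)] with N hX hlog hN3 hNd hexp
  have hN0 : (0 : ℝ) < N := by
    have : (3 : ℝ) ≤ N := by exact_mod_cast hN3
    linarith
  set X : ℝ := (N : ℝ) ^ (1 / 200 : ℝ) with hXd
  have hq0 : 0 ≤ 24 * (540000 * c ^ 4 + 40) / d := by positivity
  have hX1 : 1 ≤ X := by linarith
  have hX0 : 0 < X := by linarith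
  have hXc : 3 * c ≤ X := by linarith
  have hXN : (N : ℝ) = X ^ 200 := by
    rw [hXd, ← Real.rpow_natCast, ← Real.rpow_mul hN0.le]
    norm_num
  have hsN : Real.sqrt N = X ^ 100 := by
    rw [hXN, Real.sqrt_eq_iff_mul_self_eq (by positivity) (by positivity)]
    ring
  have hl1 : 1 ≤ log (N : ℝ) := (le_max_left _ _).trans hlog
  have hl2 : 4 / d ≤ log (N : ℝ) := (le_max_right _ _).trans hlog
  set P0 : ℕ := ⌈log (N : ℝ) ^ 4⌉₊ with hP0
  have hP0' : log (N : ℝ) ^ 4 ≤ P0 := Nat.le_ceil _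
  have hsP : log (N : ℝ) ^ 2 ≤ Real.sqrt P0 := by
    apply Real.le_sqrt_of_sq_le
    calc (log (N : ℝ) ^ 2) ^ 2 = log (N : ℝ) ^ 4 := by ring
      _ ≤ _ := hP0'
  have hsP1 : log (N : ℝ) ≤ Real.sqrt P0 := by nlinarith
  have hsP0 : 0 < Real.sqrt P0 := by linarith
  set D : ℕ := ⌊X⌋₊ with hD
  have hDX : (D : ℝ) ≤ X := Nat.floor_le hX0.le
  set K1 : ℕ := ⌈5 * X ^ 10 * Real.exp (3 * r) * D⌉₊ with hK1
  set K2 : ℕ := ⌈5 * X ^ 10 * Real.exp (3 * r) * (D * Real.sqrt N)⌉₊ with hK2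
  have hK1b : (K1 : ℝ) ≤ c * X ^ 11 := by
    have h1 : (K1 : ℝ) < 5 * X ^ 10 * Real.exp (3 * r) * D + 1 := Nat.ceil_lt_add_one (by positivity)
    have h2 : 5 * X ^ 10 * Real.exp (3 * r) * D ≤ 5 * X ^ 10 * Real.exp (3 * r) * X :=
      mul_le_mul_of_nonneg_left hDX (by positivity)
    have h3 : 1 ≤ X ^ 11 := one_le_pow₀ hX1
    have h4 : c * X ^ 11 = 5 * X ^ 10 * Real.exp (3 * r) * X + X ^ 11 := by rw [hc]; ring
    linarith
  have hK2b : (K2 : ℝ) ≤ c * X ^ 111 := by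
    have h1 : (K2 : ℝ) < 5 * X ^ 10 * Real.exp (3 * r) * (D * Real.sqrt N) + 1 :=
      Nat.ceil_lt_add_one (by positivity)
    have h2 : 5 * X ^ 10 * Real.exp (3 * r) * (D * Real.sqrt N) ≤
        5 * X ^ 10 * Real.exp (3 * r) * (X * X ^ 100) := by
      rw [hsN]
      exact mul_le_mul_of_nonneg_left (mul_le_mul_of_nonneg_right hDX (by positivity)) (by positivity)
    have h3 : 1 ≤ X ^ 111 := one_le_pow₀ hX1
    have h4 : c * X ^ 111 = 5 * X ^ 10 * Real.exp (3 * r) * (X * X ^ 100) + X ^ 111 := by rw [hc]; ring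
    linarith
  have hbig : ∀ K : ℕ, (K : ℝ) ≤ c * X ^ 111 → 2 * K < N := by
    intro K hK
    have h1 : 2 * (c * X ^ 111) < X ^ 200 := by
      have h2 : X ^ 112 ≤ X ^ 200 := pow_le_pow_right₀ hX1 (by norm_num)
      have h3 : 3 * c * X ^ 111 ≤ X * X ^ 111 := mul_le_mul_of_nonneg_right hXc (by positivity)
      have h4 : X * X ^ 111 = X ^ 112 := by ring
      have h5 : 0 < c * X ^ 111 := by positivity
      linarith
    have h2 : (2 * (K : ℝ)) < N := by rw [hXN]; linarith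
    exact_mod_cast h2
  refine ⟨P0, D, K1, K2, X ^ 10, 27000 * c ^ 4 * X ^ 169, one_le_pow₀ hX1, ?_, ?_, rfl, Nat.le_ceil _,
    Nat.le_ceil _, hbig K1 (hK1b.trans (mul_le_mul_of_nonneg_left (pow_le_pow_right₀ hX1 (by norm_num))
      (by linarith))), hbig K2 hK2b, num_bd hc1 hX1 hXN hDX hK1b hK2b, ?_, ?_⟩
  · exact Nat.ceil_pos.2 (by positivity)
  · intro p hp
    exact Nat.ceil_le.2 hp
  · intro n hn1 hnN hnp
    set k : ℕ := Nat.log 2 N with hk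
    have hP01 : 1 ≤ P0 := Nat.ceil_pos.2 (by positivity)
    have h1 : n < 2 ^ (k + 1) := lt_of_le_of_lt hnN (Nat.lt_pow_succ_log_self (by norm_num) N)
    have h2 := gq_le hP01 k n hn1 h1 hnp
    have h3 : (1 + 1 / Real.sqrt P0) ^ k ≤ exp (2 / log N) := by
      have a1 : 1 + 1 / Real.sqrt P0 ≤ exp (1 / log (N : ℝ) ^ 2) := by
        have b1 : 1 / Real.sqrt P0 ≤ 1 / log (N : ℝ) ^ 2 := by
          apply one_div_le_one_div_of_le (by positivity) hsP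
        have b2 := Real.add_one_le_exp (1 / log (N : ℝ) ^ 2)
        linarith
      calc (1 + 1 / Real.sqrt P0) ^ k ≤ exp (1 / log (N : ℝ) ^ 2) ^ k := pow_le_pow_left₀ (by positivity) a1 k
        _ = exp (k * (1 / log (N : ℝ) ^ 2)) := by rw [← Real.exp_nat_mul]
        _ ≤ exp (2 / log N) := by
          apply exp_le_exp.2
          have b1 : (k : ℝ) ≤ 2 * log N := by
            have c1 : (2 : ℝ) ^ k ≤ N := by
              have := Nat.pow_log_le_self 2 (show N ≠ 0 by omega)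
              exact_mod_cast this
            have c2 := Real.log_le_log (by positivity) c1
            rw [Real.log_pow] at c2
            have c3 : (0.6931471803 : ℝ) < log 2 := Real.log_two_gt_d9
            have c4 : (0 : ℝ) ≤ k := Nat.cast_nonneg _
            nlinarith
          have b2 : (k : ℝ) * (1 / log (N : ℝ) ^ 2) ≤ 2 * log N * (1 / log (N : ℝ) ^ 2) :=
            mul_le_mul_of_nonneg_right b1 (by positivity)
          refine b2.trans (le_of_eq ?_)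
          field_simp
    have h4 := gq_nonneg n
    calc gq n ^ 2 ≤ (exp (2 / log N)) ^ 2 := pow_le_pow_left₀ h4 (h2.trans h3) 2
      _ = exp (4 / log N) := by
        rw [← Real.exp_nat_mul]
        congr 1
        push_cast
        ring
      _ ≤ 1 + d := hexp
  · have hπ := Real.pi_pos
    have hπ4 := Real.pi_le_four
    have hN1 : (N : ℝ) + 1 ≤ (1 + d) * N := by
      rw [div_le_iff₀ hd] at hNd
      linarith
    have g1 : (1 + 4 / Real.sqrt P0) / (8 * Real.pi * rho2 r) * ((N + 1) * (Real.pi / 3)) ≤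
        (1 + d) ^ 3 / 24 * N := by
      have a1 : 4 / Real.sqrt P0 ≤ d := by
        rw [div_le_iff₀ hsP0]
        rw [div_le_iff₀ hd] at hl2
        nlinarith
      have e1 : (1 + 4 / Real.sqrt P0) / (8 * Real.pi * rho2 r) * ((N + 1) * (Real.pi / 3)) =
          (1 + 4 / Real.sqrt P0) * (1 / rho2 r) * (N + 1) / 24 := by
        field_simp
        ring
      rw [e1]
      have a2 : (1 + 4 / Real.sqrt P0) * (1 / rho2 r) ≤ (1 + d) * (1 + d) :=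
        mul_le_mul (by linarith) hrd (by positivity) (by positivity)
      have a3 : (1 + 4 / Real.sqrt P0) * (1 / rho2 r) * (N + 1) ≤ ((1 + d) * (1 + d)) * ((1 + d) * N) :=
        mul_le_mul a2 hN1 (by positivity) (by positivity)
      calc _ ≤ ((1 + d) * (1 + d)) * ((1 + d) * N) / 24 := div_le_div_of_nonneg_right a3 (by norm_num)
        _ = _ := by ring
    have g2 : 10 * (D : ℝ) ^ 3 * (27000 * c ^ 4 * X ^ 169 * (Real.pi / 3) + (N + 1) * (2 / X ^ 10)) ≤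
        d / 24 * N := by
      have a1 : (D : ℝ) ^ 3 ≤ X ^ 3 := pow_le_pow_left₀ (Nat.cast_nonneg _) hDX 3
      have a2 : (N + 1 : ℝ) * (2 / X ^ 10) ≤ 4 * X ^ 190 := by
        have b1 : (N : ℝ) + 1 ≤ 2 * X ^ 200 := by
          have : 1 ≤ X ^ 200 := one_le_pow₀ hX1
          rw [hXN]; linarith
        rw [mul_div_assoc', div_le_iff₀ (by positivity)]
        have : 4 * X ^ 190 * X ^ 10 = 4 * X ^ 200 := by ring
        rw [this]
        linarith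
      have a3 : 27000 * c ^ 4 * X ^ 169 * (Real.pi / 3) ≤ 54000 * c ^ 4 * X ^ 190 := by
        have b1 : X ^ 169 ≤ X ^ 190 := pow_le_pow_right₀ hX1 (by norm_num)
        have b2 : Real.pi / 3 ≤ 2 := by linarith
        calc 27000 * c ^ 4 * X ^ 169 * (Real.pi / 3) ≤ 27000 * c ^ 4 * X ^ 190 * 2 := by gcongr
          _ = _ := by ring
      have a4 : 10 * (D : ℝ) ^ 3 * (27000 * c ^ 4 * X ^ 169 * (Real.pi / 3) + (N + 1) * (2 / X ^ 10)) ≤
          10 * X ^ 3 * (54000 * c ^ 4 * X ^ 190 + 4 * X ^ 190) := by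
        gcongr
      refine a4.trans ?_
      have e1 : 10 * X ^ 3 * (54000 * c ^ 4 * X ^ 190 + 4 * X ^ 190) = (540000 * c ^ 4 + 40) * X ^ 193 := by ring
      rw [e1, hXN]
      have a5 : 24 * (540000 * c ^ 4 + 40) / d ≤ X := by linarith
      rw [div_le_iff₀ hd] at a5
      have a6 : (540000 * c ^ 4 + 40) ≤ d / 24 * X := by linarith
      calc (540000 * c ^ 4 + 40) * X ^ 193 ≤ (d / 24 * X) * X ^ 193 :=
            mul_le_mul_of_nonneg_right a6 (by positivity)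
        _ = d / 24 * X ^ 194 := by ring
        _ ≤ d / 24 * X ^ 200 :=
            mul_le_mul_of_nonneg_left (pow_le_pow_right₀ hX1 (by norm_num)) (by positivity)
    calc _ ≤ (1 + d) ^ 3 / 24 * N + d / 24 * N := add_le_add g1 g2
      _ = _ := by ring

/-- the natural large sieve for observables -/
theorem nat_obs (δ : ℝ) (hδ : 0 < δ) : ∀ᶠ N : ℕ in atTop, N.Prime → ∀ [NeZero N] (E : Finset (SF N 2)),
    IsNewSet N 2 E → ∀ s : ℝ, |s| = 1 → (∀ f ∈ E, W388.IsNewf N 2 f s) →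
    ∀ (S : Finset ℕ), (∀ p ∈ S, p.Prime) → (∀ p ∈ S, ¬ p ∣ N) → (∀ p ∈ S, log N ^ 4 ≤ (p : ℝ)) →
    ∀ (D : ℝ) (F : (ℕ → ℝ) → ℝ), Obs S D F → D ≤ (N : ℝ) ^ (1 / 200 : ℝ) →
      ∑ f ∈ E, F (W388.lamf f) ^ 2 ≤ ((1 + δ) / 24 * N) * ∫ x, F (XX S x) ^ 2 ∂(mu S) := by
  set d : ℝ := min 1 (δ / 17) with hd
  have hd0 : 0 < d := lt_min one_pos (by positivity)
  have hd1 : d ≤ 1 := min_le_left _ _
  have hd2 : 17 * d ≤ δ := by
    have : d ≤ δ / 17 := min_le_right _ _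
    linarith
  obtain ⟨r, hr, hev⟩ := nat_num hd0
  filter_upwards [hev, eventually_ge_atTop 3] with N hN1 hN3 hN _ E hE s hs hEs S hS hSN hSl D F hF hD
  obtain ⟨P0, D', K1, K2, Y, Bd, hY, hP0, hPp, hDD, hK1, hK2, hKN1, hKN2, hBd, hg, htot⟩ := hN1
  obtain ⟨c, hc, hFc⟩ := hF
  rw [integral_obs hS hc hFc]
  have hN0 : (0 : ℝ) < N := by
    have : (3 : ℝ) ≤ N := by exact_mod_cast hN3
    linarith
  have hC : ∀ n ∈ c.support, 1 ≤ n ∧ n ≤ D' := by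
    intro n hn
    obtain ⟨h1, h2⟩ := hc n hn
    refine ⟨h1.1, ?_⟩
    rw [hDD]
    exact Nat.le_floor (h2.trans hD)
  have hCN : ∀ n ∈ c.support, ∀ p ∈ n.primeFactors, ¬ p ∣ N := fun n hn p hp =>
    hSN p ((hc n hn).1.2 hp)
  have hCP : ∀ n ∈ c.support, ∀ p ∈ n.primeFactors, P0 ≤ p := fun n hn p hp =>
    hPp p (hSl p ((hc n hn).1.2 hp))
  have hmain := nat_core hN (by omega) hE hs hEs hC hCN hP0 hCP (fun n => c n) hY hr hK1 hK2 hKN1 hKN2 hBd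
  have hDN : D' ≤ N := by
    rw [hDD]
    have h1 : ((⌊(N : ℝ) ^ (1 / 200 : ℝ)⌋₊ : ℕ) : ℝ) ≤ N := by
      refine (Nat.floor_le (by positivity)).trans ?_
      have h2 : (1 : ℝ) ≤ N := by exact_mod_cast (by omega : 1 ≤ N)
      calc (N : ℝ) ^ (1 / 200 : ℝ) ≤ (N : ℝ) ^ (1 : ℝ) := Real.rpow_le_rpow_of_exponent_le h2 (by norm_num)
        _ = N := Real.rpow_one _
    exact_mod_cast h1
  have h1 : ∑ n ∈ c.support, c n ^ 2 * gq n ^ 2 ≤ (1 + d) * ∑ n ∈ c.support, c n ^ 2 := by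
    rw [Finset.mul_sum]
    refine Finset.sum_le_sum fun n hn => ?_
    have := hg n (hC n hn).1 ((hC n hn).2.trans hDN) (hCP n hn)
    have h2 := mul_le_mul_of_nonneg_left this (sq_nonneg (c n))
    linarith
  have hA0 : 0 ≤ ∑ n ∈ c.support, c n ^ 2 := Finset.sum_nonneg fun _ _ => sq_nonneg _
  have e1 : ∑ f ∈ E, F (W388.lamf f) ^ 2 = ∑ f ∈ E, Fv c.support (fun n => c n) f ^ 2 := by
    refine Finset.sum_congr rfl fun f hf => ?_
    rw [hFc _ (hrel_lamf (hEs f hf) hS hSN), Finsupp.sum]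
    rfl
  rw [e1]
  have hQ0 : 0 ≤ ∑ n ∈ c.support, c n ^ 2 * gq n ^ 2 := Finset.sum_nonneg fun _ _ => by positivity
  refine hmain.trans ((mul_le_mul_of_nonneg_left htot hQ0).trans ?_)
  have h3 : ((1 + d) ^ 3 + d) / 24 * (N : ℝ) * (1 + d) ≤ (1 + δ) / 24 * N := by
    have h4 : ((1 + d) ^ 3 + d) * (1 + d) ≤ 1 + δ := by
      have b1 : d ^ 2 ≤ d := by nlinarith
      have b2 : d ^ 3 ≤ d := by
        calc d ^ 3 = d ^ 2 * d := by ring
          _ ≤ d * 1 := mul_le_mul b1 hd1 hd0.le hd0.le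
          _ = d := mul_one _
      have b3 : d ^ 4 ≤ d := by
        calc d ^ 4 = d ^ 3 * d := by ring
          _ ≤ d * 1 := mul_le_mul b2 hd1 hd0.le hd0.le
          _ = d := mul_one _
      nlinarith
    calc ((1 + d) ^ 3 + d) / 24 * (N : ℝ) * (1 + d) = (((1 + d) ^ 3 + d) * (1 + d)) / 24 * N := by ring
      _ ≤ _ := by gcongr
  have h5 : 0 ≤ ((1 + d) ^ 3 + d) / 24 * (N : ℝ) := by positivity
  calc (∑ n ∈ c.support, c n ^ 2 * gq n ^ 2) * (((1 + d) ^ 3 + d) / 24 * N) ≤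
      ((1 + d) * ∑ n ∈ c.support, c n ^ 2) * (((1 + d) ^ 3 + d) / 24 * N) :=
        mul_le_mul_of_nonneg_right h1 h5
    _ = (((1 + d) ^ 3 + d) / 24 * (N : ℝ) * (1 + d)) * ∑ n ∈ c.support, c n ^ 2 := by ring
    _ ≤ _ := mul_le_mul_of_nonneg_right h3 hA0

end Pool.Agent.H485.CC
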