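import Pool.Agent.H485.CC.Nv10

/-!
# The model for the primes above `(log N)^4`
-/

set_option autoImplicit false
set_option maxHeartbeats 4000000

open MeasureTheory Real Finset Filter Topology ProbabilityTheory

namespace Pool.Agent.H485.CC

/-- the primes between `(log N)^4` and `z` -/
noncomputable def T4 (N : ℕ) : Finset ℕ := (Ss N).filter fun p => log (N : ℝ) ^ 4 ≤ (p : ℝ)

lemma T4_sub (N : ℕ) : T4 N ⊆ Ss N := Finset.filter_subset _ _

lemma T4_prime {N : ℕ} : ∀ p ∈ T4 N, p.Prime := fun p hp => Ss_prime p (T4_sub N hp)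

lemma T4_ge {N : ℕ} : ∀ p ∈ T4 N, log (N : ℝ) ^ 4 ≤ (p : ℝ) := fun _ hp => (Finset.mem_filter.1 hp).2

theorem ev_T4c {ε : ℝ} (hε : 0 < ε) : ∀ᶠ N : ℕ in atTop, ∑ p ∈ Ss N \ T4 N, (1 : ℝ) / p ≤ ε * ll N := by
  obtain ⟨C, hC⟩ := Pool.Agent.Erdos456.Mert.mertens_inv
  have hC0 : 0 ≤ C := (abs_nonneg _).trans (hC 3 le_rfl)
  filter_upwards [ev_lin (C + 2) (half_pos hε), ev_logll 1 (half_pos hε), ev_ll 1, ev_log 3] with N h1 h2 h3 h4
  set L : ℝ := log (N : ℝ) with hL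
  have hL0 : 0 < L := by linarith
  set m : ℕ := ⌈L ^ 4⌉₊ with hm
  have hm1 : L ^ 4 ≤ m := Nat.le_ceil _
  have hm2 : (m : ℝ) < L ^ 4 + 1 := Nat.ceil_lt_add_one (by positivity)
  have hL4 : 81 ≤ L ^ 4 := by
    calc (81 : ℝ) = 3 ^ 4 := by norm_num
      _ ≤ L ^ 4 := pow_le_pow_left₀ (by norm_num) h4 4
  have hm3 : 3 ≤ m := by
    have : (3 : ℝ) ≤ m := by linarith
    exact_mod_cast this
  have hmp : (m : ℝ) ≤ L ^ 5 := by
    have : L ^ 5 = L ^ 4 * L := by ring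
    nlinarith
  have hsub : Ss N \ T4 N ⊆ (Finset.Icc 1 m).filter Nat.Prime := by
    intro p hp
    rw [Finset.mem_sdiff, T4, Finset.mem_filter] at hp
    obtain ⟨hp1, hp2⟩ := hp
    have hpp := Ss_prime p hp1
    have h5 : (p : ℝ) < L ^ 4 := by
      by_contra hcon
      push Not at hcon
      exact hp2 ⟨hp1, hcon⟩
    rw [Finset.mem_filter, Finset.mem_Icc]
    refine ⟨⟨hpp.one_le, ?_⟩, hpp⟩
    have h6 : (p : ℝ) ≤ m := by linarith
    exact_mod_cast h6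
  have h5 := (abs_le.1 (hC m hm3)).2
  have h6 : log (log (m : ℝ)) ≤ 2 + log (ll N) := by
    have hm0 : (0 : ℝ) < m := by linarith
    have h7 : log (m : ℝ) ≤ 5 * ll N := by
      calc log (m : ℝ) ≤ log (L ^ 5) := Real.log_le_log hm0 hmp
        _ = 5 * ll N := by
          rw [Real.log_pow]
          push_cast
          rfl
    have h8 : 0 < log (m : ℝ) := Real.log_pos (by linarith)
    calc log (log (m : ℝ)) ≤ log (5 * ll N) := Real.log_le_log h8 h7
      _ = log 5 + log (ll N) := Real.log_mul (by norm_num) (by linarith)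
      _ ≤ 2 + log (ll N) := by
        have : log 5 ≤ 2 := by
          rw [Real.log_le_iff_le_exp (by norm_num)]
          have h9 := Real.exp_one_gt_d9
          have : exp 2 = exp 1 * exp 1 := by rw [← Real.exp_add]; norm_num
          rw [this]
          nlinarith
        linarith
  calc ∑ p ∈ Ss N \ T4 N, (1 : ℝ) / p ≤ ∑ p ∈ (Finset.Icc 1 m).filter Nat.Prime, (1 : ℝ) / p :=
        Finset.sum_le_sum_of_subset_of_nonneg hsub fun _ _ _ => by positivity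
    _ ≤ ε * ll N := by linarith

theorem ev_sum4 {ε : ℝ} (hε : 0 < ε) : ∀ᶠ N : ℕ in atTop, |∑ p ∈ T4 N, (1 : ℝ) / p - ll N| ≤ ε * ll N := by
  filter_upwards [ev_sumS (half_pos hε), ev_T4c (half_pos hε)] with N h1 h2
  rw [Finset.sum_sdiff_eq_sub (T4_sub N)] at h2
  have h3 : ∑ p ∈ T4 N, (1 : ℝ) / p ≤ ∑ p ∈ Ss N, (1 : ℝ) / p :=
    Finset.sum_le_sum_of_subset_of_nonneg (T4_sub N) fun _ _ _ => by positivity
  obtain ⟨h4, h5⟩ := abs_le.1 h1
  rw [abs_le]
  constructor <;> linarith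

/-- the normalized sum -/
noncomputable def Qx (N : ℕ) (x : T4 N → ℝ) : ℝ := PP (T4 N) (XX (T4 N) x) / sl N

lemma Qx_cont (N : ℕ) : Continuous (Qx N) := PP_cont.div_const _

lemma Qx_bdd (N : ℕ) : ∃ C : ℝ, 0 ≤ C ∧ ∀ x, |Qx N x| ≤ C := by
  refine ⟨(∑ p ∈ T4 N, tp p * 2) / sl N, ?_, fun x => ?_⟩
  · exact div_nonneg (Finset.sum_nonneg fun p _ => mul_nonneg (tp_nonneg p) (by norm_num)) (Real.sqrt_nonneg _)
  · unfold Qx
    rw [abs_div, abs_of_nonneg (show 0 ≤ sl N from Real.sqrt_nonneg _)]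
    exact div_le_div_of_nonneg_right (PP_bdd T4_prime (Finset.Subset.refl _) x) (Real.sqrt_nonneg _)

/-- exponential moments are bounded -/
theorem exp_mod4 (b : ℝ) : ∃ C : ℝ, 0 ≤ C ∧ ∀ᶠ N : ℕ in atTop, ∫ x, exp (b * Qx N x) ∂(mu (T4 N)) ≤ C := by
  obtain ⟨K, hK0, hK⟩ := NN_le 1 zero_le_one
  obtain ⟨C3, hC30, hC3⟩ := sum_tp3
  refine ⟨exp (b ^ 2 + K * C3), (exp_pos _).le, ?_⟩
  filter_upwards [ev_sum4 (ε := 1) one_pos, ev_sl (|b| + 1), ev_ll 1] with N h1 h2 h3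
  have hsl : 0 < sl N := by
    have := abs_nonneg b
    linarith
  have hb : |b / sl N| ≤ 1 := by
    rw [abs_div, abs_of_pos hsl, div_le_one hsl]
    linarith
  have e1 : ∫ x, exp (b * Qx N x) ∂(mu (T4 N)) = NN (T4 N) (T4 N) (b / sl N) := by
    unfold NN Qx
    congr 1
    ext x
    congr 1
    ring
  rw [e1]
  refine (hK (T4 N) (T4 N) _ T4_prime (Finset.Subset.refl _) hb).trans (exp_le_exp.2 ?_)
  have e2 : (b / sl N) ^ 2 = b ^ 2 / ll N := by rw [div_pow, sl_sq (by linarith)]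
  rw [e2]
  have h6 := (abs_le.1 h1).2
  have h4 : b ^ 2 / ll N / 2 * ∑ p ∈ T4 N, (1 : ℝ) / p ≤ b ^ 2 / ll N / 2 * (2 * ll N) := by
    apply mul_le_mul_of_nonneg_left _ (by positivity)
    linarith
  have h5 : b ^ 2 / ll N / 2 * (2 * ll N) = b ^ 2 := by field_simp
  have h7 := mul_le_mul_of_nonneg_left (hC3 (T4 N)) hK0
  linarith

lemma char_eq4 (N : ℕ) (u : ℝ) :
    ∫ x, Complex.exp (((u * Qx N x : ℝ) : ℂ) * Complex.I) ∂(mu (T4 N)) =
      ∏ p ∈ T4 N, ph1 (u * tp p / sl N) := by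
  classical
  have h0 : ∫ x, Complex.exp (((u * Qx N x : ℝ) : ℂ) * Complex.I) ∂(mu (T4 N)) =
      ∏ p : T4 N, ∫ θ, Complex.exp (((u * tp p / sl N * uu 1 θ : ℝ) : ℂ) * Complex.I) ∂st := by
    unfold mu
    rw [← integral_fintype_prod_eq_prod (μ := fun _ : T4 N => st)
      (f := fun (p : T4 N) θ => Complex.exp (((u * tp p / sl N * uu 1 θ : ℝ) : ℂ) * Complex.I))]
    congr 1
    ext x
    rw [← Complex.exp_sum, ← Finset.sum_mul, ← Complex.ofReal_sum]
    congr 3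
    unfold Qx
    rw [PP_XX T4_prime (Finset.Subset.refl _), Finset.sum_div, Finset.mul_sum]
    refine Finset.sum_congr rfl fun p _ => ?_
    rw [if_pos p.2]
    ring
  rw [h0, Finset.prod_coe_sort (T4 N) (fun p => ∫ θ, Complex.exp (((u * tp p / sl N *
    uu 1 θ : ℝ) : ℂ) * Complex.I) ∂st)]
  rfl

lemma tendsto_ratio4 : Tendsto (fun N : ℕ => (∑ p ∈ T4 N, (1 : ℝ) / p) / ll N) atTop (𝓝 1) := by
  rw [Metric.tendsto_nhds]
  intro ε hε
  filter_upwards [ev_sum4 (half_pos hε), ev_ll 1] with N h1 h2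
  have hll : 0 < ll N := by linarith
  rw [Real.dist_eq]
  have e : (∑ p ∈ T4 N, (1 : ℝ) / p) / ll N - 1 = (∑ p ∈ T4 N, (1 : ℝ) / p - ll N) / ll N := by
    field_simp
  rw [e, abs_div, abs_of_pos hll, div_lt_iff₀ hll]
  nlinarith

/-- the characteristic function -/
theorem char_mod4 (u : ℝ) : Tendsto (fun N : ℕ => ∫ x, Complex.exp (((u * Qx N x : ℝ) : ℂ) * Complex.I)
    ∂(mu (T4 N))) atTop (𝓝 ((exp (-(u ^ 2 / 2)) : ℝ) : ℂ)) := by
  obtain ⟨C3, hC30, hC3⟩ := sum_tp3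
  have h1 : Tendsto (fun N : ℕ => ((exp (-(u ^ 2 / 2) * ((∑ p ∈ T4 N, (1 : ℝ) / p) / ll N)) : ℝ) : ℂ)) atTop
      (𝓝 ((exp (-(u ^ 2 / 2)) : ℝ) : ℂ)) := by
    have h2 : Tendsto (fun N : ℕ => -(u ^ 2 / 2) * ((∑ p ∈ T4 N, (1 : ℝ) / p) / ll N)) atTop
        (𝓝 (-(u ^ 2 / 2) * 1)) := tendsto_ratio4.const_mul _
    rw [mul_one] at h2
    exact (Complex.continuous_ofReal.tendsto _).comp ((Real.continuous_exp.tendsto _).comp h2)
  have h2 : Tendsto (fun N : ℕ => ∫ x, Complex.exp (((u * Qx N x : ℝ) : ℂ) * Complex.I) ∂(mu (T4 N)) -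
      ((exp (-(u ^ 2 / 2) * ((∑ p ∈ T4 N, (1 : ℝ) / p) / ll N)) : ℝ) : ℂ)) atTop (𝓝 0) := by
    have h3 : Tendsto (fun N : ℕ => 3 * |u| ^ 3 * C3 / sl N) atTop (𝓝 0) :=
      tendsto_sl.const_div_atTop _
    refine squeeze_zero_norm' ?_ h3
    filter_upwards [ev_sl (|u| + 1), ev_ll 1] with N hs1 hll1
    have hsl : 0 < sl N := by
      have := abs_nonneg u
      linarith
    have hsl1 : 1 ≤ sl N := by
      have := abs_nonneg u
      linarith
    have hll : 0 < ll N := by linarith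
    rw [char_eq4]
    have e1 : ((exp (-(u ^ 2 / 2) * ((∑ p ∈ T4 N, (1 : ℝ) / p) / ll N)) : ℝ) : ℂ) =
        ∏ p ∈ T4 N, ((exp (-((u * tp p / sl N) ^ 2 / 2)) : ℝ) : ℂ) := by
      rw [← Complex.ofReal_prod, ← Real.exp_sum]
      congr 2
      rw [Finset.sum_div, Finset.mul_sum]
      refine Finset.sum_congr rfl fun p _ => ?_
      rw [div_pow, mul_pow, tp_sq, sl_sq hll.le]
      ring
    rw [e1]
    have ht : ∀ p ∈ T4 N, |u * tp p / sl N| ≤ 1 := by
      intro p hp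
      rw [abs_div, abs_of_pos hsl, div_le_one hsl, abs_mul, abs_of_nonneg (tp_nonneg p)]
      have := tp_le_one (T4_prime p hp).one_le
      calc |u| * tp p ≤ |u| * 1 := mul_le_mul_of_nonneg_left this (abs_nonneg _)
        _ ≤ sl N := by linarith
    refine (prod_diff _ _ _ (fun p _ => ph1_norm _) (fun p _ => ?_)).trans ?_
    · rw [Complex.norm_real, Real.norm_eq_abs, abs_of_pos (exp_pos _), Real.exp_le_one_iff]
      have : 0 ≤ (u * tp p / sl N) ^ 2 / 2 := by positivity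
      linarith
    · calc ∑ p ∈ T4 N, ‖ph1 (u * tp p / sl N) - ((exp (-((u * tp p / sl N) ^ 2 / 2)) : ℝ) : ℂ)‖ ≤
          ∑ p ∈ T4 N, (3 * |u| ^ 3 / sl N) * tp p ^ 3 := by
            refine Finset.sum_le_sum fun p hp => (ph1_gauss (ht p hp)).trans ?_
            rw [abs_div, abs_mul, abs_of_nonneg (tp_nonneg p), abs_of_pos hsl, div_pow, mul_pow]
            have h5 : (|u| ^ 3 * tp p ^ 3) / sl N ^ 3 ≤ (|u| ^ 3 * tp p ^ 3) / sl N := by
              apply div_le_div_of_nonneg_left (by have := tp_nonneg p; positivity) hsl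
              calc sl N = sl N ^ 1 := (pow_one _).symm
                _ ≤ sl N ^ 3 := pow_le_pow_right₀ hsl1 (by norm_num)
            calc 3 * ((|u| ^ 3 * tp p ^ 3) / sl N ^ 3) ≤ 3 * ((|u| ^ 3 * tp p ^ 3) / sl N) := by linarith
              _ = _ := by ring
        _ = (3 * |u| ^ 3 / sl N) * ∑ p ∈ T4 N, tp p ^ 3 := by rw [Finset.mul_sum]
        _ ≤ (3 * |u| ^ 3 / sl N) * C3 := mul_le_mul_of_nonneg_left (hC3 _) (by positivity)
        _ = _ := by ring
  have h3 := h2.add h1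
  rw [zero_add] at h3
  refine h3.congr fun N => ?_
  ring

/-- the law of the normalized sum -/
noncomputable def law4 (N : ℕ) : ProbabilityMeasure ℝ :=
  ⟨(mu (T4 N)).map (Qx N), Measure.isProbabilityMeasure_map (Qx_cont N).aemeasurable⟩

/-- the central limit theorem -/
theorem law4_tendsto : Tendsto law4 atTop (𝓝 gau) := by
  apply ProbabilityMeasure.tendsto_of_tendsto_charFun
  intro t
  have h1 : charFun (gau : Measure ℝ) t = ((exp (-(t ^ 2 / 2)) : ℝ) : ℂ) := by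
    show charFun (gaussianReal 0 1) t = _
    rw [charFun_gaussianReal]
    push_cast
    congr 1
    ring
  rw [h1]
  refine (char_mod4 t).congr fun N => ?_
  show _ = charFun ((mu (T4 N)).map (Qx N)) t
  rw [charFun_apply_real, integral_map (Qx_cont N).aemeasurable (by fun_prop)]
  refine integral_congr_ae (Filter.Eventually.of_forall fun x => ?_)
  simp

/-- convergence for bounded continuous functions -/
theorem law4_int {g : ℝ → ℝ} (hg : Continuous g) {C : ℝ} (hC : ∀ x, |g x| ≤ C) :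
    Tendsto (fun N : ℕ => ∫ x, g (Qx N x) ∂(mu (T4 N))) atTop (𝓝 (∫ x, g x ∂(gaussianReal 0 1))) := by
  have h1 := (ProbabilityMeasure.tendsto_iff_forall_integral_tendsto.1 law4_tendsto)
    (BoundedContinuousFunction.ofNormedAddCommGroup g hg C hC)
  refine h1.congr fun N => ?_
  show ∫ x, g x ∂((mu (T4 N)).map (Qx N)) = _
  rw [integral_map (Qx_cont N).aemeasurable hg.aestronglyMeasurable]

lemma hA4 (N : ℕ) (b : ℝ) : ∀ (D : ℝ) (F : (ℕ → ℝ) → ℝ), 0 ≤ D →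
    Obs (T4 N) D F → Obs (T4 N) (zr N * D) fun lam => (b * PP (T4 N) lam) * F lam := by
  intro D F hD hF
  have := hF.mul_lin T4_prime (Finset.Subset.refl _) (fun p hp => Ss_le p (T4_sub N hp)) hD (fun p => b * tp p)
  refine this.congr fun lam _ => ?_
  unfold PP
  rw [Finset.mul_sum]
  congr 1
  exact Finset.sum_congr rfl fun p _ => by ring

lemma ev_len4 (n : ℕ) : ∀ᶠ N : ℕ in atTop, zr N ^ n * 1 ≤ (N : ℝ) ^ (1 / 200 : ℝ) := by
  filter_upwards [ev_ll (200 * n + 1), ev_log 1] with N h1 h2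
  have hN0 := pos_of_log h2
  have hn : (0 : ℝ) ≤ n := Nat.cast_nonneg n
  have hll : 0 < ll N := by linarith
  rw [mul_one]
  unfold zr
  rw [← Real.exp_nat_mul, Real.rpow_def_of_pos hN0]
  apply exp_le_exp.2
  have h4 : (n : ℝ) * (log N / ll N ^ 2) = log N * (n / ll N ^ 2) := by ring
  rw [h4]
  apply mul_le_mul_of_nonneg_left _ (by linarith)
  rw [div_le_iff₀ (by positivity)]
  nlinarith

lemma T4_ndvd {N : ℕ} (hN : N.Prime) (hsub : Ss N ⊆ Sb N) : ∀ p ∈ T4 N, ¬ p ∣ N :=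
  fun p hp => Sb_ndvd hN p (hsub (T4_sub N hp))

end Pool.Agent.H485.CC
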