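import Pool.Agent.H485.CC.Nv11

/-!
# The central limit theorem for the sums over the primes, natural count
-/

set_option autoImplicit false
set_option maxHeartbeats 4000000

open MeasureTheory Real Finset Filter Topology ProbabilityTheory

namespace Pool.Agent.H485.CC

open W388.LV (SF om IsNewSet)

/-- the natural large sieve, normalized -/
theorem nat_obs' (δ : ℝ) (hδ : 0 < δ) : ∀ᶠ N : ℕ in atTop, N.Prime → ∀ [NeZero N] (E : Finset (SF N 2)),
    IsNewSet N 2 E → ∀ s : ℝ, |s| = 1 → (∀ f ∈ E, W388.IsNewf N 2 f s) →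
    ∀ (S : Finset ℕ), (∀ p ∈ S, p.Prime) → (∀ p ∈ S, ¬ p ∣ N) → (∀ p ∈ S, log N ^ 4 ≤ (p : ℝ)) →
    ∀ (D : ℝ) (F : (ℕ → ℝ) → ℝ), Obs S D F → D ≤ (N : ℝ) ^ (1 / 200 : ℝ) →
      ∑ f ∈ E, (12 / (N : ℝ)) * F (W388.lamf f) ^ 2 ≤ ((1 + δ) / 2) * ∫ x, F (XX S x) ^ 2 ∂(mu S) := by
  filter_upwards [nat_obs δ hδ] with N h hN _ E hE s hs hEs S hS hSN hSl D F hF hD
  have h1 := h hN E hE s hs hEs S hS hSN hSl D F hF hD
  have hN0 : (0 : ℝ) < N := by exact_mod_cast hN.pos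
  rw [← Finset.mul_sum]
  refine (mul_le_mul_of_nonneg_left h1 (by positivity)).trans (le_of_eq ?_)
  field_simp
  ring

/-- transfer for trigonometric polynomials -/
theorem nat_T (r : ℝ) (Q : Polynomial ℝ) {ε : ℝ} (hε : 0 < ε) : ∀ᶠ N : ℕ in atTop, N.Prime →
    ∀ [NeZero N] (E : Finset (SF N 2)), IsNewSet N 2 E → ∀ s : ℝ, |s| = 1 → (∀ f ∈ E, W388.IsNewf N 2 f s) →
    ∑ f ∈ E, (12 / (N : ℝ)) * (Q.eval (sin (r * (PP (T4 N) (W388.lamf f) / sl N)))) ^ 2 ≤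
      (1 / 2) * ∫ x, (Q.eval (sin (r * x))) ^ 2 ∂(gaussianReal 0 1) + ε := by
  obtain ⟨A, ρ, hA, hρ, hTay⟩ := trig_taylor r Q
  set T : ℝ → ℝ := fun x => Q.eval (sin (r * x)) with hT
  obtain ⟨M, hM0, hM⟩ : ∃ M : ℝ, 0 ≤ M ∧ ∀ x, |T x| ≤ M := by
    obtain ⟨M, hM⟩ := (isCompact_Icc (a := (-1 : ℝ)) (b := 1)).exists_bound_of_continuousOn
      (f := fun y => Q.eval y) Q.continuous.continuousOn
    refine ⟨|M|, abs_nonneg _, fun x => ?_⟩
    exact (hM (sin (r * x)) ⟨neg_one_le_sin _, sin_le_one _⟩).trans (le_abs_self _)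
  have hTc : Continuous T := by
    rw [hT]
    exact Q.continuous.comp (by fun_prop)
  set I : ℝ := ∫ x, T x ^ 2 ∂(gaussianReal 0 1) with hI
  have hI0 : 0 ≤ I := integral_nonneg fun x => sq_nonneg _
  have hIM : I ≤ M ^ 2 := by
    rw [hI]
    calc ∫ x, T x ^ 2 ∂(gaussianReal 0 1) ≤ ∫ _, M ^ 2 ∂(gaussianReal 0 1) := by
          refine integral_mono_of_nonneg (Filter.Eventually.of_forall fun x => sq_nonneg _)
            (integrable_const _) (Filter.Eventually.of_forall fun x => ?_)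
          show T x ^ 2 ≤ M ^ 2
          rw [← sq_abs]
          exact pow_le_pow_left₀ (abs_nonneg _) (hM x) 2
      _ = M ^ 2 := by simp
  obtain ⟨C1, hC10, hC1⟩ := exp_mod4 (4 * ρ)
  obtain ⟨C2, hC20, hC2⟩ := exp_mod4 (-(4 * ρ))
  set η : ℝ := min 1 (ε / (8 * (M ^ 2 + 1))) with hη
  have hη0 : 0 < η := lt_min one_pos (by positivity)
  have hη1 : η ≤ 1 := min_le_left _ _
  have hη2 : 4 * η * (M ^ 2 + 1) ≤ ε / 2 := by
    have : η ≤ ε / (8 * (M ^ 2 + 1)) := min_le_right _ _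
    rw [le_div_iff₀ (by positivity)] at this
    linarith
  obtain ⟨m, hm⟩ : ∃ m : ℕ, 3 * (1 + 1 / η) * (A ^ 2 * (C1 + C2)) * (1 / 4) ^ (m + 1) ≤ ε / 2 := by
    have h1 : Tendsto (fun m : ℕ => 3 * (1 + 1 / η) * (A ^ 2 * (C1 + C2)) * (1 / 4 : ℝ) ^ (m + 1)) atTop (𝓝 0) := by
      have h2 := (tendsto_pow_atTop_nhds_zero_of_lt_one (r := (1 / 4 : ℝ)) (by norm_num) (by norm_num))
      have h3 := ((tendsto_add_atTop_iff_nat 1).2 h2).const_mul (3 * (1 + 1 / η) * (A ^ 2 * (C1 + C2)))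
      simpa using h3
    exact ((h1.eventually_lt_const (half_pos hε)).exists).imp fun m hm => hm.le
  obtain ⟨w, hw⟩ := hTay m
  set Tn : ℝ → ℝ := fun x => ∑ j ∈ range (m + 1), w j * x ^ j with hTn
  have hTnc : Continuous Tn := by
    rw [hTn]
    exact continuous_finsetSum _ fun j _ => continuous_const.mul (continuous_pow j)
  set κ : ℝ := A ^ 2 * ((C1 + C2) * (1 / 4) ^ (m + 1)) with hκ
  have hκ0 : 0 ≤ κ := by positivity
  have hlim := (law4_int (g := fun x => T x ^ 2) (hTc.pow 2) (C := M ^ 2) (fun x => by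
    rw [abs_of_nonneg (sq_nonneg _), ← sq_abs]
    exact pow_le_pow_left₀ (abs_nonneg _) (hM x) 2)).eventually_le_const (show I < I + η by linarith)
  filter_upwards [nat_obs' η hη0, ev_sub, ev_log 1, ev_len4 m, ev_len4 (m + 1),
    hC1, hC2, hlim, ev_ll 1] with N hLS hsub hlog hlen1 hlen2 k1 k2 k3 hll hp _ E hE s hs hE1
  have hz : 1 ≤ zr N := zr_ge_one (by linarith)
  have hsl : 0 < sl N := Real.sqrt_pos.2 (by linarith)
  obtain ⟨CP, hCP0, hCP⟩ := Qx_bdd N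
  -- the remainder
  have hD : ∀ x : ℝ, (T x - Tn x) ^ 2 ≤ A ^ 2 * ((ρ * |x|) ^ (m + 1) / ((m + 1).factorial : ℝ)) ^ 2 := by
    intro x
    rw [← sq_abs, ← mul_pow]
    exact pow_le_pow_left₀ (abs_nonneg _) (hw x) 2
  -- integrability
  have iE : ∀ b : ℝ, Integrable (fun x => exp (b * Qx N x)) (mu (T4 N)) := by
    intro b
    refine integrable_mu (C := exp (|b| * CP)) (by have := Qx_cont N; fun_prop) fun x => ?_
    rw [Real.norm_eq_abs, abs_of_pos (exp_pos _)]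
    apply exp_le_exp.2
    calc b * Qx N x ≤ |b * Qx N x| := le_abs_self _
      _ = |b| * |Qx N x| := abs_mul _ _
      _ ≤ _ := mul_le_mul_of_nonneg_left (hCP x) (abs_nonneg _)
  have iT : Integrable (fun x => T (Qx N x) ^ 2) (mu (T4 N)) := by
    refine integrable_mu (C := M ^ 2) ((hTc.comp (Qx_cont N)).pow 2) fun x => ?_
    rw [Real.norm_eq_abs, abs_of_nonneg (sq_nonneg _), ← sq_abs]
    exact pow_le_pow_left₀ (abs_nonneg _) (hM _) 2
  -- the model, remainder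
  have mD : ∫ x, ((ρ * |Qx N x|) ^ (m + 1) / ((m + 1).factorial : ℝ)) ^ 2 ∂(mu (T4 N)) ≤
      (C1 + C2) * (1 / 4) ^ (m + 1) := by
    calc ∫ x, ((ρ * |Qx N x|) ^ (m + 1) / ((m + 1).factorial : ℝ)) ^ 2 ∂(mu (T4 N)) ≤
        ∫ x, (1 / 4) ^ (m + 1) * (exp (4 * ρ * Qx N x) + exp (-(4 * ρ) * Qx N x)) ∂(mu (T4 N)) := by
          refine integral_mono_of_nonneg (Filter.Eventually.of_forall fun x => sq_nonneg _)
            (((iE _).add (iE _)).const_mul _) (Filter.Eventually.of_forall fun x => ?_)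
          exact rem_le hρ (m + 1)
      _ = (1 / 4) ^ (m + 1) * ((∫ x, exp (4 * ρ * Qx N x) ∂(mu (T4 N))) +
            ∫ x, exp (-(4 * ρ) * Qx N x) ∂(mu (T4 N))) := by
          rw [integral_const_mul, integral_add (iE _) (iE _)]
      _ ≤ (1 / 4) ^ (m + 1) * (C1 + C2) := mul_le_mul_of_nonneg_left (add_le_add k1 k2) (by positivity)
      _ = _ := mul_comm _ _
  -- the model, main term
  have mT : ∫ x, Tn (Qx N x) ^ 2 ∂(mu (T4 N)) ≤ (1 + η) * (I + η) + (1 + 1 / η) * κ := by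
    have iD : Integrable (fun x => ((ρ * |Qx N x|) ^ (m + 1) / ((m + 1).factorial : ℝ)) ^ 2) (mu (T4 N)) := by
      refine integrable_mu (C := ((ρ * CP) ^ (m + 1) / ((m + 1).factorial : ℝ)) ^ 2)
        (by have := Qx_cont N; fun_prop) fun x => ?_
      rw [Real.norm_eq_abs, abs_of_nonneg (sq_nonneg _)]
      have := hCP x
      gcongr
    calc ∫ x, Tn (Qx N x) ^ 2 ∂(mu (T4 N)) ≤ ∫ x, ((1 + η) * T (Qx N x) ^ 2 + (1 + 1 / η) *
        (A ^ 2 * ((ρ * |Qx N x|) ^ (m + 1) / ((m + 1).factorial : ℝ)) ^ 2)) ∂(mu (T4 N)) := by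
          refine integral_mono_of_nonneg (Filter.Eventually.of_forall fun x => sq_nonneg _)
            ((iT.const_mul _).add ((iD.const_mul _).const_mul _)) (Filter.Eventually.of_forall fun x => ?_)
          have h1 := young (a := T (Qx N x)) (b := Tn (Qx N x) - T (Qx N x)) hη0
          have e1 : T (Qx N x) + (Tn (Qx N x) - T (Qx N x)) = Tn (Qx N x) := by ring
          rw [e1] at h1
          have h2 := hD (Qx N x)
          have e2 : (Tn (Qx N x) - T (Qx N x)) ^ 2 = (T (Qx N x) - Tn (Qx N x)) ^ 2 := by ring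
          rw [e2] at h1
          have h3 := mul_le_mul_of_nonneg_left h2 (show 0 ≤ 1 + 1 / η by positivity)
          exact h1.trans (by linarith)
      _ = (1 + η) * (∫ x, T (Qx N x) ^ 2 ∂(mu (T4 N))) + (1 + 1 / η) *
          (A ^ 2 * ∫ x, ((ρ * |Qx N x|) ^ (m + 1) / ((m + 1).factorial : ℝ)) ^ 2 ∂(mu (T4 N))) := by
          rw [integral_add (iT.const_mul _) ((iD.const_mul _).const_mul _), integral_const_mul,
            integral_const_mul, integral_const_mul]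
      _ ≤ _ := by
          refine add_le_add (mul_le_mul_of_nonneg_left k3 (by positivity))
            (mul_le_mul_of_nonneg_left ?_ (by positivity))
          exact mul_le_mul_of_nonneg_left mD (by positivity)
  -- the family
  have hAs : ∀ (D : ℝ) (F : (ℕ → ℝ) → ℝ), 0 ≤ D →
    Obs (T4 N) D F → Obs (T4 N) (zr N * D) fun lam => (PP (T4 N) lam / sl N) * F lam := by
    intro D F hD hF
    refine (hA4 N (1 / sl N) D F hD hF).congr fun lam _ => ?_
    ring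
  have o0 : Obs (T4 N) 1 fun _ => 1 := Obs.const le_rfl 1
  have o1 := Obs.mul_poly hz hAs zero_le_one o0 m w
  have o2 := Obs.mul_pow hz hAs zero_le_one o0 (m + 1)
  have f1 := hLS hp E hE s hs hE1 (T4 N) T4_prime (T4_ndvd hp hsub) T4_ge _ _ o1 hlen1
  have f2 := hLS hp E hE s hs hE1 (T4 N) T4_prime (T4_ndvd hp hsub) T4_ge _ _ o2 hlen2
  simp only [mul_one] at f1 f2
  set P : SF N 2 → ℝ := fun f => PP (T4 N) (W388.lamf f) / sl N with hP
  have g1 : ∑ f ∈ E, (12 / (N : ℝ)) * Tn (P f) ^ 2 ≤ ((1 + η) / 2) * ((1 + η) * (I + η) + (1 + 1 / η) * κ) :=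
    f1.trans (mul_le_mul_of_nonneg_left mT (by positivity))
  have g2 : ∑ f ∈ E, (12 / (N : ℝ)) * (T (P f) - Tn (P f)) ^ 2 ≤ κ := by
    calc ∑ f ∈ E, (12 / (N : ℝ)) * (T (P f) - Tn (P f)) ^ 2 ≤
        ∑ f ∈ E, (A ^ 2 * (ρ ^ (m + 1) / ((m + 1).factorial : ℝ)) ^ 2) * ((12 / (N : ℝ)) * (P f ^ (m + 1)) ^ 2) := by
          refine Finset.sum_le_sum fun f _ => ?_
          have h1 := mul_le_mul_of_nonneg_left (hD (P f)) (by positivity : (0:ℝ) ≤ 12 / (N : ℝ))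
          refine h1.trans (le_of_eq ?_)
          have e1 : ((ρ * |P f|) ^ (m + 1) / ((m + 1).factorial : ℝ)) ^ 2 =
            (ρ ^ (m + 1) / ((m + 1).factorial : ℝ)) ^ 2 * (P f ^ (m + 1)) ^ 2 := by
            rw [mul_pow, ← sq_abs (P f ^ (m + 1)), abs_pow]
            ring
          rw [e1]
          ring
      _ = (A ^ 2 * (ρ ^ (m + 1) / ((m + 1).factorial : ℝ)) ^ 2) * ∑ f ∈ E, (12 / (N : ℝ)) * (P f ^ (m + 1)) ^ 2 := by
          rw [Finset.mul_sum]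
      _ ≤ (A ^ 2 * (ρ ^ (m + 1) / ((m + 1).factorial : ℝ)) ^ 2) * (((1 + η) / 2) *
          ∫ x, (Qx N x ^ (m + 1)) ^ 2 ∂(mu (T4 N))) := mul_le_mul_of_nonneg_left f2 (by positivity)
      _ ≤ (A ^ 2 * (ρ ^ (m + 1) / ((m + 1).factorial : ℝ)) ^ 2) * (1 *
          ∫ x, (Qx N x ^ (m + 1)) ^ 2 ∂(mu (T4 N))) := by
          refine mul_le_mul_of_nonneg_left ?_ (by positivity)
          exact mul_le_mul_of_nonneg_right (by linarith) (integral_nonneg fun x => sq_nonneg _)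
      _ = A ^ 2 * ∫ x, ((ρ * |Qx N x|) ^ (m + 1) / ((m + 1).factorial : ℝ)) ^ 2 ∂(mu (T4 N)) := by
          rw [one_mul, mul_assoc, ← integral_const_mul]
          congr 2
          ext x
          rw [mul_pow, ← sq_abs (Qx N x ^ (m + 1)), abs_pow]
          ring
      _ ≤ _ := mul_le_mul_of_nonneg_left mD (by positivity)
  have g3 : ∑ f ∈ E, (12 / (N : ℝ)) * T (P f) ^ 2 ≤ (1 + η) * (∑ f ∈ E, (12 / (N : ℝ)) * Tn (P f) ^ 2) +
      (1 + 1 / η) * ∑ f ∈ E, (12 / (N : ℝ)) * (T (P f) - Tn (P f)) ^ 2 := by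
    rw [Finset.mul_sum, Finset.mul_sum, ← Finset.sum_add_distrib]
    refine Finset.sum_le_sum fun f _ => ?_
    have h1 := young (a := Tn (P f)) (b := T (P f) - Tn (P f)) hη0
    have e1 : Tn (P f) + (T (P f) - Tn (P f)) = T (P f) := by ring
    rw [e1] at h1
    have h2 := mul_le_mul_of_nonneg_left h1 (by positivity : (0:ℝ) ≤ 12 / (N : ℝ))
    linarith
  have hη3 : 0 < 1 + 1 / η := by positivity
  have g4 : (1 + η) * (∑ f ∈ E, (12 / (N : ℝ)) * Tn (P f) ^ 2) ≤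
      (1 + η) * (((1 + η) / 2) * ((1 + η) * (I + η) + (1 + 1 / η) * κ)) :=
    mul_le_mul_of_nonneg_left g1 (by positivity)
  have g5 := mul_le_mul_of_nonneg_left g2 hη3.le
  have g6 : (1 + η) * (((1 + η) / 2) * ((1 + η) * (I + η) + (1 + 1 / η) * κ)) ≤
      1 / 2 * I + 4 * η * (M ^ 2 + 1) + 2 * ((1 + 1 / η) * κ) := by
    set X := (1 + 1 / η) * κ with hX
    have hX0 : 0 ≤ X := by positivity
    have h1 : (1 + η) ^ 3 ≤ 1 + 7 * η := by nlinarith [mul_nonneg hη0.le hη0.le]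
    have h2 : (1 + η) ^ 2 ≤ 4 := by nlinarith
    have e1 : (1 + η) * (((1 + η) / 2) * ((1 + η) * (I + η) + X)) =
        (1 + η) ^ 3 * ((I + η) / 2) + (1 + η) ^ 2 * (X / 2) := by ring
    rw [e1]
    have h3 : (1 + η) ^ 3 * ((I + η) / 2) ≤ (1 + 7 * η) * ((I + η) / 2) :=
      mul_le_mul_of_nonneg_right h1 (by positivity)
    have h4 : (1 + η) ^ 2 * (X / 2) ≤ 4 * (X / 2) := mul_le_mul_of_nonneg_right h2 (by positivity)
    have h5 : η * I ≤ η * M ^ 2 := mul_le_mul_of_nonneg_left hIM hη0.le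
    have h6 : η * η ≤ η * 1 := mul_le_mul_of_nonneg_left hη1 hη0.le
    have h7 : 0 ≤ η * I := by positivity
    nlinarith
  have g7 : 3 * ((1 + 1 / η) * κ) ≤ ε / 2 := by
    refine le_trans (le_of_eq ?_) hm
    rw [hκ]
    ring
  show ∑ f ∈ E, (12 / (N : ℝ)) * T (P f) ^ 2 ≤ (1 / 2) * I + ε
  linarith

/-- the tails -/
theorem nat_tail : ∃ C : ℝ, 0 ≤ C ∧ ∀ M : ℝ, 0 < M → ∀ᶠ N : ℕ in atTop, N.Prime →
    ∀ [NeZero N] (E : Finset (SF N 2)), IsNewSet N 2 E → ∀ s : ℝ, |s| = 1 → (∀ f ∈ E, W388.IsNewf N 2 f s) →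
    ∑ f ∈ E with M < |PP (T4 N) (W388.lamf f) / sl N|, (12 / (N : ℝ)) ≤ C / M ^ 2 := by
  obtain ⟨C1, hC10, hC1⟩ := exp_mod4 1
  obtain ⟨C2, hC20, hC2⟩ := exp_mod4 (-1)
  refine ⟨2 * (C1 + C2), by positivity, fun M hM => ?_⟩
  filter_upwards [nat_obs' 1 one_pos, ev_sub, ev_log 1, ev_len4 1,
    hC1, hC2, ev_ll 1] with N hLS hsub hlog hlen k1 k2 hll hp _ E hE s hs hE1
  have hz : 1 ≤ zr N := zr_ge_one (by linarith)
  have hsl : 0 < sl N := Real.sqrt_pos.2 (by linarith)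
  obtain ⟨CP, hCP0, hCP⟩ := Qx_bdd N
  have iE : ∀ b : ℝ, Integrable (fun x => exp (b * Qx N x)) (mu (T4 N)) := by
    intro b
    refine integrable_mu (C := exp (|b| * CP)) (by have := Qx_cont N; fun_prop) fun x => ?_
    rw [Real.norm_eq_abs, abs_of_pos (exp_pos _)]
    apply exp_le_exp.2
    calc b * Qx N x ≤ |b * Qx N x| := le_abs_self _
      _ = |b| * |Qx N x| := abs_mul _ _
      _ ≤ _ := mul_le_mul_of_nonneg_left (hCP x) (abs_nonneg _)
  have hAs : ∀ (D : ℝ) (F : (ℕ → ℝ) → ℝ), 0 ≤ D →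
    Obs (T4 N) D F → Obs (T4 N) (zr N * D) fun lam => (PP (T4 N) lam / sl N) * F lam := by
    intro D F hD hF
    refine (hA4 N (1 / sl N) D F hD hF).congr fun lam _ => ?_
    ring
  have o0 : Obs (T4 N) 1 fun _ => 1 := Obs.const le_rfl 1
  have o2 := Obs.mul_pow hz hAs zero_le_one o0 1
  have f2 := hLS hp E hE s hs hE1 (T4 N) T4_prime (T4_ndvd hp hsub) T4_ge _ _ o2 hlen
  simp only [mul_one, pow_one] at f2
  set P : SF N 2 → ℝ := fun f => PP (T4 N) (W388.lamf f) / sl N with hP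
  have hmod : ∫ x, (Qx N x) ^ 2 ∂(mu (T4 N)) ≤ 2 * (C1 + C2) := by
    calc ∫ x, (Qx N x) ^ 2 ∂(mu (T4 N)) ≤ ∫ x, 2 * (exp (1 * Qx N x) + exp (-1 * Qx N x)) ∂(mu (T4 N)) := by
          refine integral_mono_of_nonneg (Filter.Eventually.of_forall fun x => sq_nonneg _)
            (((iE _).add (iE _)).const_mul _) (Filter.Eventually.of_forall fun x => ?_)
          show (Qx N x) ^ 2 ≤ 2 * (exp (1 * Qx N x) + exp (-1 * Qx N x))
          set y := Qx N x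
          have h1 := Real.pow_div_factorial_le_exp (x := |y|) (abs_nonneg _) 2
          have h2 : exp |y| ≤ exp (1 * y) + exp (-1 * y) := by
            rcases abs_cases y with ⟨h, _⟩ | ⟨h, _⟩
            · rw [h, one_mul]; linarith [exp_pos (-1 * y)]
            · rw [h, neg_one_mul]; linarith [exp_pos (1 * y)]
          rw [sq_abs] at h1
          have h3 : ((Nat.factorial 2 : ℕ) : ℝ) = 2 := by norm_num [Nat.factorial]
          rw [h3] at h1
          linarith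
      _ = 2 * ((∫ x, exp (1 * Qx N x) ∂(mu (T4 N))) + ∫ x, exp (-1 * Qx N x) ∂(mu (T4 N))) := by
          rw [integral_const_mul, integral_add (iE _) (iE _)]
      _ ≤ _ := by linarith
  have h1 : ∑ f ∈ E, (12 / (N : ℝ)) * P f ^ 2 ≤ 2 * (C1 + C2) := by
    refine f2.trans ?_
    norm_num
    exact hmod
  have h2 : ∀ f ∈ E.filter (fun f => M < |P f|), (12 / (N : ℝ)) * M ^ 2 ≤ (12 / (N : ℝ)) * P f ^ 2 := by
    intro f hf
    rw [Finset.mem_filter] at hf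
    apply mul_le_mul_of_nonneg_left _ (by positivity : (0:ℝ) ≤ 12 / (N : ℝ))
    rw [← sq_abs (P f)]
    exact pow_le_pow_left₀ hM.le hf.2.le 2
  have h3 := Finset.sum_le_sum h2
  rw [← Finset.sum_mul] at h3
  have h4 : ∑ f ∈ E.filter (fun f => M < |P f|), (12 / (N : ℝ)) * P f ^ 2 ≤ ∑ f ∈ E, (12 / (N : ℝ)) * P f ^ 2 :=
    Finset.sum_le_sum_of_subset_of_nonneg (Finset.filter_subset _ _) fun f _ _ =>
      mul_nonneg (by positivity : (0:ℝ) ≤ 12 / (N : ℝ)) (sq_nonneg _)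
  rw [le_div_iff₀ (by positivity)]
  exact h3.trans (h4.trans h1)

/-- the one-sided central limit theorem for the sums over the primes -/
theorem nat_P (v : ℝ) {ε : ℝ} (hε : 0 < ε) : ∀ᶠ N : ℕ in atTop, N.Prime →
    ∀ [NeZero N] (E : Finset (SF N 2)), IsNewSet N 2 E → ∀ s : ℝ, |s| = 1 → (∀ f ∈ E, W388.IsNewf N 2 f s) →
    ∑ f ∈ E with v < PP (T4 N) (W388.lamf f) / sl N, (12 / (N : ℝ)) ≤ (1 / 2) * GT v + ε := by
  obtain ⟨C, hC0, hC⟩ := nat_tail
  set η : ℝ := min (1 / 4) (ε / 20) with hη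
  have hη0 : 0 < η := lt_min (by norm_num) (by positivity)
  have hη1 : η ≤ 1 / 4 := min_le_left _ _
  have hη2 : 20 * η ≤ ε := by
    have : η ≤ ε / 20 := min_le_right _ _
    linarith
  obtain ⟨M, hM, hM1, hM2⟩ : ∃ M : ℝ, 0 < M ∧ 1 / M ^ 2 ≤ η ∧ C / M ^ 2 ≤ η := by
    have h1 : Tendsto (fun M : ℝ => 1 / M ^ 2) atTop (𝓝 0) :=
      (tendsto_pow_atTop (two_ne_zero)).const_div_atTop _
    have h2 : Tendsto (fun M : ℝ => C / M ^ 2) atTop (𝓝 0) :=
      (tendsto_pow_atTop (two_ne_zero)).const_div_atTop _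
    obtain ⟨M, hM⟩ := ((eventually_gt_atTop 0).and ((h1.eventually_lt_const hη0).and
      (h2.eventually_lt_const hη0))).exists
    exact ⟨M, hM.1, hM.2.1.le, hM.2.2.le⟩
  obtain ⟨r, Q, hQ1, hQ2⟩ := exists_T v hη0 hM
  have hI := int_T hη0 (by linarith) hM hQ1 hQ2
  have hGs := GT_shift v hη0.le
  filter_upwards [nat_T r Q hη0, hC M hM] with N h1 h2 hp _ E hE s hs hE1
  have k1 := h1 hp E hE s hs hE1
  have k2 := h2 hp E hE s hs hE1
  set P : SF N 2 → ℝ := fun f => PP (T4 N) (W388.lamf f) / sl N with hP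
  have k3 := sum_or E (fun _ => (12 / (N : ℝ))) (fun f _ => (by positivity : (0:ℝ) ≤ 12 / (N : ℝ))) (fun f => v < P f)
    (fun f => v < P f ∧ |P f| ≤ M) (fun f => M < |P f|) (fun f _ hf => by
      rcases le_or_gt |P f| M with h | h
      · exact Or.inl ⟨hf, h⟩
      · exact Or.inr h)
  have k4 : ∀ f ∈ E.filter (fun f => v < P f ∧ |P f| ≤ M), (12 / (N : ℝ)) * (1 - η) ^ 2 ≤
      (12 / (N : ℝ)) * (Q.eval (sin (r * P f))) ^ 2 := by
    intro f hf
    rw [Finset.mem_filter] at hf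
    apply mul_le_mul_of_nonneg_left _ (by positivity : (0:ℝ) ≤ 12 / (N : ℝ))
    have h3 := abs_lt.1 (hQ1 (P f) hf.2.2)
    rw [ramp_one hη0 hf.2.1] at h3
    exact pow_le_pow_left₀ (by linarith) (by linarith [h3.1]) 2
  have k5 := Finset.sum_le_sum k4
  rw [← Finset.sum_mul] at k5
  have k6 : ∑ f ∈ E.filter (fun f => v < P f ∧ |P f| ≤ M), (12 / (N : ℝ)) * (Q.eval (sin (r * P f))) ^ 2 ≤
      ∑ f ∈ E, (12 / (N : ℝ)) * (Q.eval (sin (r * P f))) ^ 2 :=
    Finset.sum_le_sum_of_subset_of_nonneg (Finset.filter_subset _ _) fun f _ _ =>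
      mul_nonneg (by positivity : (0:ℝ) ≤ 12 / (N : ℝ)) (sq_nonneg _)
  have hG0 := GT_nonneg v
  have hG1 := GT_le_one v
  set Z : ℝ := ∑ f ∈ E.filter (fun f => v < P f ∧ |P f| ≤ M), (12 / (N : ℝ)) with hZ
  have hZ0 : 0 ≤ Z := Finset.sum_nonneg fun f _ => (by positivity : (0:ℝ) ≤ 12 / (N : ℝ))
  have k7 : Z * (1 - η) ^ 2 ≤ (1 / 2) * (GT v + 5 * η) + η := by
    refine k5.trans (k6.trans (k1.trans ?_))
    linarith
  have k8 : Z ≤ (1 / 2) * GT v + 15 * η := by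
    have h3 : 1 - 2 * η ≤ (1 - η) ^ 2 := by nlinarith
    have h4 : Z * (1 - 2 * η) ≤ (1 / 2) * GT v + 7 / 2 * η := by
      have := mul_le_mul_of_nonneg_left h3 hZ0
      linarith
    have h5 : (1 / 2) * GT v + 7 / 2 * η ≤ ((1 / 2) * GT v + 15 * η) * (1 - 2 * η) := by
      have h6 : GT v * η ≤ 1 * η := mul_le_mul_of_nonneg_right hG1 hη0.le
      have h7 : η * η ≤ 1 / 4 * η := mul_le_mul_of_nonneg_right hη1 hη0.le
      nlinarith
    have h8 : 0 < 1 - 2 * η := by linarith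
    exact le_of_mul_le_mul_right (h4.trans h5) h8
  have k9 : ∑ f ∈ E with M < |P f|, (12 / (N : ℝ)) ≤ C / M ^ 2 := k2
  calc ∑ f ∈ E with v < P f, (12 / (N : ℝ)) ≤ Z + ∑ f ∈ E with M < |P f|, (12 / (N : ℝ)) := k3
    _ ≤ ((1 / 2) * GT v + 15 * η) + η := add_le_add k8 (k9.trans hM2)
    _ ≤ _ := by linarith


end Pool.Agent.H485.CC
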