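import Pool.Agent.H485.CC.Nv12
import Pool.Agent.H485.CC.Clt5
import Pool.Agent.H485.CC.Mlc

/-!
# The one-sided central limit theorem for the central values: natural count
-/

set_option autoImplicit false
set_option maxHeartbeats 4000000

open MeasureTheory Real Finset Filter Topology ProbabilityTheory

namespace Pool.Agent.H485.CC

open W388.LV (SF om IsNewSet)
open Pool.Agent.Y18.BSD Pool.Agent.K4H13.CV

/-- a set of forms of small harmonic mass is small -/
lemma few : ∃ C : ℝ, 0 < C ∧ ∀ (N : ℕ) [NeZero N], N.Prime → ∀ (B : Finset (SF N 2)) (m : ℝ), IsNewSet N 2 B →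
    ∑ f ∈ B, om f ≤ m → ∑ _f ∈ B, (12 / (N : ℝ)) ≤ C * Real.sqrt m := by
  obtain ⟨C, hC0, hC⟩ := count_sq
  refine ⟨12 * Real.sqrt C, by positivity, fun N _ hN B m hB hm => ?_⟩
  have hN0 : (0 : ℝ) < N := by exact_mod_cast hN.pos
  have h1 := hC N hN B hB
  have hm0 : 0 ≤ ∑ f ∈ B, om f := Finset.sum_nonneg fun f _ => om_nonneg f
  have hm1 : 0 ≤ m := hm0.trans hm
  have h2 : (B.card : ℝ) ^ 2 ≤ (Real.sqrt C * Real.sqrt m * N) ^ 2 := by
    have e1 : (Real.sqrt C * Real.sqrt m * N) ^ 2 = C * (N : ℝ) ^ 2 * m := by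
      rw [mul_pow, mul_pow, Real.sq_sqrt hC0.le, Real.sq_sqrt hm1]
      ring
    rw [e1]
    exact h1.trans (mul_le_mul_of_nonneg_left hm (by positivity))
  have h3 := (abs_le_of_sq_le_sq' h2 (by positivity)).2
  rw [Finset.sum_const, nsmul_eq_mul]
  calc (B.card : ℝ) * (12 / (N : ℝ)) ≤ (Real.sqrt C * Real.sqrt m * N) * (12 / (N : ℝ)) :=
        mul_le_mul_of_nonneg_right h3 (by positivity)
    _ = _ := by field_simp

/-- the small primes do not matter -/
theorem small_PD {η ε : ℝ} (hη : 0 < η) (hε : 0 < ε) : ∀ᶠ N : ℕ in atTop, N.Prime →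
    ∀ [NeZero N] (E : Finset (SF N 2)), IsNewSet N 2 E → (∀ f ∈ E, W388.IsNewf N 2 f 1) →
    ∑ f ∈ E with η * sl N < |PP (Ss N \ T4 N) (W388.lamf f)|, om f ≤ ε := by
  filter_upwards [ls_obs_even 1 (1 / 4) one_pos (by norm_num), ev_sub, ev_log 1, ev_len2 1,
    ev_T4c (ε := ε * η ^ 2) (by positivity), ev_ll 1] with N hLS hsub hlog hlen h1 hll hp _ E hE hE1
  have hsl : 0 < sl N := Real.sqrt_pos.2 (by linarith)
  have hsq : sl N ^ 2 = ll N := sl_sq (by linarith)
  have hsub' : Ss N \ T4 N ⊆ Sb N := fun p hp => hsub (Finset.mem_sdiff.1 hp).1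
  have o0 : Obs (Sb N) 1 fun _ => 1 := Obs.const le_rfl 1
  have o1 := (o0.mul_lin Sb_prime hsub' (fun p hp => Ss_le p (Finset.mem_sdiff.1 hp).1) zero_le_one tp)
  have o2 : Obs (Sb N) (zr N * 1) (PP (Ss N \ T4 N)) := o1.congr fun lam _ => by
    unfold PP
    rw [mul_one]
  have hlen' : zr N * 1 ≤ (N : ℝ) ^ (1 / 2 - 1 / 4 : ℝ) := by
    rw [pow_one] at hlen
    exact hlen
  have k1 := hLS hp E hE hE1 (Sb N) Sb_prime (Sb_ndvd hp) _ _ o2 hlen'
  rw [PP_sq Sb_prime hsub'] at k1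
  have k2 : ∀ f ∈ E.filter (fun f => η * sl N < |PP (Ss N \ T4 N) (W388.lamf f)|),
      om f * (η * sl N) ^ 2 ≤ om f * PP (Ss N \ T4 N) (W388.lamf f) ^ 2 := by
    intro f hf
    rw [Finset.mem_filter] at hf
    apply mul_le_mul_of_nonneg_left _ (om_nonneg f)
    rw [← sq_abs (PP (Ss N \ T4 N) (W388.lamf f))]
    exact pow_le_pow_left₀ (by positivity) hf.2.le 2
  have k3 := Finset.sum_le_sum k2
  rw [← Finset.sum_mul] at k3
  have k4 : ∑ f ∈ E.filter (fun f => η * sl N < |PP (Ss N \ T4 N) (W388.lamf f)|),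
      om f * PP (Ss N \ T4 N) (W388.lamf f) ^ 2 ≤ ∑ f ∈ E, om f * PP (Ss N \ T4 N) (W388.lamf f) ^ 2 :=
    Finset.sum_le_sum_of_subset_of_nonneg (Finset.filter_subset _ _) fun f _ _ =>
      mul_nonneg (om_nonneg f) (sq_nonneg _)
  have k5 : (∑ f ∈ E with η * sl N < |PP (Ss N \ T4 N) (W388.lamf f)|, om f) * (η ^ 2 * ll N) ≤
      ε * (η ^ 2 * ll N) := by
    have e1 : (η * sl N) ^ 2 = η ^ 2 * ll N := by rw [mul_pow, hsq]
    rw [e1] at k3
    refine k3.trans (k4.trans (k1.trans ?_))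
    linarith
  exact le_of_mul_le_mul_right k5 (by positivity)

/-- natural count, normalized -/
theorem nat_L (v : ℝ) {ε : ℝ} (hε : 0 < ε) : ∀ᶠ N : ℕ in atTop, N.Prime →
    ∀ [NeZero N] (E : Finset (SF N 2)), IsNewSet N 2 E → (∀ f ∈ E, W388.IsNewf N 2 f 1) →
    ∑ f ∈ E with exp (-(ll N / 2) + v * sl N) < ‖bv f 0‖, (12 / (N : ℝ)) ≤ (1 / 2) * GT v + ε := by
  obtain ⟨C, hC0, hC⟩ := few
  set η : ℝ := ε / 8 with hη
  have hη0 : 0 < η := by positivity
  set m : ℝ := (η / C) ^ 2 with hm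
  have hm0 : 0 < m := by positivity
  have hCm : C * Real.sqrt m = η := by
    rw [hm, Real.sqrt_sq (by positivity)]
    field_simp
  have hGs := GT_shift v (η := 3 * η) (by positivity)
  filter_upwards [nat_P (v - 3 * η) hη0, ratio hη0, bv_le, ev_linS (log 4) hη0,
    ev_linS (-(log m)) (ε := η / 2) (by positivity), ev_sl (4 * (|v| + 1)), ev_sl 4,
    small_PD hη0 hm0] with N h1 h2 h3 h4 h5 h6 h7 hPD hp _ E hE hE1
  have k1 := h1 hp E hE 1 (by norm_num) hE1
  have k2 := h2 hp E hE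
  have k2' := hPD hp E hE hE1
  have hsl : 0 < sl N := by linarith
  have hll : ll N = sl N ^ 2 := by
    unfold sl
    rw [Real.sq_sqrt]
    by_contra h
    push Not at h
    have : sl N = 0 := Real.sqrt_eq_zero_of_nonpos h.le
    linarith
  set P : SF N 2 → ℝ := fun f => PP (Ss N) (W388.lamf f) with hP
  have k3 : exp (-(η / 2) * sl N) ≤ m := by
    rw [← Real.le_log_iff_exp_le hm0]
    linarith
  have hv : |v| ≤ sl N / 4 - 1 := by linarith
  have hPs : ∀ f : SF N 2, P f = PP (T4 N) (W388.lamf f) + PP (Ss N \ T4 N) (W388.lamf f) := by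
    intro f
    show PP (Ss N) (W388.lamf f) = _
    unfold PP
    rw [add_comm, Finset.sum_sdiff (T4_sub N)]
  have k4 := sum_or E (fun _ => (12 / (N : ℝ))) (fun f _ => (by positivity : (0:ℝ) ≤ 12 / (N : ℝ)))
    (fun f => exp (-(ll N / 2) + v * sl N) < ‖bv f 0‖)
    (fun f => v - 3 * η < PP (T4 N) (W388.lamf f) / sl N)
    (fun f => exp (-(ll N / 2) + P f + η * sl N) < |SYf N (W388.lamf f)| ∨
      η * sl N < |PP (Ss N \ T4 N) (W388.lamf f)|) (fun f hf hbv => by
      by_contra hcon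
      push Not at hcon
      obtain ⟨c1, c2, c3⟩ := hcon
      have e1 := h3 hp f 1 (hE1 f hf)
      rw [div_le_iff₀ hsl] at c1
      have c4 := (abs_le.1 c3).2
      have c5 : P f ≤ (v - 2 * η) * sl N := by
        rw [hPs f]
        linarith
      have e2 : exp (-(ll N / 2) + P f + η * sl N) ≤ exp (-(ll N / 2) + v * sl N) / 4 := by
        rw [le_div_iff₀ (by norm_num), ← Real.exp_log (show (0 : ℝ) < 4 by norm_num), ← Real.exp_add]
        apply exp_le_exp.2
        linarith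
      have e3 : exp (-5 * ll N) ≤ exp (-(ll N / 2) + v * sl N) / 4 := by
        rw [le_div_iff₀ (by norm_num), ← Real.exp_log (show (0 : ℝ) < 4 by norm_num), ← Real.exp_add]
        apply exp_le_exp.2
        have h8 : log 4 ≤ 2 := by
          have : log 4 = 2 * log 2 := by
            rw [show (4 : ℝ) = 2 ^ 2 by norm_num, Real.log_pow]
            push_cast; ring
          rw [this]
          have := Real.log_two_lt_d9
          linarith
        have h9 : -(sl N ^ 2) ≤ v * sl N := by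
          have := (abs_le.1 hv).1
          nlinarith
        rw [hll]
        nlinarith
      linarith)
  have k5 := sum_or E (fun _ => (12 / (N : ℝ))) (fun f _ => (by positivity : (0:ℝ) ≤ 12 / (N : ℝ)))
    (fun f => exp (-(ll N / 2) + P f + η * sl N) < |SYf N (W388.lamf f)| ∨
      η * sl N < |PP (Ss N \ T4 N) (W388.lamf f)|)
    (fun f => exp (-(ll N / 2) + P f + η * sl N) < |SYf N (W388.lamf f)|)
    (fun f => η * sl N < |PP (Ss N \ T4 N) (W388.lamf f)|) (fun f _ h => h)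
  have k6 := hC N hp _ m (IsNewSet.sub hE (Finset.filter_subset
    (fun f => exp (-(ll N / 2) + P f + η * sl N) < |SYf N (W388.lamf f)|) E)) (k2.trans k3)
  have k7 := hC N hp _ m (IsNewSet.sub hE (Finset.filter_subset
    (fun f => η * sl N < |PP (Ss N \ T4 N) (W388.lamf f)|) E)) k2'
  rw [hCm] at k6 k7
  calc ∑ f ∈ E with exp (-(ll N / 2) + v * sl N) < ‖bv f 0‖, (12 / (N : ℝ)) ≤ _ := k4
    _ ≤ ((1 / 2) * GT (v - 3 * η) + η) + (η + η) := add_le_add k1 (k5.trans (add_le_add k6 k7))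
    _ ≤ _ := by
        have : GT (v - 3 * η) ≤ GT v + 3 * η := hGs
        linarith

open Classical in
/-- the number of the even newforms -/
theorem even_many {δ : ℝ} (hδ : 0 < δ) : ∀ᶠ N : ℕ in atTop, N.Prime → ∀ [NeZero N] (B : Finset (SF N 2)),
    (W388.LV.IsNewBasis N 2 B) → (∀ f : SF N 2, f ∈ B ↔ ∃ ε : ℝ, W388.IsNewf N 2 f ε) →
    (1 / 24 - δ) * N ≤ ((B.filter fun f => W388.IsNewf N 2 f 1).card : ℝ) := by
  filter_upwards [nat_obs (12 * δ) (by positivity), eventually_ge_atTop 3,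
    (tendsto_natCast_atTop_atTop (R := ℝ)).eventually_ge_atTop (3 / δ)] with N h1 h3 hNd hN _ B hB hBm
  have h2 : N ≠ 2 := by omega
  obtain ⟨d1, d2, -⟩ := dimS hyp hN h2 hB
  have hBs : IsNewSet N 2 B := ⟨hB.newf, hB.orth⟩
  have hN1 : (1 : ℝ) ≤ (N : ℝ) ^ (1 / 200 : ℝ) :=
    Real.one_le_rpow (by exact_mod_cast hN.one_le) (by norm_num)
  have k := h1 hN (B.filter fun f => W388.IsNewf N 2 f (-1)) (IsNewSet.sub hBs (Finset.filter_subset _ _))
    (-1) (by norm_num) (fun f hf => (Finset.mem_filter.1 hf).2) ∅ (by simp) (by simp) (by simp) 1 (fun _ => 1)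
    (Obs.const le_rfl 1) hN1
  simp only [one_pow, mul_one, MeasureTheory.integral_const, MeasureTheory.probReal_univ, smul_eq_mul,
    Finset.sum_const, nsmul_eq_mul] at k
  have h4 : B.card ≤ (B.filter fun f => W388.IsNewf N 2 f 1).card +
      (B.filter fun f => W388.IsNewf N 2 f (-1)).card := by
    rw [← Finset.card_union_add_card_inter]
    refine (Finset.card_le_card fun f hf => ?_).trans (Nat.le_add_right _ _)
    obtain ⟨ε, hε⟩ := (hBm f).1 hf
    rw [Finset.mem_union, Finset.mem_filter, Finset.mem_filter]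
    rcases hε.sign with rfl | rfl
    · exact Or.inl ⟨hf, hε⟩
    · exact Or.inr ⟨hf, hε⟩
  have h5 : N ≤ 12 * B.card + 13 := by omega
  have h6 : (N : ℝ) ≤ 12 * (((B.filter fun f => W388.IsNewf N 2 f 1).card : ℝ) +
      ((B.filter fun f => W388.IsNewf N 2 f (-1)).card : ℝ)) + 13 := by
    have : N ≤ 12 * ((B.filter fun f => W388.IsNewf N 2 f 1).card +
      (B.filter fun f => W388.IsNewf N 2 f (-1)).card) + 13 := by omega
    exact_mod_cast this
  rw [div_le_iff₀ hδ] at hNd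
  linarith

open Classical in
/-- natural count -/
theorem nat_final (v : ℝ) {ε : ℝ} (hε : 0 < ε) : ∀ᶠ N : ℕ in atTop, N.Prime →
    ∀ [NeZero N] (B : Finset (SF N 2)), (W388.LV.IsNewBasis N 2 B) →
    (∀ f : SF N 2, f ∈ B ↔ ∃ ε : ℝ, W388.IsNewf N 2 f ε) →
    (((B.filter fun f => W388.IsNewf N 2 f 1).filter
      fun f => exp (-(ll N / 2) + v * sl N) < ‖bv f 0‖).card : ℝ) ≤
      (GT v + ε) * ((B.filter fun f => W388.IsNewf N 2 f 1).card : ℝ) := by
  set d : ℝ := ε / (2 * (1 + ε)) with hd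
  have hd0 : 0 < d := by positivity
  have hd1 : d * (1 + ε) = ε / 2 := by
    rw [hd]
    field_simp
  filter_upwards [nat_L v (ε := ε / 8) (by positivity), even_many (δ := d / 24) (by positivity)]
    with N h1 h2 hN _ B hB hBm
  have hN0 : (0 : ℝ) < N := by exact_mod_cast hN.pos
  have hBs : IsNewSet N 2 B := ⟨hB.newf, hB.orth⟩
  have k1 := h1 hN (B.filter fun f => W388.IsNewf N 2 f 1) (IsNewSet.sub hBs (Finset.filter_subset _ _))
    (fun f hf => (Finset.mem_filter.1 hf).2)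
  have k2 := h2 hN B hB hBm
  have hG0 := GT_nonneg v
  have hG1 := GT_le_one v
  rw [Finset.sum_const, nsmul_eq_mul, mul_div_assoc', div_le_iff₀ hN0] at k1
  have k3 : (GT v + ε / 4) / 24 * N ≤ (GT v + ε) * ((1 / 24 - d / 24) * N) := by
    have h3 : GT v + ε / 4 ≤ (GT v + ε) * (1 - d) := by
      have h4 : d * (GT v + ε) ≤ d * (1 + ε) := mul_le_mul_of_nonneg_left (by linarith) hd0.le
      nlinarith
    calc (GT v + ε / 4) / 24 * N ≤ ((GT v + ε) * (1 - d)) / 24 * N := by gcongr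
      _ = _ := by ring
  have k4 : (GT v + ε) * ((1 / 24 - d / 24) * N) ≤
      (GT v + ε) * ((B.filter fun f => W388.IsNewf N 2 f 1).card : ℝ) :=
    mul_le_mul_of_nonneg_left k2 (by positivity)
  refine le_trans ?_ (k3.trans k4)
  linarith

end Pool.Agent.H485.CC
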