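import Pool.Agent.H485.CC.Nv1
import Pool.Agent.H485.CC.Hec
import Pool.Agent.H485.CC.Ls2

/-!
# The Hecke operators pointwise
-/

set_option autoImplicit false
set_option maxHeartbeats 1000000

open Finset UpperHalfPlane CongruenceSubgroup MatrixGroups

namespace Pool.Agent.H485.CC

open Pool.Agent.W165.RS (ac ac_zero one_mem0)
open W388.LV (SF)

/-- the point `(a z + b) / d` -/
noncomputable def tpt (a b d : ℕ) (z : ℍ) : ℍ :=
  if h : 0 < (((a : ℂ) * z + b) / d).im then ⟨((a : ℂ) * z + b) / d, h⟩ else z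

lemma tp_im_aux {a d : ℕ} (b : ℕ) (z : ℍ) :
    (((a : ℂ) * z + b) / d).im = a * z.im / d := by
  rw [Complex.div_natCast_im]
  simp

lemma coe_tpt {a d : ℕ} (ha : 0 < a) (hd : 0 < d) (b : ℕ) (z : ℍ) :
    ((tpt a b d z : ℍ) : ℂ) = ((a : ℂ) * z + b) / d := by
  have h : 0 < (((a : ℂ) * z + b) / d).im := by
    rw [tp_im_aux]
    have := z.im_pos
    have ha' : (0 : ℝ) < a := by exact_mod_cast ha
    have hd' : (0 : ℝ) < d := by exact_mod_cast hd
    positivity
  unfold tpt
  rw [dif_pos h]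

lemma im_tpt {a d : ℕ} (ha : 0 < a) (hd : 0 < d) (b : ℕ) (z : ℍ) :
    (tpt a b d z).im = a * z.im / d := by
  rw [← coe_im, coe_tpt ha hd, tp_im_aux]

variable {N : ℕ} [NeZero N]

lemma hasSum_E (f : SF N 2) (z : ℍ) :
    HasSum (fun n : ℕ => ac f n * Complex.exp (2 * Real.pi * Complex.I * n * z)) (f z) := by
  have h := ModularForm.hasSum_qExpansion (Γ := (Gamma0 N : Subgroup (GL (Fin 2) ℝ))) (k := 2) f one_pos
    one_mem0 z
  convert h using 2 with n
  unfold Function.Periodic.qParam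
  rw [← Complex.exp_nat_mul]
  unfold ac

  congr 2
  push_cast
  ring

omit [NeZero N] in
lemma root_sum {d : ℕ} (hd : 0 < d) (n : ℕ) :
    ∑ b ∈ Finset.range d, Complex.exp (2 * Real.pi * Complex.I * n * b / d) =
      if d ∣ n then (d : ℂ) else 0 := by
  have hd0 : (d : ℂ) ≠ 0 := by exact_mod_cast hd.ne'
  set ζ : ℂ := Complex.exp (2 * Real.pi * Complex.I * n / d) with hζ
  have h1 : ∀ b : ℕ, Complex.exp (2 * Real.pi * Complex.I * n * b / d) = ζ ^ b := by
    intro b
    rw [hζ, ← Complex.exp_nat_mul]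
    congr 1
    ring
  simp_rw [h1]
  have h2 : ζ ^ d = 1 := by
    rw [hζ, ← Complex.exp_nat_mul]
    have : (d : ℂ) * (2 * Real.pi * Complex.I * n / d) = n * (2 * Real.pi * Complex.I) := by
      field_simp
    rw [this]
    exact Complex.exp_nat_mul_two_pi_mul_I n
  split_ifs with h
  · obtain ⟨k, rfl⟩ := h
    have h3 : ζ = 1 := by
      rw [hζ]
      have : 2 * Real.pi * Complex.I * ((d * k : ℕ) : ℂ) / d = k * (2 * Real.pi * Complex.I) := by
        push_cast
        field_simp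
      rw [this]
      exact Complex.exp_nat_mul_two_pi_mul_I k
    rw [h3]
    simp
  · have h3 : ζ ≠ 1 := by
      intro h4
      have hp := Complex.isPrimitiveRoot_exp d hd.ne'
      have h5 : Complex.exp (2 * Real.pi * Complex.I / d) ^ n = 1 := by
        rw [← h4, hζ, ← Complex.exp_nat_mul]
        congr 1
        ring
      exact h (hp.pow_eq_one_iff_dvd n |>.1 h5)
    have h4 := mul_geom_sum ζ d
    rw [h2, sub_self] at h4
    rcases mul_eq_zero.1 h4 with h5 | h5
    · exact absurd (sub_eq_zero.1 h5) h3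
    · exact h5

lemma hasSum_tp (f : SF N 2) (z : ℍ) {a d : ℕ} (ha : 0 < a) (hd : 0 < d) :
    HasSum (fun M : ℕ => if a ∣ M then (d : ℂ) * ac f (d * (M / a)) *
      Complex.exp (2 * Real.pi * Complex.I * M * z) else 0)
      (∑ b ∈ Finset.range d, f (tpt a b d z)) := by
  have ha0 : (a : ℂ) ≠ 0 := by exact_mod_cast ha.ne'
  have hd0 : (d : ℂ) ≠ 0 := by exact_mod_cast hd.ne'
  have h1 : HasSum (fun n : ℕ => ∑ b ∈ Finset.range d, ac f n *
      Complex.exp (2 * Real.pi * Complex.I * n * (tpt a b d z : ℍ))) (∑ b ∈ Finset.range d, f (tpt a b d z)) :=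
    hasSum_sum fun b _ => hasSum_E f (tpt a b d z)
  have h2 : ∀ n : ℕ, ∑ b ∈ Finset.range d, ac f n *
      Complex.exp (2 * Real.pi * Complex.I * n * (tpt a b d z : ℍ)) =
      if d ∣ n then (d : ℂ) * ac f n * Complex.exp (2 * Real.pi * Complex.I * (n / d * a) * z) else 0 := by
    intro n
    have e1 : ∀ b : ℕ, Complex.exp (2 * Real.pi * Complex.I * n * (tpt a b d z : ℍ)) =
        Complex.exp (2 * Real.pi * Complex.I * (n / d * a) * z) *
          Complex.exp (2 * Real.pi * Complex.I * n * b / d) := by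
      intro b
      rw [coe_tpt ha hd, ← Complex.exp_add]
      congr 1
      field_simp
    simp_rw [e1]
    rw [← Finset.mul_sum, ← Finset.mul_sum, root_sum hd n]
    split_ifs
    · ring
    · ring
  simp_rw [h2] at h1
  have hinj : Function.Injective fun k : ℕ => d * k := fun x y h => Nat.eq_of_mul_eq_mul_left hd h
  have h3 := (hinj.hasSum_iff (f := fun n : ℕ => if d ∣ n then (d : ℂ) * ac f n *
    Complex.exp (2 * Real.pi * Complex.I * (n / d * a) * z) else 0) (a := ∑ b ∈ Finset.range d, f (tpt a b d z))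
    (fun x hx => by
      rw [if_neg]
      rintro ⟨k, rfl⟩
      exact hx ⟨k, rfl⟩)).2 h1
  have hinj2 : Function.Injective fun k : ℕ => a * k := fun x y h => Nat.eq_of_mul_eq_mul_left ha h
  refine (hinj2.hasSum_iff (f := fun M : ℕ => if a ∣ M then (d : ℂ) * ac f (d * (M / a)) *
      Complex.exp (2 * Real.pi * Complex.I * M * z) else 0) (fun x hx => by
      rw [if_neg]
      rintro ⟨k, rfl⟩
      exact hx ⟨k, rfl⟩)).1 ?_
  convert h3 using 1
  ext k
  simp only [Function.comp]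
  rw [if_pos (Dvd.intro _ rfl), if_pos (Dvd.intro _ rfl), Nat.mul_div_cancel_left _ ha]
  congr 2
  push_cast
  field_simp

lemma ac_lam {f : SF N 2} {ε : ℝ} (hf : W388.IsNewf N 2 f ε) (n : ℕ) :
    ac f n = ((Real.sqrt n * W388.lamf f n : ℝ) : ℂ) := by
  have hre : ac f n = (((ac f n).re : ℝ) : ℂ) := by
    apply Complex.ext
    · simp
    · simp only [Complex.ofReal_im]
      exact hf.real n
  rcases Nat.eq_zero_or_pos n with h | h
  · subst h
    rw [ac_zero]
    simp
  · have h3 : W388.lamf f n = (ac f n).re / Real.sqrt n := by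
      unfold W388.lamf ac
      have e1 : ((((2 : ℤ) : ℝ) - 1) / 2) = 1 / 2 := by norm_num
      rw [e1, ← Real.sqrt_eq_rpow]
    have hs : 0 < Real.sqrt n := Real.sqrt_pos.2 (by exact_mod_cast h)
    rw [h3, mul_div_cancel₀ _ hs.ne']
    exact hre

lemma ac_mul {f : SF N 2} {ε : ℝ} (hf : W388.IsNewf N 2 f ε) {n : ℕ} (hn : 1 ≤ n)
    (hnN : ∀ p ∈ n.primeFactors, ¬ p ∣ N) (M : ℕ) :
    ac f n * ac f M = ∑ a ∈ n.divisors, if a ∣ M then (a : ℂ) * ac f ((n / a) * (M / a)) else 0 := by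
  rcases Nat.eq_zero_or_pos M with h0 | h0
  · subst h0
    simp [ac_zero]
  · have hr : HRel n.primeFactors (W388.lamf f) :=
      hrel_lamf hf (fun p hp => (Nat.mem_primeFactors.1 hp).1) hnN
    have h1 := hr.gen (fun p hp => (Nat.mem_primeFactors.1 hp).1) n ⟨hn, Finset.Subset.refl _⟩ M h0
    rw [ac_lam hf n, ac_lam hf M, ← Complex.ofReal_mul,
      show Real.sqrt n * W388.lamf f n * (Real.sqrt M * W388.lamf f M) =
        Real.sqrt n * Real.sqrt M * (W388.lamf f n * W388.lamf f M) by ring, h1, Finset.mul_sum,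
      ← Finset.sum_filter, Complex.ofReal_sum]
    refine Finset.sum_congr ?_ fun d hd => ?_
    · ext d
      simp only [Nat.mem_divisors, Finset.mem_filter]
      constructor
      · rintro ⟨h3, _⟩
        exact ⟨⟨h3.trans (Nat.gcd_dvd_left _ _), by omega⟩, h3.trans (Nat.gcd_dvd_right _ _)⟩
      · rintro ⟨⟨h3, _⟩, h4⟩
        exact ⟨Nat.dvd_gcd h3 h4, (Nat.gcd_pos_of_pos_left _ hn).ne'⟩
    · rw [Finset.mem_filter, Nat.mem_divisors] at hd
      obtain ⟨⟨⟨x, rfl⟩, _⟩, ⟨y, rfl⟩⟩ := hd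
      have hd0 : 0 < d := Nat.pos_of_ne_zero fun h => by rw [h, zero_mul] at hn; omega
      rw [Nat.mul_div_cancel_left _ hd0, Nat.mul_div_cancel_left _ hd0,
        show d * x * (d * y) = d * d * (x * y) by ring, Nat.mul_div_cancel_left _ (by positivity),
        ac_lam hf]
      have e1 : Real.sqrt ((d * x : ℕ) : ℝ) * Real.sqrt ((d * y : ℕ) : ℝ) =
          d * Real.sqrt ((x * y : ℕ) : ℝ) := by
        rw [← Real.sqrt_mul (Nat.cast_nonneg _)]
        have : (((d * x : ℕ) : ℝ) * ((d * y : ℕ) : ℝ)) = (d : ℝ) ^ 2 * ((x * y : ℕ) : ℝ) := by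
          push_cast; ring
        rw [this, Real.sqrt_mul (by positivity), Real.sqrt_sq (Nat.cast_nonneg _)]
      rw [e1]
      push_cast
      ring

/-- the Hecke operators pointwise -/
theorem hecke_pt {f : SF N 2} {ε : ℝ} (hf : W388.IsNewf N 2 f ε) {n : ℕ} (hn : 1 ≤ n)
    (hnN : ∀ p ∈ n.primeFactors, ¬ p ∣ N) (z : ℍ) :
    ((Real.sqrt n * W388.lamf f n : ℝ) : ℂ) * (f z * z.im) =
      ∑ d ∈ n.divisors, ∑ b ∈ Finset.range d, f (tpt (n / d) b d z) * (tpt (n / d) b d z).im := by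
  have hpos : ∀ d ∈ n.divisors, 0 < n / d ∧ 0 < d := by
    intro d hd
    have h1 := Nat.mem_divisors.1 hd
    have h2 : 0 < d := Nat.pos_of_mem_divisors hd
    exact ⟨Nat.div_pos (Nat.le_of_dvd hn h1.1) h2, h2⟩
  have h1 : HasSum (fun M : ℕ => ∑ d ∈ n.divisors, (((n / d : ℕ) : ℂ) / d) *
      (if (n / d) ∣ M then (d : ℂ) * ac f (d * (M / (n / d))) *
      Complex.exp (2 * Real.pi * Complex.I * M * z) else 0))
      (∑ d ∈ n.divisors, (((n / d : ℕ) : ℂ) / d) * ∑ b ∈ Finset.range d, f (tpt (n / d) b d z)) :=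
    hasSum_sum fun d hd => (hasSum_tp f z (hpos d hd).1 (hpos d hd).2).mul_left _
  have h2 := (hasSum_E f z).mul_left (ac f n)
  have h3 : (fun M : ℕ => ∑ d ∈ n.divisors, (((n / d : ℕ) : ℂ) / d) *
      (if (n / d) ∣ M then (d : ℂ) * ac f (d * (M / (n / d))) *
      Complex.exp (2 * Real.pi * Complex.I * M * z) else 0)) =
      fun M : ℕ => ac f n * (ac f M * Complex.exp (2 * Real.pi * Complex.I * M * z)) := by
    ext M
    rw [← mul_assoc, ac_mul hf hn hnN M, Finset.sum_mul, ← Nat.sum_div_divisors n]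
    refine Finset.sum_congr rfl fun d hd => ?_
    obtain ⟨ha, hd0⟩ := hpos d hd
    have e1 : n / (n / d) = d := Nat.div_div_self (Nat.mem_divisors.1 hd).1 (by omega)
    rw [e1]
    have hdc : (d : ℂ) ≠ 0 := by exact_mod_cast hd0.ne'
    have hnc : ((n / d : ℕ) : ℂ) ≠ 0 := by exact_mod_cast ha.ne'
    split_ifs
    · field_simp
    · ring
  rw [h3] at h1
  have h4 := h2.unique h1
  rw [← ac_lam hf n, ← mul_assoc, h4, Finset.sum_mul]
  refine Finset.sum_congr rfl fun d hd => ?_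
  obtain ⟨ha, hd0⟩ := hpos d hd
  rw [mul_assoc, Finset.sum_mul, Finset.mul_sum]
  refine Finset.sum_congr rfl fun b _ => ?_
  rw [im_tpt ha hd0]
  push_cast
  ring

end Pool.Agent.H485.CC
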