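import Pool.Agent.H485.CC.Pf4

/-!
# Counting the bad cosets
-/

set_option autoImplicit false
set_option maxHeartbeats 4000000

open Filter Topology Set UpperHalfPlane MatrixGroups CongruenceSubgroup
open scoped Modular

namespace Pool.Agent.H485.CC

open Pool.Agent.W165.RS (im_fd)

open Polynomial in
lemma quad_zero {R : Type} [CommRing R] {a b c : R} (h : (C a * X ^ 2 + C b * X + C c : R[X]) = 0) :
    a = 0 ∧ b = 0 ∧ c = 0 := by
  have c2 : (C a * X ^ 2 + C b * X + C c : R[X]).coeff 2 = a := by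
    simp [Polynomial.coeff_X, Polynomial.coeff_C]
  have c1 : (C a * X ^ 2 + C b * X + C c : R[X]).coeff 1 = b := by
    simp [Polynomial.coeff_C, Polynomial.coeff_X_pow]
  have c0 : (C a * X ^ 2 + C b * X + C c : R[X]).coeff 0 = c := by
    simp
  rw [h, Polynomial.coeff_zero] at c2 c1 c0
  exact ⟨c2.symm, c1.symm, c0.symm⟩

open Polynomial in
/-- few cosets are fixed by a matrix which is not scalar modulo `N` -/
theorem fixed_le {N : ℕ} (hN : N.Prime) [Fintype (SL(2, ℤ) ⧸ Gamma0 N)]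
    (g : SL(2, ℤ))
    (hg : ¬ (((g 1 0 : ℤ) : ZMod N) = 0 ∧ ((g 0 1 : ℤ) : ZMod N) = 0 ∧
      ((g 0 0 : ℤ) : ZMod N) = ((g 1 1 : ℤ) : ZMod N)))
    (s : Finset (SL(2, ℤ) ⧸ Gamma0 N))
    (hs : ∀ γ ∈ s, (Quotient.out γ)⁻¹ * g * Quotient.out γ ∈ Gamma0 N) : s.card ≤ 3 := by
  classical
  have : Fact N.Prime := ⟨hN⟩
  set P : (ZMod N)[X] := C ((g 1 0 : ℤ) : ZMod N) * X ^ 2 +
    C (((g 1 1 : ℤ) : ZMod N) - ((g 0 0 : ℤ) : ZMod N)) * X + C (-((g 0 1 : ℤ) : ZMod N)) with hP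
  have hP0 : P ≠ 0 := by
    intro h0
    apply hg
    rw [hP] at h0
    obtain ⟨c2, c1, c0⟩ := quad_zero h0
    exact ⟨c2, neg_eq_zero.1 c0, (sub_eq_zero.1 c1).symm⟩
  have hdeg : P.natDegree ≤ 2 := by
    rw [hP]
    exact Polynomial.natDegree_quadratic_le
  have hroots : P.roots.toFinset.card ≤ 2 := by
    refine (Multiset.toFinset_card_le _).trans ((Polynomial.card_roots' P).trans hdeg)
  set φ : SL(2, ℤ) ⧸ Gamma0 N → Option (ZMod N) := fun γ =>
    if (((Quotient.out γ : SL(2, ℤ)) 1 0 : ℤ) : ZMod N) = 0 then none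
    else some ((((Quotient.out γ : SL(2, ℤ)) 0 0 : ℤ) : ZMod N) /
      (((Quotient.out γ : SL(2, ℤ)) 1 0 : ℤ) : ZMod N)) with hφ
  have hinv : ∀ q : SL(2, ℤ), (q⁻¹ : SL(2, ℤ)).1 = !![q 1 1, -q 0 1; -q 1 0, q 0 0] := by
    intro q
    rw [Matrix.SpecialLinearGroup.coe_inv, Matrix.adjugate_fin_two]
  have hinj : Function.Injective φ := by
    intro γ γ' h
    have e1 : (QuotientGroup.mk (Quotient.out γ) : SL(2, ℤ) ⧸ Gamma0 N) = γ := QuotientGroup.out_eq' γ
    have e2 : (QuotientGroup.mk (Quotient.out γ') : SL(2, ℤ) ⧸ Gamma0 N) = γ' := QuotientGroup.out_eq' γ'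
    rw [← e1, ← e2, QuotientGroup.eq, Gamma0_mem]
    have e3 : ((Quotient.out γ)⁻¹ * Quotient.out γ' : SL(2, ℤ)) 1 0 =
        -(Quotient.out γ : SL(2, ℤ)) 1 0 * (Quotient.out γ' : SL(2, ℤ)) 0 0 +
        (Quotient.out γ : SL(2, ℤ)) 0 0 * (Quotient.out γ' : SL(2, ℤ)) 1 0 := by
      rw [Matrix.SpecialLinearGroup.coe_mul, hinv, Matrix.mul_apply, Fin.sum_univ_two]
      simp
    rw [e3]
    push_cast
    simp only [hφ] at h
    split_ifs at h with h1 h2
    · rw [h1, h2]; ring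
    · have h3 := Option.some.inj h
      rw [div_eq_div_iff (by assumption) (by assumption)] at h3
      linear_combination h3
  have himg : s.image φ ⊆ insert none (P.roots.toFinset.image some) := by
    intro o ho
    rw [Finset.mem_image] at ho
    obtain ⟨γ, hγ, rfl⟩ := ho
    rw [Finset.mem_insert]
    simp only [hφ]
    split_ifs with h1
    · exact Or.inl rfl
    · right
      rw [Finset.mem_image]
      refine ⟨_, ?_, rfl⟩
      rw [Multiset.mem_toFinset, Polynomial.mem_roots hP0, Polynomial.IsRoot.def]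
      have h2 := hs γ hγ
      rw [Gamma0_mem] at h2
      set q : SL(2, ℤ) := Quotient.out γ with hq
      have e3 : (q⁻¹ * g * q : SL(2, ℤ)) 1 0 = g 1 0 * q 0 0 ^ 2 +
          (g 1 1 - g 0 0) * (q 0 0 * q 1 0) - g 0 1 * q 1 0 ^ 2 := by
        rw [Matrix.SpecialLinearGroup.coe_mul, Matrix.SpecialLinearGroup.coe_mul, hinv,
          Matrix.mul_apply, Fin.sum_univ_two, Matrix.mul_apply, Fin.sum_univ_two,
          Matrix.mul_apply, Fin.sum_univ_two]
        simp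
        ring
      rw [e3] at h2
      push_cast at h2
      rw [hP]
      simp only [Polynomial.eval_add, Polynomial.eval_mul, Polynomial.eval_C, Polynomial.eval_pow,
        Polynomial.eval_X]
      field_simp
      linear_combination h2
  have hcard := Finset.card_le_card himg
  rw [Finset.card_image_of_injective s hinj] at hcard
  refine hcard.trans ((Finset.card_insert_le _ _).trans ?_)
  have := Finset.card_image_le (s := P.roots.toFinset) (f := (some : ZMod N → Option (ZMod N)))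
  omega

/-- the matrices with small entries -/
def GK (K : ℕ) : Set SL(2, ℤ) := {g | (∀ i j, |g i j| ≤ (K : ℤ)) ∧ g ≠ 1 ∧ g ≠ -1}

lemma GK_fin (K : ℕ) : ∃ S : Finset SL(2, ℤ), (∀ g, g ∈ GK K → g ∈ S) ∧ (∀ g ∈ S, g ∈ GK K) ∧
    S.card ≤ (2 * K + 1) ^ 4 := by
  classical
  set φ : SL(2, ℤ) → (ℤ × ℤ) × (ℤ × ℤ) := fun g => ((g 0 0, g 0 1), (g 1 0, g 1 1)) with hφ
  have hinj : Function.Injective φ := by
    intro g h hgh
    simp only [hφ, Prod.mk.injEq] at hgh
    obtain ⟨⟨h1, h2⟩, h3, h4⟩ := hgh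
    apply Matrix.SpecialLinearGroup.ext
    intro i j
    fin_cases i <;> fin_cases j
    · exact h1
    · exact h2
    · exact h3
    · exact h4
  set T : Finset ((ℤ × ℤ) × (ℤ × ℤ)) := (Finset.Icc (-(K : ℤ)) K ×ˢ Finset.Icc (-(K : ℤ)) K) ×ˢ
    (Finset.Icc (-(K : ℤ)) K ×ˢ Finset.Icc (-(K : ℤ)) K) with hT
  have hmem : ∀ g ∈ GK K, φ g ∈ T := by
    intro g hg
    simp only [hT, hφ, Finset.mem_product, Finset.mem_Icc]
    exact ⟨⟨abs_le.1 (hg.1 0 0), abs_le.1 (hg.1 0 1)⟩, abs_le.1 (hg.1 1 0), abs_le.1 (hg.1 1 1)⟩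
  have hfin : (GK K).Finite := by
    refine Set.Finite.of_finite_image (f := φ) ?_ hinj.injOn
    refine (Finset.finite_toSet T).subset ?_
    rintro _ ⟨g, hg, rfl⟩
    exact hmem g hg
  refine ⟨hfin.toFinset, fun g hg => hfin.mem_toFinset.2 hg, fun g hg => hfin.mem_toFinset.1 hg, ?_⟩
  have h1 : (hfin.toFinset.image φ) ⊆ T := by
    intro x hx
    rw [Finset.mem_image] at hx
    obtain ⟨g, hg, rfl⟩ := hx
    exact hmem g (hfin.mem_toFinset.1 hg)
  have h2 := Finset.card_le_card h1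
  rw [Finset.card_image_of_injective _ hinj] at h2
  refine h2.trans (le_of_eq ?_)
  rw [hT, Finset.card_product, Finset.card_product, Int.card_Icc]
  have : (((K : ℤ) + 1 - -(K : ℤ)).toNat) = 2 * K + 1 := by omega
  rw [this]
  ring

/-- the bad cosets -/
theorem bad_card {N : ℕ} (hN : N.Prime) [Fintype (SL(2, ℤ) ⧸ Gamma0 N)] {K : ℕ} (hK : 2 * K < N)
    (s : Finset (SL(2, ℤ) ⧸ Gamma0 N))
    (hs : ∀ γ ∈ s, ∃ g ∈ GK K, (Quotient.out γ)⁻¹ * g * Quotient.out γ ∈ Gamma0 N) :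
    s.card ≤ 3 * (2 * K + 1) ^ 4 := by
  classical
  obtain ⟨S, hS1, hS2, hS3⟩ := GK_fin K
  have hsub : s ⊆ S.biUnion fun g => s.filter fun γ => (Quotient.out γ)⁻¹ * g * Quotient.out γ ∈ Gamma0 N := by
    intro γ hγ
    obtain ⟨g, hg, hgN⟩ := hs γ hγ
    rw [Finset.mem_biUnion]
    exact ⟨g, hS1 g hg, Finset.mem_filter.2 ⟨hγ, hgN⟩⟩
  refine (Finset.card_le_card hsub).trans (Finset.card_biUnion_le.trans ?_)
  refine (Finset.sum_le_card_nsmul _ _ 3 fun g hg => ?_).trans ?_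
  · have hg' := hS2 g hg
    refine fixed_le hN g ?_ _ fun γ hγ => (Finset.mem_filter.1 hγ).2
    rintro ⟨h1, h2, h3⟩
    have key : ∀ x : ℤ, |x| < N → ((x : ℤ) : ZMod N) = 0 → x = 0 := by
      intro x hx h0
      have hd := (ZMod.intCast_zmod_eq_zero_iff_dvd x N).1 h0
      exact Int.eq_zero_of_abs_lt_dvd hd hx
    have hb := hg'.1
    have hKN : (2 : ℤ) * K < N := by exact_mod_cast hK
    have hK0 : (0 : ℤ) ≤ K := by positivity
    have a1 : g 1 0 = 0 := key _ (by have := hb 1 0; omega) h1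
    have a2 : g 0 1 = 0 := key _ (by have := hb 0 1; omega) h2
    have a3 : g 0 0 - g 1 1 = 0 := by
      apply key
      · have h5 := abs_le.1 (hb 0 0)
        have h6 := abs_le.1 (hb 1 1)
        rw [abs_lt]
        constructor <;> omega
      · push_cast
        rw [h3, sub_self]
    have hdet := g.det_coe
    rw [Matrix.det_fin_two, a1, a2] at hdet
    have a4 : g 0 0 * g 0 0 = 1 := by
      have : g 1 1 = g 0 0 := by omega
      rw [this] at hdet
      linarith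
    have a5 : g 0 0 = 1 ∨ g 0 0 = -1 := by
      have h7 : (g 0 0 - 1) * (g 0 0 + 1) = 0 := by linear_combination a4
      rcases mul_eq_zero.1 h7 with h | h
      · left; omega
      · right; omega
    rcases a5 with h | h
    · apply hg'.2.1
      apply Matrix.SpecialLinearGroup.ext
      intro i j
      fin_cases i <;> fin_cases j
      · exact h
      · exact a2
      · exact a1
      · show g 1 1 = 1
        omega
    · apply hg'.2.2
      apply Matrix.SpecialLinearGroup.ext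
      intro i j
      fin_cases i <;> fin_cases j
      · exact h
      · show g 0 1 = -0
        rw [a2]; rfl
      · show g 1 0 = -0
        rw [a1]; rfl
      · show g 1 1 = -1
        omega
  · rw [nsmul_eq_mul]
    push_cast
    calc (S.card : ℕ) * 3 ≤ (2 * K + 1) ^ 4 * 3 := Nat.mul_le_mul_right 3 hS3
      _ = _ := by ring

/-- a matrix which moves a point of the fundamental domain by a short distance has small entries -/
theorem entries_le {z : ℍ} (hz : z ∈ (ModularGroup.fd : Set ℍ)) {Y r : ℝ} (hY : z.im ≤ Y) (hY1 : 1 ≤ Y)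
    (hr : 0 < r) (g : SL(2, ℤ)) (hg : dist z (g • z) < 2 * r) (i j : Fin 2) :
    |((g i j : ℤ) : ℝ)| ≤ 5 * Y * Real.exp (3 * r) := by
  set E : ℝ := Real.exp r with hE
  have hE1 : 1 ≤ E := Real.one_le_exp hr.le
  have hE3 : Real.exp (3 * r) = E ^ 3 := by
    rw [hE, ← Real.exp_nat_mul]; norm_num
  have hE2 : Real.exp (2 * r) = E ^ 2 := by
    rw [hE, ← Real.exp_nat_mul]; norm_num
  have hy0 : 0 < z.im := z.im_pos
  have hx : |z.re| ≤ 1 / 2 := hz.2
  have hy : 1 / 2 ≤ z.im := im_fd hz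
  have him := ModularGroup.im_smul_eq_div_normSq g z
  have hns0 : 0 < Complex.normSq (denom g z) := by
    rw [Complex.normSq_eq_norm_sq]
    exact pow_pos (norm_pos_iff.2 (denom_ne_zero g z)) 2
  have h1 : Complex.normSq (denom g z) ≤ E ^ 2 := by
    have h2 := UpperHalfPlane.im_le_im_mul_exp_dist z (g • z)
    have h3 : z.im ≤ (g • z).im * E ^ 2 := by
      refine h2.trans (mul_le_mul_of_nonneg_left ?_ (g • z).im_pos.le)
      rw [← hE2]
      exact Real.exp_le_exp.2 hg.le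
    rw [him, div_mul_eq_mul_div, le_div_iff₀ hns0] at h3
    exact le_of_mul_le_mul_left h3 hy0
  have h1n : ‖denom g z‖ ≤ E := by
    rw [Complex.normSq_eq_norm_sq] at h1
    exact (pow_le_pow_iff_left₀ (norm_nonneg _) (by linarith) (by norm_num)).1 h1
  have hd : denom g z = ((g 1 0 : ℤ) : ℂ) * z + ((g 1 1 : ℤ) : ℂ) := by
    rw [ModularGroup.denom_apply]
  have hn : ‖((g 0 0 : ℤ) : ℂ) * z + ((g 0 1 : ℤ) : ℂ)‖ ≤ (2 + E ^ 2) * E * z.im := by
    have h2 : ((g • z : ℍ) : ℂ) = (((g 0 0 : ℤ) : ℂ) * z + ((g 0 1 : ℤ) : ℂ)) / denom g z := by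
      rw [UpperHalfPlane.coe_specialLinearGroup_apply, hd]
      simp
    have hdn : denom g z ≠ 0 := denom_ne_zero g z
    have h3 : ((g 0 0 : ℤ) : ℂ) * z + ((g 0 1 : ℤ) : ℂ) = ((g • z : ℍ) : ℂ) * denom g z := by
      rw [h2, div_mul_cancel₀ _ hdn]
    rw [h3, norm_mul]
    have h4 : ‖((g • z : ℍ) : ℂ)‖ ≤ (2 + E ^ 2) * z.im := by
      have h5 := UpperHalfPlane.dist_coe_le (g • z) z
      have h6 : dist ((g • z : ℍ) : ℂ) z ≤ z.im * E ^ 2 := by
        refine h5.trans (mul_le_mul_of_nonneg_left ?_ hy0.le)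
        have h7 : Real.exp (dist (g • z) z) ≤ E ^ 2 := by
          rw [← hE2, dist_comm]
          exact Real.exp_le_exp.2 hg.le
        linarith
      rw [dist_eq_norm] at h6
      have h8 : ‖(z : ℂ)‖ ≤ 2 * z.im := by
        refine (Complex.norm_le_abs_re_add_abs_im _).trans ?_
        have e1 : |(z : ℂ).re| = |z.re| := rfl
        have e2 : |(z : ℂ).im| = z.im := by
          show |z.im| = z.im
          exact abs_of_pos hy0
        rw [e1, e2]
        linarith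
      calc ‖((g • z : ℍ) : ℂ)‖ = ‖(((g • z : ℍ) : ℂ) - z) + z‖ := by rw [sub_add_cancel]
        _ ≤ _ := norm_add_le _ _
        _ ≤ z.im * E ^ 2 + 2 * z.im := add_le_add h6 h8
        _ = _ := by ring
    calc ‖((g • z : ℍ) : ℂ)‖ * ‖denom g z‖ ≤ ((2 + E ^ 2) * z.im) * E :=
          mul_le_mul h4 h1n (norm_nonneg _) (by positivity)
      _ = _ := by ring
  have hrow : ∀ (a b : ℤ) (M : ℝ), ‖((a : ℤ) : ℂ) * z + ((b : ℤ) : ℂ)‖ ≤ M →
      |(a : ℝ)| * z.im ≤ M ∧ |(b : ℝ)| ≤ M + |(a : ℝ)| / 2 := by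
    intro a b M h
    have hre : (((a : ℤ) : ℂ) * z + ((b : ℤ) : ℂ)).re = a * z.re + b := by simp
    have him' : (((a : ℤ) : ℂ) * z + ((b : ℤ) : ℂ)).im = a * z.im := by simp
    have h2 := (Complex.abs_re_le_norm (((a : ℤ) : ℂ) * z + ((b : ℤ) : ℂ))).trans h
    have h3 := (Complex.abs_im_le_norm (((a : ℤ) : ℂ) * z + ((b : ℤ) : ℂ))).trans h
    rw [hre] at h2
    rw [him', abs_mul, abs_of_pos hy0] at h3
    refine ⟨h3, ?_⟩
    calc |(b : ℝ)| = |(a * z.re + b) - a * z.re| := by congr 1; ring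
      _ ≤ |(a * z.re + b : ℝ)| + |(a : ℝ) * z.re| := abs_sub _ _
      _ ≤ M + |(a : ℝ)| / 2 := by
        rw [abs_mul]
        have := mul_le_mul_of_nonneg_left hx (abs_nonneg (a : ℝ))
        linarith
  rw [hd] at h1n
  obtain ⟨c1, c2⟩ := hrow _ _ _ h1n
  obtain ⟨a1, a2⟩ := hrow _ _ _ hn
  have hc : |((g 1 0 : ℤ) : ℝ)| ≤ 2 * E := by
    have := mul_le_mul_of_nonneg_left hy (abs_nonneg ((g 1 0 : ℤ) : ℝ))
    linarith
  have ha : |((g 0 0 : ℤ) : ℝ)| ≤ 3 * E ^ 3 := by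
    have h2 : |((g 0 0 : ℤ) : ℝ)| ≤ (2 + E ^ 2) * E := le_of_mul_le_mul_right a1 hy0
    refine h2.trans ?_
    have : 2 * E ≤ 2 * E ^ 3 := by nlinarith [mul_nonneg (by linarith : (0:ℝ) ≤ E - 1) (by positivity : (0:ℝ) ≤ E * (E + 1))]
    nlinarith
  have hEE : E ≤ E ^ 3 := by nlinarith [mul_nonneg (by linarith : (0:ℝ) ≤ E - 1) (by positivity : (0:ℝ) ≤ E * (E + 1))]
  have hE0 : 0 < E := by linarith
  have hYE : E ^ 3 ≤ Y * E ^ 3 := le_mul_of_one_le_left (by positivity) hY1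
  have hb : |((g 0 1 : ℤ) : ℝ)| ≤ 5 * Y * E ^ 3 := by
    have h2 : (2 + E ^ 2) * E * z.im ≤ 3 * E ^ 3 * Y := by
      apply mul_le_mul _ hY hy0.le (by positivity)
      nlinarith
    linarith
  have hdd : |((g 1 1 : ℤ) : ℝ)| ≤ 2 * E := by linarith
  rw [hE3]
  fin_cases i <;> fin_cases j
  · show |((g 0 0 : ℤ) : ℝ)| ≤ _
    linarith
  · exact hb
  · show |((g 1 0 : ℤ) : ℝ)| ≤ _
    linarith
  · show |((g 1 1 : ℤ) : ℝ)| ≤ _
    linarith

/-- the points of the good cosets are good -/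
theorem good_pt {N : ℕ} {z : ℍ} (hz : z ∈ (ModularGroup.fd : Set ℍ)) {Y r : ℝ} (hY : z.im ≤ Y)
    (hY1 : 1 ≤ Y) (hr : 0 < r) {K : ℕ} (hK : 5 * Y * Real.exp (3 * r) ≤ K) {q : SL(2, ℤ)}
    (hq : ¬ ∃ g ∈ GK K, q⁻¹ * g * q ∈ Gamma0 N) (δ : SL(2, ℤ)) (hδ : δ ∈ Gamma0 N)
    (hd : dist (q⁻¹ • z) (δ • (q⁻¹ • z)) < 2 * r) : δ = 1 ∨ δ = -1 := by
  by_contra hcon
  push Not at hcon
  apply hq
  refine ⟨q * δ * q⁻¹, ⟨fun i j => ?_, fun h => hcon.1 ?_, fun h => hcon.2 ?_⟩, ?_⟩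
  · have h1 : dist z ((q * δ * q⁻¹) • z) < 2 * r := by
      rw [← dist_SL q] at hd
      rw [smul_inv_smul] at hd
      rw [mul_smul, mul_smul]
      exact hd
    have h2 := (entries_le hz hY hY1 hr _ h1 i j).trans hK
    exact_mod_cast h2
  · have : δ = q⁻¹ * (q * δ * q⁻¹) * q := by group
    rw [this, h]; group
  · have : δ = q⁻¹ * (q * δ * q⁻¹) * q := by group
    rw [this, h]
    simp
  · have : q⁻¹ * (q * δ * q⁻¹) * q = δ := by group
    rw [this]
    exact hδ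

end Pool.Agent.H485.CC
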