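import Pool.Agent.H485.CC.Nv2
import Pool.Agent.H485.CC.Pf5

/-!
# Integer matrices acting on the half plane
-/

set_option autoImplicit false
set_option maxHeartbeats 1000000

open UpperHalfPlane CongruenceSubgroup MatrixGroups Matrix
open scoped Modular

namespace Pool.Agent.H485.CC

open Pool.Agent.W165.RS (im_fd)

/-- an integer matrix of positive determinant as an element of `SL(2,ℝ)` -/
noncomputable def mmA (M : Matrix (Fin 2) (Fin 2) ℤ) (h : 0 < M.det) : SL(2, ℝ) :=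
  ⟨(Real.sqrt (M.det : ℝ))⁻¹ • (M.map (Int.cast : ℤ → ℝ)), by
    have hd : (0 : ℝ) < M.det := by exact_mod_cast h
    have hs : Real.sqrt (M.det : ℝ) ≠ 0 := (Real.sqrt_pos.2 hd).ne'
    have h2 : Real.sqrt (M.det : ℝ) * Real.sqrt (M.det : ℝ) = M.det := Real.mul_self_sqrt hd.le
    rw [Matrix.det_fin_two]
    simp only [Matrix.smul_apply, Matrix.map_apply, smul_eq_mul]
    have h3 : ((M.det : ℤ) : ℝ) = (M 0 0 : ℝ) * M 1 1 - M 0 1 * M 1 0 := by
      rw [Matrix.det_fin_two]; push_cast; ring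
    field_simp
    rw [sq, h2, h3]⟩

open Classical in
/-- an integer matrix of positive determinant as an element of `SL(2,ℝ)` -/
noncomputable def mmv (M : Matrix (Fin 2) (Fin 2) ℤ) : SL(2, ℝ) :=
  if h : 0 < M.det then mmA M h else 1

lemma mm_apply {M : Matrix (Fin 2) (Fin 2) ℤ} (h : 0 < M.det) (i j : Fin 2) :
    mmv M i j = (Real.sqrt (M.det : ℝ))⁻¹ * (M i j : ℝ) := by
  have h1 : mmv M = mmA M h := dif_pos h
  rw [h1]
  rfl

lemma sq_pos_det {M : Matrix (Fin 2) (Fin 2) ℤ} (h : 0 < M.det) : 0 < Real.sqrt (M.det : ℝ) :=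
  Real.sqrt_pos.2 (by exact_mod_cast h)

lemma mm_mul {A B : Matrix (Fin 2) (Fin 2) ℤ} (hA : 0 < A.det) (hB : 0 < B.det) :
    mmv (A * B) = mmv A * mmv B := by
  have hAB : 0 < (A * B).det := by rw [Matrix.det_mul]; exact mul_pos hA hB
  apply Matrix.SpecialLinearGroup.ext
  intro i j
  rw [Matrix.SpecialLinearGroup.coe_mul, Matrix.mul_apply, Fin.sum_univ_two]
  have e1 : ∀ i j, (mmv A : Matrix (Fin 2) (Fin 2) ℝ) i j = (Real.sqrt (A.det : ℝ))⁻¹ * (A i j : ℝ) :=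
    mm_apply hA
  have e2 : ∀ i j, (mmv B : Matrix (Fin 2) (Fin 2) ℝ) i j = (Real.sqrt (B.det : ℝ))⁻¹ * (B i j : ℝ) :=
    mm_apply hB
  rw [e1, e1, e2, e2]
  have e3 : (mmv (A * B) : Matrix (Fin 2) (Fin 2) ℝ) i j =
      (Real.sqrt ((A * B).det : ℝ))⁻¹ * ((A * B) i j : ℝ) := mm_apply hAB i j
  rw [e3, Matrix.det_mul, Int.cast_mul, Real.sqrt_mul (by exact_mod_cast hA.le), mul_inv,
    Matrix.mul_apply, Fin.sum_univ_two]
  push_cast
  ring

lemma coe_mm {M : Matrix (Fin 2) (Fin 2) ℤ} (h : 0 < M.det) (z : ℍ) :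
    ((mmv M • z : ℍ) : ℂ) = ((M 0 0 : ℂ) * z + M 0 1) / ((M 1 0 : ℂ) * z + M 1 1) := by
  have hs := sq_pos_det h
  rw [coe_specialLinearGroup_apply, mm_apply h, mm_apply h, mm_apply h, mm_apply h]
  simp only [Algebra.algebraMap_self, RingHom.id_apply]
  generalize Real.sqrt (M.det : ℝ) = s at hs
  have hc : (s : ℂ) ≠ 0 := by exact_mod_cast hs.ne'
  have key : ∀ x : ℤ, ((s⁻¹ * (x : ℝ) : ℝ) : ℂ) = (s : ℂ)⁻¹ * (x : ℂ) := fun x => by push_cast; ring
  rw [key, key, key, key]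
  rw [show (s : ℂ)⁻¹ * (M 0 0 : ℂ) * z + (s : ℂ)⁻¹ * (M 0 1 : ℂ) =
      (s : ℂ)⁻¹ * ((M 0 0 : ℂ) * z + M 0 1) by ring,
    show (s : ℂ)⁻¹ * (M 1 0 : ℂ) * z + (s : ℂ)⁻¹ * (M 1 1 : ℂ) =
      (s : ℂ)⁻¹ * ((M 1 0 : ℂ) * z + M 1 1) by ring]
  exact mul_div_mul_left _ _ (inv_ne_zero hc)

/-- the matrix `(a, b; 0, d)` -/
def sgm (a b d : ℕ) : Matrix (Fin 2) (Fin 2) ℤ := !![(a : ℤ), b; 0, d]

lemma det_sgm (a b d : ℕ) : (sgm a b d).det = a * d := by
  unfold sgm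
  rw [Matrix.det_fin_two]
  simp

lemma sgm_pos {a d : ℕ} (ha : 0 < a) (hd : 0 < d) (b : ℕ) : 0 < (sgm a b d).det := by
  rw [det_sgm]
  positivity

lemma mm_sgm {a d : ℕ} (ha : 0 < a) (hd : 0 < d) (b : ℕ) (z : ℍ) : mmv (sgm a b d) • z = tpt a b d z := by
  apply UpperHalfPlane.ext
  rw [coe_mm (sgm_pos ha hd b), coe_tpt ha hd]
  unfold sgm
  simp

/-- the Fricke matrix -/
def Wm (N : ℕ) : Matrix (Fin 2) (Fin 2) ℤ := !![0, -1; (N : ℤ), 0]

lemma det_Wm (N : ℕ) : (Wm N).det = N := by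
  unfold Wm
  rw [Matrix.det_fin_two]
  simp

lemma mm_W {N : ℕ} [NeZero N] (z : ℍ) : mmv (Wm N) • z = WN N • z := by
  have hN : 0 < N := Nat.pos_of_ne_zero (NeZero.ne N)
  apply UpperHalfPlane.ext
  rw [coe_mm (by rw [det_Wm]; exact_mod_cast hN), WN_smul]
  unfold Wm
  simp

lemma mm_SL (g : SL(2, ℤ)) (z : ℍ) : mmv g.1 • z = g • z := by
  apply UpperHalfPlane.ext
  rw [coe_mm (by rw [g.2]; exact one_pos), coe_specialLinearGroup_apply]
  rfl

lemma mm_one : mmv 1 = 1 := by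
  apply Matrix.SpecialLinearGroup.ext
  intro i j
  rw [mm_apply (by simp)]
  simp only [Matrix.det_one, Int.cast_one, Real.sqrt_one, inv_one, one_mul]
  fin_cases i <;> fin_cases j <;> simp

lemma mm_smul_mul {A B : Matrix (Fin 2) (Fin 2) ℤ} (hA : 0 < A.det) (hB : 0 < B.det) (z : ℍ) :
    mmv (A * B) • z = mmv A • (mmv B • z) := by
  rw [mm_mul hA hB, mul_smul]

lemma mm_adj {A : Matrix (Fin 2) (Fin 2) ℤ} (hA : 0 < A.det) (z : ℍ) :
    mmv A.adjugate • (mmv A • z) = z := by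
  have hA' : 0 < A.adjugate.det := by
    rw [Matrix.det_adjugate]
    simpa using hA
  rw [← mm_smul_mul hA' hA, Matrix.adjugate_mul]
  apply UpperHalfPlane.ext
  have hd : 0 < (A.det • (1 : Matrix (Fin 2) (Fin 2) ℤ)).det := by
    rw [Matrix.det_smul]
    simp only [Fintype.card_fin, Matrix.det_one, mul_one]
    positivity
  rw [coe_mm hd]
  have h0 : (A.det : ℂ) ≠ 0 := by exact_mod_cast hA.ne'
  simp only [Matrix.smul_apply, Matrix.one_apply_eq, smul_eq_mul, mul_one,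
    Matrix.one_apply_ne (show (0 : Fin 2) ≠ 1 by decide), Matrix.one_apply_ne (show (1 : Fin 2) ≠ 0 by decide),
    mul_zero, Int.cast_zero, zero_mul, add_zero, zero_add]
  rw [mul_div_assoc, mul_comm]
  field_simp

lemma dist_mm (M : SL(2, ℝ)) (z w : ℍ) : dist (M • z) (M • w) = dist z w := dist_smul M z w

/-- a real matrix which moves a point of the fundamental domain by a short distance has small
entries -/
theorem entR {z : ℍ} (hz : z ∈ (ModularGroup.fd : Set ℍ)) {Y r : ℝ} (hY : z.im ≤ Y) (hY1 : 1 ≤ Y)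
    (hr : 0 < r) (g : SL(2, ℝ)) (hg : dist z (g • z) < 2 * r) (i j : Fin 2) :
    |g i j| ≤ 5 * Y * Real.exp (3 * r) := by
  set E : ℝ := Real.exp r with hE
  have hE1 : 1 ≤ E := Real.one_le_exp hr.le
  have hE3 : Real.exp (3 * r) = E ^ 3 := by
    rw [hE, ← Real.exp_nat_mul]; norm_num
  have hE2 : Real.exp (2 * r) = E ^ 2 := by
    rw [hE, ← Real.exp_nat_mul]; norm_num
  have hy0 : 0 < z.im := z.im_pos
  have hx : |z.re| ≤ 1 / 2 := hz.2
  have hy : 1 / 2 ≤ z.im := im_fd hz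
  have hcoe : ((g • z : ℍ) : ℂ) = ((g 0 0 : ℂ) * z + g 0 1) / ((g 1 0 : ℂ) * z + g 1 1) := by
    rw [coe_specialLinearGroup_apply]
    simp
  set Dn : ℂ := (g 1 0 : ℂ) * z + g 1 1 with hDn
  have hdet : g 0 0 * g 1 1 - g 0 1 * g 1 0 = 1 := by
    have := g.2
    rw [Matrix.det_fin_two] at this
    exact this
  have hDre : Dn.re = g 1 0 * z.re + g 1 1 := by rw [hDn]; simp
  have hDim : Dn.im = g 1 0 * z.im := by rw [hDn]; simp
  have hDn0 : Dn ≠ 0 := by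
    intro h0
    have h1 : Dn.im = 0 := by rw [h0]; rfl
    have h2 : Dn.re = 0 := by rw [h0]; rfl
    rw [hDim] at h1
    rcases mul_eq_zero.1 h1 with h3 | h3
    · rw [hDre, h3, zero_mul, zero_add] at h2
      rw [h3, h2] at hdet
      simp at hdet
    · exact hy0.ne' h3
  have hns0 : 0 < Complex.normSq Dn := Complex.normSq_pos.2 hDn0
  have him : (g • z).im = z.im / Complex.normSq Dn := by
    rw [← coe_im, hcoe, Complex.div_im]
    have e1 : ((g 0 0 : ℂ) * z + g 0 1).im = g 0 0 * z.im := by simp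
    have e2 : ((g 0 0 : ℂ) * z + g 0 1).re = g 0 0 * z.re + g 0 1 := by simp
    rw [e1, e2, hDre, hDim, ← sub_div]
    congr 1
    linear_combination z.im * hdet
  have h1 : Complex.normSq Dn ≤ E ^ 2 := by
    have h2 := UpperHalfPlane.im_le_im_mul_exp_dist z (g • z)
    have h3 : z.im ≤ (g • z).im * E ^ 2 := by
      refine h2.trans (mul_le_mul_of_nonneg_left ?_ (g • z).im_pos.le)
      rw [← hE2]
      exact Real.exp_le_exp.2 hg.le
    rw [him, div_mul_eq_mul_div, le_div_iff₀ hns0] at h3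
    exact le_of_mul_le_mul_left h3 hy0
  have h1n : ‖Dn‖ ≤ E := by
    rw [Complex.normSq_eq_norm_sq] at h1
    exact (pow_le_pow_iff_left₀ (norm_nonneg _) (by linarith) (by norm_num)).1 h1
  have hn : ‖((g 0 0 : ℝ) : ℂ) * z + ((g 0 1 : ℝ) : ℂ)‖ ≤ (2 + E ^ 2) * E * z.im := by
    have h3 : ((g 0 0 : ℝ) : ℂ) * z + ((g 0 1 : ℝ) : ℂ) = ((g • z : ℍ) : ℂ) * Dn := by
      rw [hcoe, div_mul_cancel₀ _ hDn0]
    rw [h3, norm_mul]
    have h4 : ‖((g • z : ℍ) : ℂ)‖ ≤ (2 + E ^ 2) * z.im := by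
      have h5 := UpperHalfPlane.dist_coe_le (g • z) z
      have h6 : dist ((g • z : ℍ) : ℂ) z ≤ z.im * E ^ 2 := by
        refine h5.trans (mul_le_mul_of_nonneg_left ?_ hy0.le)
        have h7 : Real.exp (dist (g • z) z) ≤ E ^ 2 := by
          rw [← hE2, dist_comm]
          exact Real.exp_le_exp.2 hg.le
        linarith
      rw [dist_eq_norm] at h6
      have h8 : ‖(z : ℂ)‖ ≤ 2 * z.im := by
        refine (Complex.norm_le_abs_re_add_abs_im _).trans ?_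
        have e1 : |(z : ℂ).re| = |z.re| := rfl
        have e2 : |(z : ℂ).im| = z.im := by
          show |z.im| = z.im
          exact abs_of_pos hy0
        rw [e1, e2]
        linarith
      calc ‖((g • z : ℍ) : ℂ)‖ = ‖(((g • z : ℍ) : ℂ) - z) + z‖ := by rw [sub_add_cancel]
        _ ≤ _ := norm_add_le _ _
        _ ≤ z.im * E ^ 2 + 2 * z.im := add_le_add h6 h8
        _ = _ := by ring
    calc ‖((g • z : ℍ) : ℂ)‖ * ‖Dn‖ ≤ ((2 + E ^ 2) * z.im) * E :=
          mul_le_mul h4 h1n (norm_nonneg _) (by positivity)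
      _ = _ := by ring
  have hrow : ∀ (a b : ℝ) (M : ℝ), ‖(a : ℂ) * z + (b : ℂ)‖ ≤ M →
      |a| * z.im ≤ M ∧ |b| ≤ M + |a| / 2 := by
    intro a b M h
    have hre : ((a : ℂ) * z + (b : ℂ)).re = a * z.re + b := by simp
    have him' : ((a : ℂ) * z + (b : ℂ)).im = a * z.im := by simp
    have h2 := (Complex.abs_re_le_norm ((a : ℂ) * z + (b : ℂ))).trans h
    have h3 := (Complex.abs_im_le_norm ((a : ℂ) * z + (b : ℂ))).trans h
    rw [hre] at h2
    rw [him', abs_mul, abs_of_pos hy0] at h3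
    refine ⟨h3, ?_⟩
    calc |b| = |(a * z.re + b) - a * z.re| := by congr 1; ring
      _ ≤ |(a * z.re + b : ℝ)| + |a * z.re| := abs_sub _ _
      _ ≤ M + |a| / 2 := by
        rw [abs_mul]
        have := mul_le_mul_of_nonneg_left hx (abs_nonneg a)
        linarith
  obtain ⟨c1, c2⟩ := hrow _ _ _ h1n
  obtain ⟨a1, a2⟩ := hrow _ _ _ hn
  have hc : |g 1 0| ≤ 2 * E := by
    have := mul_le_mul_of_nonneg_left hy (abs_nonneg (g 1 0))
    linarith
  have ha : |g 0 0| ≤ 3 * E ^ 3 := by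
    have h2 : |g 0 0| ≤ (2 + E ^ 2) * E := le_of_mul_le_mul_right a1 hy0
    refine h2.trans ?_
    have : 2 * E ≤ 2 * E ^ 3 := by nlinarith [mul_nonneg (by linarith : (0:ℝ) ≤ E - 1) (by positivity : (0:ℝ) ≤ E * (E + 1))]
    nlinarith
  have hEE : E ≤ E ^ 3 := by nlinarith [mul_nonneg (by linarith : (0:ℝ) ≤ E - 1) (by positivity : (0:ℝ) ≤ E * (E + 1))]
  have hE0 : 0 < E := by linarith
  have hYE : E ^ 3 ≤ Y * E ^ 3 := le_mul_of_one_le_left (by positivity) hY1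
  have hb : |g 0 1| ≤ 5 * Y * E ^ 3 := by
    have h2 : (2 + E ^ 2) * E * z.im ≤ 3 * E ^ 3 * Y := by
      apply mul_le_mul _ hY hy0.le (by positivity)
      nlinarith
    linarith
  have hdd : |g 1 1| ≤ 2 * E := by linarith
  rw [hE3]
  fin_cases i <;> fin_cases j
  · show |g 0 0| ≤ _
    linarith
  · exact hb
  · show |g 1 0| ≤ _
    linarith
  · show |g 1 1| ≤ _
    linarith

/-- the entries of an integer matrix -/
theorem entM {z : ℍ} (hz : z ∈ (ModularGroup.fd : Set ℍ)) {Y r : ℝ} (hY : z.im ≤ Y) (hY1 : 1 ≤ Y)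
    (hr : 0 < r) {M : Matrix (Fin 2) (Fin 2) ℤ} (hM : 0 < M.det) (hg : dist z (mmv M • z) < 2 * r)
    (i j : Fin 2) : |(M i j : ℝ)| ≤ 5 * Y * Real.exp (3 * r) * Real.sqrt (M.det : ℝ) := by
  have h := entR hz hY hY1 hr (mmv M) hg i j
  have hs := sq_pos_det hM
  rw [mm_apply hM, abs_mul, abs_of_pos (inv_pos.2 hs), inv_mul_eq_div, div_le_iff₀ hs] at h
  exact h

end Pool.Agent.H485.CC
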