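import Pool.Agent.H485.CC.Nv3

/-!
# Counting the bad cosets
-/

set_option autoImplicit false
set_option maxHeartbeats 1000000

open UpperHalfPlane CongruenceSubgroup MatrixGroups Matrix
open scoped Modular

namespace Pool.Agent.H485.CC

lemma pow4_le (v : ℕ) : (v + 1) ^ 4 ≤ 81 * 2 ^ v := by
  rcases Nat.lt_or_ge v 5 with h | h
  · interval_cases v <;> norm_num
  · obtain ⟨w, rfl⟩ := Nat.exists_eq_add_of_le h
    clear h
    induction w with
    | zero => norm_num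
    | succ w ih =>
      have e : 2 * (5 + w + 1) ^ 4 = (5 + (w + 1) + 1) ^ 4 + (w ^ 4 + 20 * w ^ 3 + 138 * w ^ 2 + 356 * w + 191) := by
        ring
      have e2 : 81 * 2 ^ (5 + (w + 1)) = 2 * (81 * 2 ^ (5 + w)) := by ring
      rw [e2]
      omega

/-- the divisor bound -/
theorem card_div_le {n : ℕ} (hn : n ≠ 0) : n.divisors.card ^ 4 ≤ 81 ^ 6 * n := by
  rw [Nat.card_divisors hn, ← Finset.prod_pow]
  have h1 : ∀ p ∈ n.primeFactors, (n.factorization p + 1) ^ 4 ≤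
      (if p < 16 then 81 else 1) * p ^ n.factorization p := by
    intro p hp
    have hpp := (Nat.mem_primeFactors.1 hp).1
    split_ifs with h
    · exact (pow4_le _).trans (Nat.mul_le_mul_left _ (Nat.pow_le_pow_left hpp.two_le _))
    · push Not at h
      rw [one_mul]
      have h2 : n.factorization p + 1 ≤ 2 ^ n.factorization p := Nat.lt_two_pow_self
      calc (n.factorization p + 1) ^ 4 ≤ (2 ^ n.factorization p) ^ 4 := Nat.pow_le_pow_left h2 4
        _ = 16 ^ n.factorization p := by rw [← pow_mul, mul_comm, pow_mul]; norm_num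
        _ ≤ _ := Nat.pow_le_pow_left h _
  refine (Finset.prod_le_prod' h1).trans ?_
  rw [Finset.prod_mul_distrib]
  have h2 : ∏ p ∈ n.primeFactors, p ^ n.factorization p = n := Nat.prod_factorization_pow_eq_self hn
  rw [h2]
  apply Nat.mul_le_mul_right
  rw [Finset.prod_ite, Finset.prod_const, Finset.prod_const_one, mul_one]
  apply Nat.pow_le_pow_right (by norm_num)
  have h3 : n.primeFactors.filter (fun p => p < 16) ⊆ ({2, 3, 5, 7, 11, 13} : Finset ℕ) := by
    intro p hp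
    rw [Finset.mem_filter, Nat.mem_primeFactors] at hp
    have h4 := hp.1.1
    have h5 := hp.2
    interval_cases p <;> first | decide | (exfalso; revert h4; norm_num)
  exact (Finset.card_le_card h3).trans (by simp)

lemma card_div_real {n : ℕ} (hn : n ≠ 0) : (n.divisors.card : ℝ) ≤ 729 * (n : ℝ) ^ (1 / 4 : ℝ) := by
  have h := card_div_le hn
  have h1 : ((n.divisors.card : ℝ)) ^ 4 ≤ (729 * (n : ℝ) ^ (1 / 4 : ℝ)) ^ 4 := by
    have e : (729 * (n : ℝ) ^ (1 / 4 : ℝ)) ^ 4 = 81 ^ 6 * n := by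
      rw [mul_pow, ← Real.rpow_natCast ((n : ℝ) ^ (1 / 4 : ℝ)) 4, ← Real.rpow_mul (Nat.cast_nonneg n)]
      norm_num
    rw [e]
    exact_mod_cast h
  exact le_of_pow_le_pow_left₀ (by norm_num) (by positivity) h1

lemma inv_coe (q : SL(2, ℤ)) : (q⁻¹ : SL(2, ℤ)).1 = !![q 1 1, -q 0 1; -q 1 0, q 0 0] := by
  rw [Matrix.SpecialLinearGroup.coe_inv, Matrix.adjugate_fin_two]

/-- the lower left entry of a conjugate -/
lemma conj_ll (q : SL(2, ℤ)) (M : Matrix (Fin 2) (Fin 2) ℤ) :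
    ((q⁻¹ : SL(2, ℤ)).1 * M * q.1) 1 0 = M 1 0 * q 0 0 ^ 2 +
      (M 1 1 - M 0 0) * (q 0 0 * q 1 0) - M 0 1 * q 1 0 ^ 2 := by
  rw [inv_coe, Matrix.mul_apply, Fin.sum_univ_two, Matrix.mul_apply, Fin.sum_univ_two,
    Matrix.mul_apply, Fin.sum_univ_two]
  simp
  ring

open Polynomial in
/-- few cosets are fixed by a matrix which is not scalar modulo `N` -/
theorem fixM {N : ℕ} (hN : N.Prime) (M : Matrix (Fin 2) (Fin 2) ℤ)
    (hg : ¬ (((M 1 0 : ℤ) : ZMod N) = 0 ∧ ((M 0 1 : ℤ) : ZMod N) = 0 ∧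
      ((M 0 0 : ℤ) : ZMod N) = ((M 1 1 : ℤ) : ZMod N)))
    (s : Finset (SL(2, ℤ) ⧸ Gamma0 N))
    (hs : ∀ γ ∈ s, (((((Quotient.out γ)⁻¹ : SL(2, ℤ)).1 * M * (Quotient.out γ : SL(2, ℤ)).1) 1 0 : ℤ) :
      ZMod N) = 0) : s.card ≤ 3 := by
  classical
  have : Fact N.Prime := ⟨hN⟩
  set P : (ZMod N)[X] := C ((M 1 0 : ℤ) : ZMod N) * X ^ 2 +
    C (((M 1 1 : ℤ) : ZMod N) - ((M 0 0 : ℤ) : ZMod N)) * X + C (-((M 0 1 : ℤ) : ZMod N)) with hP
  have hP0 : P ≠ 0 := by
    intro h0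
    apply hg
    rw [hP] at h0
    obtain ⟨c2, c1, c0⟩ := quad_zero h0
    exact ⟨c2, neg_eq_zero.1 c0, (sub_eq_zero.1 c1).symm⟩
  have hdeg : P.natDegree ≤ 2 := by
    rw [hP]
    exact Polynomial.natDegree_quadratic_le
  have hroots : P.roots.toFinset.card ≤ 2 := by
    refine (Multiset.toFinset_card_le _).trans ((Polynomial.card_roots' P).trans hdeg)
  set φ : SL(2, ℤ) ⧸ Gamma0 N → Option (ZMod N) := fun γ =>
    if (((Quotient.out γ : SL(2, ℤ)) 1 0 : ℤ) : ZMod N) = 0 then none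
    else some ((((Quotient.out γ : SL(2, ℤ)) 0 0 : ℤ) : ZMod N) /
      (((Quotient.out γ : SL(2, ℤ)) 1 0 : ℤ) : ZMod N)) with hφ
  have hinj : Function.Injective φ := by
    intro γ γ' h
    have e1 : (QuotientGroup.mk (Quotient.out γ) : SL(2, ℤ) ⧸ Gamma0 N) = γ := QuotientGroup.out_eq' γ
    have e2 : (QuotientGroup.mk (Quotient.out γ') : SL(2, ℤ) ⧸ Gamma0 N) = γ' := QuotientGroup.out_eq' γ'
    rw [← e1, ← e2, QuotientGroup.eq, Gamma0_mem]
    have e3 : ((Quotient.out γ)⁻¹ * Quotient.out γ' : SL(2, ℤ)) 1 0 =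
        -(Quotient.out γ : SL(2, ℤ)) 1 0 * (Quotient.out γ' : SL(2, ℤ)) 0 0 +
        (Quotient.out γ : SL(2, ℤ)) 0 0 * (Quotient.out γ' : SL(2, ℤ)) 1 0 := by
      rw [Matrix.SpecialLinearGroup.coe_mul, inv_coe, Matrix.mul_apply, Fin.sum_univ_two]
      simp
    rw [e3]
    push_cast
    simp only [hφ] at h
    split_ifs at h with h1 h2
    · rw [h1, h2]; ring
    · have h3 := Option.some.inj h
      rw [div_eq_div_iff (by assumption) (by assumption)] at h3
      linear_combination h3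
  have himg : s.image φ ⊆ insert none (P.roots.toFinset.image some) := by
    intro o ho
    rw [Finset.mem_image] at ho
    obtain ⟨γ, hγ, rfl⟩ := ho
    rw [Finset.mem_insert]
    simp only [hφ]
    split_ifs with h1
    · exact Or.inl rfl
    · right
      rw [Finset.mem_image]
      refine ⟨_, ?_, rfl⟩
      rw [Multiset.mem_toFinset, Polynomial.mem_roots hP0, Polynomial.IsRoot.def]
      have h2 := hs γ hγ
      rw [conj_ll] at h2
      set q : SL(2, ℤ) := Quotient.out γ with hq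
      push_cast at h2
      rw [hP]
      simp only [Polynomial.eval_add, Polynomial.eval_mul, Polynomial.eval_C, Polynomial.eval_pow,
        Polynomial.eval_X]
      field_simp
      linear_combination h2
  have hcard := Finset.card_le_card himg
  rw [Finset.card_image_of_injective s hinj] at hcard
  refine hcard.trans ((Finset.card_insert_le _ _).trans ?_)
  have := Finset.card_image_le (s := P.roots.toFinset) (f := (some : ZMod N → Option (ZMod N)))
  omega

/-- the coset is fixed by `M` -/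
def Fx (N : ℕ) (M : Matrix (Fin 2) (Fin 2) ℤ) (γ : SL(2, ℤ) ⧸ Gamma0 N) : Prop :=
  (((((Quotient.out γ)⁻¹ : SL(2, ℤ)).1 * M * (Quotient.out γ : SL(2, ℤ)).1) 1 0 : ℤ) : ZMod N) = 0

/-- many matrices fix few cosets -/
lemma bad_gen {N : ℕ} (hN : N.Prime) (S : Finset (Matrix (Fin 2) (Fin 2) ℤ))
    (hS : ∀ M ∈ S, ¬ (((M 1 0 : ℤ) : ZMod N) = 0 ∧ ((M 0 1 : ℤ) : ZMod N) = 0 ∧
      ((M 0 0 : ℤ) : ZMod N) = ((M 1 1 : ℤ) : ZMod N)))
    (s : Finset (SL(2, ℤ) ⧸ Gamma0 N)) (hs : ∀ γ ∈ s, ∃ M ∈ S, Fx N M γ) : s.card ≤ 3 * S.card := by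
  classical
  have hsub : s ⊆ S.biUnion fun M => s.filter fun γ => Fx N M γ := by
    intro γ hγ
    obtain ⟨g, hg, hgN⟩ := hs γ hγ
    rw [Finset.mem_biUnion]
    exact ⟨g, hg, Finset.mem_filter.2 ⟨hγ, hgN⟩⟩
  refine (Finset.card_le_card hsub).trans (Finset.card_biUnion_le.trans ?_)
  refine (Finset.sum_le_card_nsmul _ _ 3 fun M hM => ?_).trans (le_of_eq ?_)
  · exact fixM hN M (hS M hM) _ fun γ hγ => (Finset.mem_filter.1 hγ).2
  · rw [smul_eq_mul, mul_comm]

lemma small_zero {N : ℕ} {x : ℤ} (hx : |x| < N) (h0 : ((x : ℤ) : ZMod N) = 0) : x = 0 := by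
  have hd := (ZMod.intCast_zmod_eq_zero_iff_dvd x N).1 h0
  exact Int.eq_zero_of_abs_lt_dvd hd hx

end Pool.Agent.H485.CC
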