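import Pool.Agent.H485.CC.Nv4

/-!
# Counting the bad cosets, second part
-/

set_option autoImplicit false
set_option maxHeartbeats 1000000

open UpperHalfPlane CongruenceSubgroup MatrixGroups Matrix
open scoped Modular

namespace Pool.Agent.H485.CC

/-- matrices with small entries -/
noncomputable def B1 (K : ℕ) : Finset (Matrix (Fin 2) (Fin 2) ℤ) := by
  classical
  exact (((Finset.Icc (-(K : ℤ)) K ×ˢ Finset.Icc (-(K : ℤ)) K) ×ˢ
    (Finset.Icc (-(K : ℤ)) K ×ˢ Finset.Icc (-(K : ℤ)) K)).image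
      (fun t => (!![t.1.1, t.1.2; t.2.1, t.2.2] : Matrix (Fin 2) (Fin 2) ℤ))).filter
      fun M => ¬ (M 1 0 = 0 ∧ M 0 1 = 0 ∧ M 0 0 = M 1 1)

lemma mat_eta (M : Matrix (Fin 2) (Fin 2) ℤ) : !![M 0 0, M 0 1; M 1 0, M 1 1] = M :=
  (Matrix.eta_fin_two M).symm

lemma mem_B1 {K : ℕ} {M : Matrix (Fin 2) (Fin 2) ℤ} (h : ∀ i j, |M i j| ≤ (K : ℤ))
    (h2 : ¬ (M 1 0 = 0 ∧ M 0 1 = 0 ∧ M 0 0 = M 1 1)) : M ∈ B1 K := by
  classical
  unfold B1
  rw [Finset.mem_filter, Finset.mem_image]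
  refine ⟨⟨((M 0 0, M 0 1), (M 1 0, M 1 1)), ?_, mat_eta M⟩, h2⟩
  simp only [Finset.mem_product, Finset.mem_Icc]
  exact ⟨⟨abs_le.1 (h 0 0), abs_le.1 (h 0 1)⟩, abs_le.1 (h 1 0), abs_le.1 (h 1 1)⟩

lemma card_B1 (K : ℕ) : (B1 K).card ≤ (2 * K + 1) ^ 4 := by
  classical
  unfold B1
  refine (Finset.card_filter_le _ _).trans (Finset.card_image_le.trans (le_of_eq ?_))
  rw [Finset.card_product, Finset.card_product, Int.card_Icc]
  have : (((K : ℤ) + 1 - -(K : ℤ)).toNat) = 2 * K + 1 := by omega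
  rw [this]
  ring

lemma B1_ns {N K : ℕ} (hK : 2 * K < N) {M : Matrix (Fin 2) (Fin 2) ℤ} (hM : M ∈ B1 K) :
    ¬ (((M 1 0 : ℤ) : ZMod N) = 0 ∧ ((M 0 1 : ℤ) : ZMod N) = 0 ∧
      ((M 0 0 : ℤ) : ZMod N) = ((M 1 1 : ℤ) : ZMod N)) := by
  classical
  unfold B1 at hM
  rw [Finset.mem_filter, Finset.mem_image] at hM
  obtain ⟨⟨t, ht, rfl⟩, h2⟩ := hM
  simp only [Finset.mem_product, Finset.mem_Icc] at ht
  obtain ⟨⟨a1, a2⟩, a3, a4⟩ := ht
  rintro ⟨b1, b2, b3⟩
  apply h2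
  simp only [Matrix.of_apply, Matrix.cons_val', Matrix.cons_val_zero, Matrix.cons_val_one,
    Matrix.cons_val_fin_one] at b1 b2 b3 ⊢
  have hKN : (2 : ℤ) * K < N := by exact_mod_cast hK
  refine ⟨small_zero (by rw [abs_lt]; constructor <;> omega) b1,
    small_zero (by rw [abs_lt]; constructor <;> omega) b2, ?_⟩
  have : t.1.1 - t.2.2 = 0 := by
    apply small_zero (N := N)
    · rw [abs_lt]; constructor <;> omega
    · push_cast
      rw [b3, sub_self]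
  omega

/-- a matrix of trace zero -/
def qp (x : ℤ) (T e : ℕ) : Matrix (Fin 2) (Fin 2) ℤ := !![x, (e : ℤ); -((T / e : ℕ) : ℤ), -x]

/-- a matrix of trace zero -/
def qn (x : ℤ) (T e : ℕ) : Matrix (Fin 2) (Fin 2) ℤ := !![x, -(e : ℤ); ((T / e : ℕ) : ℤ), -x]

open Classical in
/-- matrices of trace zero and determinant `T - x²` -/
noncomputable def F2 (x : ℤ) (T : ℕ) : Finset (Matrix (Fin 2) (Fin 2) ℤ) :=
  T.divisors.image (qp x T) ∪ T.divisors.image (qn x T)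

lemma card_F2 (x : ℤ) (T : ℕ) : (F2 x T).card ≤ 2 * T.divisors.card := by
  unfold F2
  refine (Finset.card_union_le _ _).trans ?_
  have h1 := Finset.card_image_le (s := T.divisors) (f := qp x T)
  have h2 := Finset.card_image_le (s := T.divisors) (f := qn x T)
  omega

open Classical in
/-- matrices of trace zero and determinant `N m` -/
noncomputable def B2 (N D2 K : ℕ) : Finset (Matrix (Fin 2) (Fin 2) ℤ) :=
  (Finset.Icc 1 D2).biUnion fun m => (Finset.Icc (-(K : ℤ)) K).biUnion fun x =>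
    F2 x (x.natAbs ^ 2 + N * m)

lemma card_B2 {N D2 K : ℕ} (hN : 0 < N) :
    ((B2 N D2 K).card : ℝ) ≤ D2 * ((2 * K + 1) * (2 * (729 * ((K ^ 2 + N * D2 : ℕ) : ℝ) ^ (1 / 4 : ℝ)))) := by
  unfold B2
  refine (Nat.cast_le.2 Finset.card_biUnion_le).trans ?_
  rw [Nat.cast_sum]
  set X : ℝ := 729 * ((K ^ 2 + N * D2 : ℕ) : ℝ) ^ (1 / 4 : ℝ) with hX
  refine (Finset.sum_le_card_nsmul _ _ ((2 * K + 1) * (2 * X)) fun m hm => ?_).trans (le_of_eq ?_)
  · rw [Finset.mem_Icc] at hm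
    refine (Nat.cast_le.2 Finset.card_biUnion_le).trans ?_
    rw [Nat.cast_sum]
    refine (Finset.sum_le_card_nsmul _ _ (2 * X) fun x hx => ?_).trans (le_of_eq ?_)
    · rw [Finset.mem_Icc] at hx
      have hT : x.natAbs ^ 2 + N * m ≠ 0 := by
        have : 0 < N * m := Nat.mul_pos hN (by omega)
        omega
      have hT2 : x.natAbs ^ 2 + N * m ≤ K ^ 2 + N * D2 := by
        have h3 : x.natAbs ≤ K := by omega
        exact Nat.add_le_add (Nat.pow_le_pow_left h3 2) (Nat.mul_le_mul_left _ hm.2)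
      have h4 : ((x.natAbs ^ 2 + N * m).divisors.card : ℝ) ≤ X := by
        refine (card_div_real hT).trans ?_
        rw [hX]
        apply mul_le_mul_of_nonneg_left _ (by norm_num)
        exact Real.rpow_le_rpow (Nat.cast_nonneg _) (by exact_mod_cast hT2) (by norm_num)
      have h5 : ((F2 x (x.natAbs ^ 2 + N * m)).card : ℝ) ≤
          2 * ((x.natAbs ^ 2 + N * m).divisors.card : ℝ) := by
        exact_mod_cast card_F2 x (x.natAbs ^ 2 + N * m)
      linarith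
    · rw [Int.card_Icc, nsmul_eq_mul]
      have : (((K : ℤ) + 1 - -(K : ℤ)).toNat) = 2 * K + 1 := by omega
      rw [this]
      push_cast
      ring
  · rw [Nat.card_Icc, nsmul_eq_mul]
    simp

lemma mem_B2 {N D2 K m : ℕ} (hm : 1 ≤ m) (hm2 : m ≤ D2) (hN : 0 < N) {M : Matrix (Fin 2) (Fin 2) ℤ}
    (h : ∀ i j, |M i j| ≤ (K : ℤ)) (htr : M 0 0 + M 1 1 = 0) (hdet : M.det = N * m) : M ∈ B2 N D2 K := by
  classical
  unfold B2
  rw [Finset.mem_biUnion]
  refine ⟨m, Finset.mem_Icc.2 ⟨hm, hm2⟩, ?_⟩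
  rw [Finset.mem_biUnion]
  refine ⟨M 0 0, Finset.mem_Icc.2 (abs_le.1 (h 0 0)), ?_⟩
  unfold F2
  rw [Matrix.det_fin_two] at hdet
  have h11 : M 1 1 = -M 0 0 := by omega
  set T : ℕ := (M 0 0).natAbs ^ 2 + N * m with hT
  have hTz : (T : ℤ) = M 0 0 ^ 2 + N * m := by
    rw [hT]
    push_cast
    rw [sq_abs]
  have hprod : M 0 1 * M 1 0 = -(T : ℤ) := by
    rw [hTz]
    rw [h11] at hdet
    linarith [hdet]
  have hT0 : T ≠ 0 := by
    have : 0 < N * m := Nat.mul_pos hN (by omega)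
    omega
  have hy0 : M 0 1 ≠ 0 := by
    intro h0
    rw [h0, zero_mul] at hprod
    omega
  have hnat : (M 0 1).natAbs * (M 1 0).natAbs = T := by
    rw [← Int.natAbs_mul, hprod]
    simp
  have hdiv : (M 0 1).natAbs ∈ T.divisors := Nat.mem_divisors.2 ⟨Dvd.intro _ hnat, hT0⟩
  have hq : T / (M 0 1).natAbs = (M 1 0).natAbs := by
    rw [← hnat, Nat.mul_div_cancel_left _ (Int.natAbs_pos.2 hy0)]
  rw [Finset.mem_union, Finset.mem_image, Finset.mem_image]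
  have hTp : 0 < (T : ℤ) := by exact_mod_cast Nat.pos_of_ne_zero hT0
  clear_value T
  rcases lt_or_gt_of_ne hy0 with hy | hy
  · right
    refine ⟨(M 0 1).natAbs, hdiv, ?_⟩
    unfold qn
    rw [hq]
    have hu : 0 < M 1 0 := by
      by_contra hcon
      push Not at hcon
      have := mul_nonneg_of_nonpos_of_nonpos hy.le hcon
      omega
    have e1 : -((M 0 1).natAbs : ℤ) = M 0 1 := by omega
    have e2 : ((M 1 0).natAbs : ℤ) = M 1 0 := by omega
    rw [e1, e2, ← h11]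
    exact mat_eta M
  · left
    refine ⟨(M 0 1).natAbs, hdiv, ?_⟩
    unfold qp
    rw [hq]
    have hu : M 1 0 < 0 := by
      by_contra hcon
      push Not at hcon
      have := mul_nonneg hy.le hcon
      omega
    have e1 : ((M 0 1).natAbs : ℤ) = M 0 1 := by omega
    have e2 : -((M 1 0).natAbs : ℤ) = M 1 0 := by omega
    rw [e1, e2, ← h11]
    exact mat_eta M

lemma B2_ns {N D2 K : ℕ} (hN : 2 < N) (hN1 : N.Prime) (hK : K < N) {M : Matrix (Fin 2) (Fin 2) ℤ}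
    (h : ∀ i j, |M i j| ≤ (K : ℤ)) (htr : M 0 0 + M 1 1 = 0) (hdet : M.det ≠ 0) :
    ¬ (((M 1 0 : ℤ) : ZMod N) = 0 ∧ ((M 0 1 : ℤ) : ZMod N) = 0 ∧
      ((M 0 0 : ℤ) : ZMod N) = ((M 1 1 : ℤ) : ZMod N)) := by
  rintro ⟨b1, b2, b3⟩
  have hKN : (K : ℤ) < N := by exact_mod_cast hK
  have c1 : M 1 0 = 0 := small_zero (lt_of_le_of_lt (h 1 0) hKN) b1
  have c2 : M 0 1 = 0 := small_zero (lt_of_le_of_lt (h 0 1) hKN) b2
  have c3 : M 0 0 = 0 := by
    apply small_zero (lt_of_le_of_lt (h 0 0) hKN)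
    have h11 : M 1 1 = -M 0 0 := by omega
    rw [h11] at b3
    push_cast at b3
    have h2 : (2 : ZMod N) * ((M 0 0 : ℤ) : ZMod N) = 0 := by linear_combination b3
    have : Fact N.Prime := ⟨hN1⟩
    rcases mul_eq_zero.1 h2 with h3 | h3
    · exfalso
      have h4 : ((2 : ℕ) : ZMod N) = 0 := by exact_mod_cast h3
      rw [ZMod.natCast_eq_zero_iff] at h4
      have := Nat.le_of_dvd (by norm_num) h4
      omega
    · exact h3
  apply hdet
  rw [Matrix.det_fin_two, c2, c3]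
  ring

end Pool.Agent.H485.CC
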