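import Pool.Agent.H485.CC.Nv4b

/-!
# Separation of the Hecke translates
-/

set_option autoImplicit false
set_option maxHeartbeats 1000000

open UpperHalfPlane CongruenceSubgroup MatrixGroups Matrix
open scoped Modular

namespace Pool.Agent.H485.CC

open Classical in
/-- the matrices for the Fricke translates -/
noncomputable def B3 (N D2 K : ℕ) : Finset (Matrix (Fin 2) (Fin 2) ℤ) :=
  (B2 N D2 K).filter fun M => (∀ i j, |M i j| ≤ (K : ℤ)) ∧ M 0 0 + M 1 1 = 0 ∧ M.det ≠ 0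

/-- a good coset -/
def Gd (N D K1 K2 : ℕ) (γ : SL(2, ℤ) ⧸ Gamma0 N) : Prop :=
  (∀ M ∈ B1 K1, ¬ Fx N M γ) ∧ ∀ M ∈ B3 N (D * D) K2, ¬ Fx N M γ

/-- the number of the bad cosets -/
theorem bad_card2 {N D K1 K2 : ℕ} (hN : N.Prime) (hN2 : 2 < N) (h1 : 2 * K1 < N) (h2 : K2 < N)
    (s : Finset (SL(2, ℤ) ⧸ Gamma0 N)) (hs : ∀ γ ∈ s, ¬ Gd N D K1 K2 γ) :
    (s.card : ℝ) ≤ 3 * (2 * K1 + 1) ^ 4 + 3 * ((D * D : ℕ) * ((2 * K2 + 1) *
      (2 * (729 * ((K2 ^ 2 + N * (D * D) : ℕ) : ℝ) ^ (1 / 4 : ℝ))))) := by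
  classical
  set s1 := s.filter fun γ => ∃ M ∈ B1 K1, Fx N M γ with hs1
  set s2 := s.filter fun γ => ∃ M ∈ B3 N (D * D) K2, Fx N M γ with hs2
  have hsub : s ⊆ s1 ∪ s2 := by
    intro γ hγ
    have h3 := hs γ hγ
    unfold Gd at h3
    rw [not_and_or] at h3
    push Not at h3
    rw [Finset.mem_union]
    rcases h3 with h3 | h3
    · left; exact Finset.mem_filter.2 ⟨hγ, h3⟩
    · right; exact Finset.mem_filter.2 ⟨hγ, h3⟩
  have k1 := bad_gen hN (B1 K1) (fun M hM => B1_ns h1 hM) s1 fun γ hγ => (Finset.mem_filter.1 hγ).2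
  have k2 := bad_gen hN (B3 N (D * D) K2) (fun M hM => by
    unfold B3 at hM
    rw [Finset.mem_filter] at hM
    exact B2_ns (D2 := D) hN2 hN h2 hM.2.1 hM.2.2.1 hM.2.2.2) s2 fun γ hγ => (Finset.mem_filter.1 hγ).2
  have k3 := card_B1 K1
  have k4 := card_B2 (N := N) (D2 := D * D) (K := K2) hN.pos
  have k5 : (B3 N (D * D) K2).card ≤ (B2 N (D * D) K2).card := by
    unfold B3
    exact Finset.card_filter_le _ _
  have k6 : s.card ≤ s1.card + s2.card := (Finset.card_le_card hsub).trans (Finset.card_union_le _ _)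
  have k7 : (s.card : ℝ) ≤ 3 * ((2 * K1 + 1) ^ 4 : ℕ) + 3 * ((B2 N (D * D) K2).card : ℝ) := by
    have : s.card ≤ 3 * ((2 * K1 + 1) ^ 4) + 3 * (B2 N (D * D) K2).card := by omega
    exact_mod_cast this
  refine k7.trans ?_
  push_cast at k4 ⊢
  linarith

lemma adj_sgm (a b d : ℕ) : (sgm a b d).adjugate = !![(d : ℤ), -b; 0, a] := by
  unfold sgm
  rw [Matrix.adjugate_fin_two]
  simp

lemma prodE (a b d a' b' d' : ℕ) (P : Matrix (Fin 2) (Fin 2) ℤ) :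
    ((sgm a b d).adjugate * (P * sgm a' b' d')) 0 0 = (d * P 0 0 - b * P 1 0) * a' ∧
    ((sgm a b d).adjugate * (P * sgm a' b' d')) 0 1 =
      (d * P 0 0 - b * P 1 0) * b' + (d * P 0 1 - b * P 1 1) * d' ∧
    ((sgm a b d).adjugate * (P * sgm a' b' d')) 1 0 = a * a' * P 1 0 ∧
    ((sgm a b d).adjugate * (P * sgm a' b' d')) 1 1 = a * P 1 0 * b' + a * P 1 1 * d' := by
  rw [adj_sgm]
  unfold sgm
  refine ⟨?_, ?_, ?_, ?_⟩ <;>
  · simp only [Matrix.mul_apply, Fin.sum_univ_two, Matrix.of_apply, Matrix.cons_val', Matrix.cons_val_zero,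
      Matrix.cons_val_one, Matrix.cons_val_fin_one]
    ring

lemma trace_conj (q : SL(2, ℤ)) (M : Matrix (Fin 2) (Fin 2) ℤ) :
    (q.1 * M * (q⁻¹ : SL(2, ℤ)).1) 0 0 + (q.1 * M * (q⁻¹ : SL(2, ℤ)).1) 1 1 = M 0 0 + M 1 1 := by
  rw [← Matrix.trace_fin_two, ← Matrix.trace_fin_two, Matrix.trace_mul_comm, ← Matrix.mul_assoc]
  have h1 : (q⁻¹ : SL(2, ℤ)).1 * q.1 = 1 := congrArg Subtype.val (inv_mul_cancel q)
  rw [h1, Matrix.one_mul]

lemma conj_back (q : SL(2, ℤ)) (M : Matrix (Fin 2) (Fin 2) ℤ) :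
    (q⁻¹ : SL(2, ℤ)).1 * (q.1 * M * (q⁻¹ : SL(2, ℤ)).1) * q.1 = M := by
  have h1 : (q⁻¹ : SL(2, ℤ)).1 * q.1 = 1 := by
    have := congrArg Subtype.val (inv_mul_cancel q)
    exact this
  calc _ = ((q⁻¹ : SL(2, ℤ)).1 * q.1) * M * ((q⁻¹ : SL(2, ℤ)).1 * q.1) := by
        simp only [Matrix.mul_assoc]
    _ = M := by rw [h1, Matrix.one_mul, Matrix.mul_one]

lemma det_conj (q : SL(2, ℤ)) (M : Matrix (Fin 2) (Fin 2) ℤ) :
    (q.1 * M * (q⁻¹ : SL(2, ℤ)).1).det = M.det := by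
  rw [Matrix.det_mul, Matrix.det_mul, q.2, (q⁻¹ : SL(2, ℤ)).2]
  ring

/-- moving to the fundamental domain -/
lemma dist_conj {q : SL(2, ℤ)} {M : Matrix (Fin 2) (Fin 2) ℤ} (hM : 0 < M.det) {z : ℍ} {ρ : ℝ}
    (h : dist (q⁻¹ • z) (mmv M • (q⁻¹ • z)) < ρ) :
    dist z (mmv (q.1 * M * (q⁻¹ : SL(2, ℤ)).1) • z) < ρ := by
  have h1 : 0 < q.1.det := by rw [q.2]; exact one_pos
  have h2 : 0 < (q⁻¹ : SL(2, ℤ)).1.det := by rw [(q⁻¹ : SL(2, ℤ)).2]; exact one_pos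
  have h3 : 0 < (q.1 * M).det := by rw [Matrix.det_mul]; exact mul_pos h1 hM
  rw [mm_smul_mul h3 h2, mm_smul_mul h1 hM, mm_SL, mm_SL]
  rw [← dist_SL q] at h
  rw [smul_inv_smul] at h
  exact h

/-- moving a matrix to the other side -/
lemma dist_adj {A B : Matrix (Fin 2) (Fin 2) ℤ} (hA : 0 < A.det) (hB : 0 < B.det) {w : ℍ} {ρ : ℝ}
    (h : dist (mmv A • w) (mmv B • w) < ρ) : dist w (mmv (A.adjugate * B) • w) < ρ := by
  have hA' : 0 < A.adjugate.det := by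
    rw [Matrix.det_adjugate]
    simpa using hA
  have h2 := dist_mm (mmv A.adjugate) (mmv A • w) (mmv B • w)
  rw [mm_adj hA, ← mm_smul_mul hA' hB] at h2
  rw [h2]
  exact h

/-- the separation of the Hecke translates -/
theorem sep1 {N D K1 K2 : ℕ} {z : ℍ} (hz : z ∈ (ModularGroup.fd : Set ℍ))
    {Y r : ℝ} (hY : z.im ≤ Y) (hY1 : 1 ≤ Y) (hr : 0 < r) (hK1 : 5 * Y * Real.exp (3 * r) * D ≤ K1)
    {γ : SL(2, ℤ) ⧸ Gamma0 N} (hγ : Gd N D K1 K2 γ) {a b d a' b' d' : ℕ}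
    (ha : 0 < a) (hd : 0 < d) (hb : b < d) (ha' : 0 < a') (hd' : 0 < d') (hb' : b' < d')
    (hD : a * d ≤ D) (hD' : a' * d' ≤ D) (hg : Nat.gcd (Nat.gcd a b) d = 1)
    (hg' : Nat.gcd (Nat.gcd a' b') d' = 1) {δ : SL(2, ℤ)} (hδ : δ ∈ Gamma0 N)
    (h : dist (tpt a b d ((Quotient.out γ)⁻¹ • z)) (δ • tpt a' b' d' ((Quotient.out γ)⁻¹ • z)) < 2 * r) :
    (a = a' ∧ b = b' ∧ d = d') ∧ (δ = 1 ∨ δ = -1) := by
  set q : SL(2, ℤ) := Quotient.out γ with hq
  set w : ℍ := q⁻¹ • z with hw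
  have hδd : 0 < δ.1.det := by rw [δ.2]; exact one_pos
  have hs1 := sgm_pos ha hd b
  have hs2 := sgm_pos ha' hd' b'
  have hB : 0 < (δ.1 * sgm a' b' d').det := by rw [Matrix.det_mul]; exact mul_pos hδd hs2
  rw [← mm_sgm ha hd, ← mm_sgm ha' hd', ← mm_SL, ← mm_smul_mul hδd hs2] at h
  have h1 := dist_adj hs1 hB h
  set M : Matrix (Fin 2) (Fin 2) ℤ := (sgm a b d).adjugate * (δ.1 * sgm a' b' d') with hM
  have hdetM : M.det = (a * d : ℕ) * (a' * d' : ℕ) := by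
    rw [hM, Matrix.det_mul, Matrix.det_mul, δ.2, Matrix.det_adjugate, det_sgm, det_sgm]
    simp
  have hMp : 0 < M.det := by
    rw [hdetM]
    positivity
  have h2 := dist_conj hMp h1
  set M' : Matrix (Fin 2) (Fin 2) ℤ := q.1 * M * (q⁻¹ : SL(2, ℤ)).1 with hM'
  have hMp' : 0 < M'.det := by rw [hM', det_conj]; exact hMp
  have hent := entM hz hY hY1 hr hMp' h2
  have hsq : Real.sqrt (M'.det : ℝ) ≤ D := by
    rw [hM', det_conj, hdetM]
    apply Real.sqrt_le_iff.2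
    refine ⟨Nat.cast_nonneg D, ?_⟩
    have h3 : (((a * d : ℕ) : ℝ)) ≤ D := by exact_mod_cast hD
    have h4 : (((a' * d' : ℕ) : ℝ)) ≤ D := by exact_mod_cast hD'
    push_cast at h3 h4 ⊢
    calc (a : ℝ) * d * (a' * d') ≤ D * D := mul_le_mul h3 h4 (by positivity) (Nat.cast_nonneg D)
      _ = _ := by ring
  have hK : ∀ i j, |M' i j| ≤ (K1 : ℤ) := by
    intro i j
    have h3 : |(M' i j : ℝ)| ≤ K1 := by
      refine (hent i j).trans (le_trans ?_ hK1)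
      exact mul_le_mul_of_nonneg_left hsq (by positivity)
    exact_mod_cast h3
  have hback : (q⁻¹ : SL(2, ℤ)).1 * M' * q.1 = M := conj_back q M
  obtain ⟨e00', e01', e10, e11'⟩ := prodE a b d a' b' d' δ.1
  rw [← hM] at e00' e01' e10 e11'
  have hFx : Fx N M' γ := by
    unfold Fx
    rw [← hq, hback, e10]
    rw [Gamma0_mem] at hδ
    push_cast
    have : ((δ.1 1 0 : ℤ) : ZMod N) = 0 := hδ
    rw [this, mul_zero]
  have hsc : M' 1 0 = 0 ∧ M' 0 1 = 0 ∧ M' 0 0 = M' 1 1 := by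
    by_contra hcon
    exact hγ.1 M' (mem_B1 hK hcon) hFx
  have hM's : M' = (M' 0 0) • (1 : Matrix (Fin 2) (Fin 2) ℤ) := by
    ext i j
    fin_cases i <;> fin_cases j
    · simp
    · simp [hsc.2.1]
    · simp [hsc.1]
    · simp [hsc.2.2]
  have hMs : M = (M' 0 0) • (1 : Matrix (Fin 2) (Fin 2) ℤ) := by
    rw [← hback]
    conv_lhs => rw [hM's]
    have h1 : (q⁻¹ : SL(2, ℤ)).1 * q.1 = 1 := congrArg Subtype.val (inv_mul_cancel q)
    rw [Matrix.mul_smul, Matrix.smul_mul, Matrix.mul_one, h1]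
  have m10 : M 1 0 = 0 := by rw [hMs]; simp
  have m01 : M 0 1 = 0 := by rw [hMs]; simp
  have m00 : M 0 0 = M 1 1 := by rw [hMs]; simp
  have hγ0 : δ.1 1 0 = 0 := by
    rw [e10] at m10
    have c1 : (0 : ℤ) < a := by exact_mod_cast ha
    have c2 : (0 : ℤ) < a' := by exact_mod_cast ha'
    rcases mul_eq_zero.1 m10 with h3 | h3
    · exact absurd h3 (mul_pos c1 c2).ne'
    · exact h3
  have hdδ := δ.2
  rw [Matrix.det_fin_two, hγ0, mul_zero, sub_zero] at hdδ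
  have e00 : M 0 0 = d * δ.1 0 0 * a' := by
    rw [e00', hγ0]
    ring
  have e11 : M 1 1 = a * δ.1 1 1 * d' := by
    rw [e11', hγ0]
    ring
  have e01 : M 0 1 = d * δ.1 0 0 * b' + (d * δ.1 0 1 - b * δ.1 1 1) * d' := by
    rw [e01', hγ0]
    ring
  have hα : (δ.1 0 0 = 1 ∧ δ.1 1 1 = 1) ∨ (δ.1 0 0 = -1 ∧ δ.1 1 1 = -1) := Int.mul_eq_one_iff_eq_one_or_neg_one.1 hdδ
  obtain ⟨k, hk1, hk2⟩ : ∃ k : ℤ, (d : ℤ) * b' + d * k * d' - b * d' = 0 ∧ (δ.1 0 1 = k ∨ δ.1 0 1 = -k) := by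
    rw [e01] at m01
    rcases hα with ⟨h3, h4⟩ | ⟨h3, h4⟩
    · refine ⟨δ.1 0 1, ?_, Or.inl rfl⟩
      rw [h3, h4] at m01
      linarith
    · refine ⟨-δ.1 0 1, ?_, Or.inr (by ring)⟩
      rw [h3, h4] at m01
      linarith
  have hda : (d : ℤ) * a' = a * d' := by
    rw [e00, e11] at m00
    rcases hα with ⟨h3, h4⟩ | ⟨h3, h4⟩
    · rw [h3, h4] at m00; linarith
    · rw [h3, h4] at m00; linarith
  have hdaN : d * a' = a * d' := by exact_mod_cast hda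
  have dv1 : d' ∣ d := by
    have c1 : d' ∣ d * a' := by rw [hdaN]; exact Dvd.intro_left _ rfl
    have c2 : d' ∣ d * b' := by
      have : (d' : ℤ) ∣ ((d * b' : ℕ) : ℤ) := by
        refine ⟨b - d * k, ?_⟩
        push_cast
        linarith
      exact_mod_cast this
    have c3 : d' ∣ d * d' := Dvd.intro_left _ rfl
    have c4 := Nat.dvd_gcd (Nat.dvd_gcd c1 c2) c3
    rw [Nat.gcd_mul_left, Nat.gcd_mul_left, hg', mul_one] at c4
    exact c4
  have dv2 : d ∣ d' := by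
    have c1 : d ∣ d' * a := by rw [mul_comm d' a, ← hdaN]; exact Dvd.intro _ rfl
    have c2 : d ∣ d' * b := by
      have : (d : ℤ) ∣ ((d' * b : ℕ) : ℤ) := by
        refine ⟨b' + k * d', ?_⟩
        push_cast
        linarith
      exact_mod_cast this
    have c3 : d ∣ d' * d := Dvd.intro_left _ rfl
    have c4 := Nat.dvd_gcd (Nat.dvd_gcd c1 c2) c3
    rw [Nat.gcd_mul_left, Nat.gcd_mul_left, hg, mul_one] at c4
    exact c4
  have hdd : d = d' := Nat.dvd_antisymm dv2 dv1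
  subst hdd
  have haa : a = a' := by
    have : d * a' = d * a := by rw [hdaN, mul_comm]
    exact (Nat.eq_of_mul_eq_mul_left hd this).symm
  have hdz : (0 : ℤ) < d := by exact_mod_cast hd
  have hbk : (b : ℤ) = b' + k * d := by
    have : (d : ℤ) * (b' + k * d - b) = 0 := by linarith
    rcases mul_eq_zero.1 this with h3 | h3
    · omega
    · omega
  have hk0 : k = 0 := by
    have c1 : (b : ℤ) < d := by exact_mod_cast hb
    have c2 : (b' : ℤ) < d := by exact_mod_cast hb'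
    have c3 : (0 : ℤ) ≤ b := by positivity
    have c4 : (0 : ℤ) ≤ b' := by positivity
    by_contra hk
    rcases lt_or_gt_of_ne hk with h3 | h3
    · have : k * d ≤ -1 * d := mul_le_mul_of_nonneg_right (by omega) hdz.le
      linarith
    · have : 1 * d ≤ k * d := mul_le_mul_of_nonneg_right (by omega) hdz.le
      linarith
  refine ⟨⟨haa, ?_, rfl⟩, ?_⟩
  · rw [hk0, zero_mul, add_zero] at hbk
    exact_mod_cast hbk
  · have h01 : δ.1 0 1 = 0 := by rcases hk2 with h3 | h3 <;> rw [h3, hk0] <;> rfl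
    rcases hα with ⟨h3, h4⟩ | ⟨h3, h4⟩
    · left
      apply Matrix.SpecialLinearGroup.ext
      intro i j
      fin_cases i <;> fin_cases j
      · exact h3
      · exact h01
      · exact hγ0
      · exact h4
    · right
      apply Matrix.SpecialLinearGroup.ext
      intro i j
      fin_cases i <;> fin_cases j
      · exact h3
      · show δ.1 0 1 = -0
        rw [h01]; rfl
      · show δ.1 1 0 = -0
        rw [hγ0]; rfl
      · exact h4

end Pool.Agent.H485.CC
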