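import Pool.Agent.H485.CC.Nv5

/-!
# Separation of the Hecke translates from their Fricke images
-/

set_option autoImplicit false
set_option maxHeartbeats 1000000

open UpperHalfPlane CongruenceSubgroup MatrixGroups Matrix
open scoped Modular

namespace Pool.Agent.H485.CC

/-- the separation from the Fricke translates -/
theorem sep2 {N : ℕ} [NeZero N] {D K1 K2 : ℕ} {z : ℍ} (hz : z ∈ (ModularGroup.fd : Set ℍ))
    {Y r : ℝ} (hY : z.im ≤ Y) (hY1 : 1 ≤ Y) (hr : 0 < r)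
    (hK2 : 5 * Y * Real.exp (3 * r) * (D * Real.sqrt N) ≤ K2) (hKN : 2 * K2 < N)
    {γ : SL(2, ℤ) ⧸ Gamma0 N} (hγ : Gd N D K1 K2 γ) {a b d a' b' d' : ℕ}
    (ha : 0 < a) (hd : 0 < d) (ha' : 0 < a') (hd' : 0 < d')
    (hD : a * d ≤ D) (hD' : a' * d' ≤ D) {δ : SL(2, ℤ)} (hδ : δ ∈ Gamma0 N) :
    ¬ dist (tpt a b d ((Quotient.out γ)⁻¹ • z))
      (δ • (WN N • tpt a' b' d' ((Quotient.out γ)⁻¹ • z))) < 2 * r := by
  intro h
  have hN : 0 < N := Nat.pos_of_ne_zero (NeZero.ne N)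
  set q : SL(2, ℤ) := Quotient.out γ with hq
  set w : ℍ := q⁻¹ • z with hw
  have hδd : 0 < δ.1.det := by rw [δ.2]; exact one_pos
  have hWd : 0 < (Wm N).det := by rw [det_Wm]; exact_mod_cast hN
  have hs1 := sgm_pos ha hd b
  have hs2 := sgm_pos ha' hd' b'
  have hP : 0 < (δ.1 * Wm N).det := by rw [Matrix.det_mul]; exact mul_pos hδd hWd
  have hB : 0 < (δ.1 * Wm N * sgm a' b' d').det := by rw [Matrix.det_mul]; exact mul_pos hP hs2
  rw [← mm_sgm ha hd, ← mm_sgm ha' hd', ← mm_SL, ← mm_W, ← mm_smul_mul hδd hWd, ← mm_smul_mul hP hs2] at h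
  have h1 := dist_adj hs1 hB h
  set M : Matrix (Fin 2) (Fin 2) ℤ := (sgm a b d).adjugate * (δ.1 * Wm N * sgm a' b' d') with hM
  have hdetM : M.det = N * ((a * d) * (a' * d') : ℕ) := by
    rw [hM, Matrix.det_mul, Matrix.det_mul, Matrix.det_mul, δ.2, Matrix.det_adjugate, det_sgm, det_sgm, det_Wm]
    simp
    ring
  have hm1 : 1 ≤ (a * d) * (a' * d') := Nat.mul_pos (Nat.mul_pos ha hd) (Nat.mul_pos ha' hd')
  have hm2 : (a * d) * (a' * d') ≤ D * D := Nat.mul_le_mul hD hD'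
  have hMp : 0 < M.det := by
    rw [hdetM]
    positivity
  have h2 := dist_conj hMp h1
  set M' : Matrix (Fin 2) (Fin 2) ℤ := q.1 * M * (q⁻¹ : SL(2, ℤ)).1 with hM'
  have hdetM' : M'.det = M.det := by rw [hM', det_conj]
  have hMp' : 0 < M'.det := by rw [hdetM']; exact hMp
  have hent := entM hz hY hY1 hr hMp' h2
  have hsq : Real.sqrt (M'.det : ℝ) ≤ D * Real.sqrt N := by
    rw [hdetM', hdetM]
    apply Real.sqrt_le_iff.2
    refine ⟨by positivity, ?_⟩
    rw [mul_pow, Real.sq_sqrt (Nat.cast_nonneg N)]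
    have h3 : ((((a * d) * (a' * d') : ℕ) : ℝ)) ≤ ((D * D : ℕ) : ℝ) := by exact_mod_cast hm2
    have h4 : (0 : ℝ) ≤ N := Nat.cast_nonneg N
    have h5 := mul_le_mul_of_nonneg_left h3 h4
    push_cast at h5 ⊢
    calc _ ≤ (N : ℝ) * (D * D) := h5
      _ = _ := by ring
  have hK : ∀ i j, |M' i j| ≤ (K2 : ℤ) := by
    intro i j
    have h3 : |(M' i j : ℝ)| ≤ K2 := by
      refine (hent i j).trans (le_trans ?_ hK2)
      exact mul_le_mul_of_nonneg_left hsq (by positivity)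
    exact_mod_cast h3
  have hback : (q⁻¹ : SL(2, ℤ)).1 * M' * q.1 = M := conj_back q M
  obtain ⟨e00, e01, e10, e11⟩ := prodE a b d a' b' d' (δ.1 * Wm N)
  rw [← hM] at e00 e01 e10 e11
  have w00 : (δ.1 * Wm N) 0 0 = N * δ.1 0 1 := by
    unfold Wm
    simp only [Matrix.mul_apply, Fin.sum_univ_two, Matrix.of_apply, Matrix.cons_val', Matrix.cons_val_zero,
      Matrix.cons_val_one, Matrix.cons_val_fin_one]
    ring
  have w10 : (δ.1 * Wm N) 1 0 = N * δ.1 1 1 := by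
    unfold Wm
    simp only [Matrix.mul_apply, Fin.sum_univ_two, Matrix.of_apply, Matrix.cons_val', Matrix.cons_val_zero,
      Matrix.cons_val_one, Matrix.cons_val_fin_one]
    ring
  have w11 : (δ.1 * Wm N) 1 1 = - δ.1 1 0 := by
    unfold Wm
    simp only [Matrix.mul_apply, Fin.sum_univ_two, Matrix.of_apply, Matrix.cons_val', Matrix.cons_val_zero,
      Matrix.cons_val_one, Matrix.cons_val_fin_one]
    ring
  have hδ0 : ((δ.1 1 0 : ℤ) : ZMod N) = 0 := by
    rw [Gamma0_mem] at hδ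
    exact hδ
  have hNz : ((N : ℤ) : ZMod N) = 0 := by
    rw [Int.cast_natCast]
    exact ZMod.natCast_self N
  have z00 : ((M 0 0 : ℤ) : ZMod N) = 0 := by
    rw [e00, w00, w10]
    push_cast
    rw [Int.cast_natCast] at hNz
    rw [hNz]
    ring
  have z10 : ((M 1 0 : ℤ) : ZMod N) = 0 := by
    rw [e10, w10]
    push_cast
    rw [Int.cast_natCast] at hNz
    rw [hNz]
    ring
  have z11 : ((M 1 1 : ℤ) : ZMod N) = 0 := by
    rw [e11, w10, w11]
    push_cast
    rw [Int.cast_natCast] at hNz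
    rw [hNz, hδ0]
    ring
  have hFx : Fx N M' γ := by
    unfold Fx
    rw [← hq, hback]
    exact z10
  have htr : M' 0 0 + M' 1 1 = 0 := by
    have h3 : M' 0 0 + M' 1 1 = M 0 0 + M 1 1 := trace_conj q M
    apply small_zero (N := N)
    · have h4 := abs_le.1 (hK 0 0)
      have h5 := abs_le.1 (hK 1 1)
      have h6 : (2 : ℤ) * K2 < N := by exact_mod_cast hKN
      rw [abs_lt]
      constructor <;> omega
    · rw [h3]
      push_cast
      rw [z00, z11, add_zero]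
  apply hγ.2 M' _ hFx
  unfold B3
  rw [Finset.mem_filter]
  refine ⟨mem_B2 hm1 hm2 hN hK htr ?_, hK, htr, hMp'.ne'⟩
  rw [hdetM', hdetM]

end Pool.Agent.H485.CC
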