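import Pool.Agent.H485.CC.Pf3

/-!
# A uniform bound for the Bergman kernel
-/

set_option autoImplicit false
set_option maxHeartbeats 4000000

open Complex Filter Topology Set MeasureTheory UpperHalfPlane MatrixGroups CongruenceSubgroup
open scoped ENNReal Modular

namespace Pool.Agent.H485.CC

open Pool.Agent.W165.RS (FF ac FF_meas FF_inv Inv measurable_smul_SL hasSum_f norm_ee ac_zero ee SS)
open W388.LV (SF bf pet om ck q_pet IsNewSet)
open W120.LV (eqS eqS_apply pet_eq lint_ne_top)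

variable {N : ℕ} [NeZero N]

lemma geo_n {x : ℝ} (hx : 0 < x) (s : Finset ℕ) : ∑ n ∈ s, (n : ℝ) * Real.exp (-(n * x)) ≤ 1 / x ^ 2 := by
  set r : ℝ := Real.exp (-x) with hr
  have hr0 : 0 < r := Real.exp_pos _
  have hr1 : r < 1 := Real.exp_lt_one_iff.2 (by linarith)
  have h1 := hasSum_coe_mul_geometric_of_norm_lt_one (𝕜 := ℝ) (r := r) (by
    rw [Real.norm_eq_abs, abs_of_pos hr0]; exact hr1)
  have h2 : ∑ n ∈ s, (n : ℝ) * Real.exp (-(n * x)) = ∑ n ∈ s, (n : ℝ) * r ^ n := by
    refine Finset.sum_congr rfl fun n _ => ?_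
    rw [hr, ← Real.exp_nat_mul]
    congr 2
    ring
  rw [h2]
  refine (sum_le_hasSum s (fun n _ => by positivity) h1).trans ?_
  rw [div_le_div_iff₀ (by nlinarith) (by positivity), one_mul]
  have h3 : x / 2 ≤ Real.sinh (x / 2) := Real.self_le_sinh_iff.2 (by linarith)
  rw [Real.sinh_eq] at h3
  set t : ℝ := Real.exp (-(x / 2)) with ht
  have ht0 : 0 < t := Real.exp_pos _
  have htt : t * t = r := by
    rw [ht, hr, ← Real.exp_add]
    congr 1
    ring
  have htinv : Real.exp (x / 2) * t = 1 := by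
    rw [ht, ← Real.exp_add]
    simp
  have h4 : x * t ≤ 1 - r := by
    have h5 : x * t ≤ (Real.exp (x / 2) - t) * t := by
      apply mul_le_mul_of_nonneg_right _ ht0.le
      linarith
    rw [sub_mul, htinv, htt] at h5
    exact h5
  calc r * x ^ 2 = (x * t) ^ 2 := by rw [mul_pow, sq t, htt]; ring
    _ ≤ (1 - r) ^ 2 := by
      apply pow_le_pow_left₀ (by positivity) h4

/-- pointwise bound from the coefficients -/
theorem pt_gen (f : SF N 2) (w : ℍ) :
    (Real.pi / (1 + 6 / (N * w.im))) * (‖f w‖ ^ 2 * w.im ^ 2) ≤ (pet N 2 f f).re := by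
  have hN0 : (0 : ℝ) < N := by exact_mod_cast Nat.pos_of_ne_zero (NeZero.ne N)
  have hy : 0 < w.im := w.im_pos
  set y : ℝ := w.im with hyd
  set P : ℝ := (pet N 2 f f).re with hPd
  have hstrip : ∀ s : Finset ℕ, ∑ n ∈ s, ‖ac f n‖ ^ 2 * (Real.exp (-(4 * Real.pi * n * (y / 2))) /
      (4 * Real.pi * n)) ≤ (1 + 6 / (N * y)) * P := by
    intro s
    have h := strip_long f (c := y / 2) (by positivity) s
    have e : (3 : ℝ) / (N * (y / 2)) = 6 / (N * y) := by field_simp; ring
    rw [e] at h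
    exact h
  have hP0 : 0 ≤ P := by
    have := hstrip ∅
    simp only [Finset.sum_empty] at this
    have h2 : 0 < 1 + 6 / (N * y) := by positivity
    exact nonneg_of_mul_nonneg_right (by linarith) h2
  have hfin : ∀ s : Finset ℕ, ‖∑ n ∈ s, (ac f n * ((Real.exp (-(2 * Real.pi * n * y)) : ℝ) : ℂ)) *
      ee n w.re‖ ^ 2 ≤ (1 + 6 / (N * y)) * P * (1 / (Real.pi * y ^ 2)) := by
    intro s
    set s' := s.erase 0 with hs'
    have h1 : ‖∑ n ∈ s, (ac f n * ((Real.exp (-(2 * Real.pi * n * y)) : ℝ) : ℂ)) * ee n w.re‖ ≤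
        ∑ n ∈ s', ‖ac f n‖ * Real.exp (-(2 * Real.pi * n * y)) := by
      have h2 : ∑ n ∈ s, (ac f n * ((Real.exp (-(2 * Real.pi * n * y)) : ℝ) : ℂ)) * ee n w.re =
          ∑ n ∈ s', (ac f n * ((Real.exp (-(2 * Real.pi * n * y)) : ℝ) : ℂ)) * ee n w.re := by
        symm
        apply Finset.sum_erase
        rw [ac_zero, zero_mul, zero_mul]
      rw [h2]
      refine (norm_sum_le _ _).trans (Finset.sum_le_sum fun n _ => ?_)
      rw [norm_mul, norm_mul, norm_ee, mul_one, Complex.norm_real, Real.norm_eq_abs,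
        abs_of_pos (Real.exp_pos _)]
    have hn0 : ∀ n ∈ s', (0 : ℝ) < n := by
      intro n hn
      have := Finset.ne_of_mem_erase hn
      exact_mod_cast Nat.pos_of_ne_zero this
    have h3 : (∑ n ∈ s', ‖ac f n‖ * Real.exp (-(2 * Real.pi * n * y))) ^ 2 ≤
        (∑ n ∈ s', ‖ac f n‖ ^ 2 * (Real.exp (-(4 * Real.pi * n * (y / 2))) / (4 * Real.pi * n))) *
        ∑ n ∈ s', 4 * Real.pi * (n * Real.exp (-(n * (2 * Real.pi * y)))) := by
      have h4 := Finset.sum_mul_sq_le_sq_mul_sq s'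
        (fun n => ‖ac f n‖ * (Real.exp (-(Real.pi * n * y)) / Real.sqrt (4 * Real.pi * n)))
        (fun n => Real.sqrt (4 * Real.pi * n) * Real.exp (-(Real.pi * n * y)))
      have e1 : ∀ n : ℕ, Real.exp (-(Real.pi * n * y)) * Real.exp (-(Real.pi * n * y)) =
          Real.exp (-(2 * Real.pi * n * y)) := by
        intro n
        rw [← Real.exp_add]
        congr 1
        ring
      refine le_trans (le_of_eq ?_) (h4.trans (le_of_eq ?_))
      · congr 1
        refine Finset.sum_congr rfl fun n hn => ?_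
        have hn' := hn0 n hn
        have hs : Real.sqrt (4 * Real.pi * n) ≠ 0 := (Real.sqrt_pos.2 (by positivity)).ne'
        rw [← e1]
        field_simp
      · congr 1
        · refine Finset.sum_congr rfl fun n hn => ?_
          have hn' := hn0 n hn
          rw [mul_pow, div_pow, Real.sq_sqrt (by positivity), sq (Real.exp _), e1]
          congr 4
          ring
        · refine Finset.sum_congr rfl fun n hn => ?_
          have hn' := hn0 n hn
          rw [mul_pow, Real.sq_sqrt (by positivity), sq (Real.exp _), e1]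
          rw [show -(2 * Real.pi * (n : ℝ) * y) = -(n * (2 * Real.pi * y)) by ring]
          ring
    have h5 : ∑ n ∈ s', 4 * Real.pi * (n * Real.exp (-(n * (2 * Real.pi * y)))) ≤
        1 / (Real.pi * y ^ 2) := by
      rw [← Finset.mul_sum]
      calc 4 * Real.pi * ∑ n ∈ s', (n : ℝ) * Real.exp (-(n * (2 * Real.pi * y))) ≤
          4 * Real.pi * (1 / (2 * Real.pi * y) ^ 2) :=
            mul_le_mul_of_nonneg_left (geo_n (by positivity) s') (by positivity)
        _ = _ := by field_simp; ring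
    calc _ ≤ (∑ n ∈ s', ‖ac f n‖ * Real.exp (-(2 * Real.pi * n * y))) ^ 2 :=
          pow_le_pow_left₀ (norm_nonneg _) h1 2
      _ ≤ _ := h3
      _ ≤ _ := mul_le_mul (hstrip s') h5 (Finset.sum_nonneg fun n _ => by positivity) (by positivity)
  have hlim : ‖f w‖ ^ 2 ≤ (1 + 6 / (N * y)) * P * (1 / (Real.pi * y ^ 2)) := by
    have h1 := hasSum_f f w.re hy
    have e1 : (⟨w.re + y * Complex.I, by simpa using hy⟩ : ℍ) = w := by
      apply UpperHalfPlane.ext
      show (w.re : ℂ) + y * Complex.I = w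
      apply Complex.ext <;> simp [hyd]
    rw [e1] at h1
    have h2 : Tendsto (fun s : Finset ℕ => ‖∑ n ∈ s, (ac f n *
        ((Real.exp (-(2 * Real.pi * n * y)) : ℝ) : ℂ)) * ee n w.re‖ ^ 2) atTop (𝓝 (‖f w‖ ^ 2)) :=
      (h1.norm).pow 2
    exact le_of_tendsto' h2 hfin
  have hden : 0 < 1 + 6 / (N * y) := by positivity
  rw [div_mul_eq_mul_div, div_le_iff₀ hden]
  have h6 : ‖f w‖ ^ 2 * (Real.pi * y ^ 2) ≤ (1 + 6 / (N * y)) * P := by
    rw [mul_one_div, le_div_iff₀ (by positivity)] at hlim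
    exact hlim
  calc Real.pi * (‖f w‖ ^ 2 * y ^ 2) = ‖f w‖ ^ 2 * (Real.pi * y ^ 2) := by ring
    _ ≤ (1 + 6 / (N * y)) * P := h6
    _ = P * (1 + 6 / (N * y)) := mul_comm _ _

omit [NeZero N] in
lemma norm_eq_of_FF {f : SF N 2} {v w : ℍ} (h : FF f v = FF f w) :
    ‖f v‖ ^ 2 * v.im ^ 2 = ‖f w‖ ^ 2 * w.im ^ 2 := by
  unfold Pool.Agent.W165.RS.FF at h
  rw [zpow_ofNat, zpow_ofNat] at h
  have h1 := congrArg ENNReal.toReal h
  rwa [ENNReal.toReal_ofReal (by positivity), ENNReal.toReal_ofReal (by positivity)] at h1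

/-- the uniform bound -/
theorem KR_bdd (hN : N.Prime) {B : Finset (SF N 2)} (hB : IsNewSet N 2 B) (w : ℍ) : KR B w ≤ 10 := by
  have hN0 : (0 : ℝ) < N := by exact_mod_cast hN.pos
  obtain ⟨δ, hδ, h⟩ := exists_mem hN (c := 1 / (4 * N)) (by
    rw [div_lt_div_iff₀ (by positivity) (by positivity)]
    nlinarith) w
  have key : ∀ v : ℍ, 1 / (4 * (N : ℝ)) < v.im → KR B v ≤ 10 := by
    intro v hv
    have hvp := v.im_pos
    refine (KR_le hB v (c := Real.pi / (1 + 6 / (N * v.im))) (by positivity) fun f => pt_gen f v).trans ?_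
    rw [one_div_div, div_le_iff₀ Real.pi_pos]
    have h1 : 6 / (N * v.im) ≤ 24 := by
      rw [div_le_iff₀ (by positivity)]
      rw [div_lt_iff₀ (by positivity)] at hv
      linarith
    have := Real.pi_gt_three
    linarith
  have e1 : KR B w = KR B (δ • w) := by
    unfold KR
    refine Finset.sum_congr rfl fun f _ => ?_
    rw [norm_eq_of_FF (FF_inv f δ hδ w)]
  rcases h with h | h
  · rw [e1]
    exact key _ h.2
  · have e2 : KR B (δ • w) = KR B (WN N • (δ • w)) := by
      unfold KR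
      refine Finset.sum_congr rfl fun f hf => ?_
      obtain ⟨ε, hε⟩ := hB.newf f hf
      rw [norm_eq_of_FF (FF_W hε (δ • w))]
    rw [e1, e2]
    exact key _ h.2

lemma KR_nonneg {B : Finset (SF N 2)} (hB : IsNewSet N 2 B) (w : ℍ) : 0 ≤ KR B w :=
  Finset.sum_nonneg fun _ hf => div_nonneg (by positivity) (pet_posB hB hf).le

/-- the sharp bound at a good point -/
theorem KR_sharp {B : Finset (SF N 2)} (hB : IsNewSet N 2 B) {w : ℍ} {r : ℝ} (hr : 0 < r)
    (h : ∀ δ : SL(2, ℤ), δ ∈ Gamma0 N → dist w (δ • w) < 2 * r → δ = 1 ∨ δ = -1) :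
    KR B w ≤ 1 / (4 * Real.pi * rho2 r) :=
  KR_le hB w (by have := rho2_pos hr; positivity) fun f => pt_sharp f hr h

end Pool.Agent.H485.CC
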