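import Pool.Agent.H485.CC.Nv5b
import Pool.Agent.H485.CC.Pf4
import Pool.Agent.H485.CC.Ev1

/-!
# The mean value inequality on the Hecke translates
-/

set_option autoImplicit false
set_option maxHeartbeats 1000000

open MeasureTheory UpperHalfPlane CongruenceSubgroup MatrixGroups
open scoped Modular ENNReal

namespace Pool.Agent.H485.CC

open Pool.Agent.W165.RS (FF FF_meas FF_inv Inv)
open W388.LV (SF pet)
open W120.LV (pet_eq lint_ne_top)

variable {N : ℕ} [NeZero N]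

omit [NeZero N] in
lemma cntD_multi {ι : Type} (s : Finset ι) (v : ι → ℍ) {r : ℝ}
    (h : ∀ i ∈ s, ∀ j ∈ s, ∀ δ : SL(2, ℤ), δ ∈ Gamma0 N → dist (v i) (δ • v j) < 2 * r →
      i = j ∧ (δ = 1 ∨ δ = -1)) (z : ℍ) :
    cntD N (⋃ i ∈ s, Metric.ball (v i) r) z ≤ 2 := by
  classical
  unfold cntD
  by_cases h0 : ∃ δ : Gamma0 N, ((δ : SL(2, ℤ))⁻¹ • z) ∈ ⋃ i ∈ s, Metric.ball (v i) r
  · obtain ⟨δ1, h1⟩ := h0
    rw [Set.mem_iUnion₂] at h1
    obtain ⟨i1, hi1, h1⟩ := h1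
    have hneg : -(δ1 : SL(2, ℤ)) ∈ Gamma0 N := by
      have h2 := δ1.2
      rw [CongruenceSubgroup.Gamma0_mem] at h2 ⊢
      simpa using h2
    rw [tsum_eq_sum (s := {δ1, (⟨-(δ1 : SL(2, ℤ)), hneg⟩ : Gamma0 N)})]
    · refine (Finset.sum_le_card_nsmul _ _ 1 fun δ _ => ?_).trans ?_
      · exact Set.indicator_le_self' (fun _ _ => zero_le) _ |>.trans (le_refl _)
      · rw [nsmul_eq_mul, mul_one]
        exact_mod_cast Finset.card_le_two
    · intro δ hδ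
      apply Set.indicator_of_notMem
      intro h2
      apply hδ
      rw [Set.mem_iUnion₂] at h2
      obtain ⟨j, hj, h2⟩ := h2
      have h3 := h j hj i1 hi1 ((δ : SL(2, ℤ))⁻¹ * δ1) (Subgroup.mul_mem _ (Subgroup.inv_mem _ δ.2) δ1.2) (by
        have e1 : ((δ : SL(2, ℤ))⁻¹ * (δ1 : SL(2, ℤ))) • ((δ1 : SL(2, ℤ))⁻¹ • z) = (δ : SL(2, ℤ))⁻¹ • z := by
          rw [mul_smul, smul_inv_smul]
        calc dist (v j) (((δ : SL(2, ℤ))⁻¹ * (δ1 : SL(2, ℤ))) • v i1) ≤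
            dist (v j) (((δ : SL(2, ℤ))⁻¹ * (δ1 : SL(2, ℤ))) • ((δ1 : SL(2, ℤ))⁻¹ • z)) +
            dist (((δ : SL(2, ℤ))⁻¹ * (δ1 : SL(2, ℤ))) • ((δ1 : SL(2, ℤ))⁻¹ • z))
              (((δ : SL(2, ℤ))⁻¹ * (δ1 : SL(2, ℤ))) • v i1) := dist_triangle _ _ _
          _ = dist (v j) ((δ : SL(2, ℤ))⁻¹ • z) + dist ((δ1 : SL(2, ℤ))⁻¹ • z) (v i1) := by
              rw [e1]
              congr 1
              rw [← e1, dist_SL]
          _ < r + r := by
              rw [Metric.mem_ball] at h1 h2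
              rw [dist_comm (v j)]
              linarith
          _ = 2 * r := by ring)
      rw [Finset.mem_insert, Finset.mem_singleton]
      rcases h3.2 with h3 | h3
      · left
        apply Subtype.ext
        rw [inv_mul_eq_one] at h3
        exact h3
      · right
        apply Subtype.ext
        show (δ : SL(2, ℤ)) = -(δ1 : SL(2, ℤ))
        rw [inv_mul_eq_iff_eq_mul] at h3
        rw [h3]
        simp
  · push Not at h0
    rw [ENNReal.tsum_eq_zero.2 fun δ => Set.indicator_of_notMem (h0 δ) _]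
    exact zero_le

/-- the mean value inequality at separated points -/
theorem multi_mean {ι : Type} (s : Finset ι) (v : ι → ℍ) {r : ℝ} (hr : 0 < r)
    (h : ∀ i ∈ s, ∀ j ∈ s, ∀ δ : SL(2, ℤ), δ ∈ Gamma0 N → dist (v i) (δ • v j) < 2 * r →
      i = j ∧ (δ = 1 ∨ δ = -1)) (G : SF N 2) :
    4 * Real.pi * rho2 r * ∑ i ∈ s, ‖G (v i)‖ ^ 2 * (v i).im ^ 2 ≤ (pet N 2 G G).re := by
  classical
  have hdis : Set.PairwiseDisjoint (↑s : Set ι) fun i => Metric.ball (v i) r := by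
    intro i hi j hj hij
    rw [Function.onFun, Set.disjoint_left]
    intro x hx hx'
    apply hij
    refine (h i hi j hj 1 (Subgroup.one_mem _) ?_).1
    rw [one_smul]
    rw [Metric.mem_ball] at hx hx'
    calc dist (v i) (v j) ≤ dist (v i) x + dist x (v j) := dist_triangle _ _ _
      _ < r + r := by rw [dist_comm (v i)]; linarith
      _ = 2 * r := by ring
  have hm : ∀ i, MeasurableSet (Metric.ball (v i) r) := fun i => Metric.isOpen_ball.measurableSet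
  have hU : MeasurableSet (⋃ i ∈ s, Metric.ball (v i) r) :=
    Finset.measurableSet_biUnion s fun i _ => hm i
  have h1 : ∑ i ∈ s, ENNReal.ofReal (4 * Real.pi * rho2 r) * FF G (v i) ≤
      ∫⁻ z, (⋃ i ∈ s, Metric.ball (v i) r).indicator (FF G) z := by
    rw [Finset.indicator_biUnion s _ hdis, lintegral_finsetSum _ fun i _ => (FF_meas G).indicator (hm i)]
    exact Finset.sum_le_sum fun i _ => ball_mean G (v i) hr
  have h2 := lintD_le (FF_inv G) (FF_meas G) hU (cntD_multi (N := N) s v h)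
  have h3 := ENNReal.toReal_mono (lint_ne_top G) (h1.trans h2)
  rw [← pet_eq G] at h3
  refine le_trans (le_of_eq ?_) h3
  have hp := rho2_pos hr
  rw [← Finset.mul_sum, ENNReal.toReal_mul, ENNReal.toReal_ofReal (by positivity), ENNReal.toReal_sum]
  · congr 1
    refine Finset.sum_congr rfl fun i _ => ?_
    unfold Pool.Agent.W165.RS.FF
    rw [ENNReal.toReal_ofReal (by positivity), zpow_ofNat]
  · intro i _
    exact ENNReal.ofReal_ne_top

/-- the admissible triples -/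
def Tr (D : ℕ) (t : ℕ × ℕ × ℕ) : Prop := 0 < t.1 ∧ t.2.1 < t.2.2 ∧ t.1 * t.2.2 ≤ D

/-- the greatest common divisor of a triple -/
def gt3 (t : ℕ × ℕ × ℕ) : ℕ := Nat.gcd (Nat.gcd t.1 t.2.1) t.2.2

/-- the point of a triple -/
noncomputable def pt3 (t : ℕ × ℕ × ℕ) (w : ℍ) : ℍ := tpt t.1 t.2.1 t.2.2 w

lemma WN_WNn (z : ℍ) : (WN N • (WN N • z) : ℍ) = z := by
  have hN : (N : ℂ) ≠ 0 := by exact_mod_cast NeZero.ne N
  have hz : (z : ℂ) ≠ 0 := z.ne_zero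
  apply UpperHalfPlane.ext
  rw [WN_smul, WN_smul]
  field_simp

lemma dist_WN (z w : ℍ) : dist (WN N • z) (WN N • w) = dist z w := by
  rw [← mm_W, ← mm_W, dist_mm]

lemma cj_cases {δ : Gamma0 N} (h : (cj δ : SL(2, ℤ)) = 1 ∨ (cj δ : SL(2, ℤ)) = -1) :
    (δ : SL(2, ℤ)) = 1 ∨ (δ : SL(2, ℤ)) = -1 := by
  have hN : (N : ℤ) ≠ 0 := by exact_mod_cast NeZero.ne N
  have hd : (N : ℤ) ∣ (δ : SL(2, ℤ)) 1 0 := by
    have := CongruenceSubgroup.Gamma0_mem.1 δ.2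
    exact (ZMod.intCast_zmod_eq_zero_iff_dvd _ _).1 this
  have key : ∀ e : ℤ, (cj δ : SL(2, ℤ)) 0 0 = e → (cj δ : SL(2, ℤ)) 0 1 = 0 → (cj δ : SL(2, ℤ)) 1 0 = 0 →
      (cj δ : SL(2, ℤ)) 1 1 = e → (δ : SL(2, ℤ)) 0 0 = e ∧ (δ : SL(2, ℤ)) 0 1 = 0 ∧
        (δ : SL(2, ℤ)) 1 0 = 0 ∧ (δ : SL(2, ℤ)) 1 1 = e := by
    intro e h1 h2 h3 h4
    rw [cj_00] at h1
    rw [cj_01, neg_eq_zero] at h2
    rw [cj_10, neg_eq_zero] at h3
    rw [cj_11] at h4
    refine ⟨h4, ?_, ?_, h1⟩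
    · rcases mul_eq_zero.1 h3 with h5 | h5
      · exact absurd h5 hN
      · exact h5
    · rw [← Int.ediv_mul_cancel hd, h2, zero_mul]
  rcases h with h | h
  · left
    obtain ⟨k1, k2, k3, k4⟩ := key 1 (by rw [h]; rfl) (by rw [h]; rfl) (by rw [h]; rfl) (by rw [h]; rfl)
    apply Matrix.SpecialLinearGroup.ext
    intro i j
    fin_cases i <;> fin_cases j
    · exact k1
    · exact k2
    · exact k3
    · exact k4
  · right
    obtain ⟨k1, k2, k3, k4⟩ := key (-1) (by rw [h]; rfl) (by rw [h]; rfl) (by rw [h]; rfl) (by rw [h]; rfl)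
    apply Matrix.SpecialLinearGroup.ext
    intro i j
    fin_cases i <;> fin_cases j
    · exact k1
    · exact k2
    · exact k3
    · exact k4

/-- the mean value inequality for the Hecke translates of a good point -/
theorem hecke_mean {D K1 K2 : ℕ} {z : ℍ} (hz : z ∈ (ModularGroup.fd : Set ℍ))
    {Y r : ℝ} (hY : z.im ≤ Y) (hY1 : 1 ≤ Y) (hr : 0 < r) (hK1 : 5 * Y * Real.exp (3 * r) * D ≤ K1)
    (hK2 : 5 * Y * Real.exp (3 * r) * (D * Real.sqrt N) ≤ K2) (hKN : 2 * K2 < N)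
    {γ : SL(2, ℤ) ⧸ Gamma0 N} (hγ : Gd N D K1 K2 γ) (T : Finset (ℕ × ℕ × ℕ))
    (hT : ∀ t ∈ T, Tr D t ∧ gt3 t = 1) {G : SF N 2} (hG : ∀ v : ℍ, FF G (WN N • v) = FF G v) :
    8 * Real.pi * rho2 r * ∑ t ∈ T, ‖G (pt3 t ((Quotient.out γ)⁻¹ • z))‖ ^ 2 *
      (pt3 t ((Quotient.out γ)⁻¹ • z)).im ^ 2 ≤ (pet N 2 G G).re := by
  classical
  set w : ℍ := (Quotient.out γ)⁻¹ • z with hw
  have hpos : ∀ t ∈ T, 0 < t.2.2 := fun t ht => by have := (hT t ht).1.2.1; omega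
  set v : Bool × (ℕ × ℕ × ℕ) → ℍ := fun i => if i.1 then pt3 i.2 w else WN N • pt3 i.2 w with hv
  have hsep : ∀ i ∈ (Finset.univ : Finset Bool) ×ˢ T, ∀ j ∈ (Finset.univ : Finset Bool) ×ˢ T,
      ∀ δ : SL(2, ℤ), δ ∈ Gamma0 N → dist (v i) (δ • v j) < 2 * r → i = j ∧ (δ = 1 ∨ δ = -1) := by
    rintro ⟨bi, ti⟩ hi ⟨bj, tj⟩ hj δ hδ hd
    rw [Finset.mem_product] at hi hj
    have hi := hi.2
    have hj := hj.2
    simp only at hi hj
    obtain ⟨⟨i1, i2, i3⟩, i4⟩ := hT ti hi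
    obtain ⟨⟨j1, j2, j3⟩, j4⟩ := hT tj hj
    have pi' := hpos ti hi
    have pj' := hpos tj hj
    have base : ∀ ε : SL(2, ℤ), ε ∈ Gamma0 N → dist (pt3 ti w) (ε • pt3 tj w) < 2 * r →
        ti = tj ∧ (ε = 1 ∨ ε = -1) := by
      intro ε hε hd'
      have h1 := sep1 (γ := γ) hz hY hY1 hr hK1 hγ i1 pi' i2 j1 pj' j2 i3 j3 i4 j4 hε hd'
      exact ⟨Prod.ext h1.1.1 (Prod.ext h1.1.2.1 h1.1.2.2), h1.2⟩
    rcases bi with _ | _ <;> rcases bj with _ | _
    · -- both Fricke images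
      simp only [hv, Bool.false_eq_true, if_false] at hd
      have e1 := cj_smul ⟨δ, hδ⟩ (WN N • pt3 tj w)
      rw [WN_WNn] at e1
      rw [← dist_WN (N := N), WN_WNn, e1] at hd
      have h1 := base _ (cj ⟨δ, hδ⟩).2 hd
      exact ⟨by rw [h1.1], cj_cases h1.2⟩
    · exfalso
      simp only [hv, Bool.false_eq_true, if_false, if_true] at hd
      have hd2 : dist (pt3 tj w) (δ⁻¹ • (WN N • pt3 ti w)) < 2 * r := by
        rw [← dist_SL δ, smul_inv_smul, dist_comm]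
        exact hd
      exact sep2 (γ := γ) hz hY hY1 hr hK2 hKN hγ j1 pj' i1 pi' j3 i3 (Subgroup.inv_mem _ hδ) hd2
    · exfalso
      simp only [hv, Bool.false_eq_true, if_false, if_true] at hd
      exact sep2 (γ := γ) hz hY hY1 hr hK2 hKN hγ i1 pi' j1 pj' i3 j3 hδ hd
    · simp only [hv, if_true] at hd
      have h1 := base δ hδ hd
      exact ⟨by rw [h1.1], h1.2⟩
  have h1 := multi_mean ((Finset.univ : Finset Bool) ×ˢ T) v hr hsep G
  rw [Finset.sum_product, Fintype.sum_bool] at h1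
  simp only [hv, Bool.false_eq_true, if_false, if_true] at h1
  have h2 : ∑ t ∈ T, ‖G (WN N • pt3 t w)‖ ^ 2 * (WN N • pt3 t w : ℍ).im ^ 2 =
      ∑ t ∈ T, ‖G (pt3 t w)‖ ^ 2 * (pt3 t w).im ^ 2 :=
    Finset.sum_congr rfl fun t _ => norm_eq_of_FF (hG (pt3 t w))
  rw [h2] at h1
  refine le_trans (le_of_eq ?_) h1
  ring

end Pool.Agent.H485.CC
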