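import Pool.Agent.H485.CC.Nv6

/-!
# The kernel of an observable
-/

set_option autoImplicit false
set_option maxHeartbeats 1000000

open MeasureTheory UpperHalfPlane CongruenceSubgroup MatrixGroups Finset
open scoped Modular ENNReal

namespace Pool.Agent.H485.CC

open Pool.Agent.W165.RS (FF FF_meas FF_inv Inv)
open W388.LV (SF pet bf q_pet IsNewSet)
open Pool.Agent.W347.LV

/-- the triples of an observable -/
def TC (D : ℕ) (C : Finset ℕ) : Finset (ℕ × ℕ × ℕ) :=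
  (Icc 1 D ×ˢ (range D ×ˢ Icc 1 D)).filter fun t => t.2.1 < t.2.2 ∧ t.1 * t.2.2 ∈ C

lemma mem_TC {D : ℕ} {C : Finset ℕ} (hC : ∀ n ∈ C, 1 ≤ n ∧ n ≤ D) {t : ℕ × ℕ × ℕ} :
    t ∈ TC D C ↔ 0 < t.1 ∧ t.2.1 < t.2.2 ∧ t.1 * t.2.2 ∈ C := by
  unfold TC
  simp only [mem_filter, mem_product, mem_Icc, mem_range]
  constructor
  · rintro ⟨⟨⟨h1, _⟩, _⟩, h3, h4⟩
    exact ⟨h1, h3, h4⟩
  · rintro ⟨h1, h2, h3⟩
    have h4 := hC _ h3
    have h5 : 0 < t.2.2 := by omega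
    have h6 : t.1 ≤ t.1 * t.2.2 := Nat.le_mul_of_pos_right _ h5
    have h7 : t.2.2 ≤ t.1 * t.2.2 := Nat.le_mul_of_pos_left _ h1
    exact ⟨⟨⟨h1, by omega⟩, by omega, by omega, by omega⟩, h2, h3⟩

lemma tri_sum {β : Type} [AddCommMonoid β] {D : ℕ} {C : Finset ℕ} (hC : ∀ n ∈ C, 1 ≤ n ∧ n ≤ D)
    (g : ℕ × ℕ × ℕ → β) :
    ∑ n ∈ C, ∑ d ∈ n.divisors, ∑ b ∈ range d, g (n / d, b, d) = ∑ t ∈ TC D C, g t := by
  rw [Finset.sum_congr rfl fun n _ => (Finset.sum_sigma n.divisors (fun d => range d)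
    (fun x => g (n / x.1, x.2, x.1))).symm]
  rw [← Finset.sum_sigma C (fun n => n.divisors.sigma fun d => range d)
    (fun x => g (x.1 / x.2.1, x.2.2, x.2.1))]
  refine Finset.sum_nbij' (fun x => (x.1 / x.2.1, x.2.2, x.2.1))
    (fun t => ⟨t.1 * t.2.2, ⟨t.2.2, t.2.1⟩⟩) ?_ ?_ ?_ ?_ ?_
  · rintro ⟨n, d, b⟩ hx
    simp only [mem_sigma, mem_range, Nat.mem_divisors] at hx
    obtain ⟨h1, ⟨h2, h3⟩, h4⟩ := hx
    rw [mem_TC hC]
    exact ⟨Nat.div_pos (Nat.le_of_dvd (Nat.pos_of_ne_zero h3) h2) (Nat.lt_of_le_of_lt (Nat.zero_le _) h4), h4, by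
      show n / d * d ∈ C
      rw [Nat.div_mul_cancel h2]; exact h1⟩
  · rintro ⟨a, b, d⟩ hx
    rw [mem_TC hC] at hx
    obtain ⟨h1, h2, h3⟩ := hx
    simp only at h1 h2 h3
    simp only [mem_sigma, mem_range, Nat.mem_divisors]
    have := (hC _ h3).1
    exact ⟨h3, ⟨Dvd.intro_left _ rfl, by omega⟩, h2⟩
  · rintro ⟨n, d, b⟩ hx
    simp only [mem_sigma, mem_range, Nat.mem_divisors] at hx
    obtain ⟨h1, ⟨h2, h3⟩, h4⟩ := hx
    simp only [Sigma.mk.injEq]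
    refine ⟨Nat.div_mul_cancel h2, ?_⟩
    rfl
  · rintro ⟨a, b, d⟩ hx
    rw [mem_TC hC] at hx
    obtain ⟨h1, h2, h3⟩ := hx
    simp only at h1 h2 h3 ⊢
    rw [Nat.mul_div_cancel _ (by omega)]
  · rintro ⟨n, d, b⟩ hx
    rfl

variable {N : ℕ} [NeZero N]

lemma pet_comb {E : Finset (SF N 2)} (hE : IsNewSet N 2 E) (a : SF N 2 → ℂ) :
    (pet N 2 (∑ f ∈ E, a f • f : SF N 2) (∑ f ∈ E, a f • f : SF N 2)).re =
      ∑ f ∈ E, ‖a f‖ ^ 2 * (pet N 2 f f).re := by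
  have hP := q_pet
  rw [pet_sum_left hP, Complex.re_sum]
  refine Finset.sum_congr rfl fun f hf => ?_
  rw [pet_sum_right hP, Finset.sum_eq_single f]
  · rw [← mul_assoc, Complex.conj_mul']
    have him : pet N 2 f f = (((pet N 2 f f).re : ℝ) : ℂ) := by
      apply Complex.ext
      · simp
      · simp [((hP N 2).2.2.2 f).1]
    rw [him, ← Complex.ofReal_pow, ← Complex.ofReal_mul, Complex.ofReal_re, Complex.ofReal_re]
  · intro g hg hgf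
    rw [hE.orth f hf g hg (Ne.symm hgf), mul_zero]
  · intro h; exact absurd hf h

lemma comb_apply (E : Finset (SF N 2)) (a : SF N 2 → ℂ) (v : ℍ) :
    (∑ f ∈ E, a f • f : SF N 2) v = ∑ f ∈ E, a f * f v := by
  rw [cf_sum_apply]
  rfl

/-- pointwise bound for a combination of newforms -/
lemma comb_le (hN : N.Prime) {E : Finset (SF N 2)} (hE : IsNewSet N 2 E) (a : SF N 2 → ℂ) (v : ℍ) :
    ‖(∑ f ∈ E, a f • f : SF N 2) v‖ ^ 2 * v.im ^ 2 ≤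
      10 * (pet N 2 (∑ f ∈ E, a f • f : SF N 2) (∑ f ∈ E, a f • f : SF N 2)).re := by
  rw [pet_comb hE, comb_apply]
  have h1 : ‖∑ f ∈ E, a f * f v‖ ≤ ∑ f ∈ E, ‖a f‖ * ‖f v‖ := by
    refine (norm_sum_le _ _).trans (le_of_eq (Finset.sum_congr rfl fun f _ => norm_mul _ _))
  have h2 : (∑ f ∈ E, ‖a f‖ * ‖f v‖) ^ 2 ≤ (∑ f ∈ E, ‖a f‖ ^ 2 * (pet N 2 f f).re) *
      ∑ f ∈ E, ‖f v‖ ^ 2 / (pet N 2 f f).re := by
    have h3 := Finset.sum_mul_sq_le_sq_mul_sq E (fun f => ‖a f‖ * Real.sqrt (pet N 2 f f).re)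
      (fun f => ‖f v‖ / Real.sqrt (pet N 2 f f).re)
    refine le_trans (le_of_eq ?_) (h3.trans (le_of_eq ?_))
    · congr 1
      refine Finset.sum_congr rfl fun f hf => ?_
      have hp := Real.sqrt_pos.2 (pet_posB hE hf)
      field_simp
    · congr 1
      · refine Finset.sum_congr rfl fun f hf => ?_
        rw [mul_pow, Real.sq_sqrt (pet_posB hE hf).le]
      · refine Finset.sum_congr rfl fun f hf => ?_
        rw [div_pow, Real.sq_sqrt (pet_posB hE hf).le]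
  have h4 := KR_bdd hN hE v
  have h5 : KR E v = (∑ f ∈ E, ‖f v‖ ^ 2 / (pet N 2 f f).re) * v.im ^ 2 := by
    unfold KR
    rw [Finset.sum_mul]
    refine Finset.sum_congr rfl fun f _ => ?_
    ring
  have h6 : 0 ≤ ∑ f ∈ E, ‖a f‖ ^ 2 * (pet N 2 f f).re :=
    Finset.sum_nonneg fun f hf => mul_nonneg (sq_nonneg _) (pet_posB hE hf).le
  calc ‖∑ f ∈ E, a f * f v‖ ^ 2 * v.im ^ 2 ≤ (∑ f ∈ E, ‖a f‖ * ‖f v‖) ^ 2 * v.im ^ 2 :=
        mul_le_mul_of_nonneg_right (pow_le_pow_left₀ (norm_nonneg _) h1 2) (sq_nonneg _)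
    _ ≤ ((∑ f ∈ E, ‖a f‖ ^ 2 * (pet N 2 f f).re) * ∑ f ∈ E, ‖f v‖ ^ 2 / (pet N 2 f f).re) * v.im ^ 2 :=
        mul_le_mul_of_nonneg_right h2 (sq_nonneg _)
    _ = (∑ f ∈ E, ‖a f‖ ^ 2 * (pet N 2 f f).re) * KR E v := by rw [h5]; ring
    _ ≤ (∑ f ∈ E, ‖a f‖ ^ 2 * (pet N 2 f f).re) * 10 := mul_le_mul_of_nonneg_left h4 h6
    _ = _ := mul_comm _ _

/-- the weights of the triples -/
noncomputable def kt (c : ℕ → ℝ) (t : ℕ × ℕ × ℕ) : ℝ := c (t.1 * t.2.2) / Real.sqrt ((t.1 * t.2.2 : ℕ) : ℝ)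

/-- the observable as an operator -/
noncomputable def Lw (D : ℕ) (C : Finset ℕ) (c : ℕ → ℝ) (w : ℍ) (G : SF N 2) : ℂ :=
  ∑ t ∈ TC D C, (kt c t : ℂ) * (G (pt3 t w) * (pt3 t w).im)

/-- the value of the observable at a newform -/
noncomputable def Fv (C : Finset ℕ) (c : ℕ → ℝ) (f : SF N 2) : ℝ := ∑ n ∈ C, c n * W388.lamf f n

lemma Lw_eig {D : ℕ} {C : Finset ℕ} (hC : ∀ n ∈ C, 1 ≤ n ∧ n ≤ D)
    (hCN : ∀ n ∈ C, ∀ p ∈ n.primeFactors, ¬ p ∣ N) (c : ℕ → ℝ) (w : ℍ) {f : SF N 2} {ε : ℝ}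
    (hf : W388.IsNewf N 2 f ε) : Lw D C c w f = (Fv C c f : ℂ) * (f w * w.im) := by
  unfold Lw
  rw [← tri_sum hC (fun t => (kt c t : ℂ) * (f (pt3 t w) * (pt3 t w).im))]
  unfold Fv
  rw [Complex.ofReal_sum, Finset.sum_mul]
  refine Finset.sum_congr rfl fun n hn => ?_
  have hn1 := (hC n hn).1
  have h1 := hecke_pt hf hn1 (hCN n hn) w
  have hs : (0 : ℝ) < Real.sqrt n := Real.sqrt_pos.2 (by exact_mod_cast hn1)
  have h2 : ∑ d ∈ n.divisors, ∑ b ∈ range d, ((kt c (n / d, b, d) : ℝ) : ℂ) *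
      (f (pt3 (n / d, b, d) w) * (pt3 (n / d, b, d) w).im) =
      ((c n / Real.sqrt n : ℝ) : ℂ) * ∑ d ∈ n.divisors, ∑ b ∈ range d,
        f (tpt (n / d) b d w) * (tpt (n / d) b d w).im := by
    rw [Finset.mul_sum]
    refine Finset.sum_congr rfl fun d hd => ?_
    rw [Finset.mul_sum]
    refine Finset.sum_congr rfl fun b _ => ?_
    have h3 : n / d * d = n := Nat.div_mul_cancel (Nat.mem_divisors.1 hd).1
    unfold kt pt3
    simp only [h3]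
  rw [h2, ← h1, ← mul_assoc, ← Complex.ofReal_mul]
  congr 2
  field_simp

/-- the kernel of the observable -/
noncomputable def KF (E : Finset (SF N 2)) (C : Finset ℕ) (c : ℕ → ℝ) (w : ℍ) : ℝ :=
  ∑ f ∈ E, Fv C c f ^ 2 * (‖f w‖ ^ 2 * w.im ^ 2 / (pet N 2 f f).re)

lemma Lw_comb {D : ℕ} (C : Finset ℕ) (c : ℕ → ℝ) (w : ℍ) (E : Finset (SF N 2)) (a : SF N 2 → ℂ) :
    Lw D C c w (∑ f ∈ E, a f • f : SF N 2) = ∑ f ∈ E, a f * Lw D C c w f := by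
  unfold Lw
  simp_rw [comb_apply, Finset.mul_sum, Finset.sum_mul, Finset.mul_sum]
  rw [Finset.sum_comm]
  refine Finset.sum_congr rfl fun f _ => Finset.sum_congr rfl fun t _ => ?_
  ring

/-- the kernel from the norm of the functional -/
theorem KF_le {E : Finset (SF N 2)} (hE : IsNewSet N 2 E) {D : ℕ} {C : Finset ℕ}
    (hC : ∀ n ∈ C, 1 ≤ n ∧ n ≤ D) (hCN : ∀ n ∈ C, ∀ p ∈ n.primeFactors, ¬ p ∣ N) (c : ℕ → ℝ) (w : ℍ)
    {A : ℝ} (hA : 0 ≤ A) (h : ∀ a : SF N 2 → ℂ, ‖Lw D C c w (∑ f ∈ E, a f • f : SF N 2)‖ ^ 2 ≤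
      A * (pet N 2 (∑ f ∈ E, a f • f : SF N 2) (∑ f ∈ E, a f • f : SF N 2)).re) : KF E C c w ≤ A := by
  have hppos : ∀ f ∈ E, 0 < (pet N 2 f f).re := fun f hf => pet_posB hE hf
  set S : ℝ := ∑ f ∈ E, Fv C c f ^ 2 * ‖f w‖ ^ 2 / (pet N 2 f f).re with hS
  have hS0 : 0 ≤ S := Finset.sum_nonneg fun f hf => div_nonneg (by positivity) (hppos f hf).le
  set a : SF N 2 → ℂ := fun f => (starRingEnd ℂ) (f w) * ((Fv C c f / (pet N 2 f f).re : ℝ) : ℂ) with ha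
  have h1 := h a
  have e1 : Lw D C c w (∑ f ∈ E, a f • f : SF N 2) = ((S * w.im : ℝ) : ℂ) := by
    rw [Lw_comb, hS, Finset.sum_mul, Complex.ofReal_sum]
    refine Finset.sum_congr rfl fun f hf => ?_
    obtain ⟨ε, hε⟩ := hE.newf f hf
    rw [Lw_eig hC hCN c w hε]
    simp only [ha]
    have h4 : (starRingEnd ℂ) (f w) * f w = ((‖f w‖ ^ 2 : ℝ) : ℂ) := by
      rw [Complex.conj_mul']; push_cast; rfl
    have hp := (hppos f hf).ne'
    calc (starRingEnd ℂ) (f w) * ((Fv C c f / (pet N 2 f f).re : ℝ) : ℂ) *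
        ((Fv C c f : ℂ) * (f w * w.im)) =
        ((starRingEnd ℂ) (f w) * f w) * (((Fv C c f / (pet N 2 f f).re : ℝ) : ℂ) * (Fv C c f : ℂ) * w.im) := by
          ring
      _ = _ := by
          rw [h4, ← Complex.ofReal_mul, ← Complex.ofReal_mul, ← Complex.ofReal_mul]
          congr 1
          field_simp
  have e2 : (pet N 2 (∑ f ∈ E, a f • f : SF N 2) (∑ f ∈ E, a f • f : SF N 2)).re = S := by
    rw [pet_comb hE, hS]
    refine Finset.sum_congr rfl fun f hf => ?_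
    simp only [ha]
    rw [norm_mul, RCLike.norm_conj, Complex.norm_real, mul_pow, Real.norm_eq_abs, sq_abs, div_pow]
    have hp := (hppos f hf).ne'
    field_simp
  rw [e1, e2, Complex.norm_real, Real.norm_eq_abs, sq_abs] at h1
  have e3 : KF E C c w = S * w.im ^ 2 := by
    unfold KF
    rw [hS, Finset.sum_mul]
    refine Finset.sum_congr rfl fun f _ => ?_
    ring
  rw [e3]
  by_cases hz : S = 0
  · rw [hz]; simpa using hA
  · have hSp : 0 < S := lt_of_le_of_ne hS0 (Ne.symm hz)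
    have h3 : S * (S * w.im ^ 2) ≤ S * A := by
      calc S * (S * w.im ^ 2) = (S * w.im) ^ 2 := by ring
        _ ≤ _ := h1
        _ = _ := mul_comm _ _
    exact le_of_mul_le_mul_left h3 hSp

end Pool.Agent.H485.CC
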