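import Pool.Agent.H485.CC.Nv7

/-!
# The arithmetic of the triples
-/

set_option autoImplicit false
set_option maxHeartbeats 1000000

open UpperHalfPlane CongruenceSubgroup MatrixGroups Finset
open scoped Modular

namespace Pool.Agent.H485.CC

open Pool.Agent.W165.RS (FF FF_meas FF_inv Inv)
open W388.LV (SF pet bf q_pet IsNewSet)

/-- the sum of `e^(-1/2)` over the divisors -/
noncomputable def gq (n : ℕ) : ℝ := ∑ e ∈ n.divisors, 1 / Real.sqrt e

lemma gq_nonneg (n : ℕ) : 0 ≤ gq n := Finset.sum_nonneg fun _ _ => by positivity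

lemma gq_mono {a n : ℕ} (hn : n ≠ 0) (h : a ∣ n) : gq a ≤ gq n :=
  Finset.sum_le_sum_of_subset_of_nonneg (Nat.divisors_subset_of_dvd hn h) fun _ _ _ => by positivity

lemma one_le_gq {n : ℕ} (hn : n ≠ 0) : 1 ≤ gq n := by
  unfold gq
  refine le_trans (by simp) (Finset.single_le_sum (f := fun e : ℕ => 1 / Real.sqrt e)
    (fun _ _ => by positivity) (Nat.one_mem_divisors.2 hn))

lemma gq_mul {p k : ℕ} (hp : p.Prime) : gq (p * k) ≤ (1 + 1 / Real.sqrt p) * gq k := by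
  classical
  rcases Nat.eq_zero_or_pos k with h | hk
  · subst h
    simp [gq]
  have hsub : (p * k).divisors ⊆ k.divisors ∪ k.divisors.image (fun e => p * e) := by
    intro e he
    rw [Nat.mem_divisors] at he
    rw [mem_union, mem_image]
    by_cases hpe : p ∣ e
    · right
      obtain ⟨x, rfl⟩ := hpe
      exact ⟨x, Nat.mem_divisors.2 ⟨Nat.dvd_of_mul_dvd_mul_left hp.pos he.1, hk.ne'⟩, rfl⟩
    · left
      have hc : Nat.Coprime e p := ((Nat.Prime.coprime_iff_not_dvd hp).2 hpe).symm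
      exact Nat.mem_divisors.2 ⟨hc.dvd_of_dvd_mul_left he.1, hk.ne'⟩
  unfold gq
  calc ∑ e ∈ (p * k).divisors, 1 / Real.sqrt e ≤
      ∑ e ∈ k.divisors ∪ k.divisors.image (fun e => p * e), 1 / Real.sqrt e :=
        Finset.sum_le_sum_of_subset_of_nonneg hsub fun _ _ _ => by positivity
    _ ≤ ∑ e ∈ k.divisors, 1 / Real.sqrt e + ∑ e ∈ k.divisors.image (fun e => p * e), 1 / Real.sqrt e := by
        have := Finset.sum_union_inter (s₁ := k.divisors) (s₂ := k.divisors.image (fun e => p * e))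
          (f := fun e : ℕ => 1 / Real.sqrt e)
        have h2 : 0 ≤ ∑ e ∈ k.divisors ∩ k.divisors.image (fun e => p * e), 1 / Real.sqrt e :=
          Finset.sum_nonneg fun _ _ => by positivity
        linarith
    _ = _ := by
        rw [Finset.sum_image fun a _ b _ hab => Nat.eq_of_mul_eq_mul_left hp.pos hab, add_mul, one_mul,
          Finset.mul_sum]
        congr 1
        refine Finset.sum_congr rfl fun e _ => ?_
        push_cast
        rw [Real.sqrt_mul (Nat.cast_nonneg p), one_div_mul_one_div]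

lemma gq_le {P0 : ℕ} (hP0 : 1 ≤ P0) (k : ℕ) : ∀ n : ℕ, 1 ≤ n → n < 2 ^ (k + 1) →
    (∀ p ∈ n.primeFactors, P0 ≤ p) → gq n ≤ (1 + 1 / Real.sqrt P0) ^ k := by
  induction k with
  | zero =>
    intro n h1 h2 _
    have : n = 1 := by omega
    subst this
    simp [gq]
  | succ k ih =>
    intro n h1 h2 h3
    rcases Nat.lt_or_ge 1 n with h4 | h4
    swap
    · have : n = 1 := by omega
      subst this
      have hb : (1 : ℝ) ≤ 1 + 1 / Real.sqrt P0 := by
        have : 0 ≤ 1 / Real.sqrt (P0 : ℝ) := by positivity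
        linarith
      calc gq 1 = 1 := by simp [gq]
        _ ≤ _ := one_le_pow₀ hb
    · obtain ⟨p, hp, x, rfl⟩ := Nat.exists_prime_and_dvd (show n ≠ 1 by omega)
      have hx : 0 < x := Nat.pos_of_ne_zero fun h => by rw [h, mul_zero] at h4; omega
      have hpP : P0 ≤ p := h3 p (Nat.mem_primeFactors.2 ⟨hp, Dvd.intro _ rfl, by omega⟩)
      have hxlt : x < 2 ^ (k + 1) := by
        have h5 : 2 * x ≤ p * x := Nat.mul_le_mul_right _ hp.two_le
        have h6 : 2 ^ (k + 1 + 1) = 2 * 2 ^ (k + 1) := by ring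
        omega
      have h5 := ih x hx hxlt fun q hq => h3 q (by
        rw [Nat.mem_primeFactors] at hq ⊢
        exact ⟨hq.1, hq.2.1.mul_left _, by omega⟩)
      have hP0' : (0 : ℝ) < P0 := by exact_mod_cast hP0
      have h6 : 1 / Real.sqrt (p : ℝ) ≤ 1 / Real.sqrt (P0 : ℝ) := by
        apply one_div_le_one_div_of_le (Real.sqrt_pos.2 hP0')
        exact Real.sqrt_le_sqrt (by exact_mod_cast hpP)
      calc gq (p * x) ≤ (1 + 1 / Real.sqrt p) * gq x := gq_mul hp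
        _ ≤ (1 + 1 / Real.sqrt P0) * (1 + 1 / Real.sqrt P0) ^ k :=
          mul_le_mul (by linarith) h5 (gq_nonneg x) (by positivity)
        _ = _ := by ring

/-- the weight `m^(3/2)` -/
noncomputable def wmt (m : ℕ) : ℝ := m * Real.sqrt m

lemma wm_pos {m : ℕ} (hm : 0 < m) : 0 < wmt m := by
  have : (0 : ℝ) < m := by exact_mod_cast hm
  unfold wmt
  positivity

lemma wm_nonneg (m : ℕ) : 0 ≤ wmt m := by unfold wmt; positivity

lemma card_mult {d e : ℕ} (he : 0 < e) (hed : e ∣ d) : (((range d).filter fun b => e ∣ b).card : ℝ) * e ≤ d := by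
  classical
  have h1 : (range d).filter (fun b => e ∣ b) ⊆ (range (d / e)).image fun x => e * x := by
    intro b hb
    rw [mem_filter, mem_range] at hb
    obtain ⟨hb1, x, rfl⟩ := hb
    rw [mem_image]
    exact ⟨x, mem_range.2 (by rw [Nat.lt_div_iff_mul_lt' hed]; exact hb1), rfl⟩
  have h2 := (card_le_card h1).trans card_image_le
  rw [card_range] at h2
  have h3 : ((range d).filter fun b => e ∣ b).card * e ≤ d := by
    calc _ ≤ d / e * e := Nat.mul_le_mul_right _ h2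
      _ ≤ d := Nat.div_mul_le_self _ _
  exact_mod_cast h3

lemma sqrt_div_sum {a : ℕ} (ha : 0 < a) : ∑ e ∈ a.divisors, Real.sqrt e = Real.sqrt a * gq a := by
  unfold gq
  rw [Finset.mul_sum, ← Nat.sum_div_divisors a (fun e => Real.sqrt (e : ℝ))]
  refine Finset.sum_congr rfl fun e he => ?_
  have h1 := Nat.mem_divisors.1 he
  obtain ⟨x, rfl⟩ := h1.1
  have he0 : 0 < e := Nat.pos_of_ne_zero fun h => by rw [h, zero_mul] at ha; omega
  rw [Nat.mul_div_cancel_left _ he0]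
  have hs : (0 : ℝ) < Real.sqrt e := Real.sqrt_pos.2 (by exact_mod_cast he0)
  push_cast
  rw [Real.sqrt_mul (Nat.cast_nonneg e)]
  field_simp

/-- the sum of the weights over the triples of `n` -/
lemma tri_w {n : ℕ} (hn : 0 < n) : ∑ d ∈ n.divisors, ∑ b ∈ range d, wmt (gt3 (n / d, b, d)) ≤ n * gq n ^ 2 := by
  have h1 : ∀ d ∈ n.divisors, ∑ b ∈ range d, wmt (gt3 (n / d, b, d)) ≤
      d * (Real.sqrt ((n / d : ℕ) : ℝ) * gq n) := by
    intro d hd
    have hd1 := (Nat.mem_divisors.1 hd).1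
    have hd0 : 0 < d := Nat.pos_of_mem_divisors hd
    have ha0 : 0 < n / d := Nat.div_pos (Nat.le_of_dvd hn hd1) hd0
    have had : n / d ∣ n := Nat.div_dvd_of_dvd hd1
    calc ∑ b ∈ range d, wmt (gt3 (n / d, b, d)) ≤
        ∑ b ∈ range d, ∑ e ∈ (Nat.gcd (n / d) d).divisors, if e ∣ b then wmt e else 0 := by
          refine Finset.sum_le_sum fun b _ => ?_
          have hm : gt3 (n / d, b, d) ∈ (Nat.gcd (n / d) d).divisors := by
            rw [Nat.mem_divisors]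
            refine ⟨Nat.dvd_gcd ((Nat.gcd_dvd_left _ _).trans (Nat.gcd_dvd_left _ _)) (Nat.gcd_dvd_right _ _),
              (Nat.gcd_pos_of_pos_left _ ha0).ne'⟩
          have hb : gt3 (n / d, b, d) ∣ b := (Nat.gcd_dvd_left _ _).trans (Nat.gcd_dvd_right _ _)
          have h2 := Finset.single_le_sum (f := fun e => if e ∣ b then wmt e else 0)
            (fun e _ => by split_ifs; exacts [wm_nonneg e, le_rfl]) hm
          simp only [if_pos hb] at h2
          exact h2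
      _ = ∑ e ∈ (Nat.gcd (n / d) d).divisors, (((range d).filter fun b => e ∣ b).card : ℝ) * wmt e := by
          rw [Finset.sum_comm]
          refine Finset.sum_congr rfl fun e _ => ?_
          rw [← Finset.sum_filter, Finset.sum_const, nsmul_eq_mul]
      _ ≤ ∑ e ∈ (Nat.gcd (n / d) d).divisors, d * Real.sqrt e := by
          refine Finset.sum_le_sum fun e he => ?_
          have he0 : 0 < e := Nat.pos_of_mem_divisors he
          have hed : e ∣ d := (Nat.mem_divisors.1 he).1.trans (Nat.gcd_dvd_right _ _)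
          have h3 := mul_le_mul_of_nonneg_right (card_mult he0 hed) (Real.sqrt_nonneg (e : ℝ))
          unfold wmt
          linarith
      _ = d * ∑ e ∈ (Nat.gcd (n / d) d).divisors, Real.sqrt e := by rw [Finset.mul_sum]
      _ ≤ d * ∑ e ∈ (n / d).divisors, Real.sqrt e := by
          apply mul_le_mul_of_nonneg_left _ (Nat.cast_nonneg d)
          exact Finset.sum_le_sum_of_subset_of_nonneg (Nat.divisors_subset_of_dvd ha0.ne'
            (Nat.gcd_dvd_left _ _)) fun _ _ _ => Real.sqrt_nonneg _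
      _ ≤ _ := by
          rw [sqrt_div_sum ha0]
          apply mul_le_mul_of_nonneg_left _ (Nat.cast_nonneg d)
          exact mul_le_mul_of_nonneg_left (gq_mono hn.ne' had) (Real.sqrt_nonneg _)
  refine (Finset.sum_le_sum h1).trans (le_of_eq ?_)
  have h2 : ∀ d ∈ n.divisors, (d : ℝ) * (Real.sqrt ((n / d : ℕ) : ℝ) * gq n) =
      (n * gq n) * (1 / Real.sqrt ((n / d : ℕ) : ℝ)) := by
    intro d hd
    obtain ⟨x, rfl⟩ := (Nat.mem_divisors.1 hd).1
    have hd0 : 0 < d := Nat.pos_of_mem_divisors hd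
    have hx0 : 0 < x := Nat.pos_of_ne_zero fun h => by rw [h, mul_zero] at hn; omega
    rw [Nat.mul_div_cancel_left _ hd0]
    have hs : (0 : ℝ) < Real.sqrt x := Real.sqrt_pos.2 (by exact_mod_cast hx0)
    have hss : Real.sqrt x * Real.sqrt x = x := Real.mul_self_sqrt (Nat.cast_nonneg x)
    push_cast
    field_simp
    rw [sq, hss]
    ring
  rw [Finset.sum_congr rfl h2, ← Finset.mul_sum, Nat.sum_div_divisors n (fun e => 1 / Real.sqrt (e : ℝ))]
  show n * gq n * gq n = _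
  ring

/-- the first factor -/
theorem kt_sum {D : ℕ} {C : Finset ℕ} (hC : ∀ n ∈ C, 1 ≤ n ∧ n ≤ D) (c : ℕ → ℝ) :
    ∑ t ∈ TC D C, kt c t ^ 2 * wmt (gt3 t) ≤ ∑ n ∈ C, c n ^ 2 * gq n ^ 2 := by
  rw [← tri_sum hC (fun t => kt c t ^ 2 * wmt (gt3 t))]
  refine Finset.sum_le_sum fun n hn => ?_
  have hn1 : 0 < n := (hC n hn).1
  have hn0 : (0 : ℝ) < n := by exact_mod_cast hn1
  have h1 : ∑ d ∈ n.divisors, ∑ b ∈ range d, kt c (n / d, b, d) ^ 2 * wmt (gt3 (n / d, b, d)) =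
      (c n ^ 2 / n) * ∑ d ∈ n.divisors, ∑ b ∈ range d, wmt (gt3 (n / d, b, d)) := by
    rw [Finset.mul_sum]
    refine Finset.sum_congr rfl fun d hd => ?_
    rw [Finset.mul_sum]
    refine Finset.sum_congr rfl fun b _ => ?_
    have h3 : n / d * d = n := Nat.div_mul_cancel (Nat.mem_divisors.1 hd).1
    unfold kt
    simp only [h3]
    rw [div_pow, Real.sq_sqrt hn0.le]
  rw [h1]
  calc (c n ^ 2 / n) * ∑ d ∈ n.divisors, ∑ b ∈ range d, wmt (gt3 (n / d, b, d)) ≤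
      (c n ^ 2 / n) * (n * gq n ^ 2) := mul_le_mul_of_nonneg_left (tri_w hn1) (by positivity)
    _ = _ := by field_simp

/-- the primitive part of a triple -/
def prm (t : ℕ × ℕ × ℕ) : ℕ × ℕ × ℕ := (t.1 / gt3 t, t.2.1 / gt3 t, t.2.2 / gt3 t)

lemma prm_spec {D : ℕ} {C : Finset ℕ} (hC : ∀ n ∈ C, 1 ≤ n ∧ n ≤ D) {t : ℕ × ℕ × ℕ} (ht : t ∈ TC D C) :
    0 < gt3 t ∧ t = (gt3 t * (prm t).1, gt3 t * (prm t).2.1, gt3 t * (prm t).2.2) ∧
      Tr D (prm t) ∧ gt3 (prm t) = 1 ∧ (∀ w : ℍ, pt3 t w = pt3 (prm t) w) ∧ gt3 t ∣ t.1 * t.2.2 := by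
  rw [mem_TC hC] at ht
  obtain ⟨h1, h2, h3⟩ := ht
  have hm : 0 < gt3 t := Nat.gcd_pos_of_pos_left _ (Nat.gcd_pos_of_pos_left _ h1)
  have d1 : gt3 t ∣ t.1 := (Nat.gcd_dvd_left _ _).trans (Nat.gcd_dvd_left _ _)
  have d2 : gt3 t ∣ t.2.1 := (Nat.gcd_dvd_left _ _).trans (Nat.gcd_dvd_right _ _)
  have d3 : gt3 t ∣ t.2.2 := Nat.gcd_dvd_right _ _
  have e1 : gt3 t * (t.1 / gt3 t) = t.1 := Nat.mul_div_cancel' d1
  have e2 : gt3 t * (t.2.1 / gt3 t) = t.2.1 := Nat.mul_div_cancel' d2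
  have e3 : gt3 t * (t.2.2 / gt3 t) = t.2.2 := Nat.mul_div_cancel' d3
  have p1 : 0 < t.1 / gt3 t := Nat.div_pos (Nat.le_of_dvd h1 d1) hm
  have p3 : 0 < t.2.2 / gt3 t := Nat.div_pos (Nat.le_of_dvd (by omega) d3) hm
  refine ⟨hm, Prod.ext e1.symm (Prod.ext e2.symm e3.symm), ⟨p1, ?_, ?_⟩, ?_, ?_, d1.mul_right _⟩
  · show t.2.1 / gt3 t < t.2.2 / gt3 t
    exact Nat.div_lt_div_of_lt_of_dvd d3 h2
  · show t.1 / gt3 t * (t.2.2 / gt3 t) ≤ D
    calc _ ≤ t.1 * t.2.2 := Nat.mul_le_mul (Nat.div_le_self _ _) (Nat.div_le_self _ _)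
      _ ≤ D := (hC _ h3).2
  · show Nat.gcd (Nat.gcd (t.1 / gt3 t) (t.2.1 / gt3 t)) (t.2.2 / gt3 t) = 1
    rw [Nat.gcd_div d1 d2, Nat.gcd_div (show gt3 t ∣ Nat.gcd t.1 t.2.1 from Nat.gcd_dvd_left _ _) d3]
    exact Nat.div_self hm
  · intro w
    apply UpperHalfPlane.ext
    unfold pt3 prm
    rw [coe_tpt h1 (by omega), coe_tpt p1 p3]
    have hmc : (gt3 t : ℂ) ≠ 0 := by exact_mod_cast hm.ne'
    have c1 : (t.1 : ℂ) = gt3 t * ((t.1 / gt3 t : ℕ) : ℂ) := by exact_mod_cast e1.symm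
    have c2 : (t.2.1 : ℂ) = gt3 t * ((t.2.1 / gt3 t : ℕ) : ℂ) := by exact_mod_cast e2.symm
    have c3 : (t.2.2 : ℂ) = gt3 t * ((t.2.2 / gt3 t : ℕ) : ℂ) := by exact_mod_cast e3.symm
    have c4 : ((t.2.2 / gt3 t : ℕ) : ℂ) ≠ 0 := by exact_mod_cast p3.ne'
    rw [c1, c2, c3]
    generalize ((t.1 / gt3 t : ℕ) : ℂ) = x1 at *
    generalize ((t.2.1 / gt3 t : ℕ) : ℂ) = x2 at *
    generalize ((t.2.2 / gt3 t : ℕ) : ℂ) = x3 at *
    field_simp

lemma tele {m : ℕ} (hm : 0 < m) : 1 / wmt m ≤ 4 * (1 / Real.sqrt m - 1 / Real.sqrt ((m + 1 : ℕ) : ℝ)) := by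
  have hm0 : (0 : ℝ) < m := by exact_mod_cast hm
  have hm1 : (1 : ℝ) ≤ m := by exact_mod_cast hm
  set s : ℝ := Real.sqrt m with hs
  set u : ℝ := Real.sqrt ((m + 1 : ℕ) : ℝ) with hu
  have hs0 : 0 < s := Real.sqrt_pos.2 hm0
  have hs2 : s ^ 2 = m := Real.sq_sqrt hm0.le
  have hu2 : u ^ 2 = m + 1 := by
    rw [hu, Real.sq_sqrt (Nat.cast_nonneg _)]; push_cast; ring
  have hu0 : 0 < u := Real.sqrt_pos.2 (by positivity)
  have hsu : s ≤ u := Real.sqrt_le_sqrt (by push_cast; linarith)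
  have hu1 : u ≤ 3 / 2 * s := by
    apply le_of_pow_le_pow_left₀ (two_ne_zero) (by positivity)
    rw [mul_pow, hu2, hs2]
    nlinarith
  unfold wmt
  rw [← hs, ← hs2]
  have e1 : 4 * (1 / s - 1 / u) = 4 * (u ^ 2 - s ^ 2) / (s * u * (u + s)) := by
    field_simp
    ring
  rw [e1, hu2, hs2]
  rw [div_le_div_iff₀ (by positivity) (by positivity)]
  have : s * u * (u + s) ≤ 4 * (s ^ 2 * s) := by
    have h1 : u * (u + s) ≤ (3 / 2 * s) * (3 / 2 * s + s) := mul_le_mul hu1 (by linarith) (by positivity) (by positivity)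
    nlinarith
  rw [← hs2]
  nlinarith

lemma tail_wm {P0 : ℕ} (hP0 : 0 < P0) (X : ℕ) :
    ∑ m ∈ Finset.Ico P0 (P0 + X), 1 / wmt m ≤ 4 * (1 / Real.sqrt P0 - 1 / Real.sqrt ((P0 + X : ℕ) : ℝ)) := by
  induction X with
  | zero => simp
  | succ X ih =>
    rw [← add_assoc, Finset.sum_Ico_succ_top (by omega)]
    have h := tele (show 0 < P0 + X by omega)
    linarith

/-- the second factor -/
lemma fib_sum {D : ℕ} {C : Finset ℕ} (hC : ∀ n ∈ C, 1 ≤ n ∧ n ≤ D) {P0 : ℕ} (hP0 : 0 < P0)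
    (hCP : ∀ n ∈ C, ∀ p ∈ n.primeFactors, P0 ≤ p) (t0 : ℕ × ℕ × ℕ) :
    ∑ t ∈ TC D C with prm t = t0, 1 / wmt (gt3 t) ≤ 1 + 4 / Real.sqrt P0 := by
  classical
  have hinj : Set.InjOn gt3 (((TC D C).filter fun t => prm t = t0 : Finset (ℕ × ℕ × ℕ)) : Set (ℕ × ℕ × ℕ)) := by
    intro t ht t' ht' h
    rw [Finset.mem_coe, mem_filter] at ht ht'
    have h1 := (prm_spec hC ht.1).2.1
    have h2 := (prm_spec hC ht'.1).2.1
    rw [h1, h2, ht.2, ht'.2, h]
  have h1 : ∑ t ∈ TC D C with prm t = t0, 1 / wmt (gt3 t) =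
      ∑ m ∈ ((TC D C).filter fun t => prm t = t0).image gt3, 1 / wmt m :=
    (Finset.sum_image (f := fun m => 1 / wmt m) hinj).symm
  rw [h1]
  have hsub : ((TC D C).filter fun t => prm t = t0).image gt3 ⊆ {1} ∪ Finset.Ico P0 (P0 + (D + 1)) := by
    intro m hm
    rw [mem_image] at hm
    obtain ⟨t, ht, rfl⟩ := hm
    rw [mem_filter] at ht
    obtain ⟨q1, -, -, -, -, q6⟩ := prm_spec hC ht.1
    have hn := ((mem_TC hC).1 ht.1).2.2
    have hle : gt3 t ≤ D := (Nat.le_of_dvd (hC _ hn).1 q6).trans (hC _ hn).2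
    rw [mem_union, mem_singleton, mem_Ico]
    by_cases h1 : gt3 t = 1
    · left; exact h1
    · right
      obtain ⟨p, hp, hpd⟩ := Nat.exists_prime_and_dvd h1
      have := hCP _ hn p (Nat.mem_primeFactors.2 ⟨hp, hpd.trans q6, by have := (hC _ hn).1; omega⟩)
      have := Nat.le_of_dvd q1 hpd
      omega
  calc ∑ m ∈ ((TC D C).filter fun t => prm t = t0).image gt3, 1 / wmt m ≤
      ∑ m ∈ {1} ∪ Finset.Ico P0 (P0 + (D + 1)), 1 / wmt m :=
        Finset.sum_le_sum_of_subset_of_nonneg hsub fun _ _ _ => one_div_nonneg.2 (wm_nonneg _)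
    _ ≤ ∑ m ∈ {1}, 1 / wmt m + ∑ m ∈ Finset.Ico P0 (P0 + (D + 1)), 1 / wmt m := by
        have := Finset.sum_union_inter (s₁ := ({1} : Finset ℕ)) (s₂ := Finset.Ico P0 (P0 + (D + 1)))
          (f := fun m : ℕ => 1 / wmt m)
        have h2 : 0 ≤ ∑ m ∈ ({1} : Finset ℕ) ∩ Finset.Ico P0 (P0 + (D + 1)), 1 / wmt m :=
          Finset.sum_nonneg fun _ _ => one_div_nonneg.2 (wm_nonneg _)
        linarith
    _ ≤ 1 + 4 / Real.sqrt P0 := by
        have h3 := tail_wm hP0 (D + 1)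
        have h4 : ∑ m ∈ ({1} : Finset ℕ), 1 / wmt m = 1 := by simp [wmt]
        have h5 : 0 ≤ 1 / Real.sqrt ((P0 + (D + 1) : ℕ) : ℝ) := by positivity
        rw [h4]
        have h6 : 4 / Real.sqrt (P0 : ℝ) = 4 * (1 / Real.sqrt P0) := by ring
        rw [h6]
        linarith

end Pool.Agent.H485.CC
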