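import Pool.Agent.H485.CC.Pf7
import Pool.Graph.R_pool_sql_team_seeded_c8625f6e.K4H13.CV.Hyp

/-!
# The defect inequality
-/

set_option autoImplicit false
set_option maxHeartbeats 4000000

open Complex Filter Topology Set MeasureTheory UpperHalfPlane MatrixGroups CongruenceSubgroup
open scoped ENNReal Modular

namespace Pool.Agent.H485.CC

open Pool.Agent.W165.RS (FF ac FF_meas FF_inv Inv measurable_smul_SL measurableSet_fd)
open W388.LV (SF pet om ck IsNewSet)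
open W120.LV (eqS eqS_apply pet_eq lint_ne_top)

variable {N : ℕ} [NeZero N]

/-- the part of an orbit outside of the region at the cusp zero -/
noncomputable def kpc (N : ℕ) [NeZero N] (c : ℝ) (w : ℍ) : ℝ≥0∞ := 1 - (2 : ℝ≥0∞)⁻¹ * cntD N (D0 N c) w

lemma half_cnt_le (hN : 0 < N) {c : ℝ} (hc : 1 / (N : ℝ) ≤ c) (w : ℍ) :
    (2 : ℝ≥0∞)⁻¹ * cntD N (D0 N c) w ≤ 1 := by
  calc (2 : ℝ≥0∞)⁻¹ * cntD N (D0 N c) w ≤ (2 : ℝ≥0∞)⁻¹ * 2 := by gcongr; exact cntD_D0_le hN hc w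
    _ = 1 := ENNReal.inv_mul_cancel (by norm_num) (by norm_num)

lemma kpc_add (hN : 0 < N) {c : ℝ} (hc : 1 / (N : ℝ) ≤ c) (w : ℍ) :
    kpc N c w + (2 : ℝ≥0∞)⁻¹ * cntD N (D0 N c) w = 1 :=
  tsub_add_cancel_of_le (half_cnt_le hN hc w)

lemma kpc_le (c : ℝ) (w : ℍ) : kpc N c w ≤ 1 := tsub_le_self

lemma kpc_zero {c : ℝ} {w : ℍ} (h : 2 ≤ cntD N (D0 N c) w) : kpc N c w = 0 := by
  unfold kpc
  apply tsub_eq_zero_of_le
  calc (1 : ℝ≥0∞) = (2 : ℝ≥0∞)⁻¹ * 2 := (ENNReal.inv_mul_cancel (by norm_num) (by norm_num)).symm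
    _ ≤ _ := by gcongr

lemma kpc_meas (c : ℝ) : Measurable (kpc N c) :=
  measurable_const.sub ((cntD_meas (D0_meas c)).const_mul _)

lemma half_mul_tsum {ι : Type} (a b : ι → ℝ≥0∞) :
    ∑' γ, a γ * ((2 : ℝ≥0∞)⁻¹ * b γ) = (2 : ℝ≥0∞)⁻¹ * ∑' γ, a γ * b γ := by
  rw [← ENNReal.tsum_mul_left]
  refine tsum_congr fun γ => ?_
  ring

/-- splitting the Petersson norm -/
lemma pet_split (hN : N.Prime) {c : ℝ} (hc : 1 / (N : ℝ) ≤ c) {G : ℍ → ℝ≥0∞} (hG : Inv N G)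
    (hGm : Measurable G) :
    ∫⁻ z in (ModularGroup.fd : Set ℍ), ∑' γ : SL(2, ℤ) ⧸ Gamma0 N, G ((Quotient.out γ)⁻¹ • z) =
    (∫⁻ z in (ModularGroup.fd : Set ℍ), ∑' γ : SL(2, ℤ) ⧸ Gamma0 N,
      G ((Quotient.out γ)⁻¹ • z) * kpc N c ((Quotient.out γ)⁻¹ • z)) +
    ∫⁻ z, (D0 N c).indicator G z := by
  have : Finite (SL(2, ℤ) ⧸ Gamma0 N) := Subgroup.finite_quotient_of_finiteIndex
  rw [lintD hG hGm (D0_meas c), ← lintegral_const_mul' _ _ (by simp), ← lintegral_add_left]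
  · refine lintegral_congr fun z => ?_
    rw [← half_mul_tsum, ← ENNReal.tsum_add]
    refine tsum_congr fun γ => ?_
    rw [← mul_add, kpc_add hN.pos hc, mul_one]
  · refine Measurable.tsum fun γ => ?_
    exact (hGm.comp (measurable_smul_SL _)).mul ((kpc_meas c).comp (measurable_smul_SL _))

lemma KK_eq {B : Finset (SF N 2)} (hB : IsNewSet N 2 B) (w : ℍ) :
    ∑ f ∈ B, FF f w * (ENNReal.ofReal (pet N 2 f f).re)⁻¹ = ENNReal.ofReal (KR B w) := by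
  unfold KR
  rw [ENNReal.ofReal_sum_of_nonneg fun f hf => div_nonneg (by positivity) (pet_posB hB hf).le]
  refine Finset.sum_congr rfl fun f hf => ?_
  have hp := pet_posB hB hf
  rw [← ENNReal.ofReal_inv_of_pos hp]
  unfold Pool.Agent.W165.RS.FF
  rw [← ENNReal.ofReal_mul (by positivity), zpow_ofNat, div_eq_mul_inv]

/-- the part outside of the region -/
lemma outer_le (hN : N.Prime) {B : Finset (SF N 2)} (hB : IsNewSet N 2 B) {c r : ℝ} {K : ℕ}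
    (hc : 1 / (N : ℝ) ≤ c) (hr : 0 < r) (hK : 5 * (c * N) * Real.exp (3 * r) ≤ K) (hKN : 2 * K < N) :
    ∫⁻ z in (ModularGroup.fd : Set ℍ), ∑' γ : SL(2, ℤ) ⧸ Gamma0 N,
      ENNReal.ofReal (KR B ((Quotient.out γ)⁻¹ • z)) * kpc N c ((Quotient.out γ)⁻¹ • z) ≤
    ENNReal.ofReal (10 * (3 * (2 * K + 1) ^ 4 + 1) * (Real.pi / 3)) +
    ENNReal.ofReal (1 / (4 * Real.pi * rho2 r)) * ∫⁻ z in (ModularGroup.fd : Set ℍ),
      ∑' γ : SL(2, ℤ) ⧸ Gamma0 N, kpc N c ((Quotient.out γ)⁻¹ • z) := by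
  classical
  have : Finite (SL(2, ℤ) ⧸ Gamma0 N) := Subgroup.finite_quotient_of_finiteIndex
  have := Fintype.ofFinite (SL(2, ℤ) ⧸ Gamma0 N)
  have hN0 : (0 : ℝ) < N := by exact_mod_cast hN.pos
  have hcN : 1 ≤ c * N := by
    rw [div_le_iff₀ hN0] at hc
    exact hc
  set Bad : Finset (SL(2, ℤ) ⧸ Gamma0 N) := insert (QuotientGroup.mk 1)
    (Finset.univ.filter fun γ => ∃ g ∈ GK K, (Quotient.out γ)⁻¹ * g * Quotient.out γ ∈ Gamma0 N) with hBad
  have hBc : Bad.card ≤ 3 * (2 * K + 1) ^ 4 + 1 := by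
    refine (Finset.card_insert_le _ _).trans ?_
    have := bad_card hN hKN (Finset.univ.filter fun γ : SL(2, ℤ) ⧸ Gamma0 N =>
      ∃ g ∈ GK K, (Quotient.out γ)⁻¹ * g * Quotient.out γ ∈ Gamma0 N)
      (fun γ hγ => (Finset.mem_filter.1 hγ).2)
    omega
  set A : ℝ≥0∞ := ENNReal.ofReal (1 / (4 * Real.pi * rho2 r)) with hA
  have hpt : ∀ z ∈ (ModularGroup.fd : Set ℍ), ∑' γ : SL(2, ℤ) ⧸ Gamma0 N,
      ENNReal.ofReal (KR B ((Quotient.out γ)⁻¹ • z)) * kpc N c ((Quotient.out γ)⁻¹ • z) ≤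
      ENNReal.ofReal (10 * (3 * (2 * K + 1) ^ 4 + 1)) +
      A * ∑' γ : SL(2, ℤ) ⧸ Gamma0 N, kpc N c ((Quotient.out γ)⁻¹ • z) := by
    intro z hz
    have hterm : ∀ γ : SL(2, ℤ) ⧸ Gamma0 N,
        ENNReal.ofReal (KR B ((Quotient.out γ)⁻¹ • z)) * kpc N c ((Quotient.out γ)⁻¹ • z) ≤
        (if γ ∈ Bad then (10 : ℝ≥0∞) else 0) + A * kpc N c ((Quotient.out γ)⁻¹ • z) := by
      intro γ
      split_ifs with hγ
      · refine le_trans ?_ le_self_add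
        have h1 : ENNReal.ofReal (KR B ((Quotient.out γ)⁻¹ • z)) ≤ 10 := by
          refine (ENNReal.ofReal_le_ofReal (KR_bdd hN hB _)).trans ?_
          simp
        calc _ ≤ (10 : ℝ≥0∞) * 1 := mul_le_mul' h1 (kpc_le c _)
          _ = 10 := mul_one _
      · rw [zero_add]
        have hγ1 : γ ≠ QuotientGroup.mk 1 := fun h => hγ (by rw [hBad, h]; exact Finset.mem_insert_self _ _)
        have hγ2 : ¬ ∃ g ∈ GK K, (Quotient.out γ)⁻¹ * g * Quotient.out γ ∈ Gamma0 N := fun h =>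
          hγ (by rw [hBad]; exact Finset.mem_insert_of_mem (Finset.mem_filter.2 ⟨Finset.mem_univ _, h⟩))
        have hout : (Quotient.out γ : SL(2, ℤ)) ∉ Gamma0 N := by
          intro h
          apply hγ1
          have e1 : (QuotientGroup.mk (Quotient.out γ) : SL(2, ℤ) ⧸ Gamma0 N) = γ := QuotientGroup.out_eq' γ
          rw [← e1, QuotientGroup.eq, mul_one]
          exact Subgroup.inv_mem _ h
        by_cases hy : c * N < z.im
        · obtain ⟨δ, hδ, hm⟩ := exists_mem0 hN hout (v := z) (c := c) (by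
            rw [lt_div_iff₀ hN0]; exact hy)
          rw [kpc_zero (cntD_ge hδ hm), mul_zero, mul_zero]
        · push Not at hy
          refine mul_le_mul' ?_ (le_refl _)
          apply ENNReal.ofReal_le_ofReal
          exact KR_sharp hB hr fun δ hδ hd => good_pt hz hy hcN hr hK hγ2 δ hδ hd
    refine (ENNReal.tsum_le_tsum hterm).trans ?_
    rw [ENNReal.tsum_add, ENNReal.tsum_mul_left]
    gcongr
    rw [tsum_fintype, Finset.sum_ite_mem, Finset.univ_inter, Finset.sum_const, nsmul_eq_mul]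
    have h3 : ((Bad.card : ℕ) : ℝ≥0∞) ≤ ((3 * (2 * K + 1) ^ 4 + 1 : ℕ) : ℝ≥0∞) := by exact_mod_cast hBc
    calc ((Bad.card : ℕ) : ℝ≥0∞) * 10 ≤ ((3 * (2 * K + 1) ^ 4 + 1 : ℕ) : ℝ≥0∞) * 10 := by gcongr
      _ = ENNReal.ofReal (10 * (3 * (2 * K + 1) ^ 4 + 1)) := by
        rw [show (10 * (3 * (2 * (K : ℝ) + 1) ^ 4 + 1)) = (((3 * (2 * K + 1) ^ 4 + 1) * 10 : ℕ) : ℝ) by
          push_cast; ring, ENNReal.ofReal_natCast]
        push_cast
        rfl
  refine (setLIntegral_mono' measurableSet_fd hpt).trans ?_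
  rw [lintegral_add_left measurable_const, lintegral_const_mul' _ _ (by rw [hA]; exact ENNReal.ofReal_ne_top),
    setLIntegral_const]
  refine add_le_add ?_ le_rfl
  rw [ENNReal.ofReal_mul (p := 10 * (3 * (2 * (K : ℝ) + 1) ^ 4 + 1)) (by positivity)]
  exact mul_le_mul' le_rfl vol_fd

/-- the mass of the region outside -/
lemma kpc_mass (hN : N.Prime) {c : ℝ} (hc : 1 / (N : ℝ) ≤ c) (hc0 : 0 < c) :
    (∫⁻ z in (ModularGroup.fd : Set ℍ), ∑' γ : SL(2, ℤ) ⧸ Gamma0 N, kpc N c ((Quotient.out γ)⁻¹ • z)) +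
      ENNReal.ofReal (1 / c) ≤ ENNReal.ofReal ((N + 1) * (Real.pi / 3)) := by
  have h1 := pet_split hN hc (G := fun _ => 1) (fun _ _ _ => rfl) measurable_const
  have : Finite (SL(2, ℤ) ⧸ Gamma0 N) := Subgroup.finite_quotient_of_finiteIndex
  have := Fintype.ofFinite (SL(2, ℤ) ⧸ Gamma0 N)
  have e1 : ∫⁻ z, (D0 N c).indicator (fun _ => (1 : ℝ≥0∞)) z = ENNReal.ofReal (1 / c) := by
    rw [← vol_D0 (N := N) hc0]
    exact lintegral_indicator_one (D0_meas c)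
  simp only [one_mul] at h1
  rw [e1] at h1
  rw [← h1]
  have hcard : Fintype.card (SL(2, ℤ) ⧸ Gamma0 N) = N + 1 := by
    have h2 := (Pool.Agent.K4H13.CV.small N hN).1
    rw [Nat.card_eq_fintype_card] at h2
    exact h2
  rw [setLIntegral_const, tsum_fintype, Finset.sum_const, Finset.card_univ, hcard, nsmul_eq_mul, mul_one,
    ENNReal.ofReal_mul (by positivity)]
  gcongr
  · rw [show ((N : ℝ) + 1) = ((N + 1 : ℕ) : ℝ) by push_cast; ring, ENNReal.ofReal_natCast]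
  · exact vol_fd

/-- the defect inequality -/
theorem defic (hN : N.Prime) {B : Finset (SF N 2)} (hB : IsNewSet N 2 B) {c r : ℝ} {K : ℕ}
    (hc : 1 / (N : ℝ) ≤ c) (hr : 0 < r) (hK : 5 * (c * N) * Real.exp (3 * r) ≤ K) (hKN : 2 * K < N) :
    (B.card : ℝ) ≤ 10 * (3 * (2 * K + 1) ^ 4 + 1) * (Real.pi / 3) +
      1 / (4 * Real.pi * rho2 r) * ((N + 1) * (Real.pi / 3) - 1 / c) +
      ∑ f ∈ B, (∑' n : ℕ, ‖ac f n‖ ^ 2 * (Real.exp (-(4 * Real.pi * n * c)) / (4 * Real.pi * n))) /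
        (pet N 2 f f).re := by
  classical
  have : Finite (SL(2, ℤ) ⧸ Gamma0 N) := Subgroup.finite_quotient_of_finiteIndex
  have hN0 : (0 : ℝ) < N := by exact_mod_cast hN.pos
  have hc0 : 0 < c := lt_of_lt_of_le (by positivity) hc
  have hr2 := rho2_pos hr
  have hP : ∀ f ∈ B, ENNReal.ofReal (pet N 2 f f).re = ∫⁻ z in (ModularGroup.fd : Set ℍ),
      ∑' γ : SL(2, ℤ) ⧸ Gamma0 N, FF f ((Quotient.out γ)⁻¹ • z) := by
    intro f _
    rw [pet_eq f, ENNReal.ofReal_toReal (lint_ne_top f)]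
  have hW : ∀ f ∈ B, ∀ z : ℍ, FF f (WN N • z) = FF f z := by
    intro f hf z
    obtain ⟨ε, hε⟩ := hB.newf f hf
    exact FF_W hε z
  have hS : ∀ f ∈ B, (∫⁻ z, (D0 N c).indicator (FF f) z) = ENNReal.ofReal
      (∑' n : ℕ, ‖ac f n‖ ^ 2 * (Real.exp (-(4 * Real.pi * n * c)) / (4 * Real.pi * n))) := by
    intro f hf
    have h1 := pet_split hN hc (FF_inv f) (FF_meas f)
    have hne : (∫⁻ z, (D0 N c).indicator (FF f) z) ≠ ∞ := by
      refine ne_top_of_le_ne_top (lint_ne_top f) ?_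
      rw [h1]
      exact le_add_self
    rw [lint_D0 (hW f hf), UU_int f hc0] at hne ⊢
    rw [← ENNReal.ofReal_toReal hne, ENNReal.tsum_toReal_eq fun n => ENNReal.ofReal_ne_top]
    congr 1
    refine tsum_congr fun n => ENNReal.toReal_ofReal (by positivity)
  have hcard : (B.card : ℝ≥0∞) = ∑ f ∈ B, ((∫⁻ z in (ModularGroup.fd : Set ℍ),
      ∑' γ : SL(2, ℤ) ⧸ Gamma0 N, FF f ((Quotient.out γ)⁻¹ • z) * kpc N c ((Quotient.out γ)⁻¹ • z)) *
        (ENNReal.ofReal (pet N 2 f f).re)⁻¹ +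
      ENNReal.ofReal ((∑' n : ℕ, ‖ac f n‖ ^ 2 * (Real.exp (-(4 * Real.pi * n * c)) / (4 * Real.pi * n))) /
        (pet N 2 f f).re)) := by
    rw [Finset.card_eq_sum_ones]
    push_cast
    refine Finset.sum_congr rfl fun f hf => ?_
    have hp := pet_posB hB hf
    have h1 := pet_split hN hc (FF_inv f) (FF_meas f)
    rw [← hP f hf, hS f hf] at h1
    rw [div_eq_mul_inv, ENNReal.ofReal_mul (tsum_nonneg fun n => by positivity),
      ENNReal.ofReal_inv_of_pos hp, ← add_mul, ← h1, ENNReal.mul_inv_cancel]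
    · simpa using hp
    · exact ENNReal.ofReal_ne_top
  have hsum : ∑ f ∈ B, (∫⁻ z in (ModularGroup.fd : Set ℍ),
      ∑' γ : SL(2, ℤ) ⧸ Gamma0 N, FF f ((Quotient.out γ)⁻¹ • z) * kpc N c ((Quotient.out γ)⁻¹ • z)) *
        (ENNReal.ofReal (pet N 2 f f).re)⁻¹ =
      ∫⁻ z in (ModularGroup.fd : Set ℍ), ∑' γ : SL(2, ℤ) ⧸ Gamma0 N,
        ENNReal.ofReal (KR B ((Quotient.out γ)⁻¹ • z)) * kpc N c ((Quotient.out γ)⁻¹ • z) := by
    have hm : ∀ f : SF N 2, Measurable fun z : ℍ => ∑' γ : SL(2, ℤ) ⧸ Gamma0 N,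
        FF f ((Quotient.out γ)⁻¹ • z) * kpc N c ((Quotient.out γ)⁻¹ • z) := fun f =>
      Measurable.tsum fun γ => ((FF_meas f).comp (measurable_smul_SL _)).mul
        ((kpc_meas c).comp (measurable_smul_SL _))
    have e1 : ∀ f ∈ B, (∫⁻ z in (ModularGroup.fd : Set ℍ),
      ∑' γ : SL(2, ℤ) ⧸ Gamma0 N, FF f ((Quotient.out γ)⁻¹ • z) * kpc N c ((Quotient.out γ)⁻¹ • z)) *
        (ENNReal.ofReal (pet N 2 f f).re)⁻¹ = ∫⁻ z in (ModularGroup.fd : Set ℍ),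
      (∑' γ : SL(2, ℤ) ⧸ Gamma0 N, FF f ((Quotient.out γ)⁻¹ • z) * kpc N c ((Quotient.out γ)⁻¹ • z)) *
        (ENNReal.ofReal (pet N 2 f f).re)⁻¹ := by
      intro f _
      rw [lintegral_mul_const _ (hm f)]
    rw [Finset.sum_congr rfl e1, ← lintegral_finsetSum _ fun f _ => (hm f).mul_const _]
    refine lintegral_congr fun z => ?_
    have := Fintype.ofFinite (SL(2, ℤ) ⧸ Gamma0 N)
    simp_rw [tsum_fintype, Finset.sum_mul]
    rw [Finset.sum_comm]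
    refine Finset.sum_congr rfl fun γ _ => ?_
    rw [← KK_eq hB, Finset.sum_mul]
    refine Finset.sum_congr rfl fun f _ => ?_
    ring
  rw [Finset.sum_add_distrib, hsum, ← ENNReal.ofReal_sum_of_nonneg fun f hf =>
    div_nonneg (tsum_nonneg fun n => by positivity) (pet_posB hB hf).le] at hcard
  have hout := outer_le hN hB hc hr hK hKN
  have hmass := kpc_mass hN hc hc0
  set T : ℝ≥0∞ := ∫⁻ z in (ModularGroup.fd : Set ℍ), ∑' γ : SL(2, ℤ) ⧸ Gamma0 N,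
    kpc N c ((Quotient.out γ)⁻¹ • z) with hT
  have hTne : T ≠ ∞ := by
    refine ne_top_of_le_ne_top ENNReal.ofReal_ne_top (le_trans ?_ hmass)
    exact le_self_add
  have hTr : T.toReal ≤ (N + 1) * (Real.pi / 3) - 1 / c := by
    have h1 := ENNReal.toReal_mono ENNReal.ofReal_ne_top hmass
    rw [ENNReal.toReal_add hTne ENNReal.ofReal_ne_top, ENNReal.toReal_ofReal (by positivity),
      ENNReal.toReal_ofReal (by positivity)] at h1
    linarith
  have hfin : (B.card : ℝ≥0∞) ≤ ENNReal.ofReal (10 * (3 * (2 * K + 1) ^ 4 + 1) * (Real.pi / 3)) +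
      ENNReal.ofReal (1 / (4 * Real.pi * rho2 r)) * T +
      ENNReal.ofReal (∑ f ∈ B, (∑' n : ℕ, ‖ac f n‖ ^ 2 *
        (Real.exp (-(4 * Real.pi * n * c)) / (4 * Real.pi * n))) / (pet N 2 f f).re) := by
    rw [hcard]
    gcongr
  have hAT : ENNReal.ofReal (1 / (4 * Real.pi * rho2 r)) * T ≠ ∞ :=
    ENNReal.mul_ne_top ENNReal.ofReal_ne_top hTne
  have hfin2 := ENNReal.toReal_mono (ENNReal.add_ne_top.2 ⟨ENNReal.add_ne_top.2
    ⟨ENNReal.ofReal_ne_top, hAT⟩, ENNReal.ofReal_ne_top⟩) hfin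
  rw [ENNReal.toReal_add (ENNReal.add_ne_top.2 ⟨ENNReal.ofReal_ne_top, hAT⟩) ENNReal.ofReal_ne_top,
    ENNReal.toReal_add ENNReal.ofReal_ne_top hAT, ENNReal.toReal_mul,
    ENNReal.toReal_ofReal (by positivity), ENNReal.toReal_ofReal (by positivity),
    ENNReal.toReal_ofReal (Finset.sum_nonneg fun f hf =>
      div_nonneg (tsum_nonneg fun n => by positivity) (pet_posB hB hf).le), ENNReal.toReal_natCast] at hfin2
  refine hfin2.trans ?_
  gcongr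

end Pool.Agent.H485.CC
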