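import Pool.Agent.H485.CC.Nv8
import Pool.Agent.H485.CC.Pf8

/-!
# The natural mean of an observable
-/

set_option autoImplicit false
set_option maxHeartbeats 1000000

open MeasureTheory UpperHalfPlane CongruenceSubgroup MatrixGroups Finset
open scoped Modular ENNReal

namespace Pool.Agent.H485.CC

open Pool.Agent.W165.RS (FF FF_meas FF_inv Inv measurable_smul_SL measurableSet_fd)
open W388.LV (SF pet bf q_pet IsNewSet)
open W120.LV (pet_eq lint_ne_top)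

variable {N : ℕ} [NeZero N]

/-- a combination of newforms of sign `s` is invariant under the involution -/
lemma FF_sgn {E : Finset (SF N 2)} {s : ℝ} (hs : |s| = 1) (hE : ∀ f ∈ E, W388.IsNewf N 2 f s)
    (c : SF N 2 → ℂ) (z : ℍ) :
    FF (∑ f ∈ E, c f • f) (WN N • z) = FF (∑ f ∈ E, c f • f) z := by
  have hN : (0 : ℝ) < N := by exact_mod_cast Nat.pos_of_ne_zero (NeZero.ne N)
  have hz : (z : ℂ) ≠ 0 := z.ne_zero
  have hzn : 0 < ‖(z : ℂ)‖ := norm_pos_iff.2 hz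
  have hNc : (N : ℂ) ≠ 0 := by exact_mod_cast hN.ne'
  set κ : ℂ := (((Real.sqrt N : ℝ) : ℂ) * (z : ℂ) / Complex.I) ^ (2 : ℤ) with hκ
  have h1 : (∑ f ∈ E, c f • f) (WN N • z) = (s : ℂ) * (κ * (∑ f ∈ E, c f • f) z) := by
    rw [comb_apply, comb_apply, Finset.mul_sum, Finset.mul_sum]
    refine Finset.sum_congr rfl fun f hf => ?_
    have h3 := (hE f hf).fricke z (WN N • z) (by
      rw [WN_smul]
      field_simp)
    rw [h3, ← hκ]
    ring
  unfold Pool.Agent.W165.RS.FF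
  rw [h1, WN_im]
  congr 1
  rw [norm_mul, norm_mul, Complex.norm_real, Real.norm_eq_abs, hs, one_mul, hκ, norm_zpow, norm_div,
    norm_mul, Complex.norm_I, Complex.norm_real,
    Real.norm_eq_abs, abs_of_nonneg (Real.sqrt_nonneg _), div_one, zpow_ofNat, zpow_ofNat, zpow_ofNat]
  have hs : Real.sqrt N ^ 2 = N := Real.sq_sqrt hN.le
  rw [mul_pow (Real.sqrt N), hs]
  field_simp

omit [NeZero N] in
lemma Lw_cs {D : ℕ} {C : Finset ℕ} (hC : ∀ n ∈ C, 1 ≤ n ∧ n ≤ D) (c : ℕ → ℝ) (w : ℍ) (G : SF N 2) :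
    ‖Lw D C c w G‖ ^ 2 ≤ (∑ n ∈ C, c n ^ 2 * gq n ^ 2) *
      ∑ t ∈ TC D C, (‖G (pt3 t w)‖ ^ 2 * (pt3 t w).im ^ 2) * (1 / wmt (gt3 t)) := by
  have h1 : ‖Lw D C c w G‖ ≤ ∑ t ∈ TC D C, |kt c t| * (‖G (pt3 t w)‖ * (pt3 t w).im) := by
    unfold Lw
    refine (norm_sum_le _ _).trans (le_of_eq (Finset.sum_congr rfl fun t _ => ?_))
    rw [norm_mul, norm_mul, Complex.norm_real, Complex.norm_real, Real.norm_eq_abs, Real.norm_eq_abs,
      abs_of_pos (pt3 t w).im_pos]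
  have hpos : ∀ t ∈ TC D C, 0 < wmt (gt3 t) := fun t ht => wm_pos (prm_spec hC ht).1
  have h2 := Finset.sum_mul_sq_le_sq_mul_sq (TC D C) (fun t => |kt c t| * Real.sqrt (wmt (gt3 t)))
    (fun t => (‖G (pt3 t w)‖ * (pt3 t w).im) / Real.sqrt (wmt (gt3 t)))
  have e1 : ∑ t ∈ TC D C, |kt c t| * Real.sqrt (wmt (gt3 t)) *
      ((‖G (pt3 t w)‖ * (pt3 t w).im) / Real.sqrt (wmt (gt3 t))) =
      ∑ t ∈ TC D C, |kt c t| * (‖G (pt3 t w)‖ * (pt3 t w).im) := by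
    refine Finset.sum_congr rfl fun t ht => ?_
    have := Real.sqrt_pos.2 (hpos t ht)
    field_simp
  have e2 : ∑ t ∈ TC D C, (|kt c t| * Real.sqrt (wmt (gt3 t))) ^ 2 =
      ∑ t ∈ TC D C, kt c t ^ 2 * wmt (gt3 t) := by
    refine Finset.sum_congr rfl fun t ht => ?_
    rw [mul_pow, sq_abs, Real.sq_sqrt (hpos t ht).le]
  have e3 : ∑ t ∈ TC D C, ((‖G (pt3 t w)‖ * (pt3 t w).im) / Real.sqrt (wmt (gt3 t))) ^ 2 =
      ∑ t ∈ TC D C, (‖G (pt3 t w)‖ ^ 2 * (pt3 t w).im ^ 2) * (1 / wmt (gt3 t)) := by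
    refine Finset.sum_congr rfl fun t ht => ?_
    rw [div_pow, Real.sq_sqrt (hpos t ht).le, mul_pow]
    ring
  rw [e1, e2, e3] at h2
  refine (pow_le_pow_left₀ (norm_nonneg _) h1 2).trans (h2.trans ?_)
  apply mul_le_mul_of_nonneg_right (kt_sum hC c)
  exact Finset.sum_nonneg fun t ht => mul_nonneg (by positivity) (one_div_nonneg.2 (hpos t ht).le)

/-- the trivial bound for the kernel -/
theorem KF_all (hN : N.Prime) {E : Finset (SF N 2)} (hE : IsNewSet N 2 E) {D : ℕ} {C : Finset ℕ}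
    (hC : ∀ n ∈ C, 1 ≤ n ∧ n ≤ D) (hCN : ∀ n ∈ C, ∀ p ∈ n.primeFactors, ¬ p ∣ N) (c : ℕ → ℝ) (w : ℍ) :
    KF E C c w ≤ 10 * (D : ℝ) ^ 3 * ∑ n ∈ C, c n ^ 2 * gq n ^ 2 := by
  have hQ : 0 ≤ ∑ n ∈ C, c n ^ 2 * gq n ^ 2 := Finset.sum_nonneg fun _ _ => by positivity
  refine KF_le hE hC hCN c w (by positivity) fun a => ?_
  set G : SF N 2 := ∑ f ∈ E, a f • f with hG
  refine (Lw_cs hC c w G).trans ?_
  have hp : 0 ≤ (pet N 2 G G).re := ((q_pet N 2).2.2.2 G).2.1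
  have h1 : ∑ t ∈ TC D C, (‖G (pt3 t w)‖ ^ 2 * (pt3 t w).im ^ 2) * (1 / wmt (gt3 t)) ≤
      ∑ t ∈ TC D C, 10 * (pet N 2 G G).re := by
    refine Finset.sum_le_sum fun t ht => ?_
    have hm := (prm_spec hC ht).1
    have hw1 : 1 ≤ wmt (gt3 t) := by
      have h2 : (1 : ℝ) ≤ gt3 t := by exact_mod_cast hm
      unfold wmt
      exact one_le_mul_of_one_le_of_one_le h2 (Real.one_le_sqrt.2 h2)
    have h3 : 1 / wmt (gt3 t) ≤ 1 := by
      rw [div_le_one (by linarith)]; exact hw1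
    have h4 := comb_le hN hE a (pt3 t w)
    calc _ ≤ (‖G (pt3 t w)‖ ^ 2 * (pt3 t w).im ^ 2) * 1 := mul_le_mul_of_nonneg_left h3 (by positivity)
      _ ≤ _ := by rw [mul_one]; exact h4
  have h2 : ((TC D C).card : ℝ) ≤ (D : ℝ) ^ 3 := by
    have h3 : (TC D C).card ≤ D ^ 3 := by
      unfold TC
      refine (card_filter_le _ _).trans (le_of_eq ?_)
      rw [card_product, card_product, Nat.card_Icc, card_range]
      simp
      ring
    exact_mod_cast h3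
  rw [Finset.sum_const, nsmul_eq_mul] at h1
  calc (∑ n ∈ C, c n ^ 2 * gq n ^ 2) *
      ∑ t ∈ TC D C, (‖G (pt3 t w)‖ ^ 2 * (pt3 t w).im ^ 2) * (1 / wmt (gt3 t)) ≤
      (∑ n ∈ C, c n ^ 2 * gq n ^ 2) * ((D : ℝ) ^ 3 * (10 * (pet N 2 G G).re)) :=
        mul_le_mul_of_nonneg_left (h1.trans (mul_le_mul_of_nonneg_right h2 (by positivity))) hQ
    _ = _ := by ring

/-- the sharp bound for the kernel -/
theorem KF_good {E : Finset (SF N 2)} (hE : IsNewSet N 2 E) {s : ℝ} (hs : |s| = 1)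
    (hEs : ∀ f ∈ E, W388.IsNewf N 2 f s) {D : ℕ} {C : Finset ℕ}
    (hC : ∀ n ∈ C, 1 ≤ n ∧ n ≤ D) (hCN : ∀ n ∈ C, ∀ p ∈ n.primeFactors, ¬ p ∣ N)
    {P0 : ℕ} (hP0 : 0 < P0) (hCP : ∀ n ∈ C, ∀ p ∈ n.primeFactors, P0 ≤ p) (c : ℕ → ℝ)
    {K1 K2 : ℕ} {z : ℍ} (hz : z ∈ (ModularGroup.fd : Set ℍ))
    {Y r : ℝ} (hY : z.im ≤ Y) (hY1 : 1 ≤ Y) (hr : 0 < r) (hK1 : 5 * Y * Real.exp (3 * r) * D ≤ K1)
    (hK2 : 5 * Y * Real.exp (3 * r) * (D * Real.sqrt N) ≤ K2) (hKN : 2 * K2 < N)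
    {γ : SL(2, ℤ) ⧸ Gamma0 N} (hγ : Gd N D K1 K2 γ) :
    KF E C c ((Quotient.out γ)⁻¹ • z) ≤ (1 + 4 / Real.sqrt P0) / (8 * Real.pi * rho2 r) *
      ∑ n ∈ C, c n ^ 2 * gq n ^ 2 := by
  classical
  have hQ : 0 ≤ ∑ n ∈ C, c n ^ 2 * gq n ^ 2 := Finset.sum_nonneg fun _ _ => by positivity
  have hρ := rho2_pos hr
  set w : ℍ := (Quotient.out γ)⁻¹ • z with hw
  refine KF_le hE hC hCN c w (by positivity) fun a => ?_
  set G : SF N 2 := ∑ f ∈ E, a f • f with hG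
  refine (Lw_cs hC c w G).trans ?_
  have h1 : ∑ t ∈ TC D C, (‖G (pt3 t w)‖ ^ 2 * (pt3 t w).im ^ 2) * (1 / wmt (gt3 t)) ≤
      (1 + 4 / Real.sqrt P0) * ∑ u ∈ (TC D C).image prm, ‖G (pt3 u w)‖ ^ 2 * (pt3 u w).im ^ 2 := by
    rw [← Finset.sum_fiberwise_of_maps_to (s := TC D C) (t := (TC D C).image prm) (g := prm)
      (fun t ht => Finset.mem_image_of_mem _ ht), Finset.mul_sum]
    refine Finset.sum_le_sum fun u _ => ?_
    have h2 : ∑ t ∈ TC D C with prm t = u, (‖G (pt3 t w)‖ ^ 2 * (pt3 t w).im ^ 2) * (1 / wmt (gt3 t)) =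
        (‖G (pt3 u w)‖ ^ 2 * (pt3 u w).im ^ 2) * ∑ t ∈ TC D C with prm t = u, 1 / wmt (gt3 t) := by
      rw [Finset.mul_sum]
      refine Finset.sum_congr rfl fun t ht => ?_
      rw [Finset.mem_filter] at ht
      rw [(prm_spec hC ht.1).2.2.2.2.1 w, ht.2]
    rw [h2, mul_comm]
    exact mul_le_mul_of_nonneg_right (fib_sum hC hP0 hCP u) (by positivity)
  have h2 := hecke_mean (N := N) (γ := γ) hz hY hY1 hr hK1 hK2 hKN hγ ((TC D C).image prm) (fun u hu => by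
    rw [Finset.mem_image] at hu
    obtain ⟨t, ht, rfl⟩ := hu
    have h3 := prm_spec hC ht
    exact ⟨h3.2.2.1, h3.2.2.2.1⟩) (G := G) (fun v => FF_sgn hs hEs a v)
  rw [← hw] at h2
  set X : ℝ := ∑ u ∈ (TC D C).image prm, ‖G (pt3 u w)‖ ^ 2 * (pt3 u w).im ^ 2 with hX
  have hP : 0 ≤ 1 + 4 / Real.sqrt (P0 : ℝ) := by positivity
  have h3 : X ≤ (pet N 2 G G).re / (8 * Real.pi * rho2 r) := by
    rw [le_div_iff₀ (by positivity)]
    linarith
  calc (∑ n ∈ C, c n ^ 2 * gq n ^ 2) *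
      ∑ t ∈ TC D C, (‖G (pt3 t w)‖ ^ 2 * (pt3 t w).im ^ 2) * (1 / wmt (gt3 t)) ≤
      (∑ n ∈ C, c n ^ 2 * gq n ^ 2) * ((1 + 4 / Real.sqrt P0) * ((pet N 2 G G).re / (8 * Real.pi * rho2 r))) :=
        mul_le_mul_of_nonneg_left (h1.trans (mul_le_mul_of_nonneg_left h3 hP)) hQ
    _ = _ := by ring

lemma vol_cusp {Y : ℝ} (hY : 0 < Y) :
    volume ((ModularGroup.fd : Set ℍ) ∩ {z : ℍ | Y < z.im}) ≤ ENNReal.ofReal (2 / Y) := by
  have hsub : (ModularGroup.fd : Set ℍ) ∩ {z : ℍ | Y < z.im} ⊆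
      UU Y ∪ (fun z : ℍ => (Matrix.SpecialLinearGroup.mapGL ℝ ModularGroup.T) • z) ⁻¹' UU Y := by
    rintro z ⟨hz1, hz2⟩
    have h1 := abs_le.1 hz1.2
    have hz3 : Y < z.im := hz2
    by_cases h : 0 ≤ z.re
    · left
      exact ⟨⟨h, by linarith⟩, hz3⟩
    · right
      push Not at h
      have e : (Matrix.SpecialLinearGroup.mapGL ℝ ModularGroup.T) • z = (1 : ℝ) +ᵥ z :=
        modular_T_smul z
      show (Matrix.SpecialLinearGroup.mapGL ℝ ModularGroup.T) • z ∈ UU Y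
      rw [e]
      refine ⟨⟨?_, ?_⟩, ?_⟩
      · rw [vadd_re]; linarith
      · rw [vadd_re]; linarith
      · rw [vadd_im]; exact hz3
  refine (measure_mono hsub).trans ((measure_union_le _ _).trans (le_of_eq ?_))
  rw [(measurePreserving_smul (Matrix.SpecialLinearGroup.mapGL ℝ ModularGroup.T)
    (volume : Measure ℍ)).measure_preimage (measurableSet_UU Y).nullMeasurableSet, vol_UU hY,
    ← ENNReal.ofReal_add (by positivity) (by positivity)]
  congr 1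
  ring

/-- the natural mean of an observable over the forms of one sign -/
theorem nat_core (hN : N.Prime) (hN2 : 2 < N) {E : Finset (SF N 2)} (hE : IsNewSet N 2 E) {s : ℝ}
    (hs : |s| = 1) (hEs : ∀ f ∈ E, W388.IsNewf N 2 f s) {D : ℕ} {C : Finset ℕ}
    (hC : ∀ n ∈ C, 1 ≤ n ∧ n ≤ D) (hCN : ∀ n ∈ C, ∀ p ∈ n.primeFactors, ¬ p ∣ N)
    {P0 : ℕ} (hP0 : 0 < P0) (hCP : ∀ n ∈ C, ∀ p ∈ n.primeFactors, P0 ≤ p) (c : ℕ → ℝ)
    {K1 K2 : ℕ} {Y r : ℝ} (hY1 : 1 ≤ Y) (hr : 0 < r) (hK1 : 5 * Y * Real.exp (3 * r) * D ≤ K1)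
    (hK2 : 5 * Y * Real.exp (3 * r) * (D * Real.sqrt N) ≤ K2) (hKN1 : 2 * K1 < N) (hKN : 2 * K2 < N)
    {Bd : ℝ} (hBd : 3 * (2 * K1 + 1) ^ 4 + 3 * ((D * D : ℕ) * ((2 * K2 + 1) *
      (2 * (729 * ((K2 ^ 2 + N * (D * D) : ℕ) : ℝ) ^ (1 / 4 : ℝ))))) ≤ Bd) :
    ∑ f ∈ E, Fv C c f ^ 2 ≤ (∑ n ∈ C, c n ^ 2 * gq n ^ 2) *
      ((1 + 4 / Real.sqrt P0) / (8 * Real.pi * rho2 r) * ((N + 1) * (Real.pi / 3)) +
        10 * (D : ℝ) ^ 3 * (Bd * (Real.pi / 3) + (N + 1) * (2 / Y))) := by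
  classical
  have : Finite (SL(2, ℤ) ⧸ Gamma0 N) := Subgroup.finite_quotient_of_finiteIndex
  have := Fintype.ofFinite (SL(2, ℤ) ⧸ Gamma0 N)
  have hN0 : (0 : ℝ) < N := by exact_mod_cast hN.pos
  have hρ := rho2_pos hr
  have hY0 : 0 < Y := by linarith
  set Q : ℝ := ∑ n ∈ C, c n ^ 2 * gq n ^ 2 with hQd
  have hQ : 0 ≤ Q := Finset.sum_nonneg fun _ _ => by positivity
  set Ag : ℝ := (1 + 4 / Real.sqrt P0) / (8 * Real.pi * rho2 r) * Q with hAg
  set At : ℝ := 10 * (D : ℝ) ^ 3 * Q with hAt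
  have hAg0 : 0 ≤ Ag := by positivity
  have hAt0 : 0 ≤ At := by positivity
  have hBd0 : 0 ≤ Bd := le_trans (by positivity) hBd
  have hcard : Fintype.card (SL(2, ℤ) ⧸ Gamma0 N) = N + 1 := by
    have h2 := (Pool.Agent.K4H13.CV.small N hN).1
    rw [Nat.card_eq_fintype_card] at h2
    exact h2
  have hKE : ∀ w : ℍ, ∑ f ∈ E, ENNReal.ofReal (Fv C c f ^ 2) * (FF f w * (ENNReal.ofReal (pet N 2 f f).re)⁻¹) =
      ENNReal.ofReal (KF E C c w) := by
    intro w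
    unfold KF
    rw [ENNReal.ofReal_sum_of_nonneg fun f hf => mul_nonneg (sq_nonneg _)
      (div_nonneg (by positivity) (pet_posB hE hf).le)]
    refine Finset.sum_congr rfl fun f hf => ?_
    have hp := pet_posB hE hf
    rw [ENNReal.ofReal_mul (sq_nonneg _), ← ENNReal.ofReal_inv_of_pos hp]
    congr 1
    unfold Pool.Agent.W165.RS.FF
    rw [← ENNReal.ofReal_mul (by positivity), zpow_ofNat, div_eq_mul_inv]
  have hm : ∀ f : SF N 2, Measurable fun z : ℍ => ∑' γ : SL(2, ℤ) ⧸ Gamma0 N,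
      FF f ((Quotient.out γ)⁻¹ • z) := fun f =>
    Measurable.tsum fun γ => (FF_meas f).comp (measurable_smul_SL _)
  have hsum : ENNReal.ofReal (∑ f ∈ E, Fv C c f ^ 2) = ∫⁻ z in (ModularGroup.fd : Set ℍ),
      ∑ γ : SL(2, ℤ) ⧸ Gamma0 N, ENNReal.ofReal (KF E C c ((Quotient.out γ)⁻¹ • z)) := by
    rw [ENNReal.ofReal_sum_of_nonneg fun f _ => sq_nonneg _]
    have e1 : ∀ f ∈ E, ENNReal.ofReal (Fv C c f ^ 2) = ∫⁻ z in (ModularGroup.fd : Set ℍ),
        ENNReal.ofReal (Fv C c f ^ 2) * ((∑' γ : SL(2, ℤ) ⧸ Gamma0 N, FF f ((Quotient.out γ)⁻¹ • z)) *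
          (ENNReal.ofReal (pet N 2 f f).re)⁻¹) := by
      intro f hf
      have hp := pet_posB hE hf
      rw [lintegral_const_mul' _ _ ENNReal.ofReal_ne_top, lintegral_mul_const' _ _ (by
        rw [ENNReal.inv_ne_top]; simpa using hp)]
      have h1 : ENNReal.ofReal (pet N 2 f f).re = ∫⁻ z in (ModularGroup.fd : Set ℍ),
          ∑' γ : SL(2, ℤ) ⧸ Gamma0 N, FF f ((Quotient.out γ)⁻¹ • z) := by
        conv_lhs => rw [pet_eq f]
        rw [ENNReal.ofReal_toReal (lint_ne_top f)]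
      rw [← h1, ENNReal.mul_inv_cancel (by simpa using hp) ENNReal.ofReal_ne_top, mul_one]
    rw [Finset.sum_congr rfl e1, ← lintegral_finsetSum _ fun f _ => ((hm f).mul_const _).const_mul _]
    refine lintegral_congr fun z => ?_
    simp_rw [tsum_fintype, ← hKE, Finset.sum_mul, Finset.mul_sum]
    rw [Finset.sum_comm]
  -- pointwise
  have hpt : ∀ z ∈ (ModularGroup.fd : Set ℍ),
      ∑ γ : SL(2, ℤ) ⧸ Gamma0 N, ENNReal.ofReal (KF E C c ((Quotient.out γ)⁻¹ • z)) ≤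
      ENNReal.ofReal ((N + 1) * Ag + Bd * At) +
        {z : ℍ | Y < z.im}.indicator (fun _ => ENNReal.ofReal ((N + 1) * At)) z := by
    intro z hz
    by_cases hy : Y < z.im
    · rw [Set.indicator_of_mem (show z ∈ {z : ℍ | Y < z.im} from hy)]
      refine le_trans ?_ le_add_self
      refine (Finset.sum_le_card_nsmul _ _ (ENNReal.ofReal At) fun γ _ =>
        ENNReal.ofReal_le_ofReal (KF_all hN hE hC hCN c _)).trans (le_of_eq ?_)
      rw [Finset.card_univ, hcard, nsmul_eq_mul, ← ENNReal.ofReal_natCast,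
        ← ENNReal.ofReal_mul (by positivity)]
      push_cast
      rfl
    · rw [Set.indicator_of_notMem (show z ∉ {z : ℍ | Y < z.im} from hy), add_zero]
      push Not at hy
      set Bs : Finset (SL(2, ℤ) ⧸ Gamma0 N) := Finset.univ.filter fun γ => ¬ Gd N D K1 K2 γ with hBs
      have hb := bad_card2 hN hN2 hKN1 (by omega : K2 < N) Bs fun γ hγ => (Finset.mem_filter.1 hγ).2
      have hterm : ∀ γ ∈ (Finset.univ : Finset (SL(2, ℤ) ⧸ Gamma0 N)),
          ENNReal.ofReal (KF E C c ((Quotient.out γ)⁻¹ • z)) ≤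
          ENNReal.ofReal (Ag + if γ ∈ Bs then At else 0) := by
        intro γ _
        apply ENNReal.ofReal_le_ofReal
        split_ifs with h
        · have := KF_all hN hE hC hCN c ((Quotient.out γ)⁻¹ • z)
          linarith
        · rw [add_zero]
          have hg : Gd N D K1 K2 γ := by
            by_contra hcon
            exact h (Finset.mem_filter.2 ⟨Finset.mem_univ _, hcon⟩)
          exact KF_good hE hs hEs hC hCN hP0 hCP c hz hy hY1 hr hK1 hK2 hKN hg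
      refine (Finset.sum_le_sum hterm).trans ?_
      rw [← ENNReal.ofReal_sum_of_nonneg fun γ _ => by split_ifs <;> positivity]
      apply ENNReal.ofReal_le_ofReal
      rw [Finset.sum_add_distrib, Finset.sum_const, Finset.card_univ, hcard, nsmul_eq_mul,
        Finset.sum_ite_mem, Finset.univ_inter, Finset.sum_const, nsmul_eq_mul]
      have := mul_le_mul_of_nonneg_right (hb.trans hBd) hAt0
      push_cast
      linarith
  have hms : MeasurableSet {z : ℍ | Y < z.im} :=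
    measurableSet_lt measurable_const UpperHalfPlane.continuous_im.measurable
  have h1 := setLIntegral_mono' (μ := (volume : Measure ℍ)) measurableSet_fd hpt
  rw [← hsum, lintegral_add_left measurable_const, setLIntegral_const, lintegral_indicator hms,
    Measure.restrict_restrict hms, setLIntegral_const] at h1
  have h2 : ENNReal.ofReal (∑ f ∈ E, Fv C c f ^ 2) ≤
      ENNReal.ofReal (((N + 1) * Ag + Bd * At) * (Real.pi / 3) + ((N + 1) * At) * (2 / Y)) := by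
    refine h1.trans ?_
    have e1 : ENNReal.ofReal (((N + 1) * Ag + Bd * At) * (Real.pi / 3)) =
        ENNReal.ofReal ((N + 1) * Ag + Bd * At) * ENNReal.ofReal (Real.pi / 3) :=
      ENNReal.ofReal_mul (by positivity)
    have e2 : ENNReal.ofReal (((N + 1) * At) * (2 / Y)) =
        ENNReal.ofReal ((N + 1) * At) * ENNReal.ofReal (2 / Y) := ENNReal.ofReal_mul (by positivity)
    have e3 : ENNReal.ofReal (((N + 1) * Ag + Bd * At) * (Real.pi / 3) + ((N + 1) * At) * (2 / Y)) =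
        ENNReal.ofReal (((N + 1) * Ag + Bd * At) * (Real.pi / 3)) +
        ENNReal.ofReal (((N + 1) * At) * (2 / Y)) := ENNReal.ofReal_add (by positivity) (by positivity)
    rw [e3, e1, e2]
    refine add_le_add (mul_le_mul' le_rfl vol_fd) (mul_le_mul' le_rfl ?_)
    rw [Set.inter_comm]
    exact vol_cusp hY0
  rw [ENNReal.ofReal_le_ofReal_iff (by positivity)] at h2
  refine h2.trans (le_of_eq ?_)
  rw [hAg, hAt]
  ring

end Pool.Agent.H485.CC
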