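import Pool.Agent.H485.CC.Tru
import Pool.Graph.R_seed8.Erdos456.Mertens

/-!
# Parameters
-/

set_option autoImplicit false
set_option maxHeartbeats 4000000

open MeasureTheory Real Finset Filter

namespace Pool.Agent.H485.CC

/-- the double logarithm -/
noncomputable def ll (N : ℕ) : ℝ := log (log N)

lemma tendsto_log : Tendsto (fun N : ℕ => log (N : ℝ)) atTop atTop :=
  Real.tendsto_log_atTop.comp tendsto_natCast_atTop_atTop

lemma tendsto_ll : Tendsto ll atTop atTop := Real.tendsto_log_atTop.comp tendsto_log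

lemma ev_ll (c : ℝ) : ∀ᶠ N : ℕ in atTop, c ≤ ll N := tendsto_ll.eventually_ge_atTop c

lemma ev_log (c : ℝ) : ∀ᶠ N : ℕ in atTop, c ≤ log (N : ℝ) := tendsto_log.eventually_ge_atTop c

lemma exp_ll {N : ℕ} (h : 0 < log (N : ℝ)) : exp (ll N) = log N := Real.exp_log h

lemma ev_pow (C : ℝ) (k : ℕ) {ε : ℝ} (hε : 0 < ε) : ∀ᶠ N : ℕ in atTop, C * ll N ^ k ≤ exp (ε * ll N) := by
  have h1 := (isLittleO_pow_exp_pos_mul_atTop (k := k) hε).const_mul_left C
  have h2 := (h1.comp_tendsto tendsto_ll).bound (c := 1) one_pos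
  filter_upwards [h2] with N hN
  simp only [Function.comp_apply, Real.norm_eq_abs, one_mul, abs_exp] at hN
  exact (le_abs_self _).trans hN

lemma ev_lin (C : ℝ) {ε : ℝ} (hε : 0 < ε) : ∀ᶠ N : ℕ in atTop, C ≤ ε * ll N := by
  filter_upwards [ev_ll (C / ε)] with N hN
  rw [div_le_iff₀ hε] at hN
  linarith

lemma ev_logll (C : ℝ) {ε : ℝ} (hε : 0 < ε) : ∀ᶠ N : ℕ in atTop, C * log (ll N) ≤ ε * ll N := by
  have h1 := (Real.isLittleO_log_id_atTop.const_mul_left C)
  have h2 := (h1.comp_tendsto tendsto_ll).bound (c := ε) hε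
  filter_upwards [h2, ev_ll 0] with N hN h0
  simp only [Function.comp_apply, Real.norm_eq_abs, id_eq, abs_of_nonneg h0] at hN
  exact (le_abs_self _).trans hN

/-- the primes up to `n` -/
def pr (n : ℕ) : Finset ℕ := (Finset.Icc 1 n).filter Nat.Prime

lemma mem_pr {n p : ℕ} : p ∈ pr n ↔ p ≤ n ∧ p.Prime := by
  unfold pr
  rw [Finset.mem_filter, Finset.mem_Icc]
  exact ⟨fun h => ⟨h.1.2, h.2⟩, fun h => ⟨⟨h.2.one_le, h.1⟩, h.2⟩⟩

lemma pr_mono {m n : ℕ} (h : m ≤ n) : pr m ⊆ pr n := by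
  intro p hp
  rw [mem_pr] at *
  exact ⟨hp.1.trans h, hp.2⟩

/-- the length of the sum -/
noncomputable def Yb (N : ℕ) : ℕ := ⌊(N : ℝ) ^ (3 / 4 : ℝ)⌋₊

/-- the bound for the small primes -/
noncomputable def zr (N : ℕ) : ℝ := exp (log N / ll N ^ 2)

/-- the bound for the small primes -/
noncomputable def zb (N : ℕ) : ℕ := ⌊zr N⌋₊

/-- all primes -/
noncomputable def Sb (N : ℕ) : Finset ℕ := pr (Yb N)

/-- the small primes -/
noncomputable def Ss (N : ℕ) : Finset ℕ := pr (zb N)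

lemma Sb_prime {N : ℕ} : ∀ p ∈ Sb N, p.Prime := fun _ hp => (mem_pr.1 hp).2

lemma Ss_prime {N : ℕ} : ∀ p ∈ Ss N, p.Prime := fun _ hp => (mem_pr.1 hp).2

lemma Sb_ndvd {N : ℕ} (hN : N.Prime) : ∀ p ∈ Sb N, ¬ p ∣ N := by
  intro p hp hd
  have h1 := mem_pr.1 hp
  have h2 : p = N := (Nat.prime_dvd_prime_iff_eq h1.2 hN).1 hd
  have h3 : (1 : ℝ) < N := by exact_mod_cast hN.one_lt
  have h4 : ((Yb N : ℕ) : ℝ) ≤ (N : ℝ) ^ (3 / 4 : ℝ) := Nat.floor_le (by positivity)
  have h5 : (N : ℝ) ^ (3 / 4 : ℝ) < (N : ℝ) ^ (1 : ℝ) := Real.rpow_lt_rpow_of_exponent_lt h3 (by norm_num)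
  rw [Real.rpow_one] at h5
  have h6 : (p : ℝ) ≤ (Yb N : ℕ) := by exact_mod_cast h1.1
  rw [h2] at h6
  linarith

lemma ev_sub : ∀ᶠ N : ℕ in atTop, Ss N ⊆ Sb N := by
  filter_upwards [ev_ll 2, ev_log 1] with N h1 h2
  apply pr_mono
  apply Nat.floor_le_floor
  unfold zr
  have hN0 : (0 : ℝ) < N := by
    by_contra h
    have : (N : ℝ) = 0 := le_antisymm (not_lt.1 h) (Nat.cast_nonneg N)
    rw [this, Real.log_zero] at h2
    linarith
  rw [Real.rpow_def_of_pos hN0]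
  apply exp_le_exp.2
  rw [div_le_iff₀ (by positivity)]
  nlinarith [mul_nonneg (by linarith : (0:ℝ) ≤ log N) (by nlinarith : (0:ℝ) ≤ ll N ^ 2 - 4)]

lemma zb_le (N : ℕ) : ((zb N : ℕ) : ℝ) ≤ zr N := Nat.floor_le (exp_pos _).le

lemma Ss_le {N : ℕ} : ∀ p ∈ Ss N, (p : ℝ) ≤ zr N := by
  intro p hp
  have h1 : (p : ℝ) ≤ (zb N : ℕ) := by exact_mod_cast (mem_pr.1 hp).1
  exact h1.trans (zb_le N)

lemma zr_ge_one {N : ℕ} (h : 0 ≤ log (N : ℝ)) : 1 ≤ zr N := by
  unfold zr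
  apply Real.one_le_exp
  positivity

/-- `z` tends to infinity -/
lemma ev_zlog (C : ℝ) : ∀ᶠ N : ℕ in atTop, C ≤ log N / ll N ^ 2 := by
  filter_upwards [ev_pow C 2 (ε := 1) one_pos, ev_ll 1, ev_log 1] with N h1 h2 h3
  rw [le_div_iff₀ (by positivity)]
  rw [one_mul, exp_ll (by linarith)] at h1
  exact h1

theorem ev_sumS {ε : ℝ} (hε : 0 < ε) : ∀ᶠ N : ℕ in atTop,
    |∑ p ∈ Ss N, (1 : ℝ) / p - ll N| ≤ ε * ll N := by
  obtain ⟨C, hC⟩ := Pool.Agent.Erdos456.Mert.mertens_inv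
  have hC0 : 0 ≤ C := (abs_nonneg _).trans (hC 3 le_rfl)
  filter_upwards [ev_zlog 3, ev_lin (C + 2) (half_pos hε), ev_logll 2 (half_pos hε), ev_ll 1,
    ev_log 1] with N h1 h2 h3 h4 h5
  set X : ℝ := log N / ll N ^ 2 with hX
  have hz : zr N = exp X := rfl
  have h6 : exp X / 2 ≤ (zb N : ℕ) := by
    have h7 : zr N - 1 < (zb N : ℕ) := Nat.sub_one_lt_floor _
    have h8 : 2 ≤ exp X := by
      have := add_one_le_exp X
      linarith
    rw [hz] at h7
    linarith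
  have h9 : (3 : ℝ) ≤ (zb N : ℕ) := by
    have h10 : 3 ≤ zb N := by
      unfold zb
      apply Nat.le_floor
      rw [hz]
      have := add_one_le_exp X
      push_cast
      linarith
    exact_mod_cast h10
  have h10 : X / 2 ≤ log (zb N : ℕ) := by
    have h11 : log (exp X / 2) ≤ log (zb N : ℕ) := Real.log_le_log (by positivity) h6
    rw [Real.log_div (exp_pos _).ne' (by norm_num), Real.log_exp] at h11
    have h12 : log 2 ≤ 1 := by have := Real.log_two_lt_d9; linarith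
    linarith
  have h11 : log (zb N : ℕ) ≤ X := by
    rw [Real.log_le_iff_le_exp (by linarith)]
    exact zb_le N
  have hX0 : 0 < X := by linarith
  have hL0 : 0 < log (N : ℝ) := by linarith
  have hlogX : log X = ll N - 2 * log (ll N) := by
    rw [hX, Real.log_div hL0.ne' (by positivity), Real.log_pow]
    push_cast
    rfl
  have h12 : log (log (zb N : ℕ)) ≤ ll N := by
    calc log (log (zb N : ℕ)) ≤ log X := Real.log_le_log (by linarith) h11
      _ = ll N - 2 * log (ll N) := hlogX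
      _ ≤ _ := by
        have : 0 ≤ log (ll N) := Real.log_nonneg h4
        linarith
  have h13 : ll N - 2 * log (ll N) - 1 ≤ log (log (zb N : ℕ)) := by
    calc ll N - 2 * log (ll N) - 1 ≤ log (X / 2) := by
          rw [Real.log_div hX0.ne' (by norm_num), hlogX]
          have h12 : log 2 ≤ 1 := by have := Real.log_two_lt_d9; linarith
          linarith
      _ ≤ _ := Real.log_le_log (by positivity) h10
  have h14 := abs_le.1 (hC (zb N) (by exact_mod_cast h9))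
  have h15 : ∑ p ∈ Ss N, (1 : ℝ) / p = ∑ p ∈ (Finset.Icc 1 (zb N)).filter Nat.Prime, (1 : ℝ) / p := rfl
  rw [abs_le, h15]
  constructor <;> linarith [h14.1, h14.2]

theorem ev_sumB {ε : ℝ} (hε : 0 < ε) : ∀ᶠ N : ℕ in atTop,
    |∑ p ∈ Sb N, (1 : ℝ) / p - ll N| ≤ ε * ll N := by
  obtain ⟨C, hC⟩ := Pool.Agent.Erdos456.Mert.mertens_inv
  have hC0 : 0 ≤ C := (abs_nonneg _).trans (hC 3 le_rfl)
  filter_upwards [ev_lin (C + 2) hε, ev_ll 1, ev_log 100] with N h2 h4 h5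
  have hN0 : (0 : ℝ) < N := by
    by_contra h
    have : (N : ℝ) = 0 := le_antisymm (not_lt.1 h) (Nat.cast_nonneg N)
    rw [this, Real.log_zero] at h5
    linarith
  set X : ℝ := log N * (3 / 4) with hX
  have hz : (N : ℝ) ^ (3 / 4 : ℝ) = exp X := Real.rpow_def_of_pos hN0 _
  have h6 : exp X / 2 ≤ (Yb N : ℕ) := by
    have h7 : (N : ℝ) ^ (3 / 4 : ℝ) - 1 < (Yb N : ℕ) := Nat.sub_one_lt_floor _
    have h8 : 2 ≤ exp X := by
      have := add_one_le_exp X
      linarith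
    rw [hz] at h7
    linarith
  have h9 : (3 : ℝ) ≤ (Yb N : ℕ) := by
    have h10 : 3 ≤ Yb N := by
      unfold Yb
      apply Nat.le_floor
      rw [hz]
      have := add_one_le_exp X
      push_cast
      linarith
    exact_mod_cast h10
  have h10 : log (N : ℝ) / 2 ≤ log (Yb N : ℕ) := by
    have h11 : log (exp X / 2) ≤ log (Yb N : ℕ) := Real.log_le_log (by positivity) h6
    rw [Real.log_div (exp_pos _).ne' (by norm_num), Real.log_exp] at h11
    have h12 : log 2 ≤ 1 := by have := Real.log_two_lt_d9; linarith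
    linarith
  have h11 : log (Yb N : ℕ) ≤ log N := by
    apply Real.log_le_log (by linarith)
    calc ((Yb N : ℕ) : ℝ) ≤ (N : ℝ) ^ (3 / 4 : ℝ) := Nat.floor_le (by positivity)
      _ ≤ (N : ℝ) ^ (1 : ℝ) := by
        apply Real.rpow_le_rpow_of_exponent_le _ (by norm_num)
        by_contra h
        push Not at h
        have := Real.log_neg hN0 h
        linarith
      _ = N := Real.rpow_one _
  have h12 : log (log (Yb N : ℕ)) ≤ ll N := Real.log_le_log (by linarith) h11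
  have h13 : ll N - 1 ≤ log (log (Yb N : ℕ)) := by
    calc ll N - 1 ≤ log (log N / 2) := by
          rw [Real.log_div (by linarith) (by norm_num)]
          have h12 : log 2 ≤ 1 := by have := Real.log_two_lt_d9; linarith
          unfold ll
          linarith
      _ ≤ _ := Real.log_le_log (by positivity) h10
  have h14 := abs_le.1 (hC (Yb N) (by exact_mod_cast h9))
  have h15 : ∑ p ∈ Sb N, (1 : ℝ) / p = ∑ p ∈ (Finset.Icc 1 (Yb N)).filter Nat.Prime, (1 : ℝ) / p := rfl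
  rw [abs_le, h15]
  constructor <;> linarith [h14.1, h14.2]

theorem ev_sumD {ε : ℝ} (hε : 0 < ε) : ∀ᶠ N : ℕ in atTop,
    ∑ p ∈ Sb N \ Ss N, (1 : ℝ) / p ≤ ε * ll N := by
  filter_upwards [ev_sumS (half_pos hε), ev_sumB (half_pos hε), ev_sub] with N h1 h2 h3
  rw [Finset.sum_sdiff_eq_sub h3]
  linarith [(abs_le.1 h1).1, (abs_le.1 h2).2]

theorem sum_log : ∃ C : ℝ, 0 ≤ C ∧ ∀ᶠ N : ℕ in atTop,
    ∑ p ∈ Ss N, log p / p ≤ log N / ll N ^ 2 + C := by
  obtain ⟨C, hC⟩ := Pool.Agent.Erdos456.Mert.mertens_log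
  have hC0 : 0 ≤ C := (abs_nonneg _).trans (hC 1 le_rfl)
  refine ⟨C, hC0, ?_⟩
  filter_upwards [ev_zlog 3] with N h1
  have h10 : 1 ≤ zb N := by
    unfold zb
    apply Nat.le_floor
    unfold zr
    have := add_one_le_exp (log N / ll N ^ 2)
    push_cast
    linarith
  have h11 : log (zb N : ℕ) ≤ log N / ll N ^ 2 := by
    rw [Real.log_le_iff_le_exp (by exact_mod_cast h10)]
    exact zb_le N
  have h2 := (abs_le.1 (hC (zb N) h10)).2
  have h15 : ∑ p ∈ Ss N, log p / p = ∑ p ∈ (Finset.Icc 1 (zb N)).filter Nat.Prime, log (p : ℝ) / p := rfl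
  rw [h15]
  linarith

theorem sum_tp3 : ∃ C : ℝ, 0 ≤ C ∧ ∀ S : Finset ℕ, ∑ p ∈ S, tp p ^ 3 ≤ C := by
  have h : Summable fun n : ℕ => tp n ^ 3 := by
    have h1 := Real.summable_one_div_nat_rpow.2 (show (1 : ℝ) < 3 / 2 by norm_num)
    refine h1.congr fun n => ?_
    unfold tp
    rw [inv_pow, one_div, Real.sqrt_eq_rpow, ← Real.rpow_natCast, ← Real.rpow_mul (Nat.cast_nonneg n)]
    norm_num
  exact ⟨∑' n, tp n ^ 3, tsum_nonneg fun n => pow_nonneg (tp_nonneg n) 3,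
    fun S => h.sum_le_tsum S fun n _ => pow_nonneg (tp_nonneg n) 3⟩

end Pool.Agent.H485.CC
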