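import Mathlib

/-!
# The mean value inequality on a disc
-/

set_option autoImplicit false
set_option maxHeartbeats 4000000

open MeasureTheory Complex Set
open scoped ENNReal Real

namespace Pool.Agent.H485.CC

lemma circ_mean {g : ℂ → ℂ} {r : ℝ} (hr : 0 < r) (hr1 : r < 1)
    (hg : DifferentiableOn ℂ g (Metric.ball 0 1)) :
    ENNReal.ofReal (2 * π * ‖g 0‖ ^ 2) ≤
      ∫⁻ θ in Ioo (-π) π, ENNReal.ofReal (‖g (r * (Real.cos θ + Real.sin θ * I))‖ ^ 2) := by
  have hdc : DiffContOnCl ℂ (fun z => g z ^ 2) (Metric.ball 0 |r|) := by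
    rw [abs_of_pos hr]
    have h1 : DifferentiableOn ℂ (fun z => g z ^ 2) (Metric.ball 0 1) := hg.pow 2
    refine DifferentiableOn.diffContOnCl (h1.mono ?_)
    rw [closure_ball _ hr.ne']
    exact Metric.closedBall_subset_ball hr1
  have h2 := hdc.circleAverage
  have hc : Continuous fun θ : ℝ => g (circleMap 0 r θ) := by
    have h3 : ContinuousOn g (Metric.ball 0 1) := hg.continuousOn
    refine h3.comp_continuous (continuous_circleMap 0 r) fun θ => ?_
    rw [Metric.mem_ball, dist_zero_right, norm_circleMap_zero, abs_of_pos hr]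
    exact hr1
  have h3 : 2 * π * ‖g 0‖ ^ 2 ≤ ∫ θ in (0 : ℝ)..2 * π, ‖g (circleMap 0 r θ)‖ ^ 2 := by
    have h4 : ‖g 0‖ ^ 2 = ‖Real.circleAverage (fun z => g z ^ 2) 0 r‖ := by
      rw [h2, norm_pow]
    rw [h4, Real.circleAverage_def, norm_smul, Real.norm_eq_abs, abs_of_pos (by positivity),
      ← mul_assoc, mul_inv_cancel₀ (by positivity), one_mul]
    refine (intervalIntegral.norm_integral_le_integral_norm (by positivity)).trans (le_of_eq ?_)
    refine intervalIntegral.integral_congr fun θ _ => ?_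
    simp only [norm_pow]
  have hper : Function.Periodic (fun θ : ℝ => ‖g (circleMap 0 r θ)‖ ^ 2) (2 * π) := by
    intro θ
    simp only [periodic_circleMap 0 r θ]
  have h5 : ∫ θ in (0 : ℝ)..2 * π, ‖g (circleMap 0 r θ)‖ ^ 2 =
      ∫ θ in (-π)..π, ‖g (circleMap 0 r θ)‖ ^ 2 := by
    have := hper.intervalIntegral_add_eq 0 (-π)
    rw [zero_add, show -π + 2 * π = π by ring] at this
    exact this
  rw [h5, intervalIntegral.integral_of_le (by linarith [Real.pi_pos]), integral_Ioc_eq_integral_Ioo] at h3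
  refine (ENNReal.ofReal_le_ofReal h3).trans (le_of_eq ?_)
  rw [ofReal_integral_eq_lintegral_ofReal]
  · refine lintegral_congr fun θ => ?_
    congr 3
    rw [circleMap_zero, Complex.exp_mul_I, Complex.ofReal_cos, Complex.ofReal_sin]
  · have : IntegrableOn (fun θ : ℝ => ‖g (circleMap 0 r θ)‖ ^ 2) (Icc (-π) π) :=
      (hc.norm.pow 2).continuousOn.integrableOn_Icc
    exact this.mono_set Ioo_subset_Icc_self
  · exact Filter.Eventually.of_forall fun θ => by positivity

/-- the mean value inequality -/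
theorem disc_mean {g : ℂ → ℂ} {ρ : ℝ} (hρ : 0 < ρ) (hρ1 : ρ < 1)
    (hg : DifferentiableOn ℂ g (Metric.ball 0 1)) :
    ENNReal.ofReal (π * ρ ^ 2 * ‖g 0‖ ^ 2) ≤
      ∫⁻ z in Metric.ball (0 : ℂ) ρ, ENNReal.ofReal (‖g z‖ ^ 2) := by
  rw [← lintegral_indicator Metric.isOpen_ball.measurableSet, ← Complex.lintegral_comp_polarCoord_symm]
  have hcont : ContinuousOn g (Metric.ball 0 1) := hg.continuousOn
  set G : ℝ × ℝ → ℝ≥0∞ := fun p => ENNReal.ofReal p.1 *
    ENNReal.ofReal (‖g (p.1 * (Real.cos p.2 + Real.sin p.2 * I))‖ ^ 2) with hG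
  have h1 : ∫⁻ p in Ioo (0 : ℝ) ρ ×ˢ Ioo (-π) π, G p ≤
      ∫⁻ p in polarCoord.target, ENNReal.ofReal p.1 •
        ((Metric.ball (0 : ℂ) ρ).indicator (fun z => ENNReal.ofReal (‖g z‖ ^ 2))
          (Complex.polarCoord.symm p)) := by
    have hsub : Ioo (0 : ℝ) ρ ×ˢ Ioo (-π) π ⊆ polarCoord.target := by
      rw [polarCoord_target]
      exact Set.prod_mono (fun x hx => hx.1) (subset_refl _)
    refine le_trans ?_ (lintegral_mono_set hsub)
    refine setLIntegral_mono' (measurableSet_Ioo.prod measurableSet_Ioo) fun p hp => ?_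
    have hp1 := hp.1
    have e1 : Complex.polarCoord.symm p = p.1 * (Real.cos p.2 + Real.sin p.2 * I) :=
      Complex.polarCoord_symm_apply p
    have hmem : Complex.polarCoord.symm p ∈ Metric.ball (0 : ℂ) ρ := by
      rw [Metric.mem_ball, dist_zero_right, Complex.norm_polarCoord_symm, abs_of_pos hp1.1]
      exact hp1.2
    rw [Set.indicator_of_mem hmem, smul_eq_mul, e1]
  refine le_trans ?_ h1
  have hmeas : AEMeasurable G ((volume.restrict (Ioo (0 : ℝ) ρ)).prod (volume.restrict (Ioo (-π) π))) := by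
    rw [Measure.prod_restrict, ← Measure.volume_eq_prod]
    have hc : ContinuousOn (fun p : ℝ × ℝ => ENNReal.ofReal
        (‖g (p.1 * (Real.cos p.2 + Real.sin p.2 * I))‖ ^ 2)) (Ioo (0 : ℝ) ρ ×ˢ Ioo (-π) π) := by
      refine ENNReal.continuous_ofReal.comp_continuousOn ?_
      refine (ContinuousOn.norm ?_).pow 2
      refine hcont.comp (f := fun p : ℝ × ℝ => ((p.1 * (Real.cos p.2 + Real.sin p.2 * I) : ℂ)))
        (by fun_prop) fun p hp => ?_
      rw [Metric.mem_ball, dist_zero_right, norm_mul, Complex.norm_real, Real.norm_eq_abs,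
        abs_of_pos hp.1.1, Complex.ofReal_cos, Complex.ofReal_sin, ← Complex.exp_mul_I,
        Complex.norm_exp_ofReal_mul_I]
      have h3 := hp.1.2
      linarith
    exact (ENNReal.measurable_ofReal.comp measurable_fst).aemeasurable.mul
      (hc.aemeasurable (measurableSet_Ioo.prod measurableSet_Ioo))
  rw [Measure.volume_eq_prod, ← Measure.prod_restrict, lintegral_prod _ hmeas]
  have h2 : ∀ r ∈ Ioo (0 : ℝ) ρ, ENNReal.ofReal r * ENNReal.ofReal (2 * π * ‖g 0‖ ^ 2) ≤
      ∫⁻ θ in Ioo (-π) π, G (r, θ) := by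
    intro r hr
    simp only [hG]
    rw [lintegral_const_mul' _ _ ENNReal.ofReal_ne_top]
    gcongr
    exact circ_mean hr.1 (hr.2.trans hρ1) hg
  refine le_trans ?_ (setLIntegral_mono' measurableSet_Ioo h2)
  rw [lintegral_mul_const' _ _ ENNReal.ofReal_ne_top]
  have h3 : ∫⁻ r in Ioo (0 : ℝ) ρ, ENNReal.ofReal r = ENNReal.ofReal (ρ ^ 2 / 2) := by
    rw [← ofReal_integral_eq_lintegral_ofReal]
    · congr 1
      rw [← integral_Ioc_eq_integral_Ioo, ← intervalIntegral.integral_of_le hρ.le, integral_id]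
      ring
    · have : IntegrableOn (fun r : ℝ => r) (Icc 0 ρ) := continuous_id.continuousOn.integrableOn_Icc
      exact this.mono_set Ioo_subset_Icc_self
    · filter_upwards [ae_restrict_mem measurableSet_Ioo] with r hr
      exact hr.1.le
  rw [h3, ← ENNReal.ofReal_mul (by positivity)]
  apply ENNReal.ofReal_le_ofReal
  apply le_of_eq
  ring

end Pool.Agent.H485.CC
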