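import Pool.Agent.H485.CC.Pup
import Pool.Agent.H485.CC.Afe

/-!
# The Petersson norm of a newform of prime level, upper bound, part 2
-/

set_option autoImplicit false
set_option maxHeartbeats 4000000

open Complex Filter Topology Set MeasureTheory UpperHalfPlane MatrixGroups CongruenceSubgroup
open scoped ENNReal Modular

namespace Pool.Agent.H485.CC

open Pool.Agent.W165.RS
open W388.LV (SF pet om ck)
open W120.LV (eqS eqS_apply pet_eq lint_ne_top)

variable {N : ℕ} [NeZero N]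

lemma entry (j : ℤ) (g : SL(2, ℤ)) : (ModularGroup.S * ModularGroup.T ^ j * g : SL(2, ℤ)) 1 0 =
    g 0 0 + j * g 1 0 := by
  rw [Matrix.SpecialLinearGroup.coe_mul, Matrix.SpecialLinearGroup.coe_mul, ModularGroup.coe_T_zpow,
    ModularGroup.coe_S]
  simp [Matrix.mul_apply, Fin.sum_univ_two]

lemma exists_j (hN : N.Prime) (g : SL(2, ℤ)) (hg : g ∉ Gamma0 N) : ∃ j : ℤ,
    (ModularGroup.S * ModularGroup.T ^ j * g : SL(2, ℤ)) ∈ Gamma0 N := by
  haveI : Fact N.Prime := ⟨hN⟩
  rw [Gamma0_mem] at hg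
  refine ⟨((-((g 0 0 : ℤ) : ZMod N) / ((g 1 0 : ℤ) : ZMod N)).val : ℤ), ?_⟩
  rw [Gamma0_mem, entry]
  push_cast
  rw [ZMod.natCast_zmod_val]
  field_simp
  ring

lemma T_mem (n : ℤ) : (ModularGroup.T ^ n : SL(2, ℤ)) ∈ Gamma0 N := by
  rw [Gamma0_mem, ModularGroup.coe_T_zpow]
  simp

lemma shift (z : ℍ) (h : 0 < z.im) : (ModularGroup.T ^ (-⌊z.re⌋) • z : ℍ) ∈ SS := by
  have hre : (ModularGroup.T ^ (-⌊z.re⌋) • z : ℍ).re = z.re + ((-⌊z.re⌋ : ℤ) : ℝ) :=
    ModularGroup.re_T_zpow_smul _ _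
  show 0 ≤ _ ∧ _ < 1
  rw [hre]
  push_cast
  constructor
  · linarith [Int.floor_le z.re]
  · linarith [Int.lt_floor_add_one z.re]

/-- every orbit meets the two regions -/
lemma exists_mem (hN : N.Prime) {c : ℝ} (hc : c < 1 / (2 * N)) (w : ℍ) : ∃ δ ∈ Gamma0 N,
    (δ • w : ℍ) ∈ UU c ∨ (WN N • (δ • w) : ℍ) ∈ UU c := by
  have hN0 : (0 : ℝ) < N := by exact_mod_cast hN.pos
  have hN1 : (1 : ℝ) ≤ N := by exact_mod_cast hN.one_le
  obtain ⟨g, hg⟩ := ModularGroup.exists_smul_mem_fd w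
  have him := im_fd hg
  by_cases hgN : g ∈ Gamma0 N
  · refine ⟨ModularGroup.T ^ (-⌊(g • w : ℍ).re⌋) * g, Subgroup.mul_mem _ (T_mem _) hgN, Or.inl ?_⟩
    rw [mul_smul]
    refine ⟨shift _ (g • w : ℍ).im_pos, ?_⟩
    rw [ModularGroup.im_T_zpow_smul]
    have : 1 / (2 * (N : ℝ)) ≤ 1 / 2 := by
      apply one_div_le_one_div_of_le (by norm_num)
      linarith
    linarith
  · obtain ⟨j0, hj0⟩ := exists_j hN g hgN
    set v : ℍ := g • w with hv
    set x : ℝ := (v.re + j0) / N with hx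
    set j : ℤ := j0 + N * (-⌊x⌋) with hj
    have hmem : (ModularGroup.S * ModularGroup.T ^ j * g : SL(2, ℤ)) ∈ Gamma0 N := by
      rw [Gamma0_mem, entry] at hj0 ⊢
      rw [hj]
      push_cast at hj0 ⊢
      have : ((N : ℕ) : ZMod N) = 0 := ZMod.natCast_self N
      rw [this]
      linear_combination hj0
    refine ⟨_, hmem, Or.inr ?_⟩
    have e1 : ((WN N • ((ModularGroup.S * ModularGroup.T ^ j * g : SL(2, ℤ)) • w : ℍ) : ℍ) : ℂ) =
        ((v : ℂ) + j) / N := by
      rw [WN_smul, mul_smul, mul_smul, ← hv, modular_S_smul, modular_T_zpow_smul]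
      have hNc : (N : ℂ) ≠ 0 := by exact_mod_cast hN0.ne'
      have hvj : (v : ℂ) + j ≠ 0 := by
        intro h0
        have := congrArg Complex.im h0
        simp at this
        exact v.im_ne_zero this
      have e2 : ((((j : ℝ) +ᵥ v : ℍ)) : ℂ) = (v : ℂ) + j := by
        rw [coe_vadd]
        push_cast
        ring
      show -1 / ((N : ℂ) * (-(((j : ℝ) +ᵥ v : ℍ) : ℂ))⁻¹) = _
      rw [e2]
      field_simp
    have hre : ((WN N • ((ModularGroup.S * ModularGroup.T ^ j * g : SL(2, ℤ)) • w : ℍ) : ℍ)).re =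
        x - ⌊x⌋ := by
      rw [← coe_re, e1]
      have : (((v : ℂ) + j) / N).re = (v.re + j) / N := by
        rw [Complex.div_natCast_re]
        simp
      rw [this, hx, hj]
      push_cast
      field_simp
      ring
    have him2 : ((WN N • ((ModularGroup.S * ModularGroup.T ^ j * g : SL(2, ℤ)) • w : ℍ) : ℍ)).im =
        v.im / N := by
      rw [← coe_im, e1, Complex.div_natCast_im]
      simp
    refine ⟨⟨?_, ?_⟩, ?_⟩
    · rw [hre]; linarith [Int.floor_le x]
    · rw [hre]; linarith [Int.lt_floor_add_one x]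
    · rw [him2]
      calc c < 1 / (2 * N) := hc
        _ = (1 / 2) / N := by field_simp
        _ ≤ _ := div_le_div_of_nonneg_right him hN0.le

theorem cnt_ge (hN : N.Prime) {c : ℝ} (hc : c < 1 / (2 * N)) (w : ℍ) : 2 ≤ cnt N c w := by
  obtain ⟨δ, hδ, h⟩ := exists_mem hN hc w
  have hneg : -(δ⁻¹ : SL(2, ℤ)) ∈ Gamma0 N := by
    have h2 := Subgroup.inv_mem _ hδ
    rw [CongruenceSubgroup.Gamma0_mem] at h2 ⊢
    simpa using h2
  have hne : (⟨δ⁻¹, Subgroup.inv_mem _ hδ⟩ : Gamma0 N) ≠ ⟨-(δ⁻¹ : SL(2, ℤ)), hneg⟩ := by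
    intro h0
    have h1 := congrArg (fun g : Gamma0 N => (g : SL(2, ℤ))) h0
    simp only at h1
    have h2 : (δ⁻¹ : SL(2, ℤ)).1 = -(δ⁻¹ : SL(2, ℤ)).1 := by
      conv_lhs => rw [h1]
      rfl
    have h3 : (δ⁻¹ : SL(2, ℤ)).1 = 0 := by
      ext i j
      have := congrFun (congrFun h2 i) j
      simp only [Matrix.neg_apply] at this
      simp only [Matrix.zero_apply]
      omega
    have h4 := (δ⁻¹ : SL(2, ℤ)).2
    rw [h3] at h4
    simp at h4
  unfold cnt
  refine le_trans ?_ (ENNReal.sum_le_tsum {(⟨δ⁻¹, Subgroup.inv_mem _ hδ⟩ : Gamma0 N), ⟨-(δ⁻¹ : SL(2, ℤ)), hneg⟩})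
  rw [Finset.sum_pair hne]
  have e1 : ((⟨δ⁻¹, Subgroup.inv_mem _ hδ⟩ : Gamma0 N) : SL(2, ℤ))⁻¹ • w = δ • w := by simp
  have e2 : ((⟨-(δ⁻¹ : SL(2, ℤ)), hneg⟩ : Gamma0 N) : SL(2, ℤ))⁻¹ • w = δ • w := by
    show ((-(δ⁻¹ : SL(2, ℤ))) : SL(2, ℤ))⁻¹ • w = δ • w
    have : ((-(δ⁻¹ : SL(2, ℤ))) : SL(2, ℤ))⁻¹ = -δ := by
      rw [inv_eq_iff_mul_eq_one]
      simp
    rw [this, ModularGroup.SL_neg_smul]
  rw [e1, e2]
  have h1 : (1 : ℝ≥0∞) ≤ (UU c).indicator (fun _ => (1 : ℝ≥0∞)) (δ • w) +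
      ((fun z : ℍ => WN N • z) ⁻¹' UU c).indicator (fun _ => (1 : ℝ≥0∞)) (δ • w) := by
    rcases h with h | h
    · rw [Set.indicator_of_mem h]
      exact le_self_add
    · rw [Set.indicator_of_mem (show (δ • w : ℍ) ∈ (fun z : ℍ => WN N • z) ⁻¹' UU c from h)]
      exact le_add_self
  calc (2 : ℝ≥0∞) = 1 + 1 := by norm_num
    _ ≤ _ := add_le_add h1 h1

/-- the integral over the strip -/
lemma UU_int (f : SF N 2) {c : ℝ} (hc : 0 < c) : ∫⁻ z : ℍ, (UU c).indicator (FF f) z =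
    ∑' n : ℕ, ENNReal.ofReal (‖ac f n‖ ^ 2 * (Real.exp (-(4 * Real.pi * n * c)) / (4 * Real.pi * n))) := by
  rw [lintegral_H _ ((FF_meas f).indicator (measurableSet_UU c))]
  have h1 : ∀ y ∈ Set.Ioi (0:ℝ), (∫⁻ x : ℝ, Function.extend UpperHalfPlane.coe
      ((UU c).indicator (FF f)) 0 (x + y * Complex.I) * ENNReal.ofReal ((1 / y) ^ 2)) =
      (Set.Ioi c).indicator (fun y => ∑' n : ℕ, ENNReal.ofReal (‖ac f n‖ ^ 2 *
        Real.exp (-(4 * Real.pi * n * y)))) y := by
    intro y hy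
    have hy' : 0 < y := hy
    by_cases hyN : c < y
    · rw [Set.indicator_of_mem (show y ∈ Set.Ioi c from hyN)]
      have e1 : ∀ x : ℝ, Function.extend UpperHalfPlane.coe
        ((UU c).indicator (FF f)) 0 (x + y * Complex.I) *
          ENNReal.ofReal ((1 / y) ^ 2) = (Set.Ico (0:ℝ) 1).indicator (fun x : ℝ =>
          ENNReal.ofReal (‖f ⟨x + y * Complex.I, by simpa using hy'⟩‖ ^ 2)) x := by
        intro x
        rw [extend_apply' _ x hy']
        have e2 : (⟨x + y * Complex.I, by simpa using hy'⟩ : ℍ).im = y := by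
          simp [UpperHalfPlane.im]
        have e3 : (⟨x + y * Complex.I, by simpa using hy'⟩ : ℍ).re = x := by
          simp [UpperHalfPlane.re]
        by_cases hx : x ∈ Set.Ico (0:ℝ) 1
        · rw [Set.indicator_of_mem hx, Set.indicator_of_mem]
          · unfold FF
            rw [e2, ← ENNReal.ofReal_mul (by positivity)]
            congr 1
            rw [zpow_ofNat]
            field_simp
          · refine ⟨?_, ?_⟩
            · show 0 ≤ _ ∧ _ < 1
              rw [e3]; exact hx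
            · show c < _
              rw [e2]; exact hyN
        · rw [Set.indicator_of_notMem hx, Set.indicator_of_notMem, zero_mul]
          intro h
          have h' : 0 ≤ (⟨x + y * Complex.I, by simpa using hy'⟩ : ℍ).re ∧
            (⟨x + y * Complex.I, by simpa using hy'⟩ : ℍ).re < 1 := h.1
          rw [e3] at h'
          exact hx h'
      simp_rw [e1]
      rw [lintegral_indicator measurableSet_Ico, horocycle f hy']
    · rw [Set.indicator_of_notMem (show y ∉ Set.Ioi c from hyN)]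
      rw [lintegral_congr (g := fun _ => 0), lintegral_zero]
      intro x
      rw [extend_apply' _ x hy', Set.indicator_of_notMem, zero_mul]
      intro h
      have h2 : c < (⟨x + y * Complex.I, by simpa using hy'⟩ : ℍ).im := h.2
      have e2 : (⟨x + y * Complex.I, by simpa using hy'⟩ : ℍ).im = y := by
          simp [UpperHalfPlane.im]
      rw [e2] at h2
      exact hyN h2
  rw [setLIntegral_congr_fun measurableSet_Ioi h1, lintegral_indicator measurableSet_Ioi,
    Measure.restrict_restrict measurableSet_Ioi]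
  have hinter : Set.Ioi c ∩ Set.Ioi 0 = Set.Ioi c := by
    rw [Set.inter_eq_left]
    intro y hy
    exact hc.trans hy
  rw [hinter, lintegral_tsum]
  · refine tsum_congr fun n => ?_
    rcases Nat.eq_zero_or_pos n with hn | hn
    · subst hn
      simp [ac_zero]
    · have hn' : (0:ℝ) < n := by exact_mod_cast hn
      have hr : 0 < 4 * Real.pi * n := by positivity
      have h2 : ∀ y : ℝ, Real.exp (-(4 * Real.pi * n * y)) = Real.exp (-(4 * Real.pi * n) * y) := by
        intro y; rw [neg_mul]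
      simp_rw [h2]
      have h3 := (Pool.Agent.TH940.exp_int (4 * Real.pi * n) c hr)
      rw [← ofReal_integral_eq_lintegral_ofReal (h3.1.const_mul _)]
      · rw [integral_const_mul, h3.2]
        congr 2
        rw [neg_mul]
      · exact Filter.Eventually.of_forall fun t => by positivity
  · intro n
    refine Measurable.aemeasurable ?_
    exact ENNReal.measurable_ofReal.comp (by fun_prop)

end Pool.Agent.H485.CC
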