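import Pool.Agent.H485.CC.Pf1
import Pool.Agent.H485.CC.Pup2

/-!
# The sharp mean value inequality on hyperbolic balls
-/

set_option autoImplicit false
set_option maxHeartbeats 4000000

open MeasureTheory Set
open UpperHalfPlane hiding I
open Complex
open scoped ENNReal Real MatrixGroups

namespace Pool.Agent.H485.CC

open Pool.Agent.W165.RS
open W388.LV (SF)

/-- the map from the disc to the half plane with `0 ↦ w` -/
noncomputable def mb (w ζ : ℂ) : ℂ := (w - (starRingEnd ℂ) w * ζ) / (1 - ζ)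

lemma det_c (c : ℂ) : ((ContinuousLinearMap.toSpanSingleton ℂ c).restrictScalars ℝ : ℂ →L[ℝ] ℂ).det =
    ‖c‖ ^ 2 := by
  have h1 : (((ContinuousLinearMap.toSpanSingleton ℂ c).restrictScalars ℝ : ℂ →L[ℝ] ℂ) : ℂ →ₗ[ℝ] ℂ) =
      LinearMap.mul ℝ ℂ c := by
    ext <;> simp [mul_comm]
  have h2 : LinearMap.det (LinearMap.mul ℝ ℂ c) = Algebra.norm ℝ c := rfl
  rw [ContinuousLinearMap.det, h1, h2, Algebra.norm_complex_apply,
    Complex.normSq_eq_norm_sq]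

lemma one_sub_ne {ζ : ℂ} (h : ‖ζ‖ < 1) : 1 - ζ ≠ 0 := by
  intro h0
  have : ζ = 1 := by linear_combination -h0
  rw [this] at h
  simp at h

lemma mb_sub (w ζ : ℂ) (h : 1 - ζ ≠ 0) : mb w ζ = w + 2 * w.im * I * ζ / (1 - ζ) := by
  unfold mb
  have h1 : (starRingEnd ℂ) w = w - 2 * w.im * I := by
    apply Complex.ext <;> simp
    ring
  rw [h1]
  field_simp
  ring

lemma mb_deriv (w ζ : ℂ) (h : 1 - ζ ≠ 0) :
    HasDerivAt (mb w) (2 * w.im * I / (1 - ζ) ^ 2) ζ := by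
  have h1 : HasDerivAt (fun z : ℂ => w - (starRingEnd ℂ) w * z) (-((starRingEnd ℂ) w)) ζ := by
    have := ((hasDerivAt_id ζ).const_mul ((starRingEnd ℂ) w)).const_sub w
    simpa using this
  have h2 : HasDerivAt (fun z : ℂ => 1 - z) (-1) ζ := by
    have := (hasDerivAt_id ζ).const_sub 1
    simpa using this
  have h3 := h1.div h2 h
  have h4 : (starRingEnd ℂ) w = w - 2 * w.im * I := by
    apply Complex.ext <;> simp
    ring
  have h5 : ((-(starRingEnd ℂ) w * (1 - ζ) - (w - (starRingEnd ℂ) w * ζ) * -1) / (1 - ζ) ^ 2) =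
      2 * w.im * I / (1 - ζ) ^ 2 := by
    rw [h4]
    ring
  rw [h5] at h3
  exact h3

lemma mb_im (w ζ : ℂ) (h : 1 - ζ ≠ 0) : (mb w ζ).im = w.im * (1 - ‖ζ‖ ^ 2) / ‖1 - ζ‖ ^ 2 := by
  rw [mb_sub w ζ h]
  have h1 : ‖1 - ζ‖ ^ 2 = (1 - ζ.re) ^ 2 + ζ.im ^ 2 := by
    rw [← Complex.normSq_eq_norm_sq, Complex.normSq_apply]; simp; ring
  have h2 : ‖ζ‖ ^ 2 = ζ.re ^ 2 + ζ.im ^ 2 := by
    rw [← Complex.normSq_eq_norm_sq, Complex.normSq_apply]; ring
  have h0 : (1 - ζ.re) ^ 2 + ζ.im ^ 2 ≠ 0 := by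
    rw [← h1]
    exact pow_ne_zero 2 (norm_ne_zero_iff.2 h)
  have h3 : (2 * (w.im : ℂ) * I * ζ / (1 - ζ)) =
      ((2 * w.im / ((1 - ζ.re) ^ 2 + ζ.im ^ 2) : ℝ) : ℂ) * (I * ζ * (starRingEnd ℂ) (1 - ζ)) := by
    have h4 : (1 - ζ) * (starRingEnd ℂ) (1 - ζ) = (((1 - ζ.re) ^ 2 + ζ.im ^ 2 : ℝ) : ℂ) := by
      rw [Complex.mul_conj, ← h1, Complex.normSq_eq_norm_sq]
    have h5 : (((1 - ζ.re) ^ 2 + ζ.im ^ 2 : ℝ) : ℂ) ≠ 0 := by exact_mod_cast h0
    have h6 : ((2 * w.im / ((1 - ζ.re) ^ 2 + ζ.im ^ 2) : ℝ) : ℂ) *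
        (((1 - ζ.re) ^ 2 + ζ.im ^ 2 : ℝ) : ℂ) = 2 * w.im := by
      rw [← Complex.ofReal_mul, div_mul_cancel₀ _ h0]
      push_cast
      ring
    rw [div_eq_iff h, ← h6, ← h4]
    ring
  rw [h3, Complex.add_im, Complex.im_ofReal_mul, h1, h2]
  have h6 : (I * ζ * (starRingEnd ℂ) (1 - ζ)).im = ζ.re - (ζ.re ^ 2 + ζ.im ^ 2) := by
    simp
    ring
  rw [h6]
  field_simp
  ring

lemma mb_dist (w ζ : ℂ) (h : 1 - ζ ≠ 0) : dist (mb w ζ) w = 2 * |w.im| * ‖ζ‖ / ‖1 - ζ‖ := by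
  rw [dist_eq_norm, mb_sub w ζ h, add_sub_cancel_left, norm_div, norm_mul, norm_mul, norm_mul,
    Complex.norm_I, Complex.norm_real, Real.norm_eq_abs]
  simp

lemma mb_inj (w : ℂ) (hw : w.im ≠ 0) : Set.InjOn (mb w) (Metric.ball 0 1) := by
  intro a ha b hb hab
  rw [Metric.mem_ball, dist_zero_right] at ha hb
  have h1 := one_sub_ne ha
  have h2 := one_sub_ne hb
  rw [mb_sub w a h1, mb_sub w b h2] at hab
  have h3 : (2 * (w.im : ℂ) * I) ≠ 0 := by
    have : (w.im : ℂ) ≠ 0 := by exact_mod_cast hw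
    simp [this]
  have h4 : a / (1 - a) = b / (1 - b) := by
    have h5 : 2 * (w.im : ℂ) * I * (a / (1 - a)) = 2 * (w.im : ℂ) * I * (b / (1 - b)) := by
      have := add_left_cancel hab
      rw [mul_div_assoc, mul_div_assoc] at this
      exact this
    exact mul_left_cancel₀ h3 h5
  rw [div_eq_div_iff h1 h2] at h4
  linear_combination h4

/-- the mean value inequality on the image of the disc -/
theorem mob_mean {h : ℂ → ℂ} (hh : DifferentiableOn ℂ h {z | 0 < z.im}) {w : ℂ} (hw : 0 < w.im)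
    {ρ : ℝ} (hρ : 0 < ρ) (hρ1 : ρ < 1) :
    ENNReal.ofReal (4 * π * ρ ^ 2 * (‖h w‖ ^ 2 * w.im ^ 2)) ≤
      ∫⁻ z in mb w '' Metric.ball (0 : ℂ) ρ, ENNReal.ofReal (‖h z‖ ^ 2) := by
  have hsub : Metric.ball (0 : ℂ) ρ ⊆ Metric.ball 0 1 := Metric.ball_subset_ball hρ1.le
  have hn : ∀ ζ ∈ Metric.ball (0 : ℂ) 1, 1 - ζ ≠ 0 := fun ζ hζ => by
    rw [Metric.mem_ball, dist_zero_right] at hζ
    exact one_sub_ne hζ
  have him : ∀ ζ ∈ Metric.ball (0 : ℂ) 1, 0 < (mb w ζ).im := by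
    intro ζ hζ
    rw [mb_im w ζ (hn ζ hζ)]
    rw [Metric.mem_ball, dist_zero_right] at hζ
    have h1 : 0 < 1 - ‖ζ‖ ^ 2 := by nlinarith [norm_nonneg ζ]
    have h2 : 0 < ‖1 - ζ‖ := norm_pos_iff.2 (one_sub_ne hζ)
    positivity
  have h1 := lintegral_image_eq_lintegral_abs_det_fderiv_mul volume
    (s := Metric.ball (0 : ℂ) ρ) (f := mb w) (f' := fun ζ =>
      (ContinuousLinearMap.toSpanSingleton ℂ (2 * w.im * I / (1 - ζ) ^ 2)).restrictScalars ℝ)
    Metric.isOpen_ball.measurableSet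
    (fun ζ hζ => by
      have := (mb_deriv w ζ (hn ζ (hsub hζ))).hasFDerivAt
      exact (this.restrictScalars ℝ).hasFDerivWithinAt)
    ((mb_inj w hw.ne').mono hsub) (fun z => ENNReal.ofReal (‖h z‖ ^ 2))
  rw [h1]
  have hg : DifferentiableOn ℂ (fun ζ => h (mb w ζ) * (2 * w.im * I / (1 - ζ) ^ 2)) (Metric.ball 0 1) := by
    refine DifferentiableOn.mul ?_ ?_
    · refine hh.comp (fun ζ hζ => ?_) him
      exact (mb_deriv w ζ (hn ζ hζ)).differentiableAt.differentiableWithinAt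
    · refine DifferentiableOn.div (by fun_prop) (by fun_prop) fun ζ hζ => pow_ne_zero 2 (hn ζ hζ)
  have h2 := disc_mean hρ hρ1 hg
  have e0 : mb w 0 = w := by unfold mb; simp
  have e1 : ‖h (mb w 0) * (2 * w.im * I / (1 - 0) ^ 2)‖ ^ 2 = 4 * (‖h w‖ ^ 2 * w.im ^ 2) := by
    rw [e0, norm_mul, mul_pow]
    have : ‖(2 * (w.im : ℂ) * I / (1 - 0) ^ 2)‖ = 2 * w.im := by
      rw [sub_zero, one_pow, div_one, norm_mul, norm_mul, Complex.norm_I, Complex.norm_real,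
        Real.norm_eq_abs, abs_of_pos hw]
      simp
    rw [this]
    ring
  rw [e1] at h2
  have e2 : π * ρ ^ 2 * (4 * (‖h w‖ ^ 2 * w.im ^ 2)) = 4 * π * ρ ^ 2 * (‖h w‖ ^ 2 * w.im ^ 2) := by ring
  rw [e2] at h2
  refine h2.trans (le_of_eq ?_)
  refine setLIntegral_congr_fun Metric.isOpen_ball.measurableSet fun ζ _ => ?_
  rw [det_c, abs_of_nonneg (by positivity), ← ENNReal.ofReal_mul (by positivity), norm_mul, mul_pow,
    mul_comm (‖h (mb w ζ)‖ ^ 2)]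

/-- the radius parameter -/
noncomputable def rho2 (r : ℝ) : ℝ := (Real.cosh r - 1) / (Real.cosh r + 1)

lemma rho2_pos {r : ℝ} (hr : 0 < r) : 0 < rho2 r := by
  unfold rho2
  have h1 : 1 < Real.cosh r := Real.one_lt_cosh.2 hr.ne'
  have h2 : 0 < Real.cosh r - 1 := by linarith
  positivity

lemma rho2_lt {r : ℝ} : rho2 r < 1 := by
  unfold rho2
  have h1 := Real.cosh_pos r
  rw [div_lt_one (by linarith)]
  linarith

variable {N : ℕ} [NeZero N]

/-- the sharp mean value inequality -/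
theorem ball_mean (f : SF N 2) (w : ℍ) {r : ℝ} (hr : 0 < r) :
    ENNReal.ofReal (4 * π * rho2 r) * FF f w ≤ ∫⁻ z, (Metric.ball w r).indicator (FF f) z := by
  have hr2 := rho2_pos hr
  set ρ : ℝ := Real.sqrt (rho2 r) with hρ
  have hρ0 : 0 < ρ := Real.sqrt_pos.2 hr2
  have hρ2 : ρ ^ 2 = rho2 r := Real.sq_sqrt hr2.le
  have hρ1 : ρ < 1 := by
    rw [hρ, Real.sqrt_lt' one_pos, one_pow]
    exact rho2_lt
  set h : ℂ → ℂ := fun z => f (ofComplex z) with hh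
  have hd : DifferentiableOn ℂ h {z | 0 < z.im} := by
    have := UpperHalfPlane.mdifferentiable_iff.1 (CuspFormClass.holo f)
    exact this
  have h1 := mob_mean hd (w := (w : ℂ)) w.im_pos hρ0 hρ1
  have e1 : h w = f w := by simp only [hh, ofComplex_apply]
  rw [e1, hρ2] at h1
  have e2 : ENNReal.ofReal (4 * π * rho2 r) * FF f w =
      ENNReal.ofReal (4 * π * rho2 r * (‖f w‖ ^ 2 * w.im ^ 2)) := by
    unfold FF
    rw [← ENNReal.ofReal_mul (by positivity), zpow_ofNat]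
  rw [e2]
  refine h1.trans ?_
  have hmb : MeasurableSet (Metric.ball w r) := Metric.isOpen_ball.measurableSet
  have hme : Measurable (Function.extend UpperHalfPlane.coe ((Metric.ball w r).indicator (FF f))
      (0 : ℂ → ℝ≥0∞)) :=
    measurableEmbedding_coe.measurable_extend ((FF_meas f).indicator hmb) measurable_const
  have h2 := lintegral_coe _ hme
  have h3 : ∫⁻ z : ℍ, (Metric.ball w r).indicator (FF f) z = ∫⁻ z : ℍ, Function.extend UpperHalfPlane.coe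
      ((Metric.ball w r).indicator (FF f)) (0 : ℂ → ℝ≥0∞) z := by
    refine lintegral_congr fun z => ?_
    rw [measurableEmbedding_coe.injective.extend_apply]
  rw [h3, h2]
  have hsub : mb (w : ℂ) '' Metric.ball (0 : ℂ) ρ ⊆ {z : ℂ | 0 < z.im} := by
    rintro _ ⟨ζ, hζ, rfl⟩
    rw [Metric.mem_ball, dist_zero_right] at hζ
    have hζ1 : ‖ζ‖ < 1 := hζ.trans hρ1
    show 0 < (mb (w : ℂ) ζ).im
    rw [mb_im _ ζ (one_sub_ne hζ1)]
    have h1 : 0 < 1 - ‖ζ‖ ^ 2 := by nlinarith [norm_nonneg ζ]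
    have h2 : 0 < ‖1 - ζ‖ := norm_pos_iff.2 (one_sub_ne hζ1)
    have h3 : 0 < (w : ℂ).im := w.im_pos
    positivity
  have hms : MeasurableSet (mb (w : ℂ) '' Metric.ball (0 : ℂ) ρ) := by
    have hcont : ContinuousOn (mb (w : ℂ)) (Metric.ball (0 : ℂ) ρ) := fun ζ hζ => by
      rw [Metric.mem_ball, dist_zero_right] at hζ
      exact (mb_deriv _ ζ (one_sub_ne (hζ.trans hρ1))).continuousAt.continuousWithinAt
    exact Metric.isOpen_ball.measurableSet.image_of_continuousOn_injOn hcont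
      ((mb_inj _ w.im_pos.ne').mono (Metric.ball_subset_ball hρ1.le))
  refine le_trans ?_ (lintegral_mono_set hsub)
  refine setLIntegral_mono' hms ?_
  rintro _ ⟨ζ, hζ, rfl⟩
  rw [Metric.mem_ball, dist_zero_right] at hζ
  have hζ1 : ‖ζ‖ < 1 := hζ.trans hρ1
  have hne := one_sub_ne hζ1
  have him := mb_im (w : ℂ) ζ hne
  have hn1 : 0 < 1 - ‖ζ‖ ^ 2 := by nlinarith [norm_nonneg ζ]
  have hn2 : 0 < ‖1 - ζ‖ := norm_pos_iff.2 hne
  have hw0 : 0 < (w : ℂ).im := w.im_pos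
  have himp : 0 < (mb (w : ℂ) ζ).im := by
    rw [him]; positivity
  obtain ⟨v, hv⟩ : ∃ v : ℍ, (v : ℂ) = mb (w : ℂ) ζ := ⟨⟨mb (w : ℂ) ζ, himp⟩, rfl⟩
  rw [← hv, measurableEmbedding_coe.injective.extend_apply]
  have hvd : v ∈ Metric.ball w r := by
    rw [Metric.mem_ball]
    have h4 : Real.cosh (dist v w) < Real.cosh r := by
      rw [UpperHalfPlane.cosh_dist, hv, mb_dist _ ζ hne]
      have hvim : v.im = w.im * (1 - ‖ζ‖ ^ 2) / ‖1 - ζ‖ ^ 2 := by
        rw [← coe_im, hv, him]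
        rfl
      have e3 : (2 * |(w : ℂ).im| * ‖ζ‖ / ‖1 - ζ‖) ^ 2 / (2 * v.im * w.im) =
          2 * ‖ζ‖ ^ 2 / (1 - ‖ζ‖ ^ 2) := by
        rw [hvim, abs_of_pos hw0]
        have : (w : ℂ).im = w.im := rfl
        rw [this]
        have hw1 : w.im ≠ 0 := w.im_pos.ne'
        have hw2 := hn1.ne'
        field_simp
      rw [e3]
      have h5 : ‖ζ‖ ^ 2 < rho2 r := by
        rw [← hρ2]
        exact pow_lt_pow_left₀ hζ (norm_nonneg _) (by norm_num)
      unfold rho2 at h5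
      have hc := Real.cosh_pos r
      rw [lt_div_iff₀ (by linarith)] at h5
      rw [← lt_sub_iff_add_lt', div_lt_iff₀ hn1]
      nlinarith
    rw [Real.cosh_lt_cosh, abs_of_nonneg dist_nonneg, abs_of_pos hr] at h4
    exact h4
  rw [Set.indicator_of_mem hvd]
  unfold FF
  rw [← ENNReal.ofReal_mul (by positivity)]
  apply ENNReal.ofReal_le_ofReal
  apply le_of_eq
  have hvi : (v : ℂ).im = v.im := rfl
  rw [hvi, zpow_ofNat]
  have hv0 : v.im ≠ 0 := v.im_pos.ne'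
  simp only [hh, ofComplex_apply]
  field_simp

end Pool.Agent.H485.CC
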