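import Pool.Agent.H485.CC.Pf2
import Pool.Agent.H485.CC.Ev2
import Pool.Agent.H485.CC.Ls2

/-!
# Unfolding for general sets, and the extremal property of the Bergman kernel
-/

set_option autoImplicit false
set_option maxHeartbeats 4000000

open Complex Filter Topology Set MeasureTheory UpperHalfPlane MatrixGroups CongruenceSubgroup
open scoped ENNReal Modular

namespace Pool.Agent.H485.CC

open Pool.Agent.W165.RS (FF ac FF_meas FF_inv Inv measurable_smul_SL)
open W388.LV (SF bf pet om ck q_pet IsNewSet)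
open W120.LV (eqS eqS_apply pet_eq lint_ne_top)
open Pool.Agent.W347.LV

variable {N : ℕ} [NeZero N]

/-- the modular group acts by isometries -/
lemma dist_SL (g : SL(2, ℤ)) (z w : ℍ) : dist (g • z) (g • w) = dist z w := by
  have h := dist_smul (Matrix.SpecialLinearGroup.map (Int.castRingHom ℝ) g : SL(2, ℝ)) z w
  exact h

/-- the number of the points of an orbit in a set -/
noncomputable def cntD (N : ℕ) (D : Set ℍ) (w : ℍ) : ℝ≥0∞ :=
  ∑' δ : Gamma0 N, D.indicator (fun _ => (1 : ℝ≥0∞)) ((δ : SL(2, ℤ))⁻¹ • w)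

omit [NeZero N] in
lemma sumD {G : ℍ → ℝ≥0∞} (hG : Inv N G) (D : Set ℍ) (z : ℍ) :
    ∑' g : SL(2, ℤ), D.indicator G (g • z) =
    ∑' γ : SL(2, ℤ) ⧸ Gamma0 N, G ((Quotient.out γ)⁻¹ • z) * cntD N D ((Quotient.out γ)⁻¹ • z) := by
  rw [← (Equiv.inv SL(2, ℤ)).tsum_eq, ← (eqS N).tsum_eq, ENNReal.tsum_prod']
  refine tsum_congr fun γ => ?_
  unfold cntD
  rw [← ENNReal.tsum_mul_left]
  refine tsum_congr fun δ => ?_
  rw [eqS_apply, Equiv.inv_apply, mul_inv_rev, mul_smul]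
  by_cases h : ((δ : SL(2, ℤ))⁻¹ • ((Quotient.out γ)⁻¹ • z)) ∈ D
  · rw [Set.indicator_of_mem h, Set.indicator_of_mem h, mul_one]
    exact hG _ (Subgroup.inv_mem _ δ.2) _
  · rw [Set.indicator_of_notMem h, Set.indicator_of_notMem h, mul_zero]

omit [NeZero N] in
/-- the unfolding -/
theorem lintD {G : ℍ → ℝ≥0∞} (hG : Inv N G) (hGm : Measurable G) {D : Set ℍ} (hD : MeasurableSet D) :
    ∫⁻ z, D.indicator G z = (2 : ℝ≥0∞)⁻¹ * ∫⁻ z in (ModularGroup.fd : Set ℍ),
      ∑' γ : SL(2, ℤ) ⧸ Gamma0 N, G ((Quotient.out γ)⁻¹ • z) * cntD N D ((Quotient.out γ)⁻¹ • z) := by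
  rw [Pool.Agent.W165.RS.unfold _ (hGm.indicator hD), ← lintegral_const_mul' _ _ (by simp),
    ← lintegral_indicator Pool.Agent.W165.RS.measurableSet_fd]
  refine lintegral_congr_ae ?_
  filter_upwards [W388.LV.q_phi] with z hz
  rw [hz]
  simp only [sumD hG]
  by_cases h : z ∈ (ModularGroup.fd : Set ℍ)
  · rw [Set.indicator_of_mem h, Set.indicator_of_mem h]
  · rw [Set.indicator_of_notMem h, Set.indicator_of_notMem h, zero_mul]

omit [NeZero N] in
lemma lintD_le {G : ℍ → ℝ≥0∞} (hG : Inv N G) (hGm : Measurable G) {D : Set ℍ} (hD : MeasurableSet D)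
    (hc : ∀ w, cntD N D w ≤ 2) :
    ∫⁻ z, D.indicator G z ≤ ∫⁻ z in (ModularGroup.fd : Set ℍ),
      ∑' γ : SL(2, ℤ) ⧸ Gamma0 N, G ((Quotient.out γ)⁻¹ • z) := by
  rw [lintD hG hGm hD, ← lintegral_const_mul' _ _ (by simp)]
  refine lintegral_mono fun z => ?_
  rw [← ENNReal.tsum_mul_left]
  refine ENNReal.tsum_le_tsum fun γ => ?_
  calc (2 : ℝ≥0∞)⁻¹ * (G ((Quotient.out γ)⁻¹ • z) * cntD N D ((Quotient.out γ)⁻¹ • z)) ≤
      (2 : ℝ≥0∞)⁻¹ * (G ((Quotient.out γ)⁻¹ • z) * 2) := by gcongr; exact hc _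
    _ = _ := by
      rw [mul_comm _ (2 : ℝ≥0∞), ← mul_assoc, ENNReal.inv_mul_cancel (by norm_num) (by norm_num), one_mul]

omit [NeZero N] in
/-- the count in a ball without short translations -/
lemma cntD_ball {w : ℍ} {r : ℝ}
    (h : ∀ δ : SL(2, ℤ), δ ∈ Gamma0 N → dist w (δ • w) < 2 * r → δ = 1 ∨ δ = -1) (z : ℍ) :
    cntD N (Metric.ball w r) z ≤ 2 := by
  classical
  unfold cntD
  by_cases h0 : ∃ δ : Gamma0 N, ((δ : SL(2, ℤ))⁻¹ • z) ∈ Metric.ball w r
  · obtain ⟨δ1, h1⟩ := h0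
    have hneg : -(δ1 : SL(2, ℤ)) ∈ Gamma0 N := by
      have h2 := δ1.2
      rw [CongruenceSubgroup.Gamma0_mem] at h2 ⊢
      simpa using h2
    rw [tsum_eq_sum (s := {δ1, (⟨-(δ1 : SL(2, ℤ)), hneg⟩ : Gamma0 N)})]
    · refine (Finset.sum_le_card_nsmul _ _ 1 fun δ _ => ?_).trans ?_
      · exact Set.indicator_le_self' (fun _ _ => zero_le) _ |>.trans (le_refl _)
      · rw [nsmul_eq_mul, mul_one]
        exact_mod_cast Finset.card_le_two
    · intro δ hδ
      apply Set.indicator_of_notMem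
      intro h2
      apply hδ
      have h3 := h ((δ : SL(2, ℤ))⁻¹ * δ1) (Subgroup.mul_mem _ (Subgroup.inv_mem _ δ.2) δ1.2) (by
        have e1 : ((δ : SL(2, ℤ))⁻¹ * (δ1 : SL(2, ℤ))) • ((δ1 : SL(2, ℤ))⁻¹ • z) = (δ : SL(2, ℤ))⁻¹ • z := by
          rw [mul_smul, smul_inv_smul]
        calc dist w (((δ : SL(2, ℤ))⁻¹ * (δ1 : SL(2, ℤ))) • w) ≤
            dist w (((δ : SL(2, ℤ))⁻¹ * (δ1 : SL(2, ℤ))) • ((δ1 : SL(2, ℤ))⁻¹ • z)) +
            dist (((δ : SL(2, ℤ))⁻¹ * (δ1 : SL(2, ℤ))) • ((δ1 : SL(2, ℤ))⁻¹ • z))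
              (((δ : SL(2, ℤ))⁻¹ * (δ1 : SL(2, ℤ))) • w) := dist_triangle _ _ _
          _ = dist w ((δ : SL(2, ℤ))⁻¹ • z) + dist ((δ1 : SL(2, ℤ))⁻¹ • z) w := by
              rw [e1]
              congr 1
              rw [← e1, dist_SL]
          _ < r + r := by
              rw [Metric.mem_ball] at h1 h2
              rw [dist_comm w]
              linarith
          _ = 2 * r := by ring)
      rw [Finset.mem_insert, Finset.mem_singleton]
      rcases h3 with h3 | h3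
      · left
        apply Subtype.ext
        rw [inv_mul_eq_one] at h3
        exact h3
      · right
        apply Subtype.ext
        show (δ : SL(2, ℤ)) = -(δ1 : SL(2, ℤ))
        rw [inv_mul_eq_iff_eq_mul] at h3
        rw [h3]
        simp
  · push Not at h0
    rw [ENNReal.tsum_eq_zero.2 fun δ => Set.indicator_of_notMem (h0 δ) _]
    exact zero_le

/-- the sharp pointwise bound at a point without short translations -/
theorem pt_sharp (f : SF N 2) {w : ℍ} {r : ℝ} (hr : 0 < r)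
    (h : ∀ δ : SL(2, ℤ), δ ∈ Gamma0 N → dist w (δ • w) < 2 * r → δ = 1 ∨ δ = -1) :
    4 * Real.pi * rho2 r * (‖f w‖ ^ 2 * w.im ^ 2) ≤ (pet N 2 f f).re := by
  have h1 := ball_mean f w hr
  have h2 := lintD_le (FF_inv f) (FF_meas f) (D := Metric.ball w r) Metric.isOpen_ball.measurableSet
    (cntD_ball h)
  have h3 := ENNReal.toReal_mono (lint_ne_top f) (h1.trans h2)
  rw [← pet_eq f] at h3
  refine le_trans (le_of_eq ?_) h3
  have hp := rho2_pos hr
  unfold Pool.Agent.W165.RS.FF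
  rw [← ENNReal.ofReal_mul (by positivity), ENNReal.toReal_ofReal (by positivity), zpow_ofNat]

/-- the Bergman kernel on the diagonal -/
noncomputable def KR (B : Finset (SF N 2)) (w : ℍ) : ℝ :=
  ∑ f ∈ B, ‖f w‖ ^ 2 * w.im ^ 2 / (pet N 2 f f).re

lemma pet_posB {B : Finset (SF N 2)} (hB : IsNewSet N 2 B) {f : SF N 2} (hf : f ∈ B) :
    0 < (pet N 2 f f).re := by
  apply ((q_pet N 2).2.2.2 f).2.2
  intro h0
  obtain ⟨ε, hε⟩ := hB.newf f hf
  have h1 : bf f 1 = 1 := hε.one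
  rw [h0, bf_zero] at h1
  exact zero_ne_one h1

/-- the Bergman kernel is extremal -/
theorem KR_le {B : Finset (SF N 2)} (hB : IsNewSet N 2 B) (w : ℍ) {c : ℝ} (hc : 0 < c)
    (h : ∀ f : SF N 2, c * (‖f w‖ ^ 2 * w.im ^ 2) ≤ (pet N 2 f f).re) : KR B w ≤ 1 / c := by
  have hP := q_pet
  have hppos : ∀ f ∈ B, 0 < (pet N 2 f f).re := fun f hf => pet_posB hB hf
  have him : ∀ f : SF N 2, pet N 2 f f = (((pet N 2 f f).re : ℝ) : ℂ) := by
    intro f
    apply Complex.ext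
    · simp
    · simp [((hP N 2).2.2.2 f).1]
  set a : SF N 2 → ℂ := fun f => (starRingEnd ℂ) (f w) * (((pet N 2 f f).re)⁻¹ : ℝ) with ha
  set G : SF N 2 := ∑ f ∈ B, a f • f with hG
  set S : ℝ := ∑ f ∈ B, ‖f w‖ ^ 2 / (pet N 2 f f).re with hS
  have hS0 : 0 ≤ S := Finset.sum_nonneg fun f hf => div_nonneg (by positivity) (hppos f hf).le
  have hGw : G w = (S : ℂ) := by
    rw [hG, cf_sum_apply, hS, Complex.ofReal_sum]
    refine Finset.sum_congr rfl fun f hf => ?_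
    show a f * f w = _
    simp only [ha]
    have h4 : (starRingEnd ℂ) (f w) * f w = ((‖f w‖ ^ 2 : ℝ) : ℂ) := by
      rw [Complex.conj_mul']; push_cast; rfl
    calc (starRingEnd ℂ) (f w) * (((pet N 2 f f).re)⁻¹ : ℝ) * f w =
        ((starRingEnd ℂ) (f w) * f w) * (((pet N 2 f f).re)⁻¹ : ℝ) := by ring
      _ = _ := by rw [h4, ← Complex.ofReal_mul, div_eq_mul_inv]
  have hGG : (pet N 2 G G).re = S := by
    have h0 : pet N 2 G G = (S : ℂ) := by
      rw [hG, pet_sum_left hP]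
      simp_rw [pet_sum_right hP]
      rw [hS, Complex.ofReal_sum]
      refine Finset.sum_congr rfl fun f hf => ?_
      rw [Finset.sum_eq_single f]
      · have hp := hppos f hf
        rw [him f]
        simp only [ha, map_mul, Complex.conj_conj, Complex.conj_ofReal]
        have h4 : (starRingEnd ℂ) (f w) * f w = ((‖f w‖ ^ 2 : ℝ) : ℂ) := by
          rw [Complex.conj_mul']; push_cast; rfl
        rw [div_eq_mul_inv, Complex.ofReal_mul, ← h4]
        have h5 : ((((pet N 2 f f).re)⁻¹ : ℝ) : ℂ) * (((pet N 2 f f).re : ℝ) : ℂ) = 1 := by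
          rw [← Complex.ofReal_mul, inv_mul_cancel₀ hp.ne', Complex.ofReal_one]
        linear_combination (f w * (((pet N 2 f f).re)⁻¹ : ℝ) * (starRingEnd ℂ) (f w)) * h5
      · intro g hg hgf
        rw [hB.orth f hf g hg (Ne.symm hgf), mul_zero]
      · intro h; exact absurd hf h
    rw [h0, Complex.ofReal_re]
  have h1 := h G
  rw [hGw, hGG, Complex.norm_real, Real.norm_eq_abs, sq_abs] at h1
  have h2 : KR B w = S * w.im ^ 2 := by
    unfold KR
    rw [hS, Finset.sum_mul]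
    refine Finset.sum_congr rfl fun f _ => ?_
    ring
  rw [h2, le_div_iff₀ hc]
  by_cases hz : S = 0
  · rw [hz]; simp
  · have hSp : 0 < S := lt_of_le_of_ne hS0 (Ne.symm hz)
    have h3 : S * (S * w.im ^ 2 * c) ≤ S * 1 := by
      calc S * (S * w.im ^ 2 * c) = c * (S ^ 2 * w.im ^ 2) := by ring
        _ ≤ S := h1
        _ = S * 1 := (mul_one _).symm
    exact le_of_mul_le_mul_left h3 hSp

end Pool.Agent.H485.CC
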