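import Pool.Agent.H485.CC.Pf5

/-!
# Two volumes
-/

set_option autoImplicit false
set_option maxHeartbeats 4000000

open Filter Topology Set UpperHalfPlane MatrixGroups CongruenceSubgroup MeasureTheory
open scoped Modular ENNReal

namespace Pool.Agent.H485.CC

open Pool.Agent.W165.RS (lintegral_coords measurableSet_fd im_fd SS)

lemma lint_inv_sq {a : ℝ} (ha : 0 < a) : ∫⁻ y in Ioi a, ENNReal.ofReal ((1 / y) ^ 2) = ENNReal.ofReal (1 / a) := by
  have h1 : ∀ y ∈ Ioi a, ENNReal.ofReal ((1 / y) ^ 2) = ENNReal.ofReal (y ^ (-2 : ℝ)) := by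
    intro y hy
    have hy0 : 0 < y := ha.trans hy
    congr 1
    rw [Real.rpow_neg hy0.le, one_div, inv_pow]
    congr 1
    exact (Real.rpow_natCast y 2).symm
  rw [setLIntegral_congr_fun measurableSet_Ioi h1, ← ofReal_integral_eq_lintegral_ofReal]
  · rw [integral_Ioi_rpow_of_lt (by norm_num) ha]
    congr 1
    rw [show (-2 : ℝ) + 1 = -1 by norm_num, Real.rpow_neg_one]
    field_simp
  · exact integrableOn_Ioi_rpow_of_lt (by norm_num) ha
  · filter_upwards [ae_restrict_mem measurableSet_Ioi] with y hy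
    exact Real.rpow_nonneg (ha.trans hy).le _

/-- the volume of the strip -/
theorem vol_UU {c : ℝ} (hc : 0 < c) : volume (UU c) = ENNReal.ofReal (1 / c) := by
  set S : Set ℂ := {z | (0 ≤ z.re ∧ z.re < 1) ∧ c < z.im} with hS
  have hSm : MeasurableSet S :=
    ((measurableSet_le measurable_const Complex.measurable_re).inter
      (measurableSet_lt Complex.measurable_re measurable_const)).inter
      (measurableSet_lt measurable_const Complex.measurable_im)
  have h1 : volume (UU c) = ∫⁻ z : ℍ, (S.indicator (fun _ => (1 : ℝ≥0∞)) : ℂ → ℝ≥0∞) z := by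
    rw [← lintegral_indicator_one (measurableSet_UU c)]
    refine lintegral_congr fun z => ?_
    by_cases h : z ∈ UU c
    · rw [Set.indicator_of_mem h, Set.indicator_of_mem (show (z : ℂ) ∈ S from ⟨h.1, h.2⟩)]
      rfl
    · rw [Set.indicator_of_notMem h, Set.indicator_of_notMem (fun h' : (z : ℂ) ∈ S => h ⟨h'.1, h'.2⟩)]
  rw [h1, lintegral_coords _ (measurable_const.indicator hSm)]
  have h2 : ∀ y ∈ Ioi (0 : ℝ), ∫⁻ x : ℝ, S.indicator (fun _ => (1 : ℝ≥0∞)) ((x : ℂ) + y * Complex.I) *
      ENNReal.ofReal ((1 / y) ^ 2) = (Ioi c).indicator (fun y => ENNReal.ofReal ((1 / y) ^ 2)) y := by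
    intro y _
    have hre : ∀ x : ℝ, ((x : ℂ) + y * Complex.I).re = x := fun x => by simp
    have him : ∀ x : ℝ, ((x : ℂ) + y * Complex.I).im = y := fun x => by simp
    rw [lintegral_mul_const' _ _ ENNReal.ofReal_ne_top]
    by_cases hy : c < y
    · rw [Set.indicator_of_mem (show y ∈ Ioi c from hy)]
      have e1 : ∀ x : ℝ, S.indicator (fun _ => (1 : ℝ≥0∞)) ((x : ℂ) + y * Complex.I) =
          (Ico (0 : ℝ) 1).indicator (fun _ => (1 : ℝ≥0∞)) x := by
        intro x
        by_cases hx : x ∈ Ico (0 : ℝ) 1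
        · rw [Set.indicator_of_mem hx, Set.indicator_of_mem]
          refine ⟨⟨?_, ?_⟩, ?_⟩
          · rw [hre]; exact hx.1
          · rw [hre]; exact hx.2
          · rw [him]; exact hy
        · rw [Set.indicator_of_notMem hx, Set.indicator_of_notMem]
          intro h
          apply hx
          have h3 := h.1
          rw [hre] at h3
          exact h3
      simp_rw [e1]
      rw [lintegral_indicator measurableSet_Ico, setLIntegral_const, Real.volume_Ico]
      simp
    · rw [Set.indicator_of_notMem (show y ∉ Ioi c from hy)]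
      have e1 : ∀ x : ℝ, S.indicator (fun _ => (1 : ℝ≥0∞)) ((x : ℂ) + y * Complex.I) = 0 := by
        intro x
        apply Set.indicator_of_notMem
        intro h
        have h3 := h.2
        rw [him] at h3
        exact hy h3
      simp_rw [e1]
      simp
  rw [setLIntegral_congr_fun measurableSet_Ioi h2, lintegral_indicator measurableSet_Ioi,
    Measure.restrict_restrict measurableSet_Ioi]
  have hinter : Ioi c ∩ Ioi 0 = Ioi c := by
    rw [Set.inter_eq_left]
    intro y hy
    exact hc.trans hy
  rw [hinter, lint_inv_sq hc]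

/-- the volume of the fundamental domain -/
theorem vol_fd : volume (ModularGroup.fd : Set ℍ) ≤ ENNReal.ofReal (Real.pi / 3) := by
  set S : Set ℂ := {z | |z.re| ≤ 1 / 2 ∧ 1 ≤ z.re ^ 2 + z.im ^ 2} with hS
  have hSm : MeasurableSet S :=
    (measurableSet_le Complex.measurable_re.abs measurable_const).inter
      (measurableSet_le measurable_const ((Complex.measurable_re.pow_const 2).add
        (Complex.measurable_im.pow_const 2)))
  have h1 : volume (ModularGroup.fd : Set ℍ) =
      ∫⁻ z : ℍ, (S.indicator (fun _ => (1 : ℝ≥0∞)) : ℂ → ℝ≥0∞) z := by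
    rw [← lintegral_indicator_one measurableSet_fd]
    refine lintegral_congr fun z => ?_
    have hiff : z ∈ (ModularGroup.fd : Set ℍ) ↔ (z : ℂ) ∈ S := by
      have e1 : Complex.normSq (z : ℂ) = (z : ℂ).re ^ 2 + (z : ℂ).im ^ 2 := by
        rw [Complex.normSq_apply]; ring
      constructor
      · intro h
        refine ⟨h.2, ?_⟩
        rw [← e1]
        exact h.1
      · intro h
        refine ⟨?_, h.1⟩
        rw [e1]
        exact h.2
    by_cases h : z ∈ (ModularGroup.fd : Set ℍ)
    · rw [Set.indicator_of_mem h, Set.indicator_of_mem (hiff.1 h)]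
      rfl
    · rw [Set.indicator_of_notMem h, Set.indicator_of_notMem (fun h' => h (hiff.2 h'))]
  rw [h1, lintegral_coords _ (measurable_const.indicator hSm)]
  have hm : Measurable (fun p : ℝ × ℝ => S.indicator (fun _ => (1 : ℝ≥0∞)) ((p.2 : ℂ) + p.1 * Complex.I) *
      ENNReal.ofReal ((1 / p.1) ^ 2)) := by
    refine Measurable.mul ?_ ?_
    · exact (measurable_const.indicator hSm).comp (by fun_prop)
    · exact ENNReal.measurable_ofReal.comp ((measurable_const.div measurable_fst).pow_const 2)
  rw [lintegral_lintegral_swap hm.aemeasurable]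
  have h2 : ∀ x : ℝ, ∫⁻ y in Ioi (0 : ℝ), S.indicator (fun _ => (1 : ℝ≥0∞)) ((x : ℂ) + y * Complex.I) *
      ENNReal.ofReal ((1 / y) ^ 2) ≤ (Icc (-(1 / 2) : ℝ) (1 / 2)).indicator
        (fun x => ENNReal.ofReal (1 / Real.sqrt (1 - x ^ 2))) x := by
    intro x
    have hre : ∀ y : ℝ, ((x : ℂ) + y * Complex.I).re = x := fun y => by simp
    have him : ∀ y : ℝ, ((x : ℂ) + y * Complex.I).im = y := fun y => by simp
    by_cases hx : x ∈ Icc (-(1 / 2) : ℝ) (1 / 2)
    · rw [Set.indicator_of_mem hx]
      have hx1 : 0 < 1 - x ^ 2 := by nlinarith [hx.1, hx.2]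
      have hs0 : 0 < Real.sqrt (1 - x ^ 2) := Real.sqrt_pos.2 hx1
      rw [← lint_inv_sq hs0]
      have e1 : ∫⁻ y in Ioi (0 : ℝ), S.indicator (fun _ => (1 : ℝ≥0∞)) ((x : ℂ) + y * Complex.I) *
          ENNReal.ofReal ((1 / y) ^ 2) ≤ ∫⁻ y in Ioi (0 : ℝ), (Ici (Real.sqrt (1 - x ^ 2))).indicator
            (fun y => ENNReal.ofReal ((1 / y) ^ 2)) y := by
        refine setLIntegral_mono' measurableSet_Ioi fun y hy => ?_
        by_cases h : ((x : ℂ) + y * Complex.I) ∈ S
        · rw [Set.indicator_of_mem h, one_mul]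
          have h3 := h.2
          rw [hre, him] at h3
          have h4 : y ∈ Ici (Real.sqrt (1 - x ^ 2)) := by
            show Real.sqrt (1 - x ^ 2) ≤ y
            rw [Real.sqrt_le_left (show (0 : ℝ) ≤ y from le_of_lt hy)]
            linarith
          rw [Set.indicator_of_mem h4]
        · rw [Set.indicator_of_notMem h, zero_mul]
          exact zero_le
      refine e1.trans ?_
      rw [lintegral_indicator measurableSet_Ici, Measure.restrict_restrict measurableSet_Ici]
      have hinter : Ici (Real.sqrt (1 - x ^ 2)) ∩ Ioi 0 = Ici (Real.sqrt (1 - x ^ 2)) := by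
        rw [Set.inter_eq_left]
        intro y hy
        exact lt_of_lt_of_le hs0 hy
      rw [hinter, setLIntegral_congr Ioi_ae_eq_Ici.symm]
    · rw [Set.indicator_of_notMem hx]
      have e1 : ∀ y : ℝ, S.indicator (fun _ => (1 : ℝ≥0∞)) ((x : ℂ) + y * Complex.I) = 0 := by
        intro y
        apply Set.indicator_of_notMem
        intro h
        have h3 := h.1
        rw [hre] at h3
        exact hx (abs_le.1 h3)
      simp_rw [e1]
      simp
  refine (lintegral_mono h2).trans ?_
  rw [lintegral_indicator measurableSet_Icc]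
  have hcont : ContinuousOn (fun x : ℝ => 1 / Real.sqrt (1 - x ^ 2)) (Icc (-(1 / 2) : ℝ) (1 / 2)) := by
    refine ContinuousOn.div continuousOn_const (by fun_prop) fun x hx => ?_
    have hx1 : 0 < 1 - x ^ 2 := by nlinarith [hx.1, hx.2]
    exact (Real.sqrt_pos.2 hx1).ne'
  rw [← ofReal_integral_eq_lintegral_ofReal]
  · apply ENNReal.ofReal_le_ofReal
    apply le_of_eq
    rw [integral_Icc_eq_integral_Ioc, ← intervalIntegral.integral_of_le (by norm_num),
      intervalIntegral.integral_eq_sub_of_hasDerivAt (f := Real.arcsin)]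
    · have h6 : Real.arcsin (1 / 2) = Real.pi / 6 := by
        rw [← Real.sin_pi_div_six, Real.arcsin_sin] <;> linarith [Real.pi_pos]
      rw [Real.arcsin_neg, h6]
      ring
    · intro x hx
      rw [Set.uIcc_of_le (by norm_num)] at hx
      exact Real.hasDerivAt_arcsin (by linarith [hx.1]) (by linarith [hx.2])
    · refine ContinuousOn.intervalIntegrable ?_
      rw [Set.uIcc_of_le (by norm_num)]
      exact hcont
  · exact hcont.integrableOn_Icc
  · filter_upwards with x
    positivity

end Pool.Agent.H485.CC
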