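import Pool.Agent.H485.CC.Pf6

/-!
# The region at the cusp zero
-/

set_option autoImplicit false
set_option maxHeartbeats 4000000

open Complex Filter Topology Set MeasureTheory UpperHalfPlane MatrixGroups CongruenceSubgroup
open scoped ENNReal Modular

namespace Pool.Agent.H485.CC

open Pool.Agent.W165.RS
open W388.LV (SF pet om ck IsNewSet)
open W120.LV (eqS eqS_apply pet_eq lint_ne_top)

variable {N : ℕ} [NeZero N]

/-- the region at the cusp zero -/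
def D0 (N : ℕ) [NeZero N] (c : ℝ) : Set ℍ := (fun z : ℍ => WN N • z) ⁻¹' UU c

lemma D0_meas (c : ℝ) : MeasurableSet (D0 N c) := measurable_W (measurableSet_UU c)

lemma cntD_UU_le (hN : 0 < N) {c : ℝ} (hc : 1 / (N : ℝ) ≤ c) (w : ℍ) : cntD N (UU c) w ≤ 2 := by
  unfold cntD
  refine le_trans (ENNReal.tsum_le_tsum fun δ => ?_) (W120.LV.count_EE N hN w)
  refine Set.indicator_le_indicator_of_subset (fun z hz => ?_) (fun _ => zero_le) _
  exact ⟨hz.1, lt_of_le_of_lt hc hz.2⟩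

lemma cntD_D0_le (hN : 0 < N) {c : ℝ} (hc : 1 / (N : ℝ) ≤ c) (w : ℍ) : cntD N (D0 N c) w ≤ 2 := by
  have h1 : ∀ δ : Gamma0 N, (D0 N c).indicator (fun _ => (1 : ℝ≥0∞))
      ((δ : SL(2, ℤ))⁻¹ • w) = (UU c).indicator (fun _ => (1 : ℝ≥0∞))
        (((cj δ⁻¹ : Gamma0 N) : SL(2, ℤ)) • (WN N • w)) := by
    intro δ
    have h2 := cj_smul δ⁻¹ w
    rw [show ((δ⁻¹ : Gamma0 N) : SL(2, ℤ)) = (δ : SL(2, ℤ))⁻¹ from rfl] at h2
    rw [← h2]
    rfl
  unfold cntD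
  rw [tsum_congr h1]
  refine le_trans ?_ (cntD_UU_le hN hc (WN N • w))
  have h3 : Function.Injective (fun δ : Gamma0 N => (cj δ⁻¹)⁻¹) := by
    intro a b hab
    simp only [inv_inj] at hab
    exact inv_injective (cj_inj hab)
  have h4 := ENNReal.tsum_comp_le_tsum_of_injective h3 (fun δ : Gamma0 N =>
    (UU c).indicator (fun _ => (1 : ℝ≥0∞)) ((δ : SL(2, ℤ))⁻¹ • (WN N • w)))
  refine le_trans (le_of_eq ?_) h4
  refine tsum_congr fun δ => ?_
  simp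

/-- a point of a coset at the cusp zero -/
lemma exists_mem0 (hN : N.Prime) {c : ℝ} {g : SL(2, ℤ)} (hgN : g ∉ Gamma0 N) {v : ℍ}
    (hc : c < v.im / N) : ∃ δ ∈ Gamma0 N, (WN N • (δ • (g⁻¹ • v)) : ℍ) ∈ UU c := by
  have hN0 : (0 : ℝ) < N := by exact_mod_cast hN.pos
  obtain ⟨j0, hj0⟩ := exists_j hN g hgN
  set w : ℍ := g⁻¹ • v with hw
  have hv : v = g • w := by rw [hw, smul_inv_smul]
  set x : ℝ := (v.re + j0) / N with hx
  set j : ℤ := j0 + N * (-⌊x⌋) with hj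
  have hmem : (ModularGroup.S * ModularGroup.T ^ j * g : SL(2, ℤ)) ∈ Gamma0 N := by
    rw [Gamma0_mem, entry] at hj0 ⊢
    rw [hj]
    push_cast at hj0 ⊢
    have : ((N : ℕ) : ZMod N) = 0 := ZMod.natCast_self N
    rw [this]
    linear_combination hj0
  refine ⟨_, hmem, ?_⟩
  have e1 : ((WN N • ((ModularGroup.S * ModularGroup.T ^ j * g : SL(2, ℤ)) • w : ℍ) : ℍ) : ℂ) =
      ((v : ℂ) + j) / N := by
    rw [WN_smul, mul_smul, mul_smul, ← hv, modular_S_smul, modular_T_zpow_smul]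
    have hNc : (N : ℂ) ≠ 0 := by exact_mod_cast hN0.ne'
    have hvj : (v : ℂ) + j ≠ 0 := by
      intro h0
      have := congrArg Complex.im h0
      simp at this
      exact v.im_ne_zero this
    have e2 : ((((j : ℝ) +ᵥ v : ℍ)) : ℂ) = (v : ℂ) + j := by
      rw [coe_vadd]
      push_cast
      ring
    show -1 / ((N : ℂ) * (-(((j : ℝ) +ᵥ v : ℍ) : ℂ))⁻¹) = _
    rw [e2]
    field_simp
  have hre : ((WN N • ((ModularGroup.S * ModularGroup.T ^ j * g : SL(2, ℤ)) • w : ℍ) : ℍ)).re =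
      x - ⌊x⌋ := by
    rw [← coe_re, e1]
    have : (((v : ℂ) + j) / N).re = (v.re + j) / N := by
      rw [Complex.div_natCast_re]
      simp
    rw [this, hx, hj]
    push_cast
    field_simp
    ring
  have him2 : ((WN N • ((ModularGroup.S * ModularGroup.T ^ j * g : SL(2, ℤ)) • w : ℍ) : ℍ)).im =
      v.im / N := by
    rw [← coe_im, e1, Complex.div_natCast_im]
    simp
  refine ⟨⟨?_, ?_⟩, ?_⟩
  · rw [hre]; linarith [Int.floor_le x]
  · rw [hre]; linarith [Int.lt_floor_add_one x]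
  · rw [him2]; exact hc

/-- an orbit which meets a set meets it twice -/
lemma cntD_ge {D : Set ℍ} {w : ℍ} {δ : SL(2, ℤ)} (hδ : δ ∈ Gamma0 N) (h : δ • w ∈ D) :
    2 ≤ cntD N D w := by
  have hneg : -(δ⁻¹ : SL(2, ℤ)) ∈ Gamma0 N := by
    have h2 := Subgroup.inv_mem _ hδ
    rw [CongruenceSubgroup.Gamma0_mem] at h2 ⊢
    simpa using h2
  have hne : (⟨δ⁻¹, Subgroup.inv_mem _ hδ⟩ : Gamma0 N) ≠ ⟨-(δ⁻¹ : SL(2, ℤ)), hneg⟩ := by
    intro h0
    have h1 := congrArg (fun g : Gamma0 N => (g : SL(2, ℤ))) h0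
    simp only at h1
    have h2 : (δ⁻¹ : SL(2, ℤ)).1 = -(δ⁻¹ : SL(2, ℤ)).1 := by
      conv_lhs => rw [h1]
      rfl
    have h3 : (δ⁻¹ : SL(2, ℤ)).1 = 0 := by
      ext i j
      have := congrFun (congrFun h2 i) j
      simp only [Matrix.neg_apply] at this
      simp only [Matrix.zero_apply]
      omega
    have h4 := (δ⁻¹ : SL(2, ℤ)).2
    rw [h3] at h4
    simp at h4
  unfold cntD
  refine le_trans ?_ (ENNReal.sum_le_tsum {(⟨δ⁻¹, Subgroup.inv_mem _ hδ⟩ : Gamma0 N), ⟨-(δ⁻¹ : SL(2, ℤ)), hneg⟩})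
  rw [Finset.sum_pair hne]
  have e1 : ((⟨δ⁻¹, Subgroup.inv_mem _ hδ⟩ : Gamma0 N) : SL(2, ℤ))⁻¹ • w = δ • w := by simp
  have e2 : ((⟨-(δ⁻¹ : SL(2, ℤ)), hneg⟩ : Gamma0 N) : SL(2, ℤ))⁻¹ • w = δ • w := by
    show ((-(δ⁻¹ : SL(2, ℤ))) : SL(2, ℤ))⁻¹ • w = δ • w
    have : ((-(δ⁻¹ : SL(2, ℤ))) : SL(2, ℤ))⁻¹ = -δ := by
      rw [inv_eq_iff_mul_eq_one]
      simp
    rw [this, ModularGroup.SL_neg_smul]
  rw [e1, e2, Set.indicator_of_mem h]
  norm_num

/-- the strip integral at the cusp zero -/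
lemma lint_D0 {f : SF N 2} (hf : ∀ z : ℍ, FF f (WN N • z) = FF f z) (c : ℝ) :
    ∫⁻ z, (D0 N c).indicator (FF f) z = ∫⁻ z, (UU c).indicator (FF f) z :=
  lint_W_UU hf c

lemma vol_D0 {c : ℝ} (hc : 0 < c) : volume (D0 N c) = ENNReal.ofReal (1 / c) := by
  rw [← vol_UU hc]
  exact (measurePreserving_smul (WN N) (volume : Measure ℍ)).measure_preimage
    (measurableSet_UU c).nullMeasurableSet

lemma cntD_meas {D : Set ℍ} (hD : MeasurableSet D) : Measurable (cntD N D) := by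
  unfold cntD
  refine Measurable.ennreal_tsum fun δ => ?_
  exact (measurable_const.indicator hD).comp (measurable_smul_SL _)

end Pool.Agent.H485.CC
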