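import Pool.Agent.H485.CC.Tw2
import Pool.Agent.H485.CC.Fin

/-!
# The total harmonic weight is one
-/

set_option autoImplicit false
set_option maxHeartbeats 4000000

open Complex Filter Topology Set MeasureTheory UpperHalfPlane MatrixGroups CongruenceSubgroup
open scoped ENNReal Modular

namespace Pool.Agent.H485.CC

open Pool.Agent.W165.RS (FF ac FF_meas FF_inv Inv measurable_smul_SL measurableSet_fd)
open W388.LV (SF bf pet om ck q_pet IsNewSet)
open Pool.Agent.W347.LV

variable {N : ℕ} [NeZero N]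

/-- the second moment of an eigenvalue -/
noncomputable def DB (B : Finset (SF N 2)) (n : ℕ) : ℝ := ∑ f ∈ B, om f * W388.lamf f n ^ 2

lemma DB_nonneg (B : Finset (SF N 2)) (n : ℕ) : 0 ≤ DB B n :=
  Finset.sum_nonneg fun f _ => mul_nonneg (om_nonneg f) (sq_nonneg _)

lemma DB_le (hN : N.Prime) {B : Finset (SF N 2)} (hB : IsNewSet N 2 B) {n : ℕ} (hn : 1 ≤ n) :
    DB B n ≤ Real.exp (4 * Real.pi * n / N) := by
  have hN0 : (0 : ℝ) < N := by exact_mod_cast hN.pos
  have h := ls_two hN hB (c1 := 1 / N) (c2 := 1) (η := 4 * Real.pi * n / N) le_rfl (by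
    rw [div_le_one hN0]
    exact_mod_cast hN.one_le) (by field_simp; exact le_rfl) {n} ∅ (by
    intro m hm
    rw [Finset.mem_singleton] at hm
    subst hm
    exact ⟨hn, le_of_eq (by ring)⟩) (by simp) (fun _ => 1) (fun _ => 0)
  simp only [Finset.sum_singleton, one_mul, Finset.sum_empty, mul_zero, add_zero, one_pow, mul_one] at h
  exact h

lemma Wt_le (hN : N.Prime) {B : Finset (SF N 2)} (hB : IsNewSet N 2 B) :
    Wt B ≤ Real.exp (4 * Real.pi / N) := by
  have h := DB_le hN hB (n := 1) le_rfl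
  have e : DB B 1 = Wt B := by
    unfold DB Wt
    refine Finset.sum_congr rfl fun f hf => ?_
    obtain ⟨ε, hε⟩ := hB.newf f hf
    rw [(W388.heckeSeq_lamf hε).one]
    ring
  rw [e] at h
  simpa using h

lemma term_eq {B : Finset (SF N 2)} (hB : IsNewSet N 2 B) {f : SF N 2} (hf : f ∈ B) (n : ℕ) (c : ℝ) :
    ‖ac f n‖ ^ 2 * (Real.exp (-(4 * Real.pi * n * c)) / (4 * Real.pi * n)) / (pet N 2 f f).re =
      om f * W388.lamf f n ^ 2 * Real.exp (-(4 * Real.pi * n * c)) := by
  obtain ⟨ε, hε⟩ := hB.newf f hf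
  have hp := pet_posB hB hf
  have hckv : ck 2 = 1 / (4 * Real.pi) := by
    unfold ck
    norm_num [Real.Gamma_one]
  have h1 : ac f n = bf f n := rfl
  have hre : bf f n = (((bf f n).re : ℝ) : ℂ) := by
    apply Complex.ext
    · simp
    · simp only [Complex.ofReal_im]
      exact hε.real n
  have h2 : ‖ac f n‖ ^ 2 = (bf f n).re ^ 2 := by
    rw [h1, hre, Complex.norm_real, Real.norm_eq_abs, sq_abs, Complex.ofReal_re]
  have h3 : W388.lamf f n = (bf f n).re / Real.sqrt n := by
    unfold W388.lamf bf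
    have e1 : ((((2 : ℤ) : ℝ) - 1) / 2) = 1 / 2 := by norm_num
    rw [e1, ← Real.sqrt_eq_rpow]
  rw [h2, h3]
  unfold om
  rw [hckv]
  rcases Nat.eq_zero_or_pos n with rfl | hn
  · simp
  · have hn' : (0 : ℝ) < n := by exact_mod_cast hn
    rw [div_pow, Real.sq_sqrt hn'.le]
    have := Real.pi_pos
    field_simp

lemma sum_geo_le {α : ℝ} (hα : 0 < α) : Summable (fun n : ℕ => Real.exp (-(α * n))) ∧
    ∑' n : ℕ, Real.exp (-(α * n)) ≤ 1 + 1 / α := by
  have h1 : ∀ n : ℕ, Real.exp (-(α * n)) = Real.exp (-α) ^ n := by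
    intro n
    rw [← Real.exp_nat_mul]
    congr 1
    ring
  have h2 : Real.exp (-α) < 1 := by rw [Real.exp_lt_one_iff]; linarith
  have h3 := summable_geometric_of_lt_one (Real.exp_pos (-α)).le h2
  refine ⟨h3.congr fun n => (h1 n).symm, ?_⟩
  rw [tsum_congr h1, tsum_geometric_of_lt_one (Real.exp_pos (-α)).le h2]
  have h4 : 1 - Real.exp (-α) ≥ α / (1 + α) := by
    have h5 : Real.exp (-α) ≤ 1 / (1 + α) := by
      rw [Real.exp_neg, ← one_div]
      apply one_div_le_one_div_of_le (by linarith)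
      linarith [Real.add_one_le_exp α]
    have h6 : 1 - 1 / (1 + α) = α / (1 + α) := by field_simp; ring
    linarith
  calc (1 - Real.exp (-α))⁻¹ ≤ (α / (1 + α))⁻¹ := inv_anti₀ (by positivity) h4
    _ = 1 + 1 / α := by field_simp; ring

/-- the sum in the defect inequality -/
lemma third_eq (hN : N.Prime) {B : Finset (SF N 2)} (hB : IsNewSet N 2 B) {c : ℝ} (hc : 1 / (N : ℝ) < c) :
    Summable (fun n : ℕ => DB B n * Real.exp (-(4 * Real.pi * n * c))) ∧
    ∑ f ∈ B, (∑' n : ℕ, ‖ac f n‖ ^ 2 * (Real.exp (-(4 * Real.pi * n * c)) / (4 * Real.pi * n))) /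
        (pet N 2 f f).re = ∑' n : ℕ, DB B n * Real.exp (-(4 * Real.pi * n * c)) := by
  have hN0 : (0 : ℝ) < N := by exact_mod_cast hN.pos
  have hα : 0 < 4 * Real.pi * (c - 1 / N) := by
    have := Real.pi_pos
    have h1 : 0 < c - 1 / N := by linarith
    positivity
  have hD0 : DB B 0 = 0 := by
    unfold DB
    refine Finset.sum_eq_zero fun f _ => ?_
    unfold W388.lamf
    norm_num
  have hb : ∀ n : ℕ, DB B n * Real.exp (-(4 * Real.pi * n * c)) ≤
      Real.exp (-(4 * Real.pi * (c - 1 / N) * n)) := by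
    intro n
    rcases Nat.eq_zero_or_pos n with rfl | hn
    · rw [hD0, zero_mul]; positivity
    · calc DB B n * Real.exp (-(4 * Real.pi * n * c)) ≤
          Real.exp (4 * Real.pi * n / N) * Real.exp (-(4 * Real.pi * n * c)) :=
            mul_le_mul_of_nonneg_right (DB_le hN hB hn) (Real.exp_pos _).le
        _ = _ := by
          rw [← Real.exp_add]
          congr 1
          ring
  have hs := (sum_geo_le hα).1
  have hS : Summable (fun n : ℕ => DB B n * Real.exp (-(4 * Real.pi * n * c))) :=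
    Summable.of_nonneg_of_le (fun n => mul_nonneg (DB_nonneg B n) (Real.exp_pos _).le) hb hs
  refine ⟨hS, ?_⟩
  have hf1 : ∀ f ∈ B, Summable (fun n : ℕ => om f * W388.lamf f n ^ 2 * Real.exp (-(4 * Real.pi * n * c))) := by
    intro f hf
    refine Summable.of_nonneg_of_le (fun n => mul_nonneg (mul_nonneg (om_nonneg f) (sq_nonneg _))
      (Real.exp_pos _).le) (fun n => ?_) hS
    refine mul_le_mul_of_nonneg_right ?_ (Real.exp_pos _).le
    exact Finset.single_le_sum (f := fun f : SF N 2 => om f * W388.lamf f n ^ 2)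
      (fun g _ => mul_nonneg (om_nonneg g) (sq_nonneg _)) hf
  have e1 : ∀ f ∈ B, (∑' n : ℕ, ‖ac f n‖ ^ 2 * (Real.exp (-(4 * Real.pi * n * c)) / (4 * Real.pi * n))) /
        (pet N 2 f f).re = ∑' n : ℕ, om f * W388.lamf f n ^ 2 * Real.exp (-(4 * Real.pi * n * c)) := by
    intro f hf
    rw [← tsum_div_const]
    exact tsum_congr fun n => term_eq hB hf n c
  rw [Finset.sum_congr rfl e1, ← Summable.tsum_finsetSum hf1]
  refine tsum_congr fun n => ?_
  unfold DB
  rw [Finset.sum_mul]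

/-- the defect on the primes -/
theorem mass_core (hN : N.Prime) {B : Finset (SF N 2)} (hB : IsNewSet N 2 B)
    (hcard : (N : ℝ) ≤ 12 * B.card + 13) {Y r : ℝ} (hY : 2 ≤ Y) (hr : 0 < r) {K : ℕ}
    (hK : 5 * Y * Real.exp (3 * r) ≤ K) (hKN : 2 * K < N) (s : Finset ℕ)
    (hs : ∀ n ∈ s, 1 ≤ n ∧ (n : ℝ) * Y ≤ N) :
    Real.exp (-(4 * Real.pi)) * ∑ n ∈ s, (1 - DB B n) ≤
      N / (4 * Real.pi * (Y - 1)) - N / (4 * Real.pi * Y) + (1 / rho2 r - 1) * ((N + 1) / 12) + 14 / 12 +
        10 * (3 * (2 * K + 1) ^ 4 + 1) * (Real.pi / 3) := by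
  have hN0 : (0 : ℝ) < N := by exact_mod_cast hN.pos
  have hpi := Real.pi_pos
  set c : ℝ := Y / N with hc
  have hc0 : 0 < c := by positivity
  have hc1 : 1 / (N : ℝ) < c := by
    rw [hc]
    exact div_lt_div_of_pos_right (by linarith) hN0
  have hcN : c * N = Y := by rw [hc]; field_simp
  obtain ⟨hS, hS2⟩ := third_eq hN hB hc1
  have hd := defic hN hB hc1.le hr (K := K) (by rw [hcN]; exact hK) hKN
  rw [hS2] at hd
  have hα : 0 < 4 * Real.pi * (c - 1 / N) := by
    have h1 : 0 < c - 1 / N := by linarith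
    positivity
  have hD0 : DB B 0 = 0 := by
    unfold DB
    refine Finset.sum_eq_zero fun f _ => ?_
    unfold W388.lamf
    norm_num
  obtain ⟨g1, g2⟩ := sum_geo_le hα
  -- comparison
  set u : ℕ → ℝ := fun n => (if n = 0 then 0 else Real.exp (-(4 * Real.pi * (c - 1 / N) * n))) -
    DB B n * Real.exp (-(4 * Real.pi * n * c)) with hu
  have hu1 : Summable (fun n : ℕ => (if n = 0 then 0 else Real.exp (-(4 * Real.pi * (c - 1 / N) * n)))) := by
    refine Summable.of_nonneg_of_le (fun n => ?_) (fun n => ?_) g1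
    · split_ifs <;> positivity
    · split_ifs
      · positivity
      · exact le_rfl
  have hu2 : ∑' n : ℕ, (if n = 0 then 0 else Real.exp (-(4 * Real.pi * (c - 1 / N) * n))) ≤
      1 / (4 * Real.pi * (c - 1 / N)) := by
    rw [hu1.tsum_eq_zero_add, if_pos rfl, zero_add]
    have e1 := g1.tsum_eq_zero_add
    rw [e1] at g2
    simp only [Nat.cast_zero, mul_zero, neg_zero, Real.exp_zero] at g2
    have e2 : ∀ n : ℕ, (if n + 1 = 0 then 0 else Real.exp (-(4 * Real.pi * (c - 1 / N) * ((n + 1 : ℕ) : ℝ)))) =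
        Real.exp (-(4 * Real.pi * (c - 1 / N) * ((n + 1 : ℕ) : ℝ))) := fun n => if_neg (by omega)
    rw [tsum_congr e2]
    linarith
  have husum : Summable u := hu1.sub hS
  have hu0 : ∀ n, 0 ≤ u n := by
    intro n
    simp only [hu]
    rcases Nat.eq_zero_or_pos n with rfl | hn
    · simp [hD0]
    · rw [if_neg (by omega), sub_nonneg]
      calc DB B n * Real.exp (-(4 * Real.pi * n * c)) ≤
          Real.exp (4 * Real.pi * n / N) * Real.exp (-(4 * Real.pi * n * c)) :=
            mul_le_mul_of_nonneg_right (DB_le hN hB hn) (Real.exp_pos _).le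
        _ = _ := by
          rw [← Real.exp_add]
          congr 1
          ring
  have h1 : ∑ n ∈ s, u n ≤ ∑' n, u n := husum.sum_le_tsum s fun n _ => hu0 n
  have h2 : ∑' n, u n = ∑' n : ℕ, (if n = 0 then 0 else Real.exp (-(4 * Real.pi * (c - 1 / N) * n))) -
      ∑' n : ℕ, DB B n * Real.exp (-(4 * Real.pi * n * c)) := hu1.tsum_sub hS
  have h3 : Real.exp (-(4 * Real.pi)) * ∑ n ∈ s, (1 - DB B n) ≤ ∑ n ∈ s, u n := by
    rw [Finset.mul_sum]
    refine Finset.sum_le_sum fun n hn => ?_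
    obtain ⟨k1, k2⟩ := hs n hn
    simp only [hu]
    rw [if_neg (by omega)]
    have e1 : Real.exp (-(4 * Real.pi * (c - 1 / N) * n)) =
        Real.exp (4 * Real.pi * n / N) * Real.exp (-(4 * Real.pi * n * c)) := by
      rw [← Real.exp_add]
      congr 1
      ring
    rw [e1, ← sub_mul]
    have e2 : Real.exp (-(4 * Real.pi)) ≤ Real.exp (-(4 * Real.pi * n * c)) := by
      apply Real.exp_le_exp.2
      have : (n : ℝ) * c ≤ 1 := by
        rw [hc, mul_div_assoc', div_le_one hN0]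
        exact k2
      nlinarith
    have e3 : 1 ≤ Real.exp (4 * Real.pi * n / N) := Real.one_le_exp (by positivity)
    have e4 := DB_le hN hB k1
    calc Real.exp (-(4 * Real.pi)) * (1 - DB B n) ≤
        Real.exp (-(4 * Real.pi)) * (Real.exp (4 * Real.pi * n / N) - DB B n) :=
          mul_le_mul_of_nonneg_left (by linarith) (Real.exp_pos _).le
      _ ≤ Real.exp (-(4 * Real.pi * n * c)) * (Real.exp (4 * Real.pi * n / N) - DB B n) :=
          mul_le_mul_of_nonneg_right e2 (by linarith)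
      _ = _ := by ring
  have hα2 : 1 / (4 * Real.pi * (c - 1 / N)) = N / (4 * Real.pi * (Y - 1)) := by
    rw [hc, ← sub_div]
    have : (0 : ℝ) < Y - 1 := by linarith
    field_simp
  have hρ := rho2_pos hr
  have hρ1 : 1 ≤ 1 / rho2 r := by
    rw [le_div_iff₀ hρ, one_mul]
    exact rho2_lt.le
  have h4 : 1 / (4 * Real.pi * rho2 r) * ((N + 1) * (Real.pi / 3) - 1 / c) ≤
      (1 / rho2 r) * ((N + 1) / 12) - N / (4 * Real.pi * Y) := by
    have e1 : 1 / (4 * Real.pi * rho2 r) * ((N + 1) * (Real.pi / 3) - 1 / c) =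
        (1 / rho2 r) * ((N + 1) / 12) - (1 / rho2 r) * (N / (4 * Real.pi * Y)) := by
      rw [hc]
      field_simp
      ring
    rw [e1]
    have e2 : N / (4 * Real.pi * Y) ≤ (1 / rho2 r) * (N / (4 * Real.pi * Y)) :=
      le_mul_of_one_le_left (by positivity) hρ1
    linarith
  rw [hα2] at hu2
  have h5 : (1 / rho2 r - 1) * (((N : ℝ) + 1) / 12) = (1 / rho2 r) * ((N + 1) / 12) - (N + 1) / 12 := by ring
  rw [h5]
  linarith

end Pool.Agent.H485.CC
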