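import Pool.Agent.H485.CC.Hec
import Pool.Graph.R_seed8.W120.LV.Strip

/-!
# The Petersson norm of a newform of prime level, upper bound
-/

set_option autoImplicit false
set_option maxHeartbeats 4000000

open Complex Filter Topology Set MeasureTheory UpperHalfPlane MatrixGroups CongruenceSubgroup
open scoped ENNReal Modular

namespace Pool.Agent.H485.CC

open Pool.Agent.W165.RS
open W388.LV (SF pet om ck)
open W120.LV (eqS eqS_apply pet_eq lint_ne_top)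

variable {N : ℕ} [NeZero N]

/-- the Fricke involution -/
noncomputable def WN (N : ℕ) [NeZero N] : GL (Fin 2) ℝ :=
  .mkOfDetNeZero !![0, -1; (N : ℝ), 0] (by
    have : (N : ℝ) ≠ 0 := by exact_mod_cast NeZero.ne N
    simpa using this)

lemma WN_smul (z : ℍ) : ((WN N • z : ℍ) : ℂ) = -1 / (N * z) := by
  have hN : (0 : ℝ) < N := by exact_mod_cast Nat.pos_of_ne_zero (NeZero.ne N)
  have hdet : 0 < (WN N).det.val := by
    simp [WN, Matrix.det_fin_two]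
    exact_mod_cast hN
  rw [coe_smul_of_det_pos hdet]
  unfold num denom
  simp [WN]

lemma WN_im (z : ℍ) : (WN N • z : ℍ).im = z.im / (N * ‖(z : ℂ)‖ ^ 2) := by
  have hN : (0 : ℝ) < N := by exact_mod_cast Nat.pos_of_ne_zero (NeZero.ne N)
  have hz : (z : ℂ) ≠ 0 := z.ne_zero
  have hzn : 0 < ‖(z : ℂ)‖ := norm_pos_iff.2 hz
  rw [← coe_im, WN_smul]
  have e : (-1 : ℂ) / (N * z) = ((-(1 / (N * ‖(z : ℂ)‖ ^ 2)) : ℝ) : ℂ) * (starRingEnd ℂ) (z : ℂ) := by
    have h1 : (z : ℂ) * (starRingEnd ℂ) (z : ℂ) = ((‖(z : ℂ)‖ ^ 2 : ℝ) : ℂ) := by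
      rw [Complex.mul_conj, Complex.normSq_eq_norm_sq]
    have hNc : (N : ℂ) ≠ 0 := by exact_mod_cast hN.ne'
    have hn : ((‖(z : ℂ)‖ ^ 2 : ℝ) : ℂ) ≠ 0 := by exact_mod_cast (pow_pos hzn 2).ne'
    rw [div_eq_iff (mul_ne_zero hNc hz)]
    calc (-1 : ℂ) = -(((‖(z : ℂ)‖ ^ 2 : ℝ) : ℂ) / ((‖(z : ℂ)‖ ^ 2 : ℝ) : ℂ)) := by
          rw [div_self hn]
      _ = -(((z : ℂ) * (starRingEnd ℂ) (z : ℂ)) / ((‖(z : ℂ)‖ ^ 2 : ℝ) : ℂ)) := by rw [h1]
      _ = _ := by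
        push_cast
        push_cast at hn
        field_simp
  rw [e, Complex.im_ofReal_mul, Complex.conj_im, coe_im]
  field_simp

lemma FF_W {f : SF N 2} {ε : ℝ} (hf : W388.IsNewf N 2 f ε) (z : ℍ) :
    FF f (WN N • z) = FF f z := by
  have hN : (0 : ℝ) < N := by exact_mod_cast Nat.pos_of_ne_zero (NeZero.ne N)
  have hz : (z : ℂ) ≠ 0 := z.ne_zero
  have hzn : 0 < ‖(z : ℂ)‖ := norm_pos_iff.2 hz
  have hNc : (N : ℂ) ≠ 0 := by exact_mod_cast hN.ne'
  have h1 := hf.fricke z (WN N • z) (by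
    rw [WN_smul]
    field_simp)
  have hε : |ε| = 1 := by
    rcases hf.sign with h | h <;> rw [h] <;> simp
  unfold FF
  rw [h1, WN_im]
  congr 1
  rw [norm_mul, norm_mul, norm_zpow, norm_div, norm_mul, Complex.norm_I, Complex.norm_real,
    Complex.norm_real, Real.norm_eq_abs, Real.norm_eq_abs, hε, abs_of_nonneg (Real.sqrt_nonneg _),
    div_one, one_mul, zpow_ofNat, zpow_ofNat, zpow_ofNat]
  have hs : Real.sqrt N ^ 2 = N := Real.sq_sqrt hN.le
  rw [mul_pow (Real.sqrt N), hs]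
  field_simp

/-- the truncated strip -/
def UU (c : ℝ) : Set ℍ := {z | z ∈ SS ∧ c < z.im}

theorem measurableSet_UU (c : ℝ) : MeasurableSet (UU c) :=
  measurableSet_SS.inter (measurableSet_lt measurable_const UpperHalfPlane.continuous_im.measurable)

lemma measurable_W : Measurable (fun z : ℍ => WN N • z) := by
  exact (measurePreserving_smul (WN N) (volume : Measure ℍ)).measurable

lemma lint_W {H : ℍ → ℝ≥0∞} (hH : Measurable H) : ∫⁻ z, H (WN N • z) = ∫⁻ z, H z :=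
  (measurePreserving_smul (WN N) (volume : Measure ℍ)).lintegral_comp hH

/-- the two regions have the same mass -/
lemma lint_W_UU {f : SF N 2} (hf : ∀ z : ℍ, FF f (WN N • z) = FF f z) (c : ℝ) :
    ∫⁻ z, ((fun z : ℍ => WN N • z) ⁻¹' UU c).indicator (FF f) z = ∫⁻ z, (UU c).indicator (FF f) z := by
  rw [← lint_W (N := N) ((FF_meas f).indicator (measurableSet_UU c))]
  refine lintegral_congr fun z => ?_
  by_cases h : WN N • z ∈ UU c
  · rw [Set.indicator_of_mem h, Set.indicator_of_mem (show z ∈ (fun z : ℍ => WN N • z) ⁻¹' UU c from h),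
      hf]
  · rw [Set.indicator_of_notMem h,
      Set.indicator_of_notMem (show z ∉ (fun z : ℍ => WN N • z) ⁻¹' UU c from h)]

/-- the number of the points of an orbit in the two regions -/
noncomputable def cnt (N : ℕ) [NeZero N] (c : ℝ) (w : ℍ) : ℝ≥0∞ :=
  ∑' δ : Gamma0 N, ((UU c).indicator (fun _ => (1 : ℝ≥0∞)) ((δ : SL(2, ℤ))⁻¹ • w) +
    ((fun z : ℍ => WN N • z) ⁻¹' UU c).indicator (fun _ => (1 : ℝ≥0∞)) ((δ : SL(2, ℤ))⁻¹ • w))

lemma sum_eq (f : SF N 2) (c : ℝ) (z : ℍ) :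
    ∑' g : SL(2, ℤ), ((UU c).indicator (FF f) (g • z) +
      ((fun z : ℍ => WN N • z) ⁻¹' UU c).indicator (FF f) (g • z)) =
    ∑' γ : SL(2, ℤ) ⧸ Gamma0 N, FF f ((Quotient.out γ)⁻¹ • z) * cnt N c ((Quotient.out γ)⁻¹ • z) := by
  rw [← (Equiv.inv SL(2, ℤ)).tsum_eq, ← (eqS N).tsum_eq, ENNReal.tsum_prod']
  refine tsum_congr fun γ => ?_
  unfold cnt
  rw [← ENNReal.tsum_mul_left]
  refine tsum_congr fun δ => ?_
  rw [eqS_apply, Equiv.inv_apply, mul_inv_rev, mul_smul, mul_add]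
  have hinv := FF_inv f _ (Subgroup.inv_mem _ δ.2) ((Quotient.out γ)⁻¹ • z)
  congr 1
  · by_cases h : ((δ : SL(2, ℤ))⁻¹ • ((Quotient.out γ)⁻¹ • z)) ∈ UU c
    · rw [Set.indicator_of_mem h, Set.indicator_of_mem h, mul_one]
      exact hinv
    · rw [Set.indicator_of_notMem h, Set.indicator_of_notMem h, mul_zero]
  · by_cases h : ((δ : SL(2, ℤ))⁻¹ • ((Quotient.out γ)⁻¹ • z)) ∈ (fun z : ℍ => WN N • z) ⁻¹' UU c
    · rw [Set.indicator_of_mem h, Set.indicator_of_mem h, mul_one]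
      exact hinv
    · rw [Set.indicator_of_notMem h, Set.indicator_of_notMem h, mul_zero]

/-- the unfolding -/
lemma two_lint {f : SF N 2} (hf : ∀ z : ℍ, FF f (WN N • z) = FF f z) (c : ℝ) :
    2 * ∫⁻ z, (UU c).indicator (FF f) z = (2 : ℝ≥0∞)⁻¹ * ∫⁻ z in (ModularGroup.fd : Set ℍ),
      ∑' γ : SL(2, ℤ) ⧸ Gamma0 N, FF f ((Quotient.out γ)⁻¹ • z) * cnt N c ((Quotient.out γ)⁻¹ • z) := by
  have hm1 : Measurable ((UU c).indicator (FF f)) := (FF_meas f).indicator (measurableSet_UU c)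
  have hm2 : Measurable (((fun z : ℍ => WN N • z) ⁻¹' UU c).indicator (FF f)) :=
    (FF_meas f).indicator (measurable_W (measurableSet_UU c))
  have h1 : 2 * ∫⁻ z, (UU c).indicator (FF f) z = ∫⁻ z, ((UU c).indicator (FF f) z +
      ((fun z : ℍ => WN N • z) ⁻¹' UU c).indicator (FF f) z) := by
    rw [lintegral_add_left hm1, lint_W_UU hf, two_mul]
  have hu := Pool.Agent.W165.RS.unfold (fun z => (UU c).indicator (FF f) z +
    ((fun z : ℍ => WN N • z) ⁻¹' UU c).indicator (FF f) z) (hm1.add hm2)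
  rw [h1, hu, ← lintegral_const_mul' _ _ (by simp), ← lintegral_indicator measurableSet_fd]
  refine lintegral_congr_ae ?_
  filter_upwards [W388.LV.q_phi] with z hz
  rw [hz]
  simp only [sum_eq]
  by_cases h : z ∈ (ModularGroup.fd : Set ℍ)
  · rw [Set.indicator_of_mem h, Set.indicator_of_mem h]
  · rw [Set.indicator_of_notMem h, Set.indicator_of_notMem h, zero_mul]

lemma pet_le_of_cnt {f : SF N 2} (hf : ∀ z : ℍ, FF f (WN N • z) = FF f z) {c : ℝ}
    (hc : ∀ w : ℍ, 2 ≤ cnt N c w) (hfin : ∫⁻ z, (UU c).indicator (FF f) z ≠ ∞) :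
    (pet N 2 f f).re ≤ 2 * (∫⁻ z, (UU c).indicator (FF f) z).toReal := by
  rw [pet_eq f]
  have h1 := two_lint hf c
  have h2 : ∫⁻ z in (ModularGroup.fd : Set ℍ), ∑' γ : SL(2, ℤ) ⧸ Gamma0 N, FF f ((Quotient.out γ)⁻¹ • z) ≤
      2 * ∫⁻ z, (UU c).indicator (FF f) z := by
    rw [h1, ← lintegral_const_mul' _ _ (by simp)]
    refine lintegral_mono fun z => ?_
    rw [← ENNReal.tsum_mul_left]
    refine ENNReal.tsum_le_tsum fun γ => ?_
    calc FF f ((Quotient.out γ)⁻¹ • z) = (2 : ℝ≥0∞)⁻¹ * (FF f ((Quotient.out γ)⁻¹ • z) * 2) := by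
          rw [mul_comm _ (2 : ℝ≥0∞), ← mul_assoc, ENNReal.inv_mul_cancel (by norm_num) (by norm_num), one_mul]
      _ ≤ _ := by gcongr; exact hc _
  have h3 := ENNReal.toReal_mono (ENNReal.mul_ne_top (by norm_num) hfin) h2
  rwa [ENNReal.toReal_mul] at h3

lemma pet_ge_of_cnt {f : SF N 2} (hf : ∀ z : ℍ, FF f (WN N • z) = FF f z) {c : ℝ}
    (hc : ∀ w : ℍ, cnt N c w ≤ 2) :
    2 * ∫⁻ z, (UU c).indicator (FF f) z ≤ ∫⁻ z in (ModularGroup.fd : Set ℍ),
      ∑' γ : SL(2, ℤ) ⧸ Gamma0 N, FF f ((Quotient.out γ)⁻¹ • z) := by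
  rw [two_lint hf c, ← lintegral_const_mul' _ _ (by simp)]
  refine lintegral_mono fun z => ?_
  rw [← ENNReal.tsum_mul_left]
  refine ENNReal.tsum_le_tsum fun γ => ?_
  calc (2 : ℝ≥0∞)⁻¹ * (FF f ((Quotient.out γ)⁻¹ • z) * cnt N c ((Quotient.out γ)⁻¹ • z)) ≤
      (2 : ℝ≥0∞)⁻¹ * (FF f ((Quotient.out γ)⁻¹ • z) * 2) := by gcongr; exact hc _
    _ = _ := by
      rw [mul_comm _ (2 : ℝ≥0∞), ← mul_assoc, ENNReal.inv_mul_cancel (by norm_num) (by norm_num), one_mul]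

end Pool.Agent.H485.CC
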