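import Mathlib

/-!
# The Sato-Tate measure and Chebyshev polynomials
-/

set_option autoImplicit false

open MeasureTheory Real Finset

namespace Pool.Agent.H485.CC

/-- the Sato-Tate measure, in the coordinate `θ` -/
noncomputable def st : Measure ℝ :=
  (volume.restrict (Set.Ioc 0 π)).withDensity (fun θ => ENNReal.ofReal (2 / π * sin θ ^ 2))

/-- `U_a (cos θ)` -/
noncomputable def uu (a : ℕ) (θ : ℝ) : ℝ := (Polynomial.Chebyshev.U ℝ a).eval (cos θ)

lemma uu_zero (θ : ℝ) : uu 0 θ = 1 := by simp [uu]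

lemma uu_one (θ : ℝ) : uu 1 θ = 2 * cos θ := by simp [uu]

lemma uu_add_two (a : ℕ) (θ : ℝ) : uu (a + 2) θ = 2 * cos θ * uu (a + 1) θ - uu a θ := by
  unfold uu
  push_cast
  rw [Polynomial.Chebyshev.U_add_two]
  simp

lemma one_mul_uu (a : ℕ) (θ : ℝ) : uu 1 θ * uu (a + 1) θ = uu (a + 2) θ + uu a θ := by
  rw [uu_add_two, uu_one]; ring

lemma uu_mul_sin (a : ℕ) (θ : ℝ) : uu a θ * sin θ = sin ((a + 1) * θ) := by
  unfold uu
  have := Polynomial.Chebyshev.U_real_cos θ (a : ℤ)
  rw [this]
  push_cast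
  ring_nf

lemma abs_uu_le (a : ℕ) (θ : ℝ) : |uu a θ| ≤ a + 1 := by
  induction a using Nat.strong_induction_on with
  | _ a ih =>
    match a, ih with
    | 0, _ => rw [uu_zero]; simp
    | 1, _ =>
      rw [uu_one, abs_mul, abs_two]
      have := abs_cos_le_one θ
      push_cast
      linarith
    | (a + 2), ih =>
      have h1 := ih a (by omega)
      have h2 : uu (a + 2) θ = 2 * cos ((a + 2 : ℝ) * θ) + uu a θ := by
        unfold uu
        have h3 := Polynomial.Chebyshev.U_eq_two_mul_T_add_U ℝ (a : ℤ)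
        push_cast
        rw [h3]
        simp only [Polynomial.eval_add, Polynomial.eval_mul, Polynomial.eval_ofNat]
        have h4 := Polynomial.Chebyshev.T_real_cos θ ((a : ℤ) + 2)
        rw [h4]
        push_cast
        ring_nf
      rw [h2]
      have h5 := abs_cos_le_one ((a + 2 : ℝ) * θ)
      calc |2 * cos ((a + 2 : ℝ) * θ) + uu a θ| ≤ |2 * cos ((a + 2 : ℝ) * θ)| + |uu a θ| := abs_add_le _ _
        _ ≤ 2 + (a + 1) := by
          rw [abs_mul, abs_two]
          linarith
        _ = _ := by push_cast; ring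

lemma continuous_uu (a : ℕ) : Continuous (uu a) := by
  unfold uu
  exact (Polynomial.continuous _).comp continuous_cos

lemma integral_st {E : Type} [NormedAddCommGroup E] [NormedSpace ℝ E] (g : ℝ → E) :
    ∫ θ, g θ ∂st = ∫ θ in (0 : ℝ)..π, (2 / π * sin θ ^ 2) • g θ := by
  unfold st
  rw [integral_withDensity_eq_integral_toReal_smul (by fun_prop) (by simp),
    intervalIntegral.integral_of_le pi_pos.le]
  refine integral_congr_ae (Filter.Eventually.of_forall fun θ => ?_)
  show (ENNReal.ofReal (2 / π * sin θ ^ 2)).toReal • g θ = _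
  rw [ENNReal.toReal_ofReal (by positivity)]

lemma int_cos_nat (k : ℤ) (hk : k ≠ 0) : ∫ θ in (0 : ℝ)..π, cos (k * θ) = 0 := by
  have hk' : (k : ℝ) ≠ 0 := by exact_mod_cast hk
  rw [intervalIntegral.integral_comp_mul_left (fun x => cos x) hk']
  rw [integral_cos]
  rw [show (k : ℝ) * π = (k : ℝ) * π from rfl, sin_int_mul_pi]
  simp

lemma orth_st (a b : ℕ) : ∫ θ, uu a θ * uu b θ ∂st = if a = b then 1 else 0 := by
  rw [integral_st]
  have hpi := pi_pos
  have h1 : ∀ θ : ℝ, (2 / π * sin θ ^ 2) • (uu a θ * uu b θ) =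
      1 / π * cos (((a : ℤ) - b : ℤ) * θ) - 1 / π * cos (((a : ℤ) + b + 2 : ℤ) * θ) := by
    intro θ
    have e1 := uu_mul_sin a θ
    have e2 := uu_mul_sin b θ
    have e3 : (2 / π * sin θ ^ 2) • (uu a θ * uu b θ) =
        2 / π * ((uu a θ * sin θ) * (uu b θ * sin θ)) := by
      rw [smul_eq_mul]; ring
    rw [e3, e1, e2]
    have e4 : cos (((a : ℤ) - b : ℤ) * θ) = cos ((a + 1) * θ - (b + 1) * θ) := by
      push_cast; ring_nf
    have e5 : cos (((a : ℤ) + b + 2 : ℤ) * θ) = cos ((a + 1) * θ + (b + 1) * θ) := by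
      push_cast; ring_nf
    rw [e4, e5, cos_sub, cos_add]
    ring
  simp_rw [h1]
  rw [intervalIntegral.integral_sub (by apply Continuous.intervalIntegrable; fun_prop)
    (by apply Continuous.intervalIntegrable; fun_prop), intervalIntegral.integral_const_mul,
    intervalIntegral.integral_const_mul, int_cos_nat ((a : ℤ) + b + 2) (by omega)]
  by_cases h : a = b
  · subst h
    simp
  · rw [int_cos_nat _ (by omega), if_neg h]
    simp

instance : IsProbabilityMeasure st := by
  have h := orth_st 0 0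
  simp only [uu_zero, mul_one, if_true] at h
  constructor
  have h2 : (st Set.univ).toReal = 1 := by
    have := integral_const (μ := st) (1 : ℝ)
    rw [this] at h
    simpa [Measure.real] using h
  have h3 : st Set.univ ≠ ⊤ := by
    intro h4
    rw [h4] at h2
    simp at h2
  rw [← ENNReal.toReal_eq_one_iff]
  exact h2

/-- bounded continuous functions are integrable -/
lemma integrable_st {E : Type} [NormedAddCommGroup E] {g : ℝ → E} (hg : Continuous g)
    {C : ℝ} (hC : ∀ θ, ‖g θ‖ ≤ C) : Integrable g st :=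
  Integrable.of_bound hg.aestronglyMeasurable C (Filter.Eventually.of_forall hC)

lemma st_one : ∫ θ, uu 1 θ ∂st = 0 := by
  have h := orth_st 1 0
  simp only [uu_zero, mul_one] at h
  rw [h]; simp

lemma st_two : ∫ θ, uu 1 θ ^ 2 ∂st = 1 := by
  have h := orth_st 1 1
  simp only [if_true] at h
  rw [← h]
  congr 1; ext θ; ring

end Pool.Agent.H485.CC
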