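import Pool.Agent.H485.CC.Mdl

/-!
# Truncated exponentials
-/

set_option autoImplicit false
set_option maxHeartbeats 4000000

open MeasureTheory Real Finset

namespace Pool.Agent.H485.CC

/-- the truncated exponential -/
noncomputable def tj (J : ℕ) (y : ℝ) : ℝ := ∑ j ∈ range (J + 1), (1 / (j.factorial : ℝ)) * y ^ j

lemma exp_hasSum (y : ℝ) : HasSum (fun n : ℕ => y ^ n / (n.factorial : ℝ)) (exp y) := by
  have := NormedSpace.expSeries_div_hasSum_exp (𝔸 := ℝ) y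
  rwa [← Real.exp_eq_exp_ℝ] at this

lemma tj_err (J : ℕ) (y : ℝ) : |tj J y - exp y| ≤ exp (-((J : ℝ) + 1)) * exp (exp 1 * |y|) := by
  have h1 := exp_hasSum y
  have h2 : exp y = tj J y + ∑' n : ℕ, y ^ (n + (J + 1)) / ((n + (J + 1)).factorial : ℝ) := by
    rw [← h1.tsum_eq, ← h1.summable.sum_add_tsum_nat_add (J + 1)]
    congr 1
    unfold tj
    refine Finset.sum_congr rfl fun j _ => ?_
    ring
  have h3 : tj J y - exp y = -∑' n : ℕ, y ^ (n + (J + 1)) / ((n + (J + 1)).factorial : ℝ) := by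
    rw [h2]; ring
  have h4 := (exp_hasSum (exp 1 * |y|))
  have h5 : Summable fun n : ℕ => exp (-((J : ℝ) + 1)) *
      ((exp 1 * |y|) ^ (n + (J + 1)) / ((n + (J + 1)).factorial : ℝ)) :=
    ((summable_nat_add_iff (J + 1)).2 h4.summable).mul_left _
  have h6 : ∀ n : ℕ, ‖y ^ (n + (J + 1)) / ((n + (J + 1)).factorial : ℝ)‖ ≤
      exp (-((J : ℝ) + 1)) * ((exp 1 * |y|) ^ (n + (J + 1)) / ((n + (J + 1)).factorial : ℝ)) := by
    intro n
    rw [norm_div, norm_pow, Real.norm_eq_abs, Real.norm_natCast, mul_pow, ← mul_div_assoc]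
    refine div_le_div_of_nonneg_right ?_ (Nat.cast_nonneg _)
    have h7 : 1 ≤ exp (-((J : ℝ) + 1)) * exp 1 ^ (n + (J + 1)) := by
      rw [← Real.exp_nat_mul, ← Real.exp_add]
      apply Real.one_le_exp
      push_cast
      have : (0 : ℝ) ≤ n := Nat.cast_nonneg n
      linarith
    have h8 : 0 ≤ |y| ^ (n + (J + 1)) := by positivity
    calc |y| ^ (n + (J + 1)) = 1 * |y| ^ (n + (J + 1)) := (one_mul _).symm
      _ ≤ (exp (-((J : ℝ) + 1)) * exp 1 ^ (n + (J + 1))) * |y| ^ (n + (J + 1)) :=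
        mul_le_mul_of_nonneg_right h7 h8
      _ = _ := by ring
  rw [h3, abs_neg, ← Real.norm_eq_abs]
  refine (tsum_of_norm_bounded h5.hasSum h6).trans ?_
  rw [tsum_mul_left]
  refine mul_le_mul_of_nonneg_left ?_ (exp_pos _).le
  rw [← h4.tsum_eq, ← h4.summable.sum_add_tsum_nat_add (J + 1)]
  have : 0 ≤ ∑ i ∈ range (J + 1), (exp 1 * |y|) ^ i / (i.factorial : ℝ) :=
    Finset.sum_nonneg fun i _ => by positivity
  linarith

lemma tj_sq_le (J : ℕ) {b : ℝ} (hb : |b| ≤ 1) (P : ℝ) : tj J (b * P) ^ 2 ≤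
    2 * exp (2 * b * P) + 2 * exp (-(2 * ((J : ℝ) + 1))) * (exp (6 * P) + exp (-6 * P)) := by
  have h1 := tj_err J (b * P)
  set E := tj J (b * P) - exp (b * P) with hE
  have h2 : tj J (b * P) = exp (b * P) + E := by rw [hE]; ring
  have h3 : exp 1 * |b * P| ≤ 3 * |P| := by
    rw [abs_mul]
    have : exp 1 ≤ 3 := by have := Real.exp_one_lt_d9; linarith
    calc exp 1 * (|b| * |P|) ≤ 3 * (1 * |P|) :=
          mul_le_mul this (mul_le_mul_of_nonneg_right hb (abs_nonneg _)) (by positivity) (by norm_num)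
      _ = _ := by ring
  have h4 : |E| ≤ exp (-((J : ℝ) + 1)) * exp (3 * |P|) :=
    h1.trans (mul_le_mul_of_nonneg_left (exp_le_exp.2 h3) (exp_pos _).le)
  have h5 : E ^ 2 ≤ exp (-(2 * ((J : ℝ) + 1))) * exp (6 * |P|) := by
    calc E ^ 2 = |E| ^ 2 := (sq_abs _).symm
      _ ≤ (exp (-((J : ℝ) + 1)) * exp (3 * |P|)) ^ 2 := pow_le_pow_left₀ (abs_nonneg _) h4 2
      _ = _ := by
        rw [mul_pow, ← Real.exp_nat_mul, ← Real.exp_nat_mul]
        congr 2
        · push_cast; ring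
        · push_cast; ring
  have h6 : exp (6 * |P|) ≤ exp (6 * P) + exp (-6 * P) := by
    rcases abs_cases P with ⟨h, _⟩ | ⟨h, _⟩
    · rw [h]; linarith [exp_pos (-6 * P)]
    · rw [h]
      have : 6 * -P = -6 * P := by ring
      rw [this]; linarith [exp_pos (6 * P)]
  have h7 : exp (b * P) ^ 2 = exp (2 * b * P) := by
    rw [← Real.exp_nat_mul]; push_cast; ring_nf
  have h8 : tj J (b * P) ^ 2 ≤ 2 * exp (b * P) ^ 2 + 2 * E ^ 2 := by
    rw [h2]; nlinarith [sq_nonneg (exp (b * P) - E)]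
  rw [h7] at h8
  have h9 : exp (-(2 * ((J : ℝ) + 1))) * exp (6 * |P|) ≤
      exp (-(2 * ((J : ℝ) + 1))) * (exp (6 * P) + exp (-6 * P)) :=
    mul_le_mul_of_nonneg_left h6 (exp_pos _).le
  linarith

/-- lower bound on the set where `P` is small -/
lemma tj_ge {J : ℕ} {y R : ℝ} (hy : |y| ≤ R) (hJ : 4 * R ≤ J) : exp y / 2 ≤ tj J y := by
  have h1 := (abs_le.1 (tj_err J y)).1
  have h2 : exp (-((J : ℝ) + 1)) * exp (exp 1 * |y|) ≤ exp y / 2 := by
    rw [← Real.exp_add]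
    have h3 : exp 1 ≤ 2.72 := by have := Real.exp_one_lt_d9; linarith
    have h4 : exp (-((J : ℝ) + 1) + exp 1 * |y|) ≤ exp (y - 1) := by
      apply exp_le_exp.2
      have := abs_nonneg y
      have := neg_abs_le y
      nlinarith
    refine h4.trans ?_
    rw [Real.exp_sub]
    have h5 : 2 ≤ exp 1 := by have := Real.exp_one_gt_d9; linarith
    exact div_le_div_of_nonneg_left (exp_pos _).le (by norm_num) h5
  linarith

variable {S S' : Finset ℕ}

lemma PP_cont : Continuous fun x : S → ℝ => PP S' (XX S x) := by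
  unfold PP
  exact continuous_finsetSum _ fun p _ => continuous_const.mul (continuous_XX p)

lemma PP_bdd (hS : ∀ p ∈ S, p.Prime) (hS' : S' ⊆ S) (x : S → ℝ) :
    |PP S' (XX S x)| ≤ ∑ p ∈ S', tp p * 2 := by
  unfold PP
  refine (Finset.abs_sum_le_sum_abs _ _).trans (Finset.sum_le_sum fun p hp => ?_)
  rw [abs_mul, abs_of_nonneg (tp_nonneg p), XX_prime hS x (hS' hp)]
  exact mul_le_mul_of_nonneg_left (abs_uu_one _) (tp_nonneg p)

lemma tj_cont (J : ℕ) : Continuous (tj J) := by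
  unfold tj
  exact continuous_finsetSum _ fun j _ => continuous_const.mul (continuous_pow j)

lemma tj_bdd (J : ℕ) {y R : ℝ} (hy : |y| ≤ R) :
    |tj J y| ≤ ∑ j ∈ range (J + 1), (1 / (j.factorial : ℝ)) * R ^ j := by
  unfold tj
  refine (Finset.abs_sum_le_sum_abs _ _).trans (Finset.sum_le_sum fun j _ => ?_)
  rw [abs_mul, abs_pow, abs_of_nonneg (by positivity)]
  exact mul_le_mul_of_nonneg_left (pow_le_pow_left₀ (abs_nonneg _) hy j) (by positivity)

lemma exp_PP_int (hS : ∀ p ∈ S, p.Prime) (hS' : S' ⊆ S) (b : ℝ) {g : (S → ℝ) → ℝ}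
    (hg : Continuous g) {C : ℝ} (hC : ∀ x, |g x| ≤ C) :
    Integrable (fun x => exp (b * PP S' (XX S x)) * g x) (mu S) := by
  have h0 : Continuous fun x : S → ℝ => exp (b * PP S' (XX S x)) * g x :=
    (Real.continuous_exp.comp (continuous_const.mul (PP_cont))).mul hg
  refine integrable_mu (C := exp (|b| * ∑ p ∈ S', tp p * 2) * C) h0 fun x => ?_
  rw [Real.norm_eq_abs, abs_mul, abs_of_pos (exp_pos _)]
  refine mul_le_mul (exp_le_exp.2 ?_) (hC x) (abs_nonneg _) (exp_pos _).le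
  calc b * PP S' (XX S x) ≤ |b * PP S' (XX S x)| := le_abs_self _
    _ = |b| * |PP S' (XX S x)| := abs_mul _ _
    _ ≤ _ := mul_le_mul_of_nonneg_left (PP_bdd hS hS' x) (abs_nonneg _)

lemma int_le3 {Ω : Type} [MeasurableSpace Ω] {μ : Measure Ω} {F f1 f2 f3 : Ω → ℝ}
    (hF : ∀ x, 0 ≤ F x) (h1 : Integrable f1 μ) (h2 : Integrable f2 μ) (h3 : Integrable f3 μ)
    {a b : ℝ} (h : ∀ x, F x ≤ a * f1 x + b * (f2 x + f3 x)) :
    ∫ x, F x ∂μ ≤ a * (∫ x, f1 x ∂μ) + b * ((∫ x, f2 x ∂μ) + ∫ x, f3 x ∂μ) := by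
  have j1 : Integrable (fun x => a * f1 x) μ := h1.const_mul a
  have j3 : Integrable (fun x => f2 x + f3 x) μ := h2.add h3
  have j4 : Integrable (fun x => b * (f2 x + f3 x)) μ := j3.const_mul b
  calc ∫ x, F x ∂μ ≤ ∫ x, (a * f1 x + b * (f2 x + f3 x)) ∂μ :=
        integral_mono_of_nonneg (Filter.Eventually.of_forall hF) (j1.add j4)
          (Filter.Eventually.of_forall h)
    _ = _ := by
        rw [integral_add j1 j4, integral_const_mul, integral_const_mul, integral_add h2 h3]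

/-- the mollified moments -/
lemma BB_le (hS : ∀ p ∈ S, p.Prime) (hS' : S' ⊆ S) (J : ℕ) {b : ℝ} (hb : |b| ≤ 1) {s : ℂ}
    (hs : 0 ≤ s.re) :
    ∫ x, tj J (b * PP S' (XX S x)) ^ 2 * ‖EE S s x‖ ^ 2 ∂(mu S) ≤
      2 * MM S S' (2 * b) s + 2 * exp (-(2 * ((J : ℝ) + 1))) * (MM S S' 6 s + MM S S' (-6) s) := by
  have hE : Continuous fun x : S → ℝ => ‖EE S s x‖ ^ 2 := by
    unfold EE
    refine (continuous_finsetProd _ fun p _ => ?_).norm.pow 2
    exact (continuous_lf (tp_nonneg _) (tp_le (hS p p.2)) (norm_ps (hS p p.2) hs)).comp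
      (continuous_apply p)
  have hEb : ∀ x : S → ℝ, |‖EE S s x‖ ^ 2| ≤ (16 ^ S.card) ^ 2 := by
    intro x
    rw [abs_of_nonneg (by positivity)]
    exact pow_le_pow_left₀ (norm_nonneg _) (norm_EE_le hS hs x) 2
  have i1 := fun b => exp_PP_int hS hS' b hE hEb
  have h1 : ∀ x : S → ℝ, tj J (b * PP S' (XX S x)) ^ 2 * ‖EE S s x‖ ^ 2 ≤
      2 * (exp (2 * b * PP S' (XX S x)) * ‖EE S s x‖ ^ 2) + 2 * exp (-(2 * ((J : ℝ) + 1))) *
        (exp (6 * PP S' (XX S x)) * ‖EE S s x‖ ^ 2 + exp (-6 * PP S' (XX S x)) * ‖EE S s x‖ ^ 2) := by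
    intro x
    have := mul_le_mul_of_nonneg_right (tj_sq_le J hb (PP S' (XX S x))) (sq_nonneg ‖EE S s x‖)
    linarith
  exact int_le3 (fun x => by positivity) (i1 _) (i1 _) (i1 _) h1

lemma CC_le (hS : ∀ p ∈ S, p.Prime) (hS' : S' ⊆ S) (J : ℕ) {b : ℝ} (hb : |b| ≤ 1) :
    ∫ x, tj J (b * PP S' (XX S x)) ^ 2 ∂(mu S) ≤
      2 * NN S S' (2 * b) + 2 * exp (-(2 * ((J : ℝ) + 1))) * (NN S S' 6 + NN S S' (-6)) := by
  have i1 : ∀ b : ℝ, Integrable (fun x : S → ℝ => exp (b * PP S' (XX S x))) (mu S) := by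
    intro b
    have := exp_PP_int hS hS' b (g := fun _ => 1) continuous_const (C := 1) (fun _ => by simp)
    simpa using this
  exact int_le3 (fun x => by positivity) (i1 _) (i1 _) (i1 _) fun x => tj_sq_le J hb _

lemma DD_le (hS : ∀ p ∈ S, p.Prime) (hS' : S' ⊆ S) (j : ℕ) :
    ∫ x, (PP S' (XX S x) ^ j) ^ 2 ∂(mu S) ≤
      ((2 * j).factorial : ℝ) * (NN S S' 1 + NN S S' (-1)) := by
  have i1 : ∀ b : ℝ, Integrable (fun x : S → ℝ => exp (b * PP S' (XX S x))) (mu S) := by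
    intro b
    have := exp_PP_int hS hS' b (g := fun _ => 1) continuous_const (C := 1) (fun _ => by simp)
    simpa using this
  unfold NN
  rw [← integral_add (i1 1) (i1 (-1)), ← integral_const_mul]
  refine integral_mono_of_nonneg (Filter.Eventually.of_forall fun x => by positivity)
    (((i1 1).add (i1 (-1))).const_mul _) (Filter.Eventually.of_forall fun x => ?_)
  dsimp only
  set P := PP S' (XX S x)
  have h1 := Real.pow_div_factorial_le_exp (x := |P|) (abs_nonneg _) (2 * j)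
  have h2 : exp |P| ≤ exp (1 * P) + exp (-1 * P) := by
    rcases abs_cases P with ⟨h, _⟩ | ⟨h, _⟩
    · rw [h, one_mul]; linarith [exp_pos (-1 * P)]
    · rw [h, neg_one_mul]; linarith [exp_pos (1 * P)]
  have h3 : (0 : ℝ) < ((2 * j).factorial : ℝ) := by positivity
  have h4 : (P ^ j) ^ 2 = |P| ^ (2 * j) := by
    rw [← pow_mul, mul_comm j 2, pow_mul, pow_mul, sq_abs]
  rw [div_le_iff₀ h3] at h1
  rw [h4]
  calc |P| ^ (2 * j) ≤ exp |P| * ((2 * j).factorial : ℝ) := h1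
    _ ≤ (exp (1 * P) + exp (-1 * P)) * ((2 * j).factorial : ℝ) :=
      mul_le_mul_of_nonneg_right h2 h3.le
    _ = _ := by ring

end Pool.Agent.H485.CC
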