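import Pool.Agent.H485.CC.Pf8

/-!
# The large sieve at the two cusps
-/

set_option autoImplicit false
set_option maxHeartbeats 4000000

open Complex Filter Topology Set MeasureTheory UpperHalfPlane MatrixGroups CongruenceSubgroup
open scoped ENNReal Modular

namespace Pool.Agent.H485.CC

open Pool.Agent.W165.RS (FF ac FF_meas FF_inv Inv measurable_smul_SL measurableSet_fd)
open W388.LV (SF bf pet om ck q_pet IsNewSet)
open W120.LV (eqS eqS_apply pet_eq lint_ne_top)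
open Pool.Agent.W347.LV

variable {N : ℕ} [NeZero N]

/-- the two regions do not meet the same orbit -/
lemma disj2 (hN : N.Prime) {c1 c2 : ℝ} (hc1 : 0 < c1) (h12 : 1 ≤ N * (c1 * c2)) {z : ℍ}
    (hz : c1 < z.im) (γ : SL(2, ℤ)) (hγ : γ ∈ Gamma0 N) : (WN N • (γ • z) : ℍ).im ≤ c2 := by
  have hN0 : (0 : ℝ) < N := by exact_mod_cast hN.pos
  have ha : γ 0 0 ≠ 0 := by
    intro h0
    have hdvd : (N : ℤ) ∣ γ 1 0 := by
      have := CongruenceSubgroup.Gamma0_mem.1 hγ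
      exact (ZMod.intCast_zmod_eq_zero_iff_dvd _ _).1 this
    have had := γ.det_coe
    rw [Matrix.det_fin_two, h0] at had
    have h1 : (N : ℤ) ∣ 1 := by
      rw [← had]
      simp only [zero_mul, zero_sub]
      exact (Dvd.dvd.mul_left hdvd _).neg_right
    have h2 : N ∣ 1 := by exact_mod_cast h1
    exact hN.one_lt.ne' (Nat.dvd_one.1 h2)
  have h1 : (ModularGroup.S • (γ • z) : ℍ).im = (γ • z : ℍ).im / ‖((γ • z : ℍ) : ℂ)‖ ^ 2 := by
    rw [ModularGroup.im_smul_eq_div_normSq, ModularGroup.denom_S, Complex.normSq_eq_norm_sq]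
  have h2 : (WN N • (γ • z) : ℍ).im = (ModularGroup.S • (γ • z) : ℍ).im / N := by
    rw [WN_im, h1]
    have : ‖((γ • z : ℍ) : ℂ)‖ ≠ 0 := norm_ne_zero_iff.2 (γ • z).ne_zero
    field_simp
  have h3 : (ModularGroup.S • (γ • z) : ℍ).im =
      z.im / (((γ 0 0 : ℝ) * z.re + (γ 0 1 : ℝ)) ^ 2 + ((γ 0 0 : ℝ) * z.im) ^ 2) := by
    rw [← mul_smul, ModularGroup.im_smul_eq_div_normSq]
    congr 1
    have e1 : (ModularGroup.S * γ : SL(2, ℤ)) 1 0 = γ 0 0 := by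
      rw [Matrix.SpecialLinearGroup.coe_mul, ModularGroup.coe_S]
      simp [Matrix.mul_apply, Fin.sum_univ_two]
    have e2 : (ModularGroup.S * γ : SL(2, ℤ)) 1 1 = γ 0 1 := by
      rw [Matrix.SpecialLinearGroup.coe_mul, ModularGroup.coe_S]
      simp [Matrix.mul_apply, Fin.sum_univ_two]
    rw [ModularGroup.denom_apply, e1, e2, Complex.normSq_apply]
    simp only [add_re, mul_re, intCast_re, coe_re, intCast_im, coe_im, zero_mul, sub_zero,
      add_im, mul_im, add_zero]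
    ring
  rw [h2, h3]
  have hy : 0 < z.im := z.im_pos
  have ha1 : 1 ≤ (γ 0 0 : ℝ) ^ 2 := by
    have : (1 : ℤ) ≤ (γ 0 0) ^ 2 := by
      have := sq_nonneg (γ 0 0)
      have h4 : (γ 0 0) ^ 2 ≠ 0 := pow_ne_zero 2 ha
      omega
    exact_mod_cast this
  have h4 : z.im ^ 2 ≤ ((γ 0 0 : ℝ) * z.re + (γ 0 1 : ℝ)) ^ 2 + ((γ 0 0 : ℝ) * z.im) ^ 2 := by
    rw [mul_pow]
    nlinarith [sq_nonneg ((γ 0 0 : ℝ) * z.re + (γ 0 1 : ℝ)), sq_nonneg z.im]
  have h5 : z.im / (((γ 0 0 : ℝ) * z.re + (γ 0 1 : ℝ)) ^ 2 + ((γ 0 0 : ℝ) * z.im) ^ 2) ≤ 1 / z.im := by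
    calc z.im / (((γ 0 0 : ℝ) * z.re + (γ 0 1 : ℝ)) ^ 2 + ((γ 0 0 : ℝ) * z.im) ^ 2) ≤ z.im / z.im ^ 2 :=
          div_le_div_of_nonneg_left hy.le (by positivity) h4
      _ = _ := by field_simp
  calc z.im / (((γ 0 0 : ℝ) * z.re + (γ 0 1 : ℝ)) ^ 2 + ((γ 0 0 : ℝ) * z.im) ^ 2) / N ≤ (1 / c1) / N := by
        apply div_le_div_of_nonneg_right _ hN0.le
        exact h5.trans (one_div_le_one_div_of_le hc1 hz.le)
    _ ≤ c2 := by
        rw [div_div, div_le_iff₀ (by positivity)]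
        nlinarith

lemma cnt12_le (hN : N.Prime) {c1 c2 : ℝ} (h1 : 1 / (N : ℝ) ≤ c1) (h2 : 1 / (N : ℝ) ≤ c2)
    (h12 : 1 ≤ N * (c1 * c2)) (w : ℍ) : cntD N (UU c1) w + cntD N (D0 N c2) w ≤ 2 := by
  have hN0 : (0 : ℝ) < N := by exact_mod_cast hN.pos
  have hc1 : 0 < c1 := lt_of_lt_of_le (by positivity) h1
  by_cases h : ∃ δ : Gamma0 N, ((δ : SL(2, ℤ))⁻¹ • w) ∈ UU c1
  · obtain ⟨δ1, hd⟩ := h
    have h2' : cntD N (D0 N c2) w = 0 := by
      unfold cntD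
      rw [ENNReal.tsum_eq_zero]
      intro δ
      apply Set.indicator_of_notMem
      intro h3
      have h4 := disj2 hN hc1 h12 hd.2 ((δ : SL(2, ℤ))⁻¹ * δ1)
        (Subgroup.mul_mem _ (Subgroup.inv_mem _ δ.2) δ1.2)
      rw [mul_smul, smul_inv_smul] at h4
      have h5 : c2 < (WN N • ((δ : SL(2, ℤ))⁻¹ • w) : ℍ).im := h3.2
      linarith
    rw [h2', add_zero]
    exact cntD_UU_le hN.pos h1 w
  · push Not at h
    have h3 : cntD N (UU c1) w = 0 := by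
      unfold cntD
      rw [ENNReal.tsum_eq_zero]
      exact fun δ => Set.indicator_of_notMem (h δ) _
    rw [h3, zero_add]
    exact cntD_D0_le hN.pos h2 w

lemma lint_two (hN : N.Prime) {c1 c2 : ℝ} (h1 : 1 / (N : ℝ) ≤ c1) (h2 : 1 / (N : ℝ) ≤ c2)
    (h12 : 1 ≤ N * (c1 * c2)) {G : ℍ → ℝ≥0∞} (hG : Inv N G) (hGm : Measurable G) :
    (∫⁻ z, (UU c1).indicator G z) + ∫⁻ z, (D0 N c2).indicator G z ≤
      ∫⁻ z in (ModularGroup.fd : Set ℍ), ∑' γ : SL(2, ℤ) ⧸ Gamma0 N, G ((Quotient.out γ)⁻¹ • z) := by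
  rw [lintD hG hGm (measurableSet_UU c1), lintD hG hGm (D0_meas c2), ← mul_add]
  have : Finite (SL(2, ℤ) ⧸ Gamma0 N) := Subgroup.finite_quotient_of_finiteIndex
  rw [← lintegral_add_left, ← lintegral_const_mul' _ _ (by simp)]
  · refine lintegral_mono fun z => ?_
    dsimp only
    rw [← ENNReal.tsum_add, ← ENNReal.tsum_mul_left]
    refine ENNReal.tsum_le_tsum fun γ => ?_
    rw [← mul_add]
    calc (2 : ℝ≥0∞)⁻¹ * (G ((Quotient.out γ)⁻¹ • z) * (cntD N (UU c1) ((Quotient.out γ)⁻¹ • z) +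
        cntD N (D0 N c2) ((Quotient.out γ)⁻¹ • z))) ≤
        (2 : ℝ≥0∞)⁻¹ * (G ((Quotient.out γ)⁻¹ • z) * 2) := by
          gcongr
          exact cnt12_le hN h1 h2 h12 _
      _ = _ := by
        rw [mul_comm _ (2 : ℝ≥0∞), ← mul_assoc, ENNReal.inv_mul_cancel (by norm_num) (by norm_num), one_mul]
  · refine Measurable.tsum fun γ => ?_
    exact (hGm.comp (measurable_smul_SL _)).mul
      ((cntD_meas (measurableSet_UU c1)).comp (measurable_smul_SL _))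

lemma WN_WN (z : ℍ) : (WN N • (WN N • z) : ℍ) = z := by
  apply UpperHalfPlane.ext
  have hN0 : (N : ℂ) ≠ 0 := by exact_mod_cast NeZero.ne N
  have hz : (z : ℂ) ≠ 0 := z.ne_zero
  rw [WN_smul, WN_smul]
  field_simp

/-- the strip inequality at both cusps -/
theorem strip_two (hN : N.Prime) {f f' : SF N 2} (hf : ∀ z : ℍ, FF f (WN N • z) = FF f' z) {c1 c2 : ℝ}
    (h1 : 1 / (N : ℝ) ≤ c1) (h2 : 1 / (N : ℝ) ≤ c2) (h12 : 1 ≤ N * (c1 * c2)) (s1 s2 : Finset ℕ) :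
    ∑ n ∈ s1, ‖ac f n‖ ^ 2 * (Real.exp (-(4 * Real.pi * n * c1)) / (4 * Real.pi * n)) +
    ∑ n ∈ s2, ‖ac f' n‖ ^ 2 * (Real.exp (-(4 * Real.pi * n * c2)) / (4 * Real.pi * n)) ≤
      (pet N 2 f f).re := by
  have hN0 : (0 : ℝ) < N := by exact_mod_cast hN.pos
  have hc1 : 0 < c1 := lt_of_lt_of_le (by positivity) h1
  have hc2 : 0 < c2 := lt_of_lt_of_le (by positivity) h2
  have h3 := lint_two hN h1 h2 h12 (FF_inv f) (FF_meas f)
  have h4 : ∫⁻ z, (D0 N c2).indicator (FF f) z = ∫⁻ z, (UU c2).indicator (FF f') z := by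
    have e1 := (measurePreserving_smul (WN N) (volume : Measure ℍ)).lintegral_comp
      (f := (UU c2).indicator (FF f')) ((FF_meas f').indicator (measurableSet_UU c2))
    rw [← e1]
    refine lintegral_congr fun z => ?_
    unfold D0
    by_cases h : (WN N • z : ℍ) ∈ UU c2
    · rw [Set.indicator_of_mem (show z ∈ (fun z : ℍ => WN N • z) ⁻¹' UU c2 from h),
        Set.indicator_of_mem h]
      have h5 := hf (WN N • z)
      rw [← h5, WN_WN]
    · rw [Set.indicator_of_notMem (show z ∉ (fun z : ℍ => WN N • z) ⁻¹' UU c2 from h),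
        Set.indicator_of_notMem h]
  rw [h4, UU_int f hc1, UU_int f' hc2] at h3
  have h5 : ENNReal.ofReal (∑ n ∈ s1, ‖ac f n‖ ^ 2 * (Real.exp (-(4 * Real.pi * n * c1)) / (4 * Real.pi * n)) +
    ∑ n ∈ s2, ‖ac f' n‖ ^ 2 * (Real.exp (-(4 * Real.pi * n * c2)) / (4 * Real.pi * n))) ≤
      ∫⁻ z in (ModularGroup.fd : Set ℍ),
      ∑' γ : SL(2, ℤ) ⧸ Gamma0 N, FF f ((Quotient.out γ)⁻¹ • z) := by
    refine le_trans ?_ h3
    rw [ENNReal.ofReal_add (Finset.sum_nonneg fun n _ => by positivity)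
      (Finset.sum_nonneg fun n _ => by positivity), ENNReal.ofReal_sum_of_nonneg fun n _ => by positivity,
      ENNReal.ofReal_sum_of_nonneg fun n _ => by positivity]
    exact add_le_add (ENNReal.sum_le_tsum s1) (ENNReal.sum_le_tsum s2)
  rw [pet_eq f]
  have h6 := ENNReal.toReal_mono (lint_ne_top f) h5
  rw [ENNReal.toReal_ofReal (add_nonneg (Finset.sum_nonneg fun n _ => by positivity)
    (Finset.sum_nonneg fun n _ => by positivity))] at h6
  exact h6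

open Classical in
/-- the sign -/
noncomputable def sg (f : SF N 2) : ℝ := if W388.IsNewf N 2 f 1 then 1 else -1

omit [NeZero N] in
lemma sg_newf {f : SF N 2} {ε : ℝ} (hf : W388.IsNewf N 2 f ε) : W388.IsNewf N 2 f (sg f) := by
  unfold sg
  split_ifs with h
  · exact h
  · rcases hf.sign with rfl | rfl
    · exact absurd hf h
    · exact hf

omit [NeZero N] in
lemma sg_sq (f : SF N 2) : sg f * sg f = 1 := by
  unfold sg
  split_ifs <;> norm_num

lemma FF_two {B : Finset (SF N 2)} (hB : ∀ f ∈ B, W388.IsNewf N 2 f (sg f)) (c : SF N 2 → ℂ) (z : ℍ) :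
    FF (∑ f ∈ B, c f • f) (WN N • z) = FF (∑ f ∈ B, (c f * (sg f : ℂ)) • f) z := by
  have hN : (0 : ℝ) < N := by exact_mod_cast Nat.pos_of_ne_zero (NeZero.ne N)
  have hz : (z : ℂ) ≠ 0 := z.ne_zero
  have hzn : 0 < ‖(z : ℂ)‖ := norm_pos_iff.2 hz
  have hNc : (N : ℂ) ≠ 0 := by exact_mod_cast hN.ne'
  set κ : ℂ := (((Real.sqrt N : ℝ) : ℂ) * (z : ℂ) / Complex.I) ^ (2 : ℤ) with hκ
  have h1 : (∑ f ∈ B, c f • f) (WN N • z) = κ * (∑ f ∈ B, (c f * (sg f : ℂ)) • f) z := by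
    have h2 : ∀ (d : SF N 2 → ℂ) (w : ℍ), (∑ f ∈ B, d f • f) w = ∑ f ∈ B, d f * f w := by
      intro d w
      rw [cf_sum_apply]
      rfl
    rw [h2, h2, Finset.mul_sum]
    refine Finset.sum_congr rfl fun f hf => ?_
    have h3 := (hB f hf).fricke z (WN N • z) (by
      rw [WN_smul]
      field_simp)
    rw [h3]
    rw [← hκ]
    ring
  unfold FF
  rw [h1, WN_im]
  congr 1
  rw [norm_mul, hκ, norm_zpow, norm_div, norm_mul, Complex.norm_I, Complex.norm_real,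
    Real.norm_eq_abs, abs_of_nonneg (Real.sqrt_nonneg _), div_one, zpow_ofNat, zpow_ofNat, zpow_ofNat]
  have hs : Real.sqrt N ^ 2 = N := Real.sq_sqrt hN.le
  rw [mul_pow (Real.sqrt N), hs]
  field_simp

end Pool.Agent.H485.CC
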