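import Pool.Agent.H485.CC.Tw1
import Pool.Agent.H485.CC.Hmn

/-!
# The large sieve at the two cusps, and rigidity
-/

set_option autoImplicit false
set_option maxHeartbeats 4000000

open Complex Filter Topology Set MeasureTheory UpperHalfPlane MatrixGroups CongruenceSubgroup
open scoped ENNReal Modular

namespace Pool.Agent.H485.CC

open Pool.Agent.W165.RS (FF ac FF_meas FF_inv Inv measurable_smul_SL measurableSet_fd)
open W388.LV (SF bf pet om ck q_pet IsNewSet)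
open W120.LV (eqS eqS_apply pet_eq lint_ne_top)
open Pool.Agent.W347.LV

variable {N : ℕ} [NeZero N]

lemma le_of_sq_le_sq {a b : ℝ} (h : a ^ 2 ≤ b ^ 2) (hb : 0 ≤ b) : a ≤ b := by
  have := Real.sqrt_le_sqrt h
  rw [Real.sqrt_sq_eq_abs, Real.sqrt_sq hb] at this
  exact (le_abs_self a).trans this

lemma half_strip {N : ℕ} {s : Finset ℕ} {η c : ℝ} (hs : ∀ n ∈ s, 1 ≤ n ∧ 4 * Real.pi * n * c ≤ η) (G : SF N 2) :
    1 / (4 * Real.pi) * Real.exp (-η) * ∑ n ∈ s, ((Real.sqrt n)⁻¹ * ‖bf G n‖) ^ 2 ≤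
      ∑ n ∈ s, ‖ac G n‖ ^ 2 * (Real.exp (-(4 * Real.pi * n * c)) / (4 * Real.pi * n)) := by
  rw [Finset.mul_sum]
  refine Finset.sum_le_sum fun n hn => ?_
  obtain ⟨hn1, hnX⟩ := hs n hn
  have hn' : (0 : ℝ) < n := by exact_mod_cast hn1
  have h3 : ((Real.sqrt n)⁻¹ * ‖bf G n‖) ^ 2 = 1 / n * ‖bf G n‖ ^ 2 := by
    rw [mul_pow, inv_pow, Real.sq_sqrt hn'.le, one_div]
  rw [h3]
  have h4 : ‖Pool.Agent.W165.RS.ac G n‖ = ‖bf G n‖ := rfl
  rw [h4]
  have h5 : Real.exp (-η) ≤ Real.exp (-(4 * Real.pi * n * c)) := by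
    apply Real.exp_le_exp.2
    rw [neg_le_neg_iff]
    exact hnX
  calc 1 / (4 * Real.pi) * Real.exp (-η) * (1 / n * ‖bf G n‖ ^ 2) =
      ‖bf G n‖ ^ 2 * (Real.exp (-η) / (4 * Real.pi * n)) := by field_simp
    _ ≤ _ := by
      apply mul_le_mul_of_nonneg_left _ (by positivity)
      exact div_le_div_of_nonneg_right h5 (by positivity)

/-- the large sieve at the two cusps -/
theorem ls_two (hN : N.Prime) {B : Finset (SF N 2)} (hB : IsNewSet N 2 B) {c1 c2 η : ℝ}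
    (h1 : 1 / (N : ℝ) ≤ c1) (h2 : 1 / (N : ℝ) ≤ c2) (h12 : 1 ≤ N * (c1 * c2)) (s1 s2 : Finset ℕ)
    (hs1 : ∀ n ∈ s1, 1 ≤ n ∧ 4 * Real.pi * n * c1 ≤ η) (hs2 : ∀ n ∈ s2, 1 ≤ n ∧ 4 * Real.pi * n * c2 ≤ η)
    (a b : ℕ → ℝ) :
    ∑ f ∈ B, om f * (∑ n ∈ s1, a n * W388.lamf f n + sg f * ∑ n ∈ s2, b n * W388.lamf f n) ^ 2 ≤
      Real.exp η * (∑ n ∈ s1, a n ^ 2 + ∑ n ∈ s2, b n ^ 2) := by
  have hN0 : (0 : ℝ) < N := by exact_mod_cast Nat.pos_of_ne_zero (NeZero.ne N)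
  have hP := q_pet
  have hck := ck_pos' 2 le_rfl
  have hckv : ck 2 = 1 / (4 * Real.pi) := by
    unfold ck
    norm_num [Real.Gamma_one]
  have hBs : ∀ f ∈ B, W388.IsNewf N 2 f (sg f) := by
    intro f hf
    obtain ⟨ε, hε⟩ := hB.newf f hf
    exact sg_newf hε
  set S : SF N 2 → ℝ := fun f => ∑ n ∈ s1, a n * W388.lamf f n + sg f * ∑ n ∈ s2, b n * W388.lamf f n
    with hSdef
  have hppos : ∀ f ∈ B, 0 < (pet N 2 f f).re := fun f hf => pet_posB hB hf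
  have him : ∀ f : SF N 2, pet N 2 f f = (((pet N 2 f f).re : ℝ) : ℂ) := by
    intro f
    apply Complex.ext
    · simp
    · simp [((hP N 2).2.2.2 f).1]
  set c : SF N 2 → ℂ := fun f => ((S f * om f : ℝ) : ℂ) with hcdef
  set G : SF N 2 := ∑ f ∈ B, c f • f with hG
  set G' : SF N 2 := ∑ f ∈ B, (c f * (sg f : ℂ)) • f with hG'
  set Z : ℝ := ∑ f ∈ B, om f * S f ^ 2 with hZ
  have hGG : pet N 2 G G = ((ck 2 * Z : ℝ) : ℂ) := by
    rw [hG, pet_sum_left hP]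
    simp_rw [pet_sum_right hP]
    rw [hZ, Finset.mul_sum, Complex.ofReal_sum]
    refine Finset.sum_congr rfl fun f hf => ?_
    rw [Finset.sum_eq_single f]
    · have hp := hppos f hf
      have h2 : om f * (pet N 2 f f).re = ck 2 := by
        unfold om; field_simp
      rw [him f]
      have h3 : ((om f : ℝ) : ℂ) * (((pet N 2 f f).re : ℝ) : ℂ) = ((ck 2 : ℝ) : ℂ) := by
        rw [← Complex.ofReal_mul, h2]
      simp only [hcdef, Complex.conj_ofReal]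
      rw [Complex.ofReal_mul, Complex.ofReal_mul, Complex.ofReal_mul, Complex.ofReal_pow, ← h3]
      ring
    · intro g hg hgf
      rw [hB.orth f hf g hg (Ne.symm hgf), mul_zero]
    · intro h; exact absurd hf h
  have hbfre : ∀ f ∈ B, ∀ n, bf f n = (((bf f n).re : ℝ) : ℂ) := by
    intro f hf n
    obtain ⟨ε, hε⟩ := hB.newf f hf
    apply Complex.ext
    · simp
    · simp only [Complex.ofReal_im]
      exact hε.real n
  have hlam : ∀ f ∈ B, ∀ n, (W388.lamf f n : ℂ) = (((Real.sqrt n)⁻¹ : ℝ) : ℂ) * bf f n := by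
    intro f hf n
    rw [hbfre f hf n, ← Complex.ofReal_mul]
    congr 1
    unfold W388.lamf bf
    have e1 : ((((2 : ℤ) : ℝ) - 1) / 2) = 1 / 2 := by norm_num
    rw [e1, ← Real.sqrt_eq_rpow, div_eq_mul_inv, mul_comm]
  have hZG : ((Z : ℝ) : ℂ) = ∑ n ∈ s1, (a n : ℂ) * (((Real.sqrt n)⁻¹ : ℝ) : ℂ) * bf G n +
      ∑ n ∈ s2, (b n : ℂ) * (((Real.sqrt n)⁻¹ : ℝ) : ℂ) * bf G' n := by
    rw [hZ, Complex.ofReal_sum]
    have h1 : ∀ f ∈ B, ((om f * S f ^ 2 : ℝ) : ℂ) = ∑ n ∈ s1, (a n : ℂ) * (((Real.sqrt n)⁻¹ : ℝ) : ℂ) *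
        (c f * bf f n) + ∑ n ∈ s2, (b n : ℂ) * (((Real.sqrt n)⁻¹ : ℝ) : ℂ) * (c f * (sg f : ℂ) * bf f n) := by
      intro f hf
      have e1 : ((om f * S f ^ 2 : ℝ) : ℂ) = c f * (S f : ℂ) := by
        simp only [hcdef]
        push_cast
        ring
      rw [e1]
      have e2 : (S f : ℂ) = ∑ n ∈ s1, (a n : ℂ) * (W388.lamf f n : ℂ) +
          (sg f : ℂ) * ∑ n ∈ s2, (b n : ℂ) * (W388.lamf f n : ℂ) := by
        simp only [hSdef]
        push_cast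
        rfl
      rw [e2, mul_add, Finset.mul_sum, Finset.mul_sum, Finset.mul_sum]
      congr 1
      · refine Finset.sum_congr rfl fun n _ => ?_
        rw [hlam f hf n]
        ring
      · refine Finset.sum_congr rfl fun n _ => ?_
        rw [hlam f hf n]
        ring
    rw [Finset.sum_congr rfl h1, Finset.sum_add_distrib, Finset.sum_comm]
    congr 1
    · refine Finset.sum_congr rfl fun n hn => ?_
      rw [hG, bf_sum, Finset.mul_sum]
    · rw [Finset.sum_comm]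
      refine Finset.sum_congr rfl fun n hn => ?_
      rw [hG', bf_sum, Finset.mul_sum]
  set Y1 : ℝ := ∑ n ∈ s1, ((Real.sqrt n)⁻¹ * ‖bf G n‖) ^ 2 with hY1
  set Y2 : ℝ := ∑ n ∈ s2, ((Real.sqrt n)⁻¹ * ‖bf G' n‖) ^ 2 with hY2
  have hZ0 : 0 ≤ Z := by
    apply Finset.sum_nonneg
    intro f hf
    apply mul_nonneg
    · unfold om
      exact div_nonneg hck.le (hppos f hf).le
    · positivity
  have hY10 : 0 ≤ Y1 := Finset.sum_nonneg fun n _ => by positivity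
  have hY20 : 0 ≤ Y2 := Finset.sum_nonneg fun n _ => by positivity
  have hA1 : 0 ≤ ∑ n ∈ s1, a n ^ 2 := Finset.sum_nonneg fun n _ => by positivity
  have hA2 : 0 ≤ ∑ n ∈ s2, b n ^ 2 := Finset.sum_nonneg fun n _ => by positivity
  have hCS : Z ^ 2 ≤ (∑ n ∈ s1, a n ^ 2 + ∑ n ∈ s2, b n ^ 2) * (Y1 + Y2) := by
    have h1 : Z ≤ ∑ n ∈ s1, |a n| * ((Real.sqrt n)⁻¹ * ‖bf G n‖) +
        ∑ n ∈ s2, |b n| * ((Real.sqrt n)⁻¹ * ‖bf G' n‖) := by
      have h2 : Z = ‖((Z : ℝ) : ℂ)‖ := by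
        rw [Complex.norm_real, Real.norm_eq_abs, abs_of_nonneg hZ0]
      rw [h2, hZG]
      refine (norm_add_le _ _).trans (add_le_add ?_ ?_)
      · refine (norm_sum_le _ _).trans (Finset.sum_le_sum fun n _ => ?_)
        rw [norm_mul, norm_mul, Complex.norm_real, Complex.norm_real, Real.norm_eq_abs, Real.norm_eq_abs,
          abs_of_nonneg (show 0 ≤ (Real.sqrt n)⁻¹ by positivity), mul_assoc]
      · refine (norm_sum_le _ _).trans (Finset.sum_le_sum fun n _ => ?_)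
        rw [norm_mul, norm_mul, Complex.norm_real, Complex.norm_real, Real.norm_eq_abs, Real.norm_eq_abs,
          abs_of_nonneg (show 0 ≤ (Real.sqrt n)⁻¹ by positivity), mul_assoc]
    have g1 := Finset.sum_mul_sq_le_sq_mul_sq s1 (fun n => |a n|) (fun n => (Real.sqrt n)⁻¹ * ‖bf G n‖)
    have g2 := Finset.sum_mul_sq_le_sq_mul_sq s2 (fun n => |b n|) (fun n => (Real.sqrt n)⁻¹ * ‖bf G' n‖)
    simp only [sq_abs] at g1 g2
    set U1 := ∑ n ∈ s1, |a n| * ((Real.sqrt n)⁻¹ * ‖bf G n‖)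
    set U2 := ∑ n ∈ s2, |b n| * ((Real.sqrt n)⁻¹ * ‖bf G' n‖)
    set A1 := ∑ n ∈ s1, a n ^ 2
    set A2 := ∑ n ∈ s2, b n ^ 2
    have hU1 : 0 ≤ U1 := Finset.sum_nonneg fun n _ => by positivity
    have hU2 : 0 ≤ U2 := Finset.sum_nonneg fun n _ => by positivity
    have h3 : Z ^ 2 ≤ (U1 + U2) ^ 2 := pow_le_pow_left₀ hZ0 h1 2
    have h4 : 2 * (U1 * U2) ≤ A1 * Y2 + A2 * Y1 := by
      have h5 : (U1 * U2) ^ 2 ≤ (A1 * Y2) * (A2 * Y1) := by
        calc (U1 * U2) ^ 2 = U1 ^ 2 * U2 ^ 2 := by ring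
          _ ≤ (A1 * Y1) * (A2 * Y2) := mul_le_mul g1 g2 (by positivity) (by positivity)
          _ = _ := by ring
      have h6 : (2 * (U1 * U2)) ^ 2 ≤ (A1 * Y2 + A2 * Y1) ^ 2 := by
        nlinarith [sq_nonneg (A1 * Y2 - A2 * Y1)]
      exact le_of_sq_le_sq h6 (by positivity)
    nlinarith
  have hstrip := strip_two hN (f := G) (f' := G') (fun z => FF_two hBs c z) h1 h2 h12 s1 s2
  rw [hGG, Complex.ofReal_re, hckv] at hstrip
  have hYle : Y1 + Y2 ≤ Real.exp η * Z := by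
    have k1 := half_strip hs1 G
    have k2 := half_strip hs2 G'
    have k3 : 1 / (4 * Real.pi) * Real.exp (-η) * (Y1 + Y2) ≤ 1 / (4 * Real.pi) * Z := by
      rw [mul_add]
      exact (add_le_add k1 k2).trans hstrip
    have h3 : Y1 + Y2 = (4 * Real.pi * Real.exp η) * (1 / (4 * Real.pi) * Real.exp (-η) * (Y1 + Y2)) := by
      rw [Real.exp_neg]
      field_simp
    rw [h3]
    calc (4 * Real.pi * Real.exp η) * (1 / (4 * Real.pi) * Real.exp (-η) * (Y1 + Y2)) ≤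
        (4 * Real.pi * Real.exp η) * (1 / (4 * Real.pi) * Z) :=
          mul_le_mul_of_nonneg_left k3 (by positivity)
      _ = _ := by field_simp
  set A : ℝ := ∑ n ∈ s1, a n ^ 2 + ∑ n ∈ s2, b n ^ 2 with hAdef
  have hA : 0 ≤ A := add_nonneg hA1 hA2
  have h8 : Z ^ 2 ≤ A * (Real.exp η * Z) :=
    hCS.trans (mul_le_mul_of_nonneg_left hYle hA)
  show Z ≤ Real.exp η * A
  by_contra hcon
  push Not at hcon
  have hXpos : 0 < Z := lt_of_le_of_lt (mul_nonneg (Real.exp_pos η).le hA) hcon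
  nlinarith

lemma disc_lem {W R Q K S : ℝ} (hQ : 0 ≤ Q) (h : ∀ x : ℝ, x ^ 2 * W + 2 * x * R + Q ≤ K * (x ^ 2 + S)) :
    R ^ 2 ≤ (K - W) * (K * S) := by
  have h1 : ∀ x : ℝ, 0 ≤ (K - W) * (x * x) + (-(2 * R)) * x + K * S := by
    intro x
    have := h x
    nlinarith
  have h2 := discrim_le_zero h1
  unfold discrim at h2
  nlinarith

/-- the total weight -/
noncomputable def Wt (B : Finset (SF N 2)) : ℝ := ∑ f ∈ B, om f

/-- rigidity: twisted by the sign -/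
theorem rig_sg (hN : N.Prime) {B : Finset (SF N 2)} (hB : IsNewSet N 2 B) {c1 c2 η : ℝ}
    (h1 : 1 / (N : ℝ) ≤ c1) (h2 : 1 / (N : ℝ) ≤ c2) (h12 : 1 ≤ N * (c1 * c2)) (hη : 4 * Real.pi * c1 ≤ η)
    (s : Finset ℕ) (hs : ∀ n ∈ s, 1 ≤ n ∧ 4 * Real.pi * n * c2 ≤ η) (b : ℕ → ℝ) :
    (∑ f ∈ B, om f * (sg f * ∑ n ∈ s, b n * W388.lamf f n)) ^ 2 ≤
      (Real.exp η - Wt B) * (Real.exp η * ∑ n ∈ s, b n ^ 2) := by
  refine disc_lem (Q := ∑ f ∈ B, om f * (sg f * ∑ n ∈ s, b n * W388.lamf f n) ^ 2)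
    (Finset.sum_nonneg fun f _ => mul_nonneg (om_nonneg f) (sq_nonneg _)) fun x => ?_
  have h := ls_two hN hB h1 h2 h12 {1} s (by
    intro n hn
    rw [Finset.mem_singleton] at hn
    subst hn
    refine ⟨le_rfl, ?_⟩
    push_cast
    linarith) hs (fun _ => x) b
  simp only [Finset.sum_singleton] at h
  refine le_trans (le_of_eq ?_) h
  unfold Wt
  rw [Finset.mul_sum, Finset.mul_sum, ← Finset.sum_add_distrib, ← Finset.sum_add_distrib]
  refine Finset.sum_congr rfl fun f hf => ?_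
  obtain ⟨ε, hε⟩ := hB.newf f hf
  have e1 : W388.lamf f 1 = 1 := (W388.heckeSeq_lamf hε).one
  rw [e1]
  ring

/-- rigidity: without twist -/
theorem rig_un (hN : N.Prime) {B : Finset (SF N 2)} (hB : IsNewSet N 2 B) {η : ℝ}
    (s : Finset ℕ) (hs : ∀ n ∈ s, 2 ≤ n ∧ 4 * Real.pi * n ≤ η * N) (hη : 4 * Real.pi ≤ η * N) (b : ℕ → ℝ) :
    (∑ f ∈ B, om f * (∑ n ∈ s, b n * W388.lamf f n)) ^ 2 ≤
      (Real.exp η - Wt B) * (Real.exp η * ∑ n ∈ s, b n ^ 2) := by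
  have hN0 : (0 : ℝ) < N := by exact_mod_cast hN.pos
  refine disc_lem (Q := ∑ f ∈ B, om f * (∑ n ∈ s, b n * W388.lamf f n) ^ 2)
    (Finset.sum_nonneg fun f _ => mul_nonneg (om_nonneg f) (sq_nonneg _)) fun x => ?_
  have h1s : (1 : ℕ) ∉ s := fun h => by
    have := (hs 1 h).1
    omega
  have h := ls_two hN hB (c1 := 1 / N) (c2 := 1) (η := η) le_rfl (by
    rw [div_le_one hN0]
    exact_mod_cast hN.one_le) (by field_simp; exact le_rfl) (insert 1 s) ∅ (by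
    intro n hn
    rw [Finset.mem_insert] at hn
    rcases hn with rfl | hn
    · refine ⟨le_rfl, ?_⟩
      push_cast
      rw [mul_one_div, div_le_iff₀ hN0]
      linarith
    · obtain ⟨k1, k2⟩ := hs n hn
      refine ⟨by omega, ?_⟩
      rw [mul_one_div, div_le_iff₀ hN0]
      exact k2) (by simp) (fun n => if n = 1 then x else b n) (fun _ => 0)
  simp only [Finset.sum_empty, mul_zero, add_zero] at h
  have e0 : ∀ g : ℕ → ℝ, ∑ n ∈ s, (if n = 1 then x else b n) * g n = ∑ n ∈ s, b n * g n := by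
    intro g
    refine Finset.sum_congr rfl fun n hn => ?_
    rw [if_neg (by rintro rfl; exact h1s hn)]
  have e2 : ∑ n ∈ insert 1 s, (if n = 1 then x else b n) ^ 2 = x ^ 2 + ∑ n ∈ s, b n ^ 2 := by
    rw [Finset.sum_insert h1s, if_pos rfl]
    congr 1
    refine Finset.sum_congr rfl fun n hn => ?_
    rw [if_neg (by rintro rfl; exact h1s hn)]
  rw [e2] at h
  refine le_trans (le_of_eq ?_) h
  unfold Wt
  rw [Finset.mul_sum, Finset.mul_sum, ← Finset.sum_add_distrib, ← Finset.sum_add_distrib]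
  refine Finset.sum_congr rfl fun f hf => ?_
  obtain ⟨ε, hε⟩ := hB.newf f hf
  have e1 : W388.lamf f 1 = 1 := (W388.heckeSeq_lamf hε).one
  rw [Finset.sum_insert h1s, if_pos rfl, e0, e1]
  ring

end Pool.Agent.H485.CC
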